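import Mathlib

-- part ad7a55_nt.Defs
section

/-! Statement layer: the j-function, discriminants of CM points, Galois orbits, the measure. -/

set_option autoImplicit false

noncomputable section

open UpperHalfPlane MeasureTheory

namespace Pool.Agent.P.MP_20768c_nt.Tz.EQ

/-- Klein's modular invariant `j = E₄³ / Δ`; it identifies `Y(1) = SL₂(ℤ)\ℍ` with `ℂ`. -/
def jInv (τ : ℍ) : ℂ := ModularForm.E₄ τ ^ 3 / ModularForm.discriminant τ

/-- `τ` is a CM point of discriminant `D`: a root of a primitive integral quadratic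
`a τ² + b τ + c` with `D = b² - 4ac`. -/
def HasDisc (τ : ℍ) (D : ℤ) : Prop :=
  ∃ a b c : ℤ, 0 < a ∧ Int.gcd (Int.gcd a b) c = 1 ∧
    (a : ℂ) * (τ : ℂ) ^ 2 + b * τ + c = 0 ∧ D = b ^ 2 - 4 * a * c

/-- The orbit of a point of `ℂⁿ` under the field automorphisms of `ℂ` that fix `F` pointwise. -/
def galOrbit {n : ℕ} (F : IntermediateField ℚ ℂ) (x : Fin n → ℂ) : Set (Fin n → ℂ) :=
  {y | ∃ σ : ℂ ≃+* ℂ, (∀ a ∈ F, σ a = a) ∧ y = fun k => σ (x k)}

/-- The normalised hyperbolic measure of `Y(1)` in the coordinate `j`: the hyperbolic area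
`dx dy / y²` on the standard fundamental domain, normalised to mass one, pushed forward by `j`. -/
def mY : Measure ℂ := (ProbabilityTheory.cond (volume : Measure ℍ) ModularGroup.fd).map jInv

end Pool.Agent.P.MP_20768c_nt.Tz.EQ

end

end

-- part ad7a55_nt.Base
section

/-! The groups and spaces of the dynamical part. -/

set_option autoImplicit false

noncomputable section

open MeasureTheory Topology Filter
open scoped MatrixGroups

namespace Pool.Agent.P.MP_20768c_nt.Tz.EQ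

/-- Upper unipotent. -/
def uu {R : Type} [CommRing R] (x : R) : SL(2, R) := ⟨!![1, x; 0, 1], by simp [Matrix.det_fin_two]⟩

/-- Lower unipotent. -/
def ul {R : Type} [CommRing R] (x : R) : SL(2, R) := ⟨!![1, 0; x, 1], by simp [Matrix.det_fin_two]⟩

/-- Diagonal element. -/
def dg {F : Type} [Field F] (a : F) (ha : a ≠ 0) : SL(2, F) :=
  ⟨!![a, 0; 0, a⁻¹], by simp [Matrix.det_fin_two, ha]⟩

@[simp] theorem uu_val {R : Type} [CommRing R] (x : R) :
    (uu x : Matrix (Fin 2) (Fin 2) R) = !![1, x; 0, 1] := rfl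

@[simp] theorem ul_val {R : Type} [CommRing R] (x : R) :
    (ul x : Matrix (Fin 2) (Fin 2) R) = !![1, 0; x, 1] := rfl

@[simp] theorem dg_val {F : Type} [Field F] (a : F) (ha : a ≠ 0) :
    (dg a ha : Matrix (Fin 2) (Fin 2) F) = !![a, 0; 0, a⁻¹] := rfl

theorem uu_add {R : Type} [CommRing R] (x y : R) : uu (x + y) = uu x * uu y := by
  ext i j; fin_cases i <;> fin_cases j <;> simp [Matrix.mul_apply, Fin.sum_univ_two, add_comm]

theorem ul_add {R : Type} [CommRing R] (x y : R) : ul (x + y) = ul x * ul y := by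
  ext i j; fin_cases i <;> fin_cases j <;> simp [Matrix.mul_apply, Fin.sum_univ_two]

@[simp] theorem uu_zero {R : Type} [CommRing R] : uu (0 : R) = 1 := by
  ext i j; fin_cases i <;> fin_cases j <;> simp

@[simp] theorem ul_zero {R : Type} [CommRing R] : ul (0 : R) = 1 := by
  ext i j; fin_cases i <;> fin_cases j <;> simp

theorem uu_inv {R : Type} [CommRing R] (x : R) : (uu x)⁻¹ = uu (-x) :=
  inv_eq_of_mul_eq_one_right (by rw [← uu_add]; simp)

theorem ul_inv {R : Type} [CommRing R] (x : R) : (ul x)⁻¹ = ul (-x) :=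
  inv_eq_of_mul_eq_one_right (by rw [← ul_add]; simp)

theorem continuous_SL {α R : Type} [CommRing R] [TopologicalSpace R] [TopologicalSpace α]
    {f : α → SL(2, R)} (h : ∀ i j, Continuous fun a => f a i j) : Continuous f :=
  Continuous.subtype_mk (continuous_matrix h) _

theorem continuous_uu {R : Type} [CommRing R] [TopologicalSpace R] :
    Continuous (uu : R → SL(2, R)) :=
  continuous_SL fun i j => by fin_cases i <;> fin_cases j <;> simp [uu] <;> fun_prop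

theorem continuous_ul {R : Type} [CommRing R] [TopologicalSpace R] :
    Continuous (ul : R → SL(2, R)) :=
  continuous_SL fun i j => by fin_cases i <;> fin_cases j <;> simp [ul] <;> fun_prop

section inst

variable {F : Type} [NormedField F]

instance instLCSL [LocallyCompactSpace F] : LocallyCompactSpace SL(2, F) :=
  haveI : LocallyCompactSpace (Matrix (Fin 2) (Fin 2) F) :=
    inferInstanceAs (LocallyCompactSpace (Fin 2 → Fin 2 → F))
  Matrix.SpecialLinearGroup.isClosedEmbedding_val.locallyCompactSpace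

instance instSCSL [SecondCountableTopology F] : SecondCountableTopology SL(2, F) :=
  haveI : SecondCountableTopology (Matrix (Fin 2) (Fin 2) F) :=
    inferInstanceAs (SecondCountableTopology (Fin 2 → Fin 2 → F))
  Matrix.SpecialLinearGroup.isClosedEmbedding_val.isEmbedding.secondCountableTopology

instance instT2SL : T2Space SL(2, F) :=
  Matrix.SpecialLinearGroup.isClosedEmbedding_val.isEmbedding.t2Space

instance instPolishSL [SecondCountableTopology F] [CompleteSpace F] : PolishSpace SL(2, F) :=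
  haveI : PolishSpace (Matrix (Fin 2) (Fin 2) F) :=
    inferInstanceAs (PolishSpace (Fin 2 → Fin 2 → F))
  Matrix.SpecialLinearGroup.isClosedEmbedding_val.polishSpace

instance instMSSL : MeasurableSpace SL(2, F) := borel _

instance instBSSL : BorelSpace SL(2, F) := ⟨rfl⟩

end inst

/-- A locally compact second countable Hausdorff space is Polish. -/
theorem polish_of_lc (Z : Type) [TopologicalSpace Z] [T2Space Z] [LocallyCompactSpace Z]
    [SecondCountableTopology Z] : PolishSpace Z := by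
  have hsc : SecondCountableTopology (OnePoint Z) := by
    obtain ⟨K⟩ : Nonempty (CompactExhaustion Z) := inferInstance
    obtain ⟨b, hbc, -, hb⟩ := TopologicalSpace.exists_countable_basis Z
    have hB : TopologicalSpace.IsTopologicalBasis
        (((fun U : Set Z => ((↑) : Z → OnePoint Z) '' U) '' b) ∪
          Set.range fun n : ℕ => (((↑) : Z → OnePoint Z) '' K n)ᶜ) := by
      refine TopologicalSpace.isTopologicalBasis_of_isOpen_of_nhds ?_ ?_
      · rintro _ (⟨U, hU, rfl⟩ | ⟨n, rfl⟩)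
        · exact OnePoint.isOpenEmbedding_coe.isOpenMap _ (hb.isOpen hU)
        · exact ((K.isCompact n).image OnePoint.continuous_coe).isClosed.isOpen_compl
      · intro a u hau hu
        induction a using OnePoint.rec with
        | infty =>
          obtain ⟨n, hn⟩ := K.exists_superset_of_isCompact
            ((OnePoint.isOpen_iff_of_mem hau).1 hu).2
          refine ⟨_, Or.inr ⟨n, rfl⟩, by simp, ?_⟩
          intro z hz
          induction z using OnePoint.rec with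
          | infty => exact hau
          | coe z =>
            by_contra h
            exact hz ⟨z, hn h, rfl⟩
        | coe a =>
          obtain ⟨U, hU, haU, hUu⟩ := hb.exists_subset_of_mem_open
            (show a ∈ ((↑) : Z → OnePoint Z) ⁻¹' u from hau) (hu.preimage OnePoint.continuous_coe)
          exact ⟨_, Or.inl ⟨U, hU, rfl⟩, ⟨a, haU, rfl⟩, Set.image_subset_iff.2 hUu⟩
    exact hB.secondCountableTopology ((hbc.image _).union (Set.countable_range _))
  let _ := TopologicalSpace.metrizableSpaceMetric (OnePoint Z)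
  have : PolishSpace (OnePoint Z) := inferInstance
  have : PolishSpace (Set.range ((↑) : Z → OnePoint Z)) :=
    OnePoint.isOpenEmbedding_coe.isOpen_range.polishSpace
  exact OnePoint.isOpenEmbedding_coe.isEmbedding.toHomeomorph.isClosedEmbedding.polishSpace

variable (p : ℕ) [Fact p.Prime]

instance instMSQp : MeasurableSpace ℚ_[p] := borel _

instance instBSQp : BorelSpace ℚ_[p] := ⟨rfl⟩

/-- `G = SL₂(ℝ) × SL₂(ℚ_p)`. -/
abbrev GG : Type := SL(2, ℝ) × SL(2, ℚ_[p])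

/-- `x ∈ ℤ[1/p]`. -/
def InZp (p : ℕ) (x : ℚ) : Prop := ∃ (a : ℕ) (m : ℤ), (p : ℚ) ^ a * x = m

theorem InZp.add {p : ℕ} {x y : ℚ} (hx : InZp p x) (hy : InZp p y) : InZp p (x + y) := by
  obtain ⟨a, m, h⟩ := hx
  obtain ⟨b, n, h'⟩ := hy
  refine ⟨a + b, p ^ b * m + p ^ a * n, ?_⟩
  push_cast
  rw [← h, ← h']; ring

theorem InZp.mul {p : ℕ} {x y : ℚ} (hx : InZp p x) (hy : InZp p y) : InZp p (x * y) := by
  obtain ⟨a, m, h⟩ := hx
  obtain ⟨b, n, h'⟩ := hy
  refine ⟨a + b, m * n, ?_⟩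
  push_cast
  rw [← h, ← h']; ring

theorem InZp.neg {p : ℕ} {x : ℚ} (hx : InZp p x) : InZp p (-x) := by
  obtain ⟨a, m, h⟩ := hx
  refine ⟨a, -m, ?_⟩
  push_cast
  rw [← h]; ring

theorem inZp_int (p : ℕ) (m : ℤ) : InZp p m := ⟨0, m, by simp⟩

/-- `SL₂(ℤ[1/p])` inside `SL₂(ℚ)`. -/
def GamQ (p : ℕ) : Subgroup SL(2, ℚ) where
  carrier := {γ | ∀ i j, InZp p (γ i j)}
  one_mem' := fun i j => by
    fin_cases i <;> fin_cases j
    · simpa using inZp_int p 1
    · simpa using inZp_int p 0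
    · simpa using inZp_int p 0
    · simpa using inZp_int p 1
  mul_mem' := fun {a b} ha hb i j => by
    simp only [Matrix.SpecialLinearGroup.coe_mul, Matrix.mul_apply, Fin.sum_univ_two]
    exact ((ha _ _).mul (hb _ _)).add ((ha _ _).mul (hb _ _))
  inv_mem' := fun {a} ha i j => by
    rw [Matrix.SpecialLinearGroup.SL2_inv_expl]
    fin_cases i <;> fin_cases j
    · simpa using ha 1 1
    · simpa using (ha 0 1).neg
    · simpa using (ha 1 0).neg
    · simpa using ha 0 0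

/-- The diagonal embedding of `SL₂(ℚ)`. -/
def emb : SL(2, ℚ) →* GG p :=
  (Matrix.SpecialLinearGroup.map (Rat.castHom ℝ)).prod
    (Matrix.SpecialLinearGroup.map (Rat.castHom ℚ_[p]))

/-- The lattice `Γ`. -/
def Gam : Subgroup (GG p) := (GamQ p).map (emb p)

/-- `SL₂(ℤ)` inside `SL₂(ℝ)`. -/
def Gam0 : Subgroup SL(2, ℝ) := (Matrix.SpecialLinearGroup.map (Int.castRingHom ℝ)).range

/-- `K = SL₂(ℤ_p)`. -/
def Kp : Subgroup SL(2, ℚ_[p]) where
  carrier := {k | ∀ i j, ‖k i j‖ ≤ 1}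
  one_mem' := fun i j => by fin_cases i <;> fin_cases j <;> simp
  mul_mem' := fun {a b} ha hb i j => by
    simp only [Matrix.SpecialLinearGroup.coe_mul, Matrix.mul_apply, Fin.sum_univ_two]
    refine (Padic.nonarchimedean _ _).trans (max_le ?_ ?_) <;> rw [norm_mul] <;>
      exact mul_le_one₀ (ha _ _) (norm_nonneg _) (hb _ _)
  inv_mem' := fun {a} ha i j => by
    rw [Matrix.SpecialLinearGroup.SL2_inv_expl]
    fin_cases i <;> fin_cases j
    · simpa using ha 1 1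
    · simpa using ha 0 1
    · simpa using ha 1 0
    · simpa using ha 0 0

/-- Elements of `(1/q) ℤ[1/p]` bounded at both places form a finite set. -/
theorem finite_bounded (q : ℕ) (hq : 0 < q) (R : ℝ) :
    {x : ℚ | InZp p (q * x) ∧ |(x : ℝ)| ≤ R ∧ ‖(x : ℚ_[p])‖ ≤ R}.Finite := by
  have hp : (1 : ℝ) < p := by exact_mod_cast (Fact.out : p.Prime).one_lt
  obtain ⟨c, hc⟩ := pow_unbounded_of_one_lt R hp
  have hq' : (q : ℚ) ≠ 0 := by positivity
  have hp' : (p : ℚ) ≠ 0 := by exact_mod_cast (Fact.out : p.Prime).ne_zero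
  have hpP : (p : ℚ_[p]) ≠ 0 := by exact_mod_cast (Fact.out : p.Prime).ne_zero
  refine ((Set.finite_Icc (-⌈(p : ℝ) ^ c * q * R⌉) ⌈(p : ℝ) ^ c * q * R⌉).image
    fun m : ℤ => (m : ℚ) / (p ^ c * q)).subset ?_
  rintro x ⟨⟨a, m, hm⟩, h1, h2⟩
  have hn : ‖(((p : ℚ) ^ c * (q * x) : ℚ) : ℚ_[p])‖ ≤ 1 := by
    push_cast
    rw [norm_mul, norm_mul, norm_pow, Padic.norm_p, inv_pow]
    have h3 : ‖(q : ℚ_[p])‖ ≤ 1 := by simpa using Padic.norm_int_le_one (p := p) (q : ℤ)
    have h4 : ‖(q : ℚ_[p])‖ * ‖(x : ℚ_[p])‖ ≤ p ^ c :=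
      (mul_le_of_le_one_left (norm_nonneg _) h3).trans (h2.trans hc.le)
    rw [inv_mul_le_iff₀ (by positivity)]
    simpa using h4
  have hint : ∃ n : ℤ, (p : ℚ) ^ c * (q * x) = n := by
    rcases le_total a c with h | h
    · obtain ⟨e, rfl⟩ := Nat.exists_eq_add_of_le h
      exact ⟨p ^ e * m, by push_cast; rw [← hm]; ring⟩
    · obtain ⟨e, rfl⟩ := Nat.exists_eq_add_of_le h
      have h5 : (p : ℚ) ^ e * ((p : ℚ) ^ c * (q * x)) = m := by rw [← hm]; ring
      have h6 : ‖((m : ℤ) : ℚ_[p])‖ ≤ (p : ℝ) ^ (-(e : ℤ)) := by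
        have : ((m : ℤ) : ℚ_[p]) = (p : ℚ_[p]) ^ e * (((p : ℚ) ^ c * (q * x) : ℚ) : ℚ_[p]) := by
          have := congrArg (fun z : ℚ => (z : ℚ_[p])) h5
          simpa using this.symm
        rw [this, norm_mul, norm_pow, Padic.norm_p, zpow_neg, zpow_natCast, inv_pow]
        exact mul_le_of_le_one_right (by positivity) hn
      obtain ⟨n, hn'⟩ := (Padic.norm_int_le_pow_iff_dvd m e).1 h6
      refine ⟨n, mul_left_cancel₀ (pow_ne_zero e hp') ?_⟩
      rw [h5, hn']; push_cast; ring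
  obtain ⟨n, hn'⟩ := hint
  refine ⟨n, ?_, ?_⟩
  · have h7 : |(n : ℝ)| ≤ (p : ℝ) ^ c * q * R := by
      have : (n : ℝ) = (p : ℝ) ^ c * q * x := by
        have := congrArg (fun z : ℚ => (z : ℝ)) hn'
        simp only [Rat.cast_mul, Rat.cast_pow, Rat.cast_natCast, Rat.cast_intCast] at this
        rw [← this]; ring
      rw [this, abs_mul, abs_of_nonneg (by positivity : (0 : ℝ) ≤ (p : ℝ) ^ c * q)]
      exact mul_le_mul_of_nonneg_left h1 (by positivity)
    have h8 : |n| ≤ ⌈(p : ℝ) ^ c * q * R⌉ := by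
      have : ((|n| : ℤ) : ℝ) ≤ (⌈(p : ℝ) ^ c * q * R⌉ : ℤ) := by
        rw [Int.cast_abs]; exact h7.trans (Int.le_ceil _)
      exact_mod_cast this
    exact abs_le.1 h8
  · change (n : ℚ) / (p ^ c * q) = x
    rw [← hn']; field_simp

theorem norm_entry_le {F : Type} [NormedField F] (f : Fin 2 → Fin 2 → F) (i j : Fin 2) :
    ‖f i j‖ ≤ ‖f‖ := (norm_le_pi_norm (f i) j).trans (norm_le_pi_norm f i)

/-- `Γ` meets every compact set in a finite set. -/
theorem Gam_finite {C : Set (GG p)} (hC : IsCompact C) : (C ∩ Gam p).Finite := by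
  have hb : ∃ R : ℝ, ∀ g ∈ C, ∀ i j, |g.1 i j| ≤ R ∧ ‖g.2 i j‖ ≤ R := by
    have hc : Continuous fun g : GG p =>
        ((fun i j => g.1 i j : Fin 2 → Fin 2 → ℝ), (fun i j => g.2 i j : Fin 2 → Fin 2 → ℚ_[p])) :=
      (continuous_pi fun i => continuous_pi fun j =>
        (continuous_apply j).comp ((continuous_apply i).comp
          (continuous_subtype_val.comp continuous_fst))).prodMk
      (continuous_pi fun i => continuous_pi fun j =>
        (continuous_apply j).comp ((continuous_apply i).comp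
          (continuous_subtype_val.comp continuous_snd)))
    obtain ⟨R, hR⟩ := (hC.image hc).isBounded.exists_norm_le
    refine ⟨R, fun g hg i j => ?_⟩
    have := hR _ ⟨g, hg, rfl⟩
    rw [Prod.norm_def, max_le_iff] at this
    exact ⟨(norm_entry_le (fun i j => g.1 i j) i j).trans this.1,
      (norm_entry_le (fun i j => g.2 i j) i j).trans this.2⟩
  obtain ⟨R, hR⟩ := hb
  have hf := finite_bounded p 1 one_pos R
  have hfin : {γ : SL(2, ℚ) | ∀ i j, γ i j ∈
      {x : ℚ | InZp p ((1 : ℕ) * x) ∧ |(x : ℝ)| ≤ R ∧ ‖(x : ℚ_[p])‖ ≤ R}}.Finite := by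
    have := Set.Finite.pi' fun _ : Fin 2 => Set.Finite.pi' fun _ : Fin 2 => hf
    refine Set.Finite.of_finite_image (f := fun γ : SL(2, ℚ) => (fun i j => γ i j)) (this.subset ?_)
      fun a _ b _ h => Subtype.ext h
    rintro _ ⟨γ, hγ, rfl⟩ i j
    exact hγ i j
  refine (hfin.image (emb p)).subset ?_
  rintro _ ⟨hg, γ, hγ, rfl⟩
  refine ⟨γ, fun i j => ⟨by simpa using hγ i j, ?_, ?_⟩, rfl⟩
  · exact (hR _ hg i j).1
  · exact (hR _ hg i j).2

theorem Gam0_finite {C : Set SL(2, ℝ)} (hC : IsCompact C) : (C ∩ Gam0).Finite := by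
  have hc : Continuous fun g : SL(2, ℝ) => (fun i j => g i j : Fin 2 → Fin 2 → ℝ) :=
    continuous_pi fun i => continuous_pi fun j =>
      (continuous_apply j).comp ((continuous_apply i).comp continuous_subtype_val)
  obtain ⟨R, hR⟩ := (hC.image hc).isBounded.exists_norm_le
  have hfin : {γ : SL(2, ℤ) | ∀ i j, γ i j ∈ Set.Icc (-⌈R⌉) ⌈R⌉}.Finite := by
    have := Set.Finite.pi' fun _ : Fin 2 => Set.Finite.pi' fun _ : Fin 2 =>
      Set.finite_Icc (-⌈R⌉) ⌈R⌉
    refine Set.Finite.of_finite_image (f := fun γ : SL(2, ℤ) => (fun i j => γ i j)) (this.subset ?_)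
      fun a _ b _ h => Subtype.ext h
    rintro _ ⟨γ, hγ, rfl⟩ i j
    exact hγ i j
  refine (hfin.image (Matrix.SpecialLinearGroup.map (Int.castRingHom ℝ))).subset ?_
  rintro _ ⟨hg, γ, rfl⟩
  refine ⟨γ, fun i j => abs_le.1 ?_, rfl⟩
  have h1 := (norm_entry_le _ i j).trans (hR _ ⟨_, hg, rfl⟩)
  have h2 : ((|γ i j| : ℤ) : ℝ) ≤ (⌈R⌉ : ℤ) := by
    rw [Int.cast_abs]; exact le_trans h1 (Int.le_ceil _)
  exact_mod_cast h2

/-- A subgroup that meets compact sets in finite sets is closed. -/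
theorem isClosed_of_finite {H : Type} [Group H] [TopologicalSpace H] [T2Space H]
    [LocallyCompactSpace H] {Γ : Subgroup H}
    (h : ∀ C : Set H, IsCompact C → (C ∩ Γ).Finite) : IsClosed (Γ : Set H) := by
  refine isClosed_of_closure_subset fun x hx => ?_
  obtain ⟨C, hC, hxC⟩ := exists_compact_mem_nhds x
  have h2 : x ∈ closure (C ∩ Γ) := by
    rw [mem_closure_iff_nhds] at hx ⊢
    intro t ht
    obtain ⟨y, hy⟩ := hx (t ∩ C) (inter_mem ht hxC)
    exact ⟨y, hy.1.1, hy.1.2, hy.2⟩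
  rw [(h C hC).isClosed.closure_eq] at h2
  exact h2.2

instance Gam_closed : IsClosed (Gam p : Set (GG p)) := isClosed_of_finite fun _ => Gam_finite p

instance Gam0_closed : IsClosed (Gam0 : Set SL(2, ℝ)) := isClosed_of_finite fun _ => Gam0_finite

/-- `X = G / Γ`. -/
abbrev XX : Type := GG p ⧸ Gam p

/-- `Y₀ = SL₂(ℝ) / SL₂(ℤ)`. -/
abbrev YY : Type := SL(2, ℝ) ⧸ Gam0

instance instPolishXX : PolishSpace (XX p) := polish_of_lc _

instance instPolishYY : PolishSpace YY := polish_of_lc _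

instance instBSXX : BorelSpace (XX p) := inferInstance

instance instBSYY : BorelSpace YY := inferInstance

/-- The image of an integral matrix in `SL₂(ℝ)`. -/
def toR : SL(2, ℤ) →* SL(2, ℝ) := Matrix.SpecialLinearGroup.map (Int.castRingHom ℝ)

/-- The image of an integral matrix in `SL₂(ℚ_p)`. -/
def toP : SL(2, ℤ) →* SL(2, ℚ_[p]) := Matrix.SpecialLinearGroup.map (Int.castRingHom ℚ_[p])

/-- The `p`-adic unipotent `u(s)` as an element of `G`. -/
def uP (s : ℚ_[p]) : GG p := (1, uu s)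

/-- The `p`-adic diagonal element `diag(p^j, p^{-j})` as an element of `G`. -/
def aP (j : ℕ) : GG p :=
  (1, dg ((p : ℚ_[p]) ^ j) (pow_ne_zero _ (Nat.cast_ne_zero.2 (Fact.out : p.Prime).ne_zero)))

theorem uP_add (s t : ℚ_[p]) : uP p (s + t) = uP p s * uP p t := by simp [uP, uu_add]

@[simp] theorem uP_zero : uP p 0 = 1 := by simp [uP]

theorem continuous_uP : Continuous (uP p) := continuous_const.prodMk continuous_uu

/-- The unipotent flow on `X`. -/
def ufl1 : Flow ℚ_[p] (XX p) where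
  toFun s x := uP p s • x
  cont' := ((continuous_uP p).comp continuous_fst).smul continuous_snd
  map_add' s t x := by rw [uP_add, mul_smul]
  map_zero' x := by simp

/-- The unipotent flow on `X × X` with speeds `d₁, d₂`. -/
def ufl2 (d₁ d₂ : ℚ_[p]) : Flow ℚ_[p] (XX p × XX p) where
  toFun s w := (uP p (d₁ * s) • w.1, uP p (d₂ * s) • w.2)
  cont' := (((continuous_uP p).comp (continuous_const.mul continuous_fst)).smul
      continuous_snd.fst).prodMk
    (((continuous_uP p).comp (continuous_const.mul continuous_fst)).smul continuous_snd.snd)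
  map_add' s t x := by simp only [mul_add, uP_add, mul_smul]
  map_zero' x := by simp

/-- The unipotent flow on `X^κ` with speeds `d`. -/
def ufl {κ : Type} (d : κ → ℚ_[p]) : Flow ℚ_[p] (κ → XX p) where
  toFun s w := fun k => uP p (d k * s) • w k
  cont' := continuous_pi fun k =>
    ((continuous_uP p).comp (continuous_const.mul continuous_fst)).smul
      ((continuous_apply k).comp continuous_snd)
  map_add' s t x := by simp only [mul_add, uP_add, mul_smul]
  map_zero' x := by simp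

theorem ufl1_apply (s : ℚ_[p]) (x : XX p) : ufl1 p s x = uP p s • x := rfl

theorem ufl2_apply (d₁ d₂ s : ℚ_[p]) (w : XX p × XX p) :
    ufl2 p d₁ d₂ s w = (uP p (d₁ * s) • w.1, uP p (d₂ * s) • w.2) := rfl

theorem ufl_apply {κ : Type} (d : κ → ℚ_[p]) (s : ℚ_[p]) (w : κ → XX p) :
    ufl p d s w = fun k => uP p (d k * s) • w k := rfl

/-- The stabiliser of a measure. -/
def Stab (H : Type) {W : Type} [Group H] [MulAction H W] [MeasurableSpace W]
    [MeasurableConstSMul H W] (ρ : Measure W) : Subgroup H where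
  carrier := {g | ρ.map (fun w => g • w) = ρ}
  one_mem' := by simp
  mul_mem' := fun {a b} ha hb => by
    have ha' : ρ.map (fun w => a • w) = ρ := ha
    have hb' : ρ.map (fun w => b • w) = ρ := hb
    change ρ.map (fun w => (a * b) • w) = ρ
    have : (fun w : W => (a * b) • w) = (fun w => a • w) ∘ (fun w => b • w) := by
      ext w; simp [mul_smul]
    rw [this, ← Measure.map_map (measurable_const_smul a) (measurable_const_smul b), hb', ha']
  inv_mem' := fun {a} ha => by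
    have ha' : ρ.map (fun w => a • w) = ρ := ha
    change ρ.map (fun w => a⁻¹ • w) = ρ
    conv_lhs => rw [← ha']
    rw [Measure.map_map (measurable_const_smul a⁻¹) (measurable_const_smul a)]
    have : ((fun w : W => a⁻¹ • w) ∘ fun w => a • w) = id := by ext w; simp
    rw [this, Measure.map_id]

theorem mem_Stab {H W : Type} [Group H] [MulAction H W] [MeasurableSpace W]
    [MeasurableConstSMul H W] {ρ : Measure W} {g : H} :
    g ∈ Stab H ρ ↔ ρ.map (fun w => g • w) = ρ := Iff.rfl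

/-- All entries have norm at most `R`. -/
def Bd {F : Type} [NormedField F] (R : ℝ) (P : Matrix (Fin 2) (Fin 2) F) : Prop :=
  ∀ i j, ‖P i j‖ ≤ R

/-- `θ` is conjugation by an invertible real matrix. -/
def IsConjHom (θ : SL(2, ℝ) →* SL(2, ℝ)) : Prop :=
  ∃ η : Matrix (Fin 2) (Fin 2) ℝ, η.det ≠ 0 ∧
    ∀ h : SL(2, ℝ), (θ h : Matrix (Fin 2) (Fin 2) ℝ) * η = η * (h : Matrix (Fin 2) (Fin 2) ℝ)


end Pool.Agent.P.MP_20768c_nt.Tz.EQ

end

end

-- part ad7a55_nt.VDef
section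

/-! Modular curves of congruence level: functions, orbits, measure. -/

set_option autoImplicit false

noncomputable section

open UpperHalfPlane MeasureTheory
open scoped MatrixGroups ENNReal

namespace Pool.Agent.P.MP_20768c_nt.Tz.EQ

/-- `f` is a modular function for `Γ`, holomorphic on the upper half plane, whose expansions in
`exp (2 π i τ / N)` at all cusps have coefficients in `L`. -/
def IsMF (Γ : Subgroup SL(2, ℤ)) (N : ℕ) (L : IntermediateField ℚ ℂ) (f : ℍ → ℂ) : Prop :=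
  (∀ γ ∈ Γ, ∀ τ : ℍ, f (γ • τ) = f τ) ∧ ∃ m : ℕ, ∀ γ : SL(2, ℤ), ∃ c : ℕ → ℂ, (∀ n, c n ∈ L) ∧
    ∀ τ : ℍ, HasSum (fun n => c n * Complex.exp (2 * Real.pi * Complex.I * τ / N) ^ n)
      (ModularForm.discriminant τ ^ m * f (γ • τ))

/-- The modular curve of level `Γ`. -/
abbrev YG (Γ : Subgroup SL(2, ℤ)) : Type := Quotient (MulAction.orbitRel Γ ℍ)

/-- The Galois orbit over `F` of the point with coordinates `τ k`, for the model whose
coordinate functions on the `k`-th curve are the members of `B k`. -/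
def orbG {n : ℕ} (F : IntermediateField ℚ ℂ) (Γ : Fin n → Subgroup SL(2, ℤ))
    (B : Fin n → Set (ℍ → ℂ)) (τ : Fin n → ℍ) : Set (∀ k, YG (Γ k)) :=
  {y | ∃ (σ : ℂ ≃+* ℂ) (w : Fin n → ℍ), (∀ a ∈ F, σ a = a) ∧ (∀ k, y k = Quotient.mk _ (w k)) ∧
    ∀ k, ∀ f ∈ B k, f (w k) = σ (f (τ k))}

/-- Normalised hyperbolic area on the union of the translates of the standard fundamental domain
by coset representatives of `Γ`. -/
def mH (Γ : Subgroup SL(2, ℤ)) : Measure ℍ :=
  (Γ.index : ℝ≥0∞)⁻¹ • Measure.sum fun c : SL(2, ℤ) ⧸ Γ =>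
    (ProbabilityTheory.cond (volume : Measure ℍ) ModularGroup.fd).map fun τ => c.out⁻¹ • τ

end Pool.Agent.P.MP_20768c_nt.Tz.EQ

end

end

-- part ad7a55_nt.JBas
section

/-! Basic properties of j. -/

set_option autoImplicit false

noncomputable section

open MeasureTheory Topology Filter UpperHalfPlane
open scoped MatrixGroups ENNReal BoundedContinuousFunction ModularForm Manifold

namespace Pool.Agent.P.MP_20768c_nt.Tz.EQ

theorem jbas_smul {k : ℤ} {F : Type} [FunLike F ℍ ℂ] [SlashInvariantFormClass F 𝒮ℒ k] (f : F)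
    (γ : SL(2, ℤ)) (τ : ℍ) : f (γ • τ) = ((γ 1 0 : ℂ) * τ + γ 1 1) ^ k * f τ := by
  have hγ : (γ : GL (Fin 2) ℝ) ∈ 𝒮ℒ := ⟨γ, rfl⟩
  have := SlashInvariantForm.slash_action_eqn' f hγ τ
  simpa using this

theorem jbas_den (γ : SL(2, ℤ)) (τ : ℍ) : ((γ 1 0 : ℂ) * τ + γ 1 1) ≠ 0 := by
  have := denom_ne_zero (γ : GL (Fin 2) ℝ) τ
  simpa [denom] using this

theorem jbas_disc (γ : SL(2, ℤ)) (τ : ℍ) :
    ModularForm.discriminant (γ • τ) =
      ((γ 1 0 : ℂ) * τ + γ 1 1) ^ 12 * ModularForm.discriminant τ := by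
  have := jbas_smul CuspForm.discriminant γ τ
  rw [CuspForm.coe_discriminant] at this
  rw [this]
  norm_cast

theorem jInv_smul (γ : SL(2, ℤ)) (τ : ℍ) : jInv (γ • τ) = jInv τ := by
  have h1 := jbas_smul ModularForm.E₄ γ τ
  have h2 := jbas_den γ τ
  have h3 := ModularForm.discriminant_ne_zero τ
  rw [jInv, jInv, h1, jbas_disc, zpow_ofNat]
  field_simp

theorem disc_smul (γ : SL(2, ℤ)) (τ : ℍ) :
    ModularForm.discriminant (γ • τ) =
      ((γ 1 0 : ℂ) * τ + γ 1 1) ^ 12 * ModularForm.discriminant τ :=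
  jbas_disc γ τ

theorem continuous_jInv : Continuous jInv :=
  ((ModularFormClass.holo ModularForm.E₄).continuous.pow 3).div
    (ModularFormClass.holo CuspForm.discriminant).continuous ModularForm.discriminant_ne_zero

theorem jbas_E4_tendsto : Tendsto (fun τ => ModularForm.E₄ τ) atImInfty (𝓝 1) := by
  have hanal := ModularFormClass.analyticAt_cuspFunction_zero ModularForm.E₄ one_pos
    one_mem_strictPeriods_SL
  have hper := SlashInvariantFormClass.periodic_comp_ofComplex ModularForm.E₄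
    one_mem_strictPeriods_SL
  have h0 : (qExpansion 1 ModularForm.E₄).coeff 0 = 1 :=
    EisensteinSeries.E_qExpansion_coeff_zero _ ⟨2, rfl⟩
  rw [qExpansion_coeff_zero one_pos hanal hper, ← cuspFunction_apply_zero one_pos hanal hper] at h0
  rw [← h0]
  exact (hanal.continuousAt.tendsto.comp (qParam_tendsto_atImInfty one_pos)).congr
    (fun τ ↦ SlashInvariantFormClass.eq_cuspFunction ModularForm.E₄ τ one_mem_strictPeriods_SL
      one_ne_zero)

theorem jInv_surj (z : ℂ) : ∃ τ : ℍ, jInv τ = z := by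
  by_contra hne
  push Not at hne
  let P : ModularForm 𝒮ℒ 12 := ModularForm.mcast (by decide) (ModularForm.E₄.pow 3) -
    z • (CuspForm.discriminant : ModularForm 𝒮ℒ 12)
  have hP : ∀ τ, P τ = ModularForm.E₄ τ ^ 3 - z * ModularForm.discriminant τ := fun τ => rfl
  have hP0 : ∀ τ, P τ ≠ 0 := by
    intro τ h
    apply hne τ
    rw [hP, sub_eq_zero] at h
    rw [jInv, h, mul_div_cancel_right₀ _ (ModularForm.discriminant_ne_zero τ)]
  have hlim : Tendsto (fun τ => P τ) atImInfty (𝓝 1) := by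
    have := (jbas_E4_tendsto.pow 3).sub
      (Tendsto.const_mul z ModularForm.discriminant_isZeroAtImInfty)
    simpa [hP] using this
  have hs : ∀ γ : SL(2, ℤ), (fun τ => (1 : ℂ) / P τ) ∣[(0 - 12 : ℤ)] γ = fun τ => 1 / P τ := by
    intro γ
    have hγ : (γ : GL (Fin 2) ℝ) ∈ 𝒮ℒ := ⟨γ, rfl⟩
    change (⇑(1 : ModularForm 𝒮ℒ 0) / ⇑P) ∣[(0 - 12 : ℤ)] γ = ⇑(1 : ModularForm 𝒮ℒ 0) / ⇑P
    simp_rw [ModularForm.div_slash_SL2, ModularForm.SL_slash,
      SlashInvariantForm.slash_action_eqn _ _ hγ]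
  let G : ModularForm 𝒮ℒ (0 - 12) :=
    { toFun τ := 1 / P τ
      slash_action_eq' := fun _ ⟨γ, hγ⟩ ↦ hγ ▸ hs γ
      holo' := (1 : ModularForm 𝒮ℒ 0).holo'.div P.holo' hP0
      bdd_at_cusps' {c} hc := by
        rw [Subgroup.IsArithmetic.isCusp_iff_isCusp_SL2Z] at hc
        rw [OnePoint.isBoundedAt_iff_forall_SL2Z hc]
        intro γ _
        rw [hs γ, IsBoundedAtImInfty, BoundedAtFilter]
        exact (tendsto_const_nhds.div hlim one_ne_zero).isBigO_one ℝ }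
  have h0 := congrFun (ModularFormClass.levelOne_neg_weight_eq_zero (by norm_num) G) I
  exact one_div_ne_zero (hP0 I) h0

theorem jbas_volume_fd_lt_top : volume (ModularGroup.fd : Set ℍ) < ⊤ := by
  rw [volume_eq_lintegral]
  have h1 : IntegrableOn (fun q : ℝ × ℝ => (1 : ℝ) * q.2 ^ (-2 : ℝ))
      (Set.Icc (-(1 / 2) : ℝ) (1 / 2) ×ˢ Set.Ioi (1 / 2 : ℝ)) volume := by
    rw [IntegrableOn, Measure.volume_eq_prod, ← Measure.prod_restrict]
    exact Integrable.mul_prod (f := fun _ : ℝ => (1 : ℝ)) (integrable_const _)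
      (integrableOn_Ioi_rpow_of_lt (by norm_num) (by norm_num))
  have h2 := (Complex.volume_preserving_equiv_real_prod.integrableOn_comp_preimage
    Complex.measurableEquivRealProd.measurableEmbedding).2 h1
  have hs : UpperHalfPlane.coe '' ModularGroup.fd ⊆ Complex.measurableEquivRealProd ⁻¹'
      (Set.Icc (-(1 / 2) : ℝ) (1 / 2) ×ˢ Set.Ioi (1 / 2 : ℝ)) := by
    rintro _ ⟨τ, hτ, rfl⟩
    refine ⟨abs_le.1 hτ.2, ?_⟩
    have := ModularGroup.three_le_four_mul_im_sq_of_mem_fd hτ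
    have := τ.im_pos
    change 1 / 2 < τ.im
    nlinarith
  refine lt_of_le_of_lt (le_of_eq ?_) (h2.mono_set hs).2
  refine setLIntegral_congr_fun (measurableEmbedding_coe.measurableSet_image.2
    ModularGroup.isClosed_fd.measurableSet) ?_
  rintro _ ⟨τ, -, rfl⟩
  have := τ.im_pos
  simp only [Function.comp_apply, one_mul, enorm_eq_nnnorm, ENNReal.coe_inj]
  ext
  change _ = ‖τ.im ^ (-2 : ℝ)‖
  rw [Real.norm_of_nonneg (by positivity), Real.rpow_neg this.le]
  simp [abs_of_pos this]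

theorem jbas_vol_pos {U : Set ℍ} (hU : IsOpen U) (hne : U.Nonempty) : 0 < volume U := by
  rw [pos_iff_ne_zero]
  intro h
  have h1 : (volume.comap UpperHalfPlane.coe : Measure ℍ) ≪ volume := by
    refine withDensity_absolutelyContinuous' (Measurable.aemeasurable ?_)
      (Eventually.of_forall fun z => ?_)
    · have hc : Continuous fun z : ℍ => (NNReal.mk z.im z.im_pos.le : NNReal) :=
        continuous_im.subtype_mk _
      exact measurable_coe_nnreal_ennreal.comp ((measurable_const.div hc.measurable).pow_const 2)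
    · have : NNReal.mk z.im z.im_pos.le ≠ 0 := NNReal.ne_iff.mp z.im_ne_zero
      exact ENNReal.coe_ne_zero.2 (pow_ne_zero _ (one_div_ne_zero this))
  have h2 := h1 h
  rw [measurableEmbedding_coe.comap_apply] at h2
  exact ((isOpenEmbedding_coe.isOpenMap U hU).measure_pos volume (hne.image _)).ne' h2

theorem jbas_volume_fd_pos : 0 < volume (ModularGroup.fd : Set ℍ) := by
  refine (jbas_vol_pos (U := {τ : ℍ | 1 < τ.im ∧ |τ.re| < 1 / 2}) ?_ ?_).trans_le
    (measure_mono ?_)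
  · exact (isOpen_lt continuous_const continuous_im).inter
      (isOpen_lt continuous_re.abs continuous_const)
  · exact ⟨⟨2 * Complex.I, by simp⟩, by simp [UpperHalfPlane.im], by simp [UpperHalfPlane.re]⟩
  · rintro τ ⟨h1, h2⟩
    refine ⟨?_, h2.le⟩
    rw [Complex.normSq_apply]
    change 1 ≤ τ.re * τ.re + τ.im * τ.im
    nlinarith [mul_self_nonneg τ.re]

instance instProbmY : IsProbabilityMeasure mY := by
  have := ProbabilityTheory.cond_isProbabilityMeasure_of_finite jbas_volume_fd_pos.ne'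
    jbas_volume_fd_lt_top.ne
  exact Measure.isProbabilityMeasure_map continuous_jInv.measurable.aemeasurable

end Pool.Agent.P.MP_20768c_nt.Tz.EQ

end

end

-- part ad7a55_nt.JBas2
section

/-! Basic properties of j. -/

set_option autoImplicit false

noncomputable section

open MeasureTheory Topology Filter UpperHalfPlane
open scoped MatrixGroups ENNReal BoundedContinuousFunction

namespace Pool.Agent.P.MP_20768c_nt.Tz.EQ

namespace JInj

open ModularForm EisensteinSeries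

/-- Equal `j` gives a common scaling of `E₄` and `E₆`. -/
theorem exists_scale {τ τ' : ℍ} (h : jInv τ = jInv τ') :
    ∃ c : ℂ, c ≠ 0 ∧ E₄ τ' = c ^ 4 * E₄ τ ∧ E₆ τ' = c ^ 6 * E₆ τ := by
  have hD := discriminant_ne_zero τ
  have hD' := discriminant_ne_zero τ'
  have e := discriminant_eq_E₄_cube_sub_E₆_sq τ
  have e' := discriminant_eq_E₄_cube_sub_E₆_sq τ'
  unfold jInv at h
  rw [div_eq_div_iff hD hD'] at h
  generalize E₄ τ = a at *
  generalize E₆ τ = b at *
  generalize E₄ τ' = a' at *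
  generalize E₆ τ' = b' at *
  generalize discriminant τ = D at *
  generalize discriminant τ' = D' at *
  have h6 : b ^ 2 * D' = b' ^ 2 * D := by
    linear_combination h - (D * 1728) * e' + (D' * 1728) * e
  suffices hs : ∃ s : ℂ, s ≠ 0 ∧ a' = s ^ 2 * a ∧ b' = s ^ 3 * b by
    obtain ⟨s, hs0, h1, h2⟩ := hs
    obtain ⟨c, hc⟩ := IsAlgClosed.exists_pow_nat_eq s (n := 2) (by norm_num)
    refine ⟨c, ?_, ?_, ?_⟩
    · rintro rfl
      exact hs0 (by rw [← hc]; norm_num)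
    · rw [h1, ← hc]; ring
    · rw [h2, ← hc]; ring
  by_cases ha : a = 0
  · subst ha
    have ha' : a' = 0 := by
      have : a' ^ 3 * D = 0 := by rw [← h]; ring
      rcases mul_eq_zero.mp this with h1 | h1
      · exact pow_eq_zero_iff (by norm_num) |>.mp h1
      · exact absurd h1 hD
    have hb : b ≠ 0 := by
      rintro rfl
      exact hD (by rw [e]; norm_num)
    have hb' : b' ≠ 0 := by
      rintro rfl
      exact hD' (by rw [e', ha']; norm_num)
    obtain ⟨s, hs⟩ := IsAlgClosed.exists_pow_nat_eq (b' / b) (n := 3) (by norm_num)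
    refine ⟨s, ?_, by rw [ha']; ring, by rw [hs]; field_simp⟩
    rintro rfl
    exact div_ne_zero hb' hb (by rw [← hs]; norm_num)
  have ha' : a' ≠ 0 := by
    rintro rfl
    have : a ^ 3 * D' = 0 := by rw [h]; ring
    rcases mul_eq_zero.mp this with h1 | h1
    · exact ha (pow_eq_zero_iff (by norm_num) |>.mp h1)
    · exact hD' h1
  by_cases hb : b = 0
  · subst hb
    have hb' : b' = 0 := by
      have : b' ^ 2 * D = 0 := by rw [← h6]; ring
      rcases mul_eq_zero.mp this with h1 | h1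
      · exact pow_eq_zero_iff (by norm_num) |>.mp h1
      · exact absurd h1 hD
    obtain ⟨s, hs⟩ := IsAlgClosed.exists_pow_nat_eq (a' / a) (n := 2) (by norm_num)
    refine ⟨s, ?_, by rw [hs]; field_simp, by rw [hb']; ring⟩
    rintro rfl
    exact div_ne_zero ha' ha (by rw [← hs]; norm_num)
  have hb' : b' ≠ 0 := by
    rintro rfl
    have : b ^ 2 * D' = 0 := by rw [h6]; ring
    rcases mul_eq_zero.mp this with h1 | h1
    · exact hb (pow_eq_zero_iff (by norm_num) |>.mp h1)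
    · exact hD' h1
  have key : b' ^ 2 * a ^ 3 = a' ^ 3 * b ^ 2 := by
    apply mul_right_cancel₀ (mul_ne_zero hD hD')
    linear_combination (b ^ 2 * D') * h - (a ^ 3 * D') * h6
  refine ⟨b' * a / (b * a'), div_ne_zero (mul_ne_zero hb' ha) (mul_ne_zero hb ha'), ?_, ?_⟩
  · field_simp
    linear_combination -key
  · field_simp
    linear_combination -key

theorem exists_unit_form {τ τ' : ℍ} {c : ℂ} (h4 : E₄ τ' = c ^ 4 * E₄ τ)
    (h6 : E₆ τ' = c ^ 6 * E₆ τ) (k : ℕ) (hk : 4 ≤ k) (he : Even k) :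
    ∃ g : ModularForm 𝒮ℒ (k : ℤ), (qExpansion 1 g).coeff 0 = 1 ∧ g τ' = c ^ k * g τ := by
  obtain ⟨a, b, hab⟩ : ∃ a b : ℕ, k = 4 * a + 6 * b := by
    obtain ⟨m, rfl⟩ := he
    rcases Nat.even_or_odd' m with ⟨n, rfl | rfl⟩
    · exact ⟨n, 0, by omega⟩
    · exact ⟨n - 1, 1, by omega⟩
  refine ⟨ModularForm.mcast (by rw [hab]; push_cast; ring) ((E₄.pow a).mul (E₆.pow b)), ?_, ?_⟩
  · rw [coe_mcast, ModularForm.qExpansion_mul one_pos one_mem_strictPeriods_SL,
      ModularForm.qExpansion_pow one_pos one_mem_strictPeriods_SL,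
      ModularForm.qExpansion_pow one_pos one_mem_strictPeriods_SL]
    have e4 := E_qExpansion_coeff_zero (by norm_num : 3 ≤ 4) ⟨2, rfl⟩
    have e6 := E_qExpansion_coeff_zero (by norm_num : 3 ≤ 6) ⟨3, rfl⟩
    simp only [PowerSeries.coeff_zero_eq_constantCoeff] at e4 e6 ⊢
    rw [map_mul, map_pow, map_pow, e4, e6]
    simp
  · simp only [coe_mcast, coe_mul, coe_pow, Pi.mul_apply, Pi.pow_apply, h4, h6, hab]
    ring

theorem scale_all {τ τ' : ℍ} {c : ℂ} (h4 : E₄ τ' = c ^ 4 * E₄ τ)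
    (h6 : E₆ τ' = c ^ 6 * E₆ τ) (k : ℕ) (f : ModularForm 𝒮ℒ (k : ℤ)) :
    f τ' = c ^ k * f τ := by
  have hD : discriminant τ' = c ^ 12 * discriminant τ := by
    rw [discriminant_eq_E₄_cube_sub_E₆_sq, discriminant_eq_E₄_cube_sub_E₆_sq, h4, h6]; ring
  induction k using Nat.strong_induction_on with
  | _ k ih =>
  rcases Nat.even_or_odd k with he | ho
  swap
  · rw [ModularForm.levelOne_odd_weight_eq_zero (by exact_mod_cast ho) f]; simp
  by_cases h0 : k = 0
  · subst h0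
    obtain ⟨x, hx⟩ := ModularFormClass.levelOne_weight_zero_const (F := ModularForm 𝒮ℒ 0) f
    have e1 : f τ' = x := congrFun hx τ'
    have e2 : f τ = x := congrFun hx τ
    rw [e1, e2]; simp
  by_cases h2 : k = 2
  · subst h2
    have : f = 0 := rank_zero_iff_forall_zero.mp levelOne_weight_two_rank_zero f
    rw [this]; simp
  have hk : 4 ≤ k := by obtain ⟨m, rfl⟩ := he; omega
  obtain ⟨g, hg0, hg⟩ := exists_unit_form h4 h6 k hk he
  obtain ⟨φ, hφ⟩ := sub_smul_isCuspForm f g hg0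
  set a0 := (qExpansion 1 f).coeff 0
  have hφ' : ∀ z, φ z = f z - a0 * g z := fun z => by
    have := DFunLike.congr_fun hφ z
    simpa using this
  have hφs : φ τ' = c ^ k * φ τ := by
    rw [← discriminant_mul_discriminantEquiv_apply φ τ',
      ← discriminant_mul_discriminantEquiv_apply φ τ]
    by_cases h12 : k < 12
    · have : CuspForm.discriminantEquiv φ = 0 :=
        rank_zero_iff_forall_zero.mp (ModularForm.levelOne_neg_weight_rank_zero (by omega)) _
      rw [this]; simp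
    · obtain ⟨n, rfl⟩ : ∃ n, k = n + 12 := ⟨k - 12, by omega⟩
      have := ih n (by omega) (ModularForm.mcast (by push_cast; ring) (CuspForm.discriminantEquiv φ))
      simp only [coe_mcast] at this
      rw [this, hD]; ring
  rw [hφ', hφ', hg] at hφs
  linear_combination hφs

/-- An even summable weight with vanishing even moments and discrete support vanishes off `0`. -/
theorem moment_zero (u : ℂ → ℂ) (hs : Summable fun x => ‖u x‖) (hev : ∀ x, u (-x) = u x)
    (hbig : ∀ x, u x ≠ 0 → ‖x‖ ^ 4 ≤ ‖u x‖) (hm : ∀ m : ℕ, ∑' x, u x * x ^ (2 * m) = 0)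
    (x1 : ℂ) (hx1 : x1 ≠ 0) : u x1 = 0 := by
  by_contra hu1
  have hpos : 0 < ‖x1‖ := norm_pos_iff.mpr hx1
  have hfin : {x | u x ≠ 0 ∧ ‖x1‖ ≤ ‖x‖}.Finite := by
    have h1 := hs.tendsto_cofinite_zero
    have h2 := (h1.eventually (gt_mem_nhds (pow_pos hpos 4)))
    rw [Filter.eventually_cofinite] at h2
    refine h2.subset fun x hx => ?_
    simp only [Set.mem_ofPred_eq, not_lt]
    exact le_trans (pow_le_pow_left₀ hpos.le hx.2 4) (hbig x hx.1)
  obtain ⟨x0, hx0, hmax⟩ := hfin.exists_maximalFor (fun x : ℂ => ‖x‖) _ ⟨x1, hu1, le_rfl⟩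
  have hle : ∀ x, u x ≠ 0 → ‖x‖ ≤ ‖x0‖ := fun x hx => by
    by_contra hlt
    push Not at hlt
    exact absurd (hmax ⟨hx, hx0.2.trans hlt.le⟩ hlt.le) (not_le.mpr hlt)
  have hpos0 : 0 < ‖x0‖ := hpos.trans_le hx0.2
  have hx00 : x0 ≠ 0 := norm_pos_iff.mp hpos0
  set ρ : ℂ → ℂ := fun x => (x ^ 2 + x0 ^ 2) / (2 * x0 ^ 2) with hρ
  have hρ1 : ∀ x, u x ≠ 0 → ‖ρ x‖ ≤ 1 := fun x hx => by
    simp only [hρ, norm_div, norm_mul, norm_pow, Complex.norm_ofNat]
    rw [div_le_one (by positivity)]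
    refine (norm_add_le _ _).trans ?_
    rw [norm_pow, norm_pow]
    have := pow_le_pow_left₀ (norm_nonneg x) (hle x hx) 2
    linarith
  have hsum : ∀ m n : ℕ, Summable fun x => u x * x ^ (2 * n) * ρ x ^ m := fun m n => by
    refine Summable.of_norm_bounded (hs.mul_right (‖x0‖ ^ (2 * n))) fun x => ?_
    by_cases hx : u x = 0
    · simp [hx]
    rw [norm_mul, norm_mul, norm_pow, norm_pow]
    calc ‖u x‖ * ‖x‖ ^ (2 * n) * ‖ρ x‖ ^ m ≤ ‖u x‖ * ‖x0‖ ^ (2 * n) * 1 := by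
          gcongr
          · exact hle x hx
          · exact pow_le_one₀ (norm_nonneg _) (hρ1 x hx)
      _ = _ := mul_one _
  have hzero : ∀ m n : ℕ, ∑' x, u x * x ^ (2 * n) * ρ x ^ m = 0 := by
    intro m
    induction m with
    | zero => intro n; simpa using hm n
    | succ m ih =>
      intro n
      have e : ∀ x, u x * x ^ (2 * n) * ρ x ^ (m + 1) =
          (2 * x0 ^ 2)⁻¹ * (u x * x ^ (2 * (n + 1)) * ρ x ^ m) +
            2⁻¹ * (u x * x ^ (2 * n) * ρ x ^ m) := fun x => by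
        rw [pow_succ (ρ x)]
        generalize ρ x ^ m = t
        simp only [hρ]
        field_simp
        ring
      simp_rw [e]
      rw [Summable.tsum_add ((hsum m (n + 1)).mul_left _) ((hsum m n).mul_left _), tsum_mul_left,
        tsum_mul_left, ih, ih]
      simp
  have hlim : Tendsto (fun m : ℕ => ∑' x, u x * ρ x ^ m) atTop
      (𝓝 (∑' x, if x ^ 2 = x0 ^ 2 then u x else 0)) := by
    refine tendsto_tsum_of_dominated_convergence hs (fun x => ?_) (Eventually.of_forall fun m x => ?_)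
    · by_cases hx : u x = 0
      · simp [hx]
      split_ifs with h
      · have : ρ x = 1 := by simp only [hρ, h]; field_simp; ring
        simp [this]
      · have hlt : ‖ρ x‖ < 1 := by
          simp only [hρ, norm_div, norm_mul, norm_pow, Complex.norm_ofNat]
          rw [div_lt_one (by positivity)]
          have h1 : ‖x ^ 2‖ ≤ ‖x0‖ ^ 2 := by
            rw [norm_pow]; exact pow_le_pow_left₀ (norm_nonneg x) (hle x hx) 2
          have h2 : ‖x0 ^ 2‖ ≤ ‖x0‖ ^ 2 := by rw [norm_pow]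
          have h3 := norm_combo_lt_of_ne h1 h2 h (a := (1 / 2 : ℝ)) (b := (1 / 2 : ℝ))
            (by norm_num) (by norm_num) (by norm_num)
          rw [← smul_add, norm_smul, Real.norm_of_nonneg (by norm_num)] at h3
          linarith
        simpa using (tendsto_pow_atTop_nhds_zero_of_norm_lt_one hlt).const_mul (u x)
    · by_cases hx : u x = 0
      · simp [hx]
      rw [norm_mul, norm_pow]
      exact mul_le_of_le_one_right (norm_nonneg _) (pow_le_one₀ (norm_nonneg _) (hρ1 x hx))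
  have hc : (fun m : ℕ => ∑' x, u x * ρ x ^ m) = fun _ => 0 := by
    funext m; simpa using hzero m 0
  rw [hc] at hlim
  have h0 := tendsto_nhds_unique hlim tendsto_const_nhds
  have hne : x0 ≠ -x0 := fun h => hx00 (by linear_combination h / 2)
  rw [tsum_eq_sum (s := {x0, -x0})] at h0
  · rw [Finset.sum_pair hne, if_pos rfl, if_pos (by ring), hev] at h0
    exact hx0.1 (by linear_combination h0 / 2)
  · intro x hx
    simp only [Finset.mem_insert, Finset.mem_singleton, not_or] at hx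
    rw [if_neg]
    intro h
    rcases sq_eq_sq_iff_eq_or_eq_neg.mp h with h | h
    · exact hx.1 h
    · exact hx.2 h

/-- The inverses of the primitive vectors of the lattice `c⁻¹ ⟨τ, 1⟩`. -/
def inv (c : ℂ) (τ : ℍ) (v : gammaSet 1 1 (0 : Fin 2 → ZMod 1)) : ℂ :=
  c * ((v.1 0 : ℂ) * τ + v.1 1)⁻¹

theorem lin_indep (τ : ℍ) {p q : ℤ} (h : (p : ℂ) * τ + q = 0) : p = 0 ∧ q = 0 := by
  have h1 := congrArg Complex.im h
  simp only [Complex.add_im, Complex.mul_im, Complex.intCast_re, Complex.intCast_im, zero_mul,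
    add_zero, Complex.zero_im, coe_im, mul_eq_zero, Int.cast_eq_zero, τ.im_pos.ne', or_false] at h1
  subst h1
  simpa using h

theorem den_ne (τ : ℍ) (v : gammaSet 1 1 (0 : Fin 2 → ZMod 1)) :
    (v.1 0 : ℂ) * τ + v.1 1 ≠ 0 := fun h => by
  obtain ⟨h0, h1⟩ := lin_indep τ h
  have := (mem_gammaSet_one v.1).mp v.2
  rw [h0, h1] at this
  exact not_isCoprime_zero_zero this

theorem inv_ne {c : ℂ} (hc : c ≠ 0) (τ : ℍ) (v : gammaSet 1 1 (0 : Fin 2 → ZMod 1)) :
    inv c τ v ≠ 0 := mul_ne_zero hc (inv_ne_zero (den_ne τ v))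

theorem inv_inj {c : ℂ} (hc : c ≠ 0) (τ : ℍ) : Function.Injective (inv c τ) := by
  intro v w h
  have h1 := inv_injective (mul_left_cancel₀ hc h)
  have h2 : ((v.1 0 - w.1 0 : ℤ) : ℂ) * τ + ((v.1 1 - w.1 1 : ℤ) : ℂ) = 0 := by
    push_cast; linear_combination h1
  obtain ⟨h3, h4⟩ := lin_indep τ h2
  ext i
  fin_cases i
  · simpa using sub_eq_zero.mp h3
  · simpa using sub_eq_zero.mp h4

theorem neg_mem_range (c : ℂ) (τ : ℍ) {x : ℂ} (hx : x ∈ Set.range (inv c τ)) :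
    -x ∈ Set.range (inv c τ) := by
  obtain ⟨v, rfl⟩ := hx
  refine ⟨⟨-v.1, ?_⟩, ?_⟩
  · rw [mem_gammaSet_one]
    exact ((mem_gammaSet_one v.1).mp v.2).neg_neg
  · simp only [inv, Pi.neg_apply, Int.cast_neg, neg_mul]
    rw [← neg_add, inv_neg, mul_neg]

theorem hasSum_inv {c : ℂ} (hc : c ≠ 0) (τ : ℍ) {k : ℕ} (hk : 3 ≤ k) :
    HasSum (fun x => (Set.range (inv c τ)).indicator (fun x => x ^ k) x)
      (c ^ k * (2 * E hk τ)) := by
  rw [← (inv_inj hc τ).hasSum_iff fun x hx => Set.indicator_of_notMem hx _]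
  have h1 : Summable fun v : gammaSet 1 1 (0 : Fin 2 → ZMod 1) => eisSummand k v τ :=
    (summable_eisSummand hk τ).subtype _
  have h2 : 2 * E hk τ = ∑' v : gammaSet 1 1 (0 : Fin 2 → ZMod 1), eisSummand k v τ := by
    have : E hk τ = (1 / 2 : ℂ) * eisensteinSeries (0 : Fin 2 → ZMod 1) k τ := rfl
    rw [this, eisensteinSeries]; ring
  rw [h2]
  refine (h1.hasSum.mul_left (c ^ k)).congr_fun fun v => ?_
  rw [Function.comp, Set.indicator_of_mem (Set.mem_range_self v)]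
  simp only [inv, eisSummand, mul_pow, zpow_neg, zpow_natCast, inv_pow]

theorem range_eq {τ τ' : ℍ} {c : ℂ} (hc : c ≠ 0) (h4 : E₄ τ' = c ^ 4 * E₄ τ)
    (h6 : E₆ τ' = c ^ 6 * E₆ τ) : Set.range (inv 1 τ') = Set.range (inv c τ) := by
  classical
  set A := Set.range (inv 1 τ') with hA
  set B := Set.range (inv c τ) with hB
  set u : ℂ → ℂ := fun x => A.indicator (fun x => x ^ 4) x - B.indicator (fun x => x ^ 4) x with hu
  have hsA := fun (k : ℕ) (hk : 3 ≤ k) => hasSum_inv one_ne_zero τ' hk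
  have hsB := fun (k : ℕ) (hk : 3 ≤ k) => hasSum_inv hc τ hk
  have hAn : ∀ x, -x ∈ A ↔ x ∈ A := fun x =>
    ⟨fun h => neg_neg x ▸ neg_mem_range _ _ h, neg_mem_range _ _⟩
  have hBn : ∀ x, -x ∈ B ↔ x ∈ B := fun x =>
    ⟨fun h => neg_neg x ▸ neg_mem_range _ _ h, neg_mem_range _ _⟩
  have key : ∀ x, x ≠ 0 → u x = 0 := by
    refine moment_zero u ?_ ?_ ?_ ?_
    · exact summable_norm_iff.mpr
        ((hsA 4 (by norm_num)).summable.sub (hsB 4 (by norm_num)).summable)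
    · intro x
      simp only [hu, Set.indicator_apply, hAn, hBn, Even.neg_pow (by decide : Even 4)]
    · intro x hx
      simp only [hu, Set.indicator_apply] at hx ⊢
      split_ifs at hx ⊢ <;> simp_all
    · intro m
      have hk : 3 ≤ 4 + 2 * m := by omega
      have := (hsA _ hk).sub (hsB _ hk)
      rw [scale_all h4 h6 _ (E hk)] at this
      have e : (1 : ℂ) ^ (4 + 2 * m) * (2 * (c ^ (4 + 2 * m) * (E hk) τ)) -
          c ^ (4 + 2 * m) * (2 * (E hk) τ) = 0 := by ring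
      rw [e] at this
      rw [← this.tsum_eq]
      refine tsum_congr fun x => ?_
      simp only [hu, Set.indicator_apply, ← hA, ← hB]
      split_ifs <;> ring
  ext x
  constructor
  · intro hx
    have hx0 : x ≠ 0 := by obtain ⟨v, rfl⟩ := hx; exact inv_ne one_ne_zero _ _
    by_contra hB'
    have := key x hx0
    simp only [hu, Set.indicator_of_mem hx, Set.indicator_of_notMem hB', sub_zero] at this
    exact pow_ne_zero 4 hx0 this
  · intro hx
    have hx0 : x ≠ 0 := by obtain ⟨v, rfl⟩ := hx; exact inv_ne hc _ _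
    by_contra hA'
    have := key x hx0
    simp only [hu, Set.indicator_of_mem hx, Set.indicator_of_notMem hA', zero_sub,
      neg_eq_zero] at this
    exact pow_ne_zero 4 hx0 this

end JInj

open JInj EisensteinSeries in
/-- `j` is injective on `SL₂(ℤ)\ℍ`. -/
theorem jInv_inj {τ τ' : ℍ} (h : jInv τ = jInv τ') : ∃ γ : SL(2, ℤ), τ' = γ • τ := by
  obtain ⟨c, hc, h4, h6⟩ := exists_scale h
  have hr := range_eq hc h4 h6
  let e0 : gammaSet 1 1 (0 : Fin 2 → ZMod 1) :=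
    ⟨![1, 0], (mem_gammaSet_one _).mpr (by simpa using isCoprime_one_left)⟩
  let e1 : gammaSet 1 1 (0 : Fin 2 → ZMod 1) :=
    ⟨![0, 1], (mem_gammaSet_one _).mpr (by simpa using isCoprime_one_right)⟩
  have fwd : ∀ w, ∃ p q : ℤ, (p : ℂ) * τ + q = c * (((w : gammaSet 1 1 (0 : Fin 2 → ZMod 1)).1 0 : ℂ)
      * τ' + w.1 1) := fun w => by
    obtain ⟨v, hv⟩ : inv 1 τ' w ∈ Set.range (inv c τ) := hr ▸ Set.mem_range_self w
    refine ⟨v.1 0, v.1 1, ?_⟩
    have h1 := den_ne τ v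
    have h2 := den_ne τ' w
    simp only [JInj.inv] at hv
    field_simp at hv
    linear_combination -hv
  have bwd : ∀ w, ∃ p q : ℤ, c * ((p : ℂ) * τ' + q) =
      (((w : gammaSet 1 1 (0 : Fin 2 → ZMod 1)).1 0 : ℂ) * τ + w.1 1) := fun w => by
    obtain ⟨v, hv⟩ : inv c τ w ∈ Set.range (inv 1 τ') := hr ▸ Set.mem_range_self w
    refine ⟨v.1 0, v.1 1, ?_⟩
    have h1 := den_ne τ w
    have h2 := den_ne τ' v
    simp only [JInj.inv] at hv
    field_simp at hv
    linear_combination -hv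
  obtain ⟨p, q, hpq⟩ := fwd e0
  obtain ⟨r, s, hrs⟩ := fwd e1
  obtain ⟨p', q', hpq'⟩ := bwd e0
  obtain ⟨r', s', hrs'⟩ := bwd e1
  simp only [e0, e1, Matrix.cons_val_zero, Matrix.cons_val_one, Int.cast_one, Int.cast_zero,
    one_mul, zero_mul, add_zero, zero_add, mul_one] at hpq hrs hpq' hrs'
  obtain ⟨a1, a2⟩ := lin_indep τ (p := p' * p + q' * r - 1) (q := p' * q + q' * s) (by
    push_cast; linear_combination p' * hpq + q' * hrs + hpq')
  obtain ⟨a3, a4⟩ := lin_indep τ (p := r' * p + s' * r) (q := r' * q + s' * s - 1) (by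
    push_cast; linear_combination r' * hpq + s' * hrs + hrs')
  have hdet : (p * s - q * r) * (p' * s' - q' * r') = 1 := by
    linear_combination (r' * q + s' * s) * a1 + a4 - (r' * p + s' * r) * a2
  have hτ : (τ' : ℂ) * (r * τ + s) = p * τ + q := by rw [hpq, hrs]; ring
  have hpos : 0 < p * s - q * r := by
    have h1 := congrArg Complex.re hτ
    have h2 := congrArg Complex.im hτ
    simp only [Complex.mul_re, Complex.mul_im, Complex.add_re, Complex.add_im, Complex.intCast_re,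
      Complex.intCast_im, zero_mul, sub_zero, add_zero, coe_re, coe_im] at h1 h2
    have h3 : τ'.im * ((r * τ.re + s) ^ 2 + (r * τ.im) ^ 2) = (p * s - q * r) * τ.im := by
      linear_combination (r * τ.re + s) * h2 - (r * τ.im) * h1
    have h4 : 0 ≤ ((p : ℝ) * s - q * r) * τ.im := by
      rw [← h3]; exact mul_nonneg τ'.im_pos.le (by positivity)
    have h5 : 0 ≤ (p : ℝ) * s - q * r := nonneg_of_mul_nonneg_left h4 τ.im_pos
    have h6 : 0 ≤ p * s - q * r := by exact_mod_cast h5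
    refine lt_of_le_of_ne h6 fun h7 => ?_
    rw [← h7] at hdet
    simp at hdet
  have hone : p * s - q * r = 1 := Int.eq_one_of_mul_eq_one_right hpos.le hdet
  obtain ⟨γ, hγ⟩ : ∃ γ : SL(2, ℤ), (γ : Matrix (Fin 2) (Fin 2) ℤ) = !![p, q; r, s] :=
    ⟨⟨!![p, q; r, s], by rw [Matrix.det_fin_two_of]; exact hone⟩, rfl⟩
  refine ⟨γ, ?_⟩
  apply UpperHalfPlane.ext
  rw [coe_specialLinearGroup_apply, eq_div_iff]
  · simpa [hγ] using hτ
  · have : (r : ℂ) * τ + s ≠ 0 := by rw [hrs]; exact hc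
    simpa [hγ] using this

end Pool.Agent.P.MP_20768c_nt.Tz.EQ

end

end

-- part ad7a55_nt.Lat
section

/-! Lattices in ℂ. -/

set_option autoImplicit false

noncomputable section

open MeasureTheory Topology Filter UpperHalfPlane
open scoped MatrixGroups ENNReal BoundedContinuousFunction

namespace Pool.Agent.P.MP_20768c_nt.Tz.EQ

/-- Subgroups of `ℂ`. -/
abbrev Lt : Type := Submodule ℤ ℂ

/-- The subgroup generated by one element. -/
def pr (c : ℂ) : Lt := Submodule.span ℤ {c}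

/-- The subgroup generated by two elements. -/
def sp (a b : ℂ) : Lt := Submodule.span ℤ {a, b}

/-- `Λ` is a lattice. -/
def IsLat (Λ : Lt) : Prop := ∃ (c : ℂ) (τ : ℍ), c ≠ 0 ∧ Λ = sp c (c * τ)

open Classical in
/-- The `j`-invariant of a lattice. -/
def jL (Λ : Lt) : ℂ := if h : IsLat Λ then jInv h.choose_spec.choose else 0

open Classical in
/-- The discriminant function of a lattice. -/
def dL (Λ : Lt) : ℂ :=
  if h : IsLat Λ then ModularForm.discriminant h.choose_spec.choose / h.choose ^ 12 else 0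

/-- `Λ'` is a sublattice of index `q`. -/
def Nb (q : ℕ) (Λ Λ' : Lt) : Prop := pr q * Λ < Λ' ∧ Λ' < Λ

/-- Chains of sublattices of prime index, with total index `n`. -/
inductive Ch : ℕ → Lt → Lt → Prop
  | refl (Λ : Lt) : Ch 1 Λ Λ
  | step {q n : ℕ} {Λ Λ₁ Λ' : Lt} : q.Prime → Nb q Λ Λ₁ → Ch n Λ₁ Λ' → Ch (q * n) Λ Λ'

/-- `a` and `b` are `j`-invariants of lattices related by an isogeny of exponent dividing `N`. -/
def Isog (N : ℕ) (a b : ℂ) : Prop :=
  ∃ Λ₁ Λ₂ : Lt, IsLat Λ₁ ∧ IsLat Λ₂ ∧ jL Λ₁ = a ∧ jL Λ₂ = b ∧ Λ₁ ≤ Λ₂ ∧ pr N * Λ₂ ≤ Λ₁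

theorem mem_sp {a b v : ℂ} : v ∈ sp a b ↔ ∃ m n : ℤ, v = m * a + n * b := by
  unfold sp
  rw [Submodule.mem_span_pair]
  constructor
  · rintro ⟨m, n, h⟩
    exact ⟨m, n, by rw [← h]; simp⟩
  · rintro ⟨m, n, h⟩
    exact ⟨m, n, by rw [h]; simp⟩

theorem mem_pr_mul {c v : ℂ} {Λ : Lt} : v ∈ pr c * Λ ↔ ∃ w ∈ Λ, c * w = v :=
  Submodule.mem_span_singleton_mul

theorem pr_mul_le {c : ℂ} {Λ Λ' : Lt} : pr c * Λ ≤ Λ' ↔ ∀ w ∈ Λ, c * w ∈ Λ' := by
  constructor
  · intro h w hw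
    exact h (mem_pr_mul.mpr ⟨w, hw, rfl⟩)
  · intro h v hv
    obtain ⟨w, hw, rfl⟩ := mem_pr_mul.mp hv
    exact h w hw

theorem pr_mul_pr (a b : ℂ) : pr a * pr b = pr (a * b) := by
  unfold pr
  rw [Submodule.span_mul_span, Set.singleton_mul_singleton]

@[simp] theorem pr_one_mul (Λ : Lt) : pr 1 * Λ = Λ := by
  ext v
  rw [mem_pr_mul]
  simp

theorem pr_mul_sp (c a b : ℂ) : pr c * sp a b = sp (c * a) (c * b) := by
  ext v
  rw [mem_pr_mul, mem_sp]
  constructor
  · rintro ⟨w, hw, rfl⟩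
    obtain ⟨m, n, rfl⟩ := mem_sp.mp hw
    exact ⟨m, n, by ring⟩
  · rintro ⟨m, n, rfl⟩
    exact ⟨m * a + n * b, mem_sp.mpr ⟨m, n, rfl⟩, by ring⟩

theorem pr_int_le (n : ℤ) (Λ : Lt) : pr n * Λ ≤ Λ := by
  rw [pr_mul_le]
  intro w hw
  simpa using Λ.smul_mem n hw

theorem pr_mul_le_iff {c : ℂ} (hc : c ≠ 0) {Λ Λ' : Lt} : pr c * Λ ≤ pr c * Λ' ↔ Λ ≤ Λ' := by
  constructor
  · intro h w hw
    obtain ⟨w', hw', e⟩ := mem_pr_mul.mp (pr_mul_le.mp h w hw)
    rwa [← mul_left_cancel₀ hc e]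
  · intro h
    exact pr_mul_le.mpr fun w hw => mem_pr_mul.mpr ⟨w, h hw, rfl⟩

theorem isLat_sp {c : ℂ} (hc : c ≠ 0) (τ : ℍ) : IsLat (sp c (c * τ)) := ⟨c, τ, hc, rfl⟩

theorem isLat_one (τ : ℍ) : IsLat (sp 1 τ) := ⟨1, τ, one_ne_zero, by rw [one_mul]⟩

theorem int_indep_lat (τ : ℍ) {p q : ℤ} (h : (p : ℂ) * τ + q = 0) : p = 0 ∧ q = 0 := by
  have h1 := congrArg Complex.im h
  simp only [Complex.add_im, Complex.mul_im, Complex.intCast_re, Complex.intCast_im, zero_mul,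
    add_zero, Complex.zero_im, coe_im, mul_eq_zero, Int.cast_eq_zero, τ.im_pos.ne', or_false] at h1
  subst h1
  simpa using h

theorem left_mem_sp_lat (a b : ℂ) : a ∈ sp a b := mem_sp.mpr ⟨1, 0, by simp⟩

theorem right_mem_sp_lat (a b : ℂ) : b ∈ sp a b := mem_sp.mpr ⟨0, 1, by simp⟩

theorem sp_le_iff_lat {a b : ℂ} {Λ : Lt} : sp a b ≤ Λ ↔ a ∈ Λ ∧ b ∈ Λ := by
  constructor
  · exact fun h => ⟨h (left_mem_sp_lat a b), h (right_mem_sp_lat a b)⟩
  · rintro ⟨ha, hb⟩ v hv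
    obtain ⟨m, n, rfl⟩ := mem_sp.mp hv
    exact Λ.add_mem (by simpa using Λ.smul_mem m ha) (by simpa using Λ.smul_mem n hb)

theorem sl_den_ne_lat (γ : SL(2, ℤ)) (τ : ℍ) : (γ 1 0 : ℂ) * τ + γ 1 1 ≠ 0 := fun h => by
  obtain ⟨h0, h1⟩ := int_indep_lat τ h
  have := γ.det_coe
  rw [Matrix.det_fin_two, h0, h1] at this
  simp at this

theorem sl_den_mul_lat (γ : SL(2, ℤ)) (τ : ℍ) :
    ((γ 1 0 : ℂ) * τ + γ 1 1) * (γ • τ : ℍ) = (γ 0 0 : ℂ) * τ + γ 0 1 := by
  have h := sl_den_ne_lat γ τ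
  rw [coe_specialLinearGroup_apply]
  simp only [algebraMap_int_eq, eq_intCast, Complex.ofReal_intCast]
  field_simp

/-- Two oriented bases of a lattice differ by `SL₂(ℤ)`. -/
theorem exists_SL_of_sp_eq {c c' : ℂ} {τ τ' : ℍ} (hc : c ≠ 0) (hc' : c' ≠ 0)
    (h : sp c (c * τ) = sp c' (c' * τ')) :
    ∃ γ : SL(2, ℤ), τ' = γ • τ ∧ c' = c * ((γ 1 0 : ℂ) * τ + γ 1 1) := by
  obtain ⟨q, p, hpq⟩ := mem_sp.mp (h ▸ right_mem_sp_lat c' (c' * τ') : c' * τ' ∈ sp c (c * τ))
  obtain ⟨s, r, hrs⟩ := mem_sp.mp (h ▸ left_mem_sp_lat c' (c' * τ') : c' ∈ sp c (c * τ))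
  obtain ⟨q', p', hpq'⟩ := mem_sp.mp (h ▸ right_mem_sp_lat c (c * τ) : c * τ ∈ sp c' (c' * τ'))
  obtain ⟨s', r', hrs'⟩ := mem_sp.mp (h ▸ left_mem_sp_lat c (c * τ) : c ∈ sp c' (c' * τ'))
  obtain ⟨a1, a2⟩ := int_indep_lat τ (p := p' * p + q' * r - 1) (q := p' * q + q' * s) (by
    apply mul_left_cancel₀ hc
    push_cast; linear_combination -p' * hpq - q' * hrs - hpq')
  obtain ⟨a3, a4⟩ := int_indep_lat τ (p := r' * p + s' * r) (q := r' * q + s' * s - 1) (by
    apply mul_left_cancel₀ hc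
    push_cast; linear_combination -r' * hpq - s' * hrs - hrs')
  have hdet : (p * s - q * r) * (p' * s' - q' * r') = 1 := by
    linear_combination (r' * q + s' * s) * a1 + a4 - (r' * p + s' * r) * a2
  have hτ : (τ' : ℂ) * (r * τ + s) = p * τ + q := by
    apply mul_left_cancel₀ hc
    linear_combination hpq - τ' * hrs
  have hpos : 0 < p * s - q * r := by
    have h1 := congrArg Complex.re hτ
    have h2 := congrArg Complex.im hτ
    simp only [Complex.mul_re, Complex.mul_im, Complex.add_re, Complex.add_im, Complex.intCast_re,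
      Complex.intCast_im, zero_mul, sub_zero, add_zero, coe_re, coe_im] at h1 h2
    have h3 : τ'.im * ((r * τ.re + s) ^ 2 + (r * τ.im) ^ 2) = (p * s - q * r) * τ.im := by
      linear_combination (r * τ.re + s) * h2 - (r * τ.im) * h1
    have h4 : 0 ≤ ((p : ℝ) * s - q * r) * τ.im := by
      rw [← h3]; exact mul_nonneg τ'.im_pos.le (by positivity)
    have h5 : 0 ≤ (p : ℝ) * s - q * r := nonneg_of_mul_nonneg_left h4 τ.im_pos
    have h6 : 0 ≤ p * s - q * r := by exact_mod_cast h5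
    refine lt_of_le_of_ne h6 fun h7 => ?_
    rw [← h7] at hdet
    simp at hdet
  have hone : p * s - q * r = 1 := Int.eq_one_of_mul_eq_one_right hpos.le hdet
  obtain ⟨γ, hγ⟩ : ∃ γ : SL(2, ℤ), (γ : Matrix (Fin 2) (Fin 2) ℤ) = !![p, q; r, s] :=
    ⟨⟨!![p, q; r, s], by rw [Matrix.det_fin_two_of]; exact hone⟩, rfl⟩
  have g00 : γ 0 0 = p := by simp [hγ]
  have g01 : γ 0 1 = q := by simp [hγ]
  have g10 : γ 1 0 = r := by simp [hγ]
  have g11 : γ 1 1 = s := by simp [hγ]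
  refine ⟨γ, ?_, ?_⟩
  · apply UpperHalfPlane.ext
    apply mul_left_cancel₀ (sl_den_ne_lat γ τ)
    rw [sl_den_mul_lat, g00, g01, g10, g11, mul_comm, hτ]
  · rw [g10, g11]
    linear_combination hrs

theorem sp_smul (c : ℂ) (γ : SL(2, ℤ)) (τ : ℍ) :
    sp (c * ((γ 1 0 : ℂ) * τ + γ 1 1)) (c * ((γ 1 0 : ℂ) * τ + γ 1 1) * (γ • τ : ℍ)) =
      sp c (c * τ) := by
  have hd : (γ 0 0 : ℂ) * γ 1 1 - γ 0 1 * γ 1 0 = 1 := by
    have := γ.det_coe
    rw [Matrix.det_fin_two] at this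
    exact_mod_cast this
  rw [mul_assoc, sl_den_mul_lat]
  apply le_antisymm
  · exact sp_le_iff_lat.mpr ⟨mem_sp.mpr ⟨γ 1 1, γ 1 0, by ring⟩, mem_sp.mpr ⟨γ 0 1, γ 0 0, by ring⟩⟩
  · refine sp_le_iff_lat.mpr ⟨mem_sp.mpr ⟨γ 0 0, -γ 1 0, ?_⟩, mem_sp.mpr ⟨-γ 0 1, γ 1 1, ?_⟩⟩
    · push_cast; linear_combination (-c) * hd
    · push_cast; linear_combination (-c * τ) * hd

theorem jL_sp {c : ℂ} (hc : c ≠ 0) (τ : ℍ) : jL (sp c (c * τ)) = jInv τ := by
  have h := isLat_sp hc τ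
  unfold jL
  rw [dif_pos h]
  obtain ⟨h1, h2⟩ := h.choose_spec.choose_spec
  obtain ⟨γ, h3, -⟩ := exists_SL_of_sp_eq hc h1 h2
  rw [h3, jInv_smul]

theorem jL_one (τ : ℍ) : jL (sp 1 τ) = jInv τ := by
  simpa using jL_sp one_ne_zero τ

theorem dL_sp {c : ℂ} (hc : c ≠ 0) (τ : ℍ) :
    dL (sp c (c * τ)) = ModularForm.discriminant τ / c ^ 12 := by
  have h := isLat_sp hc τ
  unfold dL
  rw [dif_pos h]
  obtain ⟨h1, h2⟩ := h.choose_spec.choose_spec
  obtain ⟨γ, h3, h4⟩ := exists_SL_of_sp_eq hc h1 h2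
  have h5 := sl_den_ne_lat γ τ
  rw [h3, disc_smul, h4]
  field_simp

theorem IsLat.pr_mul {Λ : Lt} (h : IsLat Λ) {c : ℂ} (hc : c ≠ 0) : IsLat (pr c * Λ) := by
  obtain ⟨a, τ, ha, rfl⟩ := h
  exact ⟨c * a, τ, mul_ne_zero hc ha, by rw [pr_mul_sp, mul_assoc]⟩

theorem jL_pr_mul {Λ : Lt} (h : IsLat Λ) {c : ℂ} (hc : c ≠ 0) : jL (pr c * Λ) = jL Λ := by
  obtain ⟨a, τ, ha, rfl⟩ := h
  rw [pr_mul_sp, ← mul_assoc, jL_sp (mul_ne_zero hc ha), jL_sp ha]

theorem dL_pr_mul {Λ : Lt} (h : IsLat Λ) {c : ℂ} (hc : c ≠ 0) :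
    dL (pr c * Λ) = dL Λ / c ^ 12 := by
  obtain ⟨a, τ, ha, rfl⟩ := h
  rw [pr_mul_sp, ← mul_assoc, dL_sp (mul_ne_zero hc ha), dL_sp ha]
  field_simp

theorem dL_ne_zero {Λ : Lt} (h : IsLat Λ) : dL Λ ≠ 0 := by
  obtain ⟨a, τ, ha, rfl⟩ := h
  rw [dL_sp ha]
  exact div_ne_zero (ModularForm.discriminant_ne_zero τ) (pow_ne_zero _ ha)

theorem jL_inj {Λ Λ' : Lt} (h : IsLat Λ) (h' : IsLat Λ') (hj : jL Λ = jL Λ') :
    ∃ c : ℂ, c ≠ 0 ∧ Λ' = pr c * Λ := by
  obtain ⟨a, τ, ha, rfl⟩ := h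
  obtain ⟨a', τ', ha', rfl⟩ := h'
  rw [jL_sp ha, jL_sp ha'] at hj
  obtain ⟨γ, rfl⟩ := jInv_inj hj
  have h5 := sl_den_ne_lat γ τ
  refine ⟨a' / (a * ((γ 1 0 : ℂ) * τ + γ 1 1)), div_ne_zero ha' (mul_ne_zero ha h5), ?_⟩
  rw [← sp_smul a γ τ, pr_mul_sp, ← mul_assoc _ (a * _), div_mul_cancel₀ _ (mul_ne_zero ha h5)]

theorem jL_surj (z : ℂ) : ∃ Λ, IsLat Λ ∧ jL Λ = z := by
  obtain ⟨τ, rfl⟩ := jInv_surj z
  exact ⟨sp 1 τ, isLat_one τ, jL_one τ⟩

end Pool.Agent.P.MP_20768c_nt.Tz.EQ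

end

end

-- part ad7a55_nt.Lat2
section

/-! Lattices in ℂ. -/

set_option autoImplicit false

noncomputable section

open MeasureTheory Topology Filter UpperHalfPlane
open scoped MatrixGroups ENNReal BoundedContinuousFunction

namespace Pool.Agent.P.MP_20768c_nt.Tz.EQ

theorem lat2_indep {c : ℂ} (hc : c ≠ 0) (τ : ℍ) {m n m' n' : ℤ}
    (h : (m : ℂ) * c + n * (c * τ) = m' * c + n' * (c * τ)) : m = m' ∧ n = n' := by
  have h1 : (m : ℂ) + n * τ = m' + n' * τ := mul_left_cancel₀ hc (by linear_combination h)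
  have h2 := congrArg Complex.im h1
  simp only [Complex.add_im, Complex.intCast_im, Complex.mul_im, Complex.intCast_re, zero_mul,
    add_zero, zero_add, coe_im] at h2
  have h3 : n = n' := by exact_mod_cast mul_right_cancel₀ τ.im_ne_zero h2
  subst h3
  exact ⟨by exact_mod_cast add_right_cancel h1, rfl⟩

theorem lat2_ideal (I : Ideal ℤ) {N : ℕ} (hN : 0 < N) (h : (N : ℤ) ∈ I) :
    ∃ a : ℕ, 0 < a ∧ a ∣ N ∧ ∀ m : ℤ, m ∈ I ↔ (a : ℤ) ∣ m := by
  have hm : ∀ m : ℤ, m ∈ I ↔ ((Submodule.IsPrincipal.generator I).natAbs : ℤ) ∣ m := fun m => by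
    rw [Int.natAbs_dvd]; exact Submodule.IsPrincipal.mem_iff_generator_dvd I
  have hd : (Submodule.IsPrincipal.generator I).natAbs ∣ N := by exact_mod_cast (hm N).1 h
  exact ⟨_, Nat.pos_of_dvd_of_pos hd hN, hd, hm⟩

/-- The lattice with Hermite form `(a, d, b)`. -/
def lat2H (c : ℂ) (τ : ℍ) (a d b : ℤ) : Lt := sp (a * c) (c * (d * τ + b))

theorem lat2_sp_le {a b : ℂ} {Λ : Lt} : sp a b ≤ Λ ↔ a ∈ Λ ∧ b ∈ Λ := by
  rw [sp, Submodule.span_le, Set.insert_subset_iff, Set.singleton_subset_iff]; rfl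

theorem lat2_mem {c : ℂ} (hc : c ≠ 0) (τ : ℍ) {a d b x y : ℤ} :
    (x : ℂ) * c + y * (c * τ) ∈ lat2H c τ a d b ↔ ∃ m n : ℤ, x = m * a + n * b ∧ y = n * d := by
  rw [lat2H, mem_sp]
  constructor
  · rintro ⟨m, n, h⟩
    refine ⟨m, n, lat2_indep hc τ ?_⟩
    rw [h]; push_cast; ring
  · rintro ⟨m, n, rfl, rfl⟩
    exact ⟨m, n, by push_cast; ring⟩

theorem lat2_le {c : ℂ} (hc : c ≠ 0) (τ : ℍ) {a d b a' d' b' : ℤ} (hd : d' ≠ 0) :
    lat2H c τ a d b ≤ lat2H c τ a' d' b' ↔ a' ∣ a ∧ ∃ n : ℤ, d = n * d' ∧ a' ∣ b - n * b' := by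
  have e1 : (a : ℂ) * c = (a : ℂ) * c + ((0 : ℤ) : ℂ) * (c * τ) := by simp
  have e2 : c * (d * τ + b) = (b : ℂ) * c + d * (c * τ) := by ring
  conv_lhs => rw [lat2H, lat2_sp_le, e1, e2, lat2_mem hc, lat2_mem hc]
  constructor
  · rintro ⟨⟨m, n, h1, h2⟩, m', n', h3, h4⟩
    have hn : n = 0 := (mul_eq_zero.1 h2.symm).resolve_right hd
    subst hn
    exact ⟨⟨m, by rw [h1]; ring⟩, n', h4, m', by rw [h3]; ring⟩
  · rintro ⟨⟨m, h1⟩, n, h2, m', h3⟩
    exact ⟨⟨m, 0, by rw [h1]; ring, by ring⟩, m', n, by linear_combination h3, h2⟩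

theorem lat2_top (c : ℂ) (τ : ℍ) : sp c (c * τ) = lat2H c τ 1 1 0 := by simp [lat2H]

theorem lat2_bot (c : ℂ) (τ : ℍ) (q : ℕ) : pr q * sp c (c * τ) = lat2H c τ q q 0 := by
  rw [pr_mul_sp, lat2H]; congr 1; push_cast; ring

theorem lat2_isLat {c : ℂ} (hc : c ≠ 0) (τ : ℍ) {a d : ℕ} (ha : 0 < a) (hd : 0 < d) (b : ℤ) :
    IsLat (sp (a * c) (c * (d * τ + b))) := by
  have ha' : (a : ℂ) ≠ 0 := by exact_mod_cast ha.ne'
  have him : 0 < ((d * τ + b : ℂ) / a).im := by
    rw [Complex.div_natCast_im]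
    simp only [Complex.add_im, Complex.mul_im, Complex.natCast_re, coe_im, Complex.natCast_im,
      zero_mul, add_zero, Complex.intCast_im]
    exact div_pos (mul_pos (Nat.cast_pos.2 hd) τ.im_pos) (Nat.cast_pos.2 ha)
  refine ⟨a * c, ⟨_, him⟩, mul_ne_zero ha' hc, ?_⟩
  congr 1
  change _ = _ * ((d * τ + b : ℂ) / a)
  field_simp

/-- Hermite normal form. -/
theorem hnf {c : ℂ} (hc : c ≠ 0) (τ : ℍ) {N : ℕ} (hN : 0 < N) {Λ' : Lt}
    (h1 : pr N * sp c (c * τ) ≤ Λ') (h2 : Λ' ≤ sp c (c * τ)) :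
    ∃ (a d : ℕ) (b : ℤ), 0 < a ∧ 0 < d ∧ a ∣ N ∧ d ∣ N ∧ 0 ≤ b ∧ b < a ∧
      Λ' = sp (a * c) (c * (d * τ + b)) := by
  let A : Ideal ℤ :=
    { carrier := {m | (m : ℂ) * c ∈ Λ'}
      add_mem' := fun {x y} hx hy => by
        have := Λ'.add_mem hx hy
        simpa [add_mul] using this
      zero_mem' := by simp
      smul_mem' := fun r x hx => by
        have := Λ'.smul_mem r hx
        simpa [mul_assoc] using this }
  let D : Ideal ℤ :=
    { carrier := {n | ∃ m : ℤ, (m : ℂ) * c + n * (c * τ) ∈ Λ'}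
      add_mem' := fun {x y} ⟨m, hx⟩ ⟨m', hy⟩ => ⟨m + m', by
        have := Λ'.add_mem hx hy
        convert this using 1; push_cast; ring⟩
      zero_mem' := ⟨0, by simp⟩
      smul_mem' := fun r x ⟨m, hx⟩ => ⟨r * m, by
        have := Λ'.smul_mem r hx
        convert this using 1; simp only [smul_eq_mul, zsmul_eq_mul]; push_cast; ring⟩ }
  rw [pr_mul_sp, lat2_sp_le] at h1
  obtain ⟨a, ha, haN, hA⟩ := lat2_ideal A hN (by simpa [A] using h1.1)
  obtain ⟨d, hd, hdN, hD⟩ := lat2_ideal D hN ⟨0, by simpa using h1.2⟩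
  have ha' : (a : ℤ) ≠ 0 := by exact_mod_cast ha.ne'
  have hac : (a : ℂ) * c ∈ Λ' := by
    have : ((a : ℤ) : ℂ) * c ∈ Λ' := (hA a).2 dvd_rfl
    simpa using this
  obtain ⟨m, hm⟩ := (hD d).2 dvd_rfl
  have hb : c * (d * τ + (m % a : ℤ)) ∈ Λ' := by
    have := Λ'.sub_mem hm (Λ'.smul_mem (m / a) hac)
    convert this using 1
    rw [Int.emod_def]; simp only [zsmul_eq_mul]; push_cast; ring
  refine ⟨a, d, m % a, ha, hd, haN, hdN, Int.emod_nonneg _ ha',
    Int.emod_lt_of_pos _ (by exact_mod_cast ha), le_antisymm (fun v hv => ?_)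
    (lat2_sp_le.2 ⟨hac, hb⟩)⟩
  obtain ⟨x, y, rfl⟩ := mem_sp.1 (h2 hv)
  obtain ⟨n, rfl⟩ := (hD y).1 ⟨x, hv⟩
  have h3 : x - n * (m % a) ∈ A := by
    have := Λ'.sub_mem hv (Λ'.smul_mem n hb)
    change ((x - n * (m % a) : ℤ) : ℂ) * c ∈ Λ'
    convert this using 1
    simp only [zsmul_eq_mul]; push_cast; ring
  obtain ⟨k, hk⟩ := (hA _).1 h3
  refine mem_sp.2 ⟨k, n, ?_⟩
  have hx : x = a * k + n * (m % a) := by linear_combination hk
  generalize m % (a : ℤ) = b at hx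
  rw [hx]; push_cast; ring

theorem IsLat.of_between {Λ Λ' : Lt} (h : IsLat Λ) {N : ℕ} (hN : 0 < N) (h1 : pr N * Λ ≤ Λ')
    (h2 : pr N * Λ' ≤ Λ) : IsLat Λ' := by
  obtain ⟨c, τ, hc, rfl⟩ := h
  have hN' : (N : ℂ) ≠ 0 := by exact_mod_cast hN.ne'
  have h3 : pr ((N * N : ℕ) : ℂ) * sp c (c * τ) ≤ pr N * Λ' := by
    rw [Nat.cast_mul, ← pr_mul_pr, mul_assoc]
    exact (pr_mul_le_iff hN').2 h1
  obtain ⟨a, d, b, ha, hd, -, -, -, -, h4⟩ := hnf hc τ (Nat.mul_pos hN hN) h3 h2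
  have h5 : IsLat (pr N * Λ') := h4 ▸ lat2_isLat hc τ ha hd b
  have h6 := h5.pr_mul (inv_ne_zero hN')
  rwa [← mul_assoc, pr_mul_pr, inv_mul_cancel₀ hN', pr_one_mul] at h6

/-- The point `q τ`. -/
def mulH (q : ℕ) (hq : 0 < q) (τ : ℍ) : ℍ :=
  ⟨q * τ, by simpa using mul_pos (Nat.cast_pos.2 hq : (0 : ℝ) < q) τ.im_pos⟩

/-- The point `(τ + i) / q`. -/
def divH (q : ℕ) (hq : 0 < q) (i : ℕ) (τ : ℍ) : ℍ :=
  ⟨(τ + i) / q, by
    simpa [Complex.div_natCast_im] using div_pos τ.im_pos (Nat.cast_pos.2 hq : (0 : ℝ) < q)⟩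

@[simp] theorem coe_mulH (q : ℕ) (hq : 0 < q) (τ : ℍ) : (mulH q hq τ : ℂ) = q * τ := rfl

@[simp] theorem coe_divH (q : ℕ) (hq : 0 < q) (i : ℕ) (τ : ℍ) :
    (divH q hq i τ : ℂ) = (τ + i) / q := rfl

/-- The `q + 1` sublattices of index `q`. -/
def nbs (q : ℕ) (hq : 0 < q) (c : ℂ) (τ : ℍ) : Option (Fin q) → Lt
  | none => sp c (c * mulH q hq τ)
  | some i => sp (c * q) (c * q * divH q hq i τ)

theorem lat2_none (q : ℕ) (hq : 0 < q) (c : ℂ) (τ : ℍ) :
    nbs q hq c τ none = lat2H c τ 1 q 0 := by simp [nbs, lat2H]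

theorem lat2_some (q : ℕ) (hq : 0 < q) (c : ℂ) (τ : ℍ) (i : Fin q) :
    nbs q hq c τ (some i) = lat2H c τ q 1 (i : ℕ) := by
  have hq' : (q : ℂ) ≠ 0 := by exact_mod_cast hq.ne'
  simp only [nbs, lat2H, coe_divH]
  congr 1
  · push_cast; ring
  · push_cast; field_simp

theorem lat2_nbs_le {q : ℕ} (hq : q.Prime) {c : ℂ} (hc : c ≠ 0) (τ : ℍ) {o o' : Option (Fin q)}
    (h : nbs q hq.pos c τ o ≤ nbs q hq.pos c τ o') : o = o' := by
  have hq0 : (q : ℤ) ≠ 0 := by exact_mod_cast hq.ne_zero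
  have hq1 : ¬ (q : ℤ) ∣ 1 := fun h => hq.one_lt.ne' (Nat.dvd_one.1 (by exact_mod_cast h))
  rcases o with _ | i <;> rcases o' with _ | i'
  · rfl
  · rw [lat2_none, lat2_some, lat2_le hc τ one_ne_zero] at h
    exact absurd h.1 hq1
  · rw [lat2_none, lat2_some, lat2_le hc τ hq0] at h
    obtain ⟨-, n, h, -⟩ := h
    exact absurd ⟨n, by rw [h]; ring⟩ hq1
  · rw [lat2_some, lat2_some, lat2_le hc τ one_ne_zero] at h
    obtain ⟨-, n, h, h'⟩ := h
    have hn : n = 1 := by linear_combination -h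
    subst hn
    have h1 := i.2
    have h2 := i'.2
    have h3 := Int.eq_zero_of_abs_lt_dvd h' (abs_lt.2 ⟨by omega, by omega⟩)
    exact congrArg some (Fin.ext (by omega))

theorem nb_iff {q : ℕ} (hq : q.Prime) {c : ℂ} (hc : c ≠ 0) (τ : ℍ) (Λ' : Lt) :
    Nb q (sp c (c * τ)) Λ' ↔ ∃ o, Λ' = nbs q hq.pos c τ o := by
  have hq0 : (q : ℤ) ≠ 0 := by exact_mod_cast hq.ne_zero
  have hq1 : ¬ (q : ℤ) ∣ 1 := fun h => hq.one_lt.ne' (Nat.dvd_one.1 (by exact_mod_cast h))
  constructor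
  · rintro ⟨h1, h2⟩
    obtain ⟨a, d, b, ha, hd, haq, hdq, hb0, hba, h⟩ := hnf hc τ hq.pos h1.le h2.le
    have h' : Λ' = lat2H c τ a d b := by rw [h, lat2H]; push_cast; rfl
    rcases (Nat.dvd_prime hq).1 haq with rfl | rfl <;>
      rcases (Nat.dvd_prime hq).1 hdq with hd' | hd'
    · have hb : b = 0 := by omega
      rw [h', lat2_top, hd', hb] at h2
      exact absurd h2 (lt_irrefl _)
    · have hb : b = 0 := by omega
      exact ⟨none, by rw [h', lat2_none, hd', hb]; rfl⟩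
    · refine ⟨some ⟨b.toNat, by omega⟩, ?_⟩
      rw [h', lat2_some, hd']
      congr 1
      simp only [Int.toNat_of_nonneg hb0]
    · rw [h', lat2_bot, hd'] at h1
      obtain ⟨-, n, h3, h4⟩ := (lat2_le hc τ hq0).1 h1.le
      have hn : n = 1 := mul_right_cancel₀ hq0 (by rw [← h3, one_mul])
      subst hn
      have hb := Int.eq_zero_of_abs_lt_dvd h4 (abs_lt.2 ⟨by omega, by omega⟩)
      have hb' : b = 0 := by omega
      rw [hb'] at h1
      exact absurd h1 (lt_irrefl _)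
  · rintro ⟨o, rfl⟩
    rw [Nb, lat2_bot, lat2_top, lt_iff_le_not_ge, lt_iff_le_not_ge]
    rcases o with _ | i
    · rw [lat2_none, lat2_le hc τ hq0, lat2_le hc τ hq0, lat2_le hc τ hq0,
        lat2_le hc τ one_ne_zero]
      refine ⟨⟨⟨one_dvd _, 1, by ring, one_dvd _⟩, fun h => hq1 h.1⟩,
        ⟨one_dvd _, q, by ring, one_dvd _⟩, ?_⟩
      rintro ⟨-, n, h, -⟩
      exact hq1 ⟨n, by rw [h]; ring⟩
    · rw [lat2_some, lat2_le hc τ hq0, lat2_le hc τ one_ne_zero, lat2_le hc τ one_ne_zero,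
        lat2_le hc τ one_ne_zero]
      refine ⟨⟨⟨dvd_rfl, q, by ring, ⟨-(i : ℕ), by ring⟩⟩, ?_⟩,
        ⟨one_dvd _, 1, by ring, one_dvd _⟩, fun h => hq1 h.1⟩
      rintro ⟨-, n, h, -⟩
      exact hq1 ⟨n, by rw [h]; ring⟩

theorem nbs_inj {q : ℕ} (hq : q.Prime) {c : ℂ} (hc : c ≠ 0) (τ : ℍ) :
    Function.Injective (nbs q hq.pos c τ) := by
  exact fun o o' h => lat2_nbs_le hq hc τ h.le

theorem Nb.isLat {q : ℕ} (hq : q.Prime) {Λ Λ' : Lt} (h : IsLat Λ) (h' : Nb q Λ Λ') :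
    IsLat Λ' := by
  refine h.of_between hq.pos h'.1.le (le_trans ?_ h'.2.le)
  simpa using pr_int_le (q : ℤ) Λ'

theorem Nb.eq_of_le {q : ℕ} (hq : q.Prime) {Λ Λ₁ Λ₂ : Lt} (h : IsLat Λ) (h₁ : Nb q Λ Λ₁)
    (h₂ : Nb q Λ Λ₂) (hle : Λ₁ ≤ Λ₂) : Λ₁ = Λ₂ := by
  obtain ⟨c, τ, hc, rfl⟩ := h
  obtain ⟨o, rfl⟩ := (nb_iff hq hc τ _).1 h₁
  obtain ⟨o', rfl⟩ := (nb_iff hq hc τ _).1 h₂
  rw [lat2_nbs_le hq hc τ hle]

theorem Nb.pr_mul {q : ℕ} {Λ Λ' : Lt} (h : Nb q Λ Λ') {c : ℂ} (hc : c ≠ 0) :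
    Nb q (pr c * Λ) (pr c * Λ') := by
  obtain ⟨h1, h2⟩ := h
  rw [lt_iff_le_not_ge] at h1 h2
  rw [Nb, mul_left_comm, lt_iff_le_not_ge, lt_iff_le_not_ge]
  simpa only [pr_mul_le_iff hc] using And.intro h1 h2

theorem Ch.spec {n : ℕ} {Λ Λ' : Lt} (h : Ch n Λ Λ') (hΛ : IsLat Λ) :
    0 < n ∧ IsLat Λ' ∧ Λ' ≤ Λ ∧ pr n * Λ ≤ Λ' := by
  induction h with
  | refl Λ => exact ⟨one_pos, hΛ, le_rfl, by simp⟩
  | @step q n Λ Λ₁ Λ' hq hnb _ ih =>
    obtain ⟨h1, h2, h3, h4⟩ := ih (hnb.isLat hq hΛ)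
    refine ⟨Nat.mul_pos hq.pos h1, h2, h3.trans hnb.2.le, le_trans ?_ h4⟩
    have hn : (n : ℂ) ≠ 0 := by exact_mod_cast h1.ne'
    rw [Nat.cast_mul, mul_comm (q : ℂ), ← pr_mul_pr, mul_assoc]
    exact (pr_mul_le_iff hn).2 hnb.1.le

theorem Ch.trans {m n : ℕ} {Λ Λ₁ Λ' : Lt} (h : Ch m Λ Λ₁) (h' : Ch n Λ₁ Λ') :
    Ch (m * n) Λ Λ' := by
  induction h with
  | refl Λ => rwa [one_mul]
  | step hq hnb _ ih => rw [mul_assoc]; exact Ch.step hq hnb (ih h')

theorem lat2_ch_a (a : ℕ) : 0 < a → ∀ (c : ℂ), c ≠ 0 → ∀ (τ : ℍ) (b : ℤ),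
    Ch a (sp c (c * τ)) (lat2H c τ a 1 b) := by
  induction a using induction_on_primes with
  | zero => exact fun h => absurd h (lt_irrefl _)
  | one =>
    intro _ c hc τ b
    have : lat2H c τ (1 : ℕ) 1 b = sp c (c * τ) := by
      rw [lat2_top]
      exact le_antisymm ((lat2_le hc τ one_ne_zero).2 ⟨one_dvd _, 1, by ring, one_dvd _⟩)
        ((lat2_le hc τ one_ne_zero).2 ⟨by simp, 1, by ring, by simp⟩)
    rw [this]; exact Ch.refl _
  | prime_mul q a hq ih =>
    intro h c hc τ b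
    have ha : 0 < a := Nat.pos_of_mul_pos_left h
    have hq0 : (q : ℤ) ≠ 0 := by exact_mod_cast hq.ne_zero
    have hq' : (q : ℂ) ≠ 0 := by exact_mod_cast hq.ne_zero
    have h1 := Int.emod_nonneg b hq0
    have h2 := Int.emod_lt_of_pos b (show (0 : ℤ) < q by exact_mod_cast hq.pos)
    let i : Fin q := ⟨(b % q).toNat, by omega⟩
    have hi : (((i : ℕ) : ℤ) : ℂ) = b - q * ((b / q : ℤ) : ℂ) := by
      have : ((i : ℕ) : ℤ) = b - q * (b / q) := by
        rw [← Int.emod_def]; exact Int.toNat_of_nonneg h1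
      rw [this]; push_cast; ring
    refine Ch.step hq ((nb_iff hq hc τ _).2 ⟨some i, rfl⟩) ?_
    have h3 := ih ha (c * q) (mul_ne_zero hc hq') (divH q hq.pos i τ) (b / q)
    convert h3 using 1
    · rfl
    · simp only [lat2H, coe_divH]
      congr 1
      · push_cast; ring
      · rw [Int.cast_natCast] at hi
        rw [hi]; push_cast; field_simp; ring

theorem lat2_ch {a : ℕ} (ha : 0 < a) (d : ℕ) : 0 < d → ∀ (c : ℂ), c ≠ 0 → ∀ (τ : ℍ) (b : ℤ),
    Ch (d * a) (sp c (c * τ)) (lat2H c τ a d b) := by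
  induction d using induction_on_primes with
  | zero => exact fun h => absurd h (lt_irrefl _)
  | one =>
    intro _ c hc τ b
    rw [one_mul]
    exact lat2_ch_a a ha c hc τ b
  | prime_mul q d hq ih =>
    intro h c hc τ b
    have hd : 0 < d := Nat.pos_of_mul_pos_left h
    rw [mul_assoc]
    refine Ch.step hq ((nb_iff hq hc τ _).2 ⟨none, rfl⟩) ?_
    have h3 := ih hd c hc (mulH q hq.pos τ) b
    convert h3 using 1
    · rfl
    · simp only [lat2H, coe_mulH]
      congr 1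
      push_cast; ring

theorem exists_ch {Λ Λ' : Lt} (h : IsLat Λ) {N : ℕ} (hN : 0 < N) (h1 : pr N * Λ ≤ Λ')
    (h2 : Λ' ≤ Λ) : ∃ n, n ∣ N ^ 2 ∧ Ch n Λ Λ' := by
  obtain ⟨c, τ, hc, rfl⟩ := h
  obtain ⟨a, d, b, ha, hd, haN, hdN, -, -, h⟩ := hnf hc τ hN h1 h2
  have h' : Λ' = lat2H c τ a d b := by rw [h, lat2H]; push_cast; rfl
  exact ⟨d * a, by rw [sq]; exact mul_dvd_mul hdN haN, h' ▸ lat2_ch ha d hd c hc τ b⟩

end Pool.Agent.P.MP_20768c_nt.Tz.EQ

end

end
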