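import Pool.Agent.P.MP_20768c_nt.Tz.Z0
import Pool.Agent.P.MP_20768c_nt.Tz.Z1

-- part 20768c_nt.EngA
section

namespace Pool.Agent.P.MP_20768c_nt.Tz
open M2

lemma enga_norm_e {K : Type*} [NormedField K] {p M : ℕ} (hM : IsCoprime (M : ℤ) (p : ℤ))
    (ε : DirichletCharacter K M) : ‖ε (p : ZMod M)‖ = 1 := by
  apply char_norm_unit
  have := (ZMod.coe_int_isUnit_iff_isCoprime (p : ℤ) M).2 hM
  simpa using this

lemma enga_lt {K : Type*} [NormedField K] [IsUltrametricDist K] {x y : K} {c : ℝ}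
    (hx : ‖x‖ < c) (hy : ‖y‖ < c) : ‖x + y‖ < c :=
  (IsUltrametricDist.norm_add_le_max x y).trans_lt (max_lt hx hy)

lemma enga_prod {K : Type*} [NormedField K] [IsUltrametricDist K] {α u L : K} {c : ℝ}
    (hα : ‖α‖ = 1) (hu : ‖u‖ = 1) (h : ‖(α - 1) * (u - 1) * L‖ < c) (i j : ℤ) :
    ‖(α ^ i - 1) * (u ^ j - 1) * L‖ < c := by
  refine lt_of_le_of_lt ?_ h
  simp only [norm_mul]
  have h1 := norm_zpow_sub_one hα i
  have h2 := norm_zpow_sub_one hu j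
  gcongr

lemma enga_eps {K : Type*} [Field K] {p M : ℕ} (hM : IsCoprime (M : ℤ) (p : ℤ))
    (hp : p ≠ 0) (ε : DirichletCharacter K M) (he : ε (p : ZMod M) ≠ 0) {j a : ℤ}
    (h : RM p M ((p : ℚ) ^ j * a - 1)) : ε (p : ZMod M) ^ j * ε (a : ZMod M) = 1 := by
  have hp' : (p : ℚ) ≠ 0 := by exact_mod_cast hp
  obtain ⟨k, rfl | rfl⟩ := j.eq_nat_or_neg
  · have h1 : (M : ℤ) ∣ (p : ℤ) ^ k * a - 1 := by
      apply RM.dvd_of_int hM
      push_cast
      simpa using h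
    have h2 := char_one ε h1
    push_cast at h2
    rw [map_mul, map_pow] at h2
    rw [zpow_natCast]
    exact h2
  · have h1 : (M : ℤ) ∣ a - (p : ℤ) ^ k := by
      apply RM.dvd_of_int hM
      have h3 := (RM.pow p k).mul_l h
      have e : (p : ℚ) ^ k * ((p : ℚ) ^ (-(k : ℤ)) * a - 1) = ((a - (p : ℤ) ^ k : ℤ) : ℚ) := by
        rw [zpow_neg, zpow_natCast]
        push_cast
        field_simp
      rwa [e] at h3
    have h2 := char_cong ε h1
    push_cast at h2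
    rw [map_pow] at h2
    rw [h2, zpow_neg, zpow_natCast]
    exact inv_mul_cancel₀ (pow_ne_zero _ he)

/-- case `p ∤ M`: `F(b,d) - u ^ j' L` depends only on the first column -/
lemma engA_col {K : Type*} [NormedField K] [IsUltrametricDist K] {p M : ℕ} (hp : p.Prime)
    (hM : IsCoprime (M : ℤ) (p : ℤ)) {ε : DirichletCharacter K M} {S : ℚ → K} {α : K} {c : ℝ}
    (hT : TLaw M ε S) (hα1 : ‖α‖ = 1)
    (hval : ∀ (n : ℕ) (a : ℤ), (n = 0 ∨ ¬ (p : ℤ) ∣ a) →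
      ‖S (a / (p : ℚ) ^ n) - (α / ε (p : ZMod M)) ^ (-(n : ℤ)) * S 0‖ < c)
    (hrel : ‖(α - 1) * (α / ε (p : ZMod M) - 1) * S 0‖ < c)
    {h : M2} (hh : h ∈ Gam p M 1) {j a' c' j' b' d' : ℤ}
    (h1 : Prim p h.a h.c j a' c') (h2 : Prim p h.b h.d j' b' d') :
    ‖(Fv S h.b h.d - (α / ε (p : ZMod M)) ^ j' * S 0) - (Fv S a' c' + (α ^ j - 1) * S 0)‖ < c := by
  have hp' : (p : ℚ) ≠ 0 := by exact_mod_cast hp.ne_zero
  have he1 := enga_norm_e hM ε
  have he0 : ε (p : ZMod M) ≠ 0 := by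
    intro h0; rw [h0, norm_zero] at he1; exact zero_ne_one he1
  have hα0 : α ≠ 0 := by
    intro h0; rw [h0, norm_zero] at hα1; exact zero_ne_one hα1
  have hu1 : ‖α / ε (p : ZMod M)‖ = 1 := by rw [norm_div, hα1, he1, div_one]
  obtain ⟨n, hn, hdet⟩ := prim_det hp h1 h2
  obtain ⟨ha, -, hc, -⟩ := mem_Gam.1 hh
  have hc' : (M : ℤ) ∣ c' := by
    apply RM.dvd_of_int hM
    have h3 := (RM.zpow hp.ne_zero (-j)).mul_l hc
    have e : (p : ℚ) ^ (-j) * h.c = c' := by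
      rw [h1.2.2, zpow_neg]
      field_simp
    rwa [e] at h3
  obtain ⟨y, x', hxy⟩ := h1.1
  have hγ : a' * y - (-x') * c' = 1 := by linear_combination hxy
  set x : ℤ := -x' with hx
  set t : ℤ := y * b' - x * d' with ht
  have hb : b' = a' * t + x * (p : ℤ) ^ n := by
    rw [ht, ← hdet]; linear_combination (-b') * hγ
  have hd : d' = c' * t + y * (p : ℤ) ^ n := by
    rw [ht, ← hdet]; linear_combination (-d') * hγ
  have hlow : n = 0 ∨ ¬ (p : ℤ) ∣ t := by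
    by_cases h0 : n = 0
    · exact Or.inl h0
    · refine Or.inr fun hpt => ?_
      have hpn : (p : ℤ) ∣ (p : ℤ) ^ n := dvd_pow_self _ h0
      have d1 : (p : ℤ) ∣ b' := by rw [hb]; exact (hpt.mul_left _).add (hpn.mul_left _)
      have d2 : (p : ℤ) ∣ d' := by rw [hd]; exact (hpt.mul_left _).add (hpn.mul_left _)
      have := h2.1.isUnit_of_dvd' d1 d2
      rw [Int.isUnit_iff_natAbs_eq] at this
      exact hp.one_lt.ne' (by simpa using this)
  have hpn0 : (p : ℚ) ^ n ≠ 0 := pow_ne_zero _ hp'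
  have hF := hT a' x c' y hγ hc' t ((p : ℚ) ^ n) (Or.inr hpn0)
  have eb : (a' : ℚ) * t + x * (p : ℚ) ^ n = b' := by rw [hb]; push_cast; ring
  have ed : (c' : ℚ) * t + y * (p : ℚ) ^ n = d' := by rw [hd]; push_cast; ring
  rw [eb, ed, Fv_of_ne S _ hpn0] at hF
  have e1 : ε (p : ZMod M) ^ j * ε (a' : ZMod M) = 1 := by
    apply enga_eps hM hp.ne_zero ε he0
    rw [← h1.2.1]; exact ha
  have e2 : ε (a' : ZMod M) * ε (y : ZMod M) = 1 := by
    have h3 : (M : ℤ) ∣ a' * y - 1 := by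
      have : a' * y - 1 = x * c' := by linear_combination hγ
      rw [this]; exact hc'.mul_left _
    have h4 := char_one ε h3
    push_cast at h4
    rwa [map_mul] at h4
  have e3 : ε (y : ZMod M) = ε (p : ZMod M) ^ j := by
    linear_combination (-ε (y : ZMod M)) * e1 + ε (p : ZMod M) ^ j * e2
  have e4 : ε (p : ZMod M) ^ j * (α / ε (p : ZMod M)) ^ (-(n : ℤ)) =
      α ^ j * (α / ε (p : ZMod M)) ^ j' := by
    rw [← hn, zpow_add₀ (div_ne_zero hα0 he0), div_zpow, ← mul_assoc,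
      mul_div_cancel₀ _ (zpow_ne_zero j he0)]
  rw [Fv_prim S hp h2, hF, e3]
  have key : Fv S a' c' + ε (p : ZMod M) ^ j * S (t / (p : ℚ) ^ n) -
      (α / ε (p : ZMod M)) ^ j' * S 0 - (Fv S a' c' + (α ^ j - 1) * S 0) =
      ε (p : ZMod M) ^ j * (S (t / (p : ℚ) ^ n) - (α / ε (p : ZMod M)) ^ (-(n : ℤ)) * S 0) +
        (α ^ j - 1) * ((α / ε (p : ZMod M)) ^ j' - 1) * S 0 := by
    linear_combination (S 0) * e4
  rw [key]
  refine enga_lt ?_ (enga_prod hα1 hu1 hrel j j')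
  rw [norm_mul, norm_zpow, he1, one_zpow, one_mul]
  exact hval n t hlow

theorem engA {K : Type*} [NormedField K] [IsUltrametricDist K] {p M : ℕ} [NeZero M]
    (hp : p.Prime) (hpn : ‖(p : K)‖ < 1) (hM : ¬ p ∣ M) {ε : DirichletCharacter K M}
    {S : ℚ → K} {A α : K} {c : ℝ} (hT : TLaw M ε S) (hH : HLaw p M ε A S)
    (hα : α ^ 2 - A * α + ε (p : ZMod M) * p = 0) (hα1 : ‖α‖ = 1) (hc : 0 < c)
    (hμ : ∀ (n : ℕ) (a : ℤ), ¬ (p : ℤ) ∣ a →
      ‖α * S (a / (p : ℚ) ^ (n + 1)) - ε (p : ZMod M) * S (a / (p : ℚ) ^ n)‖ < c)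
    {b d : ℤ} (hbd : IsCoprime b d) (hd : (M : ℤ) ∣ d - 1) : ‖Fv S b d - S 0‖ < c := by
  have hcop : Nat.Coprime p M := (Nat.Prime.coprime_iff_not_dvd hp).2 hM
  have hM' : IsCoprime (M : ℤ) (p : ℤ) := Nat.isCoprime_iff_coprime.2 hcop.symm
  have he1 := enga_norm_e hM' ε
  have he0 : ε (p : ZMod M) ≠ 0 := by
    intro h0; rw [h0, norm_zero] at he1; exact zero_ne_one he1
  have hα0 : α ≠ 0 := by
    intro h0; rw [h0, norm_zero] at hα1; exact zero_ne_one hα1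
  have hu1 : ‖α / ε (p : ZMod M)‖ = 1 := by rw [norm_div, hα1, he1, div_one]
  have hu0 : α / ε (p : ZMod M) ≠ 0 := div_ne_zero hα0 he0
  have hval := engA_val hp hT hα1 he1 hc hμ
  have hrel := engA_rel hp hT hH hα hα1 he1 hc hμ
  refine eng0 hp hpn (N := M) (r := 0) hM' (by simp) hT hc
    (fun x y => (α / ε (p : ZMod M)) ^ (prim p x y).1 * S 0) ?_ ?_ ?_ ?_ ?_ hbd hd
  · have h0 : Prim p 0 1 0 0 1 := ⟨isCoprime_one_right, by simp, by simp⟩
    simp only [prim_eq hp h0, zpow_zero, one_mul]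
  · refine ⟨‖S 0‖, fun h _ => ?_⟩
    rw [norm_mul, norm_zpow, hu1, one_zpow, one_mul]
  · intro g hg h hh
    obtain ⟨j, b1, d1, h2⟩ := prim_col2 hp hh
    obtain ⟨b2, d2, h3, -⟩ := prim_mul hg h2
    simp only [prim_eq hp h2, prim_eq hp h3]
  · intro h hh h' hh' ea ec
    obtain ⟨j, a1, c1, h1, -⟩ := prim_col1 hp hM' hh
    have h1' : Prim p h'.a h'.c j a1 c1 := by rw [← ea, ← ec]; exact h1
    obtain ⟨j1, b1, d1, h2⟩ := prim_col2 hp hh
    obtain ⟨j2, b2, d2, h2'⟩ := prim_col2 hp hh'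
    have k1 := engA_col hp hM' hT hα1 hval hrel hh h1 h2
    have k2 := engA_col hp hM' hT hα1 hval hrel hh' h1' h2'
    rw [← norm_neg] at k2
    have k3 := enga_lt k1 k2
    simp only [prim_eq hp h2, prim_eq hp h2']
    refine lt_of_eq_of_lt ?_ k3
    congr 1
    ring
  · have hφ : (M : ℤ) ∣ (p : ℤ) ^ (Nat.totient M) - 1 := by
      have h1 := (Nat.ModEq.pow_totient hcop).symm.dvd
      push_cast at h1
      exact h1
    have heφ : ε (p : ZMod M) ^ (Nat.totient M) = 1 := by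
      have h1 := char_one ε hφ
      push_cast at h1
      rwa [map_pow] at h1
    have hw : (α / ε (p : ZMod M)) ^ (Nat.totient M) = α ^ (Nat.totient M) := by
      rw [div_pow, heφ, div_one]
    have hsq : ‖((α / ε (p : ZMod M)) ^ (Nat.totient M) - 1) *
        ((α / ε (p : ZMod M)) ^ (Nat.totient M) - 1) * S 0‖ < c := by
      have h1 := enga_prod hα1 hu1 hrel (Nat.totient M : ℤ) (Nat.totient M : ℤ)
      rw [zpow_natCast, zpow_natCast, ← hw] at h1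
      exact h1
    obtain ⟨k, hk⟩ := unip_pow hpn (by rw [norm_pow, hu1, one_pow]) hsq
    rw [← pow_mul] at hk
    refine ⟨Nat.totient M * p ^ k,
      Nat.mul_pos (Nat.totient_pos.2 (Nat.pos_of_ne_zero (NeZero.ne M))) (pow_pos hp.pos k),
      ?_, fun h hh => ?_⟩
    · have h1 : (M : ℤ) ∣ (p : ℤ) ^ (Nat.totient M * p ^ k) - 1 := by
        rw [pow_mul]
        exact hφ.trans (by simpa using sub_dvd_pow_sub_pow ((p : ℤ) ^ (Nat.totient M)) 1 (p ^ k))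
      have h2 := RM.of_dvd p h1
      push_cast at h2
      exact h2
    · obtain ⟨j, b1, d1, h2⟩ := prim_col2 hp hh
      have h3 := prim_scale hp h2 (Nat.totient M * p ^ k)
      simp only [prim_eq hp h2, prim_eq hp h3]
      generalize Nat.totient M * p ^ k = m at hk ⊢
      have e : (α / ε (p : ZMod M)) ^ (j - (m : ℤ)) * S 0 - (α / ε (p : ZMod M)) ^ j * S 0 =
          -(α / ε (p : ZMod M)) ^ (j - (m : ℤ)) * (((α / ε (p : ZMod M)) ^ m - 1) * S 0) := by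
        have e1 : (α / ε (p : ZMod M)) ^ j =
            (α / ε (p : ZMod M)) ^ (j - (m : ℤ)) * (α / ε (p : ZMod M)) ^ m := by
          rw [← zpow_natCast, ← zpow_add₀ hu0, sub_add_cancel]
        rw [e1]
        generalize (α / ε (p : ZMod M)) ^ (j - (m : ℤ)) = v
        ring
      rw [e, norm_mul, norm_neg, norm_zpow, hu1, one_zpow, one_mul]
      exact hk

end Pool.Agent.P.MP_20768c_nt.Tz

end

-- part 20768c_nt.EngB
section

namespace Pool.Agent.P.MP_20768c_nt.Tz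
open M2

theorem engB {K : Type*} [NormedField K] [IsUltrametricDist K] {p M : ℕ} [NeZero M]
    (hp : p.Prime) (hpn : ‖(p : K)‖ < 1) (hM : p ∣ M) {ε : DirichletCharacter K M}
    {S : ℚ → K} {α : K} {c : ℝ} (hT : TLaw M ε S) (hH : HLaw p M ε α S)
    (hα1 : ‖α‖ = 1) (hc : 0 < c)
    (hμ : ∀ (n : ℕ) (a : ℤ), ¬ (p : ℤ) ∣ a → ‖S (a / (p : ℚ) ^ (n + 1))‖ < c)
    {b d : ℤ} (hbd : IsCoprime b d) (hd : (M : ℤ) ∣ d - 1) : ‖Fv S b d - S 0‖ < c := by
  obtain ⟨r, N, hN0, hMN0⟩ := Nat.exists_eq_pow_mul_and_not_dvd (NeZero.ne M) p hp.one_lt.ne'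
  have hN : IsCoprime (N : ℤ) (p : ℤ) :=
    Nat.isCoprime_iff_coprime.2 ((Nat.Prime.coprime_iff_not_dvd hp).2 hN0).symm
  have hMN : (M : ℤ) = (N : ℤ) * (p : ℤ) ^ r := by rw [hMN0]; push_cast; ring
  have hNne : ((N : ℤ) : ℚ) ≠ 0 := by
    have : N ≠ 0 := by rintro rfl; exact hN0 (dvd_zero p)
    exact_mod_cast this
  refine eng0 hp hpn hN hMN hT hc (fun x y => ε (((prim p x y).2.2 : ℤ) : ZMod M) * S 0)
    ?_ ?_ ?_ ?_ ?_ hbd hd
  · have h0 : Prim p 0 1 0 0 1 := ⟨isCoprime_one_right, by simp, by simp⟩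
    simp [prim_eq hp h0]
  · refine ⟨‖S 0‖, fun h _ => ?_⟩
    rw [norm_mul]
    exact mul_le_of_le_one_left (norm_nonneg _) (char_norm_le ε _)
  · intro g hg h hh
    obtain ⟨j, b1, d1, h1⟩ := prim_col2 hp hh
    obtain ⟨b2, d2, h2, h3⟩ := prim_mul hg h1
    simp only [prim_eq hp h1, prim_eq hp h2]
    rw [char_cong ε h3]
  · intro h hh h' hh' ea ec
    obtain ⟨j, a', c', h0, hc'⟩ := prim_col1 hp hN hh
    have h0' : Prim p h'.a h'.c j a' c' := by rw [← ea, ← ec]; exact h0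
    obtain ⟨j1, b1, d1, h1⟩ := prim_col2 hp hh
    obtain ⟨j2, b2, d2, h2⟩ := prim_col2 hp hh'
    obtain ⟨n1, -, e1⟩ := prim_det hp h0 h1
    obtain ⟨n2, -, e2⟩ := prim_det hp h0' h2
    simp only [prim_eq hp h1, prim_eq hp h2]
    rw [Fv_prim S hp h1, Fv_prim S hp h2]
    change ‖Hv ε S b1 d1 - Hv ε S b2 d2‖ < c
    by_cases hpc : (p : ℤ) ∣ c'
    · have k1 := engB_E2 hp hM hN hMN hT hH hα1 hc hμ h0.1 h1.1 hc' hpc e1
      have k2 := engB_E2 hp hM hN hMN hT hH hα1 hc hμ h0.1 h2.1 hc' hpc e2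
      have e : Hv ε S b1 d1 - Hv ε S b2 d2 =
          (Hv ε S b1 d1 - Fv S a' c') + -(Hv ε S b2 d2 - Fv S a' c') := by ring
      rw [e]
      refine (IsUltrametricDist.norm_add_le_max _ _).trans_lt (max_lt k1 ?_)
      rwa [norm_neg]
    · exact engB_E3 hp hM hN hMN hT hH hα1 hc hμ h0.1 h1.1 h2.1 hc' hpc e1 e2
  · obtain ⟨i, hi, h1⟩ := RM.pow_one_mod hp hNne (RM.int p N) 1
    refine ⟨i, hi, ?_, fun h hh => ?_⟩
    · have h2 := (RM.of_dvd p (dvd_refl (N : ℤ))).mul_r h1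
      rwa [pow_one, mul_div_cancel₀ _ hNne] at h2
    · obtain ⟨j, b1, d1, h2⟩ := prim_col2 hp hh
      simp only [prim_eq hp h2, prim_eq hp (prim_scale hp h2 i)]
      simpa using hc

/-- both cases -/
theorem engine {K : Type*} [NormedField K] [IsUltrametricDist K] {p M : ℕ} [NeZero M]
    (hp : p.Prime) (hpn : ‖(p : K)‖ < 1) {ε : DirichletCharacter K M}
    {S : ℚ → K} {A α : K} {c : ℝ} (hT : TLaw M ε S) (hH : HLaw p M ε A S)
    (hα : α ^ 2 - A * α + ε (p : ZMod M) * p = 0) (hα1 : ‖α‖ = 1) (hc : 0 < c)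
    (hμ : ∀ (n : ℕ) (a : ℤ), ¬ (p : ℤ) ∣ a →
      ‖α * S (a / (p : ℚ) ^ (n + 1)) - ε (p : ZMod M) * S (a / (p : ℚ) ^ n)‖ < c)
    {b d : ℤ} (hbd : IsCoprime b d) (hd : (M : ℤ) ∣ d - 1) : ‖Fv S b d - S 0‖ < c := by
  by_cases hM : p ∣ M
  · have h0 : ε (p : ZMod M) = 0 := by
      simpa using char_zero ε hp hM (dvd_refl (p : ℤ))
    have hα0 : α ≠ 0 := by
      rintro rfl
      simp at hα1
    have hA : A = α := by
      rw [h0] at hα
      apply mul_right_cancel₀ hα0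
      linear_combination -hα
    subst hA
    refine engB hp hpn hM hT hH hα1 hc (fun n a ha => ?_) hbd hd
    have := hμ n a ha
    rwa [h0, zero_mul, sub_zero, norm_mul, hα1, one_mul] at this
  · exact engA hp hpn hM hT hH hα hα1 hc hμ hbd hd

end Pool.Agent.P.MP_20768c_nt.Tz

end

-- part ad7a55_nt.IntQ
section

/-! Functions with integral q-expansions. -/

set_option autoImplicit false

noncomputable section

open MeasureTheory Topology Filter UpperHalfPlane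
open scoped MatrixGroups ENNReal BoundedContinuousFunction

namespace Pool.Agent.P.MP_20768c_nt.Tz.EQ

/-- The parameter `e^{2πiτ}`. -/
def qq (τ : ℍ) : ℂ := Complex.exp (2 * Real.pi * Complex.I * τ)

/-- `f` has a convergent `q`-expansion with integer coefficients. -/
def IntQ (f : ℍ → ℂ) : Prop := ∃ a : ℕ → ℤ, ∀ τ, HasSum (fun n => (a n : ℂ) * qq τ ^ n) (f τ)

/-- The power series `A` converges at `x` to `y`. -/
def IntqRep (A : PowerSeries ℤ) (x y : ℂ) : Prop :=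
  HasSum (fun n => ((PowerSeries.coeff n A : ℤ) : ℂ) * x ^ n) y

theorem intq_congr {f g : ℕ → ℂ} {y : ℂ} (h : HasSum f y) (e : ∀ n, g n = f n) : HasSum g y :=
  (funext e : g = f) ▸ h

theorem intq_iff {f : ℍ → ℂ} : IntQ f ↔ ∃ A, ∀ τ, IntqRep A (qq τ) (f τ) :=
  ⟨fun ⟨a, h⟩ => ⟨PowerSeries.mk a, fun τ => by simpa [IntqRep] using h τ⟩,
    fun ⟨A, h⟩ => ⟨fun n => PowerSeries.coeff n A, h⟩⟩

theorem IntqRep.add {A B : PowerSeries ℤ} {x y z : ℂ} (h : IntqRep A x y) (h' : IntqRep B x z) :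
    IntqRep (A + B) x (y + z) := by
  have := HasSum.add h h'
  simpa [IntqRep, add_mul] using this

theorem IntqRep.sub {A B : PowerSeries ℤ} {x y z : ℂ} (h : IntqRep A x y) (h' : IntqRep B x z) :
    IntqRep (A - B) x (y - z) := by
  have := HasSum.sub h h'
  simpa [IntqRep, sub_mul] using this

theorem IntqRep.mul {A B : PowerSeries ℤ} {x y z : ℂ} (h : IntqRep A x y) (h' : IntqRep B x z) :
    IntqRep (A * B) x (y * z) := by
  have h1 := summable_norm_iff.2 (HasSum.summable h)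
  have h2 := summable_norm_iff.2 (HasSum.summable h')
  have h3 := (summable_norm_sum_mul_antidiagonal_of_summable_norm h1 h2).of_norm.hasSum
  rw [← tsum_mul_tsum_eq_tsum_sum_antidiagonal_of_summable_norm h1 h2, HasSum.tsum_eq h,
    HasSum.tsum_eq h'] at h3
  refine intq_congr h3 fun n => ?_
  rw [PowerSeries.coeff_mul]
  push_cast
  rw [Finset.sum_mul]
  refine Finset.sum_congr rfl fun kl hkl => ?_
  rw [← Finset.HasAntidiagonal.mem_antidiagonal.1 hkl]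
  ring

theorem intq_monomial (k : ℕ) (m : ℤ) (x : ℂ) :
    IntqRep (PowerSeries.monomial k m) x (m * x ^ k) := by
  have := hasSum_single (f := fun n =>
    ((PowerSeries.coeff n (PowerSeries.monomial k m) : ℤ) : ℂ) * x ^ n) k fun n hn => by
      simp [PowerSeries.coeff_monomial, hn]
  simpa [IntqRep] using this

theorem IntqRep.pow {A : PowerSeries ℤ} {x y : ℂ} (h : IntqRep A x y) (n : ℕ) :
    IntqRep (A ^ n) x (y ^ n) := by
  induction n with
  | zero => simpa using intq_monomial 0 1 x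
  | succ n ih => rw [pow_succ, pow_succ]; exact ih.mul h

theorem IntqRep.expand {A : PowerSeries ℤ} {x y : ℂ} {q : ℕ} (hq : q ≠ 0)
    (h : IntqRep A (x ^ q) y) : IntqRep (PowerSeries.expand q hq A) x y := by
  have hi : Function.Injective fun m : ℕ => q * m := mul_right_injective₀ hq
  refine (hi.hasSum_iff fun n hn => ?_).1 ?_
  · rw [PowerSeries.coeff_expand_of_not_dvd q hq A fun ⟨m, hm⟩ => hn ⟨m, hm.symm⟩]
    simp
  · simpa [Function.comp_def, pow_mul, IntqRep] using h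

theorem intq_dvd (A : PowerSeries ℤ) {q : ℕ} (hq : q.Prime) (n : ℕ) :
    (q : ℤ) ∣ PowerSeries.coeff n (A ^ q - PowerSeries.expand q hq.ne_zero A) := by
  have := Fact.mk hq
  rw [← ZMod.intCast_zmod_eq_zero_iff_dvd]
  have h1 := MvPowerSeries.map_frobenius_expand q hq.ne_zero
    (f := PowerSeries.map (Int.castRingHom (ZMod q)) A)
  rw [ZMod.frobenius_zmod, MvPowerSeries.map_id] at h1
  have h2 : PowerSeries.map (Int.castRingHom (ZMod q))
      (A ^ q - PowerSeries.expand q hq.ne_zero A) = 0 := by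
    rw [map_sub, map_pow, PowerSeries.map_expand, sub_eq_zero]
    exact h1.symm
  have h3 := congrArg (PowerSeries.coeff n) h2
  rwa [PowerSeries.coeff_map, map_zero] at h3

theorem IntQ.add {f g : ℍ → ℂ} (hf : IntQ f) (hg : IntQ g) : IntQ fun τ => f τ + g τ := by
  obtain ⟨A, hA⟩ := intq_iff.1 hf
  obtain ⟨B, hB⟩ := intq_iff.1 hg
  exact intq_iff.2 ⟨_, fun τ => (hA τ).add (hB τ)⟩

theorem IntQ.sub {f g : ℍ → ℂ} (hf : IntQ f) (hg : IntQ g) : IntQ fun τ => f τ - g τ := by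
  obtain ⟨A, hA⟩ := intq_iff.1 hf
  obtain ⟨B, hB⟩ := intq_iff.1 hg
  exact intq_iff.2 ⟨_, fun τ => (hA τ).sub (hB τ)⟩

theorem IntQ.mul {f g : ℍ → ℂ} (hf : IntQ f) (hg : IntQ g) : IntQ fun τ => f τ * g τ := by
  obtain ⟨A, hA⟩ := intq_iff.1 hf
  obtain ⟨B, hB⟩ := intq_iff.1 hg
  exact intq_iff.2 ⟨_, fun τ => (hA τ).mul (hB τ)⟩

theorem intQ_int (m : ℤ) : IntQ fun _ => m :=
  intq_iff.2 ⟨_, fun τ => by simpa using intq_monomial 0 m (qq τ)⟩

theorem intQ_qq : IntQ qq :=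
  intq_iff.2 ⟨_, fun τ => by simpa using intq_monomial 1 1 (qq τ)⟩

theorem IntQ.pow {f : ℍ → ℂ} (hf : IntQ f) (n : ℕ) : IntQ fun τ => f τ ^ n := by
  obtain ⟨A, hA⟩ := intq_iff.1 hf
  exact intq_iff.2 ⟨_, fun τ => (hA τ).pow n⟩

theorem qq_mulH (q : ℕ) (hq : 0 < q) (τ : ℍ) : qq (mulH q hq τ) = qq τ ^ q := by
  rw [qq, qq, coe_mulH, ← Complex.exp_nat_mul]
  congr 1
  ring

theorem IntQ.mulH {f : ℍ → ℂ} (hf : IntQ f) (q : ℕ) (hq : 0 < q) :
    IntQ fun τ => f (mulH q hq τ) := by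
  obtain ⟨A, hA⟩ := intq_iff.1 hf
  refine intq_iff.2 ⟨PowerSeries.expand q hq.ne' A, fun τ => IntqRep.expand hq.ne' ?_⟩
  rw [← qq_mulH q hq]
  exact hA _

theorem intq_root_sum {q : ℕ} {ζ : ℂ} (hζ : IsPrimitiveRoot ζ q) {n : ℕ} (hn : ¬ q ∣ n) :
    ∑ i : Fin q, (ζ ^ (i : ℕ)) ^ n = 0 := by
  have h1 : ζ ^ n - 1 ≠ 0 := sub_ne_zero.2 fun h => hn ((hζ.pow_eq_one_iff_dvd n).1 h)
  have h2 := geom_sum_mul (ζ ^ n) q
  rw [← pow_mul, mul_comm n q, pow_mul, hζ.pow_eq_one, one_pow, sub_self] at h2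
  rw [← (mul_eq_zero.1 h2).resolve_right h1, Finset.sum_range]
  exact Finset.sum_congr rfl fun i _ => by rw [← pow_mul, ← pow_mul, mul_comm]

theorem IntQ.trace {f : ℍ → ℂ} (hf : IntQ f) (q : ℕ) (hq : 0 < q) :
    IntQ fun τ => ∑ i : Fin q, f (divH q hq i τ) := by
  obtain ⟨a, ha⟩ := hf
  refine ⟨fun m => q * a (q * m), fun τ => ?_⟩
  have hq0 : (q : ℂ) ≠ 0 := Nat.cast_ne_zero.2 hq.ne'
  have hζ := Complex.isPrimitiveRoot_exp q hq.ne'
  set ζ := Complex.exp (2 * Real.pi * Complex.I / q)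
  set x := Complex.exp (2 * Real.pi * Complex.I * τ / q) with hx
  have h1 : ∀ i : ℕ, qq (divH q hq i τ) = x * ζ ^ i := fun i => by
    rw [qq, coe_divH, ← Complex.exp_nat_mul, ← Complex.exp_add]
    congr 1
    ring
  have h2 : x ^ q = qq τ := by
    rw [qq, hx, ← Complex.exp_nat_mul]
    congr 1
    field_simp
  have h3 := hasSum_sum (s := Finset.univ) fun (i : Fin q) _ => ha (divH q hq i τ)
  have h4 : ∀ n, ∑ i : Fin q, (a n : ℂ) * qq (divH q hq i τ) ^ n =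
      a n * x ^ n * ∑ i : Fin q, (ζ ^ (i : ℕ)) ^ n := fun n => by
    rw [Finset.mul_sum]
    exact Finset.sum_congr rfl fun i _ => by rw [h1, mul_pow, mul_assoc]
  simp only [h4] at h3
  have hi : Function.Injective fun m : ℕ => q * m := mul_right_injective₀ hq.ne'
  have h5 := (hi.hasSum_iff fun n hn => by
    rw [intq_root_sum hζ fun ⟨m, hm⟩ => hn ⟨m, hm.symm⟩, mul_zero]).2 h3
  convert h5 using 2 with m
  have h6 : ∀ i : Fin q, (ζ ^ (i : ℕ)) ^ (q * m) = 1 := fun i => by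
    rw [← pow_mul, mul_left_comm, pow_mul, hζ.pow_eq_one, one_pow]
  simp only [Function.comp_apply, h6, pow_mul x, h2, Finset.sum_const, Finset.card_univ,
    Fintype.card_fin, nsmul_eq_mul, mul_one]
  push_cast
  ring

/-- The Frobenius congruence. -/
theorem IntQ.frob {f : ℍ → ℂ} (hf : IntQ f) {q : ℕ} (hq : q.Prime) :
    IntQ fun τ => (f τ ^ q - f (Pool.Agent.P.MP_20768c_nt.Tz.EQ.mulH q hq.pos τ)) / q := by
  obtain ⟨A, hA⟩ := intq_iff.1 hf
  choose b hb using intq_dvd A hq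
  refine ⟨b, fun τ => ?_⟩
  have h1 : IntqRep (PowerSeries.expand q hq.ne_zero A) (qq τ)
      (f (Pool.Agent.P.MP_20768c_nt.Tz.EQ.mulH q hq.pos τ)) := by
    refine IntqRep.expand _ ?_
    rw [← qq_mulH q hq.pos]
    exact hA _
  have h2 := HasSum.div_const (((hA τ).pow q).sub h1) (q : ℂ)
  have hq0 : (q : ℂ) ≠ 0 := Nat.cast_ne_zero.2 hq.ne_zero
  refine intq_congr h2 fun n => ?_
  rw [hb n]
  push_cast
  field_simp

theorem IntQ.periodic {f : ℍ → ℂ} (hf : IntQ f) {τ τ' : ℍ} {n : ℤ} (h : (τ' : ℂ) = τ + n) :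
    f τ' = f τ := by
  obtain ⟨a, ha⟩ := hf
  have h1 : qq τ' = qq τ := by
    rw [qq, qq, h, mul_add, Complex.exp_add, mul_comm _ (n : ℂ),
      Complex.exp_int_mul_two_pi_mul_I, mul_one]
  exact (ha τ').unique (h1 ▸ ha τ)

end Pool.Agent.P.MP_20768c_nt.Tz.EQ

end

end

-- part ad7a55_nt.Ord
section

/-! Imaginary quadratic orders and their invertible modules. -/

set_option autoImplicit false

noncomputable section

open MeasureTheory Topology Filter UpperHalfPlane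
open scoped MatrixGroups ENNReal BoundedContinuousFunction

namespace Pool.Agent.P.MP_20768c_nt.Tz.EQ

/-- `√D` for negative `D`. -/
def th (D : ℤ) : ℂ := Complex.I * (Real.sqrt (-(D : ℝ)) : ℝ)

/-- The order of discriminant `D`. -/
def OD (D : ℤ) : Lt := sp 1 ((D + th D) / 2)

/-- `D` is a negative discriminant. -/
def IsD (D : ℤ) : Prop := D < 0 ∧ (D % 4 = 0 ∨ D % 4 = 1)

/-- `Λ` is a lattice with complex multiplication of discriminant `D`. -/
def DiscL (Λ : Lt) (D : ℤ) : Prop := ∃ (c : ℂ) (τ : ℍ), c ≠ 0 ∧ Λ = sp c (c * τ) ∧ HasDisc τ D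

/-- The complex conjugate subgroup. -/
def cj (Λ : Lt) : Lt := Λ.map (starRingEnd ℂ).toAddMonoidHom.toIntLinearMap

theorem mem_cj {Λ : Lt} {v : ℂ} : v ∈ cj Λ ↔ starRingEnd ℂ v ∈ Λ := by
  constructor
  · rintro ⟨w, hw, rfl⟩
    simpa using hw
  · intro h
    exact ⟨_, h, by simp⟩

theorem cj_cj (Λ : Lt) : cj (cj Λ) = Λ := by
  ext v
  rw [mem_cj, mem_cj, Complex.conj_conj]

theorem cj_mul (Λ Λ' : Lt) : cj (Λ * Λ') = cj Λ * cj Λ' := by
  apply le_antisymm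
  · rw [cj, Submodule.map_le_iff_le_comap, Submodule.mul_le]
    intro m hm n hn
    rw [Submodule.mem_comap]
    change starRingEnd ℂ (m * n) ∈ _
    rw [map_mul]
    exact Submodule.mul_mem_mul (mem_cj.2 (by simpa using hm)) (mem_cj.2 (by simpa using hn))
  · rw [Submodule.mul_le]
    intro m hm n hn
    rw [mem_cj, map_mul]
    exact Submodule.mul_mem_mul (mem_cj.1 hm) (mem_cj.1 hn)

theorem cj_pr (c : ℂ) : cj (pr c) = pr (starRingEnd ℂ c) := by
  rw [cj, pr, Submodule.map_span, Set.image_singleton]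
  rfl

theorem cj_sp (a b : ℂ) : cj (sp a b) = sp (starRingEnd ℂ a) (starRingEnd ℂ b) := by
  rw [cj, sp, Submodule.map_span, Set.image_pair]
  rfl

theorem th_sq {D : ℤ} (hD : D ≤ 0) : th D ^ 2 = D := by
  have h : (0 : ℝ) ≤ -(D : ℝ) := by
    have : (D : ℝ) ≤ 0 := by exact_mod_cast hD
    linarith
  rw [th, mul_pow, Complex.I_sq, ← Complex.ofReal_pow, Real.sq_sqrt h]
  simp

theorem conj_th (D : ℤ) : starRingEnd ℂ (th D) = -th D := by
  rw [th, map_mul, Complex.conj_I, Complex.conj_ofReal, neg_mul]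

theorem th_mul_sq (f : ℕ) (D : ℤ) : th (f ^ 2 * D) = f * th D := by
  have h : -(((f : ℤ) ^ 2 * D : ℤ) : ℝ) = (f : ℝ) ^ 2 * -(D : ℝ) := by
    push_cast
    ring
  rw [th, th, h, Real.sqrt_mul (sq_nonneg _), Real.sqrt_sq (Nat.cast_nonneg f)]
  push_cast
  ring

theorem ord_parts {τ : ℍ} {a b c : ℤ} (h : (a : ℂ) * (τ : ℂ) ^ 2 + b * τ + c = 0) :
    2 * (a : ℝ) * τ.re + b = 0 ∧ -((b ^ 2 - 4 * a * c : ℤ) : ℝ) = (2 * a * τ.im) ^ 2 := by
  have h1 := congrArg Complex.im h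
  have h2 := congrArg Complex.re h
  simp [pow_two] at h1 h2
  have h3 : 2 * (a : ℝ) * τ.re + b = 0 := by
    have : (2 * (a : ℝ) * τ.re + b) * τ.im = 0 := by linarith
    exact (mul_eq_zero.1 this).resolve_right τ.im_pos.ne'
  refine ⟨h3, ?_⟩
  push_cast
  linear_combination (4 * (a : ℝ)) * h2 - (2 * (a : ℝ) * τ.re + b) * h3

theorem HasDisc.isD {τ : ℍ} {D : ℤ} (h : HasDisc τ D) : IsD D := by
  obtain ⟨a, b, c, ha, -, h, rfl⟩ := h
  constructor
  · have h1 := (ord_parts h).2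
    have h2 : (0 : ℝ) < (2 * a * τ.im) ^ 2 := by
      have : (0 : ℝ) < a := by exact_mod_cast ha
      have := τ.im_pos
      positivity
    have h3 : ((b ^ 2 - 4 * a * c : ℤ) : ℝ) < 0 := by linarith
    exact_mod_cast h3
  · rcases Int.even_or_odd' b with ⟨k, rfl | rfl⟩
    · left
      have : (2 * k) ^ 2 - 4 * a * c = 4 * (k ^ 2 - a * c) := by ring
      rw [this]
      omega
    · right
      have : (2 * k + 1) ^ 2 - 4 * a * c = 4 * (k ^ 2 + k - a * c) + 1 := by ring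
      rw [this]
      omega

/-- The formula for the root. -/
theorem HasDisc.root {τ : ℍ} {a b c : ℤ} (ha : 0 < a)
    (h : (a : ℂ) * (τ : ℂ) ^ 2 + b * τ + c = 0) : 2 * a * (τ : ℂ) + b = th (b ^ 2 - 4 * a * c) := by
  obtain ⟨h1, h2⟩ := ord_parts h
  have h3 : (0 : ℝ) ≤ 2 * a * τ.im := by
    have : (0 : ℝ) < a := by exact_mod_cast ha
    have := τ.im_pos
    positivity
  rw [th, h2, Real.sqrt_sq h3]
  apply Complex.ext
  · simpa using h1
  · simp

theorem DiscL.isLat {Λ : Lt} {D : ℤ} (h : DiscL Λ D) : IsLat Λ := by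
  obtain ⟨c, τ, hc, rfl, -⟩ := h
  exact isLat_sp hc τ

theorem DiscL.isD {Λ : Lt} {D : ℤ} (h : DiscL Λ D) : IsD D := by
  obtain ⟨c, τ, -, -, h⟩ := h
  exact h.isD

theorem discL_one {τ : ℍ} {D : ℤ} (h : HasDisc τ D) : DiscL (sp 1 τ) D :=
  ⟨1, τ, one_ne_zero, by rw [one_mul], h⟩

theorem DiscL.pr_mul {Λ : Lt} {D : ℤ} (h : DiscL Λ D) {c : ℂ} (hc : c ≠ 0) :
    DiscL (pr c * Λ) D := by
  obtain ⟨c', τ, hc', rfl, h⟩ := h
  exact ⟨c * c', τ, mul_ne_zero hc hc', by rw [pr_mul_sp, mul_assoc], h⟩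

theorem ord_left (a b : ℂ) : a ∈ sp a b := mem_sp.2 ⟨1, 0, by simp⟩

theorem ord_right (a b : ℂ) : b ∈ sp a b := mem_sp.2 ⟨0, 1, by simp⟩

theorem ord_sp_le {a b : ℂ} {Λ : Lt} : sp a b ≤ Λ ↔ a ∈ Λ ∧ b ∈ Λ := by
  rw [sp, Submodule.span_le, Set.insert_subset_iff, Set.singleton_subset_iff]
  rfl

theorem ord_sp_neg (a b : ℂ) : sp a (-b) = sp a b := by
  apply le_antisymm
  · exact ord_sp_le.2 ⟨ord_left _ _, neg_mem (ord_right _ _)⟩
  · exact ord_sp_le.2 ⟨ord_left _ _, by simpa using neg_mem (ord_right a (-b))⟩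

theorem ord_sp_add (a b : ℂ) (k : ℤ) : sp a (b + k * a) = sp a b := by
  apply le_antisymm
  · exact ord_sp_le.2 ⟨ord_left _ _, mem_sp.2 ⟨k, 1, by push_cast; ring⟩⟩
  · exact ord_sp_le.2 ⟨ord_left _ _, mem_sp.2 ⟨-k, 1, by push_cast; ring⟩⟩

theorem ord_indep (τ : ℍ) {m n : ℤ} (h : (m : ℂ) + n * τ = 0) : m = 0 ∧ n = 0 := by
  have h1 := congrArg Complex.im h
  simp at h1
  have hn : n = 0 := h1.resolve_right τ.im_pos.ne'
  subst hn
  simpa using h

theorem ord_OD_eq {τ : ℍ} {a b c : ℤ} (ha : 0 < a)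
    (h : (a : ℂ) * (τ : ℂ) ^ 2 + b * τ + c = 0) : OD (b ^ 2 - 4 * a * c) = sp 1 (a * τ) := by
  have h1 := HasDisc.root ha h
  obtain ⟨k, hk⟩ : ∃ k : ℤ, b ^ 2 - 4 * a * c + b = 2 * k := by
    obtain ⟨l, hl⟩ := Int.even_mul_succ_self b
    exact ⟨l - 2 * a * c, by linear_combination hl⟩
  have hk' : ((b ^ 2 - 4 * a * c : ℤ) : ℂ) + b = 2 * k := by exact_mod_cast hk
  rw [OD, ← h1, ← ord_sp_add 1 (a * τ) k]
  congr 1
  linear_combination (1 / 2 : ℂ) * hk'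

theorem ord_bezout {a b c : ℤ} (h : Int.gcd (Int.gcd a b) c = 1) :
    ∃ u v w : ℤ, u * a + v * b + w * c = 1 := by
  have h1 := Int.gcd_eq_gcd_ab a b
  have h2 := Int.gcd_eq_gcd_ab (Int.gcd a b) c
  rw [h] at h2
  refine ⟨Int.gcdA a b * Int.gcdA (Int.gcd a b) c, Int.gcdB a b * Int.gcdA (Int.gcd a b) c,
    Int.gcdB (Int.gcd a b) c, ?_⟩
  push_cast at h2
  linear_combination (-1 : ℤ) * h2 - Int.gcdA (Int.gcd a b) c * h1

theorem ord_conj {τ : ℍ} {a b c : ℤ} (ha : 0 < a)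
    (h : (a : ℂ) * (τ : ℂ) ^ 2 + b * τ + c = 0) :
    (a : ℂ) * starRingEnd ℂ τ = -b - a * τ := by
  have h1 := HasDisc.root ha h
  have h2 := congrArg (starRingEnd ℂ) h1
  rw [conj_th, ← h1] at h2
  simp only [map_add, map_mul, map_intCast, map_ofNat] at h2
  linear_combination (1 / 2 : ℂ) * h2

theorem DiscL.cj {Λ : Lt} {D : ℤ} (h : DiscL Λ D) : DiscL (cj Λ) D := by
  obtain ⟨c', τ, hc', rfl, a, b, c, ha, hg, h, rfl⟩ := h
  refine ⟨starRingEnd ℂ c', ⟨-starRingEnd ℂ τ, by simpa using τ.im_pos⟩, by simpa using hc', ?_,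
    a, -b, c, ha, by simpa using hg, ?_, by ring⟩
  · rw [cj_sp, map_mul, ← ord_sp_neg]
    congr 1
    change _ = starRingEnd ℂ c' * -starRingEnd ℂ τ
    ring
  · have h2 := congrArg (starRingEnd ℂ) h
    simp only [map_add, map_mul, map_intCast, map_pow, map_zero] at h2
    change (a : ℂ) * (-starRingEnd ℂ τ) ^ 2 + ((-b : ℤ) : ℂ) * -starRingEnd ℂ τ + c = 0
    push_cast
    linear_combination h2

theorem one_mem_OD (D : ℤ) : (1 : ℂ) ∈ OD D := by
  exact ord_left _ _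

theorem th_mem_OD (D : ℤ) : th D ∈ OD D := by
  exact mem_sp.2 ⟨-D, 2, by push_cast; ring⟩

theorem cj_OD (D : ℤ) : cj (OD D) = OD D := by
  rw [OD, cj_sp, map_one, ← ord_sp_neg, ← ord_sp_add 1 _ D]
  congr 1
  simp only [map_div₀, map_add, map_intCast, map_ofNat, conj_th]
  ring

theorem discL_OD {D : ℤ} (hD : IsD D) : DiscL (OD D) D := by
  obtain ⟨h0, h4⟩ := hD
  obtain ⟨k, hk⟩ : ∃ k : ℤ, D ^ 2 - D = 4 * k := by
    rcases h4 with h4 | h4
    · obtain ⟨l, rfl⟩ : ∃ l, D = 4 * l := ⟨D / 4, by omega⟩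
      exact ⟨4 * l ^ 2 - l, by ring⟩
    · obtain ⟨l, rfl⟩ : ∃ l, D = 4 * l + 1 := ⟨D / 4, by omega⟩
      exact ⟨4 * l ^ 2 + l, by ring⟩
  have hpos : 0 < (((D : ℂ) + th D) / 2).im := by
    have h1 : (0 : ℝ) < -(D : ℝ) := by
      have : (D : ℝ) < 0 := by exact_mod_cast h0
      linarith
    have h2 := Real.sqrt_pos.2 h1
    simpa [th] using h2
  refine ⟨1, ⟨_, hpos⟩, one_ne_zero, by rw [one_mul]; rfl, 1, -D, k, one_pos, by simp, ?_,
    by linear_combination (-1 : ℤ) * hk⟩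
  have hk' : (D : ℂ) ^ 2 - D = 4 * k := by exact_mod_cast hk
  have ht := th_sq h0.le
  change ((1 : ℤ) : ℂ) * (((D : ℂ) + th D) / 2) ^ 2 + ((-D : ℤ) : ℂ) * (((D : ℂ) + th D) / 2) + k = 0
  push_cast
  linear_combination (1 / 4 : ℂ) * ht - (1 / 4 : ℂ) * hk'

/-- The ring of multipliers. -/
theorem DiscL.end_iff {Λ : Lt} {D : ℤ} (h : DiscL Λ D) (x : ℂ) : pr x * Λ ≤ Λ ↔ x ∈ OD D := by
  obtain ⟨c', τ, hc', rfl, a, b, c, ha, hg, h, rfl⟩ := h
  rw [ord_OD_eq ha h, pr_mul_sp, ord_sp_le]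
  constructor
  · rintro ⟨h1, h2⟩
    obtain ⟨m, n, h1⟩ := mem_sp.1 h1
    obtain ⟨m', n', h2⟩ := mem_sp.1 h2
    have e1 : x = m + n * τ := mul_right_cancel₀ hc' (by linear_combination h1)
    have e2 : x * τ = m' + n' * τ := mul_right_cancel₀ hc' (by linear_combination h2)
    have e3 : ((a * m' + n * c : ℤ) : ℂ) + ((a * n' - a * m + n * b : ℤ) : ℂ) * τ = 0 := by
      push_cast
      linear_combination (-(a : ℂ)) * e2 + (a : ℂ) * τ * e1 + (n : ℂ) * h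
    obtain ⟨f1, f2⟩ := ord_indep τ e3
    obtain ⟨u, v, w, huv⟩ := ord_bezout hg
    have e4 : n = (u * n + v * (m - n') - w * m') * a := by
      linear_combination (-n) * huv + v * f2 + w * f1
    have e5 : (n : ℂ) = (u * n + v * (m - n') - w * m') * a := by exact_mod_cast e4
    refine mem_sp.2 ⟨m, u * n + v * (m - n') - w * m', ?_⟩
    push_cast
    linear_combination e1 + (τ : ℂ) * e5
  · intro hx
    obtain ⟨m, n, rfl⟩ := mem_sp.1 hx
    refine ⟨mem_sp.2 ⟨m, n * a, by push_cast; ring⟩, mem_sp.2 ⟨-(n * c), m - n * b, ?_⟩⟩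
    push_cast
    linear_combination (n : ℂ) * c' * h

theorem DiscL.OD_mul {Λ : Lt} {D : ℤ} (h : DiscL Λ D) : OD D * Λ = Λ := by
  apply le_antisymm
  · rw [Submodule.mul_le]
    intro m hm n hn
    exact pr_mul_le.1 ((h.end_iff m).2 hm) n hn
  · intro v hv
    simpa using Submodule.mul_mem_mul (one_mem_OD D) hv

/-- Invertibility. -/
theorem DiscL.mul_cj {Λ : Lt} {D : ℤ} (h : DiscL Λ D) :
    ∃ c : ℂ, c ≠ 0 ∧ Λ * Pool.Agent.P.MP_20768c_nt.Tz.EQ.cj Λ = pr c * OD D := by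
  obtain ⟨c', τ, hc', rfl, a, b, c, ha, hg, h, rfl⟩ := h
  have ha' : (a : ℂ) ≠ 0 := by exact_mod_cast ha.ne'
  have hc'' : starRingEnd ℂ c' ≠ 0 := by simpa using hc'
  have hj := ord_conj ha h
  obtain ⟨t, ht⟩ : ∃ t : ℂ, c' * starRingEnd ℂ c' = t * a := ⟨c' * starRingEnd ℂ c' / a, by field_simp⟩
  have ht0 : t ≠ 0 := by
    rintro rfl
    exact mul_ne_zero hc' hc'' (by simpa using ht)
  refine ⟨t, ht0, ?_⟩
  rw [ord_OD_eq ha h, pr_mul_sp, cj_sp, map_mul]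
  apply le_antisymm
  · rw [Submodule.mul_le]
    intro u hu v hv
    obtain ⟨m, n, rfl⟩ := mem_sp.1 hu
    obtain ⟨m', n', rfl⟩ := mem_sp.1 hv
    refine mem_sp.2 ⟨a * m * m' - b * m * n' + c * n * n', n * m' - m * n', ?_⟩
    push_cast
    linear_combination ((m : ℂ) + n * τ) * (m' + n' * starRingEnd ℂ τ) * ht +
      t * n' * ((m : ℂ) + n * τ) * hj - t * n * n' * h
  · have p1 := Submodule.mul_mem_mul (ord_left c' (c' * τ))
      (ord_left (starRingEnd ℂ c') (starRingEnd ℂ c' * starRingEnd ℂ τ))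
    have p2 := Submodule.mul_mem_mul (ord_right c' (c' * τ))
      (ord_left (starRingEnd ℂ c') (starRingEnd ℂ c' * starRingEnd ℂ τ))
    have p3 := Submodule.mul_mem_mul (ord_left c' (c' * τ))
      (ord_right (starRingEnd ℂ c') (starRingEnd ℂ c' * starRingEnd ℂ τ))
    have p4 := Submodule.mul_mem_mul (ord_right c' (c' * τ))
      (ord_right (starRingEnd ℂ c') (starRingEnd ℂ c' * starRingEnd ℂ τ))
    obtain ⟨u, v, w, huv⟩ := ord_bezout hg
    have huv' : (u : ℂ) * a + v * b + w * c = 1 := by exact_mod_cast huv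
    refine ord_sp_le.2 ⟨?_, ?_⟩
    · have := add_mem (sub_mem (Submodule.smul_mem _ u p1) (Submodule.smul_mem _ v (add_mem p2 p3)))
        (Submodule.smul_mem _ w p4)
      convert this using 1
      simp only [zsmul_eq_mul]
      linear_combination (-t) * huv' -
        ((u : ℂ) - v * (τ + starRingEnd ℂ τ) + w * τ * starRingEnd ℂ τ) * ht +
        t * ((v : ℂ) - w * τ) * hj + t * w * h
    · convert p2 using 1
      linear_combination (-(τ : ℂ)) * ht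

end Pool.Agent.P.MP_20768c_nt.Tz.EQ

end

end

-- part ad7a55_nt.IntQ2
section

/-! Functions with integral q-expansions. -/

set_option autoImplicit false

noncomputable section

open MeasureTheory Topology Filter UpperHalfPlane
open scoped MatrixGroups ENNReal BoundedContinuousFunction

namespace Pool.Agent.P.MP_20768c_nt.Tz.EQ

lemma iq2_qq_eq (τ : ℍ) : qq τ = Function.Periodic.qParam 1 τ := by
  simp [qq, Function.Periodic.qParam]

lemma iq2_congr {f g : ℕ → ℂ} {a : ℂ} (h : HasSum f a) (hfg : ∀ n, g n = f n) : HasSum g a := by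
  rwa [funext hfg]

lemma iq2_qq_ne (τ : ℍ) : qq τ ≠ 0 := Complex.exp_ne_zero _

lemma iq2_qq_lt (τ : ℍ) : ‖qq τ‖ < 1 := by
  rw [iq2_qq_eq]
  exact Function.Periodic.norm_qParam_lt_one one_pos τ.im_pos

lemma iq2_qq_surj {q : ℂ} (hq : ‖q‖ < 1) (h0 : q ≠ 0) : ∃ τ : ℍ, qq τ = q := by
  refine ⟨⟨Function.Periodic.invQParam 1 q,
    Function.Periodic.im_invQParam_pos_of_norm_lt_one one_pos hq h0⟩, ?_⟩
  rw [iq2_qq_eq]
  exact Function.Periodic.qParam_right_inv one_ne_zero h0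

lemma iq2_qq_tendsto : Tendsto qq atImInfty (𝓝 0) := by
  have := UpperHalfPlane.qParam_tendsto_atImInfty (h := 1) one_pos
  refine this.congr fun τ => (iq2_qq_eq τ).symm

/-- The sum of the series on the disc. -/
def iq2F (a : ℕ → ℂ) (q : ℂ) : ℂ := ∑' n, a n * q ^ n

lemma iq2_summable {a : ℕ → ℂ} {f : ℍ → ℂ}
    (h : ∀ τ, HasSum (fun n => a n * qq τ ^ n) (f τ)) {q : ℂ} (hq : ‖q‖ < 1) :
    Summable fun n => a n * q ^ n := by
  rcases eq_or_ne q 0 with rfl | h0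
  · refine summable_of_ne_finset_zero (s := {0}) fun n hn => ?_
    have : n ≠ 0 := by simpa using hn
    simp [this]
  · obtain ⟨τ, rfl⟩ := iq2_qq_surj hq h0
    exact (h τ).summable

lemma iq2F_qq {a : ℕ → ℂ} {f : ℍ → ℂ}
    (h : ∀ τ, HasSum (fun n => a n * qq τ ^ n) (f τ)) (τ : ℍ) : iq2F a (qq τ) = f τ :=
  (h τ).tsum_eq

lemma iq2F_zero (a : ℕ → ℂ) : iq2F a 0 = a 0 := by
  unfold iq2F
  rw [tsum_eq_single 0]
  · simp
  · intro n hn
    simp [hn]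

lemma iq2_ball {a : ℕ → ℂ} (h : ∀ q : ℂ, ‖q‖ < 1 → Summable fun n => a n * q ^ n) :
    HasFPowerSeriesOnBall (iq2F a) (.ofScalars ℂ a) 0 1 := by
  constructor
  · refine le_of_forall_lt_imp_le_of_dense fun r hr ↦ ?_
    lift r to NNReal using hr.ne_top
    apply FormalMultilinearSeries.le_radius_of_summable
    have := (h (r : ℂ) (by simpa using hr)).norm
    simpa [smul_eq_mul, norm_mul, mul_comm, mul_left_comm, mul_assoc] using this
  · simp
  · intro y hy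
    rw [← ENNReal.coe_one, Metric.eball_coe, NNReal.coe_one, mem_ball_zero_iff] at hy
    simpa [iq2F, mul_comm] using (h y hy).hasSum

lemma iq2_diff {a : ℕ → ℂ} (h : ∀ q : ℂ, ‖q‖ < 1 → Summable fun n => a n * q ^ n) :
    DifferentiableOn ℂ (iq2F a) (Metric.ball 0 1) := by
  have := (iq2_ball h).differentiableOn
  rwa [← ENNReal.coe_one, Metric.eball_coe, NNReal.coe_one] at this

lemma iq2_tendsto {a : ℕ → ℂ} {f : ℍ → ℂ}
    (h : ∀ τ, HasSum (fun n => a n * qq τ ^ n) (f τ)) : Tendsto f atImInfty (𝓝 (a 0)) := by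
  have h1 := (iq2_ball fun q hq => iq2_summable h hq).hasFPowerSeriesAt.continuousAt.tendsto
  rw [iq2F_zero] at h1
  exact (h1.comp iq2_qq_tendsto).congr fun τ => iq2F_qq h τ

lemma iq2_unique {a b : ℕ → ℂ} {f : ℍ → ℂ}
    (ha : ∀ τ, HasSum (fun n => a n * qq τ ^ n) (f τ))
    (hb : ∀ τ, HasSum (fun n => b n * qq τ ^ n) (f τ)) : a = b := by
  have h1 := (iq2_ball fun q hq => iq2_summable ha hq).hasFPowerSeriesAt
  have h2 := (iq2_ball fun q hq => iq2_summable hb hq).hasFPowerSeriesAt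
  have h0 : a 0 = b 0 := tendsto_nhds_unique (iq2_tendsto ha) (iq2_tendsto hb)
  have h3 : iq2F a =ᶠ[𝓝 0] iq2F b := by
    filter_upwards [Metric.ball_mem_nhds (0 : ℂ) one_pos] with q hq
    rcases eq_or_ne q 0 with rfl | hq0
    · rw [iq2F_zero, iq2F_zero, h0]
    · obtain ⟨τ, rfl⟩ := iq2_qq_surj (mem_ball_zero_iff.1 hq) hq0
      rw [iq2F_qq ha, iq2F_qq hb]
  have h4 := h1.eq_formalMultilinearSeries_of_eventually h2 h3
  funext m
  simpa using congr_arg (FormalMultilinearSeries.coeff · m) h4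

lemma iq2_mul {a b : ℕ → ℂ} {f g : ℍ → ℂ}
    (ha : ∀ τ, HasSum (fun n => a n * qq τ ^ n) (f τ))
    (hb : ∀ τ, HasSum (fun n => b n * qq τ ^ n) (g τ)) (τ : ℍ) :
    HasSum (fun n => (∑ p ∈ Finset.HasAntidiagonal.antidiagonal n, a p.1 * b p.2) * qq τ ^ n) (f τ * g τ) := by
  have h1 := (ha τ).summable.norm
  have h2 := (hb τ).summable.norm
  have h3 := tsum_mul_tsum_eq_tsum_sum_antidiagonal_of_summable_norm h1 h2
  have h4 := (summable_norm_sum_mul_antidiagonal_of_summable_norm h1 h2).of_norm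
  rw [(ha τ).tsum_eq, (hb τ).tsum_eq] at h3
  rw [h3]
  refine iq2_congr h4.hasSum fun n => ?_
  rw [Finset.sum_mul]
  refine Finset.sum_congr rfl fun p hp => ?_
  rw [← Finset.HasAntidiagonal.mem_antidiagonal.1 hp, pow_add]
  ring

lemma iq2_shift {a : ℕ → ℂ} {f : ℍ → ℂ}
    (ha : ∀ τ, HasSum (fun n => a n * qq τ ^ n) (f τ)) (h0 : a 0 = 0) (τ : ℍ) :
    HasSum (fun n => a (n + 1) * qq τ ^ n) (f τ / qq τ) := by
  have h1 := (hasSum_nat_add_iff' 1).2 (ha τ)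
  simp only [Finset.range_one, Finset.sum_singleton, h0, zero_mul, sub_zero] at h1
  refine iq2_congr (h1.div_const (qq τ)) fun n => ?_
  have := iq2_qq_ne τ
  rw [pow_succ]
  field_simp

lemma IntQ.iq2_shift {f : ℍ → ℂ} (hf : IntQ f) (h0 : Tendsto f atImInfty (𝓝 0)) :
    IntQ fun τ => f τ / qq τ := by
  obtain ⟨a, ha⟩ := hf
  have h1 : (a 0 : ℂ) = 0 :=
    tendsto_nhds_unique (iq2_tendsto (a := fun n => (a n : ℂ)) ha) h0
  exact ⟨fun n => a (n + 1), fun τ => Pool.Agent.P.MP_20768c_nt.Tz.EQ.iq2_shift (a := fun n => (a n : ℂ)) ha h1 τ⟩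

lemma IntQ.iq2_div {f g : ℍ → ℂ} (hf : IntQ f) (hg : IntQ g) (h1 : Tendsto g atImInfty (𝓝 1))
    (h0 : ∀ τ, g τ ≠ 0) : IntQ fun τ => f τ / g τ := by
  obtain ⟨a, ha⟩ := hf
  obtain ⟨b, hb⟩ := hg
  have hb0 : (b 0 : ℂ) = 1 :=
    tendsto_nhds_unique (iq2_tendsto (a := fun n => (b n : ℂ)) hb) h1
  have hA := iq2_diff fun q hq => iq2_summable (a := fun n => (a n : ℂ)) ha hq
  have hB := iq2_diff fun q hq => iq2_summable (a := fun n => (b n : ℂ)) hb hq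
  have hne : ∀ q ∈ Metric.ball (0 : ℂ) 1, iq2F (fun n => (b n : ℂ)) q ≠ 0 := by
    intro q hq
    rcases eq_or_ne q 0 with rfl | hq0
    · rw [iq2F_zero, hb0]
      exact one_ne_zero
    · obtain ⟨τ, rfl⟩ := iq2_qq_surj (mem_ball_zero_iff.1 hq) hq0
      rw [iq2F_qq (a := fun n => (b n : ℂ)) hb]
      exact h0 τ
  have hC := hA.div hB hne
  set c : ℕ → ℂ := fun n => ((n.factorial : ℂ))⁻¹ *
    iteratedDeriv n (iq2F (fun n => (a n : ℂ)) / iq2F (fun n => (b n : ℂ))) 0 with hc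
  have hcs : ∀ τ, HasSum (fun n => c n * qq τ ^ n) (f τ / g τ) := by
    intro τ
    have h2 := Complex.hasSum_taylorSeries_on_ball hC (mem_ball_zero_iff.2 (iq2_qq_lt τ))
    rw [Pi.div_apply, iq2F_qq (a := fun n => (a n : ℂ)) ha,
      iq2F_qq (a := fun n => (b n : ℂ)) hb] at h2
    refine iq2_congr h2 fun n => ?_
    simp only [hc, sub_zero, smul_eq_mul]
    ring
  have hprod : ∀ τ, HasSum (fun n => (∑ p ∈ Finset.HasAntidiagonal.antidiagonal n, (b p.1 : ℂ) * c p.2) * qq τ ^ n)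
      (f τ) := by
    intro τ
    have := iq2_mul (a := fun n => (b n : ℂ)) hb hcs τ
    rwa [mul_div_cancel₀ _ (h0 τ)] at this
  have huniq := iq2_unique (a := fun n => (a n : ℂ)) ha hprod
  have hint : ∀ n, ∃ z : ℤ, c n = z := by
    intro n
    induction n using Nat.strong_induction_on with
    | _ n ih =>
      have h2 := congr_fun huniq n
      cases n with
      | zero =>
        refine ⟨a 0, ?_⟩
        simp [hb0] at h2
        exact h2.symm
      | succ n =>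
        rw [Finset.Nat.antidiagonal_succ, Finset.sum_cons, Finset.sum_map] at h2
        simp only [hb0, one_mul, Function.Embedding.coe_prodMap, Function.Embedding.coeFn_mk,
          Prod.map_fst, Prod.map_snd, Function.Embedding.refl_apply, Nat.succ_eq_add_one] at h2
        have h3 : ∃ z : ℤ, (∑ p ∈ Finset.HasAntidiagonal.antidiagonal n, (b (p.1 + 1) : ℂ) * c p.2) = z := by
          refine Finset.sum_induction _ (fun x : ℂ => ∃ z : ℤ, x = z) ?_ ⟨0, by simp⟩ ?_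
          · rintro x y ⟨u, rfl⟩ ⟨v, rfl⟩
            exact ⟨u + v, by push_cast; ring⟩
          · intro p hp
            have h4 : p.2 < n + 1 := by
              have := Finset.HasAntidiagonal.mem_antidiagonal.1 hp
              omega
            obtain ⟨z, hz⟩ := ih p.2 h4
            exact ⟨b (p.1 + 1) * z, by rw [hz]; push_cast; ring⟩
        obtain ⟨z, hz⟩ := h3
        refine ⟨a (n + 1) - z, ?_⟩
        push_cast
        rw [h2, hz]
        ring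
  choose z hz using hint
  exact ⟨z, fun τ => by simpa only [hz] using hcs τ⟩

/-- The divisor series. -/
def iq2S (k : ℕ) (τ : ℍ) : ℂ := ∑' n : ℕ, (ArithmeticFunction.sigma k n : ℂ) * qq τ ^ n

lemma iq2S_hasSum (k : ℕ) (τ : ℍ) :
    HasSum (fun n : ℕ => (ArithmeticFunction.sigma k n : ℂ) * qq τ ^ n) (iq2S k τ) := by
  have := EisensteinSeries.summable_sigma_mul_cexp_pow (k := k + 1) (by omega) τ
  exact this.hasSum

lemma iq2S_int (k : ℕ) : IntQ (iq2S k) :=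
  ⟨fun n => ArithmeticFunction.sigma k n, fun τ => by simpa using iq2S_hasSum k τ⟩

lemma iq2_E_eq {k : ℕ} (hk : 3 ≤ k) (hk2 : Even k) (τ : ℍ) :
    ModularForm.E hk τ = 1 - (2 * k / bernoulli k : ℂ) * iq2S (k - 1) τ := by
  have h1 := ModularForm.hasSum_qExpansion (ModularForm.E hk) one_pos one_mem_strictPeriods_SL τ
  simp only [EisensteinSeries.E_qExpansion_coeff hk hk2, ← iq2_qq_eq] at h1
  have h2 := (hasSum_ite_eq (0 : ℕ) (1 : ℂ)).sub
    ((iq2S_hasSum (k - 1) τ).mul_left (2 * k / bernoulli k : ℂ))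
  refine h1.unique (iq2_congr h2 fun n => ?_)
  split_ifs with hn
  · subst hn
    simp
  · ring

lemma iq2_E4_eq (τ : ℍ) : ModularForm.E₄ τ = 1 + 240 * iq2S 3 τ := by
  rw [iq2_E_eq (k := 4) (by norm_num) ⟨2, rfl⟩ τ]
  have : bernoulli 4 = -1 / 30 := by
    rw [bernoulli_eq_bernoulli'_of_ne_one (by norm_num), bernoulli'_four]
  rw [this]
  push_cast
  ring

lemma iq2_E6_eq (τ : ℍ) : ModularForm.E₆ τ = 1 - 504 * iq2S 5 τ := by
  rw [iq2_E_eq (k := 6) (by norm_num) ⟨3, rfl⟩ τ]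
  have : bernoulli 6 = 1 / 42 := by decide +kernel
  rw [this]
  push_cast
  ring

theorem intQ_E4 : IntQ fun τ => ModularForm.E₄ τ := by
  have := (intQ_int 1).add ((intQ_int 240).mul (iq2S_int 3))
  simpa [iq2_E4_eq] using this

lemma iq2_twelve (n : ℕ) :
    12 ∣ 5 * ArithmeticFunction.sigma 3 n + 7 * ArithmeticFunction.sigma 5 n := by
  rw [ArithmeticFunction.sigma_apply, ArithmeticFunction.sigma_apply, Finset.mul_sum,
    Finset.mul_sum, ← Finset.sum_add_distrib]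
  refine Finset.dvd_sum fun d _ => ?_
  have h : ∀ x : ZMod 12, 5 * x ^ 3 + 7 * x ^ 5 = 0 := by decide
  rw [← ZMod.natCast_eq_zero_iff]
  push_cast
  exact h d

lemma iq2_intQ_comb : IntQ fun τ => (5 * iq2S 3 τ + 7 * iq2S 5 τ) / 12 := by
  choose z hz using iq2_twelve
  refine ⟨fun n => z n, fun τ => ?_⟩
  have h := (((iq2S_hasSum 3 τ).mul_left 5).add ((iq2S_hasSum 5 τ).mul_left 7)).div_const 12
  refine iq2_congr h fun n => ?_
  have h1 : (5 * (ArithmeticFunction.sigma 3 n : ℂ) + 7 * ArithmeticFunction.sigma 5 n) =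
      12 * z n := by exact_mod_cast hz n
  push_cast
  linear_combination (-(qq τ ^ n) / 12) * h1

lemma iq2_intQ_disc : IntQ ModularForm.discriminant := by
  have h := ((iq2_intQ_comb.add ((intQ_int 100).mul ((iq2S_int 3).pow 2))).add
    ((intQ_int 8000).mul ((iq2S_int 3).pow 3))).sub ((intQ_int 147).mul ((iq2S_int 5).pow 2))
  convert h using 2 with τ
  rw [ModularForm.discriminant_eq_E₄_cube_sub_E₆_sq, iq2_E4_eq, iq2_E6_eq]
  push_cast
  ring

theorem intQ_disc_div : IntQ fun τ => ModularForm.discriminant τ / qq τ :=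
  iq2_intQ_disc.iq2_shift ModularForm.discriminant_isZeroAtImInfty

lemma iq2_disc_div_tendsto :
    Tendsto (fun τ => ModularForm.discriminant τ / qq τ) atImInfty (𝓝 1) := by
  refine ModularForm.tendsto_atImInfty_tprod_one_sub_eta_q_pow.congr fun τ => ?_
  rw [ModularForm.discriminant_eq_q_prod, ← iq2_qq_eq, mul_div_cancel_left₀ _ (iq2_qq_ne τ)]

lemma iq2_disc_div_ne (τ : ℍ) : ModularForm.discriminant τ / qq τ ≠ 0 :=
  div_ne_zero (ModularForm.discriminant_ne_zero τ) (iq2_qq_ne τ)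

theorem intQ_j : IntQ fun τ => qq τ * jInv τ := by
  have h := (intQ_E4.pow 3).iq2_div intQ_disc_div iq2_disc_div_tendsto iq2_disc_div_ne
  convert h using 2 with τ
  have h1 := iq2_qq_ne τ
  have h2 := ModularForm.discriminant_ne_zero τ
  unfold jInv
  field_simp

lemma iq2_E4_tendsto : Tendsto (fun τ => ModularForm.E₄ τ) atImInfty (𝓝 1) := by
  have h := iq2_tendsto (iq2S_hasSum 3)
  simp only [ArithmeticFunction.map_zero, Nat.cast_zero] at h
  have h1 := (h.const_mul 240).const_add 1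
  simp only [mul_zero, add_zero] at h1
  exact h1.congr fun τ => (iq2_E4_eq τ).symm

lemma iq2_const {a : ℕ → ℂ} {f : ℍ → ℂ}
    (ha : ∀ τ, HasSum (fun n => a n * qq τ ^ n) (f τ))
    (hw : ∀ (γ : SL(2, ℤ)) (τ : ℍ), f (γ • τ) = f τ) (τ : ℍ) : f τ = a 0 := by
  have hA := iq2_diff fun q hq => iq2_summable ha hq
  have h : Set.EqOn (iq2F a) (Function.const ℂ (iq2F a 0)) (Metric.ball 0 1) := by
    refine Complex.eq_const_of_exists_le hA (Real.exp_nonneg (-Real.pi)) ?_ (fun q hq ↦ ?_)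
    · simp [Real.pi_pos]
    · simp only [Metric.mem_closedBall, dist_zero_right]
      rcases eq_or_ne q 0 with rfl | hq'
      · refine ⟨0, by simpa only [norm_zero] using Real.exp_nonneg _, le_rfl⟩
      · obtain ⟨σ, rfl⟩ := iq2_qq_surj (mem_ball_zero_iff.1 hq) hq'
        obtain ⟨γ, hγ⟩ := ModularGroup.exists_one_half_le_im_smul σ
        refine ⟨qq (γ • σ), ?_, ?_⟩
        · rw [iq2_qq_eq]
          exact Function.Periodic.norm_qParam_le_of_one_half_le_im hγ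
        · rw [iq2F_qq ha, iq2F_qq ha, hw]
  have h1 := h (mem_ball_zero_iff.2 (iq2_qq_lt τ))
  rwa [iq2F_qq ha, Function.const_apply, iq2F_zero] at h1

lemma iq2_den_ne (γ : SL(2, ℤ)) (τ : ℍ) : ((γ 1 0 : ℂ) * τ + γ 1 1) ≠ 0 := by
  intro h
  have h1 := disc_smul γ τ
  rw [h] at h1
  exact ModularForm.discriminant_ne_zero (γ • τ) (by simpa using h1)

/-- A function of weight `12 m` with integral expansion is `Δ^m` times an integral polynomial
in `j`. -/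
theorem IntQ.poly (m : ℕ) {f : ℍ → ℂ} (hf : IntQ f)
    (hw : ∀ (γ : SL(2, ℤ)) (τ : ℍ), f (γ • τ) = ((γ 1 0 : ℂ) * τ + γ 1 1) ^ (12 * m) * f τ) :
    ∃ P : Polynomial ℤ, P.natDegree ≤ m ∧
      ∀ τ, f τ = ModularForm.discriminant τ ^ m * Polynomial.aeval (jInv τ) P := by
  induction m generalizing f with
  | zero =>
    obtain ⟨a, ha⟩ := hf
    refine ⟨Polynomial.C (a 0), by simp, fun τ => ?_⟩
    rw [iq2_const (a := fun n => (a n : ℂ)) ha (fun γ τ => by simpa using hw γ τ) τ]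
    simp
  | succ m ih =>
    obtain ⟨a, ha⟩ := hf
    have hE : ∀ τ, ModularForm.E₄ τ ^ 3 = ModularForm.discriminant τ * jInv τ := by
      intro τ
      have h2 := ModularForm.discriminant_ne_zero τ
      unfold jInv
      field_simp
    have hg : IntQ fun τ => f τ - ((a 0 : ℤ) : ℂ) * (ModularForm.E₄ τ ^ 3) ^ (m + 1) :=
      IntQ.sub ⟨a, ha⟩ ((intQ_int (a 0)).mul ((intQ_E4.pow 3).pow (m + 1)))
    have hg0 : Tendsto (fun τ => f τ - ((a 0 : ℤ) : ℂ) * (ModularForm.E₄ τ ^ 3) ^ (m + 1))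
        atImInfty (𝓝 0) := by
      have h1 := (iq2_tendsto (a := fun n => (a n : ℂ)) ha).sub
        (((iq2_E4_tendsto.pow 3).pow (m + 1)).const_mul ((a 0 : ℤ) : ℂ))
      simpa using h1
    have hh := (hg.iq2_shift hg0).iq2_div intQ_disc_div iq2_disc_div_tendsto iq2_disc_div_ne
    have hh' : IntQ fun τ => (f τ - ((a 0 : ℤ) : ℂ) *
        (ModularForm.discriminant τ * jInv τ) ^ (m + 1)) / ModularForm.discriminant τ := by
      convert hh using 2 with τ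
      have h1 := iq2_qq_ne τ
      have h2 := ModularForm.discriminant_ne_zero τ
      rw [hE]
      field_simp
    obtain ⟨P, hP, hPf⟩ := ih hh' (by
      intro γ τ
      have h1 := iq2_den_ne γ τ
      have h2 := ModularForm.discriminant_ne_zero τ
      rw [hw, disc_smul, jInv_smul]
      generalize ((γ 1 0 : ℂ) * τ + γ 1 1) = u at h1 ⊢
      field_simp
      ring)
    refine ⟨Polynomial.C (a 0) * Polynomial.X ^ (m + 1) + P, ?_, fun τ => ?_⟩
    · refine (Polynomial.natDegree_add_le _ _).trans (max_le ?_ (by omega))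
      exact Polynomial.natDegree_C_mul_X_pow_le _ _
    · have h1 := hPf τ
      have h2 := ModularForm.discriminant_ne_zero τ
      rw [div_eq_iff h2] at h1
      simp only [map_add, map_mul, map_pow, Polynomial.aeval_X,
        eq_intCast, map_intCast]
      linear_combination h1

end Pool.Agent.P.MP_20768c_nt.Tz.EQ

end

end

-- part ad7a55_nt.Ord2
section

/-! Imaginary quadratic orders and their invertible modules. -/

set_option autoImplicit false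

noncomputable section

open MeasureTheory Topology Filter UpperHalfPlane
open scoped MatrixGroups ENNReal BoundedContinuousFunction

namespace Pool.Agent.P.MP_20768c_nt.Tz.EQ

theorem ord2_prim_pos {τ : ℍ} {n m k : ℤ} (hn : 0 < n)
    (h : (n : ℂ) * (τ : ℂ) ^ 2 + m * τ + k = 0) : ∃ D, HasDisc τ D := by
  obtain ⟨g, hg⟩ : ∃ g : ℕ, g = Int.gcd (Int.gcd n m) k := ⟨_, rfl⟩
  have h1 : (g : ℤ) ∣ (Int.gcd n m : ℤ) := hg ▸ Int.gcd_dvd_left _ _
  obtain ⟨a, ha⟩ : (g : ℤ) ∣ n := h1.trans (Int.gcd_dvd_left _ _)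
  obtain ⟨b, hb⟩ : (g : ℤ) ∣ m := h1.trans (Int.gcd_dvd_right _ _)
  obtain ⟨c, hc⟩ : (g : ℤ) ∣ k := hg ▸ Int.gcd_dvd_right _ _
  have hg0 : g ≠ 0 := by
    rintro rfl
    simp at ha
    omega
  have hgp : (0 : ℤ) < g := by exact_mod_cast Nat.pos_of_ne_zero hg0
  refine ⟨_, a, b, c, (mul_pos_iff_of_pos_left hgp).1 (ha ▸ hn), ?_, ?_, rfl⟩
  · rw [ha, hb, hc, Int.gcd_mul_left, Nat.cast_mul, Int.natAbs_natCast, Int.gcd_mul_left,
      Int.natAbs_natCast] at hg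
    exact (Nat.mul_eq_left hg0).1 hg.symm
  · have hg' : (g : ℂ) ≠ 0 := Nat.cast_ne_zero.2 hg0
    apply mul_left_cancel₀ hg'
    rw [ha, hb, hc] at h
    push_cast at h
    linear_combination h

theorem ord2_prim {τ : ℍ} {n m k : ℤ} (hn : n ≠ 0)
    (h : (n : ℂ) * (τ : ℂ) ^ 2 + m * τ + k = 0) : ∃ D, HasDisc τ D := by
  rcases lt_or_gt_of_ne hn with h1 | h1
  · refine ord2_prim_pos (n := -n) (m := -m) (k := -k) (by omega) ?_
    push_cast
    linear_combination -h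
  · exact ord2_prim_pos h1 h

theorem ord2_left_mem (a b : ℂ) : a ∈ sp a b := mem_sp.2 ⟨1, 0, by simp⟩

theorem ord2_right_mem (a b : ℂ) : b ∈ sp a b := mem_sp.2 ⟨0, 1, by simp⟩

theorem ord2_sp_le {a b : ℂ} {Λ : Lt} (ha : a ∈ Λ) (hb : b ∈ Λ) : sp a b ≤ Λ := by
  intro v hv
  obtain ⟨m, n, rfl⟩ := mem_sp.1 hv
  simpa [zsmul_eq_mul] using Λ.add_mem (Λ.smul_mem m ha) (Λ.smul_mem n hb)

theorem ord2_hasDisc {c x : ℂ} {τ : ℍ} (hc : c ≠ 0) (hx : x.im ≠ 0)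
    (h : pr x * sp c (c * τ) ≤ sp c (c * τ)) : ∃ D, HasDisc τ D := by
  rw [pr_mul_le] at h
  obtain ⟨m, n, h1⟩ := mem_sp.1 (h _ (ord2_left_mem _ _))
  obtain ⟨m', n', h2⟩ := mem_sp.1 (h _ (ord2_right_mem _ _))
  have e1 : x = m + n * τ := by
    apply mul_left_cancel₀ hc
    linear_combination h1
  have e2 : x * τ = m' + n' * τ := by
    apply mul_left_cancel₀ hc
    linear_combination h2
  have hn : n ≠ 0 := by
    rintro rfl
    apply hx
    rw [e1]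
    simp
  refine ord2_prim (m := m - n') (k := -m') hn ?_
  push_cast
  linear_combination e2 - τ * e1

theorem ord2_th_im (D : ℤ) : (th D).im = Real.sqrt (-(D : ℝ)) := by simp [th]

theorem ord2_th_re (D : ℤ) : (th D).re = 0 := by simp [th]

theorem ord2_th_im_ne {D : ℤ} (hD : D < 0) : (th D).im ≠ 0 := by
  rw [ord2_th_im]
  have : (D : ℝ) < 0 := by exact_mod_cast hD
  exact (Real.sqrt_pos.2 (by linarith)).ne'

/-- Nonreal elements of an order are not small. -/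
theorem abs_le_of_mem_OD {D : ℤ} (hD : D < 0) {x : ℂ} (hx : x ∈ OD D) (hx' : x.im ≠ 0) :
    -(D : ℝ) ≤ 4 * x.im ^ 2 := by
  obtain ⟨m, n, rfl⟩ := mem_sp.1 hx
  have hD' : (D : ℝ) < 0 := by exact_mod_cast hD
  have e : ((m : ℂ) * 1 + n * ((D + th D) / 2)).im = n * (Real.sqrt (-(D : ℝ)) / 2) := by
    simp [ord2_th_im]
  rw [e] at hx' ⊢
  have hn : n ≠ 0 := by
    rintro rfl
    simp at hx'
  have hn' : (1 : ℝ) ≤ (n : ℝ) ^ 2 := by
    have : (1 : ℤ) ≤ n ^ 2 := by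
      have := Int.one_le_abs hn
      nlinarith [sq_abs n]
    exact_mod_cast this
  have hs := Real.sq_sqrt (show 0 ≤ -(D : ℝ) by linarith)
  rw [mul_pow, div_pow, hs]
  nlinarith

theorem ord2_le_of_OD_le {D D' : ℤ} (hD : D < 0) (hD' : D' < 0) (h : OD D ≤ OD D') : D ≤ D' := by
  have hm : ((D + th D) / 2 : ℂ) ∈ OD D' := h (ord2_right_mem _ _)
  have hr : (D : ℝ) < 0 := by exact_mod_cast hD
  have e : ((D + th D) / 2 : ℂ).im = Real.sqrt (-(D : ℝ)) / 2 := by simp [ord2_th_im]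
  have := abs_le_of_mem_OD hD' hm (by
    rw [e]
    exact (div_pos (Real.sqrt_pos.2 (by linarith)) two_pos).ne')
  rw [e, div_pow, Real.sq_sqrt (by linarith)] at this
  have : (D : ℝ) ≤ D' := by linarith
  exact_mod_cast this

theorem OD_inj {D D' : ℤ} (hD : D < 0) (hD' : D' < 0) (h : OD D = OD D') : D = D' :=
  le_antisymm (ord2_le_of_OD_le hD hD' h.le) (ord2_le_of_OD_le hD' hD h.ge)

theorem ord2_disc_eq {Λ : Lt} {D D' : ℤ} (h : DiscL Λ D) (hD' : D' < 0)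
    (he : ∀ x, pr x * Λ ≤ Λ ↔ x ∈ OD D') : D = D' :=
  OD_inj h.isD.1 hD' (Submodule.ext fun x => (h.end_iff x).symm.trans (he x))

theorem HasDisc.smul {τ : ℍ} {D : ℤ} (h : HasDisc τ D) (γ : SL(2, ℤ)) : HasDisc (γ • τ) D := by
  have hc : (1 : ℂ) * ((γ 1 0 : ℂ) * τ + γ 1 1) ≠ 0 := by
    rw [one_mul]
    intro h0
    have h1 := congrArg Complex.im h0
    simp [τ.im_ne_zero] at h1
    rw [h1] at h0
    simp at h0
    have := γ.det_coe
    rw [Matrix.det_fin_two, h1, h0] at this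
    simp at this
  have e := sp_smul 1 γ τ
  have hL : DiscL (sp 1 (1 * τ)) D := ⟨1, τ, one_ne_zero, rfl, h⟩
  rw [← e] at hL
  obtain ⟨D', hD'⟩ := ord2_hasDisc hc (ord2_th_im_ne h.isD.1) ((hL.end_iff _).2 (th_mem_OD D))
  have : D' = D := ord2_disc_eq ⟨_, _, hc, rfl, hD'⟩ h.isD.1 hL.end_iff
  exact this ▸ hD'

theorem ord2_sp_add (x : ℂ) (n : ℤ) : sp 1 (x + n) = sp 1 x := by
  apply le_antisymm
  · exact ord2_sp_le (ord2_left_mem _ _) (mem_sp.2 ⟨n, 1, by push_cast; ring⟩)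
  · exact ord2_sp_le (ord2_left_mem _ _) (mem_sp.2 ⟨-n, 1, by push_cast; ring⟩)

theorem OD_sq_mul {D : ℤ} (hD : IsD D) (f : ℕ) :
    OD (f ^ 2 * D) = sp 1 (f * ((D + th D) / 2)) := by
  have _ := hD
  obtain ⟨k, hk⟩ := Int.even_mul_pred_self (f : ℤ)
  have hk' : (f : ℂ) * (f - 1) = k + k := by exact_mod_cast hk
  rw [← ord2_sp_add (f * ((D + th D) / 2)) (k * D), OD, th_mul_sq]
  congr 1
  push_cast
  linear_combination (D / 2 : ℂ) * hk'

theorem OD_sq_le {D : ℤ} (hD : IsD D) (f : ℕ) : OD (f ^ 2 * D) ≤ OD D := by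
  rw [OD_sq_mul hD]
  exact ord2_sp_le (one_mem_OD D) (mem_sp.2 ⟨0, f, by simp⟩)

theorem exists_discL {Λ : Lt} (h : IsLat Λ) {x : ℂ} (hx : x.im ≠ 0) (hx' : pr x * Λ ≤ Λ) :
    ∃ D, DiscL Λ D := by
  obtain ⟨c, τ, hc, rfl⟩ := h
  obtain ⟨D, hD⟩ := ord2_hasDisc hc hx hx'
  exact ⟨D, c, τ, hc, rfl, hD⟩

theorem ord2_pr_le {c : ℂ} {Λ : Lt} (h : c ∈ Λ) : pr c ≤ Λ :=
  (Submodule.span_singleton_le_iff_mem _ _).2 h

theorem ord2_OD_mul {Λ : Lt} {D D' : ℤ} (h' : DiscL Λ D') (hle : OD D ≤ OD D') :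
    OD D * Λ = Λ := by
  apply le_antisymm
  · exact (mul_le_mul_left hle Λ).trans h'.OD_mul.le
  · exact (pr_one_mul Λ).ge.trans (mul_le_mul_left (ord2_pr_le (one_mem_OD D)) Λ)

theorem ord2_isLat_mul {𝔞 Λ : Lt} {D D' : ℤ} (h : DiscL 𝔞 D) (h' : DiscL Λ D')
    (hle : OD D ≤ OD D') : IsLat (𝔞 * Λ) := by
  obtain ⟨c, τ, hc, rfl, hτ⟩ := h
  have hτ' := hτ
  obtain ⟨a, b, k, ha, -, he, -⟩ := hτ'
  obtain ⟨N, rfl⟩ := Int.eq_ofNat_of_zero_le ha.le
  have hN : 0 < N := by exact_mod_cast ha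
  push_cast at he
  have hm : (N : ℂ) * τ ∈ OD D := by
    rw [← (discL_one hτ).end_iff, pr_mul_sp]
    refine ord2_sp_le (mem_sp.2 ⟨0, N, by simp⟩) (mem_sp.2 ⟨-k, -b, ?_⟩)
    push_cast
    linear_combination he
  refine (h'.isLat.pr_mul hc).of_between hN ?_ ?_
  · refine le_trans ?_ (mul_le_mul_left (ord2_pr_le (ord2_left_mem c (c * τ))) Λ)
    exact_mod_cast pr_int_le N (pr c * Λ)
  · have e : pr c * Λ = pr c * OD D * Λ := by rw [mul_assoc, ord2_OD_mul h' hle]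
    rw [← mul_assoc, pr_mul_sp, e]
    apply mul_le_mul_left
    apply ord2_sp_le
    · refine mem_pr_mul.2 ⟨N, ?_, mul_comm _ _⟩
      simpa using (OD D).smul_mem (N : ℤ) (one_mem_OD D)
    · exact mem_pr_mul.2 ⟨N * τ, hm, by ring⟩

theorem DiscL.mul {𝔞 Λ : Lt} {D D' : ℤ} (h : DiscL 𝔞 D) (h' : DiscL Λ D') (hle : OD D ≤ OD D') :
    DiscL (𝔞 * Λ) D' := by
  have he : ∀ x, pr x * (𝔞 * Λ) ≤ 𝔞 * Λ ↔ x ∈ OD D' := fun x => by
    rw [← h'.end_iff]
    constructor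
    · intro hx
      obtain ⟨c, hc, e⟩ := h.mul_cj
      have e' : Pool.Agent.P.MP_20768c_nt.Tz.EQ.cj 𝔞 * (𝔞 * Λ) = pr c * Λ := by
        rw [← mul_assoc, mul_comm _ 𝔞, e, mul_assoc, ord2_OD_mul h' hle]
      have := mul_le_mul_right hx (Pool.Agent.P.MP_20768c_nt.Tz.EQ.cj 𝔞)
      rw [mul_left_comm, e', mul_left_comm] at this
      exact (pr_mul_le_iff hc).1 this
    · intro hx
      rw [mul_left_comm]
      exact mul_le_mul_right hx 𝔞
  obtain ⟨D'', hD⟩ := exists_discL (ord2_isLat_mul h h' hle) (ord2_th_im_ne h'.isD.1)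
    ((he _).2 (th_mem_OD D'))
  exact ord2_disc_eq hD h'.isD.1 he ▸ hD

theorem discL_of_inv {𝔞 𝔟 : Lt} {D : ℤ} (hD : IsD D) (h : IsLat 𝔞) (h1 : OD D * 𝔞 ≤ 𝔞)
    (h2 : 𝔞 * 𝔟 = OD D) : DiscL 𝔞 D := by
  have he : ∀ x, pr x * 𝔞 ≤ 𝔞 ↔ x ∈ OD D := fun x => by
    constructor
    · intro hx
      have := mul_le_mul_left hx 𝔟
      rw [mul_assoc, h2, pr_mul_le] at this
      simpa using this 1 (one_mem_OD D)
    · intro hx
      exact (mul_le_mul_left (ord2_pr_le hx) 𝔞).trans h1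
  obtain ⟨D', hD'⟩ := exists_discL h (ord2_th_im_ne hD.1) ((he _).2 (th_mem_OD D))
  exact ord2_disc_eq hD' hD.1 he ▸ hD'

theorem finite_disc (D : ℤ) : {z | ∃ Λ, DiscL Λ D ∧ jL Λ = z}.Finite := by
  refine (((Set.finite_Icc (-|D|) |D|).prod (Set.finite_Icc (-|D|) |D|)).image
    (fun x : ℤ × ℤ => jInv (ofComplex ((th D - x.2) / (2 * x.1))))).subset ?_
  rintro z ⟨Λ, ⟨c, τ, hc, rfl, hτ⟩, rfl⟩
  obtain ⟨γ, hγ⟩ := ModularGroup.exists_smul_mem_fd τ
  rw [jL_sp hc, ← jInv_smul γ τ]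
  have hD := hτ.isD.1
  obtain ⟨a, b, k, ha, -, he, hd⟩ := hτ.smul γ
  generalize γ • τ = σ at hγ he
  have hr := HasDisc.root ha he
  rw [← hd] at hr
  have ha' : (1 : ℝ) ≤ a := by exact_mod_cast ha
  have hD' : (D : ℝ) < 0 := by exact_mod_cast hD
  have i1 : 2 * (a : ℝ) * σ.im = Real.sqrt (-(D : ℝ)) := by
    simpa [ord2_th_im] using congrArg Complex.im hr
  have i2 : 2 * (a : ℝ) * σ.re + b = 0 := by
    simpa [ord2_th_re] using congrArg Complex.re hr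
  have i3 := ModularGroup.three_le_four_mul_im_sq_of_mem_fd hγ
  have i4 := abs_le.1 hγ.2
  have i5 : (2 * (a : ℝ) * σ.im) ^ 2 = -(D : ℝ) := by rw [i1, Real.sq_sqrt (by linarith)]
  have i6 : (a : ℝ) ≤ -D := by
    have := mul_le_mul_of_nonneg_left i3 (sq_nonneg (a : ℝ))
    nlinarith
  have i7 : (b : ℝ) ≤ a := by nlinarith
  have i8 : -(a : ℝ) ≤ b := by nlinarith
  have j6 : a ≤ -D := by exact_mod_cast i6
  have j7 : b ≤ a := by exact_mod_cast i7
  have j8 : -a ≤ b := by exact_mod_cast i8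
  refine ⟨(a, b), ?_, ?_⟩
  · rw [abs_of_neg hD]
    simp only [Set.mem_prod, Set.mem_Icc]
    omega
  · have ha0 : (a : ℂ) ≠ 0 := by exact_mod_cast ha.ne'
    have : (th D - b) / (2 * a) = (σ : ℂ) := by
      rw [← hr]
      field_simp
      ring
    simp only [this, ofComplex_apply]

end Pool.Agent.P.MP_20768c_nt.Tz.EQ

end

end

-- part ad7a55_nt.VQs
section

/-! Expansions at the cusp with coefficients in a field. -/

set_option autoImplicit false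

noncomputable section

open MeasureTheory Topology Filter UpperHalfPlane
open scoped MatrixGroups ENNReal BoundedContinuousFunction

namespace Pool.Agent.P.MP_20768c_nt.Tz.EQ

def qN (N : ℕ) (τ : ℍ) : ℂ := Complex.exp (2 * Real.pi * Complex.I * τ / N)

def zt (N : ℕ) : ℂ := Complex.exp (2 * Real.pi * Complex.I / N)

/-- `h` is a power series in `qN N` with coefficients in `L`. -/
def QS (N : ℕ) (L : IntermediateField ℚ ℂ) (h : ℍ → ℂ) : Prop :=
  ∃ c : ℕ → ℂ, (∀ n, c n ∈ L) ∧ ∀ τ : ℍ, HasSum (fun n => c n * qN N τ ^ n) (h τ)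

variable {N : ℕ} {L : IntermediateField ℚ ℂ} {f g : ℍ → ℂ}

theorem vqs_mulH (hN : 0 < N) (τ : ℍ) : qN N (mulH N hN τ) = qq τ := by
  have h : (N : ℂ) ≠ 0 := Nat.cast_ne_zero.2 hN.ne'
  rw [qN, qq, coe_mulH]
  congr 1
  field_simp

theorem vqs_lt (hN : 0 < N) (τ : ℍ) : ‖qN N τ‖ < 1 := by
  have h : qN N τ = qq (divH N hN 0 τ) := by
    rw [qN, qq, coe_divH]
    congr 1
    push_cast
    ring
  rw [h]
  exact iq2_qq_lt _

theorem vqs_tr (hN : 0 < N) {c : ℕ → ℂ} (h : ∀ τ : ℍ, HasSum (fun n => c n * qN N τ ^ n) (f τ))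
    (τ : ℍ) : HasSum (fun n => c n * qq τ ^ n) (f (mulH N hN τ)) := by
  rw [← vqs_mulH hN τ]
  exact h _

theorem vqs_unique (hN : 0 < N) {a b : ℕ → ℂ}
    (ha : ∀ τ : ℍ, HasSum (fun n => a n * qN N τ ^ n) (f τ))
    (hb : ∀ τ : ℍ, HasSum (fun n => b n * qN N τ ^ n) (f τ)) : a = b :=
  iq2_unique (vqs_tr hN ha) (vqs_tr hN hb)

theorem vqs_pow {k : ℕ} (hk : 0 < k) (N : ℕ) (τ : ℍ) : qN (N * k) τ ^ k = qN N τ := by
  have h : (k : ℂ) ≠ 0 := Nat.cast_ne_zero.2 hk.ne'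
  rw [qN, qN, ← Complex.exp_nat_mul]
  congr 1
  push_cast
  rw [mul_comm (N : ℂ), ← div_div, mul_div_assoc', mul_div_cancel₀ _ h]

theorem vqs_cauchy {a b : ℕ → ℂ} {x y z : ℂ} (ha : HasSum (fun n => a n * x ^ n) y)
    (hb : HasSum (fun n => b n * x ^ n) z) :
    HasSum (fun n => (∑ p ∈ Finset.HasAntidiagonal.antidiagonal n, a p.1 * b p.2) * x ^ n)
      (y * z) := by
  have h1 := ha.summable.norm
  have h2 := hb.summable.norm
  have h3 := tsum_mul_tsum_eq_tsum_sum_antidiagonal_of_summable_norm h1 h2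
  have h4 := (summable_norm_sum_mul_antidiagonal_of_summable_norm h1 h2).of_norm
  rw [ha.tsum_eq, hb.tsum_eq] at h3
  rw [h3]
  refine iq2_congr h4.hasSum fun n => ?_
  rw [Finset.sum_mul]
  refine Finset.sum_congr rfl fun p hp => ?_
  rw [← Finset.HasAntidiagonal.mem_antidiagonal.1 hp, pow_add]
  ring

theorem vqs_expand {c : ℕ → ℂ} {x y : ℂ} {k : ℕ} (hk : 0 < k)
    (h : HasSum (fun n => c n * (x ^ k) ^ n) y) :
    HasSum (fun n => (if k ∣ n then c (n / k) else 0) * x ^ n) y := by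
  have hi : Function.Injective fun m : ℕ => k * m := mul_right_injective₀ hk.ne'
  refine (hi.hasSum_iff fun n hn => ?_).1 (iq2_congr h fun n => ?_)
  · rw [if_neg fun ⟨m, hm⟩ => hn ⟨m, hm.symm⟩, zero_mul]
  · simp [Nat.mul_div_cancel_left n hk, pow_mul]

theorem vqs_exp {k : ℕ} (hk : 0 < k) {c : ℕ → ℂ} (hc : ∀ n, c n ∈ L)
    (h : ∀ τ : ℍ, HasSum (fun n => c n * (qN N τ ^ k) ^ n) (f τ)) : QS N L f :=
  ⟨fun n => if k ∣ n then c (n / k) else 0, fun n => by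
    beta_reduce
    split_ifs
    exacts [hc _, zero_mem _], fun τ => vqs_expand hk (h τ)⟩

theorem vqs_single (m : ℕ) (c x : ℂ) :
    HasSum (fun n => (if n = m then c else 0) * x ^ n) (c * x ^ m) := by
  have h := hasSum_single (f := fun n => (if n = m then c else 0) * x ^ n) m fun n hn => by
    simp [hn]
  rwa [if_pos rfl] at h

theorem zt_dvd {M : ℕ} (hM : 0 < M) (h : N ∣ M) (hz : zt M ∈ L) : zt N ∈ L := by
  obtain ⟨k, rfl⟩ := h
  have hk : (k : ℂ) ≠ 0 := Nat.cast_ne_zero.2 (Nat.pos_of_mul_pos_left hM).ne'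
  have e : zt N = zt (N * k) ^ k := by
    rw [zt, zt, ← Complex.exp_nat_mul]
    congr 1
    push_cast
    rw [mul_comm (N : ℂ), ← div_div, mul_div_assoc', mul_div_cancel₀ _ hk]
  rw [e]
  exact pow_mem hz k

theorem exists_field (F : IntermediateField ℚ ℂ) [FiniteDimensional ℚ F]
    (L : IntermediateField ℚ ℂ) [FiniteDimensional ℚ L] {N : ℕ} (hN : 0 < N) :
    ∃ F' : IntermediateField ℚ ℂ, FiniteDimensional ℚ F' ∧ F ≤ F' ∧ L ≤ F' ∧ zt N ∈ F' := by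
  have h1 : IsIntegral ℚ (zt N) := IsIntegral.of_pow hN (by
    rw [show zt N ^ N = 1 from (Complex.isPrimitiveRoot_exp N hN.ne').pow_eq_one]
    exact isIntegral_one)
  have h2 := IntermediateField.adjoin.finiteDimensional h1
  exact ⟨F ⊔ L ⊔ IntermediateField.adjoin ℚ {zt N}, inferInstance, le_sup_left.trans le_sup_left,
    le_sup_right.trans le_sup_left,
    SetLike.le_def.1 le_sup_right (IntermediateField.mem_adjoin_simple_self ℚ _)⟩

theorem QS.add (hf : QS N L f) (hg : QS N L g) : QS N L fun τ => f τ + g τ := by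
  obtain ⟨a, ha, ha'⟩ := hf
  obtain ⟨b, hb, hb'⟩ := hg
  exact ⟨fun n => a n + b n, fun n => add_mem (ha n) (hb n),
    fun τ => iq2_congr ((ha' τ).add (hb' τ)) fun n => add_mul _ _ _⟩

theorem QS.mul (hN : 0 < N) (hf : QS N L f) (hg : QS N L g) : QS N L fun τ => f τ * g τ := by
  obtain ⟨a, ha, ha'⟩ := hf
  obtain ⟨b, hb, hb'⟩ := hg
  exact ⟨_, fun n => sum_mem fun p _ => mul_mem (ha p.1) (hb p.2),
    fun τ => vqs_cauchy (ha' τ) (hb' τ)⟩

theorem qs_const {c : ℂ} (hc : c ∈ L) : QS N L fun _ => c := by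
  refine ⟨fun n => if n = 0 then c else 0, fun n => ?_, fun τ => ?_⟩
  · beta_reduce
    split_ifs
    exacts [hc, zero_mem _]
  · simpa only [pow_zero, mul_one] using vqs_single 0 c (qN N τ)

theorem QS.pow (hN : 0 < N) (hf : QS N L f) (m : ℕ) : QS N L fun τ => f τ ^ m := by
  induction m with
  | zero => simpa only [pow_zero] using qs_const (one_mem L)
  | succ m ih => simpa only [pow_succ] using ih.mul hN hf

theorem qs_qN (N : ℕ) (L : IntermediateField ℚ ℂ) : QS N L (qN N) := by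
  refine ⟨fun n => if n = 1 then 1 else 0, fun n => ?_, fun τ => ?_⟩
  · beta_reduce
    split_ifs
    exacts [one_mem _, zero_mem _]
  · simpa only [pow_one, one_mul] using vqs_single 1 1 (qN N τ)

theorem QS.mono {L' : IntermediateField ℚ ℂ} (h : L ≤ L') (hf : QS N L f) : QS N L' f := by
  obtain ⟨a, ha, ha'⟩ := hf
  exact ⟨a, fun n => h (ha n), ha'⟩

theorem QS.level {N' : ℕ} (hN' : 0 < N') (h : N ∣ N') (hf : QS N L f) : QS N' L f := by
  obtain ⟨a, ha, ha'⟩ := hf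
  obtain ⟨k, rfl⟩ := h
  have hk := Nat.pos_of_mul_pos_left hN'
  exact vqs_exp hk ha fun τ => by
    rw [vqs_pow hk]
    exact ha' τ

theorem IntQ.qs (hN : 0 < N) (hf : IntQ f) : QS N L f := by
  obtain ⟨a, ha⟩ := hf
  refine QS.level hN (one_dvd N) ⟨fun n => a n, fun n => intCast_mem L _, fun τ => ?_⟩
  have e : qN 1 τ = qq τ := by simp [qN, qq]
  rw [e]
  exact ha τ

theorem QS.aff (hN : 0 < N) (hf : QS N L f) {a d : ℕ} (ha : 0 < a) (hd : 0 < d) (b : ℤ)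
    {L' : IntermediateField ℚ ℂ} (h : L ≤ L') (hz : zt (N * d) ∈ L') {w : ℍ → ℍ}
    (hw : ∀ τ : ℍ, (w τ : ℂ) = (a * τ + b) / d) : QS (N * d) L' fun τ => f (w τ) := by
  obtain ⟨c, hc, hc'⟩ := hf
  refine vqs_exp ha (c := fun n => c n * (zt (N * d) ^ b) ^ n)
    (fun n => mul_mem (h (hc n)) (pow_mem (zpow_mem hz b) n)) fun τ => ?_
  have h1 : (N : ℂ) ≠ 0 := Nat.cast_ne_zero.2 hN.ne'
  have h2 : (d : ℂ) ≠ 0 := Nat.cast_ne_zero.2 hd.ne'
  have e : qN N (w τ) = zt (N * d) ^ b * qN (N * d) τ ^ a := by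
    rw [qN, qN, zt, hw, ← Complex.exp_nat_mul, ← Complex.exp_int_mul, ← Complex.exp_add]
    congr 1
    push_cast
    field_simp
    ring
  refine iq2_congr (hc' (w τ)) fun n => ?_
  rw [e, mul_pow, mul_assoc]

theorem QS.one (hN : 0 < N) (hf : QS N L f) (hp : ∀ τ : ℍ, f (ModularGroup.T • τ) = f τ) :
    QS 1 L f := by
  obtain ⟨c, hc, hc'⟩ := hf
  have e : ∀ τ : ℍ, qN N (ModularGroup.T • τ) = zt N * qN N τ := fun τ => by
    rw [qN, qN, zt, modular_T_smul, coe_vadd, ← Complex.exp_add]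
    congr 1
    push_cast
    ring
  have h1 := vqs_unique hN (a := fun n => c n * zt N ^ n) (fun τ => by
    have h := hc' (ModularGroup.T • τ)
    rw [hp, e] at h
    exact iq2_congr h fun n => by rw [mul_pow, mul_assoc]) hc'
  have h2 : ∀ n, ¬ N ∣ n → c n = 0 := fun n hn => by
    by_contra h0
    exact hn (((Complex.isPrimitiveRoot_exp N hN.ne').pow_eq_one_iff_dvd n).1
      (mul_right_eq_self₀.1 (congrFun h1 n) |>.resolve_right h0))
  have hi : Function.Injective fun m : ℕ => N * m := mul_right_injective₀ hN.ne'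
  refine ⟨fun m => c (N * m), fun m => hc _, fun τ => ?_⟩
  have h3 := (hi.hasSum_iff fun n hn => by
    rw [h2 n fun ⟨m, hm⟩ => hn ⟨m, hm.symm⟩, zero_mul]).2 (hc' τ)
  refine iq2_congr h3 fun m => ?_
  have h4 := vqs_pow hN 1 τ
  rw [one_mul] at h4
  rw [Function.comp_apply, pow_mul, h4]

theorem QS.continuous (hN : 0 < N) (hf : QS N L f) : Continuous f := by
  obtain ⟨c, -, hc'⟩ := hf
  have h1 : Continuous (qN N) := by
    unfold qN
    fun_prop
  have h2 := (iq2_diff fun q hq => iq2_summable (vqs_tr hN hc') hq).continuousOn.comp_continuous h1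
    fun τ => mem_ball_zero_iff.2 (vqs_lt hN τ)
  exact h2.congr fun τ => (hc' τ).tsum_eq

theorem QS.eq_zero (hN : 0 < N) (hf : QS N L f) (hg : QS N L g) (h : ∀ τ, f τ * g τ = 0) :
    (∀ τ, f τ = 0) ∨ ∀ τ, g τ = 0 := by
  obtain ⟨a, -, ha⟩ := hf
  obtain ⟨b, -, hb⟩ := hg
  have h1 := vqs_unique hN (f := fun τ => f τ * g τ) (b := fun _ => 0)
    (fun τ => vqs_cauchy (ha τ) (hb τ)) fun τ => by simpa [h τ] using hasSum_zero
  have h2 : PowerSeries.mk a * PowerSeries.mk b = 0 := by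
    ext n
    simpa [PowerSeries.coeff_mul] using congrFun h1 n
  have h3 : ∀ {c : ℕ → ℂ} {u : ℍ → ℂ}, (∀ τ : ℍ, HasSum (fun n => c n * qN N τ ^ n) (u τ)) →
      PowerSeries.mk c = 0 → ∀ τ, u τ = 0 := fun {c u} hc h0 τ => by
    have h4 : ∀ n, c n = 0 := fun n => by simpa using congrArg (PowerSeries.coeff n) h0
    exact (hc τ).unique (by simpa [h4] using hasSum_zero)
  exact (mul_eq_zero.1 h2).imp (h3 ha) (h3 hb)

end Pool.Agent.P.MP_20768c_nt.Tz.EQ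

end

end

-- part ad7a55_nt.Aut
section

/-! Automorphisms of ℂ. -/

set_option autoImplicit false

noncomputable section

open MeasureTheory Topology Filter UpperHalfPlane
open scoped MatrixGroups ENNReal BoundedContinuousFunction

namespace Pool.Agent.P.MP_20768c_nt.Tz.EQ

theorem aut_aux {R K L : Type} [CommRing R] [Nontrivial R] [Field K] [Field L] [Algebra R K]
    [Algebra R L] [IsAlgClosed K] [IsAlgClosed L] (iK : Function.Injective (algebraMap R K))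
    (iL : Function.Injective (algebraMap R L)) (hR : Cardinal.mk R ≤ Cardinal.aleph0)
    (hK : Cardinal.aleph0 < Cardinal.mk K) (hKL : Cardinal.mk K = Cardinal.mk L) :
    ∃ σ : K ≃+* L, ∀ a, σ (algebraMap R K a) = algebraMap R L a := by
  haveI : FaithfulSMul R K := (faithfulSMul_iff_algebraMap_injective R K).2 iK
  haveI : FaithfulSMul R L := (faithfulSMul_iff_algebraMap_injective R L).2 iL
  obtain ⟨s, hs⟩ := exists_isTranscendenceBasis R K
  obtain ⟨t, ht⟩ := exists_isTranscendenceBasis R L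
  have h1 := IsAlgClosed.cardinal_eq_cardinal_transcendence_basis_of_aleph0_lt' _ hs hR hK
  have h2 := IsAlgClosed.cardinal_eq_cardinal_transcendence_basis_of_aleph0_lt' _ ht hR (hKL ▸ hK)
  obtain ⟨e⟩ : Nonempty (s ≃ t) := Cardinal.eq.1 (h1.symm.trans (hKL.trans h2))
  letI := IsAlgClosed.isAlgClosure_of_transcendence_basis _ hs
  letI := IsAlgClosed.isAlgClosure_of_transcendence_basis _ ht
  let e' : Algebra.adjoin R (Set.range ((↑) : s → K)) ≃ₐ[R]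
      Algebra.adjoin R (Set.range ((↑) : t → L)) :=
    hs.1.aevalEquiv.symm.trans ((MvPolynomial.renameEquiv R e).trans ht.1.aevalEquiv)
  refine ⟨IsAlgClosure.equivOfEquiv K L e'.toRingEquiv, fun a => ?_⟩
  rw [IsScalarTower.algebraMap_apply R (Algebra.adjoin R (Set.range ((↑) : s → K))) K a,
    IsAlgClosure.equivOfEquiv_algebraMap]
  have : e'.toRingEquiv (algebraMap R _ a) = algebraMap R _ a := e'.commutes a
  rw [this, ← IsScalarTower.algebraMap_apply]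

theorem aut_ring {A : Type} [CommRing A] [Nontrivial A] (hA : Cardinal.mk A ≤ Cardinal.aleph0)
    (φ ψ : A →+* ℂ) (hφ : Function.Injective φ) (hψ : Function.Injective ψ) :
    ∃ σ : ℂ ≃+* ℂ, ∀ a, σ (φ a) = ψ a := by
  have hC : Cardinal.aleph0 < Cardinal.mk ℂ := by
    rw [Cardinal.mk_complex]; exact Cardinal.aleph0_lt_continuum
  exact @aut_aux A ℂ ℂ _ _ _ _ φ.toAlgebra ψ.toAlgebra _ _ hφ hψ hA hC rfl

/-- Two embeddings of a countable field differ by an automorphism of `ℂ`. -/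
theorem exists_aut {A : Type} [Field A] [Countable A] (φ ψ : A →+* ℂ) :
    ∃ σ : ℂ ≃+* ℂ, ∀ a, σ (φ a) = ψ a :=
  aut_ring Cardinal.mk_le_aleph0 φ ψ φ.injective ψ.injective

theorem exists_aut_transc {x y : ℂ} (hx : Transcendental ℚ x) (hy : Transcendental ℚ y) :
    ∃ σ : ℂ ≃+* ℂ, σ x = y := by
  have hA : Cardinal.mk (Polynomial ℚ) ≤ Cardinal.aleph0 := by
    refine Polynomial.cardinalMk_le_max.trans ?_
    simp
  obtain ⟨σ, hσ⟩ := aut_ring hA (Polynomial.aeval x : Polynomial ℚ →ₐ[ℚ] ℂ).toRingHom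
    (Polynomial.aeval y : Polynomial ℚ →ₐ[ℚ] ℂ).toRingHom
    (transcendental_iff_injective.1 hx) (transcendental_iff_injective.1 hy)
  refine ⟨σ, ?_⟩
  simpa using hσ Polynomial.X

theorem algebraic_of_finite_orbit {x : ℂ} (h : {y | ∃ σ : ℂ ≃+* ℂ, σ x = y}.Finite) :
    IsAlgebraic ℚ x := by
  by_contra hx
  have hx' : Transcendental ℚ x := hx
  refine h.not_infinite (Set.infinite_of_injective_forall_mem (f := fun n : ℕ => x + n) ?_ ?_)
  · intro a b hab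
    simpa using hab
  · intro n
    refine exists_aut_transc hx' fun hn => hx ?_
    have h2 : IsAlgebraic ℚ ((n : ℕ) : ℂ) := isAlgebraic_natCast n
    simpa using hn.sub h2

/-- `σ` fixes all algebraic numbers of degree at most `d`. -/
def FixD (d : ℕ) (σ : ℂ ≃+* ℂ) : Prop :=
  ∀ (x : ℂ) (P : Polynomial ℚ), P ≠ 0 → P.natDegree ≤ d → Polynomial.aeval x P = 0 → σ x = x

theorem aut_root (σ : ℂ ≃+* ℂ) {x : ℂ} {P : Polynomial ℚ} (h : Polynomial.aeval x P = 0) :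
    Polynomial.aeval (σ x) P = 0 := by
  have := Polynomial.aeval_algHom_apply (σ.toRingHom.toRatAlgHom) x P
  rw [h, map_zero] at this
  exact this

theorem aut_pow_fix (σ : ℂ ≃+* ℂ) {x : ℂ} {k : ℕ} (h : (σ ^ k) x = x) (m : ℕ) :
    (σ ^ (k * m)) x = x := by
  induction m with
  | zero => simp only [mul_zero, pow_zero]; rfl
  | succ m ih =>
    rw [mul_add, mul_one, pow_add]
    change (σ ^ (k * m)) ((σ ^ k) x) = x
    rw [h, ih]

theorem fixD_pow (d : ℕ) (σ : ℂ ≃+* ℂ) : FixD d (σ ^ d.factorial) := by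
  classical
  intro x P hP hd hx
  have hmaps : ∀ k ∈ Finset.range (d + 1), (σ ^ k) x ∈ (P.aroots ℂ).toFinset := by
    intro k _
    rw [Multiset.mem_toFinset, Polynomial.mem_aroots]
    exact ⟨hP, aut_root _ hx⟩
  have hcard : (P.aroots ℂ).toFinset.card < (Finset.range (d + 1)).card := by
    rw [Finset.card_range]
    have h1 := Multiset.toFinset_card_le (P.aroots ℂ)
    have h2 := Polynomial.card_roots' (P.map (algebraMap ℚ ℂ))
    have h3 := Polynomial.natDegree_map_le (f := algebraMap ℚ ℂ) (p := P)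
    have h4 : Multiset.card (P.aroots ℂ) = Multiset.card (P.map (algebraMap ℚ ℂ)).roots := rfl
    omega
  obtain ⟨i, hi, j, hj, hij, he⟩ := Finset.exists_ne_map_eq_of_card_lt_of_maps_to hcard hmaps
  have key : ∀ i j : ℕ, i < j → j < d + 1 → (σ ^ i) x = (σ ^ j) x → (σ ^ d.factorial) x = x := by
    intro i j hlt hj he
    obtain ⟨k, rfl⟩ := Nat.exists_eq_add_of_lt hlt
    have h1 : (σ ^ (k + 1)) x = x := by
      apply (σ ^ i).injective
      rw [he, add_assoc, pow_add σ i]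
      rfl
    obtain ⟨m, hm⟩ : k + 1 ∣ d.factorial := Nat.dvd_factorial (Nat.succ_pos k) (by omega)
    rw [hm]
    exact aut_pow_fix σ h1 m
  rw [Finset.mem_range] at hi hj
  rcases lt_or_gt_of_ne hij with h | h
  · exact key i j h hj he
  · exact key j i h hi he.symm

theorem FixD.mul {d : ℕ} {σ τ : ℂ ≃+* ℂ} (h : FixD d σ) (h' : FixD d τ) : FixD d (σ * τ) := by
  intro x P hP hd hx
  change σ (τ x) = x
  rw [h' x P hP hd hx, h x P hP hd hx]

theorem FixD.conj {d : ℕ} {σ : ℂ ≃+* ℂ} (h : FixD d σ) (τ : ℂ ≃+* ℂ) : FixD d (τ * σ * τ⁻¹) := by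
  intro x P hP hd hx
  change τ (σ (τ.symm x)) = x
  rw [h (τ.symm x) P hP hd (aut_root _ hx), RingEquiv.apply_symm_apply]

theorem FixD.th {d : ℕ} (hd : 2 ≤ d) {σ : ℂ ≃+* ℂ} (h : FixD d σ) {D : ℤ} (hD : D ≤ 0) :
    σ (th D) = th D := by
  refine h _ (Polynomial.X ^ 2 - Polynomial.C (D : ℚ)) (Polynomial.X_pow_sub_C_ne_zero (by norm_num) _)
    ?_ ?_
  · rw [Polynomial.natDegree_X_pow_sub_C]; exact hd
  · simp [th_sq hD]

theorem FixD.field {d : ℕ} {σ : ℂ ≃+* ℂ} (h : FixD d σ) (F : IntermediateField ℚ ℂ)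
    [FiniteDimensional ℚ F] (hd : Module.finrank ℚ F ≤ d) : ∀ a ∈ F, σ a = a := by
  intro a ha
  have hi : IsIntegral ℚ (⟨a, ha⟩ : F) := IsIntegral.of_finite ℚ _
  refine h a (minpoly ℚ (⟨a, ha⟩ : F)) (minpoly.ne_zero hi)
    ((minpoly.natDegree_le _).trans hd) ?_
  have := Polynomial.aeval_algebraMap_apply ℂ (⟨a, ha⟩ : F) (minpoly ℚ (⟨a, ha⟩ : F))
  rw [minpoly.aeval, map_zero] at this
  exact this

theorem aut_th (σ : ℂ ≃+* ℂ) {D : ℤ} (hD : D ≤ 0) : σ (th D) = th D ∨ σ (th D) = -th D := by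
  apply sq_eq_sq_iff_eq_or_eq_neg.1
  rw [← map_pow, th_sq hD, map_intCast]

theorem aut_th_ne {D : ℤ} (hD : D < 0) : th D ≠ 0 := by
  intro h
  have := th_sq hD.le
  rw [h] at this
  have h2 : (D : ℂ) = 0 := by rw [← this]; norm_num
  exact hD.ne (by exact_mod_cast h2)

theorem exists_tau {D D' : ℤ} (hD : D < 0) (hD' : D' < 0) (h : ¬ IsSquare (D' * D)) :
    ∃ τ : ℂ ≃+* ℂ, τ (th D) = th D ∧ τ (th D') = -th D' := by
  have hs : (th D' * th D) * (th D' * th D) = ((D' * D : ℤ) : ℂ) := by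
    have h1 := th_sq hD.le
    have h2 := th_sq hD'.le
    push_cast
    rw [← h1, ← h2]; ring
  have hs' : (-(th D' * th D)) * (-(th D' * th D)) = ((D' * D : ℤ) : ℂ) := by
    rw [neg_mul_neg, hs]
  have hn : ∀ n : ℤ, D' * D ≠ n * n := fun n hn => h ⟨n, hn⟩
  haveI : Countable (Zsqrtd (D' * D)) :=
    Function.Injective.countable (f := fun a : Zsqrtd (D' * D) => (a.re, a.im))
      fun a b hab => Zsqrtd.ext (congrArg Prod.fst hab) (congrArg Prod.snd hab)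
  obtain ⟨σ, hσ⟩ := aut_ring (A := Zsqrtd (D' * D)) Cardinal.mk_le_aleph0
    (Zsqrtd.lift ⟨_, hs⟩) (Zsqrtd.lift ⟨_, hs'⟩) (Zsqrtd.lift_injective _ hn)
    (Zsqrtd.lift_injective _ hn)
  have h0 : σ (th D') * σ (th D) = -(th D' * th D) := by
    have := hσ Zsqrtd.sqrtd
    simpa using this
  have n1 := aut_th_ne hD
  have n2 := aut_th_ne hD'
  have n3 : th D' * th D ≠ 0 := mul_ne_zero n2 n1
  rcases aut_th σ hD.le with a | a <;> rcases aut_th σ hD'.le with b | b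
  · rw [a, b] at h0
    exact absurd (by linear_combination h0 / 2) n3
  · exact ⟨σ, a, b⟩
  · refine ⟨σ.trans (starRingAut : RingAut ℂ), ?_, ?_⟩
    · change starRingEnd ℂ (σ (th D)) = th D
      rw [a, map_neg, conj_th, neg_neg]
    · change starRingEnd ℂ (σ (th D')) = -th D'
      rw [b, conj_th]
  · rw [a, b] at h0
    exact absurd (by linear_combination h0 / 2) n3

end Pool.Agent.P.MP_20768c_nt.Tz.EQ

end

end

-- part ad7a55_nt.VAct
section

/-! Integer matrices of positive determinant acting on the upper half plane. -/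

set_option autoImplicit false

noncomputable section

open MeasureTheory Topology Filter UpperHalfPlane
open scoped MatrixGroups ENNReal BoundedContinuousFunction

namespace Pool.Agent.P.MP_20768c_nt.Tz.EQ

abbrev MZ : Type := Matrix (Fin 2) (Fin 2) ℤ

theorem vact_den {ξ : MZ} (h : 0 < ξ.det) (τ : ℍ) : (ξ 1 0 : ℂ) * τ + ξ 1 1 ≠ 0 := fun e => by
  obtain ⟨h0, h1⟩ := int_indep_lat τ e
  rw [Matrix.det_fin_two, h0, h1] at h
  simp at h

theorem act_im {ξ : MZ} (h : 0 < ξ.det) (τ : ℍ) :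
    0 < (((ξ 0 0 : ℂ) * τ + ξ 0 1) / ((ξ 1 0 : ℂ) * τ + ξ 1 1)).im := by
  have hn := Complex.normSq_pos.2 (vact_den h τ)
  have hd : (0 : ℝ) < ξ 0 0 * ξ 1 1 - ξ 0 1 * ξ 1 0 := by
    rw [Matrix.det_fin_two] at h
    exact_mod_cast h
  rw [Complex.div_im, ← sub_div]
  refine div_pos ?_ hn
  simp only [Complex.add_im, Complex.mul_im, Complex.intCast_re, Complex.intCast_im, zero_mul,
    add_zero, coe_im, Complex.add_re, Complex.mul_re, sub_zero, coe_re]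
  have := mul_pos hd τ.im_pos
  linarith

/-- The Moebius action of an integer matrix of positive determinant. -/
def act (ξ : MZ) (τ : ℍ) : ℍ :=
  if h : 0 < ξ.det then ⟨((ξ 0 0 : ℂ) * τ + ξ 0 1) / ((ξ 1 0 : ℂ) * τ + ξ 1 1), act_im h τ⟩ else τ

theorem coe_act {ξ : MZ} (h : 0 < ξ.det) (τ : ℍ) :
    (act ξ τ : ℂ) = ((ξ 0 0 : ℂ) * τ + ξ 0 1) / ((ξ 1 0 : ℂ) * τ + ξ 1 1) := by
  simp only [act, dif_pos h]

theorem act_den {ξ : MZ} (h : 0 < ξ.det) (τ : ℍ) : (ξ 1 0 : ℂ) * τ + ξ 1 1 ≠ 0 :=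
  vact_den h τ

theorem vact_den_mul {ξ : MZ} (h : 0 < ξ.det) (τ : ℍ) :
    ((ξ 1 0 : ℂ) * τ + ξ 1 1) * (act ξ τ : ℂ) = (ξ 0 0 : ℂ) * τ + ξ 0 1 := by
  rw [coe_act h, mul_div_cancel₀ _ (act_den h τ)]

theorem vact_ext {ξ : MZ} (h : 0 < ξ.det) {τ τ' : ℍ}
    (e : ((ξ 1 0 : ℂ) * τ + ξ 1 1) * (τ' : ℂ) = (ξ 0 0 : ℂ) * τ + ξ 0 1) : act ξ τ = τ' := by
  apply UpperHalfPlane.ext
  apply mul_left_cancel₀ (act_den h τ)
  rw [vact_den_mul h, e]

theorem act_mul {ξ η : MZ} (h : 0 < ξ.det) (h' : 0 < η.det) (τ : ℍ) :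
    act (ξ * η) τ = act ξ (act η τ) := by
  have h2 : 0 < (ξ * η).det := by rw [Matrix.det_mul]; exact mul_pos h h'
  refine vact_ext h2 ?_
  have e1 := vact_den_mul h' τ
  have e2 := vact_den_mul h (act η τ)
  simp only [Matrix.mul_apply, Fin.sum_univ_two]
  push_cast
  linear_combination ((η 1 0 : ℂ) * τ + η 1 1) * e2 +
    ((ξ 0 0 : ℂ) - ξ 1 0 * (act ξ (act η τ) : ℂ)) * e1

theorem vact_SL_det (γ : SL(2, ℤ)) : 0 < (γ : MZ).det := by
  rw [γ.det_coe]; exact one_pos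

theorem act_SL (γ : SL(2, ℤ)) (τ : ℍ) : act (γ : MZ) τ = γ • τ :=
  vact_ext (vact_SL_det γ) (sl_den_mul_lat γ τ)

theorem act_one (τ : ℍ) : act 1 τ = τ :=
  vact_ext (by simp) (by simp)

theorem act_smul {ξ : MZ} (h : 0 < ξ.det) {m : ℤ} (hm : m ≠ 0) (τ : ℍ) :
    act (m • ξ) τ = act ξ τ := by
  have h2 : 0 < (m • ξ).det := by
    rw [Matrix.det_smul, Fintype.card_fin]
    exact mul_pos (by positivity) h
  refine vact_ext h2 ?_
  have e1 := vact_den_mul h τ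
  simp only [Matrix.smul_apply, smul_eq_mul]
  push_cast
  linear_combination (m : ℂ) * e1

theorem continuous_act (ξ : MZ) : Continuous (act ξ) := by
  by_cases h : 0 < ξ.det
  · rw [isEmbedding_coe.continuous_iff]
    have : ((↑) : ℍ → ℂ) ∘ act ξ =
        fun τ : ℍ => ((ξ 0 0 : ℂ) * τ + ξ 0 1) / ((ξ 1 0 : ℂ) * τ + ξ 1 1) :=
      funext fun τ => coe_act h τ
    rw [this]
    exact ((continuous_const.mul continuous_coe).add continuous_const).div
      ((continuous_const.mul continuous_coe).add continuous_const) (act_den h)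
  · have : act ξ = id := funext fun τ => by simp only [act, dif_neg h, id]
    rw [this]
    exact continuous_id

theorem act_real {ξ : MZ} {g : SL(2, ℝ)} {c : ℝ} (hc : c ≠ 0)
    (h : ∀ i j, (ξ i j : ℝ) = c * g i j) (τ : ℍ) : 0 < ξ.det ∧ act ξ τ = g • τ := by
  have hg := g.det_coe
  rw [Matrix.det_fin_two] at hg
  have hd : 0 < ξ.det := by
    have : ((ξ.det : ℤ) : ℝ) = c ^ 2 := by
      rw [Matrix.det_fin_two]
      push_cast
      rw [h, h, h, h]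
      linear_combination c ^ 2 * hg
    have h2 : (0 : ℝ) < ((ξ.det : ℤ) : ℝ) := by rw [this]; positivity
    exact_mod_cast h2
  refine ⟨hd, ?_⟩
  have hC : ∀ i j, (ξ i j : ℂ) = (c : ℂ) * (g i j : ℝ) := fun i j => by
    rw [← Complex.ofReal_intCast, h, Complex.ofReal_mul]
  apply UpperHalfPlane.ext
  have hc' : (c : ℂ) ≠ 0 := by exact_mod_cast hc
  rw [coe_act hd, coe_specialLinearGroup_apply, hC, hC, hC, hC, mul_assoc, mul_assoc, ← mul_add,
    ← mul_add, mul_div_mul_left _ _ hc']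
  simp

theorem exists_real {ξ : MZ} (h : 0 < ξ.det) :
    ∃ (g : SL(2, ℝ)) (c : ℝ), c ≠ 0 ∧ ∀ i j, (ξ i j : ℝ) = c * g i j := by
  have hd : (0 : ℝ) < (ξ.det : ℝ) := by exact_mod_cast h
  have hc : Real.sqrt (ξ.det : ℝ) ≠ 0 := (Real.sqrt_pos.2 hd).ne'
  have hs := Real.mul_self_sqrt hd.le
  generalize Real.sqrt (ξ.det : ℝ) = c at hc hs
  rw [Matrix.det_fin_two] at hs
  push_cast at hs
  refine ⟨⟨Matrix.of fun i j => (ξ i j : ℝ) / c, ?_⟩, c, hc, fun i j => ?_⟩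
  · rw [Matrix.det_fin_two]
    simp only [Matrix.of_apply]
    field_simp
    linear_combination -hs
  · change _ = c * ((ξ i j : ℝ) / c)
    field_simp

theorem act_hnf {ξ : MZ} (h : 0 < ξ.det) : ∃ (γ : SL(2, ℤ)) (a d : ℕ) (b : ℤ), 0 < a ∧ 0 < d ∧
    (a * d : ℤ) = ξ.det ∧ ξ = (γ : MZ) * !![(a : ℤ), b; 0, (d : ℤ)] := by
  have hdet := Matrix.det_fin_two ξ
  have hg : 0 < Int.gcd (ξ 0 0) (ξ 1 0) := by
    rw [Int.gcd_pos_iff]
    by_contra hc
    rw [not_or, not_not, not_not] at hc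
    rw [hdet, hc.1, hc.2] at h
    simp at h
  have hb := Int.gcd_eq_gcd_ab (ξ 0 0) (ξ 1 0)
  obtain ⟨p, hp⟩ := Int.gcd_dvd_left (ξ 0 0) (ξ 1 0)
  obtain ⟨r, hr⟩ := Int.gcd_dvd_right (ξ 0 0) (ξ 1 0)
  generalize Int.gcdA (ξ 0 0) (ξ 1 0) = x at hb
  generalize Int.gcdB (ξ 0 0) (ξ 1 0) = y at hb
  generalize Int.gcd (ξ 0 0) (ξ 1 0) = a at hg hb hp hr
  have ha : (0 : ℤ) < a := by exact_mod_cast hg
  have h1 : p * x + r * y = 1 := by
    apply mul_left_cancel₀ ha.ne'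
    rw [hp, hr] at hb
    linear_combination -hb
  have h2 : (a : ℤ) * (p * ξ 1 1 - r * ξ 0 1) = ξ.det := by
    rw [hdet, hp, hr]; ring
  have h3 : 0 < p * ξ 1 1 - r * ξ 0 1 := (mul_pos_iff_of_pos_left ha).1 (h2 ▸ h)
  obtain ⟨d, hd⟩ := Int.eq_ofNat_of_zero_le h3.le
  refine ⟨⟨!![p, -y; r, x], by rw [Matrix.det_fin_two_of]; linear_combination h1⟩, a, d,
    x * ξ 0 1 + y * ξ 1 1, hg, by omega, by rw [← hd, h2], ?_⟩
  ext i j
  fin_cases i <;> fin_cases j <;> simp [Matrix.mul_apply, Fin.sum_univ_two, ← hd]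
  · rw [hp]; ring
  · linear_combination (-ξ 0 1) * h1
  · rw [hr]; ring
  · linear_combination (-ξ 1 1) * h1

theorem act_conj {ξ : MZ} (h : 0 < ξ.det) (N : ℕ) {γ : SL(2, ℤ)}
    (hγ : γ ∈ CongruenceSubgroup.Gamma (N * ξ.det.natAbs)) :
    ∃ γ' ∈ CongruenceSubgroup.Gamma N, ξ * (γ : MZ) = (γ' : MZ) * ξ := by
  have hn : ((N * ξ.det.natAbs : ℕ) : ℤ) = N * ξ.det := by
    rw [Nat.cast_mul, Int.natAbs_of_nonneg h.le]
  rw [CongruenceSubgroup.Gamma_mem] at hγ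
  obtain ⟨g0, g1, g2, g3⟩ := hγ
  have k0 : ((γ 0 0 - 1 : ℤ) : ZMod (N * ξ.det.natAbs)) = 0 := by push_cast; rw [g0, sub_self]
  have k3 : ((γ 1 1 - 1 : ℤ) : ZMod (N * ξ.det.natAbs)) = 0 := by push_cast; rw [g3, sub_self]
  rw [ZMod.intCast_zmod_eq_zero_iff_dvd, hn] at k0 g1 g2 k3
  obtain ⟨a, ha⟩ := k0
  obtain ⟨b, hb⟩ := g1
  obtain ⟨c, hc⟩ := g2
  obtain ⟨d, hd⟩ := k3
  have hγ : (γ : MZ) = 1 + (N * ξ.det : ℤ) • !![a, b; c, d] := by
    ext i j
    fin_cases i <;> fin_cases j <;> simp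
    · linear_combination ha
    · linear_combination hb
    · linear_combination hc
    · linear_combination hd
  have he : ξ * (γ : MZ) = (1 + (N : ℤ) • (ξ * !![a, b; c, d] * ξ.adjugate)) * ξ := by
    rw [hγ, mul_add, add_mul, mul_one, one_mul, smul_mul_assoc, mul_assoc _ _ ξ,
      Matrix.adjugate_mul, mul_smul_comm, mul_smul_comm, mul_one, smul_smul]
  have hdet : (1 + (N : ℤ) • (ξ * !![a, b; c, d] * ξ.adjugate)).det = 1 := by
    have := congrArg Matrix.det he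
    rw [Matrix.det_mul, Matrix.det_mul, γ.det_coe, mul_comm] at this
    exact (mul_right_cancel₀ h.ne' this).symm
  refine ⟨⟨_, hdet⟩, ?_, he⟩
  rw [CongruenceSubgroup.Gamma_mem]
  generalize ξ * !![a, b; c, d] * ξ.adjugate = B at hdet
  simp only [Matrix.add_apply, Matrix.smul_apply, smul_eq_mul]
  simp

theorem isog_act {ξ : MZ} (h : 0 < ξ.det) (τ : ℍ) :
    Isog ξ.det.natAbs (jInv (act ξ τ)) (jInv τ) := by
  have hn : ((ξ.det.natAbs : ℕ) : ℂ) = (ξ 0 0 : ℂ) * ξ 1 1 - ξ 0 1 * ξ 1 0 := by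
    rw [← Int.cast_natCast, Int.natAbs_of_nonneg h.le, Matrix.det_fin_two]
    push_cast
    rfl
  refine ⟨_, _, isLat_sp (act_den h τ) (act ξ τ), isLat_one τ, jL_sp (act_den h τ) _, jL_one τ,
    ?_, ?_⟩
  · rw [vact_den_mul h]
    exact sp_le_iff_lat.2 ⟨mem_sp.2 ⟨ξ 1 1, ξ 1 0, by ring⟩, mem_sp.2 ⟨ξ 0 1, ξ 0 0, by ring⟩⟩
  · rw [vact_den_mul h, pr_mul_sp, hn]
    exact sp_le_iff_lat.2 ⟨mem_sp.2 ⟨ξ 0 0, -ξ 1 0, by push_cast; ring⟩,
      mem_sp.2 ⟨-ξ 0 1, ξ 1 1, by push_cast; ring⟩⟩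

theorem Isog.exists_act {M : ℕ} (hM : 0 < M) {τ τ' : ℍ} (h : Isog M (jInv τ') (jInv τ)) :
    ∃ ξ : MZ, 0 < ξ.det ∧ ξ.det ∣ (M : ℤ) ^ 2 ∧ τ' = act ξ τ := by
  obtain ⟨Λ₁, Λ₂, h1, h2, j1, j2, l1, l2⟩ := h
  obtain ⟨c, hc, rfl⟩ := jL_inj (isLat_one τ) h2 (by rw [j2, jL_one])
  rw [pr_mul_sp, mul_one] at l1 l2
  obtain ⟨a, d, b, ha, hd, haM, hdM, -, -, rfl⟩ := hnf hc τ hM l2 l1
  have hdet : (!![(d : ℤ), b; 0, (a : ℤ)] : MZ).det = d * a := by
    rw [Matrix.det_fin_two_of]; ring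
  have hpos : 0 < (!![(d : ℤ), b; 0, (a : ℤ)] : MZ).det := by
    rw [hdet]; positivity
  have ha' : (a : ℂ) ≠ 0 := by exact_mod_cast ha.ne'
  have e := vact_den_mul hpos τ
  have e2 : c * (d * τ + b) = a * c * (act !![(d : ℤ), b; 0, (a : ℤ)] τ : ℂ) := by
    simp only [Matrix.of_apply, Matrix.cons_val', Matrix.cons_val_zero, Matrix.cons_val_one,
      Matrix.cons_val_fin_one, Int.cast_zero, zero_mul, zero_add, Int.cast_natCast] at e
    linear_combination (-c) * e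
  rw [e2, jL_sp (mul_ne_zero ha' hc)] at j1
  obtain ⟨γ, rfl⟩ := jInv_inj j1
  refine ⟨(γ : MZ) * !![(d : ℤ), b; 0, (a : ℤ)], ?_, ?_, ?_⟩
  · rw [Matrix.det_mul, γ.det_coe, one_mul]; exact hpos
  · rw [Matrix.det_mul, γ.det_coe, one_mul, hdet, sq]
    exact mul_dvd_mul (by exact_mod_cast hdM) (by exact_mod_cast haM)
  · rw [act_mul (vact_SL_det γ) hpos, act_SL]

theorem vact_mono (c : ℂ) {Λ Λ' : Lt} (h : Λ ≤ Λ') : pr c * Λ ≤ pr c * Λ' :=
  pr_mul_le.mpr fun w hw => mem_pr_mul.mpr ⟨w, h hw, rfl⟩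

theorem Isog.symm {M : ℕ} (hM : 0 < M) {a b : ℂ} (h : Isog M a b) : Isog M b a := by
  obtain ⟨Λ₁, Λ₂, h1, h2, j1, j2, l1, l2⟩ := h
  have hM' : (M : ℂ) ≠ 0 := by exact_mod_cast hM.ne'
  exact ⟨pr M * Λ₂, Λ₁, h2.pr_mul hM', h1, by rw [jL_pr_mul h2 hM', j2], j1, l2, vact_mono _ l1⟩

theorem Isog.trans {M M' : ℕ} {a b c : ℂ} (h : Isog M a b) (h' : Isog M' b c) :
    Isog (M * M') a c := by
  obtain ⟨Λ₁, Λ₂, h1, h2, j1, j2, l1, l2⟩ := h
  obtain ⟨Λ₃, Λ₄, h3, h4, j3, j4, l3, l4⟩ := h'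
  obtain ⟨t, ht, rfl⟩ := jL_inj h3 h2 (by rw [j2, j3])
  refine ⟨Λ₁, pr t * Λ₄, h1, h4.pr_mul ht, j1, by rw [jL_pr_mul h4 ht, j4],
    l1.trans (vact_mono _ l3), le_trans ?_ l2⟩
  rw [Nat.cast_mul, ← pr_mul_pr, mul_assoc, mul_left_comm (pr (M' : ℂ))]
  exact vact_mono _ (vact_mono _ l4)

theorem Isog.mono {M M' : ℕ} (hM : M ∣ M') {a b : ℂ} (h : Isog M a b) : Isog M' a b := by
  obtain ⟨Λ₁, Λ₂, h1, h2, j1, j2, l1, l2⟩ := h
  obtain ⟨k, rfl⟩ := hM
  refine ⟨Λ₁, Λ₂, h1, h2, j1, j2, l1, le_trans ?_ l2⟩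
  rw [Nat.cast_mul, ← pr_mul_pr, mul_assoc]
  refine vact_mono _ ?_
  simpa using pr_int_le (k : ℤ) Λ₂

theorem isog_refl (a : ℂ) : Isog 1 a a := by
  obtain ⟨Λ, h, j⟩ := jL_surj a
  exact ⟨Λ, Λ, h, h, j, j, le_rfl, by simp⟩

/-- Only finitely many matrices of a given determinant modulo a congruence subgroup. -/
theorem finite_act (N : ℕ) (hN : 0 < N) {δ : ℤ} (hδ : δ ≠ 0) : ∃ R : Finset MZ,
    (∀ η ∈ R, 0 < η.det ∧ η.det ∣ δ) ∧ ∀ ξ : MZ, 0 < ξ.det → ξ.det ∣ δ →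
      ∃ η ∈ R, ∃ γ ∈ CongruenceSubgroup.Gamma N, ξ = (γ : MZ) * η := by
  classical
  have : NeZero N := ⟨hN.ne'⟩
  have := CongruenceSubgroup.Gamma_normal N
  have : Fintype (SL(2, ℤ) ⧸ CongruenceSubgroup.Gamma N) := Fintype.ofFinite _
  let I : Finset ℤ := Finset.Icc 0 |δ|
  let f : (SL(2, ℤ) ⧸ CongruenceSubgroup.Gamma N) × ℤ × ℤ × ℤ → MZ :=
    fun z => ((z.1.out : SL(2, ℤ)) : MZ) * !![z.2.1, z.2.2.1; 0, z.2.2.2]
  refine ⟨((Finset.univ ×ˢ I ×ˢ I ×ˢ I).image f).filter fun η => 0 < η.det ∧ η.det ∣ δ,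
    fun η hη => (Finset.mem_filter.1 hη).2, fun ξ h hd => ?_⟩
  obtain ⟨γ, a, d, b, ha, hd0, had, hξ⟩ := act_hnf h
  have ha' : (0 : ℤ) < a := by exact_mod_cast ha
  have hd' : (0 : ℤ) < d := by exact_mod_cast hd0
  have hle : (a : ℤ) * d ≤ |δ| := by
    rw [had]
    exact Int.le_of_dvd (abs_pos.2 hδ) ((dvd_abs _ _).2 hd)
  have h1 : (a : ℤ) ≤ |δ| := by nlinarith
  have h2 : (d : ℤ) ≤ |δ| := by nlinarith
  have h3 := Int.emod_nonneg b hd'.ne'
  have h4 := Int.emod_lt_of_pos b hd'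
  let T : SL(2, ℤ) := ⟨!![1, b / d; 0, 1], by rw [Matrix.det_fin_two_of]; ring⟩
  have hT : (!![(a : ℤ), b; 0, (d : ℤ)] : MZ) = (T : MZ) * !![(a : ℤ), b % d; 0, (d : ℤ)] := by
    change _ = (!![1, b / d; 0, 1] : MZ) * _
    have := Int.emod_add_ediv_mul b d
    ext i j
    fin_cases i <;> fin_cases j <;> simp [Matrix.mul_apply, Fin.sum_univ_two, this]
  let q : SL(2, ℤ) ⧸ CongruenceSubgroup.Gamma N := ((γ * T : SL(2, ℤ)) : _ ⧸ _)
  have hq : γ * T / q.out ∈ CongruenceSubgroup.Gamma N :=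
    QuotientGroup.eq_iff_div_mem.1 (QuotientGroup.out_eq' q).symm
  have he : ξ = ((γ * T / q.out : SL(2, ℤ)) : MZ) * f (q, a, b % d, d) := by
    change _ = _ * (((q.out : SL(2, ℤ)) : MZ) * !![(a : ℤ), b % d; 0, (d : ℤ)])
    rw [← mul_assoc, ← Matrix.SpecialLinearGroup.coe_mul, div_mul_cancel,
      Matrix.SpecialLinearGroup.coe_mul, mul_assoc, ← hT, ← hξ]
  have hdet : (f (q, a, b % d, d)).det = ξ.det := by
    conv_rhs => rw [he, Matrix.det_mul, Matrix.SpecialLinearGroup.det_coe, one_mul]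
  refine ⟨f (q, a, b % d, d), Finset.mem_filter.2 ⟨Finset.mem_image_of_mem f ?_, ?_⟩, _, hq, he⟩
  · simp only [Finset.mem_product, Finset.mem_univ, true_and, I, Finset.mem_Icc]
    exact ⟨⟨ha'.le, h1⟩, ⟨h3, h4.le.trans h2⟩, hd'.le, h2⟩
  · rw [hdet]; exact ⟨h, hd⟩

/-- A point of large discriminant is fixed only by plus or minus one. -/
theorem HasDisc.stab {τ : ℍ} {D : ℤ} (h : HasDisc τ D) (hD : D < -4) {γ : SL(2, ℤ)}
    (hγ : γ • τ = τ) : γ = 1 ∨ γ = -1 := by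
  obtain ⟨A, B, C, -, hg, hq, rfl⟩ := h
  obtain ⟨u, v, w, hb⟩ := ord_bezout hg
  have e := sl_den_mul_lat γ τ
  rw [hγ] at e
  have hdet := γ.det_coe
  rw [Matrix.det_fin_two] at hdet
  obtain ⟨h1, h2⟩ := int_indep_lat τ (p := A * (γ 1 1 - γ 0 0) - γ 1 0 * B)
    (q := -A * γ 0 1 - γ 1 0 * C) (by push_cast; linear_combination A * e - γ 1 0 * hq)
  obtain ⟨h3, h4⟩ := int_indep_lat τ (p := (γ 1 1 - γ 0 0) * C + γ 0 1 * B) (q := 0) (by
    have hτ : (τ : ℂ) ≠ 0 := τ.ne_zero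
    have h1' : (A : ℂ) * (γ 1 1 - γ 0 0) - γ 1 0 * B = 0 := by exact_mod_cast h1
    have h2' : -(A : ℂ) * γ 0 1 - γ 1 0 * C = 0 := by exact_mod_cast h2
    push_cast
    linear_combination C * e + γ 0 1 * hq + (τ : ℂ) ^ 2 * h2')
  obtain ⟨t, ht⟩ : ∃ t, t = u * γ 1 0 + v * (γ 1 1 - γ 0 0) - w * γ 0 1 := ⟨_, rfl⟩
  have k1 : γ 1 0 = t * A := by rw [ht]; linear_combination (-γ 1 0) * hb - v * h1 - w * h2
  have k2 : γ 1 1 - γ 0 0 = t * B := by
    rw [ht]; linear_combination (-(γ 1 1 - γ 0 0)) * hb + u * h1 + w * h3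
  have k3 : -γ 0 1 = t * C := by rw [ht]; linear_combination γ 0 1 * hb + u * h2 - v * h3
  have k4 : (γ 0 0 + γ 1 1) ^ 2 - 4 = t ^ 2 * (B ^ 2 - 4 * A * C) := by
    have k3' : γ 0 1 = -(t * C) := by linear_combination -k3
    have k2' : γ 1 1 = γ 0 0 + t * B := by linear_combination k2
    rw [k1, k3', k2'] at hdet
    rw [k2']
    linear_combination 4 * hdet
  have ht0 : t = 0 := by
    by_contra hne
    have h5 : 0 < t ^ 2 := by positivity
    nlinarith [sq_nonneg (γ 0 0 + γ 1 1)]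
  rw [ht0, zero_mul] at k1 k2 k3
  have k5 : γ 0 1 = 0 := by linear_combination -k3
  have k6 : γ 1 1 = γ 0 0 := by linear_combination k2
  rw [k1, k5, k6, mul_zero, sub_zero] at hdet
  rcases Int.eq_one_or_neg_one_of_mul_eq_one hdet with k7 | k7
  · left
    ext i j
    fin_cases i <;> fin_cases j <;> simp [k1, k5, k6, k7]
  · right
    ext i j
    fin_cases i <;> fin_cases j <;> simp [k1, k5, k6, k7]

end Pool.Agent.P.MP_20768c_nt.Tz.EQ

end

end

-- part Cv.DefsA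
section

set_option autoImplicit false

open Complex NumberField IsDedekindDomain
open UpperHalfPlane hiding I
open scoped ComplexConjugate Real MatrixGroups

namespace Pool.Agent.P.MP_20768c_nt.Tz.Cv

open Pool.Agent.P.MP_20768c_nt.Tz.EQ (Lt pr sp IsLat jL qN)

noncomputable section

/-! ### Lattice functions -/

def wp (L : Lt) (z : ℂ) : ℂ := ∑' l : L, (1 / (z - l) ^ 2 - 1 / (l : ℂ) ^ 2)

def wpd (L : Lt) (z : ℂ) : ℂ := -∑' l : L, 2 / (z - l) ^ 3

def Gk (L : Lt) (n : ℕ) : ℂ := ∑' l : L, ((l : ℂ) ^ n)⁻¹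

def g2 (L : Lt) : ℂ := 60 * Gk L 4

def g3 (L : Lt) : ℂ := 140 * Gk L 6

def dl (L : Lt) : ℂ := g2 L ^ 3 - 27 * g3 L ^ 2

def UU (L : Lt) : ℂ := -18 * g3 L / g2 L

def XX (L : Lt) (z : ℂ) : ℂ := wp L z / UU L

open Classical in
/-- area of a fundamental parallelogram -/
def ar (L : Lt) : ℝ := if h : IsLat L then ‖h.choose‖ ^ 2 * h.choose_spec.choose.im else 0

/-- `R` is a system of representatives of `L' / L` containing `0` -/
def Reps (L L' : Lt) (R : Finset ℂ) : Prop :=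
  L ≤ L' ∧ 0 ∈ R ∧ (∀ r ∈ R, r ∈ L') ∧ ∀ x ∈ L', ∃! r, r ∈ R ∧ x - r ∈ L

/-- `L'` is `L ∪ (t + L) ∪ (-t + L)`, of index three -/
def Three (L L' : Lt) (t : ℂ) : Prop :=
  t ∉ L ∧ 3 * t ∈ L ∧ ∀ x, x ∈ L' ↔ x ∈ L ∨ x - t ∈ L ∨ x + t ∈ L

/-- the coefficient `a₁` of the Deuring form at a point of order three -/
def fa (L : Lt) (Q : ℂ) : ℂ := (6 * wp L Q ^ 2 - g2 L / 2) / wpd L Q

/-- the tangent line at a point of order three -/
def fy (L : Lt) (Q z : ℂ) : ℂ := (wpd L z - wpd L Q - fa L Q * (wp L z - wp L Q)) / 2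

/-- the level three parameter -/
def hp3 (L : Lt) (Q : ℂ) : ℂ := 288 * wp L Q ^ 2 / (12 * wp L Q ^ 2 - g2 L) - 27

/-- the formal parameter of a point of order three in the kernel of reduction -/
def st (L : Lt) (t : ℂ) : ℂ := 3 / fa L t

def zt (n : ℕ) : ℂ := cexp (2 * π * I / 3 ^ n)

/-- zero or a square root of `-3` -/
def r3 (a : ℕ) : ℂ := zt 1 ^ a - zt 1 ^ (2 * a)

open Classical in
/-- the class of `1 + 3^(n-1)` -/
def tau (n : ℕ) : (ZMod (3 ^ n))ˣ :=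
  if h : Nat.Coprime (3 ^ (n - 1) + 1) (3 ^ n) then ZMod.unitOfCoprime _ h else 1

theorem zt_pow (n : ℕ) : zt n ^ 3 ^ n = 1 := by
  rw [zt, ← Complex.exp_nat_mul]
  push_cast
  rw [mul_div_cancel₀ _ (pow_ne_zero _ three_ne_zero), Complex.exp_two_pi_mul_I]

/-- a zeta function of the lattice -/
structure IsZeta (L : Lt) (ζ : ℂ → ℂ) (a : ℂ) : Prop where
  deriv : ∀ z, z ∉ L → HasDerivAt ζ (a - wp L z) z
  odd : ∀ z, z ∉ L → ζ (-z) = -ζ z
  per : ∀ l ∈ L, ∃ e : ℂ, ∀ z, z ∉ L → ζ (z + l) = ζ z + e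
  pole : ∃ g : ℂ → ℂ, AnalyticAt ℂ g 0 ∧ ∀ z, z ∉ L → ζ z = z⁻¹ + g z

def th0 (L : Lt) (z u : ℂ) : ℂ := ∑' l : L, cexp (-u * ((z + l) * conj (z + l)))

def th1 (L : Lt) (z u : ℂ) : ℂ := ∑' l : L, conj (z + l) * cexp (-u * ((z + l) * conj (z + l)))

def pa (L : Lt) (l z : ℂ) : ℂ := cexp (π * (conj l * z - l * conj z) / ar L)

def eF (L : Lt) (z : ℂ) : ℂ := ∫ u in Set.Ioi (0 : ℝ), th1 L z u

def eG (L : Lt) (z : ℂ) : ℝ := ∫ u in Set.Ioi (0 : ℝ), ((th0 L z u).re - π / (ar L * u)) / u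

/-- the values of `wp` at the nonzero `c`-torsion points -/
def XS (L : Lt) (c : ℕ) : Set ℂ := {e | ∃ t : ℂ, c * t ∈ L ∧ t ∉ L ∧ wp L t = e}

def tht (L : Lt) (c : ℕ) (z : ℂ) : ℂ :=
  dl L ^ ((c ^ 2 - 1) / 12) / (c * ∏ᶠ e ∈ XS L c, (wp L z - e))

def ec (L : Lt) (c : ℕ) (z : ℂ) : ℂ := -∑ᶠ e ∈ XS L c, wpd L z / (wp L z - e)

/-- an eigenfunction of the translation by a point of order three -/
def cov (L : Lt) (T z : ℂ) : ℂ := eF L z + zt 1 * eF L (z + T) + zt 1 ^ 2 * eF L (z - T)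

/-- the theta series of a coset -/
def Th (L : Lt) (A : ℝ) (z : ℂ) (τ : ℍ) : ℂ := th1 L z (-(2 * π * I * τ) / A)

/-! ### Expansions at the cusp -/

/-- expansion in `qN N` with coefficients in a finitely generated group -/
def BQ (N : ℕ) (h : ℍ → ℂ) : Prop :=
  ∃ (a : ℕ → ℂ) (Λ : Submodule ℤ ℂ), Λ.FG ∧ (∀ n, a n ∈ Λ) ∧
    ∀ τ : ℍ, HasSum (fun n => a n * qN N τ ^ n) (h τ)

def BR : Subring (ℍ → ℂ) := Subring.closure {h | BQ 1 h}

/-- meromorphic on the upper half plane and at all cusps -/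
def Mer0 (M : ℕ) (h : ℍ → ℂ) : Prop :=
  (∀ τ : ℍ, MeromorphicAt (h ∘ ofComplex) τ) ∧
    ∀ g : SL(2, ℤ), ∃ H : ℂ → ℂ, MeromorphicAt H 0 ∧
      ∀ᶠ τ in atImInfty, h (g • τ) = H (qN M τ)

/-- a meromorphic modular function for `Γ₁(M)` -/
def Mer (M : ℕ) (h : ℍ → ℂ) : Prop :=
  Mer0 M h ∧ ∀ γ ∈ CongruenceSubgroup.Gamma1 M, ∀ τ : ℍ, h (γ • τ) = h τ

/-- a generator of the function field of `Γ₁(M)` with bounded expansion -/
def Gen (M : ℕ) (y : ℍ → ℂ) : Prop :=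
  Pool.Agent.P.MP_20768c_nt.Tz.EQ.IsMF (CongruenceSubgroup.Gamma1 M) M ⊤ y ∧
    (∃ m : ℕ, BQ 1 fun τ => ModularForm.discriminant τ ^ m * y τ) ∧
    ∀ g : SL(2, ℤ), (∀ τ : ℍ, y (g • τ) = y τ) →
      g ∈ CongruenceSubgroup.Gamma1 M ∨ -g ∈ CongruenceSubgroup.Gamma1 M

/-- a valued differential field of germs that contains the bounded expansions -/
structure VD (v : Valuation ℂ NNReal) (z : ℂ) (F : Type) [Field F] where
  g : F →+* Filter.Germ (nhdsWithin z {z}ᶜ) ℂ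
  V : Valuation F NNReal
  D : F → F
  add : ∀ x y, D (x + y) = D x + D y
  mul : ∀ x y, D (x * y) = x * D y + D x * y
  le : ∀ x, V (D x) ≤ V x
  der : ∀ (x : F) (X : ℂ → ℂ), g x = (X : Filter.Germ (nhdsWithin z {z}ᶜ) ℂ) →
    g (D x) = ((fun w => deriv X w / (2 * π * I) : ℂ → ℂ) : Filter.Germ (nhdsWithin z {z}ᶜ) ℂ)
  ser : ∀ (h : ℍ → ℂ) (a : ℕ → ℂ) (Λ : Submodule ℤ ℂ), Λ.FG → (∀ n, a n ∈ Λ) →
    (∀ τ : ℍ, HasSum (fun n => a n * qN 1 τ ^ n) (h τ)) →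
    ∃ x, g x = ((h ∘ ofComplex : ℂ → ℂ) : Filter.Germ (nhdsWithin z {z}ᶜ) ℂ) ∧
      (∀ n, v (a n) ≤ V x) ∧ ∃ n, V x = v (a n)

/-- the period of a weight two form -/
def Pe (f : ℍ → ℂ) (γ : SL(2, ℤ)) : ℂ := Fv (sym f) (γ 0 0 : ℚ) (γ 1 0 : ℚ)

/-- the dimension of the span of the translates of a function on a group -/
def tk {κ G : Type} [Field κ] [Group G] (β : G → κ) : ℕ :=
  Module.finrank κ (Submodule.span κ (Set.range fun (h : G) (g : G) => β (g * h)))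

/-! ### Selmer groups of number fields -/

section
variable (F : Type) [Field F] [NumberField F]

def Vs (l C : ℕ) : Subgroup Fˣ where
  carrier := {x | ∀ Q : HeightOneSpectrum (𝓞 F), (C : 𝓞 F) ∉ Q.asIdeal →
    ∃ j : ℤ, Q.valuation F (x : F) = WithZero.exp (l * j)}
  one_mem' := fun _ _ => ⟨0, by simp⟩
  mul_mem' := fun {x y} hx hy Q hQ => by
    obtain ⟨i, hi⟩ := hx Q hQ
    obtain ⟨j, hj⟩ := hy Q hQ
    exact ⟨i + j, by rw [Units.val_mul, map_mul, hi, hj, ← WithZero.exp_add, mul_add]⟩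
  inv_mem' := fun {x} hx Q hQ => by
    obtain ⟨i, hi⟩ := hx Q hQ
    exact ⟨-i, by rw [Units.val_inv_eq_inv_val, map_inv₀, hi, ← WithZero.exp_neg, mul_neg]⟩

def Pw (l : ℕ) : Subgroup Fˣ := (powMonoidHom l : Fˣ →* Fˣ).range

def Un : Subgroup Fˣ := (Units.map (algebraMap (𝓞 F) F : 𝓞 F →* F)).range

/-- the number of primes containing `C` -/
def nP (C : ℕ) : ℕ := {Q : HeightOneSpectrum (𝓞 F) | (C : 𝓞 F) ∈ Q.asIdeal}.ncard

/-- the Euler factors at `1` of the primes containing `C` -/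
def EE (C : ℕ) : ℚ :=
  ∏ᶠ Q ∈ {Q : HeightOneSpectrum (𝓞 F) | (C : 𝓞 F) ∈ Q.asIdeal},
    (1 - ((Ideal.absNorm Q.asIdeal : ℕ) : ℚ)⁻¹)

/-- a Dirichlet series over the ideals -/
def DS (a : Ideal (𝓞 F) → ℂ) (t : ℝ) : ℂ :=
  ∑' I : Ideal (𝓞 F), a I * (((Ideal.absNorm I : ℝ) ^ (-t) : ℝ) : ℂ)

/-- a bounded completely multiplicative function on the nonzero ideals -/
def Mult (a : Ideal (𝓞 F) → ℂ) : Prop :=
  a ⊤ = 1 ∧ (∀ I J, I ≠ ⊥ → J ≠ ⊥ → a (I * J) = a I * a J) ∧ ∀ I, ‖a I‖ ≤ 1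

end

open Classical in
/-- the indicator of the ideals prime to `C` -/
def oneC (F : Type) [Field F] (C : ℕ) (J : Ideal (𝓞 F)) : ℂ :=
  if IsCoprime J (Ideal.span {(C : 𝓞 F)}) then 1 else 0

/-- the primes not containing `C` have trivial inertia group -/
def Unr (k F : Type) [Field k] [Field F] [Algebra k F] (C : ℕ) : Prop :=
  ∀ Q : Ideal (𝓞 F), Q.IsPrime → (C : 𝓞 F) ∉ Q → ∀ g : F ≃ₐ[k] F,
    (∀ x y : 𝓞 F, (y : F) = g (x : F) → y - x ∈ Q) → g = 1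

/-- `g` is a Frobenius element at `Q` -/
def FrobAt {k F : Type} [Field k] [NumberField k] [Field F] [NumberField F] [Algebra k F]
    (g : F ≃ₐ[k] F) (Q : Ideal (𝓞 F)) : Prop :=
  ∀ x y : 𝓞 F, (y : F) = g (x : F) → y - x ^ Ideal.absNorm (Q.under (𝓞 k)) ∈ Q

/-! ### Groups with an `x`-coordinate -/

structure XG (A : Type) [AddCommGroup A] (F : Type) [Field F] where
  x : A → F
  b2 : F
  b4 : F
  b6 : F
  b8 : F
  rel : 4 * b8 = b2 * b6 - b4 ^ 2
  neg : ∀ P, x (-P) = x P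
  inj : ∀ P Q, P ≠ 0 → Q ≠ 0 → x P = x Q → P = Q ∨ P = -Q
  add : ∀ P Q, P ≠ 0 → Q ≠ 0 → P + Q ≠ 0 → P - Q ≠ 0 → (x (P + Q) + x (P - Q)) * (x P - x Q) ^ 2 =
    2 * x P * x Q * (x P + x Q) + b2 * x P * x Q + b4 * (x P + x Q) + b6
  mul : ∀ P Q, P ≠ 0 → Q ≠ 0 → P + Q ≠ 0 → P - Q ≠ 0 → x (P + Q) * x (P - Q) * (x P - x Q) ^ 2 =
    x P ^ 2 * x Q ^ 2 - b4 * x P * x Q - b6 * (x P + x Q) - b8
  dbl : ∀ P, P ≠ 0 → P + P ≠ 0 → x (P + P) * (4 * x P ^ 3 + b2 * x P ^ 2 + 2 * b4 * x P + b6) =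
    x P ^ 4 - b4 * x P ^ 2 - 2 * b6 * x P - b8
  two : ∀ P, P ≠ 0 → (P + P = 0 ↔ 4 * x P ^ 3 + b2 * x P ^ 2 + 2 * b4 * x P + b6 = 0)

section
variable {A F : Type} [AddCommGroup A] [Field F] {Γ : Type} [LinearOrderedCommGroupWithZero Γ]

def XG.disc (X : XG A F) : F :=
  -X.b2 ^ 2 * X.b8 - 8 * X.b4 ^ 3 - 27 * X.b6 ^ 2 + 9 * X.b2 * X.b4 * X.b6

def XG.Good (X : XG A F) (v : Valuation F Γ) : Prop :=
  v X.b2 ≤ 1 ∧ v X.b4 ≤ 1 ∧ v X.b6 ≤ 1 ∧ v X.b8 ≤ 1 ∧ v X.disc = 1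

/-- the kernel of reduction -/
def XG.Ker (X : XG A F) (v : Valuation F Γ) (P : A) : Prop := P = 0 ∨ 1 < v (X.x P)

end

section
variable {Γ : Type} [LinearOrderedCommGroupWithZero Γ]

def xm (L : Lt) (U r z : ℂ) : ℂ := wp L z / U + r

def mb2 (r : ℂ) : ℂ := -12 * r

def mb4 (L : Lt) (U r : ℂ) : ℂ := 6 * r ^ 2 - g2 L / U ^ 2 / 2

def mb6 (L : Lt) (U r : ℂ) : ℂ := -4 * r ^ 3 + g2 L / U ^ 2 * r - g3 L / U ^ 3

def mb8 (L : Lt) (U r : ℂ) : ℂ := (mb2 r * mb6 L U r - mb4 L U r ^ 2) / 4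

/-- the model `x = wp / U + r` has good reduction at `v` -/
def Good (v : Valuation ℂ Γ) (L : Lt) (U r : ℂ) : Prop :=
  U ≠ 0 ∧ v (mb2 r) ≤ 1 ∧ v (mb4 L U r) ≤ 1 ∧ v (mb6 L U r) ≤ 1 ∧ v (mb8 L U r) ≤ 1 ∧
    v (dl L / U ^ 6) = 1

def E1 (v : Valuation ℂ Γ) (L : Lt) (U r z : ℂ) : Prop := z ∈ L ∨ 1 < v (xm L U r z)

/-- a flex outside the kernel of reduction, ordinary case -/
def Et (v : Valuation ℂ Γ) (L : Lt) (s U : ℂ) : Prop :=
  s ∉ L ∧ 3 * s ∈ L ∧ U ≠ 0 ∧ v (fa L s ^ 2) = v U ∧ v (wpd L s ^ 2) = v U ^ 3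

/-- a flex in the kernel of reduction, ordinary case -/
def Ca (v : Valuation ℂ Γ) (L : Lt) (s U : ℂ) : Prop :=
  s ∉ L ∧ 3 * s ∈ L ∧ U ≠ 0 ∧ v (fa L s ^ 2) = v 3 * v U ∧ v (27 * wpd L s ^ 2) = v U ^ 3

/-- `a`, `b` are `1 ± r3 1 * y / 2` modulo `3`, and `(a - b) / r3 1` is `y` modulo `3` -/
def Tri (v : Valuation ℂ Γ) (a b y : ℂ) : Prop :=
  v (a - 1) ≤ v (r3 1) ∧ v (a + b - 2) ≤ v 3 ∧ v ((a - b) / r3 1 - y) ≤ v 3

/-- `σ` lies in the inertia group of `v` on the algebraic numbers -/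
def Inert (v : Valuation ℂ Γ) (σ : ℂ → ℂ) : Prop :=
  ∀ x, IsAlgebraic ℚ x → v x ≤ 1 → v (σ x - x) < 1

def FrobOn (v : Valuation ℂ Γ) (q : ℕ) (σ : ℂ → ℂ) (S : Set ℂ) : Prop :=
  ∀ x ∈ S, v x ≤ 1 → v (σ x - x ^ q) < 1

end

/-! ### The Galois side -/

section
variable {K : Type} [Field K]

/-- the automorphisms that fix `N` and the roots of unity of `3`-power order -/
def Hs (N : Set (AlgebraicClosure K)) : Subgroup (Gal K) where
  carrier := {g | (∀ x ∈ N, g x = x) ∧ ∀ (x : AlgebraicClosure K) (n : ℕ), x ^ 3 ^ n = 1 → g x = x}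
  one_mem' := ⟨fun _ _ => rfl, fun _ _ _ => rfl⟩
  mul_mem' := fun {g h} hg hh =>
    ⟨fun x hx => by rw [AlgEquiv.mul_apply, hh.1 x hx, hg.1 x hx],
      fun x n hx => by rw [AlgEquiv.mul_apply, hh.2 x n hx, hg.2 x n hx]⟩
  inv_mem' := fun {g} hg =>
    ⟨fun x hx => by rw [AlgEquiv.aut_inv, AlgEquiv.symm_apply_eq, hg.1 x hx],
      fun x n hx => by rw [AlgEquiv.aut_inv, AlgEquiv.symm_apply_eq, hg.2 x n hx]⟩

def InI (V : ValuationSubring (AlgebraicClosure K)) (g : Gal K) : Prop :=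
  ∀ x, V.valuation x ≤ 1 → V.valuation (g x - x) < 1

/-- continuous cubic characters unramified away from `C` and at the places in `A` -/
def HH (N : Set (AlgebraicClosure K)) (C : ℕ) (A : Set (ValuationSubring (AlgebraicClosure K))) :
    Set (Hs N →* (AlgebraicClosure K)ˣ) :=
  {ψ | IsLocallyConstant ψ ∧ (∀ g, ψ g ^ 3 = 1) ∧ ∀ V : ValuationSubring (AlgebraicClosure K),
    (V.valuation C = 1 ∨ V ∈ A) → ∀ g : Hs N, InI V g.1 → ψ g = 1}

end

end

end Pool.Agent.P.MP_20768c_nt.Tz.Cv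

end

-- part ad7a55_nt.VMf
section

/-! The ring of modular functions of level N. -/

set_option autoImplicit false

noncomputable section

open MeasureTheory Topology Filter UpperHalfPlane
open scoped MatrixGroups ENNReal BoundedContinuousFunction

namespace Pool.Agent.P.MP_20768c_nt.Tz.EQ

def MF (N : ℕ) (L : IntermediateField ℚ ℂ) : Set (ℍ → ℂ) :=
  {f | IsMF (CongruenceSubgroup.Gamma N) N L f}

variable {N : ℕ} {L : IntermediateField ℚ ℂ} {f g : ℍ → ℂ}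

theorem isMF_iff {Γ : Subgroup SL(2, ℤ)} : IsMF Γ N L f ↔ (∀ γ ∈ Γ, ∀ τ : ℍ, f (γ • τ) = f τ) ∧
    ∃ m : ℕ, ∀ γ : SL(2, ℤ), QS N L fun τ => ModularForm.discriminant τ ^ m * f (γ • τ) :=
  Iff.rfl

theorem vmf_congr {f g : ℍ → ℂ} (h : QS N L f) (e : ∀ τ, g τ = f τ) : QS N L g :=
  (funext e : g = f) ▸ h

theorem vmf_disc (hN : 0 < N) (k : ℕ) : QS N L fun τ => ModularForm.discriminant τ ^ k :=
  (iq2_intQ_disc.pow k).qs hN

theorem vmf_gamma {N' : ℕ} (h : N ∣ N') :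
    CongruenceSubgroup.Gamma N' ≤ CongruenceSubgroup.Gamma N := by
  intro γ hγ
  rw [CongruenceSubgroup.Gamma_mem] at hγ ⊢
  obtain ⟨h1, h2, h3, h4⟩ := hγ
  have e : ∀ x : ℤ, ZMod.castHom h (ZMod N) (x : ZMod N') = (x : ZMod N) := fun x =>
    map_intCast _ x
  refine ⟨?_, ?_, ?_, ?_⟩
  · rw [← e, h1, map_one]
  · rw [← e, h2, map_zero]
  · rw [← e, h3, map_zero]
  · rw [← e, h4, map_one]

theorem vmf_mk {f : ℍ → ℂ} (h1 : ∀ γ ∈ CongruenceSubgroup.Gamma N, ∀ τ : ℍ, f (γ • τ) = f τ) (m : ℕ)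
    (h2 : ∀ γ : SL(2, ℤ), QS N L fun τ => ModularForm.discriminant τ ^ m * f (γ • τ)) :
    f ∈ MF N L := ⟨h1, m, h2⟩

theorem IsMF.mf {Γ : Subgroup SL(2, ℤ)} (hΓ : CongruenceSubgroup.Gamma N ≤ Γ)
    {L' : IntermediateField ℚ ℂ} (hL : L ≤ L') (h : IsMF Γ N L f) : f ∈ MF N L' := by
  obtain ⟨h1, m, h2⟩ := isMF_iff.1 h
  exact isMF_iff.2 ⟨fun γ hγ => h1 γ (hΓ hγ), m, fun γ => (h2 γ).mono hL⟩

theorem MF.inv (hf : f ∈ MF N L) {γ : SL(2, ℤ)} (hγ : γ ∈ CongruenceSubgroup.Gamma N) (τ : ℍ) :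
    f (γ • τ) = f τ := hf.1 γ hγ τ

theorem MF.add (hN : 0 < N) (hf : f ∈ MF N L) (hg : g ∈ MF N L) :
    (fun τ => f τ + g τ) ∈ MF N L := by
  obtain ⟨h1, m, h2⟩ := isMF_iff.1 hf
  obtain ⟨h3, k, h4⟩ := isMF_iff.1 hg
  refine vmf_mk (fun γ hγ τ => by rw [h1 γ hγ, h3 γ hγ]) (m + k) fun γ => ?_
  refine vmf_congr (((vmf_disc hN k).mul hN (h2 γ)).add ((vmf_disc hN m).mul hN (h4 γ))) fun τ => ?_
  ring

theorem MF.mul (hN : 0 < N) (hf : f ∈ MF N L) (hg : g ∈ MF N L) :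
    (fun τ => f τ * g τ) ∈ MF N L := by
  obtain ⟨h1, m, h2⟩ := isMF_iff.1 hf
  obtain ⟨h3, k, h4⟩ := isMF_iff.1 hg
  refine vmf_mk (fun γ hγ τ => by rw [h1 γ hγ, h3 γ hγ]) (m + k) fun γ => ?_
  refine vmf_congr ((h2 γ).mul hN (h4 γ)) fun τ => ?_
  ring

theorem MF.const {c : ℂ} (hc : c ∈ L) : (fun _ : ℍ => c) ∈ MF N L := by
  refine vmf_mk (fun _ _ _ => rfl) 0 fun γ => vmf_congr (qs_const hc) fun τ => ?_
  simp

theorem MF.sub (hN : 0 < N) (hf : f ∈ MF N L) (hg : g ∈ MF N L) :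
    (fun τ => f τ - g τ) ∈ MF N L := by
  have h := MF.add hN hf (MF.mul hN (MF.const (c := -1) (neg_mem (one_mem L))) hg)
  have e : (fun τ => f τ - g τ) = fun τ => f τ + -1 * g τ := by
    funext τ
    ring
  rw [e]
  exact h

theorem MF.pow (hN : 0 < N) (hf : f ∈ MF N L) (m : ℕ) : (fun τ => f τ ^ m) ∈ MF N L := by
  induction m with
  | zero => simpa using MF.const (N := N) (one_mem L)
  | succ m ih => simpa only [pow_succ] using MF.mul hN ih hf

theorem MF.sum (hN : 0 < N) {ι : Type} (s : Finset ι) {f : ι → ℍ → ℂ}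
    (hf : ∀ i ∈ s, f i ∈ MF N L) : (fun τ => ∑ i ∈ s, f i τ) ∈ MF N L := by
  classical
  induction s using Finset.induction_on with
  | empty => simpa using MF.const (N := N) (zero_mem L)
  | insert i s hi ih =>
    simp only [Finset.sum_insert hi]
    exact MF.add hN (hf i (Finset.mem_insert_self i s))
      (ih fun k hk => hf k (Finset.mem_insert_of_mem hk))

theorem MF.prod (hN : 0 < N) {ι : Type} (s : Finset ι) {f : ι → ℍ → ℂ}
    (hf : ∀ i ∈ s, f i ∈ MF N L) : (fun τ => ∏ i ∈ s, f i τ) ∈ MF N L := by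
  classical
  induction s using Finset.induction_on with
  | empty => simpa using MF.const (N := N) (one_mem L)
  | insert i s hi ih =>
    simp only [Finset.prod_insert hi]
    exact MF.mul hN (hf i (Finset.mem_insert_self i s))
      (ih fun k hk => hf k (Finset.mem_insert_of_mem hk))

theorem MF.smul (hf : f ∈ MF N L) (γ : SL(2, ℤ)) : (fun τ => f (γ • τ)) ∈ MF N L := by
  obtain ⟨h1, m, h2⟩ := isMF_iff.1 hf
  refine vmf_mk (fun δ hδ τ => ?_) m fun δ => vmf_congr (h2 (γ * δ)) fun τ => ?_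
  · have h3 := h1 _ ((CongruenceSubgroup.Gamma_normal N).conj_mem δ hδ γ) (γ • τ)
    rwa [← mul_smul, inv_mul_cancel_right, mul_smul] at h3
  · rw [mul_smul]

theorem vmf_E4 (τ : ℍ) : ModularForm.E₄ τ ^ 3 = ModularForm.discriminant τ * jInv τ := by
  have h2 := ModularForm.discriminant_ne_zero τ
  unfold jInv
  field_simp

theorem MF.j (hN : 0 < N) : jInv ∈ MF N L := by
  refine isMF_iff.2 ⟨fun γ _ τ => jInv_smul γ τ, 1, fun γ =>
    vmf_congr ((intQ_E4.pow 3).qs hN) fun τ => ?_⟩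
  rw [jInv_smul, pow_one, vmf_E4]

theorem MF.mono {N' : ℕ} {L' : IntermediateField ℚ ℂ} (hN' : 0 < N') (h : N ∣ N') (hL : L ≤ L')
    (hf : f ∈ MF N L) : f ∈ MF N' L' := by
  obtain ⟨h1, m, h2⟩ := isMF_iff.1 hf
  exact isMF_iff.2 ⟨fun γ hγ => h1 γ (vmf_gamma h hγ), m, fun γ => ((h2 γ).mono hL).level hN' h⟩

theorem vmf_ratio {a d : ℕ} (ha : 0 < a) (hd : 0 < d) (b : ℤ) (hz : zt d ∈ L) {w : ℍ → ℍ}
    (hw : ∀ τ : ℍ, (w τ : ℂ) = (a * τ + b) / d) :
    QS d L fun τ => ModularForm.discriminant τ ^ (a * d) / ModularForm.discriminant (w τ) := by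
  have h1 : IntQ fun τ => ((1 : ℤ) : ℂ) / (ModularForm.discriminant τ / qq τ) :=
    (intQ_int 1).iq2_div intQ_disc_div iq2_disc_div_tendsto iq2_disc_div_ne
  have h2 := QS.aff one_pos (h1.qs (L := L) one_pos) ha hd b le_rfl (by rwa [one_mul]) hw
  rw [one_mul] at h2
  obtain ⟨k, hk⟩ : ∃ k, a * d * d = a + k :=
    Nat.exists_eq_add_of_le (by rw [mul_assoc]; exact Nat.le_mul_of_pos_right a (Nat.mul_pos hd hd))
  have h3 : QS d L fun τ => zt d ^ (-b) * qN d τ ^ k :=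
    (qs_const (zpow_mem hz _)).mul hd ((qs_qN d L).pow hd k)
  refine vmf_congr ((h3.mul hd ((intQ_disc_div.pow (a * d)).qs hd)).mul hd h2) fun τ => ?_
  have hd0 : (d : ℂ) ≠ 0 := Nat.cast_ne_zero.2 hd.ne'
  have h4 : qq τ ^ (a * d) = zt d ^ (-b) * qN d τ ^ k * qq (w τ) := by
    have h5 : (a * d * d : ℂ) = a + k := by exact_mod_cast hk
    rw [qq, qq, zt, qN, hw, ← Complex.exp_nat_mul, ← Complex.exp_nat_mul, ← Complex.exp_int_mul,
      ← Complex.exp_add, ← Complex.exp_add]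
    refine congrArg Complex.exp ?_
    push_cast
    field_simp
    linear_combination (τ : ℂ) * h5
  have h6 := iq2_qq_ne τ
  have h7 := ModularForm.discriminant_ne_zero (w τ)
  have h8 : ModularForm.discriminant τ ^ (a * d) =
      (ModularForm.discriminant τ / qq τ) ^ (a * d) * qq τ ^ (a * d) := by
    rw [← mul_pow, div_mul_cancel₀ _ h6]
  rw [h8, h4, Int.cast_one, one_div_div]
  ring

theorem MF.act (hN : 0 < N) (hf : f ∈ MF N L) {ξ : MZ} (hξ : 0 < ξ.det) {N' : ℕ} (hN' : 0 < N')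
    (h : N * ξ.det.natAbs ∣ N') {L' : IntermediateField ℚ ℂ} (hL : L ≤ L') (hz : zt N' ∈ L') :
    (fun τ => f (act ξ τ)) ∈ MF N' L' := by
  obtain ⟨h1, m, h2⟩ := isMF_iff.1 hf
  have hdet : ∀ γ : SL(2, ℤ), (γ : MZ).det = 1 := fun γ => γ.det_coe
  have hpos : ∀ γ : SL(2, ℤ), 0 < (γ : MZ).det := fun γ => by rw [hdet]; exact one_pos
  refine vmf_mk (fun γ hγ τ => ?_) (ξ.det.natAbs * m) fun γ => ?_
  · obtain ⟨γ', hγ', e⟩ := act_conj hξ N (vmf_gamma h hγ)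
    rw [← act_SL γ τ, ← act_mul hξ (hpos γ), e, act_mul (hpos γ') hξ, act_SL, h1 γ' hγ']
  · have h3 : (ξ * (γ : MZ)).det = ξ.det := by rw [Matrix.det_mul, hdet, mul_one]
    obtain ⟨γ', a, d, b, ha, hd, had, e⟩ := act_hnf (ξ := ξ * (γ : MZ)) (h3 ▸ hξ)
    rw [h3] at had
    have h4 : ξ.det.natAbs = a * d := by
      rw [← had, Int.natAbs_mul, Int.natAbs_natCast, Int.natAbs_natCast]
    have h5 : 0 < (!![(a : ℤ), b; 0, (d : ℤ)] : MZ).det := by
      rw [Matrix.det_fin_two_of, mul_zero, sub_zero, had]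
      exact hξ
    have hw : ∀ τ : ℍ, (Pool.Agent.P.MP_20768c_nt.Tz.EQ.act !![(a : ℤ), b; 0, (d : ℤ)] τ : ℂ) = (a * τ + b) / d :=
      fun τ => by simp [coe_act h5]
    have h6 : N * d ∣ N' := (Nat.mul_dvd_mul_left N (h4 ▸ Dvd.intro_left a rfl)).trans h
    have h7 : d ∣ N' := (Dvd.intro_left N rfl).trans h6
    have h8 := (QS.aff hN (h2 γ') ha hd b hL (zt_dvd hN' h6 hz) hw).level hN' h6
    have h9 := ((vmf_ratio ha hd b (zt_dvd hN' h7 hz) hw).level hN' h7).pow hN' m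
    refine vmf_congr (h9.mul hN' h8) fun τ => ?_
    have h10 := ModularForm.discriminant_ne_zero (Pool.Agent.P.MP_20768c_nt.Tz.EQ.act !![(a : ℤ), b; 0, (d : ℤ)] τ)
    rw [← act_SL γ τ, ← act_mul hξ (hpos γ), e, act_mul (hpos γ') h5, act_SL, h4, ← mul_assoc,
      ← mul_pow, div_mul_cancel₀ _ h10, pow_mul]

theorem MF.eq_zero (hN : 0 < N) (hf : f ∈ MF N L) (hg : g ∈ MF N L) (h : ∀ τ, f τ * g τ = 0) :
    (∀ τ, f τ = 0) ∨ ∀ τ, g τ = 0 := by
  obtain ⟨_, m, h2⟩ := isMF_iff.1 hf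
  obtain ⟨_, k, h4⟩ := isMF_iff.1 hg
  have h5 := QS.eq_zero hN (h2 1) (h4 1) fun τ => by
    rw [one_smul, mul_mul_mul_comm, h, mul_zero]
  simp only [one_smul] at h5
  refine h5.imp (fun h6 τ => ?_) fun h6 τ => ?_
  · exact (mul_eq_zero.1 (h6 τ)).resolve_left (pow_ne_zero _ (ModularForm.discriminant_ne_zero τ))
  · exact (mul_eq_zero.1 (h6 τ)).resolve_left (pow_ne_zero _ (ModularForm.discriminant_ne_zero τ))

theorem vmf_one : QS 1 L f ↔
    ∃ c : ℕ → ℂ, (∀ n, c n ∈ L) ∧ ∀ τ : ℍ, HasSum (fun n => c n * qq τ ^ n) (f τ) := by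
  have e : ∀ τ, qN 1 τ = qq τ := fun τ => by rw [qN, qq, Nat.cast_one, div_one]
  simp only [QS, e]

theorem vmf_poly (m : ℕ) {f : ℍ → ℂ} (hf : QS 1 L f)
    (hw : ∀ (γ : SL(2, ℤ)) (τ : ℍ), f (γ • τ) = ((γ 1 0 : ℂ) * τ + γ 1 1) ^ (12 * m) * f τ) :
    ∃ P : Polynomial ℂ, (∀ n, P.coeff n ∈ L) ∧
      ∀ τ, f τ = ModularForm.discriminant τ ^ m * P.eval (jInv τ) := by
  induction m generalizing f with
  | zero =>
    obtain ⟨a, haL, ha⟩ := vmf_one.1 hf
    refine ⟨Polynomial.C (a 0), fun n => ?_, fun τ => ?_⟩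
    · rw [Polynomial.coeff_C]
      split_ifs
      · exact haL 0
      · exact zero_mem L
    · rw [iq2_const ha (fun γ τ => by simpa using hw γ τ) τ]
      simp
  | succ m ih =>
    obtain ⟨a, haL, ha⟩ := vmf_one.1 hf
    have hg : QS 1 L fun τ => f τ + -a 0 * (ModularForm.E₄ τ ^ 3) ^ (m + 1) :=
      hf.add ((qs_const (neg_mem (haL 0))).mul one_pos (((intQ_E4.pow 3).pow (m + 1)).qs one_pos))
    have hg0 : Tendsto (fun τ => f τ + -a 0 * (ModularForm.E₄ τ ^ 3) ^ (m + 1))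
        atImInfty (𝓝 0) := by
      have h1 := (iq2_tendsto ha).add (((iq2_E4_tendsto.pow 3).pow (m + 1)).const_mul (-a 0))
      simpa using h1
    obtain ⟨c, hcL, hc⟩ := vmf_one.1 hg
    have hc0 : c 0 = 0 := tendsto_nhds_unique (iq2_tendsto hc) hg0
    have hs : QS 1 L fun τ => (f τ + -a 0 * (ModularForm.E₄ τ ^ 3) ^ (m + 1)) / qq τ :=
      vmf_one.2 ⟨fun n => c (n + 1), fun n => hcL _, iq2_shift hc hc0⟩
    have h1 : IntQ fun τ => ((1 : ℤ) : ℂ) / (ModularForm.discriminant τ / qq τ) :=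
      (intQ_int 1).iq2_div intQ_disc_div iq2_disc_div_tendsto iq2_disc_div_ne
    have hh : QS 1 L fun τ => (f τ - a 0 *
        (ModularForm.discriminant τ * jInv τ) ^ (m + 1)) / ModularForm.discriminant τ := by
      refine vmf_congr (hs.mul one_pos (h1.qs one_pos)) fun τ => ?_
      have h1 := iq2_qq_ne τ
      have h2 := ModularForm.discriminant_ne_zero τ
      rw [vmf_E4, Int.cast_one]
      field_simp
      ring
    obtain ⟨P, hP, hPf⟩ := ih hh (by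
      intro γ τ
      have h1 := iq2_den_ne γ τ
      have h2 := ModularForm.discriminant_ne_zero τ
      rw [hw, disc_smul, jInv_smul]
      generalize ((γ 1 0 : ℂ) * τ + γ 1 1) = u at h1 ⊢
      field_simp
      ring)
    refine ⟨Polynomial.C (a 0) * Polynomial.X ^ (m + 1) + P, fun n => ?_, fun τ => ?_⟩
    · rw [Polynomial.coeff_add, Polynomial.coeff_C_mul_X_pow]
      refine add_mem ?_ (hP n)
      split_ifs
      · exact haL 0
      · exact zero_mem L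
    · have h1 := hPf τ
      have h2 := ModularForm.discriminant_ne_zero τ
      rw [div_eq_iff h2] at h1
      simp only [Polynomial.eval_add, Polynomial.eval_mul, Polynomial.eval_pow, Polynomial.eval_X,
        Polynomial.eval_C]
      linear_combination h1

/-- A function of level one is a polynomial in `j` with coefficients in the same field. -/
theorem MF.poly (hN : 0 < N) (hf : f ∈ MF N L) (h : ∀ (γ : SL(2, ℤ)) (τ : ℍ), f (γ • τ) = f τ) :
    ∃ P : Polynomial ℂ, (∀ n, P.coeff n ∈ L) ∧ ∀ τ, f τ = P.eval (jInv τ) := by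
  obtain ⟨_, m, h2⟩ := isMF_iff.1 hf
  have h3 : QS N L fun τ => ModularForm.discriminant τ ^ m * f τ :=
    vmf_congr (h2 1) fun τ => by rw [one_smul]
  have h4 : ∀ (γ : SL(2, ℤ)) (τ : ℍ), ModularForm.discriminant (γ • τ) ^ m * f (γ • τ) =
      ((γ 1 0 : ℂ) * τ + γ 1 1) ^ (12 * m) * (ModularForm.discriminant τ ^ m * f τ) := by
    intro γ τ
    rw [h, disc_smul, mul_pow, pow_mul, mul_assoc]
  have h5 := h3.one hN fun τ => by
    rw [h4]
    simp [ModularGroup.T]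
  obtain ⟨P, hP, hPf⟩ := vmf_poly m h5 h4
  exact ⟨P, hP, fun τ =>
    mul_left_cancel₀ (pow_ne_zero m (ModularForm.discriminant_ne_zero τ)) (hPf τ)⟩

end Pool.Agent.P.MP_20768c_nt.Tz.EQ

end

end
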