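import Pool.Agent.P.MP_20768c_nt.Tz.Z1
import Pool.Agent.P.MP_20768c_nt.Tz.Z2

-- part Cv.A0_p
section

set_option autoImplicit false

open Complex NumberField IsDedekindDomain Filter Topology
open UpperHalfPlane hiding I
open scoped ComplexConjugate Real MatrixGroups

namespace Pool.Agent.P.MP_20768c_nt.Tz.Cv

open Pool.Agent.P.MP_20768c_nt.Tz.EQ (Lt pr sp IsLat jL qN)

variable {L M : Lt} {z x : ℂ}

theorem exists_pp (h : IsLat L) : ∃ P : PeriodPair, P.lattice = L := by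
  obtain ⟨c, τ, hc, rfl⟩ := h
  refine ⟨⟨c, c * τ, ?_⟩, rfl⟩
  rw [LinearIndependent.pair_iff]
  intro s t hst
  have h1 : c * ((s : ℂ) + (t : ℂ) * τ) = 0 := by
    rw [← hst]
    simp only [Complex.real_smul]
    ring
  have h2 : (s : ℂ) + (t : ℂ) * τ = 0 := (mul_eq_zero.1 h1).resolve_left hc
  have h3 := congrArg Complex.im h2
  have h4 := congrArg Complex.re h2
  simp only [add_im, ofReal_im, mul_im, ofReal_re, zero_mul, add_zero, zero_add, zero_im,
    coe_im] at h3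
  have ht : t = 0 := (mul_eq_zero.1 h3).resolve_right τ.im_pos.ne'
  subst ht
  simpa using h4

theorem a0p_wp (P : PeriodPair) : wp P.lattice = P.weierstrassP := rfl

theorem a0p_wpd (P : PeriodPair) : wpd P.lattice = P.derivWeierstrassP := rfl

theorem a0p_g2 (P : PeriodPair) : g2 P.lattice = P.g₂ := rfl

theorem a0p_g3 (P : PeriodPair) : g3 P.lattice = P.g₃ := rfl

theorem wp_add (h : IsLat L) (z : ℂ) {l : ℂ} (hl : l ∈ L) : wp L (z + l) = wp L z := by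
  obtain ⟨P, rfl⟩ := exists_pp h
  exact P.weierstrassP_add_coe z ⟨l, hl⟩

theorem wpd_add (h : IsLat L) (z : ℂ) {l : ℂ} (hl : l ∈ L) : wpd L (z + l) = wpd L z := by
  obtain ⟨P, rfl⟩ := exists_pp h
  exact P.derivWeierstrassP_add_coe z ⟨l, hl⟩

theorem wp_congr (h : IsLat L) {w : ℂ} (hl : z - w ∈ L) : wp L z = wp L w := by
  rw [← wp_add h w hl, add_sub_cancel]

theorem wpd_congr (h : IsLat L) {w : ℂ} (hl : z - w ∈ L) : wpd L z = wpd L w := by
  rw [← wpd_add h w hl, add_sub_cancel]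

theorem wp_neg (h : IsLat L) (z : ℂ) : wp L (-z) = wp L z := by
  obtain ⟨P, rfl⟩ := exists_pp h
  exact P.weierstrassP_neg z

theorem wpd_neg (h : IsLat L) (z : ℂ) : wpd L (-z) = -wpd L z := by
  obtain ⟨P, rfl⟩ := exists_pp h
  exact P.derivWeierstrassP_neg z

theorem analyticAt_wp (h : IsLat L) (hz : z ∉ L) : AnalyticAt ℂ (wp L) z := by
  obtain ⟨P, rfl⟩ := exists_pp h
  exact P.analyticOnNhd_weierstrassP z hz

theorem analyticAt_wpd (h : IsLat L) (hz : z ∉ L) : AnalyticAt ℂ (wpd L) z := by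
  obtain ⟨P, rfl⟩ := exists_pp h
  exact P.analyticOnNhd_derivWeierstrassP z hz

theorem hasDerivAt_wp (h : IsLat L) (hz : z ∉ L) : HasDerivAt (wp L) (wpd L z) z := by
  have h1 := (analyticAt_wp h hz).differentiableAt.hasDerivAt
  obtain ⟨P, rfl⟩ := exists_pp h
  rwa [a0p_wp, P.deriv_weierstrassP] at h1

theorem wpd_sq (h : IsLat L) (hz : z ∉ L) :
    wpd L z ^ 2 = 4 * wp L z ^ 3 - g2 L * wp L z - g3 L := by
  obtain ⟨P, rfl⟩ := exists_pp h
  exact P.derivWeierstrassP_sq z hz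

theorem meromorphic_wp (h : IsLat L) (z : ℂ) : MeromorphicAt (wp L) z := by
  obtain ⟨P, rfl⟩ := exists_pp h
  exact P.meromorphic_weierstrassP z

theorem meromorphic_wpd (h : IsLat L) (z : ℂ) : MeromorphicAt (wpd L) z := by
  obtain ⟨P, rfl⟩ := exists_pp h
  exact P.meromorphic_derivWeierstrassP z

theorem wp_pole (h : IsLat L) : ∃ g : ℂ → ℂ, AnalyticAt ℂ g 0 ∧ ∀ᶠ z in 𝓝[≠] (0 : ℂ),
    wp L z = 1 / z ^ 2 + g2 L / 20 * z ^ 2 + g3 L / 28 * z ^ 4 + z ^ 6 * g z := by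
  obtain ⟨P, rfl⟩ := exists_pp h
  obtain ⟨g, hg, he⟩ := (P.analyticAt_weierstrassPExcept 0).exists_eq_sum_add_pow_mul 6
  refine ⟨g, hg, Eventually.of_forall fun z => ?_⟩
  have h1 := P.weierstrassPExcept_add 0 z
  have h2 := he z
  simp only [P.iteratedDeriv_weierstrassPExcept_self, Finset.sum_range_succ, Finset.sum_range_zero,
    PeriodPair.sumInvPow_zero, smul_eq_mul] at h2
  norm_num [P.G_eq_zero_of_odd 3 (by decide), P.G_eq_zero_of_odd 5 (by decide),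
    P.G_eq_zero_of_odd 7 (by decide), Nat.factorial] at h2
  simp only [ZeroMemClass.coe_zero, sub_zero] at h1
  rw [a0p_wp, a0p_g2, a0p_g3, ← h1, h2, PeriodPair.g₂, PeriodPair.g₃]
  norm_num
  ring

theorem wpd_pole (h : IsLat L) : ∃ g : ℂ → ℂ, AnalyticAt ℂ g 0 ∧ ∀ᶠ z in 𝓝[≠] (0 : ℂ),
    wpd L z = -2 / z ^ 3 + z * g z := by
  obtain ⟨P, rfl⟩ := exists_pp h
  obtain ⟨g, hg, he⟩ := (P.analyticAt_derivWeierstrassPExcept 0).exists_eq_sum_add_pow_mul 1
  refine ⟨g, hg, Eventually.of_forall fun z => ?_⟩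
  have h1 := P.derivWeierstrassPExcept_sub 0 z
  have h2 := he z
  simp only [Finset.sum_range_succ, Finset.sum_range_zero, iteratedDeriv_zero,
    PeriodPair.derivWeierstrassPExcept_zero_zero, smul_eq_mul, mul_zero, add_zero, zero_add,
    pow_one] at h2
  simp only [ZeroMemClass.coe_zero, sub_zero] at h1
  rw [a0p_wpd, ← h1, h2]
  ring

theorem a0p_nhds (h : IsLat L) (hz : z ∉ L) : ∀ᶠ w in 𝓝 z, w ∉ L := by
  obtain ⟨P, rfl⟩ := exists_pp h
  exact P.isClosed_lattice.isOpen_compl.mem_nhds hz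

theorem a0p_ne (h : IsLat L) (z : ℂ) : ¬ ∀ᶠ w in 𝓝[≠] z, wpd L w = 0 := by
  rw [← meromorphicOrderAt_eq_top_iff]
  refine MeromorphicOn.meromorphicOrderAt_ne_top_of_isPreconnected (U := Set.univ) (x := 0)
    (fun w _ => meromorphic_wpd h w) isPreconnected_univ trivial trivial ?_
  rw [Ne, meromorphicOrderAt_eq_top_iff]
  intro h0
  obtain ⟨g, hg, he⟩ := wpd_pole h
  have h1 : ∀ᶠ w in 𝓝[≠] (0 : ℂ), w ^ 4 * g w = 2 := by
    filter_upwards [h0, he, self_mem_nhdsWithin] with w a b c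
    have c' : w ≠ 0 := c
    rw [a] at b
    field_simp at b
    linear_combination -b
  have h2 : Tendsto (fun w : ℂ => w ^ 4 * g w) (𝓝[≠] 0) (𝓝 (0 ^ 4 * g 0)) :=
    ((continuousAt_id.pow 4).mul hg.continuousAt).tendsto.mono_left nhdsWithin_le_nhds
  have h3 := tendsto_nhds_unique h2 (tendsto_const_nhds.congr' (h1.mono fun _ e => e.symm))
  norm_num at h3

theorem hasDerivAt_wpd (h : IsLat L) (hz : z ∉ L) :
    HasDerivAt (wpd L) (6 * wp L z ^ 2 - g2 L / 2) z := by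
  have hA := analyticAt_wpd h hz
  have hF : AnalyticAt ℂ (fun w => deriv (wpd L) w - (6 * wp L w ^ 2 - g2 L / 2)) z :=
    hA.deriv.sub ((analyticAt_const.mul ((analyticAt_wp h hz).pow 2)).sub analyticAt_const)
  have hprod : ∀ w, w ∉ L → wpd L w * (deriv (wpd L) w - (6 * wp L w ^ 2 - g2 L / 2)) = 0 := by
    intro w hw
    have d1 := (analyticAt_wpd h hw).differentiableAt.hasDerivAt.fun_pow 2
    have d0 := hasDerivAt_wp h hw
    have d2 := (((d0.fun_pow 3).const_mul 4).fun_sub (d0.const_mul (g2 L))).sub_const (g3 L)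
    have d3 := d2.congr_of_eventuallyEq ((a0p_nhds h hw).mono fun u hu => wpd_sq h hu)
    have e := d1.unique d3
    norm_num at e
    linear_combination e / 2
  have h0 : deriv (wpd L) z - (6 * wp L z ^ 2 - g2 L / 2) = 0 := by
    rcases hA.eventually_eq_zero_or_eventually_ne_zero with h1 | h1
    · exact absurd (h1.filter_mono nhdsWithin_le_nhds) (a0p_ne h z)
    · have h2 : ∀ᶠ w in 𝓝[≠] z, deriv (wpd L) w - (6 * wp L w ^ 2 - g2 L / 2) = 0 := by
        filter_upwards [h1, (a0p_nhds h hz).filter_mono nhdsWithin_le_nhds] with w a b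
        exact (mul_eq_zero.1 (hprod w b)).resolve_left a
      exact tendsto_nhds_unique (hF.continuousAt.tendsto.mono_left nhdsWithin_le_nhds)
        (tendsto_const_nhds.congr' (h2.mono fun _ e => e.symm))
  rw [← sub_eq_zero.1 h0]
  exact hA.differentiableAt.hasDerivAt

theorem summable_wp (h : IsLat L) (z : ℂ) :
    Summable fun l : L => 1 / (z - l) ^ 2 - 1 / (l : ℂ) ^ 2 := by
  obtain ⟨P, rfl⟩ := exists_pp h
  exact (P.hasSum_weierstrassP z).summable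

theorem summable_pow (h : IsLat L) (z : ℂ) {n : ℕ} (hn : 2 < n) :
    Summable fun l : L => (((l : ℂ) - z) ^ n)⁻¹ := by
  obtain ⟨P, rfl⟩ := exists_pp h
  exact (P.hasSum_sumInvPow z hn).summable

end Pool.Agent.P.MP_20768c_nt.Tz.Cv

end

-- part Cv.YD
section

set_option autoImplicit false

open NumberField IsDedekindDomain

namespace Pool.Agent.P.MP_20768c_nt.Tz.Cv

noncomputable section

/-! ### The Galois side over the rationals -/

variable {K : Type} [Field K] [NumberField K]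

abbrev GQ (K : Type) [Field K] [NumberField K] : Type :=
  AlgebraicClosure K ≃ₐ[ℚ] AlgebraicClosure K

/-- the automorphisms that fix `N` and the roots of unity of `3`-power order -/
def Hq (N : Set (AlgebraicClosure K)) : Subgroup (GQ K) where
  carrier := {g | (∀ x ∈ N, g x = x) ∧ ∀ (x : AlgebraicClosure K) (n : ℕ), x ^ 3 ^ n = 1 → g x = x}
  one_mem' := ⟨fun _ _ => rfl, fun _ _ _ => rfl⟩
  mul_mem' := fun {g h} hg hh =>
    ⟨fun x hx => by rw [AlgEquiv.mul_apply, hh.1 x hx, hg.1 x hx],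
      fun x n hx => by rw [AlgEquiv.mul_apply, hh.2 x n hx, hg.2 x n hx]⟩
  inv_mem' := fun {g} hg =>
    ⟨fun x hx => by rw [AlgEquiv.aut_inv, AlgEquiv.symm_apply_eq, hg.1 x hx],
      fun x n hx => by rw [AlgEquiv.aut_inv, AlgEquiv.symm_apply_eq, hg.2 x n hx]⟩

def InQ (V : ValuationSubring (AlgebraicClosure K)) (g : GQ K) : Prop :=
  ∀ x, V.valuation x ≤ 1 → V.valuation (g x - x) < 1

/-- continuous cubic characters of `H` unramified away from `C` and at the places in `A` -/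
def HQ (H : Subgroup (GQ K)) (C : ℕ) (A : Set (ValuationSubring (AlgebraicClosure K))) :
    Set (H →* (AlgebraicClosure K)ˣ) :=
  {ψ | (∃ T : Finset (AlgebraicClosure K), ∀ g : H, (∀ x ∈ T, g.1 x = x) → ψ g = 1) ∧
    (∀ g, ψ g ^ 3 = 1) ∧ ∀ V : ValuationSubring (AlgebraicClosure K),
      (V.valuation C = 1 ∨ V ∈ A) → ∀ g : H, InQ V g.1 → ψ g = 1}

def FinQ (H : Subgroup (GQ K)) : Prop :=
  ∀ C : ℕ, C ≠ 0 → 3 ∣ C → ∃ A, A.Finite ∧ (HQ H C A).Finite

end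

end Pool.Agent.P.MP_20768c_nt.Tz.Cv

end

-- part Cv.Y1
section

set_option autoImplicit false

open NumberField IsDedekindDomain

namespace Pool.Agent.P.MP_20768c_nt.Tz.Cv

theorem y1_dvd {F : Type} [Field F] (V : ValuationSubring F) {a b : ℕ} (h : a ∣ b)
    (hb : V.valuation b = 1) : V.valuation a = 1 := by
  obtain ⟨c, rfl⟩ := h
  have ha : V.valuation a ≤ 1 := V.valuation_le_one ⟨a, natCast_mem V a⟩
  have hc : V.valuation c ≤ 1 := V.valuation_le_one ⟨c, natCast_mem V c⟩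
  rw [Nat.cast_mul, map_mul] at hb
  exact le_antisymm ha (hb.symm.le.trans (mul_le_of_le_one_right' hc))

theorem y1_int {F : Type} [Field F] (V : ValuationSubring F) {x : F} (h : IsIntegral ℤ x) :
    V.valuation x ≤ 1 := by
  have h1 : IsIntegral V x := h.tower_top
  obtain ⟨y, rfl⟩ := IsIntegrallyClosed.isIntegral_iff.1 h1
  exact V.valuation_le_one y

theorem y1_nat {F : Type} [Field F] [CharZero F] {x : F} (hx : IsAlgebraic ℚ x) :
    ∃ C : ℕ, C ≠ 0 ∧ ∀ V : ValuationSubring F, V.valuation C = 1 → x ≠ 0 → V.valuation x = 1 := by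
  obtain ⟨y, y0, hy⟩ := ((IsFractionRing.isAlgebraic_iff ℤ ℚ F).2 hx).exists_integral_multiple
  obtain ⟨z, z0, hz⟩ := ((IsFractionRing.isAlgebraic_iff ℤ ℚ F).2 hx.inv).exists_integral_multiple
  have key : ∀ (V : ValuationSubring F) (n : ℤ) (a : F), IsIntegral ℤ (n • a) →
      V.valuation (n.natAbs : F) = 1 → V.valuation a ≤ 1 := by
    intro V n a ha hv
    have h1 := y1_int V ha
    have h2 : V.valuation (n : F) = 1 := by
      rcases Int.natAbs_eq n with e | e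
      · rw [e, Int.cast_natCast, hv]
      · rw [e, Int.cast_neg, Int.cast_natCast, Valuation.map_neg, hv]
    rwa [zsmul_eq_mul, map_mul, h2, one_mul] at h1
  refine ⟨y.natAbs * z.natAbs, mul_ne_zero (Int.natAbs_ne_zero.2 y0) (Int.natAbs_ne_zero.2 z0),
    fun V hV h0 => le_antisymm (key V y x hy (y1_dvd _ (dvd_mul_right _ _) hV)) ?_⟩
  have h1 := key V z x⁻¹ hz (y1_dvd _ (dvd_mul_left _ _) hV)
  rw [map_inv₀] at h1
  exact (inv_le_one₀ (zero_lt_iff.2 ((Valuation.ne_zero_iff _).2 h0))).1 h1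

theorem y1_fin {F : Type} [Field F] [CharZero F] {T : Set F} (hT : T.Finite)
    (h : ∀ x : F, IsAlgebraic ℚ x) : ∃ C : ℕ, C ≠ 0 ∧ ∀ V : ValuationSubring F,
      V.valuation C = 1 → ∀ x ∈ T, x ≠ 0 → V.valuation x = 1 := by
  induction T, hT using Set.Finite.induction_on with
  | empty => exact ⟨1, one_ne_zero, fun _ _ _ hx => absurd hx (Set.notMem_empty _)⟩
  | @insert a T _ _ ih =>
    obtain ⟨C, h1, h2⟩ := ih
    obtain ⟨D, k1, k2⟩ := y1_nat (h a)
    refine ⟨C * D, mul_ne_zero h1 k1, fun V hV x hx => ?_⟩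
    rcases hx with rfl | hx
    · exact k2 V (y1_dvd _ (dvd_mul_left D C) hV)
    · exact h2 V (y1_dvd _ (dvd_mul_right C D) hV) x hx

/-- an invariant character of a subgroup of index three that kills `g₀ ^ 3` extends -/
theorem y1_ext {G M : Type} [Group G] [CommGroup M] {H₀ H₁ : Subgroup G} (hle : H₁ ≤ H₀)
    (ν : H₀ →* Multiplicative (ZMod 3)) (hν : ∀ g : H₀, g.1 ∈ H₁ ↔ ν g = 1) {g₀ : H₀}
    (h0 : ν g₀ = Multiplicative.ofAdd 1) (ψ : H₁ →* M)
    (hc : ∀ a b : H₁, a.1 * g₀ = g₀ * b.1 → ψ a = ψ b)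
    (hs : ∀ a : H₁, a.1 = g₀ ^ 3 → ψ a = 1) : ∃ χ : H₀ →* M,
      ∀ (a : H₀) (b : H₁) (i : ℕ), a.1 = b.1 * g₀ ^ i → χ a = ψ b := by
  have hp : ∀ i : ℕ, ν (g₀ ^ i) = Multiplicative.ofAdd (i : ZMod 3) := fun i => by
    rw [map_pow, h0, ← ofAdd_nsmul, nsmul_one]
  have hm : ∀ a : H₀, a.1 * (g₀.1 ^ (ν a).toAdd.val)⁻¹ ∈ H₁ := fun a =>
    (hν (a * (g₀ ^ (ν a).toAdd.val)⁻¹)).2 (by
      rw [map_mul, map_inv, hp, ZMod.natCast_zmod_val, ofAdd_toAdd, mul_inv_cancel])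
  have hn : ∀ (a : H₀) (b : H₁), a.1 * b.1 * a.1⁻¹ ∈ H₁ := fun a b =>
    (hν (a * ⟨b.1, hle b.2⟩ * a⁻¹)).2 (by
      rw [map_mul, map_mul, (hν ⟨b.1, hle b.2⟩).1 b.2, mul_one, map_inv, mul_inv_cancel])
  have h3 : g₀.1 ^ 3 ∈ H₁ := (hν (g₀ ^ 3)).2 (by rw [hp]; rfl)
  have hi : ∀ (i : ℕ) (a b : H₁), a.1 * g₀ ^ i = g₀ ^ i * b.1 → ψ a = ψ b := fun i => by
    induction i with
    | zero => exact fun a b e => congrArg ψ (Subtype.ext (by simpa using e))
    | succ i ih =>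
      intro a b e
      rw [← hc ⟨_, hn g₀ b⟩ b (by simp)]
      refine ih a _ (mul_right_cancel (b := g₀.1) ?_)
      rw [mul_assoc, ← pow_succ, e, pow_succ]
      simp [mul_assoc]
  have e1 : ∀ (a : H₀) (b : H₁) (i : ℕ), a.1 = b.1 * g₀ ^ i → ψ ⟨_, hm a⟩ = ψ b := by
    intro a b i e
    have k1 : (ν a).toAdd.val = i % 3 := by
      rw [show a = ⟨b.1, hle b.2⟩ * g₀ ^ i from Subtype.ext e, map_mul,
        (hν ⟨b.1, hle b.2⟩).1 b.2, one_mul, hp, toAdd_ofAdd, ZMod.val_natCast]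
    have k2 : (⟨_, hm a⟩ : H₁) = b * ⟨_, h3⟩ ^ (i / 3) := Subtype.ext (by
      change a.1 * _ = b.1 * (g₀.1 ^ 3) ^ (i / 3)
      rw [k1, e, mul_assoc, ← pow_mul, mul_right_inj, mul_inv_eq_iff_eq_mul, ← pow_add,
        Nat.div_add_mod])
    rw [k2, map_mul, map_pow, hs ⟨_, h3⟩ rfl, one_pow, mul_one]
  refine ⟨MonoidHom.mk' (fun a => ψ ⟨_, hm a⟩) fun a b => ?_, e1⟩
  rw [← hi (ν a).toAdd.val ⟨_, hn (g₀ ^ (ν a).toAdd.val) ⟨_, hm b⟩⟩ ⟨_, hm b⟩ (by simp), ← map_mul]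
  refine e1 _ _ ((ν a).toAdd.val + (ν b).toAdd.val) ?_
  simp [mul_assoc, pow_add]

variable {K : Type} [Field K] [NumberField K]

theorem y1_lt (V : ValuationSubring (AlgebraicClosure K)) (a : GQ K) (z : AlgebraicClosure K) :
    (V.comap (a : AlgebraicClosure K →+* AlgebraicClosure K)).valuation z < 1 ↔
      V.valuation (a z) < 1 := by
  rw [← ValuationSubring.mem_nonunits_iff, ← ValuationSubring.mem_nonunits_iff,
    ValuationSubring.mem_nonunits_iff_or, ValuationSubring.mem_nonunits_iff_or,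
    ValuationSubring.mem_comap, RingHom.coe_coe, map_inv₀, map_eq_zero]

theorem y1_cast (V : ValuationSubring (AlgebraicClosure K)) (a : GQ K) {C : ℕ}
    (h : V.valuation C = 1) :
    (V.comap (a : AlgebraicClosure K →+* AlgebraicClosure K)).valuation C = 1 := by
  refine le_antisymm ((ValuationSubring.valuation_le_one_iff _ _).2 (natCast_mem _ C))
    (not_lt.1 ?_)
  rw [y1_lt, map_natCast, h]
  exact lt_irrefl _

theorem y1_conj (V : ValuationSubring (AlgebraicClosure K)) {a g g' : GQ K}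
    (e : g' * a = a * g) :
    InQ (V.comap (a : AlgebraicClosure K →+* AlgebraicClosure K)) g ↔ InQ V g' := by
  have e' : ∀ x, g' (a x) = a (g x) := fun x => by
    rw [← AlgEquiv.mul_apply, e, AlgEquiv.mul_apply]
  refine ⟨fun h y hy => ?_, fun h x hx => ?_⟩
  · obtain ⟨x, rfl⟩ := a.surjective y
    rw [e', ← map_sub, ← y1_lt]
    refine h x ?_
    rw [ValuationSubring.valuation_le_one_iff] at hy ⊢
    exact hy
  · rw [y1_lt, map_sub, ← e']
    refine h _ ?_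
    rw [ValuationSubring.valuation_le_one_iff] at hx ⊢
    exact hx

theorem y1_mul {V : ValuationSubring (AlgebraicClosure K)} {a b : GQ K} (ha : InQ V a)
    (hb : InQ V b) : InQ V (a * b) := fun x hx => by
  have h1 : V.valuation (b x) ≤ 1 := by
    rw [show b x = (b x - x) + x by ring]
    exact V.valuation.map_add_le (hb x hx).le hx
  rw [show (a * b) x - x = (a (b x) - b x) + (b x - x) by rw [AlgEquiv.mul_apply]; ring]
  exact V.valuation.map_add_lt (ha _ h1) (hb x hx)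

theorem y1_inv {V : ValuationSubring (AlgebraicClosure K)} {a : GQ K} (ha : InQ V a) :
    InQ V a⁻¹ := fun x hx => by
  obtain ⟨y, rfl⟩ := a.surjective x
  have e : a⁻¹ (a y) = y := by rw [← AlgEquiv.mul_apply, inv_mul_cancel, AlgEquiv.one_apply]
  rw [e, Valuation.map_sub_swap]
  refine ha y (not_lt.1 fun h => ?_)
  have y0 : y ≠ 0 := fun h0 => by simp [h0] at h
  have h1 : V.valuation y⁻¹ < 1 := by
    rw [map_inv₀]
    exact inv_lt_one_of_one_lt₀ h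
  have h3 : V.valuation (a y⁻¹) < 1 := by
    rw [show a y⁻¹ = (a y⁻¹ - y⁻¹) + y⁻¹ by ring]
    exact V.valuation.map_add_lt (ha _ h1.le) h1
  have h4 : V.valuation (a y) * V.valuation (a y⁻¹) = 1 := by
    rw [← map_mul, ← map_mul, mul_inv_cancel₀ y0, map_one, map_one]
  exact ((mul_le_of_le_one_left' hx).trans_lt h3).ne h4

theorem unr_T (T : Finset (AlgebraicClosure K)) : ∃ C : ℕ, C ≠ 0 ∧
    ∀ (V : ValuationSubring (AlgebraicClosure K)) (g : GQ K), V.valuation C = 1 → InQ V g →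
      ∀ x ∈ T, g x = x := by
  have halg : ∀ x : AlgebraicClosure K, IsAlgebraic ℚ x := fun x =>
    (Algebra.IsAlgebraic.trans ℚ K (AlgebraicClosure K)).isAlgebraic x
  have hS : ((T : Set (AlgebraicClosure K)) ∪ ⋃ x ∈ (T : Set (AlgebraicClosure K)),
      (fun y => y - x) '' (minpoly ℚ x).rootSet (AlgebraicClosure K)).Finite :=
    T.finite_toSet.union (T.finite_toSet.biUnion fun x _ => (Polynomial.rootSet_finite _ _).image _)
  obtain ⟨C, h0, hC⟩ := y1_fin hS halg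
  refine ⟨C, h0, fun V g hV hg x hx => ?_⟩
  by_contra hne
  have x0 : x ≠ 0 := fun e => hne (by rw [e, map_zero])
  refine (hg x (hC V hV x (Or.inl hx) x0).le).ne (hC V hV _ (Or.inr ?_) (sub_ne_zero.2 hne))
  refine Set.mem_biUnion hx ⟨g x, ?_, rfl⟩
  rw [Polynomial.mem_rootSet]
  exact ⟨minpoly.ne_zero (halg x).isIntegral, by
    rw [Polynomial.aeval_algHom_apply, minpoly.aeval, map_zero]⟩

theorem fin_fix {B : Type} [CommGroup B] (h3 : ∀ x : B, x ^ 3 = 1) (t : B →* B)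
    (ht : ∀ x, t (t (t x)) = x) (h : {x | t x = x}.Finite) : Finite B := by
  let D : B →* B := t / MonoidHom.id B
  have hD : ∀ x, D x = t x / x := fun _ => rfl
  have h1 : ∀ S : Set B, S.Finite → (D ⁻¹' S).Finite := fun S hS => hS.preimage' fun b _ => by
    rcases (D ⁻¹' {b}).eq_empty_or_nonempty with e | ⟨x, hx⟩
    · exact e ▸ Set.finite_empty
    · refine (h.image (x * ·)).subset fun y hy => ⟨x⁻¹ * y, ?_, mul_inv_cancel_left _ _⟩
      have : D (x⁻¹ * y) = 1 := by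
        rw [map_mul, map_inv, show D x = b from hx, show D y = b from hy, inv_mul_cancel]
      exact div_eq_one.1 this
  refine Set.finite_univ_iff.1 ((h1 _ (h1 _ (h1 _ (Set.finite_singleton 1)))).subset fun x _ => ?_)
  change D (D (D x)) = 1
  have e : D (D (D x)) = t x ^ 3 / t (t x) ^ 3 := by
    simp only [hD, map_div, ht]
    simp only [div_eq_mul_inv, mul_inv, inv_inv, pow_succ, pow_zero, one_mul]
    apply Additive.ofMul.injective
    simp only [ofMul_mul, ofMul_inv]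
    abel
  rw [e, h3, h3, div_one]

/-- `HQ` as a group -/
def y1B (H : Subgroup (GQ K)) (C : ℕ) (A : Set (ValuationSubring (AlgebraicClosure K))) :
    Subgroup (H →* (AlgebraicClosure K)ˣ) where
  carrier := HQ H C A
  one_mem' := ⟨⟨∅, fun _ _ => rfl⟩, fun _ => one_pow _, fun _ _ _ _ => rfl⟩
  mul_mem' := fun {ψ φ} hψ hφ => by
    classical
    obtain ⟨⟨T, h1⟩, h3, h2⟩ := hψ
    obtain ⟨⟨S, k1⟩, k3, k2⟩ := hφ
    refine ⟨⟨T ∪ S, fun g hg => ?_⟩, fun g => ?_, fun V hV g hg => ?_⟩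
    · rw [MonoidHom.mul_apply, h1 g fun x hx => hg x (Finset.mem_union_left _ hx),
        k1 g fun x hx => hg x (Finset.mem_union_right _ hx), mul_one]
    · rw [MonoidHom.mul_apply, mul_pow, h3, k3, mul_one]
    · rw [MonoidHom.mul_apply, h2 V hV g hg, k2 V hV g hg, mul_one]
  inv_mem' := fun {ψ} hψ => by
    obtain ⟨⟨T, h1⟩, h3, h2⟩ := hψ
    refine ⟨⟨T, fun g hg => ?_⟩, fun g => ?_, fun V hV g hg => ?_⟩
    · rw [MonoidHom.inv_apply, h1 g hg, inv_one]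
    · rw [MonoidHom.inv_apply, inv_pow, h3, inv_one]
    · rw [MonoidHom.inv_apply, h2 V hV g hg, inv_one]

theorem y1_pow {V : ValuationSubring (AlgebraicClosure K)} {a : GQ K} (ha : InQ V a) (i : ℕ) :
    InQ V (a ^ i) := by
  induction i with
  | zero => exact fun x _ => by simp
  | succ i ih => exact pow_succ a i ▸ y1_mul ih ha

theorem y1_gen {G : Type} [Group G] (ν : G →* Multiplicative (ZMod 3)) {g : G} (h : ν g ≠ 1) :
    ∃ i : ℕ, ν (g ^ i) = Multiplicative.ofAdd 1 := by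
  have key : ∀ x : Multiplicative (ZMod 3), x ≠ 1 →
      x ^ 1 = Multiplicative.ofAdd 1 ∨ x ^ 2 = Multiplicative.ofAdd 1 := by decide
  rcases key _ h with e | e
  exacts [⟨1, by rw [map_pow, e]⟩, ⟨2, by rw [map_pow, e]⟩]

theorem y1_nrm {G Q : Type} [Group G] [Group Q] {H₀ H₁ : Subgroup G} (hle : H₁ ≤ H₀) (ν : H₀ →* Q)
    (hν : ∀ g : H₀, g.1 ∈ H₁ ↔ ν g = 1) (a : H₀) (b : H₁) : a.1 * (b.1 * a.1⁻¹) ∈ H₁ :=
  (hν (a * (⟨b.1, hle b.2⟩ * a⁻¹))).2 (by
    rw [map_mul, map_mul, (hν ⟨b.1, hle b.2⟩).1 b.2, one_mul, map_inv, mul_inv_cancel])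

theorem asc_three {H₀ H₁ : Subgroup (GQ K)} (hle : H₁ ≤ H₀)
    (ν : H₀ →* Multiplicative (ZMod 3)) (hν : ∀ g : H₀, g.1 ∈ H₁ ↔ ν g = 1)
    (T : Finset (AlgebraicClosure K)) (hT : ∀ g ∈ H₀, (∀ x ∈ T, g x = x) → g ∈ H₁)
    (h : FinQ H₀) : FinQ H₁ := by
  classical
  by_cases hge : H₀ ≤ H₁
  · exact le_antisymm hge hle ▸ h
  obtain ⟨g₀, h0⟩ : ∃ g₀, ν g₀ = Multiplicative.ofAdd 1 := by
    obtain ⟨g, k0, k1⟩ := SetLike.not_le_iff_exists.1 hge
    obtain ⟨i, hi⟩ := y1_gen ν (g := ⟨g, k0⟩) fun e => k1 ((hν _).2 e)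
    exact ⟨_, hi⟩
  intro C hC hE
  obtain ⟨C₁, hC₁, hu⟩ := unr_T T
  obtain ⟨A, hA, hfin⟩ := h (C * C₁) (mul_ne_zero hC hC₁) (hE.mul_right _)
  have hsq : g₀.1 ^ 3 ∈ H₁ := by
    rw [← SubgroupClass.coe_pow, hν, map_pow, h0]
    decide
  have hn := y1_nrm hle ν hν
  obtain ⟨c, hc⟩ : ∃ c : H₁ →* H₁, ∀ b : H₁, (c b).1 = g₀.1⁻¹ * (b.1 * g₀) :=
    ⟨MonoidHom.mk' (fun b => ⟨_, hn g₀⁻¹ b⟩) fun a b => Subtype.ext (by simp [mul_assoc]),
      fun b => by simp⟩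
  have hcc : ∀ (ψ : H₁ →* (AlgebraicClosure K)ˣ) (b : H₁), ψ (c (c (c b))) = ψ b := fun ψ b => by
    have : c (c (c b)) = (⟨_, hsq⟩ : H₁)⁻¹ * b * ⟨_, hsq⟩ :=
      Subtype.ext (by simp [hc, mul_assoc, pow_succ])
    rw [this, map_mul, map_mul, map_inv, mul_right_comm, inv_mul_cancel, one_mul]
  let f : GQ K → ValuationSubring (AlgebraicClosure K) → ValuationSubring (AlgebraicClosure K) :=
    fun a V => V.comap (a : AlgebraicClosure K →+* AlgebraicClosure K)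
  let A' := A ∪ (f g₀ '' A ∪ f (g₀ * g₀) '' A)
  refine ⟨A', hA.union ((hA.image _).union (hA.image _)), ?_⟩
  let B := y1B H₁ (C * C₁) A'
  have hst : ∀ ψ ∈ B, ψ.comp c ∈ B := by
    rintro ψ ⟨⟨S, k1⟩, k3, k2⟩
    refine ⟨⟨S.image g₀.1, fun g hg => k1 (c g) fun x hx => ?_⟩, fun g => k3 _,
      fun V hV g hg => ?_⟩
    · rw [hc, AlgEquiv.mul_apply, AlgEquiv.mul_apply, hg _ (Finset.mem_image_of_mem _ hx),
        ← AlgEquiv.mul_apply, inv_mul_cancel, AlgEquiv.one_apply]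
    · have hW := (y1_conj V (a := g₀) (g := (c g).1) (g' := g.1) (by simp [hc])).2 hg
      rcases hV with hV | hV | ⟨U, hU, rfl⟩ | ⟨U, hU, rfl⟩
      · exact k2 _ (Or.inl (y1_cast V g₀ hV)) _ hW
      · exact k2 _ (Or.inr (Or.inr (Or.inl ⟨V, hV, rfl⟩))) _ hW
      · exact k2 _ (Or.inr (Or.inr (Or.inr ⟨U, hU, rfl⟩))) (c g)
          ((y1_conj U (g' := g₀.1 * (g.1 * g₀.1⁻¹)) (by simp [hc, mul_assoc])).2
            ((y1_conj U (by simp [mul_assoc])).1 hg))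
      · have h3 := k2 U (Or.inr (Or.inl hU)) ⟨_, hn (g₀ * g₀) g⟩
          ((y1_conj U (by simp [mul_assoc])).1 hg)
        rw [← hcc] at h3
        rw [← h3, MonoidHom.comp_apply]
        exact congrArg (fun b => ψ (c b)) (Subtype.ext (by simp [hc, mul_assoc]))
  let t : B →* B := MonoidHom.mk' (fun ψ => ⟨_, hst ψ.1 ψ.2⟩) fun _ _ => rfl
  have ht : ∀ (ψ : B) b, (t ψ).1 b = ψ.1 (c b) := fun _ _ => rfl
  have hB : Finite B := by
    refine fin_fix (fun ψ => Subtype.ext (MonoidHom.ext fun b => by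
      rw [SubgroupClass.coe_pow, MonoidHom.pow_apply]
      exact ψ.2.2.1 b)) t
      (fun ψ => Subtype.ext (MonoidHom.ext fun b => by rw [ht, ht, ht, hcc])) ?_
    have hch : ∀ V : A, ∃ b : H₁, (∃ g : H₀, ν g ≠ 1 ∧ InQ V.1 g) → InQ V.1 (b.1 * g₀) := fun V => by
      by_cases hV : ∃ g : H₀, ν g ≠ 1 ∧ InQ V.1 g
      · obtain ⟨g, k1, k2⟩ := hV
        obtain ⟨i, hi⟩ := y1_gen ν k1
        exact ⟨⟨_, (hν (g ^ i * g₀⁻¹)).2 (by rw [map_mul, map_inv, hi, h0, mul_inv_cancel])⟩,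
          fun _ => by simpa using y1_pow k2 i⟩
      · exact ⟨1, fun k => absurd k hV⟩
    choose b hb using hch
    have := hA.to_subtype
    let r : B → H₁ → rootsOfUnity 3 (AlgebraicClosure K) := fun ψ a => ⟨ψ.1 a, ψ.2.2.1 a⟩
    refine Set.Finite.of_finite_fibers
      (fun ψ : B => (r ψ ⟨_, hsq⟩, fun V : A => r ψ (b V))) (Set.toFinite _) ?_
    rintro _ ⟨ψ₀, hψ₀, rfl⟩
    refine Set.Finite.of_finite_image (f := fun ψ : B => ψ.1) ?_ Subtype.val_injective.injOn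
    refine (hfin.image fun χ => ψ₀.1 * χ.comp (Subgroup.inclusion hle)).subset ?_
    rintro _ ⟨ψ, ⟨hψ, hv⟩, rfl⟩
    have hv1 : ψ.1 ⟨_, hsq⟩ = ψ₀.1 ⟨_, hsq⟩ := congrArg (fun x => x.1.1) hv
    have hv2 : ∀ V : A, ψ.1 (b V) = ψ₀.1 (b V) := fun V => congrArg (fun x => (x.2 V).1) hv
    have hf : t (ψ₀⁻¹ * ψ) = ψ₀⁻¹ * ψ := by rw [map_mul, map_inv, hψ, hψ₀]
    have hap : ∀ a : H₁, (ψ₀⁻¹ * ψ).1 a = (ψ₀.1 a)⁻¹ * ψ.1 a := fun _ => rfl
    obtain ⟨χ, e1⟩ := y1_ext hle ν hν h0 (ψ₀⁻¹ * ψ).1 (fun a a' e => by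
      have h3 : c a = a' := Subtype.ext (by rw [hc, e, inv_mul_cancel_left])
      rw [← h3]
      exact (DFunLike.congr_fun (congrArg Subtype.val hf) a).symm) (fun a e => by
      obtain rfl : a = ⟨_, hsq⟩ := Subtype.ext e
      rw [hap, hv1, inv_mul_cancel])
    have e0 : ∀ (a : H₀) (h : a.1 ∈ H₁), χ a = (ψ₀⁻¹ * ψ).1 ⟨a.1, h⟩ := fun a h =>
      e1 a _ 0 (by simp)
    have hm : ∀ a g : H₀, ν g = Multiplicative.ofAdd 1 →
        (a * (g ^ (ν a).toAdd.val)⁻¹).1 ∈ H₁ := fun a g hg => (hν _).2 (by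
      rw [map_mul, map_inv, map_pow, hg, ← ofAdd_nsmul, nsmul_one, ZMod.natCast_zmod_val,
        ofAdd_toAdd, mul_inv_cancel])
    obtain ⟨⟨S, k1⟩, k3, k2⟩ := (ψ₀⁻¹ * ψ).2
    refine ⟨χ, ⟨⟨T ∪ S, fun g hg => ?_⟩, fun g => ?_, fun V hV g hg => ?_⟩,
      MonoidHom.ext fun a => ?_⟩
    · have h3 := hT g.1 g.2 fun x hx => hg x (Finset.mem_union_left _ hx)
      rw [e0 g h3]
      exact k1 _ fun x hx => hg x (Finset.mem_union_right _ hx)
    · rw [e1 g ⟨_, hm g g₀ h0⟩ (ν g).toAdd.val (by simp), k3]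
    · have hV' : V.valuation ((C * C₁ : ℕ) : AlgebraicClosure K) = 1 ∨ V ∈ A' :=
        hV.imp id Or.inl
      by_cases h3 : g.1 ∈ H₁
      · rw [e0 g h3]
        exact k2 V hV' _ hg
      rcases hV with hV | hV
      · exact absurd (hT g.1 g.2 (hu V g.1 (y1_dvd V (dvd_mul_left _ _) hV) hg)) h3
      · have h4 := hb ⟨V, hV⟩ ⟨g, fun e => h3 ((hν _).2 e), hg⟩
        let u : H₀ := ⟨(b ⟨V, hV⟩).1, hle (b _).2⟩ * g₀
        have h5 : ν u = Multiplicative.ofAdd 1 := by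
          rw [map_mul, (hν _).1 (b _).2, one_mul, h0]
        have h6 : χ u = 1 := by
          rw [e1 u (b ⟨V, hV⟩) 1 (by simp [u]), hap, hv2, inv_mul_cancel]
        have h7 := (e0 _ (hm g u h5)).trans
          (k2 V hV' _ (y1_mul hg (y1_inv (y1_pow h4 (ν g).toAdd.val))))
        rwa [map_mul, map_inv, map_pow, h6, one_pow, inv_one, mul_one] at h7
    · rw [MonoidHom.mul_apply, MonoidHom.comp_apply, e0 _ a.2]
      exact mul_inv_cancel_left _ _
  refine (Set.toFinite (B : Set (H₁ →* (AlgebraicClosure K)ˣ))).subset fun ψ hψ =>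
    ⟨hψ.1, hψ.2.1, fun V hV => hψ.2.2 V ?_⟩
  exact hV.imp (y1_dvd V (dvd_mul_right _ _)) id

end Pool.Agent.P.MP_20768c_nt.Tz.Cv

end

-- part Cv.Y3
section

set_option autoImplicit false

open NumberField IsDedekindDomain Filter Topology

namespace Pool.Agent.P.MP_20768c_nt.Tz.Cv

theorem exists_p3 {k Ω : Type} [Field k] [Field Ω] [Algebra k Ω] (N : IntermediateField k Ω)
    [FiniteDimensional k N] [IsAbelianGalois k N] : ∃ N₀ : IntermediateField k Ω, N₀ ≤ N ∧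
      IsGalois k N₀ ∧ (∀ g h : N₀ ≃ₐ[k] N₀, g * h = h * g) ∧ ¬ 3 ∣ Module.finrank k N₀ ∧
      ∀ g : N ≃ₐ[k] N, (∀ x : N, (x : Ω) ∈ N₀ → g x = x) → ∃ j : ℕ, g ^ 3 ^ j = 1 := by
  have hp : Fact (Nat.Prime 3) := ⟨Nat.prime_three⟩
  obtain ⟨P⟩ : Nonempty (Sylow 3 (N ≃ₐ[k] N)) := inferInstance
  let F : IntermediateField k N := IntermediateField.fixedField (P : Subgroup (N ≃ₐ[k] N))
  have hF : IsAbelianGalois k F := IsAbelianGalois.tower_bot k F N
  let e := IntermediateField.liftAlgEquiv F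
  have hA : IsAbelianGalois k (IntermediateField.lift F) := IsAbelianGalois.of_algHom e.symm.toAlgHom
  refine ⟨IntermediateField.lift F, IntermediateField.lift_le F, hA.toIsGalois,
    fun g h => hA.toIsMulCommutative.is_comm.comm g h, ?_, fun g hg => ?_⟩
  · rw [← e.toLinearEquiv.finrank_eq]
    have h1 : Module.finrank F N = Nat.card (P : Subgroup (N ≃ₐ[k] N)) :=
      IntermediateField.finrank_fixedField_eq_card _
    have h2 := Module.finrank_mul_finrank k F N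
    have h3 := (P : Subgroup (N ≃ₐ[k] N)).card_mul_index
    rw [IsGalois.card_aut_eq_finrank, ← h2, h1, mul_comm] at h3
    have h4 : (P : Subgroup (N ≃ₐ[k] N)).index = Module.finrank k F :=
      Nat.eq_of_mul_eq_mul_right Nat.card_pos h3
    rw [← h4]
    exact P.not_dvd_index
  · have h1 : g ∈ (P : Subgroup (N ≃ₐ[k] N)) := by
      rw [← IntermediateField.fixingSubgroup_fixedField (P : Subgroup (N ≃ₐ[k] N)),
        IntermediateField.mem_fixingSubgroup_iff]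
      exact fun x hx => hg x ((IntermediateField.mem_lift x).2 hx)
    obtain ⟨j, hj⟩ := P.isPGroup' ⟨g, h1⟩
    exact ⟨j, congrArg Subtype.val hj⟩

theorem y3_T {K : Type} [Field K] {H : Subgroup (Gal K)} {R : Type} [Group R] (ψ : H →* R)
    (hψ : IsLocallyConstant ψ) :
    ∃ T : Finset (AlgebraicClosure K), ∀ g : H, (∀ x ∈ T, g.1 x = x) → ψ g = 1 := by
  classical
  have h1 : ψ ⁻¹' {1} ∈ 𝓝 (1 : H) := (hψ {1}).mem_nhds (map_one ψ)
  obtain ⟨U, hU, hsub⟩ := (mem_nhds_subtype _ _ _).1 h1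
  obtain ⟨E, hE, hEU⟩ := (krullTopology_mem_nhds_one_iff K (AlgebraicClosure K) U).1 hU
  have hfr : Module.Free K E := Module.Free.of_divisionRing _ _
  let b := Module.finBasis K E
  refine ⟨Finset.univ.image fun i => ((b i : E) : AlgebraicClosure K), fun g hg => hsub (hEU ?_)⟩
  refine (IntermediateField.mem_fixingSubgroup_iff E g.1).2 fun x hx => ?_
  have h2 : x = ∑ i, b.repr ⟨x, hx⟩ i • ((b i : E) : AlgebraicClosure K) := by
    have := congrArg (fun y : E => (y : AlgebraicClosure K)) (b.sum_repr ⟨x, hx⟩)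
    simp only [IntermediateField.coe_sum, IntermediateField.coe_smul] at this
    exact this.symm
  rw [h2, map_sum]
  refine Finset.sum_congr rfl fun i _ => ?_
  rw [map_smul, hg _ (Finset.mem_image_of_mem _ (Finset.mem_univ i))]

theorem hh_down {K : Type} [Field K] [NumberField K] {L : Set (AlgebraicClosure K)}
    (hK : ∀ x : K, algebraMap K (AlgebraicClosure K) x ∈ L) (h : FinQ (Hq L)) (C : ℕ)
    (hC : C ≠ 0) (h3 : 3 ∣ C) : ∃ A, A.Finite ∧ (HH L C A).Finite := by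
  obtain ⟨A, hA, hf⟩ := h C hC h3
  let j : Hq L →* Hs L := MonoidHom.mk'
    (fun g => ⟨AlgEquiv.ofRingEquiv (f := g.1.toRingEquiv) fun x => g.2.1 _ (hK x), g.2⟩)
    fun g h => Subtype.ext (AlgEquiv.ext fun x => rfl)
  have hj : Function.Surjective j := fun g =>
    ⟨⟨g.1.restrictScalars ℚ, g.2⟩, Subtype.ext (AlgEquiv.ext fun x => rfl)⟩
  refine ⟨A, hA, Set.Finite.of_finite_image (f := fun ψ => ψ.comp j) (hf.subset ?_) ?_⟩
  · rintro _ ⟨ψ, ⟨h1, h4, h5⟩, rfl⟩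
    obtain ⟨T, hT⟩ := y3_T ψ h1
    exact ⟨⟨T, fun g hg => hT (j g) hg⟩, fun g => h4 _, fun V hV g hg => h5 V hV (j g) hg⟩
  · intro ψ _ ψ' _ e
    exact (MonoidHom.cancel_right hj).1 e

end Pool.Agent.P.MP_20768c_nt.Tz.Cv

end

-- part Cv.A0
section

set_option autoImplicit false

open Complex NumberField IsDedekindDomain Filter Topology
open UpperHalfPlane hiding I
open scoped ComplexConjugate Real MatrixGroups

namespace Pool.Agent.P.MP_20768c_nt.Tz.Cv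

open Pool.Agent.P.MP_20768c_nt.Tz.EQ (Lt pr sp IsLat jL qN)

variable {L M : Lt} {z x : ℂ}

theorem mul_mem_sc (hx : x ≠ 0) : x * z ∈ pr x * L ↔ z ∈ L := by
  rw [Pool.Agent.P.MP_20768c_nt.Tz.EQ.mem_pr_mul]
  constructor
  · rintro ⟨w, hw, e⟩
    rwa [← mul_left_cancel₀ hx e]
  · exact fun h => ⟨z, h, rfl⟩

theorem tsum_sc (L : Lt) (hx : x ≠ 0) (f : ℂ → ℂ) :
    ∑' l : (pr x * L : Lt), f l = ∑' l : L, f (x * l) := by
  let e : L ≃ (pr x * L : Lt) :=
    { toFun := fun l => ⟨x * l, (mul_mem_sc hx).2 l.2⟩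
      invFun := fun l => ⟨x⁻¹ * l, (mul_mem_sc hx).1 (by
        rw [mul_inv_cancel_left₀ hx]
        exact l.2)⟩
      left_inv := fun l => Subtype.ext (inv_mul_cancel_left₀ hx _)
      right_inv := fun l => Subtype.ext (mul_inv_cancel_left₀ hx _) }
  exact (e.tsum_eq fun l => f l).symm

theorem wp_sc (L : Lt) (hx : x ≠ 0) (z : ℂ) : wp (pr x * L) (x * z) = wp L z / x ^ 2 := by
  rw [wp, wp, tsum_sc L hx fun l => 1 / (x * z - l) ^ 2 - 1 / l ^ 2, ← tsum_div_const]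
  refine tsum_congr fun l => ?_
  rw [← mul_sub, mul_pow, mul_pow, sub_div, div_div, div_div, mul_comm (x ^ 2), mul_comm (x ^ 2)]

theorem wpd_sc (L : Lt) (hx : x ≠ 0) (z : ℂ) : wpd (pr x * L) (x * z) = wpd L z / x ^ 3 := by
  rw [wpd, wpd, tsum_sc L hx fun l => 2 / (x * z - l) ^ 3, neg_div, ← tsum_div_const]
  refine congrArg Neg.neg (tsum_congr fun l => ?_)
  rw [← mul_sub, mul_pow, div_div, mul_comm (x ^ 3)]

theorem a0_Gk (L : Lt) (hx : x ≠ 0) (n : ℕ) : Gk (pr x * L) n = Gk L n / x ^ n := by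
  rw [Gk, Gk, tsum_sc L hx fun l => (l ^ n)⁻¹, ← tsum_div_const]
  refine tsum_congr fun l => ?_
  rw [mul_pow, mul_inv, div_eq_mul_inv, mul_comm]

theorem g2_sc (L : Lt) (hx : x ≠ 0) : g2 (pr x * L) = g2 L / x ^ 4 := by
  rw [g2, g2, a0_Gk L hx, mul_div_assoc]

theorem g3_sc (L : Lt) (hx : x ≠ 0) : g3 (pr x * L) = g3 L / x ^ 6 := by
  rw [g3, g3, a0_Gk L hx, mul_div_assoc]

theorem dl_sc (L : Lt) (hx : x ≠ 0) : dl (pr x * L) = dl L / x ^ 12 := by
  rw [dl, dl, g2_sc L hx, g3_sc L hx, div_pow, div_pow, ← pow_mul, ← pow_mul, sub_div,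
    mul_div_assoc]

theorem UU_sc (L : Lt) (hx : x ≠ 0) : UU (pr x * L) = UU L / x ^ 2 := by
  rw [UU, UU, g2_sc L hx, g3_sc L hx]
  by_cases h : g2 L = 0
  · simp [h]
  · field_simp

theorem XX_sc (L : Lt) (hx : x ≠ 0) (z : ℂ) : XX (pr x * L) (x * z) = XX L z := by
  rw [XX, XX, wp_sc L hx, UU_sc L hx, div_div_div_cancel_right₀ (pow_ne_zero _ hx)]

theorem isLat_conj (h : IsLat L) (hM : ∀ y, y ∈ M ↔ conj y ∈ L) : IsLat M := by
  obtain ⟨c, τ, hc, rfl⟩ := h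
  refine ⟨conj c, ⟨-conj (τ : ℂ), by simpa using τ.im_pos⟩, by simpa using hc, ?_⟩
  ext y
  rw [hM, Pool.Agent.P.MP_20768c_nt.Tz.EQ.mem_sp, Pool.Agent.P.MP_20768c_nt.Tz.EQ.mem_sp]
  constructor
  · rintro ⟨m, n, e⟩
    refine ⟨m, -n, ?_⟩
    have e' := congrArg conj e
    simp only [Complex.conj_conj, map_add, map_mul, map_intCast] at e'
    rw [e']
    push_cast
    ring
  · rintro ⟨m, n, e⟩
    refine ⟨m, -n, ?_⟩
    rw [e]
    simp only [Complex.conj_conj, map_add, map_mul, map_intCast, map_neg]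
    push_cast
    ring

theorem a0_tsum (hM : ∀ y, y ∈ M ↔ conj y ∈ L) (f : ℂ → ℂ) :
    ∑' l : M, f l = ∑' l : L, f (conj (l : ℂ)) := by
  let e : L ≃ M :=
    { toFun := fun l => ⟨conj (l : ℂ), (hM _).2 (by
        rw [Complex.conj_conj]
        exact l.2)⟩
      invFun := fun l => ⟨conj (l : ℂ), (hM _).1 l.2⟩
      left_inv := fun l => Subtype.ext (Complex.conj_conj _)
      right_inv := fun l => Subtype.ext (Complex.conj_conj _) }
  exact (e.tsum_eq fun l => f l).symm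

theorem wp_conj (hM : ∀ y, y ∈ M ↔ conj y ∈ L) (z : ℂ) : wp M (conj z) = conj (wp L z) := by
  rw [wp, wp, Complex.conj_tsum, a0_tsum hM fun l => 1 / (conj z - l) ^ 2 - 1 / l ^ 2]
  refine tsum_congr fun l => ?_
  simp only [map_sub, map_div₀, map_one, map_pow]

theorem wpd_conj (hM : ∀ y, y ∈ M ↔ conj y ∈ L) (z : ℂ) : wpd M (conj z) = conj (wpd L z) := by
  rw [wpd, wpd, map_neg, Complex.conj_tsum, a0_tsum hM fun l => 2 / (conj z - l) ^ 3]
  refine congrArg Neg.neg (tsum_congr fun l => ?_)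
  simp only [map_sub, map_div₀, map_ofNat, map_pow]

end Pool.Agent.P.MP_20768c_nt.Tz.Cv

end

-- part Cv.A0b_p
section

set_option autoImplicit false

open Complex NumberField IsDedekindDomain Filter Topology
open UpperHalfPlane hiding I
open scoped ComplexConjugate Real MatrixGroups

namespace Pool.Agent.P.MP_20768c_nt.Tz.Cv

open Pool.Agent.P.MP_20768c_nt.Tz.EQ (Lt pr sp IsLat jL qN)

variable {L L' M : Lt} {R : Finset ℂ} {z x : ℂ}

theorem ar_sp {c : ℂ} (hc : c ≠ 0) (τ : ℍ) : ar (sp c (c * τ)) = ‖c‖ ^ 2 * τ.im := by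
  have h := Pool.Agent.P.MP_20768c_nt.Tz.EQ.isLat_sp hc τ
  unfold ar
  rw [dif_pos h]
  obtain ⟨h1, h2⟩ := h.choose_spec.choose_spec
  obtain ⟨γ, h3, h4⟩ := Pool.Agent.P.MP_20768c_nt.Tz.EQ.exists_SL_of_sp_eq hc h1 h2
  have h5 := Pool.Agent.P.MP_20768c_nt.Tz.EQ.sl_den_ne_lat γ τ
  have h6 : (γ • τ).im = τ.im / Complex.normSq ((γ 1 0 : ℂ) * τ + γ 1 1) := by
    rw [ModularGroup.im_smul_eq_div_normSq, ModularGroup.denom_apply]
  have h7 : ‖(γ 1 0 : ℂ) * τ + γ 1 1‖ ≠ 0 := norm_ne_zero_iff.2 h5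
  rw [h3, h4, h6, norm_mul, Complex.normSq_eq_norm_sq]
  field_simp

theorem ar_pos (h : IsLat L) : 0 < ar L := by
  obtain ⟨c, τ, hc, rfl⟩ := h
  rw [ar_sp hc]
  exact mul_pos (pow_pos (norm_pos_iff.2 hc) 2) τ.im_pos

theorem ar_sc (h : IsLat L) (hx : x ≠ 0) : ar (pr x * L) = ‖x‖ ^ 2 * ar L := by
  obtain ⟨c, τ, hc, rfl⟩ := h
  rw [Pool.Agent.P.MP_20768c_nt.Tz.EQ.pr_mul_sp, ← mul_assoc, ar_sp (mul_ne_zero hx hc), ar_sp hc, norm_mul]
  ring

theorem ar_conj (h : IsLat L) (hM : ∀ y, y ∈ M ↔ conj y ∈ L) : ar M = ar L := by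
  obtain ⟨c, τ, hc, rfl⟩ := h
  have him : 0 < (-conj (τ : ℂ)).im := by simpa using τ.im_pos
  have hc' : conj c ≠ 0 := by simpa using hc
  have e : M = sp (conj c) (conj c * ((⟨_, him⟩ : ℍ) : ℂ)) := by
    ext y
    rw [hM, Pool.Agent.P.MP_20768c_nt.Tz.EQ.mem_sp, Pool.Agent.P.MP_20768c_nt.Tz.EQ.mem_sp]
    constructor
    · rintro ⟨m, n, h⟩
      refine ⟨m, -n, ?_⟩
      have := congrArg conj h
      simp only [conj_conj, map_add, map_mul, map_intCast] at this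
      rw [this]
      push_cast
      ring
    · rintro ⟨m, n, h⟩
      refine ⟨m, -n, ?_⟩
      rw [h]
      simp only [conj_conj, map_add, map_mul, map_intCast, map_neg]
      push_cast
      ring
  have e1 : (⟨_, him⟩ : ℍ).im = τ.im := by
    change (-conj (τ : ℂ)).im = _
    simp
  rw [e, ar_sp hc', ar_sp hc, e1, Complex.norm_conj]

theorem a0bp_int (h : IsLat L) (h' : IsLat L') (hle : L ≤ L') :
    ∃ N : ℕ, 0 < N ∧ pr N * L' ≤ L := by
  obtain ⟨c, τ, hc, rfl⟩ := h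
  obtain ⟨c', τ', hc', rfl⟩ := h'
  obtain ⟨h1, h2⟩ := Pool.Agent.P.MP_20768c_nt.Tz.EQ.lat2_sp_le.1 hle
  obtain ⟨p, q, h1⟩ := Pool.Agent.P.MP_20768c_nt.Tz.EQ.mem_sp.1 h1
  obtain ⟨r, t, h2⟩ := Pool.Agent.P.MP_20768c_nt.Tz.EQ.mem_sp.1 h2
  have e1 : ((p * t - q * r : ℤ) : ℂ) * c' = (t : ℂ) * c + ((-q : ℤ) : ℂ) * (c * τ) := by
    push_cast; linear_combination (-(t : ℂ)) * h1 + (q : ℂ) * h2
  have e2 : ((p * t - q * r : ℤ) : ℂ) * (c' * τ') = ((-r : ℤ) : ℂ) * c + (p : ℂ) * (c * τ) := by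
    push_cast; linear_combination (r : ℂ) * h1 - (p : ℂ) * h2
  have hD : p * t - q * r ≠ 0 := by
    intro h0
    rw [h0] at e1 e2
    have a1 := Pool.Agent.P.MP_20768c_nt.Tz.EQ.lat2_indep hc τ (m := t) (n := -q) (m' := 0) (n' := 0)
      (by rw [← e1]; simp)
    have a2 := Pool.Agent.P.MP_20768c_nt.Tz.EQ.lat2_indep hc τ (m := -r) (n := p) (m' := 0) (n' := 0)
      (by rw [← e2]; simp)
    have hq : q = 0 := by omega
    rw [a2.2, hq] at h1
    exact hc (by simpa using h1)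
  refine ⟨(p * t - q * r).natAbs, Int.natAbs_pos.2 hD, ?_⟩
  have m1 : ((p * t - q * r : ℤ) : ℂ) * c' ∈ sp c (c * τ) := Pool.Agent.P.MP_20768c_nt.Tz.EQ.mem_sp.2 ⟨_, _, e1⟩
  have m2 : ((p * t - q * r : ℤ) : ℂ) * (c' * τ') ∈ sp c (c * τ) :=
    Pool.Agent.P.MP_20768c_nt.Tz.EQ.mem_sp.2 ⟨_, _, e2⟩
  rw [Pool.Agent.P.MP_20768c_nt.Tz.EQ.pr_mul_sp, Pool.Agent.P.MP_20768c_nt.Tz.EQ.lat2_sp_le]
  generalize p * t - q * r = D at m1 m2
  rcases Int.natAbs_eq D with e | e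
  · rw [e] at m1 m2
    simpa using And.intro m1 m2
  · rw [e] at m1 m2
    have := And.intro (neg_mem m1) (neg_mem m2)
    simpa using this

theorem a0bp_hnf (h : IsLat L) (h' : IsLat L') (hle : L ≤ L') :
    ∃ R, Reps L L' R ∧ ar L = R.card * ar L' := by
  classical
  obtain ⟨N, hN, hNL⟩ := a0bp_int h h' hle
  obtain ⟨c, τ, hc, rfl⟩ := h'
  obtain ⟨a, d, b, ha, hd, -, -, -, -, hL⟩ := Pool.Agent.P.MP_20768c_nt.Tz.EQ.hnf hc τ hN hNL hle
  have ha' : (a : ℤ) ≠ 0 := by exact_mod_cast ha.ne'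
  have hd' : (d : ℤ) ≠ 0 := by exact_mod_cast hd.ne'
  have hmem : ∀ x y : ℤ, (x : ℂ) * c + y * (c * τ) ∈ L ↔
      ∃ m n : ℤ, x = m * a + n * b ∧ y = n * d := by
    intro x y
    rw [hL]
    have := Pool.Agent.P.MP_20768c_nt.Tz.EQ.lat2_mem hc τ (a := a) (d := d) (b := b) (x := x) (y := y)
    simpa [Pool.Agent.P.MP_20768c_nt.Tz.EQ.lat2H] using this
  let φ : ℤ × ℤ → ℂ := fun p => (p.1 : ℂ) * c + p.2 * (c * τ)
  have hφ : Function.Injective φ := by
    rintro ⟨x, y⟩ ⟨x', y'⟩ e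
    obtain ⟨e1, e2⟩ := Pool.Agent.P.MP_20768c_nt.Tz.EQ.lat2_indep hc τ e
    exact Prod.ext e1 e2
  refine ⟨(Finset.Ico (0 : ℤ) a ×ˢ Finset.Ico (0 : ℤ) d).image φ, ⟨hle, ?_, ?_, ?_⟩, ?_⟩
  · exact Finset.mem_image.2 ⟨(0, 0), by simp [ha, hd], by simp [φ]⟩
  · intro r hr
    obtain ⟨p, -, rfl⟩ := Finset.mem_image.1 hr
    exact Pool.Agent.P.MP_20768c_nt.Tz.EQ.mem_sp.2 ⟨p.1, p.2, rfl⟩
  · intro z hz
    obtain ⟨x, y, rfl⟩ := Pool.Agent.P.MP_20768c_nt.Tz.EQ.mem_sp.1 hz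
    have hsub : ∀ p : ℤ × ℤ, (x : ℂ) * c + y * (c * τ) - φ p =
        ((x - p.1 : ℤ) : ℂ) * c + ((y - p.2 : ℤ) : ℂ) * (c * τ) := by
      intro p; simp only [φ]; push_cast; ring
    refine ⟨φ ((x - y / d * b) % a, y % d), ⟨Finset.mem_image_of_mem _ ?_, ?_⟩, ?_⟩
    · simp only [Finset.mem_product, Finset.mem_Ico]
      exact ⟨⟨Int.emod_nonneg _ ha', Int.emod_lt_of_pos _ (by exact_mod_cast ha)⟩,
        Int.emod_nonneg _ hd', Int.emod_lt_of_pos _ (by exact_mod_cast hd)⟩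
    · rw [hsub, hmem]
      refine ⟨(x - y / d * b) / a, y / d, ?_, ?_⟩
      · simp only [Int.emod_def]; ring
      · simp only [Int.emod_def]; ring
    · rintro r ⟨hr, hr'⟩
      obtain ⟨⟨x', y'⟩, hp, rfl⟩ := Finset.mem_image.1 hr
      simp only [Finset.mem_product, Finset.mem_Ico] at hp
      rw [hsub, hmem] at hr'
      obtain ⟨m, n, e1, e2⟩ := hr'
      simp only at e1 e2
      have hy : y = y' + d * n := by linear_combination e2
      have f1 : y % d = y' := by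
        rw [hy, Int.add_mul_emod_self_left, Int.emod_eq_of_lt hp.2.1 hp.2.2]
      have f2 : y / d = n := by
        rw [hy, Int.add_mul_ediv_left _ _ hd', Int.ediv_eq_zero_of_lt hp.2.1 hp.2.2, zero_add]
      have hx : x - n * b = x' + a * m := by linear_combination e1
      have f3 : (x - y / d * b) % a = x' := by
        rw [f2, hx, Int.add_mul_emod_self_left, Int.emod_eq_of_lt hp.1.1 hp.1.2]
      rw [f1, f3]
  · have hac : (a : ℂ) ≠ 0 := by exact_mod_cast ha.ne'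
    have har : (a : ℝ) ≠ 0 := by exact_mod_cast ha.ne'
    have e0 : ((d * τ + b : ℂ) / a).im = d * τ.im / a := by
      rw [Complex.div_natCast_im]
      simp only [Complex.add_im, Complex.mul_im, Complex.natCast_re, coe_im, Complex.natCast_im,
        zero_mul, add_zero, Complex.intCast_im]
    have him : 0 < ((d * τ + b : ℂ) / a).im := by
      rw [e0]
      exact div_pos (mul_pos (Nat.cast_pos.2 hd) τ.im_pos) (Nat.cast_pos.2 ha)
    have e : L = sp (a * c) (a * c * ((⟨_, him⟩ : ℍ) : ℂ)) := by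
      rw [hL]
      congr 1
      change _ = _ * ((d * τ + b : ℂ) / a)
      field_simp
    have e1 : (⟨_, him⟩ : ℍ).im = d * τ.im / a := e0
    rw [e, ar_sp (mul_ne_zero hac hc), ar_sp hc, e1, Finset.card_image_of_injective _ hφ]
    simp only [Finset.card_product, Int.card_Ico, sub_zero, Int.toNat_natCast, norm_mul,
      Complex.norm_natCast]
    push_cast
    field_simp

theorem a0bp_sub (hR : Reps L L' R) {a b : ℂ} (ha : a ∈ R) (hb : b ∈ R) (h : a - b ∈ L) :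
    a = b :=
  (hR.2.2.2 a (hR.2.2.1 a ha)).unique ⟨ha, by simp⟩ ⟨hb, h⟩

theorem a0bp_rho (hR : Reps L L' R) : ∃ ρ : ℂ → ℂ, ∀ x ∈ L', ρ x ∈ R ∧ x - ρ x ∈ L := by
  have : ∀ x : ℂ, ∃ r, x ∈ L' → r ∈ R ∧ x - r ∈ L := by
    intro x
    by_cases hx : x ∈ L'
    · obtain ⟨r, hr, -⟩ := hR.2.2.2 x hx
      exact ⟨r, fun _ => hr⟩
    · exact ⟨0, fun h => (hx h).elim⟩
  choose ρ hρ using this
  exact ⟨ρ, hρ⟩

theorem a0bp_inj (hR : Reps L L' R) {ρ e : ℂ → ℂ} (hρ : ∀ x ∈ L', x - ρ x ∈ L)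
    (he : ∀ a ∈ L', e a ∈ L') (hi : ∀ a ∈ L', ∀ b ∈ L', e a - e b ∈ L ↔ a - b ∈ L) :
    Set.InjOn (fun r => ρ (e r)) R := by
  intro a ha b hb hab
  have ha' := hR.2.2.1 a ha
  have hb' := hR.2.2.1 b hb
  refine a0bp_sub hR ha hb ((hi a ha' b hb').1 ?_)
  have := L.sub_mem (hρ _ (he a ha')) (hρ _ (he b hb'))
  simp only at hab
  rw [hab] at this
  simpa using this

theorem a0bp_card_le {R' : Finset ℂ} (hR : Reps L L' R) (hR' : Reps L L' R') :
    R.card ≤ R'.card := by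
  obtain ⟨ρ, hρ⟩ := a0bp_rho hR'
  exact Finset.card_le_card_of_injOn (fun r => ρ (id r)) (fun r hr => (hρ r (hR.2.2.1 r hr)).1)
    (a0bp_inj hR (fun x hx => (hρ x hx).2) (fun _ h => h) (fun _ _ _ _ => Iff.rfl))

theorem a0bp_sum {A : Type} [AddCommMonoid A] {R' : Finset ℂ} (hR : Reps L L' R)
    (hR' : Reps L L' R') (e : ℂ → ℂ)
    (he : ∀ a ∈ L', e a ∈ L') (hi : ∀ a ∈ L', ∀ b ∈ L', e a - e b ∈ L ↔ a - b ∈ L)
    (f : ℂ → A) (hf : ∀ a ∈ L', ∀ l ∈ L, f (a + l) = f a) :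
    ∑ r ∈ R, f (e r) = ∑ r ∈ R', f r := by
  obtain ⟨ρ, hρ⟩ := a0bp_rho hR'
  have hm : Set.MapsTo (fun r => ρ (e r)) R R' := fun r hr => (hρ _ (he r (hR.2.2.1 r hr))).1
  have hinj := a0bp_inj hR (fun x hx => (hρ x hx).2) he hi
  refine Finset.sum_nbij (fun r => ρ (e r)) hm hinj
    (Finset.surjOn_of_injOn_of_card_le _ hm hinj (a0bp_card_le hR' hR)) ?_
  intro r hr
  have h1 := hρ _ (he r (hR.2.2.1 r hr))
  have := hf _ (hR'.2.2.1 _ h1.1) _ h1.2
  simpa using this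

theorem exists_reps (h : IsLat L) (h' : IsLat L') (hle : L ≤ L') : ∃ R, Reps L L' R := by
  obtain ⟨R, hR, -⟩ := a0bp_hnf h h' hle
  exact ⟨R, hR⟩

theorem Reps.card_mul (hR : Reps L L' R) (hz : z ∈ L') : (R.card : ℂ) * z ∈ L := by
  have h := a0bp_sum hR hR (fun a => a + z) (fun a ha => L'.add_mem ha hz)
    (fun a _ b _ => by rw [add_sub_add_right_eq_sub]) L.mkQ (fun a _ l hl => by
      rw [map_add, Submodule.mkQ_apply L l, (Submodule.Quotient.mk_eq_zero L).2 hl, add_zero])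
  simp only [map_add, Finset.sum_add_distrib, Finset.sum_const, add_eq_left] at h
  rw [← map_nsmul, Submodule.mkQ_apply, Submodule.Quotient.mk_eq_zero] at h
  simpa using h

theorem Reps.sub_mem (hR : Reps L L' R) {a b : ℂ} (ha : a ∈ R) (hb : b ∈ R) (h : a - b ∈ L) :
    a = b := by
  exact a0bp_sub hR ha hb h

theorem Reps.card_eq {R' : Finset ℂ} (hR : Reps L L' R) (hR' : Reps L L' R') : R.card = R'.card := by
  exact (a0bp_card_le hR hR').antisymm (a0bp_card_le hR' hR)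

theorem Reps.sum_congr {A : Type} [AddCommMonoid A] {R' : Finset ℂ} (hR : Reps L L' R)
    (hR' : Reps L L' R') (f : ℂ → A) (hf : ∀ a ∈ L', ∀ l ∈ L, f (a + l) = f a) :
    ∑ r ∈ R, f r = ∑ r ∈ R', f r := by
  exact a0bp_sum hR hR' id (fun _ h => h) (fun _ _ _ _ => Iff.rfl) f hf

theorem Reps.sum_bij {A : Type} [AddCommMonoid A] (hR : Reps L L' R) (e : ℂ → ℂ)
    (he : ∀ a ∈ L', e a ∈ L') (hi : ∀ a ∈ L', ∀ b ∈ L', e a - e b ∈ L ↔ a - b ∈ L)
    (f : ℂ → A) (hf : ∀ a ∈ L', ∀ l ∈ L, f (a + l) = f a) : ∑ r ∈ R, f (e r) = ∑ r ∈ R, f r := by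
  exact a0bp_sum hR hR e he hi f hf

theorem ar_reps (h : IsLat L) (h' : IsLat L') (hR : Reps L L' R) : ar L = R.card * ar L' := by
  obtain ⟨R', hR', e⟩ := a0bp_hnf h h' hR.1
  rw [e, hR.card_eq hR']

theorem reps_tsum (hR : Reps L L' R) {f : ℂ → ℂ} (hf : Summable fun l : L' => f l) :
    ∑' l : L', f l = ∑ r ∈ R, ∑' l : L, f (r + l) := by
  let φ : R × L → L' := fun p => ⟨p.1 + p.2, L'.add_mem (hR.2.2.1 _ p.1.2) (hR.1 p.2.2)⟩
  have hφ : Function.Bijective φ := by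
    constructor
    · rintro ⟨a, l⟩ ⟨b, m⟩ e
      have e' : (a : ℂ) + l = b + m := congrArg Subtype.val e
      have e1 : (a : ℂ) = b := by
        refine hR.sub_mem a.2 b.2 ?_
        have : (a : ℂ) - b = m - l := by linear_combination e'
        rw [this]
        exact L.sub_mem m.2 l.2
      rw [e1] at e'
      exact Prod.ext (Subtype.ext e1) (Subtype.ext (add_left_cancel e'))
    · rintro ⟨y, hy⟩
      obtain ⟨r, hr, -⟩ := hR.2.2.2 y hy
      exact ⟨(⟨r, hr.1⟩, ⟨y - r, hr.2⟩), Subtype.ext (by simp [φ])⟩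
  let E := Equiv.ofBijective φ hφ
  have h1 : Summable fun p : R × L => f (E p) := (E.summable_iff (f := fun l : L' => f l)).2 hf
  rw [← E.tsum_eq, h1.tsum_prod, ← Finset.tsum_subtype R (fun r => ∑' l : L, f (r + l))]
  rfl

theorem isLat_of_le (h : IsLat L) (hle : L ≤ L') {n : ℕ} (hn : 0 < n)
    (h' : ∀ y ∈ L', (n : ℂ) * y ∈ L) : IsLat L' := by
  refine h.of_between hn ?_ (Pool.Agent.P.MP_20768c_nt.Tz.EQ.pr_mul_le.2 h')
  have := Pool.Agent.P.MP_20768c_nt.Tz.EQ.pr_int_le n L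
  exact le_trans (by simpa using this) hle

theorem reps_div (h : IsLat L) {c : ℕ} (hc : 0 < c) (hR : Reps L (pr (c : ℂ)⁻¹ * L) R) :
    R.card = c ^ 2 := by
  have hc' : (c : ℂ)⁻¹ ≠ 0 := inv_ne_zero (by exact_mod_cast hc.ne')
  have h1 := ar_reps h (h.pr_mul hc') hR
  rw [ar_sc h hc', norm_inv, Complex.norm_natCast] at h1
  have h2 := (ar_pos h).ne'
  have h3 : (c : ℝ) ≠ 0 := by exact_mod_cast hc.ne'
  have h4 : (R.card : ℝ) = c ^ 2 := by
    field_simp at h1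
    exact h1.symm
  exact_mod_cast h4

theorem exists_tors (h : IsLat L) {n : ℕ} (hn : 1 < n) : ∃ a b : ℂ, (n : ℂ) * a ∈ L ∧
    (n : ℂ) * b ∈ L ∧ ∀ i j : ℤ, (i : ℂ) * a + j * b ∈ L → (n : ℤ) ∣ i ∧ (n : ℤ) ∣ j := by
  obtain ⟨c, τ, hc, rfl⟩ := h
  have hn' : (n : ℂ) ≠ 0 := by exact_mod_cast (by omega : n ≠ 0)
  refine ⟨c / n, c * τ / n, ?_, ?_, ?_⟩
  · rw [mul_div_cancel₀ _ hn']
    exact Pool.Agent.P.MP_20768c_nt.Tz.EQ.left_mem_sp_lat _ _
  · rw [mul_div_cancel₀ _ hn']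
    exact Pool.Agent.P.MP_20768c_nt.Tz.EQ.right_mem_sp_lat _ _
  · intro i j hij
    obtain ⟨p, q, e⟩ := Pool.Agent.P.MP_20768c_nt.Tz.EQ.mem_sp.1 hij
    obtain ⟨e1, e2⟩ := Pool.Agent.P.MP_20768c_nt.Tz.EQ.lat2_indep hc τ (m := i) (n := j) (m' := n * p)
      (n' := n * q) (by
        push_cast
        field_simp at e
        linear_combination c * e)
    exact ⟨⟨p, e1⟩, ⟨q, e2⟩⟩

end Pool.Agent.P.MP_20768c_nt.Tz.Cv

end

-- part Cv.A1
section

set_option autoImplicit false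

open Complex NumberField IsDedekindDomain Filter Topology
open UpperHalfPlane hiding I
open scoped ComplexConjugate Real MatrixGroups

namespace Pool.Agent.P.MP_20768c_nt.Tz.Cv

open Pool.Agent.P.MP_20768c_nt.Tz.EQ (Lt pr sp IsLat jL qN)

variable {L M : Lt}

theorem a1_Gk {k : ℕ} (hk : 3 ≤ k) (τ : ℍ) :
    Gk (sp 1 τ) k = 2 * riemannZeta k * ModularForm.E hk τ := by
  have h1 : ModularForm.E hk τ = (1 / 2 : ℂ) * eisensteinSeries (N := 1) 0 k τ := rfl
  let f : (Fin 2 → ℤ) → sp 1 τ := fun v => ⟨v 0 * τ + v 1, EQ.mem_sp.2 ⟨v 1, v 0, by ring⟩⟩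
  have hf : Function.Bijective f := ⟨fun v w h => by
    have := EQ.int_indep_lat τ (p := v 0 - w 0) (q := v 1 - w 1) (by
      push_cast
      linear_combination (congrArg Subtype.val h : (v 0 * τ + v 1 : ℂ) = w 0 * τ + w 1))
    exact funext (Fin.forall_fin_two.2 ⟨by omega, by omega⟩), fun l => by
    obtain ⟨m, n, h⟩ := EQ.mem_sp.1 l.2
    exact ⟨![n, m], Subtype.ext (by simp [f, h, add_comm])⟩⟩
  rw [h1, Gk, ← (Equiv.ofBijective f hf).tsum_eq]
  refine Eq.trans (tsum_congr fun v => ?_)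
    ((tsum_eisSummand_eq_riemannZeta_mul_eisensteinSeries hk τ).trans (by ring))
  rw [EisensteinSeries.eisSummand, zpow_neg, zpow_natCast]
  rfl

theorem a1_sp (c : ℂ) (τ : ℍ) : sp c (c * τ) = pr c * sp 1 τ := by rw [EQ.pr_mul_sp, mul_one]

theorem a1_sub (hd : dl L ≠ 0) (hj : jL L = 1728 * g2 L ^ 3 / dl L) :
    jL L - 1728 = 46656 * g3 L ^ 2 / dl L := by
  rw [hj, div_sub' hd, dl]
  congr 1
  ring

theorem g2_sp {c : ℂ} (hc : c ≠ 0) (τ : ℍ) :
    g2 (sp c (c * τ)) = (2 * π) ^ 4 * ModularForm.E₄ τ / 12 / c ^ 4 := by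
  have h := a1_Gk (by norm_num : 3 ≤ 4) τ
  rw [Nat.cast_ofNat, riemannZeta_four] at h
  rw [a1_sp, g2_sc _ hc, g2, h]
  ring

theorem g3_sp {c : ℂ} (hc : c ≠ 0) (τ : ℍ) :
    g3 (sp c (c * τ)) = (2 * π) ^ 6 * ModularForm.E₆ τ / 216 / c ^ 6 := by
  have h := a1_Gk (by norm_num : 3 ≤ 6) τ
  have h1 := riemannZeta_two_mul_nat (k := 3) (by norm_num)
  rw [show bernoulli (2 * 3) = 1 / 42 by decide +kernel] at h1
  rw [show ((6 : ℕ) : ℂ) = 2 * (3 : ℕ) by norm_num, h1] at h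
  rw [a1_sp, g3_sc _ hc, g3, h]
  norm_num [Nat.factorial]
  ring

theorem dl_sp {c : ℂ} (hc : c ≠ 0) (τ : ℍ) :
    dl (sp c (c * τ)) = (2 * π) ^ 12 * ModularForm.discriminant τ / c ^ 12 := by
  rw [dl, g2_sp hc, g3_sp hc, ModularForm.discriminant_eq_E₄_cube_sub_E₆_sq]
  ring

theorem dl_ne (h : IsLat L) : dl L ≠ 0 := by
  obtain ⟨c, τ, hc, rfl⟩ := h
  rw [dl_sp hc]
  exact div_ne_zero (mul_ne_zero (pow_ne_zero _ (mul_ne_zero two_ne_zero
    (ofReal_ne_zero.2 Real.pi_ne_zero))) (ModularForm.discriminant_ne_zero τ)) (pow_ne_zero _ hc)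

theorem jL_eq (h : IsLat L) : jL L = 1728 * g2 L ^ 3 / dl L := by
  obtain ⟨c, τ, hc, rfl⟩ := h
  have h1 := ModularForm.discriminant_ne_zero τ
  have h2 : (π : ℂ) ≠ 0 := ofReal_ne_zero.2 Real.pi_ne_zero
  rw [EQ.jL_sp hc, dl_sp hc, g2_sp hc, EQ.jInv]
  field_simp
  ring

theorem lat_eq (h : IsLat L) (h' : IsLat M) (e2 : g2 L = g2 M) (e3 : g3 L = g3 M)
    (h2 : g2 L ≠ 0) (h3 : g3 L ≠ 0) : L = M := by
  obtain ⟨x, hx, rfl⟩ := EQ.jL_inj h h' (by rw [jL_eq h, jL_eq h', dl, dl, e2, e3])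
  rw [g2_sc _ hx, eq_div_iff (pow_ne_zero _ hx), mul_eq_left₀ h2] at e2
  rw [g3_sc _ hx, eq_div_iff (pow_ne_zero _ hx), mul_eq_left₀ h3] at e3
  have h4 : x ^ 2 = 1 := by linear_combination e3 - x ^ 2 * e2
  ext z
  rcases sq_eq_one_iff.1 h4 with rfl | rfl
  · simp
  · simpa using (mul_mem_sc (L := L) (z := -z) hx).symm

theorem g23_iff (h : IsLat L) : (g2 L ≠ 0 ∧ g3 L ≠ 0) ↔ (jL L ≠ 0 ∧ jL L - 1728 ≠ 0) := by
  have hd := dl_ne h
  rw [a1_sub hd (jL_eq h), jL_eq h]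
  simp [hd]

theorem g2_UU (h : IsLat L) (h2 : g2 L ≠ 0) (h3 : g3 L ≠ 0) :
    g2 L / UU L ^ 2 = jL L / (12 * (jL L - 1728)) := by
  have hd := dl_ne h
  rw [a1_sub hd (jL_eq h), jL_eq h, UU]
  field_simp
  ring

theorem g3_UU (h : IsLat L) (h2 : g2 L ≠ 0) (h3 : g3 L ≠ 0) :
    g3 L / UU L ^ 3 = -(jL L / (216 * (jL L - 1728))) := by
  have hd := dl_ne h
  rw [a1_sub hd (jL_eq h), jL_eq h, UU]
  field_simp
  ring

theorem dl_UU (h : IsLat L) (h2 : g2 L ≠ 0) (h3 : g3 L ≠ 0) :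
    dl L / UU L ^ 6 = jL L ^ 2 / (jL L - 1728) ^ 3 := by
  have hd := dl_ne h
  rw [a1_sub hd (jL_eq h), jL_eq h, UU]
  field_simp
  ring

end Pool.Agent.P.MP_20768c_nt.Tz.Cv

end

-- part Cv.A0b
section

set_option autoImplicit false

open Complex NumberField IsDedekindDomain Filter Topology
open UpperHalfPlane hiding I
open scoped ComplexConjugate Real MatrixGroups

namespace Pool.Agent.P.MP_20768c_nt.Tz.Cv

open Pool.Agent.P.MP_20768c_nt.Tz.EQ (Lt pr sp IsLat jL qN)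

variable {L L' M : Lt} {R : Finset ℂ} {z x : ℂ}

theorem pa_add (L : Lt) (l z w : ℂ) : pa L l (z + w) = pa L l z * pa L l w := by
  rw [pa, pa, pa, ← Complex.exp_add, map_add]
  congr 1
  ring

theorem pa_add' (L : Lt) (l l' z : ℂ) : pa L (l + l') z = pa L l z * pa L l' z := by
  rw [pa, pa, pa, ← Complex.exp_add, map_add]
  congr 1
  ring

theorem norm_pa (L : Lt) (l z : ℂ) : ‖pa L l z‖ = 1 := by
  have e : conj l * z - l * conj z = ((2 * (conj l * z).im : ℝ) : ℂ) * I := by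
    rw [← Complex.sub_conj, map_mul, Complex.conj_conj]
  have e2 : (π : ℂ) * (conj l * z - l * conj z) / (ar L : ℂ) =
      ((π * (2 * (conj l * z).im) / ar L : ℝ) : ℂ) * I := by
    rw [e, Complex.ofReal_div, Complex.ofReal_mul π]
    ring
  rw [pa, e2, Complex.norm_exp_ofReal_mul_I]

theorem a0b_pa {c : ℂ} (hc : c ≠ 0) (τ : ℍ) (a b a' b' : ℝ) :
    pa (sp c (c * τ)) (a * c + b * (c * τ)) (a' * c + b' * (c * τ)) =
      cexp (((a * b' - b * a' : ℝ) : ℂ) * (2 * π * I)) := by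
  have h1 : conj c * c = ((‖c‖ ^ 2 : ℝ) : ℂ) := by
    rw [Complex.conj_mul', Complex.ofReal_pow]
  have h2 : (τ : ℂ) - conj (τ : ℂ) = 2 * ((τ.im : ℝ) : ℂ) * I := by
    rw [Complex.sub_conj, Complex.ofReal_mul, UpperHalfPlane.coe_im]
    norm_num
  have h3 : ((‖c‖ ^ 2 : ℝ) : ℂ) ≠ 0 :=
    Complex.ofReal_ne_zero.2 (pow_ne_zero _ (norm_ne_zero_iff.2 hc))
  have h4 : ((τ.im : ℝ) : ℂ) ≠ 0 := Complex.ofReal_ne_zero.2 τ.im_pos.ne'
  rw [pa, ar_sp hc τ]
  congr 1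
  rw [Complex.ofReal_mul, div_eq_iff (mul_ne_zero h3 h4)]
  simp only [map_add, map_mul, Complex.conj_ofReal, Complex.ofReal_sub, Complex.ofReal_mul]
  rw [← h1]
  linear_combination (π * (conj c * c) * ((a : ℂ) * b' - b * a')) * h2

theorem pa_int (h : IsLat L) {l : ℂ} (hl : l ∈ L) (hz : z ∈ L) : pa L l z = 1 := by
  obtain ⟨c, τ, hc, rfl⟩ := h
  obtain ⟨m, n, rfl⟩ := Pool.Agent.P.MP_20768c_nt.Tz.EQ.mem_sp.1 hl
  obtain ⟨p, q, rfl⟩ := Pool.Agent.P.MP_20768c_nt.Tz.EQ.mem_sp.1 hz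
  have e := a0b_pa hc τ m n p q
  simp only [Complex.ofReal_intCast] at e
  rw [e, Complex.exp_eq_one_iff]
  exact ⟨m * q - n * p, by push_cast; ring⟩

theorem a0b_coord {c : ℂ} (hc : c ≠ 0) (τ : ℍ) (z : ℂ) :
    ∃ a b : ℝ, z = a * c + b * (c * τ) := by
  have h4 : τ.im ≠ 0 := τ.im_pos.ne'
  refine ⟨(z / c).re - (z / c).im / τ.im * τ.re, (z / c).im / τ.im, ?_⟩
  have e : z / c = (((z / c).re - (z / c).im / τ.im * τ.re : ℝ) : ℂ) +
      (((z / c).im / τ.im : ℝ) : ℂ) * τ := by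
    apply Complex.ext
    · simp only [Complex.add_re, Complex.mul_re, Complex.ofReal_re, Complex.ofReal_im,
        UpperHalfPlane.coe_re, UpperHalfPlane.coe_im]
      ring
    · simp only [Complex.add_im, Complex.mul_im, Complex.ofReal_re, Complex.ofReal_im,
        UpperHalfPlane.coe_re, UpperHalfPlane.coe_im]
      field_simp
      ring
  have e2 : z = c * (z / c) := by field_simp
  linear_combination e2 + c * e

theorem a0b_int {a : ℝ} (h : cexp ((a : ℂ) * (2 * π * I)) = 1) : ∃ n : ℤ, a = n := by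
  obtain ⟨n, hn⟩ := Complex.exp_eq_one_iff.1 h
  have h2 : (a : ℂ) = n := mul_right_cancel₀ Complex.two_pi_I_ne_zero hn
  exact ⟨n, by exact_mod_cast h2⟩

theorem pa_dual (h : IsLat L) (hz : ∀ l ∈ L, pa L l z = 1) : z ∈ L := by
  obtain ⟨c, τ, hc, rfl⟩ := h
  obtain ⟨a, b, rfl⟩ := a0b_coord hc τ z
  have e1 := a0b_pa hc τ 1 0 a b
  have e2 := a0b_pa hc τ 0 1 a b
  rw [hz _ (Pool.Agent.P.MP_20768c_nt.Tz.EQ.mem_sp.2 ⟨1, 0, by push_cast; rfl⟩)] at e1
  rw [hz _ (Pool.Agent.P.MP_20768c_nt.Tz.EQ.mem_sp.2 ⟨0, 1, by push_cast; rfl⟩)] at e2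
  obtain ⟨n, hn⟩ := a0b_int e1.symm
  obtain ⟨m, hm⟩ := a0b_int e2.symm
  have hb : b = n := by linarith
  have ha : a = ((-m : ℤ) : ℝ) := by push_cast; linarith
  refine Pool.Agent.P.MP_20768c_nt.Tz.EQ.mem_sp.2 ⟨-m, n, ?_⟩
  rw [ha, hb, Complex.ofReal_intCast, Complex.ofReal_intCast]

theorem lat_countable (h : IsLat L) : (L : Set ℂ).Countable := by
  obtain ⟨c, τ, _, rfl⟩ := h
  refine (Set.countable_range fun p : ℤ × ℤ => (p.1 : ℂ) * c + p.2 * (c * τ)).mono ?_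
  intro w hw
  obtain ⟨m, n, rfl⟩ := Pool.Agent.P.MP_20768c_nt.Tz.EQ.mem_sp.1 hw
  exact ⟨(m, n), rfl⟩

theorem compl_nhds (h : IsLat L) (S : Finset ℂ) (z : ℂ) :
    ∀ᶠ w in 𝓝[≠] z, ∀ t ∈ S, w - t ∉ L := by
  obtain ⟨P, rfl⟩ := exists_pp h
  rw [Filter.eventually_all_finset]
  intro t _
  have h1 : Tendsto (fun w : ℂ => w - t) (𝓝 z) (𝓝 (z - t)) :=
    (continuous_id.sub continuous_const).tendsto z
  have h2 := h1.eventually (P.compl_lattice_sdiff_singleton_mem_nhds (z - t))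
  filter_upwards [h2.filter_mono nhdsWithin_le_nhds, self_mem_nhdsWithin] with w hw hw' hl
  exact hw ⟨hl, fun e => hw' (sub_left_injective e)⟩

theorem compl_open (h : IsLat L) (S : Finset ℂ) : IsOpen {w : ℂ | ∀ t ∈ S, w - t ∉ L} := by
  obtain ⟨P, rfl⟩ := exists_pp h
  have e : {w : ℂ | ∀ t ∈ S, w - t ∉ P.lattice} =
      ⋂ t ∈ S, (fun w : ℂ => w - t) ⁻¹' (P.lattice : Set ℂ)ᶜ := by
    ext w
    simp only [Set.mem_ofPred_eq, Set.mem_iInter, Set.mem_preimage, Set.mem_compl_iff,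
      SetLike.mem_coe]
  rw [e]
  exact isOpen_biInter_finset fun t _ =>
    P.isClosed_lattice.isOpen_compl.preimage (continuous_id.sub continuous_const)

theorem compl_preconn (h : IsLat L) (S : Finset ℂ) :
    IsPreconnected {w : ℂ | ∀ t ∈ S, w - t ∉ L} := by
  have e : {w : ℂ | ∀ t ∈ S, w - t ∉ L} =
      (⋃ t ∈ (S : Set ℂ), (fun w : ℂ => w - t) ⁻¹' (L : Set ℂ))ᶜ := by
    ext w
    simp only [Set.mem_ofPred_eq, Set.mem_compl_iff, Set.mem_iUnion, Set.mem_preimage,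
      SetLike.mem_coe, not_exists]
  have hc : (⋃ t ∈ (S : Set ℂ), (fun w : ℂ => w - t) ⁻¹' (L : Set ℂ)).Countable :=
    S.countable_toSet.biUnion fun t _ =>
      (lat_countable h).preimage_of_injOn sub_left_injective.injOn
  rw [e]
  exact (hc.isConnected_compl_of_one_lt_rank (by simp)).isPreconnected

theorem a0b_shift (z l : ℂ) : Tendsto (fun w : ℂ => w + l) (𝓝[≠] z) (𝓝[≠] (z + l)) := by
  refine tendsto_nhdsWithin_iff.2 ⟨?_, ?_⟩
  · exact ((continuous_id.add continuous_const).tendsto z).mono_left nhdsWithin_le_nhds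
  · filter_upwards [self_mem_nhdsWithin] with w hw e
    exact hw (add_right_cancel e)

theorem liou (h : IsLat L) {f : ℂ → ℂ} (S : Finset ℂ)
    (hper : ∀ l ∈ L, ∀ z, (∀ t ∈ S, z - t ∉ L) → f (z + l) = f z)
    (hd : ∀ z, (∀ t ∈ S, z - t ∉ L) → DifferentiableAt ℂ f z)
    (hb : ∀ t ∈ S, Tendsto (fun z => (z - t) * f z) (𝓝[≠] t) (𝓝 0)) :
    ∃ C, ∀ z, (∀ t ∈ S, z - t ∉ L) → f z = C := by
  -- translation of limits along the lattice
  have htr : ∀ l ∈ L, ∀ z a, Tendsto f (𝓝[≠] (z + l)) (𝓝 a) → Tendsto f (𝓝[≠] z) (𝓝 a) := by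
    intro l hl z a ha
    refine (ha.comp (a0b_shift z l)).congr' ?_
    filter_upwards [compl_nhds h S z] with w hw
    exact hper l hl w hw
  have hS : ∀ t ∈ S, ∃ a, Tendsto f (𝓝[≠] t) (𝓝 a) := by
    intro t ht
    refine ⟨_, Complex.tendsto_limUnder_of_differentiable_on_punctured_nhds_of_isLittleO
      ((compl_nhds h S t).mono hd) ?_⟩
    have h1 : Tendsto (fun w : ℂ => (w - t) * f t) (𝓝[≠] t) (𝓝 0) := by
      have h2 : Tendsto (fun w : ℂ => (w - t) * f t) (𝓝 t) (𝓝 ((t - t) * f t)) :=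
        ((continuous_id.sub continuous_const).mul continuous_const).tendsto t
      rw [sub_self, zero_mul] at h2
      exact h2.mono_left nhdsWithin_le_nhds
    have h3 := (hb t ht).sub h1
    rw [sub_zero] at h3
    refine Asymptotics.isLittleO_of_tendsto' ?_ (h3.congr fun w => ?_)
    · filter_upwards [self_mem_nhdsWithin] with w hw e
      exact absurd (sub_eq_zero.1 (inv_eq_zero.1 e)) hw
    · rw [div_inv_eq_mul]
      ring
  have hex : ∀ z, ∃ a, Tendsto f (𝓝[≠] z) (𝓝 a) := by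
    intro z
    by_cases hz : ∀ t ∈ S, z - t ∉ L
    · exact ⟨f z, (hd z hz).continuousAt.tendsto.mono_left nhdsWithin_le_nhds⟩
    · push Not at hz
      obtain ⟨t, ht, hl⟩ := hz
      obtain ⟨a, ha⟩ := hS t ht
      refine ⟨a, htr _ (neg_mem hl) z a ?_⟩
      have e : z + -(z - t) = t := by ring
      rw [e]
      exact ha
  choose g hg using hex
  have hgf : ∀ z, (∀ t ∈ S, z - t ∉ L) → g z = f z := fun z hz =>
    tendsto_nhds_unique (hg z) ((hd z hz).continuousAt.tendsto.mono_left nhdsWithin_le_nhds)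
  have hgd : ∀ z, (∀ t ∈ S, z - t ∉ L) → DifferentiableAt ℂ g z := by
    intro z hz
    refine (hd z hz).congr_of_eventuallyEq ?_
    filter_upwards [(compl_open h S).mem_nhds hz] with w hw
    exact hgf w hw
  have hD : Differentiable ℂ g := by
    intro z
    refine (Complex.analyticAt_of_differentiable_on_punctured_nhds_of_continuousAt
      ((compl_nhds h S z).mono hgd) ?_).differentiableAt
    refine continuousWithinAt_compl_self.1 ((hg z).congr' ?_)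
    filter_upwards [compl_nhds h S z] with w hw
    exact (hgf w hw).symm
  have hgp : ∀ z l, l ∈ L → g (z + l) = g z := fun z l hl =>
    tendsto_nhds_unique (htr l hl z _ (hg (z + l))) (hg z)
  obtain ⟨P, rfl⟩ := exists_pp h
  have hK := IsZLattice.isCompact_range_of_periodic P.lattice g hD.continuous hgp
  exact ⟨g 0, fun z hz => (hgf z hz).symm.trans (hD.apply_eq_apply_of_bounded hK.isBounded z 0)⟩

end Pool.Agent.P.MP_20768c_nt.Tz.Cv

end

-- part Cv.A2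
section

set_option autoImplicit false

open Complex NumberField IsDedekindDomain Filter Topology
open UpperHalfPlane hiding I
open scoped ComplexConjugate Real MatrixGroups

namespace Pool.Agent.P.MP_20768c_nt.Tz.Cv

open Pool.Agent.P.MP_20768c_nt.Tz.EQ (Lt pr sp IsLat jL qN)

variable {L L' : Lt} {R : Finset ℂ} {z : ℂ}

theorem a2_neg (L : Lt) (f : ℂ → ℂ) : ∑' l : L, f l = ∑' l : L, f (-l) := by
  rw [← (Equiv.neg L).tsum_eq]
  rfl

theorem a2_iter (h : IsLat L) (hz : z ∉ L) (n : ℕ) (hn : Odd n) :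
    iteratedDeriv n (wpd L) z = ((n + 2).factorial : ℂ) * ∑' l : L, ((z + l) ^ (n + 3))⁻¹ := by
  obtain ⟨P, rfl⟩ := exists_pp h
  have h1 := P.iteratedDeriv_derivWeierstrassPExcept_self z (n := n)
  rw [P.derivWeierstrassPExcept_of_notMem z hz] at h1
  refine h1.trans ?_
  congr 1
  rw [a2_neg P.lattice (fun l => ((z + l) ^ (n + 3))⁻¹)]
  refine tsum_congr fun l => ?_
  have he : Even (n + 3) := hn.add_odd (by decide)
  rw [← he.neg_pow]
  congr 2
  ring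

theorem a2_nhds (h : IsLat L) (hz : z ∉ L) : ∀ᶠ w in 𝓝 z, w ∉ L := by
  obtain ⟨P, rfl⟩ := exists_pp h
  exact P.isClosed_lattice.isOpen_compl.mem_nhds hz

theorem sum_four (h : IsLat L) (hz : z ∉ L) :
    ∑' l : L, ((z + l) ^ 4)⁻¹ = wp L z ^ 2 - g2 L / 12 := by
  have h1 := a2_iter h hz 1 odd_one
  rw [iteratedDeriv_one, (hasDerivAt_wpd h hz).deriv] at h1
  norm_num [Nat.factorial] at h1
  linear_combination -h1 / 6

theorem a2_d2 (h : IsLat L) (hz : z ∉ L) :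
    deriv (deriv (wpd L)) z = 12 * (wp L z * wpd L z) := by
  have d := (((hasDerivAt_wp h hz).fun_pow 2).const_mul 6).sub_const (g2 L / 2)
  have d2 : HasDerivAt (deriv (wpd L)) _ z :=
    d.congr_of_eventuallyEq ((a2_nhds h hz).mono fun w hw => (hasDerivAt_wpd h hw).deriv)
  rw [d2.deriv]
  norm_num
  ring

theorem sum_six (h : IsLat L) (hz : z ∉ L) :
    ∑' l : L, ((z + l) ^ 6)⁻¹ = wp L z ^ 3 - 3 / 20 * g2 L * wp L z - g3 L / 10 := by
  have h1 := a2_iter h hz 3 (by decide)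
  have d := ((hasDerivAt_wp h hz).fun_mul (hasDerivAt_wpd h hz)).const_mul 12
  have d2 : HasDerivAt (deriv (deriv (wpd L))) _ z :=
    d.congr_of_eventuallyEq ((a2_nhds h hz).mono fun w hw => a2_d2 h hw)
  rw [iteratedDeriv_succ, iteratedDeriv_succ, iteratedDeriv_one, d2.deriv] at h1
  norm_num [Nat.factorial] at h1
  have h2 := wpd_sq h hz
  linear_combination -h1 / 120 + h2 / 10

theorem sum_three (L : Lt) (z : ℂ) : ∑' l : L, ((z + l) ^ 3)⁻¹ = -wpd L z / 2 := by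
  rw [a2_neg L (fun l => ((z + l) ^ 3)⁻¹), wpd, neg_neg, ← tsum_div_const]
  refine tsum_congr fun l => ?_
  rw [← sub_eq_add_neg]
  ring

theorem a2_wp_zero (L : Lt) : wp L 0 = 0 := by
  simp [wp]

theorem velu_wp (h : IsLat L) (h' : IsLat L') (hR : Reps L L' R) (z : ℂ) :
    wp L' z = wp L z + ∑ t ∈ R.erase 0, (wp L (z + t) - wp L t) := by
  have h1 := reps_tsum hR (f := fun l => 1 / (z - l) ^ 2 - 1 / l ^ 2) (summable_wp h' z)
  have h2 : ∀ r : ℂ, ∑' l : L, (1 / (z - (r + l)) ^ 2 - 1 / (r + (l : ℂ)) ^ 2) =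
      wp L (z + -r) - wp L (-r) := by
    intro r
    rw [wp, wp, ← (summable_wp h _).tsum_sub (summable_wp h _)]
    refine tsum_congr fun l => ?_
    rw [show z + -r - (l : ℂ) = z - (r + l) by ring, show -r - (l : ℂ) = -(r + l) by ring, neg_sq]
    ring
  have h3 := hR.sum_bij (fun a => -a) (fun a ha => L'.neg_mem ha)
    (fun a _ b _ => by rw [show -a - -b = -(a - b) by ring, neg_mem_iff])
    (fun r => wp L (z + r) - wp L r)
    (fun a _ l hl => by rw [← add_assoc, wp_add h _ hl, wp_add h _ hl])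
  rw [wp, h1, Finset.sum_congr rfl fun r _ => h2 r, h3, ← Finset.add_sum_erase R _ hR.2.1, add_zero,
    a2_wp_zero, sub_zero]

theorem a2_G (h' : IsLat L') (hR : Reps L L' R) {n : ℕ} (hn : 2 < n) :
    Gk L' n = Gk L n + ∑ t ∈ R.erase 0, ∑' l : L, ((t + l) ^ n)⁻¹ := by
  have h0 := summable_pow h' 0 hn
  simp only [sub_zero] at h0
  rw [Gk, reps_tsum hR (f := fun l => (l ^ n)⁻¹) h0, ← Finset.add_sum_erase R _ hR.2.1, Gk]
  simp only [zero_add]

theorem a2_not (hR : Reps L L' R) {t : ℂ} (ht : t ∈ R.erase 0) : t ∉ L := by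
  obtain ⟨h0, h1⟩ := Finset.mem_erase.1 ht
  exact fun hl => h0 (hR.sub_mem h1 hR.2.1 (by rwa [sub_zero]))

theorem velu_g2 (h : IsLat L) (h' : IsLat L') (hR : Reps L L' R) :
    g2 L' = g2 L + ∑ t ∈ R.erase 0, (60 * wp L t ^ 2 - 5 * g2 L) := by
  have h1 := a2_G h' hR (n := 4) (by norm_num)
  rw [Finset.sum_congr rfl fun t ht => sum_four h (a2_not hR ht)] at h1
  have h2 : ∑ t ∈ R.erase 0, (60 * wp L t ^ 2 - 5 * g2 L) =
      60 * ∑ t ∈ R.erase 0, (wp L t ^ 2 - g2 L / 12) := by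
    rw [Finset.mul_sum]
    exact Finset.sum_congr rfl fun t _ => by ring
  rw [h2]
  have e1 : g2 L' = 60 * Gk L' 4 := rfl
  have e2 : g2 L = 60 * Gk L 4 := rfl
  linear_combination e1 - e2 + 60 * h1

theorem velu_g3 (h : IsLat L) (h' : IsLat L') (hR : Reps L L' R) :
    g3 L' = g3 L + ∑ t ∈ R.erase 0, (140 * wp L t ^ 3 - 21 * g2 L * wp L t - 14 * g3 L) := by
  have h1 := a2_G h' hR (n := 6) (by norm_num)
  rw [Finset.sum_congr rfl fun t ht => sum_six h (a2_not hR ht)] at h1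
  have h2 : ∑ t ∈ R.erase 0, (140 * wp L t ^ 3 - 21 * g2 L * wp L t - 14 * g3 L) =
      140 * ∑ t ∈ R.erase 0, (wp L t ^ 3 - 3 / 20 * g2 L * wp L t - g3 L / 10) := by
    rw [Finset.mul_sum]
    exact Finset.sum_congr rfl fun t _ => by ring
  rw [h2]
  have e1 : g3 L' = 140 * Gk L' 6 := rfl
  have e2 : g3 L = 140 * Gk L 6 := rfl
  linear_combination e1 - e2 + 140 * h1

end Pool.Agent.P.MP_20768c_nt.Tz.Cv

end

-- part Cv.G1a_p
section

set_option autoImplicit false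

open Complex NumberField IsDedekindDomain Filter Topology
open UpperHalfPlane hiding I
open scoped ComplexConjugate Real MatrixGroups

namespace Pool.Agent.P.MP_20768c_nt.Tz.Cv

open Pool.Agent.P.MP_20768c_nt.Tz.EQ (Lt pr sp IsLat jL qN)

variable {L : Lt}

theorem g1ap_inv (h : IsLat L) (z : ℂ) : Summable fun l : L => (‖z + l‖ ^ 3)⁻¹ := by
  refine (summable_pow h (-z) (n := 3) (by norm_num)).norm.congr fun l => ?_
  rw [norm_inv, norm_pow, sub_neg_eq_add, add_comm]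

theorem g1ap_bd {a : ℝ} (ha : 0 < a) (b : ℝ) (m : ℕ) {x : ℝ} (hx : 0 ≤ x) :
    x ^ m * Real.exp (-a * x ^ 2 + b * x) ≤ m.factorial * Real.exp ((b + 1) ^ 2 / (4 * a)) := by
  have h1 := Real.pow_div_factorial_le_exp x hx m
  rw [div_le_iff₀ (by positivity), mul_comm] at h1
  refine (mul_le_mul_of_nonneg_right h1 (Real.exp_pos _).le).trans ?_
  rw [mul_assoc, ← Real.exp_add]
  refine mul_le_mul_of_nonneg_left (Real.exp_le_exp.2 ?_) (Nat.cast_nonneg _)
  rw [le_div_iff₀ (by positivity)]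
  nlinarith [sq_nonneg (2 * a * x - (b + 1))]

theorem g1ap_sum (h : IsLat L) {a : ℝ} (ha : 0 < a) (b : ℝ) (n : ℕ) (z : ℂ) :
    Summable fun l : L => ‖z + l‖ ^ n * Real.exp (-a * ‖z + l‖ ^ 2 + b * ‖z + l‖) := by
  refine Summable.of_norm_bounded_eventually ((g1ap_inv h z).mul_left
    ((n + 3).factorial * Real.exp ((b + 1) ^ 2 / (4 * a)))) ?_
  have f : {l : L | z + l = 0}.Finite := Set.Subsingleton.finite fun x hx y hy =>
    Subtype.ext (add_left_cancel (hx.trans hy.symm))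
  filter_upwards [f.compl_mem_cofinite] with l hl
  have h0 : 0 < ‖z + l‖ := norm_pos_iff.2 hl
  rw [Real.norm_of_nonneg (by positivity), ← div_eq_mul_inv, le_div_iff₀ (by positivity),
    mul_right_comm, ← pow_add]
  exact g1ap_bd ha b _ h0.le

theorem summable_gauss (h : IsLat L) {u : ℂ} (hu : 0 < u.re) (n : ℕ) (A B : ℂ) :
    Summable fun l : L =>
      ‖(l : ℂ)‖ ^ n * ‖cexp (-u * (l * conj (l : ℂ)) + A * l + B * conj (l : ℂ))‖ := by
  refine Summable.of_nonneg_of_le (fun _ => by positivity) (fun l => ?_)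
    (g1ap_sum h hu (‖A‖ + ‖B‖) n 0)
  rw [zero_add, Complex.norm_exp]
  refine mul_le_mul_of_nonneg_left (Real.exp_le_exp.2 ?_) (by positivity)
  have h1 := Complex.re_le_norm (A * l)
  have h2 := Complex.re_le_norm (B * conj (l : ℂ))
  rw [norm_mul] at h1 h2
  rw [Complex.norm_conj] at h2
  rw [Complex.add_re, Complex.add_re, Complex.mul_conj, Complex.re_mul_ofReal, Complex.neg_re,
    Complex.normSq_eq_norm_sq]
  linarith

theorem summable_th (h : IsLat L) {u : ℂ} (hu : 0 < u.re) (n : ℕ) (z : ℂ) :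
    Summable fun l : L => ‖z + l‖ ^ n * Real.exp (-u.re * ‖z + l‖ ^ 2) := by
  simpa only [zero_mul, add_zero] using g1ap_sum h hu 0 n z

theorem gauss_decay (h : IsLat L) (n : ℕ) (z : ℂ) {a : ℝ} (ha : 0 < a) :
    ∃ C δ : ℝ, 0 < δ ∧ ∀ u : ℝ, a ≤ u →
      ∑' l : L, (if z + l = 0 then 0 else ‖z + l‖ ^ n * Real.exp (-u * ‖z + l‖ ^ 2)) ≤
        C * Real.exp (-δ * u) := by
  obtain ⟨M, hM⟩ : ∃ M, M = ∑' l : L, (‖z + l‖ ^ 3)⁻¹ + 1 := ⟨_, rfl⟩
  have M1 : 1 ≤ M := hM ▸ le_add_of_nonneg_left (tsum_nonneg fun _ => by positivity)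
  have h1 : ∀ l : L, z + l ≠ 0 → M⁻¹ ≤ ‖z + l‖ ^ 2 := fun l hl => by
    have h0 : 0 < ‖z + l‖ := norm_pos_iff.2 hl
    rcases le_total 1 ‖z + l‖ with h2 | h2
    · exact (inv_le_one_of_one_le₀ M1).trans (one_le_pow₀ h2)
    · refine le_trans (inv_le_of_inv_le₀ (by positivity) ?_) (pow_le_pow_of_le_one h0.le h2
        (show 2 ≤ 3 by norm_num))
      have := (g1ap_inv h z).le_tsum l fun _ _ => by positivity
      linarith
  have h2 := g1ap_sum h (half_pos ha) 0 n z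
  simp only [zero_mul, add_zero] at h2
  refine ⟨∑' l : L, ‖z + l‖ ^ n * Real.exp (-(a / 2) * ‖z + l‖ ^ 2), M⁻¹ / 2, by positivity,
    fun u hu => ?_⟩
  have h3 : ∀ l : L, (if z + l = 0 then 0 else ‖z + l‖ ^ n * Real.exp (-u * ‖z + l‖ ^ 2)) ≤
      ‖z + l‖ ^ n * Real.exp (-(a / 2) * ‖z + l‖ ^ 2) * Real.exp (-(M⁻¹ / 2) * u) := fun l => by
    split_ifs with hl
    · positivity
    rw [mul_assoc, ← Real.exp_add]
    refine mul_le_mul_of_nonneg_left (Real.exp_le_exp.2 ?_) (by positivity)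
    nlinarith [mul_le_mul_of_nonneg_left (h1 l hl) (ha.le.trans hu),
      mul_le_mul_of_nonneg_right hu (sq_nonneg ‖z + l‖)]
  rw [← tsum_mul_right]
  exact (Summable.of_nonneg_of_le (fun l => by positivity) h3 (h2.mul_right _)).tsum_le_tsum h3
    (h2.mul_right _)

end Pool.Agent.P.MP_20768c_nt.Tz.Cv

end

-- part Cv.G1a
section

set_option autoImplicit false

open Complex NumberField IsDedekindDomain Filter Topology
open UpperHalfPlane hiding I
open scoped ComplexConjugate Real MatrixGroups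

namespace Pool.Agent.P.MP_20768c_nt.Tz.Cv

open Pool.Agent.P.MP_20768c_nt.Tz.EQ (Lt pr sp IsLat jL qN)

variable {L : Lt}

theorem g1a_one {a : ℂ} (ha : 0 < a.re) (b : ℂ) :
    Summable fun n : ℤ => ‖cexp (-π * a * n ^ 2 + 2 * π * b * n)‖ := by
  rw [summable_norm_iff]
  have h := (summable_jacobiTheta₂_term_iff (-I * b) (I * a)).2 (by simpa using ha)
  refine h.congr fun n => ?_
  rw [jacobiTheta₂_term]
  congr 1
  linear_combination (π * n ^ 2 * a - 2 * π * n * b) * I_mul_I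

theorem g1a_sum0 (h : IsLat L) {v : ℂ} (hv : 0 < v.re) (A B : ℂ) :
    Summable fun l : L => cexp (-v * (l * conj (l : ℂ)) + A * l + B * conj (l : ℂ)) :=
  Summable.of_norm (by simpa only [pow_zero, one_mul] using summable_gauss h hv 0 A B)

theorem g1a_sum1 (h : IsLat L) {v : ℂ} (hv : 0 < v.re) (A B : ℂ) :
    Summable fun l : L =>
      conj (l : ℂ) * cexp (-v * (l * conj (l : ℂ)) + A * l + B * conj (l : ℂ)) :=
  Summable.of_norm (by
    simpa only [pow_one, norm_mul, Complex.norm_conj] using summable_gauss h hv 1 A B)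

theorem g1a_deriv (h : IsLat L) {v : ℂ} (hv : 0 < v.re) (A B : ℂ) :
    HasDerivAt (fun s => ∑' l : L, cexp (-v * (l * conj (l : ℂ)) + A * l + s * conj (l : ℂ)))
      (∑' l : L, conj (l : ℂ) * cexp (-v * (l * conj (l : ℂ)) + A * l + B * conj (l : ℂ))) B := by
  have hv' : 0 < (v - ((v.re / 2 : ℝ) : ℂ)).re := by
    rw [sub_re, ofReal_re]
    linarith
  have hs := (summable_gauss h hv' 1 A B).mul_left (Real.exp (1 / (2 * v.re)))
  refine hasDerivAt_tsum_of_isPreconnected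
    (g := fun (l : L) s => cexp (-v * (l * conj (l : ℂ)) + A * l + s * conj (l : ℂ)))
    (g' := fun (l : L) s =>
      conj (l : ℂ) * cexp (-v * (l * conj (l : ℂ)) + A * l + s * conj (l : ℂ)))
    hs (Metric.isOpen_ball (x := B) (ε := 1)) (convex_ball B 1).isPreconnected
    (fun l s _ => ?_) (fun l s hs => ?_) (Metric.mem_ball_self one_pos) (g1a_sum0 h hv A B)
    (Metric.mem_ball_self one_pos)
  · have h1 := (((hasDerivAt_id s).mul_const (conj (l : ℂ))).const_add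
      (-v * (l * conj (l : ℂ)) + A * l)).cexp
    simpa only [id, one_mul, mul_comm] using h1
  · have h1 : -v * (l * conj (l : ℂ)) + A * l + s * conj (l : ℂ) =
        (-(v - ((v.re / 2 : ℝ) : ℂ)) * (l * conj (l : ℂ)) + A * l + B * conj (l : ℂ)) +
          ((s - B) * conj (l : ℂ) - ((v.re / 2 * ‖(l : ℂ)‖ ^ 2 : ℝ) : ℂ)) := by
      rw [ofReal_mul, ofReal_pow, ← Complex.mul_conj']
      ring
    have h2 : ((s - B) * conj (l : ℂ)).re ≤ ‖(l : ℂ)‖ := by
      refine (re_le_norm _).trans ?_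
      rw [norm_mul, Complex.norm_conj]
      exact mul_le_of_le_one_left (norm_nonneg _) (by
        rw [← dist_eq_norm]; exact (Metric.mem_ball.1 hs).le)
    have h3 : ‖(l : ℂ)‖ - v.re / 2 * ‖(l : ℂ)‖ ^ 2 ≤ 1 / (2 * v.re) := by
      rw [le_div_iff₀ (by linarith)]
      nlinarith [sq_nonneg (v.re * ‖(l : ℂ)‖ - 1)]
    rw [h1, Complex.exp_add, norm_mul, norm_mul, Complex.norm_conj, pow_one, ← mul_assoc, mul_comm,
      Complex.norm_exp, sub_re, ofReal_re]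
    exact mul_le_mul_of_nonneg_right (Real.exp_le_exp.2 (by linarith)) (by positivity)

theorem g1a_equiv {c : ℂ} (hc : c ≠ 0) (τ : ℍ) :
    ∃ e : ℤ × ℤ ≃ sp c (c * τ), ∀ p, (e p : ℂ) = p.2 * c + p.1 * (c * τ) := by
  refine ⟨Equiv.ofBijective (fun p => ⟨p.2 * c + p.1 * (c * τ),
    Pool.Agent.P.MP_20768c_nt.Tz.EQ.mem_sp.2 ⟨_, _, rfl⟩⟩) ⟨?_, ?_⟩, fun _ => rfl⟩
  · rintro ⟨n, m⟩ ⟨n', m'⟩ h
    have h1 : (m : ℂ) * c + n * (c * τ) = m' * c + n' * (c * τ) := congrArg Subtype.val h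
    have h2 : ((n - n' : ℤ) : ℂ) * τ + ((m - m' : ℤ) : ℂ) = 0 := by
      apply mul_left_cancel₀ hc
      push_cast
      linear_combination h1
    obtain ⟨h3, h4⟩ := Pool.Agent.P.MP_20768c_nt.Tz.EQ.int_indep_lat τ h2
    rw [sub_eq_zero.1 h3, sub_eq_zero.1 h4]
  · rintro ⟨v, hv⟩
    obtain ⟨m, n, rfl⟩ := Pool.Agent.P.MP_20768c_nt.Tz.EQ.mem_sp.1 hv
    exact ⟨(n, m), rfl⟩

theorem g1a_sqrt {u : ℂ} (hu : u ≠ 0) {r s : ℝ} (hr : 0 < r) (hs : 0 < s) :
    ((r : ℂ) * u) ^ (1 / 2 : ℂ) * (((r * s ^ 2 : ℝ) : ℂ) * u) ^ (1 / 2 : ℂ) = r * s * u := by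
  have h0 : (r : ℂ) * u ≠ 0 := mul_ne_zero (ofReal_ne_zero.2 hr.ne') hu
  have h1 : ((r * s ^ 2 : ℝ) : ℂ) * u = ((s ^ 2 : ℝ) : ℂ) * (r * u) := by
    push_cast
    ring
  have h2 : ((s ^ 2 : ℝ) : ℂ) ^ (1 / 2 : ℂ) = s := by
    have h3 := ofReal_cpow (sq_nonneg s) (1 / 2)
    rw [← Real.sqrt_eq_rpow, Real.sqrt_sq hs.le] at h3
    rw [h3]
    norm_num
  have h4 : (((s ^ 2 : ℝ) : ℂ) * (r * u)) ^ (1 / 2 : ℂ) =
      ((s ^ 2 : ℝ) : ℂ) ^ (1 / 2 : ℂ) * ((r : ℂ) * u) ^ (1 / 2 : ℂ) := by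
    have h5 : ((s ^ 2 : ℝ) : ℂ) ≠ 0 := ofReal_ne_zero.2 (by positivity)
    rw [cpow_def_of_ne_zero (mul_ne_zero h5 h0), cpow_def_of_ne_zero h5, cpow_def_of_ne_zero h0,
      log_ofReal_mul (by positivity) h0, ← ofReal_log (sq_nonneg s), add_mul, Complex.exp_add]
  rw [h1, h4, h2, mul_left_comm, ← cpow_add _ _ h0, add_halves, cpow_one]
  ring

theorem g1a_two {a a' : ℂ} (ha : 0 < a.re) (ha' : 0 < a'.re) (x : ℝ) (b b' : ℂ) :
    ∑' n : ℤ, ∑' m : ℤ, cexp (-π * a * (m + x * n) ^ 2 + 2 * π * b * (m + x * n) +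
      (-π * a' * n ^ 2 + 2 * π * b' * n)) =
    1 / (a ^ (1 / 2 : ℂ) * a' ^ (1 / 2 : ℂ)) * ∑' p : ℤ, ∑' q : ℤ,
      cexp (-π / a * (-p + I * b) ^ 2 + -π / a' * (q + x * p + I * b') ^ 2) := by
  have ha0 : a ≠ 0 := fun h => by simp [h] at ha
  have h1 : ∀ n : ℤ, ∑' m : ℤ, cexp (-π * a * (m + x * n) ^ 2 + 2 * π * b * (m + x * n) +
      (-π * a' * n ^ 2 + 2 * π * b' * n)) = 1 / a ^ (1 / 2 : ℂ) * ∑' p : ℤ,
        cexp (-π / a * (-p + I * b) ^ 2) *
          cexp (-π * a' * n ^ 2 + 2 * π * (b' - I * x * p) * n) := by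
    intro n
    have h2 := Complex.tsum_exp_neg_quadratic ha (b - a * x * n)
    rw [← (Equiv.neg ℤ).tsum_eq fun p : ℤ => cexp (-π / a * (p + I * (b - a * x * n)) ^ 2)] at h2
    calc _ = (∑' m : ℤ, cexp (-π * a * m ^ 2 + 2 * π * (b - a * x * n) * m)) *
          cexp (-π * a * (x * n) ^ 2 + 2 * π * b * (x * n) +
            (-π * a' * n ^ 2 + 2 * π * b' * n)) := by
          rw [← tsum_mul_right]
          refine tsum_congr fun m => ?_
          rw [← Complex.exp_add]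
          congr 1
          ring
      _ = _ := by
          rw [h2, mul_assoc, ← tsum_mul_right]
          congr 1
          refine tsum_congr fun p => ?_
          rw [← Complex.exp_add, ← Complex.exp_add, Equiv.neg_apply, Int.cast_neg]
          congr 1
          have h3 : -π / a * a = -π := div_mul_cancel₀ _ ha0
          generalize -(π : ℂ) / a = k at h3
          linear_combination (2 * I * p * x * n + 2 * b * x * n - a * x ^ 2 * n ^ 2) * h3 +
            (k * (a * x * n) ^ 2 - 2 * k * b * a * x * n) * I_mul_I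
  have hinv : 0 < (a⁻¹).re := by
    rw [inv_re]
    exact div_pos ha (normSq_pos.2 ha0)
  have hs : Summable (Function.uncurry fun (n p : ℤ) => cexp (-π / a * (-p + I * b) ^ 2) *
      cexp (-π * a' * n ^ 2 + 2 * π * (b' - I * x * p) * n)) := by
    refine Summable.of_norm ?_
    have h2 := (summable_mul_of_summable_norm (g1a_one ha' b').norm
      (g1a_one hinv (I * b / a)).norm).mul_left ‖cexp (π / a * b ^ 2)‖
    refine h2.congr fun ⟨n, p⟩ => ?_
    have h3 : -π / a * (-p + I * b) ^ 2 =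
        π / a * b ^ 2 + (-π * a⁻¹ * p ^ 2 + 2 * π * (I * b / a) * p) := by
      linear_combination (-π / a * b ^ 2) * I_mul_I
    have h4 : -π * a' * n ^ 2 + 2 * π * (b' - I * x * p) * n =
        (-π * a' * n ^ 2 + 2 * π * b' * n) + ((-(2 * π * x * p * n) : ℝ) : ℂ) * I := by
      push_cast
      ring
    simp only [Function.uncurry]
    rw [h3, h4, Complex.exp_add (π / a * b ^ 2), Complex.exp_add (_ + 2 * π * b' * n), norm_mul,
      norm_mul, norm_mul, norm_exp_ofReal_mul_I]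
    ring
  simp_rw [h1]
  rw [tsum_mul_left, ← hs.tsum_comm, ← one_div_mul_one_div, mul_assoc]
  congr 1
  rw [← tsum_mul_left]
  refine tsum_congr fun p => ?_
  rw [tsum_mul_left, Complex.tsum_exp_neg_quadratic ha', mul_left_comm, ← tsum_mul_left]
  congr 1
  refine tsum_congr fun q => ?_
  rw [← Complex.exp_add, show (q : ℂ) + I * (b' - I * x * p) = q + x * p + I * b' by
    linear_combination (-(x : ℂ) * p) * I_mul_I]

theorem g1a_pos {A : ℝ} (hA : 0 < A) {u : ℂ} (hu : 0 < u.re) :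
    0 < ((π : ℂ) ^ 2 / (A ^ 2 * u)).re := by
  have hu0 : u ≠ 0 := fun h => by simp [h] at hu
  have h : (π : ℂ) ^ 2 / (A ^ 2 * u) = ((π ^ 2 / A ^ 2 : ℝ) : ℂ) * u⁻¹ := by
    push_cast
    rw [← div_div, div_eq_mul_inv]
  rw [h, re_ofReal_mul, inv_re]
  exact mul_pos (by positivity) (div_pos hu (normSq_pos.2 hu0))

theorem g1a_core (h : IsLat L) (z w : ℂ) {u : ℂ} (hu : 0 < u.re) :
    cexp (-u * z * w) *
      ∑' l : L, cexp (-u * (l * conj (l : ℂ)) + -u * w * l + -u * z * conj (l : ℂ)) =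
    π / (ar L * u) * ∑' l : L, cexp (-(π ^ 2 / (ar L ^ 2 * u)) * (l * conj (l : ℂ)) +
      -(π / ar L) * w * l + π / ar L * z * conj (l : ℂ)) := by
  have hs1 := g1a_sum0 h hu (-u * w) (-u * z)
  have hs2 := g1a_sum0 h (g1a_pos (ar_pos h) hu) (-(π / ar L) * w) (π / ar L * z)
  obtain ⟨c, τ, hc, rfl⟩ := h
  obtain ⟨e, he⟩ := g1a_equiv hc τ
  have hu0 : u ≠ 0 := fun h => by simp [h] at hu
  have hN : 0 < ‖c‖ ^ 2 := by positivity
  have hy := τ.im_pos
  have hτ : (τ : ℂ) = τ.re + τ.im * I := (re_add_im (τ : ℂ)).symm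
  have hcc : c * conj c = ((‖c‖ ^ 2 : ℝ) : ℂ) := by rw [Complex.mul_conj', ofReal_pow]
  rw [← e.summable_iff, Function.comp_def] at hs1 hs2
  rw [← e.tsum_eq, ← e.tsum_eq, hs1.tsum_prod, hs2.tsum_prod]
  simp only [he]
  rw [ar_sp hc τ, hτ]
  generalize ‖c‖ ^ 2 = N at hN hcc
  generalize τ.re = x
  generalize τ.im = y at hy
  have hN0 : (N : ℂ) ≠ 0 := ofReal_ne_zero.2 hN.ne'
  have hy0 : (y : ℂ) ≠ 0 := ofReal_ne_zero.2 hy.ne'
  have hπ : (π : ℂ) ≠ 0 := ofReal_ne_zero.2 Real.pi_ne_zero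
  have hr : 0 < N / π := div_pos hN Real.pi_pos
  have h1 := g1a_two (a := ((N / π : ℝ) : ℂ) * u) (a' := ((N / π * y ^ 2 : ℝ) : ℂ) * u)
    (by rw [re_ofReal_mul]; positivity) (by rw [re_ofReal_mul]; positivity) x
    (-u * (w * c + z * conj c) / (2 * π)) (-u * I * y * (w * c - z * conj c) / (2 * π))
  rw [g1a_sqrt hu0 hr hy] at h1
  simp only [map_add, map_mul, map_intCast, conj_ofReal, conj_I]
  generalize conj c = d at hcc h1
  have h2 : ∀ n m : ℤ, -u * ((m * c + n * (c * (x + y * I))) * (m * d + n * (d * (x + y * -I)))) +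
      -u * w * (m * c + n * (c * (x + y * I))) + -u * z * (m * d + n * (d * (x + y * -I))) =
      -π * (((N / π : ℝ) : ℂ) * u) * (m + x * n) ^ 2 +
        2 * π * (-u * (w * c + z * d) / (2 * π)) * (m + x * n) +
      (-π * (((N / π * y ^ 2 : ℝ) : ℂ) * u) * n ^ 2 +
        2 * π * (-u * I * y * (w * c - z * d) / (2 * π)) * n) := by
    intro n m
    rw [ofReal_mul, ofReal_div, ofReal_pow, mul_div_cancel₀ _ (mul_ne_zero two_ne_zero hπ),
      mul_div_cancel₀ _ (mul_ne_zero two_ne_zero hπ)]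
    have h3 : (π : ℂ) * (N / π) = N := mul_div_cancel₀ _ hπ
    generalize (N : ℂ) / π = k at h3
    linear_combination (u * (m + x * n) ^ 2 + u * y ^ 2 * n ^ 2) * h3 -
      (u * (m + x * n) ^ 2 + u * y ^ 2 * n ^ 2) * hcc + (u * c * d * y ^ 2 * n ^ 2) * I_mul_I
  have h4 : ∀ p q : ℤ, -u * z * w + (-π / (((N / π : ℝ) : ℂ) * u) *
      (-p + I * (-u * (w * c + z * d) / (2 * π))) ^ 2 + -π / (((N / π * y ^ 2 : ℝ) : ℂ) * u) *
      (q + x * p + I * (-u * I * y * (w * c - z * d) / (2 * π))) ^ 2) =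
      -(π ^ 2 / (((N * y : ℝ) : ℂ) ^ 2 * u)) *
        ((q * c + p * (c * (x + y * I))) * (q * d + p * (d * (x + y * -I)))) +
      -(π / ((N * y : ℝ) : ℂ)) * w * (q * c + p * (c * (x + y * I))) +
        π / ((N * y : ℝ) : ℂ) * z * (q * d + p * (d * (x + y * -I))) := by
    intro p q
    have h5 : (q * c + p * (c * (x + y * I))) * (q * d + p * (d * (x + y * -I))) =
        N * ((q + x * p) ^ 2 + y ^ 2 * p ^ 2) := by
      linear_combination ((q + x * p) ^ 2 + y ^ 2 * p ^ 2) * hcc -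
        (c * d * y ^ 2 * p ^ 2) * I_mul_I
    have h6 : (-p + I * (-u * (w * c + z * d) / (2 * π))) ^ 2 =
        p ^ 2 + I * p * u * (w * c + z * d) / π - u ^ 2 * (w * c + z * d) ^ 2 / (4 * π ^ 2) := by
      have h7 : -u * (w * c + z * d) / (2 * π) = -(u * (w * c + z * d) / π) / 2 := by ring
      have h8 : u ^ 2 * (w * c + z * d) ^ 2 / (4 * π ^ 2) = (u * (w * c + z * d) / π) ^ 2 / 4 := by
        ring
      rw [h7, h8, mul_assoc (I * p), mul_div_assoc (I * p)]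
      generalize u * (w * c + z * d) / π = k
      linear_combination (k ^ 2 / 4) * I_mul_I
    have h9 : I * (-u * I * y * (w * c - z * d) / (2 * π)) = u * y * (w * c - z * d) / (2 * π) := by
      linear_combination (-u * y * (w * c - z * d) / (2 * π)) * I_mul_I
    rw [h5, h6, h9]
    push_cast
    field_simp
    linear_combination (16 * u ^ 2 * y ^ 2 * z * w) * hcc
  simp_rw [h2]
  rw [h1, mul_left_comm, ← tsum_mul_left]
  congr 1
  · push_cast
    field_simp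
  · refine tsum_congr fun p => ?_
    rw [← tsum_mul_left]
    refine tsum_congr fun q => ?_
    rw [← Complex.exp_add, h4]

theorem poissonP (h : IsLat L) (z w : ℂ) {u : ℂ} (hu : 0 < u.re) :
    ∑' l : L, cexp (-u * ((z + l) * (w + conj (l : ℂ)))) = π / (ar L * u) *
      ∑' l : L, cexp (π * (conj (l : ℂ) * z - l * w) / ar L -
        π ^ 2 * (l * conj (l : ℂ)) / (ar L ^ 2 * u)) := by
  have h1 := g1a_core h z w hu
  rw [← tsum_mul_left] at h1
  refine Eq.trans (tsum_congr fun l => ?_) (h1.trans (congrArg _ (tsum_congr fun l => ?_)))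
  · rw [← Complex.exp_add]
    congr 1
    ring
  · congr 1
    ring

theorem poissonP1 (h : IsLat L) (z w : ℂ) {u : ℂ} (hu : 0 < u.re) :
    ∑' l : L, (w + conj (l : ℂ)) * cexp (-u * ((z + l) * (w + conj (l : ℂ)))) =
      -(π ^ 2 / (ar L ^ 2 * u ^ 2)) * ∑' l : L, conj (l : ℂ) *
        cexp (π * (conj (l : ℂ) * z - l * w) / ar L - π ^ 2 * (l * conj (l : ℂ)) / (ar L ^ 2 * u)) := by
  have hu0 : u ≠ 0 := fun h => by simp [h] at hu
  have d1 := ((((hasDerivAt_id z).const_mul (-u)).mul_const w).cexp).mul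
    ((g1a_deriv h hu (-u * w) (-u * z)).comp z ((hasDerivAt_id z).const_mul (-u)))
  have d2 := ((g1a_deriv h (g1a_pos (ar_pos h) hu) (-(π / ar L) * w) (π / ar L * z)).comp z
    ((hasDerivAt_id z).const_mul (π / ar L : ℂ))).const_mul (π / (ar L * u))
  have h1 := d1.unique (d2.congr_of_eventuallyEq
    (Eventually.of_forall fun s => g1a_core h s w hu))
  simp only [id, mul_one, Function.comp] at h1
  have h2 : ∑' l : L, (w + conj (l : ℂ)) * cexp (-u * ((z + l) * (w + conj (l : ℂ)))) =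
      cexp (-u * z * w) * (w * ∑' l : L, cexp (-u * (l * conj (l : ℂ)) + -u * w * l +
        -u * z * conj (l : ℂ)) + ∑' l : L, conj (l : ℂ) * cexp (-u * (l * conj (l : ℂ)) +
        -u * w * l + -u * z * conj (l : ℂ))) := by
    rw [← tsum_mul_left, ← ((g1a_sum0 h hu _ _).mul_left w).tsum_add (g1a_sum1 h hu _ _),
      ← tsum_mul_left]
    refine tsum_congr fun l => ?_
    rw [← add_mul, mul_left_comm (cexp _), ← Complex.exp_add]
    congr 2
    ring
  have h3 : ∑' l : L, conj (l : ℂ) * cexp (π * (conj (l : ℂ) * z - l * w) / ar L -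
      π ^ 2 * (l * conj (l : ℂ)) / (ar L ^ 2 * u)) =
      ∑' l : L, conj (l : ℂ) * cexp (-(π ^ 2 / (ar L ^ 2 * u)) * (l * conj (l : ℂ)) +
        -(π / ar L) * w * l + π / ar L * z * conj (l : ℂ)) := by
    refine tsum_congr fun l => ?_
    congr 2
    ring
  rw [h2, h3]
  apply mul_left_cancel₀ (neg_ne_zero.2 hu0)
  have h5 : -u * -((π : ℂ) ^ 2 / (ar L ^ 2 * u ^ 2)) = π / (ar L * u) * (π / ar L) := by
    field_simp
  rw [← mul_assoc (-u) (-_), h5]
  linear_combination h1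

theorem poisson0 (h : IsLat L) (z : ℂ) {u : ℂ} (hu : 0 < u.re) :
    th0 L z u = π / (ar L * u) *
      ∑' l : L, pa L l z * cexp (-(π ^ 2 / (ar L ^ 2 * u)) * (l * conj (l : ℂ))) := by
  have h1 := poissonP h z (conj z) hu
  simp only [th0, pa, map_add]
  rw [h1]
  congr 1
  refine tsum_congr fun l => ?_
  rw [← Complex.exp_add]
  congr 1
  ring

theorem poisson1 (h : IsLat L) (z : ℂ) {u : ℂ} (hu : 0 < u.re) :
    th1 L z u = -(π ^ 2 / (ar L ^ 2 * u ^ 2)) *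
      ∑' l : L, conj (l : ℂ) * pa L l z * cexp (-(π ^ 2 / (ar L ^ 2 * u)) * (l * conj (l : ℂ))) := by
  have h1 := poissonP1 h z (conj z) hu
  simp only [th1, pa, map_add]
  rw [h1]
  congr 1
  refine tsum_congr fun l => ?_
  rw [mul_assoc, ← Complex.exp_add]
  congr 2
  ring

end Pool.Agent.P.MP_20768c_nt.Tz.Cv

end
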