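import Pool.Agent.P.MP_20768c_nt.Tz.Z0
import Pool.Agent.P.MP_20768c_nt.Tz.Z2

-- part Cv.J4_p
section

set_option autoImplicit false

open Complex NumberField IsDedekindDomain Filter Topology
open UpperHalfPlane hiding I
open scoped ComplexConjugate Real MatrixGroups

namespace Pool.Agent.P.MP_20768c_nt.Tz.Cv

open Pool.Agent.P.MP_20768c_nt.Tz.EQ (Lt pr sp IsLat jL qN)

variable {κ G H : Type} [Field κ]

theorem j4p_map {σ : G → H} (hσ : Function.Surjective σ) {A : Set (G → κ)} {B : Set (H → κ)}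
    (h : A = (fun f => f ∘ σ) '' B) :
    Module.finrank κ (Submodule.span κ A) = Module.finrank κ (Submodule.span κ B) := by
  have e : Submodule.span κ A = (Submodule.span κ B).map (LinearMap.funLeft κ κ σ) := by
    rw [h, Submodule.map_span]
    rfl
  rw [e]
  exact (Submodule.equivMapOfInjective _ (LinearMap.funLeft_injective_of_surjective κ κ σ hσ)
    _).finrank_eq.symm

theorem tk_comp [Group G] [Group H] (π' : G →* H) (hπ : Function.Surjective π') (β : H → κ) :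
    tk (fun g => β (π' g)) = tk β := by
  refine j4p_map hπ (Set.ext fun f => ⟨?_, ?_⟩)
  · rintro ⟨h, rfl⟩
    exact ⟨_, ⟨π' h, rfl⟩, funext fun g => by simp⟩
  · rintro ⟨_, ⟨h, rfl⟩, rfl⟩
    obtain ⟨h, rfl⟩ := hπ h
    exact ⟨h, funext fun g => by simp⟩

theorem tk_inv [CommGroup H] (β : H → κ) (h₀ : H) : tk (fun b => β (h₀ * b⁻¹)) = tk β := by
  refine j4p_map (σ := fun b => h₀ * b⁻¹) (fun b => ⟨b⁻¹ * h₀, by simp⟩)
    (Set.ext fun f => ⟨?_, ?_⟩)
  · rintro ⟨h, rfl⟩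
    exact ⟨_, ⟨h⁻¹, rfl⟩, funext fun g => by simp only [Function.comp_apply, mul_inv, mul_assoc]⟩
  · rintro ⟨_, ⟨h, rfl⟩, rfl⟩
    exact ⟨h⁻¹, funext fun g => by simp only [Function.comp_apply, mul_inv, mul_assoc, inv_inv]⟩

theorem tk_smul [Group H] (β : H → κ) {x : κ} (hx : x ≠ 0) : tk (fun b => x * β b) = tk β := by
  unfold tk
  have e : Submodule.span κ (Set.range fun h g : H => x * β (g * h)) =
      Submodule.span κ (Set.range fun h g : H => β (g * h)) := by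
    refine le_antisymm (Submodule.span_le.2 ?_) (Submodule.span_le.2 ?_)
    · rintro _ ⟨h, rfl⟩
      exact Submodule.smul_mem _ x (Submodule.subset_span ⟨h, rfl⟩)
    · rintro _ ⟨h, rfl⟩
      exact (Submodule.smul_mem_iff _ hx).1 (Submodule.subset_span ⟨h, rfl⟩)
  rw [e]

/-- inflation twisted by a power of a character -/
def j4p_P [Group G] [Group H] (η : G →* κˣ) (π' : G →* H) (k : ℕ) : (H → κ) →ₗ[κ] (G → κ) where
  toFun a g := (η g : κ) ^ k * a (π' g)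
  map_add' a b := funext fun g => by simp only [Pi.add_apply, mul_add]
  map_smul' c a := funext fun g => by
    simp only [Pi.smul_apply, smul_eq_mul, RingHom.id_apply, mul_left_comm]

theorem abj6_P {κ G H : Type} [Field κ] [Group G] [Group H] (η : G →* κˣ) (π' : G →* H)
    (a : H → κ) (g : G) : j4p_P η π' 1 a g = η g * a (π' g) := by
  change (η g : κ) ^ 1 * a (π' g) = _
  rw [pow_one]

/-- a translation invariant space contains the eigencomponents of its members -/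
theorem abj6_proj {κ G H ι : Type} [Field κ] [Group G] [Group H] (η : ι → G →* κˣ) (π' : G →* H)
    (V : Submodule κ (G → κ)) (hV : ∀ f ∈ V, ∀ h : G, (fun g => f (g * h)) ∈ V) (T : Finset ι)
    (hd : ∀ i ∈ T, ∀ j ∈ T, i ≠ j → ∃ g, π' g = 1 ∧ η i g ≠ η j g) (a : ι → H → κ)
    (h : ∑ i ∈ T, j4p_P (η i) π' 1 (a i) ∈ V) : ∀ i ∈ T, j4p_P (η i) π' 1 (a i) ∈ V := by
  classical
  induction T using Finset.induction_on generalizing a with
  | empty => exact fun i hi => absurd hi (Finset.notMem_empty _)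
  | @insert j T hj ih =>
    rw [Finset.sum_insert hj] at h
    have key : ∀ i ∈ T, j4p_P (η i) π' 1 (a i) ∈ V := fun i hi => by
      obtain ⟨g₀, h0, h1⟩ := hd i (Finset.mem_insert_of_mem hi) j (Finset.mem_insert_self _ _)
        fun e => hj (e ▸ hi)
      have h2 := ih (fun i hi j hj =>
        hd i (Finset.mem_insert_of_mem hi) j (Finset.mem_insert_of_mem hj))
        (fun i => ((η i g₀ : κ) - η j g₀) • a i) (by
          convert sub_mem (hV _ h g₀) (V.smul_mem (η j g₀ : κ) h) using 1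
          funext g
          simp only [Pi.sub_apply, Pi.add_apply, Pi.smul_apply, Finset.sum_apply, abj6_P,
            smul_eq_mul, map_mul, h0, mul_one, Units.val_mul, mul_add, Finset.mul_sum]
          rw [add_sub_add_comm, ← Finset.sum_sub_distrib,
            show (η j g : κ) * η j g₀ * a j (π' g) - η j g₀ * (η j g * a j (π' g)) = 0 by ring,
            zero_add]
          exact Finset.sum_congr rfl fun i _ => by ring) i hi
      rw [map_smul] at h2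
      exact (V.smul_mem_iff (sub_ne_zero.2 fun e => h1 (Units.ext e))).1 h2
    intro i hi
    rcases Finset.mem_insert.1 hi with rfl | hi
    · exact (V.add_mem_iff_left (V.sum_mem key)).1 h
    · exact key i hi

theorem abj6_span {κ G : Type} [Field κ] [Group G] (F : G → κ) :
    ∀ f ∈ Submodule.span κ (Set.range fun h g : G => F (g * h)), ∀ k : G,
      (fun g => f (g * k)) ∈ Submodule.span κ (Set.range fun h g : G => F (g * h)) := by
  intro f hf k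
  induction hf using Submodule.span_induction with
  | mem x hx =>
    obtain ⟨h, rfl⟩ := hx
    exact Submodule.subset_span ⟨k * h, funext fun g => by simp only [mul_assoc]⟩
  | zero => exact zero_mem _
  | add x y _ _ hx hy => exact add_mem hx hy
  | smul c x _ hx => exact Submodule.smul_mem _ c hx

theorem tk_many' {κ G H ι : Type} [Field κ] [Group G] [Group H] [Finite H] (T : Finset ι)
    (η : ι → G →* κˣ) (π' : G →* H) (hπ : Function.Surjective π')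
    (hd : ∀ i ∈ T, ∀ j ∈ T, i ≠ j → ∃ g, π' g = 1 ∧ η i g ≠ η j g) (β : ι → H → κ) :
    ∑ i ∈ T, tk (β i) ≤ tk fun g => ∑ i ∈ T, (η i g : κ) * β i (π' g) := by
  classical
  unfold tk
  set F : G → κ := fun g => ∑ i ∈ T, (η i g : κ) * β i (π' g) with hF
  set V := Submodule.span κ (Set.range fun h g : G => F (g * h)) with hV
  have hst := abj6_span F
  have hFs : F = ∑ i ∈ T, j4p_P (η i) π' 1 (β i) := funext fun g => by
    simp only [hF, Finset.sum_apply, abj6_P]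
  have hFV : F ∈ V := Submodule.subset_span ⟨1, funext fun g => by simp only [mul_one]⟩
  have h1 := abj6_proj η π' V hst T hd β (hFs ▸ hFV)
  have hle : V ≤ T.sup fun i => LinearMap.range (j4p_P (η i) π' 1) := by
    refine Submodule.span_le.2 ?_
    rintro _ ⟨h, rfl⟩
    have : (fun g => F (g * h)) =
        ∑ i ∈ T, j4p_P (η i) π' 1 fun x => η i h * β i (x * π' h) := funext fun g => by
      simp only [hF, Finset.sum_apply, abj6_P, map_mul, Units.val_mul, mul_assoc]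
    change (fun g => F (g * h)) ∈ _
    rw [this]
    exact Submodule.sum_mem _ fun i hi =>
      Finset.le_sup (f := fun i => LinearMap.range (j4p_P (η i) π' 1)) hi ⟨_, rfl⟩
  have fd : FiniteDimensional κ V := Submodule.finiteDimensional_of_le hle
  let W : ι → Submodule κ (H → κ) := fun i =>
    Submodule.span κ (Set.range fun h g : H => β i (g * h))
  have hW : ∀ i ∈ T, W i ≤ V.comap (j4p_P (η i) π' 1) := fun i hi => by
    refine Submodule.span_le.2 ?_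
    rintro _ ⟨h, rfl⟩
    obtain ⟨h, rfl⟩ := hπ h
    refine (V.smul_mem_iff (η i h).ne_zero).1 ?_
    convert hst _ (h1 i hi) h using 1
    funext g
    simp only [Pi.smul_apply, abj6_P, smul_eq_mul, map_mul, Units.val_mul]
    ring
  let Ψ : (∀ i : T, W i) →ₗ[κ] (G → κ) :=
    ∑ i : T, j4p_P (η i) π' 1 ∘ₗ (W i).subtype ∘ₗ LinearMap.proj i
  have hΨ : ∀ x, Ψ x = ∑ i : T, j4p_P (η i) π' 1 (x i) := fun x => by
    simp only [Ψ, LinearMap.sum_apply, LinearMap.comp_apply, LinearMap.proj_apply,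
      Submodule.subtype_apply]
  rw [← Finset.sum_coe_sort T, ← Module.finrank_pi_fintype κ (M := fun i : T => W i)]
  refine LinearMap.finrank_le_finrank_of_injective (f := LinearMap.codRestrict V Ψ fun x => by
    rw [hΨ]
    exact V.sum_mem fun i _ => hW i i.2 (x i).2) ((injective_iff_map_eq_zero _).2 fun x hx => ?_)
  have h2 : Ψ x = 0 := congrArg Subtype.val hx
  rw [hΨ] at h2
  have h3 := abj6_proj (fun i : T => η i) π' ⊥ (fun f hf h => by
      rw [Submodule.mem_bot] at hf ⊢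
      rw [hf]
      rfl) Finset.univ
    (fun i _ j _ e => hd i i.2 j j.2 fun e' => e (Subtype.ext e')) (fun i => x i) ((Submodule.mem_bot κ).2 h2)
  funext i
  refine Subtype.ext (funext fun y => ?_)
  obtain ⟨g, rfl⟩ := hπ y
  have h4 := congrFun ((Submodule.mem_bot κ).1 (h3 i (Finset.mem_univ _))) g
  rw [abj6_P] at h4
  exact (mul_eq_zero.1 h4).resolve_left (Units.ne_zero _)

theorem tk_many [Group G] [Group H] [Finite H] {ι : Type} [Fintype ι] (l : ι → G →* κˣ)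
    (π' : G →* H) (hπ : Function.Surjective π')
    (hl : ∀ i j, (∀ g, π' g = 1 → l i g = l j g) → i = j) (β : ι → H → κ) :
    ∑ i, tk (β i) ≤ tk fun g => ∑ i, (l i g : κ) * β i (π' g) := by
  refine tk_many' Finset.univ l π' hπ (fun i _ j _ e => ?_) β
  by_contra h
  exact e (hl i j fun g hg => by_contra fun h' => h ⟨g, hg, h'⟩)

theorem j4_nil {V : Type} [AddCommGroup V] [Module κ V] (t : Module.End κ V) (U : Submodule κ V)
    [FiniteDimensional κ U] (hU : ∀ y ∈ U, t y ∈ U) {y : V} (hy : y ∈ U) {N j : ℕ}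
    (hN : (t ^ N) y = 0) (hj : (t ^ j) y ≠ 0) : j < Module.finrank κ U := by
  have h1 := Module.End.ker_pow_le_ker_pow_finrank (t.restrict hU) N (x := ⟨y, hy⟩) (by
    rw [LinearMap.mem_ker, Module.End.pow_restrict]
    exact Subtype.ext hN)
  rw [LinearMap.mem_ker, Module.End.pow_restrict] at h1
  have h2 : (t ^ Module.finrank κ U) y = 0 := congrArg Subtype.val h1
  by_contra h
  obtain ⟨d, rfl⟩ := Nat.exists_eq_add_of_le' (not_lt.1 h)
  exact hj (by rw [pow_add, Module.End.mul_apply, h2, map_zero])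

theorem indep_two {V : Type} [AddCommGroup V] [Module κ V] (h2 : (2 : κ) ≠ 0)
    (t ε : Module.End κ V) (hc : t * ε = ε * t) (hε : ε * ε = 1) {x : V} {N j : ℕ}
    (hN : (t ^ N) x = 0) (hp : (t ^ j) x + ε ((t ^ j) x) ≠ 0) (hm : (t ^ j) x - ε ((t ^ j) x) ≠ 0)
    (W : Submodule κ V) [FiniteDimensional κ W] (hx : x ∈ W) (ht : ∀ y ∈ W, t y ∈ W)
    (he : ∀ y ∈ W, ε y ∈ W) : 2 * (j + 1) ≤ Module.finrank κ W := by
  have hq : ∀ i : ℕ, (t ^ i) (ε x) = ε ((t ^ i) x) := fun i =>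
    LinearMap.congr_fun (Commute.pow_left hc i).eq x
  have h1 : ∀ y, t (ε y) = ε (t y) := LinearMap.congr_fun hc
  have h3 : ε (ε x) = x := LinearMap.congr_fun hε x
  have key : ∀ e : κ, e * e = 1 → (t ^ j) x + e • ε ((t ^ j) x) ≠ 0 →
      j < Module.finrank κ ↥(W ⊓ LinearMap.ker (ε - e • 1)) := fun e e1 e2 => by
    have : FiniteDimensional κ ↥(W ⊓ LinearMap.ker (ε - e • 1)) :=
      Submodule.finiteDimensional_of_le inf_le_left
    refine j4_nil t (W ⊓ LinearMap.ker (ε - e • 1))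
      (fun y hy => Submodule.mem_inf.2 ⟨ht y hy.1, ?_⟩) (y := x + e • ε x) (N := N)
      (Submodule.mem_inf.2 ⟨add_mem hx (W.smul_mem e (he x hx)), ?_⟩) ?_ ?_
    · have := congrArg t (LinearMap.mem_ker.1 hy.2)
      simp only [LinearMap.sub_apply, LinearMap.smul_apply, Module.End.one_apply, map_sub,
        map_smul, map_zero, h1] at this
      exact LinearMap.mem_ker.2 this
    · refine LinearMap.mem_ker.2 ?_
      simp only [LinearMap.sub_apply, LinearMap.smul_apply, Module.End.one_apply, map_add,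
        map_smul, h3, smul_sub, smul_smul, e1, one_smul]
      abel
    · rw [map_add, map_smul, hq, hN, map_zero, smul_zero, add_zero]
    · rwa [map_add, map_smul, hq]
  have k1 := key 1 (one_mul 1) (by rwa [one_smul])
  have k2 := key (-1) (by ring) (by rwa [neg_one_smul, ← sub_eq_add_neg])
  have d : (W ⊓ LinearMap.ker (ε - (1 : κ) • 1)) ⊓ (W ⊓ LinearMap.ker (ε - (-1 : κ) • 1)) = ⊥ := by
    refine eq_bot_iff.2 fun y hy => (Submodule.mem_bot κ).2 ?_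
    have a1 := LinearMap.mem_ker.1 hy.1.2
    have a2 := LinearMap.mem_ker.1 hy.2.2
    simp only [LinearMap.sub_apply, LinearMap.add_apply, Module.End.one_apply, one_smul,
      neg_one_smul, sub_neg_eq_add] at a1 a2
    refine (smul_eq_zero.1 ?_).resolve_left h2
    rw [two_smul]
    rwa [sub_eq_zero.1 a1] at a2
  have : FiniteDimensional κ ↥(W ⊓ LinearMap.ker (ε - (1 : κ) • 1)) :=
    Submodule.finiteDimensional_of_le inf_le_left
  have : FiniteDimensional κ ↥(W ⊓ LinearMap.ker (ε - (-1 : κ) • 1)) :=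
    Submodule.finiteDimensional_of_le inf_le_left
  have k3 := Submodule.finrank_sup_add_finrank_inf_eq (W ⊓ LinearMap.ker (ε - (1 : κ) • 1))
    (W ⊓ LinearMap.ker (ε - (-1 : κ) • 1))
  rw [d, finrank_bot] at k3
  have k4 := Submodule.finrank_mono (sup_le (inf_le_left (a := W) (b := LinearMap.ker
    (ε - (1 : κ) • 1))) (inf_le_left (a := W) (b := LinearMap.ker (ε - (-1 : κ) • 1))))
  omega

end Pool.Agent.P.MP_20768c_nt.Tz.Cv

end

-- part Cv.K1
section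

set_option autoImplicit false

open Complex NumberField IsDedekindDomain Filter Topology
open UpperHalfPlane hiding I
open scoped ComplexConjugate Real MatrixGroups

namespace Pool.Agent.P.MP_20768c_nt.Tz.Cv

open Pool.Agent.P.MP_20768c_nt.Tz.EQ (Lt pr sp IsLat jL qN)

variable (F : Type) [Field F] [NumberField F] {a : Ideal (𝓞 F) → ℂ} {C : ℕ} {t : ℝ}

theorem k1_lsum (ht : 1 < t) :
    LSeriesSummable (fun n => ((Nat.card {I : Ideal (𝓞 F) // Ideal.absNorm I = n} : ℝ) : ℂ)) t := by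
  refine LSeriesSummable_of_sum_norm_bigO_and_nonneg (r := 1) ?_ (fun _ => Nat.cast_nonneg _)
    zero_le_one (by simpa using ht)
  have h : Tendsto (fun n : ℕ => (∑ k ∈ Finset.Icc 1 n,
      (Nat.card {I : Ideal (𝓞 F) // Ideal.absNorm I = k} : ℝ)) / n) atTop
      (𝓝 (dedekindZeta_residue F)) := by
    refine ((Ideal.tendsto_norm_le_div_atTop₀ F).comp tendsto_natCast_atTop_atTop).congr
      fun n => ?_
    simp only [Function.comp_apply, Nat.cast_le, ← Nat.cast_sum]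
    congr
    rw [← add_left_inj 1, ← Ideal.card_norm_le_eq_card_norm_le_add_one,
      show Finset.Icc 1 n = Finset.Ioc 0 n from Finset.Icc_succ_left_eq_Ioc _ _,
      show 1 = Nat.card {I : Ideal (𝓞 F) // Ideal.absNorm I = 0} by
        simp [Ideal.absNorm_eq_zero_iff],
      Finset.sum_Ioc_add_eq_sum_Icc (n.zero_le),
      ← Finset.card_preimage_eq_sum_card_image_eq
        (fun k _ => Ideal.finite_setOfPred_absNorm_eq k)]
    simp [Set.coe_eq_subtype]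
  simp only [Real.rpow_one]
  exact Asymptotics.isBigO_of_div_tendsto_nhds
    ((eventually_ne_atTop 0).mono fun n hn h0 => (hn (by exact_mod_cast h0)).elim) _ h

theorem k1_term (ht : 1 < t) (n : ℕ) :
    LSeries.term (fun n => ((Nat.card {I : Ideal (𝓞 F) // Ideal.absNorm I = n} : ℝ) : ℂ)) t n =
      (((Nat.card {I : Ideal (𝓞 F) // Ideal.absNorm I = n} : ℝ) * (n : ℝ) ^ (-t) : ℝ) : ℂ) := by
  by_cases hn : n = 0
  · subst hn
    rw [LSeries.term_zero, Nat.cast_zero, Real.zero_rpow (by linarith), mul_zero, ofReal_zero]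
  · rw [LSeries.term_of_ne_zero hn, Real.rpow_neg (Nat.cast_nonneg n), ofReal_mul, ofReal_inv,
      Complex.ofReal_cpow (Nat.cast_nonneg n), div_eq_mul_inv, ofReal_natCast, ofReal_natCast]

theorem k1_fib (n : ℕ) : HasSum (fun J : {I : Ideal (𝓞 F) // Ideal.absNorm I = n} =>
    (Ideal.absNorm J.1 : ℝ) ^ (-t))
    ((Nat.card {I : Ideal (𝓞 F) // Ideal.absNorm I = n} : ℝ) * (n : ℝ) ^ (-t)) := by
  have : Finite {I : Ideal (𝓞 F) // Ideal.absNorm I = n} := Ideal.finite_setOfPred_absNorm_eq n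
  have := Fintype.ofFinite {I : Ideal (𝓞 F) // Ideal.absNorm I = n}
  have e : (fun J : {I : Ideal (𝓞 F) // Ideal.absNorm I = n} => (Ideal.absNorm J.1 : ℝ) ^ (-t)) =
      fun _ => (n : ℝ) ^ (-t) := funext fun J => by rw [J.2]
  rw [e, Nat.card_eq_fintype_card, ← nsmul_eq_mul, ← Finset.card_univ, ← Finset.sum_const]
  exact hasSum_fintype _

theorem k1_sumN (ht : 1 < t) : Summable fun n : ℕ =>
    (Nat.card {I : Ideal (𝓞 F) // Ideal.absNorm I = n} : ℝ) * (n : ℝ) ^ (-t) := by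
  have h := k1_lsum F ht
  rw [LSeriesSummable, funext (k1_term F ht)] at h
  exact Complex.summable_ofReal.1 h

theorem k1_sig (ht : 1 < t) : Summable fun x : Σ n, {I : Ideal (𝓞 F) // Ideal.absNorm I = n} =>
    (Ideal.absNorm x.2.1 : ℝ) ^ (-t) := by
  refine (summable_sigma_of_nonneg fun x => by positivity).2 ⟨fun n => (k1_fib F n).summable, ?_⟩
  exact (k1_sumN F ht).congr fun n => (k1_fib F n).tsum_eq.symm

theorem summable_norm (ht : 1 < t) :
    Summable fun J : Ideal (𝓞 F) => (Ideal.absNorm J : ℝ) ^ (-t) :=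
  (Equiv.sigmaFiberEquiv (Ideal.absNorm : Ideal (𝓞 F) → ℕ)).summable_iff.1 (k1_sig F ht)

theorem k1_zeta (ht : 1 < t) : DS F (fun _ => 1) t = dedekindZeta F t := by
  have h1 : ∑' J : Ideal (𝓞 F), (Ideal.absNorm J : ℝ) ^ (-t) = ∑' n : ℕ,
      (Nat.card {I : Ideal (𝓞 F) // Ideal.absNorm I = n} : ℝ) * (n : ℝ) ^ (-t) := by
    rw [← (Equiv.sigmaFiberEquiv (Ideal.absNorm : Ideal (𝓞 F) → ℕ)).tsum_eq]
    exact ((k1_sig F ht).hasSum.sigma (k1_fib F)).tsum_eq.symm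
  have h2 : dedekindZeta F t = LSeries
      (fun n => ((Nat.card {I : Ideal (𝓞 F) // Ideal.absNorm I = n} : ℝ) : ℂ)) t := by
    simp only [dedekindZeta, ofReal_natCast]
  rw [h2, LSeries, funext (k1_term F ht), ← Complex.ofReal_tsum, ← h1, Complex.ofReal_tsum, DS]
  simp only [one_mul]

theorem fin_primes (hC : C ≠ 0) :
    {Q : HeightOneSpectrum (𝓞 F) | (C : 𝓞 F) ∈ Q.asIdeal}.Finite := by
  have h : Ideal.span {(C : 𝓞 F)} ≠ 0 := by
    rw [Ne, Ideal.zero_eq_bot, Ideal.span_singleton_eq_bot]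
    exact_mod_cast hC
  exact (Ideal.finite_factors h).subset fun Q hQ => Ideal.dvd_span_singleton.2 hQ

theorem oneC_prime {q : Ideal (𝓞 F)} (hq : q.IsPrime) (h0 : q ≠ ⊥) :
    ((C : 𝓞 F) ∈ q → oneC F C q = 0) ∧ ((C : 𝓞 F) ∉ q → oneC F C q = 1) := by
  have hm := hq.isMaximal h0
  constructor
  · intro h
    refine if_neg fun hc => hq.ne_top ?_
    rw [Ideal.isCoprime_iff_sup_eq,
      sup_eq_left.2 ((Ideal.span_singleton_le_iff_mem _).2 h)] at hc
    exact hc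
  · intro h
    refine if_pos (Ideal.isCoprime_iff_sup_eq.2 ?_)
    by_contra hc
    have := hm.eq_of_le hc le_sup_left
    exact h (this ▸ Ideal.mem_sup_right (Ideal.mem_span_singleton_self _))

theorem k1_one_mul (C : ℕ) (I J : Ideal (𝓞 F)) : oneC F C (I * J) = oneC F C I * oneC F C J := by
  unfold oneC
  rw [IsCoprime.mul_left_iff]
  by_cases h1 : IsCoprime I (Ideal.span {(C : 𝓞 F)}) <;>
    by_cases h2 : IsCoprime J (Ideal.span {(C : 𝓞 F)}) <;> simp [h1, h2]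

theorem mult_oneC (ha : Mult F a) (C : ℕ) : Mult F fun J => oneC F C J * a J := by
  refine ⟨?_, fun I J hI hJ => ?_, fun I => ?_⟩
  · have : oneC F C ⊤ = 1 := if_pos (by rw [← Ideal.one_eq_top]; exact isCoprime_one_left)
    simp only [this, ha.1, one_mul]
  · simp only [k1_one_mul, ha.2.1 I J hI hJ]
    ring
  · have := ha.2.2 I
    simp only [oneC]
    split_ifs <;> simp [this]

theorem k1_mult_one : Mult F fun _ => 1 := ⟨rfl, fun _ _ _ _ => (one_mul _).symm, fun _ => by simp⟩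

theorem mult_oneC' (C : ℕ) : Mult F (oneC F C) := by
  have := mult_oneC F (k1_mult_one F) C
  simpa only [mul_one] using this

theorem k1_bound (ha : Mult F a) (J : Ideal (𝓞 F)) :
    ‖a J * (((Ideal.absNorm J : ℝ) ^ (-t) : ℝ) : ℂ)‖ ≤ (Ideal.absNorm J : ℝ) ^ (-t) := by
  rw [norm_mul, Complex.norm_real, Real.norm_of_nonneg (by positivity)]
  exact mul_le_of_le_one_left (by positivity) (ha.2.2 J)

theorem k1_summ (ha : Mult F a) (ht : 1 < t) :
    Summable fun J : Ideal (𝓞 F) => a J * (((Ideal.absNorm J : ℝ) ^ (-t) : ℝ) : ℂ) :=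
  Summable.of_norm_bounded (summable_norm F ht) (k1_bound F ha)

open Classical in
/-- remove the ideals contained in a prime of `T` -/
noncomputable def k1_cut (T : Finset (HeightOneSpectrum (𝓞 F))) (a : Ideal (𝓞 F) → ℂ)
    (J : Ideal (𝓞 F)) : ℂ := if ∃ Q ∈ T, J ≤ Q.asIdeal then 0 else a J

theorem k1_cut_mult (ha : Mult F a) (T : Finset (HeightOneSpectrum (𝓞 F))) :
    Mult F (k1_cut F T a) := by
  refine ⟨?_, fun I J hI hJ => ?_, fun I => ?_⟩
  · rw [k1_cut, if_neg, ha.1]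
    rintro ⟨Q, -, h⟩
    exact Q.isPrime.ne_top (top_le_iff.1 h)
  · have e : (∃ Q ∈ T, I * J ≤ Q.asIdeal) ↔
        (∃ Q ∈ T, I ≤ Q.asIdeal) ∨ ∃ Q ∈ T, J ≤ Q.asIdeal := by
      simp only [fun Q : HeightOneSpectrum (𝓞 F) => Q.isPrime.mul_le (I := I) (J := J),
        and_or_left, exists_or]
    unfold k1_cut
    rw [ha.2.1 I J hI hJ]
    by_cases h1 : ∃ Q ∈ T, I ≤ Q.asIdeal
    · rw [if_pos (e.2 (Or.inl h1)), if_pos h1, zero_mul]
    · by_cases h2 : ∃ Q ∈ T, J ≤ Q.asIdeal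
      · rw [if_pos (e.2 (Or.inr h2)), if_pos h2, mul_zero]
      · rw [if_neg (fun h => (e.1 h).elim h1 h2), if_neg h1, if_neg h2]
  · unfold k1_cut
    split_ifs
    · simp
    · exact ha.2.2 I

theorem k1_sieve_one (ha : Mult F a) (ht : 1 < t) (Q : HeightOneSpectrum (𝓞 F)) :
    DS F (k1_cut F {Q} a) t =
      DS F a t * (1 - a Q.asIdeal * (((Ideal.absNorm Q.asIdeal : ℝ) ^ (-t) : ℝ) : ℂ)) := by
  have hinj : Function.Injective fun J : Ideal (𝓞 F) => Q.asIdeal * J :=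
    mul_right_injective₀ Q.ne_bot
  have h1 : ∑' J : Ideal (𝓞 F), (a J - k1_cut F {Q} a J) *
      (((Ideal.absNorm J : ℝ) ^ (-t) : ℝ) : ℂ) =
      a Q.asIdeal * (((Ideal.absNorm Q.asIdeal : ℝ) ^ (-t) : ℝ) : ℂ) * DS F a t := by
    rw [← hinj.tsum_eq, DS, ← tsum_mul_left]
    · refine tsum_congr fun J => ?_
      rw [k1_cut, if_pos ⟨Q, Finset.mem_singleton_self Q, Ideal.mul_le_left⟩, sub_zero]
      by_cases hJ : J = ⊥
      · subst hJ
        rw [Ideal.mul_bot, Ideal.absNorm_bot, Nat.cast_zero, Real.zero_rpow (by linarith)]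
        simp
      · rw [ha.2.1 _ _ Q.ne_bot hJ, map_mul, Nat.cast_mul,
          Real.mul_rpow (Nat.cast_nonneg _) (Nat.cast_nonneg _), ofReal_mul]
        ring
    · intro J hJ
      by_cases h : J ≤ Q.asIdeal
      · obtain ⟨I, hI⟩ := Ideal.dvd_iff_le.2 h
        exact ⟨I, hI.symm⟩
      · refine (hJ ?_).elim
        dsimp only
        rw [k1_cut, if_neg (by simpa using h), sub_self, zero_mul]
  simp only [sub_mul] at h1
  rw [(k1_summ F ha ht).tsum_sub (k1_summ F (k1_cut_mult F ha {Q}) ht)] at h1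
  change DS F a t - DS F (k1_cut F {Q} a) t = _ at h1
  linear_combination -h1

theorem k1_sieve (ha : Mult F a) (ht : 1 < t) (T : Finset (HeightOneSpectrum (𝓞 F))) :
    DS F (k1_cut F T a) t = DS F a t *
      ∏ Q ∈ T, (1 - a Q.asIdeal * (((Ideal.absNorm Q.asIdeal : ℝ) ^ (-t) : ℝ) : ℂ)) := by
  classical
  induction T using Finset.induction_on with
  | empty =>
    rw [Finset.prod_empty, mul_one]
    exact congrArg (fun b => DS F b t) (funext fun J => if_neg (by simp))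
  | insert Q T hQ ih =>
    have e : k1_cut F (insert Q T) a = k1_cut F {Q} (k1_cut F T a) := by
      funext J
      unfold k1_cut
      by_cases h1 : J ≤ Q.asIdeal <;> by_cases h2 : ∃ Q ∈ T, J ≤ Q.asIdeal <;> simp [h1, h2]
    have e' : k1_cut F T a Q.asIdeal = a Q.asIdeal := by
      refine if_neg ?_
      rintro ⟨Q', h1, h2⟩
      exact hQ (HeightOneSpectrum.ext (Q.isMaximal.eq_of_le Q'.isPrime.ne_top h2) ▸ h1)
    rw [e, k1_sieve_one F (k1_cut_mult F ha T) ht, ih, e', Finset.prod_insert hQ]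
    ring

theorem DS_sieve (ha : Mult F a) (hC : C ≠ 0) (ht : 1 < t) :
    DS F (fun J => oneC F C J * a J) t = DS F a t *
      ∏ᶠ Q ∈ {Q : HeightOneSpectrum (𝓞 F) | (C : 𝓞 F) ∈ Q.asIdeal},
        (1 - a Q.asIdeal * (((Ideal.absNorm Q.asIdeal : ℝ) ^ (-t) : ℝ) : ℂ)) := by
  rw [finprod_mem_eq_finite_toFinset_prod _ (fin_primes F hC), ← k1_sieve F ha ht]
  refine congrArg (fun b => DS F b t) (funext fun J => ?_)
  unfold oneC k1_cut
  by_cases h : IsCoprime J (Ideal.span {(C : 𝓞 F)})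
  · rw [if_pos h, one_mul, if_neg]
    rintro ⟨Q, h1, h2⟩
    rw [Set.Finite.mem_toFinset] at h1
    refine Q.isPrime.ne_top (top_le_iff.1 ?_)
    rw [← Ideal.isCoprime_iff_sup_eq.1 h]
    exact sup_le h2 ((Ideal.span_singleton_le_iff_mem _).2 h1)
  · rw [if_neg h, zero_mul, if_pos]
    obtain ⟨M, hM, hle⟩ := Ideal.exists_le_maximal _ (mt Ideal.isCoprime_iff_sup_eq.2 h)
    have hc : (C : 𝓞 F) ∈ M := hle (Ideal.mem_sup_right (Ideal.mem_span_singleton_self _))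
    refine ⟨⟨M, hM.isPrime, fun h0 => hC ?_⟩, by rwa [Set.Finite.mem_toFinset],
      le_sup_left.trans hle⟩
    rw [h0, Ideal.mem_bot] at hc
    exact_mod_cast hc

theorem k1_two_le (Q : HeightOneSpectrum (𝓞 F)) : 1 < Ideal.absNorm Q.asIdeal := by
  have h0 : Ideal.absNorm Q.asIdeal ≠ 0 := mt Ideal.absNorm_eq_zero_iff.1 Q.ne_bot
  have h1 : Ideal.absNorm Q.asIdeal ≠ 1 := mt Ideal.absNorm_eq_one_iff.1 Q.isPrime.ne_top
  omega

theorem DS_euler (ha : Mult F a) (ht : 1 < t) :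
    HasProd (fun Q : HeightOneSpectrum (𝓞 F) =>
      (1 - a Q.asIdeal * (((Ideal.absNorm Q.asIdeal : ℝ) ^ (-t) : ℝ) : ℂ))⁻¹) (DS F a t) := by
  classical
  have h1 : Tendsto (fun T : Finset (HeightOneSpectrum (𝓞 F)) => DS F (k1_cut F T a) t) atTop
      (𝓝 (∑' J : Ideal (𝓞 F), if J = ⊤ then (1 : ℂ) else 0)) := by
    refine tendsto_tsum_of_dominated_convergence (summable_norm F ht) (fun J => ?_)
      (Eventually.of_forall fun T J => k1_bound F (k1_cut_mult F ha T) J)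
    by_cases hJ : J = ⊤
    · subst hJ
      simp only [(k1_cut_mult F ha _).1, Ideal.absNorm_top, Nat.cast_one, Real.one_rpow,
        ofReal_one, mul_one, if_true]
      exact tendsto_const_nhds
    rw [if_neg hJ]
    by_cases h0 : J = ⊥
    · subst h0
      rw [Ideal.absNorm_bot, Nat.cast_zero, Real.zero_rpow (by linarith)]
      simp only [ofReal_zero, mul_zero]
      exact tendsto_const_nhds
    obtain ⟨M, hM, hle⟩ := Ideal.exists_le_maximal J hJ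
    refine tendsto_const_nhds.congr' ?_
    filter_upwards [eventually_ge_atTop
      ({⟨M, hM.isPrime, fun h => h0 (le_bot_iff.1 (h ▸ hle))⟩} :
        Finset (HeightOneSpectrum (𝓞 F)))] with T hT
    rw [k1_cut, if_pos ⟨_, hT (Finset.mem_singleton_self _), hle⟩, zero_mul]
  rw [tsum_ite_eq] at h1
  have h2 := (tendsto_const_nhds (x := DS F a t)).div h1 one_ne_zero
  rw [div_one] at h2
  refine h2.congr' ?_
  filter_upwards [h1.eventually_ne one_ne_zero] with T hT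
  rw [k1_sieve F ha ht] at hT
  rw [Pi.div_apply, k1_sieve F ha ht, Finset.prod_inv_distrib,
    div_mul_cancel_left₀ (left_ne_zero_of_mul hT)]

theorem exists_mult (b : Ideal (𝓞 F) → ℂ) (hb : ∀ J, ‖b J‖ ≤ 1) :
    ∃ a, Mult F a ∧ ∀ q : Ideal (𝓞 F), q.IsPrime → q ≠ ⊥ → a q = b q := by
  classical
  refine ⟨fun J => ((UniqueFactorizationMonoid.normalizedFactors J).map b).prod,
    ⟨?_, fun I J hI hJ => ?_, fun I => ?_⟩, fun q hq h0 => ?_⟩
  · simp only [← Ideal.one_eq_top, UniqueFactorizationMonoid.normalizedFactors_one,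
      Multiset.map_zero, Multiset.prod_zero]
  · simp only [UniqueFactorizationMonoid.normalizedFactors_mul hI hJ, Multiset.map_add,
      Multiset.prod_add]
  · dsimp only
    induction UniqueFactorizationMonoid.normalizedFactors I using Multiset.induction_on with
    | empty => simp
    | cons x s ih =>
      rw [Multiset.map_cons, Multiset.prod_cons, norm_mul]
      exact mul_le_one₀ (hb x) (norm_nonneg _) ih
  · simp only [UniqueFactorizationMonoid.normalizedFactors_irreducible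
      (Ideal.prime_of_isPrime h0 hq).irreducible, normalize_eq, Multiset.map_singleton,
      Multiset.prod_singleton]

theorem EE_pos (hC : C ≠ 0) : 0 < EE F C := by
  rw [EE, finprod_mem_eq_finite_toFinset_prod _ (fin_primes F hC)]
  refine Finset.prod_pos fun Q _ => sub_pos.2 (inv_lt_one_of_one_lt₀ ?_)
  exact_mod_cast k1_two_le F Q

theorem zeta_res (hC : C ≠ 0) : Tendsto (fun t : ℝ => ((t : ℂ) - 1) * DS F (oneC F C) t) (𝓝[>] 1)
    (𝓝 ((dedekindZeta_residue F * EE F C : ℝ) : ℂ)) := by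
  have h1 : Tendsto (fun t : ℝ => ∏ Q ∈ (fin_primes F hC).toFinset,
      (1 - (((Ideal.absNorm Q.asIdeal : ℝ) ^ (-t) : ℝ) : ℂ))) (𝓝[>] 1)
      (𝓝 ((EE F C : ℝ) : ℂ)) := by
    rw [EE, finprod_mem_eq_finite_toFinset_prod _ (fin_primes F hC), Rat.cast_prod,
      Complex.ofReal_prod]
    refine tendsto_finsetProd _ fun Q _ => ?_
    have hQ : (Ideal.absNorm Q.asIdeal : ℝ) ≠ 0 := by
      have := k1_two_le F Q
      positivity
    have h2 : Continuous fun t : ℝ =>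
        (1 - (((Ideal.absNorm Q.asIdeal : ℝ) ^ (-t) : ℝ) : ℂ)) :=
      continuous_const.sub (Complex.continuous_ofReal.comp
        ((Real.continuous_const_rpow hQ).comp continuous_neg))
    have h3 := (h2.tendsto 1).mono_left (nhdsWithin_le_nhds (s := Set.Ioi 1))
    rw [Real.rpow_neg_one] at h3
    push_cast at h3 ⊢
    exact h3
  have h4 := (tendsto_sub_one_mul_dedekindZeta_nhdsGT F).mul h1
  rw [← ofReal_mul] at h4
  refine h4.congr' ?_
  filter_upwards [self_mem_nhdsWithin] with t ht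
  have h5 := DS_sieve F (k1_mult_one F) hC ht
  simp only [mul_one, one_mul] at h5
  rw [finprod_mem_eq_finite_toFinset_prod _ (fin_primes F hC), k1_zeta F ht] at h5
  rw [show DS F (oneC F C) t = _ from h5, mul_assoc]

end Pool.Agent.P.MP_20768c_nt.Tz.Cv

end

-- part Cv.K2_p
section

set_option autoImplicit false

open Complex NumberField IsDedekindDomain Filter Topology
open UpperHalfPlane hiding I
open scoped ComplexConjugate Real MatrixGroups

namespace Pool.Agent.P.MP_20768c_nt.Tz.Cv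

open Pool.Agent.P.MP_20768c_nt.Tz.EQ (Lt pr sp IsLat jL qN)

theorem k2_p_fin (G : Type) [CommGroup G] [Finite G] : Finite (G →* ℂˣ) := by
  have : NeZero (Monoid.exponent G) := ⟨Monoid.exponent_ne_zero_of_finite⟩
  exact Nat.finite_of_card_ne_zero (by
    rw [CommGroup.card_monoidHom_of_hasEnoughRootsOfUnity G ℂ]; exact Nat.card_pos.ne')

open Classical in
theorem k2_p_image {G : Type} [CommGroup G] [Finite G] [Fintype (G →* ℂˣ)] (g : G) :
    Finset.univ.image (fun φ : G →* ℂˣ => (φ g : ℂ)) =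
      Polynomial.nthRootsFinset (orderOf g) (1 : ℂ) := by
  have : NeZero (Monoid.exponent G) := ⟨Monoid.exponent_ne_zero_of_finite⟩
  have hr : 0 < orderOf g := orderOf_pos g
  let e : (G →* ℂˣ) →* ℂˣ := MonoidHom.eval g
  have hd : orderOf g ∣ Nat.card e.range := by
    rw [orderOf_dvd_iff_pow_eq_one]
    by_contra hne
    obtain ⟨φ, hφ⟩ := CommGroup.exists_apply_ne_one_of_hasEnoughRootsOfUnity G ℂ hne
    have h1 : (⟨e φ, φ, rfl⟩ : e.range) ^ Nat.card e.range = 1 := pow_card_eq_one'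
    exact hφ (by rw [map_pow]; exact congrArg Subtype.val h1)
  have hc : Nat.card e.range = (Finset.univ.image fun φ : G →* ℂˣ => (φ g : ℂ)).card := by
    rw [← Nat.card_eq_finsetCard]
    refine Nat.card_congr (Equiv.ofBijective
      (fun x => ⟨((x.1 : ℂˣ) : ℂ), by
        obtain ⟨φ, hφ⟩ := x.2
        exact Finset.mem_image.2 ⟨φ, Finset.mem_univ _, congrArg Units.val hφ⟩⟩) ⟨?_, ?_⟩)
    · intro x y h
      exact Subtype.ext (Units.ext (congrArg Subtype.val h))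
    · rintro ⟨y, hy⟩
      obtain ⟨φ, -, rfl⟩ := Finset.mem_image.1 hy
      exact ⟨⟨e φ, φ, rfl⟩, rfl⟩
  refine Finset.eq_of_subset_of_card_le (fun y hy => ?_) ?_
  · obtain ⟨φ, -, rfl⟩ := Finset.mem_image.1 hy
    rw [Polynomial.mem_nthRootsFinset hr, ← Units.val_pow_eq_pow_val, ← map_pow,
      pow_orderOf_eq_one, map_one, Units.val_one]
  · rw [(Complex.isPrimitiveRoot_exp _ hr.ne').card_nthRootsFinset, ← hc]
    exact Nat.le_of_dvd Nat.card_pos hd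

open Classical in
theorem k2_p_fib {G : Type} [CommGroup G] [Finite G] [Fintype (G →* ℂˣ)] (g : G) {y : ℂ}
    (hy : y ∈ Polynomial.nthRootsFinset (orderOf g) (1 : ℂ)) :
    orderOf g * (Finset.univ.filter fun φ : G →* ℂˣ => (φ g : ℂ) = y).card = Nat.card G := by
  have : NeZero (Monoid.exponent G) := ⟨Monoid.exponent_ne_zero_of_finite⟩
  have hr : 0 < orderOf g := orderOf_pos g
  let e : (G →* ℂˣ) →* ℂ := (Units.coeHom ℂ).comp (MonoidHom.eval g)
  have hm : ∀ z ∈ Polynomial.nthRootsFinset (orderOf g) (1 : ℂ), z ∈ Set.range e := fun z hz => by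
    rw [← k2_p_image] at hz
    obtain ⟨φ, -, h⟩ := Finset.mem_image.1 hz
    exact ⟨φ, h⟩
  have hf : ∀ z ∈ Polynomial.nthRootsFinset (orderOf g) (1 : ℂ),
      (Finset.univ.filter fun φ : G →* ℂˣ => (φ g : ℂ) = z).card =
        (Finset.univ.filter fun φ : G →* ℂˣ => (φ g : ℂ) = y).card :=
    fun z hz => MonoidHom.card_fiber_eq_of_mem_range e (hm z hz) (hm y hy)
  rw [← CommGroup.card_monoidHom_of_hasEnoughRootsOfUnity G ℂ, Nat.card_eq_fintype_card,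
    ← Finset.card_univ, Finset.card_eq_sum_card_image (fun φ : G →* ℂˣ => (φ g : ℂ)) Finset.univ, k2_p_image,
    Finset.sum_congr rfl hf,
    Finset.sum_const, (Complex.isPrimitiveRoot_exp _ hr.ne').card_nthRootsFinset, smul_eq_mul]

theorem char_prod {G : Type} [CommGroup G] [Finite G] (g : G) (x : ℂ) :
    ∏ᶠ φ : G →* ℂˣ, (1 - (φ g : ℂ) * x) = (1 - x ^ orderOf g) ^ (Nat.card G / orderOf g) := by
  classical
  have := k2_p_fin G
  have := Fintype.ofFinite (G →* ℂˣ)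
  have hr : 0 < orderOf g := orderOf_pos g
  have h1 := (Complex.isPrimitiveRoot_exp _ hr.ne').pow_sub_pow_eq_prod_sub_mul 1 x hr
  rw [one_pow] at h1
  rw [finprod_eq_prod_of_fintype, Finset.prod_comp (fun y : ℂ => 1 - y * x)
    (fun φ : G →* ℂˣ => (φ g : ℂ)), k2_p_image, h1, ← Finset.prod_pow]
  refine Finset.prod_congr rfl fun y hy => ?_
  rw [← k2_p_fib g hy, Nat.mul_div_cancel_left _ hr]

theorem card_odd {G : Type} [CommGroup G] [Finite G] {τ : G} (h1 : τ ≠ 1) (h3 : τ ^ 3 = 1) :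
    3 * {φ : G →* ℂˣ | φ τ ≠ 1}.ncard = 2 * Nat.card G := by
  classical
  have := k2_p_fin G
  have := Fintype.ofFinite (G →* ℂˣ)
  have : Fact (Nat.Prime 3) := ⟨Nat.prime_three⟩
  have ho : orderOf τ = 3 := orderOf_eq_prime h3 h1
  have h := k2_p_fib τ (y := 1) (by
    rw [Polynomial.mem_nthRootsFinset (orderOf_pos τ), one_pow])
  rw [ho] at h
  have h2 := Finset.card_filter_add_card_filter_not (s := (Finset.univ : Finset (G →* ℂˣ)))
    (fun φ : G →* ℂˣ => (φ τ : ℂ) = 1)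
  rw [Finset.card_univ, ← Nat.card_eq_fintype_card,
    CommGroup.card_monoidHom_of_hasEnoughRootsOfUnity G ℂ] at h2
  have e : {φ : G →* ℂˣ | φ τ ≠ 1}.ncard =
      (Finset.univ.filter fun φ : G →* ℂˣ => ¬ (φ τ : ℂ) = 1).card := by
    rw [← Set.ncard_coe_finset]
    congr 1
    ext φ
    simp
  omega

variable {k F : Type} [Field k] [NumberField k] [Field F] [NumberField F] [Algebra k F]
  [IsGalois k F] {C : ℕ}

end Pool.Agent.P.MP_20768c_nt.Tz.Cv

end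

-- part Cv.N0
section

set_option autoImplicit false

open Complex NumberField IsDedekindDomain Filter Topology
open UpperHalfPlane hiding I
open scoped ComplexConjugate Real MatrixGroups

namespace Pool.Agent.P.MP_20768c_nt.Tz.Cv

open Pool.Agent.P.MP_20768c_nt.Tz.EQ (Lt pr sp IsLat jL qN)

variable {n : ℕ}

theorem zt_prim (n : ℕ) : IsPrimitiveRoot (zt n) (3 ^ n) := by
  have := Complex.isPrimitiveRoot_exp (3 ^ n) (by positivity)
  push_cast at this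
  exact this

theorem zt_ne (n : ℕ) : zt n ≠ 0 := by
  exact Complex.exp_ne_zero _

theorem zt_cube (n : ℕ) : zt (n + 1) ^ 3 = zt n := by
  rw [zt, zt, ← Complex.exp_nat_mul]
  congr 1
  push_cast
  field_simp
  ring

theorem zt_pow_three (n j : ℕ) : zt (n + j) ^ 3 ^ j = zt n := by
  induction j with
  | zero => simp
  | succ j ih => rw [pow_succ', pow_mul, ← add_assoc, zt_cube, ih]

theorem zt_third (hn : 1 ≤ n) : zt n ^ 3 ^ (n - 1) = zt 1 := by
  obtain ⟨j, rfl⟩ := Nat.exists_eq_add_of_le hn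
  rw [Nat.add_sub_cancel_left, zt_pow_three]

theorem zt_zero : zt 0 = 1 := by
  simpa using zt_pow 0

theorem zt1_cube : zt 1 ^ 3 = 1 := by
  simpa using zt_pow 1

theorem zt1_ne : zt 1 ≠ 1 := by
  exact (zt_prim 1).ne_one (by norm_num)

theorem zt1_sum : zt 1 ^ 2 + zt 1 + 1 = 0 := by
  refine mul_left_cancel₀ (sub_ne_zero.2 zt1_ne) ?_
  linear_combination zt1_cube

theorem root_zt {x : ℂ} (h : x ^ 3 ^ n = 1) : ∃ a : ℕ, x = zt n ^ a := by
  obtain ⟨a, -, e⟩ := (zt_prim n).eq_pow_of_pow_eq_one h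
  exact ⟨a, e.symm⟩

theorem cube_one {x : ℂ} (h : x ^ 3 = 1) : ∃ i : ℕ, x = zt 1 ^ i := by
  exact root_zt (n := 1) (by rw [pow_one, h])

theorem zt_int (n : ℕ) : IsIntegral ℤ (zt n) := by
  exact (zt_prim n).isIntegral (by positivity)

theorem zt_alg (n : ℕ) : IsAlgebraic ℚ (zt n) := by
  exact ((zt_int n).tower_top (A := ℚ)).isAlgebraic

theorem zt_zpow (n : ℕ) (a : ℤ) : zt n ^ a = cexp (2 * π * I * a / 3 ^ n) := by
  rw [zt, ← Complex.exp_int_mul]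
  congr 1
  ring

theorem zt_congr {a b : ℤ} : zt n ^ a = zt n ^ b ↔ (a : ZMod (3 ^ n)) = b := by
  rw [ZMod.intCast_eq_intCast_iff_dvd_sub, ← (zt_prim n).zpow_eq_one_iff_dvd,
    zpow_sub₀ (zt_ne n), div_eq_one_iff_eq (zpow_ne_zero _ (zt_ne n)), eq_comm]

theorem zt_val {a : ℤ} {b : ZMod (3 ^ n)} (h : (a : ZMod (3 ^ n)) = b) :
    zt n ^ b.val = zt n ^ a := by
  rw [← zpow_natCast, zt_congr, h, Int.cast_natCast, ZMod.natCast_zmod_val]

theorem hom_zt (σ : ℂ →+* ℂ) (n : ℕ) :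
    ∃ b : (ZMod (3 ^ n))ˣ, σ (zt n) = zt n ^ (b : ZMod (3 ^ n)).val := by
  have h := (zt_prim n).map_of_injective σ.injective
  obtain ⟨a, e⟩ := root_zt h.pow_eq_one
  rw [e, (zt_prim n).pow_iff_coprime (by positivity)] at h
  refine ⟨ZMod.unitOfCoprime a h, ?_⟩
  rw [e, zt_val (a := a) (by simp), zpow_natCast]

theorem tau_val (hn : 2 ≤ n) : (tau n : ZMod (3 ^ n)) = 3 ^ (n - 1) + 1 := by
  have h : Nat.Coprime (3 ^ (n - 1) + 1) (3 ^ n) := by
    refine Nat.Coprime.pow_right _ ((Nat.Prime.coprime_iff_not_dvd Nat.prime_three).2 ?_).symm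
    have h3 : 3 ∣ 3 ^ (n - 1) := dvd_pow_self 3 (by omega)
    omega
  rw [tau, dif_pos h, ZMod.coe_unitOfCoprime]
  push_cast
  rfl

theorem zt_tau (hn : 2 ≤ n) : zt n ^ (tau n : ZMod (3 ^ n)).val = zt 1 * zt n := by
  rw [zt_val (a := ((3 ^ (n - 1) + 1 : ℕ) : ℤ)) (by rw [tau_val hn]; push_cast; rfl), zpow_natCast,
    pow_succ, zt_third (by omega)]

theorem tau_cube (hn : 2 ≤ n) : tau n ^ 3 = 1 := by
  refine Units.ext ?_
  rw [Units.val_pow_eq_pow_val, tau_val hn, Units.val_one]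
  obtain ⟨j, rfl⟩ := Nat.exists_eq_add_of_le hn
  have h0 : (3 : ZMod (3 ^ (2 + j))) ^ (2 + j) = 0 := by
    exact_mod_cast ZMod.natCast_self (3 ^ (2 + j))
  rw [show 2 + j - 1 = j + 1 by omega]
  linear_combination (3 ^ (2 * j + 1) + 3 ^ (j + 1) + 1) * h0

theorem n0_zt1_pow {m : ℕ} (h : 3 ∣ m) : zt 1 ^ m = 1 := by
  obtain ⟨k, rfl⟩ := h
  rw [pow_mul, zt1_cube, one_pow]

theorem tau_fix (σ : ℂ →+* ℂ) (hn : 2 ≤ n) (h : σ (zt n) = zt 1 * zt n) :
    σ (zt 1) = zt 1 ∧ σ (zt (n - 1)) = zt (n - 1) ∧ σ (σ (σ (zt n))) = zt n := by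
  have h1 : σ (zt 1) = zt 1 := by
    conv_lhs => rw [← zt_third (n := n) (by omega)]
    rw [map_pow, h, mul_pow, zt_third (by omega), n0_zt1_pow (dvd_pow_self 3 (by omega)), one_mul]
  have h2 : zt (n - 1) = zt n ^ 3 := by
    rw [← zt_cube, Nat.sub_add_cancel (by omega)]
  refine ⟨h1, ?_, ?_⟩
  · rw [h2, map_pow, h, mul_pow, zt1_cube, one_mul]
  · simp only [h, map_mul, h1]
    linear_combination zt n * zt1_cube

theorem card_units (hn : 1 ≤ n) : Nat.card (ZMod (3 ^ n))ˣ = 2 * 3 ^ (n - 1) := by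
  rw [Nat.card_eq_fintype_card, ZMod.card_units_eq_totient,
    Nat.totient_prime_pow Nat.prime_three hn, mul_comm]

theorem unit_cop (hn : 1 ≤ n) {a : ℤ} : IsUnit (a : ZMod (3 ^ n)) ↔ ¬ (3 : ℤ) ∣ a := by
  rw [ZMod.coe_int_isUnit_iff_isCoprime]
  push_cast
  rw [IsCoprime.pow_left_iff hn, Int.prime_three.coprime_iff_not_dvd]

theorem n0_cop (hn : 1 ≤ n) {c : ZMod (3 ^ n)} : IsUnit c ↔ ¬ 3 ∣ c.val := by
  rw [← Int.natCast_dvd_natCast, Nat.cast_ofNat, ← unit_cop hn, Int.cast_natCast,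
    ZMod.natCast_zmod_val]

theorem n0_shift (hn : 1 ≤ n) {x : ℂ} (h : x ^ 3 ^ n = 1) (h2 : x ^ 3 ≠ 1) :
    ∑ b : (ZMod (3 ^ n))ˣ, x ^ (b : ZMod (3 ^ n)).val = 0 := by
  classical
  have e1 : ∑ b : (ZMod (3 ^ n))ˣ, x ^ (b : ZMod (3 ^ n)).val =
      ∑ c ∈ Finset.univ.filter IsUnit, x ^ (c : ZMod (3 ^ n)).val :=
    Finset.sum_bij (fun b _ => b.1) (fun b _ => by simp) (fun _ _ _ _ e => Units.ext e)
      (fun c hc => by
        obtain ⟨b, rfl⟩ := (Finset.mem_filter.1 hc).2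
        exact ⟨b, Finset.mem_univ _, rfl⟩) fun _ _ => rfl
  have e0 : ∀ c : ZMod (3 ^ n), c + 3 = ((c.val + 3 : ℕ) : ZMod (3 ^ n)) := fun c => by
    push_cast
    rw [ZMod.natCast_zmod_val]
  have e2 : ∑ c ∈ Finset.univ.filter IsUnit, x ^ (c : ZMod (3 ^ n)).val * x ^ 3 =
      ∑ c ∈ Finset.univ.filter IsUnit, x ^ (c : ZMod (3 ^ n)).val := by
    refine Finset.sum_equiv (Equiv.addRight 3) (fun c => ?_) fun c _ => ?_
    · simp only [Finset.mem_filter, Finset.mem_univ, true_and, Equiv.coe_addRight]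
      rw [e0, ← Int.cast_natCast, unit_cop hn, n0_cop hn]
      omega
    · change _ = x ^ (c + 3).val
      rw [e0, ZMod.val_natCast, ← pow_eq_pow_mod _ h, pow_add]
  rw [← Finset.sum_mul, ← e1] at e2
  by_contra h0
  exact h2 (mul_left_cancel₀ h0 (e2.trans (mul_one _).symm))

theorem n0_pair (hn : 1 ≤ n) {x : ℂ} (h : x ^ 3 = 1) (h1 : x ≠ 1) :
    ∑ b : (ZMod (3 ^ n))ˣ, x ^ (b : ZMod (3 ^ n)).val = -3 ^ (n - 1) := by
  have hs : x ^ 2 + x + 1 = 0 := by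
    refine mul_left_cancel₀ (sub_ne_zero.2 h1) ?_
    linear_combination h
  have hm : ∀ m : ℕ, x ^ m = x ^ (m % 3) := fun m => pow_eq_pow_mod m h
  have e : ∀ b : (ZMod (3 ^ n))ˣ,
      x ^ (b : ZMod (3 ^ n)).val + x ^ ((-b : (ZMod (3 ^ n))ˣ) : ZMod (3 ^ n)).val = -1 := by
    intro b
    have h1 := (n0_cop hn).1 b.isUnit
    have h2 : 3 ^ n ∣ (b : ZMod (3 ^ n)).val + ((-b : (ZMod (3 ^ n))ˣ) : ZMod (3 ^ n)).val := by
      rw [← ZMod.natCast_eq_zero_iff]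
      push_cast
      simp
    have h3 := (dvd_pow_self 3 (by omega : n ≠ 0)).trans h2
    rw [hm, hm (ZMod.val _)]
    generalize (b : ZMod (3 ^ n)).val = s at *
    generalize ((-b : (ZMod (3 ^ n))ˣ) : ZMod (3 ^ n)).val = t at *
    have h4 : s % 3 = 1 ∧ t % 3 = 2 ∨ s % 3 = 2 ∧ t % 3 = 1 := by omega
    rcases h4 with ⟨a, b⟩ | ⟨a, b⟩ <;> rw [a, b] <;> linear_combination hs
  have e2 := Finset.sum_congr rfl fun b (_ : b ∈ Finset.univ) => e b
  have e3 : ∑ b : (ZMod (3 ^ n))ˣ, x ^ ((-b : (ZMod (3 ^ n))ˣ) : ZMod (3 ^ n)).val =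
      ∑ b : (ZMod (3 ^ n))ˣ, x ^ (b : ZMod (3 ^ n)).val :=
    Equiv.sum_comp (Equiv.neg _) fun b : (ZMod (3 ^ n))ˣ => x ^ (b : ZMod (3 ^ n)).val
  have hc := card_units hn
  rw [Nat.card_eq_fintype_card] at hc
  rw [Finset.sum_add_distrib, e3, Finset.sum_const, Finset.card_univ, hc, nsmul_eq_mul] at e2
  push_cast at e2
  linear_combination e2 / 2

theorem sum_zt (hn : 1 ≤ n) (a : ℤ) : ∃ e : ℤ,
    ∑ b : (ZMod (3 ^ n))ˣ, (zt n ^ (b : ZMod (3 ^ n)).val) ^ a = 3 ^ (n - 1) * e ∧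
      ((3 : ℤ) ^ (n - 1) ∣ a → (3 : ℤ) ∣ e + 1) ∧ (¬ (3 : ℤ) ^ (n - 1) ∣ a → e = 0) := by
  have e : ∀ m : ℕ, (zt n ^ m) ^ a = (zt n ^ a) ^ m := fun m => by
    rw [← zpow_natCast, ← zpow_natCast, ← zpow_mul, ← zpow_mul, mul_comm]
  simp only [e]
  have h1 : (zt n ^ a) ^ 3 ^ n = 1 := by rw [← e, zt_pow, one_zpow]
  have h2 : (zt n ^ a) ^ 3 = 1 ↔ (3 : ℤ) ^ (n - 1) ∣ a := by
    rw [← zpow_natCast, ← zpow_mul, (zt_prim n).zpow_eq_one_iff_dvd]
    obtain ⟨j, rfl⟩ := Nat.exists_eq_add_of_le' hn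
    push_cast
    rw [pow_succ, mul_dvd_mul_iff_right three_ne_zero]
  rw [← h2]
  generalize zt n ^ a = x at *
  have hc := card_units hn
  rw [Nat.card_eq_fintype_card] at hc
  by_cases h : x ^ 3 = 1
  · by_cases h3 : x = 1
    · subst h3
      exact ⟨2, by simp [hc, mul_comm], fun _ => by norm_num, fun h' => absurd h h'⟩
    · exact ⟨-1, by rw [n0_pair hn h h3]; simp, fun _ => by norm_num, fun h' => absurd h h'⟩
  · exact ⟨0, by rw [n0_shift hn h1 h]; simp, fun h' => absurd h' h, fun _ => rfl⟩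

theorem r3_sq : r3 1 ^ 2 = -3 := by
  rw [r3]
  linear_combination (zt 1 - 2) * zt1_cube + zt1_sum

theorem r3_ne : r3 1 ≠ 0 := by
  intro h
  have h1 := r3_sq
  rw [h] at h1
  norm_num at h1

theorem r3_congr {a b : ℕ} (h : a ≡ b [MOD 3]) : r3 a = r3 b := by
  rw [r3, r3, pow_eq_pow_mod a zt1_cube, pow_eq_pow_mod b zt1_cube,
    pow_eq_pow_mod (2 * a) zt1_cube, pow_eq_pow_mod (2 * b) zt1_cube, h, h.mul_left 2]

theorem r3_eq (a : ℕ) : r3 a = (jacobiSym a 3 : ℂ) * r3 1 := by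
  rw [r3_congr (Nat.mod_modEq a 3).symm, jacobiSym.mod_left]
  have h : a % 3 = 0 ∨ a % 3 = 1 ∨ a % 3 = 2 := by omega
  have e : (a : ℤ) % (3 : ℕ) = (a % 3 : ℕ) := by push_cast; rfl
  rw [e]
  rcases h with h | h | h <;> rw [h]
  · have h1 : jacobiSym (0 : ℕ) 3 = 0 := by norm_num
    rw [h1, r3]
    simp
  · have h1 : jacobiSym (1 : ℕ) 3 = 1 := by norm_num
    rw [h1]
    simp
  · have h1 : jacobiSym (2 : ℕ) 3 = -1 := by norm_num
    rw [h1, r3, r3]
    push_cast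
    linear_combination (-zt 1) * zt1_cube

theorem r3_map (σ : ℂ → ℂ) (hs : ∀ x y, σ (x - y) = σ x - σ y) {b : ℕ}
    (h : ∀ ζ : ℂ, ζ ^ 3 = 1 → σ ζ = ζ ^ b) (a : ℕ) : σ (r3 a) = r3 (a * b) := by
  have e : ∀ m : ℕ, (zt 1 ^ m) ^ 3 = 1 := fun m => by
    rw [← pow_mul, mul_comm, pow_mul, zt1_cube, one_pow]
  rw [r3, r3, hs, h _ (e _), h _ (e _), ← pow_mul, ← pow_mul, mul_assoc]

theorem zt1_sub : zt 1 - 1 = -(zt 1 ^ 2) * r3 1 := by
  rw [r3]
  linear_combination (1 - zt 1) * zt1_cube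

theorem jac_three {a : ℤ} (h : ¬ (3 : ℤ) ∣ a) :
    (jacobiSym a 3 = 1 ∨ jacobiSym a 3 = -1) ∧ (3 : ℤ) ∣ jacobiSym a 3 - a := by
  rw [jacobiSym.mod_left]
  have h0 : a % (3 : ℕ) = 1 ∨ a % (3 : ℕ) = 2 := by push_cast; omega
  rcases h0 with h0 | h0 <;> rw [h0] <;> push_cast at h0
  · have h1 : jacobiSym 1 3 = 1 := by norm_num
    rw [h1]
    omega
  · have h1 : jacobiSym 2 3 = -1 := by norm_num
    rw [h1]
    omega

theorem cube_step {u o : ℤ} {e : ℕ} (he : 1 ≤ e) (hu : u ≡ 1 + 3 ^ e * o [ZMOD 3 ^ (e + 1)])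
    (i : ℕ) : u ^ 3 ^ i ≡ 1 + 3 ^ (e + i) * o [ZMOD 3 ^ (e + i + 1)] := by
  induction i with
  | zero => simpa using hu
  | succ i ih =>
    obtain ⟨g, rfl⟩ := Nat.exists_eq_add_of_le he
    obtain ⟨k, hk⟩ := ih.symm.dvd
    refine (Int.modEq_iff_dvd.2 ⟨k + 3 ^ (g + i) * (o + 3 * k) ^ 2 +
      3 ^ (2 * (g + i)) * (o + 3 * k) ^ 3, ?_⟩).symm
    rw [pow_succ 3 i, pow_mul, sub_eq_iff_eq_add.1 hk]
    ring

theorem gen_pow {u o a : ℤ} {e : ℕ} (he : 1 ≤ e) (hu : u ≡ 1 + 3 ^ e * o [ZMOD 3 ^ (e + 1)])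
    (ho : ¬ (3 : ℤ) ∣ o) (ha : a ≡ 1 [ZMOD 3 ^ e]) (j : ℕ) :
    ∃ i : ℕ, i < 3 ^ j ∧ a ≡ u ^ i [ZMOD 3 ^ (e + j)] := by
  induction j with
  | zero => exact ⟨0, by simp, by simpa using ha⟩
  | succ j ih =>
    obtain ⟨i, hi, h⟩ := ih
    obtain ⟨k, hk⟩ := h.dvd
    obtain ⟨l, hl⟩ := (cube_step he hu j).symm.dvd
    obtain ⟨g, rfl⟩ := Nat.exists_eq_add_of_le he
    have h1 : u ≡ 1 [ZMOD 3] := by
      obtain ⟨l, hl⟩ := hu.symm.dvd
      exact (Int.modEq_iff_dvd.2 ⟨3 ^ g * o + 3 ^ (g + 1) * l, by linear_combination hl⟩).symm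
    obtain ⟨w, hw⟩ := (h1.pow i).symm.dvd
    rw [one_pow, sub_eq_iff_eq_add] at hw
    rw [sub_eq_iff_eq_add] at hl
    have h2 : (3 : ℤ) ∣ k ∨ (3 : ℤ) ∣ k + o ∨ (3 : ℤ) ∣ k + 2 * o := by
      have h3 : o % 3 = 1 ∨ o % 3 = 2 := by omega
      have h4 : k % 3 = 0 ∨ k % 3 = 1 ∨ k % 3 = 2 := by omega
      rcases h3 with h3 | h3 <;> rcases h4 with h4 | h4 | h4 <;> omega
    rcases h2 with ⟨m, hm⟩ | ⟨m, hm⟩ | ⟨m, hm⟩
    · exact ⟨i, by rw [pow_succ]; omega, Int.modEq_iff_dvd.2 ⟨m, by rw [hk, hm]; ring⟩⟩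
    · refine ⟨i + 3 ^ j, by rw [pow_succ]; omega,
        Int.modEq_iff_dvd.2 ⟨m + w * o + l * (3 * w + 1), ?_⟩⟩
      rw [pow_add, hl]
      rw [hw] at hk ⊢
      linear_combination hk + 3 ^ (1 + g + j) * hm
    · refine ⟨i + 3 ^ j * 2, by rw [pow_succ]; omega,
        Int.modEq_iff_dvd.2 ⟨m + 2 * w * o + (3 * w + 1) * (2 * l + 3 ^ (g + j) * (o + 3 * l) ^ 2),
          ?_⟩⟩
      rw [pow_add, pow_mul, hl]
      rw [hw] at hk ⊢
      linear_combination hk + 3 ^ (1 + g + j) * hm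

theorem exists_exp {u : ℤ} (h : u ≡ 1 [ZMOD 3]) (h1 : u ≠ 1) :
    ∃ (e : ℕ) (o : ℤ), 1 ≤ e ∧ ¬ (3 : ℤ) ∣ o ∧ u = 1 + 3 ^ e * o := by
  obtain ⟨k, hk⟩ := h.symm.dvd
  have h0 : k ≠ 0 := fun e => h1 (by rw [e] at hk; omega)
  obtain ⟨e, a, ha, rfl⟩ := WfDvdMonoid.max_power_factor h0 Int.prime_three.irreducible
  exact ⟨e + 1, a, by omega, ha, by linear_combination hk⟩

theorem n0_le {Γ : Type} [LinearOrderedCommGroupWithZero Γ] (v : Valuation ℂ Γ) {y : ℂ} {m : ℕ}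
    (hm : m ≠ 0) (h : y ^ m = 1) (j : ℕ) : v (1 - y ^ j) ≤ v (1 - y) := by
  have h1 : v y ≤ 1 := (pow_le_one_iff hm).1 (by rw [← map_pow, h, map_one])
  rw [← mul_neg_geom_sum, map_mul]
  refine mul_le_of_le_one_right' (v.map_sum_le fun i _ => ?_)
  rw [map_pow]
  exact pow_le_one' h1 i

theorem v_one_sub {Γ : Type} [LinearOrderedCommGroupWithZero Γ] (v : Valuation ℂ Γ) (hn : 1 ≤ n)
    {b : ℕ} (hb : ¬ 3 ∣ b) : v (1 - zt n ^ b) ^ (2 * 3 ^ (n - 1)) = v 3 := by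
  have h0 : 3 ^ n ≠ 0 := by positivity
  have : NeZero (3 ^ n) := ⟨h0⟩
  have hy : IsPrimitiveRoot (zt n ^ b) (3 ^ n) :=
    (zt_prim n).pow_of_coprime b
      (Nat.Coprime.pow_right _ ((Nat.Prime.coprime_iff_not_dvd Nat.prime_three).2 hb).symm)
  generalize zt n ^ b = y at hy
  have e : ∀ μ ∈ primitiveRoots (3 ^ n) ℂ, v (1 - μ) = v (1 - y) := by
    intro μ hμ
    have h1 := isPrimitiveRoot_of_mem_primitiveRoots hμ
    obtain ⟨i, -, hi⟩ := hy.eq_pow_of_pow_eq_one h1.pow_eq_one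
    obtain ⟨j, -, hj⟩ := h1.eq_pow_of_pow_eq_one hy.pow_eq_one
    refine le_antisymm ?_ ?_
    · rw [← hi]
      exact n0_le v h0 hy.pow_eq_one i
    · rw [← hj]
      exact n0_le v h0 h1.pow_eq_one j
  have h3 : ∏ μ ∈ primitiveRoots (3 ^ n) ℂ, (1 - μ) = 3 := by
    obtain ⟨j, rfl⟩ := Nat.exists_eq_add_of_le' hn
    have : Fact (Nat.Prime 3) := ⟨Nat.prime_three⟩
    have h4 := Polynomial.eval_one_cyclotomic_prime_pow (R := ℂ) (p := 3) j
    rw [Polynomial.cyclotomic_eq_prod_X_sub_primitiveRoots hy, Polynomial.eval_prod] at h4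
    simpa using h4
  rw [← h3, map_prod, Finset.prod_congr rfl e, Finset.prod_const, hy.card_primitiveRoots,
    Nat.totient_prime_pow Nat.prime_three hn, mul_comm]

theorem v_r3 {Γ : Type} [LinearOrderedCommGroupWithZero Γ] (v : Valuation ℂ Γ) :
    v (r3 1) ^ 2 = v 3 ∧ (v 3 < 1 → v (r3 1) < 1 ∧ v 3 ≤ v (r3 1)) := by
  have h : v (r3 1) ^ 2 = v 3 := by rw [← map_pow, r3_sq, Valuation.map_neg]
  refine ⟨h, fun h3 => ?_⟩
  have h1 : v (r3 1) < 1 := (pow_lt_one_iff two_ne_zero).1 (h ▸ h3)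
  exact ⟨h1, h ▸ pow_le_of_le_one zero_le h1.le two_ne_zero⟩

end Pool.Agent.P.MP_20768c_nt.Tz.Cv

end

-- part Cv.K4a
section

set_option autoImplicit false

open Complex NumberField IsDedekindDomain Filter Topology
open UpperHalfPlane hiding I
open scoped ComplexConjugate Real MatrixGroups

namespace Pool.Agent.P.MP_20768c_nt.Tz.Cv

open Pool.Agent.P.MP_20768c_nt.Tz.EQ (Lt pr sp IsLat jL qN)

theorem k4a_bij {G ι : Type} [CommGroup G] {τ : G} (h3 : τ ^ 3 = 1) (h : ι → G)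
    (hs : ∀ g, ∃ i, g = h i ∨ g = h i * τ ∨ g = h i * τ * τ) (hi : ∀ i j, h i = h j → i = j)
    (hi' : ∀ i j, h i ≠ h j * τ) :
    Function.Bijective (Sum.elim h fun y => Sum.elim h (fun j => h j * τ) y * τ) := by
  have h4 : ∀ i j, h i ≠ h j * τ * τ := fun i j e => hi' j i (by
    rw [e, mul_assoc, mul_assoc, ← pow_three, h3, mul_one])
  refine ⟨?_, fun g => ?_⟩
  · rintro (i | i | i) (j | j | j) e
    · exact congrArg _ (hi i j e)
    · exact absurd e (hi' i j)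
    · exact absurd e (h4 i j)
    · exact absurd e.symm (hi' j i)
    · rw [hi i j (mul_right_cancel e)]
    · exact absurd (mul_right_cancel e) (hi' i j)
    · exact absurd e.symm (h4 j i)
    · exact absurd (mul_right_cancel e).symm (hi' j i)
    · rw [hi i j (mul_right_cancel (mul_right_cancel e))]
  · obtain ⟨i, rfl | rfl | rfl⟩ := hs g
    · exact ⟨.inl i, rfl⟩
    · exact ⟨.inr (.inl i), rfl⟩
    · exact ⟨.inr (.inr i), rfl⟩

theorem k4a_sum {G ι : Type} [CommGroup G] [Fintype G] [Fintype ι] {τ : G} (h3 : τ ^ 3 = 1)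
    (h : ι → G) (hs : ∀ g, ∃ i, g = h i ∨ g = h i * τ ∨ g = h i * τ * τ)
    (hi : ∀ i j, h i = h j → i = j) (hi' : ∀ i j, h i ≠ h j * τ) (F : G → ℂ) (a : G) :
    ∑ g, F g = ∑ j, (F (a * h j) + F (a * h j * τ) + F (a * h j * τ * τ)) := by
  rw [← Equiv.sum_comp (Equiv.mulLeft a), ← (k4a_bij h3 h hs hi hi').sum_comp,
    Fintype.sum_sum_type, Fintype.sum_sum_type, Finset.sum_add_distrib, Finset.sum_add_distrib,
    add_assoc]
  simp only [Sum.elim_inl, Sum.elim_inr, Equiv.coe_mulLeft, mul_assoc]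

theorem k4a_conj {G : Type} [CommGroup G] [Finite G] (φ : G →* ℂˣ) (g : G) :
    conj (φ g : ℂ) = (φ g : ℂ)⁻¹ := by
  refine (Complex.inv_eq_conj (Complex.norm_eq_one_of_pow_eq_one (n := Nat.card G) ?_
    Nat.card_pos.ne')).symm
  rw [← Units.val_pow_eq_pow_val, ← map_pow, pow_card_eq_one', map_one, Units.val_one]

theorem k4a_om {G : Type} [CommGroup G] {τ : G} (h3 : τ ^ 3 = 1) {φ : G →* ℂˣ} (h : φ τ ≠ 1) :
    (φ τ : ℂ) ^ 2 + φ τ + 1 = 0 := by
  have e : (φ τ : ℂ) ^ 3 = 1 := by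
    rw [← Units.val_pow_eq_pow_val, ← map_pow, h3, map_one, Units.val_one]
  refine mul_left_cancel₀ (sub_ne_zero.2 fun h' : (φ τ : ℂ) = 1 => h (Units.ext h')) ?_
  linear_combination e

theorem ded_det {G ι : Type} [CommGroup G] [Finite G] [Fintype ι] [DecidableEq ι] {τ : G}
    (h3 : τ ^ 3 = 1) (h : ι → G) (hs : ∀ g, ∃ i, g = h i ∨ g = h i * τ ∨ g = h i * τ * τ)
    (hi : ∀ i j, h i = h j → i = j) (hi' : ∀ i j, h i ≠ h j * τ) (l : G → ℝ) :
    |(Matrix.of fun x y : ι ⊕ ι =>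
        l (Sum.elim h (fun j => h j * τ) x * (Sum.elim h (fun j => h j * τ) y * τ)) -
          l (Sum.elim h (fun j => h j * τ) x * Sum.elim h h y)).det| =
      ∏ᶠ φ ∈ {φ : G →* ℂˣ | φ τ ≠ 1}, ‖∑ᶠ g, (((φ g)⁻¹ : ℂˣ) : ℂ) * (l g : ℂ)‖ := by
  classical
  have := Fintype.ofFinite G
  have := k2_p_fin G
  obtain ⟨i0, -⟩ := hs 1
  have h1 : τ ≠ 1 := fun e => hi' i0 i0 (by rw [e, mul_one])
  have hc := card_odd h1 h3
  rw [← Nat.card_eq_of_bijective _ (k4a_bij h3 h hs hi hi'), Nat.card_sum, Nat.card_sum,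
    ← Nat.card_coe_set_eq] at hc
  have hc' : Nat.card (ι ⊕ ι) = Nat.card {φ : G →* ℂˣ | φ τ ≠ 1} := by
    rw [Nat.card_sum]
    omega
  obtain ⟨e⟩ := Finite.card_eq.1 hc'
  have hτ : ∀ k, ((e k).1 τ : ℂ) ^ 2 + (e k).1 τ + 1 = 0 := fun k => k4a_om h3 (e k).2
  obtain ⟨r, hr⟩ : ∃ r : ι ⊕ ι → G, r = Sum.elim h fun j => h j * τ := ⟨_, rfl⟩
  rw [← hr]
  let P : Matrix (ι ⊕ ι) (ι ⊕ ι) ℂ := Matrix.of fun x k => ((e k).1 (r x) : ℂ)
  let Z : ι ⊕ ι → ℂ := fun k => ∑ g, (((e k).1 g)⁻¹ : ℂˣ) * (l g : ℂ)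
  have e1 : (Complex.ofRealHom.mapMatrix (Matrix.of fun x y : ι ⊕ ι =>
      l (r x * (r y * τ)) - l (r x * Sum.elim h h y))) * (starRingEnd ℂ).mapMatrix P =
      P * Matrix.diagonal fun k => Z k * (e k).1 τ := by
    ext x k
    rw [Matrix.mul_diagonal, Matrix.mul_apply]
    simp only [Z, P, RingHom.mapMatrix_apply, Matrix.map_apply, Matrix.of_apply, k4a_conj]
    rw [k4a_sum h3 h hs hi hi' _ (r x), Finset.sum_mul, Finset.mul_sum, Fintype.sum_sum_type,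
      ← Finset.sum_add_distrib]
    refine Finset.sum_congr rfl fun j _ => ?_
    have e2 : r (.inl j) = h j := by rw [hr, Sum.elim_inl]
    have e3 : r (.inr j) = h j * τ := by rw [hr, Sum.elim_inr]
    simp only [e2, e3, map_mul, Units.val_inv_eq_inv_val, Units.val_mul, Sum.elim_inl, Sum.elim_inr,
      Complex.ofRealHom_eq_coe, Complex.ofReal_sub, mul_assoc]
    have := ((e k).1 (r x)).ne_zero
    have := ((e k).1 (h j)).ne_zero
    have := ((e k).1 τ).ne_zero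
    field_simp
    linear_combination (-(l (r x * h j) : ℂ)) * hτ k
  have d3 : P.det ≠ 0 := fun h0 => by
    obtain ⟨v, hv, h4⟩ := Matrix.exists_mulVec_eq_zero_iff.2 h0
    have h5 : ∀ x, ∑ k, v k * ((e k).1 (r x) : ℂ) = 0 := fun x => by
      have := congrFun h4 x
      simpa only [P, Matrix.mulVec, dotProduct, Matrix.of_apply, mul_comm, Pi.zero_apply]
        using this
    have h6 : ∀ g, ∑ k, v k * ((e k).1 g : ℂ) = 0 := fun g => by
      obtain ⟨i, rfl | rfl | rfl⟩ := hs g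
      · simpa only [hr, Sum.elim_inl] using h5 (.inl i)
      · simpa only [hr, Sum.elim_inr] using h5 (.inr i)
      · have a1 := h5 (.inl i)
        have a2 := h5 (.inr i)
        simp only [hr, Sum.elim_inl, Sum.elim_inr] at a1 a2
        rw [← neg_zero, ← add_zero (0 : ℂ)]
        conv_rhs => rw [← a1]; arg 1; arg 2; rw [a1, ← a2]
        rw [← Finset.sum_add_distrib, ← Finset.sum_neg_distrib]
        refine Finset.sum_congr rfl fun k _ => ?_
        simp only [map_mul, Units.val_mul]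
        linear_combination v k * ((e k).1 (h i) : ℂ) * hτ k
    have h7 := (linearIndependent_monoidHom G ℂ).comp
      (fun k => (Units.coeHom ℂ).comp (e k).1) fun k k' hk =>
        e.injective (Subtype.ext (MonoidHom.ext fun g => Units.ext (DFunLike.congr_fun hk g)))
    exact hv (funext (Fintype.linearIndependent_iff.1 h7 v (funext fun g => by
      simpa using h6 g)))
  have d1 := congrArg (fun A => ‖Matrix.det A‖) e1
  have d2 : ∀ k, ‖((e k).1 τ : ℂ)‖ = 1 := fun k =>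
    Complex.norm_eq_one_of_pow_eq_one (n := 3) (by
      rw [← Units.val_pow_eq_pow_val, ← map_pow, h3, map_one, Units.val_one]) (by norm_num)
  simp only [Matrix.det_mul, ← RingHom.map_det, Matrix.det_diagonal, norm_mul, Complex.norm_conj,
    Complex.ofRealHom_eq_coe, Complex.norm_real, Real.norm_eq_abs, norm_prod, d2, mul_one] at d1
  rw [mul_comm] at d1
  rw [mul_left_cancel₀ (norm_ne_zero_iff.2 d3) d1, ← finprod_set_coe_eq_finprod_mem,
    ← finprod_comp_equiv e, finprod_eq_prod_of_fintype]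
  simp only [Z, finsum_eq_sum_of_fintype]

end Pool.Agent.P.MP_20768c_nt.Tz.Cv

end

-- part Cv.F0a_p
section

set_option autoImplicit false

open Complex NumberField IsDedekindDomain Filter Topology
open UpperHalfPlane hiding I
open scoped ComplexConjugate Real MatrixGroups

namespace Pool.Agent.P.MP_20768c_nt.Tz.Cv

open Pool.Agent.P.MP_20768c_nt.Tz.EQ (Lt pr sp IsLat jL qN)

variable (F : Type) [Field F] [NumberField F] {l C : ℕ}

open scoped nonZeroDivisors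

/-- the order of a nonzero element at a prime -/
noncomputable def f0a_p_ord (Q : HeightOneSpectrum (𝓞 F)) (x : Fˣ) : ℤ :=
  FractionalIdeal.count F Q (FractionalIdeal.spanSingleton (𝓞 F)⁰ (x : F))

theorem f0a_p_int (Q : HeightOneSpectrum (𝓞 F)) {a : 𝓞 F} (ha : a ≠ 0) :
    Q.valuation F (algebraMap (𝓞 F) F a) = WithZero.exp
      (-FractionalIdeal.count F Q (FractionalIdeal.spanSingleton (𝓞 F)⁰ (algebraMap (𝓞 F) F a))) := by
  have h : (Ideal.span {a} : Ideal (𝓞 F)) ≠ 0 := by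
    rw [Ne, Ideal.zero_eq_bot, Ideal.span_singleton_eq_bot]; exact ha
  rw [← FractionalIdeal.coeIdeal_span_singleton, FractionalIdeal.count_coe F Q h,
    ← Q.intValuation_if_neg ha]
  exact Q.valuation_of_algebraMap a

theorem f0a_p_val (Q : HeightOneSpectrum (𝓞 F)) (x : Fˣ) :
    Q.valuation F (x : F) = WithZero.exp (-f0a_p_ord F Q x) := by
  obtain ⟨a, b, hb, hab⟩ := IsFractionRing.div_surjective (A := 𝓞 F) (x : F)
  have hb0 : b ≠ 0 := nonZeroDivisors.ne_zero hb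
  have ha0 : a ≠ 0 := by
    rintro rfl
    exact x.ne_zero (by rw [← hab, map_zero, zero_div])
  have inj := IsFractionRing.injective (𝓞 F) F
  have ha' : FractionalIdeal.spanSingleton (𝓞 F)⁰ (algebraMap (𝓞 F) F a) ≠ 0 :=
    FractionalIdeal.spanSingleton_ne_zero_iff.2 ((map_ne_zero_iff _ inj).2 ha0)
  have hb' : FractionalIdeal.spanSingleton (𝓞 F)⁰ (algebraMap (𝓞 F) F b) ≠ 0 :=
    FractionalIdeal.spanSingleton_ne_zero_iff.2 ((map_ne_zero_iff _ inj).2 hb0)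
  rw [f0a_p_ord, ← hab, map_div₀, f0a_p_int F Q ha0, f0a_p_int F Q hb0, div_eq_mul_inv (algebraMap _ _ a),
    ← FractionalIdeal.spanSingleton_mul_spanSingleton, ← FractionalIdeal.spanSingleton_inv,
    FractionalIdeal.count_mul F Q ha' (inv_ne_zero hb'), FractionalIdeal.count_inv,
    ← WithZero.exp_sub]
  congr 1
  ring

theorem f0a_p_ne (x : Fˣ) : FractionalIdeal.spanSingleton (𝓞 F)⁰ (x : F) ≠ 0 :=
  FractionalIdeal.spanSingleton_ne_zero_iff.2 x.ne_zero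

theorem f0a_p_ord_mul (Q : HeightOneSpectrum (𝓞 F)) (x y : Fˣ) :
    f0a_p_ord F Q (x * y) = f0a_p_ord F Q x + f0a_p_ord F Q y := by
  rw [f0a_p_ord, Units.val_mul, ← FractionalIdeal.spanSingleton_mul_spanSingleton,
    FractionalIdeal.count_mul F Q (f0a_p_ne F x) (f0a_p_ne F y)]
  rfl

theorem f0a_p_ord_one (Q : HeightOneSpectrum (𝓞 F)) : f0a_p_ord F Q 1 = 0 := by
  have h := f0a_p_ord_mul F Q 1 1
  rw [mul_one] at h
  omega

theorem f0a_p_mem {x : Fˣ} : x ∈ Vs F l C ↔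
    ∀ Q : HeightOneSpectrum (𝓞 F), (C : 𝓞 F) ∉ Q.asIdeal → (l : ℤ) ∣ f0a_p_ord F Q x := by
  refine forall₂_congr fun Q _ => ?_
  rw [f0a_p_val]
  constructor
  · rintro ⟨j, hj⟩
    exact ⟨-j, by rw [mul_neg, ← WithZero.exp_injective hj, neg_neg]⟩
  · rintro ⟨j, hj⟩
    exact ⟨-j, by rw [hj, mul_neg]⟩

theorem f0a_p_ext {A B : FractionalIdeal (𝓞 F)⁰ F} (hA : A ≠ 0) (hB : B ≠ 0)
    (h : ∀ Q, FractionalIdeal.count F Q A = FractionalIdeal.count F Q B) : A = B := by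
  rw [← FractionalIdeal.finprod_heightOneSpectrum_factorization' F hA,
    ← FractionalIdeal.finprod_heightOneSpectrum_factorization' F hB]
  exact finprod_congr fun Q => by rw [h]

/-- a fractional ideal with prescribed orders -/
theorem f0a_p_exists (e : HeightOneSpectrum (𝓞 F) → ℤ) (he : ∀ᶠ Q in cofinite, e Q = 0) :
    ∃ A : (FractionalIdeal (𝓞 F)⁰ F)ˣ, ∀ Q, FractionalIdeal.count F Q A.1 = e Q := by
  have h0 : ∏ᶠ Q : HeightOneSpectrum (𝓞 F), (Q.asIdeal : FractionalIdeal (𝓞 F)⁰ F) ^ e Q ≠ 0 :=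
    finprod_induction (fun A : FractionalIdeal (𝓞 F)⁰ F => A ≠ 0) one_ne_zero
      (fun _ _ => mul_ne_zero) fun Q => zpow_ne_zero _ (FractionalIdeal.coeIdeal_ne_zero.2 Q.ne_bot)
  exact ⟨Units.mk0 _ h0, fun Q => FractionalIdeal.count_finprod F Q e he⟩

theorem sel_le (l C : ℕ) : Un F ⊔ Pw F l ≤ Vs F l C := by
  refine sup_le ?_ ?_
  · rintro _ ⟨u, rfl⟩ Q _
    refine ⟨0, ?_⟩
    rw [mul_zero, WithZero.exp_zero]
    exact Q.valuation_eq_one_iff_notMem.2 fun h =>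
      Q.isPrime.ne_top (Ideal.eq_top_of_isUnit_mem _ h u.isUnit)
  · rintro _ ⟨y, rfl⟩ Q _
    refine ⟨-f0a_p_ord F Q y, ?_⟩
    rw [powMonoidHom_apply, Units.val_pow_eq_pow_val, map_pow, f0a_p_val, ← WithZero.exp_nsmul,
      nsmul_eq_mul]

theorem mem_Un {x : Fˣ} :
    x ∈ Un F ↔ ∀ Q : HeightOneSpectrum (𝓞 F), Q.valuation F (x : F) = 1 := by
  constructor
  · rintro ⟨u, rfl⟩ Q
    exact Q.valuation_eq_one_iff_notMem.2 fun h =>
      Q.isPrime.ne_top (Ideal.eq_top_of_isUnit_mem _ h u.isUnit)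
  · intro h
    obtain ⟨a, ha⟩ := HeightOneSpectrum.mem_integers_of_valuation_le_one (R := 𝓞 F) F (x : F)
      fun Q => (h Q).le
    obtain ⟨b, hb⟩ := HeightOneSpectrum.mem_integers_of_valuation_le_one (R := 𝓞 F) F ((x⁻¹ : Fˣ) : F)
      fun Q => by rw [Units.val_inv_eq_inv_val, map_inv₀, h Q, inv_one]
    have hab : a * b = 1 := IsFractionRing.injective (𝓞 F) F (by
      rw [map_mul, ha, hb, map_one, Units.mul_inv])
    exact ⟨Units.mkOfMulEqOne a b hab, Units.ext ha⟩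

theorem f0a_p_un {x : Fˣ} (h : ∀ Q, f0a_p_ord F Q x = 0) : x ∈ Un F :=
  (mem_Un F).2 fun Q => by rw [f0a_p_val, h, neg_zero, WithZero.exp_zero]

theorem f0a_p_ord_pow (Q : HeightOneSpectrum (𝓞 F)) (x : Fˣ) (n : ℕ) :
    f0a_p_ord F Q (x ^ n) = n * f0a_p_ord F Q x := by
  induction n with
  | zero => rw [pow_zero, f0a_p_ord_one]; simp
  | succ n ih => rw [pow_succ, f0a_p_ord_mul, ih]; push_cast; ring

theorem f0a_p_ord_inv (Q : HeightOneSpectrum (𝓞 F)) (x : Fˣ) :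
    f0a_p_ord F Q x⁻¹ = -f0a_p_ord F Q x := by
  have h := f0a_p_ord_mul F Q x⁻¹ x
  rw [inv_mul_cancel, f0a_p_ord_one] at h
  omega

theorem f0a_p_root (x : Vs F l 1) : ∃ A : (FractionalIdeal (𝓞 F)⁰ F)ˣ,
    ∀ Q, (l : ℤ) * FractionalIdeal.count F Q A.1 = f0a_p_ord F Q x.1 := by
  obtain ⟨A, hA⟩ := f0a_p_exists F (fun Q => f0a_p_ord F Q x.1 / l)
    ((FractionalIdeal.finite_factors (FractionalIdeal.spanSingleton (𝓞 F)⁰ (x.1 : F))).mono
      fun Q hQ => by rw [f0a_p_ord, hQ, Int.zero_ediv])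
  refine ⟨A, fun Q => ?_⟩
  rw [hA]
  refine Int.mul_ediv_cancel' ((f0a_p_mem F).1 x.2 Q fun h => ?_)
  rw [Nat.cast_one] at h
  exact Q.isPrime.ne_top ((Ideal.eq_top_iff_one _).2 h)

/-- the index of a subgroup that contains the kernel of a map into a finite set of values -/
theorem f0a_p_index {G H : Type} [Group G] [Group H] (φ : G →* H) (A : Subgroup G) (T : Set H)
    (hT : T.Finite) (h1 : φ.ker ≤ A) (h2 : ∀ g, φ g ∈ T) : A.index ≠ 0 ∧ A.index ≤ Nat.card T := by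
  have hf : Finite T := hT
  have hi : Function.Injective fun y : φ.range => (⟨y.1, by
      obtain ⟨g, hg⟩ := y.2
      exact hg ▸ h2 g⟩ : T) := fun y z h => Subtype.ext (congrArg (fun t : T => t.1) h)
  have hr : Finite φ.range := Finite.of_injective _ hi
  have h3 : φ.ker.index ≠ 0 := by
    rw [Subgroup.index_ker]
    exact Nat.card_pos.ne'
  have h4 := Subgroup.index_dvd_of_le h1
  refine ⟨ne_zero_of_dvd_ne_zero h3 h4, (Nat.le_of_dvd (Nat.pos_of_ne_zero h3) h4).trans ?_⟩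
  rw [Subgroup.index_ker]
  exact Nat.card_le_card_of_injective _ hi

theorem f0a_p_zero (hl : 0 < l) : (Un F ⊔ Pw F l).relIndex (Vs F l 1) ≠ 0 ∧
    (Un F ⊔ Pw F l).relIndex (Vs F l 1) ≤ Nat.card {x : ClassGroup (𝓞 F) // x ^ l = 1} := by
  choose A hA using f0a_p_root F (l := l)
  have hl' : (l : ℤ) ≠ 0 := by exact_mod_cast hl.ne'
  have hmul : ∀ x y, A (x * y) = A x * A y := fun x y => Units.ext <|
    f0a_p_ext F (Units.ne_zero _) (Units.ne_zero _) fun Q => mul_left_cancel₀ hl' (by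
      rw [Units.val_mul, FractionalIdeal.count_mul F Q (Units.ne_zero _) (Units.ne_zero _), mul_add,
        hA, hA, hA, Subgroup.coe_mul, f0a_p_ord_mul])
  refine f0a_p_index ((ClassGroup.mk F).comp (MonoidHom.mk' A hmul)) _ {x | x ^ l = 1}
    (Set.toFinite _) (fun x hx => ?_) fun x => ?_
  · have hx' : ClassGroup.mk F (A x) = 1 := hx
    obtain ⟨y, hy⟩ := (FractionalIdeal.isPrincipal_iff _).1 (ClassGroup.mk_eq_one_iff.1 hx')
    have hy0 : y ≠ 0 := by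
      rintro rfl
      exact (A x).ne_zero (by rw [hy, FractionalIdeal.spanSingleton_zero])
    have hu : x.1 * (Units.mk0 y hy0 ^ l)⁻¹ ∈ Un F := f0a_p_un F fun Q => by
      rw [f0a_p_ord_mul, f0a_p_ord_inv, f0a_p_ord_pow, ← hA, hy]
      exact add_neg_cancel _
    rw [Subgroup.mem_subgroupOf, ← inv_mul_cancel_right x.1 (Units.mk0 y hy0 ^ l)]
    exact Subgroup.mul_mem_sup hu ⟨_, rfl⟩
  · change ClassGroup.mk F (A x) ^ l = 1
    rw [← map_pow, ClassGroup.mk_eq_one_iff, FractionalIdeal.isPrincipal_iff]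
    refine ⟨(x.1 : F), f0a_p_ext F (Units.ne_zero _) (f0a_p_ne F _) fun Q => ?_⟩
    rw [Units.val_pow_eq_pow_val, FractionalIdeal.count_pow, hA]
    rfl

theorem f0a_p_loc (hl : 0 < l) (hC : C ≠ 0) : (Vs F l 1).relIndex (Vs F l C) ≠ 0 ∧
    (Vs F l 1).relIndex (Vs F l C) ≤ l ^ nP F C := by
  have : NeZero l := ⟨hl.ne'⟩
  have hf : Finite {Q : HeightOneSpectrum (𝓞 F) | (C : 𝓞 F) ∈ Q.asIdeal} := fin_primes F hC
  let φ : Vs F l C →* Multiplicative
      ({Q : HeightOneSpectrum (𝓞 F) | (C : 𝓞 F) ∈ Q.asIdeal} → ZMod l) :=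
    MonoidHom.mk' (fun x => Multiplicative.ofAdd fun Q => (f0a_p_ord F Q.1 x.1 : ZMod l))
      fun x y => by
        rw [← ofAdd_add]
        congr 1
        funext Q
        rw [Subgroup.coe_mul, f0a_p_ord_mul, Int.cast_add, Pi.add_apply]
  have h := f0a_p_index φ ((Vs F l 1).subgroupOf (Vs F l C)) Set.univ (Set.toFinite _)
    (fun x hx => by
      rw [Subgroup.mem_subgroupOf, f0a_p_mem]
      intro Q _
      by_cases hQ : (C : 𝓞 F) ∈ Q.asIdeal
      · exact (ZMod.intCast_zmod_eq_zero_iff_dvd _ _).1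
          (congrFun (congrArg Multiplicative.toAdd (MonoidHom.mem_ker.1 hx)) ⟨Q, hQ⟩)
      · exact (f0a_p_mem F).1 x.2 Q hQ) fun _ => trivial
  rw [Nat.card_univ, Nat.card_congr Multiplicative.toAdd, Nat.card_fun, Nat.card_zmod,
    Nat.card_coe_set_eq] at h
  exact h

theorem selA (hl : 0 < l) (hC : C ≠ 0) : (Un F ⊔ Pw F l).relIndex (Vs F l C) ≠ 0 ∧
    (Un F ⊔ Pw F l).relIndex (Vs F l C) ≤
      l ^ nP F C * Nat.card {x : ClassGroup (𝓞 F) // x ^ l = 1} := by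
  have h1 : Vs F l 1 ≤ Vs F l C := fun x hx Q _ => hx Q fun h => by
    rw [Nat.cast_one] at h
    exact Q.isPrime.ne_top ((Ideal.eq_top_iff_one _).2 h)
  obtain ⟨a1, a2⟩ := f0a_p_zero F hl
  obtain ⟨b1, b2⟩ := f0a_p_loc F hl hC
  rw [← Subgroup.relIndex_mul_relIndex _ _ _ (sel_le F l 1) h1, mul_comm]
  exact ⟨mul_ne_zero b1 a1, Nat.mul_le_mul b2 a2⟩

theorem cl_three :
    Nat.card {x : ClassGroup (𝓞 F) // x ^ 3 = 1} ≤ 3 ^ padicValNat 3 (classNumber F) := by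
  have : Fact (Nat.Prime 3) := ⟨Nat.prime_three⟩
  have hp : IsPGroup 3 (powMonoidHom 3 : ClassGroup (𝓞 F) →* ClassGroup (𝓞 F)).ker :=
    fun x => ⟨1, Subtype.ext x.2⟩
  obtain ⟨n, hn⟩ := IsPGroup.iff_card.1 hp
  have hd := Subgroup.card_subgroup_dvd_card
    (powMonoidHom 3 : ClassGroup (𝓞 F) →* ClassGroup (𝓞 F)).ker
  have e : Nat.card (ClassGroup (𝓞 F)) = classNumber F := Nat.card_eq_fintype_card
  rw [hn, e] at hd
  change Nat.card (powMonoidHom 3 : ClassGroup (𝓞 F) →* ClassGroup (𝓞 F)).ker ≤ _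
  rw [hn]
  exact Nat.pow_le_pow_right three_pos ((padicValNat_dvd_iff_le (classNumber_ne_zero F)).1 hd)

end Pool.Agent.P.MP_20768c_nt.Tz.Cv

end

-- part Cv.K2
section

set_option autoImplicit false

open Complex NumberField IsDedekindDomain Filter Topology
open UpperHalfPlane hiding I
open scoped ComplexConjugate Real MatrixGroups

namespace Pool.Agent.P.MP_20768c_nt.Tz.Cv

open Pool.Agent.P.MP_20768c_nt.Tz.EQ (Lt pr sp IsLat jL qN)

variable {k F : Type} [Field k] [NumberField k] [Field F] [NumberField F] [Algebra k F]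
  [IsGalois k F] {C : ℕ}

omit [IsGalois k F] in
theorem k2_key (hU : Unr k F C) {q : Ideal (𝓞 k)} [hq : q.IsPrime] (h0 : q ≠ ⊥)
    (hC : (C : 𝓞 k) ∉ q) {g : F ≃ₐ[k] F} {Q : Ideal (𝓞 F)} [hQ : Q.IsPrime] [Q.LiesOver q]
    (hg : FrobAt g Q) :
    Q.inertia (F ≃ₐ[k] F) = ⊥ ∧ orderOf g = Q.inertiaDeg (𝓞 k) := by
  have hC' : (C : 𝓞 F) ∉ Q := fun h => hC (by
    rw [Q.over_def q, Ideal.under_def, Ideal.mem_comap, map_natCast]; exact h)
  have hI : ∀ σ : F ≃ₐ[k] F, (∀ x : 𝓞 F, σ • x - x ∈ Q) → σ = 1 := fun σ h =>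
    hU Q hQ hC' σ fun x y e => by
      have : y = σ • x := RingOfIntegers.ext e
      rw [this]; exact h x
  refine ⟨eq_bot_iff.2 fun σ h => hI σ h, ?_⟩
  have := hq.isMaximal h0
  have := Ideal.IsMaximal.of_liesOver_isMaximal Q q
  let := Ideal.Quotient.field q
  let := Ideal.Quotient.field Q
  have : Finite (𝓞 k ⧸ q) := Ideal.finiteQuotientOfFreeOfNeBot q h0
  let := Fintype.ofFinite (𝓞 k ⧸ q)
  have : Finite (𝓞 F ⧸ Q) := Ideal.finiteQuotientOfFreeOfNeBot Q (Ideal.ne_bot_of_liesOver_of_ne_bot h0 Q)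
  rw [Ideal.inertiaDeg_eq_of_isMaximal q Q, ← FiniteField.orderOf_frobeniusAlgHom,
    orderOf_eq_orderOf_iff]
  have h1 : ∀ (n : ℕ) (x : 𝓞 F), Ideal.Quotient.mk Q (g ^ n • x) =
      (FiniteField.frobeniusAlgHom (𝓞 k ⧸ q) (𝓞 F ⧸ Q) ^ n) (Ideal.Quotient.mk Q x) := by
    intro n x
    induction n with
    | zero => simp
    | succ n ih =>
      have h2 := Ideal.Quotient.eq.2 (hg (g ^ n • x) (g • g ^ n • x) rfl)
      rw [pow_succ', pow_succ', mul_smul, AlgHom.mul_apply, ← ih, h2, map_pow, ← Q.over_def q,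
        FiniteField.coe_frobeniusAlgHom, Ideal.absNorm_apply, Submodule.cardQuot_apply,
        Nat.card_eq_fintype_card]
  intro n
  constructor
  · intro h
    refine AlgHom.ext fun x => ?_
    obtain ⟨x, rfl⟩ := Ideal.Quotient.mk_surjective x
    rw [← h1, h, one_smul, AlgHom.one_apply]
  · intro h
    exact hI _ fun x => Ideal.Quotient.eq.1 (by rw [h1, h, AlgHom.one_apply])

theorem primes_over (hU : Unr k F C) {q : Ideal (𝓞 k)} (hq : q.IsPrime) (h0 : q ≠ ⊥)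
    (hC : (C : 𝓞 k) ∉ q) {g : F ≃ₐ[k] F}
    (hg : ∀ Q : Ideal (𝓞 F), Q.IsPrime → Q.under (𝓞 k) = q → FrobAt g Q) :
    {Q : Ideal (𝓞 F) | Q.IsPrime ∧ Q.under (𝓞 k) = q}.ncard =
        Nat.card (F ≃ₐ[k] F) / orderOf g ∧
      ∀ Q : Ideal (𝓞 F), Q.IsPrime → Q.under (𝓞 k) = q →
        Ideal.absNorm Q = Ideal.absNorm q ^ orderOf g := by
  have := hq.isMaximal h0
  have : Finite (𝓞 k ⧸ q) := Ideal.finiteQuotientOfFreeOfNeBot q h0
  constructor
  · obtain ⟨Q, hQ, hl⟩ := Ideal.nonempty_primesOver (S := 𝓞 F) q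
    obtain ⟨h1, h2⟩ := k2_key hU h0 hC (hg Q hQ (Q.over_def q).symm)
    have h3 := Ideal.ncard_primesOver_mul_card_inertia_mul_finrank (G := F ≃ₐ[k] F) q Q
    rw [h1, Subgroup.card_bot, mul_one, ← h2] at h3
    rw [← h3, Nat.mul_div_cancel _ (orderOf_pos g)]
    congr 1
    ext P
    exact and_congr_right fun _ => by rw [Ideal.liesOver_iff, eq_comm]
  · intro Q hQ e
    have : Q.LiesOver q := ⟨e.symm⟩
    rw [(k2_key hU h0 hC (hg Q hQ e)).2, Ideal.absNorm_pow_inertiaDeg]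

theorem zeta_fac (hc : ∀ g h : F ≃ₐ[k] F, g * h = h * g) (hU : Unr k F C)
    (Fr : Ideal (𝓞 k) → F ≃ₐ[k] F) (hFr : ∀ Q : Ideal (𝓞 F), Q.IsPrime → Q ≠ ⊥ →
      (C : 𝓞 F) ∉ Q → FrobAt (Fr (Q.under (𝓞 k))) Q)
    (a : ((F ≃ₐ[k] F) →* ℂˣ) → Ideal (𝓞 k) → ℂ) (ha : ∀ φ, Mult k (a φ))
    (hq : ∀ φ (q : Ideal (𝓞 k)), q.IsPrime → q ≠ ⊥ →
      ((C : 𝓞 k) ∈ q → a φ q = 0) ∧ ((C : 𝓞 k) ∉ q → a φ q = φ (Fr q))) {t : ℝ} (ht : 1 < t) :
    DS F (oneC F C) t = ∏ᶠ φ, DS k (a φ) t := by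
  have : Finite ((F ≃ₐ[k] F) →* ℂˣ) := inferInstance
  let := Fintype.ofFinite ((F ≃ₐ[k] F) →* ℂˣ)
  rw [finprod_eq_prod_of_fintype]
  refine HasProd.unique (((Equiv.sigmaFiberEquiv fun Q : HeightOneSpectrum (𝓞 F) =>
    Q.under (𝓞 k)).hasProd_iff.2 (DS_euler F (mult_oneC' F C) ht)).sigma fun q => ?_)
    (hasProd_prod fun φ _ => DS_euler k (ha φ) ht)
  have hu : ∀ Q : HeightOneSpectrum (𝓞 F), Q.under (𝓞 k) = q →
      ((C : 𝓞 F) ∈ Q.asIdeal ↔ (C : 𝓞 k) ∈ q.asIdeal) := by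
    rintro Q rfl
    rw [HeightOneSpectrum.under_asIdeal, Ideal.under_def, Ideal.mem_comap, map_natCast]
  by_cases hC : (C : 𝓞 k) ∈ q.asIdeal
  · rw [Finset.prod_eq_one fun φ _ => by
      rw [(hq φ _ q.isPrime q.ne_bot).1 hC, zero_mul, sub_zero, inv_one]]
    convert hasProd_one using 2 with Q
    simp only [Function.comp_apply, Equiv.sigmaFiberEquiv_apply]
    rw [(oneC_prime F Q.1.isPrime Q.1.ne_bot).1 ((hu _ Q.2).2 hC), zero_mul, sub_zero, inv_one]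
  have hn : ∀ Q : Ideal (𝓞 F), Q.under (𝓞 k) = q.asIdeal → Q ≠ ⊥ := by
    rintro Q e rfl
    exact q.ne_bot (by rw [← e, Ideal.under_bot])
  obtain ⟨h1, h2⟩ := primes_over hU q.isPrime q.ne_bot hC (g := Fr q.asIdeal) fun Q hQ e => by
    rw [← e]
    exact hFr Q hQ (hn Q e) fun h => hC (by
      rw [← e, Ideal.under_def, Ideal.mem_comap, map_natCast]; exact h)
  have h3 : Nat.card {Q : HeightOneSpectrum (𝓞 F) // Q.under (𝓞 k) = q} =
      Nat.card (F ≃ₐ[k] F) / orderOf (Fr q.asIdeal) := by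
    rw [← h1, ← Nat.card_coe_set_eq]
    exact Nat.card_congr
      ⟨fun Q => ⟨Q.1.asIdeal, Q.1.isPrime, congrArg HeightOneSpectrum.asIdeal Q.2⟩,
        fun Q => ⟨⟨Q.1, Q.2.1, hn _ Q.2.2⟩, HeightOneSpectrum.ext Q.2.2⟩,
        fun _ => rfl, fun _ => rfl⟩
  have := Nat.finite_of_card_ne_zero (h3.trans_ne (Nat.div_pos
    (Nat.le_of_dvd Nat.card_pos (orderOf_dvd_natCard _)) (orderOf_pos _)).ne')
  let := Fintype.ofFinite {Q : HeightOneSpectrum (𝓞 F) // Q.under (𝓞 k) = q}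
  have h4 := @char_prod (F ≃ₐ[k] F) { (inferInstance : Group (F ≃ₐ[k] F)) with mul_comm := hc } _
    (Fr q.asIdeal) (((Ideal.absNorm q.asIdeal : ℝ) ^ (-t) : ℝ) : ℂ)
  rw [finprod_eq_prod_of_fintype] at h4
  convert hasProd_fintype _ using 1
  rw [Finset.prod_congr rfl fun φ _ => by rw [(hq φ _ q.isPrime q.ne_bot).2 hC],
    Finset.prod_inv_distrib, h4, ← h3, Nat.card_eq_fintype_card, ← inv_pow, ← Finset.card_univ,
    ← Finset.prod_const]
  refine Finset.prod_congr rfl fun Q _ => ?_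
  simp only [Function.comp_apply, Equiv.sigmaFiberEquiv_apply]
  rw [(oneC_prime F Q.1.isPrime Q.1.ne_bot).2 (mt (hu _ Q.2).1 hC), one_mul,
    h2 _ Q.1.isPrime (congrArg HeightOneSpectrum.asIdeal Q.2), Nat.cast_pow,
    ← Real.rpow_pow_comm (Nat.cast_nonneg _), Complex.ofReal_pow]

end Pool.Agent.P.MP_20768c_nt.Tz.Cv

end

-- part Cv.F0a
section

set_option autoImplicit false

open Complex NumberField IsDedekindDomain Filter Topology
open UpperHalfPlane hiding I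
open scoped ComplexConjugate Real MatrixGroups

namespace Pool.Agent.P.MP_20768c_nt.Tz.Cv

open Pool.Agent.P.MP_20768c_nt.Tz.EQ (Lt pr sp IsLat jL qN)

variable (F : Type) [Field F] [NumberField F] {l C : ℕ}

open scoped nonZeroDivisors

theorem f0a_mem {x : Fˣ} : x ∈ Vs F 0 C ↔
    ∀ Q : HeightOneSpectrum (𝓞 F), (C : 𝓞 F) ∉ Q.asIdeal → f0a_p_ord F Q x = 0 := by
  rw [f0a_p_mem]
  simp only [Nat.cast_zero, zero_dvd_iff]

/-- the lattice of orders of the units away from `C` -/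
def f0a_lam (C : ℕ) :
    Submodule ℤ ({Q : HeightOneSpectrum (𝓞 F) | (C : 𝓞 F) ∈ Q.asIdeal} → ℤ) :=
  AddSubgroup.toIntSubmodule
    { carrier := {e | ∃ x ∈ Vs F 0 C, ∀ Q, e Q = f0a_p_ord F Q.1 x}
      zero_mem' := ⟨1, one_mem _, fun Q => (f0a_p_ord_one F Q.1).symm⟩
      add_mem' := by
        rintro e e' ⟨x, hx, h⟩ ⟨y, hy, h'⟩
        exact ⟨x * y, mul_mem hx hy, fun Q => by rw [f0a_p_ord_mul, Pi.add_apply, h, h']⟩
      neg_mem' := by
        rintro e ⟨x, hx, h⟩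
        exact ⟨x⁻¹, inv_mem hx, fun Q => by rw [f0a_p_ord_inv, Pi.neg_apply, h]⟩ }

theorem f0a_units (hl : 0 < l) (hC : C ≠ 0) :
    (Un F ⊔ Pw F l).relIndex (Vs F 0 C) ≤ l ^ nP F C := by
  have : NeZero l := ⟨hl.ne'⟩
  have hf : Finite {Q : HeightOneSpectrum (𝓞 F) | (C : 𝓞 F) ∈ Q.asIdeal} := fin_primes F hC
  let b := Module.finBasis ℤ (f0a_lam F C)
  let o : Vs F 0 C → f0a_lam F C := fun x => ⟨fun Q => f0a_p_ord F Q.1 x.1, x.1, x.2, fun _ => rfl⟩
  have ho : ∀ x y, o (x * y) = o x + o y := fun x y =>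
    Subtype.ext (funext fun Q => f0a_p_ord_mul F Q.1 x.1 y.1)
  let φ : Vs F 0 C →* Multiplicative (Fin (Module.finrank ℤ (f0a_lam F C)) → ZMod l) :=
    MonoidHom.mk' (fun x => Multiplicative.ofAdd fun i => (b.repr (o x) i : ZMod l))
      fun x y => by
        rw [← ofAdd_add]
        congr 1
        funext i
        rw [ho, map_add, Finsupp.add_apply, Int.cast_add, Pi.add_apply]
  have h := (f0a_p_index φ ((Un F ⊔ Pw F l).subgroupOf (Vs F 0 C)) Set.univ (Set.toFinite _)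
    (fun x hx => by
      have h1 : ∀ i, ∃ j : ℤ, b.repr (o x) i = l * j := fun i =>
        (ZMod.intCast_zmod_eq_zero_iff_dvd _ _).1
          (congrFun (congrArg Multiplicative.toAdd (MonoidHom.mem_ker.1 hx)) i)
      choose j hj using h1
      have h2 : o x = (l : ℤ) • b.equivFun.symm j := b.equivFun.injective (by
        rw [map_smul, LinearEquiv.apply_symm_apply]
        funext i
        exact hj i)
      obtain ⟨y, hy, hy'⟩ := (b.equivFun.symm j).2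
      have hu : x.1 * (y ^ l)⁻¹ ∈ Un F := f0a_p_un F fun Q => by
        rw [f0a_p_ord_mul, f0a_p_ord_inv, f0a_p_ord_pow]
        by_cases hQ : (C : 𝓞 F) ∈ Q.asIdeal
        · have h3 : f0a_p_ord F Q x.1 = l * (b.equivFun.symm j).1 ⟨Q, hQ⟩ :=
            congrFun (congrArg Subtype.val h2) ⟨Q, hQ⟩
          rw [h3, hy']
          exact add_neg_cancel _
        · rw [(f0a_mem F).1 x.2 Q hQ, (f0a_mem F).1 hy Q hQ, mul_zero, neg_zero, add_zero]
      rw [Subgroup.mem_subgroupOf, ← inv_mul_cancel_right x.1 (y ^ l)]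
      exact Subgroup.mul_mem_sup hu ⟨_, rfl⟩) fun _ => trivial).2
  rw [Nat.card_univ, Nat.card_congr Multiplicative.toAdd, Nat.card_fun, Nat.card_zmod,
    Nat.card_eq_fintype_card, Fintype.card_fin] at h
  refine h.trans (Nat.pow_le_pow_right hl ((Submodule.finrank_le _).trans ?_))
  have := Fintype.ofFinite {Q : HeightOneSpectrum (𝓞 F) | (C : 𝓞 F) ∈ Q.asIdeal}
  rw [Module.finrank_fintype_fun_eq_card, ← Nat.card_eq_fintype_card, Nat.card_coe_set_eq]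
  exact le_rfl

theorem f0a_count {J : Ideal (𝓞 F)} (hJ : J ≠ 0) (Q : HeightOneSpectrum (𝓞 F))
    (h : ((Ideal.absNorm J : ℕ) : 𝓞 F) ∉ Q.asIdeal) :
    FractionalIdeal.count F Q (J : FractionalIdeal (𝓞 F)⁰ F) = 0 := by
  rw [FractionalIdeal.count_coe F Q hJ, Nat.cast_eq_zero]
  by_contra h0
  exact h (Ideal.le_of_dvd ((Associates.count_ne_zero_iff_dvd hJ Q.irreducible).1 h0)
    (Ideal.absNorm_mem J))

theorem selB (hC : C ≠ 0) : ∃ C' : ℕ, C' ≠ 0 ∧ C ∣ C' ∧ ∀ l, 0 < l →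
    (Un F ⊔ Pw F l).relIndex (Vs F l C') ≤ l ^ nP F C' := by
  classical
  choose J hJ using ClassGroup.mk0_surjective (R := 𝓞 F)
  have h0 : C * ∏ c, Ideal.absNorm (J c).1 ≠ 0 := mul_ne_zero hC (Finset.prod_ne_zero_iff.2
    fun c _ => Ideal.absNorm_eq_zero_iff.not.2 (nonZeroDivisors.ne_zero (J c).2))
  refine ⟨_, h0, dvd_mul_right _ _, fun l hl => ?_⟩
  have hd : ∀ c, Ideal.absNorm (J c).1 ∣ C * ∏ c, Ideal.absNorm (J c).1 := fun c =>
    (Finset.dvd_prod_of_mem (fun c => Ideal.absNorm (J c).1) (Finset.mem_univ c)).mul_left C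
  generalize C * ∏ c, Ideal.absNorm (J c).1 = D at h0 hd
  have e : Vs F l D = Vs F 0 D ⊔ (Un F ⊔ Pw F l) := by
    refine le_antisymm (fun x hx => ?_) (sup_le (fun x hx => (f0a_p_mem F).2 fun Q hQ => by
      rw [(f0a_mem F).1 hx Q hQ]; exact dvd_zero _) (sel_le F l D))
    obtain ⟨A, hA⟩ := f0a_p_exists F (fun Q => f0a_p_ord F Q x / l)
      ((FractionalIdeal.finite_factors (FractionalIdeal.spanSingleton (𝓞 F)⁰ (x : F))).mono
        fun Q hQ => by rw [f0a_p_ord, hQ, Int.zero_ediv])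
    have h1 : ClassGroup.mk F (A * (FractionalIdeal.mk0 F (J (ClassGroup.mk F A)))⁻¹) = 1 := by
      rw [map_mul, map_inv, ClassGroup.mk_mk0, hJ, mul_inv_cancel]
    obtain ⟨y, hy⟩ := (FractionalIdeal.isPrincipal_iff _).1 (ClassGroup.mk_eq_one_iff.1 h1)
    have hy0 : y ≠ 0 := by
      rintro rfl
      exact Units.ne_zero _ (hy.trans FractionalIdeal.spanSingleton_zero)
    have hu : x * (Units.mk0 y hy0 ^ l)⁻¹ ∈ Vs F 0 D := (f0a_mem F).2 fun Q hQ => by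
      have h2 : f0a_p_ord F Q (Units.mk0 y hy0) = f0a_p_ord F Q x / l := by
        rw [f0a_p_ord, Units.val_mk0, ← hy, Units.val_mul, FractionalIdeal.count_mul F Q
          (Units.ne_zero _) (Units.ne_zero _), hA, Units.val_inv_eq_inv_val,
          FractionalIdeal.count_inv, FractionalIdeal.coe_mk0,
          f0a_count F (nonZeroDivisors.ne_zero (J _).2) Q fun h => hQ ?_, neg_zero, add_zero]
        obtain ⟨k, hk⟩ := hd (ClassGroup.mk F A)
        rw [hk, Nat.cast_mul]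
        exact Ideal.mul_mem_right _ _ h
      rw [f0a_p_ord_mul, f0a_p_ord_inv, f0a_p_ord_pow, h2,
        Int.mul_ediv_cancel' ((f0a_p_mem F).1 hx Q hQ), add_neg_cancel]
    rw [← inv_mul_cancel_right x (Units.mk0 y hy0 ^ l)]
    exact Subgroup.mul_mem_sup hu (Subgroup.mem_sup_right ⟨_, rfl⟩)
  rw [e, Subgroup.relIndex_sup_right]
  exact f0a_units F hl h0

end Pool.Agent.P.MP_20768c_nt.Tz.Cv

end

-- part Cv.J2
section

set_option autoImplicit false

open Complex NumberField IsDedekindDomain Filter Topology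
open UpperHalfPlane hiding I
open scoped ComplexConjugate Real MatrixGroups

namespace Pool.Agent.P.MP_20768c_nt.Tz.Cv

open Pool.Agent.P.MP_20768c_nt.Tz.EQ (Lt pr sp IsLat jL qN)

theorem j2_three : ‖(3 : ℂ_[3])‖ < 1 := by
  have h : (3 : ℂ_[3]) = algebraMap ℚ_[3] ℂ_[3] ((3 : ℕ) : ℚ_[3]) := by
    rw [map_natCast]; norm_num
  rw [h, norm_algebraMap', Padic.norm_p]
  norm_num

theorem j2_add {K : Type} [NormedField K] [IsUltrametricDist K] {s : ℝ} {x y : K} (hx : ‖x‖ < s)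
    (hy : ‖y‖ < s) : ‖x + y‖ < s :=
  (IsUltrametricDist.norm_add_le_max x y).trans_lt (max_lt hx hy)

theorem j2_mul {K : Type} [NormedField K] [IsUltrametricDist K] (h3 : ‖(3 : K)‖ < 1) {s : ℝ}
    (hs : 0 < s) (k : ℤ) {x : K} (hx : ‖x‖ ≤ s) : ‖3 * k * x‖ < s := by
  rw [mul_assoc, norm_mul, ← zsmul_eq_mul]
  calc ‖(3 : K)‖ * ‖k • x‖ ≤ ‖(3 : K)‖ * s :=
        mul_le_mul_of_nonneg_left ((IsUltrametricDist.norm_zsmul_le x k).trans hx) (norm_nonneg _)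
    _ < 1 * s := mul_lt_mul_of_pos_right h3 hs
    _ = s := one_mul s

theorem j2_sq {c : ℤ} (hc : c % 9 = 4) : c ^ 2 ≡ 1 + 3 ^ 1 * 2 [ZMOD 3 ^ (1 + 1)] := by
  obtain ⟨k, rfl⟩ : ∃ k : ℤ, c = 9 * k + 4 := ⟨c / 9, by omega⟩
  exact (Int.modEq_iff_dvd.2 ⟨9 * k ^ 2 + 8 * k + 1, by ring⟩).symm

theorem j2_cop {a b : ℤ} (ha : ¬ (3 : ℤ) ∣ a) (hb : ¬ (3 : ℤ) ∣ b) : ¬ (3 : ℤ) ∣ a * b :=
  fun h => (Int.prime_three.dvd_or_dvd h).elim ha hb

theorem j2_pow {a : ℤ} (ha : ¬ (3 : ℤ) ∣ a) (i : ℕ) : ¬ (3 : ℤ) ∣ a ^ i :=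
  fun h => ha (Int.prime_three.dvd_of_dvd_pow h)

theorem j2_gen {c a b : ℤ} (hc : c % 9 = 4) (hb : ¬ (3 : ℤ) ∣ b) (h : (3 : ℤ) ∣ a - b) (j : ℕ) :
    ∃ (i : ℕ) (t : ℤ), a = b * (c ^ 2) ^ i + t * 3 ^ (j + 1) := by
  obtain ⟨x, y, e⟩ := ((Int.prime_three.coprime_iff_not_dvd.2 hb).pow_left (m := j + 1))
  obtain ⟨k, hk⟩ := h
  obtain ⟨i, -, hi⟩ := gen_pow (a := a * y) le_rfl (j2_sq hc) (by norm_num)
    (Int.modEq_iff_dvd.2 ⟨x * 3 ^ j - k * y, by linear_combination -e - y * hk⟩) j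
  obtain ⟨t, ht⟩ := hi.dvd
  exact ⟨i, a * x - b * t, by linear_combination -a * e - b * ht⟩

theorem j2_main {K : Type} [NormedField K] [IsUltrametricDist K] (h3 : ‖(3 : K)‖ < 1) (T : ℚ → K)
    (hp : ∀ (r : ℚ) (z : ℤ), T (r + z) = T r) {α : K} (hα : ‖α‖ = 1)
    (hH : ∀ r, α * T r = T (r / 3) + T ((r + 1) / 3) + T ((r + 2) / 3)) {c : ℤ} (hc : c % 9 = 4)
    (hB : ∀ (m : ℕ) (b : ℤ),
      ‖c ^ 2 * (3 * T ((b * c ^ 2 : ℤ) / 3 ^ (m + 2)) - α * T ((b * c ^ 2 : ℤ) / 3 ^ (m + 1))) -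
        c * (3 * T (b / 3 ^ (m + 2)) - α * T (b / 3 ^ (m + 1)))‖ ≤ 1) {s : ℝ} (hs : 1 < s)
    (hT : ∀ (n : ℕ) (a : ℤ), ¬ (3 : ℤ) ∣ a → ‖T (a / 3 ^ (n + 1))‖ ≤ s) (n : ℕ) (a : ℤ)
    (ha : ¬ (3 : ℤ) ∣ a) : ‖T (a / 3 ^ (n + 1))‖ < s := by
  have hs0 : 0 < s := one_pos.trans hs
  obtain ⟨k, hk⟩ : ∃ k : ℤ, c = 9 * k + 4 := ⟨c / 9, by omega⟩
  have hco : ¬ (3 : ℤ) ∣ c ^ 2 := j2_pow (by omega) 2
  have hal : ∀ x : K, ‖α * x‖ = ‖x‖ := fun x => by rw [norm_mul, hα, one_mul]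
  have hA : ∀ (m : ℕ) (b : ℤ), ¬ (3 : ℤ) ∣ b →
      ‖T ((b * c ^ 2 : ℤ) / 3 ^ (m + 1)) - T (b / 3 ^ (m + 1))‖ < s := by
    intro m b hb
    have hb' := j2_cop hb hco
    have h1 := (hB m b).trans_lt hs
    have a1 := j2_mul h3 hs0 (-c ^ 2) (hT (m + 1) _ hb')
    have a2 := j2_mul h3 hs0 ((3 * k + 1) * (c + 1)) ((hal _).trans_le (hT m _ hb'))
    have a3 := j2_mul h3 hs0 c (hT (m + 1) _ hb)
    have a4 := j2_mul h3 hs0 (-(3 * k + 1)) ((hal _).trans_le (hT m _ hb))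
    have h4 := j2_add (j2_add (j2_add (j2_add h1 a1) a2) a3) a4
    rw [← norm_neg, ← hal]
    refine lt_of_eq_of_lt (congrArg norm ?_) h4
    generalize T ((b * c ^ 2 : ℤ) / 3 ^ (m + 1 + 1)) = x1
    generalize T ((b * c ^ 2 : ℤ) / 3 ^ (m + 1)) = x2
    generalize T (b / 3 ^ (m + 1 + 1)) = y1
    generalize T (b / 3 ^ (m + 1)) = y2
    rw [hk]
    push_cast
    ring
  have hA' : ∀ (m i : ℕ) (b : ℤ), ¬ (3 : ℤ) ∣ b →
      ‖T ((b * (c ^ 2) ^ i : ℤ) / 3 ^ (m + 1)) - T (b / 3 ^ (m + 1))‖ < s := by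
    intro m i b hb
    induction i with
    | zero => rw [pow_zero, mul_one, sub_self, norm_zero]; exact hs0
    | succ i ih =>
      have h1 := j2_add (hA m _ (j2_cop hb (j2_pow hco i))) ih
      rwa [sub_add_sub_cancel, mul_assoc, ← pow_succ] at h1
  have hC : ∀ e : ℤ, ‖T (((a : ℚ) / 3 ^ (n + 1) + e) / 3) - T (a / 3 ^ (n + 1 + 1))‖ < s := by
    intro e
    obtain ⟨i, t, ht⟩ := j2_gen (a := a + e * 3 ^ (n + 1)) hc ha ⟨e * 3 ^ n, by ring⟩ (n + 1)
    have e1 : ((a : ℚ) / 3 ^ (n + 1) + e) / 3 =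
        ((a * (c ^ 2) ^ i : ℤ) : ℚ) / 3 ^ (n + 1 + 1) + t := by
      rw [← sub_eq_iff_eq_add.2 ht]
      push_cast
      field_simp
      ring
    rw [e1, hp]
    exact hA' (n + 1) i a ha
  have h5 := j2_add (j2_add (j2_add (hC 0) (hC 1)) (hC 2)) (j2_mul h3 hs0 1 (hT (n + 1) a ha))
  rw [← hal, hH]
  refine lt_of_eq_of_lt (congrArg norm ?_) h5
  push_cast
  rw [add_zero]
  ring

theorem int_abs (ι : ℂ →+* ℂ_[3]) (S : ℚ → ℂ) {Λ : Submodule ℤ ℂ} (hΛ : Λ.FG) (hS : ∀ r, S r ∈ Λ)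
    (hp : ∀ (r : ℚ) (z : ℤ), S (r + z) = S r) {α : ℂ} (hα : ‖ι α‖ = 1)
    (hH : ∀ r, α * S r = S (r / 3) + S ((r + 1) / 3) + S ((r + 2) / 3)) {c : ℕ} (hc : c % 9 = 4)
    (hB : ∀ (n : ℕ) (b b' : ℤ), 2 ≤ n → b' * c ^ 2 ≡ b [ZMOD 3 ^ n] →
      ‖ι (c ^ 2 * (3 * S (b / 3 ^ n) - α * S (b / 3 ^ (n - 1))) -
        c * (3 * S (b' / 3 ^ n) - α * S (b' / 3 ^ (n - 1))))‖ ≤ 1) (n : ℕ) {a : ℤ}
    (ha : ¬ (3 : ℤ) ∣ a) : ‖ι (S (a / 3 ^ (n + 1)))‖ ≤ 1 := by
  obtain ⟨_, ⟨m, b, hb, rfl⟩, hx⟩ := fg_max (hΛ.map ι.toAddMonoidHom.toIntLinearMap)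
    (T := {x | ∃ (n : ℕ) (a : ℤ), ¬ (3 : ℤ) ∣ a ∧ x = ι (S (a / 3 ^ (n + 1)))})
    (by rintro _ ⟨n, a, -, rfl⟩; exact ⟨_, hS _, rfl⟩) ⟨_, n, a, ha, rfl⟩
  refine (hx _ ⟨n, a, ha, rfl⟩).trans (le_of_not_gt fun hs => lt_irrefl _
    (j2_main j2_three (fun r => ι (S r)) (fun r z => by rw [hp]) hα
      (fun r => by rw [← map_mul, hH, map_add, map_add]) (c := c) (by omega) (fun j d => ?_) hs
      (fun n a ha => hx _ ⟨n, a, ha, rfl⟩) m b hb))
  have h := hB (j + 2) (d * c ^ 2) d (by omega) (Int.ModEq.refl _)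
  simpa only [map_sub, map_mul, map_pow, map_natCast, map_ofNat, Int.cast_natCast,
    show j + 2 - 1 = j + 1 from rfl] using h

end Pool.Agent.P.MP_20768c_nt.Tz.Cv

end

-- part Cv.J4
section

set_option autoImplicit false

open Complex NumberField IsDedekindDomain Filter Topology
open UpperHalfPlane hiding I
open scoped ComplexConjugate Real MatrixGroups

namespace Pool.Agent.P.MP_20768c_nt.Tz.Cv

open Pool.Agent.P.MP_20768c_nt.Tz.EQ (Lt pr sp IsLat jL qN)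

variable {κ G H : Type} [Field κ]

/-- a translation -/
def j4S [CommGroup H] (κ : Type) [Field κ] (h : H) : Module.End κ (H → κ) :=
  LinearMap.funLeft κ κ (· * h)

/-- one minus a translation -/
def j4T [CommGroup H] (κ : Type) [Field κ] (h : H) : Module.End κ (H → κ) := 1 - j4S κ h

theorem j4_app [CommGroup H] (h : H) (φ : H → κ) (b : H) : j4S κ h φ b = φ (b * h) := rfl

theorem j4_apply [CommGroup H] (h : H) (φ : H → κ) (b : H) : j4T κ h φ b = φ b - φ (b * h) := rfl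

theorem j4_pow [CommGroup H] (h3 : (3 : κ) = 0) (h : H) (i : ℕ) :
    j4T κ h ^ 3 ^ i = j4T κ (h ^ 3 ^ i) := by
  induction i with
  | zero => simp
  | succ i ih =>
    rw [pow_succ, pow_mul, pow_mul, ih, pow_three', pow_three']
    refine LinearMap.ext fun φ => funext fun b => ?_
    simp only [Module.End.mul_apply, j4_apply, mul_assoc]
    linear_combination (φ (b * (h ^ 3 ^ i * h ^ 3 ^ i)) - φ (b * h ^ 3 ^ i)) * h3

theorem j4_comm [CommGroup H] (g h : H) : j4T κ g * j4S κ h = j4S κ h * j4T κ g := by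
  refine LinearMap.ext fun φ => funext fun b => ?_
  simp only [Module.End.mul_apply, j4_apply, j4_app, mul_assoc, mul_comm g h]

theorem j4_mem [CommGroup H] (β : H → κ) (h : H) :
    ∀ y ∈ Submodule.span κ (Set.range fun (k : H) (g : H) => β (g * k)),
      j4S κ h y ∈ Submodule.span κ (Set.range fun (k : H) (g : H) => β (g * k)) :=
  fun y hy => abj6_span β y hy h

theorem j4_up (μ : ℕ → ℤ → κ) {α : κ} (hα : α ≠ 0)
    (hp : ∀ (n : ℕ) (a b : ℤ), a ≡ b [ZMOD 3 ^ n] → μ n a = μ n b)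
    (hd : ∀ (n : ℕ) (a : ℤ), 1 ≤ n → ¬ (3 : ℤ) ∣ a →
      α * μ n a = μ (n + 1) a + μ (n + 1) (a + 3 ^ n) + μ (n + 1) (a + 2 * 3 ^ n)) (e : κ)
    {n : ℕ} (hn : 1 ≤ n) (h0 : ∃ a : ℤ, ¬ (3 : ℤ) ∣ a ∧ μ n a + e * μ n (-a) ≠ 0) {m : ℕ}
    (hm : n ≤ m) : ∃ a : ℤ, ¬ (3 : ℤ) ∣ a ∧ μ m a + e * μ m (-a) ≠ 0 := by
  induction m, hm using Nat.le_induction with
  | base => exact h0
  | succ m hm ih =>
    obtain ⟨a, ha, h1⟩ := ih
    have h3 : (3 : ℤ) ∣ 3 ^ m := dvd_pow_self 3 (by omega)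
    by_contra h
    push Not at h
    have e0 := h _ ha
    have e1 := h (a + 3 ^ m) (by omega)
    have e2 := h (a + 2 * 3 ^ m) (by omega)
    rw [hp _ (-(a + 3 ^ m)) (-a + 2 * 3 ^ m) (Int.modEq_iff_dvd.2 ⟨1, by ring⟩)] at e1
    rw [hp _ (-(a + 2 * 3 ^ m)) (-a + 3 ^ m) (Int.modEq_iff_dvd.2 ⟨1, by ring⟩)] at e2
    refine mul_ne_zero hα h1 ?_
    linear_combination e0 + e1 + e2 + hd m a (by omega) ha + e * hd m (-a) (by omega) (by omega)

theorem tk_meas (h3 : (3 : κ) = 0) (μ : ℕ → ℤ → κ) {α : κ} (hα : α ≠ 0)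
    (hp : ∀ (n : ℕ) (a b : ℤ), a ≡ b [ZMOD 3 ^ n] → μ n a = μ n b)
    (hd : ∀ (n : ℕ) (a : ℤ), 1 ≤ n → ¬ (3 : ℤ) ∣ a →
      α * μ n a = μ (n + 1) a + μ (n + 1) (a + 3 ^ n) + μ (n + 1) (a + 2 * 3 ^ n))
    (h1 : ∃ (n : ℕ) (a : ℤ), 1 ≤ n ∧ ¬ (3 : ℤ) ∣ a ∧ μ n a + μ n (-a) ≠ 0)
    (h2 : ∃ (n : ℕ) (a : ℤ), 1 ≤ n ∧ ¬ (3 : ℤ) ∣ a ∧ μ n a - μ n (-a) ≠ 0) {c : ℕ}
    (hc : c % 9 = 4) : ∃ l : ℕ, ∀ n, 2 ≤ n → ∀ β : (ZMod (3 ^ n))ˣ → κ,
      (∀ (b : (ZMod (3 ^ n))ˣ) (a a' : ℤ), (a : ZMod (3 ^ n)) = b →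
        a' * c ^ 2 ≡ a [ZMOD 3 ^ n] → β b = (μ n a - μ n (a * (3 ^ (n - 1) + 1))) -
          (μ n a' - μ n (a' * (3 ^ (n - 1) + 1)))) →
      4 * 3 ^ (n - 2) ≤ l + tk β := by
  obtain ⟨n₁, a₁, hn₁, o₁, h₁⟩ := h1
  obtain ⟨n₂, a₂, hn₂, o₂, h₂⟩ := h2
  obtain ⟨r, r₁, r₂⟩ : ∃ r, n₁ ≤ r + 1 ∧ n₂ ≤ r + 1 := ⟨n₁ + n₂, by omega, by omega⟩
  obtain ⟨a₃, o₃, h₃⟩ := j4_up μ hα hp hd 1 hn₁ ⟨a₁, o₁, by rwa [one_mul]⟩ r₁
  obtain ⟨a₄, o₄, h₄⟩ := j4_up μ hα hp hd (-1) hn₂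
    ⟨a₂, o₂, by rwa [neg_one_mul, ← sub_eq_add_neg]⟩ r₂
  rw [one_mul] at h₃
  rw [neg_one_mul, ← sub_eq_add_neg] at h₄
  refine ⟨2 * 3 ^ r, fun n hn β hβ => ?_⟩
  obtain ⟨n, rfl⟩ := Nat.exists_eq_add_of_le' hn
  rw [show n + 2 - 2 = n from rfl]
  rcases lt_or_ge n r with hr | hr
  · have := Nat.pow_le_pow_right (show 0 < 3 by norm_num) (show n + 1 ≤ r by omega)
    rw [pow_succ] at this
    omega
  obtain ⟨C, hC⟩ : ∃ C : ℤ, C = c ^ 2 := ⟨_, rfl⟩
  rw [← hC, show n + 2 - 1 = n + 1 from rfl] at hβ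
  have hC1 : C ≡ 1 + 3 ^ 1 * 2 [ZMOD 3 ^ (1 + 1)] := by
    obtain ⟨k, hk⟩ : ∃ k : ℤ, c = 9 * k + 4 := ⟨c / 9, by omega⟩
    rw [hC, hk]
    exact (Int.modEq_iff_dvd.2 ⟨9 * k ^ 2 + 8 * k + 1, by ring⟩).symm
  have hu : ∀ a : ℤ, ¬ (3 : ℤ) ∣ a → ∃ b : (ZMod (3 ^ (n + 2)))ˣ, (a : ZMod (3 ^ (n + 2))) = b :=
    fun a h => ((unit_cop (by omega)).2 h).imp fun _ e => e.symm
  obtain ⟨u, hcu⟩ := hu C (by unfold Int.ModEq at hC1; omega)
  have hl : ∀ b : (ZMod (3 ^ (n + 2)))ˣ, ∃ a : ℤ, ¬ (3 : ℤ) ∣ a ∧ (a : ZMod (3 ^ (n + 2))) = b :=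
    fun b => by
      obtain ⟨a, e⟩ := ZMod.intCast_surjective (b : ZMod (3 ^ (n + 2)))
      exact ⟨a, (unit_cop (by omega)).1 (e ▸ b.isUnit), e⟩
  choose A oA hA using hl
  have hm : ∀ j, j ≤ n + 2 → ∀ (b : (ZMod (3 ^ (n + 2)))ˣ) (a : ℤ),
      (a : ZMod (3 ^ (n + 2))) = b → μ j (A b) = μ j a := fun j hj b a e => by
    have := (ZMod.intCast_eq_intCast_iff _ _ _).1 ((hA b).trans e.symm)
    exact hp _ _ _ (this.of_dvd (by exact_mod_cast pow_dvd_pow 3 hj))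
  have hs : ∀ i : ℕ, ∃ k : ℤ, C ^ 3 ^ i = 1 + 3 ^ (i + 1) * (2 + 3 * k) := fun i => by
    obtain ⟨k, hk⟩ := (cube_step le_rfl hC1 i).symm.dvd
    exact ⟨k, by linear_combination hk⟩
  have hU : ∀ (i : ℕ) (b : (ZMod (3 ^ (n + 2)))ˣ) (a : ℤ), (a : ZMod (3 ^ (n + 2))) = b →
      ((a * C ^ i : ℤ) : ZMod (3 ^ (n + 2))) = (b * u ^ i : (ZMod (3 ^ (n + 2)))ˣ) :=
    fun i b a e => by rw [Int.cast_mul, Int.cast_pow, e, hcu]; simp
  have k1 : ∀ i, i ≤ n → (j4T κ u ^ (2 * 3 ^ i)) (fun b => μ (i + 2) (A b)) =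
      α • fun b => μ (i + 1) (A b) := fun i hi => funext fun b => by
    rw [two_mul, pow_add (j4T κ u), j4_pow h3, Pi.smul_apply, smul_eq_mul, hd _ _ (by omega) (oA b)]
    simp only [Module.End.mul_apply, j4_apply]
    rw [hm _ (by omega) _ _ (hU _ _ _ (hU (3 ^ i) b _ (hA b))),
      hm _ (by omega) _ _ (hU (3 ^ i) b _ (hA b))]
    obtain ⟨k, hk⟩ := hs i
    rw [hk]
    obtain ⟨z, hz | hz⟩ : ∃ z, A b = 3 * z + 1 ∨ A b = 3 * z + 2 :=
      ⟨A b / 3, by have := oA b; omega⟩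
    · rw [hp (i + 2) (A b * _ * _) (A b + 3 ^ (i + 1)) (Int.modEq_iff_dvd.2
        ⟨-(1 + 2 * k + 2 * z * (2 + 3 * k) + A b * 3 ^ i * (2 + 3 * k) ^ 2), by rw [hz]; ring⟩),
        hp (i + 2) (A b * _) (A b + 2 * 3 ^ (i + 1)) (Int.modEq_iff_dvd.2
        ⟨-(k + z * (2 + 3 * k)), by rw [hz]; ring⟩)]
      linear_combination (-μ (i + 2) (A b + 2 * 3 ^ (i + 1))) * h3
    · rw [hp (i + 2) (A b * _ * _) (A b + 2 * 3 ^ (i + 1)) (Int.modEq_iff_dvd.2
        ⟨-(2 + 4 * k + 2 * z * (2 + 3 * k) + A b * 3 ^ i * (2 + 3 * k) ^ 2), by rw [hz]; ring⟩),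
        hp (i + 2) (A b * _) (A b + 3 ^ (i + 1)) (Int.modEq_iff_dvd.2
        ⟨-(1 + 2 * k + z * (2 + 3 * k)), by rw [hz]; ring⟩)]
      linear_combination (-μ (i + 2) (A b + 3 ^ (i + 1))) * h3
  have k2 : j4T κ u ^ 3 ^ (n + 1) = 0 := by
    have : u ^ 3 ^ (n + 1) = 1 := by
      obtain ⟨k, hk⟩ := hs (n + 1)
      refine Units.ext ?_
      rw [Units.val_pow_eq_pow_val, ← hcu, ← Int.cast_pow, hk, Units.val_one]
      push_cast
      rw [show (3 : ZMod (3 ^ (n + 2))) ^ (n + 1 + 1) = 0 by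
        exact_mod_cast ZMod.natCast_self (3 ^ (n + 2)), zero_mul, add_zero]
    rw [j4_pow h3, this]
    exact LinearMap.ext fun φ => funext fun b => by rw [j4_apply, mul_one, sub_self]; rfl
  have k3 : ∀ d, r + d ≤ n + 1 → ∃ e, e + 3 ^ r = 3 ^ (r + d) ∧
      (j4T κ u ^ e) (fun b => μ (r + d + 1) (A b)) = α ^ d • fun b => μ (r + 1) (A b) := by
    intro d hd
    induction d with
    | zero => exact ⟨0, by simp, by simp⟩
    | succ d ih =>
      obtain ⟨e, e1, e2⟩ := ih (by omega)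
      refine ⟨e + 2 * 3 ^ (r + d), by rw [← add_assoc, pow_succ]; omega, ?_⟩
      rw [pow_add (j4T κ u), Module.End.mul_apply, show r + (d + 1) + 1 = r + d + 2 from rfl,
        k1 _ (by omega), map_smul, e2, smul_smul, pow_succ' α]
  obtain ⟨d, hd'⟩ : ∃ d, r + d = n + 1 := ⟨n + 1 - r, by omega⟩
  obtain ⟨e, e1, e2⟩ := k3 d hd'.le
  rw [hd'] at e1 e2
  have hrn := Nat.pow_le_pow_right (show 0 < 3 by norm_num) hr
  have hpos : 0 < 3 ^ n := by positivity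
  rw [pow_succ] at e1
  obtain ⟨j, rfl⟩ : ∃ j, e = j + (1 + 3 ^ n) := ⟨e - (1 + 3 ^ n), by omega⟩
  have hx : (fun g => β (g * (u ^ 3 ^ n * u ^ 1))) =
      (j4T κ u ^ (1 + 3 ^ n)) fun b => μ (n + 2) (A b) := funext fun b => by
    have q1 := hU (3 ^ n) b _ (hA b)
    have q2 := hU 1 _ _ q1
    have q3 := hU 1 b _ (hA b)
    have q4 : ∀ x : ℤ, μ (n + 2) (A b * C ^ 3 ^ n * x * (3 ^ (n + 1) + 1)) = μ (n + 2) (A b * x) :=
      fun x => by
        obtain ⟨k, hk⟩ := hs n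
        exact hp _ _ _ (Int.modEq_iff_dvd.2
          ⟨-(A b * x * (1 + k + 3 ^ n * (2 + 3 * k))), by rw [hk]; ring⟩)
    have q5 := q4 1
    rw [mul_one, mul_one] at q5
    rw [pow_add (j4T κ u), j4_pow h3, pow_one (j4T κ u), ← mul_assoc,
      hβ _ _ (A b * C ^ 3 ^ n) q2 (by rw [pow_one]), q4, q5]
    rw [pow_one u] at q2 q3
    simp only [Module.End.mul_apply, j4_apply]
    rw [mul_right_comm b u, hm _ le_rfl _ _ q1, hm _ le_rfl _ _ q2, hm _ le_rfl _ _ q3]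
    ring
  have hne : ∀ (s : κ) (a : ℤ), ¬ (3 : ℤ) ∣ a → μ (r + 1) a + s * μ (r + 1) (-a) ≠ 0 →
      (j4T κ u ^ j) (fun g => β (g * (u ^ 3 ^ n * u ^ 1))) +
        s • j4S κ (-1) ((j4T κ u ^ j) fun g => β (g * (u ^ 3 ^ n * u ^ 1))) ≠ 0 := by
    intro s a ha h0 h
    obtain ⟨b, hb⟩ := hu a ha
    rw [hx, ← Module.End.mul_apply (j4T κ u ^ j), ← pow_add, e2] at h
    have := congrFun h b
    simp only [Pi.add_apply, Pi.smul_apply, j4_app, smul_eq_mul, Pi.zero_apply] at this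
    rw [hm _ (by omega) b a hb, hm _ (by omega) (b * -1) (-a) (by simp [hb])] at this
    exact mul_ne_zero (pow_ne_zero d hα) h0 (by linear_combination this)
  have := indep_two (fun h => one_ne_zero (α := κ) (by linear_combination h3 - h))
    (j4T κ u) (j4S κ (-1)) (j4_comm _ _)
    (LinearMap.ext fun φ => funext fun b => by
      rw [Module.End.mul_apply, j4_app, j4_app, mul_assoc, neg_mul_neg, mul_one, mul_one]; rfl)
    (x := fun g => β (g * (u ^ 3 ^ n * u ^ 1))) (N := 3 ^ (n + 1)) (j := j) (by rw [k2]; rfl)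
    (by simpa only [one_smul] using hne 1 a₃ o₃ (by rwa [one_mul]))
    (by simpa only [neg_one_smul, ← sub_eq_add_neg] using
      hne (-1) a₄ o₄ (by rwa [neg_one_mul, ← sub_eq_add_neg]))
    (Submodule.span κ (Set.range fun k g => β (g * k))) (Submodule.subset_span ⟨_, rfl⟩)
    (fun y hy => sub_mem hy (j4_mem β _ y hy)) (j4_mem β _)
  unfold tk
  omega

end Pool.Agent.P.MP_20768c_nt.Tz.Cv

end

-- part Cv.M6
section

set_option autoImplicit false

open Complex NumberField IsDedekindDomain Filter Topology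
open UpperHalfPlane hiding I
open scoped ComplexConjugate Real MatrixGroups

namespace Pool.Agent.P.MP_20768c_nt.Tz.Cv

open Pool.Agent.P.MP_20768c_nt.Tz.EQ (Lt pr sp IsLat jL qN)

variable {K : Type} [Field K] [NumberField K] {F : IntermediateField K (AlgebraicClosure K)}

theorem m6_mono {L : Type} [Field L] {y : L} {a b : ℕ} (h : a ≤ b) (hy : y ^ 3 ^ a = 1) :
    y ^ 3 ^ b = 1 := by
  obtain ⟨c, rfl⟩ := Nat.exists_eq_add_of_le h
  rw [pow_add, pow_mul, hy, one_pow]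

omit [NumberField K] in
theorem m6_level {x : AlgebraicClosure K}
    (hx : x ∈ IntermediateField.adjoin K {x : AlgebraicClosure K | ∃ n : ℕ, x ^ 3 ^ n = 1}) :
    ∃ m : ℕ, ∀ σ : Gal K, (∀ y : AlgebraicClosure K, y ^ 3 ^ m = 1 → σ y = y) → σ x = x := by
  induction hx using IntermediateField.adjoin_induction with
  | mem x hx =>
    obtain ⟨n, hn⟩ := hx
    exact ⟨n, fun σ h => h x hn⟩
  | algebraMap x => exact ⟨0, fun σ _ => σ.commutes x⟩
  | add x y _ _ h1 h2 =>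
    obtain ⟨a, ha⟩ := h1
    obtain ⟨b, hb⟩ := h2
    refine ⟨max a b, fun σ h => ?_⟩
    rw [map_add, ha σ fun y hy => h y (m6_mono (le_max_left _ _) hy),
      hb σ fun y hy => h y (m6_mono (le_max_right _ _) hy)]
  | inv x _ h1 =>
    obtain ⟨a, ha⟩ := h1
    exact ⟨a, fun σ h => by rw [map_inv₀, ha σ h]⟩
  | mul x y _ _ h1 h2 =>
    obtain ⟨a, ha⟩ := h1
    obtain ⟨b, hb⟩ := h2
    refine ⟨max a b, fun σ h => ?_⟩
    rw [map_mul, ha σ fun y hy => h y (m6_mono (le_max_left _ _) hy),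
      hb σ fun y hy => h y (m6_mono (le_max_right _ _) hy)]

omit [NumberField K] in
theorem m6_iter {σ : Gal K} {ζ : AlgebraicClosure K} {u : ℕ} (h : σ ζ = ζ ^ u) (i : ℕ) :
    (σ ^ i) ζ = ζ ^ u ^ i := by
  induction i with
  | zero => simp
  | succ i ih => rw [pow_succ' σ, AlgEquiv.mul_apply, ih, map_pow, h, ← pow_mul, ← pow_succ']

theorem m6_key {g : Gal K} {e : ℕ} (he : 1 ≤ e)
    (h1 : ∀ y : AlgebraicClosure K, y ^ 3 ^ e = 1 → g y = y)
    (h2 : ¬ ∀ y : AlgebraicClosure K, y ^ 3 ^ (e + 1) = 1 → g y = y) (h : Gal K) (j : ℕ) :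
    ∃ i : ℕ, ∀ y : AlgebraicClosure K, y ^ 3 ^ (e + (j + 1)) = 1 →
      (h ^ (3 ^ e).totient) y = (g ^ i) y := by
  obtain ⟨ζ, hζ⟩ := HasEnoughRootsOfUnity.exists_primitiveRoot (AlgebraicClosure K)
    (3 ^ (e + (j + 1)))
  have hfin : IsOfFinOrder ζ := hζ.isOfFinOrder (by positivity)
  have hmod : ∀ a b : ℕ, ζ ^ a = ζ ^ b ↔ a ≡ b [MOD 3 ^ (e + (j + 1))] := fun a b => by
    rw [hfin.pow_eq_pow_iff_modEq, ← hζ.eq_orderOf]
  obtain ⟨u, -, hu⟩ := hζ.eq_pow_of_pow_eq_one (ξ := g ζ) (by rw [← map_pow, hζ.pow_eq_one, map_one])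
  obtain ⟨b, -, hb⟩ := hζ.eq_pow_of_pow_eq_one (ξ := h ζ) (by rw [← map_pow, hζ.pow_eq_one, map_one])
  have hb2 : b.Coprime (3 ^ (e + (j + 1))) := by
    rw [← hζ.pow_iff_coprime (by positivity), hb]
    exact hζ.map_of_injective h.injective
  have hb3 : b.Coprime (3 ^ e) := hb2.coprime_dvd_right (pow_dvd_pow 3 (Nat.le_add_right _ _))
  have ha : b ^ (3 ^ e).totient ≡ 1 [MOD 3 ^ e] := Nat.ModEq.pow_totient hb3
  have u1 : u ≡ 1 [MOD 3 ^ e] := by
    have e1 := h1 (ζ ^ 3 ^ (j + 1)) (by rw [← pow_mul, ← pow_add, add_comm, hζ.pow_eq_one])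
    rw [map_pow, ← hu, ← pow_mul, hmod, pow_add] at e1
    refine Nat.ModEq.mul_right_cancel' (c := 3 ^ (j + 1)) (by positivity) ?_
    rwa [one_mul]
  have u2 : ¬ u ≡ 1 [MOD 3 ^ (e + 1)] := by
    intro hh
    apply h2
    intro y hy
    have p1 : IsPrimitiveRoot (ζ ^ 3 ^ j) (3 ^ (e + 1)) :=
      hζ.pow (by positivity) (by rw [← pow_add]; congr 1; omega)
    obtain ⟨i, -, rfl⟩ := p1.eq_pow_of_pow_eq_one hy
    have e1 : g (ζ ^ 3 ^ j) = ζ ^ 3 ^ j := by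
      rw [map_pow, ← hu, ← pow_mul, hmod]
      have e2 := hh.mul_right' (3 ^ j)
      rwa [one_mul, ← pow_add, show e + 1 + j = e + (j + 1) by omega] at e2
    rw [map_pow, e1]
  obtain ⟨o, ho, u3⟩ : ∃ o : ℤ, ¬ (3 : ℤ) ∣ o ∧ (u : ℤ) ≡ 1 + 3 ^ e * o [ZMOD 3 ^ (e + 1)] := by
    have a1 : (3 : ℤ) ^ e ∣ u - 1 := by exact_mod_cast u1.symm.dvd
    obtain ⟨c, hc⟩ := a1
    refine ⟨c, ?_, by rw [← hc, add_sub_cancel]⟩
    rintro ⟨d, rfl⟩
    refine u2 ((Nat.modEq_iff_dvd).2 ⟨d, ?_⟩).symm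
    push_cast
    rw [hc]
    ring
  have ha' : ((b ^ (3 ^ e).totient : ℕ) : ℤ) ≡ 1 [ZMOD 3 ^ e] := by
    exact_mod_cast Int.natCast_modEq_iff.2 ha
  obtain ⟨i, -, hi⟩ := gen_pow he u3 ho ha' (j + 1)
  refine ⟨i, fun y hy => ?_⟩
  obtain ⟨r, -, rfl⟩ := hζ.eq_pow_of_pow_eq_one hy
  rw [map_pow, map_pow, m6_iter hu.symm, m6_iter hb.symm, (hmod _ (u ^ i)).2]
  exact Int.natCast_modEq_iff.1 (by exact_mod_cast hi)

theorem cyc_fix (hF : IsCyc F) {g : Gal K} (hg : g ∈ F.fixingSubgroup)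
    (h4 : ∀ x : AlgebraicClosure K, x ^ 3 = 1 → g x = x) (x : AlgebraicClosure K) (n : ℕ)
    (hx : x ^ 3 ^ n = 1) : g x = x := by
  classical
  by_contra hne
  have hex : ∃ m : ℕ, ¬ ∀ y : AlgebraicClosure K, y ^ 3 ^ (m + 1) = 1 → g y = y :=
    ⟨n, fun h => hne (h x (m6_mono (Nat.le_add_right _ _) hx))⟩
  have h0 : Nat.find hex ≠ 0 := fun h => by
    have := Nat.find_spec hex
    rw [h] at this
    exact this h4
  obtain ⟨d, hd⟩ := Nat.exists_eq_succ_of_ne_zero h0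
  have h1 : ∀ y : AlgebraicClosure K, y ^ 3 ^ (d + 1) = 1 → g y = y :=
    not_not.1 (Nat.find_min hex (m := d) (by omega))
  have h2 : ¬ ∀ y : AlgebraicClosure K, y ^ 3 ^ (d + 1 + 1) = 1 → g y = y := by
    have := Nat.find_spec hex
    rwa [hd] at this
  obtain ⟨hle, hgal, ⟨φ⟩⟩ := hF
  have key : ∀ h : Gal K, ∀ z ∈ F, (h ^ (3 ^ (d + 1)).totient) z = z := by
    intro h z hz
    obtain ⟨m, hm⟩ := m6_level (hle hz)
    obtain ⟨i, hi⟩ := m6_key (by omega) h1 h2 h m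
    have e1 := hm ((g ^ i)⁻¹ * h ^ (3 ^ (d + 1)).totient) fun y hy => by
      rw [AlgEquiv.mul_apply, hi y (m6_mono (by omega) hy), ← AlgEquiv.mul_apply, inv_mul_cancel,
        AlgEquiv.one_apply]
    have e2 : (g ^ i) z = z := (pow_mem hg i) ⟨z, hz⟩
    rw [AlgEquiv.mul_apply, AlgEquiv.aut_inv, AlgEquiv.symm_apply_eq, e2] at e1
    exact e1
  obtain ⟨h, hh⟩ := AlgEquiv.restrictNormalHom_surjective (F := K) (K₁ := F) (AlgebraicClosure K)
    (φ.symm (Multiplicative.ofAdd 1))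
  have e1 : (φ.symm (Multiplicative.ofAdd 1)) ^ (3 ^ (d + 1)).totient = 1 := by
    rw [← hh, ← map_pow]
    ext z
    rw [AlgEquiv.restrictNormalHom_apply, key h z z.2, AlgEquiv.one_apply]
  have e2 := congrArg φ e1
  rw [map_pow, φ.apply_symm_apply, map_one φ, ← ofAdd_nsmul, ofAdd_eq_one, nsmul_one,
    Nat.cast_eq_zero] at e2
  exact (Nat.totient_pos.2 (by positivity)).ne' e2

theorem hs_index (hF : IsCyc F) (N : Set (AlgebraicClosure K)) (T : Finset (AlgebraicClosure K))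
    (hT : ∀ g : Gal K, (∀ x ∈ T, g x = x) → ∀ x ∈ N, g x = x) :
    Hs N ≤ F.fixingSubgroup ∧ (Hs N).relIndex F.fixingSubgroup ≠ 0 := by
  classical
  constructor
  · intro g hg z
    obtain ⟨m, hm⟩ := m6_level (hF.1 z.2)
    exact hm g fun y hy => hg.2 y m hy
  · let S : Finset (AlgebraicClosure K) := T ∪ Polynomial.nthRootsFinset 3 1
    let L := IntermediateField.adjoin K (S : Set (AlgebraicClosure K))
    have hfd : FiniteDimensional K L :=
      IntermediateField.finiteDimensional_adjoin fun x _ => Algebra.IsIntegral.isIntegral x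
    have hi : L.fixingSubgroup.FiniteIndex := ⟨by
      rw [← IntermediateField.finrank_eq_fixingSubgroup_index]
      exact Module.finrank_pos.ne'⟩
    have hle : L.fixingSubgroup.subgroupOf F.fixingSubgroup ≤
        (Hs N).subgroupOf F.fixingSubgroup := by
      intro g hg
      have e1 : ∀ x ∈ S, g.1 x = x := fun x hx =>
        hg ⟨x, IntermediateField.subset_adjoin _ _ hx⟩
      exact ⟨hT g.1 fun x hx => e1 x (Finset.mem_union_left _ hx),
        cyc_fix hF g.2 fun x hx => e1 x (Finset.mem_union_right _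
          ((Polynomial.mem_nthRootsFinset (by norm_num) 1).2 hx))⟩
    exact (Subgroup.finiteIndex_of_le hle).index_ne_zero

end Pool.Agent.P.MP_20768c_nt.Tz.Cv

end

-- part Cv.N0t
section

set_option autoImplicit false

open Complex NumberField IsDedekindDomain Filter Topology
open UpperHalfPlane hiding I
open scoped ComplexConjugate Real MatrixGroups

namespace Pool.Agent.P.MP_20768c_nt.Tz.Cv

open Pool.Agent.P.MP_20768c_nt.Tz.EQ (Lt pr sp IsLat jL qN)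

variable {Γ : Type} [LinearOrderedCommGroupWithZero Γ] {v : Valuation ℂ Γ} {n : ℕ}

theorem tau_inv (hn : 2 ≤ n) : (((tau n)⁻¹ : (ZMod (3 ^ n))ˣ) : ZMod (3 ^ n)) = 1 - 3 ^ (n - 1) := by
  refine Units.inv_eq_of_mul_eq_one_right ?_
  rw [tau_val hn]
  obtain ⟨j, rfl⟩ := Nat.exists_eq_add_of_le hn
  have h0 : (3 : ZMod (3 ^ (2 + j))) ^ (2 + j) = 0 := by
    exact_mod_cast ZMod.natCast_self (3 ^ (2 + j))
  rw [show 2 + j - 1 = j + 1 by omega]
  linear_combination -(3 ^ j) * h0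

theorem zt_tau_inv (hn : 2 ≤ n) :
    zt n ^ (((tau n)⁻¹ : (ZMod (3 ^ n))ˣ) : ZMod (3 ^ n)).val = zt 1 ^ 2 * zt n := by
  have h0 : (3 : ZMod (3 ^ n)) * 3 ^ (n - 1) = 0 := by
    rw [← pow_succ', Nat.sub_add_cancel (by omega)]
    exact_mod_cast ZMod.natCast_self (3 ^ n)
  rw [zt_val (a := ((3 ^ (n - 1) * 2 + 1 : ℕ) : ℤ)) (by
    rw [tau_inv hn]
    push_cast
    linear_combination h0), zpow_natCast, pow_succ, pow_mul, zt_third (by omega)]

theorem sum_zt_diff (hn : 2 ≤ n) {a a' : ℤ} (h : (3 : ℤ) ^ (n - 1) ∣ a - a') : ∃ e : ℤ,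
    ∑ b : (ZMod (3 ^ n))ˣ, (zt n ^ (b : ZMod (3 ^ n)).val) ^ a -
      ∑ b : (ZMod (3 ^ n))ˣ, (zt n ^ (b : ZMod (3 ^ n)).val) ^ a' = 3 ^ n * e := by
  obtain ⟨e, h1, h2, h3⟩ := sum_zt (n := n) (by omega) a
  obtain ⟨e', k1, k2, k3⟩ := sum_zt (n := n) (by omega) a'
  have hd : (3 : ℤ) ∣ e - e' := by
    by_cases c : (3 : ℤ) ^ (n - 1) ∣ a
    · have c' : (3 : ℤ) ^ (n - 1) ∣ a' := by simpa using c.sub h
      simpa using (h2 c).sub (k2 c')
    · rw [h3 c, k3 fun c' => c (by simpa using h.add c')]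
      simp
  obtain ⟨d, hd⟩ := hd
  refine ⟨d, ?_⟩
  have e3 : (3 : ℂ) ^ n = 3 ^ (n - 1) * 3 := by rw [← pow_succ, Nat.sub_add_cancel (by omega)]
  have e4 : (e : ℂ) - e' = 3 * d := by exact_mod_cast hd
  rw [h1, k1, e3]
  linear_combination 3 ^ (n - 1) * e4

theorem sum_zt_tau (hn : 2 ≤ n) (a : ℤ) :
    ∑ b : (ZMod (3 ^ n))ˣ, (zt n ^ (b : ZMod (3 ^ n)).val) ^ (a * (3 ^ (n - 1) + 1)) =
      ∑ b : (ZMod (3 ^ n))ˣ, (zt n ^ (b : ZMod (3 ^ n)).val) ^ a := by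
  rw [← Equiv.sum_comp (Equiv.mulRight (tau n))
    fun b : (ZMod (3 ^ n))ˣ => (zt n ^ (b : ZMod (3 ^ n)).val) ^ a]
  refine Finset.sum_congr rfl fun b _ => ?_
  rw [← zpow_natCast, ← zpow_natCast, ← zpow_mul, ← zpow_mul, zt_congr]
  push_cast
  rw [ZMod.natCast_zmod_val, ZMod.natCast_zmod_val, Equiv.coe_mulRight, Units.val_mul, tau_val hn]
  ring

theorem v_two (h3 : v 3 < 1) :
    v 2 = 1 := by
  rw [show (2 : ℂ) = -(1 - 3) by norm_num, v.map_neg]
  exact v.map_one_sub_of_lt h3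

theorem cube_small  (h3 : v 3 < 1) {x y : ℂ} (hy : v y ≤ 1) (h : v (x ^ 3 - y ^ 3) < 1) : v (x - y) < 1 := by
  have hx : v x ≤ 1 := by
    refine (pow_le_one_iff (n := 3) three_ne_zero).1 ?_
    rw [← map_pow, show x ^ 3 = (x ^ 3 - y ^ 3) + y ^ 3 by ring]
    exact v.map_add_le h.le (by rw [map_pow]; exact pow_le_one' hy 3)
  refine (pow_lt_one_iff (n := 3) three_ne_zero).1 ?_
  rw [← map_pow, show (x - y) ^ 3 = (x ^ 3 - y ^ 3) - 3 * (x * y * (x - y)) by ring]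
  refine v.map_sub_lt h ?_
  rw [map_mul, map_mul, map_mul]
  exact (mul_le_of_le_one_right' (mul_le_one' (mul_le_one' hx hy) (v.map_sub_le hx hy))).trans_lt h3

end Pool.Agent.P.MP_20768c_nt.Tz.Cv

end

-- part Cv.F0b
section

set_option autoImplicit false

open Complex NumberField IsDedekindDomain Filter Topology
open UpperHalfPlane hiding I
open scoped ComplexConjugate Real MatrixGroups

namespace Pool.Agent.P.MP_20768c_nt.Tz.Cv

open Pool.Agent.P.MP_20768c_nt.Tz.EQ (Lt pr sp IsLat jL qN)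

variable (F : Type) [Field F] [NumberField F] {l C : ℕ}

theorem f0b_red {A : Type} [Group A] {q : A} (hl : 0 < l) (h : q ^ l = 1) (e : ℤ) :
    ∃ j : Fin l, q ^ e = q ^ (j : ℕ) := by
  have h0 : (0 : ℤ) < l := Int.natCast_pos.2 hl
  have h1 := Int.emod_nonneg e h0.ne'
  have h2 := Int.emod_lt_of_pos e h0
  refine ⟨⟨(e % l).toNat, by omega⟩, ?_⟩
  rw [zpow_eq_zpow_emod' e h, ← zpow_natCast, Int.toNat_of_nonneg h1]

theorem selC (hl : 0 < l) : (Pw F l).relIndex (Un F ⊔ Pw F l) ≠ 0 ∧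
    (Pw F l).relIndex (Un F ⊔ Pw F l) ≤ l ^ (Units.rank F + 1) := by
  let pj := QuotientGroup.mk' (Pw F l)
  let u : (𝓞 F)ˣ →* Fˣ := Units.map (algebraMap (𝓞 F) F : 𝓞 F →* F)
  have hq : ∀ q : Fˣ, ∀ e : ℤ, ∃ j : Fin l, pj q ^ e = pj q ^ (j : ℕ) := fun q =>
    f0b_red hl (by
      rw [← map_pow]
      exact (QuotientGroup.eq_one_iff _).2 ⟨q, rfl⟩)
  obtain ⟨ζ, hζ⟩ := IsCyclic.exists_generator (α := Units.torsion F)
  let Φ : Fin l × (Fin (Units.rank F) → Fin l) → Fˣ ⧸ Pw F l := fun p =>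
    pj (u ζ) ^ (p.1 : ℕ) * ∏ i, pj (u (Units.fundSystem F i)) ^ (p.2 i : ℕ)
  have hs : ((Un F).map pj : Set (Fˣ ⧸ Pw F l)) ⊆ Set.range Φ := by
    rintro _ ⟨_, ⟨x, rfl⟩, rfl⟩
    obtain ⟨⟨t, e⟩, rfl, -⟩ := Units.exist_unique_eq_mul_prod F x
    obtain ⟨a, rfl⟩ := hζ t
    obtain ⟨j, hj⟩ := hq (u ζ) a
    choose k hk using fun i => hq (u (Units.fundSystem F i)) (e i)
    refine ⟨(j, k), ?_⟩
    change _ = pj (u _)
    simp only [Φ, map_mul, map_prod, map_zpow, SubgroupClass.coe_zpow, hj, hk]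
  have e1 : (Pw F l).relIndex (Un F ⊔ Pw F l) = Nat.card ((Un F).map pj) := by
    rw [Subgroup.relIndex_sup_right, ← Subgroup.relIndex_ker, QuotientGroup.ker_mk']
  have hf := Set.finite_range Φ
  have : Finite ((Un F).map pj) := hf.subset hs
  rw [e1]
  refine ⟨Nat.card_pos.ne', (Nat.card_mono hf hs).trans ((Finite.card_range_le Φ).trans ?_)⟩
  simp [pow_succ']

theorem sel_mul (l C : ℕ) : (Pw F l).relIndex (Vs F l C) =
    (Pw F l).relIndex (Un F ⊔ Pw F l) * (Un F ⊔ Pw F l).relIndex (Vs F l C) := by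
  exact (Subgroup.relIndex_mul_relIndex _ _ _ le_sup_right (sel_le F l C)).symm

theorem f0b_idx {S : Type} [Fintype S] [DecidableEq S] (Λ : AddSubgroup (S → ℤ))
    (h : ∀ Q, ∃ m : ℤ, m ≠ 0 ∧ Pi.single Q m ∈ Λ) (l : ℕ) :
    (Λ.map (nsmulAddMonoidHom l)).relIndex Λ = l ^ Nat.card S := by
  choose m m0 hm using h
  have hN : (∏ Q, (m Q).natAbs) ≠ 0 :=
    Finset.prod_ne_zero_iff.2 fun Q _ => Int.natAbs_ne_zero.2 (m0 Q)
  have hle : (nsmulAddMonoidHom (α := S → ℤ) (∏ Q, (m Q).natAbs)).range ≤ Λ := by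
    rintro _ ⟨y, rfl⟩
    rw [← Finset.univ_sum_single y, map_sum]
    refine sum_mem fun Q _ => ?_
    obtain ⟨c, hc⟩ : m Q ∣ (∏ Q, (m Q).natAbs : ℕ) :=
      Int.natAbs_dvd.1 (Int.natCast_dvd_natCast.2 (Finset.dvd_prod_of_mem _ (Finset.mem_univ Q)))
    have := zsmul_mem (hm Q) (c * y Q)
    rw [← Pi.single_smul, smul_eq_mul, mul_comm, ← mul_assoc, ← hc] at this
    rwa [nsmulAddMonoidHom_apply, ← Pi.single_smul, nsmul_eq_mul]
  have : (nsmulAddMonoidHom (α := S → ℤ) (∏ Q, (m Q).natAbs)).range.FiniteIndex :=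
    ⟨by rw [AddSubgroup.index_range_nsmul]; exact pow_ne_zero _ hN⟩
  have := AddSubgroup.finiteIndex_of_le hle
  rw [AddSubgroup.relIndex_map_nsmul, AddSubgroup.finrank_eq_of_finiteIndex, Module.finrank_pi,
    Nat.card_eq_fintype_card]

theorem f0b_el (Q : HeightOneSpectrum (𝓞 F)) : ∃ x : Fˣ, Q.valuation F (x : F) ≠ 1 ∧
    ∀ R : HeightOneSpectrum (𝓞 F), R ≠ Q → R.valuation F (x : F) = 1 := by
  have h0 : Q.asIdeal ∈ nonZeroDivisors (Ideal (𝓞 F)) := mem_nonZeroDivisors_of_ne_zero Q.ne_bot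
  have h1 := pow_card_eq_one' (x := ClassGroup.mk0 ⟨Q.asIdeal, h0⟩)
  rw [← map_pow] at h1
  obtain ⟨a, ha⟩ := (ClassGroup.mk0_eq_one_iff (pow_mem h0 _)).1 h1
  have hm : a ∈ Q.asIdeal ^ Nat.card (ClassGroup (𝓞 F)) := ha ▸ Submodule.mem_span_singleton_self a
  have a0 : a ≠ 0 := by
    rintro rfl
    exact pow_ne_zero _ Q.ne_bot (ha.trans (Submodule.span_zero_singleton _))
  refine ⟨Units.mk0 (a : F) (RingOfIntegers.coe_ne_zero_iff.2 a0), fun e => ?_, fun R hR => ?_⟩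
  · exact (Q.valuation_eq_one_iff_notMem (K := F)).1 e (Ideal.pow_le_self Nat.card_pos.ne' hm)
  · refine (R.valuation_eq_one_iff_notMem (K := F)).2 fun e => hR ?_
    have : Q.asIdeal ^ Nat.card (ClassGroup (𝓞 F)) ≤ R.asIdeal :=
      ha.trans_le ((Submodule.span_singleton_le_iff_mem _ _).2 e)
    exact HeightOneSpectrum.ext
      (Q.isMaximal.eq_of_le R.isPrime.ne_top (R.isPrime.le_of_pow_le this)).symm

theorem selD (hl : 0 < l) (hC : C ≠ 0) : l ^ nP F C ≤ (Pw F l).relIndex (Vs F l C) := by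
  classical
  let S := {Q : HeightOneSpectrum (𝓞 F) | (C : 𝓞 F) ∈ Q.asIdeal}
  have : Fintype S := (fin_primes F hC).fintype
  have hv : ∀ (Q : HeightOneSpectrum (𝓞 F)) (x : Fˣ), Q.valuation F (x : F) ≠ 0 := fun Q x =>
    (map_ne_zero _).2 x.ne_zero
  let φ : Additive Fˣ →+ (S → ℤ) := AddMonoidHom.mk'
    (fun x Q => WithZero.log (Q.1.valuation F (x.toMul : Fˣ))) fun x y => funext fun Q => by
      rw [toMul_add, Units.val_mul, map_mul, WithZero.log_mul (hv _ _) (hv _ _), Pi.add_apply]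
  let U : Subgroup Fˣ :=
    { carrier := {x | ∀ Q : HeightOneSpectrum (𝓞 F), Q ∉ S → Q.valuation F (x : F) = 1}
      one_mem' := fun _ _ => by simp
      mul_mem' := fun hx hy Q hQ => by rw [Units.val_mul, map_mul, hx Q hQ, hy Q hQ, mul_one]
      inv_mem' := fun hx Q hQ => by rw [Units.val_inv_eq_inv_val, map_inv₀, hx Q hQ, inv_one] }
  let Λ := U.toAddSubgroup.map φ
  have h1 : ∀ Q : S, ∃ m : ℤ, m ≠ 0 ∧ Pi.single Q m ∈ Λ := fun Q => by
    obtain ⟨x, k1, k2⟩ := f0b_el F Q.1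
    refine ⟨φ (Additive.ofMul x) Q, fun e => k1 ?_, Additive.ofMul x,
      fun R hR => k2 R fun e => hR (e ▸ Q.2), funext fun R => ?_⟩
    · rw [← WithZero.exp_log (hv Q.1 x)]
      exact congrArg WithZero.exp e
    · rcases eq_or_ne R Q with rfl | e
      · rw [Pi.single_eq_same]
      · rw [Pi.single_eq_of_ne e]
        exact (congrArg WithZero.log (k2 R.1 fun e' => e (Subtype.ext e'))).trans WithZero.log_one
  have h2 := f0b_idx Λ h1 l
  have hfin : (Pw F l).relIndex (Vs F l C) ≠ 0 := by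
    rw [sel_mul]
    exact mul_ne_zero (selC F hl).1 (selA F hl hC).1
  have hUV : U ≤ Vs F l C := fun x hx Q hQ => ⟨0, by simpa using hx Q hQ⟩
  have h3 : (Pw F l).relIndex U ≠ 0 := fun e =>
    hfin (Subgroup.relIndex_eq_zero_of_le_right hUV e)
  refine le_trans ?_ (Subgroup.relIndex_le_of_le_right hUV hfin)
  rw [nP, ← Nat.card_coe_set_eq, ← h2, ← AddSubgroup.relIndex_comap,
    ← Subgroup.inf_relIndex_right (Pw F l) U, ← Subgroup.relIndex_toAddSubgroup]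
  refine AddSubgroup.relIndex_le_of_le_left ?_
    (by rwa [Subgroup.relIndex_toAddSubgroup, Subgroup.inf_relIndex_right])
  rintro x ⟨⟨y, hy⟩, hx⟩
  have e : x = l • Additive.ofMul y := congrArg Additive.ofMul hy.symm
  refine ⟨φ (Additive.ofMul y), ⟨Additive.ofMul y, fun Q hQ => ?_, rfl⟩, by rw [e, map_nsmul]; rfl⟩
  have := hx Q hQ
  rw [e, toMul_nsmul, Units.val_pow_eq_pow_val, map_pow] at this
  exact (pow_eq_one_iff_left hl.ne').1 this

end Pool.Agent.P.MP_20768c_nt.Tz.Cv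

end
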