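import Pool.Agent.P.MP_20768c_nt.Tz.Z0
import Pool.Agent.P.MP_20768c_nt.Tz.Z2

-- part Cv.Defs
section

set_option autoImplicit false

open Complex NumberField IsDedekindDomain
open UpperHalfPlane hiding I
open scoped ComplexConjugate Real MatrixGroups

namespace Pool.Agent.P.MP_20768c_nt.Tz.Cv

open Pool.Agent.P.MP_20768c_nt.Tz.EQ (Lt pr sp IsLat jL qN)

noncomputable section

/-! ### The quadratic field -/

structure St where
  k : IntermediateField ℚ ℂ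
  nf : NumberField k
  w : 𝓞 k
  t : ℤ
  m : ℕ
  dd : ℕ
  m_pos : 0 < m
  m_dvd : 3 ∣ m
  t_mod : t % 3 = 1
  dd_eq : (dd : ℤ) = 4 * m - t ^ 2
  w_sq : w ^ 2 = t * w - m
  w_im : 0 < (algebraMap (𝓞 k) ℂ w).im
  span : ∀ x : 𝓞 k, ∃ a b : ℤ, x = a + b * w
  ι : ℂ →+* ℂ_[3]
  ι_w : ‖ι (algebraMap (𝓞 k) ℂ w)‖ < 1

instance (s : St) : NumberField s.k := s.nf

namespace St

variable (s : St)

abbrev O : Type := 𝓞 s.k

abbrev Sub : Type := Submodule s.O ℂ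

abbrev Au : Type := ℂ ≃ₐ[s.k] ℂ

def c (x : s.O) : ℂ := algebraMap s.O ℂ x

/-- the conjugate of `w` -/
def wb : s.O := s.t - s.w

/-- the Kronecker symbol of the field, on odd integers -/
def kr (d : ℤ) : ℤ := jacobiSym (-(s.dd : ℤ)) (d : ZMod (4 * s.dd)).val

def v : Valuation ℂ NNReal := (NormedField.valuation (K := ℂ_[3])).comap s.ι

def zl (L : s.Sub) : Lt := L.restrictScalars ℤ

def idl (a : Ideal s.O) : s.Sub := Submodule.map (Algebra.linearMap s.O ℂ) a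

def sc (x : ℂ) : s.Sub := Submodule.span s.O {x}

def inv (a : Ideal s.O) : s.Sub := 1 / s.idl a

def cj (L : s.Sub) : s.Sub := Submodule.span s.O {x | conj x ∈ L}

def nL (L : s.Sub) : ℝ := ar (s.zl L) / ar (s.zl 1)

def p1 : Ideal s.O := Ideal.span {3, s.w}

def p2 : Ideal s.O := Ideal.span {3, s.wb}

@[ext] structure Pair where
  L : s.Sub
  ρ : ℂ
  unit : IsUnit L
  mem : ρ ∈ L

instance : CommMonoid s.Pair where
  mul p q := ⟨p.L * q.L, p.ρ * q.ρ, p.unit.mul q.unit, Submodule.mul_mem_mul p.mem q.mem⟩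
  one := ⟨1, 1, isUnit_one, Submodule.one_le.1 le_rfl⟩
  mul_assoc p q r := Pair.ext (mul_assoc p.L q.L r.L) (mul_assoc p.ρ q.ρ r.ρ)
  one_mul p := Pair.ext (one_mul p.L) (one_mul p.ρ)
  mul_one p := Pair.ext (mul_one p.L) (mul_one p.ρ)
  mul_comm p q := Pair.ext (mul_comm p.L q.L) (mul_comm p.ρ q.ρ)

theorem mul_L (p q : s.Pair) : (p * q).L = p.L * q.L := rfl

theorem mul_ρ (p q : s.Pair) : (p * q).ρ = p.ρ * q.ρ := rfl

theorem sc_mul (x y : ℂ) : s.sc (x * y) = s.sc x * s.sc y := by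
  simp [sc, Submodule.span_mul_span]

theorem sc_one : s.sc 1 = 1 := Submodule.one_eq_span.symm

theorem mem_sc (x : ℂ) : x ∈ s.sc x := Submodule.mem_span_singleton_self x

/-- `q` is `x • p` modulo `n` -/
def Sim (n : Ideal s.O) (x : ℂ) (p q : s.Pair) : Prop :=
  x ≠ 0 ∧ q.L = s.sc x * p.L ∧ q.ρ - x * p.ρ ∈ s.idl n * q.L

theorem sc_mem {n : Ideal s.O} {x y : ℂ} {L : s.Sub} (h : y ∈ s.idl n * L) :
    x * y ∈ s.idl n * (s.sc x * L) := by
  rw [mul_left_comm]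
  exact Submodule.mul_mem_mul (s.mem_sc x) h

def rel (n : Ideal s.O) : Con s.Pair where
  r p q := ∃ x, s.Sim n x p q
  iseqv :=
    { refl := fun p => ⟨1, one_ne_zero, by rw [sc_one, one_mul], by simp⟩
      symm := by
        rintro p q ⟨x, h0, h1, h2⟩
        have e : p.L = s.sc x⁻¹ * q.L := by
          rw [h1, ← mul_assoc, ← sc_mul, inv_mul_cancel₀ h0, sc_one, one_mul]
        refine ⟨x⁻¹, inv_ne_zero h0, e, ?_⟩
        have h3 := neg_mem (s.sc_mem (x := x⁻¹) h2)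
        rw [← e] at h3
        convert h3 using 1
        field_simp
        ring
      trans := by
        rintro p q r ⟨x, h0, h1, h2⟩ ⟨y, k0, k1, k2⟩
        refine ⟨y * x, mul_ne_zero k0 h0, by rw [k1, h1, sc_mul, mul_assoc], ?_⟩
        have h3 := s.sc_mem (x := y) h2
        rw [← k1] at h3
        convert add_mem k2 h3 using 1
        ring }
  mul' := by
    rintro p q p' q' ⟨x, h0, h1, h2⟩ ⟨y, k0, k1, k2⟩
    refine ⟨x * y, mul_ne_zero h0 k0, by rw [mul_L, mul_L, h1, k1, sc_mul, mul_mul_mul_comm], ?_⟩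
    have a1 : (q.ρ - x * p.ρ) * q'.ρ ∈ s.idl n * (q.L * q'.L) := by
      rw [← mul_assoc]
      exact Submodule.mul_mem_mul h2 q'.mem
    have a2 : x * p.ρ * (q'.ρ - y * p'.ρ) ∈ s.idl n * (q.L * q'.L) := by
      rw [mul_left_comm]
      exact Submodule.mul_mem_mul (h1 ▸ Submodule.mul_mem_mul (s.mem_sc x) p.mem) k2
    rw [mul_L, mul_ρ, mul_ρ]
    convert add_mem a1 a2 using 1
    ring

/-- classes of pairs modulo `n`; the unit group is the ray class group -/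
abbrev Pr (n : Ideal s.O) : Type := (s.rel n).Quotient

def cl (n : Ideal s.O) : s.Pair →* s.Pr n := (s.rel n).mk'

def out {n : Ideal s.O} (C : s.Pr n) : s.Pair := Quotient.out C

open Classical in
def mkP (L : s.Sub) (ρ : ℂ) : s.Pair := if h : IsUnit L ∧ ρ ∈ L then ⟨L, ρ, h.1, h.2⟩ else 1

def ip (a : Ideal s.O) : s.Pair := s.mkP (s.inv a) 1

def np (β : s.O) : s.Pair := s.mkP 1 (s.c β)

/-- the ideal `ρ L⁻¹` -/
def idOf (p : s.Pair) : Ideal s.O := Submodule.comap (Algebra.linearMap s.O ℂ) (s.sc p.ρ / p.L)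

def Qn (p : s.Pair) : ℕ := Ideal.absNorm (s.idOf p)

def Inv {β : Type} (n : Ideal s.O) (Φ : s.Pair → β) : Prop := ∀ x p q, s.Sim n x p q → Φ q = Φ p

def IsWt (n : Ideal s.O) (ω : s.Pair → ℂ) : Prop :=
  (∀ x p q, s.Sim n x p q → ω q = x * ω p) ∧ ∀ p : s.Pair, p.ρ ∈ s.idl s.p2 * p.L → ω p = 0

def Prim (n : Ideal s.O) (φ : MulChar (s.Pr n) ℂ) : Prop :=
  ∀ g, n < g → ∃ β : s.O, β - 1 ∈ g ∧ IsUnit (s.cl n (s.np β)) ∧ φ (s.cl n (s.np β)) ≠ 1

def Lr (n : Ideal s.O) (φ : MulChar (s.Pr n) ℂ) (t : ℝ) : ℂ :=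
  ∑' a : Ideal s.O, φ (s.cl n (s.ip a)) * (((Ideal.absNorm a : ℝ) ^ (-t) : ℝ) : ℂ)

def gp (n : Ideal s.O) (p : s.Pair) : ℝ := eG (s.zl (s.idl n * p.L)) p.ρ

def ZG (n : Ideal s.O) (φ : MulChar (s.Pr n) ℂ) : ℂ :=
  ∑ᶠ C : (s.Pr n)ˣ, (φ C)⁻¹ * (s.gp n (s.out C.1) : ℂ)

/-- the character `φ` of level `n` comes from `φ₀` of level `g` -/
def Ind (n g : Ideal s.O) (φ : MulChar (s.Pr n) ℂ) (φ₀ : MulChar (s.Pr g) ℂ) : Prop :=
  n ≤ g ∧ ∀ p, IsUnit (s.cl n p) → φ (s.cl n p) = φ₀ (s.cl g p)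

/-- the weight two theta series of a weight -/
def vth (ω : s.Pair → ℂ) (τ : ℍ) : ℂ :=
  ∑' a : Ideal s.O, ω (s.ip a) * (Ideal.absNorm a : ℂ) *
    cexp (2 * π * I * τ * (Ideal.absNorm a : ℂ))

def Sy (ω : s.Pair → ℂ) (r : ℚ) : ℂ := sym (s.vth ω) r

/-- the coefficients of the theta series -/
def co (ω : s.Pair → ℂ) (j : ℕ) : ℂ :=
  j * ∑ᶠ a ∈ {a : Ideal s.O | Ideal.absNorm a = j}, ω (s.ip a)

/-- the eigenvalue at `3` -/
def al (ω : s.Pair → ℂ) : ℂ := 3 * ω (s.ip s.p1) / ω 1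

def DD (ω : s.Pair → ℂ) (n : ℕ) (b : ℤ) : ℂ :=
  3 * s.Sy ω (b / 3 ^ n) - s.al ω * s.Sy ω (b / 3 ^ (n - 1))

/-- `f' = f p2` -/
def lv (f : Ideal s.O) : Ideal s.O := f * s.p2

/-- `m = f 3 ^ n` -/
def md (f : Ideal s.O) (n : ℕ) : Ideal s.O := f * Ideal.span {3 ^ n}

/-- the level of the theta series -/
def lev (f : Ideal s.O) : ℕ := 4 * s.dd * (3 * Ideal.absNorm f) ^ 2

/-- the point of order `p1` attached to a pair -/
def tp (f : Ideal s.O) (p : s.Pair) : ℂ := Ideal.absNorm f ^ 2 * s.c s.wb * p.ρ / 3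

def om1 (f : Ideal s.O) (p : s.Pair) : ℂ :=
  st (s.zl (s.idl f * p.L)) (s.tp f p) / r3 (s.Qn p)

open Classical in
/-- the normalised invariant differential of a pair of level `f p2` -/
def oms (f : Ideal s.O) (p : s.Pair) : ℂ :=
  if h : ∃ q, IsUnit (s.cl (s.md f 1) q) ∧ s.Sim (s.lv f) 1 q p then s.om1 f h.choose else 0

def thp (f : Ideal s.O) (c n : ℕ) (p : s.Pair) : ℂ := tht (s.zl (s.idl f * p.L)) c (p.ρ / 3 ^ n)

def ecp (f : Ideal s.O) (c n : ℕ) (p : s.Pair) : ℂ := ec (s.zl (s.idl f * p.L)) c (p.ρ / 3 ^ n)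

def BB (f : Ideal s.O) (c n : ℕ) (ω : s.Pair → ℂ) (b : ℤ) : ℂ :=
  (∑ᶠ C : (s.Pr (s.md f n))ˣ,
    zt n ^ (b * s.Qn (s.out C.1)) * ω (s.out C.1) * s.ecp f c n (s.out C.1)) / 3 ^ (n - 1)

def BD (f : Ideal s.O) (c n : ℕ) (ω : s.Pair → ℂ) (b : ℤ) : ℂ :=
  (s.BB f c n ω b - s.BB f c n ω (b * (3 ^ (n - 1) + 1))) / 3

/-- a conductor prime to three and a smoothing integer -/
def Cc (f : Ideal s.O) (c : ℕ) : Prop :=
  ¬ 3 ∣ Ideal.absNorm f ∧ 1 < c ∧ c % 9 = 4 ∧ c ≡ 1 [MOD 2 * Ideal.absNorm f]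

/-- a point of order three that is killed neither by `w` nor by `wb` -/
def Gen3 (L : s.Sub) (y : ℂ) : Prop := 3 * y ∈ L ∧ s.c s.w * y ∉ L ∧ s.c s.wb * y ∉ L

/-- `σ` acts at level `m` as the ideal `b` -/
def Art (m : ℕ) (σ : ℂ → ℂ) (b : Ideal s.O) : Prop :=
  b ≠ ⊥ ∧ IsCoprime b (Ideal.span {(m : s.O)}) ∧
    (∀ L : s.Sub, IsUnit L → σ (jL (s.zl L)) = jL (s.zl (L * s.inv b)) ∧
      ∀ z : ℂ, m * z ∈ L → z ∉ L → σ (XX (s.zl L) z) = XX (s.zl (L * s.inv b)) z) ∧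
    ∀ ζ : ℂ, ζ ^ m = 1 → σ ζ = ζ ^ Ideal.absNorm b

def CM (m : ℕ) : Set ℂ :=
  {x | x ^ m = 1 ∨ ∃ L : s.Sub, IsUnit L ∧
    (x = jL (s.zl L) ∨ ∃ z : ℂ, m * z ∈ L ∧ z ∉ L ∧ x = XX (s.zl L) z)}

/-- away from `C` the singular moduli are units and stay distinct -/
def IsC0 (C : ℕ) : Prop :=
  C ≠ 0 ∧ ∀ V : ValuationSubring ℂ, V.valuation C = 1 → V.valuation 6 = 1 ∧
    (∀ L : s.Sub, IsUnit L →
      V.valuation (jL (s.zl L)) = 1 ∧ V.valuation (jL (s.zl L) - 1728) = 1) ∧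
    ∀ L M : s.Sub, IsUnit L → IsUnit M → V.valuation (jL (s.zl L) - jL (s.zl M)) < 1 →
      jL (s.zl L) = jL (s.zl M)

/-- the weight vanishes off the unit classes -/
def Supp (n : Ideal s.O) (ω : s.Pair → ℂ) : Prop := ∀ p, ¬ IsUnit (s.cl n p) → ω p = 0

/-- a multiplicative weight of level `f'` -/
def Eig (f : Ideal s.O) (ω : s.Pair → ℂ) : Prop :=
  s.IsWt (s.lv f) ω ∧ s.Supp (s.lv f) ω ∧ ω 1 ≠ 0 ∧ ∀ p q, ω (p * q) * ω 1 = ω p * ω q

/-- `φ` is the twist of `χ` by `ψ` of the norm -/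
def Tw (f : Ideal s.O) (n : ℕ) (χ : MulChar (s.Pr (s.lv f)) ℂ) (ψ : MulChar (ZMod (3 ^ n)) ℂ)
    (φ : MulChar (s.Pr (s.md f n)) ℂ) : Prop :=
  ∀ p, IsUnit (s.cl (s.md f n) p) → φ (s.cl (s.md f n) p) = χ (s.cl (s.lv f) p) * ψ (s.Qn p)

/-- the section of the norm map given by inertia -/
def Kap (f : Ideal s.O) (n : ℕ) (κ : (ZMod (3 ^ n))ˣ →* (s.Pr (s.md f n))ˣ) : Prop :=
  (∀ b, (s.Qn (s.out (κ b).1) : ZMod (3 ^ n)) = b) ∧
    (∀ b, s.cl (f * s.p2 ^ n) (s.out (κ b).1) = 1) ∧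
    ∀ (m : ℕ) (σ : s.Au) (a : Ideal s.O) (b : (ZMod (3 ^ n))ˣ), 0 < m → (m : s.O) ∈ s.md f n →
      s.Art m σ a → Inert s.v σ → σ (zt n) = zt n ^ (b : ZMod (3 ^ n)).val →
      s.cl (s.md f n) (s.ip a) = κ b

/-- continuous quadratic characters unramified outside `C` -/
def Quad (C : ℕ) : Set (s.Au →* ℂˣ) :=
  {φ | (∀ σ, φ σ ^ 2 = 1) ∧
    (∃ T : Finset ℂ, (∀ x ∈ T, IsAlgebraic ℚ x) ∧ ∀ σ : s.Au, (∀ x ∈ T, σ x = x) → φ σ = 1) ∧
    ∀ (V : ValuationSubring ℂ) (σ : s.Au), V.valuation C = 1 → Inert V.valuation σ → φ σ = 1}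

open Classical in
/-- the value of a homomorphism on the ray class group of level `f'` at a pair -/
def ev {G : Type} [Group G] {f : Ideal s.O} (η : (s.Pr (s.lv f))ˣ →* G) (p : s.Pair) : G :=
  if h : IsUnit (s.cl (s.lv f) p) then η h.unit else 1

/-- the ray class character attached to a character of `G` -/
def chi {G : Type} [Group G] {f : Ideal s.O} (η : (s.Pr (s.lv f))ˣ →* G) (χ : G →* ℂˣ) :
    MulChar (s.Pr (s.lv f)) ℂ := MulChar.ofUnitHom (χ.comp η)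

/-- the product of the elliptic units in a fibre -/
def up {G : Type} [Group G] (f : Ideal s.O) (η : (s.Pr (s.lv f))ˣ →* G) (c n : ℕ) (a : G)
    (b : ZMod (3 ^ n)) : ℂ :=
  ∏ᶠ C ∈ {C : (s.Pr (s.md f n))ˣ |
    s.ev η (s.out C.1) = a ∧ (s.Qn (s.out C.1) : ZMod (3 ^ n)) = b}, s.thp f c n (s.out C.1)

/-- the weights of level `f'` that are defined over `k` -/
def Rat (f : Ideal s.O) (ω : s.Pair → ℂ) : Prop :=
  ∃ g : s.Pair → ℂ, s.Inv (s.lv f) g ∧ (∀ p, ω p = g p * s.oms f p) ∧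
    ∀ (σ : s.Au) (b : Ideal s.O), s.Art (3 * Ideal.absNorm f) σ b →
      ∀ p, IsUnit (s.cl (s.lv f) p) → σ (g p) = g (p * s.ip b)

/-! ### Inertia at the chosen place -/

/-- algebraic numbers fixed by the inertia elements that fix `zt n` -/
def Fx (n : ℕ) : Set ℂ :=
  {x | IsAlgebraic ℚ x ∧ ∀ σ : s.Au, Inert s.v σ → σ (zt n) = zt n → σ x = x}

def IsSec (n : ℕ) (sb : (ZMod (3 ^ n))ˣ → s.Au) : Prop :=
  ∀ b, Inert s.v (sb b) ∧ sb b (zt n) = zt n ^ (b : ZMod (3 ^ n)).val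

abbrev κ : Type := IsLocalRing.ResidueField s.v.valuationSubring

open Classical in
def rs (x : ℂ) : s.κ :=
  if h : x ∈ s.v.valuationSubring then IsLocalRing.residue s.v.valuationSubring ⟨x, h⟩ else 0

def tr (n : ℕ) (sb : (ZMod (3 ^ n))ˣ → s.Au) (y : ℂ) : ℂ := (∑ b, sb b y) / 3 ^ (n - 1)

def td (n : ℕ) (sb : (ZMod (3 ^ n))ˣ → s.Au) (a : ℤ) (y : ℂ) : ℂ :=
  (s.tr n sb (zt n ^ a * y) - s.tr n sb (zt n ^ (a * (3 ^ (n - 1) + 1)) * y)) / 3

def Dl (n : ℕ) (sb : (ZMod (3 ^ n))ˣ → s.Au) (x : ℂ) : ℂ :=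
  (sb (tau n) x / x - sb (tau n)⁻¹ x / x) / r3 1

def del (n : ℕ) (sb : (ZMod (3 ^ n))ˣ → s.Au) (x : ℂ) : s.κ :=
  s.rs (s.td n sb (-1) (s.Dl n sb x))

end St

/-! ### The abelian extension and its cyclotomic tower -/

structure Cb extends St where
  N : IntermediateField k ℂ
  fd : FiniteDimensional k N
  gal : IsGalois k N
  comm : ∀ g h : N ≃ₐ[k] N, g * h = h * g
  ndvd : ¬ 3 ∣ Module.finrank k N
  unr : ∀ σ : toSt.Au, Inert toSt.v σ → ∀ x ∈ N, σ x = x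
  tame : ∀ (V : ValuationSubring ℂ) (σ : toSt.Au), V.valuation 3 < 1 → Inert V.valuation σ →
    σ (zt 1) = zt 1 → ∀ x ∈ N, σ x = x
  ray : ∃ m : ℕ, 0 < m ∧ ∀ σ : toSt.Au, toSt.Art m σ ⊤ → ∀ x ∈ N, σ x = x

namespace Cb

variable (s : Cb)

instance : FiniteDimensional s.k s.N := s.fd

instance : IsGalois s.k s.N := s.gal

instance : NumberField s.N := NumberField.of_module_finite s.k s.N

def K (n : ℕ) : IntermediateField s.k ℂ := s.N ⊔ IntermediateField.adjoin s.k {zt n}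

instance (n : ℕ) : FiniteDimensional s.k (s.K n) := by
  have h : IsIntegral s.k (zt n) := IsIntegral.of_pow (n := 3 ^ n) (by positivity)
    (by rw [zt_pow]; exact isIntegral_one)
  have := IntermediateField.adjoin.finiteDimensional h
  exact IntermediateField.finiteDimensional_sup _ _

instance (n : ℕ) : NumberField (s.K n) := NumberField.of_module_finite s.k (s.K n)

/-- the Galois group of `N` over `k` -/
abbrev GN : Type := s.N ≃ₐ[s.k] s.N

/-- the degree of `N` over `k` -/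
def g : ℕ := Module.finrank s.k s.N

/-- `η` is the Artin map of `N` -/
def Cut (f : Ideal s.O) (η : (s.Pr (s.lv f))ˣ →* s.GN) : Prop :=
  ¬ 3 ∣ Ideal.absNorm f ∧
    ∀ (m : ℕ) (σ : s.Au) (b : Ideal s.O), 0 < m → (m : s.O) ∈ s.lv f → s.Art m σ b →
      ∀ x : s.N, ((s.ev η (s.ip b) x : s.N) : ℂ) = σ x

/-- the complex number underlying a unit of `K n` -/
def uc {n : ℕ} (ε : (𝓞 (s.K n))ˣ) : ℂ := (((ε : 𝓞 (s.K n)) : s.K n) : ℂ)

/-- cubes, roots of unity and units of `K (n-1)` -/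
def ZZ (n : ℕ) : Subgroup (𝓞 (s.K n))ˣ :=
  Subgroup.closure {ε | (∃ y, ε = y ^ 3) ∨ IsOfFinOrder ε ∨ s.uc ε ∈ s.K (n - 1)}

/-- roots of unity, units of `K (n-1)` and conjugates of `u` -/
def CC {n : ℕ} (u : (𝓞 (s.K n))ˣ) : Subgroup (𝓞 (s.K n))ˣ :=
  Subgroup.closure {ε | IsOfFinOrder ε ∨ s.uc ε ∈ s.K (n - 1) ∨ ∃ σ : s.Au, s.uc ε = σ (s.uc u)}

/-- the common kernel of the logarithmic derivatives -/
def KD (n : ℕ) (sb : (ZMod (3 ^ n))ˣ → s.Au) : Subgroup (𝓞 (s.K n))ˣ :=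
  Subgroup.closure {ε | ∀ σ : s.Au, s.del n sb (σ (s.uc ε)) = 0}

/-- the span of the translates of the logarithmic derivative of `x` -/
def rk' (n : ℕ) (sb : (ZMod (3 ^ n))ˣ → s.Au) (x : ℂ) : ℕ :=
  tk fun σ : s.Au => s.del n sb (σ x)

abbrev G (n : ℕ) : Type := s.K n ≃ₐ[s.k] s.K n

/-- a generator of the group of `K n` over `K (n-1)` -/
def IsTau (n : ℕ) (τ : s.G n) : Prop :=
  (∀ y : s.K n, (y : ℂ) ∈ s.N → τ y = y) ∧
    ∀ y : s.K n, (y : ℂ) = zt n → ((τ y : s.K n) : ℂ) = zt 1 * zt n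

def Zs {n : ℕ} (x : s.K n) (φ : s.G n →* ℂˣ) : ℂ :=
  ∑ᶠ g : s.G n, (((φ g)⁻¹ : ℂˣ) : ℂ) * (Real.log (‖((g x : s.K n) : ℂ)‖ ^ 2) : ℂ)

/-- coordinates on the Galois group -/
def Par (f : Ideal s.O) (η : (s.Pr (s.lv f))ˣ →* s.GN) (n : ℕ) (ρ : s.G n →* s.GN)
    (ν : s.G n →* (ZMod (3 ^ n))ˣ) : Prop :=
  (∀ (m : ℕ) (σ : s.Au) (a : Ideal s.O) (g : s.G n), 0 < m → (m : s.O) ∈ s.md f n → s.Art m σ a →
      (∀ x : s.K n, ((g x : s.K n) : ℂ) = σ x) →
      ρ g = s.ev η (s.ip a) ∧ (ν g : ZMod (3 ^ n)) = Ideal.absNorm a) ∧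
    (∀ g, ρ g = 1 → ν g = 1 → g = 1) ∧ (∀ a b, ∃ g, ρ g = a ∧ ν g = b) ∧
    2 ≤ n ∧ ∀ τ, s.IsTau n τ → ρ τ = 1 ∧ ν τ = tau n

/-- a generator of the cyclotomic tower over `K 1` -/
def IsGam (γ : s.Au) : Prop := (∀ x ∈ s.N, γ x = x) ∧ ∀ n, γ (zt n) = zt n ^ 4

/-- the analytic data of a unit -/
def Ana (C R n : ℕ) (x : s.K n) : Prop :=
  ∃ Fr : Ideal s.O → s.G n,
    (∀ Q : Ideal (𝓞 (s.K n)), Q.IsPrime → Q ≠ ⊥ → (C : 𝓞 (s.K n)) ∉ Q →
      FrobAt (Fr (Q.under s.O)) Q) ∧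
    ∀ (τ : s.G n) (φ : s.G n →* ℂˣ), s.IsTau n τ → φ τ ≠ 1 →
      ∃ (a : Ideal s.O → ℂ) (y : ℂ) (A B : ℝ), Mult s.k a ∧
        (∀ q : Ideal s.O, q.IsPrime → q ≠ ⊥ →
          ((C : s.O) ∈ q → a q = 0) ∧ ((C : s.O) ∉ q → a q = φ (Fr q))) ∧
        Filter.Tendsto (DS s.k a) (nhdsWithin 1 (Set.Ioi 1)) (nhds y) ∧
        ‖y‖ ^ 2 * A = 4 * π ^ 2 * ‖s.Zs x φ‖ ^ 2 * B ∧
        A ≠ 0 ∧ s.v A ≤ s.v 3 ^ (2 * n) ∧ s.v 3 ^ R ≤ s.v B ^ 3 ^ n

def Kx (n : ℕ) : Subgroup ℂˣ := (Units.map (algebraMap (s.K n) ℂ : s.K n →* ℂ)).range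

def Ux (n : ℕ) : Subgroup ℂˣ := (Units.map (algebraMap (𝓞 (s.K n)) ℂ : 𝓞 (s.K n) →* ℂ)).range

/-- the cubes of the cyclotomic tower -/
def Sq : Subgroup ℂˣ := Subgroup.closure {x | ∃ n, ∃ y ∈ s.Kx n, x = y ^ 3}

/-- the Kummer generators that occur in the fine Selmer group -/
def Cond (C : ℕ) (r : ℂ) : Prop :=
  r ≠ 0 ∧ (∃ n, r ^ 3 ∈ s.K n) ∧
    (∀ (V : ValuationSubring ℂ) (σ : s.Au), V.valuation C = 1 → Inert V.valuation σ →
      (∀ x ∈ s.N, σ x = x) → σ r = r) ∧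
    ∀ a : s.Au, ∃ a' : s.Au, (∀ x ∈ s.N, a' x = a x) ∧ ∃ n, ∀ σ : s.Au, Inert s.v σ →
      σ (zt n) = zt n → σ (a' r) = a' r

def SS (C : ℕ) : Subgroup ℂˣ := Subgroup.closure {x | ∃ r, s.Cond C r ∧ (x : ℂ) = r ^ 3}

end Cb

end

end Pool.Agent.P.MP_20768c_nt.Tz.Cv

end

-- part Cv.I2_p
section

set_option autoImplicit false

open Complex NumberField IsDedekindDomain Filter Topology
open UpperHalfPlane hiding I
open scoped ComplexConjugate Real MatrixGroups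

namespace Pool.Agent.P.MP_20768c_nt.Tz.Cv

open Pool.Agent.P.MP_20768c_nt.Tz.EQ (Lt pr sp IsLat jL qN)

variable {N : ℕ} {h h' : ℍ → ℂ}

theorem BQ.add (a : BQ N h) (b : BQ N h') : BQ N fun τ => h τ + h' τ := by
  obtain ⟨c, Λ, h1, h2, h3⟩ := a
  obtain ⟨d, Λ', k1, k2, k3⟩ := b
  exact ⟨fun n => c n + d n, Λ ⊔ Λ', h1.sup k1, fun n => Submodule.add_mem_sup (h2 n) (k2 n),
    fun τ => Pool.Agent.P.MP_20768c_nt.Tz.EQ.iq2_congr ((h3 τ).add (k3 τ)) fun n => add_mul _ _ _⟩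

theorem BQ.mul (hN : 0 < N) (a : BQ N h) (b : BQ N h') : BQ N fun τ => h τ * h' τ := by
  obtain ⟨c, Λ, h1, h2, h3⟩ := a
  obtain ⟨d, Λ', k1, k2, k3⟩ := b
  exact ⟨_, Λ * Λ', h1.mul k1,
    fun n => sum_mem fun p _ => Submodule.mul_mem_mul (h2 p.1) (k2 p.2),
    fun τ => Pool.Agent.P.MP_20768c_nt.Tz.EQ.vqs_cauchy (h3 τ) (k3 τ)⟩

theorem bq_const (N : ℕ) (c : ℂ) : BQ N fun _ => c := by
  refine ⟨fun n => if n = 0 then c else 0, Submodule.span ℤ {c}, Submodule.fg_span_singleton c,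
    fun n => ?_, fun τ => ?_⟩
  · beta_reduce
    split_ifs
    exacts [Submodule.mem_span_singleton_self c, zero_mem _]
  · simpa only [pow_zero, mul_one] using Pool.Agent.P.MP_20768c_nt.Tz.EQ.vqs_single 0 c (qN N τ)

theorem BQ.smul (a : BQ N h) (c : ℂ) : BQ N fun τ => c * h τ := by
  obtain ⟨d, Λ, k1, k2, k3⟩ := a
  exact ⟨fun n => c * d n, Submodule.span ℤ {c} * Λ, (Submodule.fg_span_singleton c).mul k1,
    fun n => Submodule.mul_mem_mul (Submodule.mem_span_singleton_self c) (k2 n),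
    fun τ => Pool.Agent.P.MP_20768c_nt.Tz.EQ.iq2_congr ((k3 τ).mul_left c) fun n => mul_assoc _ _ _⟩

theorem BQ.pow (hN : 0 < N) (a : BQ N h) (j : ℕ) : BQ N fun τ => h τ ^ j := by
  induction j with
  | zero => simpa only [pow_zero] using bq_const N 1
  | succ m ih => simpa only [pow_succ] using ih.mul hN a

theorem BQ.sum {ι : Type} (T : Finset ι) {g : ι → ℍ → ℂ} (a : ∀ i ∈ T, BQ N (g i)) :
    BQ N fun τ => ∑ i ∈ T, g i τ := by
  classical
  induction T using Finset.induction_on with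
  | empty => simpa only [Finset.sum_empty] using bq_const N 0
  | insert i T hi ih =>
    simpa only [Finset.sum_insert hi] using (a i (Finset.mem_insert_self _ _)).add
      (ih fun j hj => a j (Finset.mem_insert_of_mem hj))

theorem BQ.qs (a : BQ N h) : Pool.Agent.P.MP_20768c_nt.Tz.EQ.QS N ⊤ h := by
  obtain ⟨c, -, -, -, h3⟩ := a
  exact ⟨c, fun _ => trivial, h3⟩

theorem BQ.level (hN : 0 < N) (a : BQ 1 h) : BQ N h := by
  obtain ⟨c, Λ, h1, h2, h3⟩ := a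
  refine ⟨fun n => if N ∣ n then c (n / N) else 0, Λ, h1, fun n => ?_, fun τ =>
    Pool.Agent.P.MP_20768c_nt.Tz.EQ.vqs_expand hN ?_⟩
  · beta_reduce
    split_ifs
    exacts [h2 _, zero_mem _]
  · have h4 := Pool.Agent.P.MP_20768c_nt.Tz.EQ.vqs_pow hN 1 τ
    rw [one_mul] at h4
    rw [h4]
    exact h3 τ

theorem BQ.one (hN : 0 < N) (a : BQ N h) (hp : ∀ τ : ℍ, h (ModularGroup.T • τ) = h τ) : BQ 1 h := by
  obtain ⟨c, Λ, hΛ, hc, hc'⟩ := a
  have e : ∀ τ : ℍ, qN N (ModularGroup.T • τ) = Pool.Agent.P.MP_20768c_nt.Tz.EQ.zt N * qN N τ := fun τ => by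
    rw [qN, qN, Pool.Agent.P.MP_20768c_nt.Tz.EQ.zt, modular_T_smul, coe_vadd, ← Complex.exp_add]
    congr 1
    push_cast
    ring
  have h1 := Pool.Agent.P.MP_20768c_nt.Tz.EQ.vqs_unique hN (a := fun n => c n * Pool.Agent.P.MP_20768c_nt.Tz.EQ.zt N ^ n) (fun τ => by
    have h := hc' (ModularGroup.T • τ)
    rw [hp, e] at h
    exact Pool.Agent.P.MP_20768c_nt.Tz.EQ.iq2_congr h fun n => by rw [mul_pow, mul_assoc]) hc'
  have h2 : ∀ n, ¬ N ∣ n → c n = 0 := fun n hn => by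
    by_contra h0
    exact hn (((Complex.isPrimitiveRoot_exp N hN.ne').pow_eq_one_iff_dvd n).1
      (mul_right_eq_self₀.1 (congrFun h1 n) |>.resolve_right h0))
  have hi : Function.Injective fun m : ℕ => N * m := mul_right_injective₀ hN.ne'
  refine ⟨fun m => c (N * m), Λ, hΛ, fun m => hc _, fun τ => ?_⟩
  have h3 := (hi.hasSum_iff fun n hn => by
    rw [h2 n fun ⟨m, hm⟩ => hn ⟨m, hm.symm⟩, zero_mul]).2 (hc' τ)
  refine Pool.Agent.P.MP_20768c_nt.Tz.EQ.iq2_congr h3 fun m => ?_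
  have h4 := Pool.Agent.P.MP_20768c_nt.Tz.EQ.vqs_pow hN 1 τ
  rw [one_mul] at h4
  rw [Function.comp_apply, pow_mul, h4]

theorem bq_of_intQ (a : Pool.Agent.P.MP_20768c_nt.Tz.EQ.IntQ h) : BQ 1 h := by
  obtain ⟨c, hc⟩ := a
  refine ⟨fun n => c n, Submodule.span ℤ {1}, Submodule.fg_span_singleton 1,
    fun n => Submodule.mem_span_singleton.2 ⟨c n, by simp⟩, fun τ => ?_⟩
  have e : qN 1 τ = Pool.Agent.P.MP_20768c_nt.Tz.EQ.qq τ := by simp [qN, Pool.Agent.P.MP_20768c_nt.Tz.EQ.qq]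
  rw [e]
  exact hc τ

theorem BQ.analytic (hN : 0 < N) (a : BQ N h) (τ : ℍ) : AnalyticAt ℂ (h ∘ ofComplex) τ := by
  obtain ⟨c, -, -, -, hc⟩ := a
  have h1 := (Pool.Agent.P.MP_20768c_nt.Tz.EQ.iq2_diff fun q hq =>
    Pool.Agent.P.MP_20768c_nt.Tz.EQ.iq2_summable (Pool.Agent.P.MP_20768c_nt.Tz.EQ.vqs_tr hN hc) hq).analyticAt
    (Metric.isOpen_ball.mem_nhds (mem_ball_zero_iff.2 (Pool.Agent.P.MP_20768c_nt.Tz.EQ.vqs_lt hN τ)))
  have h2 : AnalyticAt ℂ (fun z : ℂ => cexp (2 * π * I * z / N)) τ := by fun_prop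
  refine (h1.comp (f := fun z : ℂ => cexp (2 * π * I * z / N)) h2).congr ?_
  filter_upwards [isOpen_upperHalfPlaneSet.mem_nhds τ.im_pos] with z hz
  rw [Function.comp_apply, Function.comp_apply, ofComplex_apply_of_im_pos hz]
  exact (hc ⟨z, hz⟩).tsum_eq

theorem mem_BR : h ∈ BR ↔ BQ 1 h := by
  refine ⟨fun a => ?_, fun a => Subring.subset_closure a⟩
  induction a using Subring.closure_induction with
  | mem _ a => exact a
  | zero => exact bq_const 1 0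
  | one => exact bq_const 1 1
  | add _ _ _ _ a b => exact a.add b
  | neg _ _ a =>
    have := a.smul (-1)
    simp only [neg_one_mul] at this
    exact this
  | mul _ _ _ _ a b => exact a.mul one_pos b

end Pool.Agent.P.MP_20768c_nt.Tz.Cv

end

-- part Cv.I2
section

set_option autoImplicit false

open Complex NumberField IsDedekindDomain Filter Topology
open UpperHalfPlane hiding I
open scoped ComplexConjugate Real MatrixGroups

namespace Pool.Agent.P.MP_20768c_nt.Tz.Cv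

open Pool.Agent.P.MP_20768c_nt.Tz.EQ (Lt pr sp IsLat jL qN)

variable {N : ℕ} {h h' : ℍ → ℂ}

/-- `w` is the largest value of `v` on the sequence `a` -/
def i2_Mx (v : Valuation ℂ NNReal) (a : ℕ → ℂ) (w : NNReal) : Prop :=
  (∀ n, v (a n) ≤ w) ∧ ∃ n, w = v (a n)

theorem i2_Mx.unique {v : Valuation ℂ NNReal} {a : ℕ → ℂ} {w w' : NNReal} (p : i2_Mx v a w)
    (q : i2_Mx v a w') : w = w' := by
  obtain ⟨p1, n, p2⟩ := p
  obtain ⟨q1, m, q2⟩ := q
  exact le_antisymm (p2 ▸ q1 n) (q2 ▸ p1 m)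

theorem i2_Mx.least {v : Valuation ℂ NNReal} {a : ℕ → ℂ} {w : NNReal} (p : i2_Mx v a w) :
    ∃ i, v (a i) = w ∧ ∀ n < i, v (a n) < w := by
  classical
  exact ⟨Nat.find p.2, (Nat.find_spec p.2).symm, fun n hn =>
    lt_of_le_of_ne (p.1 n) fun e => Nat.find_min p.2 hn e.symm⟩

theorem i2_Mx.mul {v : Valuation ℂ NNReal} {a b : ℕ → ℂ} {w w' : NNReal} (p : i2_Mx v a w)
    (q : i2_Mx v b w') :
    i2_Mx v (fun n => ∑ x ∈ Finset.HasAntidiagonal.antidiagonal n, a x.1 * b x.2) (w * w') := by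
  have hle : ∀ n, v (∑ x ∈ Finset.HasAntidiagonal.antidiagonal n, a x.1 * b x.2) ≤ w * w' :=
    fun n => v.map_sum_le fun x _ => by
      rw [map_mul]
      exact mul_le_mul' (p.1 _) (q.1 _)
  refine ⟨hle, ?_⟩
  rcases eq_or_ne (w * w') 0 with h0 | h0
  · exact ⟨0, le_antisymm (h0 ▸ zero_le) (hle 0)⟩
  obtain ⟨i, hi, hi'⟩ := p.least
  obtain ⟨j, hj, hj'⟩ := q.least
  have hw : 0 < w := pos_iff_ne_zero.2 (left_ne_zero_of_mul h0)
  have hw' : 0 < w' := pos_iff_ne_zero.2 (right_ne_zero_of_mul h0)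
  refine ⟨i + j, ?_⟩
  have e := v.map_sum_eq_of_lt (s := Finset.HasAntidiagonal.antidiagonal (i + j))
    (f := fun x : ℕ × ℕ => a x.1 * b x.2) (j := (i, j)) (by simp) fun x hx => by
      rw [Finset.mem_sdiff, Finset.HasAntidiagonal.mem_antidiagonal, Finset.mem_singleton] at hx
      rw [map_mul, map_mul, hi, hj]
      rcases lt_or_ge x.1 i with h1 | h1
      · exact mul_lt_mul_of_lt_of_le_of_nonneg_of_pos (hi' _ h1) (q.1 _) zero_le hw'
      · have h2 : x.2 < j := by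
          by_contra h3
          exact hx.2 (Prod.ext (by omega) (by omega))
        exact mul_lt_mul_of_le_of_lt_of_nonneg_of_pos (p.1 _) (hj' _ h2) zero_le hw
  rw [e, map_mul, hi, hj]

theorem i2_mx (ι : ℂ →+* ℂ_[3]) {a : ℕ → ℂ} {Λ : Submodule ℤ ℂ} (hΛ : Λ.FG) (ha : ∀ n, a n ∈ Λ) :
    ∃ w, i2_Mx ((NormedField.valuation (K := ℂ_[3])).comap ι) a w := by
  obtain ⟨_, ⟨n, rfl⟩, hn⟩ := fg_max (hΛ.map ι.toAddMonoidHom.toIntLinearMap)
    (T := Set.range fun n => ι (a n)) (by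
      rintro _ ⟨n, rfl⟩
      exact ⟨a n, ha n, rfl⟩) (Set.range_nonempty _)
  exact ⟨_, fun m => hn _ ⟨m, rfl⟩, n, rfl⟩

noncomputable section

def i2_co (x : BR) : ℕ → ℂ := (mem_BR.1 x.2).choose

theorem i2_sum (x : BR) (τ : ℍ) : HasSum (fun n => i2_co x n * qN 1 τ ^ n) (x.1 τ) :=
  (mem_BR.1 x.2).choose_spec.choose_spec.2.2 τ

theorem i2_fg (x : BR) : ∃ Λ : Submodule ℤ ℂ, Λ.FG ∧ ∀ n, i2_co x n ∈ Λ :=
  ⟨_, (mem_BR.1 x.2).choose_spec.choose_spec.1, (mem_BR.1 x.2).choose_spec.choose_spec.2.1⟩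

theorem i2_eq (x : BR) {a : ℕ → ℂ} (ha : ∀ τ : ℍ, HasSum (fun n => a n * qN 1 τ ^ n) (x.1 τ)) :
    i2_co x = a :=
  Pool.Agent.P.MP_20768c_nt.Tz.EQ.vqs_unique one_pos (i2_sum x) ha

theorem i2_add (x y : BR) : i2_co (x + y) = fun n => i2_co x n + i2_co y n :=
  i2_eq _ fun τ => by simpa only [add_mul] using! (i2_sum x τ).add (i2_sum y τ)

theorem i2_mul (x y : BR) : i2_co (x * y) =
    fun n => ∑ p ∈ Finset.HasAntidiagonal.antidiagonal n, i2_co x p.1 * i2_co y p.2 :=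
  i2_eq _ fun τ => Pool.Agent.P.MP_20768c_nt.Tz.EQ.vqs_cauchy (i2_sum x τ) (i2_sum y τ)

theorem i2_zero : i2_co 0 = fun _ => 0 :=
  i2_eq _ fun τ => by simp

theorem i2_one : i2_co 1 = fun n => if n = 0 then 1 else 0 :=
  i2_eq _ fun τ => by simpa using Pool.Agent.P.MP_20768c_nt.Tz.EQ.vqs_single 0 1 (qN 1 τ)

def i2_w (ι : ℂ →+* ℂ_[3]) (x : BR) : NNReal :=
  (i2_mx ι (i2_fg x).choose_spec.1 (i2_fg x).choose_spec.2).choose

theorem i2_w_spec (ι : ℂ →+* ℂ_[3]) (x : BR) :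
    i2_Mx ((NormedField.valuation (K := ℂ_[3])).comap ι) (i2_co x) (i2_w ι x) :=
  (i2_mx ι (i2_fg x).choose_spec.1 (i2_fg x).choose_spec.2).choose_spec

/-- the Gauss valuation -/
def i2_W (ι : ℂ →+* ℂ_[3]) : Valuation BR NNReal where
  toFun := i2_w ι
  map_zero' := (i2_w_spec ι 0).unique (by
    rw [i2_zero]
    exact ⟨fun _ => (map_zero _).le, 0, (map_zero _).symm⟩)
  map_one' := (i2_w_spec ι 1).unique (by
    rw [i2_one]
    refine ⟨fun n => ?_, 0, by simp⟩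
    beta_reduce
    split_ifs <;> simp)
  map_mul' x y := (i2_w_spec ι (x * y)).unique (by
    rw [i2_mul]
    exact (i2_w_spec ι x).mul (i2_w_spec ι y))
  map_add_le_max' x y := by
    obtain ⟨n, hn⟩ := (i2_w_spec ι (x + y)).2
    refine hn.le.trans ?_
    rw [i2_add]
    exact (Valuation.map_add _ _ _).trans
      (max_le_max ((i2_w_spec ι x).1 n) ((i2_w_spec ι y).1 n))

theorem i2_W_eq (ι : ℂ →+* ℂ_[3]) {x : BR} (hx : i2_W ι x = 0) : x = 0 := by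
  have h1 : ∀ n, i2_co x n = 0 := fun n => by
    have h2 := ((i2_w_spec ι x).1 n).trans (le_of_eq hx)
    exact (Valuation.zero_iff _).1 (le_antisymm h2 zero_le)
  refine Subtype.ext (funext fun τ => (i2_sum x τ).unique ?_)
  simp [h1]

theorem i2_dom (ι : ℂ →+* ℂ_[3]) : IsDomain BR := by
  have : Nontrivial BR := ⟨0, 1, fun e => by simpa using congrArg (i2_W ι) e⟩
  have : NoZeroDivisors BR := ⟨fun {x y} e => by
    have h1 := congrArg (i2_W ι) e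
    rw [map_mul, map_zero, mul_eq_zero] at h1
    exact h1.imp (i2_W_eq ι) (i2_W_eq ι)⟩
  exact NoZeroDivisors.to_isDomain _

theorem i2_der (x : BR) (τ : ℍ) : HasSum (fun n : ℕ => (n * i2_co x n) * qN 1 τ ^ n)
    (deriv (x.1 ∘ ofComplex) τ / (2 * π * I)) := by
  have hq : ∀ σ : ℍ, qN 1 σ = cexp (2 * π * I * σ) := fun σ => by simp [qN]
  have hn : ∀ w : ℂ, ‖cexp (2 * π * I * w)‖ = Real.exp (-(2 * π * w.im)) := fun w => by
    rw [Complex.norm_exp]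
    simp
  have hp : 0 < (τ : ℂ).im := τ.im_pos
  let σ : ℍ := ⟨τ / 2, by simpa using hp⟩
  have hσ : (σ : ℂ).im = (τ : ℂ).im / 2 := by simp [σ]
  have hU : IsOpen {w : ℂ | (τ : ℂ).im / 2 < w.im} := isOpen_lt continuous_const Complex.continuous_im
  have hτ : (τ : ℂ) ∈ {w : ℂ | (τ : ℂ).im / 2 < w.im} := half_lt_self hp
  have h1 := Complex.hasSum_deriv_of_summable_norm
    (F := fun n w => i2_co x n * cexp (2 * π * I * w) ^ n) (i2_sum x σ).summable.norm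
    (fun n => by fun_prop) hU (fun n w hw => by
      rw [norm_mul, norm_mul, norm_pow, norm_pow, hq, hn, hn, hσ]
      have hw' : (τ : ℂ).im / 2 < w.im := hw
      gcongr) hτ
  have h2 : (fun w : ℂ => ∑' n, i2_co x n * cexp (2 * π * I * w) ^ n) =ᶠ[𝓝 (τ : ℂ)]
      x.1 ∘ ofComplex := by
    filter_upwards [hU.mem_nhds hτ] with w hw
    have hw' : 0 < w.im := (half_pos hp).trans hw
    rw [Function.comp_apply, ofComplex_apply_of_im_pos hw', ← (i2_sum x ⟨w, hw'⟩).tsum_eq, hq]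
  rw [h2.deriv_eq] at h1
  refine Pool.Agent.P.MP_20768c_nt.Tz.EQ.iq2_congr (h1.div_const (2 * π * I)) fun n => ?_
  have h3 : HasDerivAt (fun w : ℂ => i2_co x n * cexp (n * (2 * π * I * w)))
      (i2_co x n * (cexp (n * (2 * π * I * τ)) * (n * (2 * π * I * 1)))) τ :=
    ((((hasDerivAt_id (τ : ℂ)).const_mul _).const_mul _).cexp).const_mul _
  simp only [Complex.exp_nat_mul] at h3
  rw [h3.deriv, hq, eq_div_iff Complex.two_pi_I_ne_zero]
  ring

def i2_d (x : BR) : BR :=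
  ⟨fun τ => deriv (x.1 ∘ ofComplex) τ / (2 * π * I), mem_BR.2 ⟨fun n => n * i2_co x n, _,
    (i2_fg x).choose_spec.1, fun n => by
      beta_reduce
      rw [← nsmul_eq_mul]
      exact nsmul_mem ((i2_fg x).choose_spec.2 n) n, i2_der x⟩⟩

theorem i2_d_le (ι : ℂ →+* ℂ_[3]) (x : BR) : i2_W ι (i2_d x) ≤ i2_W ι x := by
  obtain ⟨n, hn⟩ := (i2_w_spec ι (i2_d x)).2
  refine hn.le.trans ?_
  rw [i2_eq (i2_d x) (i2_der x), map_mul]
  refine mul_le_of_le_one_left' ?_ |>.trans ((i2_w_spec ι x).1 n)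
  rw [Valuation.comap_apply, map_natCast]
  exact IsUltrametricDist.nnnorm_natCast_le_one _ n

def i2_g (z : ℂ) : BR →+* Filter.Germ (𝓝[≠] z) ℂ :=
  (Filter.Germ.coeRingHom _).comp
    ((RingHom.pi fun w : ℂ => Pi.evalRingHom (fun _ : ℍ => ℂ) (ofComplex w)).comp BR.subtype)

theorem i2_g_apply (z : ℂ) (x : BR) :
    i2_g z x = ((x.1 ∘ ofComplex : ℂ → ℂ) : Filter.Germ (𝓝[≠] z) ℂ) := rfl

theorem i2_an (x : BR) {w : ℂ} (hw : 0 < w.im) : AnalyticAt ℂ (x.1 ∘ ofComplex) w :=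
  (mem_BR.1 x.2).analytic one_pos ⟨w, hw⟩

theorem i2_ne (τ : ℍ) {x : BR} (hx : x ≠ 0) :
    ∀ᶠ w in 𝓝[≠] (τ : ℂ), (x.1 ∘ ofComplex) w ≠ 0 := by
  refine (i2_an x τ.im_pos).eventually_eq_zero_or_eventually_ne_zero.resolve_left fun h0 => hx ?_
  have h1 := AnalyticOnNhd.eqOn_zero_of_preconnected_of_eventuallyEq_zero
    (U := {w : ℂ | 0 < w.im}) (fun w hw => i2_an x hw) (convex_halfSpace_im_gt 0).isPreconnected
    τ.im_pos h0
  refine Subtype.ext (funext fun σ => ?_)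
  simpa using h1 σ.im_pos

theorem i2_unit (τ : ℍ) {x : BR} (hx : x ≠ 0) : IsUnit (i2_g τ x) := by
  refine IsUnit.of_mul_eq_one ((fun w => ((x.1 ∘ ofComplex) w)⁻¹ : ℂ → ℂ) :
    Filter.Germ (𝓝[≠] (τ : ℂ)) ℂ) ?_
  rw [i2_g_apply, ← Filter.Germ.coe_mul, ← Filter.Germ.coe_one, Filter.Germ.coe_eq]
  filter_upwards [i2_ne τ hx] with w hw
  exact mul_inv_cancel₀ hw

theorem i2_ev {z : ℂ} {p : ℂ → Prop} (hp : ∀ᶠ w in 𝓝[≠] z, p w) :
    ∀ᶠ w in 𝓝[≠] z, ∀ᶠ u in 𝓝 w, p u := by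
  filter_upwards [eventually_eventually_nhdsWithin.2 hp, self_mem_nhdsWithin] with w h1 h2
  rwa [isOpen_compl_singleton.nhdsWithin_eq h2] at h1

theorem i2_quo (τ : ℍ) {a b : BR} (hb : b ≠ 0) {X : ℂ → ℂ}
    (hX : (X : Filter.Germ (𝓝[≠] (τ : ℂ)) ℂ) * i2_g τ b = i2_g τ a) :
    (∀ᶠ w in 𝓝[≠] (τ : ℂ), DifferentiableAt ℂ X w) ∧
      ((fun w => deriv X w / (2 * π * I) : ℂ → ℂ) : Filter.Germ (𝓝[≠] (τ : ℂ)) ℂ) *
        i2_g τ (b * b) = i2_g τ (i2_d a * b - a * i2_d b) := by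
  rw [i2_g_apply, i2_g_apply, ← Filter.Germ.coe_mul, Filter.Germ.coe_eq] at hX
  have h0 : ∀ᶠ w in 𝓝[≠] (τ : ℂ), 0 < w.im :=
    nhdsWithin_le_nhds ((isOpen_lt continuous_const Complex.continuous_im).mem_nhds τ.im_pos)
  have h1 : ∀ᶠ w in 𝓝[≠] (τ : ℂ), X w = (a.1 ∘ ofComplex / b.1 ∘ ofComplex) w := by
    filter_upwards [hX, i2_ne τ hb] with w h2 h3
    exact eq_div_of_mul_eq h3 h2
  have h2 : ∀ᶠ w in 𝓝[≠] (τ : ℂ), HasDerivAt X ((deriv (a.1 ∘ ofComplex) w * (b.1 ∘ ofComplex) w -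
      (a.1 ∘ ofComplex) w * deriv (b.1 ∘ ofComplex) w) / (b.1 ∘ ofComplex) w ^ 2) w := by
    filter_upwards [i2_ev h1, i2_ne τ hb, h0] with w h3 h4 h5
    exact ((i2_an a h5).differentiableAt.hasDerivAt.div (i2_an b h5).differentiableAt.hasDerivAt
      h4).congr_of_eventuallyEq h3
  refine ⟨h2.mono fun w hw => hw.differentiableAt, ?_⟩
  rw [i2_g_apply, i2_g_apply, ← Filter.Germ.coe_mul, Filter.Germ.coe_eq]
  filter_upwards [h2, i2_ne τ hb, h0] with w h3 h4 h5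
  have h6 : ((ofComplex w : ℍ) : ℂ) = w := by rw [ofComplex_apply_of_im_pos h5]
  change deriv X w / (2 * π * I) * ((b.1 ∘ ofComplex) w * (b.1 ∘ ofComplex) w) =
    deriv (a.1 ∘ ofComplex) (ofComplex w : ℍ) / (2 * π * I) * (b.1 ∘ ofComplex) w -
      (a.1 ∘ ofComplex) w * (deriv (b.1 ∘ ofComplex) (ofComplex w : ℍ) / (2 * π * I))
  rw [h3.deriv, h6, ← sq, div_mul_eq_mul_div, div_mul_cancel₀ _ (pow_ne_zero 2 h4)]
  ring

end

theorem exists_vd (ι : ℂ →+* ℂ_[3]) (τ : ℍ) : ∃ (F : Type) (_ : Field F),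
    Nonempty (VD ((NormedField.valuation (K := ℂ_[3])).comap ι) τ F) := by
  have := i2_dom ι
  have hS : nonZeroDivisors BR ≤ (i2_W ι).supp.primeCompl := fun x hx h0 =>
    nonZeroDivisors.ne_zero hx (i2_W_eq ι h0)
  have hu : ∀ y : nonZeroDivisors BR, IsUnit (i2_g τ y) := fun y =>
    i2_unit τ (nonZeroDivisors.ne_zero y.2)
  obtain ⟨g, hg⟩ : ∃ g : FractionRing BR →+* Filter.Germ (𝓝[≠] (τ : ℂ)) ℂ,
      ∀ x, g (algebraMap BR _ x) = i2_g τ x := ⟨IsLocalization.lift hu, IsLocalization.lift_eq hu⟩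
  obtain ⟨V, hV⟩ : ∃ V : Valuation (FractionRing BR) NNReal,
      ∀ x, V (algebraMap BR _ x) = i2_W ι x :=
    ⟨(i2_W ι).extendToLocalization hS _, Valuation.extendToLocalization_apply_map_apply _ hS _⟩
  have key : ∀ x : FractionRing BR, ∃ y, V y ≤ V x ∧ ∀ X : ℂ → ℂ, g x = X →
      (∀ᶠ w in 𝓝[≠] (τ : ℂ), DifferentiableAt ℂ X w) ∧
        g y = ((fun w => deriv X w / (2 * π * I) : ℂ → ℂ) : Filter.Germ (𝓝[≠] (τ : ℂ)) ℂ) := by
    intro x
    obtain ⟨a, b, hb, rfl⟩ := IsFractionRing.div_surjective BR x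
    have hb0 : b ≠ 0 := nonZeroDivisors.ne_zero hb
    have hb1 : algebraMap BR (FractionRing BR) b ≠ 0 := by simpa using hb0
    have hb2 : 0 < i2_W ι b := pos_iff_ne_zero.2 fun e => hb0 (i2_W_eq ι e)
    refine ⟨algebraMap BR _ (i2_d a * b - a * i2_d b) / algebraMap BR _ (b * b), ?_,
      fun X hX => ?_⟩
    · rw [map_div₀, map_div₀, hV, hV, hV, hV, map_mul, ← div_div, div_le_div_iff_of_pos_right hb2,
        div_le_iff₀ hb2]
      refine (Valuation.map_sub _ _ _).trans (max_le ?_ ?_) <;> rw [map_mul]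
      exacts [mul_le_mul' (i2_d_le ι a) le_rfl, mul_le_mul' le_rfl (i2_d_le ι b)]
    · obtain ⟨h1, h2⟩ := i2_quo τ (a := a) hb0 (X := X)
        (by rw [← hX, ← hg, ← hg, ← map_mul, div_mul_cancel₀ _ hb1])
      refine ⟨h1, (i2_unit τ (mul_ne_zero hb0 hb0)).mul_right_cancel ?_⟩
      rw [h2, ← hg, ← hg, ← map_mul, div_mul_cancel₀]
      rw [map_mul]
      exact mul_ne_zero hb1 hb1
  choose D hD1 hD2 using key
  have hrep : ∀ x, ∃ X : ℂ → ℂ, g x = X := fun x =>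
    Filter.Germ.inductionOn (g x) fun X => ⟨X, rfl⟩
  refine ⟨FractionRing BR, inferInstance, ⟨⟨g, V, D, fun x y => g.injective ?_,
    fun x y => g.injective ?_, hD1, fun x X hX => (hD2 x X hX).2, fun u a Λ h1 h2 h3 => ?_⟩⟩⟩
  · obtain ⟨X, hX⟩ := hrep x
    obtain ⟨Y, hY⟩ := hrep y
    rw [map_add, (hD2 x X hX).2, (hD2 y Y hY).2,
      (hD2 (x + y) (X + Y) (by rw [map_add, hX, hY, Filter.Germ.coe_add])).2,
      ← Filter.Germ.coe_add, Filter.Germ.coe_eq]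
    filter_upwards [(hD2 x X hX).1, (hD2 y Y hY).1] with w h1 h2
    rw [deriv_add h1 h2, add_div, Pi.add_apply]
  · obtain ⟨X, hX⟩ := hrep x
    obtain ⟨Y, hY⟩ := hrep y
    rw [map_add, map_mul, map_mul, (hD2 x X hX).2, (hD2 y Y hY).2,
      (hD2 (x * y) (X * Y) (by rw [map_mul, hX, hY, Filter.Germ.coe_mul])).2, hX, hY,
      ← Filter.Germ.coe_mul, ← Filter.Germ.coe_mul, ← Filter.Germ.coe_add, Filter.Germ.coe_eq]
    filter_upwards [(hD2 x X hX).1, (hD2 y Y hY).1] with w h1 h2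
    rw [deriv_mul h1 h2, Pi.add_apply, Pi.mul_apply, Pi.mul_apply]
    ring
  · have hu' : u ∈ BR := mem_BR.2 ⟨a, Λ, h1, h2, h3⟩
    refine ⟨algebraMap BR _ ⟨u, hu'⟩, hg _, ?_⟩
    rw [hV, ← i2_eq ⟨u, hu'⟩ h3]
    exact i2_w_spec ι _

end Pool.Agent.P.MP_20768c_nt.Tz.Cv

end

-- part Cv.I3a_p
section

set_option autoImplicit false

open Complex NumberField IsDedekindDomain Filter Topology
open UpperHalfPlane hiding I
open scoped ComplexConjugate Real MatrixGroups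

namespace Pool.Agent.P.MP_20768c_nt.Tz.Cv

open Pool.Agent.P.MP_20768c_nt.Tz.EQ (Lt pr sp IsLat jL qN)

variable {M : ℕ} {h h' : ℍ → ℂ}

theorem Mer0.add (a : Mer0 M h) (b : Mer0 M h') : Mer0 M fun τ => h τ + h' τ := by
  refine ⟨fun τ => (a.1 τ).add (b.1 τ), fun g => ?_⟩
  obtain ⟨H, h1, h2⟩ := a.2 g
  obtain ⟨K, k1, k2⟩ := b.2 g
  refine ⟨H + K, h1.add k1, ?_⟩
  filter_upwards [h2, k2] with τ e1 e2
  rw [e1, e2, Pi.add_apply]

theorem Mer0.mul (a : Mer0 M h) (b : Mer0 M h') : Mer0 M fun τ => h τ * h' τ := by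
  refine ⟨fun τ => (a.1 τ).mul (b.1 τ), fun g => ?_⟩
  obtain ⟨H, h1, h2⟩ := a.2 g
  obtain ⟨K, k1, k2⟩ := b.2 g
  refine ⟨H * K, h1.mul k1, ?_⟩
  filter_upwards [h2, k2] with τ e1 e2
  rw [e1, e2, Pi.mul_apply]

theorem mer0_const (M : ℕ) (c : ℂ) : Mer0 M fun _ => c :=
  ⟨fun τ => MeromorphicAt.const c (τ : ℂ), fun _ => ⟨fun _ => c, MeromorphicAt.const c 0,
    Eventually.of_forall fun _ => rfl⟩⟩

theorem Mer0.smul (a : Mer0 M h) (g : SL(2, ℤ)) : Mer0 M fun τ => h (g • τ) := by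
  refine ⟨fun τ => ?_, fun g' => ?_⟩
  · have h1 : AnalyticAt ℂ (fun z : ℂ => ((g • ofComplex z : ℍ) : ℂ)) τ :=
      analyticAt_smul (g := (g : GL (Fin 2) ℝ)) (by
        have h0 : 0 < (g : GL (Fin 2) ℝ).det.val := by simp
        simpa only [Matrix.GeneralLinearGroup.val_det_apply] using h0) τ
    have h2 : MeromorphicAt (h ∘ ofComplex) ((fun z : ℂ => ((g • ofComplex z : ℍ) : ℂ)) τ) := by
      simpa only [ofComplex_apply] using a.1 (g • τ)
    have h3 := MeromorphicAt.comp_analyticAt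
      (g := fun z : ℂ => ((g • ofComplex z : ℍ) : ℂ)) h2 h1
    refine h3.congr (Eventually.of_forall fun w => ?_)
    simp only [Function.comp_apply, ofComplex_apply]
  · obtain ⟨H, h1, h2⟩ := a.2 (g * g')
    refine ⟨H, h1, ?_⟩
    simpa only [mul_smul] using h2

theorem i3a_p_fun (hM : 0 < M) (a : Pool.Agent.P.MP_20768c_nt.Tz.EQ.QS M ⊤ h) :
    ∃ H : ℂ → ℂ, AnalyticOnNhd ℂ H (Metric.ball 0 1) ∧ ∀ τ : ℍ, h τ = H (qN M τ) := by
  obtain ⟨c, -, hc⟩ := a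
  have h1 := Pool.Agent.P.MP_20768c_nt.Tz.EQ.iq2_diff fun q hq =>
    Pool.Agent.P.MP_20768c_nt.Tz.EQ.iq2_summable (Pool.Agent.P.MP_20768c_nt.Tz.EQ.vqs_tr hM hc) hq
  exact ⟨_, h1.analyticOnNhd Metric.isOpen_ball, fun τ => (hc τ).tsum_eq.symm⟩

theorem i3a_p_quot (hM : 0 < M) {m : ℕ}
    (a : Pool.Agent.P.MP_20768c_nt.Tz.EQ.QS M ⊤ fun τ => ModularForm.discriminant τ ^ m * h τ) :
    ∃ H : ℂ → ℂ, MeromorphicOn H (Metric.ball 0 1) ∧ ∀ τ : ℍ, h τ = H (qN M τ) := by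
  obtain ⟨H, h1, h2⟩ := i3a_p_fun hM a
  obtain ⟨K, k1, k2⟩ := i3a_p_fun hM (Pool.Agent.P.MP_20768c_nt.Tz.EQ.vmf_disc (L := ⊤) hM m)
  refine ⟨H / K, h1.meromorphicOn.div k1.meromorphicOn, fun τ => ?_⟩
  rw [Pi.div_apply, ← h2, ← k2,
    mul_div_cancel_left₀ _ (pow_ne_zero _ (ModularForm.discriminant_ne_zero _))]

theorem mer0_of_MF (hM : 0 < M) (a : h ∈ Pool.Agent.P.MP_20768c_nt.Tz.EQ.MF M ⊤) : Mer0 M h := by
  obtain ⟨-, m, hm⟩ := Pool.Agent.P.MP_20768c_nt.Tz.EQ.isMF_iff.1 a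
  refine ⟨fun τ => ?_, fun g => ?_⟩
  · obtain ⟨H, h1, h2⟩ := i3a_p_quot hM (hm 1)
    have h3 : AnalyticAt ℂ (fun w : ℂ => cexp (2 * π * I * w / M)) τ := by fun_prop
    have h4 : MeromorphicAt H ((fun w : ℂ => cexp (2 * π * I * w / M)) τ) :=
      h1 _ (mem_ball_zero_iff.2 (Pool.Agent.P.MP_20768c_nt.Tz.EQ.vqs_lt hM τ))
    refine (MeromorphicAt.comp_analyticAt (g := fun w : ℂ => cexp (2 * π * I * w / M)) h4 h3).congr
      (eventually_nhdsWithin_of_eventually_nhds ?_)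
    filter_upwards [isOpen_upperHalfPlaneSet.mem_nhds τ.im_pos] with w hw
    have h5 := h2 ⟨w, hw⟩
    rw [one_smul] at h5
    rw [Function.comp_apply, Function.comp_apply, ofComplex_apply_of_im_pos hw, h5]
    rfl
  · obtain ⟨H, h1, h2⟩ := i3a_p_quot hM (hm g)
    exact ⟨H, h1 0 (Metric.mem_ball_self one_pos), Eventually.of_forall h2⟩

end Pool.Agent.P.MP_20768c_nt.Tz.Cv

end

-- part Cv.I4_p
section

set_option autoImplicit false

open Complex NumberField IsDedekindDomain Filter Topology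
open UpperHalfPlane hiding I
open scoped ComplexConjugate Real MatrixGroups

namespace Pool.Agent.P.MP_20768c_nt.Tz.Cv

open Pool.Agent.P.MP_20768c_nt.Tz.EQ (Lt pr sp IsLat jL qN)

theorem i4p_fib (n : ℕ) : Finite ((fun p : ℕ+ × ℕ+ => (p.1 * p.2 : ℕ)) ⁻¹' {n}) := by
  refine Set.Finite.to_subtype (Set.Finite.of_injOn (f := fun p : ℕ+ × ℕ+ => ((p.1 : ℕ), (p.2 : ℕ)))
    (t := Set.Iic n ×ˢ Set.Iic n) (fun p hp => ?_) (fun p _ q _ e => ?_)
    ((Set.finite_Iic n).prod (Set.finite_Iic n)))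
  · have e : (p.1 * p.2 : ℕ) = n := hp
    exact ⟨e ▸ Nat.le_mul_of_pos_right _ p.2.2, e ▸ Nat.le_mul_of_pos_left _ p.1.2⟩
  · exact Prod.ext (PNat.eq (congrArg Prod.fst e)) (PNat.eq (congrArg Prod.snd e))

theorem i4p_sum {k : ℕ} {w : ℕ+ × ℕ+ → ℂ} (hw : ∀ p, ‖w p‖ ≤ (p.2 : ℝ) ^ k) {q : ℂ}
    (hq : ‖q‖ < 1) : Summable fun p : ℕ+ × ℕ+ => w p * q ^ (p.1 * p.2 : ℕ) := by
  refine Summable.of_norm_bounded (summable_prod_mul_pow k (r := ‖q‖) (by simpa using hq))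
    fun p => ?_
  rw [norm_mul, norm_pow]
  exact mul_le_mul_of_nonneg_right (hw p) (by positivity)

theorem i4p_bq {M k : ℕ} (hM : 0 < M) {w : ℕ+ × ℕ+ → ℂ} (hw : ∀ p, ‖w p‖ ≤ (p.2 : ℝ) ^ k)
    (Λ : Submodule ℤ ℂ) (hΛ : Λ.FG) (hm : ∀ p, w p ∈ Λ) :
    BQ M fun τ => ∑' p : ℕ+ × ℕ+, w p * qN M τ ^ (p.1 * p.2 : ℕ) := by
  refine ⟨fun n => ∑' p : (fun p : ℕ+ × ℕ+ => (p.1 * p.2 : ℕ)) ⁻¹' {n}, w p, Λ, hΛ,
    fun n => ?_, fun τ => ?_⟩
  · have := i4p_fib n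
    have := Fintype.ofFinite ((fun p : ℕ+ × ℕ+ => (p.1 * p.2 : ℕ)) ⁻¹' {n})
    simp only [tsum_fintype]
    exact Λ.sum_mem fun p _ => hm p
  · have h := (i4p_sum hw (Pool.Agent.P.MP_20768c_nt.Tz.EQ.vqs_lt hM τ)).hasSum.tsum_fiberwise
      fun p : ℕ+ × ℕ+ => (p.1 * p.2 : ℕ)
    refine (congrArg (fun f => HasSum f _) (funext fun n => ?_)).mp h
    rw [← tsum_mul_right]
    refine tsum_congr fun p => ?_
    rw [show (p.1.1 * p.1.2 : ℕ) = n from p.2]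

/-- One row of the double sum. -/
noncomputable def i4pR (M k : ℕ) (d : ℤ) (τ : ℍ) (u : ℤ) : ℂ :=
  ∑' n : ℤ, ((((u : ℂ) * τ + d) / M + n) ^ k)⁻¹

theorem i4p_row {M k : ℕ} (hM : 0 < M) (hk : 1 ≤ k) (d : ℤ) (τ : ℍ) (u : ℕ+) :
    i4pR M (k + 1) d τ u = (-2 * π * I) ^ (k + 1) / (k.factorial : ℂ) *
      ∑' j : ℕ+, ((j : ℕ) : ℂ) ^ k * cexp (2 * π * I * d / M) ^ (j : ℕ) *
        qN M τ ^ (u * j : ℕ) := by
  have hz : 0 < ((((u : ℤ) : ℂ) * τ + d) / M).im := by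
    have h1 : (0 : ℝ) < M := by exact_mod_cast hM
    have h2 : (0 : ℝ) < (u : ℕ) := by exact_mod_cast u.2
    rw [div_natCast_im]
    simpa using div_pos (mul_pos h2 τ.im_pos) h1
  have h := EisensteinSeries.qExpansion_identity_pnat hk ⟨_, hz⟩
  simp only [one_div] at h
  refine h.trans (congrArg _ (tsum_congr fun j => ?_))
  rw [mul_assoc _ (_ ^ _) (_ ^ _), qN, pow_mul, ← mul_pow, ← Complex.exp_nat_mul _ (u : ℕ),
    ← Complex.exp_add]
  congr 3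
  push_cast
  ring

theorem i4p_neg (M k : ℕ) (d : ℤ) (τ : ℍ) (u : ℤ) :
    i4pR M k d τ (-u) = (-1) ^ k * i4pR M k (-d) τ u := by
  rw [i4pR, i4pR, ← tsum_mul_left, ← (Equiv.neg ℤ).tsum_eq]
  refine tsum_congr fun n => ?_
  have e : (((-u : ℤ) : ℂ) * τ + d) / M + ((Equiv.neg ℤ n : ℤ) : ℂ) =
      -1 * ((((u : ℂ) * τ + (-d : ℤ)) / M + n)) := by
    rw [Equiv.neg_apply]
    push_cast
    ring
  rw [e, mul_pow, mul_inv, ← inv_pow, inv_neg_one]

theorem i4p_half {M k : ℕ} (hM : 0 < M) (hk : 1 ≤ k) (d : ℤ) (P : ℕ+ → Prop) [DecidablePred P] :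
    BQ M fun τ => ∑' u : ℕ+, (if P u then 1 else 0) * i4pR M (k + 1) d τ u := by
  set ζ := cexp (2 * π * I * d / M) with hζ
  have hζ1 : ζ ^ M = 1 := by
    have : (M : ℂ) ≠ 0 := by exact_mod_cast hM.ne'
    rw [hζ, ← Complex.exp_nat_mul, ← Complex.exp_int_mul_two_pi_mul_I d]
    congr 1
    field_simp
  have hn : ‖ζ‖ = 1 := norm_eq_one_of_pow_eq_one hζ1 hM.ne'
  have hi : IsIntegral ℤ ζ := IsIntegral.of_pow hM (by rw [hζ1]; exact isIntegral_one)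
  let w : ℕ+ × ℕ+ → ℂ := fun p => (if P p.1 then 1 else 0) * (((p.2 : ℕ) : ℂ) ^ k * ζ ^ (p.2 : ℕ))
  have hw : ∀ p, ‖w p‖ ≤ (p.2 : ℝ) ^ k := fun p => by
    simp only [w]
    split_ifs
    · simp [hn]
    · simp
  have hm : ∀ p, w p ∈ Algebra.adjoin ℤ {ζ} := fun p => by
    have h1 : ζ ∈ Algebra.adjoin ℤ {ζ} := Algebra.subset_adjoin rfl
    have h2 : ((p.2 : ℕ) : ℂ) ∈ Algebra.adjoin ℤ {ζ} := natCast_mem _ _
    have h3 := mul_mem (pow_mem h2 k) (pow_mem h1 (p.2 : ℕ))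
    simp only [w]
    split_ifs
    · rwa [one_mul]
    · rw [zero_mul]
      exact zero_mem _
  have h := (i4p_bq hM hw _ hi.fg_adjoin_singleton hm).smul
    ((-2 * π * I) ^ (k + 1) / (k.factorial : ℂ))
  refine (congrArg (BQ M) (funext fun τ => ?_)).mp h
  rw [(i4p_sum hw (Pool.Agent.P.MP_20768c_nt.Tz.EQ.vqs_lt hM τ)).tsum_prod, ← tsum_mul_left]
  refine tsum_congr fun u => ?_
  rw [i4p_row hM hk, mul_left_comm, ← tsum_mul_left (a := if P u then 1 else 0)]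
  exact congrArg _ (tsum_congr fun j => mul_assoc _ _ _)

theorem i4p_summable {M k : ℕ} (hM : 0 < M) (hk : 3 ≤ k) (d : ℤ) (τ : ℍ) :
    Summable fun p : ℤ × ℤ => ((((p.1 : ℂ) * τ + d) / M + p.2) ^ k)⁻¹ := by
  have hM' : (M : ℂ) ≠ 0 := by exact_mod_cast hM.ne'
  have hi : Function.Injective fun p : ℤ × ℤ => (p.1, d + M * p.2) := fun p q e =>
    Prod.ext (Prod.mk.inj e).1 (mul_left_cancel₀ (by exact_mod_cast hM.ne' : (M : ℤ) ≠ 0)
      (add_left_cancel (Prod.mk.inj e).2))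
  refine (((summable_prod_eisSummand hk τ).comp_injective hi).mul_left ((M : ℂ) ^ k)).congr
    fun p => ?_
  have e : ((p.1 : ℂ) * τ + d) / M + p.2 = ((p.1 : ℂ) * τ + (d + M * p.2 : ℤ)) / M := by
    push_cast
    field_simp
    ring
  rw [e, div_pow, inv_div, div_eq_mul_inv]
  simp [EisensteinSeries.eisSummand]

/-- The lattice as pairs of integers. -/
noncomputable def i4pE (τ : ℍ) : ℤ × ℤ ≃ sp 1 (τ : ℂ) :=
  Equiv.ofBijective
    (fun p => ⟨p.1 * τ + p.2, Pool.Agent.P.MP_20768c_nt.Tz.EQ.mem_sp.2 ⟨p.2, p.1, by ring⟩⟩) (by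
    constructor
    · intro p q e
      have e' : (p.1 : ℂ) * τ + p.2 = q.1 * τ + q.2 := congrArg Subtype.val e
      obtain ⟨h1, h2⟩ := Pool.Agent.P.MP_20768c_nt.Tz.EQ.int_indep_lat τ (p := p.1 - q.1) (q := p.2 - q.2)
        (by push_cast; linear_combination e')
      exact Prod.ext (sub_eq_zero.1 h1) (sub_eq_zero.1 h2)
    · rintro ⟨v, hv⟩
      obtain ⟨m, n, rfl⟩ := Pool.Agent.P.MP_20768c_nt.Tz.EQ.mem_sp.1 hv
      exact ⟨(n, m), Subtype.ext (by simp only; ring)⟩)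

open Classical in
theorem i4p_split {M k : ℕ} (hM : 0 < M) (hk : 3 ≤ k) (c d : ℤ) (τ : ℍ) :
    ∑' l : sp 1 (τ : ℂ), ((((c : ℂ) * τ + d) / M + l) ^ k)⁻¹ =
      ∑' u : ℤ, (if ∃ a : ℤ, c + M * a = u then 1 else 0) * i4pR M k d τ u := by
  have hM' : (M : ℂ) ≠ 0 := by exact_mod_cast hM.ne'
  have hj : Function.Injective fun a : ℤ => c + M * a := fun a b e =>
    mul_left_cancel₀ (by exact_mod_cast hM.ne' : (M : ℤ) ≠ 0) (add_left_cancel e)
  have hi : Function.Injective fun p : ℤ × ℤ => (c + M * p.1, p.2) := fun p q e =>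
    Prod.ext (hj (Prod.mk.inj e).1) (Prod.mk.inj e).2
  have hs := (i4p_summable hM hk d τ).comp_injective hi
  rw [← (i4pE τ).tsum_eq, ← hj.tsum_eq (f := fun u =>
    (if ∃ a : ℤ, c + M * a = u then 1 else 0) * i4pR M k d τ u) fun u hu => by
      by_contra h
      have h' : ¬ ∃ a : ℤ, c + M * a = u := h
      exact hu (by simp only; rw [if_neg h', zero_mul])]
  refine (tsum_congr fun p => ?_).trans (hs.tsum_prod.trans (tsum_congr fun a => ?_))
  · have e : ((c : ℂ) * τ + d) / M + (p.1 * τ + p.2) =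
        (((c + M * p.1 : ℤ) : ℂ) * τ + d) / M + p.2 := by
      push_cast
      field_simp
      ring
    exact congrArg (fun x : ℂ => (x ^ k)⁻¹) e
  · rw [if_pos ⟨a, rfl⟩, one_mul]
    rfl

theorem eis_exp {M k : ℕ} (hM : 0 < M) (hk : 3 ≤ k) (c d : ℤ) :
    BQ M fun τ => ∑' l : sp 1 (τ : ℂ), ((((c : ℂ) * τ + d) / M + l) ^ k)⁻¹ := by
  classical
  obtain ⟨k, rfl⟩ : ∃ j, k = j + 1 := ⟨k - 1, by omega⟩
  have h := ((bq_const M ((if ∃ a : ℤ, c + M * a = 0 then 1 else 0) *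
    ∑' n : ℤ, (((d : ℂ) / M + n) ^ (k + 1))⁻¹)).add
    (i4p_half hM (by omega : 1 ≤ k) d fun u => ∃ a : ℤ, c + M * a = u)).add
    ((i4p_half hM (by omega : 1 ≤ k) (-d) fun u => ∃ a : ℤ, c + M * a = -u).smul ((-1) ^ (k + 1)))
  refine (congrArg (BQ M) (funext fun τ => ?_)).mp h
  have hs : Summable fun u : ℤ =>
      (if ∃ a : ℤ, c + M * a = u then 1 else 0) * i4pR M (k + 1) d τ u := by
    refine Summable.of_norm_bounded (i4p_summable hM hk d τ).prod.norm fun u => ?_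
    split_ifs
    · rw [one_mul]
      rfl
    · rw [zero_mul, norm_zero]
      exact norm_nonneg _
  have e0 : i4pR M (k + 1) d τ 0 = ∑' n : ℤ, (((d : ℂ) / M + n) ^ (k + 1))⁻¹ := by
    simp only [i4pR, Int.cast_zero, zero_mul, zero_add]
  rw [i4p_split hM hk, tsum_int_eq_zero_add_tsum_pnat hs, e0,
    ← tsum_mul_left (a := (-1 : ℂ) ^ (k + 1))]
  congr 1
  refine tsum_congr fun u => ?_
  rw [i4p_neg, mul_left_comm]

end Pool.Agent.P.MP_20768c_nt.Tz.Cv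

end

-- part Cv.I3a
section

set_option autoImplicit false

open Complex NumberField IsDedekindDomain Filter Topology
open UpperHalfPlane hiding I
open scoped ComplexConjugate Real MatrixGroups Manifold

namespace Pool.Agent.P.MP_20768c_nt.Tz.Cv

open Pool.Agent.P.MP_20768c_nt.Tz.EQ (Lt pr sp IsLat jL qN)

variable {M : ℕ} {h h' : ℍ → ℂ}

theorem i3a_an {f : ℍ → ℂ} (hf : MDifferentiable 𝓘(ℂ) 𝓘(ℂ) f) (τ : ℍ) :
    AnalyticAt ℂ (f ∘ ofComplex) τ :=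
  (UpperHalfPlane.mdifferentiable_iff.1 hf).analyticAt (isOpen_upperHalfPlaneSet.mem_nhds τ.im_pos)

theorem i3a_disc : MDifferentiable 𝓘(ℂ) 𝓘(ℂ) ModularForm.discriminant :=
  ModularFormClass.holo CuspForm.discriminant

theorem i3a_j (τ : ℍ) : AnalyticAt ℂ (Pool.Agent.P.MP_20768c_nt.Tz.EQ.jInv ∘ ofComplex) τ := by
  have h1 := i3a_an (ModularFormClass.holo ModularForm.E₄) τ
  have h2 := i3a_an i3a_disc τ
  exact (h1.pow 3).div h2 (ModularForm.discriminant_ne_zero _)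

theorem i3a_poly (Q : Polynomial ℂ) (τ : ℍ) :
    AnalyticAt ℂ (fun w => Q.eval (Pool.Agent.P.MP_20768c_nt.Tz.EQ.jInv (ofComplex w))) τ := by
  have h1 : AnalyticAt ℂ (fun x : ℂ => Q.eval x) ((Pool.Agent.P.MP_20768c_nt.Tz.EQ.jInv ∘ ofComplex) τ) :=
    Q.differentiable.analyticAt _
  exact h1.comp (i3a_j τ)

theorem i3a_loc {τ : ℍ} (a : MeromorphicAt (h ∘ ofComplex) τ) : ∃ Q : Polynomial ℂ, Q ≠ 0 ∧
    AnalyticAt ℂ (fun w => Q.eval (Pool.Agent.P.MP_20768c_nt.Tz.EQ.jInv (ofComplex w)) * h (ofComplex w)) τ := by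
  obtain ⟨n, hn⟩ := a
  obtain ⟨p, hp⟩ := i3a_j τ
  have h1 : AnalyticAt ℂ (dslope (Pool.Agent.P.MP_20768c_nt.Tz.EQ.jInv ∘ ofComplex) τ) τ :=
    ⟨_, hp.has_fpower_series_dslope_fslope⟩
  refine ⟨(Polynomial.X - Polynomial.C (Pool.Agent.P.MP_20768c_nt.Tz.EQ.jInv τ)) ^ n,
    pow_ne_zero _ (Polynomial.X_sub_C_ne_zero _), ?_⟩
  have h2 := (h1.pow n).mul hn
  refine h2.congr (Eventually.of_forall fun w => ?_)
  have h3 := sub_smul_dslope (Pool.Agent.P.MP_20768c_nt.Tz.EQ.jInv ∘ ofComplex) (τ : ℂ) w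
  simp only [Function.comp_apply, ofComplex_apply, smul_eq_mul] at h3
  simp only [Pi.mul_apply, Pi.pow_apply, Function.comp_apply, smul_eq_mul, Polynomial.eval_pow,
    Polynomial.eval_sub, Polynomial.eval_X, Polynomial.eval_C]
  rw [← h3, mul_pow]
  ring

theorem i3a_cpt (a : ∀ τ : ℍ, MeromorphicAt (h ∘ ofComplex) τ) {K : Set ℍ} (hK : IsCompact K) :
    ∃ Q : Polynomial ℂ, Q ≠ 0 ∧ ∀ τ ∈ K,
      AnalyticAt ℂ (fun w => Q.eval (Pool.Agent.P.MP_20768c_nt.Tz.EQ.jInv (ofComplex w)) * h (ofComplex w)) τ := by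
  refine hK.induction_on (p := fun S => ∃ Q : Polynomial ℂ, Q ≠ 0 ∧ ∀ τ ∈ S,
      AnalyticAt ℂ (fun w => Q.eval (Pool.Agent.P.MP_20768c_nt.Tz.EQ.jInv (ofComplex w)) * h (ofComplex w)) τ)
    ⟨1, one_ne_zero, fun τ hτ => hτ.elim⟩ ?_ ?_ ?_
  · rintro S T hST ⟨Q, h0, hQ⟩
    exact ⟨Q, h0, fun τ hτ => hQ τ (hST hτ)⟩
  · rintro S T ⟨Q, h0, hQ⟩ ⟨R, k0, hR⟩
    refine ⟨Q * R, mul_ne_zero h0 k0, fun τ hτ => ?_⟩
    rcases hτ with hτ | hτ
    · refine ((i3a_poly R τ).mul (hQ τ hτ)).congr (Eventually.of_forall fun w => ?_)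
      simp only [Pi.mul_apply, Polynomial.eval_mul]
      ring
    · refine ((i3a_poly Q τ).mul (hR τ hτ)).congr (Eventually.of_forall fun w => ?_)
      simp only [Pi.mul_apply, Polynomial.eval_mul]
      ring
  · intro τ _
    obtain ⟨Q, h0, hQ⟩ := i3a_loc (a τ)
    have h1 := UpperHalfPlane.continuous_coe.continuousAt.eventually hQ.eventually_analyticAt
    exact ⟨_, nhdsWithin_le_nhds h1, Q, h0, fun σ hσ => hσ⟩

theorem i3a_qN (hM : 0 < M) : Tendsto (qN M) atImInfty (𝓝[≠] 0) := by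
  refine tendsto_nhdsWithin_iff.2 ⟨?_, Eventually.of_forall fun τ => Complex.exp_ne_zero _⟩
  have h1 := qParam_tendsto_atImInfty (h := (M : ℝ)) (Nat.cast_pos.2 hM)
  refine h1.congr fun τ => ?_
  simp [Function.Periodic.qParam, qN]

theorem i3a_high (hM : 0 < M) {H : ℂ → ℂ} (hH : MeromorphicAt H 0)
    (e : ∀ᶠ τ in atImInfty, h τ = H (qN M τ)) :
    ∃ Y : ℝ, ∀ τ : ℍ, Y < τ.im → AnalyticAt ℂ (h ∘ ofComplex) τ := by
  have h1 := (i3a_qN hM).eventually hH.eventually_analyticAt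
  obtain ⟨Y, hY⟩ := (atImInfty_mem _).1 (e.and h1)
  refine ⟨Y, fun τ hτ => ?_⟩
  have h2 : AnalyticAt ℂ (fun w : ℂ => cexp (2 * π * I * w / M)) τ := by fun_prop
  have h3 : AnalyticAt ℂ (H ∘ fun w : ℂ => cexp (2 * π * I * w / M)) τ :=
    AnalyticAt.comp (hY τ hτ.le).2 h2
  refine h3.congr ?_
  have h4 : ∀ᶠ w in 𝓝 (τ : ℂ), Y < w.im :=
    (isOpen_lt continuous_const Complex.continuous_im).mem_nhds hτ
  filter_upwards [h4, isOpen_upperHalfPlaneSet.mem_nhds τ.im_pos] with w hw hw0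
  have h5 := (hY ⟨w, hw0⟩ hw.le).1
  rw [Function.comp_apply, Function.comp_apply, ofComplex_apply_of_im_pos hw0, h5]
  rfl

theorem i3a_bd (hM : 0 < M) {H : ℂ → ℂ} (hH : MeromorphicAt H 0)
    (e : ∀ᶠ τ in atImInfty, h τ = H (qN M τ)) :
    ∃ (n : ℕ) (c : ℂ), Tendsto (fun τ => ModularForm.discriminant τ ^ n * h τ) atImInfty (𝓝 c) := by
  obtain ⟨n, hn⟩ := hH
  obtain ⟨M', rfl⟩ : ∃ M', M = M' + 1 := ⟨M - 1, by omega⟩
  have h1 : Tendsto (qN (M' + 1)) atImInfty (𝓝 0) := (i3a_qN hM).mono_right nhdsWithin_le_nhds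
  have h2 := hn.continuousAt.tendsto.comp h1
  have h3 := ((Pool.Agent.P.MP_20768c_nt.Tz.EQ.iq2_disc_div_tendsto.pow n).mul ((h1.pow M').pow n)).mul h2
  refine ⟨n, _, h3.congr' ?_⟩
  filter_upwards [e] with τ hτ
  have h4 : Pool.Agent.P.MP_20768c_nt.Tz.EQ.qq τ = qN (M' + 1) τ ^ (M' + 1) := by
    have h5 := Pool.Agent.P.MP_20768c_nt.Tz.EQ.vqs_pow hM 1 τ
    rw [one_mul] at h5
    rw [h5, qN, Pool.Agent.P.MP_20768c_nt.Tz.EQ.qq, Nat.cast_one, div_one]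
  have h6 : ModularForm.discriminant τ = ModularForm.discriminant τ / Pool.Agent.P.MP_20768c_nt.Tz.EQ.qq τ *
      (qN (M' + 1) τ ^ M' * qN (M' + 1) τ) := by
    rw [← pow_succ, ← h4, div_mul_cancel₀ _ (Pool.Agent.P.MP_20768c_nt.Tz.EQ.iq2_qq_ne τ)]
  rw [hτ, Function.comp_apply, sub_zero, smul_eq_mul]
  generalize ModularForm.discriminant τ / Pool.Agent.P.MP_20768c_nt.Tz.EQ.qq τ = u at h6
  rw [h6]
  ring

theorem i3a_pbd (Q : Polynomial ℂ) : ∃ (n : ℕ) (c : ℂ), Tendsto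
    (fun τ => ModularForm.discriminant τ ^ n * Q.eval (Pool.Agent.P.MP_20768c_nt.Tz.EQ.jInv τ)) atImInfty (𝓝 c) := by
  have h0 : Tendsto ModularForm.discriminant atImInfty (𝓝 0) :=
    ModularForm.discriminant_isZeroAtImInfty
  induction Q using Polynomial.induction_on with
  | C a => exact ⟨0, a, by simp⟩
  | add P R hP hR =>
    obtain ⟨n, c, hn⟩ := hP
    obtain ⟨m, d, hm⟩ := hR
    refine ⟨n + m, _, (((h0.pow m).mul hn).add ((h0.pow n).mul hm)).congr fun τ => ?_⟩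
    rw [Polynomial.eval_add]
    ring
  | monomial k a hk =>
    obtain ⟨n, c, hn⟩ := hk
    refine ⟨n + 1, _, (hn.mul (Pool.Agent.P.MP_20768c_nt.Tz.EQ.iq2_E4_tendsto.pow 3)).congr fun τ => ?_⟩
    rw [Pool.Agent.P.MP_20768c_nt.Tz.EQ.vmf_E4]
    simp only [Polynomial.eval_mul, Polynomial.eval_pow, Polynomial.eval_X, Polynomial.eval_C]
    ring

theorem mer_level (hM : 0 < M) (a : Mer0 M h) (hi : ∀ (γ : SL(2, ℤ)) (τ : ℍ), h (γ • τ) = h τ) :
    ∃ P Q : Polynomial ℂ, Q ≠ 0 ∧ ∀ τ : ℍ, ∀ᶠ w in 𝓝[≠] (τ : ℂ),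
      Q.eval (Pool.Agent.P.MP_20768c_nt.Tz.EQ.jInv (ofComplex w)) * h (ofComplex w) =
        P.eval (Pool.Agent.P.MP_20768c_nt.Tz.EQ.jInv (ofComplex w)) := by
  obtain ⟨H, hH, e⟩ := a.2 1
  simp only [one_smul] at e
  obtain ⟨Y, hY⟩ := i3a_high hM hH e
  obtain ⟨Q, h0, hQ⟩ := i3a_cpt a.1 (ModularGroup.isCompact_truncatedFundamentalDomain Y)
  obtain ⟨n, c, hn⟩ := i3a_bd hM hH e
  obtain ⟨m, d, hm⟩ := i3a_pbd Q
  set ψ : ℍ → ℂ := fun τ => Q.eval (Pool.Agent.P.MP_20768c_nt.Tz.EQ.jInv τ) * h τ with hψ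
  have hinv : ∀ (γ : SL(2, ℤ)) (τ : ℍ), ψ (γ • τ) = ψ τ := fun γ τ => by
    simp only [hψ, hi, Pool.Agent.P.MP_20768c_nt.Tz.EQ.jInv_smul]
  have hd : MDifferentiable 𝓘(ℂ) 𝓘(ℂ) ψ := by
    intro τ
    obtain ⟨γ, hγ⟩ := ModularGroup.exists_smul_mem_fd τ
    have h1 : MDifferentiableAt 𝓘(ℂ) 𝓘(ℂ) ψ (γ • τ) := by
      refine UpperHalfPlane.mdifferentiableAt_iff.2 ?_
      rcases le_or_gt (γ • τ).im Y with h2 | h2
      · exact (hQ _ ⟨hγ, h2⟩).differentiableAt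
      · exact ((i3a_poly Q _).mul (hY _ h2)).differentiableAt
    have h3 : MDifferentiable 𝓘(ℂ) 𝓘(ℂ) fun σ : ℍ => γ • σ :=
      mdifferentiable_smul (g := (γ : GL (Fin 2) ℝ)) (by simp)
    have h4 := h1.comp τ (h3 τ)
    have h5 : (ψ ∘ fun σ : ℍ => γ • σ) = ψ := funext fun σ => hinv γ σ
    rwa [h5] at h4
  set F : ℍ → ℂ := fun τ => ModularForm.discriminant τ ^ (m + n) * ψ τ with hF
  have hw : ∀ (γ : SL(2, ℤ)) (τ : ℍ),
      F (γ • τ) = ((γ 1 0 : ℂ) * τ + γ 1 1) ^ (12 * (m + n)) * F τ := fun γ τ => by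
    simp only [hF]
    rw [hinv, Pool.Agent.P.MP_20768c_nt.Tz.EQ.disc_smul, mul_pow, pow_mul, mul_assoc]
  have hFd : MDifferentiable 𝓘(ℂ) 𝓘(ℂ) F := (i3a_disc.pow (m + n)).mul hd
  have hFb : IsBoundedAtImInfty F := by
    have h1 : Tendsto F atImInfty (𝓝 (d * c)) := (hm.mul hn).congr fun τ => by
      simp only [hF, hψ]
      ring
    exact h1.isBigO_one ℝ
  have hFp : Function.Periodic (F ∘ ofComplex) (1 : ℝ) := by
    intro w
    by_cases hw0 : 0 < w.im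
    · have h1 : 0 < (w + (1 : ℝ)).im := by simpa using hw0
      have h2 : (⟨w + (1 : ℝ), h1⟩ : ℍ) = ModularGroup.T • (⟨w, hw0⟩ : ℍ) := by
        rw [modular_T_smul]
        ext
        simp [add_comm]
      rw [Function.comp_apply, Function.comp_apply, ofComplex_apply_of_im_pos hw0,
        ofComplex_apply_of_im_pos h1, h2, hw]
      simp [ModularGroup.T]
    · have h1 : (w + (1 : ℝ)).im ≤ 0 := by simpa using hw0
      rw [Function.comp_apply, Function.comp_apply,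
        ofComplex_apply_eq_of_im_nonpos h1 (not_lt.1 hw0)]
  have hq : Pool.Agent.P.MP_20768c_nt.Tz.EQ.QS 1 ⊤ F := by
    refine Pool.Agent.P.MP_20768c_nt.Tz.EQ.vmf_one.2 ⟨fun k => (qExpansion 1 F).coeff k, fun _ => trivial, fun τ => ?_⟩
    have h1 := UpperHalfPlane.hasSum_qExpansion one_pos hFp hFd hFb τ
    rw [Pool.Agent.P.MP_20768c_nt.Tz.EQ.iq2_qq_eq]
    simpa only [smul_eq_mul] using h1
  obtain ⟨P, -, hP⟩ := Pool.Agent.P.MP_20768c_nt.Tz.EQ.vmf_poly (m + n) hq hw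
  refine ⟨P, Q, h0, fun τ => Eventually.of_forall fun w => ?_⟩
  exact mul_left_cancel₀ (pow_ne_zero _ (ModularForm.discriminant_ne_zero _)) (hP (ofComplex w))

end Pool.Agent.P.MP_20768c_nt.Tz.Cv

end

-- part Cv.I5a
section

set_option autoImplicit false

open Complex NumberField IsDedekindDomain Filter Topology
open UpperHalfPlane hiding I
open scoped ComplexConjugate Real MatrixGroups

namespace Pool.Agent.P.MP_20768c_nt.Tz.Cv

open Pool.Agent.P.MP_20768c_nt.Tz.EQ (Lt pr sp IsLat jL qN)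

open CongruenceSubgroup

variable {M : ℕ} [NeZero M]

theorem pe_eich (F : CuspForm (Gamma1 M) 2) {E : ℂ → ℂ} (hE : IsEich F E) {γ : SL(2, ℤ)}
    (hγ : γ ∈ Gamma1 M) (τ : ℍ) :
    2 * π * I * E ((γ • τ : ℍ) : ℂ) = Pe F γ + 2 * π * I * E τ := by
  obtain ⟨κ, h1, h2⟩ := pos_kappa F hE hγ
  rw [h2, Pe, h1]
  ring

theorem per_fg (F : CuspForm (Gamma1 M) 2) :
    ∃ Λ : Submodule ℤ ℂ, Λ.FG ∧ ∀ γ ∈ Gamma1 M, Pe F γ ∈ Λ := by
  classical
  obtain ⟨E, hE⟩ : ∃ E, IsEich F E := by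
    simpa [IsEich] using slash_prim F 1
  have : Group.FG SL(2, ℤ) := Group.fg_iff.2 ⟨_, SpecialLinearGroup.SL2Z_generators, by simp⟩
  obtain ⟨S, hS⟩ := (Group.fg_iff_subgroup_fg _).1 (Subgroup.fg_of_index_ne_zero (Gamma1 M))
  have hmul : ∀ γ ∈ Gamma1 M, ∀ δ ∈ Gamma1 M, Pe F (γ * δ) = Pe F γ + Pe F δ := by
    intro γ hγ δ hδ
    have h1 := pe_eich F hE (mul_mem hγ hδ) UpperHalfPlane.I
    have h2 := pe_eich F hE hγ (δ • UpperHalfPlane.I)
    have h3 := pe_eich F hE hδ UpperHalfPlane.I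
    rw [mul_smul] at h1
    linear_combination h2 + h3 - h1
  have hone : Pe F 1 = 0 := by
    have := hmul 1 (one_mem _) 1 (one_mem _)
    rw [one_mul] at this
    linear_combination -this
  refine ⟨Submodule.span ℤ ↑(S.image (Pe F)), Submodule.fg_span (Finset.finite_toSet _),
    fun γ hγ => ?_⟩
  have hγ' : γ ∈ Subgroup.closure (S : Set SL(2, ℤ)) := hS ▸ hγ
  clear hγ
  induction hγ' using Subgroup.closure_induction with
  | mem x hx => exact Submodule.subset_span (Finset.mem_coe.2 (Finset.mem_image_of_mem _ hx))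
  | one => rw [hone]; exact zero_mem _
  | mul x y hx hy ix iy => rw [hmul x (hS ▸ hx) y (hS ▸ hy)]; exact add_mem ix iy
  | inv x hx ix =>
    have h1 := hmul x (hS ▸ hx) x⁻¹ (inv_mem (hS ▸ hx))
    rw [mul_inv_cancel, hone] at h1
    rw [show Pe F x⁻¹ = -Pe F x by linear_combination -h1]
    exact neg_mem ix

theorem i5a_ana {E : ℂ → ℂ} {g : ℍ → ℂ} (hd : ∀ z : ℍ, HasDerivAt E (g z) z) (τ : ℍ) :
    AnalyticAt ℂ E τ := by
  have ho : IsOpen {z : ℂ | 0 < z.im} := isOpen_lt continuous_const Complex.continuous_im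
  have h1 : DifferentiableOn ℂ E {z : ℂ | 0 < z.im} := fun z hz =>
    (hd ⟨z, hz⟩).differentiableAt.differentiableWithinAt
  exact h1.analyticAt (ho.mem_nhds τ.im_pos)

theorem i5a_cusp (F : CuspForm (Gamma1 M) 2) {E : ℂ → ℂ} (hE : IsEich F E) (σ : SL(2, ℤ)) :
    ∃ H : ℂ → ℂ, AnalyticAt ℂ H 0 ∧ ∀ τ : ℍ, E ((σ • τ : ℍ) : ℂ) = H (qN M τ) := by
  have hM : (0 : ℝ) < M := by exact_mod_cast Nat.pos_of_ne_zero (NeZero.ne M)
  obtain ⟨κ, hκ⟩ := an4_lim F hE σ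
  have hm : σ * ModularGroup.T ^ (M : ℤ) * σ⁻¹ ∈ Gamma1 M := by
    have h1 : ModularGroup.T ^ (M : ℤ) ∈ CongruenceSubgroup.Gamma M := by
      simpa using ModularGroup_T_pow_mem_Gamma M M dvd_rfl
    have h2 := (Gamma_normal M).conj_mem _ h1 σ
    rw [Gamma_mem] at h2
    exact (Gamma1_mem _ _).2 ⟨h2.1, h2.2.2.2, h2.2.2.1⟩
  obtain ⟨c, -, hc⟩ := pos_kappa F hE hm
  have h3 : ∀ z : ℍ, E ((σ • ((M : ℝ) +ᵥ z) : ℍ) : ℂ) = c + E ((σ • z : ℍ) : ℂ) := by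
    intro z
    have := hc (σ • z)
    rw [mul_smul, mul_smul, inv_smul_smul, UpperHalfPlane.modular_T_zpow_smul] at this
    simpa using this
  have h4 : Tendsto (fun z : ℍ => (M : ℝ) +ᵥ z) atImInfty atImInfty := by
    simp only [atImInfty, tendsto_comap_iff, Function.comp_def, vadd_im]
    exact tendsto_comap
  have h5 := tendsto_nhds_unique (hκ.comp h4) ((hκ.const_add c).congr fun z => (h3 z).symm)
  have h6 : c = 0 := by linear_combination -h5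
  let G : ℍ → ℂ := fun z => E ((σ • z : ℍ) : ℂ)
  have hp : Function.Periodic (G ∘ ofComplex) (M : ℝ) := by
    intro w
    by_cases hw : 0 < w.im
    · have hw' : 0 < (w + (M : ℝ)).im := by simpa using hw
      have : ofComplex (w + (M : ℝ)) = (M : ℝ) +ᵥ ofComplex w := by
        ext
        rw [ofComplex_apply_of_im_pos hw', ofComplex_apply_of_im_pos hw]
        simp [add_comm]
      simp only [Function.comp, G, this, h3, h6, zero_add]
    · have hw' : (w + (M : ℝ)).im ≤ 0 := by simpa using hw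
      simp only [Function.comp, ofComplex_apply_eq_of_im_nonpos hw' (not_lt.1 hw)]
  refine ⟨cuspFunction M G, analyticAt_cuspFunction_zero hM hp ?_ (hκ.isBigO_one ℝ), fun τ => ?_⟩
  · rw [UpperHalfPlane.mdifferentiable_iff]
    intro w hw
    exact (prim_comp hE.1 σ ⟨w, hw⟩).differentiableAt.differentiableWithinAt
  · have := UpperHalfPlane.eq_cuspFunction τ hM.ne' hp
    simpa [Function.Periodic.qParam, qN, G] using this.symm

theorem mer0_comp (F : CuspForm (Gamma1 M) 2) {E : ℂ → ℂ} (hE : IsEich F E) {Φ : ℂ → ℂ}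
    (hΦ : ∀ z, MeromorphicAt Φ z) : Mer0 M fun τ => Φ (2 * π * I * E τ) := by
  refine ⟨fun τ => ?_, fun g => ?_⟩
  · have h1 : AnalyticAt ℂ (fun w => 2 * π * I * E w) τ := analyticAt_const.mul (i5a_ana hE.1 τ)
    refine ((hΦ _).comp_analyticAt h1).congr (Filter.EventuallyEq.filter_mono ?_ nhdsWithin_le_nhds)
    filter_upwards [(isOpen_lt continuous_const Complex.continuous_im).mem_nhds τ.im_pos] with w hw
    simp only [Function.comp, ofComplex_apply_of_im_pos hw]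
  · obtain ⟨H, h1, h2⟩ := i5a_cusp F hE g
    have h3 : AnalyticAt ℂ (fun w => 2 * π * I * H w) 0 := analyticAt_const.mul h1
    exact ⟨_, (hΦ _).comp_analyticAt h3, Filter.Eventually.of_forall fun τ => by
      simp only [Function.comp, h2]⟩

theorem posC_mem {γ : SL(2, ℤ)} (h : γ ∈ Gamma1 M) : posC γ ∈ Gamma1 M := by
  have hm := (Gamma1_mem _ _).1 h
  rw [Gamma1_mem]
  simpa [posC] using hm

open scoped ModularForm in
theorem i5a_slash (f : ℍ → ℂ) (σ : SL(2, ℤ)) (τ : ℍ) :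
    ((fun τ => conj (f (posJ τ))) ∣[(2 : ℤ)] σ) τ = conj ((f ∣[(2 : ℤ)] posC σ) (posJ τ)) := by
  rw [ModularForm.SL_slash_apply, ModularForm.SL_slash_apply, pos_J_smul, map_mul, map_zpow₀,
    ModularGroup.denom_apply, ModularGroup.denom_apply]
  simp [posC, posJ]

open scoped ModularForm in
theorem exists_conjF (F : CuspForm (Gamma1 M) 2) :
    ∃ F' : CuspForm (Gamma1 M) 2, ∀ τ, F' τ = conj (F (posJ τ)) := by
  refine ⟨⟨⟨fun τ => conj (F (posJ τ)), ?_⟩, ?_, ?_⟩, fun _ => rfl⟩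
  · rintro _ ⟨γ, hγ, rfl⟩
    have h1 : ⇑F ∣[(2 : ℤ)] posC γ = F :=
      SlashInvariantForm.slash_action_eqn F _ ⟨_, posC_mem hγ, rfl⟩
    funext τ
    have := i5a_slash F γ τ
    rw [h1] at this
    exact this
  · rw [UpperHalfPlane.mdifferentiable_iff]
    intro w hw
    have ho : IsOpen {z : ℂ | 0 < z.im} := isOpen_lt continuous_const Complex.continuous_im
    have h1 : DifferentiableOn ℂ (⇑F ∘ ofComplex) {z | 0 < z.im} :=
      UpperHalfPlane.mdifferentiable_iff.1 F.holo'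
    have hw' : 0 < (-conj w).im := by simpa using hw
    have h2 := (h1.differentiableAt (ho.mem_nhds hw')).hasDerivAt
    have k1 : HasDerivAt (fun w => (⇑F ∘ ofComplex) (-w)) (_ * -1) (conj w) :=
      HasDerivAt.comp_of_eq _ h2 (hasDerivAt_neg _) rfl
    have k2 := k1.star_conj
    rw [conj_conj] at k2
    refine (k2.differentiableAt.congr_of_eventuallyEq ?_).differentiableWithinAt
    filter_upwards [ho.mem_nhds hw] with z hz
    have hz' : 0 < (-conj z).im := by simpa using hz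
    simp only [Function.comp, ofComplex_apply_of_im_pos hz, ofComplex_apply_of_im_pos hz']
    rfl
  · intro c hc
    rw [Subgroup.IsArithmetic.isCusp_iff_isCusp_SL2Z] at hc
    rw [OnePoint.isZeroAt_iff_forall_SL2Z hc]
    intro γ _
    have h1 := CuspFormClass.zero_at_infty_slash F (posC γ)
    have h2 := (continuous_conj.tendsto 0).comp (Tendsto.comp h1 pos_J_tendsto)
    rw [map_zero] at h2
    exact h2.congr fun τ => (i5a_slash F γ τ).symm

theorem i5a_sym {f f' : ℍ → ℂ} (h : ∀ τ, f' τ = conj (f (posJ τ))) (r : ℚ) :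
    sym f' r = conj (sym f (-r)) := by
  unfold sym
  rw [map_mul, ← integral_conj]
  congr 1
  · simp [map_ofNat]
  · refine MeasureTheory.setIntegral_congr_fun measurableSet_Ioi fun y hy => ?_
    have hy : 0 < y := hy
    simp only [h]
    congr 2
    ext
    rw [an3_coe _ hy]
    simp only [posJ]
    rw [an3_coe _ hy]
    simp [add_comm]

theorem pe_conj {f f' : ℍ → ℂ} (h : ∀ τ, f' τ = conj (f (posJ τ))) (γ : SL(2, ℤ)) :
    Pe f' γ = conj (Pe f (posC γ)) := by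
  unfold Pe Fv
  by_cases hc : γ 1 0 = 0
  · simp [posC, hc]
  · simp [posC, hc, i5a_sym h, div_neg]

theorem exp_conj {f f' : ℍ → ℂ} (h : ∀ τ, f' τ = conj (f (posJ τ))) {a : ℕ → ℂ}
    (hs : ∀ τ : ℍ, HasSum (fun n => a n * qN 1 τ ^ n) (f τ)) (τ : ℍ) :
    HasSum (fun n => conj (a n) * qN 1 τ ^ n) (f' τ) := by
  have h1 := (Complex.hasSum_conj' (f := fun n => a n * qN 1 (posJ τ) ^ n)).2 (hs (posJ τ))
  have h2 : conj (qN 1 (posJ τ)) = qN 1 τ := by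
    simp [qN, posJ, ← Complex.exp_conj, map_ofNat]
  rw [h]
  simpa only [map_mul, map_pow, h2] using h1

end Pool.Agent.P.MP_20768c_nt.Tz.Cv

end

-- part Cv.C1a_p
section

set_option autoImplicit false

open Complex NumberField IsDedekindDomain Filter Topology
open UpperHalfPlane hiding I
open scoped ComplexConjugate Real MatrixGroups

namespace Pool.Agent.P.MP_20768c_nt.Tz.Cv

open Pool.Agent.P.MP_20768c_nt.Tz.EQ (Lt pr sp IsLat jL qN)

namespace St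

variable (s : St) {Γ : Type} [LinearOrderedCommGroupWithZero Γ]

theorem c_inj : Function.Injective s.c := by
  intro x y h
  have h' : ((x : s.k) : ℂ) = ((y : s.k) : ℂ) := h
  exact RingOfIntegers.ext (Subtype.ext h')

theorem c_add (x y : s.O) : s.c (x + y) = s.c x + s.c y := by
  exact map_add _ x y

theorem c_sub (x y : s.O) : s.c (x - y) = s.c x - s.c y := by
  exact map_sub _ x y

theorem c_mul (x y : s.O) : s.c (x * y) = s.c x * s.c y := by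
  exact map_mul _ x y

theorem c_pow (x : s.O) (n : ℕ) : s.c (x ^ n) = s.c x ^ n := by
  exact map_pow _ x n

theorem c_nat (n : ℕ) : s.c n = n := by
  exact map_natCast _ n

theorem c_int (n : ℤ) : s.c n = n := by
  exact map_intCast _ n

theorem c_one : s.c 1 = 1 := by
  exact map_one _

theorem c_ne {x : s.O} (h : x ≠ 0) : s.c x ≠ 0 := by
  intro e
  exact h (s.c_inj (e.trans (map_zero (algebraMap s.O ℂ)).symm))

theorem smul_eq (x : s.O) (z : ℂ) : x • z = s.c x * z := by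
  exact Algebra.smul_def x z

theorem c_mem (x : s.O) : s.c x ∈ s.k := by
  exact (x : s.k).2

theorem au_c (σ : s.Au) (x : s.O) : σ (s.c x) = s.c x := by
  exact σ.commutes (x : s.k)

theorem cw_sq : s.c s.w ^ 2 = s.t * s.c s.w - s.m := by
  rw [← s.c_pow, s.w_sq, s.c_sub, s.c_mul, s.c_int, s.c_nat]

theorem c_wb : s.c s.wb = s.t - s.c s.w := by
  rw [wb, s.c_sub, s.c_int]

theorem w_add_wb : s.w + s.wb = s.t := by
  rw [wb, add_sub_cancel]

theorem w_mul_wb : s.w * s.wb = s.m := by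
  rw [wb]
  linear_combination -s.w_sq

theorem t_sq : (3 : ℤ) ∣ (s.t : ℤ) ^ 2 - 1 := by
  obtain ⟨a, ha⟩ : ∃ a : ℤ, s.t = 3 * a + 1 := ⟨s.t / 3, by have := s.t_mod; omega⟩
  exact ⟨3 * a ^ 2 + 2 * a, by rw [ha]; ring⟩

theorem t_eq : ∃ a : ℤ, s.t = 3 * a + 1 := ⟨s.t / 3, by have := s.t_mod; omega⟩

theorem t_sub : (3 : ℤ) ∣ s.t - 1 := by
  have := s.t_mod
  omega

theorem conj_w : conj (s.c s.w) = s.c s.wb := by
  have h := s.cw_sq
  have h2 := congrArg conj h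
  simp only [map_pow, map_sub, map_mul, map_natCast, map_intCast] at h2
  have hne : s.c s.w - conj (s.c s.w) ≠ 0 := by
    intro e
    have h3 := congrArg Complex.im e
    have h4 : 0 < (s.c s.w).im := s.w_im
    simp only [Complex.sub_im, Complex.conj_im, Complex.zero_im] at h3
    linarith
  apply mul_left_cancel₀ hne
  rw [s.c_wb]
  linear_combination (-1 : ℂ) * h2 + h

theorem c1a_p_ab (a b : ℤ) : s.c (a + b * s.w) = a + b * s.c s.w := by
  rw [s.c_add, s.c_mul, s.c_int, s.c_int]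

theorem exists_conj : ∃ e : s.O ≃+* s.O, e s.w = s.wb ∧ e s.wb = s.w ∧
    ∀ x, s.c (e x) = conj (s.c x) := by
  have ex : ∀ x : s.O, ∃ y : s.O, s.c y = conj (s.c x) := by
    intro x
    obtain ⟨a, b, rfl⟩ := s.span x
    refine ⟨a + b * s.wb, ?_⟩
    rw [s.c1a_p_ab, s.c_add, s.c_mul, s.c_int, s.c_int, map_add, map_mul,
      map_intCast, map_intCast, s.conj_w]
  choose f hf using ex
  have inv : ∀ x, f (f x) = x := fun x => s.c_inj (by rw [hf, hf, Complex.conj_conj])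
  refine ⟨⟨⟨f, f, inv, inv⟩, fun x y => s.c_inj ?_, fun x y => s.c_inj ?_⟩, s.c_inj ?_,
    s.c_inj ?_, hf⟩
  · change s.c (f (x * y)) = s.c (f x * f y)
    rw [hf, s.c_mul, s.c_mul, hf, hf, map_mul]
  · change s.c (f (x + y)) = s.c (f x + f y)
    rw [hf, s.c_add, s.c_add, hf, hf, map_add]
  · change s.c (f s.w) = s.c s.wb
    rw [hf, s.conj_w]
  · change s.c (f s.wb) = s.c s.w
    rw [hf, ← s.conj_w, Complex.conj_conj]

theorem indep {a b : ℤ} (h : (a : s.O) + b * s.w = 0) : a = 0 ∧ b = 0 := by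
  have h1 : (a : ℂ) + b * s.c s.w = 0 := by
    rw [← s.c1a_p_ab, h]
    exact map_zero _
  have h4 : 0 < (s.c s.w).im := s.w_im
  have h2 := congrArg Complex.im h1
  simp only [Complex.add_im, Complex.mul_im, Complex.intCast_im, Complex.intCast_re, zero_mul,
    add_zero, zero_add, Complex.zero_im, mul_eq_zero] at h2
  have hb : b = 0 := by
    rcases h2 with h2 | h2
    · exact_mod_cast h2
    · exact absurd h2 h4.ne'
  subst hb
  refine ⟨?_, rfl⟩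
  simpa using h1

theorem c1a_p_uniq {a b a' b' : ℤ} (h : (a : s.O) + b * s.w = a' + b' * s.w) :
    a = a' ∧ b = b' := by
  have h1 := s.indep (a := a - a') (b := b - b') (by push_cast; linear_combination h)
  omega

theorem c1a_p_basis : ∃ B : Module.Basis (Fin 2) ℤ s.O, B 0 = 1 ∧ B 1 = s.w ∧
    ∀ a b : ℤ, B.repr (a + b * s.w) 0 = a ∧ B.repr (a + b * s.w) 1 = b := by
  have li : LinearIndependent ℤ ![(1 : s.O), s.w] := by
    rw [LinearIndependent.pair_iff]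
    intro a b h
    exact s.indep (by simpa using h)
  have sp : ⊤ ≤ Submodule.span ℤ (Set.range ![(1 : s.O), s.w]) := by
    intro x _
    obtain ⟨a, b, rfl⟩ := s.span x
    have e : (a : s.O) + b * s.w = a • (1 : s.O) + b • s.w := by simp
    rw [e]
    exact add_mem (Submodule.smul_mem _ _ (Submodule.subset_span ⟨0, rfl⟩))
      (Submodule.smul_mem _ _ (Submodule.subset_span ⟨1, rfl⟩))
  have h0 : Module.Basis.mk li sp 0 = 1 := by rw [Module.Basis.mk_apply]; rfl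
  have h1 : Module.Basis.mk li sp 1 = s.w := by rw [Module.Basis.mk_apply]; rfl
  generalize Module.Basis.mk li sp = B at h0 h1
  refine ⟨B, h0, h1, fun a b => ?_⟩
  have e : (a : s.O) + b * s.w = a • B 0 + b • B 1 := by
    rw [h0, h1]; simp
  rw [e, map_add, map_smul, map_smul, B.repr_self, B.repr_self]
  simp

theorem c1a_p_mulw (a b : ℤ) :
    ((a : s.O) + b * s.w) * s.w = ((-(s.m * b) : ℤ) : s.O) + ((a + s.t * b : ℤ) : s.O) * s.w := by
  push_cast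
  linear_combination (b : s.O) * s.w_sq

theorem c1a_p_four (a b : ℤ) :
    4 * (a ^ 2 + s.t * a * b + s.m * b ^ 2) = (2 * a + s.t * b) ^ 2 + s.dd * b ^ 2 := by
  rw [s.dd_eq]
  ring

theorem c1a_p_pos (a b : ℤ) : 0 ≤ a ^ 2 + s.t * a * b + s.m * b ^ 2 := by
  have h := s.c1a_p_four a b
  have h1 : 0 ≤ (2 * a + s.t * b) ^ 2 + s.dd * b ^ 2 := by positivity
  omega

theorem norm_ab (a b : ℤ) : (Ideal.absNorm (Ideal.span {(a : s.O) + b * s.w}) : ℤ) =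
    a ^ 2 + s.t * a * b + s.m * b ^ 2 := by
  obtain ⟨B, h0, h1, hB⟩ := s.c1a_p_basis
  have e : Algebra.norm ℤ ((a : s.O) + b * s.w) = a ^ 2 + s.t * a * b + s.m * b ^ 2 := by
    rw [Algebra.norm_eq_matrix_det B, Matrix.det_fin_two]
    simp only [Algebra.leftMulMatrix_eq_repr_mul, h0, h1, mul_one, s.c1a_p_mulw, (hB _ _).1,
      (hB _ _).2]
    ring
  rw [Ideal.absNorm_span_singleton, e, Int.natAbs_of_nonneg (s.c1a_p_pos a b)]

theorem norm_ab' (a b : ℤ) : (Ideal.absNorm (Ideal.span {(a : s.O) + b * s.wb}) : ℤ) =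
    a ^ 2 + s.t * a * b + s.m * b ^ 2 := by
  have e : (a : s.O) + b * s.wb = ((a + s.t * b : ℤ) : s.O) + ((-b : ℤ) : s.O) * s.w := by
    rw [wb]
    push_cast
    ring
  rw [e, s.norm_ab]
  ring

theorem norm_c (x : s.O) : (Ideal.absNorm (Ideal.span {x}) : ℝ) = ‖s.c x‖ ^ 2 := by
  obtain ⟨a, b, rfl⟩ := s.span x
  have h1 : ((Ideal.absNorm (Ideal.span {(a : s.O) + b * s.w}) : ℕ) : ℂ) =
      a ^ 2 + s.t * a * b + s.m * b ^ 2 := by
    exact_mod_cast congrArg (Int.cast : ℤ → ℂ) (s.norm_ab a b)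
  have h2 := Complex.mul_conj' (s.c (a + b * s.w))
  apply Complex.ofReal_injective
  push_cast
  rw [h1, ← h2, s.c1a_p_ab, map_add, map_mul, map_intCast, map_intCast, s.conj_w, s.c_wb]
  linear_combination (b : ℂ) ^ 2 * s.cw_sq

theorem mem_k {x : ℂ} (h : x ∈ s.k) : ∃ (a : s.O) (n : ℕ), 0 < n ∧ n * x = s.c a := by
  obtain ⟨a, b, hb, e⟩ := IsFractionRing.div_surjective (A := s.O) (⟨x, h⟩ : s.k)
  have hb0 : b ≠ 0 := nonZeroDivisors.ne_zero hb
  obtain ⟨cj, -, -, hc⟩ := s.exists_conj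
  have e1 : s.c a / s.c b = x := by
    have := congrArg (fun y : s.k => (y : ℂ)) e
    exact this
  refine ⟨a * cj b, Ideal.absNorm (Ideal.span {b}), Nat.pos_of_ne_zero ?_, ?_⟩
  · rw [Ne, Ideal.absNorm_eq_zero_iff, Ideal.span_singleton_eq_bot]
    exact hb0
  · have h1 : ((Ideal.absNorm (Ideal.span {b}) : ℕ) : ℂ) = s.c b * conj (s.c b) := by
      rw [Complex.mul_conj']
      exact_mod_cast congrArg (Complex.ofReal) (s.norm_c b)
    rw [h1, s.c_mul, hc, ← e1]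
    have := s.c_ne hb0
    field_simp

theorem conj_mem_k {x : ℂ} (h : x ∈ s.k) : conj x ∈ s.k := by
  obtain ⟨a, n, hn, e⟩ := s.mem_k h
  obtain ⟨cj, -, -, hc⟩ := s.exists_conj
  have hn0 : (n : ℂ) ≠ 0 := by exact_mod_cast hn.ne'
  have e1 : conj x = s.c (cj a) / n := by
    rw [hc, ← e, map_mul, map_natCast, mul_div_cancel_left₀ _ hn0]
  rw [e1]
  exact div_mem (s.c_mem _) (natCast_mem _ n)

theorem norm_nat (n : ℕ) : Ideal.absNorm (Ideal.span {(n : s.O)}) = n ^ 2 := by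
  have h := s.norm_ab n 0
  simp only [Int.cast_natCast, Int.cast_zero, zero_mul, add_zero, mul_zero, ne_eq,
    OfNat.ofNat_ne_zero, not_false_eq_true, zero_pow] at h
  exact_mod_cast h

theorem dd_mod : s.dd % 3 = 2 := by
  obtain ⟨r, h2⟩ := s.m_dvd
  obtain ⟨a, ha⟩ := s.t_sq
  have := s.dd_eq
  omega

theorem dd_mod_four : s.dd % 4 = 0 ∨ s.dd % 4 = 3 := by
  have h := s.dd_eq
  rcases Int.even_or_odd' s.t with ⟨a, ha | ha⟩
  · have e : s.t ^ 2 = 4 * a ^ 2 := by rw [ha]; ring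
    omega
  · have e : s.t ^ 2 = 4 * (a ^ 2 + a) + 1 := by rw [ha]; ring
    omega

theorem dd_ge : 8 ≤ s.dd := by
  have h1 := s.dd_mod
  have h2 := s.dd_mod_four
  omega

theorem unit_pm {u : s.O} (h : IsUnit u) : u = 1 ∨ u = -1 := by
  obtain ⟨a, b, rfl⟩ := s.span u
  have h1 := s.norm_ab a b
  rw [Ideal.span_singleton_eq_top.2 h, Ideal.absNorm_top] at h1
  have h2 : (8 : ℤ) ≤ s.dd := by exact_mod_cast s.dd_ge
  have h4 := s.c1a_p_four a b
  push_cast at h1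
  have hb : b = 0 := by
    by_contra hb
    have : 1 ≤ b ^ 2 := by have := sq_pos_of_ne_zero hb; omega
    nlinarith [sq_nonneg (2 * a + s.t * b), mul_nonneg (sub_nonneg.2 h2) (sq_nonneg b)]
  subst hb
  have h3 : a ^ 2 = 1 := by linarith
  rcases sq_eq_one_iff.1 h3 with rfl | rfl <;> simp

theorem finrank_k : Module.finrank ℚ s.k = 2 := by
  obtain ⟨B, -⟩ := s.c1a_p_basis
  rw [← RingOfIntegers.rank, Module.finrank_eq_card_basis B, Fintype.card_fin]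

theorem discr_k : NumberField.discr s.k = -(s.dd : ℤ) := by
  obtain ⟨B, h0, h1, hB⟩ := s.c1a_p_basis
  have tr : ∀ a b : ℤ, Algebra.trace ℤ s.O ((a : s.O) + b * s.w) = 2 * a + s.t * b := by
    intro a b
    rw [Algebra.trace_eq_matrix_trace B, Matrix.trace_fin_two]
    simp only [Algebra.leftMulMatrix_eq_repr_mul, h0, h1, mul_one, s.c1a_p_mulw, (hB _ _).1,
      (hB _ _).2]
    ring
  have t1 : Algebra.trace ℤ s.O 1 = 2 := by simpa using tr 1 0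
  have t2 : Algebra.trace ℤ s.O s.w = s.t := by simpa using tr 0 1
  have t3 : Algebra.trace ℤ s.O (s.w * s.w) = s.t ^ 2 - 2 * s.m := by
    have e : s.w * s.w = ((-s.m : ℤ) : s.O) + ((s.t : ℤ) : s.O) * s.w := by
      push_cast
      linear_combination s.w_sq
    rw [e, tr]
    ring
  rw [← NumberField.discr_eq_discr s.k B, Algebra.discr_def, Matrix.det_fin_two, s.dd_eq]
  simp only [Algebra.traceMatrix_apply, Algebra.traceForm_apply, h0, h1, one_mul, mul_one, t1, t2,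
    t3]
  ring

theorem dd_cast : (s.dd : ℂ) = 4 * s.m - s.t ^ 2 := by
  exact_mod_cast congrArg (Int.cast : ℤ → ℂ) s.dd_eq

theorem sqrt_dd : 2 * s.c s.w - s.t = I * (Real.sqrt s.dd : ℝ) := by
  have h1 : ((Real.sqrt s.dd : ℝ) : ℂ) ^ 2 = s.dd := by
    rw [← Complex.ofReal_pow, Real.sq_sqrt (Nat.cast_nonneg _), Complex.ofReal_natCast]
  have h2 : (2 * s.c s.w - s.t - I * (Real.sqrt s.dd : ℝ)) *
      (2 * s.c s.w - s.t + I * (Real.sqrt s.dd : ℝ)) = 0 := by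
    have h3 := s.dd_cast
    linear_combination 4 * s.cw_sq + h1 + h3 - ((Real.sqrt s.dd : ℝ) : ℂ) ^ 2 * Complex.I_sq
  rcases mul_eq_zero.1 h2 with h | h
  · exact sub_eq_zero.1 h
  · exfalso
    have h3 := congrArg Complex.im h
    have h4 : 0 < (s.c s.w).im := s.w_im
    have h5 := Real.sqrt_nonneg (s.dd : ℝ)
    simp only [Complex.add_im, Complex.sub_im, Complex.mul_im, Complex.re_ofNat, Complex.im_ofNat,
      Complex.intCast_im, Complex.I_re, Complex.I_im, Complex.ofReal_re, Complex.ofReal_im,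
      Complex.zero_im] at h3
    linarith

theorem m_eq : ∃ r : ℤ, (s.m : s.O) = 3 * r := by
  obtain ⟨r, hr⟩ := s.m_dvd
  exact ⟨r, by exact_mod_cast congrArg (Nat.cast : ℕ → s.O) hr⟩

theorem mem_p1' (a b : ℤ) : (a : s.O) + b * s.w ∈ s.p1 ↔ (3 : ℤ) ∣ a := by
  rw [p1, Ideal.mem_span_pair]
  constructor
  · rintro ⟨u, v, e⟩
    obtain ⟨u1, u2, rfl⟩ := s.span u
    obtain ⟨v1, v2, rfl⟩ := s.span v
    obtain ⟨r, hr⟩ := s.m_eq
    have h := s.c1a_p_uniq (a := a) (b := b) (a' := 3 * (u1 - v2 * r))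
      (b' := 3 * u2 + v1 + s.t * v2) (by
        push_cast
        linear_combination (-1 : s.O) * e + (v2 : s.O) * s.w_sq - (v2 : s.O) * hr)
    exact ⟨_, h.1⟩
  · rintro ⟨r, rfl⟩
    exact ⟨r, b, by push_cast; ring⟩

theorem mem_p2' (a b : ℤ) : (a : s.O) + b * s.w ∈ s.p2 ↔ (3 : ℤ) ∣ a + s.t * b := by
  rw [p2, Ideal.mem_span_pair, wb]
  constructor
  · rintro ⟨u, v, e⟩
    obtain ⟨u1, u2, rfl⟩ := s.span u
    obtain ⟨v1, v2, rfl⟩ := s.span v
    obtain ⟨r, hr⟩ := s.m_eq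
    have h := s.c1a_p_uniq (a := a) (b := b) (a' := 3 * u1 + v1 * s.t + 3 * (v2 * r))
      (b' := 3 * u2 - v1) (by
        push_cast
        linear_combination (-1 : s.O) * e - (v2 : s.O) * s.w_sq + (v2 : s.O) * hr)
    exact ⟨u1 + s.t * u2 + v2 * r, by rw [h.1, h.2]; ring⟩
  · rintro ⟨r, hr⟩
    have hr' : (a : s.O) + s.t * b = 3 * r := by exact_mod_cast congrArg (Int.cast : ℤ → s.O) hr
    exact ⟨r, -b, by linear_combination (-1 : s.O) * hr'⟩

theorem mem_p2_add (a b : ℤ) : (a : s.O) + b * s.w ∈ s.p2 ↔ (3 : ℤ) ∣ a + b := by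
  obtain ⟨c, hc⟩ := s.t_eq
  rw [s.mem_p2', hc, show a + (3 * c + 1) * b = a + b + 3 * (c * b) by ring]
  exact dvd_add_left (dvd_mul_right _ _)

theorem three_mem : (3 : s.O) ∈ s.p1 ∧ (3 : s.O) ∈ s.p2 :=
  ⟨Ideal.subset_span (by simp), Ideal.subset_span (by simp)⟩

theorem w_mem : s.w ∈ s.p1 ∧ s.wb ∈ s.p2 ∧ s.w ∉ s.p2 ∧ s.wb ∉ s.p1 := by
  refine ⟨Ideal.subset_span (by simp), Ideal.subset_span (by simp), fun h => ?_, fun h => ?_⟩
  · have := (s.mem_p2_add 0 1).1 (by simpa using h)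
    omega
  · have := (s.mem_p1' s.t (-1)).1 (by simpa [wb, sub_eq_add_neg] using h)
    have := s.t_mod
    omega

theorem int_mem (a : ℤ) : ((a : s.O) ∈ s.p1 ↔ (3 : ℤ) ∣ a) ∧ ((a : s.O) ∈ s.p2 ↔ (3 : ℤ) ∣ a) :=
  ⟨by simpa using s.mem_p1' a 0, by simpa using s.mem_p2' a 0⟩

theorem two_not_mem : (2 : s.O) ∉ s.p1 ∧ (2 : s.O) ∉ s.p2 := by
  have h := s.int_mem 2
  push_cast at h
  rw [h.1, h.2]
  decide

theorem p1_mul_p2 : s.p1 * s.p2 = Ideal.span {3} := by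
  obtain ⟨r, hr⟩ := s.m_eq
  obtain ⟨c, hc⟩ := s.t_eq
  have hc' : (s.t : s.O) = 3 * c + 1 := by exact_mod_cast congrArg (Int.cast : ℤ → s.O) hc
  apply le_antisymm
  · rw [Ideal.mul_le]
    intro x hx y hy
    obtain ⟨a, b, rfl⟩ := Ideal.mem_span_pair.1 hx
    obtain ⟨a', b', rfl⟩ := Ideal.mem_span_pair.1 hy
    rw [Ideal.mem_span_singleton']
    exact ⟨a * a' * 3 + a * b' * s.wb + b * s.w * a' + b * b' * r, by
      linear_combination -b * b' * s.w_mul_wb - b * b' * hr⟩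
  · rw [Ideal.span_singleton_le_iff_mem]
    have e : (3 : s.O) = 3 * s.wb + s.w * 3 - 3 * (c * 3) := by
      linear_combination -3 * s.w_add_wb - 3 * hc'
    rw [e]
    exact sub_mem (add_mem (Ideal.mul_mem_mul s.three_mem.1 s.w_mem.2.1)
      (Ideal.mul_mem_mul s.w_mem.1 s.three_mem.2))
      (Ideal.mul_mem_mul s.three_mem.1 (Ideal.mul_mem_left _ _ s.three_mem.2))

theorem pm_one_p1 {x : s.O} (h : x ∉ s.p1) : x - 1 ∈ s.p1 ∨ x + 1 ∈ s.p1 := by
  obtain ⟨a, b, rfl⟩ := s.span x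
  rw [s.mem_p1'] at h
  have e : (a : s.O) + b * s.w - 1 = ((a - 1 : ℤ) : s.O) + b * s.w := by push_cast; ring
  have e' : (a : s.O) + b * s.w + 1 = ((a + 1 : ℤ) : s.O) + b * s.w := by push_cast; ring
  rw [e, e', s.mem_p1', s.mem_p1']
  omega

theorem pm_one_p2 {x : s.O} (h : x ∉ s.p2) : x - 1 ∈ s.p2 ∨ x + 1 ∈ s.p2 := by
  obtain ⟨a, b, rfl⟩ := s.span x
  rw [s.mem_p2_add] at h
  have e : (a : s.O) + b * s.w - 1 = ((a - 1 : ℤ) : s.O) + b * s.w := by push_cast; ring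
  have e' : (a : s.O) + b * s.w + 1 = ((a + 1 : ℤ) : s.O) + b * s.w := by push_cast; ring
  rw [e, e', s.mem_p2_add, s.mem_p2_add]
  omega

theorem p1_max : s.p1.IsMaximal := by
  rw [Ideal.isMaximal_iff]
  refine ⟨fun h => ?_, fun J x hJ hx hxJ => ?_⟩
  · have := (s.mem_p1' 1 0).1 (by simpa using h)
    omega
  · rcases s.pm_one_p1 hx with h | h
    · simpa using sub_mem hxJ (hJ h)
    · simpa using sub_mem (hJ h) hxJ

theorem p2_max : s.p2.IsMaximal := by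
  rw [Ideal.isMaximal_iff]
  refine ⟨fun h => ?_, fun J x hJ hx hxJ => ?_⟩
  · have := (s.mem_p2_add 1 0).1 (by simpa using h)
    omega
  · rcases s.pm_one_p2 hx with h | h
    · simpa using sub_mem hxJ (hJ h)
    · simpa using sub_mem (hJ h) hxJ

theorem p1_ne : s.p1 ≠ ⊥ := by
  intro h
  have := s.three_mem.1
  rw [h, Ideal.mem_bot] at this
  exact (by norm_num : (3 : s.O) ≠ 0) this

theorem p2_ne : s.p2 ≠ ⊥ := by
  intro h
  have := s.three_mem.2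
  rw [h, Ideal.mem_bot] at this
  exact (by norm_num : (3 : s.O) ≠ 0) this

theorem c1a_p_norms : Ideal.absNorm s.p1 = 3 ∧ Ideal.absNorm s.p2 = 3 := by
  have h : Ideal.absNorm s.p1 * Ideal.absNorm s.p2 = 9 := by
    rw [← map_mul, s.p1_mul_p2]
    exact_mod_cast s.norm_nat 3
  have h1 : Ideal.absNorm s.p1 ≠ 1 := fun e => s.p1_max.ne_top (Ideal.absNorm_eq_one_iff.1 e)
  have h2 : Ideal.absNorm s.p2 ≠ 1 := fun e => s.p2_max.ne_top (Ideal.absNorm_eq_one_iff.1 e)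
  generalize Ideal.absNorm s.p1 = x at h h1
  generalize Ideal.absNorm s.p2 = y at h h2
  have hx : x ≤ 9 := Nat.le_of_dvd (by norm_num) ⟨y, h.symm⟩
  interval_cases x <;> omega

theorem norm_p1 : Ideal.absNorm s.p1 = 3 := by
  exact s.c1a_p_norms.1

theorem norm_p2 : Ideal.absNorm s.p2 = 3 := by
  exact s.c1a_p_norms.2

theorem cop12 : IsCoprime s.p1 s.p2 := by
  obtain ⟨c, hc⟩ := s.t_eq
  have hc' : (s.t : s.O) = 3 * c + 1 := by exact_mod_cast congrArg (Int.cast : ℤ → s.O) hc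
  rw [Ideal.isCoprime_iff_exists]
  exact ⟨s.w - c * 3, sub_mem s.w_mem.1 (Ideal.mul_mem_left _ _ s.three_mem.1), s.wb, s.w_mem.2.1,
    by linear_combination s.w_add_wb + hc'⟩

theorem prime_three {q : Ideal s.O} (hq : q.IsPrime) (h : (3 : s.O) ∈ q) : q = s.p1 ∨ q = s.p2 := by
  have h1 : s.p1 * s.p2 ≤ q := by rwa [s.p1_mul_p2, Ideal.span_singleton_le_iff_mem]
  rcases hq.mul_le.1 h1 with h2 | h2
  · exact Or.inl (s.p1_max.eq_of_le hq.ne_top h2).symm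
  · exact Or.inr (s.p2_max.eq_of_le hq.ne_top h2).symm

theorem cop_iff {f : Ideal s.O} : ¬ 3 ∣ Ideal.absNorm f ↔ IsCoprime f (Ideal.span {3}) := by
  constructor
  · intro h
    obtain ⟨a, b, e⟩ := Nat.isCoprime_iff_coprime.2
      ((Nat.Prime.coprime_iff_not_dvd Nat.prime_three).2 h)
    have e' : (a : s.O) * 3 + b * Ideal.absNorm f = 1 := by
      exact_mod_cast congrArg (Int.cast : ℤ → s.O) e
    rw [Ideal.isCoprime_iff_exists]
    exact ⟨_, Ideal.mul_mem_left _ (b : s.O) f.absNorm_mem, a * 3,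
      Ideal.mem_span_singleton'.2 ⟨_, rfl⟩, by linear_combination e'⟩
  · intro h ho
    obtain ⟨P, hP, h1, h2⟩ := Ideal.exists_isMaximal_dvd_of_dvd_absNorm' Nat.prime_three f ho
    have h3 : (3 : s.O) ∈ P := by
      have : ((3 : ℕ) : ℤ) ∈ P.under ℤ := by rw [h1]; exact Ideal.mem_span_singleton_self _
      simpa [Ideal.under_def, Ideal.mem_comap] using this
    refine hP.ne_top (top_le_iff.1 ?_)
    rw [← Ideal.isCoprime_iff_sup_eq.1 h]
    exact sup_le (Ideal.le_of_dvd h2) ((Ideal.span_singleton_le_iff_mem _).2 h3)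

theorem cop_ne {f : Ideal s.O} (h : ¬ 3 ∣ Ideal.absNorm f) : f ≠ ⊥ := by
  rintro rfl
  simp at h

theorem norm_prime {q : Ideal s.O} (hq : q.IsPrime) (h0 : q ≠ ⊥) :
    ∃ l a : ℕ, l.Prime ∧ (l : s.O) ∈ q ∧ 0 < a ∧ Ideal.absNorm q = l ^ a := by
  have := hq.isMaximal h0
  obtain ⟨l, a, h1, h2, h3, h4⟩ := Ideal.exists_prime_and_absNorm_eq_pow q
  exact ⟨l, a, h3, h2, h1, h4⟩

end St

end Pool.Agent.P.MP_20768c_nt.Tz.Cv

end

-- part Cv.M4_p
section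

set_option autoImplicit false

open Complex NumberField IsDedekindDomain Filter Topology
open UpperHalfPlane hiding I
open scoped ComplexConjugate Real MatrixGroups

namespace Pool.Agent.P.MP_20768c_nt.Tz.Cv

open Pool.Agent.P.MP_20768c_nt.Tz.EQ (Lt pr sp IsLat jL qN)

open Cardinal in
theorem m4p_card_le {X Y : Type} [TopologicalSpace Y] [T2Space Y] [FrechetUrysohnSpace Y]
    (f : X → Y) (hf : DenseRange f) (hX : Cardinal.mk X ≤ 𝔠) : Cardinal.mk Y ≤ 𝔠 := by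
  have h : ∀ y : Y, ∃ u : ℕ → X, Filter.Tendsto (fun n => f (u n)) Filter.atTop (nhds y) := by
    intro y
    obtain ⟨x, hx, hl⟩ := mem_closure_iff_seq_limit.1 (hf y)
    choose u hu using hx
    exact ⟨u, by simpa only [hu] using hl⟩
  choose g hg using h
  have hinj : Function.Injective g := fun y y' hy =>
    tendsto_nhds_unique (hg y) (by rw [hy]; exact hg y')
  calc Cardinal.mk Y ≤ Cardinal.mk (ℕ → X) := mk_le_of_injective hinj
    _ = Cardinal.mk X ^ ℵ₀ := by simp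
    _ ≤ 𝔠 ^ ℵ₀ := power_le_power_right hX
    _ = 𝔠 := continuum_power_aleph0

open Cardinal in
theorem m4p_card : Cardinal.mk ℂ_[3] = 𝔠 := by
  refine le_antisymm ?_ (continuum_le_cardinal_of_nontriviallyNormedField ℂ_[3])
  have h1 : Cardinal.mk ℚ_[3] ≤ 𝔠 := m4p_card_le _ (Padic.denseRange_ratCast 3)
    (mk_le_aleph0.trans aleph0_le_continuum)
  have h2 : Cardinal.mk (PadicAlgCl 3) ≤ 𝔠 :=
    (Algebra.IsAlgebraic.cardinalMk_le_max ℚ_[3] (PadicAlgCl 3)).trans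
      (max_le h1 aleph0_le_continuum)
  exact m4p_card_le _ (UniformSpace.Completion.denseRange_coe (α := PadicAlgCl 3)) h2

theorem exists_iota : Nonempty (ℂ →+* ℂ_[3]) := by
  obtain ⟨e⟩ := IsAlgClosed.ringEquiv_of_equiv_of_charZero (K := ℂ_[3]) (L := ℂ)
    (by rw [m4p_card]; exact Cardinal.aleph0_lt_continuum)
    (Cardinal.eq.1 (by rw [m4p_card, Cardinal.mk_complex]))
  exact ⟨e.symm.toRingHom⟩

theorem m4p_iota {w : ℂ} {t : ℤ} {m : ℕ} (hm : 3 ∣ m) (h1 : w ^ 2 = t * w - m)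
    (h2 : conj w = t - w) : ∃ ι : ℂ →+* ℂ_[3], ‖ι w‖ < 1 := by
  obtain ⟨ι⟩ := exists_iota
  by_contra hc
  push Not at hc
  have a1 := hc ι
  have a2 := hc (ι.comp (starRingEnd ℂ))
  rw [RingHom.comp_apply, h2] at a2
  obtain ⟨r, rfl⟩ := hm
  have a3 : ι w * ι (t - w) = ((3 : ℕ) : ℂ_[3]) * (r : ℂ_[3]) := by
    rw [← map_mul, ← map_natCast ι, ← map_natCast ι, ← map_mul]
    congr 1
    push_cast at h1 ⊢
    linear_combination -h1
  have a4 : ‖((3 : ℕ) : ℂ_[3])‖ = 3⁻¹ := by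
    rw [← map_natCast (algebraMap ℚ_[3] ℂ_[3]), norm_algebraMap', Padic.norm_p]
    norm_num
  have a5 := IsUltrametricDist.norm_natCast_le_one ℂ_[3] r
  have a6 := congrArg norm a3
  rw [norm_mul, norm_mul, a4] at a6
  nlinarith [mul_nonneg (sub_nonneg.2 a1) (sub_nonneg.2 a2)]

theorem m4p_int {q : ℚ} (h : IsIntegral ℤ (q : ℂ)) : ∃ n : ℤ, (n : ℚ) = q :=
  IsIntegrallyClosed.isIntegral_iff.1
    ((isIntegral_algebraMap_iff (algebraMap ℚ ℂ).injective).1 h)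

theorem m4p_sqf {E : ℕ} (hE : Squarefree E) {q : ℚ} {c : ℤ} (h : (c : ℚ) = q ^ 2 * E) :
    ∃ n : ℤ, (n : ℚ) = q := by
  have h1 : (c * q.den ^ 2 : ℤ) = q.num ^ 2 * E := by
    have h2 : (q.num : ℚ) = q * q.den := (Rat.mul_den_eq_num q).symm
    apply Int.cast_injective (α := ℚ)
    push_cast
    rw [h, h2]
    ring
  have h2 : q.den * q.den ∣ q.num.natAbs ^ 2 * E := by
    have h3 := congrArg Int.natAbs h1
    simp only [Int.natAbs_mul, Int.natAbs_pow, Int.natAbs_natCast] at h3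
    exact ⟨c.natAbs, by rw [← h3]; ring⟩
  have h3 : Nat.Coprime (q.den * q.den) (q.num.natAbs ^ 2) := by
    rw [← sq]
    exact Nat.Coprime.pow 2 2 q.reduced.symm
  exact ⟨q.num, (Rat.den_eq_one_iff q).1 (Nat.isUnit_iff.1 (hE _ (h3.dvd_of_dvd_mul_left h2)))⟩

theorem m4p_core {E : ℕ} (hE : Squarefree E) {t : ℂ} (h1 : t ^ 2 = -E)
    (h2 : conj t = -t) {a b : ℚ} (hx : IsIntegral ℤ (a + b * t)) :
    ∃ T B n : ℤ, (T : ℂ) = 2 * a ∧ (B : ℂ) = 2 * b ∧ T ^ 2 + B ^ 2 * E = 4 * n := by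
  have hy : IsIntegral ℤ (a - b * t) := by
    have h3 := hx.map (starRingEnd ℂ).toIntAlgHom
    simpa [h2, sub_eq_add_neg] using h3
  obtain ⟨T, hT⟩ := m4p_int (q := 2 * a) (by
    have h3 := hx.add hy
    rwa [show a + b * t + (a - b * t) = ((2 * a : ℚ) : ℂ) by push_cast; ring] at h3)
  obtain ⟨c, hc⟩ := m4p_int (q := (2 * b) ^ 2 * E) (by
    have h3 := ((hx.sub hy).pow 2).neg
    rwa [show -(a + b * t - (a - b * t)) ^ 2 = (((2 * b) ^ 2 * E : ℚ) : ℂ) by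
      push_cast; linear_combination (-4 * (b : ℂ) ^ 2) * h1] at h3)
  obtain ⟨B, hB⟩ := m4p_sqf hE hc
  obtain ⟨n, hn⟩ := m4p_int (q := a ^ 2 + b ^ 2 * E) (by
    have h3 := hx.mul hy
    rwa [show (a + b * t) * (a - b * t) = ((a ^ 2 + b ^ 2 * E : ℚ) : ℂ) by
      push_cast; linear_combination (-(b : ℂ) ^ 2) * h1] at h3)
  refine ⟨T, B, n, by exact_mod_cast congrArg (Rat.cast : ℚ → ℂ) hT,
    by exact_mod_cast congrArg (Rat.cast : ℚ → ℂ) hB, ?_⟩
  apply Int.cast_injective (α := ℚ)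
  push_cast
  rw [hT, hB, hn]
  ring

theorem m4p_odd {E : ℕ} (ho : E % 2 = 1) {T B n : ℤ} (h : T ^ 2 + B ^ 2 * E = 4 * n) :
    Even (T - B) := by
  have h6 : Even (T ^ 2 + B ^ 2 * E) := ⟨2 * n, by rw [h]; ring⟩
  have h7 : ¬ Even (E : ℤ) := by
    rw [Int.even_iff]
    omega
  simpa [Int.even_add, Int.even_sub, Int.even_mul, Int.even_pow, h7] using h6

theorem m4p_even {E : ℕ} (ho : E % 4 = 1 ∨ E % 4 = 2) {T B n : ℤ}
    (h : T ^ 2 + B ^ 2 * E = 4 * n) : Even T ∧ Even B := by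
  obtain ⟨q, hq⟩ : ∃ q : ℤ, (E : ℤ) = 4 * q + 1 ∨ (E : ℤ) = 4 * q + 2 := ⟨E / 4, by omega⟩
  rcases Int.even_or_odd' T with ⟨x, rfl | rfl⟩ <;> rcases Int.even_or_odd' B with ⟨y, rfl | rfl⟩
  · exact ⟨even_two_mul _, even_two_mul _⟩
  · exfalso
    have : 4 * (x ^ 2 + (y ^ 2 + y) * E - n) + E = 0 := by linear_combination h
    omega
  · exfalso
    have : 4 * (x ^ 2 + x + y ^ 2 * E - n) + 1 = 0 := by linear_combination h
    omega
  · exfalso
    have : 4 * (x ^ 2 + x + (y ^ 2 + y) * E - n) + 1 + E = 0 := by linear_combination h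
    omega

theorem m4p_build {E g m dd : ℕ} {r w : ℂ} {t : ℤ} (hg : g ≠ 0) (h1 : r ^ 2 = -E) (hm0 : 0 < m)
    (hm : 3 ∣ m) (ht : t % 3 = 1) (hdd : (dd : ℤ) = 4 * m - t ^ 2) (hw : w ^ 2 = t * w - m)
    (hc : conj w = t - w) (him : 0 < w.im) (hr : ∃ a b : ℚ, w = a + b * r)
    (hs : ∀ a b : ℚ, IsIntegral ℤ (a + b * r) → ∃ u v : ℤ, a + b * r = u + v * w) :
    ∃ s : St, s.k = IntermediateField.adjoin ℚ {g * r} := by
  have hg0 : (g : ℂ) ≠ 0 := Nat.cast_ne_zero.2 hg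
  have hi : IsIntegral ℚ (g * r) := IsIntegral.of_pow (n := 2) (by norm_num) (by
    rw [show (g * r) ^ 2 = ((-(g ^ 2 * E) : ℤ) : ℂ) by rw [mul_pow, h1]; push_cast; ring]
    exact isIntegral_intCast _)
  have hk : w ∈ IntermediateField.adjoin ℚ {g * r} := by
    have h4 := div_mem (IntermediateField.mem_adjoin_simple_self ℚ (g * r)) (natCast_mem _ g)
    rw [mul_div_cancel_left₀ _ hg0] at h4
    obtain ⟨a, b, rfl⟩ := hr
    exact add_mem (SubfieldClass.ratCast_mem _ a) (mul_mem (SubfieldClass.ratCast_mem _ b) h4)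
  have hz : IsIntegral ℤ w :=
    ⟨Polynomial.X ^ 2 - (Polynomial.C t * Polynomial.X - Polynomial.C (m : ℤ)), by monicity!,
      by
        rw [Polynomial.eval₂_sub, Polynomial.eval₂_sub, Polynomial.eval₂_mul, Polynomial.eval₂_C,
          Polynomial.eval₂_C, Polynomial.eval₂_X_pow, Polynomial.eval₂_X, hw]
        simp⟩
  have hz' : IsIntegral ℤ (⟨w, hk⟩ : IntermediateField.adjoin ℚ {g * r}) :=
    (isIntegral_algebraMap_iff (algebraMap (IntermediateField.adjoin ℚ {g * r}) ℂ).injective).1 hz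
  obtain ⟨ι, hι⟩ := m4p_iota hm hw hc
  have hinj : Function.Injective (algebraMap (𝓞 (IntermediateField.adjoin ℚ {g * r})) ℂ) :=
    fun x y e => Subtype.ext (Subtype.ext e)
  have hfd := IntermediateField.adjoin.finiteDimensional hi
  refine ⟨⟨IntermediateField.adjoin ℚ {g * r}, ⟨⟩, ⟨_, hz'⟩, t, m, dd, hm0, hm, ht, hdd,
    hinj ?_, him, fun x => ?_, ι, hι⟩, rfl⟩
  · rw [map_pow, map_sub, map_mul, map_natCast, map_intCast]
    exact hw
  · have h4 : ∀ y ∈ Algebra.adjoin ℚ {g * r}, ∃ a b : ℚ, y = a + b * r := fun y hy => by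
      induction hy using Algebra.adjoin_induction with
      | mem y hy => exact ⟨0, g, by simpa using hy⟩
      | algebraMap r => exact ⟨r, 0, by simp⟩
      | add y z _ _ hy hz =>
        obtain ⟨a, b, rfl⟩ := hy
        obtain ⟨c, d, rfl⟩ := hz
        exact ⟨a + c, b + d, by push_cast; ring⟩
      | mul y z _ _ hy hz =>
        obtain ⟨a, b, rfl⟩ := hy
        obtain ⟨c, d, rfl⟩ := hz
        exact ⟨a * c - b * d * E, a * d + b * c, by
          push_cast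
          linear_combination (b : ℂ) * d * h1⟩
    obtain ⟨a, b, hab⟩ := h4 (algebraMap _ ℂ x) (by
      rw [← IntermediateField.adjoin_simple_toSubalgebra_of_isAlgebraic hi.isAlgebraic]
      exact x.1.2)
    obtain ⟨u, v, huv⟩ := hs a b (by
      rw [← hab]
      exact (isIntegral_algebraMap_iff
        (algebraMap (IntermediateField.adjoin ℚ {g * r}) ℂ).injective).2 x.2)
    refine ⟨u, v, hinj ?_⟩
    rw [map_add, map_mul, map_intCast, map_intCast, hab]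
    exact huv

theorem exists_st {D : ℤ} (h0 : D < 0) (h3 : D % 3 = 1) :
    ∃ (s : St) (d : ℂ), d ^ 2 = D ∧ s.k = IntermediateField.adjoin ℚ {d} := by
  obtain ⟨E, g, hg, hE⟩ := Nat.sq_mul_squarefree D.natAbs
  have hD : D = -(g ^ 2 * E : ℕ) := by omega
  have hE3 : E % 3 = 2 := by
    have h1 : g ^ 2 * E % 3 = 2 := by omega
    have h2 : g % 3 < 3 := Nat.mod_lt _ (by norm_num)
    have h3 : E % 3 < 3 := Nat.mod_lt _ (by norm_num)
    rw [Nat.mul_mod, Nat.pow_mod] at h1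
    generalize g % 3 = x at h1 h2
    generalize E % 3 = y at h1 h3 ⊢
    interval_cases x <;> omega
  have hE4 : E % 4 ≠ 0 := fun e => by
    have := hE 2 (Nat.dvd_of_mod_eq_zero e)
    simp at this
  have hg0 : g ≠ 0 := fun e => by
    rw [e] at hg
    omega
  obtain ⟨r, h1, h2, h4⟩ : ∃ r : ℂ, r ^ 2 = -E ∧ conj r = -r ∧ 0 < r.im := by
    refine ⟨(√E : ℝ) * I, ?_, by simp, ?_⟩
    · rw [mul_pow, I_sq, ← ofReal_pow, Real.sq_sqrt (Nat.cast_nonneg _)]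
      simp
    · have h4 : 0 < E := by omega
      simpa using h4
  have hd : (g * r) ^ 2 = (D : ℂ) := by
    rw [hD, mul_pow, h1]
    push_cast
    ring
  suffices h : ∃ s : St, s.k = IntermediateField.adjoin ℚ {g * r} from
    h.imp fun s hs => ⟨_, hd, hs⟩
  by_cases h5 : E % 4 = 3
  · obtain ⟨m, hm⟩ : ∃ m, E + 1 = 4 * m := ⟨(E + 1) / 4, by omega⟩
    have hm' : (E : ℂ) + 1 = 4 * m := by exact_mod_cast congrArg (Nat.cast : ℕ → ℂ) hm
    refine m4p_build (w := (1 + r) / 2) (t := 1) (m := m) (dd := E) hg0 h1 (by omega) (by omega)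
      (by norm_num) (by omega) ?_ ?_ (by simpa using h4) ⟨1 / 2, 1 / 2, by push_cast; ring⟩
      fun a b hx => ?_
    · push_cast
      linear_combination (1 / 4 : ℂ) * h1 - (1 / 4 : ℂ) * hm'
    · rw [map_div₀, map_add, h2, map_one, map_ofNat]
      push_cast
      ring
    · obtain ⟨T, B, n, e1, e2, e4⟩ := m4p_core hE h1 h2 hx
      obtain ⟨u, hu⟩ := m4p_odd (by omega) e4
      have e3 : (T : ℂ) - B = u + u := by exact_mod_cast congrArg (Int.cast : ℤ → ℂ) hu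
      exact ⟨u, B, by linear_combination (-1 / 2 : ℂ) * e1 - r / 2 * e2 + (1 / 2 : ℂ) * e3⟩
  · refine m4p_build (w := -1 + r) (t := -2) (m := E + 1) (dd := 4 * E) hg0 h1 (by omega)
      (by omega) (by norm_num) (by push_cast; ring) ?_ ?_ (by simpa using h4)
      ⟨-1, 1, by push_cast; ring⟩ fun a b hx => ?_
    · push_cast
      linear_combination h1
    · rw [map_add, h2, map_neg, map_one]
      push_cast
      ring
    · obtain ⟨T, B, n, e1, e2, e4⟩ := m4p_core hE h1 h2 hx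
      obtain ⟨⟨x, rfl⟩, ⟨y, rfl⟩⟩ := m4p_even (by omega) e4
      push_cast at e1 e2
      exact ⟨x + y, y, by push_cast; linear_combination (-1 / 2 : ℂ) * e1 - r / 2 * e2⟩

end Pool.Agent.P.MP_20768c_nt.Tz.Cv

end

-- part Cv.XD
section

set_option autoImplicit false

open Complex NumberField IsDedekindDomain
open scoped Real

namespace Pool.Agent.P.MP_20768c_nt.Tz.Cv

noncomputable section

/-- the classes on which `δ` acts as the `a`-th power modulo `l`-th powers -/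
def Xe {G : Type} [CommGroup G] (δ : G →* G) (a l : ℕ) : Subgroup G :=
  ((powMonoidHom l : G →* G).range).comap (δ / powMonoidHom a)

/-- a prime with trivial decomposition group -/
def Fre (k : Type) {F : Type} [Field k] [Field F] [Algebra k F] (Q : Ideal (𝓞 F)) : Prop :=
  ∀ g : F ≃ₐ[k] F, (∀ x : 𝓞 F, g • x ∈ Q ↔ x ∈ Q) → g = 1

/-- a system of representatives of the left cosets -/
def Tv {G J : Type} [Group G] (H : Subgroup G) (g : J → G) : Prop :=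
  ∀ σ, ∃! j, (g j)⁻¹ * σ ∈ H

def xz (l : ℕ) : ℂ := cexp (2 * π * I / l)

theorem xz_prim {l : ℕ} (hl : l ≠ 0) : IsPrimitiveRoot (xz l) l :=
  Complex.isPrimitiveRoot_exp l hl

theorem xd_prim (l : ℕ) : ∃ n, n ≠ 0 ∧ IsPrimitiveRoot (xz l) n := by
  rcases eq_or_ne l 0 with rfl | h
  · exact ⟨1, one_ne_zero, by simp [xz]⟩
  · exact ⟨l, h, xz_prim h⟩

theorem xz_int (l : ℕ) : IsIntegral ℤ (xz l) := by
  obtain ⟨n, h0, h⟩ := xd_prim l
  exact h.isIntegral (Nat.pos_of_ne_zero h0)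

namespace St

variable (s : St)

def Fz (l : ℕ) : IntermediateField s.k ℂ := IntermediateField.adjoin s.k {xz l}

instance (l : ℕ) : FiniteDimensional s.k (s.Fz l) :=
  IntermediateField.adjoin.finiteDimensional (xz_int l).tower_top

instance (l : ℕ) : NumberField (s.Fz l) := NumberField.of_module_finite s.k (s.Fz l)

instance (l : ℕ) : IsGalois s.k (s.Fz l) := by
  obtain ⟨n, h0, h⟩ := xd_prim l
  have : NeZero n := ⟨h0⟩
  have h1 : IsCyclotomicExtension {n} s.k (IntermediateField.adjoin s.k {xz l}) := by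
    change IsCyclotomicExtension {n} s.k (IntermediateField.adjoin s.k {xz l}).toSubalgebra
    rw [IntermediateField.adjoin_simple_toSubalgebra_of_isAlgebraic
      (IsIntegral.isAlgebraic (xz_int l).tower_top)]
    exact h.adjoin_isCyclotomicExtension s.k
  exact IsCyclotomicExtension.isGalois {n} s.k (IntermediateField.adjoin s.k {xz l})

/-- the automorphisms that fix the `l`-th roots of unity -/
abbrev Hz (l : ℕ) : Subgroup s.Au := MulAction.stabilizer s.Au (xz l)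

/-- a character that factors through a finite extension -/
def Cts (φ : s.Au →* ℂˣ) : Prop :=
  ∃ T : Finset ℂ, (∀ x ∈ T, IsAlgebraic ℚ x) ∧ ∀ σ : s.Au, (∀ x ∈ T, σ x = x) → φ σ = 1

def Unram (C : ℕ) (φ : s.Au →* ℂˣ) : Prop :=
  ∀ (V : ValuationSubring ℂ) (σ : s.Au), V.valuation C = 1 → Inert V.valuation σ → φ σ = 1

/-- continuous characters of order dividing `l` unramified outside `C` -/
def Chx (l C : ℕ) : Set (s.Au →* ℂˣ) := {φ | (∀ σ, φ σ ^ l = 1) ∧ s.Cts φ ∧ s.Unram C φ}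

/-- a character that factors through a ray class group -/
def Ray (φ : s.Au →* ℂˣ) : Prop := ∃ m : ℕ, 0 < m ∧ ∀ σ : s.Au, s.Art m σ ⊤ → φ σ = 1

/-- modulo `m`, `u` is a primitive `l`-th root of unity at `q` and `1` at the other primes -/
def LocR (l m : ℕ) (q : Ideal s.O) (u : s.O) : Prop :=
  ∀ V : ValuationSubring ℂ, V.valuation m < 1 →
    ((∀ x ∈ q, V.valuation (s.c x) < 1) →
      ∃ η, IsPrimitiveRoot η l ∧ V.valuation (s.c u - η) ≤ V.valuation m) ∧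
    (¬ (∀ x ∈ q, V.valuation (s.c x) < 1) → V.valuation (s.c u - 1) ≤ V.valuation m)

end St

end


end Pool.Agent.P.MP_20768c_nt.Tz.Cv

end

-- part Cv.C1a
section

set_option autoImplicit false

open Complex NumberField IsDedekindDomain Filter Topology
open UpperHalfPlane hiding I
open scoped ComplexConjugate Real MatrixGroups

namespace Pool.Agent.P.MP_20768c_nt.Tz.Cv

open Pool.Agent.P.MP_20768c_nt.Tz.EQ (Lt pr sp IsLat jL qN)

namespace St

variable (s : St) {Γ : Type} [LinearOrderedCommGroupWithZero Γ]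

theorem v_int (v : Valuation ℂ Γ) {x : ℂ} (h : IsIntegral ℤ x) : v x ≤ 1 := by
  exact (Valuation.integer.integers v).mem_of_integral (h.tower_top (A := v.integer))

theorem c1a_int (v : Valuation ℂ Γ) (n : ℤ) : v n ≤ 1 := v_int v (isIntegral_algebraMap (x := n))

theorem c1a_lt (v : Valuation ℂ Γ) {x y : ℂ} (hx : v x < 1) (hy : v y ≤ 1) : v (x * y) < 1 := by
  rw [map_mul]
  exact (mul_le_of_le_one_right' hy).trans_lt hx

theorem v_c (v : Valuation ℂ Γ) (x : s.O) : v (s.c x) ≤ 1 := by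
  exact v_int v (map_isIntegral_int (algebraMap s.O ℂ) (RingOfIntegers.isIntegral x))

theorem v_root (v : Valuation ℂ Γ) {x : ℂ} {n : ℕ} (hn : 0 < n) (h : x ^ n = 1) : v x = 1 := by
  have h1 : v x ^ n = 1 := by rw [← map_pow, h, map_one]
  exact (pow_eq_one_iff.1 h1).resolve_right hn.ne'

theorem v_cop (v : Valuation ℂ Γ) (h3 : v 3 < 1) {n : ℤ} (h : ¬ (3 : ℤ) ∣ n) : v n = 1 := by
  obtain ⟨k, rfl | rfl⟩ : ∃ k : ℤ, n = 1 + 3 * k ∨ n = -(1 + 3 * k) := by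
    rcases (by omega : n % 3 = 1 ∨ -n % 3 = 1) with h1 | h1
    · exact ⟨n / 3, Or.inl (by omega)⟩
    · exact ⟨-n / 3, Or.inr (by omega)⟩
  · push_cast
    exact v.map_one_add_of_lt (c1a_lt v h3 (c1a_int v k))
  · rw [Int.cast_neg, v.map_neg]
    push_cast
    exact v.map_one_add_of_lt (c1a_lt v h3 (c1a_int v k))

theorem v_cop_nat (v : Valuation ℂ Γ) (h3 : v 3 < 1) {n : ℕ} (h : ¬ 3 ∣ n) : v n = 1 :=
  v_cop v h3 (n := n) (by exact_mod_cast h)

theorem c1a_par (v : Valuation ℂ Γ) (h3 : v 3 < 1) {y : ℂ} (hy : v y < 1) (a : ℤ) :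
    v (a + y) < 1 ↔ (3 : ℤ) ∣ a := by
  by_cases h : (3 : ℤ) ∣ a
  · refine ⟨fun _ => h, fun _ => v.map_add_lt ?_ hy⟩
    obtain ⟨k, rfl⟩ := h
    push_cast
    exact c1a_lt v h3 (c1a_int v k)
  · have h1 := v_cop v h3 h
    rw [v.map_add_eq_of_lt_left (h1.symm ▸ hy), h1]
    exact ⟨fun h4 => absurd h4 (lt_irrefl _), fun h4 => absurd h4 h⟩

theorem c1a_split {n : ℕ} (hn : n ≠ 0) : ∃ k m : ℕ, ¬ 3 ∣ m ∧ n = 3 ^ k * m :=
  Nat.exists_eq_pow_mul_and_not_dvd hn 3 (by norm_num)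

theorem c1a_nat (v : Valuation ℂ Γ) (h3 : v 3 < 1) (n : ℕ) (hn : n ≠ 0) :
    v n = v 3 ^ padicValNat 3 n := by
  obtain ⟨k, m, hm, rfl⟩ := c1a_split hn
  rw [padicValNat.mul (by positivity) (right_ne_zero_of_mul hn), padicValNat.prime_pow,
    padicValNat.eq_zero_of_not_dvd hm, add_zero, Nat.cast_mul, map_mul, v_cop_nat v h3 hm, mul_one,
    Nat.cast_pow, map_pow, Nat.cast_ofNat]

theorem t_ndvd : ¬ (3 : ℤ) ∣ s.t := by
  have := s.t_mod
  omega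

theorem c1a_div (v : Valuation ℂ Γ) (h3 : v 3 < 1) : ∃ u : s.O, v (s.c u) = 1 ∧
    ∀ a, v (s.c a) < 1 → ∃ a', s.c u * s.c a = 3 * s.c a' := by
  obtain ⟨m, hm⟩ := s.m_dvd
  have hw := s.cw_sq
  rw [hm] at hw
  push_cast at hw
  have hc : ∀ x y : ℤ, s.c (x + y * s.w) = x + y * s.c s.w := fun x y => by
    rw [s.c_add, s.c_mul, s.c_int, s.c_int]
  rcases (s.v_c v s.w).eq_or_lt with h | h
  · have h1 : v (s.t - s.c s.w) < 1 := by
      have e : s.c s.w * (s.t - s.c s.w) = 3 * (m : ℤ) := by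
        push_cast
        linear_combination -hw
      have h4 := c1a_lt v h3 (c1a_int v m)
      rwa [← e, map_mul, h, one_mul] at h4
    refine ⟨s.w, h, fun a ha => ?_⟩
    obtain ⟨x, y, rfl⟩ := s.span a
    have e : s.c (x + y * s.w) = (x + s.t * y : ℤ) + (s.t - s.c s.w) * (-y : ℤ) := by
      rw [hc]
      push_cast
      ring
    obtain ⟨k, hk⟩ := (c1a_par v h3 (c1a_lt v h1 (c1a_int v (-y))) (x + s.t * y)).1 (e ▸ ha)
    have hk' : (x : ℂ) + s.t * y = 3 * k := by exact_mod_cast hk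
    refine ⟨(-(y * m) : ℤ) + k * s.w, ?_⟩
    rw [hc, hc]
    push_cast
    linear_combination s.c s.w * hk' + y * hw
  · have ht := v_cop v h3 s.t_ndvd
    refine ⟨s.wb, by rw [s.c_wb, v.map_sub_eq_of_lt_left (ht.symm ▸ h), ht], fun a ha => ?_⟩
    obtain ⟨x, y, rfl⟩ := s.span a
    rw [hc, mul_comm] at ha
    obtain ⟨k, rfl⟩ := (c1a_par v h3 (c1a_lt v h (c1a_int v y)) x).1 ha
    refine ⟨(k * s.t + y * m : ℤ) + (-k : ℤ) * s.w, ?_⟩
    rw [hc, hc, s.c_wb]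
    push_cast
    linear_combination -y * hw

theorem root_inj (v : Valuation ℂ Γ) {x y : ℂ} {n : ℕ} (hn : v n = 1) (hx : x ^ n = 1)
    (hy : y ^ n = 1) (h : v (x - y) < 1) : x = y := by
  have h0 : n ≠ 0 := fun h1 => by
    rw [h1, Nat.cast_zero, map_zero] at hn
    exact zero_ne_one hn
  have hy0 : y ≠ 0 := fun h1 => by
    rw [h1, zero_pow h0] at hy
    exact zero_ne_one hy
  have hvy := v_root v (Nat.pos_of_ne_zero h0) hy
  have hu : (x / y) ^ n = 1 := by rw [div_pow, hx, hy, div_one]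
  have hvu := v_root v (Nat.pos_of_ne_zero h0) hu
  have h1 : v (x / y - 1) < 1 := by
    rwa [div_sub_one hy0, map_div₀, hvy, div_one]
  have h2 : ∀ i : ℕ, v ((x / y) ^ i - 1) < 1 := fun i => by
    induction i with
    | zero => rw [pow_zero, sub_self, map_zero]; exact zero_lt_one
    | succ i ih =>
      have e : (x / y) ^ (i + 1) - 1 = ((x / y) ^ i - 1) * (x / y) + (x / y - 1) := by ring
      rw [e]
      exact v.map_add_lt (by rwa [map_mul, hvu, mul_one]) h1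
  by_contra hne
  have h3 : ∑ i ∈ Finset.range n, (x / y) ^ i = 0 := by
    rw [geom_sum_eq fun h4 => hne ((div_eq_one_iff_eq hy0).1 h4), hu, sub_self, zero_div]
  have h4 := v.map_sum_lt (s := Finset.range n) one_ne_zero fun i _ => h2 i
  rw [Finset.sum_sub_distrib, h3, Finset.sum_const, Finset.card_range, nsmul_one, zero_sub,
    v.map_neg, hn] at h4
  exact lt_irrefl _ h4

theorem v_three : s.v 3 < 1 := by
  have h3 : ‖s.ι 3‖ < 1 := by
    rw [map_ofNat, ← map_ofNat (algebraMap ℚ_[3] ℂ_[3]), norm_algebraMap']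
    exact Padic.norm_p_lt_one (p := 3)
  exact h3

theorem v_w : s.v (s.c s.w) < 1 := by
  exact s.ι_w

theorem v_wb : s.v (s.c s.wb) = 1 := by
  have ht := v_cop s.v s.v_three s.t_ndvd
  rw [s.c_wb, s.v.map_sub_eq_of_lt_left (ht.symm ▸ s.v_w), ht]

theorem v_eq (x : ℂ) : (s.v x : ℝ) = ‖s.ι x‖ := by
  rfl

theorem mem_p1 (x : s.O) : x ∈ s.p1 ↔ s.v (s.c x) < 1 := by
  obtain ⟨a, b, rfl⟩ := s.span x
  rw [s.mem_p1', s.c_add, s.c_mul, s.c_int, s.c_int, mul_comm]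
  exact (c1a_par s.v s.v_three (c1a_lt s.v s.v_w (c1a_int s.v b)) a).symm

theorem v_k_den {x : ℂ} (hx : x ∈ s.k) (h : s.v x ≤ 1) :
    ∃ a β : s.O, s.v (s.c β) = 1 ∧ s.c β * x = s.c a := by
  obtain ⟨u, hu, hd⟩ := s.c1a_div s.v s.v_three
  have key : ∀ (k : ℕ) (a β : s.O), s.v (s.c β) = 1 → 3 ^ k * (s.c β * x) = s.c a →
      ∃ a β : s.O, s.v (s.c β) = 1 ∧ s.c β * x = s.c a := by
    intro k
    induction k with
    | zero => exact fun a β h1 h2 => ⟨a, β, h1, by rwa [pow_zero, one_mul] at h2⟩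
    | succ k ih =>
      intro a β h1 h2
      obtain ⟨a', e⟩ := hd a (by
        rw [← h2, pow_succ', mul_assoc]
        refine c1a_lt s.v s.v_three ?_
        rw [map_mul, map_mul, map_pow, h1, one_mul]
        exact mul_le_one' (pow_le_one' s.v_three.le k) h)
      refine ih a' (u * β) (by rw [s.c_mul, map_mul, hu, h1, one_mul]) ?_
      rw [s.c_mul]
      linear_combination (s.c u / 3) * h2 + e / 3
  obtain ⟨a, n, hn, e⟩ := s.mem_k hx
  obtain ⟨k, m, hm, rfl⟩ := c1a_split hn.ne'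
  refine key k a m ?_ ?_
  · rw [s.c_nat]
    exact v_cop_nat s.v s.v_three hm
  · rw [s.c_nat, ← e]
    push_cast
    ring

theorem v_k_one {x : ℂ} (hx : x ∈ s.k) (h : s.v x = 1) : s.v (x - 1) < 1 ∨ s.v (x + 1) < 1 := by
  obtain ⟨a, β, h1, e⟩ := s.v_k_den hx h.le
  have h2 : s.v (s.c a) = 1 := by rw [← e, map_mul, h1, h, one_mul]
  have k1 : a - β ∈ s.p1 → s.v (x - 1) < 1 := fun h3 => by
    rwa [s.mem_p1, s.c_sub, ← e, ← mul_sub_one, map_mul, h1, one_mul] at h3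
  have k2 : a + β ∈ s.p1 → s.v (x + 1) < 1 := fun h3 => by
    rwa [s.mem_p1, s.c_add, ← e, ← mul_add_one, map_mul, h1, one_mul] at h3
  rcases s.pm_one_p1 fun h4 => ((s.mem_p1 a).1 h4).ne h2 with ha | ha <;>
    rcases s.pm_one_p1 fun h4 => ((s.mem_p1 β).1 h4).ne h1 with hb | hb
  · exact Or.inl (k1 (by simpa using sub_mem ha hb))
  · exact Or.inr (k2 (by simpa using add_mem ha hb))
  · exact Or.inr (k2 (by simpa using add_mem ha hb))
  · exact Or.inl (k1 (by simpa using sub_mem ha hb))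

theorem v_k_res {x : ℂ} (hx : x ∈ s.k) (h : s.v x ≤ 1) : ∃ e : ℤ, s.v (x - e) < 1 := by
  rcases h.eq_or_lt with h1 | h1
  · rcases s.v_k_one hx h1 with h2 | h2
    · exact ⟨1, by rwa [Int.cast_one]⟩
    · exact ⟨-1, by rwa [Int.cast_neg, Int.cast_one, sub_neg_eq_add]⟩
  · exact ⟨0, by rwa [Int.cast_zero, sub_zero]⟩

theorem v_three_ne : s.v 3 ≠ 0 := s.v.ne_zero_iff.2 three_ne_zero

theorem v_k_val (v : Valuation ℂ Γ) (h3 : v 3 < 1) {x : ℂ} (hx : x ∈ s.k) (h0 : x ≠ 0) :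
    ∃ j : ℤ, v x = v 3 ^ j := by
  obtain ⟨u, hu, hd⟩ := s.c1a_div v h3
  have h30 : v 3 ≠ 0 := (v.ne_zero_iff).2 three_ne_zero
  have key : ∀ (k : ℕ) (a : s.O), v 3 ^ k ≤ v (s.c a) → ∃ j : ℕ, v (s.c a) = v 3 ^ j := by
    intro k
    induction k with
    | zero => exact fun a h => ⟨0, le_antisymm (by rw [pow_zero]; exact s.v_c v a) h⟩
    | succ k ih =>
      intro a h
      rcases (s.v_c v a).eq_or_lt with h1 | h1
      · exact ⟨0, by rw [h1, pow_zero]⟩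
      · obtain ⟨a', e⟩ := hd a h1
        have h5 : v (s.c a) = v 3 * v (s.c a') := by
          rw [← map_mul, ← e, map_mul, hu, one_mul]
        rw [h5, pow_succ'] at h
        obtain ⟨j, hj⟩ := ih a' (le_of_mul_le_mul_left h (zero_lt_iff.2 h30))
        exact ⟨j + 1, by rw [h5, hj, pow_succ']⟩
  obtain ⟨a, n, hn, e⟩ := s.mem_k hx
  have ha : s.c a ≠ 0 := e ▸ mul_ne_zero (Nat.cast_ne_zero.2 hn.ne') h0
  obtain ⟨b, n', hn', e'⟩ := s.mem_k (inv_mem (s.c_mem a))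
  obtain ⟨j, hj⟩ := key (padicValNat 3 n') a (by
    rw [← c1a_nat v h3 n' hn'.ne', (mul_inv_eq_iff_eq_mul₀ ha).1 e', map_mul]
    exact mul_le_of_le_one_left' (s.v_c v b))
  refine ⟨j - padicValNat 3 n, ?_⟩
  rw [zpow_sub₀ h30, zpow_natCast, zpow_natCast, ← hj, ← e, map_mul, c1a_nat v h3 n hn.ne',
    mul_div_cancel_left₀ _ (pow_ne_zero _ h30)]

theorem v_nat (n : ℕ) (hn : n ≠ 0) : s.v n = s.v 3 ^ padicValNat 3 n := by
  exact c1a_nat s.v s.v_three n hn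

theorem kr_congr {d e : ℤ} (h : (4 * s.dd : ℤ) ∣ d - e) : s.kr d = s.kr e := by
  rw [kr, kr, (ZMod.intCast_eq_intCast_iff_dvd_sub e d (4 * s.dd)).2 (by exact_mod_cast h)]

theorem kr_nat {d : ℕ} (hd : Odd d) : s.kr d = jacobiSym (-s.dd) d := by
  rw [kr, Int.cast_natCast, ZMod.val_natCast, jacobiSym.mod_right _ hd, Int.natAbs_neg,
    Int.natAbs_natCast]

theorem kr_one : s.kr 1 = 1 := by
  have h := s.kr_nat odd_one
  rwa [jacobiSym.one_right, Nat.cast_one] at h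

theorem kr_neg_one : s.kr (-1) = -1 := by
  obtain ⟨e, he⟩ : ∃ e : ℕ, s.dd = e + 1 := ⟨s.dd - 1, by have := s.dd_ge; omega⟩
  have ho : Odd (4 * e + 3) := ⟨2 * e + 1, by ring⟩
  have h1 : s.kr (-1) = s.kr ((4 * e + 3 : ℕ) : ℤ) :=
    s.kr_congr ⟨-1, by rw [he]; push_cast; ring⟩
  have h2 : jacobiSym (4 * s.dd) (4 * e + 3) = 1 := by
    rw [jacobiSym.mod_left' (a₂ := 1), jacobiSym.one_left]
    exact (Int.modEq_iff_dvd.2 ⟨1, by rw [he]; push_cast; ring⟩).symm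
  rw [jacobiSym.mul_left, jacobiSym.at_four ho, one_mul] at h2
  rw [h1, s.kr_nat ho, jacobiSym.neg _ ho, h2, ZMod.χ₄_nat_three_mod_four (by omega), mul_one]

theorem kr_mul {d e : ℤ} (hd : Odd d) (he : Odd e) : s.kr (d * e) = s.kr d * s.kr e := by
  have h0 : (4 * s.dd : ℤ) ≠ 0 := by have := s.dd_ge; omega
  have key : ∀ a : ℤ, Odd a → ∃ n : ℕ, Odd n ∧ (4 * s.dd : ℤ) ∣ a - n := fun a ha => by
    have h1 := Int.emod_nonneg a h0
    refine ⟨(a % (4 * s.dd)).toNat, ?_, ?_⟩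
    · rw [← Int.odd_coe_nat, Int.toNat_of_nonneg h1, Int.emod_def]
      exact ha.sub_even ⟨2 * s.dd * (a / (4 * s.dd)), by ring⟩
    · rw [Int.toNat_of_nonneg h1]
      exact Int.dvd_self_sub_emod
  obtain ⟨a, ha, ⟨x, hx⟩⟩ := key d hd
  obtain ⟨b, hb, ⟨y, hy⟩⟩ := key e he
  have h3 : (4 * s.dd : ℤ) ∣ d * e - ((a * b : ℕ) : ℤ) :=
    ⟨x * e + a * y, by push_cast; linear_combination e * hx + a * hy⟩
  rw [s.kr_congr h3, s.kr_congr ⟨x, hx⟩, s.kr_congr ⟨y, hy⟩, s.kr_nat ha, s.kr_nat hb,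
    s.kr_nat (ha.mul hb), jacobiSym.mul_right' _ ha.pos.ne' hb.pos.ne']

end St

end Pool.Agent.P.MP_20768c_nt.Tz.Cv

end
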