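import Pool.Agent.P.MP_20768c_nt.Tz.Z2
import Pool.Agent.P.MP_20768c_nt.Tz.Z3
import Pool.Agent.P.MP_20768c_nt.Tz.Z4
import Pool.Agent.P.MP_20768c_nt.Tz.Z5

-- part Cv.G1b_p
section

set_option autoImplicit false

open Complex NumberField IsDedekindDomain Filter Topology
open UpperHalfPlane hiding I
open scoped ComplexConjugate Real MatrixGroups

namespace Pool.Agent.P.MP_20768c_nt.Tz.Cv

open Pool.Agent.P.MP_20768c_nt.Tz.EQ (Lt pr sp IsLat jL qN)

variable {L L' : Lt} {R : Finset ℂ} {z x : ℂ}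

theorem g1bp_norm (w u : ℂ) :
    ‖conj w * cexp (-u * (w * conj w))‖ = ‖w‖ ^ 1 * Real.exp (-u.re * ‖w‖ ^ 2) := by
  rw [norm_mul, Complex.norm_conj, pow_one, Complex.norm_exp, Complex.mul_conj,
    Complex.normSq_eq_norm_sq, Complex.mul_re, Complex.ofReal_re, Complex.ofReal_im, mul_zero,
    sub_zero, Complex.neg_re]

theorem g1bp_if (L : Lt) (z : ℂ) (u : ℝ) :
    ∑' l : L, (if z + l = 0 then 0 else ‖z + l‖ ^ 1 * Real.exp (-u * ‖z + l‖ ^ 2)) =
      ∑' l : L, ‖z + l‖ ^ 1 * Real.exp (-(u : ℂ).re * ‖z + l‖ ^ 2) := by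
  refine tsum_congr fun l => ?_
  rw [Complex.ofReal_re]
  split_ifs with h
  · rw [h, norm_zero, pow_one, zero_mul]
  · rfl

theorem th1_add (L : Lt) (z u : ℂ) {l : ℂ} (hl : l ∈ L) : th1 L (z + l) u = th1 L z u := by
  unfold th1
  rw [← (Equiv.addLeft (⟨l, hl⟩ : L)).tsum_eq fun m : L =>
    conj (z + m) * cexp (-u * ((z + m) * conj (z + m)))]
  refine tsum_congr fun m => ?_
  rw [Equiv.coe_addLeft, Submodule.coe_add, add_assoc]

theorem th1_neg (L : Lt) (z u : ℂ) : th1 L (-z) u = -th1 L z u := by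
  unfold th1
  rw [← tsum_neg, ← (Equiv.neg L).tsum_eq]
  refine tsum_congr fun m => ?_
  rw [Equiv.neg_apply, Submodule.coe_neg, ← neg_add, map_neg, neg_mul_neg, neg_mul]

theorem th1_sc (L : Lt) (hx : x ≠ 0) (z u : ℂ) :
    th1 (pr x * L) (x * z) u = conj x * th1 L z (x * conj x * u) := by
  unfold th1
  rw [tsum_sc L hx fun l => conj (x * z + l) * cexp (-u * ((x * z + l) * conj (x * z + l))),
    ← tsum_mul_left]
  refine tsum_congr fun m => ?_
  rw [← mul_add, map_mul, mul_assoc]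
  congr 3
  ring

theorem th1_reps (h' : IsLat L') (hR : Reps L L' R) (z : ℂ) {u : ℂ} (hu : 0 < u.re) :
    th1 L' z u = ∑ r ∈ R, th1 L (z + r) u := by
  unfold th1
  rw [reps_tsum hR (f := fun l => conj (z + l) * cexp (-u * ((z + l) * conj (z + l))))
    (Summable.of_norm ((summable_th h' hu 1 z).congr fun l => (g1bp_norm _ u).symm))]
  simp only [add_assoc]

theorem int_th1 (h : IsLat L) (z : ℂ) :
    MeasureTheory.IntegrableOn (fun u : ℝ => th1 L z u) (Set.Ioi 0) := by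
  have hc : Countable L := (lat_countable h).to_subtype
  have hm : Measurable fun u : ℝ => th1 L z u := by
    unfold th1
    exact Measurable.tsum fun l => Continuous.measurable (by fun_prop)
  rw [← Set.Ioc_union_Ioi_eq_Ioi zero_le_one]
  refine MeasureTheory.IntegrableOn.union ?_ ?_
  · have hA := ar_pos h
    obtain ⟨B, hB⟩ : ∃ B : ℝ, B = π ^ 2 / ar L ^ 2 := ⟨_, rfl⟩
    have hB0 : 0 < B := by rw [hB]; positivity
    obtain ⟨C, δ, hδ, hC⟩ := gauss_decay h 1 0 hB0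
    refine MeasureTheory.Measure.integrableOn_of_bounded (M := 2 * |C| / (B * δ ^ 2))
      (by simp) hm.aestronglyMeasurable ?_
    filter_upwards [MeasureTheory.ae_restrict_mem measurableSet_Ioc] with u hu
    have hu0 : 0 < u := hu.1
    have hv : B ≤ B / u := le_div_self hB0.le hu0 hu.2
    have hv0 : 0 < B / u := hB0.trans_le hv
    have e1 : (π ^ 2 / (ar L ^ 2 * u) : ℂ) = ((B / u : ℝ) : ℂ) := by
      rw [hB, div_div]
      push_cast
      rfl
    have e2 : (π ^ 2 / (ar L ^ 2 * u ^ 2) : ℂ) = (((B / u) ^ 2 / B : ℝ) : ℂ) := by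
      have : (B / u) ^ 2 / B = π ^ 2 / (ar L ^ 2 * u ^ 2) := by
        rw [← div_div, ← hB]
        field_simp
      rw [this]
      push_cast
      rfl
    rw [poisson1 h z (by simpa using hu0), e1, e2, norm_mul, norm_neg, Complex.norm_real,
      Real.norm_of_nonneg (by positivity)]
    generalize B / u = v at hv hv0
    have h1 : ‖∑' l : L, conj (l : ℂ) * pa L l z * cexp (-(v : ℂ) * (l * conj (l : ℂ)))‖ ≤
        |C| * Real.exp (-δ * v) := by
      refine le_trans ?_ ((hC v hv).trans (mul_le_mul_of_nonneg_right (le_abs_self C)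
        (Real.exp_pos _).le))
      rw [g1bp_if]
      refine tsum_of_norm_bounded (summable_th h (u := v) (by simpa using hv0) 1 0).hasSum
        fun l => le_of_eq ?_
      rw [mul_right_comm, norm_mul, norm_pa, mul_one, g1bp_norm, zero_add]
    have h2 : (δ * v) ^ 2 / 2 ≤ Real.exp (δ * v) := by
      have := Real.quadratic_le_exp_of_nonneg (mul_pos hδ hv0).le
      linarith [mul_pos hδ hv0]
    have h3 : v ^ 2 * Real.exp (-δ * v) ≤ 2 / δ ^ 2 := by
      rw [neg_mul, Real.exp_neg, ← div_eq_mul_inv, div_le_div_iff₀ (Real.exp_pos _) (by positivity)]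
      linarith [mul_pow δ v 2]
    calc v ^ 2 / B * _ ≤ v ^ 2 / B * (|C| * Real.exp (-δ * v)) :=
          mul_le_mul_of_nonneg_left h1 (by positivity)
      _ = |C| / B * (v ^ 2 * Real.exp (-δ * v)) := by ring
      _ ≤ |C| / B * (2 / δ ^ 2) := mul_le_mul_of_nonneg_left h3 (by positivity)
      _ = _ := by
        rw [div_mul_div_comm, mul_comm]
  · obtain ⟨C, δ, hδ, hC⟩ := gauss_decay h 1 z one_pos
    refine MeasureTheory.Integrable.mono' ((exp_neg_integrableOn_Ioi 1 hδ).const_mul C)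
      hm.aestronglyMeasurable ?_
    filter_upwards [MeasureTheory.ae_restrict_mem measurableSet_Ioi] with u hu
    have hu1 : 1 < u := hu
    refine le_trans ?_ (hC u hu1.le)
    rw [g1bp_if]
    exact tsum_of_norm_bounded
      (summable_th h (u := u) (by simpa using one_pos.trans hu1) 1 z).hasSum
      fun l => le_of_eq (g1bp_norm _ _)

theorem eF_add (L : Lt) (z : ℂ) {l : ℂ} (hl : l ∈ L) : eF L (z + l) = eF L z := by
  simp only [eF, th1_add L z _ hl]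

theorem eF_neg (L : Lt) (z : ℂ) : eF L (-z) = -eF L z := by
  simp only [eF, th1_neg, MeasureTheory.integral_neg]

theorem eF_sc (L : Lt) (hx : x ≠ 0) (z : ℂ) : eF (pr x * L) (x * z) = eF L z / x := by
  have hb : 0 < Complex.normSq x := Complex.normSq_pos.2 hx
  have h1 := MeasureTheory.integral_comp_mul_left_Ioi (fun u : ℝ => th1 L z u) 0 hb
  simp only [Complex.ofReal_mul, mul_zero] at h1
  simp only [eF, th1_sc L hx, MeasureTheory.integral_const_mul, Complex.mul_conj]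
  have h2 : conj x ≠ 0 := by simpa using hx
  rw [h1, Complex.real_smul, Complex.ofReal_inv, ← Complex.mul_conj]
  field_simp

end Pool.Agent.P.MP_20768c_nt.Tz.Cv

end

-- part Cv.G2c
section

set_option autoImplicit false

open Complex NumberField IsDedekindDomain Filter Topology
open UpperHalfPlane hiding I
open scoped ComplexConjugate Real MatrixGroups

namespace Pool.Agent.P.MP_20768c_nt.Tz.Cv

open Pool.Agent.P.MP_20768c_nt.Tz.EQ (Lt pr sp IsLat jL qN)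

variable {L : Lt} {z : ℂ}

theorem summable_rpow (h : IsLat L) {t : ℝ} (ht : 1 < t) :
    Summable fun l : L => (‖(l : ℂ)‖ ^ 2) ^ (-t) := by
  obtain ⟨P, rfl⟩ := exists_pp h
  refine (ZLattice.summable_norm_rpow P.lattice (-(2 * t)) ?_).congr fun l => ?_
  · rw [P.finrank_lattice]
    push_cast
    linarith
  · rw [← Real.rpow_two, ← Real.rpow_mul (norm_nonneg _), mul_neg]
    rfl

open Classical in
/-- the coefficients of the theta series without its constant term -/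
noncomputable def g2cA (L : Lt) (z : ℂ) (l : L) : ℂ := if (l : ℂ) = 0 then 0 else pa L l z

/-- the exponents -/
noncomputable def g2cP (L : Lt) (l : L) : ℝ := π ^ 2 / ar L ^ 2 * ‖(l : ℂ)‖ ^ 2

/-- the theta series without its constant term -/
noncomputable def g2cT (L : Lt) (z : ℂ) (s : ℝ) : ℂ :=
  ∑' l : L, g2cA L z l * (Real.exp (-g2cP L l * s) : ℝ)

theorem g2c_k (h : IsLat L) : 0 < π ^ 2 / ar L ^ 2 := by
  have := ar_pos h
  positivity

theorem g2c_norm (s : ℝ) (l : L) : ‖g2cA L z l * (Real.exp (-g2cP L l * s) : ℝ)‖ =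
    if (0 : ℂ) + l = 0 then 0 else
      ‖(0 : ℂ) + l‖ ^ 0 * Real.exp (-(π ^ 2 / ar L ^ 2 * s) * ‖(0 : ℂ) + l‖ ^ 2) := by
  rw [zero_add, g2cA, g2cP]
  split_ifs with h
  · simp
  · rw [norm_mul, norm_pa, Complex.norm_real, Real.norm_of_nonneg (Real.exp_pos _).le, pow_zero]
    congr 2
    ring

theorem g2c_sum (h : IsLat L) {s : ℝ} (hs : 0 < s) :
    Summable fun l : L => Real.exp (-g2cP L l * s) := by
  have := summable_th h (u := ((π ^ 2 / ar L ^ 2 * s : ℝ) : ℂ))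
    (by rw [ofReal_re]; exact mul_pos (g2c_k h) hs) 0 0
  refine this.congr fun l => ?_
  rw [ofReal_re, pow_zero, one_mul, zero_add, g2cP]
  congr 1
  ring

theorem g2c_le {s s' : ℝ} (h : IsLat L) (hs : s' ≤ s) (l : L) :
    ‖g2cA L z l * (Real.exp (-g2cP L l * s) : ℝ)‖ ≤ Real.exp (-g2cP L l * s') := by
  have h1 : ‖g2cA L z l‖ ≤ 1 := by
    rw [g2cA]
    split_ifs
    · simp
    · exact (norm_pa _ _ _).le
  have h2 : 0 ≤ g2cP L l := mul_nonneg (g2c_k h).le (by positivity)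
  rw [norm_mul, Complex.norm_real, Real.norm_of_nonneg (Real.exp_pos _).le]
  refine (mul_le_of_le_one_left (Real.exp_pos _).le h1).trans (Real.exp_le_exp.2 ?_)
  rw [neg_mul, neg_mul]
  exact neg_le_neg (mul_le_mul_of_nonneg_left hs h2)

theorem g2c_sn (h : IsLat L) {s : ℝ} (hs : 0 < s) :
    Summable fun l : L => ‖g2cA L z l * (Real.exp (-g2cP L l * s) : ℝ)‖ :=
  (g2c_sum h hs).of_nonneg_of_le (fun _ => norm_nonneg _) (g2c_le h le_rfl)

theorem g2c_cont (h : IsLat L) : ContinuousOn (g2cT L z) (Set.Ioi 0) := by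
  intro s hs
  have hs' : 0 < s := hs
  have := continuousOn_tsum (s := Set.Ici (s / 2))
    (f := fun (l : L) (s : ℝ) => g2cA L z l * (Real.exp (-g2cP L l * s) : ℝ))
    (fun l => by fun_prop) (g2c_sum h (half_pos hs')) fun l x hx => g2c_le h hx l
  exact (this.continuousAt (Ici_mem_nhds (half_lt_self hs'))).continuousWithinAt

theorem g2c_top (h : IsLat L) :
    ∃ δ, 0 < δ ∧ g2cT L z =O[atTop] fun s => Real.exp (-δ * s) := by
  obtain ⟨C, δ, hδ, hC⟩ := gauss_decay h 0 0 (g2c_k h)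
  refine ⟨δ * (π ^ 2 / ar L ^ 2), mul_pos hδ (g2c_k h), Asymptotics.IsBigO.of_bound C ?_⟩
  filter_upwards [eventually_ge_atTop 1] with s hs
  refine (norm_tsum_le_tsum_norm (g2c_sn h (one_pos.trans_le hs))).trans ?_
  simp only [g2c_norm]
  refine (hC _ (le_mul_of_one_le_right (g2c_k h).le hs)).trans (le_of_eq ?_)
  rw [Real.norm_of_nonneg (Real.exp_pos _).le]
  congr 2
  ring

theorem g2c_th (L : Lt) (z : ℂ) (u : ℝ) :
    th0 L z u = ((∑' l : L, Real.exp (-u * ‖z + l‖ ^ 2) : ℝ) : ℂ) := by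
  rw [th0, ofReal_tsum]
  refine tsum_congr fun l => ?_
  rw [mul_conj']
  push_cast
  rfl

theorem g2c_poi (h : IsLat L) {u : ℝ} (hu : 0 < u) :
    th0 L z u = π / (ar L * u) * (1 + g2cT L z u⁻¹) := by
  classical
  have e : ∀ l : L, cexp (-(π ^ 2 / (ar L ^ 2 * u)) * (l * conj (l : ℂ))) =
      (Real.exp (-g2cP L l * u⁻¹) : ℝ) := fun l => by
    rw [mul_conj', g2cP]
    push_cast
    congr 1
    ring
  rw [poisson0 h z (by rwa [ofReal_re])]
  congr 1
  simp only [e]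
  have h1 := (hasSum_ite_eq (0 : L) (1 : ℂ)).add (g2c_sn (z := z) h (inv_pos.2 hu)).of_norm.hasSum
  refine (tsum_congr fun l => ?_).trans h1.tsum_eq
  by_cases hl : l = 0
  · simp [hl, g2cA, g2cP, pa]
  · have hl' : (l : ℂ) ≠ 0 := fun e => hl (Subtype.ext e)
    rw [if_neg hl, zero_add, g2cA, if_neg hl']

theorem g2c_bot (h : IsLat L) (hz : z ∉ L) :
    g2cT L z =O[𝓝[>] 0] fun s : ℝ => s ^ (-(0 : ℝ)) := by
  obtain ⟨C, δ, hδ, hC⟩ := gauss_decay h 0 z one_pos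
  have ha := ar_pos h
  have hne : ∀ l : L, z + l ≠ 0 := fun l e =>
    hz (by rw [eq_neg_of_add_eq_zero_left e]; exact neg_mem l.2)
  simp only [if_neg (hne _), pow_zero, one_mul] at hC
  refine Asymptotics.IsBigO.of_bound (ar L / π * (|C| / δ) + 1) ?_
  filter_upwards [Ioc_mem_nhdsGT one_pos] with s hs
  have hu : 0 < s⁻¹ := inv_pos.2 hs.1
  have h1 := g2c_poi (z := z) h hu
  have h2 := hC s⁻¹ (one_le_inv₀ hs.1 |>.2 hs.2)
  rw [inv_inv, g2c_th] at h1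
  generalize s⁻¹ = u at h1 h2 hu
  have h0 : 0 ≤ ∑' l : L, Real.exp (-u * ‖z + l‖ ^ 2) := tsum_nonneg fun _ => (Real.exp_pos _).le
  generalize ∑' l : L, Real.exp (-u * ‖z + l‖ ^ 2) = θ at h1 h2 h0
  have h3 : g2cT L z s = ((ar L / π * (u * θ) : ℝ) : ℂ) - 1 := by
    have : (π : ℂ) ≠ 0 := ofReal_ne_zero.2 Real.pi_ne_zero
    have : (ar L : ℂ) ≠ 0 := ofReal_ne_zero.2 ha.ne'
    have : (u : ℂ) ≠ 0 := ofReal_ne_zero.2 hu.ne'
    push_cast
    rw [h1]
    field_simp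
    ring
  have h4 : u * Real.exp (-δ * u) ≤ 1 / δ := by
    rw [le_div_iff₀ hδ, neg_mul, Real.exp_neg, mul_right_comm, ← div_eq_mul_inv,
      div_le_one (Real.exp_pos _), mul_comm]
    linarith [Real.add_one_le_exp (δ * u)]
  have h5 : u * θ ≤ |C| / δ :=
    calc u * θ ≤ u * (|C| * Real.exp (-δ * u)) := mul_le_mul_of_nonneg_left
          (h2.trans (mul_le_mul_of_nonneg_right (le_abs_self C) (Real.exp_pos _).le)) hu.le
      _ = |C| * (u * Real.exp (-δ * u)) := mul_left_comm _ _ _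
      _ ≤ |C| * (1 / δ) := mul_le_mul_of_nonneg_left h4 (abs_nonneg C)
      _ = |C| / δ := mul_one_div _ _
  rw [neg_zero, Real.rpow_zero, norm_one, mul_one, h3]
  refine (norm_sub_le _ _).trans ?_
  rw [norm_one, Complex.norm_real, Real.norm_of_nonneg (by positivity)]
  exact add_le_add_left (mul_le_mul_of_nonneg_left h5 (by positivity)) _

theorem g2c_eG (h : IsLat L) : (eG L z : ℂ) = π / ar L * mellin (g2cT L z) 1 := by
  have ha := ar_pos h
  rw [mellin, eG, ← integral_complex_ofReal]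
  simp only [sub_self, cpow_zero, one_smul]
  rw [← MeasureTheory.integral_comp_rpow_Ioi (g2cT L z) (p := -1) (by norm_num),
    ← MeasureTheory.integral_const_mul]
  refine MeasureTheory.setIntegral_congr_fun measurableSet_Ioi fun u hu => ?_
  have hu' : 0 < u := hu
  have e : ((th0 L z u).re : ℂ) = th0 L z u := by rw [g2c_th, ofReal_re]
  have e2 : |(-1 : ℝ)| * u ^ (-1 - 1 : ℝ) = (u ^ 2)⁻¹ := by
    rw [abs_neg, abs_one, one_mul, ← Real.rpow_two, ← Real.rpow_neg hu'.le]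
    norm_num
  have : (ar L : ℂ) ≠ 0 := ofReal_ne_zero.2 ha.ne'
  have : (u : ℂ) ≠ 0 := ofReal_ne_zero.2 hu'.ne'
  simp only [e2, Real.rpow_neg_one, real_smul]
  push_cast
  rw [e, g2c_poi h hu']
  field_simp
  ring

theorem g2c_mel (h : IsLat L) {t : ℝ} (ht : 1 < t) :
    ∑' l : L, pa L l z * (((‖(l : ℂ)‖ ^ 2) ^ (-t) : ℝ) : ℂ) =
      ((π ^ 2 / ar L ^ 2 : ℝ) : ℂ) ^ (t : ℂ) / Gamma t * mellin (g2cT L z) t := by
  have ht0 : 0 < t := one_pos.trans ht
  have hk := g2c_k h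
  have hp : ∀ l : L, 0 ≤ g2cP L l := fun l => mul_nonneg hk.le (by positivity)
  have := (lat_countable h).to_subtype
  have : Countable L := this
  have e : ∀ l : L, g2cA L z l / (g2cP L l : ℂ) ^ (t : ℂ) =
      (((π ^ 2 / ar L ^ 2) ^ (-t) : ℝ) : ℂ) *
        (pa L l z * (((‖(l : ℂ)‖ ^ 2) ^ (-t) : ℝ) : ℂ)) := fun l => by
    rw [g2cA]
    split_ifs with hl
    · simp [hl, Real.zero_rpow (neg_ne_zero.2 ht0.ne')]
    · rw [mul_left_comm, ← ofReal_mul, ← Real.mul_rpow hk.le (by positivity), ← g2cP,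
        Real.rpow_neg (hp l), ofReal_inv, ofReal_cpow (hp l), div_eq_mul_inv]
  have h1 := hasSum_mellin (a := g2cA L z) (p := g2cP L) (F := g2cT L z) (s := t)
    (fun l => ?_) (by rwa [ofReal_re]) (fun s hs => (g2c_sn h hs).of_norm.hasSum) ?_
  · rw [← h1.tsum_eq]
    simp only [mul_div_assoc, e]
    rw [tsum_mul_left, tsum_mul_left, Real.rpow_neg hk.le, ofReal_inv, ofReal_cpow hk.le]
    have : Gamma t ≠ 0 := Gamma_ne_zero_of_re_pos (by rwa [ofReal_re])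
    have : ((π ^ 2 / ar L ^ 2 : ℝ) : ℂ) ^ (t : ℂ) ≠ 0 :=
      cpow_ne_zero_iff.2 (Or.inl (ofReal_ne_zero.2 hk.ne'))
    field_simp
  · by_cases hl : (l : ℂ) = 0
    · exact Or.inl (if_pos hl)
    · exact Or.inr (mul_pos hk (pow_pos (norm_pos_iff.2 hl) 2))
  · refine ((summable_rpow h ht).mul_left ((π ^ 2 / ar L ^ 2) ^ (-t))).congr fun l => ?_
    have := congrArg norm (e l)
    rw [norm_div, ← ofReal_cpow (hp l), norm_mul, norm_mul, norm_pa,
      one_mul, Complex.norm_real, Complex.norm_real, Complex.norm_real,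
      Real.norm_of_nonneg (Real.rpow_nonneg (hp l) _), Real.norm_of_nonneg (by positivity),
      Real.norm_of_nonneg (by positivity)] at this
    exact this.symm

theorem eG_lim (h : IsLat L) (hz : z ∉ L) :
    Tendsto (fun t : ℝ => ∑' l : L, pa L l z * (((‖(l : ℂ)‖ ^ 2) ^ (-t) : ℝ) : ℂ))
      (𝓝[>] 1) (𝓝 (π / ar L * eG L z)) := by
  obtain ⟨δ, hδ, htop⟩ := g2c_top (z := z) h
  have ha := ar_pos h
  have h1 := (mellin_differentiableAt_of_isBigO_rpow_exp (s := 1) hδ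
    ((g2c_cont h).locallyIntegrableOn measurableSet_Ioi) htop (g2c_bot h hz)
    (by norm_num)).continuousAt
  have h2 : ContinuousAt Gamma 1 := (differentiableAt_Gamma 1 fun m e => by
    have := congrArg Complex.re e
    simp at this
    linarith [Nat.cast_nonneg (α := ℝ) m]).continuousAt
  have h3 : ContinuousAt (fun s : ℂ => ((π ^ 2 / ar L ^ 2 : ℝ) : ℂ) ^ s) 1 :=
    continuousAt_const_cpow (ofReal_ne_zero.2 (g2c_k h).ne')
  have h4 := ((h3.div h2 (by simp)).mul h1).tendsto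
  have h5 : Tendsto (fun t : ℝ => (t : ℂ)) (𝓝[>] 1) (𝓝 1) :=
    (continuous_ofReal.tendsto' 1 1 ofReal_one).mono_left nhdsWithin_le_nhds
  have h6 : (π / ar L * eG L z : ℂ) =
      ((π ^ 2 / ar L ^ 2 : ℝ) : ℂ) ^ (1 : ℂ) / Gamma 1 * mellin (g2cT L z) 1 := by
    rw [g2c_eG h, cpow_one, Gamma_one]
    push_cast
    ring
  rw [h6]
  refine (h4.comp h5).congr' ?_
  filter_upwards [self_mem_nhdsWithin] with t ht
  exact (g2c_mel h ht).symm

end Pool.Agent.P.MP_20768c_nt.Tz.Cv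

end

-- part Cv.Y2
section

set_option autoImplicit false

open NumberField IsDedekindDomain Filter Topology

namespace Pool.Agent.P.MP_20768c_nt.Tz.Cv

variable {K : Type} [Field K] [NumberField K]

theorem y2_three {P : Type} [Group P] [Finite P] {U U' : Subgroup P} (hle : U ≤ U') {i : ℕ}
    (hU : Nat.card U = 3 ^ i) (hU' : Nat.card U' = 3 ^ (i + 1)) :
    ∃ ν : U' →* Multiplicative (ZMod 3), ∀ a : U', a.1 ∈ U ↔ ν a = 1 := by
  have hp : Fact (Nat.Prime 3) := ⟨Nat.prime_three⟩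
  have h1 : Nat.card (U.subgroupOf U') = 3 ^ i := by
    rw [← hU]
    exact Nat.card_congr (Subgroup.subgroupOfEquivOfLe hle).toEquiv
  have h2 := (U.subgroupOf U').card_mul_index
  rw [h1, hU', pow_succ] at h2
  have h3 : (U.subgroupOf U').index = 3 := Nat.eq_of_mul_eq_mul_left (by positivity) h2
  have h4 : (U.subgroupOf U').Normal := Subgroup.normal_of_index_eq_minFac_card (by
    rw [h3, hU', Nat.prime_three.pow_minFac (Nat.succ_ne_zero i)])
  let e := mulEquivOfPrimeCardEq (p := 3) (G := U' ⧸ U.subgroupOf U')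
    (G' := Multiplicative (ZMod 3)) h3 (by simp)
  refine ⟨e.toMonoidHom.comp (QuotientGroup.mk' _), fun a => ?_⟩
  rw [MonoidHom.comp_apply, MulEquiv.coe_toMonoidHom, EmbeddingLike.map_eq_one_iff,
    QuotientGroup.mk'_apply, QuotientGroup.eq_one_iff, Subgroup.mem_subgroupOf]

theorem y2_onto {H₀ : Subgroup (GQ K)} {P : Type} [Group P] [Finite P] (ρ : H₀ →* P) {n : ℕ}
    (hn : Nat.card P = 3 ^ n) (T : Finset (AlgebraicClosure K))
    (hT : ∀ g : H₀, (∀ x ∈ T, g.1 x = x) → ρ g = 1) (h : FinQ H₀) (j : ℕ) :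
    ∀ (i : ℕ) (U : Subgroup P), i + j = n → Nat.card U = 3 ^ i →
      FinQ ((U.comap ρ).map H₀.subtype) := by
  have hm : ∀ (U : Subgroup P) (g : GQ K),
      g ∈ (U.comap ρ).map H₀.subtype ↔ ∃ hg : g ∈ H₀, ρ ⟨g, hg⟩ ∈ U := by
    intro U g
    constructor
    · rintro ⟨x, hx, rfl⟩
      exact ⟨x.2, hx⟩
    · rintro ⟨hg, hx⟩
      exact ⟨⟨g, hg⟩, hx, rfl⟩
  induction j with
  | zero =>
    intro i U hi hU
    have h1 : U = ⊤ := Subgroup.eq_top_of_card_eq U (by rw [hU, hn, ← hi, add_zero])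
    have h2 : (U.comap ρ).map H₀.subtype = H₀ := by
      ext g
      rw [hm, h1]
      exact ⟨fun ⟨hg, _⟩ => hg, fun hg => ⟨hg, Subgroup.mem_top _⟩⟩
    rw [h2]
    exact h
  | succ j ih =>
    intro i U hi hU
    have hp : Fact (Nat.Prime 3) := ⟨Nat.prime_three⟩
    obtain ⟨U', hU', hle⟩ := Sylow.exists_subgroup_card_pow_succ (p := 3) (n := i)
      (by rw [hn]; exact pow_dvd_pow 3 (by omega)) hU
    obtain ⟨ν, hν⟩ := y2_three hle hU hU'
    let μ : (U'.comap ρ).map H₀.subtype →* U' := MonoidHom.mk'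
      (fun g => ⟨ρ ⟨g.1, ((hm _ _).1 g.2).1⟩, ((hm _ _).1 g.2).2⟩)
      fun a b => Subtype.ext (map_mul ρ ⟨a.1, ((hm _ _).1 a.2).1⟩ ⟨b.1, ((hm _ _).1 b.2).1⟩)
    refine asc_three (Subgroup.map_mono (Subgroup.comap_mono hle)) (ν.comp μ) (fun g => ?_) T ?_
      (ih (i + 1) U' (by omega) hU')
    · rw [MonoidHom.comp_apply, ← hν, hm]
      exact ⟨fun h => h.2, fun h => ⟨_, h⟩⟩
    · intro g hg hx
      obtain ⟨g0, -⟩ := (hm _ _).1 hg
      refine (hm _ _).2 ⟨g0, ?_⟩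
      rw [hT ⟨g, g0⟩ hx]
      exact one_mem U

theorem asc_grp {H₀ H₁ : Subgroup (GQ K)} {Q : Type} [Group Q] [Finite Q] (ρ : H₀ →* Q)
    (h2 : ∀ g, ∃ j : ℕ, ρ g ^ 3 ^ j = 1) (hle : H₁ ≤ H₀) (hk : ∀ g : H₀, g.1 ∈ H₁ ↔ ρ g = 1)
    (T : Finset (AlgebraicClosure K)) (hT : ∀ g ∈ H₀, (∀ x ∈ T, g x = x) → g ∈ H₁)
    (h : FinQ H₀) : FinQ H₁ := by
  have hp : Fact (Nat.Prime 3) := ⟨Nat.prime_three⟩
  have hP : IsPGroup 3 ρ.range := by
    rintro ⟨_, g, rfl⟩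
    obtain ⟨j, hj⟩ := h2 g
    exact ⟨j, Subtype.ext hj⟩
  obtain ⟨n, hn⟩ := IsPGroup.iff_card.1 hP
  have hk' : ∀ g : H₀, ρ.rangeRestrict g = 1 ↔ ρ g = 1 := fun g => Subtype.ext_iff
  have h3 := y2_onto ρ.rangeRestrict hn T
    (fun g hg => (hk' g).2 ((hk g).1 (hT g.1 g.2 hg))) h n 0 ⊥ (zero_add n)
    (by rw [Subgroup.card_bot, pow_zero])
  have h4 : ((⊥ : Subgroup ρ.range).comap ρ.rangeRestrict).map H₀.subtype = H₁ := by
    ext g
    constructor
    · rintro ⟨x, hx, rfl⟩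
      exact (hk x).2 ((hk' x).1 (Subgroup.mem_bot.1 (Subgroup.mem_comap.1 hx)))
    · intro hg
      exact ⟨⟨g, hle hg⟩,
        Subgroup.mem_comap.2 (Subgroup.mem_bot.2 ((hk' _).2 ((hk ⟨g, hle hg⟩).1 hg))), rfl⟩
  rw [← h4]
  exact h3

theorem exists_T {M Ω : Type} [Field M] [Field Ω] [Algebra M Ω] (L : IntermediateField M Ω)
    [FiniteDimensional M L] : ∃ T : Finset Ω, ∀ g : Ω →+* Ω,
      (∀ x : M, g (algebraMap M Ω x) = algebraMap M Ω x) → (∀ x ∈ T, g x = x) →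
      ∀ x ∈ L, g x = x := by
  classical
  have hfr : Module.Free M L := Module.Free.of_divisionRing _ _
  let b := Module.finBasis M L
  refine ⟨Finset.univ.image fun i => ((b i : L) : Ω), fun g h hg x hx => ?_⟩
  have h2 : x = ∑ i, algebraMap M Ω (b.repr ⟨x, hx⟩ i) * ((b i : L) : Ω) := by
    have := congrArg (fun y : L => (y : Ω)) (b.sum_repr ⟨x, hx⟩)
    simp only [IntermediateField.coe_sum, Algebra.smul_def] at this
    exact this.symm
  rw [h2, map_sum]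
  refine Finset.sum_congr rfl fun i _ => ?_
  rw [map_mul, h, hg _ (Finset.mem_image_of_mem _ (Finset.mem_univ i))]

theorem asc_fld {M : Type} [Field M] [Algebra M (AlgebraicClosure K)]
    (L : IntermediateField M (AlgebraicClosure K)) [FiniteDimensional M L] [IsGalois M L]
    (M₀ : Set (AlgebraicClosure K)) (hM : ∀ x : M, algebraMap M (AlgebraicClosure K) x ∈ M₀)
    (hle : ∀ x ∈ M₀, x ∈ L) (h2 : ∀ g : L ≃ₐ[M] L,
      (∀ x : L, (x : AlgebraicClosure K) ∈ M₀ → g x = x) → ∃ j : ℕ, g ^ 3 ^ j = 1)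
    (h : FinQ (Hq M₀)) : FinQ (Hq (L : Set (AlgebraicClosure K))) := by
  let j : Hq M₀ →* (AlgebraicClosure K ≃ₐ[M] AlgebraicClosure K) :=
    MonoidHom.mk' (fun g => AlgEquiv.ofRingEquiv (f := g.1.toRingEquiv) fun x => g.2.1 _ (hM x))
      fun g h => AlgEquiv.ext fun x => rfl
  have hj : ∀ (g : Hq M₀) x, j g x = g.1 x := fun g x => rfl
  let ρ : Hq M₀ →* (L ≃ₐ[M] L) := (AlgEquiv.restrictNormalHom L).comp j
  have hρ : ∀ (g : Hq M₀) (x : L), ((ρ g x : L) : AlgebraicClosure K) = g.1 x := fun g x =>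
    AlgEquiv.restrictNormalHom_apply L (j g) x
  obtain ⟨T, hT⟩ := exists_T L
  refine asc_grp ρ (fun g => h2 _ fun x hx => Subtype.ext ((hρ g x).trans (g.2.1 _ hx)))
    (fun g hg => ⟨fun x hx => hg.1 x (hle x hx), hg.2⟩) (fun g => ⟨fun hg => ?_, fun hg => ?_⟩) T
    (fun g hg hx => ⟨hT g.toRingEquiv.toRingHom (fun x => hg.1 _ (hM x)) hx, hg.2⟩) h
  · exact AlgEquiv.ext fun x => Subtype.ext ((hρ g x).trans (hg.1 _ x.2))
  · refine ⟨fun x hx => ?_, g.2.2⟩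
    have := hρ g ⟨x, hx⟩
    rw [hg] at this
    exact this.symm

end Pool.Agent.P.MP_20768c_nt.Tz.Cv

end

-- part Cv.C1b_p
section

set_option autoImplicit false

open Complex NumberField IsDedekindDomain Filter Topology
open UpperHalfPlane hiding I
open scoped ComplexConjugate Real MatrixGroups

namespace Pool.Agent.P.MP_20768c_nt.Tz.Cv

open Pool.Agent.P.MP_20768c_nt.Tz.EQ (Lt pr sp IsLat jL qN)

namespace St

variable (s : St) {L M : s.Sub} {a b : Ideal s.O} {x y : ℂ}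

theorem mem_zl : x ∈ s.zl L ↔ x ∈ L := by
  exact Iff.rfl

theorem zl_le : s.zl L ≤ s.zl M ↔ L ≤ M := by
  exact Iff.rfl

theorem c_mul_mem (β : s.O) (h : x ∈ L) : s.c β * x ∈ L := by
  exact L.smul_mem β h

theorem mem_one : x ∈ (1 : s.Sub) ↔ ∃ β : s.O, s.c β = x := by
  exact Submodule.mem_one

theorem mem_idl : x ∈ s.idl a ↔ ∃ β ∈ a, s.c β = x := by
  exact Submodule.mem_map

theorem c_mem_idl {β : s.O} : s.c β ∈ s.idl a ↔ β ∈ a := by
  rw [mem_idl]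
  exact ⟨fun ⟨γ, hγ, h⟩ => s.c_inj h ▸ hγ, fun h => ⟨β, h, rfl⟩⟩

theorem idl_mul (a b : Ideal s.O) : s.idl (a * b) = s.idl a * s.idl b := by
  exact IsLocalization.coeSubmodule_mul ℂ a b

theorem idl_pow (a : Ideal s.O) (n : ℕ) : s.idl (a ^ n) = s.idl a ^ n := by
  induction n with
  | zero =>
    rw [pow_zero, pow_zero, Ideal.one_eq_top]
    exact IsLocalization.coeSubmodule_top ℂ
  | succ n ih => rw [pow_succ, pow_succ, idl_mul, ih]

theorem idl_top : s.idl ⊤ = 1 := by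
  exact IsLocalization.coeSubmodule_top ℂ

theorem idl_le : s.idl a ≤ s.idl b ↔ a ≤ b := by
  refine ⟨fun h β hβ => s.c_mem_idl.1 (h (s.c_mem_idl.2 hβ)), fun h => Submodule.map_mono h⟩

theorem idl_sup (a b : Ideal s.O) : s.idl (a ⊔ b) = s.idl a ⊔ s.idl b := by
  exact Submodule.map_sup _ _ _

theorem idl_span (β : s.O) : s.idl (Ideal.span {β}) = s.sc (s.c β) := by
  exact IsLocalization.coeSubmodule_span_singleton ℂ β

theorem idl_mul_le (a : Ideal s.O) (L : s.Sub) : s.idl a * L ≤ L := by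
  refine Submodule.mul_le.2 fun x hx y hy => ?_
  obtain ⟨β, -, rfl⟩ := s.mem_idl.1 hx
  exact s.c_mul_mem β hy

theorem mul_mem_idl {β : s.O} (hβ : β ∈ a) (h : x ∈ L) : s.c β * x ∈ s.idl a * L := by
  exact Submodule.mul_mem_mul (s.c_mem_idl.2 hβ) h

theorem exists_idl (h : L ≤ 1) : ∃ a, L = s.idl a := by
  refine ⟨L.comap (Algebra.linearMap s.O ℂ), le_antisymm (fun x hx => ?_)
    (Submodule.map_comap_le _ _)⟩
  obtain ⟨β, rfl⟩ := s.mem_one.1 (h hx)
  exact s.c_mem_idl.2 hx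

theorem mem_sc_mul : y ∈ s.sc x * L ↔ ∃ z ∈ L, x * z = y := by
  exact Submodule.mem_span_singleton_mul

theorem mul_mem_sc' (hx : x ≠ 0) : x * y ∈ s.sc x * L ↔ y ∈ L := by
  rw [mem_sc_mul]
  exact ⟨fun ⟨z, hz, h⟩ => mul_left_cancel₀ hx h ▸ hz, fun h => ⟨y, h, rfl⟩⟩

theorem zl_sc (x : ℂ) (L : s.Sub) : s.zl (s.sc x * L) = pr x * s.zl L := by
  ext y
  rw [mem_zl, mem_sc_mul, Pool.Agent.P.MP_20768c_nt.Tz.EQ.mem_pr_mul]
  rfl

theorem isUnit_sc (hx : x ≠ 0) : IsUnit (s.sc x) := by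
  exact IsUnit.of_mul_eq_one (s.sc x⁻¹) (by rw [← sc_mul, mul_inv_cancel₀ hx, sc_one])

theorem sc_eq_one (h : s.sc x = 1) : x = 1 ∨ x = -1 := by
  obtain ⟨β, rfl⟩ := s.mem_one.1 (h ▸ s.mem_sc x)
  rw [← idl_span, ← idl_top] at h
  have h1 : Ideal.span {β} = ⊤ := top_le_iff.1 (s.idl_le.1 h.ge)
  rcases s.unit_pm (Ideal.span_singleton_eq_top.1 h1) with rfl | rfl
  · exact Or.inl s.c_one
  · exact Or.inr (by rw [c, map_neg, map_one])

theorem c1bp_inv (h : s.idl a * M = 1) : s.inv a = M := by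
  refine le_antisymm ?_ (Submodule.le_div_iff_mul_le.2 (by rw [mul_comm, h]))
  have h1 : s.inv a * s.idl a ≤ 1 := Submodule.le_div_iff_mul_le.1 le_rfl
  have h2 : s.inv a * s.idl a * M ≤ 1 * M := mul_le_mul_left h1 _
  rwa [mul_assoc, h, mul_one, one_mul] at h2

theorem c1bp_unit (ha : a ≠ ⊥) : ∃ M, s.idl a * M = 1 := by
  obtain ⟨β, hβ, h0⟩ := Submodule.exists_mem_ne_zero_of_ne_bot ha
  obtain ⟨b, hb⟩ : a ∣ Ideal.span {β} :=
    Ideal.dvd_iff_le.2 ((Ideal.span_singleton_le_iff_mem _).2 hβ)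
  refine ⟨s.idl b * s.sc (s.c β)⁻¹, ?_⟩
  rw [← mul_assoc, ← idl_mul, ← hb, idl_span, ← sc_mul, mul_inv_cancel₀ (s.c_ne h0), sc_one]

theorem idl_inv (ha : a ≠ ⊥) : s.idl a * s.inv a = 1 := by
  obtain ⟨M, hM⟩ := s.c1bp_unit ha
  rw [s.c1bp_inv hM, hM]

theorem isUnit_idl (ha : a ≠ ⊥) : IsUnit (s.idl a) := by
  exact IsUnit.of_mul_eq_one _ (s.idl_inv ha)

theorem isUnit_inv (ha : a ≠ ⊥) : IsUnit (s.inv a) := by
  exact IsUnit.of_mul_eq_one_right _ (s.idl_inv ha)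

theorem inv_mul (ha : a ≠ ⊥) (hb : b ≠ ⊥) : s.inv (a * b) = s.inv a * s.inv b := by
  refine s.c1bp_inv ?_
  rw [idl_mul, mul_mul_mul_comm, s.idl_inv ha, s.idl_inv hb, one_mul]

theorem inv_top : s.inv ⊤ = 1 := by
  exact s.c1bp_inv (by rw [idl_top, one_mul])

theorem inv_span {β : s.O} (h : β ≠ 0) : s.inv (Ideal.span {β}) = s.sc (s.c β)⁻¹ := by
  exact s.c1bp_inv (by rw [idl_span, ← sc_mul, mul_inv_cancel₀ (s.c_ne h), sc_one])

theorem mem_mul_inv (ha : a ≠ ⊥) : x ∈ L * s.inv a ↔ ∀ β ∈ a, s.c β * x ∈ L := by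
  constructor
  · intro h β hβ
    have h1 := s.mul_mem_idl hβ h
    rwa [mul_left_comm, s.idl_inv ha, mul_one] at h1
  · intro h
    have h1 : s.idl a * s.sc x ≤ L := by
      refine Submodule.mul_le.2 fun u hu v hv => ?_
      obtain ⟨β, hβ, rfl⟩ := s.mem_idl.1 hu
      obtain ⟨γ, rfl⟩ := Submodule.mem_span_singleton.1 hv
      rw [mul_smul_comm]
      exact L.smul_mem γ (h β hβ)
    have h2 : s.idl a * s.sc x * s.inv a ≤ L * s.inv a := mul_le_mul_left h1 _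
    rw [mul_right_comm, s.idl_inv ha, one_mul] at h2
    exact h2 (s.mem_sc x)

theorem le_mul_inv (ha : a ≠ ⊥) (L : s.Sub) : L ≤ L * s.inv a := by
  exact fun x hx => (s.mem_mul_inv ha).2 fun β _ => s.c_mul_mem β hx

theorem mem_of_cop (ha : a ≠ ⊥) (h : IsCoprime a b) (hx : x ∈ L * s.inv a)
    (hb : ∀ β ∈ b, s.c β * x ∈ L) : x ∈ L := by
  obtain ⟨u, hu, v, hv, huv⟩ := Ideal.isCoprime_iff_exists.1 h
  have h1 := add_mem ((s.mem_mul_inv ha).1 hx u hu) (hb v hv)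
  rwa [← add_mul, ← c_add, huv, c_one, one_mul] at h1

theorem mem_mul_cop (h : IsCoprime a b) (h1 : x ∈ s.idl a * L) (h2 : x ∈ s.idl b * L) :
    x ∈ s.idl (a * b) * L := by
  obtain ⟨u, hu, v, hv, huv⟩ := Ideal.isCoprime_iff_exists.1 h
  have e1 := s.mul_mem_idl hu h2
  have e2 := s.mul_mem_idl hv h1
  rw [← mul_assoc, ← idl_mul] at e1
  rw [← mul_assoc, ← idl_mul, mul_comm b a] at e2
  have e3 := add_mem e1 e2
  rwa [← add_mul, ← c_add, huv, c_one, one_mul] at e3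

theorem prime_mem (hL : IsUnit L) {q : Ideal s.O} (hq : q.IsMaximal) {β : s.O} (hβ : β ∉ q)
    (hx : x ∈ L) (h : s.c β * x ∈ s.idl q * L) : x ∈ s.idl q * L := by
  obtain ⟨u, v, hv, huv⟩ := hq.exists_inv hβ
  have e3 := add_mem (s.c_mul_mem u h) (s.mul_mem_idl hv hx)
  rwa [← mul_assoc, ← c_mul, ← add_mul, ← c_add, huv, c_one, one_mul] at e3

theorem mul_le_mul_unit (hL : IsUnit L) {A B : s.Sub} : A * L ≤ B * L ↔ A ≤ B := by
  obtain ⟨M, hM⟩ := hL.exists_right_inv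
  refine ⟨fun h => ?_, fun h => mul_le_mul_left h _⟩
  have h2 : A * L * M ≤ B * L * M := mul_le_mul_left h _
  rwa [mul_assoc, mul_assoc, hM, mul_one, mul_one] at h2

theorem unit_eq (hL : IsUnit L) : ∃ x : ℂ, x ≠ 0 ∧ ∃ a, a ≠ ⊥ ∧ L = s.sc x * s.idl a := by
  obtain ⟨M, hM⟩ := hL.exists_right_inv
  have h1 : (1 : s.Sub) ≠ ⊥ := fun h =>
    one_ne_zero ((Submodule.mem_bot s.O).1 (h ▸ s.mem_one.2 ⟨1, s.c_one⟩ : (1 : ℂ) ∈ (⊥ : s.Sub)))
  have hM0 : M ≠ ⊥ := by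
    rintro rfl
    exact h1 (by rw [← hM, Submodule.mul_bot])
  obtain ⟨y, hy, hy0⟩ := Submodule.exists_mem_ne_zero_of_ne_bot hM0
  have h2 : s.sc y * L ≤ 1 := by
    rw [← hM, mul_comm L M]
    exact mul_le_mul_left ((Submodule.span_singleton_le_iff_mem _ _).2 hy) _
  obtain ⟨a, ha⟩ := s.exists_idl h2
  have h3 : L = s.sc y⁻¹ * s.idl a := by
    rw [← ha, ← mul_assoc, ← sc_mul, inv_mul_cancel₀ hy0, sc_one, one_mul]
  refine ⟨y⁻¹, inv_ne_zero hy0, a, ?_, h3⟩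
  rintro rfl
  apply h1
  rw [← hM, h3, idl, Submodule.map_bot, Submodule.mul_bot, Submodule.bot_mul]

end St

end Pool.Agent.P.MP_20768c_nt.Tz.Cv

end

-- part Cv.E1_p
section

set_option autoImplicit false

open Complex NumberField IsDedekindDomain Filter Topology
open UpperHalfPlane hiding I
open scoped ComplexConjugate Real MatrixGroups

namespace Pool.Agent.P.MP_20768c_nt.Tz.Cv

open Pool.Agent.P.MP_20768c_nt.Tz.EQ (Lt pr sp IsLat jL qN)

variable {Γ : Type} [LinearOrderedCommGroupWithZero Γ]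

theorem v_nat_dvd {F : Type} [Field F] (v : Valuation F Γ) {a b : ℕ} (h : a ∣ b) (hb : v b = 1) :
    v a = 1 := by
  obtain ⟨c, rfl⟩ := h
  have ha : v a ≤ 1 := natCast_mem v.integer a
  have hc : v c ≤ 1 := natCast_mem v.integer c
  rw [Nat.cast_mul, map_mul] at hb
  exact le_antisymm ha (hb.symm.le.trans (mul_le_of_le_one_right' hc))

theorem exists_nat_mul {x : ℂ} (hx : IsAlgebraic ℚ x) (h0 : x ≠ 0) :
    ∃ C : ℕ, C ≠ 0 ∧ ∀ V : ValuationSubring ℂ, V.valuation C = 1 → V.valuation x = 1 := by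
  obtain ⟨y, y0, hy⟩ := ((IsFractionRing.isAlgebraic_iff ℤ ℚ ℂ).2 hx).exists_integral_multiple
  obtain ⟨z, z0, hz⟩ := ((IsFractionRing.isAlgebraic_iff ℤ ℚ ℂ).2 hx.inv).exists_integral_multiple
  have key : ∀ (V : ValuationSubring ℂ) (n : ℤ) (a : ℂ), IsIntegral ℤ (n • a) →
      V.valuation (n.natAbs : ℂ) = 1 → V.valuation a ≤ 1 := by
    intro V n a ha hv
    have h1 := St.v_int V.valuation ha
    have h2 : V.valuation (n : ℂ) = 1 := by
      rcases Int.natAbs_eq n with e | e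
      · rw [e, Int.cast_natCast, hv]
      · rw [e, Int.cast_neg, Int.cast_natCast, Valuation.map_neg, hv]
    rwa [zsmul_eq_mul, map_mul, h2, one_mul] at h1
  refine ⟨y.natAbs * z.natAbs, mul_ne_zero (Int.natAbs_ne_zero.2 y0) (Int.natAbs_ne_zero.2 z0),
    fun V hV => le_antisymm (key V y x hy (v_nat_dvd _ (dvd_mul_right _ _) hV)) ?_⟩
  have h1 := key V z x⁻¹ hz (v_nat_dvd _ (dvd_mul_left _ _) hV)
  rw [map_inv₀] at h1
  exact (inv_le_one₀ (zero_lt_iff.2 ((Valuation.ne_zero_iff _).2 h0))).1 h1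

theorem e1p_card (E : Type) [Field E] [NumberField E] : Cardinal.mk E ≤ Cardinal.aleph0 := by
  refine (Algebra.IsAlgebraic.cardinalMk_le_max ℚ E).trans ?_
  simp

theorem e1p_ext {E A : Type} [Field E] [Algebra E ℂ] [CommRing A] [Nontrivial A] [Algebra E A]
    (hA : Cardinal.mk A ≤ Cardinal.aleph0) (φ ψ : A →ₐ[E] ℂ) (hφ : Function.Injective φ)
    (hψ : Function.Injective ψ) : ∃ σ : ℂ ≃ₐ[E] ℂ, ∀ a, σ (φ a) = ψ a := by
  obtain ⟨σ, hσ⟩ := Pool.Agent.P.MP_20768c_nt.Tz.EQ.aut_ring hA φ.toRingHom ψ.toRingHom hφ hψ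
  refine ⟨AlgEquiv.ofRingEquiv (f := σ) fun x => ?_, hσ⟩
  have := hσ (algebraMap E A x)
  simpa using this

theorem e1p_conj {E : Type} [Field E] [Algebra E ℂ] (hE : Cardinal.mk E ≤ Cardinal.aleph0)
    {x y : ℂ} (h : ∀ P : Polynomial E, Polynomial.aeval x P = 0 ↔ Polynomial.aeval y P = 0) :
    ∃ σ : ℂ ≃ₐ[E] ℂ, σ x = y := by
  let J : Ideal (Polynomial E) := RingHom.ker (Polynomial.aeval x : Polynomial E →ₐ[E] ℂ)
  have hx : ∀ P ∈ J, Polynomial.aeval x P = 0 := fun P hP => hP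
  have hy : ∀ P ∈ J, Polynomial.aeval y P = 0 := fun P hP => (h P).1 hP
  have : Nontrivial (Polynomial E ⧸ J) := Ideal.Quotient.nontrivial_iff.2 (RingHom.ker_ne_top _)
  have hA : Cardinal.mk (Polynomial E ⧸ J) ≤ Cardinal.aleph0 :=
    (Cardinal.mk_le_of_surjective Ideal.Quotient.mk_surjective).trans
      (Polynomial.cardinalMk_le_max.trans (max_le hE le_rfl))
  obtain ⟨σ, hσ⟩ := e1p_ext hA (Ideal.Quotient.liftₐ J (Polynomial.aeval x) hx)
    (Ideal.Quotient.liftₐ J (Polynomial.aeval y) hy)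
    ((injective_iff_map_eq_zero _).2 fun a ha => by
      obtain ⟨P, rfl⟩ := Ideal.Quotient.mk_surjective a
      exact Ideal.Quotient.eq_zero_iff_mem.2 ha)
    ((injective_iff_map_eq_zero _).2 fun a ha => by
      obtain ⟨P, rfl⟩ := Ideal.Quotient.mk_surjective a
      exact Ideal.Quotient.eq_zero_iff_mem.2 ((h P).2 ha))
  refine ⟨σ, ?_⟩
  simpa using hσ (Ideal.Quotient.mk J Polynomial.X)

theorem e1p_trans {E : Type} [Field E] [Algebra E ℂ] (hE : Cardinal.mk E ≤ Cardinal.aleph0)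
    {x : ℂ} (hx : ¬ IsAlgebraic E x) (n : ℕ) : ∃ σ : ℂ ≃ₐ[E] ℂ, σ x = x + n := by
  have hy : ¬ IsAlgebraic E (x + n) := fun hn => hx (by
    have h2 : IsAlgebraic E ((n : ℕ) : ℂ) := isAlgebraic_natCast n
    simpa using hn.sub h2)
  refine e1p_conj hE fun P => ⟨fun h => ?_, fun h => ?_⟩
  · by_cases h0 : P = 0
    · simp [h0]
    · exact absurd ⟨P, h0, h⟩ hx
  · by_cases h0 : P = 0
    · simp [h0]
    · exact absurd ⟨P, h0, h⟩ hy

theorem e1p_fixed {E : Type} [Field E] [CharZero E] [Algebra E ℂ]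
    (hE : Cardinal.mk E ≤ Cardinal.aleph0) {x : ℂ} (h : ∀ σ : ℂ ≃ₐ[E] ℂ, σ x = x) :
    x ∈ (algebraMap E ℂ).range := by
  by_cases hx : IsAlgebraic E x
  · have hi := hx.isIntegral
    have hp := minpoly.irreducible hi
    have h1 : ∀ y ∈ (minpoly E x).rootSet ℂ, y = x := by
      intro y hy
      have hy0 := Polynomial.aeval_eq_zero_of_mem_rootSet hy
      have e := minpoly.eq_of_irreducible_of_monic hp hy0 (minpoly.monic hi)
      obtain ⟨σ, hσ⟩ := e1p_conj hE (x := x) (y := y) fun P => by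
        rw [← minpoly.dvd_iff, ← minpoly.dvd_iff, ← e]
      rw [← hσ, h]
    have h2 := Polynomial.card_rootSet_eq_natDegree (K := ℂ) hp.separable (IsAlgClosed.splits _)
    have h3 : Fintype.card ((minpoly E x).rootSet ℂ) ≤ 1 :=
      Fintype.card_le_one_iff.2 fun a b => Subtype.ext ((h1 a a.2).trans (h1 b b.2).symm)
    exact minpoly.natDegree_eq_one_iff.1 (le_antisymm (h2 ▸ h3) (minpoly.natDegree_pos hi))
  · obtain ⟨σ, hσ⟩ := e1p_trans hE hx 1
    rw [h] at hσ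
    simp at hσ

namespace St

variable (s : St) (F : IntermediateField s.k ℂ)

theorem alg_of_mem [FiniteDimensional s.k F] {x : ℂ} (h : x ∈ F) : IsAlgebraic ℚ x := by
  have h1 : IsAlgebraic s.k (⟨x, h⟩ : F) := Algebra.IsAlgebraic.isAlgebraic _
  exact (IntermediateField.isAlgebraic_iff.1 h1).restrictScalars ℚ

theorem au_alg (σ : s.Au) {x : ℂ} (h : IsAlgebraic ℚ x) : IsAlgebraic ℚ (σ x) :=
  h.algHom (σ.toRingEquiv.toRingHom.toRatAlgHom)

theorem ext_aut [FiniteDimensional s.k F] (φ : F →ₐ[s.k] ℂ) : ∃ σ : s.Au, ∀ x : F, σ x = φ x := by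
  have : NumberField F := NumberField.of_module_finite s.k F
  exact e1p_ext (e1p_card F) F.val φ F.val.injective φ.injective

theorem mem_of_fixed [FiniteDimensional s.k F] {x : ℂ}
    (h : ∀ σ : s.Au, (∀ y ∈ F, σ y = y) → σ x = x) : x ∈ F := by
  have : NumberField F := NumberField.of_module_finite s.k F
  obtain ⟨y, rfl⟩ := e1p_fixed (E := F) (e1p_card F) (x := x) fun σ =>
    h (σ.restrictScalars s.k) fun y hy => σ.commutes ⟨y, hy⟩
  exact y.2

theorem mem_k_of_fixed {x : ℂ} (h : ∀ σ : s.Au, σ x = x) : x ∈ s.k := by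
  obtain ⟨y, rfl⟩ := e1p_fixed (E := s.k) (e1p_card s.k) h
  exact y.2

theorem alg_of_finite {x : ℂ} (h : (Set.range fun σ : s.Au => σ x).Finite) : IsAlgebraic ℚ x := by
  by_contra hx
  have hx' : ¬ IsAlgebraic s.k x := fun e => hx (e.restrictScalars ℚ)
  refine h.not_infinite (Set.infinite_of_injective_forall_mem (f := fun n : ℕ => x + n) ?_ ?_)
  · intro a b hab
    simpa using hab
  · exact fun n => e1p_trans (e1p_card s.k) hx' n

theorem exists_gal {T : Set ℂ} (hT : T.Finite) (h : ∀ x ∈ T, IsAlgebraic ℚ x) :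
    ∃ F : IntermediateField s.k ℂ, FiniteDimensional s.k F ∧ IsGalois s.k F ∧ ∀ x ∈ T, x ∈ F := by
  have hi : ∀ x ∈ hT.toFinset, IsIntegral s.k x := fun x hx =>
    (h x (hT.mem_toFinset.1 hx)).isIntegral.tower_top
  let P : Polynomial s.k := ∏ x ∈ hT.toFinset, minpoly s.k x
  have h0 : P ≠ 0 := Finset.prod_ne_zero_iff.2 fun x hx => minpoly.ne_zero (hi x hx)
  have := IntermediateField.adjoin_rootSet_isSplittingField (p := P) (L := ℂ)
    (IsAlgClosed.splits _)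
  have := Polynomial.IsSplittingField.finiteDimensional
    (IntermediateField.adjoin s.k (P.rootSet ℂ)) P
  have := Normal.of_isSplittingField (E := IntermediateField.adjoin s.k (P.rootSet ℂ)) P
  refine ⟨IntermediateField.adjoin s.k (P.rootSet ℂ), inferInstance, ⟨⟩, fun x hx => ?_⟩
  refine IntermediateField.subset_adjoin _ _ ((Polynomial.mem_rootSet_of_ne h0).2 ?_)
  rw [map_prod]
  exact Finset.prod_eq_zero (hT.mem_toFinset.2 hx) (minpoly.aeval _ _)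

theorem exists_res [FiniteDimensional s.k F] [IsGalois s.k F] :
    ∃ ρ : s.Au →* (F ≃ₐ[s.k] F), Function.Surjective ρ ∧ ∀ σ (x : F), ((ρ σ x : F) : ℂ) = σ x := by
  refine ⟨AlgEquiv.restrictNormalHom F, fun g => ?_, AlgEquiv.restrictNormalHom_apply F⟩
  obtain ⟨σ, hσ⟩ := s.ext_aut F (F.val.comp g.toAlgHom)
  exact ⟨σ, AlgEquiv.ext fun x =>
    Subtype.ext ((AlgEquiv.restrictNormalHom_apply F σ x).trans (hσ x))⟩

theorem au_mem [FiniteDimensional s.k F] [IsGalois s.k F] (σ : s.Au) {x : ℂ} (h : x ∈ F) :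
    σ x ∈ F := by
  obtain ⟨ρ, -, hρ⟩ := s.exists_res F
  rw [← hρ σ ⟨x, h⟩]
  exact (ρ σ ⟨x, h⟩).2

end St

end Pool.Agent.P.MP_20768c_nt.Tz.Cv

end

-- part Cv.U4_w
section

set_option autoImplicit false

open Complex NumberField IsDedekindDomain Filter Topology
open UpperHalfPlane hiding I
open scoped ComplexConjugate Real MatrixGroups

namespace Pool.Agent.P.MP_20768c_nt.Tz.Cv

open Pool.Agent.P.MP_20768c_nt.Tz.EQ (Lt pr sp IsLat jL qN)

theorem u4w_root (v : Valuation ℂ NNReal) (j : ℕ) {a b : ℂ} (ha : v a ≤ 1) (hb : v b ≤ 1)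
    (h : v 3 < v (a ^ 3 ^ j - b ^ 3 ^ j)) : v (a ^ 3 ^ j - b ^ 3 ^ j) ≤ v (a - b) ^ 3 ^ j := by
  induction j generalizing a b with
  | zero => simp
  | succ j ih =>
    have a3 : v (a ^ 3) ≤ 1 := by rw [map_pow]; exact pow_le_one' ha 3
    have b3 : v (b ^ 3) ≤ 1 := by rw [map_pow]; exact pow_le_one' hb 3
    rw [pow_succ', pow_mul, pow_mul] at h
    have h1 := ih a3 b3 h
    have h2 : v 3 < v (a ^ 3 - b ^ 3) := (h.trans_le h1).trans_le
      (pow_le_of_le_one zero_le (v.map_sub_le a3 b3) (pow_ne_zero j three_ne_zero))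
    have h3 : v (3 * (a * b * (a - b))) < v (a ^ 3 - b ^ 3) := by
      refine lt_of_le_of_lt ?_ h2
      rw [map_mul, map_mul, map_mul]
      exact mul_le_of_le_one_right' (mul_le_one' (mul_le_one' ha hb) (v.map_sub_le ha hb))
    have h4 := v.map_sub_eq_of_lt_left h3
    rw [show a ^ 3 - b ^ 3 - 3 * (a * b * (a - b)) = (a - b) ^ 3 by ring, map_pow] at h4
    rw [pow_succ', pow_mul, pow_mul, pow_mul, h4]
    exact h1

theorem u4w_cube (v : Valuation ℂ NNReal) (h0 : v 3 ≠ 0) (h3 : v 3 < 1) {η : ℂ} (h : η ^ 3 = 1)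
    (h1 : η ≠ 1) : v 3 < v (1 - η) := by
  have hs : η ^ 2 + η + 1 = 0 := by
    refine mul_left_cancel₀ (sub_ne_zero.2 h1) ?_
    linear_combination h
  have e : v (1 - η) ^ 2 = v 3 := by
    rw [← map_pow, show (1 - η) ^ 2 = -(3 * η) by linear_combination hs, Valuation.map_neg, map_mul,
      St.v_root v three_pos h, mul_one]
  by_contra hn
  have h2 : v (1 - η) ^ 2 ≤ v 3 ^ 2 := pow_le_pow_left' (not_lt.1 hn) 2
  rw [e, sq] at h2
  exact absurd h2 (not_le.2 (mul_lt_of_lt_one_right (pos_iff_ne_zero.2 h0) h3))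

theorem W_bound (v : Valuation ℂ NNReal) (h0 : v 3 ≠ 0) (h3 : v 3 < 1) {x G : ℕ} (hx : ¬ 3 ∣ x)
    (h1 : x ≠ 1) (hG : 0 < G) : ∃ R n₀ : ℕ, ∀ n, n₀ ≤ n →
      ∀ (ψ : MulChar (ZMod (3 ^ n)) ℂ) (ω : ℂ), ψ (tau n) ≠ 1 → ω ^ G = 1 →
        ω * ψ x ≠ 1 ∧ v 3 ^ R ≤ v (x - ω * ψ x) ^ 3 ^ n := by
  have hu : ((x : ℤ) ^ (2 * G)) ≡ 1 [ZMOD 3] := by
    have h : ((x : ℤ) ^ 2) ≡ 1 [ZMOD 3] := by
      have h' : x % 3 = 1 ∨ x % 3 = 2 := by omega
      obtain ⟨k, hk⟩ : ∃ k : ℤ, (x : ℤ) = 3 * k + 1 ∨ (x : ℤ) = 3 * k + 2 := ⟨x / 3, by omega⟩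
      rcases hk with hk | hk
      · exact Int.modEq_iff_dvd.2 ⟨-(3 * k ^ 2 + 2 * k), by rw [hk]; ring⟩
      · exact Int.modEq_iff_dvd.2 ⟨-(3 * k ^ 2 + 4 * k + 1), by rw [hk]; ring⟩
    simpa only [pow_mul, one_pow] using h.pow G
  have hu1 : (x : ℤ) ^ (2 * G) ≠ 1 := by
    intro h
    have h' : x ^ (2 * G) = 1 := by exact_mod_cast h
    exact h1 ((Nat.pow_eq_one.1 h').resolve_right (by omega))
  obtain ⟨e, o, he, ho, ha⟩ := exists_exp hu hu1
  refine ⟨3 ^ (e + 1), e + 1, fun n hn ψ ω hψ hω => ?_⟩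
  obtain ⟨j, rfl⟩ : ∃ j, n = e + j + 1 := ⟨n - (e + 1), by omega⟩
  have hn2 : 2 ≤ e + j + 1 := by omega
  have hs := (ZMod.intCast_eq_intCast_iff _ _ (3 ^ (e + j + 1))).2
    (by simpa using cube_step (u := (x : ℤ) ^ (2 * G)) he (by rw [ha]) j)
  push_cast at hs
  have z : (3 : ZMod (3 ^ (e + j + 1))) ^ (e + j + 1) = 0 := by exact_mod_cast ZMod.natCast_self _
  have t3 : ψ (tau (e + j + 1)) ^ 3 = 1 := by
    rw [← map_pow, ← Units.val_pow_eq_pow_val, tau_cube hn2, Units.val_one, map_one]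
  have hb : ((ω * ψ x) ^ (2 * G)) ^ 3 ^ j = ψ (1 + 3 ^ (e + j) * o) := by
    rw [mul_pow, mul_comm 2 G, pow_mul ω, hω, one_pow, one_mul, mul_comm G 2, ← map_pow, ← map_pow,
      hs]
  have hη : (((ω * ψ x) ^ (2 * G)) ^ 3 ^ j) ^ 3 = 1 ∧ ((ω * ψ x) ^ (2 * G)) ^ 3 ^ j ≠ 1 := by
    rw [hb]
    obtain ⟨k, hk⟩ : ∃ k : ℤ, o = 3 * k + 1 ∨ o = 3 * k + 2 := ⟨o / 3, by omega⟩
    rcases hk with hk | hk
    · have e1 : (1 + 3 ^ (e + j) * o : ZMod (3 ^ (e + j + 1))) = tau (e + j + 1) := by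
        rw [tau_val hn2, hk, Nat.add_sub_cancel]
        push_cast
        linear_combination k * z
      rw [e1]
      exact ⟨t3, hψ⟩
    · have e1 : (1 + 3 ^ (e + j) * o : ZMod (3 ^ (e + j + 1))) = tau (e + j + 1) ^ 2 := by
        obtain ⟨d, rfl⟩ := Nat.exists_eq_add_of_le he
        rw [tau_val hn2, hk, Nat.add_sub_cancel]
        push_cast
        linear_combination (k - 3 ^ (d + j)) * z
      rw [e1, map_pow]
      refine ⟨by rw [← pow_mul, mul_comm, pow_mul, t3, one_pow], fun h => hψ ?_⟩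
      rw [pow_succ, h, one_mul] at t3
      exact t3
  refine ⟨fun h => hη.2 (by rw [h, one_pow, one_pow]), ?_⟩
  have vy : v (ω * ψ x) = 1 := St.v_root v (n := 2 * G * 3 ^ j * 3) (by positivity)
    (by rw [pow_mul, pow_mul, hη.1])
  have vx : v (x : ℂ) = 1 := St.v_cop_nat v h3 hx
  generalize ω * ψ x = y at hη vy
  have c1 := u4w_cube v h0 h3 hη.1 hη.2
  have c2 : v (((x : ℂ) ^ (2 * G)) ^ 3 ^ j - 1) ≤ v 3 := by
    obtain ⟨k, hk⟩ := (hu.pow (3 ^ j)).symm.dvd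
    have hk' : ((x : ℂ) ^ (2 * G)) ^ 3 ^ j - 1 = 3 * (k : ℂ) := by
      rw [one_pow] at hk
      exact_mod_cast hk
    rw [hk', map_mul]
    exact mul_le_of_le_one_right' (St.c1a_int v k)
  have c3 : v 3 < v (((x : ℂ) ^ (2 * G)) ^ 3 ^ j - (y ^ (2 * G)) ^ 3 ^ j) := by
    rw [show ((x : ℂ) ^ (2 * G)) ^ 3 ^ j - (y ^ (2 * G)) ^ 3 ^ j =
      (1 - (y ^ (2 * G)) ^ 3 ^ j) + (((x : ℂ) ^ (2 * G)) ^ 3 ^ j - 1) by ring,
      v.map_add_eq_of_lt_left (c2.trans_lt c1)]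
    exact c1
  have c4 := c3.le.trans (u4w_root v j (by rw [map_pow, vx, one_pow])
    (by rw [map_pow, vy, one_pow]) c3)
  have hle : v ((x : ℂ) ^ (2 * G) - y ^ (2 * G)) ≤ v (x - y) := by
    rw [← (Commute.all _ _).geom_sum₂_mul, map_mul]
    refine mul_le_of_le_one_left' (v.map_sum_le fun j _ => ?_)
    simp only [map_pow, map_mul, vx, vy, one_pow, mul_one, le_refl]
  calc v 3 ^ 3 ^ (e + 1) ≤ (v (x - y) ^ 3 ^ j) ^ 3 ^ (e + 1) :=
        pow_le_pow_left' (c4.trans (pow_le_pow_left' hle _)) _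
    _ = _ := by rw [← pow_mul, ← pow_add, show j + (e + 1) = e + j + 1 by omega]

end Pool.Agent.P.MP_20768c_nt.Tz.Cv

end

-- part Cv.G1b
section

set_option autoImplicit false

open Complex NumberField IsDedekindDomain Filter Topology
open UpperHalfPlane hiding I
open scoped ComplexConjugate Real MatrixGroups

namespace Pool.Agent.P.MP_20768c_nt.Tz.Cv

open Pool.Agent.P.MP_20768c_nt.Tz.EQ (Lt pr sp IsLat jL qN)

variable {L L' : Lt} {R : Finset ℂ} {z x : ℂ}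

theorem g1b_sum (h : IsLat L) {u : ℝ} (hu : 0 < u) (z : ℂ) :
    Summable fun l : L => Real.exp (-u * ‖z + l‖ ^ 2) := by
  simpa using summable_th h (u := (u : ℂ)) (by simpa using hu) 0 z

theorem g1b_bd (h : IsLat L) (z : ℂ) : ∃ M : ℝ, 0 < M ∧ ∀ l : L, ‖z + l‖⁻¹ ≤ M := by
  have h1 := (g1b_sum h one_pos z).tendsto_cofinite_zero
  have h2 : ∀ᶠ l : L in cofinite, ‖z + l‖⁻¹ ≤ 1 := by
    filter_upwards [h1.eventually (gt_mem_nhds (Real.exp_pos (-1)))] with l hl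
    have h3 := Real.exp_lt_exp.1 hl
    have h4 : 1 < ‖z + l‖ := by
      by_contra hc
      push Not at hc
      nlinarith [norm_nonneg (z + l)]
    exact inv_le_one_of_one_le₀ h4.le
  obtain ⟨M, hM⟩ := ((Filter.eventually_cofinite.1 h2).image fun l : L => ‖z + l‖⁻¹).bddAbove
  refine ⟨max M 1, lt_max_of_lt_right one_pos, fun l => ?_⟩
  by_cases hl : ‖z + l‖⁻¹ ≤ 1
  · exact le_max_of_le_right hl
  · exact le_max_of_le_left (hM ⟨l, hl, rfl⟩)

theorem g1b_term {ι : Type} [Countable ι] (μ : MeasureTheory.Measure ℝ) (K : ι → ℂ)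
    (r : ι → ℝ → ℝ) (ρ : ι → ℝ)
    (h : ∀ i, K i = 0 ∨ (MeasureTheory.Integrable (r i) μ ∧ ∫ u, r i u ∂μ = ρ i))
    (hr : ∀ i u, 0 ≤ r i u) (hs : Summable fun i => ‖K i‖ * ρ i) :
    ∫ u, ∑' i, K i * (r i u : ℂ) ∂μ = ∑' i, K i * ρ i := by
  rw [← MeasureTheory.integral_tsum_of_summable_integral_norm]
  · refine tsum_congr fun i => ?_
    rcases h i with h0 | ⟨-, h1⟩
    · simp [h0]
    · rw [MeasureTheory.integral_const_mul, integral_complex_ofReal, h1]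
  · intro i
    rcases h i with h0 | ⟨h1, -⟩
    · simp [h0]
    · exact h1.ofReal.const_mul _
  · refine hs.congr fun i => ?_
    rcases h i with h0 | ⟨-, h1⟩
    · simp [h0]
    · rw [← h1, ← MeasureTheory.integral_const_mul]
      refine congrArg _ (funext fun u => ?_)
      rw [norm_mul, Complex.norm_real, Real.norm_of_nonneg (hr i u)]

theorem g1b_int {c b : ℝ} (hc : 0 < c) (hb : 0 < b) :
    MeasureTheory.IntegrableOn (fun u : ℝ => c / u ^ 2 * Real.exp (-c / u)) (Set.Ioc 0 b) ∧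
      ∫ u in Set.Ioc 0 b, c / u ^ 2 * Real.exp (-c / u) = Real.exp (-c / b) := by
  have he : ∀ u : ℝ, 0 < u → expNegInvGlue (u / c) = Real.exp (-c / u) := fun u hu => by
    rw [expNegInvGlue, if_neg (not_le.2 (div_pos hu hc)), inv_div, neg_div]
  have hcont : ContinuousOn (fun u : ℝ => expNegInvGlue (u / c)) (Set.Icc 0 b) :=
    ((expNegInvGlue.contDiff (n := 0)).continuous.comp (continuous_id.div_const c)).continuousOn
  have hd : ∀ u ∈ Set.Ioo 0 b, HasDerivAt (fun u : ℝ => expNegInvGlue (u / c))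
      (c / u ^ 2 * Real.exp (-c / u)) u := fun u hu => by
    have h1 : HasDerivAt (fun u : ℝ => Real.exp (-c * u⁻¹))
        (Real.exp (-c * u⁻¹) * (-c * -(u ^ 2)⁻¹)) u :=
      ((hasDerivAt_inv hu.1.ne').const_mul (-c)).exp
    refine (h1.congr_deriv ?_).congr_of_eventuallyEq ?_
    · rw [← div_eq_mul_inv]; ring
    · filter_upwards [lt_mem_nhds hu.1] with v hv
      rw [he v hv, div_eq_mul_inv]
  have hi := intervalIntegral.integrableOn_deriv_of_nonneg hcont hd fun u _ => by positivity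
  refine ⟨hi, ?_⟩
  rw [← intervalIntegral.integral_of_le hb.le,
    intervalIntegral.integral_eq_sub_of_hasDerivAt_of_le hb.le hcont hd
      ((intervalIntegrable_iff_integrableOn_Ioc_of_le hb.le).2 hi), he b hb]
  simp

theorem g1b_hi (h : IsLat L) (z : ℂ) {b : ℝ} (hb : 0 < b) : ∫ u in Set.Ioi b, th1 L z u =
    ∑' l : L, cexp (-(b : ℂ) * ((z + l) * conj (z + l))) / (z + l) := by
  have := (lat_countable h).to_subtype
  have : Countable L := this
  obtain ⟨M, -, hM⟩ := g1b_bd h z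
  have h1 := g1b_term (ι := L) (MeasureTheory.volume.restrict (Set.Ioi b))
    (fun l => conj (z + l)) (fun l u => Real.exp (-‖z + l‖ ^ 2 * u))
    (fun l => Real.exp (-b * ‖z + l‖ ^ 2) / ‖z + l‖ ^ 2) (fun l => ?_)
    (fun _ _ => (Real.exp_pos _).le) ?_
  · refine Eq.trans ?_ (h1.trans (tsum_congr fun l => ?_))
    · refine congrArg _ (funext fun u => tsum_congr fun l => ?_)
      rw [Complex.mul_conj']
      push_cast
      ring_nf
    · by_cases h0 : z + l = 0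
      · simp [h0]
      · have h2 : conj (z + l) ≠ 0 := by simpa only [map_ne_zero] using h0
        push_cast
        rw [← Complex.mul_conj']
        field_simp
  · by_cases h0 : z + l = 0
    · left; simp only [h0, map_zero]
    · right
      have h2 : -‖z + l‖ ^ 2 < 0 := neg_lt_zero.2 (by positivity)
      refine ⟨integrableOn_exp_mul_Ioi h2 b, ?_⟩
      rw [integral_exp_mul_Ioi h2, neg_div_neg_eq]
      ring_nf
  · refine Summable.of_nonneg_of_le (fun l => by positivity) (fun l => ?_)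
      ((g1b_sum h hb z).mul_left M)
    rw [Complex.norm_conj]
    by_cases h0 : ‖z + l‖ = 0
    · have := hM l
      rw [h0] at this ⊢
      simpa using this
    · calc _ = ‖z + l‖⁻¹ * Real.exp (-b * ‖z + l‖ ^ 2) := by field_simp
        _ ≤ _ := mul_le_mul_of_nonneg_right (hM l) (Real.exp_pos _).le

theorem g1b_lo (h : IsLat L) (z : ℂ) : ∫ u in Set.Ioc 0 (π / ar L), th1 L z u =
    -∑' l : L, pa L l z * cexp (-(π / ar L) * (l * conj (l : ℂ))) / l := by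
  have := (lat_countable h).to_subtype
  have : Countable L := this
  have ha := ar_pos h
  have hb : 0 < π / ar L := div_pos Real.pi_pos ha
  obtain ⟨M, -, hM⟩ := g1b_bd h 0
  have h1 := g1b_term (ι := L) (MeasureTheory.volume.restrict (Set.Ioc 0 (π / ar L)))
    (fun l => -(pa L l z / l))
    (fun l u => (π / ar L * ‖(l : ℂ)‖) ^ 2 / u ^ 2 * Real.exp (-(π / ar L * ‖(l : ℂ)‖) ^ 2 / u))
    (fun l => Real.exp (-(π / ar L) * ‖(l : ℂ)‖ ^ 2)) (fun l => ?_)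
    (fun _ _ => by positivity) ?_
  · rw [← tsum_neg]
    refine Eq.trans ?_ (h1.trans (tsum_congr fun l => ?_))
    · refine MeasureTheory.setIntegral_congr_fun measurableSet_Ioc fun u hu => ?_
      have hu0 : (u : ℂ) ≠ 0 := by exact_mod_cast hu.1.ne'
      rw [poisson1 h z (by simpa using hu.1), ← tsum_mul_left]
      refine tsum_congr fun l => ?_
      by_cases h0 : (l : ℂ) = 0
      · simp [h0]
      · push_cast
        rw [mul_pow, ← Complex.mul_conj']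
        have e : -(((π : ℂ) / ar L) ^ 2 * (l * conj (l : ℂ))) / u =
            -(π ^ 2 / (ar L ^ 2 * u)) * (l * conj (l : ℂ)) := by ring
        rw [e]
        field_simp
    · push_cast
      rw [← Complex.mul_conj']
      ring
  · by_cases h0 : (l : ℂ) = 0
    · left; simp [h0]
    · right
      have h2 : 0 < ‖(l : ℂ)‖ := norm_pos_iff.2 h0
      obtain ⟨h3, h4⟩ := g1b_int (c := (π / ar L * ‖(l : ℂ)‖) ^ 2) (by positivity) hb
      refine ⟨h3, h4.trans (congrArg _ ?_)⟩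
      field_simp
  · refine Summable.of_nonneg_of_le (fun l => by positivity) (fun l => ?_)
      ((g1b_sum h hb 0).mul_left M)
    have := hM l
    rw [zero_add] at this ⊢
    rw [norm_neg, norm_div, norm_pa, one_div]
    exact mul_le_mul_of_nonneg_right this (Real.exp_pos _).le

theorem eF_split (h : IsLat L) (z : ℂ) : eF L z =
    ∑' l : L, cexp (-(π / ar L) * ((z + l) * conj (z + l))) / (z + l) -
      ∑' l : L, pa L l z * cexp (-(π / ar L) * (l * conj (l : ℂ))) / l := by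
  have hb : 0 < π / ar L := div_pos Real.pi_pos (ar_pos h)
  have hi := int_th1 h z
  rw [eF, ← Set.Ioc_union_Ioi_eq_Ioi hb.le, MeasureTheory.setIntegral_union
    (Set.Ioc_disjoint_Ioi le_rfl) measurableSet_Ioi (hi.mono_set Set.Ioc_subset_Ioi_self)
    (hi.mono_set (Set.Ioi_subset_Ioi hb.le)), g1b_lo h, g1b_hi h z hb]
  push_cast
  ring

theorem g1b_maj (h : IsLat L) {b : ℝ} (hb : 0 < b) {A B D : ℂ → ℂ} (hA : Continuous A)
    (hB : Continuous B) (hD : Continuous D) (w₀ : ℂ) : ∃ m : L → ℝ, Summable m ∧ ∀ l : L,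
      ∀ w ∈ Metric.ball w₀ 1,
        ‖cexp (-b * (l * conj (l : ℂ)) + A w * l + B w * conj (l : ℂ) + D w)‖ ≤ m l := by
  obtain ⟨α, hα⟩ := (isCompact_closedBall w₀ 1).exists_bound_of_continuousOn hA.continuousOn
  obtain ⟨β, hβ⟩ := (isCompact_closedBall w₀ 1).exists_bound_of_continuousOn hB.continuousOn
  obtain ⟨γ, hγ⟩ := (isCompact_closedBall w₀ 1).exists_bound_of_continuousOn hD.continuousOn
  refine ⟨_, (g1b_sum h (half_pos hb) 0).mul_left (Real.exp ((α + β) ^ 2 / (2 * b) + γ)),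
    fun l w hw => ?_⟩
  have hw' := Metric.ball_subset_closedBall hw
  rw [Complex.norm_exp, ← Real.exp_add, Real.exp_le_exp, zero_add, Complex.mul_conj']
  have h1 : (A w * l).re ≤ α * ‖(l : ℂ)‖ := (Complex.re_le_norm _).trans <| by
    rw [norm_mul]; exact mul_le_mul_of_nonneg_right (hα w hw') (norm_nonneg _)
  have h2 : (B w * conj (l : ℂ)).re ≤ β * ‖(l : ℂ)‖ := (Complex.re_le_norm _).trans <| by
    rw [norm_mul, Complex.norm_conj]; exact mul_le_mul_of_nonneg_right (hβ w hw') (norm_nonneg _)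
  have h3 : (D w).re ≤ γ := (Complex.re_le_norm _).trans (hγ w hw')
  have h4 : (-(b : ℂ) * (‖(l : ℂ)‖ : ℂ) ^ 2).re = -b * ‖(l : ℂ)‖ ^ 2 := by norm_cast
  have h5 : (α + β) * ‖(l : ℂ)‖ ≤ (α + β) ^ 2 / (2 * b) + b / 2 * ‖(l : ℂ)‖ ^ 2 := by
    rw [← sub_nonneg]
    have : (α + β) ^ 2 / (2 * b) + b / 2 * ‖(l : ℂ)‖ ^ 2 - (α + β) * ‖(l : ℂ)‖ =
      (α + β - b * ‖(l : ℂ)‖) ^ 2 / (2 * b) := by field_simp; ring
    rw [this]; positivity
  rw [Complex.add_re, Complex.add_re, Complex.add_re, h4]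
  linarith

theorem g1b_der {ι : Type} {F F' : ι → ℂ → ℂ} {w₀ : ℂ} {r : ℝ} (hr : 0 < r) {m : ι → ℝ}
    (hm : Summable m) (hd : ∀ i, ∀ w ∈ Metric.ball w₀ r, HasDerivAt (F i) (F' i w) w)
    (hb : ∀ i, ∀ w ∈ Metric.ball w₀ r, ‖F i w‖ ≤ m i) :
    HasDerivAt (fun w => ∑' i, F i w) (∑' i, F' i w₀) w₀ ∧
      AnalyticAt ℂ (fun w => ∑' i, F i w) w₀ := by
  have h1 : ∀ i, DifferentiableOn ℂ (F i) (Metric.ball w₀ r) := fun i w hw =>
    (hd i w hw).differentiableAt.differentiableWithinAt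
  have h2 := (Complex.differentiableOn_tsum_of_summable_norm hm h1 Metric.isOpen_ball
    hb).analyticAt (Metric.ball_mem_nhds w₀ hr)
  have h3 := (Complex.hasSum_deriv_of_summable_norm hm h1 Metric.isOpen_ball hb
    (Metric.mem_ball_self hr)).tsum_eq
  refine ⟨h2.differentiableAt.hasDerivAt.congr_deriv ?_, h2⟩
  rw [← h3]
  exact tsum_congr fun i => (hd i w₀ (Metric.mem_ball_self hr)).deriv

/-- the first kernel -/
noncomputable def g1bE (b : ℝ) (l z w : ℂ) : ℂ :=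
  cexp (-b * (l * conj l) + -b * w * l + -b * z * conj l + -b * z * w)

/-- the second kernel -/
noncomputable def g1bF (b : ℝ) (l z w : ℂ) : ℂ :=
  cexp (-b * (l * conj l) + -b * w * l + b * z * conj l + 0)

theorem g1b_P (h : IsLat L) (z w : ℂ) :
    ∑' l : L, g1bE (π / ar L) l z w = ∑' l : L, g1bF (π / ar L) l z w := by
  have ha := ar_pos h
  have ha' : (ar L : ℂ) ≠ 0 := by exact_mod_cast ha.ne'
  have hp : (π : ℂ) ≠ 0 := by exact_mod_cast Real.pi_ne_zero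
  have h1 := poissonP h z w (u := ((π / ar L : ℝ) : ℂ))
    (by rw [Complex.ofReal_re]; exact div_pos Real.pi_pos ha)
  have h2 : (π : ℂ) / (ar L * ((π / ar L : ℝ) : ℂ)) = 1 := by push_cast; field_simp
  rw [h2, one_mul] at h1
  refine Eq.trans (tsum_congr fun l => congrArg cexp (by ring)) (h1.trans
    (tsum_congr fun l => congrArg cexp ?_))
  push_cast
  field_simp
  ring

theorem g1b_const (h : IsLat L) (hz : z ∉ L) (w : ℂ) :
    ∑' l : L, g1bE (π / ar L) l z w / (z + l) - ∑' l : L, g1bF (π / ar L) l z w / l +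
      (π / ar L : ℝ) * w =
    ∑' l : L, g1bE (π / ar L) l z 0 / (z + l) - ∑' l : L, g1bF (π / ar L) l z 0 / l := by
  classical
  have hP := g1b_P h z
  have hb : 0 < π / ar L := div_pos Real.pi_pos (ar_pos h)
  generalize π / ar L = b at hP hb ⊢
  have hzl : ∀ l : L, z + l ≠ 0 := fun l h0 => hz (by
    rw [eq_neg_of_add_eq_zero_left h0]; exact L.neg_mem l.2)
  obtain ⟨M, -, hM⟩ := g1b_bd h z
  obtain ⟨N, -, hN⟩ := g1b_bd h 0
  have hd : ∀ w₀, HasDerivAt (fun w => ∑' l : L, g1bE b l z w / (z + l) -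
      ∑' l : L, g1bF b l z w / l + (b : ℂ) * w) 0 w₀ := fun w₀ => by
    obtain ⟨m, hm, hm'⟩ := g1b_maj h hb (A := fun w => -b * w) (B := fun _ => -b * z)
      (D := fun w => -b * z * w) (by fun_prop) (by fun_prop) (by fun_prop) w₀
    obtain ⟨n, hn, hn'⟩ := g1b_maj h hb (A := fun w => -b * w) (B := fun _ => b * z)
      (D := fun _ => 0) (by fun_prop) (by fun_prop) (by fun_prop) w₀
    have h1 := (g1b_der (F := fun (l : L) w => g1bE b l z w / (z + l)) (w₀ := w₀)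
      (F' := fun l w => -b * g1bE b l z w) one_pos (hm.mul_left M) (fun l w _ => ?_)
      (fun l w hw => ?_)).1
    have h2 := (g1b_der (F := fun (l : L) w => g1bF b l z w / l) (w₀ := w₀)
      (F' := fun l w => -b * if l = 0 then 0 else g1bF b l z w) one_pos (hn.mul_left N)
      (fun l w _ => ?_) (fun l w hw => ?_)).1
    · refine ((h1.sub h2).add ((hasDerivAt_id w₀).const_mul (b : ℂ))).congr_deriv ?_
      have h3 : Summable fun l : L => g1bF b l z w₀ :=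
        .of_norm_bounded hn fun l => hn' l w₀ (Metric.mem_ball_self one_pos)
      have h4 := h3.tsum_eq_add_tsum_ite 0
      have h5 : g1bF b ((0 : L) : ℂ) z w₀ = 1 := by simp [g1bF]
      rw [tsum_mul_left, tsum_mul_left, hP w₀, h4, h5]
      ring
    · have h3 : HasDerivAt (fun w : ℂ => -(b : ℂ) * (l * conj (l : ℂ)) + -b * w * l +
          b * z * conj (l : ℂ) + 0) (-b * 1 * l) w :=
        (((((hasDerivAt_id w).const_mul (-(b : ℂ))).mul_const _).const_add _).add_const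
          _).add_const _
      refine (h3.cexp.div_const (l : ℂ)).congr_deriv ?_
      split_ifs with h0
      · simp [h0]
      · have : (l : ℂ) ≠ 0 := by simpa using h0
        rw [g1bF]
        field_simp
    · have := hN l
      rw [zero_add] at this
      rw [norm_div, div_eq_inv_mul]
      exact mul_le_mul this (hn' l w hw) (norm_nonneg _) ((inv_nonneg.2 (norm_nonneg _)).trans this)
    · have h3 : HasDerivAt (fun w : ℂ => -(b : ℂ) * (l * conj (l : ℂ)) + -b * w * l +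
          -b * z * conj (l : ℂ) + -b * z * w) (-b * 1 * l + -b * z * 1) w :=
        (((((hasDerivAt_id w).const_mul (-(b : ℂ))).mul_const _).const_add _).add_const
          _).add ((hasDerivAt_id w).const_mul _)
      refine (h3.cexp.div_const (z + l)).congr_deriv ?_
      have := hzl l
      rw [g1bE]
      field_simp
      ring
    · rw [norm_div, div_eq_inv_mul]
      exact mul_le_mul (hM l) (hm' l w hw) (norm_nonneg _)
        ((inv_nonneg.2 (norm_nonneg _)).trans (hM l))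
  have := is_const_of_deriv_eq_zero (fun w => (hd w).differentiableAt) (fun w => (hd w).deriv) w 0
  simpa using this

open Classical in
/-- the regular part at the origin -/
noncomputable def g1bG (L : Lt) (b : ℝ) (z : ℂ) : ℂ :=
  ∑' l : L, (if l = 0 then 0 else g1bE b l z 0 / (z + l)) - ∑' l : L, g1bF b l z 0 / l

theorem g1b_eq (h : IsLat L) (hz : z ∉ L) :
    eF L z + π / ar L * conj z = z⁻¹ + g1bG L (π / ar L) z := by
  classical
  have hb : 0 < π / ar L := div_pos Real.pi_pos (ar_pos h)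
  have h1 := g1b_const h hz (conj z)
  obtain ⟨M, -, hM⟩ := g1b_bd h z
  obtain ⟨m, hm, hm'⟩ := g1b_maj h hb (A := fun _ => -(π / ar L : ℝ) * 0)
    (B := fun z => -(π / ar L : ℝ) * z) (D := fun z => -(π / ar L : ℝ) * z * 0)
    (by fun_prop) (by fun_prop) (by fun_prop) z
  have h2 : Summable fun l : L => g1bE (π / ar L) l z 0 / (z + l) :=
    .of_norm_bounded (hm.mul_left M) fun l => by
      rw [norm_div, div_eq_inv_mul]
      exact mul_le_mul (hM l) (hm' l z (Metric.mem_ball_self one_pos)) (norm_nonneg _)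
        ((inv_nonneg.2 (norm_nonneg _)).trans (hM l))
  have h3 : g1bE (π / ar L) ((0 : L) : ℂ) z 0 / (z + ((0 : L) : ℂ)) = z⁻¹ := by simp [g1bE]
  rw [h2.tsum_eq_add_tsum_ite 0, h3, add_sub_assoc] at h1
  refine Eq.trans ?_ h1
  rw [eF_split h]
  congr 2
  · refine tsum_congr fun l => ?_
    rw [g1bE, map_add]
    push_cast
    ring_nf
  · refine tsum_congr fun l => ?_
    rw [g1bF, pa, ← Complex.exp_add]
    push_cast
    ring_nf
  · push_cast
    rfl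

theorem g1b_an (h : IsLat L) {b : ℝ} (hb : 0 < b) (hz : z ∉ L ∨ z = 0) :
    AnalyticAt ℂ (g1bG L b) z := by
  classical
  obtain ⟨M, hM0, hM⟩ := g1b_bd h z
  obtain ⟨N, -, hN⟩ := g1b_bd h 0
  obtain ⟨m, hm, hm'⟩ := g1b_maj h hb (A := fun _ => -b * 0) (B := fun z => -b * z)
    (D := fun z => -b * z * 0) (by fun_prop) (by fun_prop) (by fun_prop) z
  obtain ⟨n, hn, hn'⟩ := g1b_maj h hb (A := fun _ => -b * 0) (B := fun z => b * z)
    (D := fun _ => 0) (by fun_prop) (by fun_prop) (by fun_prop) z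
  have hr : 0 < min 1 (2 * M)⁻¹ := lt_min one_pos (by positivity)
  have hk : ∀ l : L, l ≠ 0 → ∀ w ∈ Metric.ball z (min 1 (2 * M)⁻¹), (2 * M)⁻¹ ≤ ‖w + l‖ := by
    intro l hl w hw
    have h0 : z + l ≠ 0 := fun h0 => by
      rcases hz with hz | rfl
      · exact hz (by rw [eq_neg_of_add_eq_zero_left h0]; exact L.neg_mem l.2)
      · exact hl (by simpa using h0)
    have h1 : M⁻¹ ≤ ‖z + l‖ := inv_le_of_inv_le₀ (norm_pos_iff.2 h0) (hM l)
    have h2 : ‖w - z‖ < (2 * M)⁻¹ := (mem_ball_iff_norm.1 hw).trans_le (min_le_right _ _)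
    have h3 : ‖z + l‖ ≤ ‖w + l‖ + ‖w - z‖ := by
      simpa [add_comm] using norm_sub_le (w + l) (w - z)
    have h4 : M⁻¹ = 2 * (2 * M)⁻¹ := by field_simp
    linarith
  refine AnalyticAt.sub (g1b_der (F := fun (l : L) w => if l = 0 then 0 else g1bE b l w 0 / (w + l))
    hr (hm.mul_left (2 * M)) (fun l w hw => DifferentiableAt.hasDerivAt ?_) (fun l w hw => ?_)).2
    (g1b_der (F := fun (l : L) w => g1bF b l w 0 / l) one_pos (hn.mul_left N)
      (fun l w _ => DifferentiableAt.hasDerivAt ?_) (fun l w hw => ?_)).2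
  · split_ifs with h0
    · fun_prop
    · have : w + l ≠ 0 := norm_pos_iff.1 (lt_of_lt_of_le (by positivity) (hk l h0 w hw))
      unfold g1bE
      fun_prop (disch := exact this)
  · have h1 := hm' l w (Metric.ball_subset_ball (min_le_left _ _) hw)
    split_ifs with h0
    · rw [norm_zero]
      exact mul_nonneg (by positivity) ((norm_nonneg _).trans h1)
    · rw [norm_div, div_eq_inv_mul]
      exact mul_le_mul (inv_le_of_inv_le₀ (by positivity) (hk l h0 w hw)) h1 (norm_nonneg _)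
        (by positivity)
  · unfold g1bF
    fun_prop
  · have := hN l
    rw [zero_add] at this
    rw [norm_div, div_eq_inv_mul]
    exact mul_le_mul this (hn' l w hw) (norm_nonneg _) ((inv_nonneg.2 (norm_nonneg _)).trans this)

theorem isZeta_eF (h : IsLat L) : ∃ a, IsZeta L (fun z => eF L z + π / ar L * conj z) a := by
  have hb : 0 < π / ar L := div_pos Real.pi_pos (ar_pos h)
  set ζ : ℂ → ℂ := fun z => eF L z + π / ar L * conj z with hζ
  have hper : ∀ l ∈ L, ∀ z, ζ (z + l) = ζ z + π / ar L * conj l := fun l hl z => by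
    simp only [hζ, eF_add L z hl, map_add]; ring
  have hev : ∀ z, z ∉ L → ζ =ᶠ[𝓝 z] fun z => z⁻¹ + g1bG L (π / ar L) z := fun z hz => by
    filter_upwards [(compl_open h {0}).mem_nhds (show z ∈ _ by simpa using hz)] with w hw
    exact g1b_eq h (by simpa using hw)
  have h0 : ∀ z, z ∉ L → z ≠ 0 := fun z hz h0 => hz (h0 ▸ L.zero_mem)
  have han : ∀ z, z ∉ L → AnalyticAt ℂ ζ z := fun z hz =>
    ((analyticAt_id.inv (h0 z hz)).add (g1b_an h hb (.inl hz))).congr (hev z hz).symm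
  have key := liou h (f := fun z => deriv ζ z + wp L z) {0} (fun l hl z _ => ?_)
    (fun z hz => ?_) (fun t ht => ?_)
  · obtain ⟨C, hC⟩ := key
    refine ⟨C, fun z hz => ?_, fun z _ => ?_, fun l hl => ⟨_, fun z _ => hper l hl z⟩,
      _, g1b_an h hb (.inr rfl), fun z hz => g1b_eq h hz⟩
    · refine (han z hz).differentiableAt.hasDerivAt.congr_deriv ?_
      rw [← hC z (by simpa using hz)]
      ring
    · simp only [hζ, eF_neg, map_neg]; ring
  · rw [wp_add h z hl, ← deriv_comp_add_const, funext (hper l hl), deriv_add_const]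
  · have hz' : z ∉ L := by simpa using hz
    exact ((han z hz').deriv.add (analyticAt_wp h hz')).differentiableAt
  · rw [Finset.mem_singleton.1 ht]
    obtain ⟨g, hg, hg'⟩ := wp_pole h
    have h1 := (g1b_an h hb (z := 0) (.inr rfl)).deriv.continuousAt
    have h2 := hg.continuousAt
    have h3 : ContinuousAt (fun z => (z - 0) * (deriv (g1bG L (π / ar L)) z +
        (g2 L / 20 * z ^ 2 + g3 L / 28 * z ^ 4 + z ^ 6 * g z))) 0 := by fun_prop
    have h4 := h3.tendsto.mono_left (nhdsWithin_le_nhds (s := {0}ᶜ))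
    rw [sub_zero, zero_mul] at h4
    refine h4.congr' ?_
    filter_upwards [hg', compl_nhds h {0} 0] with z e1 e2
    have hz : z ∉ L := by simpa using e2
    rw [e1, (hev z hz).deriv_eq, ((hasDerivAt_inv (h0 z hz)).fun_add
      (g1b_an h hb (.inl hz)).differentiableAt.hasDerivAt).deriv]
    ring

end Pool.Agent.P.MP_20768c_nt.Tz.Cv

end

-- part Cv.A3a_p
section

set_option autoImplicit false

open Complex NumberField IsDedekindDomain Filter Topology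
open UpperHalfPlane hiding I
open scoped ComplexConjugate Real MatrixGroups

namespace Pool.Agent.P.MP_20768c_nt.Tz.Cv

open Pool.Agent.P.MP_20768c_nt.Tz.EQ (Lt pr sp IsLat jL qN)

variable {L : Lt} {z w t : ℂ}

theorem a3a_p_sub (t : ℂ) : Tendsto (fun z : ℂ => z - t) (𝓝[≠] t) (𝓝 0) := by
  have h1 : Tendsto (fun z : ℂ => z - t) (𝓝 t) (𝓝 (t - t)) :=
    (continuous_id.sub continuous_const).tendsto t
  rw [sub_self] at h1
  exact h1.mono_left nhdsWithin_le_nhds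

theorem a3a_p_lim0 {ζ : ℂ → ℂ} {a : ℂ} (hζ : IsZeta L ζ a) {s : ℂ} (hs : t + s ∉ L) :
    Tendsto (fun z => (z - t) * ζ (z + s)) (𝓝[≠] t) (𝓝 0) := by
  have h1 : Tendsto (fun z => ζ (z + s)) (𝓝 t) (𝓝 (ζ (t + s))) :=
    (hζ.deriv _ hs).continuousAt.tendsto.comp ((continuous_id.add continuous_const).tendsto t)
  simpa using (a3a_p_sub t).mul (h1.mono_left nhdsWithin_le_nhds)

theorem a3a_p_lim1 {ζ : ℂ → ℂ} {a : ℂ} (hζ : IsZeta L ζ a) (h : IsLat L) {s : ℂ}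
    (hs : t + s ∈ L) : Tendsto (fun z => (z - t) * ζ (z + s)) (𝓝[≠] t) (𝓝 1) := by
  obtain ⟨g, hg, hp⟩ := hζ.pole
  obtain ⟨e, he⟩ := hζ.per _ hs
  have h1 : Tendsto (fun z => 1 + (z - t) * (g (z - t) + e)) (𝓝[≠] t)
      (𝓝 (1 + 0 * (g 0 + e))) :=
    ((a3a_p_sub t).mul ((hg.continuousAt.tendsto.comp (a3a_p_sub t)).add_const e)).const_add 1
  rw [zero_mul, add_zero] at h1
  refine h1.congr' ?_
  filter_upwards [compl_nhds h {t} t, self_mem_nhdsWithin] with z hz hz'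
  have h2 : z - t ∉ L := hz t (Finset.mem_singleton_self t)
  have h3 : z - t ≠ 0 := sub_ne_zero.2 hz'
  have h4 : z + s = z - t + (t + s) := by ring
  rw [h4, he _ h2, hp _ h2]
  linear_combination (-1 : ℂ) * mul_inv_cancel₀ h3

theorem a3a_p_lim {ζ : ℂ → ℂ} {a : ℂ} (hζ : IsZeta L ζ a) (h : IsLat L) (t s : ℂ) :
    ∃ c, Tendsto (fun z => (z - t) * ζ (z + s)) (𝓝[≠] t) (𝓝 c) := by
  by_cases hs : t + s ∈ L
  · exact ⟨1, a3a_p_lim1 hζ h hs⟩
  · exact ⟨0, a3a_p_lim0 hζ hs⟩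

theorem a3a_p_pole (h : IsLat L) : Tendsto (fun z => z ^ 2 * wp L z) (𝓝[≠] 0) (𝓝 1) := by
  obtain ⟨g, hg, hp⟩ := wp_pole h
  have h0 : ContinuousAt (fun z : ℂ =>
      1 + z ^ 2 * (g2 L / 20 * z ^ 2 + g3 L / 28 * z ^ 4 + z ^ 6 * g z)) 0 := by
    have := hg.continuousAt
    fun_prop
  have h1 := h0.tendsto.mono_left (nhdsWithin_le_nhds (s := {0}ᶜ))
  rw [zero_pow two_ne_zero, zero_mul, add_zero] at h1
  refine h1.congr' ?_
  filter_upwards [hp, self_mem_nhdsWithin] with z hz hz'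
  have h3 : z ^ 2 ≠ 0 := pow_ne_zero 2 hz'
  rw [hz]
  linear_combination (-1 : ℂ) * mul_one_div_cancel h3

theorem a3a_p_sq : Tendsto (fun z : ℂ => z ^ 2) (𝓝[≠] 0) (𝓝 0) := by
  have h1 : Tendsto (fun z : ℂ => z ^ 2) (𝓝 0) (𝓝 (0 ^ 2)) := (continuous_pow 2).tendsto 0
  rw [zero_pow two_ne_zero] at h1
  exact h1.mono_left nhdsWithin_le_nhds

theorem a3a_p_quad {b b1 : ℂ → ℂ} {c : ℂ} (hb : ∀ᶠ z in 𝓝 (0 : ℂ), HasDerivAt b (b1 z) z)
    (h0 : b 0 = 0) (h1 : b1 0 = 0) (h2 : HasDerivAt b1 (2 * c) 0) :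
    Tendsto (fun z => b z / z ^ 2) (𝓝[≠] 0) (𝓝 c) := by
  have ha : AnalyticAt ℂ b 0 :=
    Complex.analyticAt_iff_eventually_differentiableAt.2 (hb.mono fun z hz => hz.differentiableAt)
  have hd : deriv b =ᶠ[𝓝 0] b1 := hb.mono fun z hz => hz.deriv
  have e1 : deriv b 0 = 0 := hd.self_of_nhds.trans h1
  have e2 : deriv (deriv b) 0 = 2 * c := hd.deriv_eq.trans h2.deriv
  obtain ⟨F, hF, hF'⟩ := ha.exists_eq_sum_add_pow_mul 3
  have h3 : ContinuousAt (fun z : ℂ => c + z * F z) 0 := by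
    have := hF.continuousAt
    fun_prop
  have h4 := h3.tendsto.mono_left (nhdsWithin_le_nhds (s := {0}ᶜ))
  rw [zero_mul, add_zero] at h4
  refine h4.congr' ?_
  filter_upwards [self_mem_nhdsWithin] with z hz
  have h5 : z ^ 2 ≠ 0 := pow_ne_zero 2 hz
  rw [eq_div_iff h5, hF' z]
  simp only [Finset.sum_range_succ, Finset.range_zero, Finset.sum_empty, iteratedDeriv_succ,
    iteratedDeriv_zero, e1, e2, h0, smul_eq_mul, Nat.factorial]
  push_cast
  ring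

theorem a3a_p_dom (z w : ℂ) : (∀ t ∈ ({0, w, -w} : Finset ℂ), z - t ∉ L) ↔
    z ∉ L ∧ z - w ∉ L ∧ z + w ∉ L := by
  simp

theorem a3a_p_zero {ζ : ℂ → ℂ} {a : ℂ} (hζ : IsZeta L ζ a) (h : IsLat L) (hw : w ∉ L) :
    Tendsto (fun z => (wp L z - wp L w) * (ζ (z - w) - ζ (z + w) + 2 * ζ w)) (𝓝[≠] 0)
      (𝓝 (wpd L w)) := by
  have hw' : -w ∉ L := fun k => hw (neg_mem_iff.1 k)
  have h1 : Tendsto (fun z => (ζ (z - w) - ζ (z + w) + 2 * ζ w) / z ^ 2) (𝓝[≠] 0)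
      (𝓝 (wpd L w)) := by
    refine a3a_p_quad (b1 := fun z => (a - wp L (z - w)) - (a - wp L (z + w))) ?_ ?_ ?_ ?_
    · have h2 : ∀ᶠ z in 𝓝 (0 : ℂ), ∀ t ∈ ({w, -w} : Finset ℂ), z - t ∉ L :=
        (compl_open h _).mem_nhds (by simp [hw])
      filter_upwards [h2] with z hz
      have k1 : z - w ∉ L := hz w (by simp)
      have k2 : z + w ∉ L := by simpa using hz (-w) (by simp)
      exact (((hζ.deriv _ k1).comp_sub_const z w).sub
        ((hζ.deriv _ k2).comp_add_const z w)).add_const _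
    · simp only [zero_sub, zero_add, hζ.odd w hw]
      ring
    · simp only [zero_sub, zero_add, wp_neg h, sub_self]
    · have k1 : HasDerivAt (fun z => wp L (z - w)) (wpd L (0 - w)) 0 :=
        (hasDerivAt_wp h (by simpa using hw)).comp_sub_const 0 w
      have k2 : HasDerivAt (fun z => wp L (z + w)) (wpd L (0 + w)) 0 :=
        (hasDerivAt_wp h (by simpa using hw)).comp_add_const 0 w
      rw [zero_sub, wpd_neg h] at k1
      rw [zero_add] at k2
      exact ((k1.const_sub a).sub (k2.const_sub a)).congr_deriv (by ring)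
  have h2 := ((a3a_p_pole h).sub (a3a_p_sq.mul_const (wp L w))).mul h1
  rw [zero_mul, sub_zero, one_mul] at h2
  refine h2.congr' ?_
  filter_upwards [self_mem_nhdsWithin] with z hz
  have h5 : z ^ 2 ≠ 0 := pow_ne_zero 2 hz
  rw [← mul_sub, mul_comm (z ^ 2), mul_assoc, mul_div_cancel₀ _ h5]

theorem a3a_p_side {ζ : ℂ → ℂ} {a : ℂ} (hζ : IsZeta L ζ a) (h : IsLat L) (ht : t ∉ L)
    (e : wp L t = wp L w) : Tendsto (fun z => (z - t) *
      ((wp L z - wp L w) * (ζ (z - w) - ζ (z + w) + 2 * ζ w))) (𝓝[≠] t) (𝓝 0) := by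
  obtain ⟨c, hc⟩ := a3a_p_lim hζ h t (-w)
  obtain ⟨d, hd⟩ := a3a_p_lim hζ h t w
  have h1 : Tendsto (fun z => wp L z - wp L w) (𝓝[≠] t) (𝓝 (wp L t - wp L w)) :=
    (((hasDerivAt_wp h ht).continuousAt.tendsto).sub_const _).mono_left nhdsWithin_le_nhds
  have h2 := h1.mul ((hc.sub hd).add ((a3a_p_sub t).mul_const (2 * ζ w)))
  rw [e, sub_self, zero_mul] at h2
  refine h2.congr fun z => ?_
  rw [← sub_eq_add_neg]
  ring

theorem IsZeta.ident {ζ : ℂ → ℂ} {a : ℂ} (hζ : IsZeta L ζ a) (h : IsLat L) (hz : z ∉ L)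
    (hw : w ∉ L) (hp : z + w ∉ L) (hm : z - w ∉ L) :
    (wp L z - wp L w) * (ζ (z - w) - ζ (z + w) + 2 * ζ w) = wpd L w := by
  have hw' : -w ∉ L := fun k => hw (neg_mem_iff.1 k)
  obtain ⟨C, hC⟩ := liou h (f := fun z => (wp L z - wp L w) * (ζ (z - w) - ζ (z + w) + 2 * ζ w))
    {0, w, -w} (fun l hl u hu => by
      obtain ⟨-, k1, k2⟩ := (a3a_p_dom u w).1 hu
      obtain ⟨e, he⟩ := hζ.per l hl
      rw [wp_add h u hl, add_sub_right_comm, add_right_comm u l w, he _ k1, he _ k2]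
      ring)
    (fun u hu => by
      obtain ⟨k0, k1, k2⟩ := (a3a_p_dom u w).1 hu
      exact ((hasDerivAt_wp h k0).sub_const _).differentiableAt.mul
        ((((hζ.deriv _ k1).comp_sub_const u w).sub
          ((hζ.deriv _ k2).comp_add_const u w)).add_const _).differentiableAt)
    (fun t ht => by
      simp only [Finset.mem_insert, Finset.mem_singleton] at ht
      rcases ht with rfl | rfl | rfl
      · simpa using (a3a_p_sub 0).mul (a3a_p_zero hζ h hw)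
      · exact a3a_p_side hζ h hw rfl
      · exact a3a_p_side hζ h hw' (wp_neg h w))
  have h1 : Tendsto (fun _ : ℂ => C) (𝓝[≠] 0) (𝓝 (wpd L w)) :=
    (a3a_p_zero hζ h hw).congr' ((compl_nhds h {0, w, -w} 0).mono hC)
  rw [← tendsto_nhds_unique tendsto_const_nhds h1]
  exact hC z ((a3a_p_dom z w).2 ⟨hz, hm, hp⟩)

theorem IsZeta.add {ζ : ℂ → ℂ} {a : ℂ} (hζ : IsZeta L ζ a) (h : IsLat L) (hz : z ∉ L)
    (hw : w ∉ L) (hp : z + w ∉ L) (hm : z - w ∉ L) :
    2 * (wp L z - wp L w) * (ζ (z + w) - ζ z - ζ w) = wpd L z - wpd L w := by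
  have h1 := hζ.ident h hz hw hp hm
  have h2 := hζ.ident h hw hz (by rwa [add_comm]) (by rwa [← neg_sub, neg_mem_iff])
  rw [← neg_sub z w, hζ.odd _ hm, add_comm w z] at h2
  linear_combination h2 - h1

theorem a3a_p_inj (h : IsLat L) (hz : z ∉ L) (hw : w ∉ L) (hp : z + w ∉ L) (hm : z - w ∉ L) :
    wp L z ≠ wp L w := by
  intro e
  obtain ⟨a, hζ⟩ := isZeta_eF h
  generalize (fun z => eF L z + π / ar L * conj z) = ζ at hζ
  have h0 : wpd L w = 0 := by rw [← hζ.ident h hz hw hp hm, e, sub_self, zero_mul]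
  have h1 : ∀ᶠ u in 𝓝 w, ∀ t ∈ ({0, z, -z} : Finset ℂ), u - t ∉ L :=
    (compl_open h _).mem_nhds ((a3a_p_dom w z).2
      ⟨hw, by rwa [← neg_sub, neg_mem_iff], by rwa [add_comm]⟩)
  have h2 : wpd L =ᶠ[𝓝 w] fun u => (wp L z - wp L u) * (ζ (z - u) - ζ (z + u) + 2 * ζ u) := by
    filter_upwards [h1] with u hu
    obtain ⟨k0, k1, k2⟩ := (a3a_p_dom u z).1 hu
    exact (hζ.ident h hz k0 (by rwa [add_comm]) (by rwa [← neg_sub, neg_mem_iff])).symm
  have h3 := ((hasDerivAt_wp h hw).const_sub (wp L z)).mul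
    ((((hζ.deriv _ hm).comp_const_sub z w).sub ((hζ.deriv _ hp).comp_const_add z w)).add
      ((hζ.deriv _ hw).const_mul 2))
  have h4 := (hasDerivAt_wpd h hw).unique (h3.congr_of_eventuallyEq h2)
  rw [h0, e, sub_self, neg_zero, zero_mul, zero_mul, add_zero] at h4
  have h5 := wpd_sq h hw
  rw [h0] at h5
  have h6 : g2 L = 12 * wp L w ^ 2 := by linear_combination (-2 : ℂ) * h4
  have h7 : g3 L = -8 * wp L w ^ 3 := by linear_combination h5 - wp L w * h6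
  refine dl_ne h ?_
  rw [dl, h6, h7]
  ring

theorem wpd_eq_zero (h : IsLat L) (hz : z ∉ L) : wpd L z = 0 ↔ 2 * z ∈ L := by
  refine ⟨fun e => ?_, fun e => ?_⟩
  · by_contra k
    obtain ⟨a, hζ⟩ := isZeta_eF h
    generalize (fun z => eF L z + π / ar L * conj z) = ζ at hζ
    have h1 := ((a3a_p_lim1 hζ h (t := z) (s := -z) (by simp)).sub
      (a3a_p_lim0 hζ (t := z) (s := z) (by rwa [← two_mul]))).add
      ((a3a_p_sub z).mul_const (2 * ζ z))
    rw [zero_mul, sub_zero, add_zero] at h1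
    have h2 : Tendsto (fun _ : ℂ => (0 : ℂ)) (𝓝[≠] z) (𝓝 1) := by
      refine h1.congr' ?_
      filter_upwards [compl_nhds h {0, z, -z} z] with u hu
      obtain ⟨k0, k1, k2⟩ := (a3a_p_dom u z).1 hu
      have h3 := hζ.ident h k0 hz k2 k1
      rw [e] at h3
      have h4 := (mul_eq_zero.1 h3).resolve_left (sub_ne_zero.2 (a3a_p_inj h k0 hz k2 k1))
      rw [← sub_eq_add_neg]
      linear_combination (u - z) * h4
    exact zero_ne_one (tendsto_nhds_unique tendsto_const_nhds h2)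
  · have h1 : wpd L z = wpd L (-z) := wpd_congr h (by rwa [sub_neg_eq_add, ← two_mul])
    rw [wpd_neg h] at h1
    linear_combination h1 / 2

theorem wp_inj (h : IsLat L) (hz : z ∉ L) (hw : w ∉ L) (e : wp L z = wp L w) :
    z - w ∈ L ∨ z + w ∈ L := by
  by_contra k
  exact a3a_p_inj h hz hw (fun k' => k (Or.inr k')) (fun k' => k (Or.inl k')) e

theorem wp_surj (h : IsLat L) (x : ℂ) : ∃ z, z ∉ L ∧ wp L z = x := by
  by_contra k
  have k1 : ∀ u, (∀ t ∈ ({0} : Finset ℂ), u - t ∉ L) → u ∉ L ∧ wp L u - x ≠ 0 := fun u hu => by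
    have k2 : u ∉ L := by simpa using hu
    exact ⟨k2, sub_ne_zero.2 fun e => k ⟨u, k2, e⟩⟩
  have h1 : Tendsto (fun u => (wp L u - x)⁻¹) (𝓝[≠] 0) (𝓝 0) := by
    have h2 := a3a_p_sq.div ((a3a_p_pole h).sub (a3a_p_sq.mul_const x)) (by simp)
    rw [zero_div] at h2
    refine h2.congr' ?_
    filter_upwards [self_mem_nhdsWithin] with u hu
    have h5 : u ^ 2 ≠ 0 := pow_ne_zero 2 hu
    rw [Pi.div_apply, ← mul_sub, div_mul_cancel_left₀ h5]
  obtain ⟨C, hC⟩ := liou h (f := fun u => (wp L u - x)⁻¹) {0}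
    (fun l hl u _ => by rw [wp_add h u hl])
    (fun u hu => ((hasDerivAt_wp h (k1 u hu).1).sub_const x).differentiableAt.inv (k1 u hu).2)
    (fun t ht => by
      rw [Finset.mem_singleton.1 ht]
      simpa using (a3a_p_sub 0).mul h1)
  have h3 : Tendsto (fun _ : ℂ => C) (𝓝[≠] 0) (𝓝 0) :=
    h1.congr' ((compl_nhds h {0} 0).mono hC)
  obtain ⟨u, hu⟩ := (compl_nhds h {0} 0).exists
  exact inv_ne_zero (k1 u hu).2 ((hC u hu).trans (tendsto_nhds_unique tendsto_const_nhds h3))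

end Pool.Agent.P.MP_20768c_nt.Tz.Cv

end

-- part Cv.C1b_q
section

set_option autoImplicit false

open Complex NumberField IsDedekindDomain Filter Topology
open UpperHalfPlane hiding I
open scoped ComplexConjugate Real MatrixGroups

namespace Pool.Agent.P.MP_20768c_nt.Tz.Cv

open Pool.Agent.P.MP_20768c_nt.Tz.EQ (Lt pr sp IsLat jL qN)

namespace St

variable (s : St) {L M : s.Sub} {a b : Ideal s.O} {x y : ℂ}

theorem c1bq_ab (β : s.O) : ∃ a b : ℤ, s.c β = a + b * s.c s.w := by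
  obtain ⟨a, b, rfl⟩ := s.span β
  exact ⟨a, b, by rw [c_add, c_mul, c_int, c_int]⟩

theorem c1bq_one : s.zl 1 = sp 1 (1 * ((⟨s.c s.w, s.w_im⟩ : ℍ) : ℂ)) := by
  ext z
  rw [mem_zl, mem_one, Pool.Agent.P.MP_20768c_nt.Tz.EQ.mem_sp]
  constructor
  · rintro ⟨β, rfl⟩
    obtain ⟨a, b, h⟩ := s.c1bq_ab β
    exact ⟨a, b, by rw [h, mul_one, one_mul]⟩
  · rintro ⟨a, b, rfl⟩
    exact ⟨a + b * s.w, by rw [c_add, c_mul, c_int, c_int, mul_one, one_mul]⟩

theorem c1bq_lat : IsLat (s.zl 1) := ⟨1, _, one_ne_zero, s.c1bq_one⟩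

theorem c1bq_le (a : Ideal s.O) : s.idl a ≤ 1 := by
  have := s.idl_mul_le a 1
  rwa [mul_one] at this

theorem c1bq_pos (ha : a ≠ ⊥) : 0 < Ideal.absNorm a :=
  Nat.pos_of_ne_zero fun h => ha (Ideal.absNorm_eq_zero_iff.1 h)

theorem c1bq_idl (ha : a ≠ ⊥) : IsLat (s.zl (s.idl a)) := by
  refine s.c1bq_lat.of_between (s.c1bq_pos ha) (Pool.Agent.P.MP_20768c_nt.Tz.EQ.pr_mul_le.2 fun z hz => ?_)
    (Pool.Agent.P.MP_20768c_nt.Tz.EQ.pr_mul_le.2 fun z hz => ?_)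
  · have := s.mul_mem_idl (Ideal.absNorm_mem a) (s.mem_zl.1 hz)
    rwa [mul_one, c_nat] at this
  · have := s.c_mul_mem (Ideal.absNorm a) (s.c1bq_le a (s.mem_zl.1 hz))
    rwa [c_nat] at this

theorem isLat_zl (hL : IsUnit L) : IsLat (s.zl L) := by
  obtain ⟨x, hx, a, ha, rfl⟩ := s.unit_eq hL
  rw [zl_sc]
  exact (s.c1bq_idl ha).pr_mul hx

theorem isUnit_of_lat (h : IsLat (s.zl L)) : IsUnit L := by
  obtain ⟨c, τ, hc, e⟩ := h
  have hc1 : c ∈ L := s.mem_zl.1 (e ▸ Pool.Agent.P.MP_20768c_nt.Tz.EQ.left_mem_sp_lat _ _)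
  obtain ⟨m, n, h1⟩ := Pool.Agent.P.MP_20768c_nt.Tz.EQ.mem_sp.1 (e ▸ s.mem_zl.2 (s.c_mul_mem s.w hc1))
  have h2 : s.c s.w = m + n * τ := mul_right_cancel₀ hc (by linear_combination h1)
  have hn : (n : ℂ) ≠ 0 := by
    intro h0
    have h3 := congrArg Complex.im h2
    rw [h0, zero_mul, add_zero, Complex.intCast_im] at h3
    exact s.w_im.ne' h3
  have hle : s.sc (n / c) * L ≤ 1 := by
    intro y hy
    obtain ⟨z, hz, rfl⟩ := s.mem_sc_mul.1 hy
    obtain ⟨p, q, rfl⟩ := Pool.Agent.P.MP_20768c_nt.Tz.EQ.mem_sp.1 (e ▸ s.mem_zl.2 hz)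
    refine s.mem_one.2 ⟨p * n + q * (s.w - m), ?_⟩
    rw [c_add, c_mul, c_mul, c_sub, c_int, c_int, c_int, c_int, h2]
    field_simp
    ring
  obtain ⟨a, ha⟩ := s.exists_idl hle
  have ha0 : a ≠ ⊥ := by
    rintro rfl
    have h4 : n / c * c ∈ s.idl ⊥ := ha ▸ s.mem_sc_mul.2 ⟨c, hc1, rfl⟩
    obtain ⟨β, hβ, h5⟩ := s.mem_idl.1 h4
    rw [(Submodule.mem_bot _).1 hβ, div_mul_cancel₀ _ hc] at h5
    exact hn (h5.symm.trans (map_zero _))
  exact isUnit_of_mul_isUnit_right (ha ▸ s.isUnit_idl ha0)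

theorem exists_sub {Λ : Lt} (h : ∀ z ∈ Λ, s.c s.w * z ∈ Λ) : ∃ L, s.zl L = Λ := by
  refine ⟨{ carrier := Λ
            add_mem' := Λ.add_mem
            zero_mem' := Λ.zero_mem
            smul_mem' := fun β z hz => ?_ }, rfl⟩
  obtain ⟨a, b, e⟩ := s.c1bq_ab β
  have : β • z = a • z + b • (s.c s.w * z) := by
    rw [smul_eq, e, zsmul_eq_mul, zsmul_eq_mul]
    ring
  rw [this]
  exact Λ.add_mem (Λ.smul_mem a hz) (Λ.smul_mem b (h z hz))

theorem ar_one : ar (s.zl 1) = Real.sqrt s.dd / 2 := by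
  rw [c1bq_one, ar_sp one_ne_zero, norm_one, one_pow, one_mul]
  have := congrArg Complex.im s.sqrt_dd
  simp only [Complex.sub_im, Complex.mul_im, Complex.re_ofNat, Complex.im_ofNat, zero_mul,
    add_zero, Complex.intCast_im, sub_zero, Complex.I_re, Complex.ofReal_im, Complex.I_im,
    Complex.ofReal_re, one_mul, zero_add, mul_zero] at this
  show (s.c s.w).im = _
  linarith

theorem c1bq_card {R : Finset ℂ} (hR : Reps (s.zl (s.idl a)) (s.zl 1) R) :
    R.card = Ideal.absNorm a := by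
  have h0 : ∀ r : R, ∃ β : s.O, s.c β = r := fun r => s.mem_one.1 (s.mem_zl.1 (hR.2.2.1 r r.2))
  choose β hβ using h0
  rw [Ideal.absNorm_apply, Submodule.cardQuot_apply, ← Nat.card_eq_finsetCard]
  refine Nat.card_eq_of_bijective (fun r => Ideal.Quotient.mk a (β r)) ⟨fun r r' h => ?_, fun q => ?_⟩
  · refine Subtype.ext (hR.sub_mem r.2 r'.2 (s.mem_zl.2 ?_))
    rw [← hβ, ← hβ, ← c_sub, c_mem_idl]
    exact Ideal.Quotient.eq.1 h
  · obtain ⟨γ, rfl⟩ := Ideal.Quotient.mk_surjective q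
    obtain ⟨r, ⟨hr, h⟩, -⟩ := hR.2.2.2 (s.c γ) (s.mem_zl.2 (s.mem_one.2 ⟨γ, rfl⟩))
    refine ⟨⟨r, hr⟩, (Ideal.Quotient.eq.2 ?_).symm⟩
    rw [← c_mem_idl, c_sub, hβ]
    exact s.mem_zl.1 h

theorem c1bq_ar1 (ha : a ≠ ⊥) : ar (s.zl (s.idl a)) = Ideal.absNorm a * ar (s.zl 1) := by
  obtain ⟨R, hR⟩ := exists_reps (s.c1bq_idl ha) s.c1bq_lat (s.zl_le.2 (s.c1bq_le a))
  rw [ar_reps (s.c1bq_idl ha) s.c1bq_lat hR, s.c1bq_card hR]

theorem c1bq_ar (hL : IsUnit L) (ha : a ≠ ⊥) :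
    ar (s.zl (s.idl a * L)) = Ideal.absNorm a * ar (s.zl L) := by
  obtain ⟨x, hx, b, hb, rfl⟩ := s.unit_eq hL
  have hab : a * b ≠ ⊥ := mul_ne_zero ha hb
  rw [mul_left_comm, ← idl_mul, zl_sc, zl_sc, ar_sc (s.c1bq_idl hab) hx, ar_sc (s.c1bq_idl hb) hx,
    s.c1bq_ar1 hab, s.c1bq_ar1 hb, map_mul, Nat.cast_mul]
  ring

theorem reps_card (hL : IsUnit L) (ha : a ≠ ⊥) {R : Finset ℂ}
    (hR : Reps (s.zl (s.idl a * L)) (s.zl L) R) : R.card = Ideal.absNorm a := by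
  have h1 := ar_reps (s.isLat_zl ((s.isUnit_idl ha).mul hL)) (s.isLat_zl hL) hR
  rw [s.c1bq_ar hL ha] at h1
  exact_mod_cast (mul_right_cancel₀ (ar_pos (s.isLat_zl hL)).ne' h1).symm

theorem reps_card' (hL : IsUnit L) (ha : a ≠ ⊥) {R : Finset ℂ}
    (hR : Reps (s.zl L) (s.zl (L * s.inv a)) R) : R.card = Ideal.absNorm a := by
  refine s.reps_card (hL.mul (s.isUnit_inv ha)) ha ?_
  rwa [mul_left_comm, s.idl_inv ha, mul_one]

theorem nL_pos (hL : IsUnit L) : 0 < s.nL L := by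
  exact div_pos (ar_pos (s.isLat_zl hL)) (ar_pos s.c1bq_lat)

theorem nL_one : s.nL 1 = 1 := by
  exact div_self (ar_pos s.c1bq_lat).ne'

theorem nL_sc (hL : IsUnit L) (hx : x ≠ 0) : s.nL (s.sc x * L) = ‖x‖ ^ 2 * s.nL L := by
  rw [nL, nL, zl_sc, ar_sc (s.isLat_zl hL) hx, mul_div_assoc]

theorem nL_idl (hL : IsUnit L) (ha : a ≠ ⊥) : s.nL (s.idl a * L) = Ideal.absNorm a * s.nL L := by
  rw [nL, nL, s.c1bq_ar hL ha, mul_div_assoc]

theorem nL_mul (hL : IsUnit L) (hM : IsUnit M) : s.nL (L * M) = s.nL L * s.nL M := by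
  obtain ⟨x, hx, a, ha, rfl⟩ := s.unit_eq hL
  have h1 := s.nL_idl isUnit_one ha
  rw [mul_one, nL_one, mul_one] at h1
  rw [mul_assoc, s.nL_sc ((s.isUnit_idl ha).mul hM) hx, s.nL_sc (s.isUnit_idl ha) hx,
    s.nL_idl hM ha, h1, mul_assoc]

theorem mem_cj : x ∈ s.cj L ↔ conj x ∈ L := by
  refine ⟨fun h => ?_, fun h => Submodule.subset_span h⟩
  obtain ⟨e, -, -, he⟩ := s.exists_conj
  induction h using Submodule.span_induction with
  | mem y hy => exact hy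
  | zero => rw [map_zero]; exact L.zero_mem
  | add y z _ _ hy hz => rw [map_add]; exact L.add_mem hy hz
  | smul β y _ hy => rw [smul_eq, map_mul, ← he]; exact s.c_mul_mem _ hy

theorem cj_cj (L : s.Sub) : s.cj (s.cj L) = L := by
  ext x
  rw [mem_cj, mem_cj, Complex.conj_conj]

theorem cj_mul (L M : s.Sub) : s.cj (L * M) = s.cj L * s.cj M := by
  refine le_antisymm (fun x hx => ?_) (Submodule.mul_le.2 fun x hx y hy => ?_)
  · have h : ∀ y ∈ L * M, conj y ∈ s.cj L * s.cj M := fun y hy => by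
      refine Submodule.mul_induction_on hy (fun p hp q hq => ?_) fun p q hp hq => ?_
      · rw [map_mul]
        exact Submodule.mul_mem_mul (s.mem_cj.2 (by rwa [Complex.conj_conj]))
          (s.mem_cj.2 (by rwa [Complex.conj_conj]))
      · rw [map_add]
        exact add_mem hp hq
    have := h _ (s.mem_cj.1 hx)
    rwa [Complex.conj_conj] at this
  · rw [mem_cj, map_mul]
    exact Submodule.mul_mem_mul (s.mem_cj.1 hx) (s.mem_cj.1 hy)

theorem cj_sc (x : ℂ) : s.cj (s.sc x) = s.sc (conj x) := by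
  obtain ⟨e, -, -, he⟩ := s.exists_conj
  ext y
  rw [mem_cj, sc, sc, Submodule.mem_span_singleton, Submodule.mem_span_singleton]
  constructor
  · rintro ⟨β, h⟩
    refine ⟨e β, ?_⟩
    rw [smul_eq, he, ← map_mul, ← smul_eq, h, Complex.conj_conj]
  · rintro ⟨β, rfl⟩
    refine ⟨e β, ?_⟩
    rw [smul_eq, smul_eq, he, map_mul, Complex.conj_conj]

theorem cj_one : s.cj 1 = 1 := by
  rw [← sc_one, cj_sc, map_one]

theorem c1bq_cj {e : s.O ≃+* s.O} (he : ∀ x, s.c (e x) = conj (s.c x)) (a : Ideal s.O) :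
    s.cj (s.idl a) = s.idl (a.map e) := by
  ext y
  rw [mem_cj, mem_idl, mem_idl]
  constructor
  · rintro ⟨β, hβ, h⟩
    exact ⟨e β, Ideal.mem_map_of_mem _ hβ, by rw [he, h, Complex.conj_conj]⟩
  · rintro ⟨β, hβ, rfl⟩
    obtain ⟨γ, hγ, rfl⟩ := (Ideal.mem_map_iff_of_surjective e e.surjective).1 hβ
    exact ⟨γ, hγ, by rw [he, Complex.conj_conj]⟩

theorem cj_p1 : s.cj (s.idl s.p1) = s.idl s.p2 := by
  obtain ⟨e, hw, -, he⟩ := s.exists_conj
  rw [s.c1bq_cj he, p1, p2, Ideal.map_span, Set.image_pair, hw, map_ofNat]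

theorem cj_p2 : s.cj (s.idl s.p2) = s.idl s.p1 := by
  obtain ⟨e, -, hw, he⟩ := s.exists_conj
  rw [s.c1bq_cj he, p1, p2, Ideal.map_span, Set.image_pair, hw, map_ofNat]

theorem isUnit_cj (hL : IsUnit L) : IsUnit (s.cj L) := by
  obtain ⟨L', h⟩ := hL.exists_right_inv
  exact IsUnit.of_mul_eq_one (s.cj L') (by rw [← cj_mul, h, cj_one])

theorem c1bq_norm {e : s.O ≃+* s.O} (he : ∀ x, s.c (e x) = conj (s.c x)) (ha : a ≠ ⊥) :
    a * a.map e = Ideal.span {(Ideal.absNorm a : s.O)} := by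
  have ha' : a ∈ nonZeroDivisors (Ideal s.O) := mem_nonZeroDivisors_iff_ne_zero.2 ha
  have h1 : ClassGroup.mk0 (⟨a, ha'⟩ ^ Fintype.card (ClassGroup s.O)) = 1 := by
    rw [map_pow, pow_card_eq_one]
  obtain ⟨β, hβ⟩ := (ClassGroup.mk0_eq_one_iff (pow_mem ha' _)).1 h1
  have hβ' : a ^ Fintype.card (ClassGroup s.O) = Ideal.span {β} := hβ
  refine pow_left_injective (n := Fintype.card (ClassGroup s.O)) Fintype.card_ne_zero ?_
  show (a * a.map e) ^ _ = Ideal.span {(Ideal.absNorm a : s.O)} ^ _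
  rw [mul_pow, ← Ideal.map_pow, hβ', Ideal.map_span, Set.image_singleton,
    Ideal.span_singleton_mul_span_singleton, Ideal.span_singleton_pow, ← Nat.cast_pow, ← map_pow,
    hβ']
  congr 2
  refine s.c_inj ?_
  rw [c_mul, he, c_nat, Complex.mul_conj, Complex.normSq_eq_norm_sq, ← norm_c]
  rfl

theorem mul_cj (hL : IsUnit L) : L * s.cj L = s.sc (s.nL L) := by
  obtain ⟨e, -, -, he⟩ := s.exists_conj
  obtain ⟨x, hx, a, ha, rfl⟩ := s.unit_eq hL
  have h1 := s.nL_idl isUnit_one ha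
  rw [mul_one, nL_one, mul_one] at h1
  rw [cj_mul, cj_sc, s.c1bq_cj he, mul_mul_mul_comm, ← idl_mul, s.c1bq_norm he ha, idl_span, c_nat,
    ← sc_mul, ← sc_mul, s.nL_sc (s.isUnit_idl ha) hx, h1, Complex.mul_conj, Complex.normSq_eq_norm_sq]
  push_cast
  rfl

theorem mul_conj_mem (hL : IsUnit L) (hx : x ∈ L) (hy : y ∈ L) :
    ∃ β : s.O, x * conj y = s.nL L * s.c β := by
  have h : x * conj y ∈ L * s.cj L :=
    Submodule.mul_mem_mul hx (s.mem_cj.2 (by rwa [Complex.conj_conj]))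
  rw [s.mul_cj hL, sc, Submodule.mem_span_singleton] at h
  obtain ⟨β, h⟩ := h
  exact ⟨β, by rw [← h, smul_eq, mul_comm]⟩

end St

end Pool.Agent.P.MP_20768c_nt.Tz.Cv

end

-- part Cv.E1
section

set_option autoImplicit false

open Complex NumberField IsDedekindDomain Filter Topology
open UpperHalfPlane hiding I
open scoped ComplexConjugate Real MatrixGroups

namespace Pool.Agent.P.MP_20768c_nt.Tz.Cv

open Pool.Agent.P.MP_20768c_nt.Tz.EQ (Lt pr sp IsLat jL qN)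

variable {Γ : Type} [LinearOrderedCommGroupWithZero Γ]

section e1
variable {K : Type} [Field K]

theorem e1_int (j : K →+* ℂ) (v : Valuation ℂ Γ) (x : 𝓞 K) : v (j x) ≤ 1 :=
  St.v_int v (map_isIntegral_int j x.isIntegral_coe)

theorem e1_ideal (j : K →+* ℂ) (v : Valuation ℂ Γ) :
    ∃ Q : Ideal (𝓞 K), Q.IsPrime ∧ ∀ x : 𝓞 K, v (j x) < 1 ↔ x ∈ Q := by
  let Q : Ideal (𝓞 K) :=
    { carrier := {x | v (j x) < 1}
      add_mem' := fun {a b} ha hb => by
        change v (j (algebraMap _ K (a + b))) < 1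
        rw [map_add, map_add]
        exact v.map_add_lt ha hb
      zero_mem' := by
        change v (j (algebraMap _ K 0)) < 1
        rw [map_zero, map_zero, map_zero]
        exact zero_lt_one
      smul_mem' := fun c a ha => by
        change v (j (algebraMap _ K (c * a))) < 1
        rw [map_mul, map_mul, map_mul]
        exact (mul_le_of_le_one_left' (e1_int j v c)).trans_lt ha }
  refine ⟨Q, ⟨fun h => ?_, fun {a b} h => ?_⟩, fun _ => Iff.rfl⟩
  · have h1 : v (j (algebraMap _ K (1 : 𝓞 K))) < 1 := (Ideal.eq_top_iff_one Q).1 h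
    rw [map_one, map_one, map_one] at h1
    exact lt_irrefl _ h1
  · have h1 : v (j (algebraMap _ K (a * b))) < 1 := h
    rw [map_mul, map_mul, map_mul] at h1
    by_contra h2
    rw [not_or] at h2
    exact absurd h1 (not_lt.2 (one_le_mul (not_lt.1 h2.1) (not_lt.1 h2.2)))

theorem e1_val (j : K →+* ℂ) (Q : Ideal (𝓞 K)) (hQ : Q.IsMaximal) :
    ∃ V : ValuationSubring ℂ, ∀ x : 𝓞 K, V.valuation (j x) < 1 ↔ x ∈ Q := by
  let f : 𝓞 K →+* ℂ := j.comp (algebraMap _ K)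
  have hf : Function.Injective f := j.injective.comp (RingOfIntegers.coe_injective)
  have hb : Function.Bijective f.rangeRestrict :=
    ⟨fun a b h => hf (congrArg Subtype.val h), f.rangeRestrict_surjective⟩
  have hI : Q.map f.rangeRestrict ≠ ⊤ := fun h => hQ.ne_top (by
    rw [← Ideal.comap_map_of_bijective f.rangeRestrict hb (I := Q), h, Ideal.comap_top])
  obtain ⟨V, -, hV⟩ := Ideal.image_subset_nonunits_valuationSubring _ hI
  obtain ⟨Q', hQ', h⟩ := e1_ideal j V.valuation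
  have hle : Q ≤ Q' := fun x hx => (h x).1 (hV ⟨_, Ideal.mem_map_of_mem _ hx, rfl⟩)
  exact ⟨V, fun x => (h x).trans (by rw [hQ.eq_of_le hQ'.ne_top hle])⟩

theorem e1_one {a b : Γ} (ha : a ≤ 1) (hb : b ≤ 1) (h : a * b = 1) : b = 1 :=
  le_antisymm hb (h ▸ mul_le_of_le_one_left' ha)

variable [NumberField K]

theorem e1_loc (j : K →+* ℂ) (v : Valuation ℂ Γ) {x : K} (hx : v (j x) ≤ 1) :
    ∃ a b : 𝓞 K, v (j b) = 1 ∧ (b : K) * x = a := by
  obtain ⟨Q, hQ, h⟩ := e1_ideal j v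
  have h1 : ∀ b : 𝓞 K, b ∉ Q → v (j b) = 1 := fun b hb =>
    le_antisymm (e1_int j v b) (not_lt.1 fun h2 => hb ((h b).1 h2))
  by_cases h0 : Q = ⊥
  · obtain ⟨a, b, hb, rfl⟩ := IsFractionRing.div_surjective (A := 𝓞 K) x
    have hb0 : b ≠ 0 := nonZeroDivisors.ne_zero hb
    refine ⟨a, b, h1 b (by rwa [h0, Ideal.mem_bot]), mul_div_cancel₀ _ ?_⟩
    exact fun h2 => hb0 (RingOfIntegers.coe_injective (h2.trans (map_zero _).symm))
  · obtain ⟨n, d, h2 | h2⟩ := HeightOneSpectrum.exists_primeCompl_mul_eq_or_mul_eq (K := K)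
      ⟨Q, hQ, h0⟩ x
    · exact ⟨n, d, h1 d d.2, (mul_comm _ _).trans h2⟩
    · refine ⟨d, n, e1_one hx (e1_int j v n) ?_, (mul_comm _ _).trans h2⟩
      rw [← map_mul, ← map_mul]
      exact (congrArg (fun z => v (j z)) h2).trans (h1 d d.2)

theorem e1_equiv (j : K →+* ℂ) (v : Valuation ℂ Γ) (Q : HeightOneSpectrum (𝓞 K))
    (hQ : ∀ x : 𝓞 K, v (j x) < 1 ↔ x ∈ Q.asIdeal) : (v.comap j).IsEquiv (Q.valuation K) := by
  refine Valuation.isEquiv_iff_val_le_one.2 fun {x} => ⟨fun hx => ?_, fun hx => ?_⟩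
  · obtain ⟨a, b, hb, e⟩ := e1_loc j v hx
    have h1 : Q.valuation K (algebraMap _ K b) = 1 :=
      (Q.valuation_eq_one_iff_notMem (K := K)).2 fun h => ((hQ b).2 h).ne hb
    have h2 : Q.valuation K (algebraMap _ K b * x) ≤ 1 := e ▸ Q.valuation_le_one a
    rwa [map_mul, h1, one_mul] at h2
  · obtain ⟨n, d, e⟩ := Q.exists_primeCompl_mul_eq_of_integer x hx
    have h1 : v (j (algebraMap _ K d.1)) = 1 :=
      le_antisymm (e1_int j v d.1) (not_lt.1 fun h2 => d.2 ((hQ d.1).1 h2))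
    have h2 : v (j (x * algebraMap _ K d.1)) ≤ 1 := e ▸ e1_int j v n
    rwa [map_mul, map_mul, h1, mul_one] at h2

theorem e1_frob {k : Type} [Field k] [NumberField k] [Algebra k K] [IsGalois k K] (j : K →+* ℂ)
    (v : Valuation ℂ Γ) {q : Ideal (𝓞 k)} (h0 : q ≠ ⊥)
    (hq : ∀ x : 𝓞 k, v (j (algebraMap (𝓞 k) (𝓞 K) x)) < 1 ↔ x ∈ q) :
    ∃ g : K ≃ₐ[k] K, ∀ x, v (j x) ≤ 1 → v (j (g x) - j x ^ Ideal.absNorm q) < 1 := by
  obtain ⟨Q, hQ, h⟩ := e1_ideal j v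
  have hu : Q.under (𝓞 k) = q := Ideal.ext fun x => (h _).symm.trans (hq x)
  have hG : IsGaloisGroup (K ≃ₐ[k] K) (𝓞 k) (𝓞 K) :=
    IsGaloisGroup.of_isFractionRing (K ≃ₐ[k] K) (𝓞 k) (𝓞 K) k K
  have hne : Q ≠ ⊥ := fun h1 => h0 (by rw [← hu, h1, Ideal.under_bot])
  have : Finite (𝓞 K ⧸ Q) := Ideal.finiteQuotientOfFreeOfNeBot Q hne
  obtain ⟨g, hg⟩ := IsArithFrobAt.exists_of_isInvariant (𝓞 k) (K ≃ₐ[k] K) Q
  have h1 : ∀ a : 𝓞 K, v (j (g a) - j a ^ Ideal.absNorm q) < 1 := fun a => by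
    have h2 := (h _).2 (hg a)
    rw [hu, ← Submodule.cardQuot_apply, ← Ideal.absNorm_apply] at h2
    rw [← map_pow, ← map_sub]
    exact h2
  refine ⟨g, fun x hx => ?_⟩
  obtain ⟨a, b, hb, e⟩ := e1_loc j v hx
  have h2 : v (j (g b)) = 1 := by
    have h3 : v (j b ^ Ideal.absNorm q) = 1 := by rw [map_pow, hb, one_pow]
    exact (v.map_eq_of_sub_lt (h3.symm ▸ h1 b)).trans h3
  have h3 : j (g b) * (j (g x) - j x ^ Ideal.absNorm q) = (j (g a) - j a ^ Ideal.absNorm q) -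
      (j (g b) - j b ^ Ideal.absNorm q) * j x ^ Ideal.absNorm q := by
    rw [← e, map_mul, map_mul, map_mul, mul_pow]
    ring
  have h4 : v ((j (g b) - j b ^ Ideal.absNorm q) * j x ^ Ideal.absNorm q) < 1 := by
    rw [map_mul, map_pow]
    exact mul_lt_one_of_lt_of_le (h1 b) (pow_le_one' hx _)
  have h5 := v.map_sub_lt (h1 a) h4
  rwa [← h3, map_mul, h2, one_mul] at h5

end e1

theorem e1_integral {x : ℂ} (h : ∀ V : ValuationSubring ℂ, V.valuation x ≤ 1) :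
    IsIntegral ℤ x := by
  by_contra hx
  obtain ⟨V, -, hV⟩ := Subring.exists_le_valuationSubring_of_isIntegrallyClosedIn
    (R := (integralClosure ℤ ℂ).toSubring) (x := x) hx
  exact hV ((V.valuation_le_one_iff x).1 (h V))

namespace St

variable (s : St) (F : IntermediateField s.k ℂ)

theorem exists_val [FiniteDimensional s.k F] (Q : Ideal (𝓞 F)) (hQ : Q.IsPrime) (h0 : Q ≠ ⊥) :
    ∃ V : ValuationSubring ℂ, ∀ x : 𝓞 F, V.valuation ((x : F) : ℂ) < 1 ↔ x ∈ Q := by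
  have : NumberField F := NumberField.of_module_finite s.k F
  exact e1_val (algebraMap F ℂ) Q (hQ.isMaximal h0)

theorem exists_ideal (v : Valuation ℂ Γ) :
    ∃ Q : Ideal (𝓞 F), Q.IsPrime ∧ ∀ x : 𝓞 F, v ((x : F) : ℂ) < 1 ↔ x ∈ Q := by
  exact e1_ideal (algebraMap F ℂ) v

theorem loc [FiniteDimensional s.k F] (v : Valuation ℂ Γ) {x : F} (hx : v (x : ℂ) ≤ 1) :
    ∃ a b : 𝓞 F, v ((b : F) : ℂ) = 1 ∧ (b : F) * x = a := by
  have : NumberField F := NumberField.of_module_finite s.k F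
  exact e1_loc (algebraMap F ℂ) v hx

theorem val_equiv [NumberField F] (v : Valuation ℂ Γ) (Q : HeightOneSpectrum (𝓞 F))
    (hQ : ∀ x : 𝓞 F, v ((x : F) : ℂ) < 1 ↔ x ∈ Q.asIdeal) (x y : F) :
    v (x : ℂ) ≤ v (y : ℂ) ↔ Q.valuation F x ≤ Q.valuation F y := by
  exact e1_equiv (algebraMap F ℂ) v Q hQ x y

theorem under_mem (Q : Ideal (𝓞 F)) (x : s.O) :
    x ∈ Q.under s.O ↔ ∃ y ∈ Q, ((y : F) : ℂ) = s.c x := by
  refine ⟨fun h => ⟨_, h, rfl⟩, ?_⟩
  rintro ⟨y, hy, e⟩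
  have h1 : y = algebraMap s.O (𝓞 F) x := RingOfIntegers.ext (Subtype.ext e)
  rw [h1] at hy
  exact hy

theorem frobOn [FiniteDimensional s.k F] [IsGalois s.k F] (v : Valuation ℂ Γ) {q : Ideal s.O}
    (h0 : q ≠ ⊥) (hq : ∀ x, v (s.c x) < 1 ↔ x ∈ q) :
    ∃ σ : s.Au, FrobOn v (Ideal.absNorm q) σ F := by
  have : NumberField F := NumberField.of_module_finite s.k F
  obtain ⟨g, hg⟩ := e1_frob (k := s.k) (algebraMap F ℂ) v h0 hq
  obtain ⟨ρ, hρ, h⟩ := s.exists_res F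
  obtain ⟨σ, rfl⟩ := hρ g
  refine ⟨σ, fun x hx hv => ?_⟩
  rw [← h σ ⟨x, hx⟩]
  exact hg ⟨x, hx⟩ hv

theorem unit_of_val [FiniteDimensional s.k F] {x : ℂ} (hx : x ∈ F)
    (h : ∀ V : ValuationSubring ℂ, V.valuation x = 1) :
    ∃ u : (𝓞 F)ˣ, (((u : 𝓞 F) : F) : ℂ) = x := by
  have h0 : x ≠ 0 := fun h1 => by
    have h2 := h ⊤
    rw [h1, map_zero] at h2
    exact zero_ne_one h2
  have hi : ∀ y : F, IsIntegral ℤ (y : ℂ) → IsIntegral ℤ y := fun y hy =>
    (isIntegral_algHom_iff (algebraMap F ℂ).toIntAlgHom (algebraMap F ℂ).injective).1 hy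
  have h1 := hi ⟨x, hx⟩ (e1_integral fun V => (h V).le)
  have h2 := hi ⟨x⁻¹, F.inv_mem hx⟩ (e1_integral fun V => by rw [map_inv₀, h V, inv_one])
  exact ⟨⟨⟨_, h1⟩, ⟨_, h2⟩, RingOfIntegers.ext (Subtype.ext (mul_inv_cancel₀ h0)),
    RingOfIntegers.ext (Subtype.ext (inv_mul_cancel₀ h0))⟩, rfl⟩

theorem exists_unram [FiniteDimensional s.k F] [IsGalois s.k F] : ∃ C : ℕ, C ≠ 0 ∧
    ∀ (V : ValuationSubring ℂ) (σ : s.Au), V.valuation C = 1 →
      (∀ x : 𝓞 F, V.valuation (σ ((x : F) : ℂ) - ((x : F) : ℂ)) < 1) → ∀ x ∈ F, σ x = x := by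
  have : NumberField F := NumberField.of_module_finite s.k F
  have h1 : ∀ g : F ≃ₐ[s.k] F, ∃ C : ℕ, C ≠ 0 ∧ ∀ V : ValuationSubring ℂ, V.valuation C = 1 →
      (∀ x : 𝓞 F, V.valuation (((g x : F) : ℂ) - ((x : F) : ℂ)) < 1) → ∀ x, g x = x := by
    intro g
    by_cases h : ∀ x : 𝓞 F, g x = x
    · refine ⟨1, one_ne_zero, fun _ _ _ x => ?_⟩
      obtain ⟨a, b, -, rfl⟩ := IsFractionRing.div_surjective (A := 𝓞 F) x
      rw [map_div₀]
      exact congrArg₂ _ (h a) (h b)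
    · obtain ⟨x, hx⟩ := not_forall.1 h
      obtain ⟨C, hC, h2⟩ := exists_nat_mul (s.alg_of_mem F (F.sub_mem (g x).2 (x : F).2))
        fun h3 => hx (Subtype.ext (sub_eq_zero.1 h3))
      exact ⟨C, hC, fun V hV h3 => absurd (h2 V hV) (h3 x).ne⟩
  choose C hC h2 using h1
  obtain ⟨ρ, -, h⟩ := s.exists_res F
  refine ⟨∏ g, C g, Finset.prod_ne_zero_iff.2 fun g _ => hC g, fun V σ hV h3 x hx => ?_⟩
  have h4 := h2 (ρ σ) V (v_nat_dvd _ (Finset.dvd_prod_of_mem C (Finset.mem_univ _)) hV)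
    (fun y => by rw [h]; exact h3 y) ⟨x, hx⟩
  exact (h σ ⟨x, hx⟩).symm.trans (congrArg Subtype.val h4)

end St

end Pool.Agent.P.MP_20768c_nt.Tz.Cv

end

-- part Cv.A3a
section

set_option autoImplicit false

open Complex NumberField IsDedekindDomain Filter Topology
open UpperHalfPlane hiding I
open scoped ComplexConjugate Real MatrixGroups

namespace Pool.Agent.P.MP_20768c_nt.Tz.Cv

open Pool.Agent.P.MP_20768c_nt.Tz.EQ (Lt pr sp IsLat jL qN)

variable {L : Lt} {z w t : ℂ}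

theorem a3a_half (h : IsLat L) (hz : z ∉ L) (hw : w ∉ L) (hp : z + w ∉ L) (hm : z - w ∉ L) :
    wpd L z * (wpd L z - wpd L w) + 2 * (wp L z - wp L w) ^ 2 * (wp L z - wp L (z + w)) =
      (wp L z - wp L w) * (6 * wp L z ^ 2 - g2 L / 2) := by
  obtain ⟨a, hζ⟩ := isZeta_eF h
  generalize (fun z => eF L z + π / ar L * conj z) = ζ at hζ
  have hS : ∀ᶠ y in 𝓝 z, ∀ t ∈ ({0, w, -w} : Finset ℂ), y - t ∉ L := by
    refine (compl_open h {0, w, -w}).mem_nhds ?_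
    intro t ht
    simp only [Finset.mem_insert, Finset.mem_singleton] at ht
    rcases ht with rfl | rfl | rfl
    · rwa [sub_zero]
    · exact hm
    · rwa [sub_neg_eq_add]
  have hE : (fun y => 2 * (wp L y - wp L w) * (ζ (y + w) - ζ y - ζ w)) =ᶠ[𝓝 z]
      fun y => wpd L y - wpd L w := by
    filter_upwards [hS] with y hy
    refine hζ.add h ?_ hw ?_ (hy w (by simp))
    · simpa using hy 0 (by simp)
    · simpa using hy (-w) (by simp)
  have d1 : HasDerivAt (fun y => 2 * (wp L y - wp L w) * (ζ (y + w) - ζ y - ζ w))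
      (2 * wpd L z * (ζ (z + w) - ζ z - ζ w) +
        2 * (wp L z - wp L w) * ((a - wp L (z + w)) - (a - wp L z))) z :=
    (((hasDerivAt_wp h hz).sub_const (wp L w)).const_mul 2).mul
      ((((hζ.deriv _ hp).comp_add_const z w).sub (hζ.deriv z hz)).sub_const (ζ w))
  have d2 : HasDerivAt (fun y => wpd L y - wpd L w) (6 * wp L z ^ 2 - g2 L / 2) z :=
    (hasDerivAt_wpd h hz).sub_const _
  have e1 := (d2.congr_of_eventuallyEq hE).unique d1
  have e2 := hζ.add h hz hw hp hm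
  linear_combination (-(wp L z - wp L w)) * e1 - wpd L z * e2

theorem wp_add_eq (h : IsLat L) (hz : z ∉ L) (hw : w ∉ L) (hp : z + w ∉ L) (hm : z - w ∉ L) :
    4 * (wp L (z + w) + wp L z + wp L w) * (wp L z - wp L w) ^ 2 = (wpd L z - wpd L w) ^ 2 := by
  have e1 := a3a_half h hz hw hp hm
  have e2 := a3a_half h hw hz (by rwa [add_comm]) (fun k => hm (by simpa using neg_mem k))
  rw [add_comm w z] at e2
  linear_combination -e1 - e2

theorem wp_sub_wp (h : IsLat L) (hz : z ∉ L) (hw : w ∉ L) (hp : z + w ∉ L) (hm : z - w ∉ L) :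
    (wp L (z + w) - wp L (z - w)) * (wp L z - wp L w) ^ 2 = -(wpd L z * wpd L w) := by
  have e1 := wp_add_eq h hz hw hp hm
  have e2 := wp_add_eq (w := -w) h hz (fun k => hw (by simpa using neg_mem k))
    (by rwa [← sub_eq_add_neg]) (by rwa [sub_neg_eq_add])
  rw [← sub_eq_add_neg, wp_neg h, wpd_neg h] at e2
  linear_combination (1 / 4 : ℂ) * e1 - (1 / 4 : ℂ) * e2

theorem wp_dbl (h : IsLat L) (hz : 2 * z ∉ L) :
    4 * (wp L (2 * z) + 2 * wp L z) * wpd L z ^ 2 = (6 * wp L z ^ 2 - g2 L / 2) ^ 2 := by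
  have hz1 : z ∉ L := fun k => hz (by rw [two_mul]; exact add_mem k k)
  have t1 := hasDerivAt_iff_tendsto_slope.1 (hasDerivAt_wp h hz1)
  have t2 := hasDerivAt_iff_tendsto_slope.1 (hasDerivAt_wpd h hz1)
  have c1 : Tendsto (wp L) (𝓝[≠] z) (𝓝 (wp L z)) :=
    (hasDerivAt_wp h hz1).continuousAt.tendsto.mono_left nhdsWithin_le_nhds
  have c2 : Tendsto (fun y => wp L (y + z)) (𝓝[≠] z) (𝓝 (wp L (2 * z))) := by
    have hzz : z + z ∉ L := by rwa [← two_mul]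
    rw [two_mul]
    exact ((hasDerivAt_wp h hzz).comp_add_const z z).continuousAt.tendsto.mono_left
      nhdsWithin_le_nhds
  have l1 := (((c2.add c1).add_const (wp L z)).const_mul 4).mul (t1.pow 2)
  have l2 := t2.pow 2
  have hE : (fun y => 4 * (wp L (y + z) + wp L y + wp L z) * slope (wp L) z y ^ 2) =ᶠ[𝓝[≠] z]
      fun y => slope (wpd L) z y ^ 2 := by
    filter_upwards [compl_nhds h {0, z, -z} z] with y hy
    have e := wp_add_eq (z := y) (w := z) h (by simpa using hy 0 (by simp)) hz1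
      (by simpa using hy (-z) (by simp)) (hy z (by simp))
    rw [slope_def_field, slope_def_field, div_pow, div_pow, ← e, mul_div_assoc]
  have e := tendsto_nhds_unique (l1.congr' hE) l2
  linear_combination e

theorem two_tr (h : IsLat L) (ht : t ∉ L) (h2 : 2 * t ∈ L) (hz : z ∉ L) (hzt : z + t ∉ L) :
    (wp L (z + t) - wp L t) * (wp L z - wp L t) = 3 * wp L t ^ 2 - g2 L / 4 := by
  have hm : z - t ∉ L := fun k => hzt (by
    have := add_mem k h2
    rwa [show z - t + 2 * t = z + t by ring] at this)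
  have h0 : wpd L t = 0 := (wpd_eq_zero h ht).2 h2
  have e1 := wp_add_eq h hz ht hzt hm
  have e2 := wpd_sq h hz
  have e3 := wpd_sq h ht
  rw [h0] at e1 e3
  have hne : wp L z - wp L t ≠ 0 := fun k =>
    (wp_inj h hz ht (sub_eq_zero.1 k)).elim hm hzt
  apply mul_left_cancel₀ hne
  linear_combination (1 / 4 : ℂ) * e1 + (1 / 4 : ℂ) * e2 - (1 / 4 : ℂ) * e3

end Pool.Agent.P.MP_20768c_nt.Tz.Cv

end

-- part Cv.A3b
section

set_option autoImplicit false

open Complex NumberField IsDedekindDomain Filter Topology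
open UpperHalfPlane hiding I
open scoped ComplexConjugate Real MatrixGroups

namespace Pool.Agent.P.MP_20768c_nt.Tz.Cv

open Pool.Agent.P.MP_20768c_nt.Tz.EQ (Lt pr sp IsLat jL qN)

variable {L : Lt} {R : Finset ℂ} {c : ℕ}

theorem psi_xm (h : IsLat L) {U z : ℂ} (hU : U ≠ 0) (r : ℂ) (hz : z ∉ L) :
    4 * xm L U r z ^ 3 + mb2 r * xm L U r z ^ 2 + 2 * mb4 L U r * xm L U r z + mb6 L U r =
      wpd L z ^ 2 / U ^ 3 := by
  rw [wpd_sq h hz]
  unfold xm mb2 mb4 mb6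
  field_simp
  ring

theorem a3b_sum (h : IsLat L) {z w : ℂ} (hz : z ∉ L) (hw : w ∉ L) (hp : z + w ∉ L)
    (hm : z - w ∉ L) :
    (wp L (z + w) + wp L (z - w)) * (wp L z - wp L w) ^ 2 =
      2 * wp L z * wp L w * (wp L z + wp L w) - g2 L / 2 * (wp L z + wp L w) - g3 L ∧
    wp L (z + w) * wp L (z - w) * (wp L z - wp L w) ^ 2 = wp L z ^ 2 * wp L w ^ 2 +
      g2 L / 2 * wp L z * wp L w + g3 L * (wp L z + wp L w) + g2 L ^ 2 / 16 := by
  have e1 := wp_add_eq h hz hw hp hm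
  have e2 := wp_add_eq h hz (w := -w) (fun k => hw (neg_mem_iff.1 k))
    (by rwa [← sub_eq_add_neg]) (by rwa [sub_neg_eq_add])
  rw [← sub_eq_add_neg, wp_neg h, wpd_neg h] at e2
  have s1 := wpd_sq h hz
  have s2 := wpd_sq h hw
  have hne : wp L z - wp L w ≠ 0 := fun k =>
    (wp_inj h hz hw (sub_eq_zero.1 k)).elim hm hp
  generalize wp L (z + w) = S at *
  generalize wp L (z - w) = T at *
  generalize wp L z = p at *
  generalize wp L w = q at *
  generalize wpd L z = a at *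
  generalize wpd L w = b at *
  generalize g2 L = A at *
  generalize g3 L = B at *
  refine ⟨by linear_combination (1 / 4) * e1 + (1 / 4) * e2 + (1 / 2) * s1 + (1 / 2) * s2, ?_⟩
  refine mul_right_cancel₀ (pow_ne_zero 2 hne) ?_
  have f1 : 4 * S * (p - q) ^ 2 = (a - b) ^ 2 - 4 * (p + q) * (p - q) ^ 2 := by
    linear_combination e1
  have f2 : 4 * T * (p - q) ^ 2 = (a + b) ^ 2 - 4 * (p + q) * (p - q) ^ 2 := by
    linear_combination e2
  have f3 : 16 * (S * T * (p - q) ^ 2 * (p - q) ^ 2) = (a ^ 2 - b ^ 2) ^ 2 -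
      8 * (p + q) * (p - q) ^ 2 * (a ^ 2 + b ^ 2) + 16 * (p + q) ^ 2 * (p - q) ^ 4 := by
    calc _ = (4 * S * (p - q) ^ 2) * (4 * T * (p - q) ^ 2) := by ring
      _ = _ := by rw [f1, f2]; ring
  rw [s1, s2] at f3
  linear_combination (1 / 16) * f3

theorem exists_xg (h : IsLat L) {U : ℂ} (hU : U ≠ 0) (r : ℂ) :
    ∃ X : XG (ℂ ⧸ L.toAddSubgroup) ℂ, (∀ z : ℂ, X.x (QuotientAddGroup.mk z) = xm L U r z) ∧
      X.b2 = mb2 r ∧ X.b4 = mb4 L U r ∧ X.b6 = mb6 L U r ∧ X.b8 = mb8 L U r ∧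
      X.disc = dl L / U ^ 6 := by
  have hz : ∀ z : ℂ, (QuotientAddGroup.mk z : ℂ ⧸ L.toAddSubgroup) ≠ 0 → z ∉ L := fun z k m =>
    k ((QuotientAddGroup.eq_zero_iff z).2 m)
  have hq : ∀ z w : ℂ, z - w ∈ L →
      (QuotientAddGroup.mk z : ℂ ⧸ L.toAddSubgroup) = QuotientAddGroup.mk w := fun z w m =>
    QuotientAddGroup.eq_iff_sub_mem.2 m
  let x : ℂ ⧸ L.toAddSubgroup → ℂ := fun P => Quotient.liftOn' P (xm L U r) fun a b e => by
    have : a - b ∈ L := QuotientAddGroup.eq_iff_sub_mem.1 (Quotient.sound' e)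
    unfold xm
    rw [wp_congr h this]
  have hx : ∀ z : ℂ, x (QuotientAddGroup.mk z) = wp L z / U + r := fun _ => rfl
  refine ⟨⟨x, mb2 r, mb4 L U r, mb6 L U r, mb8 L U r, ?_, ?_, ?_, ?_, ?_, ?_, ?_⟩,
    fun _ => rfl, rfl, rfl, rfl, rfl, ?_⟩
  · unfold mb8
    ring
  · intro P
    obtain ⟨z, rfl⟩ := QuotientAddGroup.mk_surjective P
    rw [← QuotientAddGroup.mk_neg, hx, hx, wp_neg h]
  · intro P Q hP hQ e
    obtain ⟨z, rfl⟩ := QuotientAddGroup.mk_surjective P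
    obtain ⟨w, rfl⟩ := QuotientAddGroup.mk_surjective Q
    rw [hx, hx, add_left_inj, div_left_inj' hU] at e
    rcases wp_inj h (hz z hP) (hz w hQ) e with k | k
    · exact Or.inl (hq z w k)
    · exact Or.inr (hq z (-w) (by rwa [sub_neg_eq_add]))
  · intro P Q hP hQ hp hm
    obtain ⟨z, rfl⟩ := QuotientAddGroup.mk_surjective P
    obtain ⟨w, rfl⟩ := QuotientAddGroup.mk_surjective Q
    have e := (a3b_sum h (hz z hP) (hz w hQ) (hz (z + w) hp) (hz (z - w) hm)).1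
    rw [← QuotientAddGroup.mk_add, ← QuotientAddGroup.mk_sub, hx, hx, hx, hx]
    unfold mb2 mb4 mb6
    linear_combination (1 / U) ^ 3 * e
  · intro P Q hP hQ hp hm
    obtain ⟨z, rfl⟩ := QuotientAddGroup.mk_surjective P
    obtain ⟨w, rfl⟩ := QuotientAddGroup.mk_surjective Q
    obtain ⟨e, e'⟩ := a3b_sum h (hz z hP) (hz w hQ) (hz (z + w) hp) (hz (z - w) hm)
    rw [← QuotientAddGroup.mk_add, ← QuotientAddGroup.mk_sub, hx, hx, hx, hx]
    unfold mb8 mb2 mb4 mb6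
    linear_combination (1 / U) ^ 4 * e' + r * (1 / U) ^ 3 * e
  · intro P hP hp
    obtain ⟨z, rfl⟩ := QuotientAddGroup.mk_surjective P
    have e := wp_dbl h (z := z) (by rw [two_mul]; exact hz (z + z) hp)
    rw [wpd_sq h (hz z hP)] at e
    rw [← QuotientAddGroup.mk_add, hx, hx, ← two_mul]
    unfold mb8 mb2 mb4 mb6
    linear_combination (1 / U) ^ 4 / 4 * e
  · intro P hP
    obtain ⟨z, rfl⟩ := QuotientAddGroup.mk_surjective P
    have e := psi_xm h hU r (hz z hP)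
    unfold xm at e
    rw [← QuotientAddGroup.mk_add, QuotientAddGroup.eq_zero_iff, hx, e, div_eq_zero_iff,
      or_iff_left (pow_ne_zero _ hU), pow_eq_zero_iff two_ne_zero, wpd_eq_zero h (hz z hP), two_mul]
    rfl
  · unfold XG.disc dl
    simp only
    unfold mb8 mb2 mb4 mb6
    ring

theorem a3b_vieta (h : IsLat L) {t₁ t₂ : ℂ} (h1 : t₁ ∉ L) (h2 : t₂ ∉ L) (h3 : t₁ + t₂ ∉ L)
    (k1 : 2 * t₁ ∈ L) (k2 : 2 * t₂ ∈ L) : (wp L t₁ + wp L t₂ + wp L (t₁ + t₂) = 0 ∧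
      g2 L = -4 * (wp L t₁ * wp L t₂ + wp L t₁ * wp L (t₁ + t₂) + wp L t₂ * wp L (t₁ + t₂)) ∧
      g3 L = 4 * wp L t₁ * wp L t₂ * wp L (t₁ + t₂)) ∧
      wp L t₁ ≠ wp L t₂ ∧ wp L t₁ ≠ wp L (t₁ + t₂) ∧ wp L t₂ ≠ wp L (t₁ + t₂) := by
  have k3 : 2 * (t₁ + t₂) ∈ L := by rw [mul_add]; exact add_mem k1 k2
  have n12 : wp L t₁ ≠ wp L t₂ := fun e => (wp_inj h h1 h2 e).elim (fun m => h3 (by
    have := add_mem m k2
    rwa [show t₁ - t₂ + 2 * t₂ = t₁ + t₂ by ring] at this)) h3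
  have n13 : wp L t₁ ≠ wp L (t₁ + t₂) := fun e => (wp_inj h h1 h3 e).elim (fun m => h2 (by
    have := neg_mem m
    rwa [show -(t₁ - (t₁ + t₂)) = t₂ by ring] at this)) fun m => h2 (by
    have := sub_mem m k1
    rwa [show t₁ + (t₁ + t₂) - 2 * t₁ = t₂ by ring] at this)
  have n23 : wp L t₂ ≠ wp L (t₁ + t₂) := fun e => (wp_inj h h2 h3 e).elim (fun m => h1 (by
    have := neg_mem m
    rwa [show -(t₂ - (t₁ + t₂)) = t₁ by ring] at this)) fun m => h1 (by
    have := sub_mem m k2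
    rwa [show t₂ + (t₁ + t₂) - 2 * t₂ = t₁ by ring] at this)
  refine ⟨?_, n12, n13, n23⟩
  have s1 := wpd_sq h h1
  have s2 := wpd_sq h h2
  have s3 := wpd_sq h h3
  rw [(wpd_eq_zero h h1).2 k1] at s1
  rw [(wpd_eq_zero h h2).2 k2] at s2
  rw [(wpd_eq_zero h h3).2 k3] at s3
  generalize wp L (t₁ + t₂) = e at *
  generalize wp L t₁ = a at *
  generalize wp L t₂ = b at *
  generalize g2 L = A at *
  generalize g3 L = B at *
  have q1 : 4 * (a ^ 2 + a * b + b ^ 2) = A :=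
    mul_left_cancel₀ (sub_ne_zero.2 n12) (by linear_combination s2 - s1)
  have q2 : 4 * (a ^ 2 + a * e + e ^ 2) = A :=
    mul_left_cancel₀ (sub_ne_zero.2 n13) (by linear_combination s3 - s1)
  have q3 : a + b + e = 0 :=
    mul_left_cancel₀ (sub_ne_zero.2 n23) (by linear_combination (1 / 4) * q1 - (1 / 4) * q2)
  exact ⟨q3, by linear_combination 4 * (a + b) * q3 - q1,
    by linear_combination s1 + a * q1 - 4 * a * b * q3⟩

theorem vieta (h : IsLat L) {t₁ t₂ : ℂ} (h1 : t₁ ∉ L) (h2 : t₂ ∉ L) (h3 : t₁ + t₂ ∉ L)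
    (k1 : 2 * t₁ ∈ L) (k2 : 2 * t₂ ∈ L) (x : ℂ) : 4 * x ^ 3 - g2 L * x - g3 L =
      4 * (x - wp L t₁) * (x - wp L t₂) * (x - wp L (t₁ + t₂)) := by
  obtain ⟨e1, e2, e3⟩ := (a3b_vieta h h1 h2 h3 k1 k2).1
  rw [e2, e3]
  linear_combination 4 * x ^ 2 * e1

theorem vieta' (h : IsLat L) {t₁ t₂ : ℂ} (h1 : t₁ ∉ L) (h2 : t₂ ∉ L) (h3 : t₁ + t₂ ∉ L)
    (k1 : 2 * t₁ ∈ L) (k2 : 2 * t₂ ∈ L) : wp L t₁ + wp L t₂ + wp L (t₁ + t₂) = 0 ∧
      g2 L = -4 * (wp L t₁ * wp L t₂ + wp L t₁ * wp L (t₁ + t₂) + wp L t₂ * wp L (t₁ + t₂)) ∧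
      g3 L = 4 * wp L t₁ * wp L t₂ * wp L (t₁ + t₂) ∧
      wp L t₁ ≠ wp L t₂ ∧ wp L t₁ ≠ wp L (t₁ + t₂) ∧ wp L t₂ ≠ wp L (t₁ + t₂) := by
  obtain ⟨⟨e1, e2, e3⟩, e4⟩ := a3b_vieta h h1 h2 h3 k1 k2
  exact ⟨e1, e2, e3, e4⟩

theorem two_cases (h : IsLat L) {t₁ t₂ : ℂ} (h1 : t₁ ∉ L) (h2 : t₂ ∉ L) (h3 : t₁ + t₂ ∉ L)
    (k1 : 2 * t₁ ∈ L) (k2 : 2 * t₂ ∈ L) {t : ℂ} (ht : 2 * t ∈ L) :
    t ∈ L ∨ t - t₁ ∈ L ∨ t - t₂ ∈ L ∨ t - (t₁ + t₂) ∈ L := by
  by_cases h0 : t ∈ L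
  · exact Or.inl h0
  have e := wpd_sq h h0
  rw [(wpd_eq_zero h h0).2 ht, vieta h h1 h2 h3 k1 k2] at e
  have key : ∀ u, u ∉ L → wp L t - wp L u = 0 → t - u ∈ L := fun u hu k => by
    rcases wp_inj h h0 hu (sub_eq_zero.1 k) with m | m
    · exact m
    · have := sub_mem ht m
      rwa [show 2 * t - (t + u) = t - u by ring] at this
  have e' : (wp L t - wp L t₁) * (wp L t - wp L t₂) * (wp L t - wp L (t₁ + t₂)) = 0 := by
    linear_combination (-1 / 4) * e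
  rcases mul_eq_zero.1 e' with k | k
  · rcases mul_eq_zero.1 k with k | k
    · exact Or.inr (Or.inl (key _ h1 k))
    · exact Or.inr (Or.inr (Or.inl (key _ h2 k)))
  · exact Or.inr (Or.inr (Or.inr (key _ h3 k)))

theorem exists_other (h : IsLat L) {t₁ : ℂ} (h1 : t₁ ∉ L) (k1 : 2 * t₁ ∈ L) :
    ∃ t₂, t₂ ∉ L ∧ t₁ + t₂ ∉ L ∧ 2 * t₂ ∈ L := by
  obtain ⟨a, b, ha, hb, hab⟩ := exists_tors h (n := 2) one_lt_two
  have ha' : 2 * a ∈ L := by exact_mod_cast ha
  have hb' : 2 * b ∈ L := by exact_mod_cast hb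
  have na : a ∉ L := fun k => by
    have := (hab 1 0 (by simpa using k)).1
    norm_num at this
  have nb : b ∉ L := fun k => by
    have := (hab 0 1 (by simpa using k)).2
    norm_num at this
  by_cases k : t₁ + a ∈ L
  · refine ⟨b, nb, fun m => ?_, hb'⟩
    have := (hab 1 (-1) (by
      have := sub_mem k m
      rwa [show t₁ + a - (t₁ + b) = ((1 : ℤ) : ℂ) * a + ((-1 : ℤ) : ℂ) * b by
        push_cast; ring] at this)).1
    norm_num at this
  · exact ⟨a, na, k, ha'⟩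

theorem a3b_mem (hc : 0 < c) {t : ℂ} : t ∈ pr (c : ℂ)⁻¹ * L ↔ (c : ℂ) * t ∈ L := by
  have h0 : (c : ℂ) ≠ 0 := Nat.cast_ne_zero.2 hc.ne'
  rw [← mul_mem_sc (L := L) (z := c * t) (inv_ne_zero h0), inv_mul_cancel_left₀ h0]

theorem a3b_reps (h : IsLat L) (hc : 0 < c) : ∃ R, Reps L (pr (c : ℂ)⁻¹ * L) R :=
  exists_reps h (h.pr_mul (inv_ne_zero (Nat.cast_ne_zero.2 hc.ne'))) fun y hy =>
    (a3b_mem hc).2 (by simpa using L.smul_mem (c : ℤ) hy)

theorem xs_finite (h : IsLat L) (hc : 0 < c) : (XS L c).Finite := by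
  obtain ⟨R, hR⟩ := a3b_reps h hc
  refine (R.finite_toSet.image (wp L)).subset ?_
  rintro e ⟨t, h1, _, rfl⟩
  obtain ⟨r, ⟨hr, k⟩, _⟩ := hR.2.2.2 t ((a3b_mem hc).2 h1)
  exact ⟨r, hr, (wp_congr h k).symm⟩

theorem a3b_maps (h : IsLat L) (hc : Odd c) (hR : Reps L (pr (c : ℂ)⁻¹ * L) R) :
    ∀ t ∈ R.erase 0, wp L t ∈ (xs_finite h hc.pos).toFinset := fun t ht => by
  obtain ⟨h0, ht⟩ := Finset.mem_erase.1 ht
  rw [Set.Finite.mem_toFinset]
  exact ⟨t, (a3b_mem hc.pos).1 (hR.2.2.1 t ht),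
    fun m => h0 (hR.sub_mem ht hR.2.1 (by rwa [sub_zero])), rfl⟩

open Classical in
theorem a3b_fib (h : IsLat L) (hc : Odd c) (hR : Reps L (pr (c : ℂ)⁻¹ * L) R) {e : ℂ}
    (he : e ∈ XS L c) : ((R.erase 0).filter fun t => wp L t = e).card = 2 := by
  obtain ⟨t, h1, h2, rfl⟩ := he
  have m1 := (a3b_mem hc.pos).2 h1
  obtain ⟨a, ⟨ha, ka⟩, _⟩ := hR.2.2.2 t m1
  obtain ⟨b, ⟨hb, kb⟩, _⟩ := hR.2.2.2 (-t) (neg_mem m1)
  have hab : a ≠ b := by
    rintro rfl
    obtain ⟨j, rfl⟩ := hc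
    have k2 := L.smul_mem (j : ℤ) (sub_mem ka kb)
    have := sub_mem h1 k2
    refine h2 ?_
    rwa [show ((2 * j + 1 : ℕ) : ℂ) * t - (j : ℤ) • (t - a - (-t - a)) = t by
      rw [zsmul_eq_mul]; push_cast; ring] at this
  rw [Finset.card_eq_two]
  refine ⟨a, b, hab, ?_⟩
  ext u
  rw [Finset.mem_filter, Finset.mem_erase, Finset.mem_insert, Finset.mem_singleton]
  constructor
  · rintro ⟨⟨h0, hu⟩, k⟩
    rcases wp_inj h (fun m => h0 (hR.sub_mem hu hR.2.1 (by rwa [sub_zero]))) h2 k with m | m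
    · refine Or.inl (hR.sub_mem hu ha ?_)
      have := add_mem m ka
      rwa [show u - t + (t - a) = u - a by ring] at this
    · refine Or.inr (hR.sub_mem hu hb ?_)
      have := add_mem m kb
      rwa [show u + t + (-t - b) = u - b by ring] at this
  · rintro (rfl | rfl)
    · refine ⟨⟨?_, ha⟩, (wp_congr h ka).symm⟩
      rintro rfl
      exact h2 (by rwa [sub_zero] at ka)
    · refine ⟨⟨?_, hb⟩, by rw [← wp_congr h kb, wp_neg h]⟩
      rintro rfl
      exact h2 (neg_mem_iff.1 (by rwa [sub_zero] at kb))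

theorem xs_prod {A : Type} [CommMonoid A] (h : IsLat L) (hc : Odd c)
    (hR : Reps L (pr (c : ℂ)⁻¹ * L) R) (f : ℂ → A) :
    ∏ t ∈ R.erase 0, f (wp L t) = (∏ᶠ e ∈ XS L c, f e) ^ 2 := by
  classical
  have hf := xs_finite h hc.pos
  rw [finprod_mem_eq_finite_toFinset_prod _ hf, ← Finset.prod_pow,
    ← Finset.prod_fiberwise_of_maps_to (a3b_maps h hc hR)]
  refine Finset.prod_congr rfl fun e he => ?_
  rw [Finset.prod_congr rfl (g := fun _ => f e) fun t ht => by rw [(Finset.mem_filter.1 ht).2],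
    Finset.prod_const, a3b_fib h hc hR (hf.mem_toFinset.1 he)]

theorem xs_card (h : IsLat L) (hc : Odd c) : 2 * (XS L c).ncard + 1 = c ^ 2 := by
  classical
  have hf := xs_finite h hc.pos
  obtain ⟨R, hR⟩ := a3b_reps h hc.pos
  have e := Finset.card_eq_sum_card_fiberwise (s := R.erase 0) (f := wp L) (t := hf.toFinset)
    fun t ht => a3b_maps h hc hR t ht
  rw [Finset.sum_congr rfl fun e he => a3b_fib h hc hR (hf.mem_toFinset.1 he), Finset.sum_const,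
    smul_eq_mul] at e
  rw [Set.ncard_eq_toFinset_card _ hf, ← reps_div h hc.pos hR, ← Finset.card_erase_add_one hR.2.1, e,
    mul_comm]

theorem xs_sc (L : Lt) {x : ℂ} (hx : x ≠ 0) (c : ℕ) :
    XS (pr x * L) c = (fun e => e / x ^ 2) '' XS L c := by
  ext e
  constructor
  · rintro ⟨t, h1, h2, rfl⟩
    obtain ⟨u, rfl⟩ : ∃ u, t = x * u := ⟨t / x, by field_simp⟩
    rw [mul_left_comm, mul_mem_sc hx] at h1
    rw [mul_mem_sc hx] at h2
    exact ⟨wp L u, ⟨u, h1, h2, rfl⟩, (wp_sc L hx u).symm⟩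
  · rintro ⟨_, ⟨u, h1, h2, rfl⟩, rfl⟩
    exact ⟨x * u, by rwa [mul_left_comm, mul_mem_sc hx], by rwa [mul_mem_sc hx], wp_sc L hx u⟩

theorem xs_ne (h : IsLat L) {z e : ℂ} (hz : c * z ∉ L) (he : e ∈ XS L c) : wp L z ≠ e := by
  obtain ⟨t, h1, h2, rfl⟩ := he
  intro k
  have hc : ∀ y ∈ L, (c : ℂ) * y ∈ L := fun y hy => by simpa using L.smul_mem (c : ℤ) hy
  rcases wp_inj h (fun m => hz (hc z m)) h2 k with m | m
  · have := add_mem (hc _ m) h1
    exact hz (by rwa [show (c : ℂ) * (z - t) + c * t = c * z by ring] at this)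
  · have := sub_mem (hc _ m) h1
    exact hz (by rwa [show (c : ℂ) * (z + t) - c * t = c * z by ring] at this)

end Pool.Agent.P.MP_20768c_nt.Tz.Cv

end

-- part Cv.I4
section

set_option autoImplicit false

open Complex NumberField IsDedekindDomain Filter Topology
open UpperHalfPlane hiding I
open scoped ComplexConjugate Real MatrixGroups

namespace Pool.Agent.P.MP_20768c_nt.Tz.Cv

open Pool.Agent.P.MP_20768c_nt.Tz.EQ (Lt pr sp IsLat jL qN)

/-- the Weber type function at the point `1 / M` -/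
noncomputable def i4_y (M : ℕ) (τ : ℍ) : ℂ :=
  g2 (sp 1 τ) * g3 (sp 1 τ) * wp (sp 1 τ) (1 / M) / dl (sp 1 τ)

theorem i4_lat (g : SL(2, ℤ)) (τ : ℍ) :
    sp 1 (τ : ℂ) = pr ((g 1 0 : ℂ) * τ + g 1 1) * sp 1 ((g • τ : ℍ) : ℂ) := by
  have h := Pool.Agent.P.MP_20768c_nt.Tz.EQ.sp_smul 1 g τ
  rw [one_mul, one_mul] at h
  rw [Pool.Agent.P.MP_20768c_nt.Tz.EQ.pr_mul_sp, mul_one, h]

theorem i4_smul (M : ℕ) (g : SL(2, ℤ)) (τ : ℍ) :
    i4_y M (g • τ) = g2 (sp 1 τ) * g3 (sp 1 τ) *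
      wp (sp 1 τ) (((g 1 0 : ℂ) * τ + g 1 1) / M) / dl (sp 1 τ) := by
  have hj := Pool.Agent.P.MP_20768c_nt.Tz.EQ.sl_den_ne_lat g τ
  have hd := dl_ne (Pool.Agent.P.MP_20768c_nt.Tz.EQ.isLat_one (g • τ))
  have e : ((g 1 0 : ℂ) * τ + g 1 1) / M = ((g 1 0 : ℂ) * τ + g 1 1) * (1 / M) := by ring
  rw [i4_lat g τ, e, wp_sc _ hj, g2_sc _ hj, g3_sc _ hj, dl_sc _ hj, i4_y]
  generalize ((g 1 0 : ℂ) * τ + g 1 1) = j at hj
  field_simp

theorem i4_mem {M : ℕ} (hM : 0 < M) (τ : ℍ) (c d : ℤ) :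
    ((c : ℂ) * τ + d) / M ∈ sp 1 (τ : ℂ) ↔ (M : ℤ) ∣ c ∧ (M : ℤ) ∣ d := by
  have h0 : (M : ℂ) ≠ 0 := Nat.cast_ne_zero.2 hM.ne'
  rw [Pool.Agent.P.MP_20768c_nt.Tz.EQ.mem_sp]
  constructor
  · rintro ⟨m, n, h⟩
    rw [div_eq_iff h0] at h
    have h1 := Pool.Agent.P.MP_20768c_nt.Tz.EQ.int_indep_lat τ (p := c - M * n) (q := d - M * m)
      (by push_cast; linear_combination h)
    exact ⟨⟨n, by linarith [h1.1]⟩, ⟨m, by linarith [h1.2]⟩⟩
  · rintro ⟨⟨n, rfl⟩, ⟨m, rfl⟩⟩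
    refine ⟨m, n, ?_⟩
    rw [div_eq_iff h0]
    push_cast
    ring

theorem i4_det (g : SL(2, ℤ)) : g 0 0 * g 1 1 - g 0 1 * g 1 0 = 1 := by
  have := g.det_coe
  rwa [Matrix.det_fin_two] at this

theorem i4_not_mem {M : ℕ} (hM : 3 ≤ M) (g : SL(2, ℤ)) (τ : ℍ) :
    ((g 1 0 : ℂ) * τ + g 1 1) / M ∉ sp 1 (τ : ℂ) := by
  rw [i4_mem (by omega)]
  rintro ⟨h1, h2⟩
  have h3 : (M : ℤ) ∣ 1 := i4_det g ▸ dvd_sub (h2.mul_left _) (h1.mul_left _)
  have := Int.le_of_dvd one_pos h3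
  omega

theorem i4_one_not_mem {M : ℕ} (hM : 3 ≤ M) (τ : ℍ) : (1 / M : ℂ) ∉ sp 1 (τ : ℂ) := by
  have := i4_not_mem hM 1 τ
  simpa using this

theorem i4_inv {M : ℕ} (hM : 0 < M) {γ : SL(2, ℤ)} (hγ : γ ∈ CongruenceSubgroup.Gamma1 M) (τ : ℍ) :
    i4_y M (γ • τ) = i4_y M τ := by
  rw [CongruenceSubgroup.Gamma1_mem] at hγ
  obtain ⟨-, h1, h2⟩ := hγ
  have h3 : (M : ℤ) ∣ γ 1 1 - 1 := by
    rw [← ZMod.intCast_zmod_eq_zero_iff_dvd]
    push_cast
    rw [h1, sub_self]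
  have h4 := (i4_mem hM τ (γ 1 0) (γ 1 1 - 1)).2
    ⟨(ZMod.intCast_zmod_eq_zero_iff_dvd _ _).1 h2, h3⟩
  have e : ((γ 1 0 : ℂ) * τ + γ 1 1) / M - 1 / M =
      ((γ 1 0 : ℂ) * τ + ((γ 1 1 - 1 : ℤ) : ℂ)) / M := by
    push_cast
    ring
  rw [i4_smul, i4_y, wp_congr (Pool.Agent.P.MP_20768c_nt.Tz.EQ.isLat_one τ) (w := 1 / M) (e ▸ h4)]

theorem i4_g3 {M : ℕ} (hM : 0 < M) : BQ M fun τ => g3 (sp 1 (τ : ℂ)) := by
  have h := (eis_exp hM (k := 6) (by norm_num) 0 0).smul 140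
  simpa [g3, Gk] using h

theorem i4_congr {M : ℕ} {f g : ℍ → ℂ} (h : BQ M f) (e : ∀ τ, f τ = g τ) : BQ M g :=
  (funext e : f = g) ▸ h

theorem i4_bq {M : ℕ} (hM : 3 ≤ M) (g : SL(2, ℤ)) :
    BQ M fun τ => ModularForm.discriminant τ ^ 1 * i4_y M (g • τ) := by
  have h0 : 0 < M := by omega
  have h3 := eis_exp h0 (k := 3) le_rfl (g 1 0) (g 1 1)
  have h6 := eis_exp h0 (k := 6) (by norm_num) (g 1 0) (g 1 1)
  have h := (((i4_g3 h0).mul h0 (((h6.smul 10).add ((h3.pow h0 2).smul (-10))).add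
    ((i4_g3 h0).smul (-3 / 2))))).smul (((2 * π : ℂ) ^ 12)⁻¹)
  refine i4_congr h fun τ => ?_
  have hL := Pool.Agent.P.MP_20768c_nt.Tz.EQ.isLat_one τ
  have hz := i4_not_mem hM g τ
  have hd := dl_sp one_ne_zero τ
  rw [one_mul] at hd
  have hD := ModularForm.discriminant_ne_zero τ
  have hp : (2 * π : ℂ) ≠ 0 := mul_ne_zero two_ne_zero (ofReal_ne_zero.2 Real.pi_ne_zero)
  have e := wpd_sq hL hz
  rw [sum_six hL hz, sum_three, i4_smul, hd]
  generalize (2 * π : ℂ) = p at hp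
  have e' : 10 * (wp (sp 1 ↑τ) ((↑(g 1 0) * ↑τ + ↑(g 1 1)) / ↑M) ^ 3 -
      3 / 20 * g2 (sp 1 ↑τ) * wp (sp 1 ↑τ) ((↑(g 1 0) * ↑τ + ↑(g 1 1)) / ↑M) - g3 (sp 1 ↑τ) / 10) +
      -10 * (-wpd (sp 1 ↑τ) ((↑(g 1 0) * ↑τ + ↑(g 1 1)) / ↑M) / 2) ^ 2 + -3 / 2 * g3 (sp 1 ↑τ) =
      g2 (sp 1 ↑τ) * wp (sp 1 ↑τ) ((↑(g 1 0) * ↑τ + ↑(g 1 1)) / ↑M) := by
    linear_combination (-5 / 2) * e
  rw [e']
  field_simp

theorem i4_T (M : ℕ) : ModularGroup.T ∈ CongruenceSubgroup.Gamma1 M := by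
  rw [CongruenceSubgroup.Gamma1_mem]
  simp [ModularGroup.T]

theorem i4_sep {M : ℕ} (hM : 3 ≤ M) (g : SL(2, ℤ)) (h : ∀ τ : ℍ, i4_y M (g • τ) = i4_y M τ) :
    g ∈ CongruenceSubgroup.Gamma1 M ∨ -g ∈ CongruenceSubgroup.Gamma1 M := by
  have h0 : 0 < M := by omega
  obtain ⟨τ, hτ⟩ := Pool.Agent.P.MP_20768c_nt.Tz.EQ.jInv_surj 1
  have hL := Pool.Agent.P.MP_20768c_nt.Tz.EQ.isLat_one τ
  obtain ⟨h2, h3⟩ := (g23_iff hL).2 (by rw [Pool.Agent.P.MP_20768c_nt.Tz.EQ.jL_one, hτ]; norm_num)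
  have h1 := h τ
  rw [i4_smul, i4_y, div_left_inj' (dl_ne hL)] at h1
  have hdet : ((g 0 0 : ℤ) : ZMod M) * (g 1 1 : ℤ) - (g 0 1 : ℤ) * (g 1 0 : ℤ) = 1 := by
    exact_mod_cast congrArg (Int.cast : ℤ → ZMod M) (i4_det g)
  rcases wp_inj hL (i4_not_mem hM g τ) (i4_one_not_mem hM τ)
    (mul_left_cancel₀ (mul_ne_zero h2 h3) h1) with k | k
  · have e : ((g 1 0 : ℂ) * τ + g 1 1) / M - 1 / M =
        ((g 1 0 : ℂ) * τ + ((g 1 1 - 1 : ℤ) : ℂ)) / M := by
      push_cast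
      ring
    rw [e, i4_mem h0, ← ZMod.intCast_zmod_eq_zero_iff_dvd,
      ← ZMod.intCast_zmod_eq_zero_iff_dvd] at k
    obtain ⟨k1, k2⟩ := k
    push_cast at k2
    left
    rw [CongruenceSubgroup.Gamma1_mem]
    exact ⟨by linear_combination hdet - (g 0 0 : ℤ) * k2 + (g 0 1 : ℤ) * k1,
      by linear_combination k2, k1⟩
  · have e : ((g 1 0 : ℂ) * τ + g 1 1) / M + 1 / M =
        ((g 1 0 : ℂ) * τ + ((g 1 1 + 1 : ℤ) : ℂ)) / M := by
      push_cast
      ring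
    rw [e, i4_mem h0, ← ZMod.intCast_zmod_eq_zero_iff_dvd,
      ← ZMod.intCast_zmod_eq_zero_iff_dvd] at k
    obtain ⟨k1, k2⟩ := k
    push_cast at k2
    right
    rw [CongruenceSubgroup.Gamma1_mem]
    simp only [Matrix.SpecialLinearGroup.coe_neg, Matrix.neg_apply, Int.cast_neg]
    exact ⟨by linear_combination hdet - (g 0 0 : ℤ) * k2 + (g 0 1 : ℤ) * k1,
      by linear_combination -k2, by rw [k1, neg_zero]⟩

theorem exists_gen {M : ℕ} (hM : 3 ≤ M) : ∃ y, Gen M y := by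
  have h0 : 0 < M := by omega
  refine ⟨i4_y M, Pool.Agent.P.MP_20768c_nt.Tz.EQ.isMF_iff.2 ⟨fun γ hγ τ => i4_inv h0 hγ τ, 1,
    fun γ => (i4_bq hM γ).qs⟩, ⟨1, ?_⟩, i4_sep hM⟩
  have h := i4_bq hM 1
  simp only [one_smul] at h
  refine h.one h0 fun τ => ?_
  rw [i4_inv h0 (i4_T M), Pool.Agent.P.MP_20768c_nt.Tz.EQ.disc_smul]
  simp [ModularGroup.T]

end Pool.Agent.P.MP_20768c_nt.Tz.Cv

end
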