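import Pool.Agent.P.MP_20768c_nt.Tz.Z5
import Pool.Agent.P.MP_20768c_nt.Tz.Z7

-- part Cv.I3b
section

set_option autoImplicit false

open Complex NumberField IsDedekindDomain Filter Topology
open UpperHalfPlane hiding I
open scoped ComplexConjugate Real MatrixGroups

namespace Pool.Agent.P.MP_20768c_nt.Tz.Cv

open Pool.Agent.P.MP_20768c_nt.Tz.EQ (Lt pr sp IsLat jL qN)

/-- quotients of bounded expansions -/
def i3bFr (h : ℍ → ℂ) : Prop := ∃ p q : ℍ → ℂ, BQ 1 p ∧ BQ 1 q ∧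
    q ≠ 0 ∧ ∀ τ : ℍ, ∀ᶠ w in 𝓝[≠] (τ : ℂ), q (ofComplex w) * h (ofComplex w) = p (ofComplex w)

theorem i3b_ne {p q : ℍ → ℂ} (a : BQ 1 p) (b : BQ 1 q) (hp : p ≠ 0) (hq : q ≠ 0) :
    (fun τ => p τ * q τ) ≠ 0 := fun e =>
  (Pool.Agent.P.MP_20768c_nt.Tz.EQ.QS.eq_zero one_pos a.qs b.qs (congrFun e)).elim (fun h => hp (funext h))
    fun h => hq (funext h)

theorem i3b_of {h q : ℍ → ℂ} (b : BQ 1 q) (hq : q ≠ 0) (a : BQ 1 fun τ => q τ * h τ) : i3bFr h :=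
  ⟨_, q, a, b, hq, fun _ => Eventually.of_forall fun _ => rfl⟩

theorem i3b_const (c : ℂ) : i3bFr fun _ => c :=
  i3b_of (bq_const 1 1) (fun e => one_ne_zero (congrFun e UpperHalfPlane.I)) (bq_const 1 (1 * c))

theorem i3b_mul {h k : ℍ → ℂ} (a : i3bFr h) (b : i3bFr k) : i3bFr (h * k) := by
  obtain ⟨p, q, hp, hq, h0, e⟩ := a
  obtain ⟨p', q', hp', hq', h0', e'⟩ := b
  refine ⟨_, _, hp.mul one_pos hp', hq.mul one_pos hq', i3b_ne hq hq' h0 h0', fun τ => ?_⟩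
  filter_upwards [e τ, e' τ] with w h1 h2
  rw [← h1, ← h2, Pi.mul_apply]
  ring

theorem i3b_add {h k : ℍ → ℂ} (a : i3bFr h) (b : i3bFr k) : i3bFr (h + k) := by
  obtain ⟨p, q, hp, hq, h0, e⟩ := a
  obtain ⟨p', q', hp', hq', h0', e'⟩ := b
  refine ⟨_, _, (hp.mul one_pos hq').add (hq.mul one_pos hp'), hq.mul one_pos hq',
    i3b_ne hq hq' h0 h0', fun τ => ?_⟩
  filter_upwards [e τ, e' τ] with w h1 h2
  rw [← h1, ← h2, Pi.add_apply]
  ring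

def i3bFR : Subring (ℍ → ℂ) where
  carrier := {h | i3bFr h}
  mul_mem' := i3b_mul
  one_mem' := i3b_const 1
  add_mem' := i3b_add
  zero_mem' := i3b_const 0
  neg_mem' := fun {h} a => by
    have e : -h = (fun _ => (-1 : ℂ)) * h := by
      funext τ
      simp
    rw [e]
    exact i3b_mul (i3b_const _) a

def i3bMR (M : ℕ) : Subring (ℍ → ℂ) where
  carrier := {h | Mer0 M h}
  mul_mem' := Mer0.mul
  one_mem' := mer0_const M 1
  add_mem' := Mer0.add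
  zero_mem' := mer0_const M 0
  neg_mem' := fun {h} a => by
    have e : -h = fun τ => (-1 : ℂ) * h τ := by
      funext τ
      simp
    rw [e]
    exact Mer0.mul (mer0_const M _) a

theorem i3b_disc (m : ℕ) : BQ 1 fun τ => ModularForm.discriminant τ ^ m :=
  bq_of_intQ (Pool.Agent.P.MP_20768c_nt.Tz.EQ.iq2_intQ_disc.pow m)

theorem i3b_disc_ne (m : ℕ) : (fun τ : ℍ => ModularForm.discriminant τ ^ m) ≠ 0 := fun e =>
  pow_ne_zero m (ModularForm.discriminant_ne_zero UpperHalfPlane.I) (congrFun e UpperHalfPlane.I)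

theorem i3b_j : i3bFr Pool.Agent.P.MP_20768c_nt.Tz.EQ.jInv := by
  refine i3b_of (i3b_disc 1) (i3b_disc_ne 1) ?_
  have e : (fun τ : ℍ => ModularForm.discriminant τ ^ 1 * Pool.Agent.P.MP_20768c_nt.Tz.EQ.jInv τ) =
      fun τ => ModularForm.E₄ τ ^ 3 := by
    funext τ
    rw [pow_one, Pool.Agent.P.MP_20768c_nt.Tz.EQ.vmf_E4]
  rw [e]
  exact bq_of_intQ (Pool.Agent.P.MP_20768c_nt.Tz.EQ.intQ_E4.pow 3)

theorem i3b_zero {G : ℍ → ℂ} (hG : Continuous G) (τ : ℍ)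
    (h : ∀ᶠ w in 𝓝[≠] (τ : ℂ), G (ofComplex w) = 0) : G τ = 0 := by
  have h1 : ContinuousAt (fun w => G (ofComplex w)) (τ : ℂ) :=
    hG.continuousAt.comp (mdifferentiableAt_ofComplex τ.im_pos).continuousAt
  have h2 : Tendsto (fun w => G (ofComplex w)) (𝓝[≠] (τ : ℂ)) (𝓝 (G (ofComplex τ))) :=
    h1.tendsto.mono_left nhdsWithin_le_nhds
  have h3 : Tendsto (fun w => G (ofComplex w)) (𝓝[≠] (τ : ℂ)) (𝓝 0) :=
    tendsto_const_nhds.congr' (h.mono fun _ e => e.symm)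
  have h4 := tendsto_nhds_unique h2 h3
  rwa [ofComplex_apply] at h4

theorem i3b_div {M : ℕ} (hM : 0 < M) {h u v : ℍ → ℂ} (hv : v ∈ Pool.Agent.P.MP_20768c_nt.Tz.EQ.MF M ⊤) (h0 : v ≠ 0)
    (a : i3bFr u) (b : i3bFr v)
    (e : ∀ τ : ℍ, ∀ᶠ w in 𝓝[≠] (τ : ℂ), v (ofComplex w) * h (ofComplex w) = u (ofComplex w)) :
    i3bFr h := by
  obtain ⟨p, q, hp, hq, n, e1⟩ := a
  obtain ⟨p', q', hp', hq', n', e2⟩ := b
  have hn : p' ≠ 0 := by
    rintro rfl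
    obtain ⟨-, m, hm⟩ := Pool.Agent.P.MP_20768c_nt.Tz.EQ.isMF_iff.1 hv
    have h1 := hm 1
    have h2 := (hq'.level hM).qs
    refine (Pool.Agent.P.MP_20768c_nt.Tz.EQ.QS.eq_zero hM h2 h1 fun τ => ?_).elim (fun h => n' (funext h))
      fun h => h0 (funext fun τ => ?_)
    · refine i3b_zero ((h2.mul hM h1).continuous hM) τ ?_
      filter_upwards [e2 τ] with w hw
      rw [one_smul, mul_left_comm, hw, Pi.zero_apply, mul_zero]
    · have h3 := h τ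
      rw [one_smul] at h3
      exact (mul_eq_zero.1 h3).resolve_left (pow_ne_zero _ (ModularForm.discriminant_ne_zero τ))
  refine ⟨_, _, hq'.mul one_pos hp, hq.mul one_pos hp', i3b_ne hq hp' n hn, fun τ => ?_⟩
  filter_upwards [e τ, e1 τ, e2 τ] with w h1 h2 h3
  rw [← h2, ← h3, ← h1]
  ring

theorem i3b_poly (P : Polynomial ℂ) : i3bFr fun τ => P.eval (Pool.Agent.P.MP_20768c_nt.Tz.EQ.jInv τ) := by
  have e : (fun τ => P.eval (Pool.Agent.P.MP_20768c_nt.Tz.EQ.jInv τ)) = ∑ i ∈ Finset.range (P.natDegree + 1),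
      (fun _ => P.coeff i) * Pool.Agent.P.MP_20768c_nt.Tz.EQ.jInv ^ i := by
    funext τ
    rw [Polynomial.eval_eq_sum_range, Finset.sum_apply]
    rfl
  rw [e]
  exact sum_mem (S := i3bFR) fun i _ => mul_mem (S := Subring _) (s := i3bFR) (i3b_const _)
    (pow_mem (S := i3bFR) i3b_j i)

theorem i3b_inv {M : ℕ} (hM : 0 < M) {h : ℍ → ℂ} (a : Mer0 M h)
    (hi : ∀ (γ : SL(2, ℤ)) (τ : ℍ), h (γ • τ) = h τ) : i3bFr h := by
  obtain ⟨P, Q, hQ, e⟩ := mer_level hM a hi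
  refine i3b_div hM (v := fun τ => Q.eval (Pool.Agent.P.MP_20768c_nt.Tz.EQ.jInv τ)) ?_ (fun h0 => hQ ?_) (i3b_poly P)
    (i3b_poly Q) e
  · simp only [Polynomial.eval_eq_sum_range]
    exact Pool.Agent.P.MP_20768c_nt.Tz.EQ.MF.sum hM _ fun i _ => Pool.Agent.P.MP_20768c_nt.Tz.EQ.MF.mul hM
      (Pool.Agent.P.MP_20768c_nt.Tz.EQ.MF.const IntermediateField.mem_top)
      (Pool.Agent.P.MP_20768c_nt.Tz.EQ.MF.pow hM (Pool.Agent.P.MP_20768c_nt.Tz.EQ.MF.j hM) i)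
  · refine Polynomial.funext fun z => ?_
    obtain ⟨τ, rfl⟩ := Pool.Agent.P.MP_20768c_nt.Tz.EQ.jInv_surj z
    rw [Polynomial.eval_zero]
    exact congrFun h0 τ

/-- translation of functions -/
noncomputable def i3bT (γ : SL(2, ℤ)) : (ℍ → ℂ) →+* (ℍ → ℂ) :=
  RingHom.pi fun τ => Pi.evalRingHom _ (γ • τ)

theorem i3bT_inj (γ : SL(2, ℤ)) : Function.Injective (i3bT γ) := fun f g e => by
  funext τ
  have h : f (γ • γ⁻¹ • τ) = g (γ • γ⁻¹ • τ) := congrFun e (γ⁻¹ • τ)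
  rwa [smul_inv_smul] at h

theorem i3bT_mul (γ δ : SL(2, ℤ)) (f : ℍ → ℂ) : i3bT δ (i3bT γ f) = i3bT (γ * δ) f := by
  funext τ
  exact congrArg f (mul_smul γ δ τ).symm

theorem i3bT_one (f : ℍ → ℂ) : i3bT 1 f = f := by
  funext τ
  exact congrArg f (one_smul _ τ)

theorem i3b_fin {M : ℕ} (hM : 0 < M) {y : ℍ → ℂ}
    (hy : ∀ γ ∈ CongruenceSubgroup.Gamma1 M, ∀ τ : ℍ, y (γ • τ) = y τ) :
    (Set.range fun g => i3bT g y).Finite := by
  have : NeZero M := ⟨hM.ne'⟩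
  refine (Set.finite_range fun c : SL(2, ℤ) ⧸ CongruenceSubgroup.Gamma1 M =>
    i3bT (c.out)⁻¹ y).subset ?_
  rintro _ ⟨g, rfl⟩
  obtain ⟨γ, e⟩ := QuotientGroup.mk_out_eq_mul (CongruenceSubgroup.Gamma1 M) g⁻¹
  refine ⟨QuotientGroup.mk g⁻¹, funext fun τ => ?_⟩
  change y ((QuotientGroup.mk g⁻¹ : SL(2, ℤ) ⧸ CongruenceSubgroup.Gamma1 M).out⁻¹ • τ) = y (g • τ)
  rw [e, mul_inv_rev, inv_inv, mul_smul, hy _ (inv_mem γ.2)]

theorem i3b_main {M : ℕ} (hM : 0 < M) {y h : ℍ → ℂ} (hy : Gen M y) (a : Mer M h)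
    (Y : Finset (ℍ → ℂ)) [DecidableEq (ℍ → ℂ)] (hY : ∀ z, z ∈ Y ↔ ∃ g, i3bT g y = z) :
    i3bFr ((∏ z ∈ Y.erase y, (y - z)) * h) := by
  have hf : Function.FactorsThrough (fun g => i3bT g h) fun g => i3bT g y := by
    intro g g' e
    have e1 : i3bT (g * g'⁻¹) y = y := by
      rw [← i3bT_mul, show i3bT g y = i3bT g' y from e, i3bT_mul, mul_inv_cancel, i3bT_one]
    have e2 : i3bT (g * g'⁻¹) h = h := by
      funext τ
      rcases hy.2.2 _ (congrFun e1) with h1 | h1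
      · exact a.2 _ h1 τ
      · exact (congrArg h (ModularGroup.SL_neg_smul _ τ).symm).trans (a.2 _ h1 τ)
    change i3bT g h = i3bT g' h
    conv_rhs => rw [← e2, i3bT_mul, inv_mul_cancel_right]
  obtain ⟨U, hU⟩ : ∃ U : (ℍ → ℂ) → ℍ → ℂ, ∀ g, U (i3bT g y) = i3bT g h :=
    ⟨_, fun g => hf.extend_apply 0 g⟩
  have hm : y ∈ Pool.Agent.P.MP_20768c_nt.Tz.EQ.MF M ⊤ := hy.1.mf (fun γ hγ => by
    rw [CongruenceSubgroup.Gamma_mem] at hγ
    exact (CongruenceSubgroup.Gamma1_mem _ _).2 ⟨hγ.1, hγ.2.2.2, hγ.2.2.1⟩) le_rfl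
  obtain ⟨A, hA⟩ : ∃ A : Polynomial (ℍ → ℂ), A = ∑ z ∈ Y, Polynomial.C (U z) *
    ∏ z' ∈ Y.erase z, (Polynomial.X - Polynomial.C z') := ⟨_, rfl⟩
  have hC : ∀ f : ℍ → ℂ, Mer0 M f → Polynomial.C f ∈ Polynomial.liftsRing (i3bMR M).subtype :=
    fun f hf => (Polynomial.lifts_iff_liftsRing _ _).1
      (Polynomial.C_mem_lifts (i3bMR M).subtype ⟨f, hf⟩)
  have h1 : A ∈ Polynomial.liftsRing (i3bMR M).subtype := by
    rw [hA]
    refine sum_mem fun z hz => mul_mem (hC _ ?_) (prod_mem fun z' hz' => sub_mem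
      ((Polynomial.lifts_iff_liftsRing _ _).1 (Polynomial.X_mem_lifts _)) (hC _ ?_))
    · obtain ⟨g, rfl⟩ := (hY z).1 hz
      rw [hU]
      exact a.1.smul g
    · obtain ⟨g, rfl⟩ := (hY z').1 (Finset.mem_of_mem_erase hz')
      exact (mer0_of_MF hM hm).smul g
  have h2 : ∀ γ, A.map (i3bT γ) = A := fun γ => by
    have hi : Y.image (i3bT γ) = Y := by
      refine Finset.eq_of_subset_of_card_le (fun z hz => ?_)
        (Finset.card_image_of_injective Y (i3bT_inj γ)).ge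
      obtain ⟨z', hz', rfl⟩ := Finset.mem_image.1 hz
      obtain ⟨g, rfl⟩ := (hY z').1 hz'
      exact (hY _).2 ⟨_, (i3bT_mul g γ y).symm⟩
    conv_rhs => rw [hA, ← hi, Finset.sum_image (i3bT_inj γ).injOn]
    rw [hA, Polynomial.map_sum]
    refine Finset.sum_congr rfl fun z hz => ?_
    obtain ⟨g, rfl⟩ := (hY z).1 hz
    rw [← Finset.image_erase (i3bT_inj γ), Finset.prod_image (i3bT_inj γ).injOn, Polynomial.map_mul,
      Polynomial.map_C, Polynomial.map_prod, hU, i3bT_mul, i3bT_mul, hU]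
    simp only [Polynomial.map_sub, Polynomial.map_X, Polynomial.map_C]
  have hyY : y ∈ Y := (hY y).2 ⟨1, i3bT_one y⟩
  have h3 : A.eval y = (∏ z ∈ Y.erase y, (y - z)) * h := by
    have e : U y = h := by simpa only [i3bT_one] using hU 1
    rw [hA, Polynomial.eval_finsetSum, Finset.sum_eq_single_of_mem y hyY fun z _ hz => ?_]
    · simp only [Polynomial.eval_mul, Polynomial.eval_C, Polynomial.eval_prod, Polynomial.eval_sub,
        Polynomial.eval_X, e, mul_comm]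
    · rw [Polynomial.eval_mul, Polynomial.eval_prod,
        Finset.prod_eq_zero (Finset.mem_erase.2 ⟨hz.symm, hyY⟩) (by simp), mul_zero]
  obtain ⟨m, hb⟩ := hy.2.1
  rw [← h3, Polynomial.eval_eq_sum_range]
  refine sum_mem (S := i3bFR) fun i _ => mul_mem (S := Subring _) (s := i3bFR) ?_
    (pow_mem (S := i3bFR) (i3b_of (i3b_disc m) (i3b_disc_ne m) hb) i)
  obtain ⟨⟨f, hf⟩, e⟩ := (Polynomial.lifts_iff_coeff_lifts _).1
    ((Polynomial.lifts_iff_liftsRing _ _).2 h1) i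
  have e' : f = A.coeff i := e
  refine i3b_inv hM (e' ▸ hf) fun γ τ => ?_
  have h4 := congrArg (fun P => Polynomial.coeff P i) (h2 γ)
  simp only [Polynomial.coeff_map] at h4
  exact congrFun h4 τ

theorem mer_frac {M : ℕ} (hM : 3 ≤ M) {h : ℍ → ℂ} (a : Mer M h) : ∃ p q : ℍ → ℂ, BQ 1 p ∧ BQ 1 q ∧
    q ≠ 0 ∧ ∀ τ : ℍ, ∀ᶠ w in 𝓝[≠] (τ : ℂ), q (ofComplex w) * h (ofComplex w) = p (ofComplex w) := by
  classical
  have h0 : 0 < M := by omega
  obtain ⟨y, hy⟩ := exists_gen hM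
  obtain ⟨Y, hY⟩ : ∃ Y : Finset (ℍ → ℂ), ∀ z, z ∈ Y ↔ ∃ g, i3bT g y = z :=
    ⟨(i3b_fin h0 hy.1.1).toFinset, fun z => Set.Finite.mem_toFinset _⟩
  have hm : y ∈ Pool.Agent.P.MP_20768c_nt.Tz.EQ.MF M ⊤ := hy.1.mf (fun γ hγ => by
    rw [CongruenceSubgroup.Gamma_mem] at hγ
    exact (CongruenceSubgroup.Gamma1_mem _ _).2 ⟨hγ.1, hγ.2.2.2, hγ.2.2.1⟩) le_rfl
  have h1 : ∀ s : Finset (ℍ → ℂ), s ⊆ Y.erase y →
      (∏ z ∈ s, (y - z)) ∈ Pool.Agent.P.MP_20768c_nt.Tz.EQ.MF M ⊤ ∧ (∏ z ∈ s, (y - z)) ≠ 0 := by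
    intro s
    induction s using Finset.induction_on with
    | empty =>
      exact fun _ => ⟨Pool.Agent.P.MP_20768c_nt.Tz.EQ.MF.const (one_mem _), by simp⟩
    | insert z s hz ih =>
      intro hs
      obtain ⟨i1, i2⟩ := ih ((Finset.subset_insert z s).trans hs)
      obtain ⟨n, hz'⟩ := Finset.mem_erase.1 (hs (Finset.mem_insert_self z s))
      obtain ⟨g, rfl⟩ := (hY z).1 hz'
      have i3 := Pool.Agent.P.MP_20768c_nt.Tz.EQ.MF.sub h0 hm (Pool.Agent.P.MP_20768c_nt.Tz.EQ.MF.smul hm g)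
      rw [Finset.prod_insert hz]
      refine ⟨Pool.Agent.P.MP_20768c_nt.Tz.EQ.MF.mul h0 i3 i1, fun e => ?_⟩
      exact (Pool.Agent.P.MP_20768c_nt.Tz.EQ.MF.eq_zero h0 i3 i1 (congrFun e)).elim
        (fun h => n (sub_eq_zero.1 (funext h : y - i3bT g y = 0)).symm) fun h => i2 (funext h)
  obtain ⟨h2, h3⟩ := h1 _ le_rfl
  have h4 := i3b_main h0 hy (h := 1) ⟨mer0_const M 1, fun _ _ _ => rfl⟩ Y hY
  rw [mul_one] at h4
  exact i3b_div h0 h2 h3 (i3b_main h0 hy a Y hY) h4 fun _ => Eventually.of_forall fun _ => rfl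

theorem VD.const {v : Valuation ℂ NNReal} {z : ℂ} {F : Type} [Field F] (W : VD v z F) :
    ∃ e : ℂ →+* F, (∀ c, W.g (e c) = ((fun _ => c : ℂ → ℂ) : Filter.Germ (𝓝[≠] z) ℂ)) ∧
      (∀ c, W.V (e c) = v c) ∧ ∀ c, W.D (e c) = 0 := by
  have hi : Function.Injective W.g := W.g.injective
  have h : ∀ c : ℂ, ∃ x, W.g x = ((fun _ => c : ℂ → ℂ) : Filter.Germ (𝓝[≠] z) ℂ) ∧ W.V x = v c := by
    intro c
    obtain ⟨x, h1, h2, n, h3⟩ := W.ser (fun _ => c) (fun n => if n = 0 then c else 0)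
      (Submodule.span ℤ {c}) (Submodule.fg_span_singleton c) (fun n => by
        split_ifs
        exacts [Submodule.mem_span_singleton_self c, zero_mem _]) fun τ => by
      simpa only [pow_zero, mul_one] using Pool.Agent.P.MP_20768c_nt.Tz.EQ.vqs_single 0 c (qN 1 τ)
    refine ⟨x, h1, le_antisymm ?_ (by simpa only [if_true] using h2 0)⟩
    rw [h3]
    split_ifs
    exacts [le_rfl, by simp]
  choose e h1 h2 using h
  refine ⟨{ toFun := e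
            map_one' := hi (by rw [h1, map_one]; rfl)
            map_mul' := fun c d => hi (by rw [map_mul, h1, h1, h1]; rfl)
            map_zero' := hi (by rw [h1, map_zero]; rfl)
            map_add' := fun c d => hi (by rw [map_add, h1, h1, h1]; rfl) }, h1, h2, fun c => hi ?_⟩
  change W.g (W.D (e c)) = _
  rw [W.der _ _ (h1 c), map_zero]
  simp only [deriv_const', zero_div]
  rfl

theorem VD.mer {v : Valuation ℂ NNReal} {τ : ℍ} {F : Type} [Field F] (W : VD v τ F) {M : ℕ}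
    (hM : 3 ≤ M) {h : ℍ → ℂ} (a : Mer M h) :
    ∃ x, W.g x = ((h ∘ ofComplex : ℂ → ℂ) : Filter.Germ (𝓝[≠] (τ : ℂ)) ℂ) := by
  obtain ⟨p, q, ⟨b, Λ, b1, b2, b3⟩, ⟨c, Λ', c1, c2, c3⟩, h0, e⟩ := mer_frac hM a
  obtain ⟨x, hx, -⟩ := W.ser p b Λ b1 b2 b3
  obtain ⟨y, hy, h1, -⟩ := W.ser q c Λ' c1 c2 c3
  have h2 : y ≠ 0 := by
    rintro rfl
    refine h0 (funext fun w => (c3 w).unique ?_)
    have h3 : ∀ n, c n = 0 := fun n => v.zero_iff.1 (le_zero_iff.1 (W.V.map_zero ▸ h1 n))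
    simpa only [h3, zero_mul, Pi.zero_apply] using hasSum_zero
  have h4 : W.g y * ((h ∘ ofComplex : ℂ → ℂ) : Filter.Germ (𝓝[≠] (τ : ℂ)) ℂ) = W.g x := by
    rw [hx, hy]
    exact Filter.Germ.coe_eq.2 (e τ)
  refine ⟨y⁻¹ * x, ?_⟩
  rw [map_mul, ← h4, ← mul_assoc, ← map_mul, inv_mul_cancel₀ h2, map_one, one_mul]

end Pool.Agent.P.MP_20768c_nt.Tz.Cv

end
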