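import Pool.Agent.P.MP_20768c_nt.Tz.Z0
import Pool.Agent.P.MP_20768c_nt.Tz.Z2

-- part Cv.B1_p
section

set_option autoImplicit false

open Complex NumberField IsDedekindDomain Filter Topology
open UpperHalfPlane hiding I
open scoped ComplexConjugate Real MatrixGroups

namespace Pool.Agent.P.MP_20768c_nt.Tz.Cv

open Pool.Agent.P.MP_20768c_nt.Tz.EQ (Lt pr sp IsLat jL qN)

variable {A B F : Type} [AddCommGroup A] [AddCommGroup B] [Field F] {Γ : Type}
  [LinearOrderedCommGroupWithZero Γ] {X : XG A F} {v : Valuation F Γ} {P Q : A}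

theorem bez0 {R : Type} [CommRing R] (b2 b4 b6 b8 x : R) (h : 4 * b8 = b2 * b6 - b4 ^ 2) :
    (b2 ^ 2 - 32 * b4 - 8 * b2 * x - 48 * x ^ 2) * (x ^ 4 - b4 * x ^ 2 - 2 * b6 * x - b8) +
      (12 * x ^ 3 - b2 * x ^ 2 - 10 * b4 * x + b2 * b4 - 27 * b6) *
        (4 * x ^ 3 + b2 * x ^ 2 + 2 * b4 * x + b6) =
      -b2 ^ 2 * b8 - 8 * b4 ^ 3 - 27 * b6 ^ 2 + 9 * b2 * b4 * b6 := by
  linear_combination (8 * b4 + 2 * b2 * x + 12 * x ^ 2) * h

theorem XG.ker_neg (h : X.Ker v P) : X.Ker v (-P) :=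
  h.imp (fun h => by rw [h, neg_zero]) fun h => by rwa [X.neg]

open Classical in
/-- the inverse of the `x`-coordinate, `0` at the origin -/
noncomputable def b1pXi (X : XG A F) (R : A) : F := if R = 0 then 0 else (X.x R)⁻¹

def b1pE (X : XG A F) (s t : F) : F := X.b4 + X.b6 * (s + t) + X.b8 * (s * t)

def b1pN (X : XG A F) (s t : F) : F := X.b2 + X.b4 * (s + t) + X.b6 * (s * t)

theorem b1p_zero : b1pXi X 0 = 0 := if_pos rfl

theorem b1p_ne (h : P ≠ 0) : b1pXi X P = (X.x P)⁻¹ := if_neg h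

theorem b1p_neg (X : XG A F) (P : A) : b1pXi X (-P) = b1pXi X P := by
  by_cases h : P = 0
  · rw [h, neg_zero]
  · rw [b1p_ne h, b1p_ne (neg_ne_zero.2 h), X.neg]

theorem b1p_x (h : X.Ker v P) (h0 : P ≠ 0) : X.x P ≠ 0 := fun e => by
  have := h.resolve_left h0
  rw [e, map_zero] at this
  exact not_lt_of_ge zero_le_one this

theorem b1p_mul (h : X.Ker v P) (h0 : P ≠ 0) : X.x P * b1pXi X P = 1 := by
  rw [b1p_ne h0, mul_inv_cancel₀ (b1p_x h h0)]

theorem b1p_lt (h : X.Ker v P) : v (b1pXi X P) < 1 := by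
  by_cases h0 : P = 0
  · rw [h0, b1p_zero, map_zero]
    exact zero_lt_one
  · rw [b1p_ne h0, map_inv₀]
    exact inv_lt_one_of_one_lt₀ (h.resolve_left h0)

theorem b1p_ker (h0 : P ≠ 0 → X.x P ≠ 0) (h : v (b1pXi X P) < 1) : X.Ker v P := by
  by_cases e : P = 0
  · exact Or.inl e
  · rw [b1p_ne e, map_inv₀] at h
    exact Or.inr ((inv_lt_one₀ (zero_lt_iff.2 (v.ne_zero_iff.2 (h0 e)))).1 h)

theorem b1p_le3 {a b c s t : F} (ha : v a ≤ 1) (hb : v b ≤ 1) (hc : v c ≤ 1) (hs : v s < 1)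
    (ht : v t < 1) : v (a + b * (s + t) + c * (s * t)) ≤ 1 := by
  refine v.map_add_le (v.map_add_le ha ?_) ?_
  · rw [map_mul]
    exact mul_le_one' hb (v.map_add_le hs.le ht.le)
  · rw [map_mul, map_mul]
    exact mul_le_one' hc (mul_le_one' hs.le ht.le)

theorem b1p_D (hG : X.Good v) {s t : F} (hs : v s < 1) (ht : v t < 1) :
    v (1 - s * t * b1pE X s t) = 1 := by
  refine v.map_one_sub_of_lt ?_
  rw [map_mul, map_mul, mul_assoc]
  exact mul_lt_one_of_lt_of_le hs (mul_le_one' ht.le (b1p_le3 hG.2.1 hG.2.2.1 hG.2.2.2.1 hs ht))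

theorem b1p_D0 (hG : X.Good v) {s t : F} (hs : v s < 1) (ht : v t < 1) :
    1 - s * t * b1pE X s t ≠ 0 :=
  v.ne_zero_iff.1 (by rw [b1p_D hG hs ht]; exact one_ne_zero)

theorem b1p_dbl (hG : X.Good v) (h : X.Ker v P) (h0 : P ≠ 0) {s : F} (hs : b1pXi X P = s) :
    (P + P ≠ 0 → X.x (P + P) ≠ 0) ∧
      b1pXi X (P + P) * (1 - s * s * b1pE X s s) = 2 * (s + s) + s * s * b1pN X s s := by
  have h1 := b1p_mul h h0
  have hD := b1p_D0 hG (b1p_lt h) (b1p_lt h)
  rw [hs] at h1 hD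
  have e1 : (4 * X.x P ^ 3 + X.b2 * X.x P ^ 2 + 2 * X.b4 * X.x P + X.b6) * s ^ 4 =
      2 * (s + s) + s * s * b1pN X s s := by
    have : (4 * X.x P ^ 3 + X.b2 * X.x P ^ 2 + 2 * X.b4 * X.x P + X.b6) * s ^ 4 =
        4 * (X.x P * s) ^ 3 * s + X.b2 * (X.x P * s) ^ 2 * s ^ 2 + 2 * X.b4 * (X.x P * s) * s ^ 3 +
          X.b6 * s ^ 4 := by ring
    rw [this, h1, b1pN]
    ring
  have e2 : (X.x P ^ 4 - X.b4 * X.x P ^ 2 - 2 * X.b6 * X.x P - X.b8) * s ^ 4 =
      1 - s * s * b1pE X s s := by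
    have : (X.x P ^ 4 - X.b4 * X.x P ^ 2 - 2 * X.b6 * X.x P - X.b8) * s ^ 4 =
        (X.x P * s) ^ 4 - X.b4 * (X.x P * s) ^ 2 * s ^ 2 - 2 * X.b6 * (X.x P * s) * s ^ 3 -
          X.b8 * s ^ 4 := by ring
    rw [this, h1, b1pE]
    ring
  by_cases h2 : P + P = 0
  · refine ⟨fun h => absurd h2 h, ?_⟩
    rw [h2, b1p_zero, ← e1, (X.two P h0).1 h2, zero_mul, zero_mul]
  · have e3 : X.x (P + P) * (2 * (s + s) + s * s * b1pN X s s) = 1 - s * s * b1pE X s s := by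
      rw [← e1, ← e2, ← mul_assoc, X.dbl P h0 h2]
    have ha : X.x (P + P) ≠ 0 := fun e => hD (by rw [← e3, e, zero_mul])
    exact ⟨fun _ => ha, by rw [b1p_ne h2, ← e3, inv_mul_cancel_left₀ ha]⟩

theorem b1p_xi (hG : X.Good v) (h : X.Ker v P) (h' : X.Ker v Q) {s t : F} (hs : b1pXi X P = s)
    (ht : b1pXi X Q = t) : (P + Q ≠ 0 → X.x (P + Q) ≠ 0) ∧
      (b1pXi X (P + Q) + b1pXi X (P - Q)) * (1 - s * t * b1pE X s t) =
        2 * (s + t) + s * t * b1pN X s t ∧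
      b1pXi X (P + Q) * b1pXi X (P - Q) * (1 - s * t * b1pE X s t) = (s - t) ^ 2 := by
  by_cases hP : P = 0
  · rw [hP, b1p_zero] at hs
    rw [hP, zero_add, zero_sub, b1p_neg, ht, ← hs]
    exact ⟨b1p_x h', by ring, by ring⟩
  by_cases hQ : Q = 0
  · rw [hQ, b1p_zero] at ht
    rw [hQ, add_zero, sub_zero, hs, ← ht]
    exact ⟨b1p_x h, by ring, by ring⟩
  by_cases h1 : P - Q = 0
  · obtain rfl := sub_eq_zero.1 h1
    obtain rfl : s = t := hs.symm.trans ht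
    obtain ⟨e1, e2⟩ := b1p_dbl hG h hP hs
    rw [h1, b1p_zero, add_zero]
    exact ⟨e1, e2, by ring⟩
  by_cases h2 : P + Q = 0
  · obtain rfl := eq_neg_of_add_eq_zero_right h2
    rw [b1p_neg] at ht
    obtain rfl : s = t := hs.symm.trans ht
    obtain ⟨-, e2⟩ := b1p_dbl hG h hP hs
    rw [h2, b1p_zero, zero_add, sub_neg_eq_add]
    exact ⟨fun h => absurd rfl h, e2, by ring⟩
  have x1 := b1p_mul h hP
  have x2 := b1p_mul h' hQ
  have hD := b1p_D0 hG (b1p_lt h) (b1p_lt h')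
  rw [hs] at x1 hD
  rw [ht] at x2 hD
  have ea := X.add P Q hP hQ h2 h1
  have em := X.mul P Q hP hQ h2 h1
  rw [b1p_ne h2, b1p_ne h1]
  generalize X.x (P + Q) = a at *
  generalize X.x (P - Q) = b at *
  generalize X.x P = x at *
  generalize X.x Q = y at *
  have e0 : (x - y) ^ 2 * (s * t) ^ 2 = (s - t) ^ 2 := by
    have : (x - y) ^ 2 * (s * t) ^ 2 = (x * s * t - y * t * s) ^ 2 := by ring
    rw [this, x1, x2]
    ring
  have e1 : (a + b) * (s - t) ^ 2 = 2 * (s + t) + s * t * b1pN X s t := by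
    have : (2 * x * y * (x + y) + X.b2 * x * y + X.b4 * (x + y) + X.b6) * (s * t) ^ 2 =
        2 * (x * s) * (y * t) * (x * s * t + y * t * s) + X.b2 * (x * s) * (y * t) * (s * t) +
          X.b4 * (x * s * t + y * t * s) * (s * t) + X.b6 * (s * t) ^ 2 := by ring
    rw [← e0, ← mul_assoc, ea, this, x1, x2, b1pN]
    ring
  have e2 : a * b * (s - t) ^ 2 = 1 - s * t * b1pE X s t := by
    have : (x ^ 2 * y ^ 2 - X.b4 * x * y - X.b6 * (x + y) - X.b8) * (s * t) ^ 2 =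
        (x * s) ^ 2 * (y * t) ^ 2 - X.b4 * (x * s) * (y * t) * (s * t) -
          X.b6 * (x * s * t + y * t * s) * (s * t) - X.b8 * (s * t) ^ 2 := by ring
    rw [← e0, ← mul_assoc, em, this, x1, x2, b1pE]
    ring
  have ha : a ≠ 0 := fun e => hD (by rw [← e2, e, zero_mul, zero_mul])
  have hb : b ≠ 0 := fun e => hD (by rw [← e2, e, mul_zero, zero_mul])
  have ia := inv_mul_cancel₀ ha
  have ib := inv_mul_cancel₀ hb
  rw [← e1, ← e2]
  exact ⟨fun _ => ha, by linear_combination b * (s - t) ^ 2 * ia + a * (s - t) ^ 2 * ib,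
    by linear_combination b⁻¹ * b * (s - t) ^ 2 * ia + (s - t) ^ 2 * ib⟩

theorem XG.ker_add (hG : X.Good v) (h : X.Ker v P) (h' : X.Ker v Q) : X.Ker v (P + Q) := by
  obtain ⟨e0, e1, e2⟩ := b1p_xi hG h h' rfl rfl
  have hs := b1p_lt h
  have ht := b1p_lt h'
  have hD := b1p_D hG hs ht
  refine b1p_ker e0 (not_le.1 fun hc => ?_)
  generalize b1pXi X (P + Q) = a at *
  generalize b1pXi X (P - Q) = b at *
  generalize b1pXi X P = s at *
  generalize b1pXi X Q = t at *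
  have f1 : v (a + b) < 1 := by
    have := congrArg v e1
    rw [map_mul, hD, mul_one] at this
    rw [this]
    refine v.map_add_lt ?_ ?_
    · rw [two_mul]
      exact v.map_add_lt (v.map_add_lt hs ht) (v.map_add_lt hs ht)
    · rw [map_mul, map_mul, mul_assoc]
      exact mul_lt_one_of_lt_of_le hs (mul_le_one' ht.le (b1p_le3 hG.1 hG.2.1 hG.2.2.1 hs ht))
  have f2 : v a * v b < 1 := by
    have := congrArg v e2
    rw [map_mul, hD, mul_one, map_mul, map_pow] at this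
    rw [this]
    exact pow_lt_one₀ zero_le (v.map_sub_lt hs ht) two_ne_zero
  have f3 : v b < 1 := lt_of_le_of_lt (le_mul_of_one_le_left' hc) f2
  have := v.map_sub_lt f1 f3
  rw [add_sub_cancel_right] at this
  exact absurd this (not_lt.2 hc)

theorem XG.ker_nsmul (hG : X.Good v) (h : X.Ker v P) (n : ℕ) : X.Ker v (n • P) := by
  induction n with
  | zero => exact Or.inl (zero_nsmul P)
  | succ n ih =>
    rw [succ_nsmul]
    exact XG.ker_add hG ih h

theorem b1p_sq (hG : X.Good v) (h : X.Ker v P) {s : F} (hs : b1pXi X P = s) (h0 : 0 < v s)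
    (k : ℕ) : v (b1pXi X (k • P) - k ^ 2 * s) < v s ∧
      v (b1pXi X ((k + 1) • P) - (k + 1) ^ 2 * s) < v s := by
  induction k with
  | zero => simpa [b1p_zero, hs] using h0
  | succ k ih =>
    refine ⟨by simpa using ih.2, ?_⟩
    have hk := XG.ker_nsmul hG h (k + 1)
    obtain ⟨-, e1, -⟩ := b1p_xi hG hk h rfl hs
    rw [← succ_nsmul, show (k + 1) • P - P = k • P by rw [succ_nsmul, add_sub_cancel_right]] at e1
    have ha := b1p_lt (XG.ker_nsmul hG h (k + 1 + 1))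
    have hb := b1p_lt (XG.ker_nsmul hG h k)
    have ht := b1p_lt hk
    have hs' := b1p_lt h
    rw [hs] at hs'
    obtain ⟨i1, i2⟩ := ih
    generalize b1pXi X ((k + 1 + 1) • P) = a at *
    generalize b1pXi X ((k + 1) • P) = t at *
    generalize b1pXi X (k • P) = b at *
    have e : a - (((k + 1 : ℕ) : F) + 1) ^ 2 * s = t * ((a + b) * b1pE X t s + b1pN X t s) * s -
        (b - k ^ 2 * s) + ((t - (k + 1) ^ 2 * s) + (t - (k + 1) ^ 2 * s)) := by
      push_cast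
      linear_combination e1
    rw [e]
    refine v.map_add_lt (v.map_sub_lt ?_ i1) (v.map_add_lt i2 i2)
    rw [map_mul, map_mul]
    refine mul_lt_of_lt_one_left h0 (mul_lt_one_of_lt_of_le ht (v.map_add_le ?_
      (b1p_le3 hG.1 hG.2.1 hG.2.2.1 ht hs')))
    rw [map_mul]
    exact mul_le_one' (v.map_add_le ha.le hb.le) (b1p_le3 hG.2.1 hG.2.2.1 hG.2.2.2.1 ht hs')

theorem XG.ker_tors (hG : X.Good v) {n : ℕ} (hn : v n = 1) (h : X.Ker v P) (h0 : n • P = 0) :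
    P = 0 := by
  by_contra hP
  have h1 : 0 < v (b1pXi X P) := zero_lt_iff.2 (v.ne_zero_iff.2 (right_ne_zero_of_mul
    (by rw [b1p_mul h hP]; exact one_ne_zero)))
  have := (b1p_sq hG h rfl h1 n).1
  rw [h0, b1p_zero, zero_sub, v.map_neg, map_mul, map_pow, hn, one_pow, one_mul] at this
  exact lt_irrefl _ this

end Pool.Agent.P.MP_20768c_nt.Tz.Cv

end

-- part Cv.B1_q
section

set_option autoImplicit false

open Complex NumberField IsDedekindDomain Filter Topology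
open UpperHalfPlane hiding I
open scoped ComplexConjugate Real MatrixGroups

namespace Pool.Agent.P.MP_20768c_nt.Tz.Cv

open Pool.Agent.P.MP_20768c_nt.Tz.EQ (Lt pr sp IsLat jL qN)

variable {A B F : Type} [AddCommGroup A] [AddCommGroup B] [Field F] {Γ : Type}
  [LinearOrderedCommGroupWithZero Γ] {X : XG A F} {v : Valuation F Γ} {P Q : A}

theorem b1q_eq (X : XG A F) {P P' : A} (hP : P ≠ 0) (hP' : P' ≠ 0) :
    X.x P = X.x P' ↔ P + P' = 0 ∨ P - P' = 0 := by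
  refine ⟨fun h => ?_, ?_⟩
  · rcases X.inj P P' hP hP' h with e | e
    · exact Or.inr (sub_eq_zero.2 e)
    · exact Or.inl (by rw [e, neg_add_cancel])
  · rintro (e | e)
    · rw [eq_neg_of_add_eq_zero_left e, X.neg]
    · rw [sub_eq_zero.1 e]

theorem b1q_dbl (X : XG A F) (Y : XG B F) (σ : F →+* F) (h2 : Y.b2 = σ X.b2)
    (h4 : Y.b4 = σ X.b4) (h6 : Y.b6 = σ X.b6) (h8 : Y.b8 = σ X.b8) {P : A} {Q : B} (hP : P ≠ 0)
    (hQ : Q ≠ 0) (h : Y.x Q = σ (X.x P)) :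
    (P + P = 0 ↔ Q + Q = 0) ∧ (P + P ≠ 0 → Y.x (Q + Q) = σ (X.x (P + P))) := by
  have e : 4 * Y.x Q ^ 3 + Y.b2 * Y.x Q ^ 2 + 2 * Y.b4 * Y.x Q + Y.b6 =
      σ (4 * X.x P ^ 3 + X.b2 * X.x P ^ 2 + 2 * X.b4 * X.x P + X.b6) := by
    simp only [h, h2, h4, h6, map_add, map_mul, map_pow, map_ofNat]
  have k : P + P = 0 ↔ Q + Q = 0 := by rw [X.two P hP, Y.two Q hQ, e, map_eq_zero]
  refine ⟨k, fun h0 => ?_⟩
  have h1 := mt k.2 h0
  refine mul_right_cancel₀ (mt (Y.two Q hQ).2 h1) ?_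
  rw [Y.dbl Q hQ h1, e, ← map_mul, X.dbl P hP h0]
  simp only [h, h4, h6, h8, map_sub, map_mul, map_pow, map_ofNat]

theorem b1q_add (X : XG A F) (Y : XG B F) (σ : F →+* F) (h2 : Y.b2 = σ X.b2)
    (h4 : Y.b4 = σ X.b4) (h6 : Y.b6 = σ X.b6) (h8 : Y.b8 = σ X.b8) {P P' : A} {Q Q' : B}
    (hP : P ≠ 0) (hQ : Q ≠ 0) (hP' : P' ≠ 0) (hQ' : Q' ≠ 0) (h : Y.x Q = σ (X.x P))
    (h' : Y.x Q' = σ (X.x P')) (p1 : P + P' ≠ 0) (p2 : P - P' ≠ 0) (q1 : Q + Q' ≠ 0)
    (q2 : Q - Q' ≠ 0) :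
    Y.x (Q + Q') + Y.x (Q - Q') = σ (X.x (P + P')) + σ (X.x (P - P')) ∧
      Y.x (Q + Q') * Y.x (Q - Q') = σ (X.x (P + P')) * σ (X.x (P - P')) := by
  have hne : (Y.x Q - Y.x Q') ^ 2 ≠ 0 := pow_ne_zero _ (sub_ne_zero.2 fun e =>
    ((b1q_eq Y hQ hQ').1 e).elim q1 q2)
  have a1 := congrArg σ (X.add P P' hP hP' p1 p2)
  have a2 := congrArg σ (X.mul P P' hP hP' p1 p2)
  simp only [map_add, map_sub, map_mul, map_pow, map_ofNat, ← h, ← h', ← h2, ← h4, ← h6,
    ← h8] at a1 a2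
  exact ⟨mul_right_cancel₀ hne ((Y.add Q Q' hQ hQ' q1 q2).trans a1.symm),
    mul_right_cancel₀ hne ((Y.mul Q Q' hQ hQ' q1 q2).trans a2.symm)⟩

theorem XG.transport (X : XG A F) (Y : XG B F) (σ : F →+* F) (h2 : Y.b2 = σ X.b2)
    (h4 : Y.b4 = σ X.b4) (h6 : Y.b6 = σ X.b6) (h8 : Y.b8 = σ X.b8) {P : A} {Q : B} (hP : P ≠ 0)
    (hQ : Q ≠ 0) (h : Y.x Q = σ (X.x P)) (n : ℕ) :
    (n • P = 0 ↔ n • Q = 0) ∧ (n • P ≠ 0 → Y.x (n • Q) = σ (X.x (n • P))) := by
  induction n using Nat.twoStepInduction with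
  | zero => simp
  | one => simp [hP, hQ, h]
  | more n i0 i1 =>
    have eP : n • P = (n + 1) • P - P := by rw [succ_nsmul, add_sub_cancel_right]
    have eQ : n • Q = (n + 1) • Q - Q := by rw [succ_nsmul, add_sub_cancel_right]
    rw [eP, eQ] at i0
    rw [succ_nsmul P (n + 1), succ_nsmul Q (n + 1)]
    generalize (n + 1) • P = R at i0 i1
    generalize (n + 1) • Q = R' at i0 i1
    by_cases r0 : R = 0
    · rw [r0, i1.1.1 r0, zero_add, zero_add]
      exact ⟨iff_of_false hP hQ, fun _ => h⟩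
    have r1 := mt i1.1.2 r0
    have r2 := i1.2 r0
    by_cases s0 : R - P = 0
    · rw [sub_eq_zero.1 s0, sub_eq_zero.1 (i0.1.1 s0)]
      exact b1q_dbl X Y σ h2 h4 h6 h8 hP hQ h
    have s1 := mt i0.1.2 s0
    have k : R + P = 0 ↔ R' + Q = 0 := by
      rw [← or_iff_left (a := R + P = 0) s0, ← b1q_eq X r0 hP,
        ← or_iff_left (a := R' + Q = 0) s1, ← b1q_eq Y r1 hQ, r2, h, σ.injective.eq_iff]
    refine ⟨k, fun h0 => ?_⟩
    have a := (b1q_add X Y σ h2 h4 h6 h8 r0 r1 hP hQ r2 h h0 s0 (mt k.2 h0) s1).1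
    rwa [i0.2 s0, add_left_inj] at a

theorem XG.transport_add (X : XG A F) (Y : XG B F) (σ : F →+* F) (h2 : Y.b2 = σ X.b2)
    (h4 : Y.b4 = σ X.b4) (h6 : Y.b6 = σ X.b6) (h8 : Y.b8 = σ X.b8) {P P' : A} {Q Q' : B}
    (hP : P ≠ 0) (hQ : Q ≠ 0) (hP' : P' ≠ 0) (hQ' : Q' ≠ 0) (h : Y.x Q = σ (X.x P))
    (h' : Y.x Q' = σ (X.x P')) (hne : Q + Q' ≠ 0) :
    ∃ T, (T = P + P' ∨ T = P - P') ∧ T ≠ 0 ∧ Y.x (Q + Q') = σ (X.x T) := by
  have k : P + P' = 0 ∨ P - P' = 0 ↔ Q - Q' = 0 := by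
    rw [← b1q_eq X hP hP', ← or_iff_right (b := Q - Q' = 0) hne, ← b1q_eq Y hQ hQ', h, h',
      σ.injective.eq_iff]
  by_cases q2 : Q - Q' = 0
  · have d := b1q_dbl X Y σ h2 h4 h6 h8 hP hQ h
    have e := sub_eq_zero.1 q2
    subst e
    refine ⟨P + P, ?_, mt d.1.1 hne, d.2 (mt d.1.1 hne)⟩
    rcases k.2 q2 with e | e
    · exact Or.inr (by rw [eq_neg_of_add_eq_zero_right e, sub_neg_eq_add])
    · exact Or.inl (by rw [← sub_eq_zero.1 e])
  · have p := not_or.1 (mt k.1 q2)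
    obtain ⟨a1, a2⟩ := b1q_add X Y σ h2 h4 h6 h8 hP hQ hP' hQ' h h' p.1 p.2 hne q2
    have e : (Y.x (Q + Q') - σ (X.x (P + P'))) * (Y.x (Q + Q') - σ (X.x (P - P'))) = 0 := by
      linear_combination Y.x (Q + Q') * a1 - a2
    rcases mul_eq_zero.1 e with e | e
    · exact ⟨_, Or.inl rfl, p.1, sub_eq_zero.1 e⟩
    · exact ⟨_, Or.inr rfl, p.2, sub_eq_zero.1 e⟩

end Pool.Agent.P.MP_20768c_nt.Tz.Cv

end

-- part Cv.E3
section

set_option autoImplicit false

open Complex NumberField IsDedekindDomain Filter Topology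
open UpperHalfPlane hiding I
open scoped ComplexConjugate Real MatrixGroups

namespace Pool.Agent.P.MP_20768c_nt.Tz.Cv

open Pool.Agent.P.MP_20768c_nt.Tz.EQ (Lt pr sp IsLat jL qN)

theorem e3_an {a b : ℕ → ℝ} (ha : Pool.Agent.P.MP_20768c_nt.TzH.DP.Dens a 1)
    (hb : Pool.Agent.P.MP_20768c_nt.TzH.DP.Dens b 1) (hb0 : ∀ n, 0 ≤ b n) {M : ℕ}
    (h : ∀ n, M ≤ n → 2 * a n ≤ b n) : False := by
  obtain ⟨⟨A, hA⟩, Ca, ha⟩ := ha
  obtain ⟨⟨B, hB⟩, Cb, hb⟩ := hb
  have hA0 : 0 ≤ A := (abs_nonneg _).trans (hA 0)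
  have hl : Tendsto (fun s : ℝ => Real.log (s - 1)) (𝓝[>] 1) atBot := by
    refine Real.tendsto_log_nhdsGT_zero.comp ?_
    refine tendsto_nhdsWithin_iff.2 ⟨?_, ?_⟩
    · have : Tendsto (fun s : ℝ => s - 1) (𝓝 1) (𝓝 (1 - 1)) :=
        (continuous_id.sub continuous_const).tendsto 1
      rw [sub_self] at this
      exact this.mono_left nhdsWithin_le_nhds
    · filter_upwards [self_mem_nhdsWithin] with s hs
      exact sub_pos.2 (show (1 : ℝ) < s from hs)
  obtain ⟨s, h1, h2, h3, h4⟩ := (ha.and (hb.and ((hl.eventually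
    (eventually_lt_atBot (-(Cb + 2 * Ca + M * (2 * A))))).and self_mem_nhdsWithin))).exists
  have hs : (1 : ℝ) < s := h4
  have hz : Summable fun n : ℕ => (n : ℝ) ^ (-s) := Real.summable_nat_rpow.2 (by linarith)
  have sm : ∀ (c : ℕ → ℝ) (K : ℝ), (∀ n, |c n| ≤ K) →
      Summable fun n : ℕ => c n * (n : ℝ) ^ (-s) := fun c K hc =>
    Summable.of_norm_bounded (hz.mul_left K) fun n => by
      rw [Real.norm_eq_abs, abs_mul, abs_of_nonneg (by positivity : (0 : ℝ) ≤ (n : ℝ) ^ (-s))]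
      exact mul_le_mul_of_nonneg_right (hc n) (by positivity)
  have hf : HasSum (fun n : ℕ => if n ∈ Finset.range M then 2 * A else 0) (M * (2 * A)) := by
    have := hasSum_sum_of_ne_finset_zero (L := SummationFilter.unconditional ℕ)
      (f := fun n : ℕ => if n ∈ Finset.range M then 2 * A else 0) (s := Finset.range M)
      fun n hn => if_neg hn
    rwa [Finset.sum_congr rfl fun n hn => if_pos hn, Finset.sum_const, Finset.card_range,
      nsmul_eq_mul] at this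
  have key := hasSum_le (fun n => ?_) ((sm a A hA).hasSum.mul_left 2) ((sm b B hB).hasSum.add hf)
  · rw [abs_le] at h1 h2
    linarith [h1.1, h2.2]
  · have p0 : (0 : ℝ) ≤ (n : ℝ) ^ (-s) := by positivity
    split_ifs with hn
    · have p1 : (n : ℝ) ^ (-s) ≤ 1 := by
        rcases eq_or_ne n 0 with rfl | h0
        · rw [Nat.cast_zero, Real.zero_rpow (by linarith)]; exact zero_le_one
        · exact Real.rpow_le_one_of_one_le_of_nonpos
            (by exact_mod_cast Nat.one_le_iff_ne_zero.2 h0) (by linarith)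
      have p2 : a n ≤ A := (le_abs_self _).trans (hA n)
      nlinarith [mul_nonneg (hb0 n) p0, mul_le_mul_of_nonneg_right p2 p0,
        mul_le_mul_of_nonneg_left p1 hA0]
    · have := mul_le_mul_of_nonneg_right (h n (by simpa using hn)) p0
      linarith

/-- a ring map into a quotient on which the prime power map is trivial -/
theorem e3_res {E F : Type} [Field E] [NumberField E] [Field F] [NumberField F] {l : ℕ}
    (hl : l.Prime) (ι : 𝓞 E →+* 𝓞 F) (Q : Ideal (𝓞 F)) (hQ : Q.IsPrime) (hm : (l : 𝓞 F) ∈ Q)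
    (h : ∀ x, ι x - ι x ^ l ∈ Q) :
    Ideal.absNorm (Q.comap ι) = l ∧ ∀ x, ∃ n : ℤ, ι x - n ∈ Q := by
  have h0 : Q ≠ ⊥ := by
    rintro rfl
    exact hl.ne_zero (by simpa using hm)
  have := hQ.isMaximal h0
  let := Ideal.Quotient.field Q
  have := Fact.mk hl
  have : CharP (𝓞 F ⧸ Q) l := (CharP.charP_iff_prime_eq_zero hl).2 (by
    rw [← map_natCast (Ideal.Quotient.mk Q)]
    exact Ideal.Quotient.eq_zero_iff_mem.2 hm)
  have hx : ∀ x, ((Ideal.Quotient.mk Q).comp ι) x ^ l = ((Ideal.Quotient.mk Q).comp ι) x :=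
    fun x => by
      rw [RingHom.comp_apply, ← map_pow]
      exact (Ideal.Quotient.eq.2 (h x)).symm
  refine ⟨?_, fun x => ?_⟩
  · have e := Pool.Agent.P.MP_20768c_nt.TzH.Ch.upChebA_card _ hx
    rw [← RingHom.comap_ker, Ideal.mk_ker] at e
    rw [Ideal.absNorm_apply, Submodule.cardQuot_apply]
    exact e
  · obtain ⟨n, hn⟩ := Pool.Agent.P.MP_20768c_nt.TzH.Ch.upChebA_int _ hx x
    refine ⟨n, Ideal.Quotient.eq.1 ?_⟩
    rw [map_intCast]
    exact hn.symm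

theorem dens {k F : Type} [Field k] [NumberField k] [Field F] [NumberField F] [Algebra k F]
    [IsGalois k F] (H : Subgroup (F ≃ₐ[k] F)) {C : ℕ} (hC : C ≠ 0)
    (h : ∀ Q : Ideal (𝓞 F), Q.IsPrime → Q ≠ ⊥ → (C : 𝓞 F) ∉ Q → ∃ g ∈ H, FrobAt g Q) : H = ⊤ := by
  by_contra hH
  obtain ⟨g, hg⟩ : ∃ g, g ∉ H := by
    by_contra hc
    exact hH ((Subgroup.eq_top_iff' H).2 fun g => by_contra fun e => hc ⟨g, e⟩)
  obtain ⟨T, hT⟩ : ∃ T, T = IntermediateField.fixedField H := ⟨_, rfl⟩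
  have hfix : ∀ x : T, ∀ u ∈ H, u (x : F) = x := fun x u hu =>
    (IntermediateField.mem_fixedField_iff H _).1 (hT ▸ x.2) u hu
  let ι : 𝓞 T →+* 𝓞 F := algebraMap _ _
  let κ : 𝓞 k →+* 𝓞 T := algebraMap _ _
  let σ : 𝓞 F →+* 𝓞 F := RingOfIntegers.mapRingHom (g : F →+* F)
  have hι : ∀ x, ((ι x : 𝓞 F) : F) = ((x : T) : F) := fun x => rfl
  have hσ : ∀ x, ((σ x : 𝓞 F) : F) = g (x : F) := fun x => rfl
  have hκ : ι.comp κ = algebraMap (𝓞 k) (𝓞 F) := (IsScalarTower.algebraMap_eq _ _ _).symm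
  have hσκ : σ.comp (algebraMap (𝓞 k) (𝓞 F)) = algebraMap (𝓞 k) (𝓞 F) := by
    ext x
    exact g.commutes (x : k)
  obtain ⟨θ, hθ⟩ : ∃ θ : 𝓞 T, σ (ι θ) - ι θ ≠ 0 := by
    by_contra hc
    refine hg ?_
    rw [← IntermediateField.fixingSubgroup_fixedField H, ← hT,
      IntermediateField.mem_fixingSubgroup_iff]
    intro x hx
    have e : ∀ y : 𝓞 T, g ((y : T) : F) = ((y : T) : F) := fun y => by
      have : σ (ι y) - ι y = 0 := by_contra fun e => hc ⟨y, e⟩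
      rw [← hι, ← hσ, sub_eq_zero.1 this]
    obtain ⟨a, b, -, hab⟩ := IsFractionRing.div_surjective (A := 𝓞 T) (⟨x, hx⟩ : T)
    have e2 : x = ((a : T) : F) / ((b : T) : F) := by
      have := congrArg (fun y : T => (y : F)) hab
      simpa using this.symm
    rw [e2, map_div₀, e, e]
  obtain ⟨N, hN0, hN⟩ : ∃ N : ℕ, N ≠ 0 ∧ (N : 𝓞 F) ∈ Ideal.span {σ (ι θ) - ι θ} :=
    ⟨_, by rw [Ne, Ideal.absNorm_eq_zero_iff, Ideal.span_singleton_eq_bot]; exact hθ,
      Ideal.absNorm_mem _⟩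
  refine e3_an (Pool.Agent.P.MP_20768c_nt.TzH.DP.dens_nI k) (Pool.Agent.P.MP_20768c_nt.TzH.DP.dens_nI T)
    (fun n => by positivity) (M := C * N + 1) fun l hM => ?_
  split_ifs with hl
  swap
  · simp
  have hcop : ∀ (m : ℕ) (Q : Ideal (𝓞 F)), m ∣ C * N → Q.IsPrime → (l : 𝓞 F) ∈ Q →
      (m : 𝓞 F) ∉ Q := fun m Q hm hQ h1 h2 => by
    have c : Nat.Coprime l m := (Nat.Prime.coprime_iff_not_dvd hl).2 fun e => by
      have := Nat.le_of_dvd (Nat.pos_of_ne_zero (mul_ne_zero hC hN0)) (e.trans hm)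
      omega
    obtain ⟨u, v, huv⟩ := (Nat.Coprime.cast (R := 𝓞 F) c)
    exact hQ.ne_top ((Ideal.eq_top_iff_one _).2
      (huv ▸ add_mem (Q.mul_mem_left u h1) (Q.mul_mem_left v h2)))
  have res : ∀ Q : Ideal (𝓞 F), Q.IsPrime →
      Ideal.absNorm (Q.comap (algebraMap (𝓞 k) (𝓞 F))) = l →
      (l : 𝓞 F) ∈ Q ∧ Ideal.absNorm (Q.comap ι) = l ∧ ∀ x, ∃ n : ℤ, ι x - n ∈ Q :=
    fun Q hQ e => by
    have hm : (l : 𝓞 F) ∈ Q := by
      have := Ideal.absNorm_mem (Q.comap (algebraMap (𝓞 k) (𝓞 F)))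
      rwa [e, Ideal.mem_comap, map_natCast] at this
    have h0 : Q ≠ ⊥ := by
      rintro rfl
      exact hl.ne_zero (by simpa using hm)
    obtain ⟨u, hu, hF⟩ := h Q hQ h0 (hcop C Q (dvd_mul_right _ _) hQ hm)
    refine ⟨hm, e3_res hl ι Q hQ hm fun x => ?_⟩
    have := hF (ι x) (ι x) (hfix (x : T) u hu).symm
    rwa [Ideal.under, e] at this
  have ex : ∀ q : {I : Ideal (𝓞 k) // Ideal.absNorm I = l}, ∃ Q : Ideal (𝓞 F), Q.IsPrime ∧
      Q.comap (algebraMap (𝓞 k) (𝓞 F)) = q.1 := fun q => by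
    have : q.1.IsPrime := Ideal.isPrime_of_irreducible_absNorm (q.2.symm ▸ hl)
    exact Ideal.exists_ideal_over_prime_of_isIntegral_of_isDomain q.1 (by
      rw [(RingHom.injective_iff_ker_eq_bot (algebraMap (𝓞 k) (𝓞 F))).1
        (FaithfulSMul.algebraMap_injective _ _)]
      exact bot_le)
  choose Q hQ hq using ex
  have hq' : ∀ q, ((Q q).comap σ).comap (algebraMap (𝓞 k) (𝓞 F)) = q.1 := fun q => by
    rw [Ideal.comap_comap, hσκ, hq]
  have r1 := fun q => res (Q q) (hQ q) (by rw [hq]; exact q.2)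
  have r2 := fun q => res ((Q q).comap σ) (Ideal.comap_isPrime σ (Q q) (H := hQ q))
    (by rw [hq']; exact q.2)
  let f : {I : Ideal (𝓞 k) // Ideal.absNorm I = l} ⊕ {I : Ideal (𝓞 k) // Ideal.absNorm I = l} →
      {I : Ideal (𝓞 T) // Ideal.absNorm I = l} :=
    Sum.elim (fun q => ⟨(Q q).comap ι, (r1 q).2.1⟩) fun q => ⟨((Q q).comap σ).comap ι, (r2 q).2.1⟩
  have c1 : ∀ q, ((Q q).comap ι).comap κ = q.1 := fun q => by rw [Ideal.comap_comap, hκ, hq]
  have c2 : ∀ q, (((Q q).comap σ).comap ι).comap κ = q.1 := fun q => by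
    rw [Ideal.comap_comap, hκ, hq']
  have ne : ∀ q q', (Q q).comap ι ≠ ((Q q').comap σ).comap ι := fun q q' e => by
    obtain rfl : q = q' := Subtype.ext (by rw [← c1, e, c2])
    obtain ⟨n, hn⟩ := (r1 q).2.2 θ
    have a1 : θ - n ∈ (Q q).comap ι := by rwa [Ideal.mem_comap, map_sub, map_intCast]
    rw [e, Ideal.mem_comap, Ideal.mem_comap, map_sub, map_sub, map_intCast, map_intCast] at a1
    have a2 : σ (ι θ) - ι θ ∈ Q q := by
      have := sub_mem a1 hn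
      rwa [sub_sub_sub_cancel_right] at this
    exact hcop N (Q q) (dvd_mul_left _ _) (hQ q) (r1 q).1
      ((Ideal.span_singleton_le_iff_mem _).2 a2 hN)
  have inj : Function.Injective f := by
    rintro (q | q) (q' | q') e
    · exact congrArg _ (Subtype.ext (by rw [← c1, ← c1 q']; exact congrArg (·.1.comap κ) e))
    · exact absurd (congrArg Subtype.val e) (ne q q')
    · exact absurd (congrArg Subtype.val e).symm (ne q' q)
    · exact congrArg _ (Subtype.ext (by rw [← c2, ← c2 q']; exact congrArg (·.1.comap κ) e))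
  have f1 : Finite {I : Ideal (𝓞 T) // Ideal.absNorm I = l} :=
    (Ideal.finite_setOfPred_absNorm_eq (S := 𝓞 T) l).to_subtype
  have f2 : Finite {I : Ideal (𝓞 k) // Ideal.absNorm I = l} :=
    (Ideal.finite_setOfPred_absNorm_eq (S := 𝓞 k) l).to_subtype
  have := Nat.card_le_card_of_injective f inj
  rw [Nat.card_sum, ← two_mul] at this
  exact_mod_cast this

end Pool.Agent.P.MP_20768c_nt.Tz.Cv

end

-- part Cv.I1
section

set_option autoImplicit false

open Complex NumberField IsDedekindDomain Filter Topology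
open UpperHalfPlane hiding I
open scoped ComplexConjugate Real MatrixGroups

namespace Pool.Agent.P.MP_20768c_nt.Tz.Cv

open Pool.Agent.P.MP_20768c_nt.Tz.EQ (Lt pr sp IsLat jL qN)

section
variable {F : Type} [Field F] (v : Valuation F NNReal)

theorem i1_two (h3 : v 3 < 1) : v 2 = 1 := by
  rw [show (2 : F) = -(1 - 3) by norm_num, v.map_neg]
  exact v.map_one_sub_of_lt h3

theorem i1_et (h3 : v 3 < 1) {x y a φ dx dy : F} (hy : y ≠ 0) (ha : v a = 1)
    (hc : y ^ 2 + x * y + a * y = x ^ 3) (e1 : dx = φ * (2 * y + x + a))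
    (e2 : dy = φ * (3 * x ^ 2 - y)) (l1 : v dx ≤ v x) (l2 : v dy ≤ v y) :
    v φ ≤ 1 ∧ (v dy < v y → v φ < 1) := by
  have y0 : 0 < v y := v.pos_iff.2 hy
  have y2 : v (2 * y) = v y := by rw [map_mul, i1_two v h3, one_mul]
  have ec : v x ^ 3 = v y * v (y + x + a) := by
    rw [← map_pow, ← map_mul, ← hc]
    congr 1
    ring
  rw [e1, map_mul] at l1
  rcases lt_or_ge 1 (v x) with hx | hx
  · have hxy : v x < v y := by
      by_contra hn
      have hn := not_lt.1 hn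
      have : v x ^ 3 ≤ v x ^ 2 := by
        rw [ec, pow_two]
        exact mul_le_mul' hn (v.map_add_le (v.map_add_le hn le_rfl) (ha ▸ hx.le))
      exact absurd this (not_le.2 (pow_lt_pow_right₀ hx (by norm_num)))
    rw [add_assoc, v.map_add_eq_of_lt_left
      (y2 ▸ v.map_add_lt hxy (ha ▸ hx.trans hxy)), y2] at l1
    have : v φ < 1 := (mul_lt_iff_lt_one_left y0).1 (l1.trans_lt hxy)
    exact ⟨this.le, fun _ => this⟩
  · by_cases h : v (3 * x ^ 2) < v y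
    · rw [e2, map_mul, v.map_sub_eq_of_lt_right h] at l2 ⊢
      exact ⟨(mul_le_iff_le_one_left y0).1 l2, (mul_lt_iff_lt_one_left y0).1⟩
    · have y1 : v y < 1 := by
        refine (not_lt.1 h).trans_lt ?_
        rw [map_mul, map_pow]
        exact (mul_le_of_le_one_right' (pow_le_one' hx 2)).trans_lt h3
      have x1 : v x < 1 := by
        refine (pow_lt_one_iff (n := 3) (by norm_num)).1 ?_
        rw [ec]
        exact (mul_le_of_le_one_right' (v.map_add_le (v.map_add_le y1.le hx) ha.le)).trans_lt y1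
      rw [v.map_add_eq_of_lt_right (ha ▸ v.map_add_lt (y2 ▸ y1) x1), ha, mul_one] at l1
      exact ⟨(l1.trans_lt x1).le, fun _ => l1.trans_lt x1⟩

end

theorem vdf_et {F : Type} [Field F] (v : Valuation F NNReal) (h3 : v 3 < 1) {x y A a φ dx dy : F}
    (hy : y ≠ 0) (hA : A ≠ 0) (ha : v a = v A ^ 3) (hc : y ^ 2 + A * x * y + a * y = x ^ 3)
    (e1 : dx = φ * (2 * y + A * x + a)) (e2 : dy = φ * (3 * x ^ 2 - A * y)) (l1 : v dx ≤ v x)
    (l2 : v dy ≤ v y) : v (A * φ) ≤ 1 ∧ (v dy < v y → v (A * φ) < 1) := by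
  have A0 : 0 < v A := v.pos_iff.2 hA
  have k := i1_et v h3 (x := x / A ^ 2) (y := y / A ^ 3) (a := a / A ^ 3) (φ := A * φ)
    (dx := dx / A ^ 2) (dy := dy / A ^ 3) (div_ne_zero hy (pow_ne_zero 3 hA))
    (by rw [map_div₀, map_pow, ha, div_self (pow_pos A0 3).ne'])
    (by field_simp; linear_combination hc) (by rw [e1]; field_simp) (by rw [e2]; field_simp)
    (by rw [map_div₀, map_div₀]; exact div_le_div_of_nonneg_right l1 zero_le)
    (by rw [map_div₀, map_div₀]; exact div_le_div_of_nonneg_right l2 zero_le)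
  refine ⟨k.1, fun h => k.2 ?_⟩
  rw [map_div₀, map_div₀, map_pow]
  exact div_lt_div_of_pos_right h (pow_pos A0 3)

theorem vdf_can {F : Type} [Field F] (v : Valuation F NNReal) (h3 : v 3 < 1) {x y A a φ dx dy : F}
    (hy : y ≠ 0) (hA : A ≠ 0) (ha : v A ^ 3 = v (27 * a)) (hc : y ^ 2 + A * x * y + a * y = x ^ 3)
    (e1 : dx = φ * (2 * y + A * x + a)) (e2 : dy = φ * (3 * x ^ 2 - A * y)) (l1 : v dx ≤ v x)
    (hφ : v (A * φ) < 1) : v dy < v y := by
  have y0 : 0 < v y := v.pos_iff.2 hy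
  have A0 : 0 < v A := v.pos_iff.2 hA
  have y2 : v (2 * y) = v y := by rw [map_mul, i1_two v h3, one_mul]
  have ec : v x ^ 3 = v y * v (y + A * x + a) := by
    rw [← map_pow, ← map_mul, ← hc]
    congr 1
    ring
  rw [show (27 : F) = 3 ^ 3 by norm_num, map_mul, map_pow] at ha
  have t3 : v 3 ^ 3 < 1 := pow_lt_one₀ zero_le h3 (by norm_num)
  have hm : v (A * x) < max (v y) (v a) := by
    by_contra hn
    obtain ⟨b1, b2⟩ := max_le_iff.1 (not_lt.1 hn)
    have p0 : 0 < v (A * x) := y0.trans_le b1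
    have x0 : 0 < v x := by
      rw [map_mul] at p0
      exact pos_of_mul_pos_right p0 zero_le
    have c1 : v x ^ 2 * v x ≤ v y * v A * v x := by
      rw [← pow_succ, ec, mul_assoc, ← map_mul v A]
      exact mul_le_mul' le_rfl (v.map_add_le (v.map_add_le b1 le_rfl) b2)
    have c2 : v x ^ 2 ≤ v y * v A := le_of_mul_le_mul_right c1 x0
    have c3 : v (A * x) ^ 2 ≤ v 3 ^ 3 * v (A * x) ^ 2 := calc
      v (A * x) ^ 2 = v A ^ 2 * v x ^ 2 := by rw [map_mul, mul_pow]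
      _ ≤ v A ^ 2 * (v y * v A) := mul_le_mul' le_rfl c2
      _ = v 3 ^ 3 * (v y * v a) := by rw [mul_left_comm (v 3 ^ 3), ← ha]; ring
      _ ≤ v 3 ^ 3 * v (A * x) ^ 2 :=
        mul_le_mul' le_rfl (by rw [pow_two]; exact mul_le_mul' b1 b2)
    exact absurd c3 (not_le.2 (mul_lt_of_lt_one_left (pow_pos p0 2) t3))
  have k1 : v φ * (v 3 * v x ^ 2) < v y := by
    rw [e1, map_mul] at l1
    have fin : ∀ μ, 0 < μ → v (y + A * x + a) = μ → v (2 * y + A * x + a) = μ →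
        v φ * (v 3 * v x ^ 2) < v y := fun μ μ0 b1 b2 => by
      rw [b2] at l1
      rw [b1] at ec
      refine lt_of_mul_lt_mul_right ?_ μ0.le
      calc v φ * (v 3 * v x ^ 2) * μ = v 3 * v x ^ 2 * (v φ * μ) := by ring
        _ ≤ v 3 * v x ^ 2 * v x := mul_le_mul' le_rfl l1
        _ = v 3 * (v y * μ) := by rw [← ec]; ring
        _ < v y * μ := mul_lt_of_lt_one_left (mul_pos y0 μ0) h3
    rcases lt_trichotomy (v y) (v a) with h | h | h
    · rw [max_eq_right h.le] at hm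
      exact fin _ (y0.trans h) (v.map_add_eq_of_lt_right (v.map_add_lt h hm))
        (v.map_add_eq_of_lt_right (v.map_add_lt (y2 ▸ h) hm))
    · rw [← h, max_self] at hm
      have c1 : v x ^ 3 ≤ v y ^ 2 := by
        rw [ec, pow_two]
        exact mul_le_mul' le_rfl (v.map_add_le (v.map_add_le le_rfl hm.le) h.ge)
      have c2 : v 3 * v x ^ 2 ≤ v A * v y := by
        refine (pow_le_pow_iff_left₀ zero_le zero_le (n := 3) (by norm_num)).1 ?_
        calc (v 3 * v x ^ 2) ^ 3 = v 3 ^ 3 * (v x ^ 3) ^ 2 := by ring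
          _ ≤ v 3 ^ 3 * (v y ^ 2) ^ 2 := mul_le_mul' le_rfl (pow_le_pow_left₀ zero_le c1 2)
          _ = (v A * v y) ^ 3 := by rw [mul_pow, ha, ← h]; ring
      calc v φ * (v 3 * v x ^ 2) ≤ v φ * (v A * v y) := mul_le_mul' le_rfl c2
        _ = v (A * φ) * v y := by rw [map_mul]; ring
        _ < v y := mul_lt_of_lt_one_left y0 hφ
    · rw [max_eq_left h.le] at hm
      refine fin _ y0 ?_ ?_
      · rw [add_assoc, v.map_add_eq_of_lt_left (v.map_add_lt hm h)]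
      · rw [add_assoc, v.map_add_eq_of_lt_left (y2 ▸ v.map_add_lt hm h), y2]
  rw [e2, mul_sub]
  refine v.map_sub_lt ?_ ?_
  · rwa [map_mul, map_mul, map_pow]
  · rw [← mul_assoc, mul_comm φ, map_mul]
    exact mul_lt_of_lt_one_left y0 hφ

theorem vdf_log {F : Type} [Field F] (v : Valuation F NNReal) (D : F → F)
    (hmul : ∀ x y, D (x * y) = x * D y + D x * y)
    (hle : ∀ x, v (D x) ≤ v x) (h3 : v 3 < 1) {x y H : F} (hx : x ≠ 0) (hy : y ≠ 0)
    (h : H ^ 3 = x * y) (h1 : v (D y) < v y) : v (D x) < v x := by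
  have x0 : 0 < v x := v.pos_iff.2 hx
  have y0 : 0 < v y := v.pos_iff.2 hy
  have e := congrArg D h
  rw [show H ^ 3 = H * (H * H) by ring, hmul, hmul, hmul] at e
  have e2 : D x * y = 3 * (H ^ 2 * D H) - x * D y := by linear_combination -e
  refine lt_of_mul_lt_mul_right ?_ y0.le
  rw [← map_mul, e2]
  refine v.map_sub_lt ?_ ?_
  · rw [map_mul, map_mul, map_pow, ← map_mul v x, ← h, map_pow]
    refine (mul_le_mul' le_rfl (mul_le_mul' le_rfl (hle H))).trans_lt ?_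
    rw [← pow_succ]
    refine mul_lt_of_lt_one_left ?_ h3
    rw [← map_pow, h, map_mul]
    exact mul_pos x0 y0
  · rw [map_mul]
    exact mul_lt_mul_of_pos_left h1 x0

end Pool.Agent.P.MP_20768c_nt.Tz.Cv

end

-- part Cv.J3a
section

set_option autoImplicit false

open Complex NumberField IsDedekindDomain Filter Topology
open UpperHalfPlane hiding I
open scoped ComplexConjugate Real MatrixGroups

namespace Pool.Agent.P.MP_20768c_nt.Tz.Cv

open Pool.Agent.P.MP_20768c_nt.Tz.EQ (Lt pr sp IsLat jL qN)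

theorem j3a_elim {V : Type} [AddCommGroup V] [Module ℂ V] {n : ℕ} (φ : V →ₗ[ℂ] ℂ)
    (l : Fin (n + 1) → ℂ) (y : Fin (n + 1) → V) (h : φ (y 0) ≠ 0) :
    ∑ i, l i • y i = (φ (∑ i, l i • y i) / φ (y 0)) • y 0 +
      ∑ i : Fin n, l i.succ • (y i.succ + (-(φ (y i.succ) / φ (y 0))) • y 0) := by
  have e : φ (∑ i, l i • y i) / φ (y 0) =
      l 0 + ∑ i : Fin n, l i.succ * (φ (y i.succ) / φ (y 0)) := by
    rw [Fin.sum_univ_succ, map_add, map_sum, add_div, Finset.sum_div, map_smul, smul_eq_mul,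
      mul_div_assoc, div_self h, mul_one]
    simp only [map_smul, smul_eq_mul, mul_div_assoc]
  rw [e, Fin.sum_univ_succ, add_smul, Finset.sum_smul, add_assoc, ← Finset.sum_add_distrib]
  refine congrArg _ (Finset.sum_congr rfl fun i _ => ?_)
  module

section
variable {A B : Type} {k : IntermediateField ℚ ℂ} {v : Valuation ℂ NNReal}
  {W : Set ((A → ℂ) × (B → ℂ))}

theorem j3a_zero (h2 : v 3 < 1) (hsm : ∀ x ∈ W, ∀ t ∈ k, t • x ∈ W)
    (hA : ∀ x ∈ W, (∀ i, v (x.1 i) ≤ 1) → ∀ j, v (x.2 j) ≤ 1) {x : (A → ℂ) × (B → ℂ)}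
    (hx : x ∈ W) (h0 : x.1 = 0) : x = 0 := by
  refine Prod.ext h0 (funext fun j => by_contra fun hj => ?_)
  have hp : 0 < v (x.2 j) := (Valuation.pos_iff v).2 hj
  obtain ⟨n, hn⟩ := exists_pow_lt_of_lt_one hp h2
  have hk : ((3 : ℂ) ^ n)⁻¹ ∈ k := k.inv_mem (pow_mem (by exact_mod_cast natCast_mem k 3) n)
  have h1 := hA _ (hsm x hx _ hk) (fun i => by simp [h0]) j
  have h3 : 0 < v 3 ^ n := pow_pos ((Valuation.pos_iff v).2 three_ne_zero) n
  rw [Prod.smul_snd, Pi.smul_apply, smul_eq_mul, map_mul, map_inv₀, map_pow,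
    inv_mul_le_iff₀ h3, mul_one] at h1
  exact absurd hn (not_lt.2 h1)

theorem j3a_one (h2 : v 3 < 1) (hadd : ∀ x ∈ W, ∀ y ∈ W, x + y ∈ W)
    (hsm : ∀ x ∈ W, ∀ t ∈ k, t • x ∈ W) (hk : ∀ x ∈ W, ∀ i, x.1 i ∈ k)
    (hm : ∀ x ∈ W, ∃ i, ∀ i', v (x.1 i') ≤ v (x.1 i))
    (hA : ∀ x ∈ W, (∀ i, v (x.1 i) ≤ 1) → ∀ j, v (x.2 j) ≤ 1) (n : ℕ) :
    ∀ (l : Fin n → ℂ) (y : Fin n → (A → ℂ) × (B → ℂ)), (∀ i, y i ∈ W) →
      (∀ a, v ((∑ i, l i • y i).1 a) ≤ 1) →
      ∃ (m : Fin n → ℂ) (z : Fin n → (A → ℂ) × (B → ℂ)),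
        (∀ i, v (m i) ≤ 1 ∧ z i ∈ W ∧ ∀ a, v ((z i).1 a) ≤ 1) ∧
          ∑ i, l i • y i = ∑ i, m i • z i := by
  induction n with
  | zero => exact fun l y _ _ => ⟨l, y, fun i => i.elim0, rfl⟩
  | succ n ih =>
    intro l y hy h1
    obtain ⟨γ, hγ⟩ := hm _ (hy 0)
    by_cases hd : (y 0).1 γ = 0
    · have h0 : y 0 = 0 := j3a_zero h2 hsm hA (hy 0) (funext fun a => by
        have := hγ a
        rwa [hd, map_zero, nonpos_iff_eq_zero, Valuation.zero_iff] at this)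
      rw [Fin.sum_univ_succ, h0, smul_zero, zero_add] at h1 ⊢
      obtain ⟨m, z, hz, e⟩ := ih _ _ (fun i => hy i.succ) h1
      refine ⟨Fin.cons 0 m, Fin.cons 0 z, Fin.cases ⟨by simp, h0 ▸ hy 0, fun a => by simp⟩ hz, ?_⟩
      rw [Fin.sum_univ_succ, e]
      simp
    · let φ : ((A → ℂ) × (B → ℂ)) →ₗ[ℂ] ℂ := (LinearMap.proj γ).comp (LinearMap.fst ℂ _ _)
      have e0 := j3a_elim φ l y hd
      have hp : 0 < v ((y 0).1 γ) := (Valuation.pos_iff v).2 hd
      have hb : ∀ a, v ((((y 0).1 γ)⁻¹ • y 0).1 a) ≤ 1 := fun a => by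
        rw [Prod.smul_fst, Pi.smul_apply, smul_eq_mul, map_mul, map_inv₀, inv_mul_le_iff₀ hp,
          mul_one]
        exact hγ a
      rw [div_eq_mul_inv, mul_smul] at e0
      obtain ⟨m, z, hz, e⟩ := ih (fun i => l i.succ)
        (fun i => y i.succ + (-(φ (y i.succ) / φ (y 0))) • y 0)
        (fun i => hadd _ (hy _) _ (hsm _ (hy 0) _
          (neg_mem (div_mem (hk _ (hy _) γ) (hk _ (hy 0) γ))))) fun a => by
          rw [← sub_eq_iff_eq_add'.2 e0, Prod.fst_sub, Pi.sub_apply]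
          refine v.map_sub_le (h1 a) ?_
          rw [Prod.smul_fst, Pi.smul_apply, smul_eq_mul, map_mul]
          exact mul_le_one' (h1 γ) (hb a)
      refine ⟨Fin.cons (φ (∑ i, l i • y i)) m, Fin.cons (((y 0).1 γ)⁻¹ • y 0) z,
        Fin.cases ⟨h1 γ, hsm _ (hy 0) _ (inv_mem (hk _ (hy 0) γ)), hb⟩ hz, ?_⟩
      rw [Fin.sum_univ_succ (fun i => Fin.cons (α := fun _ => ℂ) _ m i • _)]
      exact e0.trans (congrArg _ e)

theorem j3a_two (hadd : ∀ x ∈ W, ∀ y ∈ W, x + y ∈ W)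
    (hsm : ∀ x ∈ W, ∀ t ∈ k, t • x ∈ W) (c : A → A) {e : ℤ} (hk : ∀ x ∈ W, ∀ i, x.1 i ∈ k)
    (hA : ∀ x ∈ W, (∀ i, v (x.1 i) ≤ 1) → ∀ j, v (x.2 j) ≤ 1)
    (hB : ∀ x ∈ W, (∀ i, v (x.1 i) ≤ 1) → (∀ i, v (x.1 i - e * x.1 (c i)) < 1) → ∀ j, v (x.2 j) < 1)
    (j : B) (n : ℕ) : ∀ (m : Fin n → ℂ) (z : Fin n → (A → ℂ) × (B → ℂ)),
      (∀ i, v (m i) ≤ 1 ∧ z i ∈ W ∧ ∀ a, v ((z i).1 a) ≤ 1) →
      (∀ a, v ((∑ i, m i • z i).1 a - e * (∑ i, m i • z i).1 (c a)) < 1) →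
      v ((∑ i, m i • z i).2 j) < 1 := by
  have ve : ∀ {x y : ℂ}, v x ≤ 1 → v y ≤ 1 → v (x - e * y) ≤ 1 := fun hx hy =>
    v.map_sub_le hx (mul_mem (intCast_mem v.integer e) hy)
  have key : ∀ (x y w : (A → ℂ) × (B → ℂ)) (t : ℂ), x = t • y + w → ∀ a,
      v (x.1 a - e * x.1 (c a)) < 1 → v t * v (y.1 a - e * y.1 (c a)) < 1 →
        v (w.1 a - e * w.1 (c a)) < 1 := by
    rintro _ y w t rfl a h h'
    have e' : w.1 a - e * w.1 (c a) =
        ((t • y + w).1 a - e * (t • y + w).1 (c a)) - t * (y.1 a - e * y.1 (c a)) := by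
      simp only [Prod.fst_add, Prod.smul_fst, Pi.add_apply, Pi.smul_apply, smul_eq_mul]
      ring
    rw [e']
    exact v.map_sub_lt h (by rwa [map_mul])
  have fin : ∀ (y w : (A → ℂ) × (B → ℂ)) (t : ℂ), v t * v (y.2 j) < 1 → v (w.2 j) < 1 →
      v ((t • y + w).2 j) < 1 := fun y w t h h' =>
    v.map_add_lt (x := t * y.2 j) (by rwa [map_mul]) h'
  induction n with
  | zero => exact fun m z _ _ => by simp
  | succ n ih =>
    intro m z hz h1
    obtain ⟨m0, z0, b0⟩ := hz 0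
    by_cases hq : ∀ a, v ((z 0).1 a - e * (z 0).1 (c a)) < 1
    · have e0 := Fin.sum_univ_succ fun i => m i • z i
      have h3 := ih _ _ (fun i => hz i.succ) fun a =>
        key _ _ _ _ e0 a (h1 a) (mul_lt_one_of_nonneg_of_lt_one_right m0 zero_le (hq a))
      rw [e0]
      exact fin _ _ _ (mul_lt_one_of_nonneg_of_lt_one_right m0 zero_le (hB _ z0 b0 hq j)) h3
    · obtain ⟨γ, hγ⟩ := not_forall.1 hq
      have h4 : v ((z 0).1 γ - e * (z 0).1 (c γ)) = 1 :=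
        le_antisymm (ve (b0 _) (b0 _)) (not_lt.1 hγ)
      let φ : ((A → ℂ) × (B → ℂ)) →ₗ[ℂ] ℂ :=
        (LinearMap.proj γ).comp (LinearMap.fst ℂ (A → ℂ) (B → ℂ)) -
          (e : ℂ) • (LinearMap.proj (c γ)).comp (LinearMap.fst ℂ (A → ℂ) (B → ℂ))
      have h5 : v (φ (z 0)) = 1 := h4
      have hd : φ (z 0) ≠ 0 := fun e => by simp [e] at h5
      have hφ : ∀ x ∈ W, φ x ∈ k := fun x hx =>
        sub_mem (hk x hx γ) (mul_mem (intCast_mem k e) (hk x hx (c γ)))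
      have e0 := j3a_elim φ m z hd
      have h6 : v (φ (∑ i, m i • z i) / φ (z 0)) < 1 := by
        rw [map_div₀, h5, div_one]
        exact h1 γ
      have h3 := ih (fun i => m i.succ) (fun i => z i.succ + (-(φ (z i.succ) / φ (z 0))) • z 0)
        (fun i => ⟨(hz _).1, hadd _ (hz _).2.1 _ (hsm _ z0 _
          (neg_mem (div_mem (hφ _ (hz _).2.1) (hφ _ z0)))), fun a => by
            refine v.map_add_le ((hz _).2.2 a) ?_
            rw [Prod.smul_fst, Pi.smul_apply, smul_eq_mul, map_mul, Valuation.map_neg, map_div₀,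
              h5, div_one]
            exact mul_le_one' (ve ((hz _).2.2 _) ((hz _).2.2 _)) (b0 a)⟩)
        fun a => key _ _ _ _ e0 a (h1 a) (mul_lt_one_of_nonneg_of_lt_one_left zero_le h6
          (ve (b0 _) (b0 _)))
      rw [e0]
      exact fin _ _ _ (mul_lt_one_of_nonneg_of_lt_one_left zero_le h6 (hA _ z0 b0 j)) h3

end

theorem la_lemma {A B : Type} (k : IntermediateField ℚ ℂ) (v : Valuation ℂ NNReal) (h3 : v 3 < 1)
    (hr : ∀ x ∈ k, v x ≤ 1 → ∃ a : ℤ, v (x - a) < 1) (e : ℤ) (W : Set ((A → ℂ) × (B → ℂ)))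
    (hadd : ∀ x ∈ W, ∀ y ∈ W, x + y ∈ W) (hsm : ∀ x ∈ W, ∀ t ∈ k, t • x ∈ W) (c : A → A)
    (hk : ∀ x ∈ W, ∀ i, x.1 i ∈ k) (hm : ∀ x ∈ W, ∃ i, ∀ i', v (x.1 i') ≤ v (x.1 i))
    (hA : ∀ x ∈ W, (∀ i, v (x.1 i) ≤ 1) → ∀ j, v (x.2 j) ≤ 1)
    (hB : ∀ x ∈ W, (∀ i, v (x.1 i) ≤ 1) → (∀ i, v (x.1 i - e * x.1 (c i)) < 1) → ∀ j, v (x.2 j) < 1)
    {x : (A → ℂ) × (B → ℂ)} (hx : x ∈ Submodule.span ℂ W) (h1 : ∀ i, v (x.1 i) ≤ 1)
    (h1' : ∀ i, v (x.1 i - e * x.1 (c i)) < 1) (j : B) : v (x.2 j) < 1 := by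
  obtain ⟨n, l, y, rfl⟩ := Submodule.mem_span_set'.1 hx
  obtain ⟨m, z, hz, e'⟩ := j3a_one h3 hadd hsm hk hm hA n l (fun i => y i) (fun i => (y i).2) h1
  rw [e'] at h1' ⊢
  exact j3a_two hadd hsm c hk hA hB j n m z hz h1'

end Pool.Agent.P.MP_20768c_nt.Tz.Cv

end

-- part Cv.K6
section

set_option autoImplicit false

open Complex NumberField IsDedekindDomain Filter Topology
open UpperHalfPlane hiding I
open scoped ComplexConjugate Real MatrixGroups

namespace Pool.Agent.P.MP_20768c_nt.Tz.Cv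

open Pool.Agent.P.MP_20768c_nt.Tz.EQ (Lt pr sp IsLat jL qN)

theorem k6_pi {A : Type} [CommGroup A] (h3 : ∀ a : A, a ^ 3 = 1) (γ : A →* A) (k : ℕ) (x : A) :
    (γ / MonoidHom.id A : A →* A)^[3 ^ k] x = γ^[3 ^ k] x / x := by
  induction k generalizing x with
  | zero => simp
  | succ k ih =>
    rw [pow_succ, show 3 ^ k * 3 = 3 ^ k + (3 ^ k + 3 ^ k) by ring]
    simp only [Function.iterate_add_apply, ih, iterate_map_div]
    generalize γ^[3 ^ k] (γ^[3 ^ k] (γ^[3 ^ k] x)) = d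
    generalize γ^[3 ^ k] (γ^[3 ^ k] x) = c
    generalize γ^[3 ^ k] x = b
    calc _ = d / x * (b ^ 3 / c ^ 3) := by
          simp only [div_eq_mul_inv, mul_inv, inv_inv, pow_three, mul_assoc, mul_comm,
            mul_left_comm]
      _ = _ := by rw [h3, h3, div_one, mul_one]

def k6K {A : Type} [Group A] (p : A →* A) (i : ℕ) : Subgroup A where
  carrier := {a | p^[i] a = 1}
  one_mem' := iterate_map_one p i
  mul_mem' := fun {a b} ha hb => by
    rw [Set.mem_ofPred_eq] at ha hb ⊢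
    rw [iterate_map_mul, ha, hb, mul_one]
  inv_mem' := fun {a} ha => by
    rw [Set.mem_ofPred_eq] at ha ⊢
    rw [iterate_map_inv, ha, inv_one]

theorem k6_up {A : Type} [Group A] (p : A →* A) {i n : ℕ} (h : i ≤ n) {x : A} (hx : p^[i] x = 1) :
    p^[n] x = 1 := by
  obtain ⟨d, rfl⟩ := Nat.exists_eq_add_of_le' h
  rw [Function.iterate_add_apply, hx, iterate_map_one]

theorem k6_ker {A : Type} [Group A] (h3 : ∀ a : A, a ^ 3 = 1) (p : A →* A) {e : ℕ}
    (hf : {a | p^[e] a = 1}.Finite) (hc : {a | p^[e] a = 1}.ncard < 3 ^ e) :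
    ∃ i < e, ∀ n x, p^[n] x = 1 → p^[i] x = 1 := by
  by_cases h : ∃ i < e, ∀ x, p^[i + 1] x = 1 → p^[i] x = 1
  · obtain ⟨i, hi, h⟩ := h
    refine ⟨i, hi, fun n => ?_⟩
    induction n with
    | zero => exact fun x hx => k6_up p (Nat.zero_le i) hx
    | succ n ih => exact fun x hx => h x (ih (p x) hx)
  · exfalso
    have h1 : ∀ i ≤ e, 3 ^ i ∣ Nat.card (k6K p i) ∧ Nat.card (k6K p i) ≠ 0 := by
      intro i
      induction i with
      | zero =>
        intro h0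
        have : Finite (k6K p 0) := (hf.subset fun a ha => k6_up p h0 ha).to_subtype
        exact ⟨one_dvd _, Nat.card_pos.ne'⟩
      | succ i ih =>
        intro h0
        have : Finite (k6K p (i + 1)) := (hf.subset fun a ha => k6_up p h0 ha).to_subtype
        have hle : k6K p i ≤ k6K p (i + 1) := fun a ha => k6_up p (Nat.le_succ i) ha
        obtain ⟨c, hc⟩ := Subgroup.card_dvd_of_le hle
        have h4 : c ≠ 1 := by
          rintro rfl
          have h5 := Subgroup.eq_of_le_of_card_ge hle (by rw [hc, mul_one])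
          exact h ⟨i, h0, fun x hx => (h5.ge hx : x ∈ k6K p i)⟩
        have : Fact (Nat.Prime 3) := ⟨Nat.prime_three⟩
        obtain ⟨m, hm⟩ := IsPGroup.iff_card.1 (show IsPGroup 3 (k6K p (i + 1)) from fun a =>
          ⟨1, Subtype.ext (by rw [pow_one]; exact h3 a)⟩)
        obtain ⟨t, -, rfl⟩ := (Nat.dvd_prime_pow Nat.prime_three).1
          (show c ∣ 3 ^ m from ⟨_, by rw [← hm, hc, mul_comm]⟩)
        refine ⟨?_, Nat.card_pos.ne'⟩
        rw [hc, pow_succ]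
        exact Nat.mul_dvd_mul (ih (Nat.le_of_succ_le h0)).1
          (dvd_pow_self 3 fun e => h4 (by rw [e, pow_zero]))
    exact (Nat.le_of_dvd (Nat.pos_of_ne_zero (h1 e le_rfl).2) (h1 e le_rfl).1).not_gt hc

theorem three_nine {Q : Type} [CommGroup Q] [Finite Q] (γ : Q →* Q) {j l : ℕ}
    (h : ∀ x, x * γ^[3 ^ j] x * γ^[2 * 3 ^ j] x = 1) (hl : l < 2 * 3 ^ j)
    (hi : (powMonoidHom 3 : Q →* Q).range.index ≤ 3 ^ l) : padicValNat 3 (Nat.card Q) ≤ l := by
  obtain ⟨H, hH⟩ : ∃ H, H = (powMonoidHom 3 : Q →* Q).range := ⟨_, rfl⟩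
  have hm : ∀ x, x ∈ H ↔ ∃ y, y ^ 3 = x := fun x => by rw [hH]; rfl
  rw [← hH] at hi
  simp only [two_mul, Function.iterate_add_apply] at h
  obtain ⟨δ, hδ⟩ : ∃ δ : Q ⧸ H →* Q ⧸ H, ∀ x : Q, δ x = γ x :=
    ⟨QuotientGroup.map H H γ fun x hx => by
      obtain ⟨y, rfl⟩ := (hm x).1 hx
      exact (hm _).2 ⟨γ y, (map_pow γ y 3).symm⟩, fun _ => rfl⟩
  have h2 : ∀ b : Q ⧸ H, b ^ 3 = 1 := fun b => by
    obtain ⟨x, rfl⟩ := QuotientGroup.mk_surjective b
    exact (QuotientGroup.eq_one_iff (x ^ 3)).2 ((hm _).2 ⟨x, rfl⟩)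
  have s1 : ∀ (n : ℕ) (x : Q), ((γ^[n] x : Q) : Q ⧸ H) = δ^[n] x := fun n =>
    Function.Semiconj.iterate_right (f := fun x : Q => (x : Q ⧸ H)) (fun x => (hδ x).symm) n
  have s2 : ∀ (n : ℕ) (x : Q), (((γ / MonoidHom.id Q : Q →* Q)^[n] x : Q) : Q ⧸ H) =
      (δ / MonoidHom.id _ : Q ⧸ H →* Q ⧸ H)^[n] x := fun n =>
    Function.Semiconj.iterate_right (f := fun x : Q => (x : Q ⧸ H)) (fun x => by
      simp [hδ]) n
  have s3 : ∀ (k : ℕ) (b : Q ⧸ H), (δ / MonoidHom.id _ : Q ⧸ H →* Q ⧸ H)^[3 ^ k]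
      ((δ / MonoidHom.id _ : Q ⧸ H →* Q ⧸ H)^[3 ^ k] b) =
        b * δ^[3 ^ k] b * δ^[3 ^ k] (δ^[3 ^ k] b) := fun k b => by
    rw [k6_pi h2, k6_pi h2, iterate_map_div]
    generalize δ^[3 ^ k] (δ^[3 ^ k] b) = c
    generalize δ^[3 ^ k] b = a
    calc _ = b * c * a⁻¹ * a⁻¹ * a ^ 3 := by
          simp only [h2, mul_one, div_eq_mul_inv, mul_inv, inv_inv, mul_assoc, mul_comm,
            mul_left_comm]
      _ = b * a * c * (a * a⁻¹) * (a * a⁻¹) := by
          simp only [pow_three, mul_assoc, mul_comm, mul_left_comm]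
      _ = _ := by rw [mul_inv_cancel, mul_one, mul_one]
  have h3 : ∀ b : Q ⧸ H, (δ / MonoidHom.id _ : Q ⧸ H →* Q ⧸ H)^[2 * 3 ^ j] b = 1 := fun b => by
    obtain ⟨x, rfl⟩ := QuotientGroup.mk_surjective b
    rw [two_mul, Function.iterate_add_apply, s3, ← s1, ← s1, ← QuotientGroup.mk_mul,
      ← QuotientGroup.mk_mul, h, QuotientGroup.mk_one]
  obtain ⟨i, hi1, hi2⟩ := k6_ker h2 (δ / MonoidHom.id _ : Q ⧸ H →* Q ⧸ H) (e := 2 * 3 ^ j)
    (Set.toFinite _) (by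
      rw [Set.eq_univ_of_forall (s := {a | _ = 1}) h3, Set.ncard_univ]
      exact hi.trans_lt (Nat.pow_lt_pow_right (by norm_num) hl))
  have cm : ∀ (n : ℕ) (z : Q), γ (γ^[n] z) = γ^[n] (γ z) := fun n z => by
    rw [← Function.iterate_succ_apply' γ, Function.iterate_succ_apply]
  have h4 : ∀ (k : ℕ) (x : Q), ∃ y : Q, γ y / y = γ^[3 ^ k] x / x ∧
      (y : Q ⧸ H) = (δ / MonoidHom.id _ : Q ⧸ H →* Q ⧸ H)^[3 ^ k - 1] x := by
    intro k x
    induction k with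
    | zero => exact ⟨x, by simp, by simp⟩
    | succ k ih =>
      obtain ⟨y, e1, e2⟩ := ih
      refine ⟨γ^[3 ^ k] (γ^[3 ^ k] y) * γ^[3 ^ k] y * y, ?_, ?_⟩
      · rw [map_mul, map_mul, mul_div_mul_comm, mul_div_mul_comm, cm, cm, ← iterate_map_div,
          ← iterate_map_div, e1, iterate_map_div, iterate_map_div, pow_succ,
          show 3 ^ k * 3 = 3 ^ k + (3 ^ k + 3 ^ k) by ring, Function.iterate_add_apply,
          Function.iterate_add_apply, div_mul_div_cancel, div_mul_div_cancel]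
      · have e3 : 3 ^ (k + 1) - 1 = 3 ^ k + (3 ^ k + (3 ^ k - 1)) := by
          have := Nat.one_le_pow k 3 (by norm_num)
          omega
        rw [e3, Function.iterate_add_apply, Function.iterate_add_apply, ← e2, s3,
          QuotientGroup.mk_mul, QuotientGroup.mk_mul, s1, s1, mul_comm, mul_comm (δ^[3 ^ k] _),
          mul_assoc]
  have h5 : ∀ x : Q, ∃ z, x ^ 3 = (γ / MonoidHom.id Q : Q →* Q) z ^ 3 := fun x => by
    obtain ⟨y, e1, e2⟩ := h4 j x
    have e3 : ((γ^[3 ^ j] y / y : Q) : Q ⧸ H) = 1 := by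
      rw [QuotientGroup.mk_div, s1, ← k6_pi h2, e2, ← Function.iterate_add_apply]
      refine k6_up _ ?_ (hi2 _ _ (h3 _))
      have := Nat.one_le_pow j 3 (by norm_num)
      omega
    obtain ⟨z, e4⟩ := (hm _).1 ((QuotientGroup.eq_one_iff _).1 e3)
    refine ⟨(z * y)⁻¹, ?_⟩
    have e5 : (γ / MonoidHom.id Q : Q →* Q) (z ^ 3) =
        γ^[3 ^ j] (γ y / y) / (γ y / y) := by
      rw [e4, MonoidHom.div_apply, MonoidHom.id_apply, map_div, cm, iterate_map_div,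
        div_div_div_comm]
    have e6 : (γ / MonoidHom.id Q : Q →* Q) y = γ y / y := rfl
    rw [map_inv, inv_pow, eq_inv_iff_mul_eq_one, map_mul, mul_pow, ← map_pow, e5, e6, e1,
      iterate_map_div, ← h x]
    generalize γ^[3 ^ j] (γ^[3 ^ j] x) = c
    generalize γ^[3 ^ j] x = a
    calc _ = x * a * c * ((x * x⁻¹) * (x * x⁻¹) * (x * x⁻¹) * (a * a⁻¹) * (a * a⁻¹)) := by
          simp only [div_eq_mul_inv, mul_inv, inv_inv, pow_three, mul_assoc, mul_comm,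
            mul_left_comm]
      _ = _ := by simp only [mul_inv_cancel, mul_one]
  have h6 : ∀ (n : ℕ) (x : Q), ∃ z, x ^ 3 = (γ / MonoidHom.id Q : Q →* Q)^[n] z ^ 3 := by
    intro n x
    induction n with
    | zero => exact ⟨x, rfl⟩
    | succ n ih =>
      obtain ⟨z, e1⟩ := ih
      obtain ⟨w, e2⟩ := h5 z
      exact ⟨w, by rw [e1, ← iterate_map_pow, e2, iterate_map_pow, Function.iterate_succ_apply]⟩
  have h7 : Function.Surjective (powMonoidHom 3 : H →* H) := by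
    rintro ⟨_, hx⟩
    obtain ⟨x, rfl⟩ := (hm _).1 hx
    obtain ⟨z, e⟩ := h6 i x
    exact ⟨⟨_, (QuotientGroup.eq_one_iff _).1 ((s2 i z).trans (hi2 _ _ (h3 _)))⟩,
      Subtype.ext e.symm⟩
  have : Fact (Nat.Prime 3) := ⟨Nat.prime_three⟩
  have h8 : ¬ 3 ∣ Nat.card H := fun hd => by
    obtain ⟨x, hx⟩ := exists_prime_orderOf_dvd_card' 3 hd
    have h9 : x = 1 := (Finite.injective_iff_surjective.2 h7) (by
      rw [map_one, powMonoidHom_apply, ← hx, pow_orderOf_eq_one])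
    rw [h9, orderOf_one] at hx
    omega
  rw [← H.index_mul_card, padicValNat.mul H.index_ne_zero_of_finite Nat.card_pos.ne',
    padicValNat.eq_zero_of_not_dvd h8, add_zero]
  exact (Nat.pow_le_pow_iff_right (by norm_num)).1
    ((Nat.le_of_dvd (Nat.pos_of_ne_zero H.index_ne_zero_of_finite) pow_padicValNat_dvd).trans hi)

theorem growth {A : Type} [CommGroup A] (h3 : ∀ a : A, a ^ 3 = 1) (γ : A →* A) {j N : ℕ} {x : A}
    (hx : γ^[3 ^ N] x = x) (hf : {a | γ^[3 ^ j] a = a}.Finite)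
    (hc : {a | γ^[3 ^ j] a = a}.ncard < 3 ^ 3 ^ j) : γ^[3 ^ j] x = x := by
  have e : {a | γ^[3 ^ j] a = a} = {a | (γ / MonoidHom.id A : A →* A)^[3 ^ j] a = 1} := by
    ext a
    rw [Set.mem_ofPred_eq, Set.mem_ofPred_eq, k6_pi h3, div_eq_one]
  rw [e] at hf hc
  obtain ⟨i, h1, h2⟩ := k6_ker h3 _ hf hc
  have h4 := k6_up _ h1.le (h2 (3 ^ N) x (by rw [k6_pi h3, hx, div_self']))
  rwa [k6_pi h3, div_eq_one] at h4

theorem three_pow_le {κ V : Type} [Field κ] [AddCommGroup V] [Module κ V] (h2 : (2 : κ) ≠ 0)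
    (T : AddSubgroup V) [Finite T] {S : Set V} (hS : S ⊆ T) :
    3 ^ Module.finrank κ (Submodule.span κ S) ≤ Nat.card T := by
  classical
  obtain ⟨B, h1, h3, h4⟩ := exists_linearIndependent κ S
  have : Fintype B := ((Set.toFinite (T : Set V)).subset (h1.trans hS)).fintype
  have e : 3 ^ Fintype.card B = Nat.card (B → SignType) := by
    rw [Nat.card_eq_fintype_card, Fintype.card_fun]
    rfl
  have h5 : (1 : κ) ≠ -1 := fun e => h2 (by linear_combination e)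
  rw [← h3, finrank_span_set_eq_card h4, Set.toFinset_card, e]
  refine Nat.card_le_card_of_injective (fun f : B → SignType =>
    (⟨∑ b : B, (f b : κ) • (b : V), sum_mem fun b _ => ?_⟩ : T)) fun f g e => ?_
  · rcases f b with _ | _ | _
    · simp
    · simpa using hS (h1 b.2)
    · simpa using hS (h1 b.2)
  · funext b
    have h6 := Fintype.linearIndependent_iffₛ.1 h4 _ _ (congrArg Subtype.val e) b
    revert h6
    rcases f b with _ | _ | _ <;> rcases g b with _ | _ | _ <;> simp [h5, h5.symm]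

end Pool.Agent.P.MP_20768c_nt.Tz.Cv

end

-- part Cv.M1
section

set_option autoImplicit false

open Complex NumberField IsDedekindDomain Filter Topology
open UpperHalfPlane hiding I
open scoped ComplexConjugate Real MatrixGroups

namespace Pool.Agent.P.MP_20768c_nt.Tz.Cv

open Pool.Agent.P.MP_20768c_nt.Tz.EQ (Lt pr sp IsLat jL qN)

theorem m1_mem {M : Type} [AddCommGroup M] [Module ℤ_[3] M] (n : ℕ) (x : M) :
    x ∈ (Ideal.span {(3 : ℤ_[3])} ^ n • ⊤ : Submodule ℤ_[3] M) ↔ ∃ y, (3 : ℤ_[3]) ^ n • y = x := by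
  rw [Ideal.span_singleton_pow, Submodule.ideal_span_singleton_smul,
    Submodule.mem_smul_pointwise_iff_exists]
  simp

theorem m1_prec (ι : Type) : IsPrecomplete (Ideal.span {(3 : ℤ_[3])}) (ι → ℤ_[3]) := by
  have h0 : IsPrecomplete (Ideal.span {(3 : ℤ_[3])}) ℤ_[3] := by
    have h := (inferInstance : IsPrecomplete (IsLocalRing.maximalIdeal ℤ_[3]) ℤ_[3])
    rwa [PadicInt.maximalIdeal_eq_span_p] at h
  refine ⟨fun f hf => ?_⟩
  have h1 := fun i => h0.prec (f := fun n => f n i) fun {m n} hmn => by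
    obtain ⟨y, hy⟩ := (m1_mem _ _).1 (SModEq.sub_mem.1 (hf hmn))
    exact SModEq.sub_mem.2 ((m1_mem _ _).2 ⟨y i, congrFun hy i⟩)
  choose L hL using h1
  refine ⟨L, fun n => SModEq.sub_mem.2 ((m1_mem _ _).2 ?_)⟩
  choose y hy using fun i => (m1_mem _ _).1 (SModEq.sub_mem.1 (hL i n))
  exact ⟨y, funext hy⟩

theorem m1_baer : Module.Baer ℤ (ℚ_[3] ⧸ (1 : Submodule ℤ_[3] ℚ_[3])) := by
  let _ : DivisibleBy (ℚ_[3] ⧸ (1 : Submodule ℤ_[3] ℚ_[3])) ℤ :=
    divisibleByOfSMulRightSurj _ _ fun {n} hn a => by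
      obtain ⟨x, rfl⟩ := Submodule.Quotient.mk_surjective _ a
      refine ⟨Submodule.Quotient.mk (x / n), ?_⟩
      have h : (n : ℚ_[3]) ≠ 0 := by exact_mod_cast hn
      show n • (1 : Submodule ℤ_[3] ℚ_[3]).mkQ (x / n) = _
      rw [← map_zsmul, zsmul_eq_mul, mul_div_cancel₀ _ h]
      rfl
  exact Module.Baer.of_divisible _

theorem m1_three : {d : ℚ_[3] ⧸ (1 : Submodule ℤ_[3] ℚ_[3]) | 3 • d = 0}.Finite := by
  refine ((Set.finite_lt_nat 3).image fun k : ℕ =>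
    Submodule.Quotient.mk ((k : ℚ_[3]) / 3)).subset fun d hd => ?_
  obtain ⟨x, rfl⟩ := Submodule.Quotient.mk_surjective _ d
  have hd' : (1 : Submodule ℤ_[3] ℚ_[3]).mkQ (3 • x) = 0 := by
    rw [map_nsmul]
    exact hd
  rw [Submodule.mkQ_apply, Submodule.Quotient.mk_eq_zero, Submodule.mem_one] at hd'
  obtain ⟨y, hy⟩ := hd'
  have h1 := PadicInt.sub_zmodRepr_mem y
  rw [PadicInt.maximalIdeal_eq_span_p, Ideal.mem_span_singleton'] at h1
  obtain ⟨z, hz⟩ := h1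
  refine ⟨y.zmodRepr, y.zmodRepr_lt_p, ((Submodule.Quotient.eq _).2 ?_).symm⟩
  refine Submodule.mem_one.2 ⟨z, ?_⟩
  have h2 := congrArg (algebraMap ℤ_[3] ℚ_[3]) hz
  rw [map_mul, map_sub, map_natCast, map_natCast, hy, nsmul_eq_mul, Nat.cast_ofNat] at h2
  linear_combination h2 / 3

theorem m1_third {A : Type} [AddCommGroup A] (f : A →+ ℚ_[3] ⧸ (1 : Submodule ℤ_[3] ℚ_[3]))
    (hf : ∀ a, 3 • a = 0 → f a = 0) :
    ∃ g : A →+ ℚ_[3] ⧸ (1 : Submodule ℤ_[3] ℚ_[3]), 3 • g = f := by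
  obtain ⟨g, hg⟩ := m1_baer.extension_property_addMonoidHom _
    (QuotientAddGroup.kerLift_injective (nsmulAddMonoidHom 3 : A →+ A))
    (QuotientAddGroup.lift _ f hf)
  refine ⟨g, AddMonoidHom.ext fun a => ?_⟩
  rw [AddMonoidHom.nsmul_apply, ← map_nsmul]
  exact DFunLike.congr_fun hg (a : A ⧸ _)

theorem dual_fg {A : Type} [AddCommGroup A] (ht : ∀ a : A, ∃ n : ℕ, 3 ^ n • a = 0)
    (h2 : {a : A | 3 • a = 0}.Finite) :
    Module.Finite ℤ_[3] (A →+ ℚ_[3] ⧸ (1 : Submodule ℤ_[3] ℚ_[3])) := by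
  have i1 := h2.to_subtype
  have i2 := m1_three.to_subtype
  let r : (A →+ ℚ_[3] ⧸ (1 : Submodule ℤ_[3] ℚ_[3])) → {a : A | 3 • a = 0} →
      {d : ℚ_[3] ⧸ (1 : Submodule ℤ_[3] ℚ_[3]) | 3 • d = 0} := fun f a =>
    ⟨f a, by rw [Set.mem_ofPred_eq, ← map_nsmul, a.2, map_zero]⟩
  have i3 := Fintype.ofFinite (Set.range r)
  have i4 := m1_prec (Set.range r)
  have i5 : IsHausdorff (Ideal.span {(3 : ℤ_[3])}) (A →+ ℚ_[3] ⧸ (1 : Submodule ℤ_[3] ℚ_[3])) :=
    ⟨fun f hf => AddMonoidHom.ext fun a => by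
      obtain ⟨n, hn⟩ := ht a
      obtain ⟨g, rfl⟩ := (m1_mem _ _).1 (SModEq.zero.1 (hf n))
      have e : (3 : ℤ_[3]) ^ n = (3 ^ n : ℕ) := by norm_cast
      rw [AddMonoidHom.smul_apply, e, Nat.cast_smul_eq_nsmul, ← map_nsmul, hn, map_zero,
        AddMonoidHom.zero_apply]⟩
  refine Module.Finite.of_surjective (Fintype.linearCombination ℤ_[3] (Set.rangeSplitting r))
    (surjective_of_mkQ_comp_surjective (I := Ideal.span {(3 : ℤ_[3])}) fun y => ?_)
  obtain ⟨f, rfl⟩ := Submodule.Quotient.mk_surjective _ y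
  classical
  refine ⟨Pi.single ⟨r f, f, rfl⟩ 1, ?_⟩
  rw [LinearMap.comp_apply, Fintype.linearCombination_apply_single, one_smul]
  refine (Submodule.Quotient.eq _).2 ?_
  obtain ⟨g, hg⟩ := m1_third (Set.rangeSplitting r ⟨r f, f, rfl⟩ - f) fun a ha =>
    sub_eq_zero.2 (congrArg Subtype.val
      (congrFun (Set.apply_rangeSplitting r ⟨r f, f, rfl⟩) ⟨a, ha⟩))
  rw [← pow_one (Ideal.span _), m1_mem]
  exact ⟨g, by rw [pow_one, ← hg, ← Nat.cast_smul_eq_nsmul ℤ_[3], Nat.cast_ofNat]⟩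

theorem quot_three_fin {A : Type} [AddCommGroup A] (ht : ∀ a : A, ∃ n : ℕ, 3 ^ n • a = 0)
    (h2 : {a : A | 3 • a = 0}.Finite) : ∃ X : Finset A, ∀ a, ∃ x ∈ X, ∃ b, a = x + 3 • b := by
  classical
  have i1 := h2.to_subtype
  have key : Finite (A ⧸ (nsmulAddMonoidHom 3 : A →+ A).range) := by
    by_contra hinf
    rw [not_finite_iff_infinite] at hinf
    obtain ⟨s, hs⟩ := Infinite.exists_subset_card_eq
      (A ⧸ (nsmulAddMonoidHom 3 : A →+ A).range) (Nat.card {a : A | 3 • a = 0} + 1)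
    let H := AddSubgroup.closure ((s.image Quotient.out : Finset A) : Set A)
    have i2 : Finite H := AddCommGroup.finite_of_fg_isAddTorsion H fun a => by
      obtain ⟨n, hn⟩ := ht a
      exact isOfFinAddOrder_iff_nsmul_eq_zero.2 ⟨3 ^ n, by positivity, Subtype.ext hn⟩
    have h3 := AddSubgroup.index_range (f := (nsmulAddMonoidHom 3 : H →+ H))
    have h4 : Nat.card (nsmulAddMonoidHom 3 : H →+ H).ker ≤ Nat.card {a : A | 3 • a = 0} :=
      Nat.card_le_card_of_injective (fun a => ⟨a.1.1, congrArg Subtype.val a.2⟩)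
        fun a b e => Subtype.ext (Subtype.ext (Subtype.mk.inj e))
    have h5 : Nat.card s ≤ (nsmulAddMonoidHom 3 : H →+ H).range.index :=
      Nat.card_le_card_of_injective (fun q => QuotientAddGroup.mk ⟨q.1.out,
        AddSubgroup.subset_closure (Finset.mem_coe.2 (Finset.mem_image_of_mem _ q.2))⟩)
        fun q q' e => by
          obtain ⟨b, hb⟩ := QuotientAddGroup.eq.1 e
          refine Subtype.ext ?_
          rw [← Quotient.out_eq q.1, ← Quotient.out_eq q'.1]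
          exact QuotientAddGroup.eq.2 ⟨b, congrArg Subtype.val hb⟩
    rw [Nat.card_eq_fintype_card, Fintype.card_coe] at h5
    omega
  refine ⟨(Set.finite_range fun q : A ⧸ (nsmulAddMonoidHom 3 : A →+ A).range =>
    q.out).toFinset, fun a => ⟨_, (Set.Finite.mem_toFinset _).2 ⟨a, rfl⟩, ?_⟩⟩
  obtain ⟨b, hb⟩ := QuotientAddGroup.eq.1
    (Quotient.out_eq (a : A ⧸ (nsmulAddMonoidHom 3 : A →+ A).range))
  exact ⟨b, by rw [show 3 • b = _ from hb, add_neg_cancel_left]⟩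

end Pool.Agent.P.MP_20768c_nt.Tz.Cv

end

-- part Cv.M2
section

set_option autoImplicit false

open Complex NumberField IsDedekindDomain Filter Topology
open UpperHalfPlane hiding I
open scoped ComplexConjugate Real MatrixGroups

namespace Pool.Agent.P.MP_20768c_nt.Tz.Cv

open Pool.Agent.P.MP_20768c_nt.Tz.EQ (Lt pr sp IsLat jL qN)

variable {K : Type} [Field K] [NumberField K] (E : WeierstrassCurve K)

theorem act_one (P : Tor E) : act E 1 P = P := by
  obtain ⟨P, hP⟩ := P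
  apply Subtype.ext
  cases P <;> rfl

theorem act_mul (g h : Gal K) (P : Tor E) : act E (g * h) P = act E g (act E h P) := by
  obtain ⟨P, hP⟩ := P
  apply Subtype.ext
  cases P <;> rfl

theorem act_add (g : Gal K) (P Q : Tor E) : act E g (P + Q) = act E g P + act E g Q :=
  Subtype.ext (by simp only [act, AddSubgroup.coe_add, map_add])

theorem act_sub (g : Gal K) (P Q : Tor E) : act E g (P - Q) = act E g P - act E g Q := by
  rw [eq_sub_iff_add_eq, ← act_add, sub_add_cancel]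

theorem act_zero (g : Gal K) : act E g 0 = 0 := by
  have := act_sub E g 0 0
  rwa [sub_self, sub_self] at this

theorem act_nsmul (g : Gal K) (n : ℕ) (P : Tor E) : act E g (n • P) = n • act E g P := by
  induction n with
  | zero => rw [zero_nsmul, zero_nsmul, act_zero]
  | succ n ih => rw [succ_nsmul, succ_nsmul, act_add, ih]

omit [NumberField K] in
theorem m2_ev (x : AlgebraicClosure K) (g₀ : Gal K) : ∀ᶠ g in 𝓝 g₀, g x = g₀ x := by
  have h1 := (stabilizer_isOpen_of_isIntegral (K := K) x).preimage (continuous_const_mul g₀⁻¹)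
  filter_upwards [h1.mem_nhds (x := g₀) (by simp)] with g hg
  have h2 : (g₀⁻¹ * g) x = x := hg
  rw [AlgEquiv.mul_apply, AlgEquiv.aut_inv, AlgEquiv.symm_apply_eq] at h2
  exact h2

theorem act_lc (P : Tor E) : IsLocallyConstant fun g : Gal K => act E g P := by
  rw [IsLocallyConstant.iff_eventually_eq]
  intro g₀
  obtain ⟨P, hP⟩ := P
  cases P with
  | zero => exact Filter.Eventually.of_forall fun g => Subtype.ext rfl
  | some x y h =>
    filter_upwards [m2_ev x g₀, m2_ev y g₀] with g h1 h2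
    apply Subtype.ext
    simp only [act, WeierstrassCurve.Affine.Point.map_some, WeierstrassCurve.Affine.Point.some.injEq]
    exact ⟨h1, h2⟩

theorem tor_tors (P : Tor E) : ∃ n : ℕ, 3 ^ n • P = 0 := by
  obtain ⟨n, hn⟩ := P.2
  exact ⟨n, Subtype.ext hn⟩

section

open WeierstrassCurve WeierstrassCurve.Affine

variable {F : Type} [Field F] (W : WeierstrassCurve F)

theorem m2_sq {x y : F} (h : W.toAffine.Equation x y) :
    (y - W.toAffine.negY x y) ^ 2 = 4 * x ^ 3 + W.b₂ * x ^ 2 + 2 * W.b₄ * x + W.b₆ := by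
  rw [equation_iff] at h
  simp only [negY, b₂, b₄, b₆]
  linear_combination 4 * h

theorem m2_dbl [DecidableEq F] {x y : F} (h : W.toAffine.Equation x y)
    (hy : y ≠ W.toAffine.negY x y) :
    W.toAffine.addX x x (W.toAffine.slope x x y y) *
      (4 * x ^ 3 + W.b₂ * x ^ 2 + 2 * W.b₄ * x + W.b₆) =
      x ^ 4 - W.b₄ * x ^ 2 - 2 * W.b₆ * x - W.b₈ := by
  have h1 := m2_sq W h
  have h2 : W.toAffine.slope x x y y * (y - W.toAffine.negY x y) =
      3 * x ^ 2 + 2 * W.a₂ * x + W.a₄ - W.a₁ * y := by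
    rw [slope_of_Y_ne rfl hy, div_mul_cancel₀ _ (sub_ne_zero.2 hy)]
  rw [← h1]
  rw [equation_iff] at h
  generalize W.toAffine.slope x x y y = l at h2
  simp only [addX, negY, b₄, b₆, b₈] at h2 ⊢
  linear_combination (l * (y - (-y - W.a₁ * x - W.a₃)) + (3 * x ^ 2 + 2 * W.a₂ * x + W.a₄ - W.a₁ * y)
    + W.a₁ * (y - (-y - W.a₁ * x - W.a₃))) * h2 - (W.a₁ ^ 2 + 4 * W.a₂ + 8 * x) * h

theorem m2_fin [DecidableEq F] [CharZero F] : {P : W.toAffine.Point | 3 • P = 0}.Finite := by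
  set p : Polynomial F := Polynomial.C 3 * Polynomial.X ^ 4 + Polynomial.C W.b₂ * Polynomial.X ^ 3 +
    Polynomial.C (3 * W.b₄) * Polynomial.X ^ 2 + Polynomial.C (3 * W.b₆) * Polynomial.X +
    Polynomial.C W.b₈ with hp
  have hp0 : p ≠ 0 := by
    have : p.degree = 4 := by rw [hp]; compute_degree!
    intro h
    rw [h] at this
    simp at this
  let f : W.toAffine.Point → Option F := fun P => match P with
    | .zero => none
    | .some x _ _ => some x
  refine Set.Finite.of_finite_fibers f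
    (((p.finite_setOfPred_isRoot hp0).image some).insert none |>.subset ?_) ?_
  · rintro _ ⟨P, hP, rfl⟩
    cases P with
    | zero => exact Or.inl rfl
    | some x y h =>
      refine Or.inr ⟨x, ?_, rfl⟩
      have h3 : Point.some x y h + Point.some x y h = -Point.some x y h := by
        rw [eq_neg_iff_add_eq_zero, add_assoc, ← three_nsmul]
        exact hP
      have hne : y ≠ W.toAffine.negY x y := fun e => by
        rw [Point.add_self_of_Y_eq e, Point.neg_some] at h3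
        exact Point.some_ne_zero _ h3.symm
      rw [Point.add_self_of_Y_ne hne, Point.neg_some, Point.some.injEq] at h3
      have h1 := m2_dbl W h.1 hne
      rw [h3.1] at h1
      simp only [Set.mem_ofPred_eq, hp, Polynomial.IsRoot, Polynomial.eval_add, Polynomial.eval_mul,
        Polynomial.eval_pow, Polynomial.eval_X, Polynomial.eval_C]
      linear_combination h1
  · rintro _ ⟨Q, -, rfl⟩
    refine ((Set.finite_singleton (-Q)).insert Q).subset ?_
    rintro P ⟨-, h⟩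
    have h : f P = f Q := h
    cases P with
    | zero => cases Q with
      | zero => exact Or.inl rfl
      | some _ _ _ => simp [f] at h
    | some x y h₁ => cases Q with
      | zero => simp [f] at h
      | some x' y' h₂ => exact (Point.X_eq_iff (h₁ := h₁) (h₂ := h₂)).1 (by simpa [f] using h)

end

theorem card3 : {P : Tor E | 3 • P = 0}.Finite := by
  classical
  refine Set.Finite.of_finite_image (f := Subtype.val)
    ((m2_fin (E.baseChange (AlgebraicClosure K))).subset ?_) Subtype.val_injective.injOn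
  rintro _ ⟨P, hP, rfl⟩
  exact congrArg Subtype.val hP

end Pool.Agent.P.MP_20768c_nt.Tz.Cv

end

-- part Cv.B1
section

set_option autoImplicit false

open Complex NumberField IsDedekindDomain Filter Topology
open UpperHalfPlane hiding I
open scoped ComplexConjugate Real MatrixGroups

namespace Pool.Agent.P.MP_20768c_nt.Tz.Cv

open Pool.Agent.P.MP_20768c_nt.Tz.EQ (Lt pr sp IsLat jL qN)

variable {A B F : Type} [AddCommGroup A] [AddCommGroup B] [Field F] {Γ : Type}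
  [LinearOrderedCommGroupWithZero Γ] {X : XG A F} {v : Valuation F Γ} {P Q : A}

theorem b1_small {t : F} (ht : v t < 1) (c : v.integer) :
    v (t * v.integer.subtype c) < 1 := by
  rw [map_mul]
  have hc' : v (v.integer.subtype c) ≤ 1 := c.2
  exact lt_of_le_of_lt (mul_le_of_le_one_right' hc') ht

theorem b1_not (h : ¬ X.Ker v P) : P ≠ 0 ∧ X.x P ∈ v.integer :=
  ⟨fun e => h (Or.inl e), not_lt.mp fun e => h (Or.inr e)⟩

theorem b1_alg1 (x a b b2 b4 b6 b8 : v.integer) (y : F) (hy : 1 < v y)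
    (h1 : ((a : F) + b) * (x - y) ^ 2 = 2 * x * y * (x + y) + b2 * x * y + b4 * (x + y) + b6)
    (h2 : (a : F) * b * (x - y) ^ 2 = x ^ 2 * y ^ 2 - b4 * x * y - b6 * (x + y) - b8) :
    v ((a : F) - x) < 1 := by
  have hy0 : y ≠ 0 := by
    rintro rfl
    rw [map_zero] at hy
    exact absurd hy (not_lt.mpr zero_le_one)
  have ht : v y⁻¹ < 1 := by
    rw [map_inv₀]
    exact inv_lt_one_of_one_lt₀ hy
  let t : v.integer := ⟨y⁻¹, ht.le⟩
  have hty : (t : F) * y = 1 := inv_mul_cancel₀ hy0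
  have key : ((a : F) - x) ^ 2 = (t : F) * v.integer.subtype
      (a * ((a + b) * (2 * x - x ^ 2 * t) + 2 * x ^ 2 + b2 * x + b4 * (x * t + 1) + b6 * t) -
        (a * b * (2 * x - x ^ 2 * t) - b4 * x - b6 * (x * t + 1) - b8 * t)) := by
    simp only [map_add, map_sub, map_mul, map_pow, map_ofNat, map_one, Subring.subtype_apply]
    have k1 : ((a : F) + b) * (x * t - 1) ^ 2 =
        2 * x * (x * t + 1) + b2 * x * t + b4 * (x * t ^ 2 + t) + b6 * t ^ 2 := by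
      have : ((a : F) + b) * (x * t - t * y) ^ 2 = 2 * x * (t * y) * (x * t + t * y) +
          b2 * x * t * (t * y) + b4 * (x * t ^ 2 + t * (t * y)) + b6 * t ^ 2 := by
        linear_combination (t : F) ^ 2 * h1
      simpa only [hty, mul_one] using this
    have k2 : (a : F) * b * (x * t - 1) ^ 2 =
        x ^ 2 - b4 * x * t - b6 * (x * t ^ 2 + t) - b8 * t ^ 2 := by
      have : (a : F) * b * (x * t - t * y) ^ 2 = x ^ 2 * (t * y) ^ 2 - b4 * x * t * (t * y) -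
          b6 * (x * t ^ 2 + t * (t * y)) - b8 * t ^ 2 := by
        linear_combination (t : F) ^ 2 * h2
      simpa only [hty, mul_one, one_pow] using this
    linear_combination (a : F) * k1 - k2
  have hs : v (((a : F) - x) ^ 2) < 1 := by
    rw [key]
    exact b1_small ht _
  rw [map_pow] at hs
  exact not_le.mp fun hh => absurd hs (not_lt.mpr (one_le_pow_of_one_le' hh 2))

theorem b1_alg2 (x d a b b2 b4 b6 b8 : v.integer) (hd : v (d : F) < 1)
    (hr : 4 * (b8 : F) = b2 * b6 - b4 ^ 2)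
    (h1 : ((a : F) + b) * d ^ 2 =
      2 * x * (x - d) * (x + (x - d)) + b2 * x * (x - d) + b4 * (x + (x - d)) + b6)
    (h2 : (a : F) * b * d ^ 2 =
      x ^ 2 * (x - d) ^ 2 - b4 * x * (x - d) - b6 * (x + (x - d)) - b8) :
    v (-(b2 : F) ^ 2 * b8 - 8 * b4 ^ 3 - 27 * b6 ^ 2 + 9 * b2 * b4 * b6) < 1 := by
  have key : -(b2 : F) ^ 2 * b8 - 8 * b4 ^ 3 - 27 * b6 ^ 2 + 9 * b2 * b4 * b6 = (d : F) *
      v.integer.subtype ((b2 ^ 2 - 32 * b4 - 8 * b2 * x - 48 * x ^ 2) *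
          (a * b * d + 2 * x ^ 3 - x ^ 2 * d - b4 * x - b6) +
        (12 * x ^ 3 - b2 * x ^ 2 - 10 * b4 * x + b2 * b4 - 27 * b6) *
          ((a + b) * d + 6 * x ^ 2 - 2 * x * d + b2 * x + b4)) := by
    rw [← bez0 (b2 : F) b4 b6 b8 x hr]
    simp only [map_add, map_sub, map_mul, map_pow, map_ofNat, Subring.subtype_apply]
    linear_combination -((b2 : F) ^ 2 - 32 * b4 - 8 * b2 * x - 48 * x ^ 2) * h2 -
      (12 * (x : F) ^ 3 - b2 * x ^ 2 - 10 * b4 * x + b2 * b4 - 27 * b6) * h1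
  rw [key]
  exact b1_small hd _

theorem XG.x_add_ker (hG : X.Good v) (h : ¬ X.Ker v P) (h' : X.Ker v Q) :
    v (X.x (P + Q) - X.x P) < 1 := by
  rcases eq_or_ne Q 0 with rfl | hQ
  · rw [add_zero, sub_self, map_zero]
    exact zero_lt_one
  have hy : 1 < v (X.x Q) := h'.resolve_left hQ
  have ha : ¬ X.Ker v (P + Q) := fun k => h (by
    have := XG.ker_add hG k (XG.ker_neg h')
    rwa [add_neg_cancel_right] at this)
  have hb : ¬ X.Ker v (P - Q) := fun k => h (by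
    have := XG.ker_add hG k h'
    rwa [sub_add_cancel] at this)
  obtain ⟨hP, hx⟩ := b1_not h
  obtain ⟨ha0, ha1⟩ := b1_not ha
  obtain ⟨hb0, hb1⟩ := b1_not hb
  obtain ⟨g2, g4, g6, g8, -⟩ := hG
  exact b1_alg1 ⟨_, hx⟩ ⟨_, ha1⟩ ⟨_, hb1⟩ ⟨_, g2⟩ ⟨_, g4⟩ ⟨_, g6⟩ ⟨_, g8⟩ (X.x Q) hy
    (X.add P Q hP hQ ha0 hb0) (X.mul P Q hP hQ ha0 hb0)

theorem XG.x_inj (hG : X.Good v) (h : ¬ X.Ker v P) (h' : ¬ X.Ker v Q)
    (e : v (X.x P - X.x Q) < 1) : X.Ker v (P + Q) ∨ X.Ker v (P - Q) := by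
  by_contra hc
  obtain ⟨ha, hb⟩ := not_or.mp hc
  obtain ⟨hP, hx⟩ := b1_not h
  obtain ⟨hQ, -⟩ := b1_not h'
  obtain ⟨ha0, ha1⟩ := b1_not ha
  obtain ⟨hb0, hb1⟩ := b1_not hb
  obtain ⟨g2, g4, g6, g8, gd⟩ := hG
  have e1 := X.add P Q hP hQ ha0 hb0
  have e2 := X.mul P Q hP hQ ha0 hb0
  have := b1_alg2 (v := v) ⟨_, hx⟩ ⟨X.x P - X.x Q, e.le⟩ ⟨_, ha1⟩ ⟨_, hb1⟩ ⟨_, g2⟩ ⟨_, g4⟩ ⟨_, g6⟩
    ⟨_, g8⟩ e X.rel (by simpa only [sub_sub_cancel] using e1)
    (by simpa only [sub_sub_cancel] using e2)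
  exact absurd gd (ne_of_lt this)

end Pool.Agent.P.MP_20768c_nt.Tz.Cv

end

-- part Cv.M3_p
section

set_option autoImplicit false

open Complex NumberField IsDedekindDomain Filter Topology
open UpperHalfPlane hiding I
open scoped ComplexConjugate Real MatrixGroups

namespace Pool.Agent.P.MP_20768c_nt.Tz.Cv

open Pool.Agent.P.MP_20768c_nt.Tz.EQ (Lt pr sp IsLat jL qN)

variable {K : Type} [Field K] [NumberField K] (E : WeierstrassCurve K)
  (S : Set (HeightOneSpectrum (𝓞 K))) (F : IntermediateField K (AlgebraicClosure K))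

theorem m3_p_third {A : Type} [AddCommGroup A] (h2 : {a : A | 3 • a = 0}.Finite) (x : A) :
    {a : A | 3 • a = x}.Finite := by
  rcases Set.eq_empty_or_nonempty {a : A | 3 • a = x} with h | ⟨b, hb⟩
  · rw [h]
    exact Set.finite_empty
  · refine (h2.image (· + b)).subset fun a ha => ⟨a - b, ?_, sub_add_cancel a b⟩
    change 3 • (a - b) = 0
    rw [nsmul_sub, show 3 • a = x from ha, show 3 • b = x from hb, sub_self]

theorem cob_fin (J : Set (Gal K)) :
    {f : J → Tor E | (∃ b, ∀ g, f g = act E g.1 b - b) ∧ ∀ g, 3 • f g = 0}.Finite := by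
  let T : AddSubgroup (Tor E) :=
    { carrier := {a | ∀ g ∈ J, act E g a = a}
      zero_mem' := fun g _ => act_zero E g
      add_mem' := fun {a b} ha hb g hg => by rw [act_add, ha g hg, hb g hg]
      neg_mem' := fun {a} ha g hg => by rw [← zero_sub, act_sub, act_zero, ha g hg] }
  obtain ⟨X, hX⟩ := quot_three_fin (A := T) (fun a => by
      obtain ⟨n, hn⟩ := tor_tors E a.1
      exact ⟨n, Subtype.ext hn⟩)
    (((card3 E).preimage Subtype.val_injective.injOn).subset fun a ha => congrArg Subtype.val ha)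
  refine ((X.finite_toSet.biUnion fun x _ => m3_p_third (card3 E) x.1).image
    fun (b : Tor E) (g : J) => act E g.1 b - b).subset ?_
  rintro f ⟨⟨b, hb⟩, h2⟩
  have hbT : 3 • b ∈ T := fun g hg => by
    have := h2 ⟨g, hg⟩
    rw [hb, nsmul_sub, sub_eq_zero] at this
    rw [act_nsmul, this]
  obtain ⟨x, hx, c, hc⟩ := hX ⟨_, hbT⟩
  have hc' : 3 • b = x.1 + 3 • c.1 := congrArg Subtype.val hc
  refine ⟨b - c.1, Set.mem_biUnion hx ?_, funext fun g => ?_⟩
  · change 3 • (b - c.1) = x.1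
    rw [nsmul_sub, hc', add_sub_cancel_right]
  · change act E g.1 (b - c.1) - (b - c.1) = f g
    rw [hb, act_sub, c.2 g.1 g.2, sub_sub_sub_cancel_right]

theorem sel_tors (x : Sel E S F) : ∃ n : ℕ, 3 ^ n • x = 0 := by
  obtain ⟨c, rfl⟩ := QuotientAddGroup.mk_surjective x
  have : CompactSpace F.fixingSubgroup :=
    isCompact_iff_compactSpace.mp (InfiniteGalois.fixingSubgroup_isClosed F).isCompact
  have hf := c.2.1.range_finite
  choose m hm using tor_tors E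
  obtain ⟨n, hn⟩ := (hf.image m).bddAbove
  refine ⟨n, ?_⟩
  have h0 : 3 ^ n • c = 0 := Subtype.ext (funext fun g => by
    obtain ⟨d, hd⟩ := Nat.exists_eq_add_of_le (hn ⟨_, ⟨g, rfl⟩, rfl⟩)
    change 3 ^ n • c.1 g = 0
    rw [hd, pow_add, mul_nsmul, hm, nsmul_zero])
  rw [← QuotientAddGroup.mk_nsmul, h0, QuotientAddGroup.mk_zero]

open scoped Pointwise in
theorem inI_mem {V : ValuationSubring (AlgebraicClosure K)} {g : Gal K} (h : InI V g) :
    g ∈ V.decompositionSubgroup K ∧ (¬ Above S V → g ∈ (KS S).fixingSubgroup) := by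
  have h1 : ∀ x, g x ∈ V ↔ x ∈ V := fun x => by
    constructor
    · intro hx
      by_contra hn
      have h0 : x ≠ 0 := fun e => hn (e ▸ V.zero_mem)
      have h2 : V.valuation x⁻¹ < 1 := by
        rw [map_inv₀, inv_lt_one₀ ((V.valuation.pos_iff).mpr h0)]
        exact lt_of_not_ge fun e => hn ((V.valuation_le_one_iff x).mp e)
      have h3 := V.valuation.map_add_lt (h _ h2.le) h2
      rw [sub_add_cancel, map_inv₀, map_inv₀,
        inv_lt_one₀ ((V.valuation.pos_iff).mpr ((map_ne_zero g).mpr h0))] at h3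
      exact h3.not_ge ((V.valuation_le_one_iff _).mpr hx)
    · intro hx
      have h2 := (V.valuation_le_one_iff x).mpr hx
      have h3 := V.valuation.map_add_le (h _ h2).le h2
      rw [sub_add_cancel] at h3
      exact (V.valuation_le_one_iff _).mp h3
  have hd : g ∈ V.decompositionSubgroup K := by
    refine MulAction.mem_stabilizer_iff.mpr (ValuationSubring.ext _ _ fun x => ?_)
    rw [ValuationSubring.mem_pointwise_smul_iff_inv_smul_mem, ← h1]
    exact Iff.of_eq (congrArg (· ∈ V) (smul_inv_smul g x))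
  refine ⟨hd, fun hS => ?_⟩
  refine (IntermediateField.le_iff_le _ _).mp (le_refl (KS S)) ?_
  refine Subgroup.mem_iSup_of_mem ⟨V, hS⟩ ⟨⟨g, hd⟩, ?_, rfl⟩
  refine MonoidHom.mem_ker.mpr (RingEquiv.ext fun y => ?_)
  obtain ⟨x, rfl⟩ := IsLocalRing.residue_surjective y
  change (⟨g, hd⟩ : V.decompositionSubgroup K) • IsLocalRing.residue V x = IsLocalRing.residue V x
  rw [← IsLocalRing.ResidueField.residue_smul, ← sub_eq_zero, ← map_sub,
    IsLocalRing.residue_eq_zero_iff, V.valuation_lt_one_iff]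
  exact h x (V.valuation_le_one x)

theorem exists_CS (hS : S.Finite) {m : ℕ} (hm : m ≠ 0) : ∃ C : ℕ, C ≠ 0 ∧ m ∣ C ∧
    ∀ V : ValuationSubring (AlgebraicClosure K), V.valuation C = 1 → ¬ Above S V := by
  refine ⟨m * ∏ p ∈ hS.toFinset, Ideal.absNorm p.asIdeal, mul_ne_zero hm
    (Finset.prod_ne_zero_iff.mpr fun p _ => ?_), dvd_mul_right _ _, ?_⟩
  · rw [Ne, Ideal.absNorm_eq_zero_iff]
    exact p.ne_bot
  · rintro V hV ⟨p, hp, h⟩
    obtain ⟨k, hk⟩ := (Finset.dvd_prod_of_mem (fun p : HeightOneSpectrum (𝓞 K) =>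
      Ideal.absNorm p.asIdeal) (hS.mem_toFinset.mpr hp)).mul_left m
    have h1 := h _ (Ideal.absNorm_mem p.asIdeal)
    rw [map_natCast] at h1
    rw [hk, Nat.cast_mul, map_mul] at hV
    exact (mul_lt_one_of_lt_of_le h1
      ((V.valuation_le_one_iff _).mpr (natCast_mem V k))).ne hV

end Pool.Agent.P.MP_20768c_nt.Tz.Cv

end

-- part Cv.M3
section

set_option autoImplicit false

open Complex NumberField IsDedekindDomain Filter Topology
open UpperHalfPlane hiding I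
open scoped ComplexConjugate Real MatrixGroups

namespace Pool.Agent.P.MP_20768c_nt.Tz.Cv

open Pool.Agent.P.MP_20768c_nt.Tz.EQ (Lt pr sp IsLat jL qN)

theorem m3_fin {A B : Type} [AddGroup A] {Z Z0 : Set A} (r : A → B) {Y : Set B} (hY : Y.Finite)
    (hr : ∀ x ∈ Z, r x ∈ Y) (h0 : Z0.Finite)
    (hk : ∀ x ∈ Z, ∀ y ∈ Z, r x = r y → x - y ∈ Z0) : Z.Finite := by
  have h1 : (r '' Z).Finite := hY.subset (by rintro _ ⟨x, hx, rfl⟩; exact hr x hx)
  refine (h1.biUnion (t := fun b => {x | x ∈ Z ∧ r x = b}) ?_).subset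
    fun x hx => Set.mem_biUnion (Set.mem_image_of_mem r hx) ⟨hx, rfl⟩
  rintro _ ⟨y, hy, rfl⟩
  exact (h0.image (· + y)).subset fun x hx => ⟨x - y, hk x hx.1 y hy hx.2, sub_add_cancel x y⟩

theorem m3_char {T M : Type} [AddCommGroup T] [CommGroup M] {z : M} (hz : IsPrimitiveRoot z 3)
    (P : T) : ∃ l : T → M, (∀ x, l x ^ 3 = 1) ∧
      (∀ x y, 3 • x = 0 → 3 • y = 0 → l (x + y) = l x * l y) ∧ (3 • P = 0 → P ≠ 0 → l P ≠ 1) := by
  classical
  by_cases h : 3 • P = 0 ∧ P ≠ 0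
  swap
  · exact ⟨fun _ => 1, fun _ => one_pow 3, fun _ _ _ _ => (one_mul 1).symm,
      fun h1 h2 => absurd ⟨h1, h2⟩ h⟩
  let T3 : AddSubgroup T := (nsmulAddMonoidHom 3 : T →+ T).ker
  let _ : Module (ZMod 3) T3 := AddCommGroup.zmodModule fun x => Subtype.ext x.2
  have hP : (⟨P, h.1⟩ : T3) ≠ 0 := fun e => h.2 (congrArg Subtype.val e)
  obtain ⟨f, hf⟩ : ∃ f : Module.Dual (ZMod 3) T3, f ⟨P, h.1⟩ ≠ 0 := by
    by_contra hc
    push Not at hc
    exact hP ((Module.forall_dual_apply_eq_zero_iff (ZMod 3) _).1 hc)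
  refine ⟨fun x => if hx : x ∈ T3 then z ^ (f ⟨x, hx⟩).val else 1, fun x => ?_,
    fun x y hx hy => ?_, fun _ _ => ?_⟩
  · beta_reduce
    split_ifs
    · rw [← pow_mul, mul_comm, pow_mul, hz.pow_eq_one, one_pow]
    · exact one_pow 3
  · have hx' : x ∈ T3 := hx
    have hy' : y ∈ T3 := hy
    simp only [dif_pos hx', dif_pos hy', dif_pos (add_mem hx' hy')]
    rw [← pow_add, pow_eq_pow_mod ((f ⟨x, hx'⟩).val + _) hz.pow_eq_one, ← ZMod.val_add,
      ← map_add]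
    rfl
  · have hP' : P ∈ T3 := h.1
    simp only [dif_pos hP']
    exact hz.pow_ne_one_of_pos_of_lt (fun e => hf ((ZMod.val_eq_zero _).1 e)) (ZMod.val_lt _)

variable {K : Type} [Field K] [NumberField K] (E : WeierstrassCurve K)
  (S : Set (HeightOneSpectrum (𝓞 K))) (F : IntermediateField K (AlgebraicClosure K))

/-- locally constant cocycles whose triple is the coboundary of `t` -/
def m3Z (t : Tor E) (z : F.fixingSubgroup → Tor E) : Prop :=
  IsLocallyConstant z ∧ (∀ g h, z (g * h) = z g + act E g.1 (z h)) ∧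
    ∀ g, 3 • z g = act E g.1 t - t

theorem m3_zero {z : F.fixingSubgroup → Tor E} (hz : m3Z E F 0 z) (g : F.fixingSubgroup) :
    3 • z g = 0 := by
  rw [hz.2.2, act_zero, sub_self]

theorem m3_sub {t : Tor E} {z w : F.fixingSubgroup → Tor E} (hz : m3Z E F t z)
    (hw : m3Z E F t w) : m3Z E F 0 (z - w) := by
  refine ⟨hz.1.sub hw.1, fun g h => ?_, fun g => ?_⟩
  · simp only [Pi.sub_apply, hz.2.1, hw.2.1, act_sub]
    abel
  · rw [Pi.sub_apply, nsmul_sub, hz.2.2, hw.2.2, sub_self, act_zero, sub_self]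

theorem m3_ker (N : Set (AlgebraicClosure K))
    (hN : ∀ (g : Gal K) (P : Tor E), (∀ x ∈ N, g x = x) → 3 • P = 0 → act E g P = P)
    (hle : Hs N ≤ F.fixingSubgroup) {C : ℕ} {A : Set (ValuationSubring (AlgebraicClosure K))}
    (hH : (HH N C A).Finite) :
    {w | m3Z E F 0 w ∧ (∀ q : F.fixingSubgroup ⧸ (Hs N).subgroupOf F.fixingSubgroup, w q.out = 0) ∧
      ∀ V : ValuationSubring (AlgebraicClosure K), (V.valuation C = 1 ∨ V ∈ A) →
        ∀ g, InI V g.1 → w g = 0}.Finite := by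
  obtain ⟨ζ, hζ⟩ := HasEnoughRootsOfUnity.exists_primitiveRoot (AlgebraicClosure K) 3
  have hζ' : IsPrimitiveRoot (hζ.isUnit three_ne_zero).unit 3 := hζ.isUnit_unit three_ne_zero
  choose l hl3 hl hl' using fun P : Tor E => m3_char hζ' P
  have h0 : ∀ P, l P 0 = 1 := fun P => by
    have := hl P 0 0 (nsmul_zero 3) (nsmul_zero 3)
    rw [add_zero] at this
    exact left_eq_mul.1 this
  have := hH.to_subtype
  have := (card3 E).to_subtype
  rw [← Set.finite_coe_iff]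
  refine Finite.of_injective (β := {P : Tor E | 3 • P = 0} → HH N C A)
    (fun w P => ⟨MonoidHom.mk' (fun g => l P (w.1 ⟨g.1, hle g.2⟩)) fun g h => ?_, ?_,
      fun g => hl3 P _, fun V hV g hg => ?_⟩) fun w w' e => ?_
  · have := w.2.1.2.1 ⟨g.1, hle g.2⟩ ⟨h.1, hle h.2⟩
    rw [hN g.1 _ g.2.1 (m3_zero E F w.2.1 _)] at this
    rw [← hl P _ _ (m3_zero E F w.2.1 _) (m3_zero E F w.2.1 _), ← this]
    rfl
  · exact (w.2.1.1.comp_continuous (continuous_subtype_val.subtype_mk _)).comp (l P)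
  · show l P (w.1 ⟨g.1, hle g.2⟩) = 1
    rw [w.2.2.2 V hV _ hg, h0]
  · have e1 : ∀ g : Hs N, w.1 ⟨g.1, hle g.2⟩ = w'.1 ⟨g.1, hle g.2⟩ := fun g => by
      by_contra hne
      have h2 := m3_zero E F (m3_sub E F w.2.1 w'.2.1) ⟨g.1, hle g.2⟩
      rw [Pi.sub_apply] at h2
      have e2 : l (w.1 ⟨g.1, hle g.2⟩ - w'.1 ⟨g.1, hle g.2⟩) (w.1 ⟨g.1, hle g.2⟩) =
          l (w.1 ⟨g.1, hle g.2⟩ - w'.1 ⟨g.1, hle g.2⟩) (w'.1 ⟨g.1, hle g.2⟩) :=
        DFunLike.congr_fun (congrArg Subtype.val (congrFun e ⟨_, h2⟩)) g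
      have e3 := hl (w.1 ⟨g.1, hle g.2⟩ - w'.1 ⟨g.1, hle g.2⟩) _ _ h2
        (m3_zero E F w'.2.1 ⟨g.1, hle g.2⟩)
      rw [sub_add_cancel, e2] at e3
      exact hl' _ h2 (sub_ne_zero.2 hne) (right_eq_mul.1 e3)
    refine Subtype.ext (funext fun g => ?_)
    obtain ⟨h, hh⟩ := QuotientGroup.mk_out_eq_mul ((Hs N).subgroupOf F.fixingSubgroup) g
    have a1 := w.2.2.1 (g : F.fixingSubgroup ⧸ (Hs N).subgroupOf F.fixingSubgroup)
    have a2 := w'.2.2.1 (g : F.fixingSubgroup ⧸ (Hs N).subgroupOf F.fixingSubgroup)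
    rw [hh, w.2.1.2.1] at a1
    rw [hh, w'.2.1.2.1] at a2
    have a3 : w.1 h.1 = w'.1 h.1 := e1 ⟨h.1.1, h.2⟩
    rw [a3] at a1
    exact add_right_cancel (a1.trans a2.symm)

theorem m3_Z0 (hS : S.Finite) (N : Set (AlgebraicClosure K))
    (hN : ∀ (g : Gal K) (P : Tor E), (∀ x ∈ N, g x = x) → 3 • P = 0 → act E g P = P)
    (hle : Hs N ≤ F.fixingSubgroup) (hf : (Hs N).relIndex F.fixingSubgroup ≠ 0) {m : ℕ}
    (hm : m ≠ 0) (hH : ∀ C : ℕ, C ≠ 0 → m ∣ C → ∃ A, A.Finite ∧ (HH N C A).Finite) :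
    {z | m3Z E F 0 z ∧ (∃ b, ∀ g, g.1 ∈ (KS S).fixingSubgroup → z g = act E g.1 b - b) ∧
      ∀ V, ∃ b, ∀ g, InI V g.1 → z g = act E g.1 b - b}.Finite := by
  obtain ⟨C, hC, hC', hCS⟩ := exists_CS S hS hm
  obtain ⟨A, hA, hA'⟩ := hH C hC hC'
  have := hA.to_subtype
  have : Finite (F.fixingSubgroup ⧸ (Hs N).subgroupOf F.fixingSubgroup) :=
    Subgroup.index_ne_zero_iff_finite.1 hf
  refine m3_fin (fun z => ((fun q : F.fixingSubgroup ⧸ (Hs N).subgroupOf F.fixingSubgroup =>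
      z q.out), (fun g : {g | g ∈ F.fixingSubgroup ∧ g ∈ (KS S).fixingSubgroup} => z ⟨g.1, g.2.1⟩),
      fun (V : A) (g : {g | g ∈ F.fixingSubgroup ∧ InI V.1 g}) => z ⟨g.1, g.2.1⟩))
    ((Set.Finite.pi' fun _ => card3 E).prod ((cob_fin E _).prod
      (Set.Finite.pi' fun V => cob_fin E _))) (fun z hz => ?_) (m3_ker E F N hN hle hA')
    fun z hz w hw e => ?_
  · obtain ⟨h1, ⟨b, hb⟩, h3⟩ := hz
    refine ⟨fun q => m3_zero E F h1 _, ⟨⟨b, fun g => hb _ g.2.2⟩, fun g => m3_zero E F h1 _⟩,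
      fun V => ?_⟩
    obtain ⟨b', hb'⟩ := h3 V.1
    exact ⟨⟨b', fun g => hb' _ g.2.2⟩, fun g => m3_zero E F h1 _⟩
  · simp only [Prod.mk.injEq] at e
    refine ⟨m3_sub E F hz.1 hw.1, fun q => sub_eq_zero.2 (congrFun e.1 q), fun V hV g hg => ?_⟩
    rcases hV with hV | hV
    · exact sub_eq_zero.2 (congrFun e.2.1 ⟨g.1, g.2, (inI_mem S hg).2 (hCS V hV)⟩)
    · exact sub_eq_zero.2 (congrFun (congrFun e.2.2 ⟨V, hV⟩) ⟨g.1, g.2, hg⟩)

theorem m3_Z (hS : S.Finite) (N : Set (AlgebraicClosure K))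
    (hN : ∀ (g : Gal K) (P : Tor E), (∀ x ∈ N, g x = x) → 3 • P = 0 → act E g P = P)
    (hle : Hs N ≤ F.fixingSubgroup) (hf : (Hs N).relIndex F.fixingSubgroup ≠ 0) {m : ℕ}
    (hm : m ≠ 0) (hH : ∀ C : ℕ, C ≠ 0 → m ∣ C → ∃ A, A.Finite ∧ (HH N C A).Finite) (t : Tor E) :
    {z | m3Z E F t z ∧ (∃ b, ∀ g, g.1 ∈ (KS S).fixingSubgroup → z g = act E g.1 b - b) ∧
      ∀ V, ∃ b, ∀ g, InI V g.1 → z g = act E g.1 b - b}.Finite := by
  refine m3_fin (fun _ => ()) (Set.finite_singleton ()) (fun _ _ => rfl)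
    (m3_Z0 E S F hS N hN hle hf hm hH) ?_
  rintro z ⟨z1, ⟨b, hb⟩, z3⟩ w ⟨w1, ⟨c, hc⟩, w3⟩ -
  refine ⟨m3_sub E F z1 w1, ⟨b - c, fun g hg => ?_⟩, fun V => ?_⟩
  · rw [Pi.sub_apply, hb g hg, hc g hg, act_sub]
    abel
  · obtain ⟨b', hb'⟩ := z3 V
    obtain ⟨c', hc'⟩ := w3 V
    refine ⟨b' - c', fun g hg => ?_⟩
    rw [Pi.sub_apply, hb' g hg, hc' g hg, act_sub]
    abel

theorem m3_clo {c : F.fixingSubgroup → Tor E} (h : c ∈ AddSubgroup.closure
    (Set.range fun (a : Tor E) (g : F.fixingSubgroup) => act E g.1 a - a)) :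
    ∃ a, ∀ g, c g = act E g.1 a - a := by
  have h0 : ∀ g, act E g 0 = 0 := fun g => by
    have := act_sub E g 0 0
    rwa [sub_self, sub_self] at this
  induction h using AddSubgroup.closure_induction with
  | mem x hx => obtain ⟨a, rfl⟩ := hx; exact ⟨a, fun _ => rfl⟩
  | zero => exact ⟨0, fun g => by rw [h0, sub_self]; rfl⟩
  | add x y _ _ hx hy =>
    obtain ⟨a, ha⟩ := hx
    obtain ⟨b, hb⟩ := hy
    exact ⟨a + b, fun g => by rw [Pi.add_apply, ha, hb, act_add]; abel⟩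
  | neg x _ hx =>
    obtain ⟨a, ha⟩ := hx
    exact ⟨0 - a, fun g => by rw [Pi.neg_apply, ha, act_sub, h0]; abel⟩

theorem sel_three (hS : S.Finite) (N : Set (AlgebraicClosure K))
    (hN : ∀ (g : Gal K) (P : Tor E), (∀ x ∈ N, g x = x) → P + P + P = 0 → act E g P = P)
    (hle : Hs N ≤ F.fixingSubgroup) (hf : (Hs N).relIndex F.fixingSubgroup ≠ 0) {m : ℕ}
    (hm : m ≠ 0) (hH : ∀ C : ℕ, C ≠ 0 → m ∣ C → ∃ A, A.Finite ∧ (HH N C A).Finite) :
    {x : Sel E S F | 3 • x = 0}.Finite := by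
  replace hN : ∀ (g : Gal K) (P : Tor E), (∀ x ∈ N, g x = x) → 3 • P = 0 → act E g P = P :=
    fun g P h1 h2 => hN g P h1 (by rwa [add_assoc, ← three_nsmul])
  obtain ⟨X, hX⟩ := quot_three_fin (tor_tors E) (card3 E)
  refine ((X.finite_toSet.biUnion fun t _ => m3_Z E S F hS N hN hle hf hm hH t).biUnion
    (t := fun z => {x : Sel E S F | ∃ (c : Coc E S F) (a : Tor E), x = QuotientAddGroup.mk c ∧
      ∀ g, z g = c.1 g - (act E g.1 a - a)}) fun z _ => Set.Subsingleton.finite ?_).subset ?_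
  · rintro _ ⟨c, a, rfl, h⟩ _ ⟨c', a', rfl, h'⟩
    refine QuotientAddGroup.eq.2 (AddSubgroup.mem_addSubgroupOf.2
      (AddSubgroup.subset_closure ⟨a' - a, funext fun g => ?_⟩))
    have e : c'.1 g = z g + (act E g.1 a' - a') := by rw [h', sub_add_cancel]
    show act E g.1 (a' - a) - (a' - a) = -c.1 g + c'.1 g
    rw [e, h, act_sub]
    abel
  · intro x hx
    obtain ⟨c, rfl⟩ := QuotientAddGroup.mk_surjective x
    have h1 : ((3 • c : Coc E S F) : Sel E S F) = 0 := hx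
    obtain ⟨a0, ha0⟩ := m3_clo E F
      (AddSubgroup.mem_addSubgroupOf.1 ((QuotientAddGroup.eq_zero_iff _).1 h1))
    obtain ⟨t, ht, a, rfl⟩ := hX a0
    obtain ⟨c1, c2, c3, c4⟩ := c.2
    have h0 : ∀ g : F.fixingSubgroup, g.1 ∈ (KS S).fixingSubgroup →
        c.1 g - (act E g.1 a - a) = act E g.1 (a - a - a) - (a - a - a) := fun g hg => by
      rw [c3 g hg, act_sub, act_sub]
      abel
    refine Set.mem_biUnion (x := fun g => c.1 g - (act E g.1 a - a)) (Set.mem_biUnion ht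
      ⟨⟨c1.sub (((act_lc E a).comp_continuous continuous_subtype_val).sub
        (IsLocallyConstant.const a)), fun g h => ?_, fun g => ?_⟩, ⟨_, h0⟩, fun V => ?_⟩)
      ⟨c, a, rfl, fun _ => rfl⟩
    · simp only [c2, act_sub, Subgroup.coe_mul, act_mul]
      abel
    · have e : 3 • c.1 g = act E g.1 (t + 3 • a) - (t + 3 • a) := ha0 g
      rw [nsmul_sub, e, act_add, act_nsmul, nsmul_sub]
      abel
    · by_cases hV : Above S V
      · obtain ⟨b, hb⟩ := c4 V hV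
        refine ⟨b - a, fun g hg => ?_⟩
        show c.1 g - (act E g.1 a - a) = _
        rw [hb g (inI_mem S hg).1, act_sub]
        abel
      · exact ⟨_, fun g hg => h0 g ((inI_mem S hg).2 hV)⟩

end Pool.Agent.P.MP_20768c_nt.Tz.Cv

end
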