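import Pool.Agent.P.MP_20768c_nt.Tz.Z0
import Pool.Agent.P.MP_20768c_nt.Tz.Z4
import Pool.Agent.P.MP_20768c_nt.Tz.Z7

-- part Cv.C1b
section

set_option autoImplicit false

open Complex NumberField IsDedekindDomain Filter Topology
open UpperHalfPlane hiding I
open scoped ComplexConjugate Real MatrixGroups

namespace Pool.Agent.P.MP_20768c_nt.Tz.Cv

open Pool.Agent.P.MP_20768c_nt.Tz.EQ (Lt pr sp IsLat jL qN)

namespace St

variable (s : St) {L M : s.Sub} {a b : Ideal s.O} {x y : ℂ}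

theorem c1b_sc_pow (x : ℂ) (n : ℕ) : s.sc x ^ n = s.sc (x ^ n) := by
  induction n with
  | zero => rw [pow_zero, pow_zero, sc_one]
  | succ n ih => rw [pow_succ, pow_succ, ih, sc_mul]

theorem c1b_c_three : s.c 3 = 3 := by
  have := s.c_nat 3
  exact_mod_cast this

theorem exists_pow : ∃ r : ℕ, 0 < r ∧ ∀ L : s.Sub, IsUnit L → ∃ x : ℂ, x ≠ 0 ∧ L ^ r = s.sc x := by
  refine ⟨Fintype.card (ClassGroup s.O), Fintype.card_pos, fun L hL => ?_⟩
  obtain ⟨x, hx, a, ha, rfl⟩ := s.unit_eq hL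
  set r := Fintype.card (ClassGroup s.O)
  have h1 : ClassGroup.mk0 (⟨a, mem_nonZeroDivisors_of_ne_zero ha⟩ ^ r) = 1 := by
    rw [map_pow, pow_card_eq_one]
  obtain ⟨β, hβ⟩ := (ClassGroup.mk0_eq_one_iff
    (mem_nonZeroDivisors_of_ne_zero (pow_ne_zero r ha))).1 h1
  have hβ' : a ^ r = Ideal.span {β} := hβ
  have h0 : β ≠ 0 := fun h => pow_ne_zero r ha (by rw [hβ', h]; simp)
  refine ⟨x ^ r * s.c β, mul_ne_zero (pow_ne_zero r hx) (s.c_ne h0), ?_⟩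
  rw [mul_pow, c1b_sc_pow, ← idl_pow, hβ', idl_span, sc_mul]

theorem exists_fin : ∃ T : Finset s.Sub, (∀ M ∈ T, IsUnit M) ∧
    ∀ L : s.Sub, IsUnit L → ∃ M ∈ T, ∃ x : ℂ, x ≠ 0 ∧ L = s.sc x * M := by
  classical
  choose g hg using ClassGroup.mk0_surjective (R := s.O)
  refine ⟨Finset.univ.image fun C => s.idl (g C), fun M hM => ?_, fun L hL => ?_⟩
  · obtain ⟨C, -, rfl⟩ := Finset.mem_image.1 hM
    exact s.isUnit_idl (nonZeroDivisors.coe_ne_zero _)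
  · obtain ⟨x, hx, a, ha, rfl⟩ := s.unit_eq hL
    obtain ⟨β, γ, hβ, hγ, h⟩ := ClassGroup.mk0_eq_mk0_iff.1
      (hg (ClassGroup.mk0 ⟨a, mem_nonZeroDivisors_of_ne_zero ha⟩)).symm
    refine ⟨_, Finset.mem_image_of_mem _ (Finset.mem_univ
      (ClassGroup.mk0 ⟨a, mem_nonZeroDivisors_of_ne_zero ha⟩)), x * (s.c β)⁻¹ * s.c γ,
      mul_ne_zero (mul_ne_zero hx (inv_ne_zero (s.c_ne hβ))) (s.c_ne hγ), ?_⟩
    have h2 := congrArg s.idl h
    rw [idl_mul, idl_mul, idl_span, idl_span] at h2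
    rw [sc_mul, mul_assoc, ← h2, ← mul_assoc, ← sc_mul, inv_mul_cancel_right₀ (s.c_ne hβ)]

theorem exists_loc (hL : IsUnit L) : ∃ (x : ℂ) (β β' : s.O), x ≠ 0 ∧
    s.v (s.c β) = 1 ∧ s.v (s.c β') = 1 ∧ s.sc (s.c β) * L ≤ s.sc x ∧ s.sc (s.c β') * s.sc x ≤ L := by
  obtain ⟨x, hx, a, ha, rfl⟩ := s.unit_eq hL
  have h1 : ¬ a ≤ a * s.p1 := fun h => by
    have h2 : a * s.p1 = a * ⊤ := by rw [Ideal.mul_top]; exact le_antisymm Ideal.mul_le_left h
    exact s.p1_max.ne_top (mul_left_cancel₀ ha h2)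
  obtain ⟨γ, hγ, hγ'⟩ := SetLike.not_le_iff_exists.1 h1
  obtain ⟨b, hb⟩ := Ideal.dvd_iff_le.2 ((Ideal.span_singleton_le_iff_mem a).2 hγ)
  have h3 : ¬ b ≤ s.p1 := fun h => hγ' (by
    have : Ideal.span {γ} ≤ a * s.p1 := by rw [hb]; exact Ideal.mul_mono_right h
    exact this (Ideal.mem_span_singleton_self γ))
  obtain ⟨β, hβ, hβ'⟩ := SetLike.not_le_iff_exists.1 h3
  have h0 : γ ≠ 0 := fun h => hγ' (h ▸ zero_mem _)
  refine ⟨x * s.c γ, β, 1, mul_ne_zero hx (s.c_ne h0),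
    le_antisymm (s.v_c _ _) (not_lt.1 fun h => hβ' ((s.mem_p1 β).2 h)),
    by rw [c_one, map_one], ?_, ?_⟩
  · rw [sc_mul, mul_left_comm, ← idl_span, ← idl_span, ← idl_mul]
    refine mul_le_mul_right (s.idl_le.2 ?_) _
    rw [hb, mul_comm]
    exact Ideal.mul_mono_right ((Ideal.span_singleton_le_iff_mem b).2 hβ)
  · rw [c_one, sc_one, one_mul, sc_mul, ← idl_span]
    exact mul_le_mul_right (s.idl_le.2 ((Ideal.span_singleton_le_iff_mem a).2 hγ)) _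

theorem cyc_sub (hL : IsUnit L) {q : Ideal s.O} (hq : q.IsMaximal) (h0 : q ≠ ⊥) {t : ℂ}
    (ht : t ∈ L * s.inv q) (ht' : t ∉ L) (hy : y ∈ L * s.inv q) : ∃ β : s.O, y - s.c β * t ∈ L := by
  obtain ⟨L', hL'⟩ := hL.exists_right_inv
  have hU : IsUnit (s.idl q * L') :=
    (s.isUnit_idl h0).mul (IsUnit.of_mul_eq_one_right L hL')
  have e1 : L * s.inv q * (s.idl q * L') = 1 := by
    rw [mul_mul_mul_comm, mul_comm (s.inv q), mul_mul_mul_comm, hL', s.idl_inv h0, one_mul]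
  have e2 : L * (s.idl q * L') = s.idl q := by rw [mul_left_comm, hL', mul_one]
  have hJ : L ⊔ s.sc t ≤ L * s.inv q :=
    sup_le (s.le_mul_inv h0 L) ((Submodule.span_singleton_le_iff_mem _ _).2 ht)
  obtain ⟨a, ha⟩ := s.exists_idl (L := (L ⊔ s.sc t) * (s.idl q * L'))
    (by rw [← e1]; exact mul_le_mul_left hJ _)
  have h1 : q ≤ a := by
    have h6 : L * (s.idl q * L') ≤ (L ⊔ s.sc t) * (s.idl q * L') :=
      mul_le_mul_left (le_sup_left : L ≤ L ⊔ s.sc t) _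
    rw [ha, e2] at h6
    exact s.idl_le.1 h6
  have h2 : a = ⊤ := by
    by_contra hc
    have h3 := hq.eq_of_le hc h1
    have h4 : (L ⊔ s.sc t) * (s.idl q * L') ≤ L * (s.idl q * L') := by rw [ha, e2, h3]
    exact ht' ((s.mul_le_mul_unit hU).1 h4 (Submodule.mem_sup_right (s.mem_sc t)))
  have h5 : L * s.inv q ≤ L ⊔ s.sc t := by
    rw [← s.mul_le_mul_unit hU, ha, h2, idl_top, e1]
  obtain ⟨l, hl, z, hz, rfl⟩ := Submodule.mem_sup.1 (h5 hy)
  obtain ⟨β, rfl⟩ := Submodule.mem_span_singleton.1 hz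
  exact ⟨β, by rw [smul_eq, add_sub_cancel_right]; exact hl⟩

theorem c1b_max {q : Ideal s.O} (hq : q = s.p1 ∨ q = s.p2) :
    q.IsMaximal ∧ q ≠ ⊥ ∧ (3 : s.O) ∈ q ∧ ∀ β, β ∉ q → β - 1 ∈ q ∨ β + 1 ∈ q := by
  rcases hq with rfl | rfl
  · exact ⟨s.p1_max, s.p1_ne, s.three_mem.1, fun _ => s.pm_one_p1⟩
  · exact ⟨s.p2_max, s.p2_ne, s.three_mem.2, fun _ => s.pm_one_p2⟩

theorem exists_three (hL : IsUnit L) {q : Ideal s.O} (hq : q = s.p1 ∨ q = s.p2) :
    ∃ t, t ∈ L * s.inv q ∧ t ∉ L := by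
  obtain ⟨h1, h0, -, -⟩ := s.c1b_max hq
  refine SetLike.not_le_iff_exists.1 fun h => h1.ne_top ?_
  have h2 : s.inv q ≤ 1 := by
    rw [← s.mul_le_mul_unit hL, one_mul, mul_comm]; exact h
  rw [eq_top_iff, ← s.idl_le, idl_top, ← s.idl_inv h0]
  exact (mul_le_mul_right h2 _).trans (mul_one _).le

theorem three_of_mem (hL : IsUnit L) {q : Ideal s.O} (hq : q = s.p1 ∨ q = s.p2) {t : ℂ}
    (ht : t ∈ L * s.inv q) (ht' : t ∉ L) : Three (s.zl L) (s.zl (L * s.inv q)) t := by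
  obtain ⟨h1, h0, h2, h3⟩ := s.c1b_max hq
  have h4 := (s.mem_mul_inv h0).1 ht
  refine ⟨by rwa [mem_zl], by rw [mem_zl, ← c1b_c_three]; exact h4 _ h2, fun z => ?_⟩
  simp only [mem_zl]
  constructor
  · intro hz
    obtain ⟨β, hβ⟩ := s.cyc_sub hL h1 h0 ht ht' hz
    by_cases hb : β ∈ q
    · left
      have := add_mem hβ (h4 β hb)
      rwa [sub_add_cancel] at this
    · right
      rcases h3 β hb with h5 | h5
      · left
        have := add_mem hβ (h4 _ h5)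
        rw [c_sub, c_one] at this
        convert this using 1
        ring
      · right
        have := add_mem hβ (h4 _ h5)
        rw [c_add, c_one] at this
        convert this using 1
        ring
  · rintro (hz | hz | hz)
    · exact s.le_mul_inv h0 L hz
    · have := add_mem (s.le_mul_inv h0 L hz) ht
      rwa [sub_add_cancel] at this
    · have := sub_mem (s.le_mul_inv h0 L hz) ht
      rwa [add_sub_cancel_right] at this

theorem c1b_pair {β γ : s.O} (h : Ideal.span {β, γ} ≠ ⊥) :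
    x ∈ L * s.inv (Ideal.span {β, γ}) ↔ s.c β * x ∈ L ∧ s.c γ * x ∈ L := by
  rw [s.mem_mul_inv h]
  constructor
  · intro H
    exact ⟨H _ (Ideal.subset_span (by simp)), H _ (Ideal.subset_span (by simp))⟩
  · rintro ⟨h1, h2⟩ δ hδ
    obtain ⟨u, u', rfl⟩ := Ideal.mem_span_pair.1 hδ
    rw [c_add, c_mul, c_mul, add_mul, mul_assoc, mul_assoc]
    exact add_mem (s.c_mul_mem _ h1) (s.c_mul_mem _ h2)

theorem mem_inv_p1 : x ∈ L * s.inv s.p1 ↔ 3 * x ∈ L ∧ s.c s.w * x ∈ L := by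
  rw [← c1b_c_three]
  exact s.c1b_pair s.p1_ne

theorem mem_inv_p2 : x ∈ L * s.inv s.p2 ↔ 3 * x ∈ L ∧ s.c s.wb * x ∈ L := by
  rw [← c1b_c_three]
  exact s.c1b_pair s.p2_ne

theorem gen3_add {t₁ t₂ : ℂ} (h1 : t₁ ∈ L * s.inv s.p1) (k1 : t₁ ∉ L)
    (h2 : t₂ ∈ L * s.inv s.p2) (k2 : t₂ ∉ L) : s.Gen3 L (t₁ + t₂) := by
  obtain ⟨a1, a2⟩ := s.mem_inv_p1.1 h1
  obtain ⟨b1, b2⟩ := s.mem_inv_p2.1 h2
  obtain ⟨c, hc⟩ := s.t_eq
  have hc' : (s.t : ℂ) = 3 * c + 1 := by exact_mod_cast hc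
  have hw := s.c_wb
  refine ⟨by rw [mul_add]; exact add_mem a1 b1, fun h => k2 ?_, fun h => k1 ?_⟩
  · have := sub_mem (add_mem (sub_mem h a2) b2) (s.c_mul_mem c b1)
    rw [c_int] at this
    convert this using 1
    rw [hw, hc']
    ring
  · have := sub_mem (add_mem (sub_mem h b2) a2) (s.c_mul_mem c a1)
    rw [c_int] at this
    convert this using 1
    rw [hw, hc']
    ring

end St

end Pool.Agent.P.MP_20768c_nt.Tz.Cv

end

-- part Cv.C2_p
section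

set_option autoImplicit false

open Complex NumberField IsDedekindDomain Filter Topology
open UpperHalfPlane hiding I
open scoped ComplexConjugate Real MatrixGroups

namespace Pool.Agent.P.MP_20768c_nt.Tz.Cv

open Pool.Agent.P.MP_20768c_nt.Tz.EQ (Lt pr sp IsLat jL qN)

namespace St

variable (s : St) {L : s.Sub} {a b n g : Ideal s.O} {p q : s.Pair} {x ρ : ℂ}

theorem mkP_L (hL : IsUnit L) (h : ρ ∈ L) : (s.mkP L ρ).L = L := by
  unfold mkP
  rw [dif_pos ⟨hL, h⟩]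

theorem mkP_ρ (hL : IsUnit L) (h : ρ ∈ L) : (s.mkP L ρ).ρ = ρ := by
  unfold mkP
  rw [dif_pos ⟨hL, h⟩]

theorem mkP_self (p : s.Pair) : s.mkP p.L p.ρ = p := by
  unfold mkP
  rw [dif_pos ⟨p.unit, p.mem⟩]

theorem one_L : (1 : s.Pair).L = 1 := by
  rfl

theorem one_ρ : (1 : s.Pair).ρ = 1 := by
  rfl

theorem ip_L (ha : a ≠ ⊥) : (s.ip a).L = s.inv a := by
  refine s.mkP_L (s.isUnit_inv ha) ?_
  have h := s.le_mul_inv ha 1 (Submodule.one_le.1 le_rfl)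
  rwa [one_mul] at h

theorem ip_ρ (a : Ideal s.O) : (s.ip a).ρ = 1 := by
  unfold ip mkP
  split_ifs <;> rfl

theorem np_L (β : s.O) : (s.np β).L = 1 := by
  exact s.mkP_L isUnit_one (s.mem_one.2 ⟨β, rfl⟩)

theorem np_ρ (β : s.O) : (s.np β).ρ = s.c β := by
  exact s.mkP_ρ isUnit_one (s.mem_one.2 ⟨β, rfl⟩)

theorem ip_mul (ha : a ≠ ⊥) (hb : b ≠ ⊥) : s.ip (a * b) = s.ip a * s.ip b := by
  refine Pair.ext ?_ ?_
  · rw [mul_L, s.ip_L ha, s.ip_L hb, s.ip_L (mul_ne_zero ha hb), s.inv_mul ha hb]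
  · rw [mul_ρ, ip_ρ, ip_ρ, ip_ρ, mul_one]

theorem ip_top : s.ip ⊤ = 1 := by
  refine Pair.ext ?_ ?_
  · rw [s.ip_L top_ne_bot, inv_top, one_L]
  · rw [ip_ρ, one_ρ]

theorem ip_pow (ha : a ≠ ⊥) (j : ℕ) : s.ip (a ^ j) = s.ip a ^ j := by
  induction j with
  | zero => rw [pow_zero, pow_zero, Ideal.one_eq_top, ip_top]
  | succ j ih => rw [pow_succ, pow_succ, s.ip_mul (pow_ne_zero j ha) ha, ih]

theorem np_mul (β β' : s.O) : s.np (β * β') = s.np β * s.np β' := by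
  refine Pair.ext ?_ ?_
  · rw [mul_L, np_L, np_L, np_L, mul_one]
  · rw [mul_ρ, np_ρ, np_ρ, np_ρ, c_mul]

theorem np_one : s.np 1 = 1 := by
  refine Pair.ext ?_ ?_
  · rw [np_L, one_L]
  · rw [np_ρ, one_ρ, c_one]

theorem cl_eq : s.cl n p = s.cl n q ↔ ∃ x, s.Sim n x p q := by
  exact (s.rel n).eq

theorem cl_out (C : s.Pr n) : s.cl n (s.out C) = C := by
  exact Quotient.out_eq C

theorem Sim.mono {s : St} {n g : Ideal s.O} {x : ℂ} {p q : s.Pair} (h : s.Sim n x p q)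
    (hle : n ≤ g) : s.Sim g x p q := by
  exact ⟨h.1, h.2.1, (s.mul_le_mul_unit q.unit).2 (s.idl_le.2 hle) h.2.2⟩

theorem Sim.mul {s : St} {n : Ideal s.O} {x : ℂ} {p q : s.Pair} (h : s.Sim n x p q)
    (r : s.Pair) : s.Sim n x (p * r) (q * r) := by
  refine ⟨h.1, by rw [mul_L, mul_L, h.2.1, mul_assoc], ?_⟩
  rw [mul_L, mul_ρ, mul_ρ, ← mul_assoc, ← mul_assoc, ← sub_mul]
  exact Submodule.mul_mem_mul h.2.2 r.mem

theorem sim_add (p : s.Pair) {l : ℂ} (hl : l ∈ s.idl n * p.L) :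
    s.Sim n 1 p (s.mkP p.L (p.ρ + l)) := by
  have hm : p.ρ + l ∈ p.L := add_mem p.mem (s.idl_mul_le n p.L hl)
  refine ⟨one_ne_zero, by rw [s.mkP_L p.unit hm, sc_one, one_mul], ?_⟩
  rw [s.mkP_L p.unit hm, s.mkP_ρ p.unit hm, one_mul, add_sub_cancel_left]
  exact hl

theorem sim_np {β β' : s.O} (h : β - β' ∈ n) (p : s.Pair) : s.Sim n 1 (p * s.np β') (p * s.np β) := by
  refine ⟨one_ne_zero, by rw [mul_L, mul_L, np_L, np_L, sc_one, one_mul], ?_⟩
  rw [mul_L, mul_ρ, mul_ρ, np_L, np_ρ, np_ρ, one_mul, mul_one, ← mul_sub, ← c_sub, mul_comm p.ρ]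
  exact s.mul_mem_idl h p.mem

theorem cl_mono (hle : n ≤ g) (h : s.cl n p = s.cl n q) : s.cl g p = s.cl g q := by
  obtain ⟨x, hx⟩ := s.cl_eq.1 h
  exact s.cl_eq.2 ⟨x, hx.mono hle⟩

theorem Inv.of_cl {β : Type} {s : St} {n : Ideal s.O} {Φ : s.Pair → β} (h : s.Inv n Φ)
    {p q : s.Pair} (e : s.cl n p = s.cl n q) : Φ p = Φ q := by
  obtain ⟨x, hx⟩ := s.cl_eq.1 e
  exact (h x p q hx).symm

theorem Inv.mono {β : Type} {s : St} {n g : Ideal s.O} {Φ : s.Pair → β} (h : s.Inv g Φ)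
    (hle : n ≤ g) : s.Inv n Φ := by
  exact fun x p q h' => h x p q (h'.mono hle)

theorem IsWt.mono {s : St} {n g : Ideal s.O} {ω : s.Pair → ℂ} (h : s.IsWt g ω) (hle : n ≤ g) :
    s.IsWt n ω := by
  exact ⟨fun x p q h' => h.1 x p q (h'.mono hle), h.2⟩

theorem idOf_spec (p : s.Pair) : s.idl (s.idOf p) * p.L = s.sc p.ρ := by
  obtain ⟨M, hM⟩ := p.unit.exists_right_inv
  have e : s.sc p.ρ * M * p.L = s.sc p.ρ := by rw [mul_assoc, mul_comm M, hM, mul_one]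
  have e1 : s.sc p.ρ / p.L = s.sc p.ρ * M := by
    refine eq_of_forall_le_iff fun J => ?_
    rw [Submodule.le_div_iff_mul_le, ← s.mul_le_mul_unit p.unit (B := s.sc p.ρ * M), e]
  have e2 : s.sc p.ρ * M ≤ 1 := by
    rw [← s.mul_le_mul_unit p.unit, e, one_mul]
    exact (Submodule.span_singleton_le_iff_mem _ _).2 p.mem
  obtain ⟨a, ha⟩ := s.exists_idl e2
  have e3 : s.idOf p = a := by
    unfold idOf
    rw [e1, ha]
    exact Submodule.comap_map_eq_of_injective s.c_inj a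
  rw [e3, ← ha, e]

theorem idOf_le : s.idOf p ≤ a ↔ p.ρ ∈ s.idl a * p.L := by
  rw [← s.idl_le, ← s.mul_le_mul_unit p.unit, idOf_spec]
  exact Submodule.span_singleton_le_iff_mem _ _

theorem c2_p_idOf_eq (h : s.idl a * p.L = s.sc p.ρ) : s.idOf p = a := by
  rw [← s.idOf_spec p] at h
  exact le_antisymm (s.idl_le.1 ((s.mul_le_mul_unit p.unit).1 h.ge))
    (s.idl_le.1 ((s.mul_le_mul_unit p.unit).1 h.le))

theorem idOf_ip (ha : a ≠ ⊥) : s.idOf (s.ip a) = a := by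
  refine s.c2_p_idOf_eq ?_
  rw [s.ip_L ha, ip_ρ, s.idl_inv ha, sc_one]

theorem idOf_np (β : s.O) : s.idOf (s.np β) = Ideal.span {β} := by
  refine s.c2_p_idOf_eq ?_
  rw [np_L, np_ρ, idl_span, mul_one]

theorem idOf_mul (p q : s.Pair) : s.idOf (p * q) = s.idOf p * s.idOf q := by
  refine s.c2_p_idOf_eq ?_
  rw [mul_L, mul_ρ, idl_mul, mul_mul_mul_comm, idOf_spec, idOf_spec, sc_mul]

theorem idOf_eq_bot : s.idOf p = ⊥ ↔ p.ρ = 0 := by
  rw [← le_bot_iff, idOf_le]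
  unfold idl
  rw [Submodule.map_bot, Submodule.bot_mul, Submodule.mem_bot]

theorem sim_ip (n : Ideal s.O) (h : p.ρ ≠ 0) : s.Sim n p.ρ (s.ip (s.idOf p)) p := by
  have ha : s.idOf p ≠ ⊥ := fun e => h (s.idOf_eq_bot.1 e)
  refine ⟨h, ?_, ?_⟩
  · rw [s.ip_L ha, ← s.idOf_spec p, mul_right_comm, s.idl_inv ha, one_mul]
  · rw [ip_ρ, mul_one, sub_self]
    exact zero_mem _

theorem cl_ip_idOf (n : Ideal s.O) (h : p.ρ ≠ 0) : s.cl n (s.ip (s.idOf p)) = s.cl n p := by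
  exact s.cl_eq.2 ⟨_, s.sim_ip n h⟩

theorem cl_ip_span (n : Ideal s.O) {β : s.O} (h : β ≠ 0) :
    s.cl n (s.ip (Ideal.span {β})) = s.cl n (s.np β) := by
  have e := s.cl_ip_idOf n (p := s.np β) (by rw [np_ρ]; exact s.c_ne h)
  rwa [idOf_np] at e

theorem c2_p_unit_iff : IsUnit (s.cl n p) ↔ s.idOf p ⊔ n = ⊤ := by
  constructor
  · intro h
    obtain ⟨C, hC⟩ := h.exists_right_inv
    rw [← s.cl_out C, ← map_mul, ← map_one (s.cl n)] at hC
    obtain ⟨x, -, h1, h2⟩ := s.cl_eq.1 hC.symm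
    set r := p * s.out C with hr
    rw [one_L, mul_one] at h1
    rw [one_ρ, mul_one] at h2
    have a1 : r.ρ ∈ s.idl (s.idOf r ⊔ n) * r.L := s.idOf_le.1 le_sup_left
    have a2 : r.ρ - x ∈ s.idl (s.idOf r ⊔ n) * r.L :=
      (s.mul_le_mul_unit r.unit).2 (s.idl_le.2 le_sup_right) h2
    have a3 := sub_mem a1 a2
    rw [sub_sub_cancel] at a3
    have a4 : s.idl ⊤ * r.L ≤ s.idl (s.idOf r ⊔ n) * r.L := by
      rw [idl_top, one_mul]
      exact h1.le.trans ((Submodule.span_singleton_le_iff_mem _ _).2 a3)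
    have a5 := s.idl_le.1 ((s.mul_le_mul_unit r.unit).1 a4)
    refine top_le_iff.1 (a5.trans (sup_le_sup_right ?_ n))
    rw [hr, idOf_mul]
    exact Ideal.mul_le_left
  · intro h
    obtain ⟨β, hβ, γ, hγ, e⟩ := Submodule.mem_sup.1 ((Ideal.eq_top_iff_one _).1 h)
    obtain ⟨M, hM⟩ := p.unit.exists_right_inv
    have hu : IsUnit M := IsUnit.of_mul_eq_one_right _ hM
    have e1 : s.idl (s.idOf p) = s.sc p.ρ * M := by
      rw [← s.idOf_spec p, mul_assoc, hM, mul_one]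
    obtain ⟨z, hz, e2⟩ := s.mem_sc_mul.1 (e1 ▸ s.c_mem_idl.2 hβ)
    have e3 : p * s.mkP M z = s.np β := by
      refine Pair.ext ?_ ?_
      · rw [mul_L, s.mkP_L hu hz, hM, np_L]
      · rw [mul_ρ, s.mkP_ρ hu hz, e2, np_ρ]
    have e4 : s.cl n (1 * s.np β) = s.cl n (1 * s.np 1) :=
      s.cl_eq.2 ⟨1, s.sim_np (by rw [← e, add_sub_cancel_left]; exact hγ) 1⟩
    rw [one_mul, one_mul, np_one, map_one, ← e3, map_mul] at e4
    exact IsUnit.of_mul_eq_one _ e4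

theorem unit_cl (hn : n ≠ ⊥) : IsUnit (s.cl n p) ↔ IsCoprime (s.idOf p) n := by
  rw [c2_p_unit_iff, Ideal.isCoprime_iff_sup_eq]

theorem unit_mono (hle : n ≤ g) (h : IsUnit (s.cl n p)) : IsUnit (s.cl g p) := by
  rw [c2_p_unit_iff] at h ⊢
  exact top_le_iff.1 (h ▸ sup_le_sup_left hle _)

theorem unit_not_mem (h : IsUnit (s.cl n p)) (hle : n ≤ g) (hg : g ≠ ⊤) :
    p.ρ ∉ s.idl g * p.L := by
  intro hm
  rw [c2_p_unit_iff] at h
  exact hg (top_le_iff.1 (h ▸ sup_le (s.idOf_le.2 hm) hle))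

theorem unit_out (C : (s.Pr n)ˣ) : IsUnit (s.cl n (s.out C.1)) := by
  rw [cl_out]
  exact C.isUnit

end St

end Pool.Agent.P.MP_20768c_nt.Tz.Cv

end

-- part Cv.H1a_p
section

set_option autoImplicit false

open Complex NumberField IsDedekindDomain Filter Topology
open UpperHalfPlane hiding I
open scoped ComplexConjugate Real MatrixGroups

namespace Pool.Agent.P.MP_20768c_nt.Tz.Cv

open Pool.Agent.P.MP_20768c_nt.Tz.EQ (Lt pr sp IsLat jL qN)

theorem h1ap_sq {F : Type} [Field F] [Fintype F] [DecidableEq F] (hF : ringChar F ≠ 2)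
    {ψ : AddChar F ℂ} (hψ : ψ.IsPrimitive) {a : F} (ha : a ≠ 0) :
    ∑ x : F, ψ (a * x ^ 2) = (quadraticChar F a : ℂ) *
      gaussSum ((quadraticChar F).ringHomComp (Int.castRingHom ℂ)) ψ := by
  have h1 : ∑ x : F, ψ (a * x ^ 2) = ∑ t : F, ((quadraticChar F t : ℂ) + 1) * ψ (a * t) := by
    rw [← Finset.sum_fiberwise (s := Finset.univ) (g := fun x : F => x ^ 2)]
    refine Finset.sum_congr rfl fun t _ => ?_
    rw [Finset.sum_congr rfl (g := fun _ => ψ (a * t)) fun x hx => by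
      rw [(Finset.mem_filter.1 hx).2], Finset.sum_const, nsmul_eq_mul]
    have h2 := quadraticChar_card_sqrts hF t
    rw [Set.toFinset_ofPred] at h2
    congr 1
    exact_mod_cast h2
  have h3 : ∑ t : F, ψ (a * t) = 0 := by
    have h4 := AddChar.sum_mulShift a hψ
    rw [if_neg ha] at h4
    simpa only [mul_comm a, Nat.cast_zero] using h4
  have h5 := gaussSum_mulShift ((quadraticChar F).ringHomComp (Int.castRingHom ℂ)) ψ
    (Units.mk0 a ha)
  have h6 : (quadraticChar F a : ℂ) ^ 2 = 1 := by exact_mod_cast quadraticChar_sq_one ha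
  rw [h1, ← h5]
  simp only [add_mul, one_mul, Finset.sum_add_distrib, h3, add_zero, Units.val_mk0,
    MulChar.ringHomComp_apply, eq_intCast, gaussSum, AddChar.mulShift_apply]
  rw [← mul_assoc, ← sq, h6, one_mul]

theorem h1ap_bin {F : Type} [Field F] [Fintype F] [DecidableEq F] (hF : ringChar F ≠ 2)
    {ψ : AddChar F ℂ} (hψ : ψ.IsPrimitive) {α β γ b : F} (hα : α ≠ 0) (hb : b ≠ 0)
    (hD : β ^ 2 - 4 * α * γ ≠ 0) :
    ∑ x : F, ∑ y : F, ψ (b * (α * x ^ 2 + β * x * y + γ * y ^ 2)) =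
      Fintype.card F * (quadraticChar F (β ^ 2 - 4 * α * γ) : ℂ) := by
  have h2 : (2 : F) ≠ 0 := Ring.two_ne_zero hF
  have h4 : (4 : F) ≠ 0 := by
    have : (4 : F) = 2 * 2 := by norm_num
    rw [this]
    exact mul_ne_zero h2 h2
  set c : F := -(b * (β ^ 2 - 4 * α * γ) / (4 * α)) with hc
  have hc0 : c ≠ 0 := neg_ne_zero.2 (div_ne_zero (mul_ne_zero hb hD) (mul_ne_zero h4 hα))
  have h1 : ∀ y : F, ∑ x : F, ψ (b * (α * x ^ 2 + β * x * y + γ * y ^ 2)) =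
      (∑ x : F, ψ (b * α * x ^ 2)) * ψ (c * y ^ 2) := fun y => by
    rw [Finset.sum_mul]
    refine Fintype.sum_equiv (Equiv.addRight (β * y / (2 * α))) _ _ fun x => ?_
    rw [← AddChar.map_add_eq_mul, Equiv.coe_addRight, hc]
    congr 1
    have : (4 : F) = 2 * 2 := by norm_num
    rw [this]
    field_simp
    ring
  rw [Finset.sum_comm, Finset.sum_congr rfl fun y _ => h1 y, ← Finset.mul_sum,
    h1ap_sq hF hψ (mul_ne_zero hb hα), h1ap_sq hF hψ hc0]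
  have h5 := gaussSum_sq ((MulChar.ringHomComp_ne_one_iff (f := Int.castRingHom ℂ)
    (RingHom.injective_int _)).2 (quadraticChar_ne_one hF))
    ((quadraticChar_isQuadratic F).comp _) hψ
  have h6 : quadraticChar F (b * α) * quadraticChar F c * quadraticChar F (-1) =
      quadraticChar F (β ^ 2 - 4 * α * γ) := by
    have h7 : b * α * c * -1 = (b / 2) ^ 2 * (β ^ 2 - 4 * α * γ) := by
      rw [hc]
      have : (4 : F) = 2 * 2 := by norm_num
      rw [this]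
      field_simp
    rw [← map_mul, ← map_mul, h7, map_mul, quadraticChar_sq_one' (div_ne_zero hb h2), one_mul]
  have h8 : (quadraticChar F (b * α) : ℂ) * quadraticChar F c * quadraticChar F (-1) =
      quadraticChar F (β ^ 2 - 4 * α * γ) := by exact_mod_cast h6
  rw [MulChar.ringHomComp_apply, eq_intCast] at h5
  rw [← h8]
  linear_combination (quadraticChar F (b * α) : ℂ) * quadraticChar F c * h5

theorem h1ap_range {d : ℕ} [NeZero d] (f : ZMod d → ℂ) :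
    ∑ x ∈ Finset.range d, f x = ∑ x : ZMod d, f x :=
  Finset.sum_nbij' (fun x => (x : ZMod d)) ZMod.val (fun _ _ => Finset.mem_univ _)
    (fun x _ => Finset.mem_range.2 (ZMod.val_lt x))
    (fun _ hx => ZMod.val_cast_of_lt (Finset.mem_range.1 hx))
    (fun x _ => ZMod.natCast_zmod_val x) fun _ _ => rfl

theorem gauss_bin {d : ℕ} (hd : d.Prime) (h2 : d ≠ 2) {α β γ b : ℤ} (hα : ¬ (d : ℤ) ∣ α)
    (hb : ¬ (d : ℤ) ∣ b) (hD : ¬ (d : ℤ) ∣ β ^ 2 - 4 * α * γ) :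
    ∑ x ∈ Finset.range d, ∑ y ∈ Finset.range d,
      cexp (2 * π * I * (b * (α * x ^ 2 + β * x * y + γ * y ^ 2)) / d) =
        d * (jacobiSym (β ^ 2 - 4 * α * γ) d : ℂ) := by
  have : Fact d.Prime := ⟨hd⟩
  have hF : ringChar (ZMod d) ≠ 2 := by rwa [ZMod.ringChar_zmod_n]
  have e : ∀ {t : ℤ}, ¬ (d : ℤ) ∣ t → (t : ZMod d) ≠ 0 := fun ht h0 =>
    ht ((ZMod.intCast_zmod_eq_zero_iff_dvd _ _).1 h0)
  have hD' := e hD
  have e2 : ((β ^ 2 - 4 * α * γ : ℤ) : ZMod d) = (β : ZMod d) ^ 2 - 4 * α * γ := by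
    push_cast
    ring
  rw [e2] at hD'
  have h1 := h1ap_bin hF (ZMod.isPrimitive_stdAddChar d) (e hα) (e hb) hD'
  rw [ZMod.card, ← e2] at h1
  rw [← jacobiSym.legendreSym.to_jacobiSym, legendreSym, ← h1, ← h1ap_range]
  refine Finset.sum_congr rfl fun x _ => ?_
  rw [← h1ap_range]
  refine Finset.sum_congr rfl fun y _ => ?_
  have h3 := ZMod.stdAddChar_coe (N := d) (b * (α * x ^ 2 + β * x * y + γ * y ^ 2))
  push_cast at h3
  exact h3.symm

theorem Th_shift (L : Lt) (A : ℝ) (z e r : ℂ) {τ τ' : ℍ} (h : (τ' : ℂ) = τ + r)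
    (he : ∀ l ∈ L, cexp (2 * π * I * r * ((z + l) * conj (z + l)) / A) = e) :
    Th L A z τ' = e * Th L A z τ := by
  unfold Th th1
  rw [← tsum_mul_left]
  refine tsum_congr fun l => ?_
  rw [← he l l.2, h, mul_left_comm (cexp _), ← Complex.exp_add]
  congr 2
  ring

namespace St

variable (s : St) {L : s.Sub} {N : ℕ} {ρ : ℂ}

theorem h1ap_ab (β : s.O) : ∃ a b : ℤ, s.c β = a + b * s.c s.w := by
  obtain ⟨a, b, rfl⟩ := s.span β
  exact ⟨a, b, by rw [s.c_add, s.c_mul, s.c_int, s.c_int]⟩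

theorem h1ap_real (hL : IsUnit L) {x : ℂ} (hx : x ∈ L) : ∃ a : ℤ, x * conj x = s.nL L * a := by
  obtain ⟨β, hβ⟩ := s.mul_conj_mem hL hx hx
  obtain ⟨a, b, hab⟩ := s.h1ap_ab β
  have h1 := congrArg Complex.im hβ
  have h2 : 0 < (s.c s.w).im := s.w_im
  rw [hab, Complex.mul_conj] at h1
  have h3 : b = 0 := by
    have h4 := (s.nL_pos hL).ne'
    simpa [h4, h2.ne'] using h1
  exact ⟨a, by rw [hβ, hab, h3, Int.cast_zero, zero_mul, add_zero]⟩

theorem exists_form (hL : IsUnit L) : ∃ (ω₁ ω₂ : ℂ) (α β γ : ℤ), 0 < α ∧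
    β ^ 2 - 4 * α * γ = -s.dd ∧ (∀ x y : ℤ, (x : ℂ) * ω₁ + y * ω₂ ∈ L ∧
      (x * ω₁ + y * ω₂) * conj ((x : ℂ) * ω₁ + y * ω₂) =
        s.nL L * (α * x ^ 2 + β * x * y + γ * y ^ 2)) ∧
    (∀ z ∈ L, ∃ x y : ℤ, z = x * ω₁ + y * ω₂) ∧
    ∀ x y : ℤ, (x : ℂ) * ω₁ + y * ω₂ = 0 → x = 0 ∧ y = 0 := by
  obtain ⟨c, τ, hc, e⟩ := s.isLat_zl hL
  have hm : ∀ z, z ∈ L ↔ ∃ x y : ℤ, z = x * c + y * (c * τ) := fun z => by
    rw [← s.mem_zl, e, Pool.Agent.P.MP_20768c_nt.Tz.EQ.mem_sp]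
  have m1 : c ∈ L := (hm _).2 ⟨1, 0, by simp⟩
  have m2 : c * τ ∈ L := (hm _).2 ⟨0, 1, by simp⟩
  obtain ⟨α, hα⟩ := s.h1ap_real hL m1
  obtain ⟨γ, hγ⟩ := s.h1ap_real hL m2
  obtain ⟨δ, hδ⟩ := s.mul_conj_mem hL m1 m2
  obtain ⟨a, b, hab⟩ := s.h1ap_ab δ
  have hn := s.nL_pos hL
  have hn' : (s.nL L : ℂ) ≠ 0 := Complex.ofReal_ne_zero.2 hn.ne'
  have hδ' : conj c * (c * τ) = s.nL L * (a + b * (s.t - s.c s.w)) := by
    have h1 := congrArg conj hδ
    rw [hab, map_mul, Complex.conj_conj] at h1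
    rw [h1, map_mul, map_add, map_mul, s.conj_w, s.c_wb, Complex.conj_ofReal, map_intCast, map_intCast]
  rw [hab] at hδ
  refine ⟨c, c * τ, α, 2 * a + s.t * b, γ, ?_, ?_, fun x y => ⟨(hm _).2 ⟨x, y, rfl⟩, ?_⟩,
    fun z hz => (hm z).1 hz, fun x y h => ?_⟩
  · rw [Complex.mul_conj] at hα
    have h1 : Complex.normSq c = s.nL L * α := by exact_mod_cast hα
    have h2 := Complex.normSq_pos.2 hc
    rw [h1] at h2
    exact_mod_cast (mul_pos_iff_of_pos_left hn).1 h2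
  · have h0 : (0 : ℝ) < ar (s.zl 1) := ar_pos (s.isLat_zl isUnit_one)
    have h1 : ‖c‖ ^ 2 * τ.im = s.nL L * (Real.sqrt s.dd / 2) := by
      rw [← ar_sp hc, ← e, ← s.ar_one, nL, div_mul_cancel₀ _ h0.ne']
    have h2 : (c * conj c) * τ.im = s.nL L * ((Real.sqrt s.dd : ℝ) / 2) := by
      rw [Complex.mul_conj, Complex.normSq_eq_norm_sq]
      exact_mod_cast h1
    have h3 : ((Real.sqrt s.dd : ℝ) : ℂ) ^ 2 = s.dd := by
      exact_mod_cast Real.sq_sqrt (Nat.cast_nonneg s.dd)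
    have h4 : (τ : ℂ) - conj (τ : ℂ) = 2 * τ.im * I := by
      rw [Complex.sub_conj, coe_im]
      push_cast
      ring
    have h5 : ((2 * a + s.t * b : ℂ) ^ 2 - 4 * α * γ) = -s.dd := by
      refine mul_left_cancel₀ (pow_ne_zero 2 hn') ?_
      have h6 : c * conj (c * τ) + conj c * (c * τ) = s.nL L * (2 * a + s.t * b) := by
        rw [hδ, hδ']
        ring
      have h7 : (s.nL L : ℂ) ^ 2 * ((2 * a + s.t * b : ℂ) ^ 2 - 4 * α * γ) =
          (s.nL L * (2 * a + s.t * b)) ^ 2 - 4 * (s.nL L * α) * (s.nL L * γ) := by ring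
      have h8 : (c * conj (c * τ) + conj c * (c * τ)) ^ 2 -
          4 * (c * conj c) * (c * τ * conj (c * τ)) = (c * conj c * (τ - conj (τ : ℂ))) ^ 2 := by
        rw [map_mul]
        ring
      have h9 : c * conj c * (2 * τ.im * I) = 2 * I * (c * conj c * τ.im) := by ring
      rw [h7, ← h6, ← hα, ← hγ, h8, h4, h9, h2]
      linear_combination (s.nL L : ℂ) ^ 2 * ((Real.sqrt s.dd : ℝ) : ℂ) ^ 2 * Complex.I_sq -
        (s.nL L : ℂ) ^ 2 * h3
    exact_mod_cast h5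
  · rw [map_add, map_mul, map_mul (starRingEnd ℂ) (y : ℂ), map_intCast, map_intCast]
    push_cast
    linear_combination (x : ℂ) ^ 2 * hα + (y : ℂ) ^ 2 * hγ + x * y * hδ + x * y * hδ'
  · have h1 : (y : ℂ) * τ + x = 0 := by
      refine mul_left_cancel₀ hc ?_
      linear_combination h
    exact (Pool.Agent.P.MP_20768c_nt.Tz.EQ.int_indep_lat τ h1).symm

theorem gauss_lat (hL : IsUnit L) : ∃ B : ℕ, ∀ d : ℕ, d.Prime → B < d → ∀ (b : ℤ) (R : Finset ℂ),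
    ¬ (d : ℤ) ∣ b → Reps (s.zl (s.sc d * L)) (s.zl L) R →
    ∑ y ∈ R, cexp (2 * π * I * (b * (y * conj y / s.nL L)) / d) = d * (s.kr d : ℂ) := by
  classical
  obtain ⟨ω₁, ω₂, α, β, γ, hα, hD, hQ, hs, hi⟩ := s.exists_form hL
  refine ⟨α.toNat + s.dd + 2, fun d hd hB b R hb hR => ?_⟩
  have hn' : (s.nL L : ℂ) ≠ 0 := Complex.ofReal_ne_zero.2 (s.nL_pos hL).ne'
  have hd0 : (d : ℂ) ≠ 0 := Nat.cast_ne_zero.2 hd.pos.ne'
  have hd1 : (0 : ℤ) < d := Nat.cast_pos.2 hd.pos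
  have hdd : 0 < s.dd := by
    have := s.dd_ge
    omega
  have hm : ∀ z, z ∈ s.zl (s.sc d * L) ↔ ∃ x y : ℤ, z = d * (x * ω₁ + y * ω₂) := fun z => by
    rw [s.mem_zl, s.mem_sc_mul]
    constructor
    · rintro ⟨t, ht, rfl⟩
      obtain ⟨x, y, rfl⟩ := hs t ht
      exact ⟨x, y, rfl⟩
    · rintro ⟨x, y, rfl⟩
      exact ⟨_, (hQ x y).1, rfl⟩
  have hu : ∀ x y x' y' : ℕ, x < d → y < d → x' < d → y' < d →
      ((x : ℂ) * ω₁ + y * ω₂) - (x' * ω₁ + y' * ω₂) ∈ s.zl (s.sc d * L) → x = x' ∧ y = y' := by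
    intro x y x' y' hx hy hx' hy' h
    obtain ⟨p, q, e⟩ := (hm _).1 h
    obtain ⟨h1, h2⟩ := hi (x - x' - d * p) (y - y' - d * q) (by
      push_cast
      linear_combination e)
    have h3 : ∀ (u v : ℕ) (t : ℤ), u < d → v < d → (u : ℤ) - v - d * t = 0 → u = v := by
      intro u v t hu hv h
      have h4 : (u : ℤ) % d = (v : ℤ) % d := by
        rw [show (u : ℤ) = v + d * t by linear_combination h, Int.add_mul_emod_self_left]
      rw [Int.emod_eq_of_lt (Nat.cast_nonneg _) (Nat.cast_lt.2 hu),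
        Int.emod_eq_of_lt (Nat.cast_nonneg _) (Nat.cast_lt.2 hv)] at h4
      exact_mod_cast h4
    exact ⟨h3 x x' p hx hx' h1, h3 y y' q hy hy' h2⟩
  set g : ℕ × ℕ → ℂ := fun p => (p.1 : ℂ) * ω₁ + p.2 * ω₂ with hg
  have hR' : Reps (s.zl (s.sc d * L)) (s.zl L) ((Finset.range d ×ˢ Finset.range d).image g) := by
    refine ⟨hR.1, Finset.mem_image.2 ⟨(0, 0), by simpa using hd.pos, by simp [hg]⟩,
      fun r hr => ?_, fun z hz => ?_⟩
    · obtain ⟨p, -, rfl⟩ := Finset.mem_image.1 hr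
      have h1 := (hQ p.1 p.2).1
      rw [Int.cast_natCast, Int.cast_natCast] at h1
      exact s.mem_zl.2 h1
    · obtain ⟨x, y, rfl⟩ := hs z (s.mem_zl.1 hz)
      have h1 : ∀ t : ℤ, ∃ (u : ℕ) (k : ℤ), u < d ∧ (t : ℂ) = u + d * k := fun t => by
        obtain ⟨u, hu⟩ := Int.eq_ofNat_of_zero_le (Int.emod_nonneg t hd1.ne')
        refine ⟨u, t / d, ?_, ?_⟩
        · have h2 := Int.emod_lt_of_pos t hd1
          rw [hu] at h2
          exact_mod_cast h2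
        · have h2 := Int.emod_add_mul_ediv t d
          rw [hu] at h2
          exact_mod_cast h2.symm
      obtain ⟨u, k, hu1, hu2⟩ := h1 x
      obtain ⟨v, l, hv1, hv2⟩ := h1 y
      have h3 : (x : ℂ) * ω₁ + y * ω₂ - g (u, v) ∈ s.zl (s.sc d * L) :=
        (hm _).2 ⟨k, l, by
          simp only [hg]
          rw [hu2, hv2]
          ring⟩
      refine ⟨g (u, v), ⟨Finset.mem_image_of_mem _ (Finset.mem_product.2
        ⟨Finset.mem_range.2 hu1, Finset.mem_range.2 hv1⟩), h3⟩, fun r hr => ?_⟩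
      obtain ⟨p, hp, rfl⟩ := Finset.mem_image.1 hr.1
      obtain ⟨hp1, hp2⟩ := Finset.mem_product.1 hp
      have h4 := sub_mem h3 hr.2
      rw [sub_sub_sub_cancel_left] at h4
      obtain ⟨h5, h6⟩ := hu _ _ _ _ (Finset.mem_range.1 hp1) (Finset.mem_range.1 hp2) hu1 hv1 h4
      rw [← h5, ← h6]
  have hf : ∀ x y : ℤ, cexp (2 * π * I * (b * (((x : ℂ) * ω₁ + y * ω₂) *
      conj ((x : ℂ) * ω₁ + y * ω₂) / s.nL L)) / d) =
      cexp (2 * π * I * (b * (α * x ^ 2 + β * x * y + γ * y ^ 2)) / d) := fun x y => by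
    rw [(hQ x y).2, mul_div_cancel_left₀ _ hn']
  rw [hR.sum_congr hR' (fun y => cexp (2 * π * I * (b * (y * conj y / s.nL L)) / d)),
    Finset.sum_image, Finset.sum_product]
  · have h1 := gauss_bin hd (by omega) (α := α) (β := β) (γ := γ)
      (fun h => by have := Int.le_of_dvd hα h; omega) hb
      (fun h => by
        rw [hD, dvd_neg] at h
        have := Int.le_of_dvd (Nat.cast_pos.2 hdd) h
        omega)
    rw [hD, ← s.kr_nat (hd.odd_of_ne_two (by omega))] at h1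
    rw [← h1]
    refine Finset.sum_congr rfl fun x _ => Finset.sum_congr rfl fun y _ => ?_
    have h2 := hf x y
    rw [Int.cast_natCast, Int.cast_natCast] at h2
    exact h2
  · intro p hp q hq e
    obtain ⟨hp1, hp2⟩ := Finset.mem_product.1 hp
    obtain ⟨hq1, hq2⟩ := Finset.mem_product.1 hq
    obtain ⟨h1, h2⟩ := hu _ _ _ _ (Finset.mem_range.1 hp1) (Finset.mem_range.1 hp2)
      (Finset.mem_range.1 hq1) (Finset.mem_range.1 hq2) (by
        have e' : (p.1 : ℂ) * ω₁ + p.2 * ω₂ = q.1 * ω₁ + q.2 * ω₂ := e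
        rw [e', sub_self]
        exact zero_mem _)
    exact Prod.ext h1 h2
  · intro a ha l hl
    obtain ⟨x, y, rfl⟩ := hs a (s.mem_zl.1 ha)
    obtain ⟨p, q, rfl⟩ := (hm l).1 hl
    have e : (x : ℂ) * ω₁ + y * ω₂ + d * (p * ω₁ + q * ω₂) =
        ((x + d * p : ℤ) : ℂ) * ω₁ + ((y + d * q : ℤ) : ℂ) * ω₂ := by
      push_cast
      ring
    rw [e, hf, hf]
    refine Complex.exp_eq_exp_iff_exists_int.2 ⟨b * (α * (2 * x * p + d * p ^ 2) +
      β * (x * q + p * y + d * p * q) + γ * (2 * y * q + d * q ^ 2)), ?_⟩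
    push_cast
    field_simp
    ring

end St

end Pool.Agent.P.MP_20768c_nt.Tz.Cv

end

-- part Cv.G2a
section

set_option autoImplicit false

open Complex NumberField IsDedekindDomain Filter Topology
open UpperHalfPlane hiding I
open scoped ComplexConjugate Real MatrixGroups

namespace Pool.Agent.P.MP_20768c_nt.Tz.Cv

open Pool.Agent.P.MP_20768c_nt.Tz.EQ (Lt pr sp IsLat jL qN)

variable {L : Lt} {c : ℕ} {z x : ℂ}

theorem g2a_nat (c : ℕ) (hz : z ∈ L) : (c : ℂ) * z ∈ L := by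
  have := L.smul_mem (c : ℤ) hz
  rwa [zsmul_eq_mul, Int.cast_natCast] at this

theorem g2a_reps {L' : Lt} {R : Finset ℂ} (h : IsLat L) (h' : IsLat L') (hR : Reps L L' R)
    (z : ℂ) : eF L' z = ∑ r ∈ R, eF L (z + r) := by
  simp only [eF]
  rw [← MeasureTheory.integral_finsetSum _ fun r _ => int_th1 h (z + r)]
  refine MeasureTheory.setIntegral_congr_fun measurableSet_Ioi fun u hu => ?_
  exact th1_reps h' hR z (by simpa using hu)

theorem g2a_prod (h : IsLat L) (hc : 0 < c) (y U : ℂ) :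
    ∏ᶠ e ∈ XS L c, (y / U - e / U) = (∏ᶠ e ∈ XS L c, (y - e)) / U ^ (XS L c).ncard := by
  rw [finprod_mem_eq_finite_toFinset_prod _ (xs_finite h hc),
    finprod_mem_eq_finite_toFinset_prod _ (xs_finite h hc),
    Set.ncard_eq_toFinset_card _ (xs_finite h hc), ← Finset.prod_const, ← Finset.prod_div_distrib]
  exact Finset.prod_congr rfl fun e _ => (sub_div _ _ _).symm

theorem g2a_eq (h : IsLat L) (hc : Odd c) (h3 : c % 3 = 1) {U : ℂ} (hU : U ≠ 0) (z : ℂ) :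
    tht L c z = (dl L / U ^ 6) ^ ((c ^ 2 - 1) / 12) /
      (c * ∏ᶠ e ∈ XS L c, (wp L z / U - e / U)) := by
  have e1 := xs_card h hc
  have e2 : c ^ 2 % 12 = 1 := by
    obtain ⟨j, rfl⟩ := hc
    have : j % 6 = 0 ∨ j % 6 = 3 := by omega
    rw [Nat.pow_mod]
    rcases this with e | e
    · rw [show (2 * j + 1) % 12 = 1 by omega]
    · rw [show (2 * j + 1) % 12 = 7 by omega]
  have e3 : 6 * ((c ^ 2 - 1) / 12) = (XS L c).ncard := by omega
  rw [g2a_prod h hc.pos, div_pow, ← pow_mul, e3, tht, ← mul_div_assoc,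
    div_div_div_cancel_right₀ (pow_ne_zero _ hU)]

theorem g2a_inj (hx : x ≠ 0) (S : Set ℂ) : Set.InjOn (fun e : ℂ => e / x ^ 2) S :=
  fun _ _ _ _ e => (div_left_inj' (pow_ne_zero 2 hx)).1 e

theorem g2a_der {f : ℂ → ℂ} {d : ℂ} (hf : HasDerivAt f d z) (S : Finset ℂ)
    (hS : ∀ e ∈ S, f z - e ≠ 0) : HasDerivAt (fun w => ∏ e ∈ S, (f w - e))
      ((∑ e ∈ S, d / (f z - e)) * ∏ e ∈ S, (f z - e)) z := by
  classical
  induction S using Finset.induction_on with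
  | empty => simpa using hasDerivAt_const z (1 : ℂ)
  | insert a S ha ih =>
    simp only [Finset.prod_insert ha, Finset.sum_insert ha]
    have h1 := hS a (Finset.mem_insert_self _ _)
    refine ((hf.sub_const a).fun_mul (ih fun e he => hS e (Finset.mem_insert_of_mem he))).congr_deriv ?_
    rw [add_mul, ← mul_assoc (d / (f z - a)), div_mul_cancel₀ _ h1]
    ring

theorem ec_eq (h : IsLat L) (hc : Odd c) (hz : c * z ∉ L) :
    ec L c z = c ^ 2 * eF L z - c * eF L (c * z) := by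
  classical
  have hc0 : 0 < c := hc.pos
  have hc' : (c : ℂ) ≠ 0 := Nat.cast_ne_zero.2 hc0.ne'
  have h' : IsLat (pr (c : ℂ)⁻¹ * L) := h.pr_mul (inv_ne_zero hc')
  have hm : ∀ r ∈ pr (c : ℂ)⁻¹ * L, c * r ∈ L := fun r hr => by
    obtain ⟨w, hw, rfl⟩ := Pool.Agent.P.MP_20768c_nt.Tz.EQ.mem_pr_mul.1 hr
    rwa [mul_inv_cancel_left₀ hc']
  obtain ⟨R, hR⟩ := exists_reps h h' fun l hl => Pool.Agent.P.MP_20768c_nt.Tz.EQ.mem_pr_mul.2
    ⟨c * l, g2a_nat c hl, inv_mul_cancel_left₀ hc' l⟩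
  obtain ⟨a, hζ⟩ := isZeta_eF h
  have e1 : c * eF L (c * z) = ∑ r ∈ R, eF L (z + r) := by
    have := eF_sc L (inv_ne_zero hc') (c * z)
    rw [inv_mul_cancel_left₀ hc', div_inv_eq_mul] at this
    rw [mul_comm, ← this, g2a_reps h h' hR]
  have e2 : ∑ r ∈ R, eF L (z + -r) = ∑ r ∈ R, eF L (z + r) :=
    hR.sum_bij (fun r => -r) (fun _ ha => neg_mem ha)
      (fun p _ q _ => by rw [← neg_mem_iff, neg_sub, neg_sub_neg]) (fun r => eF L (z + r))
      fun p _ l hl => by rw [← add_assoc, eF_add L _ hl]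
  have hz0 : z ∉ L := fun h0 => hz (g2a_nat c h0)
  have e3 : ∀ r ∈ R.erase 0, 2 * eF L z - eF L (z + r) - eF L (z + -r) =
      -(wpd L z / (wp L z - wp L r)) := by
    intro r hr
    obtain ⟨hr0, hr⟩ := Finset.mem_erase.1 hr
    have hrL : r ∉ L := fun h0 => hr0 (hR.sub_mem hr hR.2.1 (by rwa [sub_zero]))
    have hcr := hm r (hR.2.2.1 r hr)
    have hp : r + z ∉ L := fun h0 => hz (by
      have := sub_mem (g2a_nat c h0) hcr
      rwa [mul_add, add_sub_cancel_left] at this)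
    have hn : z - r ∉ L := fun h0 => hz (by
      have := add_mem (g2a_nat c h0) hcr
      rwa [mul_sub, sub_add_cancel] at this)
    have hn' : r - z ∉ L := fun h0 => hn (by
      have := neg_mem h0
      rwa [neg_sub] at this)
    have e := hζ.ident h hrL hz0 hp hn'
    have hne : wp L z - wp L r ≠ 0 := sub_ne_zero.2 (xs_ne h hz ⟨r, hcr, hrL, rfl⟩)
    have e' : eF L (r - z) = -eF L (z + -r) := by
      rw [← eF_neg]
      congr 1
      ring
    simp only [e', map_sub, map_add, add_comm r z] at e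
    rw [← neg_div, eq_div_iff hne]
    linear_combination -e
  have e4 := congrArg Multiplicative.toAdd (xs_prod h hc hR
    fun e => Multiplicative.ofAdd (wpd L z / (wp L z - e)))
  rw [finprod_mem_eq_finite_toFinset_prod _ (xs_finite h hc0), toAdd_pow, toAdd_prod,
    toAdd_prod] at e4
  simp only [toAdd_ofAdd] at e4
  have e5 : ∑ r ∈ R, (2 * eF L z - eF L (z + r) - eF L (z + -r)) =
      -∑ r ∈ R.erase 0, wpd L z / (wp L z - wp L r) := by
    rw [← Finset.sum_neg_distrib, ← Finset.sum_congr rfl e3, Finset.sum_erase]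
    rw [neg_zero, add_zero]
    ring
  rw [Finset.sum_sub_distrib, Finset.sum_sub_distrib, e2, ← e1, e4, Finset.sum_const,
    reps_div h hc0 hR, nsmul_eq_mul, nsmul_eq_mul] at e5
  rw [ec, finsum_mem_eq_finite_toFinset_sum _ (xs_finite h hc0)]
  push_cast at e5
  linear_combination (-1 / 2 : ℂ) * e5

theorem tht_add (h : IsLat L) (c : ℕ) (z : ℂ) {l : ℂ} (hl : l ∈ L) :
    tht L c (z + l) = tht L c z := by
  rw [tht, tht, wp_add h z hl]

theorem ec_add (h : IsLat L) (c : ℕ) (z : ℂ) {l : ℂ} (hl : l ∈ L) : ec L c (z + l) = ec L c z := by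
  rw [ec, ec, wp_add h z hl, wpd_add h z hl]

theorem tht_sc (h : IsLat L) (hx : x ≠ 0) (hc : Odd c) (h3 : c % 3 = 1) (z : ℂ) :
    tht (pr x * L) c (x * z) = tht L c z := by
  rw [g2a_eq h hc h3 (pow_ne_zero 2 hx) z, tht, xs_sc L hx, finprod_mem_image (g2a_inj hx _),
    dl_sc L hx, wp_sc L hx, ← pow_mul]

theorem ec_sc (h : IsLat L) (hx : x ≠ 0) (hc : 0 < c) (z : ℂ) :
    ec (pr x * L) c (x * z) = ec L c z / x := by
  rw [ec, ec, xs_sc L hx, finsum_mem_image (g2a_inj hx _), wp_sc L hx, wpd_sc L hx,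
    finsum_mem_eq_finite_toFinset_sum _ (xs_finite h hc),
    finsum_mem_eq_finite_toFinset_sum _ (xs_finite h hc), neg_div, Finset.sum_div]
  refine congrArg Neg.neg (Finset.sum_congr rfl fun e _ => ?_)
  rw [← sub_div, pow_succ' x 2, ← div_div, div_div_div_cancel_right₀ (pow_ne_zero 2 hx),
    div_right_comm]

theorem tht_ne (h : IsLat L) (hc : 0 < c) (hz : c * z ∉ L) : tht L c z ≠ 0 := by
  rw [tht, finprod_mem_eq_finite_toFinset_prod _ (xs_finite h hc)]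
  refine div_ne_zero (pow_ne_zero _ (dl_ne h)) (mul_ne_zero (Nat.cast_ne_zero.2 hc.ne')
    (Finset.prod_ne_zero_iff.2 fun e he => sub_ne_zero.2 (xs_ne h hz ?_)))
  exact (Set.Finite.mem_toFinset _).1 he

theorem hasDerivAt_tht (h : IsLat L) (hc : 0 < c) (hz : c * z ∉ L) :
    HasDerivAt (tht L c) (ec L c z * tht L c z) z := by
  have hS : ∀ e ∈ (xs_finite h hc).toFinset, wp L z - e ≠ 0 := fun e he =>
    sub_ne_zero.2 (xs_ne h hz ((Set.Finite.mem_toFinset _).1 he))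
  have hc' : (c : ℂ) ≠ 0 := Nat.cast_ne_zero.2 hc.ne'
  have hP := Finset.prod_ne_zero_iff.2 hS
  have h1 := (hasDerivAt_const z (dl L ^ ((c ^ 2 - 1) / 12))).fun_div
    ((g2a_der (hasDerivAt_wp h fun h0 => hz (g2a_nat c h0)) _ hS).const_mul (c : ℂ))
    (mul_ne_zero hc' hP)
  have e : tht L c = fun w => dl L ^ ((c ^ 2 - 1) / 12) /
      (c * ∏ e ∈ (xs_finite h hc).toFinset, (wp L w - e)) := funext fun w => by
    rw [tht, finprod_mem_eq_finite_toFinset_prod _ (xs_finite h hc)]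
  rw [e, ec, finsum_mem_eq_finite_toFinset_sum _ (xs_finite h hc)]
  refine h1.congr_deriv ?_
  beta_reduce
  generalize ∏ e ∈ (xs_finite h hc).toFinset, (wp L z - e) = P at hP ⊢
  generalize ∑ e ∈ (xs_finite h hc).toFinset, wpd L z / (wp L z - e) = Q
  generalize dl L ^ ((c ^ 2 - 1) / 12) = K
  field_simp
  ring

theorem tht_eq (h : IsLat L) (hc : Odd c) (h3 : c % 3 = 1) {U : ℂ} (hU : U ≠ 0) (z : ℂ) :
    tht L c z = (dl L / U ^ 6) ^ ((c ^ 2 - 1) / 12) /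
      (c * ∏ᶠ e ∈ XS L c, (wp L z / U - e / U)) := by
  exact g2a_eq h hc h3 hU z

end Pool.Agent.P.MP_20768c_nt.Tz.Cv

end

-- part Cv.G2b
section

set_option autoImplicit false

open Complex NumberField IsDedekindDomain Filter Topology
open UpperHalfPlane hiding I
open scoped ComplexConjugate Real MatrixGroups

namespace Pool.Agent.P.MP_20768c_nt.Tz.Cv

open Pool.Agent.P.MP_20768c_nt.Tz.EQ (Lt pr sp IsLat jL qN)

variable {L M : Lt} {c : ℕ} {z x : ℂ}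

theorem g2b_exp (u : ℝ) (w : ℂ) :
    cexp (-(u : ℂ) * (w * conj w)) = (Real.exp (-u * ‖w‖ ^ 2) : ℝ) := by
  rw [mul_conj, normSq_eq_norm_sq]
  push_cast
  rfl

theorem g2b_th0 (L : Lt) (z : ℂ) (u : ℝ) :
    (th0 L z u).re = ∑' l : L, Real.exp (-u * ‖z + l‖ ^ 2) := by
  simp only [th0, g2b_exp]
  rw [← ofReal_tsum, ofReal_re]

theorem g2b_bd {k u : ℝ} (hk : 0 < k) (hu : 0 < u) :
    1 / u ^ 2 * Real.exp (-(k / u)) ≤ 2 / k ^ 2 := by
  have h1 := Real.quadratic_le_exp_of_nonneg (div_pos hk hu).le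
  have h2 : (k / u) ^ 2 / 2 ≤ Real.exp (k / u) := by linarith [div_pos hk hu]
  rw [Real.exp_neg, ← div_eq_mul_inv, div_le_div_iff₀ (Real.exp_pos _) (by positivity)]
  calc 1 / u ^ 2 * k ^ 2 = 2 * ((k / u) ^ 2 / 2) := by ring
    _ ≤ _ := by linarith

/-- the dual side near zero -/
theorem g2b_dual (h : IsLat L) (n : ℕ) : ∃ C : ℝ, ∀ u : ℝ, 0 < u → u ≤ 1 → ∀ f : L → ℂ,
    (∀ l : L, ‖f l‖ ≤ if (l : ℂ) = 0 then 0 else ‖(l : ℂ)‖ ^ n) →
    1 / u ^ 2 * ‖∑' l : L, f l * cexp (-(π ^ 2 / (ar L ^ 2 * u)) * (l * conj (l : ℂ)))‖ ≤ C := by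
  have ha := ar_pos h
  have hk : 0 < π ^ 2 / ar L ^ 2 := by positivity
  obtain ⟨C, δ, hδ, hC⟩ := gauss_decay h n 0 hk
  refine ⟨|C| * (2 / (δ * (π ^ 2 / ar L ^ 2)) ^ 2), fun u hu hu1 f hf => ?_⟩
  have hs : 0 < π ^ 2 / (ar L ^ 2 * u) := by positivity
  have e : ∀ l : L, cexp (-(π ^ 2 / (ar L ^ 2 * u)) * (l * conj (l : ℂ))) =
      (Real.exp (-(π ^ 2 / (ar L ^ 2 * u)) * ‖(l : ℂ)‖ ^ 2) : ℝ) := by
    intro l
    rw [← g2b_exp]
    push_cast
    rfl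
  have h1 := hC (π ^ 2 / (ar L ^ 2 * u)) (by
    rw [← div_div]
    exact (le_div_iff₀ hu).2 (mul_le_of_le_one_right hk.le hu1))
  have h2 := summable_th h (u := (π ^ 2 / (ar L ^ 2 * u) : ℝ)) (by rwa [ofReal_re]) n 0
  simp only [zero_add, ofReal_re] at h1 h2
  have h3 : Summable fun l : L => if (l : ℂ) = 0 then (0 : ℝ) else
      ‖(l : ℂ)‖ ^ n * Real.exp (-(π ^ 2 / (ar L ^ 2 * u)) * ‖(l : ℂ)‖ ^ 2) := by
    refine Summable.of_nonneg_of_le (fun l => ?_) (fun l => ?_) h2 <;> split_ifs <;>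
      first | positivity | exact le_rfl
  have h4 : ‖∑' l : L, f l * cexp (-(π ^ 2 / (ar L ^ 2 * u)) * (l * conj (l : ℂ)))‖ ≤
      |C| * Real.exp (-(δ * (π ^ 2 / ar L ^ 2) / u)) := by
    refine (tsum_of_norm_bounded h3.hasSum fun l => ?_).trans (h1.trans ?_)
    · rw [e, norm_mul, norm_real, Real.norm_of_nonneg (Real.exp_pos _).le]
      refine (mul_le_mul_of_nonneg_right (hf l) (Real.exp_pos _).le).trans ?_
      split_ifs
      · rw [zero_mul]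
      · exact le_rfl
    · rw [show -δ * (π ^ 2 / (ar L ^ 2 * u)) = -(δ * (π ^ 2 / ar L ^ 2) / u) by
        rw [← div_div]; ring]
      exact mul_le_mul_of_nonneg_right (le_abs_self C) (Real.exp_pos _).le
  calc _ ≤ 1 / u ^ 2 * (|C| * Real.exp (-(δ * (π ^ 2 / ar L ^ 2) / u))) :=
        mul_le_mul_of_nonneg_left h4 (by positivity)
    _ = |C| * (1 / u ^ 2 * Real.exp (-(δ * (π ^ 2 / ar L ^ 2) / u))) := by ring
    _ ≤ _ := mul_le_mul_of_nonneg_left (g2b_bd (by positivity) hu) (abs_nonneg C)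

theorem g2b_meas (h : IsLat L) (z : ℂ) :
    Measurable fun u : ℝ => ((th0 L z u).re - π / (ar L * u)) / u := by
  have := (lat_countable h).to_subtype
  have : Countable L := this
  simp only [g2b_th0]
  have : Measurable fun u : ℝ => ∑' l : L, Real.exp (-u * ‖z + l‖ ^ 2) :=
    Measurable.tsum fun l => by fun_prop
  fun_prop

theorem g2b_int {f : ℝ → ℝ} {C : ℝ} (hf : MeasureTheory.IntegrableOn f (Set.Ioi 1)) :
    MeasureTheory.IntegrableOn (fun u => if u ≤ 1 then C else f u) (Set.Ioi 0) := by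
  rw [← Set.Ioc_union_Ioi_eq_Ioi zero_le_one]
  refine MeasureTheory.IntegrableOn.union ?_ ?_
  · refine (MeasureTheory.integrableOn_const (C := C) (by simp)).congr_fun
      (fun u hu => (if_pos hu.2).symm) measurableSet_Ioc
  · exact hf.congr_fun (fun u hu => (if_neg (not_le.2 hu)).symm) measurableSet_Ioi

theorem int_th0 (h : IsLat L) (hz : z ∉ L) : MeasureTheory.IntegrableOn
    (fun u : ℝ => ((th0 L z u).re - π / (ar L * u)) / u) (Set.Ioi 0) := by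
  classical
  have ha := ar_pos h
  obtain ⟨C0, hC0⟩ := g2b_dual h 0
  obtain ⟨C, δ, hδ, hC⟩ := gauss_decay h 0 z one_pos
  have hi : MeasureTheory.IntegrableOn
      (fun u : ℝ => C * Real.exp (-δ * u) + π / ar L * u ^ (-2 : ℝ)) (Set.Ioi 1) :=
    ((exp_neg_integrableOn_Ioi 1 hδ).const_mul C).add
      ((integrableOn_Ioi_rpow_of_lt (by norm_num) one_pos).const_mul _)
  refine MeasureTheory.Integrable.mono' (g2b_int (C := π / ar L * C0) hi)
    (g2b_meas h z).aestronglyMeasurable ?_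
  refine (MeasureTheory.ae_restrict_iff' measurableSet_Ioi).2 (.of_forall fun u hu => ?_)
  have hu : 0 < u := hu
  split_ifs with h1
  · have hs : Summable fun l : L =>
        pa L l z * cexp (-(π ^ 2 / (ar L ^ 2 * u)) * (l * conj (l : ℂ))) := by
      have := summable_gauss h (u := (π ^ 2 / (ar L ^ 2 * u) : ℝ))
        (by rw [ofReal_re]; positivity) 0 0 0
      refine Summable.of_norm (this.congr fun l => ?_)
      rw [norm_mul, norm_pa]
      simp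
    have e : th0 L z u - π / (ar L * u) = π / (ar L * u) * ∑' l : L,
        (if l = 0 then 0 else pa L l z) *
          cexp (-(π ^ 2 / (ar L ^ 2 * u)) * (l * conj (l : ℂ))) := by
      rw [poisson0 h z (by rwa [ofReal_re]), hs.tsum_eq_add_tsum_ite 0]
      simp [pa, mul_add]
    have h2 := hC0 u hu h1 (fun l => if l = 0 then 0 else pa L l z) fun l => by
      by_cases hl : l = 0 <;> simp [hl, norm_pa]
    have h3 : (th0 L z u).re - π / (ar L * u) = (th0 L z u - π / (ar L * u)).re := by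
      rw [sub_re, ← ofReal_mul, ← ofReal_div, ofReal_re]
    rw [h3, Real.norm_eq_abs, abs_div, abs_of_pos hu]
    refine (div_le_div_of_nonneg_right (abs_re_le_norm _) hu.le).trans ?_
    rw [e, norm_mul, ← ofReal_mul, ← ofReal_div, norm_real, Real.norm_of_nonneg (by positivity)]
    refine le_trans (le_of_eq ?_) (mul_le_mul_of_nonneg_left h2 (by positivity))
    field_simp
  · have h1 : 1 ≤ u := (not_le.1 h1).le
    have h2 := hC u h1
    have h3 : ∀ l : L, z + l ≠ 0 := fun l e =>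
      hz (by rw [eq_neg_of_add_eq_zero_left e]; exact neg_mem l.2)
    simp only [h3, if_false, pow_zero, one_mul] at h2
    have h4 : 0 ≤ ∑' l : L, Real.exp (-u * ‖z + l‖ ^ 2) := tsum_nonneg fun l => (Real.exp_pos _).le
    rw [g2b_th0, sub_div, Real.norm_eq_abs]
    refine (abs_sub _ _).trans (add_le_add ?_ (le_of_eq ?_))
    · rw [abs_of_nonneg (by positivity)]
      exact (div_le_self h4 h1).trans h2
    · rw [abs_of_nonneg (by positivity), Real.rpow_neg hu.le, Real.rpow_two]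
      field_simp

theorem eG_add (L : Lt) (z : ℂ) {l : ℂ} (hl : l ∈ L) : eG L (z + l) = eG L z := by
  have : ∀ u, th0 L (z + l) u = th0 L z u := fun u => by
    rw [th0, th0, ← (Equiv.addLeft (⟨l, hl⟩ : L)).tsum_eq
      fun m : L => cexp (-u * ((z + m) * conj (z + m)))]
    simp only [Equiv.coe_addLeft, Submodule.coe_add, add_assoc]
  simp only [eG, this]

theorem eG_sc (h : IsLat L) (hx : x ≠ 0) (z : ℂ) : eG (pr x * L) (x * z) = eG L z := by
  have hs : 0 < ‖x‖ ^ 2 := by positivity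
  have e : ∀ u : ℝ, th0 (pr x * L) (x * z) u = th0 L z (‖x‖ ^ 2 * u : ℝ) := fun u => by
    rw [th0, tsum_sc L hx fun m => cexp (-u * ((x * z + m) * conj (x * z + m))), th0]
    refine tsum_congr fun l => congrArg cexp ?_
    rw [← mul_add, map_mul, ← normSq_eq_norm_sq, ofReal_mul, ← mul_conj]
    ring
  have i := MeasureTheory.integral_comp_mul_left_Ioi'
    (fun u : ℝ => ((th0 L z u).re - π / (ar L * u)) / u) 0 hs
  rw [mul_zero] at i
  rw [eG, eG, ← i, ← MeasureTheory.integral_smul]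
  refine MeasureTheory.setIntegral_congr_fun measurableSet_Ioi fun u hu => ?_
  have hu : 0 < u := hu
  simp only [e, ar_sc h hx, smul_eq_mul]
  rw [show ‖x‖ ^ 2 * ar L * u = ar L * (‖x‖ ^ 2 * u) by ring]
  field_simp

theorem eG_conj (h : IsLat L) (hM : ∀ y, y ∈ M ↔ conj y ∈ L) (z : ℂ) : eG M (conj z) = eG L z := by
  let e : L ≃ M :=
    { toFun := fun l => ⟨conj (l : ℂ), (hM _).2 (by rw [conj_conj]; exact l.2)⟩
      invFun := fun m => ⟨conj (m : ℂ), (hM _).1 m.2⟩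
      left_inv := fun l => Subtype.ext (conj_conj _)
      right_inv := fun l => Subtype.ext (conj_conj _) }
  have : ∀ u, th0 M (conj z) u = th0 L z u := fun u => by
    rw [th0, th0, ← e.tsum_eq]
    refine tsum_congr fun l => congrArg cexp ?_
    change -u * ((conj z + conj (l : ℂ)) * conj (conj z + conj (l : ℂ))) = _
    rw [← map_add, conj_conj, mul_comm (conj _)]
  simp only [eG, this, ar_conj h hM]

theorem g2b_term (p v : ℂ) (u t : ℝ) :
    HasDerivAt (fun t : ℝ => Real.exp (-u * ‖p + t * v‖ ^ 2))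
      (u * (-2 * (v * (conj (p + t * v) *
        cexp (-(u : ℂ) * ((p + t * v) * conj (p + t * v))))).re)) t := by
  have h1 : HasDerivAt (fun t : ℝ => p + t * v) v t := by
    simpa using ((hasDerivAt_id t).ofReal_comp.mul_const v).const_add p
  refine ((h1.norm_sq.const_mul (-u)).exp).congr_deriv ?_
  rw [g2b_exp, ← mul_assoc v, re_mul_ofReal, Complex.inner]
  ring

theorem g2b_cmp {p w : ℂ} {u : ℝ} (hu : 0 < u) (hw : 2 * ‖w‖ ≤ ‖p‖) :
    ‖conj (p + w) * cexp (-(u : ℂ) * ((p + w) * conj (p + w)))‖ ≤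
      2 * (‖p‖ ^ 1 * Real.exp (-(u / 4) * ‖p‖ ^ 2)) := by
  have h1 := norm_add_le p w
  have h2 := norm_sub_le (p + w) w
  rw [add_sub_cancel_right] at h2
  have h0 := norm_nonneg p
  rw [g2b_exp, norm_mul, norm_conj, norm_real, Real.norm_of_nonneg (Real.exp_pos _).le, pow_one,
    ← mul_assoc]
  refine mul_le_mul (by linarith) (Real.exp_le_exp.2 ?_) (Real.exp_pos _).le (by positivity)
  have h3 : (‖p‖ / 2) ^ 2 ≤ ‖p + w‖ ^ 2 := pow_le_pow_left₀ (by positivity) (by linarith) 2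
  have := mul_le_mul_of_nonneg_left h3 hu.le
  linarith

theorem hasDerivAt_eG (h : IsLat L) (hz : z ∉ L) (v : ℂ) :
    HasDerivAt (fun t : ℝ => eG L (z + t * v)) (-2 * (v * eF L z).re) 0 := by
  have ha := ar_pos h
  obtain ⟨d, hd, hb⟩ := Metric.isOpen_iff.1 (compl_open h {0}) z (by simpa using hz)
  have gap : ∀ l : L, d ≤ ‖z + l‖ := fun l => not_lt.1 fun hl =>
    hb (a := -l) (by rwa [Metric.mem_ball', dist_eq_norm, sub_neg_eq_add]) 0 (by simp)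
      (by simp)
  have hε : 0 < d / (2 * (‖v‖ + 1)) := by positivity
  have sm : ∀ t ∈ Metric.ball (0 : ℝ) (d / (2 * (‖v‖ + 1))), ∀ l : L,
      2 * ‖(t : ℂ) * v‖ ≤ ‖z + l‖ := by
    intro t ht l
    rw [mem_ball_zero_iff, lt_div_iff₀ (by positivity)] at ht
    rw [norm_mul, norm_real]
    have := mul_nonneg (norm_nonneg t) (norm_nonneg v)
    linarith [gap l, norm_nonneg t]
  have ac : ∀ (t : ℝ) (l : L), z + t * v + l = z + l + t * v := fun t l => add_right_comm _ _ _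
  have su : ∀ u : ℝ, 0 < u → Summable fun l : L =>
      ‖z + l‖ ^ 1 * Real.exp (-(u / 4) * ‖z + l‖ ^ 2) := fun u hu => by
    simpa only [ofReal_re] using
      summable_th h (u := (u / 4 : ℝ)) (by rw [ofReal_re]; positivity) 1 z
  obtain ⟨C0, hC0⟩ := g2b_dual h 1
  obtain ⟨C, δ, hδ, hC⟩ := gauss_decay h 1 z (a := 1 / 4) (by norm_num)
  have h3 : ∀ l : L, z + l ≠ 0 := fun l => norm_pos_iff.1 (hd.trans_le (gap l))
  simp only [h3, if_false] at hC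
  have hi : MeasureTheory.IntegrableOn
      (fun u : ℝ => 2 * ‖v‖ * (2 * (C * Real.exp (-(δ / 4) * u)))) (Set.Ioi 1) :=
    (((exp_neg_integrableOn_Ioi 1 (by positivity)).const_mul C).const_mul 2).const_mul _
  have i1 : MeasureTheory.IntegrableOn (fun u : ℝ => v * th1 L z u) (Set.Ioi 0) :=
    (int_th1 h z).const_mul v
  have key := hasDerivAt_integral_of_dominated_loc_of_deriv_le
    (μ := MeasureTheory.volume.restrict (Set.Ioi 0))
    (F := fun (t u : ℝ) => ((th0 L (z + t * v) u).re - π / (ar L * u)) / u)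
    (F' := fun (t u : ℝ) => -2 * (v * th1 L (z + t * v) u).re) (Metric.ball_mem_nhds 0 hε)
    (.of_forall fun t => (g2b_meas h _).aestronglyMeasurable) (by simpa using (int_th0 h hz).integrable)
    (by simpa using (i1.re.const_mul (-2)).aestronglyMeasurable) ?_
    (g2b_int (C := 2 * ‖v‖ * (π ^ 2 / ar L ^ 2 * C0)) hi) ?_
  · refine key.2.congr_deriv ?_
    simp only [ofReal_zero, zero_mul, add_zero]
    rw [eF, ← MeasureTheory.integral_const_mul v, MeasureTheory.integral_const_mul (-2 : ℝ)]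
    exact congrArg (-2 * ·) (integral_re i1)
  · refine (MeasureTheory.ae_restrict_iff' measurableSet_Ioi).2 (.of_forall fun u hu t ht => ?_)
    have hu : 0 < u := hu
    have b1 : ‖-2 * (v * th1 L (z + t * v) u).re‖ ≤ 2 * ‖v‖ * ‖th1 L (z + t * v) u‖ := by
      rw [norm_mul, mul_assoc, ← norm_mul v, norm_neg, Real.norm_two]
      exact mul_le_mul_of_nonneg_left (abs_re_le_norm _) zero_le_two
    refine b1.trans ?_
    split_ifs with h1 <;> refine mul_le_mul_of_nonneg_left ?_ (by positivity)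
    · have h2 := hC0 u hu h1 (fun l => conj (l : ℂ) * pa L l (z + t * v)) fun l => by
        split_ifs with hl <;> simp [hl, norm_pa]
      rw [poisson1 h _ (by rwa [ofReal_re]), norm_mul, norm_neg, ← ofReal_pow, ← ofReal_pow,
        ← ofReal_pow, ← ofReal_mul, ← ofReal_div, norm_real, Real.norm_of_nonneg (by positivity)]
      refine le_trans (le_of_eq ?_) (mul_le_mul_of_nonneg_left h2 (by positivity))
      push_cast
      rw [← mul_assoc, ← div_div, mul_one_div]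
    · refine (tsum_of_norm_bounded ((su u hu).hasSum.mul_left 2) fun l => ?_).trans ?_
      · rw [ac]
        exact g2b_cmp hu (sm t ht l)
      · refine mul_le_mul_of_nonneg_left ((hC (u / 4) (by linarith)).trans (le_of_eq ?_))
          zero_le_two
        rw [show -δ * (u / 4) = -(δ / 4) * u by ring]
  · refine (MeasureTheory.ae_restrict_iff' measurableSet_Ioi).2 (.of_forall fun u hu t ht => ?_)
    have hu : 0 < u := hu
    have d1 := hasDerivAt_tsum_of_isPreconnected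
      (g := fun (l : L) (t : ℝ) => Real.exp (-u * ‖z + l + t * v‖ ^ 2))
      ((su u hu).mul_left (u * (2 * (‖v‖ * 2)))) Metric.isOpen_ball
      (convex_ball (0 : ℝ) _).isPreconnected (fun l t _ => g2b_term (z + l) v u t)
      (fun l t ht => by
        rw [norm_mul, norm_mul, norm_neg, Real.norm_two, Real.norm_of_nonneg hu.le, mul_assoc,
          mul_assoc, mul_assoc]
        refine mul_le_mul_of_nonneg_left (mul_le_mul_of_nonneg_left
          ((abs_re_le_norm _).trans ?_) zero_le_two) hu.le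
        rw [norm_mul]
        exact mul_le_mul_of_nonneg_left (g2b_cmp hu (sm t ht l)) (norm_nonneg v))
      (Metric.mem_ball_self hε)
      (by simpa using summable_th h (u := u) (by rwa [ofReal_re]) 0 z) ht
    have s1 : Summable fun l : L => conj (z + l + t * v) *
        cexp (-(u : ℂ) * ((z + l + t * v) * conj (z + l + t * v))) :=
      Summable.of_norm_bounded ((su u hu).mul_left 2) fun l => g2b_cmp hu (sm t ht l)
    simp only [g2b_th0, ac]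
    refine ((d1.sub_const _).div_const u).congr_deriv ?_
    rw [tsum_mul_left, tsum_mul_left, ← re_tsum (s1.mul_left v), tsum_mul_left, th1,
      mul_div_cancel_left₀ _ hu.ne']
    simp only [ac]

theorem kron (h : IsLat L) (hc : Odd c) : ∃ K : ℝ, ∀ z : ℂ, c * z ∉ L →
    c ^ 2 * eG L z - eG L (c * z) + Real.log (‖tht L c z‖ ^ 2) = K := by
  have hc0 : (c : ℂ)⁻¹ ≠ 0 := inv_ne_zero (Nat.cast_ne_zero.2 hc.pos.ne')
  have hL := h.pr_mul hc0
  have hΩ : {w : ℂ | ∀ t ∈ ({0} : Finset ℂ), w - t ∉ pr (c : ℂ)⁻¹ * L} = {w : ℂ | c * w ∉ L} := by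
    ext w
    rw [Set.mem_ofPred_eq, Set.mem_ofPred_eq, ← mul_mem_sc (L := L) hc0, ← mul_assoc,
      inv_mul_cancel₀ (Nat.cast_ne_zero.2 hc.pos.ne'), one_mul]
    simp
  have ho := compl_open hL {0}
  have hp := compl_preconn hL {0}
  rw [hΩ] at ho hp
  obtain ⟨φ, hφ⟩ : ∃ φ : ℂ → ℝ, φ = fun z =>
    c ^ 2 * eG L z - eG L (c * z) + Real.log (‖tht L c z‖ ^ 2) := ⟨_, rfl⟩
  have d0 : ∀ w v : ℂ, c * w ∉ L → HasDerivAt (fun t : ℝ => φ (w + t * v)) 0 0 := by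
    intro w v hw
    have hw' : w ∉ L := fun h' => hw (by
      rw [← nsmul_eq_mul]
      exact nsmul_mem h' c)
    have h1 : HasDerivAt (fun t : ℝ => w + t * v) v 0 := by
      simpa using ((hasDerivAt_id (0 : ℝ)).ofReal_comp.mul_const v).const_add w
    have h2 : HasDerivAt (fun t : ℝ => tht L c (w + t * v)) (v * (ec L c w * tht L c w)) 0 := by
      have := HasDerivAt.scomp_of_eq (0 : ℝ) (hasDerivAt_tht h hc.pos hw) h1 (by simp)
      simpa only [smul_eq_mul] using! this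
    have hn : ‖tht L c w‖ ^ 2 ≠ 0 := pow_ne_zero _ (norm_ne_zero_iff.2 (tht_ne h hc.pos hw))
    have h3 := h2.norm_sq.log (by simpa using tht_ne h hc.pos hw)
    have h4 := hasDerivAt_eG h hw (c * v)
    have h5 := (((hasDerivAt_eG h hw' v).const_mul ((c : ℝ) ^ 2)).sub h4).add h3
    rw [hφ]
    refine (h5.congr_deriv ?_).congr_of_eventuallyEq (.of_forall fun t => ?_)
    · simp only [ofReal_zero, zero_mul, add_zero]
      rw [Complex.inner, ← mul_assoc v, mul_assoc (v * _), mul_conj, re_mul_ofReal,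
        normSq_eq_norm_sq, ← mul_assoc 2, mul_div_cancel_right₀ _ hn, ec_eq h hc hw, mul_sub, sub_re,
        mul_left_comm v, mul_left_comm v, mul_assoc (c : ℂ) v, ← ofReal_natCast, ← ofReal_pow,
        re_ofReal_mul ((c : ℝ) ^ 2)]
      ring
    · simp only [Pi.add_apply, Pi.sub_apply, mul_add, mul_left_comm (c : ℂ)]
  have loc : ∀ w ∈ {w : ℂ | c * w ∉ L}, ∀ᶠ y in 𝓝[{w : ℂ | c * w ∉ L}] w, φ w = φ y := by
    intro w hw
    obtain ⟨r, hr, hb⟩ := Metric.isOpen_iff.1 ho w hw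
    refine mem_nhdsWithin_of_mem_nhds (mem_of_superset (Metric.ball_mem_nhds w hr) fun y hy => ?_)
    have d1 : ∀ s ∈ Set.Icc (0 : ℝ) 1, HasDerivAt (fun t : ℝ => φ (w + t * (y - w))) 0 s := by
      intro s hs
      have hm : w + s * (y - w) ∈ Metric.ball w r := by
        rw [mem_ball_iff_norm] at hy ⊢
        rw [add_sub_cancel_left, norm_mul, norm_real, Real.norm_of_nonneg hs.1]
        exact (mul_le_of_le_one_left (norm_nonneg _) hs.2).trans_lt hy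
      have := HasDerivAt.comp_sub_const s s (by rw [sub_self]; exact d0 _ (y - w) (hb hm))
      refine this.congr_of_eventuallyEq (.of_forall fun t => congrArg φ ?_)
      push_cast
      ring
    have := constant_of_has_deriv_right_zero
      (fun s hs => (d1 s hs).continuousAt.continuousWithinAt)
      (fun s hs => (d1 s (Set.Ico_subset_Icc_self hs)).hasDerivWithinAt) 1 (by simp)
    simpa using this.symm
  rcases Set.eq_empty_or_nonempty {w : ℂ | c * w ∉ L} with he | ⟨w, hw⟩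
  · exact ⟨0, fun z hz => absurd (he ▸ hz : z ∈ (∅ : Set ℂ)) (Set.notMem_empty z)⟩
  · refine ⟨φ w, fun z hz => ?_⟩
    have := hp.induction₂ (fun a b => φ a = φ b) loc (fun _ _ _ _ _ _ => Eq.trans)
      (fun _ _ _ _ => Eq.symm) hz hw
    rw [← this, hφ]

end Pool.Agent.P.MP_20768c_nt.Tz.Cv

end

-- part Cv.C2_q
section

set_option autoImplicit false

open Complex NumberField IsDedekindDomain Filter Topology
open UpperHalfPlane hiding I
open scoped ComplexConjugate Real MatrixGroups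

namespace Pool.Agent.P.MP_20768c_nt.Tz.Cv

open Pool.Agent.P.MP_20768c_nt.Tz.EQ (Lt pr sp IsLat jL qN)

namespace St

variable (s : St) {L : s.Sub} {a b n g : Ideal s.O} {p q : s.Pair} {x ρ : ℂ}

theorem c2q_three (j : ℕ) : Ideal.span {(3 : s.O) ^ j} = s.p1 ^ j * s.p2 ^ j := by
  rw [← mul_pow, s.p1_mul_p2, Ideal.span_singleton_pow]

theorem c2q_cop {f : Ideal s.O} {c : ℕ} (h : Nat.Coprime c (Ideal.absNorm f)) :
    IsCoprime (Ideal.span {(c : s.O)}) f := by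
  obtain ⟨u, w, e⟩ := Nat.isCoprime_iff_coprime.2 h
  rw [Ideal.isCoprime_iff_exists]
  refine ⟨u * c, Ideal.mul_mem_left _ _ (Ideal.mem_span_singleton_self _),
    w * Ideal.absNorm f, Ideal.mul_mem_left _ _ (Ideal.absNorm_mem f), ?_⟩
  exact_mod_cast congrArg (Int.cast : ℤ → s.O) e

theorem lv_ne {f : Ideal s.O} (h : f ≠ ⊥) : s.lv f ≠ ⊥ := by
  exact mul_ne_zero h s.p2_ne

theorem md_ne {f : Ideal s.O} (h : f ≠ ⊥) (j : ℕ) : s.md f j ≠ ⊥ := by
  rw [md, c2q_three]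
  exact mul_ne_zero h (mul_ne_zero (pow_ne_zero j s.p1_ne) (pow_ne_zero j s.p2_ne))

theorem lv_le (f : Ideal s.O) : s.lv f ≤ f ∧ s.lv f ≤ s.p2 := by
  exact ⟨Ideal.mul_le_left, Ideal.mul_le_right⟩

theorem md_le (f : Ideal s.O) (j : ℕ) :
    s.md f j ≤ f ∧ s.md f j ≤ Ideal.span {((3 ^ j : ℕ) : s.O)} ∧ s.md f j ≤ f * s.p2 ^ j := by
  refine ⟨Ideal.mul_le_left, ?_, ?_⟩
  · push_cast
    exact Ideal.mul_le_right
  · rw [md, c2q_three]
    exact Ideal.mul_mono_right Ideal.mul_le_right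

theorem md_le_lv (f : Ideal s.O) {j : ℕ} (hj : 1 ≤ j) : s.md f j ≤ s.lv f := by
  exact (s.md_le f j).2.2.trans (Ideal.mul_mono_right (Ideal.pow_le_self (by omega)))

theorem md_mono (f : Ideal s.O) {i j : ℕ} (h : i ≤ j) : s.md f j ≤ s.md f i :=
  Ideal.mul_mono_right (Ideal.span_singleton_le_span_singleton.2 (pow_dvd_pow _ h))

theorem three_mem_md (f : Ideal s.O) : ((3 * Ideal.absNorm f : ℕ) : s.O) ∈ s.md f 1 := by
  rw [mul_comm]
  push_cast
  exact Ideal.mul_mem_mul (Ideal.absNorm_mem f)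
    (by rw [pow_one]; exact Ideal.mem_span_singleton_self _)

theorem three_mem_lv (f : Ideal s.O) : ((3 * Ideal.absNorm f : ℕ) : s.O) ∈ s.lv f :=
  s.md_le_lv f le_rfl (s.three_mem_md f)

theorem lv_mem (f : Ideal s.O) : ((3 * Ideal.absNorm f : ℕ) : s.O) ∈ s.lv f := s.three_mem_lv f

theorem mm_mem (f : Ideal s.O) (c j : ℕ) :
    ((c * Ideal.absNorm f * 3 ^ j : ℕ) : s.O) ∈ s.md f j := by
  push_cast
  exact Ideal.mul_mem_mul (Ideal.mul_mem_left _ _ (Ideal.absNorm_mem f))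
    (Ideal.mem_span_singleton_self _)

theorem norm_md (f : Ideal s.O) (j : ℕ) : Ideal.absNorm (s.md f j) = Ideal.absNorm f * 9 ^ j := by
  rw [md, c2q_three, map_mul, map_mul, map_pow, map_pow, s.norm_p1, s.norm_p2, ← mul_pow]
  rfl

theorem unit_md {f : Ideal s.O} (h : f ≠ ⊥) {j : ℕ} (hj : 1 ≤ j) :
    IsUnit (s.cl (s.md f j) p) ↔ IsUnit (s.cl (s.lv f) p) ∧ p.ρ ∉ s.idl s.p1 * p.L := by
  rw [s.unit_cl (s.md_ne h j), s.unit_cl (s.lv_ne h), md, lv, c2q_three, ← s.idOf_le,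
    IsCoprime.mul_right_iff, IsCoprime.mul_right_iff, IsCoprime.mul_right_iff,
    IsCoprime.pow_right_iff hj, IsCoprime.pow_right_iff hj]
  have e : IsCoprime (s.idOf p) s.p1 ↔ ¬ s.idOf p ≤ s.p1 := by
    rw [Ideal.isCoprime_iff_sup_eq]
    refine ⟨fun a b => s.p1_max.ne_top (by rwa [sup_eq_right.2 b] at a), fun a => ?_⟩
    exact s.p1_max.1.2 _ (right_lt_sup.2 a)
  rw [e]
  tauto

theorem Cc.spec {s : St} {f : Ideal s.O} {c : ℕ} (h : s.Cc f c) : Odd c ∧ c % 3 = 1 ∧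
    (c : s.O) - 1 ∈ s.lv f ∧ ∀ j, IsUnit (s.cl (s.md f j) (s.np c)) := by
  obtain ⟨h1, h2, h3, h4⟩ := h
  have o2 : c % 2 = 1 := h4.of_mul_right _
  have o : Odd c := Nat.odd_iff.2 o2
  have m : c ≡ 1 [MOD Ideal.absNorm f] := h4.of_mul_left 2
  have t : c % 3 = 1 := by omega
  refine ⟨o, t, ?_, fun j => ?_⟩
  · have d : 3 * Ideal.absNorm f ∣ c - 1 := Nat.Coprime.mul_dvd_of_dvd_of_dvd
      ((Nat.Prime.coprime_iff_not_dvd Nat.prime_three).2 h1) (by omega)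
      ((Nat.modEq_iff_dvd' h2.le).1 m.symm)
    obtain ⟨k, hk⟩ := d
    have e : (c : s.O) - 1 = ((3 * Ideal.absNorm f : ℕ) : s.O) * k := by
      rw [← Nat.cast_mul, ← hk, Nat.cast_sub h2.le, Nat.cast_one]
    rw [e]
    exact Ideal.mul_mem_right _ _ (s.three_mem_lv f)
  · rw [s.unit_cl (s.md_ne (s.cop_ne h1) j), idOf_np]
    refine s.c2q_cop ?_
    rw [norm_md]
    refine Nat.Coprime.mul_right ?_ (Nat.Coprime.pow_right j (Nat.Coprime.pow_right 2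
      ((Nat.Prime.coprime_iff_not_dvd Nat.prime_three).2 (by omega)).symm))
    exact Nat.coprime_of_mul_modEq_one 1 (by simpa using m)

theorem two_not_lv (f : Ideal s.O) : (2 : s.O) ∉ s.lv f :=
  fun h => s.two_not_mem.2 ((s.lv_le f).2 h)

theorem cop_lv {f : Ideal s.O} (h : ¬ 3 ∣ Ideal.absNorm f) : IsCoprime (s.lv f) s.p1 := by
  have h1 := s.cop_iff.1 h
  rw [← s.p1_mul_p2] at h1
  exact h1.of_mul_right_left.mul_left s.cop12.symm

theorem exists_Cc {f : Ideal s.O} (h : ¬ 3 ∣ Ideal.absNorm f) : ∃ c, s.Cc f c := by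
  have h0 : 0 < Ideal.absNorm f := Nat.pos_of_ne_zero fun e => h (e ▸ dvd_zero 3)
  obtain ⟨k, hk, hk'⟩ : ∃ k : ℕ, 0 < k ∧ (1 + 2 * Ideal.absNorm f * k) % 9 = 4 := by
    rcases (by omega : Ideal.absNorm f % 3 = 1 ∨ Ideal.absNorm f % 3 = 2) with h1 | h1
    · exact ⟨6, by norm_num, by omega⟩
    · exact ⟨3, by norm_num, by omega⟩
  refine ⟨1 + 2 * Ideal.absNorm f * k, h, lt_add_of_pos_right _ (by positivity), hk', ?_⟩
  simp [Nat.ModEq]

end St

end Pool.Agent.P.MP_20768c_nt.Tz.Cv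

end

-- part Cv.H1a_q
section

set_option autoImplicit false

open Complex NumberField IsDedekindDomain Filter Topology
open UpperHalfPlane hiding I
open scoped ComplexConjugate Real MatrixGroups

namespace Pool.Agent.P.MP_20768c_nt.Tz.Cv

open Pool.Agent.P.MP_20768c_nt.Tz.EQ (Lt pr sp IsLat jL qN)

theorem h1a_q_reps {L L' : Lt} {R : Finset ℂ} {x : ℂ} (hx : x ≠ 0) (hR : Reps L L' R) :
    Reps (pr x * L) (pr x * L') (R.map ⟨fun r => x * r, mul_right_injective₀ hx⟩) := by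
  obtain ⟨h1, h2, h3, h4⟩ := hR
  refine ⟨(Pool.Agent.P.MP_20768c_nt.Tz.EQ.pr_mul_le_iff hx).2 h1, Finset.mem_map.2 ⟨0, h2, mul_zero x⟩, ?_, ?_⟩
  · intro r hr
    obtain ⟨t, ht, rfl⟩ := Finset.mem_map.1 hr
    exact (mul_mem_sc hx).2 (h3 t ht)
  · intro y hy
    obtain ⟨w, hw, rfl⟩ := Pool.Agent.P.MP_20768c_nt.Tz.EQ.mem_pr_mul.1 hy
    obtain ⟨r, ⟨hr, hr'⟩, hu⟩ := h4 w hw
    refine ⟨x * r, ⟨Finset.mem_map.2 ⟨r, hr, rfl⟩, ?_⟩, ?_⟩
    · rw [← mul_sub]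
      exact (mul_mem_sc hx).2 hr'
    · rintro y ⟨hy1, hy2⟩
      obtain ⟨t, ht, rfl⟩ := Finset.mem_map.1 hy1
      have e : x * w - x * t ∈ pr x * L := hy2
      rw [← mul_sub] at e
      exact congrArg (fun r => x * r) (hu t ⟨ht, (mul_mem_sc hx).1 e⟩)

theorem h1a_q_summ {L : Lt} (h : IsLat L) (z : ℂ) {κ : ℂ} (hκ : 0 < κ.re) :
    Summable fun l : L => conj (l : ℂ) * pa L l z * cexp (-κ * (l * conj (l : ℂ))) := by
  refine Summable.of_norm ((summable_gauss h hκ 1 0 0).congr fun l => ?_)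
  rw [norm_mul, norm_mul, norm_pa, Complex.norm_conj, zero_mul, zero_mul, add_zero, add_zero,
    pow_one, mul_one]

theorem h1a_q_u {A : ℝ} (hA : 0 < A) (τ : ℍ) : 0 < (-(2 * π * I * (τ : ℂ)) / (A : ℂ)).re := by
  have e : (-(2 * π * I * (τ : ℂ)) / (A : ℂ)).re = 2 * π * τ.im / A := by
    rw [Complex.div_ofReal_re]
    simp
  rw [e]
  have := τ.im_pos
  have := Real.pi_pos
  positivity

theorem h1a_q_k {a : ℝ} (ha : 0 < a) {u : ℂ} (hu : 0 < u.re) :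
    0 < ((π : ℂ) ^ 2 / ((a : ℂ) ^ 2 * u)).re := by
  have h0 : u ≠ 0 := fun h => by simp [h] at hu
  have e : (π : ℂ) ^ 2 / ((a : ℂ) ^ 2 * u) = ((π ^ 2 / a ^ 2 : ℝ) : ℂ) * u⁻¹ := by
    push_cast
    rw [div_mul_eq_div_div, div_eq_mul_inv]
  rw [e, Complex.re_ofReal_mul, Complex.inv_re]
  have := Real.pi_pos
  have := Complex.normSq_pos.2 h0
  positivity

theorem h1a_q_e3 (μ μb A s N d c τ : ℂ) (hA : A ≠ 0) (hs : s ≠ 0) (hN : N ≠ 0) (hd : d ≠ 0)
    (hτ : τ ≠ 0) :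
    π ^ 2 / (((N * d) ^ 2 * (A * s / 2)) ^ 2 *
        (-(2 * π * I * (τ / (d * (s ^ 2 * N ^ 2 * c * τ + d)))) / A)) * (N * d * μ * (N * d * μb)) =
      π ^ 2 / ((N ^ 2 * (A * s / 2)) ^ 2 * (-(2 * π * I * τ) / A)) * (N * μ * (N * μb)) +
        2 * π * I * (c * (μ * μb / A)) / d := by
  have hπ : (π : ℂ) ≠ 0 := Complex.ofReal_ne_zero.2 Real.pi_ne_zero
  have hI := Complex.I_ne_zero
  field_simp
  linear_combination (-(μ * μb * N ^ 2 * s ^ 2 * τ * c)) * Complex.I_sq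

theorem h1a_q_e2 (μ μb ρ ρb r rb A s N d a b c : ℂ) (hA : A ≠ 0) (hs : s ≠ 0) (hN : N ≠ 0)
    (hd : d ≠ 0) (hdet : a * d - b * (s ^ 2 * N ^ 2 * c) = 1) :
    π * (N * d * μb * (ρ + N * r) - N * d * μ * (ρb + N * rb)) / ((N * d) ^ 2 * (A * s / 2)) =
      π * (N * μb * (a * ρ) - N * μ * (a * ρb)) / (N ^ 2 * (A * s / 2)) +
        π * (μb * (a * r) - μ * (a * rb)) / (A * s / 2) -
        2 * π * b * s * N * c * (μb * (ρ + N * r) - μ * (ρb + N * rb)) / (A * d) := by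
  field_simp
  linear_combination (-(μb * (ρ + N * r) - μ * (ρb + N * rb))) * hdet

theorem h1a_q_e1 (μ μb y yb A s N d a b c : ℂ) (hA : A ≠ 0)
    (hd : d ≠ 0) (hdet : a * d - b * (s ^ 2 * N ^ 2 * c) = 1) :
    2 * π * I * (b * (y * yb / A)) / d - 2 * π * b * s * N * c * (μb * y - μ * yb) / (A * d) -
        2 * π * I * (c * (μ * μb / A)) / d =
      2 * π * I * (b * ((y - N * c * (I * s) * μ) * (yb + N * c * (I * s) * μb) / A)) / d -
        a * c * (μ * μb / A) * (2 * π * I) := by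
  have hπ : (π : ℂ) ≠ 0 := Complex.ofReal_ne_zero.2 Real.pi_ne_zero
  field_simp
  linear_combination (I * c * μ * μb) * hdet +
    (-(b * s * N * c * (μb * y - μ * yb)) + I * b * N ^ 2 * c ^ 2 * s ^ 2 * μ * μb) * Complex.I_sq

theorem h1a_q_term {L0 Λ Λd : Lt} (h0 : IsLat L0) {A s : ℝ} {N d : ℕ} {a b c q : ℤ}
    {μ ρ r τ : ℂ} (hA : A ≠ 0) (hs : s ≠ 0) (hN : N ≠ 0) (hd : d ≠ 0) (hτ : τ ≠ 0)
    (hdet : (a : ℂ) * d - b * (s ^ 2 * N ^ 2 * c) = 1)
    (a0 : (ar L0 : ℂ) = A * s / 2) (a1 : (ar Λ : ℂ) = N ^ 2 * (A * s / 2))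
    (a2 : (ar Λd : ℂ) = (N * d) ^ 2 * (A * s / 2)) (hμ : μ ∈ L0) (hr : r ∈ L0)
    (hq : μ * conj μ / A = q) :
    cexp (2 * π * I * (b * ((ρ + N * r) * conj (ρ + N * r) / A)) / d) *
      (conj (N * d * μ) * pa Λd (N * d * μ) (ρ + N * r) * cexp (-(π ^ 2 / (ar Λd ^ 2 *
        (-(2 * π * I * (τ / (d * (s ^ 2 * N ^ 2 * c * τ + d)))) / A))) *
          (N * d * μ * conj (N * d * μ)))) =
    cexp (2 * π * I * (b * ((ρ + N * r - N * c * (I * s) * μ) *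
        conj (ρ + N * r - N * c * (I * s) * μ) / A)) / d) *
      (d * (conj (N * μ) * pa Λ (N * μ) (a * ρ) *
        cexp (-(π ^ 2 / (ar Λ ^ 2 * (-(2 * π * I * τ) / A))) * (N * μ * conj (N * μ))))) := by
  have hA' : (A : ℂ) ≠ 0 := Complex.ofReal_ne_zero.2 hA
  have hs' : (s : ℂ) ≠ 0 := Complex.ofReal_ne_zero.2 hs
  have hN' : (N : ℂ) ≠ 0 := Nat.cast_ne_zero.2 hN
  have hd' : (d : ℂ) ≠ 0 := Nat.cast_ne_zero.2 hd
  have har : (a : ℂ) * r ∈ L0 := by simpa using L0.smul_mem a hr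
  have p1 := pa_int h0 hμ har
  have p2 : cexp (-(a * c * (μ * conj μ / A) * (2 * π * I))) = 1 := by
    rw [hq]
    have := Complex.exp_int_mul_two_pi_mul_I (-(a * c * q))
    push_cast at this
    rw [← this, neg_mul]
  have c1 : conj (ρ + N * r) = conj ρ + N * conj r := by
    rw [map_add, map_mul, map_natCast]
  have c2 : conj ((N : ℂ) * d * μ) = N * d * conj μ := by
    rw [map_mul, map_mul, map_natCast, map_natCast]
  have c3 : conj ((N : ℂ) * μ) = N * conj μ := by rw [map_mul, map_natCast]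
  have c4 : conj (ρ + N * r - N * c * (I * s) * μ) =
      conj ρ + N * conj r + N * c * (I * s) * conj μ := by
    rw [map_sub, c1, map_mul, map_mul, map_mul, map_mul, map_natCast, map_intCast, Complex.conj_I,
      Complex.conj_ofReal]
    ring
  have c5 : conj ((a : ℂ) * ρ) = a * conj ρ := by rw [map_mul, map_intCast]
  have c6 : conj ((a : ℂ) * r) = a * conj r := by rw [map_mul, map_intCast]
  unfold pa at p1 ⊢
  rw [c6, a0] at p1
  rw [c1, c2, c3, c4, c5, a1, a2]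
  have e1 := h1a_q_e1 μ (conj μ) (ρ + N * r) (conj ρ + N * conj r) A s N d a b c hA' hd' hdet
  have e2 := h1a_q_e2 μ (conj μ) ρ (conj ρ) r (conj r) A s N d a b c hA' hs' hN' hd' hdet
  have e3 := h1a_q_e3 μ (conj μ) A s N d c τ hA' hs' hN' hd' hτ
  have key : ∀ X1 X2 X3 Y1 Y2 Y3 Z1 Z2 : ℂ, cexp Z1 = 1 → cexp Z2 = 1 →
      X1 + X2 + X3 = Y1 + Y2 + Y3 + Z1 + Z2 →
      cexp X1 * (N * d * conj μ * cexp X2 * cexp X3) =
        cexp Y1 * (d * (N * conj μ * cexp Y2 * cexp Y3)) := by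
    intro X1 X2 X3 Y1 Y2 Y3 Z1 Z2 k1 k2 k
    have k' := congrArg cexp k
    simp only [Complex.exp_add, k1, k2] at k'
    linear_combination (N * d * conj μ) * k'
  refine key _ _ _ _ _ _ _ _ p1 p2 ?_
  linear_combination e1 + e2 - e3

namespace St

variable (s : St) {L : s.Sub} {N : ℕ} {ρ : ℂ}

theorem h1a_q_Q (hL : IsUnit L) {x : ℂ} (hx : x ∈ L) : ∃ q : ℤ, x * conj x / s.nL L = q := by
  obtain ⟨ω₁, ω₂, α, β, γ, -, -, h1, h2, -⟩ := s.exists_form hL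
  obtain ⟨u, v, rfl⟩ := h2 x hx
  have hA : (s.nL L : ℂ) ≠ 0 := Complex.ofReal_ne_zero.2 (s.nL_pos hL).ne'
  refine ⟨α * u ^ 2 + β * u * v + γ * v ^ 2, ?_⟩
  rw [(h1 u v).2, mul_div_cancel_left₀ _ hA]
  push_cast
  rfl

theorem h1a_q_per (hL : IsUnit L) {y l : ℂ} (hy : y ∈ L) (hl : l ∈ L) (b : ℤ) {d : ℕ}
    (hd : d ≠ 0) :
    cexp (2 * π * I * (b * ((y + d * l) * conj (y + d * l) / s.nL L)) / d) =
      cexp (2 * π * I * (b * (y * conj y / s.nL L)) / d) := by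
  obtain ⟨q1, h1⟩ := s.h1a_q_Q hL (add_mem hy hl)
  obtain ⟨q2, h2⟩ := s.h1a_q_Q hL hy
  obtain ⟨q3, h3⟩ := s.h1a_q_Q hL hl
  have hd' : (d : ℂ) ≠ 0 := Nat.cast_ne_zero.2 hd
  have e : (y + d * l) * conj (y + d * l) / s.nL L =
      y * conj y / s.nL L + d * (q1 - q2 - q3 + d * q3) := by
    rw [← h1, ← h2, ← h3, map_add, map_add, map_mul, map_natCast]
    ring
  have e' : 2 * π * I * (b * ((y + d * l) * conj (y + d * l) / s.nL L)) / d =
      2 * π * I * (b * (y * conj y / s.nL L)) / d +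
        ((b * (q1 - q2 - q3 + d * q3) : ℤ) : ℂ) * (2 * π * I) := by
    rw [e]
    push_cast
    field_simp
  rw [e', Complex.exp_add, Complex.exp_int_mul_two_pi_mul_I, mul_one]

theorem h1a_q_gauss (hL : IsUnit L) {d : ℕ} (hd : d ≠ 0) {a k b : ℤ} (hak : a * d + k * N = 1)
    {R : Finset ℂ} (hR : Reps (s.zl (s.sc d * L)) (s.zl L) R) {y : ℂ} (hy : y ∈ L) :
    ∑ r ∈ R, cexp (2 * π * I * (b * ((y + N * r) * conj (y + N * r) / s.nL L)) / d) =
      ∑ r ∈ R, cexp (2 * π * I * (b * (r * conj r / s.nL L)) / d) := by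
  have hd' : (d : ℂ) ≠ 0 := Nat.cast_ne_zero.2 hd
  have hN : ∀ (M : s.Sub) (n : ℤ) (x : ℂ), x ∈ M → (n : ℂ) * x ∈ M := fun M n x hx => by
    rw [← s.c_int]
    exact s.c_mul_mem _ hx
  refine hR.sum_bij (fun r => y + N * r) (fun r hr => ?_) (fun r hr t ht => ?_)
    (fun r => cexp (2 * π * I * (b * (r * conj r / s.nL L)) / d)) (fun r hr l hl => ?_)
  · exact s.mem_zl.2 (add_mem hy (by simpa using hN L N r (s.mem_zl.1 hr)))
  · rw [s.mem_zl, s.mem_zl, add_sub_add_left_eq_sub, ← mul_sub]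
    refine ⟨fun h => ?_, fun h => by simpa using hN _ N _ h⟩
    have hak' : (a : ℂ) * d + k * N = 1 := by exact_mod_cast hak
    have e : r - t = d * (a * (r - t)) + k * (N * (r - t)) := by
      linear_combination (-(r - t)) * hak'
    rw [e]
    exact add_mem ((s.mul_mem_sc' hd').2 (hN L a _ (sub_mem (s.mem_zl.1 hr) (s.mem_zl.1 ht))))
      (hN _ k _ h)
  · obtain ⟨z, hz, rfl⟩ := s.mem_sc_mul.1 (s.mem_zl.1 hl)
    exact s.h1a_q_per hL (s.mem_zl.1 hr) hz b hd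

theorem Th_prime (hL : IsUnit L) (hN : 0 < N) : ∃ B : ℕ, ∀ (ρ : ℂ) (γ : SL(2, ℤ)) (d : ℕ) (τ : ℍ),
    ρ ∈ L → d.Prime → B < d → γ 1 1 = d → ((s.dd * N ^ 2 : ℕ) : ℤ) ∣ γ 1 0 →
    Th (s.zl (s.sc N * L)) (s.nL L) ρ (γ • τ) = ((γ 1 0 : ℂ) * τ + γ 1 1) ^ 2 *
      (s.kr (γ 1 1) : ℂ) * Th (s.zl (s.sc N * L)) (s.nL L) (γ 0 0 * ρ) τ := by
  obtain ⟨B, hB⟩ := s.gauss_lat hL
  refine ⟨B, fun ρ γ d τ hρ hd hBd h11 hc => ?_⟩
  obtain ⟨c, hc⟩ := hc
  have hdet : γ 0 0 * γ 1 1 - γ 0 1 * γ 1 0 = 1 := by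
    have := γ.det_coe
    rwa [Matrix.det_fin_two] at this
  have hden := Pool.Agent.P.MP_20768c_nt.Tz.EQ.sl_den_ne_lat γ τ
  have hmul := Pool.Agent.P.MP_20768c_nt.Tz.EQ.sl_den_mul_lat γ τ
  rw [h11, hc] at hdet hden hmul ⊢
  generalize γ 0 0 = a at hdet hmul ⊢
  generalize γ 0 1 = b at hdet hmul
  generalize γ • τ = σ at hmul ⊢
  have hd0 : d ≠ 0 := hd.ne_zero
  have hd' : (d : ℂ) ≠ 0 := Nat.cast_ne_zero.2 hd0
  have hN' : (N : ℂ) ≠ 0 := Nat.cast_ne_zero.2 hN.ne'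
  have hNd : (N : ℂ) * d ≠ 0 := mul_ne_zero hN' hd'
  have hA := s.nL_pos hL
  have hA' : (s.nL L : ℂ) ≠ 0 := Complex.ofReal_ne_zero.2 hA.ne'
  have hdd : (0 : ℝ) < s.dd := by
    have := s.dd_ge
    exact Nat.cast_pos.2 (by omega)
  have hs : 0 < Real.sqrt s.dd := Real.sqrt_pos.2 hdd
  have hsq : ((Real.sqrt s.dd : ℝ) : ℂ) ^ 2 = s.dd := by
    rw [← Complex.ofReal_pow, Real.sq_sqrt hdd.le, Complex.ofReal_natCast]
  have hδ := s.sqrt_dd
  have h1 := s.ar_one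
  generalize Real.sqrt s.dd = t at hs hsq hδ h1
  have hcc : ((((s.dd * N ^ 2 : ℕ) : ℤ) * c : ℤ) : ℂ) = (t : ℂ) ^ 2 * N ^ 2 * c := by
    rw [hsq]
    push_cast
    rfl
  have hdet' : (a : ℂ) * d - b * ((t : ℂ) ^ 2 * N ^ 2 * c) = 1 := by
    rw [← hcc]
    exact_mod_cast hdet
  rw [hcc, Int.cast_natCast] at hden hmul ⊢
  have h0 := s.isLat_zl hL
  have hΛ := h0.pr_mul hN'
  have hΛd := h0.pr_mul hNd
  have a0r : ar (s.zl L) = s.nL L * t / 2 := by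
    rw [nL, h1]
    field_simp
  have a0 : (ar (s.zl L) : ℂ) = s.nL L * t / 2 := by
    rw [a0r]
    push_cast
    rfl
  have a1 : (ar (pr N * s.zl L) : ℂ) = N ^ 2 * (s.nL L * t / 2) := by
    rw [ar_sc h0 hN', Complex.norm_natCast, Complex.ofReal_mul, a0]
    push_cast
    rfl
  have a2 : (ar (pr (N * d) * s.zl L) : ℂ) = (N * d) ^ 2 * (s.nL L * t / 2) := by
    rw [ar_sc h0 hNd, norm_mul, Complex.norm_natCast, Complex.norm_natCast, Complex.ofReal_mul, a0]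
    push_cast
    rfl
  have hint : ∀ (n : ℤ) (x : ℂ), x ∈ L → (n : ℂ) * x ∈ L := fun n x hx => by
    rw [← s.c_int]
    exact s.c_mul_mem _ hx
  have hnat : ∀ x : ℂ, x ∈ L → (N : ℂ) * x ∈ L := fun x hx => by simpa using hint N x hx
  have hdel : ∀ x : ℂ, x ∈ L → (N : ℂ) * c * (I * t) * x ∈ L := fun x hx => by
    have e := s.c_mul_mem s.w hx
    have e' : (N : ℂ) * c * (I * t) * x = N * (c * ((2 : ℤ) * (s.c s.w * x) - s.t * x)) := by
      rw [← hδ]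
      push_cast
      ring
    rw [e']
    exact hnat _ (hint _ _ (sub_mem (hint 2 _ e) (hint _ _ hx)))
  obtain ⟨R, hR⟩ := exists_reps (s.isLat_zl ((s.isUnit_sc hd').mul hL)) h0 (by
    rw [s.zl_sc]
    simpa using Pool.Agent.P.MP_20768c_nt.Tz.EQ.pr_int_le d (s.zl L))
  have hb : ¬ (d : ℤ) ∣ b := fun h => by
    have : (d : ℤ) ∣ 1 := hdet ▸ dvd_sub (dvd_mul_left _ _) (h.mul_right _)
    exact hd.one_lt.ne' (by exact_mod_cast Int.eq_one_of_dvd_one (Int.natCast_nonneg d) this)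
  have hG := hB d hd hBd b R hb hR
  have hak : a * d + (-(b * (s.dd * N * c))) * N = 1 := by
    rw [← hdet]
    push_cast
    ring
  have hR' := h1a_q_reps hN' hR
  rw [s.zl_sc, ← mul_assoc, Pool.Agent.P.MP_20768c_nt.Tz.EQ.pr_mul_pr] at hR'
  obtain ⟨τ', hτ'⟩ : ∃ τ' : ℍ, (σ : ℂ) = τ' + b / d :=
    ⟨(-(b / d : ℝ)) +ᵥ σ, by rw [UpperHalfPlane.coe_vadd]; push_cast; ring⟩
  have hτ2 : (τ' : ℂ) = τ / (d * ((t : ℂ) ^ 2 * N ^ 2 * c * τ + d)) := by
    rw [eq_div_iff (mul_ne_zero hd' hden)]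
    have e : (τ' : ℂ) * d = σ * d - b := by
      rw [hτ']
      field_simp
      ring
    linear_combination ((t : ℂ) ^ 2 * N ^ 2 * c * τ + d) * e + d * hmul + τ * hdet'
  have hu := h1a_q_u hA τ
  have hu' := h1a_q_u hA τ'
  have hsh : ∀ r ∈ R, th1 (pr (N * d) * s.zl L) (ρ + N * r) (-(2 * π * I * σ) / s.nL L) =
      cexp (2 * π * I * (b * ((ρ + N * r) * conj (ρ + N * r) / s.nL L)) / d) *
        th1 (pr (N * d) * s.zl L) (ρ + N * r) (-(2 * π * I * τ') / s.nL L) := fun r hr => by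
    refine Th_shift _ _ _ _ _ hτ' fun l hl => ?_
    obtain ⟨z, hz, rfl⟩ := Pool.Agent.P.MP_20768c_nt.Tz.EQ.mem_pr_mul.1 hl
    rw [← s.h1a_q_per hL (add_mem hρ (hnat r (s.mem_zl.1 (hR.2.2.1 r hr))))
      (hnat z (s.mem_zl.1 hz)) b hd0, mul_comm (N : ℂ) d, mul_assoc (d : ℂ)]
    refine congrArg cexp ?_
    ring
  rw [s.zl_sc, Th, Th, th1_reps hΛ hR' ρ (h1a_q_u hA σ), Finset.sum_map, poisson1 hΛ _ hu]
  simp only [Function.Embedding.coeFn_mk]
  rw [Finset.sum_congr rfl hsh]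
  simp only [poisson1 hΛd _ hu']
  have hsum : ∑ r ∈ R, cexp (2 * π * I * (b * ((ρ + N * r) * conj (ρ + N * r) / s.nL L)) / d) *
      ∑' l : (pr (N * d) * s.zl L : Lt), conj (l : ℂ) * pa (pr (N * d) * s.zl L) l (ρ + N * r) *
        cexp (-(π ^ 2 / (ar (pr (N * d) * s.zl L) ^ 2 * (-(2 * π * I * τ') / s.nL L))) *
          (l * conj (l : ℂ))) = d * (s.kr d : ℂ) * (d *
      ∑' l : (pr N * s.zl L : Lt), conj (l : ℂ) * pa (pr N * s.zl L) l (a * ρ) *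
        cexp (-(π ^ 2 / (ar (pr N * s.zl L) ^ 2 * (-(2 * π * I * τ) / s.nL L))) *
          (l * conj (l : ℂ)))) := by
    simp only [← tsum_mul_left]
    rw [← Summable.tsum_finsetSum fun r _ =>
      (h1a_q_summ hΛd (ρ + N * r) (h1a_q_k (ar_pos hΛd) hu')).mul_left _]
    rw [tsum_sc _ hNd fun l => ∑ r ∈ R,
      cexp (2 * π * I * (b * ((ρ + N * r) * conj (ρ + N * r) / s.nL L)) / d) *
        (conj l * pa (pr (N * d) * s.zl L) l (ρ + N * r) *
          cexp (-(π ^ 2 / (ar (pr (N * d) * s.zl L) ^ 2 * (-(2 * π * I * τ') / s.nL L))) *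
            (l * conj l))),
      tsum_sc _ hN' fun l => d * (s.kr d : ℂ) * (d *
        (conj l * pa (pr N * s.zl L) l (a * ρ) *
          cexp (-(π ^ 2 / (ar (pr N * s.zl L) ^ 2 * (-(2 * π * I * τ) / s.nL L))) *
            (l * conj l))))]
    refine tsum_congr fun μ => ?_
    obtain ⟨q, hq⟩ := s.h1a_q_Q hL (s.mem_zl.1 μ.2)
    rw [← hG, ← s.h1a_q_gauss hL hd0 hak hR (sub_mem hρ (hdel μ (s.mem_zl.1 μ.2))), Finset.sum_mul,
      hτ2]
    refine Finset.sum_congr rfl fun r hr => ?_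
    rw [h1a_q_term h0 hA.ne' hs.ne' hN.ne' hd0 τ.ne_zero hdet' a0 a1 a2 μ.2 (hR.2.2.1 r hr) hq,
      add_sub_right_comm]
  simp only [mul_left_comm _ (-(π ^ 2 / (ar (pr (N * d) * s.zl L) ^ 2 *
    (-(2 * π * I * τ') / s.nL L) ^ 2)) : ℂ)]
  rw [← Finset.mul_sum, hsum, a1, a2, hτ2]
  have hπ : (π : ℂ) ≠ 0 := Complex.ofReal_ne_zero.2 Real.pi_ne_zero
  have hI := Complex.I_ne_zero
  have ht : (t : ℂ) ≠ 0 := Complex.ofReal_ne_zero.2 hs.ne'
  have hτ0 := τ.ne_zero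
  generalize (∑' l : (pr N * s.zl L : Lt), _ : ℂ) = S
  generalize (t : ℂ) ^ 2 * N ^ 2 * c * τ + d = D at hden ⊢
  field_simp

end St

end Pool.Agent.P.MP_20768c_nt.Tz.Cv

end

-- part Cv.H1b
section

set_option autoImplicit false

open Complex NumberField IsDedekindDomain Filter Topology
open UpperHalfPlane hiding I
open scoped ComplexConjugate Real MatrixGroups

namespace Pool.Agent.P.MP_20768c_nt.Tz.Cv

open Pool.Agent.P.MP_20768c_nt.Tz.EQ (Lt pr sp IsLat jL qN)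

open ModularForm

theorem h1b_norm (y u : ℂ) :
    ‖conj y * cexp (-u * (y * conj y))‖ = ‖y‖ ^ 1 * Real.exp (-u.re * ‖y‖ ^ 2) := by
  rw [norm_mul, Complex.norm_conj, Complex.norm_exp, Complex.mul_conj, pow_one,
    Complex.normSq_eq_norm_sq, Complex.re_mul_ofReal, Complex.neg_re]

theorem h1b_re (A : ℝ) (w : ℂ) : (-(2 * π * I * w) / A).re = 2 * π * w.im / A := by
  rw [Complex.div_ofReal_re]
  simp

theorem Th_hol {L : Lt} (h : IsLat L) {A : ℝ} (hA : 0 < A) (z : ℂ) :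
    MDifferentiable (modelWithCornersSelf ℂ ℂ) (modelWithCornersSelf ℂ ℂ) (Th L A z) := by
  rw [UpperHalfPlane.mdifferentiable_iff]
  intro w hw
  have hw' : 0 < w.im := hw
  have hU : IsOpen {v : ℂ | w.im / 2 < v.im} := isOpen_lt continuous_const Complex.continuous_im
  have hu : 0 < (((2 * π * (w.im / 2) / A : ℝ) : ℂ)).re := by
    rw [Complex.ofReal_re]
    positivity
  have hd : DifferentiableOn ℂ (fun v : ℂ => ∑' l : L, conj (z + l) *
      cexp (-(-(2 * π * I * v) / A) * ((z + l) * conj (z + l)))) {v : ℂ | w.im / 2 < v.im} := by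
    refine differentiableOn_tsum_of_summable_norm (summable_th h hu 1 z) (fun l => ?_) hU
      (fun l v hv => ?_)
    · fun_prop
    · rw [h1b_norm, h1b_re, Complex.ofReal_re]
      have hv' : w.im / 2 < v.im := hv
      have : 2 * π * (w.im / 2) / A ≤ 2 * π * v.im / A := by gcongr
      gcongr
  have hm : {v : ℂ | w.im / 2 < v.im} ∈ 𝓝 w := hU.mem_nhds (by show w.im / 2 < w.im; linarith)
  refine ((hd.differentiableAt hm).congr_of_eventuallyEq ?_).differentiableWithinAt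
  filter_upwards [hm] with v hv
  have hv' : w.im / 2 < v.im := hv
  have hv0 : 0 < v.im := by linarith
  simp only [Function.comp, Th, th1, ofComplex_apply_of_im_pos hv0]

theorem Th_zero {L : Lt} (h : IsLat L) {A : ℝ} (hA : 0 < A) (z : ℂ) : IsZeroAtImInfty (Th L A z) := by
  obtain ⟨C, δ, hδ, hC⟩ := gauss_decay h 1 z one_pos
  have ht : Tendsto (fun τ : ℍ => 2 * π * τ.im / A) atImInfty atTop := by
    refine Tendsto.atTop_div_const hA (Tendsto.const_mul_atTop (by positivity) ?_)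
    exact tendsto_comap
  have h0 : Tendsto (fun τ : ℍ => C * Real.exp (-δ * (2 * π * τ.im / A))) atImInfty (𝓝 0) := by
    have := (Real.tendsto_exp_atBot.comp
      (Tendsto.const_mul_atTop_of_neg (neg_lt_zero.mpr hδ) ht)).const_mul C
    simpa using this
  refine squeeze_zero_norm' ?_ h0
  filter_upwards [ht.eventually_ge_atTop 1] with τ hτ
  refine le_trans ?_ (hC _ hτ)
  have hu : 0 < (-(2 * π * I * τ) / A : ℂ).re := by
    rw [h1b_re]
    exact lt_of_lt_of_le one_pos hτ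
  have hs := summable_th h hu 1 z
  have e : ∀ l : L, ‖conj (z + l) * cexp (-(-(2 * π * I * τ) / A) * ((z + l) * conj (z + l)))‖ =
      ‖z + l‖ ^ 1 * Real.exp (-(-(2 * π * I * τ) / A : ℂ).re * ‖z + l‖ ^ 2) := fun l => h1b_norm _ _
  refine (norm_tsum_le_tsum_norm (by simpa only [e] using hs)).trans (le_of_eq ?_)
  refine tsum_congr fun l => ?_
  rw [e, h1b_re]
  split_ifs with h0
  · simp [h0]
  · rfl

/-- the dual lattice -/
def h1b_D (L : Lt) (A : ℝ) (z : ℂ) : Prop := ∀ l ∈ L, ∃ j : ℤ, z * conj l + conj z * l = A * j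

theorem h1b_T {L : Lt} {A : ℝ} (hA : 0 < A) (hi : ∀ l ∈ L, ∃ j : ℤ, l * conj l = A * j) {z : ℂ}
    (hz : h1b_D L A z) (n : ℤ) :
    Th L A z ∣[(2 : ℤ)] (ModularGroup.T ^ n) =
      cexp (2 * π * I * n * (z * conj z) / A) • Th L A z := by
  have hA' : (A : ℂ) ≠ 0 := Complex.ofReal_ne_zero.mpr hA.ne'
  funext τ
  have hd : denom (ModularGroup.T ^ n : SL(2, ℤ)) τ = 1 := by
    rw [ModularGroup.denom_apply]
    simp [ModularGroup.coe_T_zpow]
  rw [SL_slash_apply, hd, one_zpow, mul_one, Pi.smul_apply, smul_eq_mul]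
  refine Th_shift L A z _ n (ModularGroup.coe_T_zpow_smul_eq τ) fun l hl => ?_
  obtain ⟨j, hj⟩ := hi l hl
  obtain ⟨k, hk⟩ := hz l hl
  have : 2 * π * I * n * ((z + l) * conj (z + l)) / A =
      2 * π * I * n * (z * conj z) / A + (n * (j + k) : ℤ) * (2 * π * I) := by
    rw [map_add]
    have e : (z + l) * (conj z + conj l) = z * conj z + A * (j + k) := by
      linear_combination hj + hk
    rw [e]
    push_cast
    field_simp
  rw [this, Complex.exp_add, Complex.exp_int_mul_two_pi_mul_I, mul_one]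

theorem h1b_pa {L : Lt} (h : IsLat L) {A : ℝ} (hA : 0 < A) (y z : ℂ) :
    pa L (y / (I * A / (2 * ar L))) z = cexp (2 * π * I * (z * conj y + conj z * y) / A) := by
  have hA' : (A : ℂ) ≠ 0 := Complex.ofReal_ne_zero.mpr hA.ne'
  have ha : (ar L : ℂ) ≠ 0 := Complex.ofReal_ne_zero.mpr (ar_pos h).ne'
  unfold pa
  congr 1
  simp only [map_div₀, map_mul, Complex.conj_I, Complex.conj_ofReal, map_ofNat]
  field_simp
  linear_combination (-(conj y * z) - y * conj z) * Complex.I_mul_I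

theorem h1b_pa' {L : Lt} (h : IsLat L) {A : ℝ} (hA : 0 < A) (y z : ℂ) :
    pa L z (y / (I * A / (2 * ar L))) = cexp (-(2 * π * I * (z * conj y + conj z * y) / A)) := by
  rw [Complex.exp_neg, ← h1b_pa h hA]
  unfold pa
  rw [← Complex.exp_neg]
  congr 1
  ring

theorem h1b_one {A : ℝ} (hA : 0 < A) {x : ℂ} :
    cexp (2 * π * I * x / A) = 1 ↔ ∃ j : ℤ, x = A * j := by
  have hA' : (A : ℂ) ≠ 0 := Complex.ofReal_ne_zero.mpr hA.ne'
  have hp : (2 * π * I : ℂ) ≠ 0 := Complex.two_pi_I_ne_zero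
  rw [Complex.exp_eq_one_iff]
  refine exists_congr fun j => ?_
  constructor
  · intro e
    rw [div_eq_iff hA'] at e
    exact mul_left_cancel₀ hp (by linear_combination e)
  · intro e
    rw [e]
    field_simp

theorem h1b_S {L : Lt} (h : IsLat L) {A : ℝ} (hA : 0 < A)
    (hi : ∀ l ∈ L, ∃ j : ℤ, l * conj l = A * j) {z : ℂ} (hz : h1b_D L A z) :
    ∃ (R : Finset ℂ) (c : ℂ → ℂ), (∀ r ∈ R, h1b_D L A r) ∧
      Th L A z ∣[(2 : ℤ)] ModularGroup.S = ∑ r ∈ R, c r • Th L A r := by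
  have hA' : (A : ℂ) ≠ 0 := Complex.ofReal_ne_zero.mpr hA.ne'
  have ha : (ar L : ℂ) ≠ 0 := Complex.ofReal_ne_zero.mpr (ar_pos h).ne'
  obtain ⟨κ, hκ⟩ : ∃ κ : ℂ, κ = I * A / (2 * ar L) := ⟨_, rfl⟩
  have hκ0 : κ ≠ 0 := by
    rw [hκ]
    exact div_ne_zero (mul_ne_zero I_ne_zero hA') (mul_ne_zero two_ne_zero ha)
  have hmem : ∀ y : ℂ, y ∈ pr κ * L ↔ y / κ ∈ L := fun y => by
    rw [← mul_mem_sc (L := L) (z := y / κ) hκ0, mul_div_cancel₀ _ hκ0]
  have hL' : IsLat (pr κ * L) := h.pr_mul hκ0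
  have hle : L ≤ pr κ * L := by
    intro l hl
    rw [hmem, hκ]
    refine pa_dual h fun l' hl' => ?_
    obtain ⟨j, hj⟩ := hi l hl
    obtain ⟨j', hj'⟩ := hi l' hl'
    obtain ⟨k, hk⟩ := hi _ (L.add_mem hl hl')
    rw [h1b_pa' h hA, Complex.exp_neg, (h1b_one hA).mpr ⟨k - j - j', ?_⟩, inv_one]
    rw [map_add] at hk
    push_cast
    linear_combination hk - hj - hj'
  obtain ⟨R, hR⟩ := exists_reps h hL' hle
  refine ⟨R, fun r => A ^ 2 / (4 * ar L ^ 2) / conj κ * pa L (r / κ) z, fun r hr l hl => ?_, ?_⟩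
  · have h1 := pa_int h ((hmem r).mp (hR.2.2.1 r hr)) hl
    rw [hκ, h1b_pa h hA, h1b_one hA] at h1
    obtain ⟨j, hj⟩ := h1
    exact ⟨j, by linear_combination hj⟩
  funext τ
  have hτ : (τ : ℂ) ≠ 0 := τ.ne_zero
  have hu0 : 0 < (-(2 * π * I * τ) / A : ℂ).re := by
    rw [h1b_re]
    have := τ.im_pos
    rw [UpperHalfPlane.coe_im]
    positivity
  have hu : 0 < (-(2 * π * I * (ModularGroup.S • τ : ℍ)) / A : ℂ).re := by
    rw [h1b_re]
    have := (ModularGroup.S • τ).im_pos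
    rw [UpperHalfPlane.coe_im]
    positivity
  have hS : ((ModularGroup.S • τ : ℍ) : ℂ) = (-(τ : ℂ))⁻¹ := by
    rw [modular_S_smul]
  rw [SL_slash_apply, ModularGroup.denom_S, Finset.sum_apply, Th, poisson1 h z hu, hS]
  obtain ⟨f, hf⟩ : ∃ f : ℂ → ℂ, f = fun y => pa L (y / κ) z *
      (conj y * cexp (-(-(2 * π * I * τ) / A) * (y * conj y))) := ⟨_, rfl⟩
  have hsum : Summable fun l : (pr κ * L : Lt) => f l := by
    refine Summable.of_norm ?_
    have := summable_th hL' hu0 1 0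
    simp only [zero_add] at this
    simpa only [hf, norm_mul (pa _ _ _), norm_pa, one_mul, h1b_norm] using this
  have hck : conj κ ≠ 0 := (map_ne_zero _).mpr hκ0
  have e1 : ∑' l : L, conj (l : ℂ) * pa L l z * cexp (-(π ^ 2 / (ar L ^ 2 *
      (-(2 * π * I * (-(τ : ℂ))⁻¹) / A))) * (l * conj (l : ℂ))) =
      (conj κ)⁻¹ * ∑' l : (pr κ * L : Lt), f l := by
    rw [tsum_sc L hκ0 f, ← tsum_mul_left]
    refine tsum_congr fun l => ?_
    have e : -(π ^ 2 / (ar L ^ 2 * (-(2 * π * I * (-(τ : ℂ))⁻¹) / A))) * (l * conj (l : ℂ)) =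
        -(-(2 * π * I * τ) / A) * (κ * l * conj (κ * l)) := by
      have hp : (π : ℂ) ≠ 0 := Complex.ofReal_ne_zero.mpr Real.pi_ne_zero
      rw [hκ]
      simp only [map_div₀, map_mul, Complex.conj_I, Complex.conj_ofReal, map_ofNat]
      field_simp
      linear_combination ((l : ℂ) * conj (l : ℂ)) * Complex.I_pow_four
    rw [e, hf]
    simp only [mul_div_cancel_left₀ _ hκ0]
    rw [map_mul (starRingEnd ℂ) κ]
    field_simp
  have e2 : ∀ r ∈ R, ∑' l : L, f (r + l) = pa L (r / κ) z * Th L A r τ := fun r _ => by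
    rw [Th, th1, ← tsum_mul_left]
    refine tsum_congr fun l => ?_
    have : pa L (l / κ) z = 1 := by
      rw [hκ, h1b_pa h hA, h1b_one hA]
      exact hz l l.2
    rw [hf]
    simp only [add_div, pa_add', this, mul_one]
  rw [e1, reps_tsum hR hsum, Finset.sum_congr rfl e2, Finset.mul_sum, Finset.mul_sum,
    Finset.sum_mul]
  refine Finset.sum_congr rfl fun r _ => ?_
  have hp : (π : ℂ) ≠ 0 := Complex.ofReal_ne_zero.mpr Real.pi_ne_zero
  simp only [Pi.smul_apply, smul_eq_mul, zpow_neg, zpow_ofNat]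
  field_simp
  linear_combination (-(pa L (r / κ) z * Th L A r τ * 4)) * Complex.I_mul_I

theorem Th_cusp {L : Lt} (h : IsLat L) {A : ℝ} (hA : 0 < A)
    (hi : ∀ l ∈ L, ∃ j : ℤ, l * conj l = A * j) {z : ℂ}
    (hz : ∀ l ∈ L, ∃ j : ℤ, z * conj l + conj z * l = A * j) (g : SL(2, ℤ)) :
    IsZeroAtImInfty (Th L A z ∣[(2 : ℤ)] g) := by
  have hT : ∀ (n : ℤ) (y : SL(2, ℤ)),
      (∀ z, h1b_D L A z → Th L A z ∣[(2 : ℤ)] y ∈ zeroAtImInftySubmodule ℂ) →
      ∀ z, h1b_D L A z → Th L A z ∣[(2 : ℤ)] (ModularGroup.T ^ n * y) ∈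
        zeroAtImInftySubmodule ℂ := fun n y hy z hz => by
    rw [SlashAction.slash_mul, h1b_T hA hi hz, SL_smul_slash]
    exact Submodule.smul_mem _ _ (hy z hz)
  have hS : ∀ y : SL(2, ℤ),
      (∀ z, h1b_D L A z → Th L A z ∣[(2 : ℤ)] y ∈ zeroAtImInftySubmodule ℂ) →
      ∀ z, h1b_D L A z → Th L A z ∣[(2 : ℤ)] (ModularGroup.S * y) ∈
        zeroAtImInftySubmodule ℂ := fun y hy z hz => by
    obtain ⟨R, c, hR, e⟩ := h1b_S h hA hi hz
    rw [SlashAction.slash_mul, e, SlashAction.sum_slash]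
    refine Submodule.sum_mem _ fun r hr => ?_
    rw [SL_smul_slash]
    exact Submodule.smul_mem _ _ (hy r (hR r hr))
  have hg : g ∈ Subgroup.closure {ModularGroup.S, ModularGroup.T} := by
    simp [SpecialLinearGroup.SL2Z_generators]
  have key : ∀ z, h1b_D L A z → Th L A z ∣[(2 : ℤ)] g ∈ zeroAtImInftySubmodule ℂ := by
    induction hg using Subgroup.closure_induction_left with
    | one =>
      intro z _
      rw [SlashAction.slash_one]
      exact Th_zero h hA z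
    | mul_left x hx y _ ih =>
      rcases hx with rfl | rfl
      · exact hS y ih
      · simpa only [zpow_one] using hT 1 y ih
    | inv_mul_cancel x hx y _ ih =>
      rcases hx with rfl | rfl
      · have e : ModularGroup.S⁻¹ * y = ModularGroup.S * (ModularGroup.S * (ModularGroup.S * y)) := by
          have : ModularGroup.S⁻¹ = ModularGroup.S * ModularGroup.S * ModularGroup.S := by decide
          rw [this, mul_assoc, mul_assoc]
        rw [e]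
        exact hS _ (hS _ (hS y ih))
      · simpa only [zpow_neg, zpow_one] using hT (-1) y ih
  exact key z hz

end Pool.Agent.P.MP_20768c_nt.Tz.Cv

end

-- part Cv.C2
section

set_option autoImplicit false

open Complex NumberField IsDedekindDomain Filter Topology
open UpperHalfPlane hiding I
open scoped ComplexConjugate Real MatrixGroups

namespace Pool.Agent.P.MP_20768c_nt.Tz.Cv

open Pool.Agent.P.MP_20768c_nt.Tz.EQ (Lt pr sp IsLat jL qN)

namespace St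

variable (s : St) {L : s.Sub} {a b n g : Ideal s.O} {p q : s.Pair} {x ρ : ℂ}

theorem finite_Pr (hn : n ≠ ⊥) : Finite (s.Pr n) := by
  classical
  obtain ⟨T, hT, hT'⟩ := s.exists_fin
  have hR : ∀ M : s.Sub, ∃ R : Finset ℂ,
      IsUnit M → Reps (s.zl (s.idl n * M)) (s.zl M) R := by
    intro M
    by_cases hM : IsUnit M
    · obtain ⟨R, hR⟩ := exists_reps (s.isLat_zl ((s.isUnit_idl hn).mul hM)) (s.isLat_zl hM)
        (s.zl_le.2 (s.idl_mul_le n M))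
      exact ⟨R, fun _ => hR⟩
    · exact ⟨∅, fun h => absurd h hM⟩
  choose R hR using hR
  rw [← Set.finite_univ_iff]
  refine Set.Finite.subset
    (T.biUnion fun M => (R M).image fun r => s.cl n (s.mkP M r)).finite_toSet ?_
  intro C _
  obtain ⟨M, hM, y, hy, e⟩ := hT' (s.out C).L (s.out C).unit
  have hu := hT M hM
  obtain ⟨z, hz, ez⟩ := s.mem_sc_mul.1 (e ▸ (s.out C).mem)
  obtain ⟨r, ⟨hr, hr'⟩, -⟩ := (hR M hu).2.2.2 z (s.mem_zl.2 hz)
  have hrM : r ∈ M := s.mem_zl.1 ((hR M hu).2.2.1 r hr)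
  simp only [Finset.coe_biUnion, Finset.coe_image, Set.mem_iUnion, Set.mem_image, Finset.mem_coe]
  refine ⟨M, hM, r, hr, ?_⟩
  rw [← s.cl_out C, s.cl_eq]
  refine ⟨y, hy, by rw [s.mkP_L hu hrM, e], ?_⟩
  rw [s.mkP_ρ hu hrM, e, ← ez, ← mul_sub]
  exact s.sc_mem (s.mem_zl.1 hr')

theorem Qn_eq (p : s.Pair) : (s.Qn p : ℝ) = ‖p.ρ‖ ^ 2 / s.nL p.L := by
  by_cases h : p.ρ = 0
  · rw [Qn, s.idOf_eq_bot.2 h, h]
    simp
  · have h0 : s.idOf p ≠ ⊥ := fun e => h (s.idOf_eq_bot.1 e)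
    have h1 := s.nL_idl p.unit h0
    have h2 := s.nL_sc (L := 1) isUnit_one h
    rw [s.idOf_spec, ← mul_one (s.sc p.ρ), h2, s.nL_one, mul_one] at h1
    rw [Qn, eq_div_iff (s.nL_pos p.unit).ne', h1]

theorem Qn_mul (p q : s.Pair) : s.Qn (p * q) = s.Qn p * s.Qn q := by
  rw [Qn, s.idOf_mul, map_mul, Qn, Qn]

theorem Qn_one : s.Qn 1 = 1 := by
  rw [← s.ip_top, Qn, s.idOf_ip top_ne_bot, Ideal.absNorm_top]

theorem Qn_ip (ha : a ≠ ⊥) : s.Qn (s.ip a) = Ideal.absNorm a := by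
  rw [Qn, s.idOf_ip ha]

theorem Qn_np (β : s.O) : s.Qn (s.np β) = Ideal.absNorm (Ideal.span {β}) := by
  rw [Qn, s.idOf_np]

theorem c2_Qn (p : s.Pair) : (s.Qn p : ℂ) * s.nL p.L = p.ρ * conj p.ρ := by
  have h := s.Qn_eq p
  rw [eq_div_iff (s.nL_pos p.unit).ne'] at h
  rw [Complex.mul_conj, Complex.normSq_eq_norm_sq, ← h]
  push_cast
  rfl

theorem Qn_mod {N : ℕ} (hN : n ≤ Ideal.span {(N : s.O)}) (h : s.cl n p = s.cl n q) :
    s.Qn p ≡ s.Qn q [MOD N] := by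
  obtain ⟨y, hy, e, hm⟩ := (s.cl_eq.1 (s.cl_mono hN h))
  rw [s.idl_span, s.mem_sc_mul] at hm
  obtain ⟨l, hl, el⟩ := hm
  rw [s.c_nat] at el
  have hu : y * p.ρ ∈ q.L := e ▸ Submodule.mul_mem_mul (s.mem_sc y) p.mem
  obtain ⟨β₁, h1⟩ := s.mul_conj_mem q.unit hu hl
  obtain ⟨β₂, h2⟩ := s.mul_conj_mem q.unit hl hu
  obtain ⟨β₃, h3⟩ := s.mul_conj_mem q.unit hl hl
  have k1 := s.c2_Qn p
  have k2 := s.c2_Qn q
  have k3 : (s.nL q.L : ℂ) = y * conj y * s.nL p.L := by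
    rw [e, s.nL_sc p.unit hy, Complex.mul_conj, Complex.normSq_eq_norm_sq]
    push_cast
    rfl
  have k4 : q.ρ = y * p.ρ + N * l := by rw [el]; ring
  have k0 : (s.nL q.L : ℂ) ≠ 0 := by exact_mod_cast (s.nL_pos q.unit).ne'
  have k5 : (s.Qn q : ℂ) - s.Qn p = N * s.c (β₁ + β₂ + N * β₃) := by
    apply mul_right_cancel₀ k0
    rw [s.c_add, s.c_add, s.c_mul, s.c_nat]
    rw [k4, map_add, map_mul (starRingEnd ℂ) (N : ℂ), Complex.conj_natCast] at k2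
    rw [map_mul] at k2 h2
    linear_combination k2 - y * conj y * k1 - (s.Qn p : ℂ) * k3 + N * h1 + N * h2 + N ^ 2 * h3
  obtain ⟨i, j, hij⟩ := s.span (β₁ + β₂ + N * β₃)
  have k6 : (((s.Qn q : ℤ) - s.Qn p - N * i : ℤ) : s.O) + ((-(N * j) : ℤ) : s.O) * s.w = 0 := by
    apply s.c_inj
    have z0 : s.c 0 = 0 := by simpa using s.c_nat 0
    rw [hij, s.c_add, s.c_mul, s.c_int, s.c_int] at k5
    rw [s.c_add, s.c_mul, s.c_int, s.c_int, z0]
    push_cast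
    linear_combination k5
  rw [Nat.modEq_iff_dvd]
  exact ⟨i, by linear_combination (s.indep k6).1⟩

theorem Qn_cop {N : ℕ} (hN : n ≤ Ideal.span {(N : s.O)}) (h : IsUnit (s.cl n p)) :
    Nat.Coprime (s.Qn p) N := by
  obtain ⟨C, hC⟩ := h.exists_right_inv
  rw [← s.cl_out C, ← map_mul, ← map_one (s.cl n)] at hC
  have h1 := s.Qn_mod hN hC
  rw [s.Qn_mul, s.Qn_one] at h1
  exact Nat.coprime_of_mul_modEq_one _ h1

/-- a generator of `L` at the primes dividing `a` -/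
theorem c2_gen (hL : IsUnit L) (ha : a ≠ ⊥) :
    ∃ r ∈ L, ∀ g : Ideal s.O, a ≤ g → g ≠ ⊤ → r ∉ s.idl g * L := by
  obtain ⟨y, hy, b, hb, rfl⟩ := s.unit_eq hL
  obtain ⟨β, hβ⟩ := IsDedekindDomain.exists_sup_span_eq (I := a * b) (J := b) Ideal.mul_le_right
    (mul_ne_zero ha hb)
  have hβb : β ∈ b := (Ideal.span_singleton_le_iff_mem b).1 (le_sup_right.trans hβ.le)
  refine ⟨y * s.c β, (s.mul_mem_sc' hy).2 (s.c_mem_idl.2 hβb), fun g hg hg' hm => hg' ?_⟩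
  rw [mul_left_comm, s.mul_mem_sc' hy, ← s.idl_mul, s.c_mem_idl] at hm
  have h1 : b ≤ g * b := by
    refine hβ.ge.trans (sup_le (Ideal.mul_mono_left hg) ?_)
    exact (Ideal.span_singleton_le_iff_mem _).2 hm
  have h2 : g * b = ⊤ * b := by
    rw [Ideal.top_mul]
    exact le_antisymm Ideal.mul_le_right h1
  exact mul_right_cancel₀ hb h2

theorem c2_rep (hn : n ≠ ⊥) (h : IsUnit (s.cl n p)) (ha : a ≠ ⊥) :
    ∃ q, s.cl n q = s.cl n p ∧ IsCoprime (s.idOf q) (n * a) := by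
  classical
  obtain ⟨r, hr, hr'⟩ := s.c2_gen p.unit ha
  let P : Finset (HeightOneSpectrum s.O) :=
    (Ideal.finite_factors (I := a) ha).toFinset.filter fun v => ¬n ≤ v.asIdeal
  have hc : IsCoprime n (∏ v ∈ P, v.asIdeal) := by
    refine IsCoprime.prod_right fun v hv => ?_
    rw [Ideal.isCoprime_iff_sup_eq]
    by_contra hne
    exact (Finset.mem_filter.1 hv).2
      (le_sup_left.trans (v.isMaximal.eq_of_le hne le_sup_right).ge)
  obtain ⟨ν, hν, μ, hμ, e⟩ := Ideal.isCoprime_iff_exists.1 hc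
  have hl : s.c ν * (r - p.ρ) ∈ s.idl n * p.L := s.mul_mem_idl hν (sub_mem hr p.mem)
  have hm : p.ρ + s.c ν * (r - p.ρ) ∈ p.L := add_mem p.mem (s.idl_mul_le n p.L hl)
  have hcl : s.cl n p = s.cl n (s.mkP p.L (p.ρ + s.c ν * (r - p.ρ))) :=
    s.cl_eq.2 ⟨1, s.sim_add p hl⟩
  refine ⟨_, hcl.symm, IsCoprime.mul_right ((s.unit_cl hn).1 (hcl ▸ h)) ?_⟩
  rw [Ideal.isCoprime_iff_sup_eq]
  by_contra hne
  obtain ⟨Q, hQ, hle⟩ := Ideal.exists_le_maximal _ hne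
  have haQ : a ≤ Q := le_sup_right.trans hle
  have h1 := s.idOf_le.1 (le_sup_left.trans hle)
  by_cases hnQ : n ≤ Q
  · exact s.unit_not_mem (hcl ▸ h) hnQ hQ.ne_top h1
  · rw [s.mkP_L p.unit hm, s.mkP_ρ p.unit hm] at h1
    have hQ0 : Q ≠ ⊥ := fun e0 => ha (le_bot_iff.1 (e0 ▸ haQ))
    let v : HeightOneSpectrum s.O := ⟨Q, hQ.isPrime, hQ0⟩
    have hv : v ∈ P := Finset.mem_filter.2
      ⟨(Set.Finite.mem_toFinset _).2 (Ideal.dvd_iff_le.2 haQ), hnQ⟩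
    have hμQ : μ ∈ Q := Ideal.le_of_dvd (Finset.dvd_prod_of_mem (fun v => v.asIdeal) hv) hμ
    have h2 : s.c μ * (r - p.ρ) ∈ s.idl Q * p.L := s.mul_mem_idl hμQ (sub_mem hr p.mem)
    have e' : s.c ν + s.c μ = 1 := by rw [← s.c_add, e, s.c_one]
    have e2 : r = p.ρ + s.c ν * (r - p.ρ) + s.c μ * (r - p.ρ) := by
      linear_combination (p.ρ - r) * e'
    exact hr' Q haQ hQ.ne_top (e2 ▸ add_mem h1 h2)

theorem exists_rep (hn : n ≠ ⊥) (h : IsUnit (s.cl n p)) (ha : a ≠ ⊥) :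
    ∃ b, b ≠ ⊥ ∧ IsCoprime b (n * a) ∧ s.cl n (s.ip b) = s.cl n p := by
  obtain ⟨q, hq, hc⟩ := s.c2_rep (a := a * s.p1) hn h (mul_ne_zero ha s.p1_ne)
  rw [← mul_assoc] at hc
  have h0 : s.idOf q ≠ ⊥ := by
    intro e
    have h1 := Ideal.isCoprime_iff_sup_eq.1 hc.of_mul_right_right
    rw [e, bot_sup_eq] at h1
    exact s.p1_max.ne_top h1
  exact ⟨_, h0, hc.of_mul_right_left,
    (s.cl_ip_idOf n fun e => h0 (s.idOf_eq_bot.2 e)).trans hq⟩

theorem cl_np_eq_one {β : s.O} : s.cl n (s.np β) = 1 ↔ β - 1 ∈ n ∨ β + 1 ∈ n := by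
  rw [← map_one (s.cl n), eq_comm, s.cl_eq]
  simp only [Sim, s.np_L, s.np_ρ, s.one_L, s.one_ρ, mul_one]
  constructor
  · rintro ⟨y, -, h1, h2⟩
    rcases s.sc_eq_one h1.symm with rfl | rfl
    · left
      rw [← s.c_mem_idl, s.c_sub, s.c_one]
      exact h2
    · right
      rw [← s.c_mem_idl, s.c_add, s.c_one, ← sub_neg_eq_add]
      exact h2
  · rintro (h | h)
    · refine ⟨1, one_ne_zero, s.sc_one.symm, ?_⟩
      rw [← s.c_mem_idl, s.c_sub, s.c_one] at h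
      exact h
    · refine ⟨-1, by simp, ?_, ?_⟩
      · rw [← s.sc_one, sc, sc, ← Set.neg_singleton, Submodule.span_neg]
      · rw [← s.c_mem_idl, s.c_add, s.c_one, ← sub_neg_eq_add] at h
        exact h

theorem exists_proj (hle : n ≤ g) : ∃ π' : s.Pr n →* s.Pr g, ∀ p, π' (s.cl n p) = s.cl g p :=
  ⟨(s.rel n).lift (s.cl g) fun _ _ h => s.cl_mono hle (s.cl_eq.2 h), fun _ => rfl⟩

theorem exists_nm {N : ℕ} (hN : n ≤ Ideal.span {(N : s.O)}) :
    ∃ ν : s.Pr n →* ZMod N, ∀ p, ν (s.cl n p) = s.Qn p := by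
  let f : s.Pair →* ZMod N :=
    { toFun := fun p => s.Qn p
      map_one' := by rw [s.Qn_one, Nat.cast_one]
      map_mul' := fun p q => by rw [s.Qn_mul, Nat.cast_mul] }
  exact ⟨(s.rel n).lift f fun _ _ h =>
    (ZMod.natCast_eq_natCast_iff _ _ _).2 (s.Qn_mod hN (s.cl_eq.2 h)), fun _ => rfl⟩

theorem ker_proj (n : Ideal s.O) (h : s.cl g p = 1) :
    ∃ β : s.O, β - 1 ∈ g ∧ s.cl n p = s.cl n (s.np β) := by
  rw [← map_one (s.cl g), eq_comm, s.cl_eq] at h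
  obtain ⟨y, hy, h1, h2⟩ := h
  rw [s.one_L] at h1
  rw [s.one_ρ, h1, mul_one, mul_one, mul_comm, s.mem_sc_mul] at h2
  obtain ⟨z, hz, ez⟩ := h2
  obtain ⟨γ, hγ, rfl⟩ := s.mem_idl.1 hz
  refine ⟨γ + 1, by simpa using hγ, (s.cl_eq.2 ⟨y, hy, by rw [s.np_L, h1], ?_⟩).symm⟩
  have e : p.ρ - y * (s.np (γ + 1)).ρ = 0 := by
    rw [s.np_ρ, s.c_add, s.c_one]
    linear_combination -ez
  rw [e]
  exact zero_mem _

theorem lift_unit (hn : n ≠ ⊥) (hg : g ≠ ⊥) (h : IsUnit (s.cl g p)) :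
    ∃ q, IsUnit (s.cl n q) ∧ s.cl g q = s.cl g p := by
  obtain ⟨b, hb, hc, e⟩ := s.exists_rep hg h hn
  refine ⟨s.ip b, (s.unit_cl hn).2 ?_, e⟩
  rw [s.idOf_ip hb]
  exact hc.of_mul_right_right

end St

end Pool.Agent.P.MP_20768c_nt.Tz.Cv

end

-- part Cv.G5_p
section

set_option autoImplicit false

open Complex NumberField IsDedekindDomain Filter Topology
open UpperHalfPlane hiding I
open scoped ComplexConjugate Real MatrixGroups

namespace Pool.Agent.P.MP_20768c_nt.Tz.Cv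

open Pool.Agent.P.MP_20768c_nt.Tz.EQ (Lt pr sp IsLat jL qN)

variable {L L' : Lt} {R : Finset ℂ} {z : ℂ}

theorem th0_reps (h' : IsLat L') (hR : Reps L L' R) (z : ℂ) {u : ℂ} (hu : 0 < u.re) :
    th0 L' z u = ∑ r ∈ R, th0 L (z + r) u := by
  unfold th0
  rw [reps_tsum hR (f := fun l => cexp (-u * ((z + l) * conj (z + l))))
    (Summable.of_norm ((summable_th h' hu 0 z).congr fun l => by
      rw [pow_zero, one_mul, Complex.norm_exp, Complex.mul_conj, Complex.normSq_eq_norm_sq,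
        Complex.re_mul_ofReal, neg_re]))]
  simp only [add_assoc]

theorem eG_reps (h : IsLat L) (h' : IsLat L') (hR : Reps L L' R) (hz : z ∉ L') :
    eG L' z = ∑ r ∈ R, eG L (z + r) := by
  have hi : ∀ r ∈ R, MeasureTheory.IntegrableOn
      (fun u : ℝ => ((th0 L (z + r) u).re - π / (ar L * u)) / u) (Set.Ioi 0) := fun r hr =>
    int_th0 h fun k => hz (by simpa using L'.sub_mem (hR.1 k) (hR.2.2.1 r hr))
  unfold eG
  rw [← MeasureTheory.integral_finsetSum R hi]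
  refine MeasureTheory.setIntegral_congr_fun measurableSet_Ioi fun u hu => ?_
  have hu0 : (0 : ℝ) < u := hu
  have e : th0 L' z u = ∑ r ∈ R, th0 L (z + r) u := th0_reps h' hR z (by rwa [ofReal_re])
  have hc : (R.card : ℝ) ≠ 0 := Nat.cast_ne_zero.2 (Finset.card_ne_zero.2 ⟨0, hR.2.1⟩)
  have ha := (ar_pos h').ne'
  rw [← Finset.sum_div, Finset.sum_sub_distrib, ← re_sum, ← e, Finset.sum_const, nsmul_eq_mul,
    ar_reps h h' hR]
  congr 2
  field_simp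

theorem g5p_tower {A B L : Lt} {R R₁ R₂ : Finset ℂ} (hR : Reps A L R) (h1 : Reps B L R₁)
    (h2 : Reps A B R₂) (f : ℂ → ℂ) (hf : ∀ a ∈ L, ∀ l ∈ A, f (a + l) = f a) :
    ∑ r ∈ R, f r = ∑ r ∈ R₁, ∑ r' ∈ R₂, f (r + r') := by
  classical
  have inj : ∀ p ∈ R₁ ×ˢ R₂, ∀ p' ∈ R₁ ×ˢ R₂, p.1 + p.2 - (p'.1 + p'.2) ∈ A → p = p' := by
    rintro ⟨a, b⟩ hp ⟨a', b'⟩ hp' k
    obtain ⟨ha, hb⟩ := Finset.mem_product.1 hp
    obtain ⟨ha', hb'⟩ := Finset.mem_product.1 hp'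
    have k1 : a = a' := h1.sub_mem ha ha' (by
      have := B.add_mem (B.sub_mem (h2.1 k) (h2.2.2.1 b hb)) (h2.2.2.1 b' hb')
      rwa [show a + b - (a' + b') - b + b' = a - a' by ring] at this)
    subst k1
    exact Prod.ext rfl (h2.sub_mem hb hb' (by simpa using k))
  have hR' : Reps A L ((R₁ ×ˢ R₂).image fun p => p.1 + p.2) := by
    refine ⟨hR.1, Finset.mem_image.2 ⟨(0, 0), Finset.mem_product.2 ⟨h1.2.1, h2.2.1⟩, add_zero 0⟩,
      fun r hr => ?_, fun x hx => ?_⟩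
    · obtain ⟨p, hp, rfl⟩ := Finset.mem_image.1 hr
      obtain ⟨ha, hb⟩ := Finset.mem_product.1 hp
      exact L.add_mem (h1.2.2.1 _ ha) (h1.1 (h2.2.2.1 _ hb))
    · obtain ⟨a, ⟨ha, ka⟩, -⟩ := h1.2.2.2 x hx
      obtain ⟨b, ⟨hb, kb⟩, -⟩ := h2.2.2.2 _ ka
      have hab : (a, b) ∈ R₁ ×ˢ R₂ := Finset.mem_product.2 ⟨ha, hb⟩
      refine ⟨a + b, ⟨Finset.mem_image.2 ⟨(a, b), hab, rfl⟩, by rwa [← sub_sub]⟩, ?_⟩
      rintro y ⟨hy, ky⟩
      obtain ⟨p, hp, rfl⟩ := Finset.mem_image.1 hy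
      rw [inj p hp (a, b) hab (by
        have := A.sub_mem kb ky
        rwa [show x - a - b - (x - (p.1 + p.2)) = p.1 + p.2 - (a + b) by ring] at this)]
  rw [hR.sum_congr hR' f hf, Finset.sum_image fun p hp p' hp' e =>
    inj p hp p' hp' (by rw [show p.1 + p.2 = p'.1 + p'.2 from e, sub_self]; exact A.zero_mem),
    Finset.sum_product]

open Classical in
theorem g5p_filter {A Q L : Lt} {R : Finset ℂ} (hR : Reps A L R) (h1 : A ≤ Q) (h2 : Q ≤ L) :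
    Reps A Q (R.filter (· ∈ Q)) := by
  refine ⟨h1, Finset.mem_filter.2 ⟨hR.2.1, Q.zero_mem⟩, fun r hr => (Finset.mem_filter.1 hr).2,
    fun x hx => ?_⟩
  obtain ⟨r, ⟨hr, k⟩, hu⟩ := hR.2.2.2 x (h2 hx)
  exact ⟨r, ⟨Finset.mem_filter.2 ⟨hr, by simpa using Q.sub_mem hx (h1 k)⟩, k⟩,
    fun y hy => hu y ⟨(Finset.mem_filter.1 hy.1).1, hy.2⟩⟩

end Pool.Agent.P.MP_20768c_nt.Tz.Cv

end

-- part Cv.C3
section

set_option autoImplicit false

open Complex NumberField IsDedekindDomain Filter Topology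
open UpperHalfPlane hiding I
open scoped ComplexConjugate Real MatrixGroups

namespace Pool.Agent.P.MP_20768c_nt.Tz.Cv

open Pool.Agent.P.MP_20768c_nt.Tz.EQ (Lt pr sp IsLat jL qN)

theorem c3_bij {β γ : Type} {Φ : β → ℂ} (hs : Summable Φ) (e : γ → β)
    (inj : ∀ x y, Φ (e x) ≠ 0 → e x = e y → x = y) (surj : ∀ b, Φ b ≠ 0 → ∃ x, e x = b) :
    HasSum (fun x => Φ (e x)) (∑' b, Φ b) := by
  have hi : Function.Injective fun x : Function.support fun x => Φ (e x) => e x.1 :=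
    fun x y h => Subtype.ext (inj _ _ x.2 h)
  refine hasSum_subtype_support.1 ((hi.hasSum_iff fun b hb => ?_).2 hs.hasSum)
  by_contra h
  obtain ⟨x, rfl⟩ := surj b h
  exact hb ⟨⟨x, h⟩, rfl⟩

theorem c3_two {β γ : Type} {Φ : β → ℂ} (hs : Summable Φ) (e : γ → β) (ι : γ → γ)
    (h1 : ∀ x, e (ι x) = e x) (h2 : ∀ x, Φ (e x) ≠ 0 → ι x ≠ x)
    (inj : ∀ x y, Φ (e x) ≠ 0 → e x = e y → y = x ∨ y = ι x)
    (surj : ∀ b, Φ b ≠ 0 → ∃ x, e x = b) : HasSum (fun x => Φ (e x)) (2 * ∑' b, Φ b) := by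
  classical
  have h3 : HasSum (Sum.elim Φ Φ) (∑' b, Φ b + ∑' b, Φ b) := HasSum.sum hs.hasSum hs.hasSum
  let r : γ → γ := fun x => Classical.choose (⟨x, rfl⟩ : ∃ z, e z = e x)
  have hr : ∀ x, e (r x) = e x := fun x => Classical.choose_spec (⟨x, rfl⟩ : ∃ z, e z = e x)
  have hr' : ∀ x y, e x = e y → r x = r y := fun x y h => by
    simp only [r, h]
  let e' : γ → β ⊕ β := fun x => if x = r x then .inl (e x) else .inr (e x)
  have h4 : ∀ x, Sum.elim Φ Φ (e' x) = Φ (e x) := fun x => by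
    simp only [e']
    split_ifs <;> rfl
  have h5 := c3_bij h3.summable e' (fun x y hx h => by
      rw [h4] at hx
      simp only [e'] at h
      split_ifs at h with a b b
      · rw [a, b, hr' _ _ (Sum.inl.inj h)]
      · have h6 := Sum.inr.inj h
        rw [(inj _ x (by rwa [hr]) (hr x)).resolve_left a,
          (inj _ y (by rwa [hr, ← h6]) (hr y)).resolve_left b, hr' _ _ h6])
    (by
      rintro (b | b) hb <;> obtain ⟨x, rfl⟩ := surj b hb
      · exact ⟨r x, by simp only [e', hr' _ _ (hr x), hr, if_true]⟩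
      · refine ⟨ι (r x), ?_⟩
        simp only [e', hr' _ x ((h1 _).trans (hr x)), h1, hr]
        exact if_neg (h2 _ (by rwa [hr])))
  simp only [h4] at h5
  rwa [h3.tsum_eq, ← two_mul] at h5

theorem c3_sigma {β : Type} [Finite β] {γ : β → Type} {f : (Σ b, γ b) → ℂ} {a : ℂ}
    (h : HasSum f a) : a = ∑ᶠ b, ∑' c, f ⟨b, c⟩ := by
  rw [← h.tsum_eq, h.summable.tsum_sigma, tsum_eq_finsum (L := .unconditional _) (Set.toFinite _)]

namespace St

variable (s : St) {n : Ideal s.O}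

theorem c3_sc {x y : ℂ} (hx : x ≠ 0) (h : s.sc x = s.sc y) : y = x ∨ y = -x := by
  have h1 : s.sc (x⁻¹ * y) = 1 := by
    rw [sc_mul, ← h, ← sc_mul, inv_mul_cancel₀ hx, sc_one]
  refine (s.sc_eq_one h1).imp (fun e => ?_) fun e => ?_
  · rw [← mul_inv_cancel_left₀ hx y, e, mul_one]
  · rw [← mul_inv_cancel_left₀ hx y, e, mul_neg_one]

theorem c3_id {L : s.Sub} {x y : ℂ} (hL : IsUnit L) (hx : x ∈ L) (hy : y ∈ L) (h0 : x ≠ 0)
    (h : s.idOf (s.mkP L x) = s.idOf (s.mkP L y)) : y = x ∨ y = -x := by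
  have h1 := s.idOf_spec (s.mkP L x)
  have h2 := s.idOf_spec (s.mkP L y)
  rw [s.mkP_L hL hx, s.mkP_ρ hL hx, h] at h1
  rw [s.mkP_L hL hy, s.mkP_ρ hL hy] at h2
  exact s.c3_sc h0 (h1.symm.trans h2)

theorem c3_sim {p q : s.Pair} {t : ℂ} (h1 : q.L = s.sc t * p.L) (h2 : q.ρ = t * p.ρ) :
    s.idOf q = s.idOf p := by
  have h : s.idl (s.idOf q) = s.idl (s.idOf p) := q.unit.mul_right_cancel (by
    rw [idOf_spec, h1, h2, mul_left_comm, idOf_spec, sc_mul])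
  exact le_antisymm (s.idl_le.1 h.le) (s.idl_le.1 h.ge)

theorem c3_neg (L : s.Sub) : L = s.sc (-1) * L := by
  rw [show s.sc (-1) = s.sc 1 from by simp [sc, ← Set.neg_singleton], sc_one, one_mul]

theorem c3_mem {p : s.Pair} {g : Ideal s.O} (h : 2 * p.ρ ∈ s.idl g * p.L) :
    s.idOf p * Ideal.span {2} ≤ g := by
  rw [← idOf_np, ← idOf_mul, idOf_le, mul_L, mul_ρ, np_L, np_ρ, mul_one, mul_comm p.ρ]
  exact (show s.c 2 = 2 from s.c_nat 2).symm ▸ h

theorem c3_cl (C : s.Pr n) {l : ℂ} (hl : l ∈ s.idl n * (s.out C).L) :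
    s.cl n (s.mkP (s.out C).L ((s.out C).ρ + l)) = C :=
  (s.cl_eq.2 ⟨1, s.sim_add _ hl⟩).symm.trans (s.cl_out C)

theorem c3_top (C : s.Pr ⊤) {x : ℂ} (hx : x ∈ (s.out C).L) :
    s.cl ⊤ (s.mkP (s.out C).L x) = C := by
  have h := s.c3_cl C (l := x - (s.out C).ρ) (by
    rw [idl_top, one_mul]
    exact sub_mem hx (s.out C).mem)
  rwa [add_sub_cancel] at h

theorem c3_eq {p q : s.Pair} (h0 : s.idOf p ≠ ⊥) (h : s.idOf p = s.idOf q) :
    s.cl n p = s.cl n q := by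
  rw [← s.cl_ip_idOf n (mt s.idOf_eq_bot.2 h0), h,
    s.cl_ip_idOf n (mt s.idOf_eq_bot.2 (h ▸ h0))]

theorem summable_ideal_exp {y : ℝ} (hy : 0 < y) :
    Summable fun a : Ideal s.O => (Ideal.absNorm a : ℝ) * Real.exp (-y * Ideal.absNorm a) := by
  refine Summable.of_nonneg_of_le (fun a => by positivity) (fun a => ?_)
    ((summable_norm s.k (t := 2) one_lt_two).mul_left (6 / y ^ 3))
  generalize Ideal.absNorm a = m
  rcases m.eq_zero_or_pos with rfl | hm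
  · simp
  have hx : (0 : ℝ) < m := by exact_mod_cast hm
  generalize (m : ℝ) = x at hx
  have h := Real.pow_div_factorial_le_exp (y * x) (by positivity) 3
  rw [neg_mul, Real.exp_neg, Real.rpow_neg hx.le, Real.rpow_two, ← div_eq_mul_inv,
    ← div_eq_mul_inv, div_div, div_le_div_iff₀ (Real.exp_pos _) (by positivity)]
  norm_num [Nat.factorial] at h
  linarith

theorem tsum_cl (hn : n ≠ ⊥) (h2 : n ≤ s.p2) {Φ : Ideal s.O → ℂ} (hs : Summable Φ)
    (h0 : ∀ a, a ≤ s.p2 → Φ a = 0) : ∑' a, Φ a = ∑ᶠ C : s.Pr n,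
      ∑' l : s.zl (s.idl n * (s.out C).L), Φ (s.idOf (s.mkP (s.out C).L ((s.out C).ρ + l))) := by
  have := s.finite_Pr hn
  have hm : ∀ (C : s.Pr n) (l : s.zl (s.idl n * (s.out C).L)), (s.out C).ρ + l ∈ (s.out C).L :=
    fun C l => add_mem (s.out C).mem (s.idl_mul_le n _ l.2)
  refine c3_sigma (c3_bij hs (fun x : Σ C : s.Pr n, s.zl (s.idl n * (s.out C).L) =>
    s.idOf (s.mkP (s.out x.1).L ((s.out x.1).ρ + x.2))) ?_ fun a ha => ?_)
  · rintro ⟨C, l⟩ ⟨C', l'⟩ hx h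
    have h1 := mt (h0 _) hx
    have h3 := mt (fun e => Eq.trans_le e bot_le) h1
    obtain rfl : C = C' := (s.c3_cl C l.2).symm.trans ((s.c3_eq h3 h).trans (s.c3_cl C' l'.2))
    have h4 := mt s.idOf_eq_bot.2 h3
    rw [s.mkP_ρ (s.out C).unit (hm C l)] at h4
    rcases s.c3_id (s.out C).unit (hm C l) (hm C l') h4 h with e | e
    · rw [Subtype.ext (add_left_cancel e)]
    refine absurd ?_ h1
    have h5 := s.c3_mem (p := s.mkP (s.out C).L ((s.out C).ρ + l)) (g := s.p2) (by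
      rw [s.mkP_ρ (s.out C).unit (hm C l), s.mkP_L (s.out C).unit (hm C l),
        show 2 * ((s.out C).ρ + l) = l - l' by linear_combination e]
      exact mul_le_mul_left (s.idl_le.2 h2) _ (sub_mem l.2 l'.2))
    exact (s.p2_max.isPrime.mul_le.1 h5).resolve_right fun h6 =>
      s.two_not_mem.2 (h6 (Ideal.mem_span_singleton_self _))
  · have h1 : a ≠ ⊥ := fun e => ha (h0 a (e.trans_le bot_le))
    obtain ⟨t, -, h3, h4⟩ := s.cl_eq.1 (s.cl_out (s.cl n (s.ip a))).symm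
    have h5 := hm _ ⟨_, neg_mem h4⟩
    refine ⟨⟨_, _, neg_mem h4⟩, (s.c3_sim (t := t) ?_ ?_).trans (s.idOf_ip h1)⟩
    · rw [s.mkP_L (s.out _).unit h5, h3]
    · rw [s.mkP_ρ (s.out _).unit h5]
      ring

theorem tsum_half {Φ : Ideal s.O → ℂ} (hs : Summable Φ) (h0 : Φ ⊥ = 0) :
    2 * ∑' a, Φ a = ∑ᶠ D : s.Pr ⊤,
      ∑' α : s.zl (s.out D).L, Φ (s.idOf (s.mkP (s.out D).L α)) := by
  have := s.finite_Pr (n := ⊤) top_ne_bot
  refine c3_sigma (c3_two hs (fun x : Σ D : s.Pr ⊤, s.zl (s.out D).L =>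
    s.idOf (s.mkP (s.out x.1).L x.2)) (fun x => ⟨x.1, -x.2⟩) ?_ ?_ ?_ fun a ha => ?_)
  · rintro ⟨D, α⟩
    refine s.c3_sim (t := -1) ?_ ?_
    · rw [s.mkP_L (s.out D).unit (-α).2, s.mkP_L (s.out D).unit α.2, ← c3_neg]
    · rw [s.mkP_ρ (s.out D).unit (-α).2, s.mkP_ρ (s.out D).unit α.2, neg_one_mul]
      rfl
  · rintro ⟨D, α⟩ hx h
    refine hx (h0 ▸ congrArg Φ (s.idOf_eq_bot.2 ?_))
    have h1 : -(α : ℂ) = α := congrArg Subtype.val (eq_of_heq (Sigma.mk.inj h).2)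
    rw [s.mkP_ρ (s.out D).unit α.2]
    linear_combination (-1 / 2 : ℂ) * h1
  · rintro ⟨D, α⟩ ⟨D', α'⟩ hx h
    have h3 : s.idOf (s.mkP (s.out D).L α) ≠ ⊥ := fun e => hx (h0 ▸ congrArg Φ e)
    obtain rfl : D = D' := (s.c3_top D α.2).symm.trans ((s.c3_eq h3 h).trans (s.c3_top D' α'.2))
    have h4 := mt s.idOf_eq_bot.2 h3
    rw [s.mkP_ρ (s.out D).unit α.2] at h4
    exact (s.c3_id (s.out D).unit α.2 α'.2 h4 h).imp
      (fun e => congrArg (Sigma.mk D) (Subtype.ext e)) fun e => congrArg (Sigma.mk D) (Subtype.ext e)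
  · have h1 : a ≠ ⊥ := fun e => ha (e ▸ h0)
    obtain ⟨t, -, h3, -⟩ := s.cl_eq.1 (s.cl_out (s.cl ⊤ (s.ip a))).symm
    have h5 : t * (s.ip a).ρ ∈ (s.out (s.cl ⊤ (s.ip a))).L :=
      h3 ▸ Submodule.mul_mem_mul (s.mem_sc t) (s.ip a).mem
    refine ⟨⟨_, _, h5⟩, (s.c3_sim (t := t) ?_ ?_).trans (s.idOf_ip h1)⟩
    · rw [s.mkP_L (s.out _).unit h5, h3]
    · rw [s.mkP_ρ (s.out _).unit h5]

theorem sum_units (hn : n ≠ ⊥) {Φ : s.Pair → ℂ} (h0 : s.Supp n Φ) :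
    ∑ᶠ C : s.Pr n, Φ (s.out C) = ∑ᶠ C : (s.Pr n)ˣ, Φ (s.out C.1) := by
  have := s.finite_Pr hn
  rw [← tsum_eq_finsum (L := .unconditional _) (Set.toFinite _), ← tsum_eq_finsum (L := .unconditional _) (Set.toFinite _)]
  refine (c3_bij (Φ := fun C : s.Pr n => Φ (s.out C)) Summable.of_finite Units.val
    (fun _ _ _ h => Units.ext h) fun C hC => ?_).tsum_eq.symm
  exact s.cl_out C ▸ (by_contra fun h => hC (h0 _ h) : IsUnit (s.cl n (s.out C)))

theorem sum_half (hn : n ≠ ⊥) (h2 : (2 : s.O) ∉ n) {Φ : s.Pair → ℂ} (hΦ : s.Inv n Φ)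
    (h0 : s.Supp n Φ) (M : s.Pr ⊤ → s.Sub) (hM : ∀ D, IsUnit (M D))
    (hb : Function.Bijective fun D => s.cl ⊤ (s.mkP (M D) 0)) (R : s.Pr ⊤ → Finset ℂ)
    (hR : ∀ D, Reps (s.zl (s.idl n * M D)) (s.zl (M D)) (R D)) :
    2 * ∑ᶠ C : (s.Pr n)ˣ, Φ (s.out C.1) = ∑ᶠ D, ∑ ρ ∈ R D, Φ (s.mkP (M D) ρ) := by
  have := s.finite_Pr hn
  have := s.finite_Pr (n := ⊤) top_ne_bot
  have hm : ∀ D (ρ : R D), (ρ : ℂ) ∈ M D := fun D ρ => (hR D).2.2.1 ρ ρ.2
  have hu : ∀ D (ρ ρ' : R D) x, x ∈ M D → x - ρ ∈ s.idl n * M D → x - ρ' ∈ s.idl n * M D →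
      ρ = ρ' := fun D ρ ρ' x hx h h' =>
    Subtype.ext (((hR D).2.2.2 x hx).unique ⟨ρ.2, h⟩ ⟨ρ'.2, h'⟩)
  have he : ∀ D x, x ∈ M D → ∃ ρ : R D, x - ρ ∈ s.idl n * M D := fun D x hx => by
    obtain ⟨r, hr⟩ := ((hR D).2.2.2 x hx).exists
    exact ⟨⟨r, hr.1⟩, hr.2⟩
  choose ι hι using fun D (ρ : R D) => he D _ (neg_mem (hm D ρ))
  have hΨ : ∀ p, Φ (s.out (s.cl n p)) = Φ p := fun p => hΦ.of_cl (s.cl_out _)
  have key := c3_sigma (c3_two (Φ := fun C : s.Pr n => Φ (s.out C)) Summable.of_finite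
    (fun x : Σ D : s.Pr ⊤, R D => s.cl n (s.mkP (M x.1) x.2)) (fun x => ⟨x.1, ι x.1 x.2⟩)
    ?_ ?_ ?_ fun C _ => ?_)
  · rw [← s.sum_units hn h0, ← tsum_eq_finsum (L := .unconditional _) (Set.toFinite _), key]
    refine finsum_congr fun D => ?_
    simp only [hΨ]
    exact (R D).tsum_subtype fun ρ => Φ (s.mkP (M D) ρ)
  · rintro ⟨D, ρ⟩
    refine (s.cl_eq.2 ⟨-1, neg_ne_zero.2 one_ne_zero, ?_, ?_⟩).symm
    · rw [s.mkP_L (hM D) (hm D _), s.mkP_L (hM D) (hm D _), ← c3_neg]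
    · rw [s.mkP_L (hM D) (hm D _), s.mkP_ρ (hM D) (hm D _), s.mkP_ρ (hM D) (hm D _), neg_one_mul,
        ← neg_sub]
      exact neg_mem (hι D ρ)
  · rintro ⟨D, ρ⟩ hx h
    have h1 := hι D ρ
    rw [eq_of_heq (Sigma.mk.inj h).2] at h1
    rw [hΨ] at hx
    obtain ⟨i, hi, j, hj, e⟩ := Ideal.isCoprime_iff_exists.1
      ((s.unit_cl hn).1 (by_contra fun h => hx (h0 _ h)))
    have h3 := s.c3_mem (p := s.mkP (M D) ρ) (g := n) (by
      rw [s.mkP_L (hM D) (hm D _), s.mkP_ρ (hM D) (hm D _),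
        show 2 * (ρ : ℂ) = -(-ρ - ρ) by ring]
      exact neg_mem h1)
    refine h2 ?_
    rw [← one_mul (2 : s.O), ← e, add_mul]
    exact add_mem (h3 (Ideal.mul_mem_mul hi (Ideal.mem_span_singleton_self _)))
      (n.mul_mem_right _ hj)
  · rintro ⟨D, ρ⟩ ⟨D', ρ'⟩ - h
    obtain ⟨t, ht, h3, h4⟩ := s.cl_eq.1 h
    rw [s.mkP_L (hM _) (hm _ _), s.mkP_L (hM _) (hm _ _)] at h3
    rw [s.mkP_L (hM _) (hm _ _), s.mkP_ρ (hM _) (hm _ _), s.mkP_ρ (hM _) (hm _ _)] at h4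
    obtain rfl : D = D' := hb.1 (s.cl_eq.2 ⟨t, ht, by
      rw [s.mkP_L (hM _) (zero_mem _), s.mkP_L (hM _) (zero_mem _), h3], by
      rw [s.mkP_ρ (hM _) (zero_mem _), s.mkP_ρ (hM _) (zero_mem _), mul_zero, sub_zero]
      exact zero_mem _⟩)
    rcases s.sc_eq_one ((hM D).mul_right_cancel (h3.symm.trans (one_mul _).symm)) with rfl | rfl
    · rw [one_mul] at h4
      exact Or.inl (congrArg (Sigma.mk D) (hu D ρ' ρ _ (hm D ρ') (by simp) h4))
    · refine Or.inr (congrArg (Sigma.mk D) (hu D ρ' _ _ (neg_mem (hm D ρ)) ?_ (hι D ρ)))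
      rw [neg_one_mul] at h4
      exact neg_sub (ρ' : ℂ) (-ρ) ▸ neg_mem h4
  · obtain ⟨D, hD⟩ := hb.2 (s.cl ⊤ (s.mkP (s.out C).L 0))
    obtain ⟨t, ht, h3, -⟩ := s.cl_eq.1 hD.symm
    rw [s.mkP_L (hM _) (zero_mem _), s.mkP_L (s.out C).unit (zero_mem _)] at h3
    obtain ⟨ρ, hρ⟩ := he D (t * (s.out C).ρ)
      (h3 ▸ Submodule.mul_mem_mul (s.mem_sc t) (s.out C).mem)
    refine ⟨⟨D, ρ⟩, (s.cl_eq.2 ⟨t, ht, ?_, ?_⟩).symm.trans (s.cl_out C)⟩
    · rw [s.mkP_L (hM _) (hm _ _), h3]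
    · rw [s.mkP_L (hM _) (hm _ _), s.mkP_ρ (hM _) (hm _ _), ← neg_sub]
      exact neg_mem hρ

theorem sum_mul {Φ : s.Pair → ℂ} (hΦ : s.Inv n Φ) {q : s.Pair} (hq : IsUnit (s.cl n q)) :
    ∑ᶠ C : s.Pr n, Φ (s.out C * q) = ∑ᶠ C : s.Pr n, Φ (s.out C) := by
  refine finsum_eq_of_bijective _ (Units.mulRight hq.unit).bijective fun C => hΦ.of_cl ?_
  rw [map_mul, cl_out, cl_out]
  rfl

theorem sum_mul' {Φ : s.Pair → ℂ} (hΦ : s.Inv n Φ) {q : s.Pair} (hq : IsUnit (s.cl n q)) :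
    ∑ᶠ C : (s.Pr n)ˣ, Φ (s.out C.1 * q) = ∑ᶠ C : (s.Pr n)ˣ, Φ (s.out C.1) := by
  refine finsum_eq_of_bijective _ (Equiv.mulRight hq.unit).bijective fun C => hΦ.of_cl ?_
  rw [map_mul, cl_out, cl_out]
  rfl

end St

end Pool.Agent.P.MP_20768c_nt.Tz.Cv

end

-- part Cv.F4
section

set_option autoImplicit false

open Complex NumberField IsDedekindDomain Filter Topology
open UpperHalfPlane hiding I
open scoped ComplexConjugate Real MatrixGroups

namespace Pool.Agent.P.MP_20768c_nt.Tz.Cv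

open Pool.Agent.P.MP_20768c_nt.Tz.EQ (Lt pr sp IsLat jL qN)

namespace St

variable (s : St) {f : Ideal s.O} {n : ℕ}

theorem f4_cop {β : s.O} {a : Ideal s.O} (h : β - 1 ∈ a) : IsCoprime (Ideal.span {β}) a := by
  rw [Ideal.isCoprime_iff_exists]
  exact ⟨β, Ideal.mem_span_singleton_self β, -(β - 1), neg_mem h, by ring⟩

theorem f4_unit {β : s.O} (h : f ≠ ⊥) : IsUnit (s.cl f (s.np β)) ↔ IsCoprime (Ideal.span {β}) f := by
  rw [s.unit_cl h, s.idOf_np]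

theorem exists_cond {a : Ideal s.O} (ha : a ≠ ⊥) (φ : MulChar (s.Pr a) ℂ) :
    ∃ (g : Ideal s.O) (φ₀ : MulChar (s.Pr g) ℂ), s.Ind a g φ φ₀ ∧ s.Prim g φ₀ := by
  obtain ⟨f, ⟨h1, h2⟩, hm⟩ := (wellFounded_gt (α := Ideal s.O)).has_min
    {f | a ≤ f ∧ ∀ β, β - 1 ∈ f → IsUnit (s.cl a (s.np β)) → φ (s.cl a (s.np β)) = 1}
    ⟨a, le_rfl, fun β hβ _ => by rw [s.cl_np_eq_one.2 (Or.inl hβ), map_one]⟩
  have h0 : f ≠ ⊥ := fun e => ha (le_bot_iff.1 (e ▸ h1))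
  obtain ⟨π', hπ⟩ := s.exists_proj h1
  have su : Function.Surjective (Units.map π') := fun D => by
    obtain ⟨q, q1, q2⟩ := s.lift_unit ha h0 (s.unit_out D)
    exact ⟨q1.unit, Units.ext (by rw [Units.coe_map, IsUnit.unit_spec, hπ, q2, s.cl_out])⟩
  have ke : (Units.map π').ker ≤ φ.toUnitHom.ker := fun C hC => by
    have e : s.cl f (s.out C.1) = 1 := by
      rw [← hπ, s.cl_out]
      exact congrArg Units.val (MonoidHom.mem_ker.1 hC)
    obtain ⟨β, b1, b2⟩ := s.ker_proj a e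
    rw [s.cl_out] at b2
    refine MonoidHom.mem_ker.2 (Units.ext ?_)
    rw [MulChar.coe_toUnitHom, b2]
    exact h2 β b1 (b2 ▸ C.isUnit)
  obtain ⟨χ', k⟩ : ∃ χ' : MulChar (s.Pr f) ℂ, ∀ C : (s.Pr a)ˣ, χ' (Units.map π' C) = φ C :=
    ⟨MulChar.ofUnitHom ((Units.map π').liftOfSurjective su ⟨_, ke⟩), fun C => by
      rw [MulChar.ofUnitHom_coe, MonoidHom.liftOfRightInverse_comp_apply, MulChar.coe_toUnitHom]⟩
  have k1 : ∀ p, IsUnit (s.cl a p) → χ' (s.cl f p) = φ (s.cl a p) := fun p hp => by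
    have := k hp.unit
    rwa [Units.coe_map, IsUnit.unit_spec, hπ] at this
  refine ⟨f, χ', ⟨h1, fun p hp => (k1 p hp).symm⟩, fun g' hg' => ?_⟩
  by_contra hn
  refine hm g' ⟨h1.trans hg'.le, fun β b1 b2 => ?_⟩ hg'
  by_contra b3
  exact hn ⟨β, b1, s.unit_mono h1 b2, by rwa [k1 _ b2]⟩

theorem exists_tw (f : Ideal s.O) (hn : 1 ≤ n) (χ : MulChar (s.Pr (s.lv f)) ℂ)
    (ψ : MulChar (ZMod (3 ^ n)) ℂ) : ∃ φ, s.Tw f n χ ψ φ := by
  obtain ⟨π', hπ⟩ := s.exists_proj (s.md_le_lv f hn)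
  obtain ⟨ν, hν⟩ := s.exists_nm (s.md_le f n).2.1
  refine ⟨MulChar.ofUnitHom (χ.toUnitHom.comp (Units.map π') * ψ.toUnitHom.comp (Units.map ν)),
    fun p hp => ?_⟩
  rw [← hπ, ← hν, ← hp.unit_spec, MulChar.ofUnitHom_coe]
  rfl

theorem f4_beta (hf : ¬ 3 ∣ Ideal.absNorm f) (hn : 2 ≤ n) {χ : MulChar (s.Pr (s.lv f)) ℂ}
    {ψ : MulChar (ZMod (3 ^ n)) ℂ} {φ : MulChar (s.Pr (s.md f n)) ℂ} (hT : s.Tw f n χ ψ φ)
    {u : s.O} (hu : u = s.w ∨ u = s.wb) :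
    IsUnit (s.cl (s.md f n) (s.np (1 + Ideal.absNorm f ^ 2 * 3 ^ (n - 1) * u))) ∧
      φ (s.cl (s.md f n) (s.np (1 + Ideal.absNorm f ^ 2 * 3 ^ (n - 1) * u))) = ψ (tau n) := by
  obtain ⟨j, rfl⟩ : ∃ j, n = j + 2 := ⟨n - 2, by omega⟩
  have a0 : (1 + Ideal.absNorm f ^ 2 * 3 ^ (j + 2 - 1) * u - 1 : s.O) =
      Ideal.absNorm f * (3 * (Ideal.absNorm f * 3 ^ j * u)) := by
    rw [show j + 2 - 1 = j + 1 from rfl]
    ring
  have a1 : (1 + Ideal.absNorm f ^ 2 * 3 ^ (j + 2 - 1) * u - 1 : s.O) ∈ s.lv f := by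
    rw [a0]
    exact Ideal.mul_mem_mul (Ideal.absNorm_mem f) (Ideal.mul_mem_right _ _ s.three_mem.2)
  have a2 : IsUnit (s.cl (s.md f (j + 2))
      (s.np (1 + Ideal.absNorm f ^ 2 * 3 ^ (j + 2 - 1) * u))) := by
    rw [s.f4_unit (s.md_ne (s.cop_ne hf) _), md, ← Ideal.span_singleton_pow]
    refine (s.f4_cop ((s.lv_le f).1 a1)).mul_right (s.f4_cop ?_).pow_right
    rw [a0]
    exact Ideal.mul_mem_left _ _ (Ideal.mul_mem_right _ _ (Ideal.mem_span_singleton_self _))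
  refine ⟨a2, ?_⟩
  obtain ⟨T, hT'⟩ : ∃ T : ℤ, T = Ideal.absNorm f ^ 2 * 3 ^ (j + 1) := ⟨_, rfl⟩
  have a3 : (Ideal.absNorm (Ideal.span {1 + Ideal.absNorm f ^ 2 * 3 ^ (j + 2 - 1) * u}) : ℤ) =
      1 + s.t * T + s.m * T ^ 2 := by
    rw [show (1 + Ideal.absNorm f ^ 2 * 3 ^ (j + 2 - 1) * u : s.O) = ((1 : ℤ) : s.O) + T * u by
      rw [hT', show j + 2 - 1 = j + 1 from rfl]; push_cast; ring]
    rcases hu with rfl | rfl
    · rw [s.norm_ab]
      ring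
    · rw [s.norm_ab']
      ring
  have a4 := congrArg (Int.cast : ℤ → ZMod (3 ^ (j + 2))) a3
  have a5 : (3 : ZMod (3 ^ (j + 2))) ^ (j + 2) = 0 := by exact_mod_cast ZMod.natCast_self _
  obtain ⟨i, hi⟩ : ∃ i : ℤ, (Ideal.absNorm f : ℤ) ^ 2 = 3 * i + 1 := by
    obtain ⟨k, hk⟩ : ∃ k : ℤ, (Ideal.absNorm f : ℤ) = 3 * k + 1 ∨
      (Ideal.absNorm f : ℤ) = 3 * k + 2 := ⟨Ideal.absNorm f / 3, by omega⟩
    rcases hk with hk | hk
    · exact ⟨3 * k ^ 2 + 2 * k, by rw [hk]; ring⟩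
    · exact ⟨3 * k ^ 2 + 4 * k + 1, by rw [hk]; ring⟩
  obtain ⟨b, hb⟩ := s.t_eq
  rw [hT', hi, hb, Int.cast_natCast] at a4
  rw [hT _ a2, s.cl_np_eq_one.2 (Or.inl a1), map_one, one_mul, s.Qn_np, a4, tau_val hn,
    show j + 2 - 1 = j + 1 from rfl]
  refine congrArg ψ ?_
  push_cast
  linear_combination (3 * b * i + b + i + s.m * (3 * i + 1) ^ 2 * 3 ^ j) * a5

theorem tw_beta (hf : ¬ 3 ∣ Ideal.absNorm f) (hn : 2 ≤ n) {χ : MulChar (s.Pr (s.lv f)) ℂ}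
    {ψ : MulChar (ZMod (3 ^ n)) ℂ} {φ : MulChar (s.Pr (s.md f n)) ℂ} (hT : s.Tw f n χ ψ φ) :
    (∃ β : s.O, β - 1 ∈ f * s.p1 ^ (n - 1) * s.p2 ^ n ∧ IsUnit (s.cl (s.md f n) (s.np β)) ∧
      φ (s.cl (s.md f n) (s.np β)) = ψ (tau n)) ∧
    ∃ β : s.O, β - 1 ∈ f * s.p1 ^ n * s.p2 ^ (n - 1) ∧ IsUnit (s.cl (s.md f n) (s.np β)) ∧
      φ (s.cl (s.md f n) (s.np β)) = ψ (tau n) := by
  obtain ⟨j, rfl⟩ : ∃ j, n = j + 1 := ⟨n - 1, by omega⟩
  have e : (3 : s.O) ^ j ∈ s.p1 ^ j * s.p2 ^ j := by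
    rw [← s.c2q_three]
    exact Ideal.mem_span_singleton_self _
  have e2 : (Ideal.absNorm f : s.O) ^ 2 ∈ f := Ideal.pow_mem_of_mem _ (Ideal.absNorm_mem f) 2 two_pos
  refine ⟨⟨_, ?_, s.f4_beta hf hn hT (Or.inr rfl)⟩, _, ?_, s.f4_beta hf hn hT (Or.inl rfl)⟩
  · rw [add_sub_cancel_left, Nat.add_sub_cancel,
      show f * s.p1 ^ j * s.p2 ^ (j + 1) = f * (s.p1 ^ j * s.p2 ^ j) * s.p2 by ring]
    exact Ideal.mul_mem_mul (Ideal.mul_mem_mul e2 e) s.w_mem.2.1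
  · rw [add_sub_cancel_left, Nat.add_sub_cancel,
      show f * s.p1 ^ (j + 1) * s.p2 ^ j = f * (s.p1 ^ j * s.p2 ^ j) * s.p1 by ring]
    exact Ideal.mul_mem_mul (Ideal.mul_mem_mul e2 e) s.w_mem.1

theorem f4_pow {g a P : Ideal s.O} (hP : P.IsMaximal) (h0 : P ≠ ⊥) {j : ℕ}
    (hle : a * P ^ (j + 1) ≤ g) (hn : ¬ a * P ^ j ≤ g) : g ≤ P ^ (j + 1) := by
  obtain ⟨r, hr⟩ := Ideal.dvd_iff_le.2 hle
  have hp : Prime P := Ideal.prime_of_isPrime h0 hP.isPrime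
  refine Ideal.dvd_iff_le.1 (hp.pow_dvd_of_dvd_mul_right (j + 1) (b := r) (fun h => hn ?_) ?_)
  · obtain ⟨r', rfl⟩ := h
    refine Ideal.dvd_iff_le.1 ⟨r', mul_left_cancel₀ hp.ne_zero ?_⟩
    rw [mul_left_comm P g, ← hr]
    ring
  · exact ⟨a, by rw [← hr, mul_comm]⟩

theorem cond_le (hf : ¬ 3 ∣ Ideal.absNorm f) (hn : 2 ≤ n) {χ : MulChar (s.Pr (s.lv f)) ℂ}
    {ψ : MulChar (ZMod (3 ^ n)) ℂ} (hψ : ψ (tau n) ≠ 1) {φ : MulChar (s.Pr (s.md f n)) ℂ}
    (hT : s.Tw f n χ ψ φ) {g : Ideal s.O} {φ₀ : MulChar (s.Pr g) ℂ}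
    (h : s.Ind (s.md f n) g φ φ₀) : g ≤ Ideal.span {((3 ^ n : ℕ) : s.O)} := by
  obtain ⟨⟨β, b1, b2, b3⟩, β', c1, c2, c3⟩ := s.tw_beta hf hn hT
  obtain ⟨j, rfl⟩ : ∃ j, n = j + 1 := ⟨n - 1, by omega⟩
  rw [Nat.add_sub_cancel] at b1 c1
  have e : s.md f (j + 1) = f * (s.p1 ^ (j + 1) * s.p2 ^ (j + 1)) := by rw [md, s.c2q_three]
  have k : ∀ γ : s.O, IsUnit (s.cl (s.md f (j + 1)) (s.np γ)) →
      φ (s.cl (s.md f (j + 1)) (s.np γ)) = ψ (tau (j + 1)) → γ - 1 ∉ g := fun γ h1 h2 h3 =>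
    hψ (by rw [← h2, h.2 _ h1, s.cl_np_eq_one.2 (Or.inl h3), map_one])
  have k1 : g ≤ s.p1 ^ (j + 1) := s.f4_pow (a := f * s.p2 ^ (j + 1)) s.p1_max s.p1_ne
    (le_of_eq_of_le (by rw [e]; ring) h.1) fun hle => k β b2 b3 (hle (by rwa [mul_right_comm]))
  have k2 : g ≤ s.p2 ^ (j + 1) := s.f4_pow (a := f * s.p1 ^ (j + 1)) s.p2_max s.p2_ne
    (le_of_eq_of_le (by rw [e]; ring) h.1) fun hle => k β' c2 c3 (hle c1)
  push_cast
  rw [s.c2q_three]
  exact Ideal.dvd_iff_le.1 (s.cop12.pow.mul_dvd (Ideal.dvd_iff_le.2 k1) (Ideal.dvd_iff_le.2 k2))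

end St

end Pool.Agent.P.MP_20768c_nt.Tz.Cv

end

-- part Cv.G3_p
section

set_option autoImplicit false

open Complex NumberField IsDedekindDomain Filter Topology
open UpperHalfPlane hiding I
open scoped ComplexConjugate Real MatrixGroups

namespace Pool.Agent.P.MP_20768c_nt.Tz.Cv

open Pool.Agent.P.MP_20768c_nt.Tz.EQ (Lt pr sp IsLat jL qN)

noncomputable section

def g3pE (A u : ℂ) : ℂ := cexp (π * (conj u - u) / A)

theorem g3p_pa (Λ : Lt) (α y : ℂ) : pa Λ α (conj y) = g3pE (ar Λ) (α * y) := by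
  rw [pa, g3pE, map_mul, Complex.conj_conj]

theorem g3p_add (A u v : ℂ) : g3pE A (u + v) = g3pE A u * g3pE A v := by
  rw [g3pE, g3pE, g3pE, ← Complex.exp_add, map_add]
  congr 1
  ring

theorem g3p_image {A A' B B' : Lt} {R : Finset ℂ} (hR : Reps A A' R) (hB : B ≤ B') (x : ℂ)
    (h1 : ∀ a ∈ A', x * a ∈ B') (h2 : ∀ a ∈ A', x * a ∈ B ↔ a ∈ A)
    (h3 : ∀ b ∈ B', ∃ a ∈ A', b - x * a ∈ B) :
    Reps B B' (R.image (x * ·)) ∧ Set.InjOn (x * ·) (R : Set ℂ) := by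
  have hi : ∀ a ∈ R, ∀ b ∈ R, x * a - x * b ∈ B → a = b := fun a ha b hb h =>
    hR.sub_mem ha hb ((h2 _ (sub_mem (hR.2.2.1 a ha) (hR.2.2.1 b hb))).1 (by rwa [mul_sub]))
  refine ⟨⟨hB, Finset.mem_image.2 ⟨0, hR.2.1, mul_zero x⟩, fun r hr => ?_, fun b hb => ?_⟩,
    fun a ha b hb h => hi a ha b hb (by rw [show x * a = x * b from h, sub_self]; exact zero_mem _)⟩
  · obtain ⟨a, ha, rfl⟩ := Finset.mem_image.1 hr
    exact h1 a (hR.2.2.1 a ha)
  · obtain ⟨a, ha, hab⟩ := h3 b hb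
    obtain ⟨r, ⟨hr, har⟩, -⟩ := hR.2.2.2 a ha
    have h4 : b - x * r ∈ B := by
      have := add_mem hab ((h2 _ (sub_mem ha (hR.2.2.1 r hr))).2 har)
      rwa [show b - x * a + x * (a - r) = b - x * r by ring] at this
    refine ⟨x * r, ⟨Finset.mem_image.2 ⟨r, hr, rfl⟩, h4⟩, ?_⟩
    rintro _ ⟨h5, h6⟩
    obtain ⟨r', hr', rfl⟩ := Finset.mem_image.1 h5
    have := sub_mem h4 h6
    rw [show b - x * r - (b - x * r') = x * r' - x * r by ring] at this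
    rw [hi r' hr' r hr this]

namespace St

variable (s : St) {n : Ideal s.O} {L : s.Sub} {R R' : Finset ℂ}

theorem g3p_one (hL : IsUnit L) {u : ℂ} (hu : u ∈ L * s.cj L) : g3pE (ar (s.zl L)) u = 1 := by
  refine Submodule.mul_induction_on hu (fun a ha b hb => ?_) fun a b ha hb => ?_
  · rw [← g3p_pa]
    exact pa_int (s.isLat_zl hL) (s.mem_zl.2 ha) (s.mem_zl.2 (s.mem_cj.1 hb))
  · rw [g3p_add, ha, hb, mul_one]

theorem g3p_mul (hn : n ≠ ⊥) (L M : s.Sub) : s.idl n * L * (M * s.inv n) = L * M := by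
  rw [mul_comm M, mul_mul_mul_comm, s.idl_inv hn, one_mul]

theorem g3p_cop {a : Ideal s.O} (h : IsCoprime a n) : ∃ u ∈ a, ∃ v ∈ n, s.c u + s.c v = 1 := by
  obtain ⟨u, hu, v, hv, e⟩ := Ideal.isCoprime_iff_exists.1 h
  exact ⟨u, hu, v, hv, by rw [← s.c_add, e, s.c_one]⟩

theorem g3p_per (hL : IsUnit L) {a l : ℂ} (ha : a ∈ L) (hl : l ∈ s.idl n * L) :
    s.cl n (s.mkP L (a + l)) = s.cl n (s.mkP L a) := by
  have := s.sim_add (n := n) (s.mkP L a) (l := l) (by rwa [s.mkP_L hL ha])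
  rw [s.mkP_L hL ha, s.mkP_ρ hL ha] at this
  exact (s.cl_eq.2 ⟨1, this⟩).symm

theorem gp_inv (n : Ideal s.O) (hn : n ≠ ⊥) : s.Inv n (s.gp n) := by
  rintro x p q ⟨h0, h1, h2⟩
  have := eG_add (s.zl (s.idl n * q.L)) (x * p.ρ) (s.mem_zl.2 h2)
  rw [add_sub_cancel] at this
  rw [gp, gp, this, h1, mul_left_comm, s.zl_sc,
    eG_sc (s.isLat_zl ((s.isUnit_idl hn).mul p.unit)) h0]

theorem orth (hn : n ≠ ⊥) (hL : IsUnit L)
    (hR : Reps (s.zl (s.cj L)) (s.zl (s.cj L * s.inv n)) R') {α : ℂ} (hα : α ∈ L) :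
    (α ∈ s.idl n * L → ∑ y ∈ R', pa (s.zl L) α (conj y) = Ideal.absNorm n) ∧
      (α ∉ s.idl n * L → ∑ y ∈ R', pa (s.zl L) α (conj y) = 0) := by
  simp only [g3p_pa]
  refine ⟨fun h => ?_, fun h => ?_⟩
  · rw [Finset.sum_congr rfl fun y hy => s.g3p_one hL (s.g3p_mul hn L (s.cj L) ▸
      Submodule.mul_mem_mul h (s.mem_zl.1 (hR.2.2.1 y hy))), Finset.sum_const,
      s.reps_card' (s.isUnit_cj hL) hn hR, nsmul_eq_mul, mul_one]
  · obtain ⟨y₀, hy₀, h1⟩ : ∃ y₀ ∈ s.cj L * s.inv n, g3pE (ar (s.zl L)) (α * y₀) ≠ 1 := by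
      by_contra hc
      push Not at hc
      have h2 : s.sc α * s.inv n ≤ L := Submodule.mul_le.2 fun a ha μ hμ => by
        obtain ⟨β, rfl⟩ := Submodule.mem_span_singleton.1 ha
        rw [smul_mul_assoc]
        refine Submodule.smul_mem _ _ (s.mem_zl.1 (pa_dual (s.isLat_zl hL) fun l hl => ?_))
        have h3 := hc (conj l * μ) (Submodule.mul_mem_mul
          (s.mem_cj.2 (by rw [Complex.conj_conj]; exact s.mem_zl.1 hl)) hμ)
        rw [← inv_eq_one, g3pE, ← Complex.exp_neg] at h3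
        rw [pa, ← h3]
        congr 1
        simp only [map_mul, Complex.conj_conj]
        ring
      refine h (mul_le_mul_right h2 (s.idl n) ?_)
      rw [mul_left_comm, s.idl_inv hn, mul_one]
      exact s.mem_sc α
    have h2 := hR.sum_bij (· + y₀) (fun a ha => add_mem ha (s.mem_zl.2 hy₀))
      (fun a _ b _ => by rw [add_sub_add_right_eq_sub]) (fun y => g3pE (ar (s.zl L)) (α * y))
      fun a _ l hl => by
        rw [mul_add, g3p_add, s.g3p_one hL (Submodule.mul_mem_mul hα (s.mem_zl.1 hl)), mul_one]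
    simp only [mul_add, g3p_add, ← Finset.sum_mul] at h2
    exact (mul_eq_left₀ · |>.1 h2 |> h1) |> not_not.1

theorem gauss_zero (hn : n ≠ ⊥) {φ : MulChar (s.Pr n) ℂ} (hφ : s.Prim n φ) (hL : IsUnit L)
    (hR : Reps (s.zl (s.idl n * L)) (s.zl L) R) {y : ℂ} (hy : y ∈ s.cj L * s.inv n)
    (hu : ¬ IsUnit (s.cl n (s.mkP (s.cj L * s.inv n) y))) :
    ∑ α ∈ R, φ (s.cl n (s.mkP L α)) * (pa (s.zl L) α (conj y))⁻¹ = 0 := by
  simp only [g3p_pa]
  have hM := (s.isUnit_cj hL).mul (s.isUnit_inv hn)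
  set q := s.mkP (s.cj L * s.inv n) y with hq
  rw [s.unit_cl hn, Ideal.isCoprime_iff_sup_eq] at hu
  obtain ⟨g, hg⟩ : s.idOf q ⊔ n ∣ n := Ideal.dvd_iff_le.2 le_sup_right
  have hlt : n < g := lt_of_le_of_ne (hg.trans_le Ideal.mul_le_right) fun e => hu (by
    rw [← e] at hg
    exact ((mul_eq_right₀ hn).1 hg.symm).trans Ideal.one_eq_top)
  obtain ⟨β, hβ, hβu, hβ1⟩ := hφ g hlt
  have h1 : (s.c β - 1) * y ∈ s.cj L := by
    have h2 : y ∈ s.idl (s.idOf q ⊔ n) * (s.cj L * s.inv n) := by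
      have := s.idOf_le.1 (le_sup_left : s.idOf q ≤ s.idOf q ⊔ n)
      rwa [hq, s.mkP_L hM hy, s.mkP_ρ hM hy, ← hq] at this
    have h3 := s.mul_mem_idl hβ h2
    rw [← mul_assoc, ← s.idl_mul, mul_comm g, ← hg, mul_left_comm, s.idl_inv hn, mul_one, s.c_sub,
      s.c_one] at h3
    exact h3
  have hc := hβu
  rw [s.unit_cl hn, s.idOf_np] at hc
  obtain ⟨u, hu', v, hv, huv⟩ := s.g3p_cop hc
  obtain ⟨r, rfl⟩ := Ideal.mem_span_singleton'.1 hu'
  have h2 := hR.sum_bij (s.c β * ·) (fun a ha => s.mem_zl.2 (s.c_mul_mem β (s.mem_zl.1 ha)))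
    (fun a ha b hb => by
      rw [← mul_sub, s.mem_zl, s.mem_zl]
      refine ⟨fun h => ?_, s.c_mul_mem β⟩
      have := add_mem (s.c_mul_mem r h) (s.mul_mem_idl hv (s.mem_zl.1 (sub_mem ha hb)))
      rwa [← mul_assoc, ← s.c_mul, ← add_mul, huv, one_mul] at this)
    (fun α => φ (s.cl n (s.mkP L α)) * (g3pE (ar (s.zl L)) (α * y))⁻¹) fun a ha l hl => by
      rw [s.g3p_per hL (s.mem_zl.1 ha) (s.mem_zl.1 hl), add_mul, g3p_add, s.g3p_one hL (u := l * y)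
        (s.g3p_mul hn L (s.cj L) ▸ Submodule.mul_mem_mul (s.mem_zl.1 hl) hy), mul_one]
  have h3 : ∀ α ∈ R, φ (s.cl n (s.mkP L (s.c β * α))) * (g3pE (ar (s.zl L)) (s.c β * α * y))⁻¹ =
      φ (s.cl n (s.np β)) * (φ (s.cl n (s.mkP L α)) * (g3pE (ar (s.zl L)) (α * y))⁻¹) := by
    intro α hα
    have hα' := s.mem_zl.1 (hR.2.2.1 α hα)
    have e1 : s.mkP L (s.c β * α) = s.np β * s.mkP L α := Pair.ext
      (by rw [s.mkP_L hL (s.c_mul_mem β hα'), s.mul_L, s.np_L, s.mkP_L hL hα', one_mul])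
      (by rw [s.mkP_ρ hL (s.c_mul_mem β hα'), s.mul_ρ, s.np_ρ, s.mkP_ρ hL hα'])
    rw [e1, map_mul, map_mul, show s.c β * α * y = α * y + α * ((s.c β - 1) * y) by ring, g3p_add,
      s.g3p_one hL (Submodule.mul_mem_mul hα' h1), mul_one, mul_assoc]
  rw [Finset.sum_congr rfl h3, ← Finset.mul_sum] at h2
  exact (mul_eq_right₀ · |>.1 h2 |> hβ1) |> not_not.1

theorem gauss_unit (hn : n ≠ ⊥) (φ : MulChar (s.Pr n) ℂ) : ∃ T : ℂ, ∀ (L : s.Sub) (R : Finset ℂ)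
    (y : ℂ), IsUnit L → Reps (s.zl (s.idl n * L)) (s.zl L) R → y ∈ s.cj L * s.inv n →
    IsUnit (s.cl n (s.mkP (s.cj L * s.inv n) y)) →
    ∑ α ∈ R, φ (s.cl n (s.mkP L α)) * (pa (s.zl L) α (conj y))⁻¹ =
      (φ (s.cl n (s.mkP (s.cj L * s.inv n) y)))⁻¹ * T := by
  have hI := s.isUnit_inv hn
  have hle : s.zl 1 ≤ s.zl (s.inv n) := s.zl_le.2 (by simpa using s.le_mul_inv hn 1)
  obtain ⟨R₀, hR₀⟩ := exists_reps (s.isLat_zl isUnit_one) (s.isLat_zl hI) hle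
  refine ⟨∑ β ∈ R₀, φ (s.cl n (s.mkP (s.inv n) β)) * (g3pE (ar (s.zl 1)) β)⁻¹,
    fun L R y hL hR hy hu => ?_⟩
  simp only [g3p_pa]
  have hM := (s.isUnit_cj hL).mul hI
  have hN : (s.nL L : ℂ) ≠ 0 := by exact_mod_cast (s.nL_pos hL).ne'
  set q := s.mkP (s.cj L * s.inv n) y with hq
  have hqL : q.L = s.cj L * s.inv n := s.mkP_L hM hy
  have hqρ : q.ρ = y := s.mkP_ρ hM hy
  obtain ⟨u, hu', v, hv, huv⟩ := s.g3p_cop ((s.unit_cl hn).1 hu)
  have hsp := s.idOf_spec q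
  rw [hqL, hqρ] at hsp
  have key : ∀ (a : ℂ) (K : s.Sub), y / s.nL L * a ∈ K ↔ a * y ∈ L * s.cj L * K := fun a K => by
    rw [s.mul_cj hL, ← s.mul_mem_sc' hN]
    congr! 1
    field_simp
  have h1 : ∀ a ∈ L, y / s.nL L * a ∈ s.inv n := fun a ha => by
    rw [key, mul_assoc]
    exact Submodule.mul_mem_mul ha hy
  obtain ⟨h4, h5⟩ := g3p_image hR hle (y / s.nL L)
    (fun a ha => s.mem_zl.2 (h1 a (s.mem_zl.1 ha)))
    (fun a ha => by
      rw [s.mem_zl, s.mem_zl, key, mul_one, ← s.g3p_mul hn]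
      refine ⟨fun h => ?_, fun h => Submodule.mul_mem_mul h hy⟩
      have h2 : s.sc a * s.idl (s.idOf q) ≤ s.idl n * L := by
        rw [← s.mul_le_mul_unit hM, mul_assoc, hsp, ← s.sc_mul]
        exact (Submodule.span_singleton_le_iff_mem _ _).2 h
      have := add_mem (h2 (Submodule.mul_mem_mul (s.mem_sc a) (s.c_mem_idl.2 hu')))
        (s.mul_mem_idl hv (s.mem_zl.1 ha))
      rwa [mul_comm a, ← add_mul, huv, one_mul] at this)
    (fun b hb => by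
      have h2 : s.nL L * (s.c u * b) ∈ s.sc y * L := by
        rw [← hsp, mul_assoc, mul_assoc, mul_comm (s.inv n), ← mul_assoc (s.cj L), mul_comm (s.cj L),
          s.mul_cj hL, mul_left_comm]
        exact (s.mul_mem_sc' hN).2 (s.mul_mem_idl hu' (s.mem_zl.1 hb))
      obtain ⟨a, ha, e⟩ := s.mem_sc_mul.1 h2
      refine ⟨a, s.mem_zl.2 ha, s.mem_zl.2 ?_⟩
      have h3 := s.mul_mem_idl hv (s.mem_zl.1 hb)
      rw [s.idl_inv hn] at h3
      have e2 : b - y / s.nL L * a = s.c v * b := by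
        rw [div_mul_eq_mul_div, e, mul_div_cancel_left₀ _ hN]
        linear_combination (-b) * huv
      rwa [e2])
  rw [hR₀.sum_congr h4 _ fun a ha l hl => by
    rw [s.g3p_per hI (s.mem_zl.1 ha) (by rw [s.idl_inv hn]; exact s.mem_zl.1 hl), g3p_add,
      s.g3p_one isUnit_one (u := l) (by rw [s.cj_one, one_mul]; exact s.mem_zl.1 hl), mul_one],
    Finset.sum_image h5, Finset.mul_sum]
  refine Finset.sum_congr rfl fun α hα => ?_
  have hα' := s.mem_zl.1 (hR.2.2.1 α hα)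
  have e1 : s.cl n (s.mkP (s.inv n) (y / s.nL L * α)) = s.cl n (s.mkP L α * q) :=
    s.cl_eq.2 ⟨s.nL L, hN, by
      rw [s.mul_L, s.mkP_L hL hα', hqL, s.mkP_L hI (h1 α hα'), ← mul_assoc, s.mul_cj hL], by
      rw [s.mul_ρ, s.mkP_ρ hL hα', hqρ, s.mkP_ρ hI (h1 α hα'),
        show α * y - s.nL L * (y / s.nL L * α) = 0 by field_simp; ring]
      exact zero_mem _⟩
  have e2 : g3pE (ar (s.zl 1)) (y / s.nL L * α) = g3pE (ar (s.zl L)) (α * y) := by
    have h6 : (ar (s.zl 1) : ℂ) ≠ 0 := by exact_mod_cast (ar_pos (s.isLat_zl isUnit_one)).ne'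
    have h7 : (ar (s.zl L) : ℂ) = s.nL L * ar (s.zl 1) := by
      rw [nL, Complex.ofReal_div, div_mul_cancel₀ _ h6]
    rw [g3pE, g3pE, h7, map_mul, map_mul, map_div₀, Complex.conj_ofReal]
    congr 1
    field_simp
  have h8 : φ (s.cl n q) ≠ 0 := (hu.map φ).ne_zero
  rw [e1, e2, map_mul, map_mul]
  field_simp

end St

end

end Pool.Agent.P.MP_20768c_nt.Tz.Cv

end

-- part Cv.J1_p
section

set_option autoImplicit false

open Complex NumberField IsDedekindDomain Filter Topology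
open UpperHalfPlane hiding I
open scoped ComplexConjugate Real MatrixGroups

namespace Pool.Agent.P.MP_20768c_nt.Tz.Cv

open Pool.Agent.P.MP_20768c_nt.Tz.EQ (Lt pr sp IsLat jL qN)

theorem one_unit_root {Γ : Type} [LinearOrderedCommGroupWithZero Γ] {v : Valuation ℂ Γ}
    (h3 : v 3 < 1) {u : ℂ} (hu : v (u - 1) < 1) {r : ℕ} (hr : 0 < r) :
    ∃ y : ℂ, y ^ r = u ∧ v (y - 1) < 1 := by
  by_contra hn
  have hm := Polynomial.monic_X_pow_sub_C u hr.ne'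
  have e := (IsAlgClosed.splits (Polynomial.X ^ r - Polynomial.C u)).eval_eq_prod_roots_of_monic
    hm 1
  rw [Polynomial.eval_sub, Polynomial.eval_pow, Polynomial.eval_X, Polynomial.eval_C, one_pow] at e
  rw [v.map_sub_swap, e, map_multiset_prod, Multiset.map_map] at hu
  refine absurd hu (not_lt.2 (Multiset.one_le_prod_of_one_le fun a ha => ?_))
  obtain ⟨z, hz, rfl⟩ := Multiset.mem_map.1 ha
  have hz' := (Polynomial.mem_roots hm.ne_zero).1 hz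
  rw [Polynomial.IsRoot.def, Polynomial.eval_sub, Polynomial.eval_pow, Polynomial.eval_X,
    Polynomial.eval_C, sub_eq_zero] at hz'
  refine not_lt.1 fun h => hn ⟨z, hz', ?_⟩
  rw [v.map_sub_swap]
  exact h

namespace St

variable {s : St} {f : Ideal s.O} {ω : s.Pair → ℂ}

theorem v_chi (hf : f ≠ ⊥) (χ : MulChar (s.Pr f) ℂ) (p : s.Pair) : s.v (χ (s.cl f p)) ≤ 1 := by
  have := s.finite_Pr hf
  by_cases h : IsUnit (s.cl f p)
  · obtain ⟨C, hC⟩ := h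
    refine (v_root s.v (orderOf_pos C) ?_).le
    rw [← hC, ← map_pow, ← Units.val_pow_eq_pow_val, pow_orderOf_eq_one, Units.val_one, map_one]
  · rw [χ.map_nonunit h, map_zero]
    exact zero_le_one

theorem Eig.al (hf : ¬ 3 ∣ Ideal.absNorm f) (h : s.Eig f ω) : s.v (s.al ω) = 1 := by
  obtain ⟨hw, -, h1, hm⟩ := h
  have hn := s.lv_ne (s.cop_ne hf)
  have := s.finite_Pr hn
  have hu : IsUnit (s.cl (s.lv f) (s.ip s.p1)) := by
    rw [s.unit_cl hn, s.idOf_ip s.p1_ne, lv]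
    have c := s.cop_iff.1 hf
    rw [← s.p1_mul_p2] at c
    exact c.of_mul_right_left.symm.mul_right s.cop12
  obtain ⟨C, hC⟩ := hu
  have hr := orderOf_pos C
  set r := orderOf C with hr'
  have e1 : s.cl (s.lv f) 1 = s.cl (s.lv f) (s.ip s.p1 ^ r) := by
    rw [map_pow, ← hC, ← Units.val_pow_eq_pow_val, hr', pow_orderOf_eq_one, Units.val_one, map_one]
  obtain ⟨x, hx⟩ := s.cl_eq.1 e1
  have e2 : ∀ j : ℕ, ω (s.ip s.p1 ^ j) = (ω (s.ip s.p1) / ω 1) ^ j * ω 1 := by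
    intro j
    induction j with
    | zero => rw [pow_zero, pow_zero, one_mul]
    | succ j ih =>
      refine mul_right_cancel₀ h1 ?_
      rw [pow_succ, hm, ih, pow_succ, mul_assoc _ (ω (s.ip s.p1) / ω 1), div_mul_cancel₀ _ h1]
      ring
  have e3 : (ω (s.ip s.p1) / ω 1) ^ r = x := by
    refine mul_right_cancel₀ h1 ?_
    rw [← e2, hw.1 x _ _ hx]
  have p0 : s.p1 ^ r ≠ ⊥ := pow_ne_zero r s.p1_ne
  have e4 : s.inv (s.p1 ^ r) = s.sc x := by
    have := hx.2.1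
    rwa [← s.ip_pow s.p1_ne, s.ip_L p0, s.one_L, mul_one] at this
  have c2 : s.c (3 ^ r) = 3 ^ r := by
    rw [s.c_pow]
    exact congrArg (· ^ r) (by exact_mod_cast s.c_nat 3)
  have e5 : s.sc (3 ^ r * x) = s.idl (s.p2 ^ r) := by
    rw [s.sc_mul, ← e4, ← c2, ← s.idl_span, ← Ideal.span_singleton_pow, ← s.p1_mul_p2, mul_pow,
      s.idl_mul, mul_right_comm, s.idl_inv p0, one_mul]
  have l1 : s.v (3 ^ r * x) ≤ 1 := by
    obtain ⟨β, -, hβ⟩ := s.mem_idl.1 (e5 ▸ s.mem_sc (3 ^ r * x))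
    rw [← hβ]
    exact s.v_c s.v β
  have l2 : 1 ≤ s.v (3 ^ r * x) := by
    have m1 : s.wb ^ r ∈ s.p2 ^ r := Ideal.pow_mem_pow s.w_mem.2.1 r
    have m2 := s.c_mem_idl.2 m1
    rw [← e5, ← mul_one (s.sc _)] at m2
    obtain ⟨z, hz, ez⟩ := s.mem_sc_mul.1 m2
    obtain ⟨β, rfl⟩ := s.mem_one.1 hz
    have m3 := congrArg s.v ez
    rw [map_mul, s.c_pow, map_pow s.v (s.c s.wb), s.v_wb, one_pow] at m3
    rw [← m3]
    exact mul_le_of_le_one_right' (s.v_c s.v β)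
  have e6 : s.v (s.al ω) ^ r = 1 := by
    rw [← map_pow, St.al, mul_div_assoc, mul_pow, e3]
    exact le_antisymm l1 l2
  exact (pow_eq_one_iff_of_nonneg zero_le hr.ne').1 e6

end St

end Pool.Agent.P.MP_20768c_nt.Tz.Cv

end

-- part Cv.H1a
section

set_option autoImplicit false

open Complex NumberField IsDedekindDomain Filter Topology
open UpperHalfPlane hiding I
open scoped ComplexConjugate Real MatrixGroups

namespace Pool.Agent.P.MP_20768c_nt.Tz.Cv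

open Pool.Agent.P.MP_20768c_nt.Tz.EQ (Lt pr sp IsLat jL qN)

namespace St

variable (s : St) {L : s.Sub} {N : ℕ} {ρ : ℂ}

theorem h1a_shift (hL : IsUnit L) (hρ : ρ ∈ L) (j : ℤ) {τ τ' : ℍ} (h : (τ' : ℂ) = τ + j) :
    Th (s.zl (s.sc N * L)) (s.nL L) ρ τ' = Th (s.zl (s.sc N * L)) (s.nL L) ρ τ := by
  obtain ⟨ω₁, ω₂, α, β, γ, -, -, h1, h2, -⟩ := s.exists_form hL
  have hA : (s.nL L : ℂ) ≠ 0 := ofReal_ne_zero.2 (s.nL_pos hL).ne'
  rw [Th_shift _ _ _ 1 _ h fun l hl => ?_, one_mul]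
  obtain ⟨z, hz, rfl⟩ := s.mem_sc_mul.1 (s.mem_zl.1 hl)
  have h3 : (N : ℂ) * z ∈ L := by
    rw [← nsmul_eq_mul]
    exact nsmul_mem hz N
  obtain ⟨x, y, e⟩ := h2 _ (add_mem hρ h3)
  rw [e, (h1 x y).2, ← exp_int_mul_two_pi_mul_I
    (j * (α * x ^ 2 + β * x * y + γ * y ^ 2))]
  congr 1
  push_cast
  field_simp

theorem Th_law (hL : IsUnit L) (hN : 0 < N) (hρ : ρ ∈ L) (γ : SL(2, ℤ))
    (hγ : ((4 * s.dd * N ^ 2 : ℕ) : ℤ) ∣ γ 1 0) (τ : ℍ) :
    Th (s.zl (s.sc N * L)) (s.nL L) ρ (γ • τ) = ((γ 1 0 : ℂ) * τ + γ 1 1) ^ 2 *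
      (s.kr (γ 1 1) : ℂ) * Th (s.zl (s.sc N * L)) (s.nL L) (γ 0 0 * ρ) τ := by
  have hdet : γ 0 0 * γ 1 1 - γ 0 1 * γ 1 0 = 1 := by
    have h := γ.det_coe
    rwa [Matrix.det_fin_two] at h
  have haρ : (γ 0 0 : ℂ) * ρ ∈ L := by
    rw [← zsmul_eq_mul]
    exact zsmul_mem hρ _
  by_cases hc : γ 1 0 = 0
  · rw [hc, mul_zero, sub_zero] at hdet
    rcases Int.eq_one_or_neg_one_of_mul_eq_one' hdet with ⟨ha, hd⟩ | ⟨ha, hd⟩
    · rw [s.h1a_shift hL hρ (γ 0 1) (τ := τ) (by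
        rw [coe_specialLinearGroup_apply, ha, hc, hd]
        simp), ha, hc, hd, s.kr_one]
      simp
    · have h4 : Th (s.zl (s.sc N * L)) (s.nL L) (-ρ) τ = -Th (s.zl (s.sc N * L)) (s.nL L) ρ τ :=
        th1_neg _ _ _
      rw [s.h1a_shift hL hρ (-γ 0 1) (τ := τ) (by
        rw [coe_specialLinearGroup_apply, ha, hc, hd]
        simp [div_neg]
        ring), ha, hc, hd, s.kr_neg_one]
      push_cast
      rw [neg_one_mul ρ, h4]
      ring
  · obtain ⟨B, hB⟩ := s.Th_prime hL hN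
    obtain ⟨d, hd, hp, hm⟩ := Nat.forall_exists_prime_gt_and_zmodEq B (q := (γ 1 0).natAbs)
      (a := γ 1 1) (Int.natAbs_ne_zero.2 hc) (by
        rw [Int.natCast_natAbs, IsCoprime.abs_right_iff]
        exact ⟨γ 0 0, -γ 0 1, by linear_combination hdet⟩)
    obtain ⟨j, hj⟩ : γ 1 0 ∣ d - γ 1 1 := Int.natAbs_dvd.1 hm.symm.dvd
    let γ' : SL(2, ℤ) := ⟨!![γ 0 0, γ 0 1 + γ 0 0 * j; γ 1 0, d], by
      rw [Matrix.det_fin_two_of]
      linear_combination hdet + γ 0 0 * hj⟩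
    obtain ⟨τ', hτ⟩ : ∃ τ' : ℍ, (τ' : ℂ) = τ + (-j : ℤ) := ⟨_, ModularGroup.coe_T_zpow_smul_eq τ⟩
    have hj' : (d : ℂ) - γ 1 1 = γ 1 0 * j := by exact_mod_cast hj
    have h1 : (γ 1 0 : ℂ) * τ' + d = γ 1 0 * τ + γ 1 1 := by
      rw [hτ]
      push_cast
      linear_combination hj'
    have h2 : γ' • τ' = γ • τ := by
      refine UpperHalfPlane.ext ?_
      rw [coe_specialLinearGroup_apply, coe_specialLinearGroup_apply]
      change ((((γ 0 0 : ℤ) : ℝ) : ℂ) * τ' + (((γ 0 1 + γ 0 0 * j : ℤ) : ℝ) : ℂ)) /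
        ((((γ 1 0 : ℤ) : ℝ) : ℂ) * τ' + ((((d : ℕ) : ℤ) : ℝ) : ℂ)) =
        ((((γ 0 0 : ℤ) : ℝ) : ℂ) * τ + (((γ 0 1 : ℤ) : ℝ) : ℂ)) /
        ((((γ 1 0 : ℤ) : ℝ) : ℂ) * τ + (((γ 1 1 : ℤ) : ℝ) : ℂ))
      push_cast
      rw [h1, hτ]
      push_cast
      congr 1
      ring
    have h3 := hB ρ γ' d τ' hρ hp hd rfl (Dvd.dvd.trans ⟨4, by push_cast; ring⟩ hγ)
    have h4 : s.kr d = s.kr (γ 1 1) := s.kr_congr (by
      rw [hj]
      exact (Dvd.dvd.trans ⟨(N : ℤ) ^ 2, by push_cast; ring⟩ hγ).mul_right j)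
    rw [h2] at h3
    rw [h3, ← h1, ← h4, ← s.h1a_shift hL haρ (-j) hτ]
    rfl

end St

end Pool.Agent.P.MP_20768c_nt.Tz.Cv

end
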