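import Pool.Agent.P.MP_20768c_nt.Tz.Z3
import Pool.Agent.P.MP_20768c_nt.Tz.Z4
import Pool.Agent.P.MP_20768c_nt.Tz.Z5
import Pool.Agent.P.MP_20768c_nt.Tz.Z6
import Pool.Agent.P.MP_20768c_nt.Tz.Z7

-- part Cv.E2_p
section

set_option autoImplicit false

open Complex NumberField IsDedekindDomain Filter Topology
open UpperHalfPlane hiding I
open scoped ComplexConjugate Real MatrixGroups

namespace Pool.Agent.P.MP_20768c_nt.Tz.Cv

open Pool.Agent.P.MP_20768c_nt.Tz.EQ (Lt pr sp IsLat jL qN)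

open scoped Pointwise in
theorem e2p_abs {F Ω : Type} [Field F] [Field Ω] [Algebra F Ω] [IsGalois F Ω]
    (P : Ideal (𝓞 Ω)) [hP : P.IsPrime] (τ : 𝓞 Ω ≃+* 𝓞 Ω)
    (hτ : ∀ a : 𝓞 F, τ (algebraMap (𝓞 F) (𝓞 Ω) a) - algebraMap (𝓞 F) (𝓞 Ω) a ∈ P) :
    ∃ h : Ω ≃ₐ[F] Ω, ∀ b : 𝓞 Ω, τ (h • b) - b ∈ P := by
  let : TopologicalSpace (𝓞 Ω) := ⊥
  have : DiscreteTopology (𝓞 Ω) := ⟨rfl⟩
  have hs : ∀ (h : Ω ≃ₐ[F] Ω) (b : 𝓞 Ω), ((h • b : 𝓞 Ω) : Ω) = h (b : Ω) := fun _ _ => rfl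
  have ha : ∀ a : 𝓞 F, ((algebraMap (𝓞 F) (𝓞 Ω) a : 𝓞 Ω) : Ω) = algebraMap F Ω (a : F) :=
    fun _ => rfl
  have hfix : ∀ (h : Ω ≃ₐ[F] Ω) (a : 𝓞 F),
      h • algebraMap (𝓞 F) (𝓞 Ω) a = algebraMap (𝓞 F) (𝓞 Ω) a := fun h a =>
    RingOfIntegers.ext (by rw [hs, ha, AlgEquiv.commutes])
  have : ContinuousSMul (Ω ≃ₐ[F] Ω) (𝓞 Ω) := by
    refine continuousSMul_iff_stabilizer_isOpen.2 fun b => ?_
    have e : MulAction.stabilizer (Ω ≃ₐ[F] Ω) b = MulAction.stabilizer (Ω ≃ₐ[F] Ω) (b : Ω) := by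
      ext h
      rw [MulAction.mem_stabilizer_iff, MulAction.mem_stabilizer_iff]
      exact ⟨fun k => congrArg (fun y : 𝓞 Ω => (y : Ω)) k, fun k => RingOfIntegers.ext k⟩
    rw [e]
    exact stabilizer_isOpen_of_isIntegral _
  have : SMulCommClass (Ω ≃ₐ[F] Ω) (𝓞 F) (𝓞 Ω) := ⟨fun h a b => by
    rw [Algebra.smul_def, Algebra.smul_def, smul_mul', hfix]⟩
  have : Algebra.IsInvariant (𝓞 F) (𝓞 Ω) (Ω ≃ₐ[F] Ω) := ⟨fun b hb => by
    obtain ⟨y, hy⟩ := (InfiniteGalois.mem_range_algebraMap_iff_fixed (k := F) (b : Ω)).2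
      fun h => congrArg (fun y : 𝓞 Ω => (y : Ω)) (hb h)
    have hi : IsIntegral ℤ y := by
      rw [← isIntegral_algebraMap_iff (algebraMap F Ω).injective, hy]
      exact b.isIntegral_coe
    exact ⟨⟨y, hi⟩, RingOfIntegers.ext hy⟩⟩
  obtain ⟨h₁, e₁⟩ := Algebra.IsInvariant.exists_smul_of_under_eq_of_profinite (A := 𝓞 F)
    (G := Ω ≃ₐ[F] Ω) P (P.comap τ) (by
      ext a
      rw [Ideal.under_def, Ideal.under_def, Ideal.mem_comap, Ideal.mem_comap, Ideal.mem_comap]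
      constructor
      · intro k
        simpa using add_mem (hτ a) k
      · intro k
        simpa using sub_mem k (hτ a))
  let τ₁ : 𝓞 Ω ≃+* 𝓞 Ω := (MulSemiringAction.toRingEquiv (Ω ≃ₐ[F] Ω) (𝓞 Ω) h₁).trans τ
  have t1 : ∀ b, τ₁ b = τ (h₁ • b) := fun _ => rfl
  have hst : ∀ b, τ₁ b ∈ P ↔ b ∈ P := fun b => by
    rw [t1, ← Ideal.mem_comap, e₁, Ideal.smul_mem_pointwise_smul_iff]
  have hmap : P = P.map (τ₁ : 𝓞 Ω →+* 𝓞 Ω) := by
    rw [Ideal.map_comap_of_equiv]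
    ext b
    rw [Ideal.mem_comap, ← hst (τ₁.symm b), RingEquiv.apply_symm_apply]
  let σ : (𝓞 Ω ⧸ P) ≃ₐ[𝓞 F ⧸ P.under (𝓞 F)] 𝓞 Ω ⧸ P :=
    AlgEquiv.ofRingEquiv (f := Ideal.quotientEquiv P P τ₁ hmap) fun a => by
      obtain ⟨a, rfl⟩ := Ideal.Quotient.mk_surjective a
      change Ideal.Quotient.mk P (τ₁ (algebraMap (𝓞 F) (𝓞 Ω) a)) =
        Ideal.Quotient.mk P (algebraMap (𝓞 F) (𝓞 Ω) a)
      rw [Ideal.Quotient.eq, t1, hfix]
      exact hτ a
  obtain ⟨h₂, e₂⟩ := Ideal.Quotient.stabilizerHom_surjective_of_profinite (G := Ω ≃ₐ[F] Ω)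
    (P.under (𝓞 F)) P σ
  refine ⟨h₁ * h₂.1⁻¹, fun b => ?_⟩
  have k := DFunLike.congr_fun e₂ (Ideal.Quotient.mk P (h₂.1⁻¹ • b))
  change Ideal.Quotient.mk P (h₂.1 • h₂.1⁻¹ • b) = Ideal.Quotient.mk P (τ₁ (h₂.1⁻¹ • b)) at k
  rw [smul_inv_smul] at k
  rw [mul_smul, ← t1]
  exact Ideal.Quotient.eq.1 k.symm

theorem e2p_int {Γ : Type} [LinearOrderedCommGroupWithZero Γ] (v : Valuation ℂ Γ) {y : ℂ}
    (hy : IsIntegral ℤ y) : v y ≤ 1 :=
  (Valuation.integer.integers v).mem_of_integral hy.tower_top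

namespace St

variable (s : St) (F : IntermediateField s.k ℂ) {Γ : Type} [LinearOrderedCommGroupWithZero Γ]

theorem e2p_inert (v : Valuation ℂ Γ) (σ : s.Au)
    (h : ∀ y : ℂ, IsIntegral ℤ y → v (σ y - y) < 1) : Inert v σ := by
  intro x hx hv
  obtain ⟨E, hE, _, hm⟩ := s.exists_gal (Set.finite_singleton x) (by rintro _ rfl; exact hx)
  obtain ⟨a, b, hb, hab⟩ := s.loc E v (x := ⟨x, hm x rfl⟩) hv
  have ia : IsIntegral ℤ ((a : E) : ℂ) := a.isIntegral_coe.map E.val.toRingHom.toIntAlgHom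
  have ib : IsIntegral ℤ ((b : E) : ℂ) := b.isIntegral_coe.map E.val.toRingHom.toIntAlgHom
  have e : ((b : E) : ℂ) * x = ((a : E) : ℂ) := congrArg Subtype.val hab
  have e' : σ ((b : E) : ℂ) * σ x = σ ((a : E) : ℂ) := by rw [← map_mul, e]
  have hσb : v (σ ((b : E) : ℂ)) = 1 := by
    have := v.map_add_eq_of_lt_left (x := ((b : E) : ℂ)) (y := σ ((b : E) : ℂ) - ((b : E) : ℂ))
      (by rw [hb]; exact h _ ib)
    rwa [add_sub_cancel, hb] at this
  have k : σ ((b : E) : ℂ) * (σ x - x) =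
      (σ ((a : E) : ℂ) - ((a : E) : ℂ)) - (σ ((b : E) : ℂ) - ((b : E) : ℂ)) * x := by
    linear_combination e' - e
  have k2 := congrArg v k
  rw [map_mul, hσb, one_mul] at k2
  rw [k2]
  refine v.map_sub_lt (h _ ia) ?_
  rw [map_mul]
  exact mul_lt_one_of_lt_of_le (h _ ib) hv

theorem lift_inert [FiniteDimensional s.k F] [IsGalois s.k F] (v : Valuation ℂ Γ)
    (g : F ≃ₐ[s.k] F) (hg : ∀ x : 𝓞 F, v (((g x : F) : ℂ) - ((x : F) : ℂ)) < 1) :
    ∃ σ : s.Au, Inert v σ ∧ ∀ x : F, σ x = ((g x : F) : ℂ) := by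
  obtain ⟨σ₀, h₀⟩ := s.ext_aut F (F.val.comp g.toAlgHom)
  have h₀' : ∀ x : F, σ₀ x = ((g x : F) : ℂ) := h₀
  have : NumberField F := NumberField.of_module_finite s.k F
  let Ω : IntermediateField F ℂ := algebraicClosure F ℂ
  have hΩ : ∀ x : ℂ, x ∈ Ω ↔ IsAlgebraic ℚ x := fun x => by
    rw [mem_algebraicClosure_iff]
    exact ⟨fun k => k.restrictScalars ℚ, fun k => k.tower_top F⟩
  have : IsGalois F Ω := inferInstance
  have : Countable Ω :=
    ((Algebraic.countable ℚ ℂ).mono fun x hx => (hΩ x).1 hx).to_subtype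
  let τ₀ : Ω ≃+* Ω :=
    { toFun := fun x => ⟨σ₀ x, (hΩ _).2 (s.au_alg σ₀ ((hΩ _).1 x.2))⟩
      invFun := fun x => ⟨σ₀.symm x, (hΩ _).2 (s.au_alg σ₀.symm ((hΩ _).1 x.2))⟩
      left_inv := fun x => Subtype.ext (σ₀.symm_apply_apply x)
      right_inv := fun x => Subtype.ext (σ₀.apply_symm_apply x)
      map_mul' := fun x y => Subtype.ext (map_mul σ₀ (x : ℂ) y)
      map_add' := fun x y => Subtype.ext (map_add σ₀ (x : ℂ) y) }
  obtain ⟨P, hP, hmem⟩ : ∃ P : Ideal (𝓞 Ω), P.IsPrime ∧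
      ∀ x : 𝓞 Ω, v ((x : Ω) : ℂ) < 1 ↔ x ∈ P := s.exists_ideal (Ω.restrictScalars s.k) v
  obtain ⟨h, hh⟩ := e2p_abs (F := F) P (RingOfIntegers.mapRingEquiv τ₀) fun a => by
    rw [← hmem]
    have := hg a
    rw [← h₀'] at this
    exact this
  obtain ⟨σ, hσ⟩ := Pool.Agent.P.MP_20768c_nt.Tz.EQ.exists_aut (A := Ω) Ω.val.toRingHom
    (σ₀.toRingEquiv.toRingHom.comp (Ω.val.toRingHom.comp h.toRingEquiv.toRingHom))
  have hσ' : ∀ x : Ω, σ (x : ℂ) = σ₀ ((h x : Ω) : ℂ) := hσ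
  have hF : ∀ x : F, σ x = ((g x : F) : ℂ) := fun x => by
    have := hσ' (algebraMap F Ω x)
    rw [AlgEquiv.commutes] at this
    exact this.trans (h₀' x)
  let σ' : s.Au := AlgEquiv.ofRingEquiv (f := σ) fun a => by
    have := hF (algebraMap s.k F a)
    rw [AlgEquiv.commutes] at this
    exact this
  refine ⟨σ', s.e2p_inert v σ' fun y hy => ?_, hF⟩
  have hy' : y ∈ Ω := (hΩ y).2 (hy.tower_top (A := ℚ)).isAlgebraic
  have hi : IsIntegral ℤ (⟨y, hy'⟩ : Ω) :=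
    (isIntegral_algebraMap_iff (R := ℤ) (algebraMap Ω ℂ).injective).1 hy
  have k := (hmem _).2 (hh ⟨⟨y, hy'⟩, hi⟩)
  have e : σ' y = σ₀ ((h ⟨y, hy'⟩ : Ω) : ℂ) := hσ' ⟨y, hy'⟩
  rw [e]
  exact k

end St

end Pool.Agent.P.MP_20768c_nt.Tz.Cv

end

-- part Cv.X1
section

set_option autoImplicit false

open Complex NumberField IsDedekindDomain
open scoped Real

namespace Pool.Agent.P.MP_20768c_nt.Tz.Cv

theorem x1_place {l : ℕ} (hl : l.Prime) : ∃ V : ValuationSubring ℂ, V.valuation l < 1 := by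
  by_contra h
  push Not at h
  have h1 : IsIntegral ℤ ((l : ℂ)⁻¹) := e1_integral fun V => by
    rw [map_inv₀]
    exact inv_le_one_of_one_le₀ (h V)
  have h2 : IsIntegral ℤ ((l : ℚ)⁻¹) := by
    rw [← isIntegral_algebraMap_iff (B := ℂ) (algebraMap ℚ ℂ).injective]
    simpa using h1
  obtain ⟨n, hn⟩ := IsIntegrallyClosed.isIntegral_iff.1 h2
  have h3 : (l : ℚ) * n = 1 := by
    rw [show (n : ℚ) = (l : ℚ)⁻¹ from hn]
    exact mul_inv_cancel₀ (Nat.cast_ne_zero.2 hl.ne_zero)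
  have h4 : (l : ℤ) * n = 1 := by exact_mod_cast h3
  exact hl.not_dvd_one (Int.natCast_dvd_natCast.1 (Dvd.intro _ h4))

section
variable {Γ : Type} [LinearOrderedCommGroupWithZero Γ] (v : Valuation ℂ Γ)

theorem x1_int {l : ℕ} (hl : l.Prime) (h : v l < 1) {n : ℤ} (hn : v n < 1) : (l : ℤ) ∣ n := by
  by_contra hd
  obtain ⟨a, b, hab⟩ := (Nat.prime_iff_prime_int.1 hl).irreducible.coprime_iff_not_dvd.2 hd
  have e : (l : ℂ) * a + n * b = 1 := by
    rw [mul_comm, mul_comm (n : ℂ)]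
    exact_mod_cast hab
  have h1 := v.map_add_lt (St.c1a_lt v h (St.c1a_int v a)) (St.c1a_lt v hn (St.c1a_int v b))
  rw [e, map_one] at h1
  exact lt_irrefl _ h1

theorem x1_pow {x y : ℂ} (hx : v x ≤ 1) (hy : v y ≤ 1) (h : v (x - y) < 1) (j : ℕ) :
    v (x ^ j - y ^ j) < 1 := by
  induction j with
  | zero => simp
  | succ j ih =>
    rw [show x ^ (j + 1) - y ^ (j + 1) = (x ^ j - y ^ j) * x + (x - y) * y ^ j by ring]
    exact v.map_add_lt (St.c1a_lt v ih hx)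
      (St.c1a_lt v h (by rw [map_pow]; exact pow_le_one₀ zero_le hy))

theorem x1_eta {l d a : ℕ} (hl : l.Prime) (hd : 0 < d) (ha : ∀ j : ℕ, a ^ j ≡ 1 [MOD l] ↔ d ∣ j)
    (h : v l < 1) : ∃ η, IsPrimitiveRoot η d ∧ v (∑ t ∈ Finset.range d, η⁻¹ ^ t * a ^ t) = 1 := by
  have va : v a ≤ 1 := by exact_mod_cast St.c1a_int v a
  have h1 : v ((a : ℂ) ^ d - 1) < 1 := by
    obtain ⟨n, hn⟩ := (Nat.modEq_iff_dvd.1 ((ha d).2 dvd_rfl).symm)
    have e : (a : ℂ) ^ d - 1 = l * n := by exact_mod_cast hn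
    rw [e]
    exact St.c1a_lt v h (St.c1a_int v n)
  have h2 := congrArg (Polynomial.eval (a : ℂ))
    (Polynomial.X_pow_sub_one_eq_prod hd (Complex.isPrimitiveRoot_exp d hd.ne'))
  simp only [Polynomial.eval_sub, Polynomial.eval_pow, Polynomial.eval_X, Polynomial.eval_one,
    Polynomial.eval_prod, Polynomial.eval_C] at h2
  obtain ⟨η, hη, h3⟩ : ∃ η ∈ Polynomial.nthRootsFinset d (1 : ℂ), v (a - η) < 1 := by
    by_contra hc
    push Not at hc
    rw [h2, map_prod] at h1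
    exact absurd (Finset.one_le_prod' hc) (not_le.2 h1)
  rw [Polynomial.mem_nthRootsFinset hd] at hη
  have vη := St.v_root v hd hη
  have η0 : η ≠ 0 := fun e => by simp [e] at vη
  have vd : v d = 1 := by
    refine le_antisymm (by exact_mod_cast St.c1a_int v d) (not_lt.1 fun hc => ?_)
    have h4 : l ∣ d := Int.natCast_dvd_natCast.1 (x1_int v hl h (by exact_mod_cast hc))
    have h5 : a.Coprime l := Nat.Coprime.coprime_dvd_left (dvd_pow_self a hd.ne')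
      (Nat.coprime_of_mul_modEq_one 1 (by rw [mul_one]; exact (ha d).2 dvd_rfl))
    have h6 := (ha _).1 (Nat.ModEq.pow_totient h5)
    rw [Nat.totient_prime hl] at h6
    have := Nat.le_of_dvd (Nat.sub_pos_of_lt hl.one_lt) (h4.trans h6)
    have := hl.pos
    omega
  refine ⟨η, ⟨hη, fun j hj => (ha j).1 ?_⟩, ?_⟩
  · have h4 := x1_pow v va vη.le h3 j
    rw [hj] at h4
    exact (Nat.modEq_iff_dvd.2 (x1_int v hl h (by exact_mod_cast h4))).symm
  · have h4 : v (∑ t ∈ Finset.range d, (η⁻¹ ^ t * a ^ t - 1)) < 1 := by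
      refine v.map_sum_lt one_ne_zero fun t _ => ?_
      rw [show η⁻¹ ^ t * a ^ t - 1 = (a ^ t - η ^ t) * η⁻¹ ^ t by
        rw [sub_mul, ← mul_pow η, mul_inv_cancel₀ η0, one_pow, mul_comm]]
      exact St.c1a_lt v (x1_pow v va vη.le h3 t) (by rw [map_pow, map_inv₀, vη]; simp)
    rw [Finset.sum_sub_distrib, Finset.sum_const, Finset.card_range, nsmul_eq_mul, mul_one,
      ← vd] at h4
    rw [← vd]
    exact v.map_eq_of_sub_lt h4

end

theorem x1_ev {ι K : Type} [Fintype K] [DecidableEq K] {l d a : ℕ} (hl : l.Prime) (hd : 0 < d)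
    (ha : ∀ j : ℕ, a ^ j ≡ 1 [MOD l] ↔ d ∣ j) (p : ι → ι) (hp : p^[d] = id) (R : Finset ι)
    (hR : ∀ (η : ℂ) (f : ι → ℂ), IsPrimitiveRoot η d → (∀ i, f (p i) = η * f i) →
      (∀ i ∈ R, f i = 0) → f = 0)
    (M : Submodule ℤ (ι → ℂ)) (hM : ∀ f ∈ M, f ∘ p ∈ M) (x : K → ι → ℂ)
    (he : ∀ j, ∃ z ∈ M, x j ∘ p = (a : ℂ) • x j + (l : ℂ) • z) (P : K → (ι → ℂ) →ₗ[ℂ] ℂ)
    (hP : ∀ j, ∀ f ∈ M, ∃ n : ℤ, P j f = n)
    (hP' : ∀ j j', ∃ n : ℤ, P j (x j') = (if j = j' then 1 else 0) + l * n) :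
    Fintype.card K ≤ R.card := by
  obtain ⟨V, hV⟩ := x1_place hl
  generalize V.valuation = v at hV
  obtain ⟨η, hη, hs⟩ := x1_eta v hl hd ha hV
  have η0 := hη.ne_zero hd.ne'
  have vη := St.v_root v hd hη.pow_eq_one
  have hit : ∀ j t, ∃ z ∈ M, x j ∘ p^[t] = (a : ℂ) ^ t • x j + (l : ℂ) • z := fun j t => by
    induction t with
    | zero => exact ⟨0, zero_mem _, by simp⟩
    | succ t ih =>
      obtain ⟨z, hz, e⟩ := ih
      obtain ⟨z', hz', e'⟩ := he j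
      refine ⟨(a ^ t) • z' + z ∘ p, add_mem (nsmul_mem hz' _) (hM z hz), funext fun i => ?_⟩
      have e1 := congrFun e (p i)
      have e2 := congrFun e' i
      simp only [Function.comp, Pi.add_apply, Pi.smul_apply, smul_eq_mul, nsmul_eq_mul,
        Function.iterate_succ, Nat.cast_pow, Pi.mul_apply, Pi.pow_apply, Pi.natCast_apply] at e1 e2 ⊢
      rw [e1, e2]
      ring
  choose z hz hz' using hit
  let Y : K → ι → ℂ := fun j => ∑ t ∈ Finset.range d, η⁻¹ ^ t • (x j ∘ p^[t])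
  have hY : ∀ j i, Y j (p i) = η * Y j i := fun j i => by
    have e1 := Finset.sum_range_succ' (fun t => η⁻¹ ^ t * x j (p^[t] i)) d
    rw [Finset.sum_range_succ, hp, inv_pow, hη.pow_eq_one, inv_one, pow_zero] at e1
    simp only [Y, Finset.sum_apply, Pi.smul_apply, smul_eq_mul, Function.comp]
    rw [add_right_cancel e1, Finset.mul_sum]
    refine Finset.sum_congr rfl fun t _ => ?_
    rw [Function.iterate_succ_apply, pow_succ', ← mul_assoc, ← mul_assoc, mul_inv_cancel₀ η0,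
      one_mul]
  generalize hσ : ∑ t ∈ Finset.range d, η⁻¹ ^ t * (a : ℂ) ^ t = σ at hs
  have hPY : ∀ j j', ∃ w, v w ≤ 1 ∧ P j (Y j') = (if j = j' then σ else 0) + l * w := fun j j' => by
    obtain ⟨n, hn⟩ := hP' j j'
    refine ⟨σ * n + ∑ t ∈ Finset.range d, η⁻¹ ^ t * P j (z j' t), v.map_add_le ?_ ?_, ?_⟩
    · rw [map_mul, hs, one_mul]
      exact St.c1a_int v n
    · refine v.map_sum_le fun t _ => ?_
      obtain ⟨n', hn'⟩ := hP j _ (hz j' t)
      rw [map_mul, map_pow, map_inv₀, vη, inv_one, one_pow, one_mul, hn']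
      exact St.c1a_int v n'
    · have e : P j (Y j') = σ * P j (x j') +
          l * ∑ t ∈ Finset.range d, η⁻¹ ^ t * P j (z j' t) := by
        rw [← hσ, Finset.sum_mul, Finset.mul_sum, ← Finset.sum_add_distrib, map_sum]
        refine Finset.sum_congr rfl fun t _ => ?_
        rw [hz', map_smul, map_add, map_smul, map_smul]
        simp only [smul_eq_mul]
        ring
      rw [e, hn]
      split_ifs <;> ring
  choose w hw hw' using hPY
  have hli : LinearIndependent ℂ fun (j : K) (r : R) => Y j r := by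
    refine Fintype.linearIndependent_iff.2 fun g hg j1 => ?_
    have h0 : ∑ j, g j • Y j = 0 := by
      refine hR η _ hη (fun i => ?_) fun i hi => ?_
      · simp only [Finset.sum_apply, Pi.smul_apply, smul_eq_mul, hY, Finset.mul_sum, mul_left_comm]
      · simpa only [Finset.sum_apply, Pi.smul_apply, Pi.zero_apply] using congrFun hg ⟨i, hi⟩
    obtain ⟨j, -, hj⟩ := Finset.exists_max_image Finset.univ (fun j => v (g j)) ⟨j1, Finset.mem_univ _⟩
    have h1 := congrArg (P j) h0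
    simp only [map_sum, map_smul, hw', smul_eq_mul, mul_add, Finset.sum_add_distrib, mul_ite,
      mul_zero, Finset.sum_ite_eq, Finset.mem_univ, if_true, map_zero] at h1
    have h2 : v (g j) ≤ v (g j) * v l := by
      conv_lhs => rw [← mul_one (v (g j)), ← hs, ← map_mul, eq_neg_of_add_eq_zero_left h1, v.map_neg]
      refine v.map_sum_le fun j' _ => ?_
      rw [map_mul, map_mul]
      exact mul_le_mul' (hj j' (Finset.mem_univ _)) (mul_le_of_le_one_right' (hw j j'))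
    by_contra h3
    have h4 : 0 < v (g j) := (v.pos_iff.2 h3).trans_le (hj j1 (Finset.mem_univ _))
    exact absurd h2 (not_le.2 (mul_lt_of_lt_one_right h4 hV))
  simpa using hli.fintype_card_le_finrank

theorem x1_evg {G ι J : Type} [CommGroup G] [Fintype J] {l d a : ℕ} (hl : l.Prime) (hd : 0 < d)
    (ha : ∀ j : ℕ, a ^ j ≡ 1 [MOD l] ↔ d ∣ j) (p : ι → ι) (hp : p^[d] = id) (R : Finset ι)
    (hR : ∀ (η : ℂ) (f : ι → ℂ), IsPrimitiveRoot η d → (∀ i, f (p i) = η * f i) →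
      (∀ i ∈ R, f i = 0) → f = 0)
    (L : G → ι → ℂ) (hL : ∀ x y, L (x * y) = L x + L y) (δ : G →* G)
    (hδ : ∀ x i, L (δ x) i = L x (p i)) (B Z : Subgroup G) (hB : ∀ x ∈ B, δ x ∈ B)
    (hsat : ∀ y, y ^ l ∈ B → y ∈ B) (hZ : ∀ x ∈ B, L x = 0 → x ∈ Z) (b : J → G)
    (hb : ∀ i, b i ∈ B) (hi : LinearIndependent ℂ fun i => L (b i))
    (hs : ∀ x ∈ B, L x ∈ Submodule.span ℤ (Set.range fun i => L (b i))) :
    (Z ⊔ (powMonoidHom l : G →* G).range).relIndex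
        ((B ⊔ (powMonoidHom l : G →* G).range) ⊓ Xe δ a l) ≠ 0 ∧
      (Z ⊔ (powMonoidHom l : G →* G).range).relIndex
        ((B ⊔ (powMonoidHom l : G →* G).range) ⊓ Xe δ a l) ≤ l ^ R.card := by
  classical
  have : Fact l.Prime := ⟨hl⟩
  let Lh : G →* Multiplicative (ι → ℂ) :=
    MonoidHom.mk' (fun x => Multiplicative.ofAdd (L x)) fun x y => congrArg _ (hL x y)
  have Lp : ∀ x (n : ℕ), L (x ^ n) = n • L x := fun x n => map_pow Lh x n
  have Lz : ∀ x (n : ℤ), L (x ^ n) = n • L x := fun x n => map_zpow Lh x n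
  have Ld : ∀ x y, L (x / y) = L x - L y := fun x y => map_div Lh x y
  have Lq : ∀ f : J → G, L (∏ i, f i) = ∑ i, L (f i) := fun f => map_prod Lh f _
  have h1 : ∀ x : (B ⊓ Xe δ a l : Subgroup G), ∃ c : J → ℤ, ∑ i, c i • L (b i) = L x := fun x =>
    (Submodule.mem_span_range_iff_exists_fun ℤ).1 (hs x x.2.1)
  choose c hc using h1
  have hu := (hi.restrict_scalars' ℤ).fintypeLinearCombination_injective
  let φ : (B ⊓ Xe δ a l : Subgroup G) →* Multiplicative (J → ZMod l) :=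
    MonoidHom.mk' (fun x => Multiplicative.ofAdd fun i => (c x i : ZMod l)) fun x y => by
      have e : c (x * y) = c x + c y := hu (by
        rw [map_add]
        simp only [Fintype.linearCombination_apply, hc]
        exact hL x y)
      rw [← ofAdd_add, e]
      congr 1
      funext i
      exact Int.cast_add _ _
  let S : Submodule (ZMod l) (J → ZMod l) :=
    AddSubgroup.toZModSubmodule l (Subgroup.toAddSubgroup' φ.range)
  have h2 := f0a_p_index φ ((Z ⊔ (powMonoidHom l : G →* G).range).subgroupOf _) φ.range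
    (Set.toFinite _) (fun x hx => by
      have h3 : ∀ i, ∃ j : ℤ, c x i = l * j := fun i =>
        (ZMod.intCast_zmod_eq_zero_iff_dvd _ _).1
          (congrFun (congrArg Multiplicative.toAdd (MonoidHom.mem_ker.1 hx)) i)
      choose j hj using h3
      have h4 : x.1 / (∏ i, b i ^ j i) ^ l ∈ Z := by
        refine hZ _ (div_mem x.2.1 (pow_mem (prod_mem fun i _ => zpow_mem (hb i) _) _)) ?_
        rw [Ld, Lp, Lq, ← hc, Finset.smul_sum, sub_eq_zero]
        exact Finset.sum_congr rfl fun i _ => by rw [hj, Lz, mul_smul, natCast_zsmul]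
      rw [Subgroup.mem_subgroupOf, ← div_mul_cancel x.1 ((∏ i, b i ^ j i) ^ l)]
      exact Subgroup.mul_mem_sup h4 ⟨_, rfl⟩) fun g => ⟨g, rfl⟩
  have h3 : Module.finrank (ZMod l) S ≤ R.card := by
    let e := Module.finBasis (ZMod l) S
    have h4 : ∀ j, ∃ x, (fun i => (c x i : ZMod l)) = (e j).1 := fun j => (e j).2
    choose x hx using h4
    choose g hg using fun j => (e.coord j).exists_extend
    choose P hP using fun j => ((Module.Basis.span hi).constr ℂ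
      fun i => (((g j (Pi.single i 1)).val : ℤ) : ℂ)).exists_extend
    have hP1 : ∀ j (t : J → ℤ), P j (∑ i, t i • L (b i)) =
        ((∑ i, t i * (g j (Pi.single i 1)).val : ℤ) : ℂ) := fun j t => by
      rw [map_sum, Int.cast_sum]
      refine Finset.sum_congr rfl fun i _ => ?_
      have e1 := LinearMap.congr_fun (hP j) (Module.Basis.span hi i)
      rw [Module.Basis.constr_basis, LinearMap.comp_apply, Submodule.subtype_apply,
        Module.Basis.span_apply] at e1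
      rw [map_zsmul, e1, zsmul_eq_mul, Int.cast_mul]
    rw [← Fintype.card_fin (Module.finrank (ZMod l) S)]
    refine x1_ev hl hd ha p hp R hR (Submodule.span ℤ (Set.range fun i => L (b i)))
      (fun f hf => ?_) (fun j => L (x j)) (fun j => ?_) P (fun j f hf => ?_) fun j j' => ?_
    · obtain ⟨t, rfl⟩ := (Submodule.mem_span_range_iff_exists_fun ℤ).1 hf
      have e1 : (∑ i, t i • L (b i)) ∘ p = ∑ i, t i • L (δ (b i)) := funext fun i => by
        simp only [Function.comp, Finset.sum_apply, Pi.smul_apply, hδ]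
      rw [e1]
      exact Submodule.sum_mem _ fun i _ => Submodule.smul_mem _ _ (hs _ (hB _ (hb i)))
    · obtain ⟨y, hy⟩ := (x j).2.2
      have e1 : y ^ l = δ (x j) / (x j).1 ^ a := hy
      refine ⟨L y, hs y (hsat y (e1 ▸ div_mem (hB _ (x j).2.1) (pow_mem (x j).2.1 _))), ?_⟩
      rw [Nat.cast_smul_eq_nsmul, Nat.cast_smul_eq_nsmul, ← Lp y, e1, Ld, Lp, add_sub_cancel]
      exact funext fun i => (hδ _ i).symm
    · obtain ⟨t, rfl⟩ := (Submodule.mem_span_range_iff_exists_fun ℤ).1 hf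
      exact ⟨_, hP1 j t⟩
    · have e1 := LinearMap.congr_fun (hg j) (e j')
      rw [LinearMap.comp_apply, Submodule.subtype_apply, ← hx, Module.Basis.coord_apply,
        Module.Basis.repr_self, LinearMap.pi_apply_eq_sum_univ] at e1
      have e2 : (((∑ i, c (x j') i * (g j (Pi.single i 1)).val : ℤ) -
          (if j = j' then 1 else 0) : ℤ) : ZMod l) = 0 := by
        push_cast
        simp only [ZMod.natCast_val, ZMod.cast_id', id]
        rw [sub_eq_zero]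
        refine Eq.trans (Finset.sum_congr rfl fun i _ => ?_) (e1.trans ?_)
        · rw [smul_eq_mul]
          congr 2
          funext i'
          rw [Pi.single_apply]
          simp only [eq_comm]
        · rw [Finsupp.single_apply]
          simp only [eq_comm]
      obtain ⟨n, hn⟩ := (ZMod.intCast_zmod_eq_zero_iff_dvd _ _).1 e2
      refine ⟨n, ?_⟩
      rw [← hc, hP1, eq_add_of_sub_eq' hn]
      push_cast
      rfl
  have h4 : Nat.card φ.range ≤ l ^ R.card := by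
    have e : Nat.card φ.range = Nat.card S := rfl
    rw [e, Module.natCard_eq_pow_finrank (K := ZMod l), Nat.card_zmod]
    exact Nat.pow_le_pow_right hl.pos h3
  have h5 : (B ⊔ (powMonoidHom l : G →* G).range) ⊓ Xe δ a l ≤
      (B ⊓ Xe δ a l) ⊔ (Z ⊔ (powMonoidHom l : G →* G).range) := fun x hx => by
    obtain ⟨y, hy, _, ⟨z, rfl⟩, rfl⟩ := Subgroup.mem_sup.1 hx.1
    have e : powMonoidHom l z ∈ Xe δ a l := ⟨δ z / z ^ a, by
      simp only [powMonoidHom_apply, MonoidHom.div_apply, map_pow, div_pow, ← pow_mul, mul_comm]⟩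
    exact Subgroup.mul_mem_sup ⟨hy, (Subgroup.mul_mem_cancel_right _ e).1 hx.2⟩
      (Subgroup.mem_sup_right ⟨z, rfl⟩)
  have h6 : (Z ⊔ (powMonoidHom l : G →* G).range).relIndex
      ((B ⊓ Xe δ a l) ⊔ (Z ⊔ (powMonoidHom l : G →* G).range)) ≠ 0 := by
    rw [Subgroup.relIndex_sup_right]
    exact h2.1
  refine ⟨fun h => h6 (Subgroup.relIndex_eq_zero_of_le_right h5 h),
    (Subgroup.relIndex_le_of_le_right h5 h6).trans ?_⟩
  rw [Subgroup.relIndex_sup_right]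
  exact h2.2.trans h4

end Pool.Agent.P.MP_20768c_nt.Tz.Cv

end

-- part Cv.B2
section

set_option autoImplicit false

open Complex NumberField IsDedekindDomain Filter Topology
open UpperHalfPlane hiding I
open scoped ComplexConjugate Real MatrixGroups

namespace Pool.Agent.P.MP_20768c_nt.Tz.Cv

open Pool.Agent.P.MP_20768c_nt.Tz.EQ (Lt pr sp IsLat jL qN)

variable {L L' : Lt} {R : Finset ℂ} {z s : ℂ}

theorem b2_ne (h : IsLat L) {t : ℂ} (hz : z ∉ L) (ht : t ∉ L) (hp : z + t ∉ L)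
    (hm : z - t ∉ L) : wp L z - wp L t ≠ 0 := fun e =>
  (wp_inj h hz ht (sub_eq_zero.1 e)).elim hm hp

theorem wp_add_sub (h : IsLat L) {t : ℂ} (hz : z ∉ L) (ht : t ∉ L) (hp : z + t ∉ L)
    (hm : z - t ∉ L) : wp L (z + t) + wp L (z - t) = 2 * wp L t +
      (6 * wp L t ^ 2 - g2 L / 2) / (wp L z - wp L t) + wpd L t ^ 2 / (wp L z - wp L t) ^ 2 := by
  have hne := b2_ne h hz ht hp hm
  have e1 := wp_add_eq h hz ht hp hm
  have e2 := wp_add_eq h hz (w := -t) (fun a => ht (by simpa using neg_mem a))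
    (by rwa [← sub_eq_add_neg]) (by rwa [sub_neg_eq_add])
  rw [wp_neg h, wpd_neg h, ← sub_eq_add_neg] at e2
  have e3 := wpd_sq h hz
  have e4 := wpd_sq h ht
  have e5 : (wp L (z + t) + wp L (z - t)) * (wp L z - wp L t) ^ 2 =
      2 * wp L t * (wp L z - wp L t) ^ 2 + (6 * wp L t ^ 2 - g2 L / 2) * (wp L z - wp L t) +
        wpd L t ^ 2 := by
    linear_combination (1 / 4) * e1 + (1 / 4) * e2 + (1 / 2) * e3 - (1 / 2) * e4
  rw [← mul_left_inj' (pow_ne_zero 2 hne), e5, add_mul, add_mul, div_mul_cancel₀ _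
    (pow_ne_zero 2 hne), sq (wp L z - wp L t), ← mul_assoc (_ / _), div_mul_cancel₀ _ hne]

theorem b2_notMem (hR : Reps L L' R) {t : ℂ} (ht : t ∈ R.erase 0) : t ∉ L := fun a =>
  (Finset.mem_erase.1 ht).1
    (hR.sub_mem (Finset.mem_erase.1 ht).2 hR.2.1 (by rwa [sub_zero]))

theorem b2_add (hR : Reps L L' R) (hz : z ∉ L') {t : ℂ} (ht : t ∈ R) : z + t ∉ L' := fun a =>
  hz (by simpa using sub_mem a (hR.2.2.1 t ht))

theorem b2_sub (hR : Reps L L' R) (hz : z ∉ L') {t : ℂ} (ht : t ∈ R) : z - t ∉ L' := fun a =>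
  hz (by simpa using add_mem a (hR.2.2.1 t ht))

theorem b2_velu (h : IsLat L) (h' : IsLat L') (hR : Reps L L' R) (hz : z ∉ L') :
    wp L' z = wp L z + ∑ t ∈ R.erase 0, ((6 * wp L t ^ 2 - g2 L / 2) / (wp L z - wp L t) +
      wpd L t ^ 2 / (wp L z - wp L t) ^ 2) / 2 := by
  have e1 := hR.sum_bij (fun a => -a) (fun a ha => neg_mem ha) (fun a _ b _ => by
    rw [show -a - -b = -(a - b) by ring, neg_mem_iff]) (fun a => wp L (z + a))
    (fun a _ l hl => by rw [← add_assoc, wp_add h _ hl])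
  rw [← Finset.add_sum_erase _ _ hR.2.1, ← Finset.add_sum_erase _ _ hR.2.1, neg_zero,
    add_right_inj] at e1
  rw [velu_wp h h' hR z, add_right_inj, Finset.sum_sub_distrib]
  have e2 : ∑ t ∈ R.erase 0, wp L (z + t) =
      ∑ t ∈ R.erase 0, (wp L (z + t) + wp L (z + -t)) / 2 := by
    rw [← Finset.sum_div, Finset.sum_add_distrib, e1]
    ring
  rw [e2, ← Finset.sum_sub_distrib]
  refine Finset.sum_congr rfl fun t ht => ?_
  have htR := (Finset.mem_erase.1 ht).2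
  rw [← sub_eq_add_neg, wp_add_sub h (fun a => hz (hR.1 a)) (b2_notMem hR ht)
    (fun a => b2_add hR hz htR (hR.1 a)) (fun a => b2_sub hR hz htR (hR.1 a))]
  ring

open Polynomial in
theorem b2_term (h : IsLat L) (hR : Reps L L' R) {t : ℂ} (ht : t ∈ R.erase 0) :
    ∃ N : ℂ[X], N.natDegree ≤ (R.erase 0).card ∧ ∀ x, x - wp L t ≠ 0 →
      N.eval x = ((6 * wp L t ^ 2 - g2 L / 2) / (x - wp L t) +
        wpd L t ^ 2 / (x - wp L t) ^ 2) / 2 * ∏ u ∈ R.erase 0, (x - wp L u) := by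
  have hdeg : ∀ S : Finset ℂ, (∏ u ∈ S, (X - C (wp L u)) : ℂ[X]).natDegree = S.card :=
    fun S => natDegree_finsetProd_X_sub_C_eq_card S _
  have hev : ∀ (S : Finset ℂ) (x : ℂ),
      (∏ u ∈ S, (X - C (wp L u)) : ℂ[X]).eval x = ∏ u ∈ S, (x - wp L u) := fun S x => by
    simp [eval_prod]
  by_cases h2 : 2 * t ∈ L
  · refine ⟨C ((6 * wp L t ^ 2 - g2 L / 2) / 2) * ∏ u ∈ (R.erase 0).erase t, (X - C (wp L u)),
      (natDegree_C_mul_le _ _).trans (by rw [hdeg]; exact Finset.card_erase_le), fun x hx => ?_⟩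
    rw [eval_mul, eval_C, hev, ← Finset.mul_prod_erase _ _ ht,
      (wpd_eq_zero h (b2_notMem hR ht)).2 h2]
    field_simp
    ring
  · obtain ⟨r, ⟨hr1, hr2⟩, _⟩ := hR.2.2.2 (-t) (neg_mem (hR.2.2.1 t (Finset.mem_erase.1 ht).2))
    have hr0 : r ≠ 0 := by
      rintro rfl
      exact b2_notMem hR ht (by simpa using neg_mem hr2)
    have hrt : r ≠ t := by
      rintro rfl
      exact h2 (by rw [show 2 * r = -(-r - r) by ring]; exact neg_mem hr2)
    have hr : r ∈ (R.erase 0).erase t := Finset.mem_erase.2 ⟨hrt, Finset.mem_erase.2 ⟨hr0, hr1⟩⟩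
    have he : wp L r = wp L t := by rw [← wp_congr h hr2, wp_neg h]
    refine ⟨C ((6 * wp L t ^ 2 - g2 L / 2) / 2) * ∏ u ∈ (R.erase 0).erase t, (X - C (wp L u)) +
      C (wpd L t ^ 2 / 2) * ∏ u ∈ ((R.erase 0).erase t).erase r, (X - C (wp L u)),
      natDegree_add_le_of_degree_le
        ((natDegree_C_mul_le _ _).trans (by rw [hdeg]; exact Finset.card_erase_le))
        ((natDegree_C_mul_le _ _).trans (by
          rw [hdeg]; exact Finset.card_erase_le.trans Finset.card_erase_le)), fun x hx => ?_⟩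
    rw [eval_add, eval_mul, eval_mul, eval_C, eval_C, hev, hev, ← Finset.mul_prod_erase _ _ ht,
      ← Finset.mul_prod_erase _ _ hr, he]
    field_simp

open Polynomial in
theorem b2_poly (h : IsLat L) (h' : IsLat L') (hR : Reps L L' R) :
    ∃ N : ℂ[X], N.natDegree ≤ (R.erase 0).card ∧ ∀ w, w ∉ L' →
      N.eval (wp L w) = (wp L' w - wp L w) * ∏ u ∈ R.erase 0, (wp L w - wp L u) := by
  choose! N h1 h2 using fun t (ht : t ∈ R.erase 0) => b2_term h hR ht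
  refine ⟨∑ t ∈ R.erase 0, N t, natDegree_sum_le_of_forall_le _ _ h1, fun w hw => ?_⟩
  rw [eval_finsetSum, b2_velu h h' hR hw, add_sub_cancel_left, Finset.sum_mul]
  refine Finset.sum_congr rfl fun t ht => h2 t ht _ ?_
  have htR := (Finset.mem_erase.1 ht).2
  exact b2_ne h (fun a => hw (hR.1 a)) (b2_notMem hR ht)
    (fun a => b2_add hR hw htR (hR.1 a)) (fun a => b2_sub hR hw htR (hR.1 a))

open Polynomial in
theorem b2_generic (h : IsLat L) (h' : IsLat L') (hR : Reps L L' R) (hz : z ∉ L') (hs : s ∉ L')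
    (h2 : 2 * s ∉ L') :
    (wp L' z - wp L' s) * ∏ t ∈ R.erase 0, (wp L z - wp L t) = ∏ t ∈ R, (wp L z - wp L (s + t)) := by
  obtain ⟨N, hN1, hN2⟩ := b2_poly h h' hR
  have hcard : (R.erase 0).card + 1 = R.card := Finset.card_erase_add_one hR.2.1
  obtain ⟨D, hD⟩ : ∃ D : ℂ[X], D = ∏ u ∈ R.erase 0, (X - C (wp L u)) := ⟨_, rfl⟩
  obtain ⟨Q, hQ⟩ : ∃ Q : ℂ[X], Q = ∏ u ∈ R, (X - C (wp L (s + u))) := ⟨_, rfl⟩
  have mD : D.Monic := hD ▸ monic_prod_X_sub_C _ _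
  have mQ : Q.Monic := hQ ▸ monic_prod_X_sub_C _ _
  have dD : D.natDegree = (R.erase 0).card := hD ▸ natDegree_finsetProd_X_sub_C_eq_card _ _
  have dQ : Q.natDegree = R.card := hQ ▸ natDegree_finsetProd_X_sub_C_eq_card _ _
  have mP : ((X - C (wp L' s)) * D).Monic := (monic_X_sub_C _).mul mD
  have dP : ((X - C (wp L' s)) * D).natDegree = R.card := by
    rw [(monic_X_sub_C _).natDegree_mul mD, natDegree_X_sub_C, dD, add_comm, hcard]
  have hev : ∀ w, w ∉ L' → (N + ((X - C (wp L' s)) * D - Q)).eval (wp L w) =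
      (wp L' w - wp L' s) * ∏ t ∈ R.erase 0, (wp L w - wp L t) -
        ∏ t ∈ R, (wp L w - wp L (s + t)) := fun w hw => by
    rw [eval_add, hN2 w hw, hD, hQ]
    simp only [eval_sub, eval_mul, eval_prod, eval_X, eval_C]
    ring
  have h0 : N + ((X - C (wp L' s)) * D - Q) = 0 := by
    refine eq_zero_of_degree_lt_of_eval_index_eq_zero R (v := fun t => wp L (s + t)) ?_ ?_ ?_
    · intro a ha b hb e
      rcases wp_inj h (fun k => b2_add hR hs ha (hR.1 k)) (fun k => b2_add hR hs hb (hR.1 k)) e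
        with k | k
      · exact hR.sub_mem ha hb (by rwa [add_sub_add_left_eq_sub] at k)
      · refine absurd ?_ h2
        rw [show 2 * s = s + a + (s + b) - a - b by ring]
        exact sub_mem (sub_mem (hR.1 k) (hR.2.2.1 a ha)) (hR.2.2.1 b hb)
    · refine (degree_add_le _ _).trans_lt (max_lt ?_ ?_)
      · refine degree_le_natDegree.trans_lt ?_
        exact_mod_cast (by omega : N.natDegree < R.card)
      · have := degree_sub_lt_left (p := (X - C (wp L' s)) * D) (q := Q)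
          (by rw [degree_eq_natDegree mP.ne_zero, degree_eq_natDegree mQ.ne_zero, dP, dQ])
          mP.ne_zero (by rw [mP.leadingCoeff, mQ.leadingCoeff])
        rwa [degree_eq_natDegree mP.ne_zero, dP] at this
    · intro t ht
      rw [hev _ (b2_add hR hs ht), wp_add h' s (hR.2.2.1 t ht), sub_self, zero_mul,
        Finset.prod_eq_zero ht (sub_self (wp L (s + t))), sub_self]
  have := hev z hz
  rw [h0, eval_zero] at this
  exact (sub_eq_zero.1 this.symm)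

theorem velu_prod (h : IsLat L) (h' : IsLat L') (hR : Reps L L' R) (hz : z ∉ L') (hs : s ∉ L') :
    (wp L' z - wp L' s) * ∏ t ∈ R.erase 0, (wp L z - wp L t) = ∏ t ∈ R, (wp L z - wp L (s + t)) := by
  have c1 : ContinuousAt (fun w => (wp L' z - wp L' w) * ∏ t ∈ R.erase 0, (wp L z - wp L t)) s :=
    (continuousAt_const.sub (analyticAt_wp h' hs).continuousAt).mul continuousAt_const
  have c2 : ContinuousAt (fun w => ∏ t ∈ R, (wp L z - wp L (w + t))) s := by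
    refine tendsto_finsetProd R fun t ht => ContinuousAt.tendsto (continuousAt_const.sub ?_)
    exact ContinuousAt.comp (f := fun w => w + t)
      (analyticAt_wp h (fun k => b2_add hR hs ht (hR.1 k))).continuousAt
      (continuousAt_id.add continuousAt_const)
  have t2 : Tendsto (fun w : ℂ => 2 * w) (𝓝[≠] s) (𝓝[≠] (2 * s)) := by
    refine tendsto_nhdsWithin_iff.2 ⟨?_, ?_⟩
    · exact ((continuous_const.mul continuous_id).tendsto s).mono_left nhdsWithin_le_nhds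
    · filter_upwards [self_mem_nhdsWithin] with w hw
      exact fun e => hw (mul_left_cancel₀ two_ne_zero e)
  refine tendsto_nhds_unique_of_eventuallyEq (l := 𝓝[≠] s) (c1.tendsto.mono_left nhdsWithin_le_nhds)
    (c2.tendsto.mono_left nhdsWithin_le_nhds) ?_
  filter_upwards [compl_nhds h' {0} s, t2.eventually (compl_nhds h' {0} (2 * s))] with w a b
  exact b2_generic h h' hR hz (by simpa using a) (by simpa using b)

end Pool.Agent.P.MP_20768c_nt.Tz.Cv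

end

-- part Cv.A5
section

set_option autoImplicit false

open Complex NumberField IsDedekindDomain Filter Topology
open UpperHalfPlane hiding I
open scoped ComplexConjugate Real MatrixGroups

namespace Pool.Agent.P.MP_20768c_nt.Tz.Cv

open Pool.Agent.P.MP_20768c_nt.Tz.EQ (Lt pr sp IsLat jL qN)

variable {L L' : Lt} {R : Finset ℂ} {Q Q' t z x : ℂ}

theorem flex_wpd (h : IsLat L) (hQ : Q ∉ L) (h3 : 3 * Q ∈ L) : wpd L Q ≠ 0 ∧ 2 * Q ∉ L := by
  have h2 : 2 * Q ∉ L := fun e => hQ (by convert L.sub_mem h3 e using 1; ring)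
  exact ⟨fun e => h2 ((wpd_eq_zero h hQ).1 e), h2⟩

theorem fa_mul (h : IsLat L) (hQ : Q ∉ L) (h3 : 3 * Q ∈ L) :
    fa L Q * wpd L Q = 6 * wp L Q ^ 2 - g2 L / 2 :=
  div_mul_cancel₀ _ (flex_wpd h hQ h3).1

theorem fa_sq (h : IsLat L) (hQ : Q ∉ L) (h3 : 3 * Q ∈ L) : fa L Q ^ 2 = 12 * wp L Q := by
  obtain ⟨h0, h2⟩ := flex_wpd h hQ h3
  have e := wp_dbl h h2
  rw [wp_congr h (w := -Q) (by convert h3 using 1; ring), wp_neg h, ← fa_mul h hQ h3] at e
  refine mul_right_cancel₀ (pow_ne_zero 2 h0) ?_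
  linear_combination -e

theorem flex_of_sq (h : IsLat L) (hQ : Q ∉ L) (h0 : wpd L Q ≠ 0) (e : fa L Q ^ 2 = 12 * wp L Q) :
    3 * Q ∈ L := by
  have h2 : 2 * Q ∉ L := fun e => h0 ((wpd_eq_zero h hQ).2 e)
  have e1 := wp_dbl h h2
  have e2 : fa L Q * wpd L Q = 6 * wp L Q ^ 2 - g2 L / 2 := div_mul_cancel₀ _ h0
  have e3 : wp L (2 * Q) = wp L Q := by
    refine mul_right_cancel₀ (pow_ne_zero 2 h0) ?_
    rw [← e2] at e1
    linear_combination e1 / 4 + wpd L Q ^ 2 / 4 * e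
  rcases wp_inj h h2 hQ e3 with k | k
  · exact absurd (by convert k using 1; ring) hQ
  · convert k using 1
    ring

theorem flex_wp (h : IsLat L) (hQ : Q ∉ L) (h3 : 3 * Q ∈ L) : wp L Q = fa L Q ^ 2 / 12 := by
  linear_combination -fa_sq h hQ h3 / 12

theorem flex_g2 (h : IsLat L) (hQ : Q ∉ L) (h3 : 3 * Q ∈ L) :
    g2 L = fa L Q ^ 4 / 12 - 2 * fa L Q * wpd L Q := by
  have e := fa_mul h hQ h3
  rw [flex_wp h hQ h3] at e
  linear_combination 2 * e

theorem flex_g3 (h : IsLat L) (hQ : Q ∉ L) (h3 : 3 * Q ∈ L) :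
    g3 L = -(fa L Q ^ 6 / 216) + fa L Q ^ 3 * wpd L Q / 6 - wpd L Q ^ 2 := by
  have e := wpd_sq h hQ
  rw [flex_wp h hQ h3, flex_g2 h hQ h3] at e
  linear_combination e

theorem flex_dl (h : IsLat L) (hQ : Q ∉ L) (h3 : 3 * Q ∈ L) :
    dl L = wpd L Q ^ 3 * (fa L Q ^ 3 - 27 * wpd L Q) := by
  rw [dl, flex_g2 h hQ h3, flex_g3 h hQ h3]
  ring

theorem fa_ne (h : IsLat L) (hQ : Q ∉ L) (h3 : 3 * Q ∈ L) (h2 : g2 L ≠ 0) : fa L Q ≠ 0 := by
  intro e
  apply h2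
  rw [flex_g2 h hQ h3, e]
  ring

theorem hp3_eq (h : IsLat L) (hQ : Q ∉ L) (h3 : 3 * Q ∈ L) :
    (hp3 L Q + 27) * wpd L Q = fa L Q ^ 3 := by
  have b0 := (flex_wpd h hQ h3).1
  have e : 12 * wp L Q ^ 2 - g2 L = 2 * fa L Q * wpd L Q := by
    linear_combination -2 * fa_mul h hQ h3
  rw [hp3, e, flex_wp h hQ h3]
  by_cases a0 : fa L Q = 0
  · simp [a0]
  · field_simp
    ring

theorem hp3_dl (h : IsLat L) (hQ : Q ∉ L) (h3 : 3 * Q ∈ L) :
    hp3 L Q * wpd L Q ^ 4 = dl L := by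
  rw [flex_dl h hQ h3, ← hp3_eq h hQ h3]
  ring

theorem hp3_one (h : IsLat L) (hQ : Q ∉ L) (h3 : 3 * Q ∈ L) :
    jL L * hp3 L Q = (hp3 L Q + 27) * (hp3 L Q + 3) ^ 3 := by
  have e : jL L * dl L = 1728 * g2 L ^ 3 := by rw [jL_eq h, div_mul_cancel₀ _ (dl_ne h)]
  have e2 := hp3_eq h hQ h3
  have e3 : (hp3 L Q + 3) * wpd L Q = fa L Q ^ 3 - 24 * wpd L Q := by linear_combination e2
  refine mul_right_cancel₀ (pow_ne_zero 4 (flex_wpd h hQ h3).1) ?_
  rw [mul_assoc, hp3_dl h hQ h3, e, show (hp3 L Q + 27) * (hp3 L Q + 3) ^ 3 * wpd L Q ^ 4 =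
    (hp3 L Q + 27) * wpd L Q * ((hp3 L Q + 3) * wpd L Q) ^ 3 by ring, e2, e3, flex_g2 h hQ h3]
  ring

theorem hp3_ne (h : IsLat L) (hQ : Q ∉ L) (h3 : 3 * Q ∈ L) (hQ' : Q' ∉ L) (h3' : 3 * Q' ∈ L)
    (hp : Q + Q' ∉ L) (hm : Q - Q' ∉ L) (h2 : g2 L ≠ 0) (k3 : g3 L ≠ 0) :
    hp3 L Q ≠ hp3 L Q' := by
  intro e
  have key : ∀ P, P ∉ L → 3 * P ∈ L → hp3 L P = hp3 L Q →
      g2 L = fa L P * wpd L P * ((hp3 L Q + 3) / 12) ∧
      g3 L = wpd L P ^ 2 * (-((hp3 L Q + 27) ^ 2 / 216) + (hp3 L Q + 27) / 6 - 1) := by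
    intro P hP hP3 eP
    have e1 := hp3_eq h hP hP3
    rw [eP] at e1
    constructor
    · rw [flex_g2 h hP hP3]
      linear_combination -(fa L P / 12) * e1
    · rw [flex_g3 h hP hP3, show fa L P ^ 6 = (fa L P ^ 3) ^ 2 by ring, ← e1]
      ring
  obtain ⟨a1, a2⟩ := key Q hQ h3 rfl
  obtain ⟨b1, b2⟩ := key Q' hQ' h3' e.symm
  have c1 : fa L Q * wpd L Q = fa L Q' * wpd L Q' :=
    mul_right_cancel₀ (right_ne_zero_of_mul (a1 ▸ h2)) (a1.symm.trans b1)
  have c2 : wpd L Q ^ 2 = wpd L Q' ^ 2 :=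
    mul_right_cancel₀ (right_ne_zero_of_mul (a2 ▸ k3)) (a2.symm.trans b2)
  have c3 : fa L Q ^ 2 = fa L Q' ^ 2 := by
    refine mul_right_cancel₀ (pow_ne_zero 2 (flex_wpd h hQ h3).1) ?_
    rw [← mul_pow, c1, c2, mul_pow]
  have c4 : wp L Q = wp L Q' := by rw [flex_wp h hQ h3, flex_wp h hQ' h3', c3]
  rcases wp_inj h hQ hQ' c4 with k | k
  · exact hm k
  · exact hp k

theorem hp3_rel (h : IsLat L) (hQ : Q ∉ L) (h3 : 3 * Q ∈ L) (hQ' : Q' ∉ L) (h3' : 3 * Q' ∈ L)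
    (hp : Q + Q' ∉ L) (hm : Q - Q' ∉ L) (h2 : g2 L ≠ 0) (k3 : g3 L ≠ 0) {a g : ℂ}
    (ha : a = hp3 L Q) (hg : g = hp3 L Q') :
    a * g * (a ^ 2 + a * g + g ^ 2 + 36 * (a + g) + 270) = 729 ∧
      jL L = 756 + (a ^ 3 + a ^ 2 * g + a * g ^ 2 + g ^ 3) + 36 * (a ^ 2 + a * g + g ^ 2) +
        270 * (a + g) := by
  have n : a - g ≠ 0 := sub_ne_zero.2 (ha ▸ hg ▸ hp3_ne h hQ h3 hQ' h3' hp hm h2 k3)
  have e1 := hp3_one h hQ h3
  have e2 := hp3_one h hQ' h3'
  rw [← ha] at e1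
  rw [← hg] at e2
  constructor
  · refine mul_left_cancel₀ n ?_
    linear_combination a * e2 - g * e1
  · refine mul_left_cancel₀ n ?_
    linear_combination e1 - e2

theorem fy_wpd (L : Lt) (Q z : ℂ) :
    wpd L z = 2 * fy L Q z + fa L Q * (wp L z - wp L Q) + wpd L Q := by
  rw [fy]
  ring

theorem flex_sq (h : IsLat L) (hQ : Q ∉ L) (h3 : 3 * Q ∈ L) (hz : z ∉ L) : wpd L z ^ 2 =
    4 * (wp L z - wp L Q) ^ 3 + (fa L Q * (wp L z - wp L Q) + wpd L Q) ^ 2 := by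
  rw [wpd_sq h hz, flex_g2 h hQ h3, flex_g3 h hQ h3, flex_wp h hQ h3]
  ring

theorem fy_curve (h : IsLat L) (hQ : Q ∉ L) (h3 : 3 * Q ∈ L) (hz : z ∉ L) :
    fy L Q z ^ 2 + fa L Q * (wp L z - wp L Q) * fy L Q z + wpd L Q * fy L Q z =
      (wp L z - wp L Q) ^ 3 := by
  rw [fy]
  linear_combination flex_sq h hQ h3 hz / 4

theorem hasDerivAt_fy (h : IsLat L) (hQ : Q ∉ L) (h3 : 3 * Q ∈ L) (hz : z ∉ L) :
    HasDerivAt (fy L Q) (3 * (wp L z - wp L Q) ^ 2 - fa L Q * fy L Q z) z := by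
  have e := (((hasDerivAt_wpd h hz).sub_const (wpd L Q)).sub
    (((hasDerivAt_wp h hz).sub_const (wp L Q)).const_mul (fa L Q))).div_const 2
  refine HasDerivAt.congr_deriv e ?_
  rw [fy, flex_g2 h hQ h3, flex_wp h hQ h3]
  ring

theorem meromorphic_fy (h : IsLat L) (Q z : ℂ) : MeromorphicAt (fy L Q) z := by
  have e := (((meromorphic_wpd h z).sub (MeromorphicAt.const (wpd L Q) z)).sub
    ((MeromorphicAt.const (fa L Q) z).mul
      ((meromorphic_wp h z).sub (MeromorphicAt.const (wp L Q) z)))).div (MeromorphicAt.const 2 z)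
  exact e

theorem fy_add (h : IsLat L) (Q z : ℂ) {l : ℂ} (hl : l ∈ L) : fy L Q (z + l) = fy L Q z := by
  rw [fy, fy, wp_add h z hl, wpd_add h z hl]

theorem fa_congr (h : IsLat L) (e : Q - Q' ∈ L) : fa L Q = fa L Q' := by
  rw [fa, fa, wp_congr h e, wpd_congr h e]

theorem fa_neg (h : IsLat L) (Q : ℂ) : fa L (-Q) = -fa L Q := by
  rw [fa, fa, wp_neg h, wpd_neg h, div_neg]

theorem fa_sc (L : Lt) (hx : x ≠ 0) (Q : ℂ) : fa (pr x * L) (x * Q) = fa L Q / x := by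
  rw [fa, fa, wp_sc L hx, wpd_sc L hx, g2_sc L hx]
  by_cases h0 : wpd L Q = 0
  · simp [h0]
  · field_simp

theorem st_congr (h : IsLat L) (e : Q - Q' ∈ L) : st L Q = st L Q' := by
  rw [st, st, fa_congr h e]

theorem st_neg (h : IsLat L) (Q : ℂ) : st L (-Q) = -st L Q := by
  rw [st, st, fa_neg h, div_neg]

theorem st_sc (L : Lt) (hx : x ≠ 0) (Q : ℂ) : st (pr x * L) (x * Q) = x * st L Q := by
  rw [st, st, fa_sc L hx, div_div_eq_mul_div]
  ring

theorem hp3_congr (h : IsLat L) (e : Q - Q' ∈ L ∨ Q + Q' ∈ L) : hp3 L Q = hp3 L Q' := by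
  have : wp L Q = wp L Q' := by
    rcases e with e | e
    · exact wp_congr h e
    · rw [wp_congr h (w := -Q') (by rwa [sub_neg_eq_add]), wp_neg h]
  rw [hp3, hp3, this]

theorem hp3_sc (L : Lt) (hx : x ≠ 0) (Q : ℂ) : hp3 (pr x * L) (x * Q) = hp3 L Q := by
  rw [hp3, hp3, wp_sc L hx, g2_sc L hx, show 12 * (wp L Q / x ^ 2) ^ 2 - g2 L / x ^ 4 =
    (12 * wp L Q ^ 2 - g2 L) / x ^ 4 by field_simp, show 288 * (wp L Q / x ^ 2) ^ 2 =
    288 * wp L Q ^ 2 / x ^ 4 by field_simp, div_div_div_cancel_right₀ (pow_ne_zero 4 hx)]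

end Pool.Agent.P.MP_20768c_nt.Tz.Cv

end

-- part Cv.B3
section

set_option autoImplicit false

open Complex NumberField IsDedekindDomain Filter Topology
open UpperHalfPlane hiding I
open scoped ComplexConjugate Real MatrixGroups

namespace Pool.Agent.P.MP_20768c_nt.Tz.Cv

open Pool.Agent.P.MP_20768c_nt.Tz.EQ (Lt pr sp IsLat jL qN)

variable {Γ : Type} [LinearOrderedCommGroupWithZero Γ] {v : Valuation ℂ Γ} {L L' : Lt}
  {R : Finset ℂ} {U r U' r' z w x : ℂ}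

theorem good_xg (h : IsLat L) (hG : Good v L U r) :
    ∃ X : XG (ℂ ⧸ L.toAddSubgroup) ℂ, X.Good v ∧
      (∀ z : ℂ, X.x (QuotientAddGroup.mk z) = xm L U r z) ∧
      ∀ z : ℂ, X.Ker v (QuotientAddGroup.mk z) ↔ E1 v L U r z := by
  obtain ⟨X, hx, e2, e4, e6, e8, ed⟩ := exists_xg h hG.1 r
  refine ⟨X, ⟨e2 ▸ hG.2.1, e4 ▸ hG.2.2.1, e6 ▸ hG.2.2.2.1, e8 ▸ hG.2.2.2.2.1, ed ▸ hG.2.2.2.2.2⟩,
    hx, fun z => ?_⟩
  rw [XG.Ker, E1, hx, QuotientAddGroup.eq_zero_iff]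
  rfl

theorem E1_add (h : IsLat L) (hG : Good v L U r) (hz : E1 v L U r z) (hw : E1 v L U r w) :
    E1 v L U r (z + w) := by
  obtain ⟨X, g, -, k⟩ := good_xg h hG
  rw [← k] at hz hw ⊢
  exact XG.ker_add g hz hw

theorem E1_neg (h : IsLat L) (hz : E1 v L U r z) : E1 v L U r (-z) := by
  rw [E1, xm, wp_neg h]
  exact hz.imp_left neg_mem

theorem E1_sub (h : IsLat L) (hG : Good v L U r) (hz : E1 v L U r z) (hw : E1 v L U r w) :
    E1 v L U r (z - w) := by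
  rw [sub_eq_add_neg]
  exact E1_add h hG hz (E1_neg h hw)

theorem E1_congr (h : IsLat L) (e : z - w ∈ L) : E1 v L U r z ↔ E1 v L U r w := by
  rw [E1, E1, xm, xm, wp_congr h e]
  refine or_congr_left ⟨fun a => ?_, fun a => ?_⟩
  · simpa using sub_mem a e
  · simpa using add_mem e a

theorem E1_int (h : IsLat L) (hG : Good v L U r) (hz : E1 v L U r z) (n : ℤ) :
    E1 v L U r (n * z) := by
  obtain ⟨X, g, -, k⟩ := good_xg h hG
  have key : ∀ m : ℕ, E1 v L U r (m * z) := fun m => by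
    have := XG.ker_nsmul g ((k z).2 hz) m
    rwa [← QuotientAddGroup.mk_nsmul, k, nsmul_eq_mul] at this
  obtain ⟨m, rfl | rfl⟩ := n.eq_nat_or_neg
  · exact_mod_cast key m
  · simpa using E1_neg h (key m)

theorem E1_tors (h : IsLat L) (hG : Good v L U r) {n : ℕ} (hn : v n = 1) (hz : E1 v L U r z)
    (h0 : n * z ∈ L) : z ∈ L := by
  obtain ⟨X, g, -, k⟩ := good_xg h hG
  refine (QuotientAddGroup.eq_zero_iff (N := L.toAddSubgroup) z).1
    (XG.ker_tors g hn ((k z).2 hz) ?_)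
  rw [← QuotientAddGroup.mk_nsmul, QuotientAddGroup.eq_zero_iff, nsmul_eq_mul]
  exact h0

theorem xm_le (hz : ¬ E1 v L U r z) : z ∉ L ∧ v (xm L U r z) ≤ 1 := by
  exact ⟨fun e => hz (Or.inl e), not_lt.1 fun e => hz (Or.inr e)⟩

theorem xm_add_E1 (h : IsLat L) (hG : Good v L U r) (hz : ¬ E1 v L U r z) (hw : E1 v L U r w) :
    ¬ E1 v L U r (z + w) ∧ v (xm L U r (z + w) - xm L U r z) < 1 := by
  obtain ⟨X, g, hx, k⟩ := good_xg h hG
  refine ⟨fun e => hz (by simpa using E1_sub h hG e hw), ?_⟩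
  have := XG.x_add_ker g (mt (k z).1 hz) ((k w).2 hw)
  rwa [← QuotientAddGroup.mk_add, hx, hx] at this

theorem xm_inj (h : IsLat L) (hG : Good v L U r) (hz : ¬ E1 v L U r z) (hw : ¬ E1 v L U r w)
    (e : v (xm L U r z - xm L U r w) < 1) : E1 v L U r (z + w) ∨ E1 v L U r (z - w) := by
  obtain ⟨X, g, hx, k⟩ := good_xg h hG
  have := XG.x_inj g (mt (k z).1 hz) (mt (k w).1 hw) (by rwa [hx, hx])
  rwa [← QuotientAddGroup.mk_add, ← QuotientAddGroup.mk_sub, k, k] at this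

theorem xm_unit (h : IsLat L) (hG : Good v L U r) (hz : ¬ E1 v L U r z) (hw : w ∉ L)
    (hp : ¬ E1 v L U r (z + w)) (hm : ¬ E1 v L U r (z - w)) :
    v (xm L U r z - xm L U r w) = max 1 (v (xm L U r w)) := by
  have a := (xm_le hz).2
  by_cases e : E1 v L U r w
  · have b := e.resolve_left hw
    rw [max_eq_right b.le, v.map_sub_eq_of_lt_right (a.trans_lt b)]
  · have b := (xm_le e).2
    rw [max_eq_left b]
    exact le_antisymm (v.map_sub_le a b) (not_lt.1 fun c => (xm_inj h hG hz e c).elim hp hm)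

theorem xm_sc (L : Lt) (hx : x ≠ 0) (U r z : ℂ) :
    xm (pr x * L) (U / x ^ 2) r (x * z) = xm L U r z := by
  rw [xm, xm, wp_sc L hx, div_div_div_cancel_right₀ (pow_ne_zero 2 hx)]

theorem good_sc (hx : x ≠ 0) (hG : Good v L U r) : Good v (pr x * L) (U / x ^ 2) r := by
  have a : g2 (pr x * L) / (U / x ^ 2) ^ 2 = g2 L / U ^ 2 := by
    rw [g2_sc L hx, div_pow, ← pow_mul, div_div_div_cancel_right₀ (pow_ne_zero _ hx)]
  have b : g3 (pr x * L) / (U / x ^ 2) ^ 3 = g3 L / U ^ 3 := by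
    rw [g3_sc L hx, div_pow, ← pow_mul, div_div_div_cancel_right₀ (pow_ne_zero _ hx)]
  have c : dl (pr x * L) / (U / x ^ 2) ^ 6 = dl L / U ^ 6 := by
    rw [dl_sc L hx, div_pow, ← pow_mul, div_div_div_cancel_right₀ (pow_ne_zero _ hx)]
  simp only [Good, mb8, mb4, mb6, a, b, c] at hG ⊢
  exact ⟨div_ne_zero hG.1 (pow_ne_zero 2 hx), hG.2⟩

theorem E1_sc (hx : x ≠ 0) : E1 v (pr x * L) (U / x ^ 2) r (x * z) ↔ E1 v L U r z := by
  rw [E1, E1, xm_sc L hx, mul_mem_sc hx]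

theorem b3_pts (h : IsLat L) (h' : IsLat L') (hR : Reps L L' R) (hG : Good v L U r)
    (hG' : Good v L' U' r') : ∃ a b : ℂ, ∀ i j : ℤ, i = 1 ∨ j = 1 →
      (∀ t ∈ L', ¬ E1 v L U r (i * a + j * b + t)) ∧ ¬ E1 v L' U' r' (i * a + j * b) := by
  have n0 : 0 < R.card := Finset.card_pos.2 ⟨0, hR.2.1⟩
  have le1 : ∀ n : ℕ, v n ≤ 1 := fun n => by
    induction n with
    | zero => simp
    | succ n ih =>
      rw [Nat.cast_succ]
      exact v.map_add_le ih v.map_one.le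
  obtain ⟨l, hl, hv⟩ : ∃ l : ℕ, R.card < l ∧ v l = 1 := by
    rcases (le1 (R.card + 1)).eq_or_lt with e | e
    · exact ⟨_, Nat.lt_succ_self _, e⟩
    · refine ⟨R.card + 1 + 1, by omega, ?_⟩
      rw [Nat.cast_succ, v.map_add_eq_of_lt_right (by rwa [v.map_one]), v.map_one]
  obtain ⟨a, b, ha, hb, hab⟩ := exists_tors h (n := l) (by omega)
  refine ⟨a, b, fun i j hij => ?_⟩
  have tors : (l : ℂ) * (i * a + j * b) ∈ L := by
    have := add_mem (L.smul_mem i ha) (L.smul_mem j hb)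
    rw [zsmul_eq_mul, zsmul_eq_mul] at this
    rwa [show (l : ℂ) * (i * a + j * b) = i * (l * a) + j * (l * b) by ring]
  have no : (R.card : ℂ) * (i * a + j * b) ∉ L := fun e => by
    obtain ⟨c, d⟩ := hab (R.card * i) (R.card * j) (by
      push_cast
      rwa [show (R.card : ℂ) * i * a + R.card * j * b = R.card * (i * a + j * b) by ring])
    rcases hij with rfl | rfl
    · have := Int.le_of_dvd (by omega) c
      omega
    · have := Int.le_of_dvd (by omega) d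
      omega
  refine ⟨fun t ht e => no ?_, fun e => no (hR.card_mul (E1_tors h' hG' hv e (hR.1 tors)))⟩
  have c := hR.card_mul ht
  have d := E1_int h hG e R.card
  rw [Int.cast_natCast] at d
  have f := E1_tors h hG hv d (by
    have := add_mem (L.smul_mem (R.card : ℤ) tors) (L.smul_mem (l : ℤ) c)
    rw [zsmul_eq_mul, zsmul_eq_mul, Int.cast_natCast, Int.cast_natCast] at this
    rwa [show (l : ℂ) * (R.card * (i * a + j * b + t)) =
      R.card * (l * (i * a + j * b)) + l * (R.card * t) by ring])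
  simpa [mul_add] using sub_mem f c

theorem b3_val (h : IsLat L) (h' : IsLat L') (hR : Reps L L' R) (hU : U ≠ 0) (hU' : U' ≠ 0)
    (r r' : ℂ) (hz : z ∉ L') (hw : w ∉ L') :
    v U' * v (xm L' U' r' z - xm L' U' r' w) * ∏ t ∈ R.erase 0, v (xm L U r z - xm L U r t) =
      v U * ∏ t ∈ R, v (xm L U r z - xm L U r (w + t)) := by
  have d : ∀ (L : Lt) {U : ℂ} (r a b : ℂ), U ≠ 0 →
      wp L a - wp L b = U * (xm L U r a - xm L U r b) := fun L U r a b hU => by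
    rw [xm, xm]
    field_simp
    ring
  have e := congrArg v (velu_prod h h' hR hz hw)
  simp only [d L r _ _ hU, d L' r' _ _ hU', map_mul, map_prod, Finset.prod_mul_distrib,
    Finset.prod_const, map_pow] at e
  rw [← Finset.card_erase_add_one hR.2.1, pow_succ] at e
  refine mul_left_cancel₀ (pow_ne_zero (R.erase 0).card (v.ne_zero_iff.2 hU)) ?_
  rw [← mul_assoc _ (v U), ← e, mul_left_comm]

theorem b3_not (hR : Reps L L' R) {t : ℂ} (ht : t ∈ R.erase 0) : t ∉ L := fun e =>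
  (Finset.mem_erase.1 ht).1 (hR.sub_mem (Finset.mem_erase.1 ht).2 hR.2.1 (by simpa using e))

theorem iso_val (h : IsLat L) (h' : IsLat L') (hR : Reps L L' R) (hG : Good v L U r)
    (hG' : Good v L' U' r') : v U' * ∏ t ∈ R.erase 0, max 1 (v (xm L U r t)) = v U := by
  obtain ⟨a, b, hab⟩ := b3_pts h h' hR hG hG'
  have A := hab 1 0 (Or.inl rfl)
  have B := hab 0 1 (Or.inr rfl)
  have P := hab 1 1 (Or.inl rfl)
  have M := hab 1 (-1) (Or.inl rfl)
  simp only [Int.cast_one, Int.cast_zero, Int.cast_neg, one_mul, zero_mul, add_zero, zero_add,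
    neg_mul, ← sub_eq_add_neg] at A B P M
  have A0 : ¬ E1 v L U r a := by simpa using A.1 0 (zero_mem _)
  have e := b3_val (v := v) h h' hR hG.1 hG'.1 r r' (xm_le A.2).1 (xm_le B.2).1
  rw [xm_unit h' hG' A.2 (xm_le B.2).1 P.2 M.2, max_eq_left (xm_le B.2).2, mul_one,
    Finset.prod_eq_one (s := R) fun t ht => ?_, mul_one] at e
  · rw [← e]
    congr 1
    refine Finset.prod_congr rfl fun t ht => (xm_unit h hG A0 (b3_not hR ht) ?_ ?_).symm
    · exact A.1 t (hR.2.2.1 t (Finset.mem_of_mem_erase ht))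
    · rw [sub_eq_add_neg]
      exact A.1 _ (neg_mem (hR.2.2.1 t (Finset.mem_of_mem_erase ht)))
  · have c := xm_le (B.1 t (hR.2.2.1 t ht))
    rw [xm_unit h hG A0 c.1 (by rw [← add_assoc]; exact P.1 t (hR.2.2.1 t ht)) (by
      rw [← sub_sub, sub_eq_add_neg]; exact M.1 _ (neg_mem (hR.2.2.1 t ht))), max_eq_left c.2]

theorem iso_E1 (h : IsLat L) (h' : IsLat L') (hle : L ≤ L') (hG : Good v L U r)
    (hG' : Good v L' U' r') (hz : E1 v L U r z) : E1 v L' U' r' z := by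
  by_contra hc
  obtain ⟨n, le⟩ := xm_le hc
  have ξ := hz.resolve_left fun e => n (hle e)
  obtain ⟨R, hR⟩ := exists_reps h h' hle
  obtain ⟨a, b, hab⟩ := b3_pts h h' hR hG hG'
  have B := hab 0 1 (Or.inr rfl)
  simp only [Int.cast_one, Int.cast_zero, one_mul, zero_mul, zero_add] at B
  have e := b3_val (v := v) h h' hR hG.1 hG'.1 r r' n (xm_le B.2).1
  rw [Finset.prod_congr (s₁ := R) rfl fun t ht =>
      v.map_sub_eq_of_lt_left ((xm_le (B.1 t (hR.2.2.1 t ht))).2.trans_lt ξ),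
    Finset.prod_const, ← Finset.card_erase_add_one hR.2.1, pow_succ] at e
  have p : ∏ t ∈ R.erase 0, v (xm L U r z - xm L U r t) ≤
      (∏ t ∈ R.erase 0, max 1 (v (xm L U r t))) * v (xm L U r z) ^ (R.erase 0).card := by
    rw [← Finset.prod_const, ← Finset.prod_mul_distrib]
    exact Finset.prod_le_prod' fun t _ => v.map_sub_le (le_mul_of_one_le_left' (le_max_left _ _))
      ((le_max_right _ _).trans (le_mul_of_one_le_right' ξ.le))
  have q := e.ge.trans (mul_le_mul' (mul_le_of_le_one_right'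
    (v.map_sub_le le (xm_le B.2).2)) p)
  rw [← mul_assoc (v U'), iso_val h h' hR hG hG', ← mul_assoc] at q
  refine q.not_gt (lt_mul_of_one_lt_right ?_ ξ)
  exact mul_pos (zero_lt_iff.2 (v.ne_zero_iff.2 hG.1)) (pow_pos (zero_lt_one.trans ξ) _)

end Pool.Agent.P.MP_20768c_nt.Tz.Cv

end

-- part Cv.E2
section

set_option autoImplicit false

open Complex NumberField IsDedekindDomain Filter Topology
open UpperHalfPlane hiding I
open scoped ComplexConjugate Real MatrixGroups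

namespace Pool.Agent.P.MP_20768c_nt.Tz.Cv

open Pool.Agent.P.MP_20768c_nt.Tz.EQ (Lt pr sp IsLat jL qN)

theorem e2_pow {k L : Type} [Field k] [Field L] [NumberField k] [NumberField L] [Algebra k L]
    [IsGalois k L] (w : HeightOneSpectrum (𝓞 L)) (E : IntermediateField k L) :
    ∃ u : Valuation E (WithZero (Multiplicative ℤ)), Function.Surjective u ∧ ∀ x : E,
      u x ^ Nat.card ((w.asIdeal.inertia (L ≃ₐ[k] L) ⊓ fixingSubgroup (L ≃ₐ[k] L) (E : Set L) :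
        Subgroup (L ≃ₐ[k] L))) = w.valuation L (x : L) := by
  have hb : w.asIdeal.under (𝓞 E) ≠ ⊥ := Ideal.under_ne_bot (𝓞 E) w.ne_bot
  have := w.isPrime
  let u : HeightOneSpectrum (𝓞 E) := ⟨w.asIdeal.under (𝓞 E), inferInstance, hb⟩
  have hl : w.asIdeal.LiesOver u.asIdeal := ⟨rfl⟩
  have := u.isPrime
  have := u.isMaximal
  refine ⟨u.valuation E, u.valuation_surjective E, fun x => ?_⟩
  have : FiniteDimensional k L := Module.Finite.of_restrictScalars_finite ℚ k L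
  have : IsGaloisGroup (fixingSubgroup (L ≃ₐ[k] L) (E : Set L)) (𝓞 E) (𝓞 L) :=
    IsGaloisGroup.of_isFractionRing _ _ _ E L
  have h1 := HeightOneSpectrum.valuation_liesOver L u w x
  have h2 := Ideal.card_inertia_eq_ramificationIdxIn
    (G := fixingSubgroup (L ≃ₐ[k] L) (E : Set L)) u.asIdeal w.asIdeal
  rw [Ideal.ramificationIdxIn_eq_ramificationIdx u.asIdeal w.asIdeal
    (fixingSubgroup (L ≃ₐ[k] L) (E : Set L)),
    ← Ideal.ramificationIdx'_eq_ramificationIdx u.asIdeal w.asIdeal hb] at h2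
  rw [← h2] at h1
  have h3 : Nat.card (w.asIdeal.inertia (fixingSubgroup (L ≃ₐ[k] L) (E : Set L))) =
      Nat.card ((w.asIdeal.inertia (L ≃ₐ[k] L) ⊓ fixingSubgroup (L ≃ₐ[k] L) (E : Set L) :
        Subgroup (L ≃ₐ[k] L))) := by
    rw [← Nat.card_congr (Subgroup.subgroupOfEquivOfLe
      (inf_le_right (a := w.asIdeal.inertia (L ≃ₐ[k] L)))).toEquiv, Subgroup.inf_subgroupOf_right]
    rfl
  rw [← h3]
  exact h1

theorem e2_abs {k L : Type} [Field k] [Field L] [NumberField k] [NumberField L] [Algebra k L]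
    [IsGalois k L] (w : HeightOneSpectrum (𝓞 L)) (K : IntermediateField k L) (r : L)
    (h : ∀ g : L ≃ₐ[k] L, g ∈ w.asIdeal.inertia (L ≃ₐ[k] L) → (∀ x ∈ K, g x = x) → g r = r) :
    ∃ y ∈ K, w.valuation L r = w.valuation L y := by
  obtain ⟨u, hu, h1⟩ := e2_pow w K
  obtain ⟨u', -, h2⟩ := e2_pow w (K ⊔ IntermediateField.adjoin k {r})
  have hr : r ∈ K ⊔ IntermediateField.adjoin k {r} :=
    (le_sup_right : IntermediateField.adjoin k {r} ≤ _)
      (IntermediateField.mem_adjoin_simple_self k r)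
  have e : w.asIdeal.inertia (L ≃ₐ[k] L) ⊓ fixingSubgroup (L ≃ₐ[k] L)
      ((K ⊔ IntermediateField.adjoin k {r} : IntermediateField k L) : Set L) =
      w.asIdeal.inertia (L ≃ₐ[k] L) ⊓ fixingSubgroup (L ≃ₐ[k] L) (K : Set L) := by
    ext g
    simp only [Subgroup.mem_inf, mem_fixingSubgroup_iff, SetLike.mem_coe, AlgEquiv.smul_def]
    refine and_congr_right fun hg => ⟨fun a y hy => a y ((le_sup_left : K ≤ _) hy), fun a => ?_⟩
    have hle : K ⊔ IntermediateField.adjoin k {r} ≤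
        IntermediateField.fixedField (Subgroup.zpowers g) := by
      have hm : ∀ y : L, g y = y → y ∈ IntermediateField.fixedField (Subgroup.zpowers g) := by
        intro y hy
        rw [IntermediateField.mem_fixedField_iff]
        intro f hf
        have : Subgroup.zpowers g ≤ MulAction.stabilizer (L ≃ₐ[k] L) y := by
          rw [Subgroup.zpowers_le]
          exact hy
        exact this hf
      refine sup_le (fun y hy => hm y (a y hy)) ?_
      rw [IntermediateField.adjoin_simple_le_iff]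
      exact hm r (h g hg a)
    intro y hy
    exact (IntermediateField.mem_fixedField_iff _ _).1 (hle hy) g (Subgroup.mem_zpowers g)
  obtain ⟨y, hy⟩ := hu (u' ⟨r, hr⟩)
  refine ⟨y, y.2, ?_⟩
  rw [← h1 y, hy, ← e, h2]

namespace St

variable (s : St) (F : IntermediateField s.k ℂ) {Γ : Type} [LinearOrderedCommGroupWithZero Γ]

theorem e2_triv [FiniteDimensional s.k F] (v : Valuation ℂ Γ)
    (hv : ∀ x : 𝓞 F, v ((x : F) : ℂ) < 1 → x = 0) {x : F} (h0 : x ≠ 0) : v (x : ℂ) = 1 := by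
  have key : ∀ y : F, y ≠ 0 → v (y : ℂ) ≤ 1 → v (y : ℂ) = 1 := by
    intro y hy h1
    obtain ⟨a, b, hb, hab⟩ := s.loc F v h1
    have e : v ((a : F) : ℂ) = v (y : ℂ) := by
      rw [← hab, IntermediateField.coe_mul, map_mul, hb, one_mul]
    refine le_antisymm h1 (not_lt.1 fun hlt => ?_)
    have ha : a = 0 := hv a (e ▸ hlt)
    have hy0 : v (y : ℂ) = 0 := by rw [← e, ha]; simp
    exact hy (by simpa using hy0)
  rcases le_total (v (x : ℂ)) 1 with h1 | h1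
  · exact key x h0 h1
  · have h2 : v ((x⁻¹ : F) : ℂ) ≤ 1 := by
      rw [IntermediateField.coe_inv, map_inv₀]
      exact inv_le_one_of_one_le₀ h1
    have h3 := key x⁻¹ (inv_ne_zero h0) h2
    rw [IntermediateField.coe_inv, map_inv₀] at h3
    exact inv_eq_one.1 h3

theorem val_fixed [FiniteDimensional s.k F] (v : Valuation ℂ Γ) {r : ℂ} (hr : IsAlgebraic ℚ r)
    (h : ∀ σ : s.Au, Inert v σ → (∀ x ∈ F, σ x = x) → σ r = r) : ∃ y ∈ F, v r = v y := by
  classical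
  obtain ⟨S, hS⟩ : F.toSubmodule.FG := Module.Finite.iff_fg.1 ‹FiniteDimensional s.k F›
  have hSF : ∀ x ∈ S, x ∈ F := fun x hx => by
    have : x ∈ F.toSubmodule := hS ▸ Submodule.subset_span hx
    exact this
  obtain ⟨L, hf, hg, hL⟩ := s.exists_gal (T := insert r (S : Set ℂ))
    (S.finite_toSet.insert r) (by
      rintro x (rfl | hx)
      · exact hr
      · exact s.alg_of_mem F (hSF x hx))
  have hrL : r ∈ L := hL r (Set.mem_insert _ _)
  have hFL : ∀ x ∈ F, x ∈ L := by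
    have : F.toSubmodule ≤ L.toSubmodule := by
      rw [← hS, Submodule.span_le]
      exact fun x hx => hL x (Set.mem_insert_of_mem _ hx)
    exact fun x hx => this hx
  have : NumberField L := NumberField.of_module_finite s.k L
  obtain ⟨Q, hQ, hv⟩ := s.exists_ideal L v
  by_cases hb : Q = ⊥
  · by_cases h0 : r = 0
    · exact ⟨0, zero_mem _, by rw [h0]⟩
    · refine ⟨1, one_mem _, ?_⟩
      rw [map_one]
      refine s.e2_triv L v (x := ⟨r, hrL⟩) (fun x hx => ?_) fun e => h0 (congrArg Subtype.val e)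
      have := (hv x).1 hx
      rwa [hb, Ideal.mem_bot] at this
  · obtain ⟨y, hy, e⟩ := e2_abs (k := s.k) ⟨Q, hQ, hb⟩ (F.comap L.val) ⟨r, hrL⟩ (by
      intro g hg hK
      obtain ⟨σ, h1, h2⟩ := s.lift_inert L v g fun x => (hv (g • x - x)).2 (hg x)
      refine Subtype.ext ?_
      rw [← h2]
      refine h σ h1 fun x hx => ?_
      have := h2 ⟨x, hFL x hx⟩
      rw [hK ⟨x, hFL x hx⟩ hx] at this
      exact this)
    exact ⟨y, hy, le_antisymm ((s.val_equiv L v ⟨Q, hQ, hb⟩ hv ⟨r, hrL⟩ y).2 e.le)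
      ((s.val_equiv L v ⟨Q, hQ, hb⟩ hv y ⟨r, hrL⟩).2 e.ge)⟩

theorem vs_of_fixed [NumberField F] {l C : ℕ} (hl : 0 < l) {x : Fˣ} {r : ℂ}
    (hr : r ^ l = ((x : F) : ℂ)) (h : ∀ (V : ValuationSubring ℂ) (σ : s.Au), V.valuation C = 1 →
      Inert V.valuation σ → (∀ y ∈ F, σ y = y) → σ r = r) : x ∈ Vs F l C := by
  have : FiniteDimensional s.k F := Module.Finite.of_restrictScalars_finite ℚ s.k F
  intro Q hQ
  obtain ⟨V, hV⟩ := s.exists_val F Q.asIdeal Q.isPrime Q.ne_bot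
  have hC : V.valuation (C : ℂ) = 1 := by
    refine le_antisymm ((V.valuation_le_one_iff _).2 (natCast_mem V C)) (not_lt.1 fun hlt => hQ ?_)
    exact (hV C).1 (by simpa using hlt)
  have ha : IsAlgebraic ℚ r := IsAlgebraic.of_pow hl (hr ▸ s.alg_of_mem F (x : F).2)
  obtain ⟨y, hy, e⟩ := s.val_fixed F V.valuation ha fun σ => h V σ hC
  have e2 : V.valuation ((x : F) : ℂ) = V.valuation (((⟨y, hy⟩ : F) ^ l : F) : ℂ) := by
    rw [← hr, map_pow, e, IntermediateField.coe_pow, map_pow]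
  have e3 : Q.valuation F (x : F) = Q.valuation F (⟨y, hy⟩ : F) ^ l := by
    rw [← map_pow]
    exact le_antisymm ((s.val_equiv F V.valuation Q hV _ _).1 e2.le)
      ((s.val_equiv F V.valuation Q hV _ _).1 e2.ge)
  have h0 : Q.valuation F (⟨y, hy⟩ : F) ≠ 0 := by
    intro h0
    rw [h0, zero_pow hl.ne'] at e3
    exact x.ne_zero ((map_eq_zero _).1 e3)
  refine ⟨WithZero.log (Q.valuation F (⟨y, hy⟩ : F)), ?_⟩
  rw [e3, ← nsmul_eq_mul, WithZero.exp_nsmul, WithZero.exp_log h0]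

end St

end Pool.Agent.P.MP_20768c_nt.Tz.Cv

end

-- part Cv.B5
section

set_option autoImplicit false

open Complex NumberField IsDedekindDomain Filter Topology
open UpperHalfPlane hiding I
open scoped ComplexConjugate Real MatrixGroups

namespace Pool.Agent.P.MP_20768c_nt.Tz.Cv

open Pool.Agent.P.MP_20768c_nt.Tz.EQ (Lt pr sp IsLat jL qN)

variable {Γ : Type} [LinearOrderedCommGroupWithZero Γ] {v : Valuation ℂ Γ} {L L' : Lt}
  {R : Finset ℂ}

theorem b5_nat (v : Valuation ℂ Γ) (n : ℕ) [n.AtLeastTwo] : v (ofNat(n) : ℂ) ≤ 1 :=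
  ofNat_mem v.valuationSubring n

theorem b5_ne {x : ℂ} (h : v x = 1) : x ≠ 0 := by
  rintro rfl
  simp at h

theorem b5_g23 (h : IsLat L) (hj : v (jL L) = 1) (hj' : v (jL L - 1728) = 1) :
    g2 L ≠ 0 ∧ g3 L ≠ 0 := (g23_iff h).2 ⟨b5_ne hj, b5_ne hj'⟩

theorem b5_23 (h6 : v 6 = 1) : v 2 = 1 ∧ v 3 = 1 := by
  have e : v 2 * v 3 = 1 := by rw [← map_mul, ← h6]; norm_num
  have h2 := b5_nat v 2
  have h3 := b5_nat v 3
  refine ⟨le_antisymm h2 ?_, le_antisymm h3 ?_⟩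
  · calc 1 = v 2 * v 3 := e.symm
      _ ≤ v 2 * 1 := mul_le_mul' le_rfl h3
      _ = v 2 := mul_one _
  · calc 1 = v 2 * v 3 := e.symm
      _ ≤ 1 * v 3 := mul_le_mul' h2 le_rfl
      _ = v 3 := one_mul _

theorem b5_UU (h2 : g2 L ≠ 0) (h3 : g3 L ≠ 0) : UU L ≠ 0 :=
  div_ne_zero (mul_ne_zero (by norm_num) h3) h2

theorem good_can (h : IsLat L) (hj : v (jL L) = 1) (hj' : v (jL L - 1728) = 1) :
    Good v L (UU L) (-1 / 12) := by
  obtain ⟨h2, h3⟩ := b5_g23 h hj hj'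
  have hk := b5_ne hj'
  have e2 : mb2 (-1 / 12) = 1 := by rw [mb2]; norm_num
  have e4 : mb4 L (UU L) (-1 / 12) = -(72 / (jL L - 1728)) := by
    rw [mb4, g2_UU h h2 h3]; field_simp; ring
  have e6 : mb6 L (UU L) (-1 / 12) = -(4 / (jL L - 1728)) := by
    rw [mb6, g2_UU h h2 h3, g3_UU h h2 h3]; field_simp; ring
  have e8 : mb8 L (UU L) (-1 / 12) = -(1 / (jL L - 1728)) - 1296 / (jL L - 1728) ^ 2 := by
    rw [mb8, e2, e4, e6]; field_simp; ring
  refine ⟨b5_UU h2 h3, by rw [e2, map_one], ?_, ?_, ?_, ?_⟩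
  · rw [e4, Valuation.map_neg, map_div₀, hj', div_one]; exact b5_nat v 72
  · rw [e6, Valuation.map_neg, map_div₀, hj', div_one]; exact b5_nat v 4
  · rw [e8]
    refine v.map_sub_le ?_ ?_
    · rw [Valuation.map_neg, map_div₀, hj', div_one, map_one]
    · rw [map_div₀, map_pow, hj', one_pow, div_one]; exact b5_nat v 1296
  · rw [dl_UU h h2 h3, map_div₀, map_pow, map_pow, hj, hj']; simp

theorem b5_A (h6 : v 6 = 1) (h : IsLat L) (hj : v (jL L) = 1) (hj' : v (jL L - 1728) = 1) :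
    v (g2 L / UU L ^ 2) = 1 ∧ g2 L / UU L ^ 2 = -18 * (g3 L / UU L ^ 3) ∧
      v (12 * (g2 L / UU L ^ 2) - 1) = 1 ∧
      jL L * (12 * (g2 L / UU L ^ 2) - 1) = 20736 * (g2 L / UU L ^ 2) := by
  obtain ⟨h2, h3⟩ := b5_g23 h hj hj'
  obtain ⟨v2, v3⟩ := b5_23 h6
  have hk := b5_ne hj'
  have e : 12 * (jL L / (12 * (jL L - 1728))) - 1 = 2 ^ 6 * 3 ^ 3 / (jL L - 1728) := by
    field_simp; ring
  rw [g2_UU h h2 h3, g3_UU h h2 h3]
  refine ⟨?_, by field_simp; ring, ?_, by field_simp; ring⟩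
  · rw [show (12 : ℂ) = 2 ^ 2 * 3 by norm_num]
    simp only [map_div₀, map_mul, map_pow, hj, hj', v2, v3]; simp
  · rw [e]
    simp only [map_div₀, map_mul, map_pow, hj', v2, v3]; simp

theorem good_zero (h6 : v 6 = 1) (h : IsLat L) (hj : v (jL L) = 1) (hj' : v (jL L - 1728) = 1) :
    Good v L (UU L) 0 := by
  obtain ⟨h2, h3⟩ := b5_g23 h hj hj'
  obtain ⟨v2, v3⟩ := b5_23 h6
  obtain ⟨a1, a2, -, -⟩ := b5_A h6 h hj hj'
  have e4 : mb4 L (UU L) 0 = -(g2 L / UU L ^ 2 / 2) := by rw [mb4]; ring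
  have e6 : mb6 L (UU L) 0 = g2 L / UU L ^ 2 / (2 * 3 ^ 2) := by rw [mb6, a2]; ring
  have e8 : mb8 L (UU L) 0 = -((g2 L / UU L ^ 2) ^ 2 / 2 ^ 4) := by rw [mb8, e4, mb2]; ring
  refine ⟨b5_UU h2 h3, by simp [mb2], ?_, ?_, ?_, ?_⟩
  · rw [e4, Valuation.map_neg, map_div₀, a1, v2, div_one]
  · rw [e6, map_div₀, a1, map_mul, map_pow, v2, v3]; simp
  · rw [e8, Valuation.map_neg, map_div₀, map_pow, map_pow, a1, v2]; simp
  · rw [dl_UU h h2 h3, map_div₀, map_pow, map_pow, hj, hj']; simp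

theorem b5_res {l : ℕ} (hl : l.Prime) (hv : v l < 1) (a : ℕ) :
    ∃ (κ : Type) (_ : Field κ) (φ : v.valuationSubring →+* κ) (F : κ →+* κ),
      (∀ x : v.valuationSubring, φ x = 0 ↔ v x < 1) ∧ ∀ y, y ^ l ^ a = F y := by
  have h0 : ∀ x : v.valuationSubring, IsLocalRing.residue v.valuationSubring x = 0 ↔ v x < 1 :=
    fun x => by rw [IsLocalRing.residue_eq_zero_iff, Valuation.mem_maximalIdeal_iff]
  have : Fact l.Prime := ⟨hl⟩
  have : CharP (IsLocalRing.ResidueField v.valuationSubring) l := by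
    rw [CharP.charP_iff_prime_eq_zero hl]
    simpa using (h0 (l : v.valuationSubring)).2 (by simpa using hv)
  exact ⟨_, inferInstance, IsLocalRing.residue _, iterateFrobenius _ l a, h0, fun _ => rfl⟩

theorem b5_lift {x : ℂ} (h : v x ≤ 1) : ∃ y : v.valuationSubring, (y : ℂ) = x := ⟨⟨x, h⟩, rfl⟩

theorem pow_char {l a : ℕ} (hl : l.Prime) (hv : v l < 1) {x y : ℂ} (hx : v x ≤ 1) (hy : v y ≤ 1) :
    v ((x + y) ^ l ^ a - (x ^ l ^ a + y ^ l ^ a)) < 1 := by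
  obtain ⟨κ, _, φ, F, h0, hF⟩ := b5_res hl hv a
  obtain ⟨x, rfl⟩ := b5_lift hx
  obtain ⟨y, rfl⟩ := b5_lift hy
  have := (h0 ((x + y) ^ l ^ a - (x ^ l ^ a + y ^ l ^ a))).1 (by simp [hF])
  exact_mod_cast this

theorem pow_int {l a : ℕ} (hl : l.Prime) (hv : v l < 1) (m : ℤ) :
    v ((m : ℂ) ^ l ^ a - m) < 1 := by
  obtain ⟨κ, _, φ, F, h0, hF⟩ := b5_res hl hv a
  have := (h0 ((m : v.valuationSubring) ^ l ^ a - m)).1 (by simp [hF])
  exact_mod_cast this

theorem b5_sum {l a : ℕ} (hl : l.Prime) (hv : v l < 1) (h3 : v 3 = 1) {x y μ e₁ e₂ e₃ f₁ f₂ f₃ : ℂ}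
    (hx : v x ≤ 1) (hy : v y ≤ 1) (hμ : v μ ≤ 1) (a₁ : v e₁ ≤ 1) (a₂ : v e₂ ≤ 1) (a₃ : v e₃ ≤ 1)
    (b₁ : v f₁ ≤ 1) (b₂ : v f₂ ≤ 1) (b₃ : v f₃ ≤ 1) (he : e₁ + e₂ + e₃ = 0) (hf : f₁ + f₂ + f₃ = 0)
    (c₁ : v ((y - f₁) * μ - (x - e₁) ^ l ^ a) < 1) (c₂ : v ((y - f₂) * μ - (x - e₂) ^ l ^ a) < 1)
    (c₃ : v ((y - f₃) * μ - (x - e₃) ^ l ^ a) < 1) : v (y * μ - x ^ l ^ a) < 1 := by
  obtain ⟨κ, _, φ, F, h0, hF⟩ := b5_res hl hv a
  obtain ⟨x, rfl⟩ := b5_lift hx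
  obtain ⟨y, rfl⟩ := b5_lift hy
  obtain ⟨μ, rfl⟩ := b5_lift hμ
  obtain ⟨e₁, rfl⟩ := b5_lift a₁
  obtain ⟨e₂, rfl⟩ := b5_lift a₂
  obtain ⟨e₃, rfl⟩ := b5_lift a₃
  obtain ⟨f₁, rfl⟩ := b5_lift b₁
  obtain ⟨f₂, rfl⟩ := b5_lift b₂
  obtain ⟨f₃, rfl⟩ := b5_lift b₃
  have d₁ := (h0 ((y - f₁) * μ - (x - e₁) ^ l ^ a)).2 (by exact_mod_cast c₁)
  have d₂ := (h0 ((y - f₂) * μ - (x - e₂) ^ l ^ a)).2 (by exact_mod_cast c₂)
  have d₃ := (h0 ((y - f₃) * μ - (x - e₃) ^ l ^ a)).2 (by exact_mod_cast c₃)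
  have he' := congrArg (fun t => F (φ t)) (show e₁ + e₂ + e₃ = 0 by exact_mod_cast he)
  have hf' := congrArg φ (show f₁ + f₂ + f₃ = 0 by exact_mod_cast hf)
  have n3 : (3 : κ) ≠ 0 := fun e => by
    have := (h0 3).1 (by rw [map_ofNat, e])
    exact absurd (this : v 3 < 1) h3.not_lt
  simp only [map_sub, map_mul, map_pow, hF, map_add, map_zero] at d₁ d₂ d₃ he' hf'
  have := (h0 (y * μ - x ^ l ^ a)).1 (by
    simp only [map_sub, map_mul, map_pow, hF]
    apply mul_left_cancel₀ n3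
    linear_combination d₁ + d₂ + d₃ + φ μ * hf' - he')
  exact_mod_cast this

theorem b5_alg {l a : ℕ} (hl : l.Prime) (hv : v l < 1) {μ e₁ e₂ e₃ f₁ f₂ f₃ A B j k : ℂ}
    (hμ : v μ = 1) (a₁ : v e₁ ≤ 1) (a₂ : v e₂ ≤ 1) (a₃ : v e₃ ≤ 1)
    (b₁ : v f₁ ≤ 1) (b₂ : v f₂ ≤ 1) (b₃ : v f₃ ≤ 1) (hA : v A = 1) (hB : v B = 1) (hj : v j = 1)
    (hk : v k = 1) (hB' : v (12 * B - 1) = 1) (A2 : A = -4 * (e₁ * e₂ + e₁ * e₃ + e₂ * e₃))
    (A3 : A = -72 * (e₁ * e₂ * e₃)) (B2 : B = -4 * (f₁ * f₂ + f₁ * f₃ + f₂ * f₃))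
    (B3 : B = -72 * (f₁ * f₂ * f₃)) (ej : j * (12 * A - 1) = 20736 * A)
    (ek : k * (12 * B - 1) = 20736 * B) (c₁ : v (f₁ * μ - e₁ ^ l ^ a) < 1)
    (c₂ : v (f₂ * μ - e₂ ^ l ^ a) < 1) (c₃ : v (f₃ * μ - e₃ ^ l ^ a) < 1) :
    v (μ - 1) < 1 ∧ v (k - j ^ l ^ a) < 1 := by
  obtain ⟨κ, _, φ, F, h0, hF⟩ := b5_res hl hv a
  obtain ⟨μ, rfl⟩ := b5_lift hμ.le
  obtain ⟨e₁, rfl⟩ := b5_lift a₁
  obtain ⟨e₂, rfl⟩ := b5_lift a₂
  obtain ⟨e₃, rfl⟩ := b5_lift a₃
  obtain ⟨f₁, rfl⟩ := b5_lift b₁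
  obtain ⟨f₂, rfl⟩ := b5_lift b₂
  obtain ⟨f₃, rfl⟩ := b5_lift b₃
  obtain ⟨A, rfl⟩ := b5_lift hA.le
  obtain ⟨B, rfl⟩ := b5_lift hB.le
  obtain ⟨j, rfl⟩ := b5_lift hj.le
  obtain ⟨k, rfl⟩ := b5_lift hk.le
  have d₁ := (h0 (f₁ * μ - e₁ ^ l ^ a)).2 (by exact_mod_cast c₁)
  have d₂ := (h0 (f₂ * μ - e₂ ^ l ^ a)).2 (by exact_mod_cast c₂)
  have d₃ := (h0 (f₃ * μ - e₃ ^ l ^ a)).2 (by exact_mod_cast c₃)
  have p2 := congrArg (fun t => F (φ t))
    (show A = -4 * (e₁ * e₂ + e₁ * e₃ + e₂ * e₃) from Subtype.ext A2)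
  have p3 := congrArg (fun t => F (φ t)) (show A = -72 * (e₁ * e₂ * e₃) from Subtype.ext A3)
  have q2 := congrArg φ (show B = -4 * (f₁ * f₂ + f₁ * f₃ + f₂ * f₃) from Subtype.ext B2)
  have q3 := congrArg φ (show B = -72 * (f₁ * f₂ * f₃) from Subtype.ext B3)
  have rj := congrArg (fun t => F (φ t)) (show j * (12 * A - 1) = 20736 * A from Subtype.ext ej)
  have rk := congrArg φ (show k * (12 * B - 1) = 20736 * B from Subtype.ext ek)
  have nμ : φ μ ≠ 0 := fun e => hμ.not_lt ((h0 _).1 e)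
  have nB : φ B ≠ 0 := fun e => hB.not_lt ((h0 _).1 e)
  have nB' : φ (12 * B - 1) ≠ 0 := fun e => hB'.not_lt ((h0 _).1 e)
  simp only [map_sub, map_mul, map_pow, hF, map_add, map_neg, map_ofNat, map_one, sub_eq_zero]
    at d₁ d₂ d₃ p2 p3 q2 q3 rj rk
  simp only [map_sub, map_mul, map_ofNat, map_one] at nB'
  rw [← d₁, ← d₂, ← d₃] at p2 p3
  have s2 : F (φ A) = φ B * φ μ ^ 2 := by rw [p2, q2]; ring
  have s3 : F (φ A) = φ B * φ μ ^ 3 := by rw [p3, q3]; ring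
  have m1 : φ μ = 1 := by
    apply mul_left_cancel₀ (mul_ne_zero nB (pow_ne_zero 2 nμ))
    linear_combination s2 - s3
  rw [m1, one_pow, mul_one] at s2
  rw [s2] at rj
  have t1 := (h0 (μ - 1)).1 (by rw [map_sub, m1, map_one, sub_self])
  have t2 := (h0 (k - j ^ l ^ a)).1 (by
    simp only [map_sub, map_pow, hF]
    apply mul_right_cancel₀ nB'
    linear_combination rk - rj)
  exact ⟨by exact_mod_cast t1, by exact_mod_cast t2⟩

theorem b5_prod (S : Finset ℂ) {f : ℂ → ℂ} {c : ℂ} (hc : v c ≤ 1) (h : ∀ t ∈ S, v (f t - c) < 1) :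
    v (∏ t ∈ S, f t - c ^ S.card) < 1 := by
  induction S using Finset.cons_induction with
  | empty => simp
  | cons a S ha ih =>
    have h1 := h a (Finset.mem_cons_self a S)
    have h2 := ih fun t ht => h t (Finset.mem_cons_of_mem ht)
    have h3 : v (f a) ≤ 1 := by simpa using v.map_add_le h1.le hc
    have h4 : v (c ^ S.card) ≤ 1 := by rw [map_pow]; exact pow_le_one' hc _
    rw [Finset.prod_cons, Finset.card_cons, show f a * ∏ t ∈ S, f t - c ^ (S.card + 1) =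
      f a * (∏ t ∈ S, f t - c ^ S.card) + (f a - c) * c ^ S.card by ring]
    refine v.map_add_lt ?_ ?_ <;> rw [map_mul]
    · exact (mul_le_of_le_one_left' h3).trans_lt h2
    · exact (mul_le_of_le_one_right' h4).trans_lt h1

theorem b5_xm (L : Lt) (z : ℂ) : xm L (UU L) 0 z = XX L z := add_zero _

theorem b5_out (h : IsLat L) (hR : Reps L L' R) (hE : ∀ t ∈ R, E1 v L (UU L) 0 t) {z : ℂ}
    (hz : ¬ E1 v L (UU L) 0 z) : z ∉ L' := fun hz' => by
  obtain ⟨r, ⟨h1, h2⟩, -⟩ := hR.2.2.2 z hz'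
  exact hz ((E1_congr h h2).2 (hE r h1))

theorem b5_big (hR : Reps L L' R) (hE : ∀ t ∈ R, E1 v L (UU L) 0 t) {t : ℂ}
    (ht : t ∈ R.erase 0) : 1 < v (XX L t) := by
  obtain ⟨h0, h1⟩ := Finset.mem_erase.1 ht
  rcases hE t h1 with h2 | h2
  · exact absurd (hR.sub_mem h1 hR.2.1 (by rwa [sub_zero])) h0
  · rwa [b5_xm] at h2

theorem b5_key (h : IsLat L) (h' : IsLat L') (hR : Reps L L' R) (hG : Good v L (UU L) 0)
    (hG' : Good v L' (UU L') 0) (hE : ∀ t ∈ R, E1 v L (UU L) 0 t) : ∃ μ : ℂ, v μ = 1 ∧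
      ∀ z s, ¬ E1 v L (UU L) 0 z → ¬ E1 v L (UU L) 0 s →
        v ((XX L' z - XX L' s) * μ - (XX L z - XX L s) ^ R.card) < 1 := by
  have hU := hG.1
  have hU' := hG'.1
  have hb := fun t (ht : t ∈ R.erase 0) => b5_big hR hE ht
  refine ⟨UU L' / UU L * ∏ t ∈ R.erase 0, -XX L t, ?_, fun z s hz hs => ?_⟩
  · have e := iso_val h h' hR hG hG'
    rw [Finset.prod_congr rfl fun t ht => show max 1 (v (xm L (UU L) 0 t)) = v (-XX L t) by
      rw [b5_xm, Valuation.map_neg, max_eq_right (hb t ht).le], ← map_prod] at e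
    rw [map_mul, map_div₀, div_mul_eq_mul_div, e, div_self ((map_ne_zero v).2 hU)]
  have hz1 : v (XX L z) ≤ 1 := b5_xm L z ▸ (xm_le hz).2
  have hs1 : v (XX L s) ≤ 1 := b5_xm L s ▸ (xm_le hs).2
  have hc := v.map_sub_le hz1 hs1
  have p1 : v (∏ t ∈ R, (XX L z - XX L (s + t)) - (XX L z - XX L s) ^ R.card) < 1 :=
    b5_prod R hc fun t ht => by
      have := (xm_add_E1 h hG hs (hE t ht)).2
      rwa [b5_xm, b5_xm, ← Valuation.map_neg, show -(XX L (s + t) - XX L s) =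
        XX L z - XX L (s + t) - (XX L z - XX L s) by ring] at this
  have p2 : v (∏ t ∈ R.erase 0, (1 - XX L z / XX L t) - 1 ^ (R.erase 0).card) < 1 :=
    b5_prod (R.erase 0) (map_one v).le fun t ht => by
      rw [sub_sub_cancel_left, Valuation.map_neg, map_div₀]
      exact (div_lt_one₀ (zero_lt_one.trans (hb t ht))).2 (hz1.trans_lt (hb t ht))
  rw [one_pow] at p2
  have w : ∀ (M : Lt) (y : ℂ), UU M ≠ 0 → wp M y = UU M * XX M y := fun M y hM => by
    rw [XX, mul_div_cancel₀ _ hM]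
  have e := velu_prod h h' hR (b5_out h hR hE hz) (b5_out h hR hE hs)
  have e1 : ∏ t ∈ R.erase 0, (wp L z - wp L t) = UU L ^ (R.erase 0).card *
      ((∏ t ∈ R.erase 0, -XX L t) * ∏ t ∈ R.erase 0, (1 - XX L z / XX L t)) := by
    rw [← Finset.prod_mul_distrib, Finset.pow_card_mul_prod]
    refine Finset.prod_congr rfl fun t ht => ?_
    have : XX L t ≠ 0 := (map_ne_zero v).1 (zero_lt_one.trans (hb t ht)).ne'
    rw [w L z hU, w L t hU]
    field_simp
    ring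
  have e2 : ∏ t ∈ R, (wp L z - wp L (s + t)) = UU L ^ ((R.erase 0).card + 1) *
      ∏ t ∈ R, (XX L z - XX L (s + t)) := by
    rw [Finset.card_erase_add_one hR.2.1, Finset.pow_card_mul_prod]
    exact Finset.prod_congr rfl fun t _ => by rw [w L z hU, w L _ hU, mul_sub]
  rw [e1, e2, w L' z hU', w L' s hU'] at e
  generalize ∏ t ∈ R.erase 0, (1 - XX L z / XX L t) = u at p2 e
  generalize ∏ t ∈ R, (XX L z - XX L (s + t)) = P at p1 e
  generalize (∏ t ∈ R.erase 0, -XX L t) = Q at e ⊢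
  have e3 : (XX L' z - XX L' s) * (UU L' / UU L * Q) * u = P := by
    apply mul_left_cancel₀ (pow_ne_zero ((R.erase 0).card + 1) hU)
    rw [← e]
    field_simp
    ring
  generalize (XX L' z - XX L' s) * (UU L' / UU L * Q) = D at e3 ⊢
  have hu : v u = 1 := by simpa using v.map_one_add_of_lt p2
  have hP : v P ≤ 1 := by
    simpa using v.map_add_le p1.le (show v ((XX L z - XX L s) ^ R.card) ≤ 1 by
      rw [map_pow]; exact pow_le_one' hc _)
  have hD : v D ≤ 1 := by rwa [← e3, map_mul, hu, mul_one] at hP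
  rw [show D - (XX L z - XX L s) ^ R.card = P - (XX L z - XX L s) ^ R.card - D * (u - 1) by
    rw [← e3]; ring]
  refine v.map_sub_lt p1 ?_
  rw [map_mul]
  exact (mul_le_of_le_one_left' hD).trans_lt p2

theorem b5_vieta (h : IsLat L) (hU : UU L ≠ 0) {s t : ℂ} (h1 : s ∉ L) (h2 : t ∉ L)
    (h3 : s + t ∉ L) (k1 : 2 * s ∈ L) (k2 : 2 * t ∈ L) :
    XX L s + XX L t + XX L (s + t) = 0 ∧ g2 L / UU L ^ 2 =
      -4 * (XX L s * XX L t + XX L s * XX L (s + t) + XX L t * XX L (s + t)) ∧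
      -18 * (g3 L / UU L ^ 3) = -72 * (XX L s * XX L t * XX L (s + t)) := by
  obtain ⟨a, b, c, -⟩ := vieta' h h1 h2 h3 k1 k2
  rw [b, c, XX, XX, XX, ← add_div, ← add_div, a]
  exact ⟨zero_div _, by field_simp, by field_simp; ring⟩

theorem frob_cong (h6 : v 6 = 1) (h : IsLat L) (h' : IsLat L') (hR : Reps L L' R)
    (hj : v (jL L) = 1) (hk : v (jL L - 1728) = 1) (hj' : v (jL L') = 1)
    (hk' : v (jL L' - 1728) = 1) {l a : ℕ} (hl : l.Prime) (hv : v l < 1) (hc : R.card = l ^ a)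
    (hE : ∀ t ∈ R, E1 v L (UU L) 0 t) : v (jL L' - jL L ^ R.card) < 1 ∧
      ∀ z, ¬ E1 v L (UU L) 0 z → v (XX L' z - XX L z ^ R.card) < 1 := by
  have hG := good_zero h6 h hj hk
  have hG' := good_zero h6 h' hj' hk'
  obtain ⟨v2, v3⟩ := b5_23 h6
  obtain ⟨μ, hμ, key⟩ := b5_key h h' hR hG hG' hE
  rw [hc] at key ⊢
  obtain ⟨s, t, ks, kt, hi⟩ := exists_tors h one_lt_two
  have n1 : s ∉ L := fun e => by simpa using (hi 1 0 (by simpa using e)).1
  have n2 : t ∉ L := fun e => by simpa using (hi 0 1 (by simpa using e)).2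
  have n3 : s + t ∉ L := fun e => by simpa using (hi 1 1 (by simpa using e)).2
  have k3 : ((2 : ℕ) : ℂ) * (s + t) ∈ L := by rw [mul_add]; exact add_mem ks kt
  have o : ∀ y, y ∉ L → ((2 : ℕ) : ℂ) * y ∈ L → ¬ E1 v L (UU L) 0 y ∧ y ∉ L' ∧ v (XX L y) ≤ 1 ∧
      v (XX L' y) ≤ 1 := fun y hy ky => by
    have a1 : ¬ E1 v L (UU L) 0 y := fun e => hy (E1_tors h hG (n := 2) v2 e ky)
    have a2 := b5_out h hR hE a1
    have a3 : ¬ E1 v L' (UU L') 0 y := fun e => a2 (E1_tors h' hG' (n := 2) v2 e (hR.1 ky))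
    exact ⟨a1, a2, b5_xm L y ▸ (xm_le a1).2, b5_xm L' y ▸ (xm_le a3).2⟩
  obtain ⟨a1, b1, c1, d1⟩ := o s n1 ks
  obtain ⟨a2, b2, c2, d2⟩ := o t n2 kt
  obtain ⟨a3, b3, c3, d3⟩ := o _ n3 k3
  obtain ⟨p0, p2, p3⟩ := b5_vieta h hG.1 n1 n2 n3 ks kt
  obtain ⟨q0, q2, q3⟩ := b5_vieta h' hG'.1 b1 b2 b3 (hR.1 ks) (hR.1 kt)
  have main : ∀ z, ¬ E1 v L (UU L) 0 z → v (XX L' z) ≤ 1 ∧ v (XX L' z * μ - XX L z ^ l ^ a) < 1 :=
    fun z hz => by
      have z1 : v (XX L z) ≤ 1 := b5_xm L z ▸ (xm_le hz).2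
      have z2 : v (XX L' z) ≤ 1 := by
        have e := v.map_add_le (key z s hz a1).le (show v ((XX L z - XX L s) ^ l ^ a) ≤ 1 by
          rw [map_pow]; exact pow_le_one' (v.map_sub_le z1 c1) _)
        rw [sub_add_cancel, map_mul, hμ, mul_one] at e
        simpa using v.map_add_le e d1
      exact ⟨z2, b5_sum hl hv v3 z1 z2 hμ.le c1 c2 c3 d1 d2 d3 p0 q0 (key z s hz a1)
        (key z t hz a2) (key z _ hz a3)⟩
  obtain ⟨A1, A2, -, A4⟩ := b5_A h6 h hj hk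
  obtain ⟨B1, B2, B3, B4⟩ := b5_A h6 h' hj' hk'
  obtain ⟨r1, r2⟩ := b5_alg hl hv hμ c1 c2 c3 d1 d2 d3 A1 B1 hj hj' B3 p2 (A2.trans p3) q2
    (B2.trans q3) A4 B4 (main s a1).2 (main t a2).2 (main _ a3).2
  refine ⟨r2, fun z hz => ?_⟩
  obtain ⟨z1, z2⟩ := main z hz
  rw [show XX L' z - XX L z ^ l ^ a = XX L' z * μ - XX L z ^ l ^ a - XX L' z * (μ - 1) by ring]
  refine v.map_sub_lt z2 ?_
  rw [map_mul]
  exact (mul_le_of_le_one_left' z1).trans_lt r1

end Pool.Agent.P.MP_20768c_nt.Tz.Cv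

end

-- part Cv.X2
section

set_option autoImplicit false

open Complex NumberField IsDedekindDomain
open scoped Real

namespace Pool.Agent.P.MP_20768c_nt.Tz.Cv

open scoped nonZeroDivisors in
theorem x2_selB (F : Type) [Field F] [NumberField F] : ∃ C : ℕ, C ≠ 0 ∧
    ∀ D l : ℕ, C ∣ D → Vs F l D ≤ Vs F 0 D ⊔ Pw F l := by
  classical
  choose J hJ using ClassGroup.mk0_surjective (R := 𝓞 F)
  refine ⟨∏ c, Ideal.absNorm (J c).1, Finset.prod_ne_zero_iff.2 fun c _ =>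
    Ideal.absNorm_eq_zero_iff.not.2 (nonZeroDivisors.ne_zero (J c).2), fun D l hD x hx => ?_⟩
  have hd : ∀ c, Ideal.absNorm (J c).1 ∣ D := fun c =>
    (Finset.dvd_prod_of_mem (fun c => Ideal.absNorm (J c).1) (Finset.mem_univ c)).trans hD
  obtain ⟨A, hA⟩ := f0a_p_exists F (fun Q => f0a_p_ord F Q x / l)
    ((FractionalIdeal.finite_factors (FractionalIdeal.spanSingleton (𝓞 F)⁰ (x : F))).mono
      fun Q hQ => by rw [f0a_p_ord, hQ, Int.zero_ediv])
  have h1 : ClassGroup.mk F (A * (FractionalIdeal.mk0 F (J (ClassGroup.mk F A)))⁻¹) = 1 := by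
    rw [map_mul, map_inv, ClassGroup.mk_mk0, hJ, mul_inv_cancel]
  obtain ⟨y, hy⟩ := (FractionalIdeal.isPrincipal_iff _).1 (ClassGroup.mk_eq_one_iff.1 h1)
  have hy0 : y ≠ 0 := by
    rintro rfl
    exact Units.ne_zero _ (hy.trans FractionalIdeal.spanSingleton_zero)
  have hu : x * (Units.mk0 y hy0 ^ l)⁻¹ ∈ Vs F 0 D := (f0a_mem F).2 fun Q hQ => by
    have h2 : f0a_p_ord F Q (Units.mk0 y hy0) = f0a_p_ord F Q x / l := by
      rw [f0a_p_ord, Units.val_mk0, ← hy, Units.val_mul, FractionalIdeal.count_mul F Q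
        (Units.ne_zero _) (Units.ne_zero _), hA, Units.val_inv_eq_inv_val,
        FractionalIdeal.count_inv, FractionalIdeal.coe_mk0,
        f0a_count F (nonZeroDivisors.ne_zero (J _).2) Q fun h => hQ ?_, neg_zero, add_zero]
      obtain ⟨k, hk⟩ := hd (ClassGroup.mk F A)
      rw [hk, Nat.cast_mul]
      exact Ideal.mul_mem_right _ _ h
    rw [f0a_p_ord_mul, f0a_p_ord_inv, f0a_p_ord_pow, h2,
      Int.mul_ediv_cancel' ((f0a_p_mem F).1 hx Q hQ), add_neg_cancel]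
  rw [← inv_mul_cancel_right x (Units.mk0 y hy0 ^ l)]
  exact Subgroup.mul_mem_sup hu ⟨_, rfl⟩

variable {k F : Type} [Field k] [NumberField k] [Field F] [NumberField F] [Algebra k F]
  [IsGalois k F] {l d a C : ℕ}

theorem x2_trans (P Q : Ideal (𝓞 F)) [P.IsPrime] [Q.IsPrime] (h : P.under (𝓞 k) = Q.under (𝓞 k)) :
    ∃ g : F ≃ₐ[k] F, ∀ x : 𝓞 F, g • x ∈ Q ↔ x ∈ P := by
  obtain ⟨g, hg⟩ := Algebra.IsInvariant.exists_smul_of_under_eq (𝓞 k) (𝓞 F) (F ≃ₐ[k] F) P Q h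
  exact ⟨g, fun x => by rw [hg, Ideal.smul_mem_pointwise_smul_iff]⟩

omit [NumberField k] [IsGalois k F] in
theorem x2_ord (g : F ≃ₐ[k] F) {P Q : HeightOneSpectrum (𝓞 F)}
    (h : ∀ x : 𝓞 F, x ∈ P.asIdeal ↔ g • x ∈ Q.asIdeal) (x : Fˣ) :
    f0a_p_ord F Q (Units.map (g : F →* F) x) = f0a_p_ord F P x := by
  let e := MulSemiringAction.toRingEquiv (F ≃ₐ[k] F) (𝓞 F) g
  have h1 : P.asIdeal = Q.asIdeal.map e.symm := by
    rw [Ideal.map_symm]
    exact Ideal.ext h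
  have h2 : ∀ (y : 𝓞 F) (n : ℕ), P.intValuation y ≤ WithZero.exp (-(n : ℤ)) ↔
      Q.intValuation (g • y) ≤ WithZero.exp (-(n : ℤ)) := fun y n => by
    rw [HeightOneSpectrum.intValuation_le_pow_iff_mem, HeightOneSpectrum.intValuation_le_pow_iff_mem,
      h1, ← Ideal.map_pow, Ideal.map_symm]
    rfl
  have h3 : ∀ y : 𝓞 F, Q.valuation F (g y) = P.valuation F y := fun y => by
    rw [show g y = ((g • y : 𝓞 F) : F) from rfl, HeightOneSpectrum.valuation_of_algebraMap,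
      HeightOneSpectrum.valuation_of_algebraMap]
    rcases eq_or_ne y 0 with rfl | h0
    · rw [smul_zero, map_zero, map_zero]
    · have h4 := Q.intValuation_if_neg ((smul_ne_zero_iff_ne g).2 h0)
      have h5 := P.intValuation_if_neg h0
      exact le_antisymm (((h2 y _).1 h5.le).trans h5.ge) (((h2 y _).2 h4.le).trans h4.ge)
  have h4 : Q.valuation F (g x) = P.valuation F x := by
    obtain ⟨y, z, -, e⟩ := IsFractionRing.div_surjective (A := 𝓞 F) (x : F)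
    rw [← e, map_div₀, map_div₀, map_div₀]
    exact congrArg₂ _ (h3 y) (h3 z)
  rw [f0a_p_val] at h4
  exact neg_injective (WithZero.exp_injective ((f0a_p_val F Q _).symm.trans h4))

theorem x2_fin (hl : l.Prime) (hd : 0 < d) (ha : ∀ j : ℕ, a ^ j ≡ 1 [MOD l] ↔ d ∣ j)
    (δ : F ≃ₐ[k] F) (hg : ∀ g, ∃ j : ℕ, g = δ ^ j) (ho : ∀ j : ℕ, δ ^ j = 1 ↔ d ∣ j) (hC : C ≠ 0)
    (R : Finset (HeightOneSpectrum (𝓞 F)))
    (hR : ∀ Q : HeightOneSpectrum (𝓞 F), (C : 𝓞 F) ∈ Q.asIdeal → Fre k Q.asIdeal →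
      ∃ Q' ∈ R, Q'.asIdeal.under (𝓞 k) = Q.asIdeal.under (𝓞 k)) :
    (Un F ⊔ Pw F l).relIndex ((Vs F 0 C ⊔ Pw F l) ⊓ Xe (Units.map (δ : F →* F)) a l) ≠ 0 ∧
      (Un F ⊔ Pw F l).relIndex ((Vs F 0 C ⊔ Pw F l) ⊓ Xe (Units.map (δ : F →* F)) a l) ≤
        l ^ R.card := by
  classical
  let S := {Q : HeightOneSpectrum (𝓞 F) | (C : 𝓞 F) ∈ Q.asIdeal}
  have hf : Finite S := fin_primes F hC
  let e := MulSemiringAction.toRingEquiv (F ≃ₐ[k] F) (𝓞 F) δ
  let p0 : HeightOneSpectrum (𝓞 F) → HeightOneSpectrum (𝓞 F) :=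
    HeightOneSpectrum.comap (e : 𝓞 F →+* 𝓞 F) e.surjective
  have h0 : ∀ Q x, x ∈ (p0 Q).asIdeal ↔ δ • x ∈ Q.asIdeal := fun _ _ => Iff.rfl
  have hC0 : ∀ Q, (C : 𝓞 F) ∈ (p0 Q).asIdeal ↔ (C : 𝓞 F) ∈ Q.asIdeal := fun Q => by
    rw [h0, show δ • (C : 𝓞 F) = C from map_natCast e C]
  let p : S → S := fun Q => ⟨p0 Q, (hC0 Q).2 Q.2⟩
  have h1 : ∀ (j : ℕ) (Q : S) x, x ∈ (p^[j] Q).1.asIdeal ↔ δ ^ j • x ∈ Q.1.asIdeal := fun j Q => by
    induction j with
    | zero => simp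
    | succ j ih => exact fun x => by rw [Function.iterate_succ_apply', pow_succ, mul_smul, ← ih, h0]
  have h2 : ∀ (η : ℂ) (f : S → ℂ), (∀ i, f (p i) = η * f i) → ∀ j i, f (p^[j] i) = η ^ j * f i :=
    fun η f h j i => by
      induction j with
      | zero => simp
      | succ j ih => rw [Function.iterate_succ_apply', h, ih, pow_succ', mul_assoc]
  let b := Module.finBasis ℤ (f0a_lam F C)
  have h3 : ∀ i, ∃ x ∈ Vs F 0 C, ∀ Q, (b i).1 Q = f0a_p_ord F Q.1 x := fun i => (b i).2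
  choose u hu hu' using h3
  have h4 : (fun i => fun Q : S => (f0a_p_ord F Q.1 (u i) : ℂ)) =
      fun i => algebraMap ℤ ℂ ∘ (b i).1 := funext fun i => funext fun Q => by
    rw [← hu']
    rfl
  have h5 := x1_evg hl hd ha p (funext fun Q => Subtype.ext (HeightOneSpectrum.ext (Ideal.ext
      fun x => by rw [h1, (ho d).2 dvd_rfl, one_smul]; rfl)))
    (R.subtype (· ∈ S)) (fun η f hη h h' => funext fun Q => by
      by_cases hF : Fre k Q.1.asIdeal
      · obtain ⟨Q', hQ', e'⟩ := hR Q.1 Q.2 hF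
        obtain ⟨g, hg'⟩ := x2_trans (k := k) Q.1.asIdeal Q'.asIdeal e'.symm
        obtain ⟨j, rfl⟩ := hg g
        have hS : Q' ∈ S := by
          have := (hg' C).2 Q.2
          rwa [show δ ^ j • (C : 𝓞 F) = C from
            map_natCast (MulSemiringAction.toRingEquiv (F ≃ₐ[k] F) (𝓞 F) (δ ^ j)) C] at this
        have e2 : Q = p^[j] ⟨Q', hS⟩ :=
          Subtype.ext (HeightOneSpectrum.ext (Ideal.ext fun x => by rw [h1, hg']))
        rw [e2, h2 η f h, h' _ (Finset.mem_subtype.2 hQ'), mul_zero, Pi.zero_apply]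
      · obtain ⟨g, hg'⟩ := not_forall.1 hF
        obtain ⟨j, rfl⟩ := hg g
        obtain ⟨k1, k2⟩ := Classical.not_imp.1 hg'
        have e2 : p^[j] Q = Q :=
          Subtype.ext (HeightOneSpectrum.ext (Ideal.ext fun x => by rw [h1, k1]))
        have e3 := h2 η f h j Q
        rw [e2] at e3
        by_contra h6
        exact k2 ((ho j).2 (hη.dvd_of_pow_eq_one j (mul_right_cancel₀ h6
          (e3.symm.trans (one_mul _).symm)))))
    (fun x Q => (f0a_p_ord F Q.1 x : ℂ))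
    (fun x y => funext fun Q => by rw [f0a_p_ord_mul, Int.cast_add, Pi.add_apply])
    (Units.map (δ : F →* F)) (fun x Q => by rw [x2_ord δ (h0 Q.1)]) (Vs F 0 C) (Un F)
    (fun x hx => (f0a_mem F).2 fun Q hQ => by
      rw [x2_ord δ (h0 Q)]
      exact (f0a_mem F).1 hx _ fun h => hQ ((hC0 Q).1 h))
    (fun y hy => (f0a_mem F).2 fun Q hQ => by
      have := (f0a_mem F).1 hy Q hQ
      rw [f0a_p_ord_pow] at this
      exact (mul_eq_zero.1 this).resolve_left (Nat.cast_ne_zero.2 hl.ne_zero))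
    (fun x hx h => f0a_p_un F fun Q => by
      by_cases hQ : (C : 𝓞 F) ∈ Q.asIdeal
      · exact Int.cast_eq_zero.1 (congrFun h ⟨Q, hQ⟩ :)
      · exact (f0a_mem F).1 hx Q hQ)
    u hu (by
      rw [h4, linearIndependent_algebraMap_comp_iff]
      exact b.linearIndependent.map' (f0a_lam F C).subtype (Submodule.ker_subtype _))
    (fun x hx => by
      rw [h4]
      let o : f0a_lam F C := ⟨fun Q => f0a_p_ord F Q.1 x, x, hx, fun _ => rfl⟩
      refine (Submodule.mem_span_range_iff_exists_fun ℤ).2 ⟨b.repr o, funext fun Q => ?_⟩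
      refine Eq.trans ?_ (congrArg (fun z : f0a_lam F C => (z.1 Q : ℂ)) (b.sum_repr o))
      simp [-Module.Basis.sum_repr])
  refine ⟨h5.1, h5.2.trans (Nat.pow_le_pow_right hl.pos ?_)⟩
  rw [Finset.card_subtype]
  exact Finset.card_filter_le _ _

end Pool.Agent.P.MP_20768c_nt.Tz.Cv

end

-- part Cv.X3
section

set_option autoImplicit false

open Complex NumberField IsDedekindDomain
open scoped Real

namespace Pool.Agent.P.MP_20768c_nt.Tz.Cv

theorem x3_mem (F : Type) [Field F] [NumberField F] (x : Fˣ) :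
    x ∈ Un F ↔ IsIntegral ℤ (x : F) ∧ IsIntegral ℤ ((x⁻¹ : Fˣ) : F) := by
  constructor
  · rintro ⟨u, rfl⟩
    exact ⟨u.1.2, u.2.2⟩
  · rintro ⟨h1, h2⟩
    exact ⟨⟨⟨x, h1⟩, ⟨(x⁻¹ : Fˣ), h2⟩, Subtype.ext x.mul_inv, Subtype.ext x.inv_mul⟩,
      Units.ext rfl⟩

theorem x3_sat (F : Type) [Field F] [NumberField F] {n : ℕ} (hn : 0 < n) (y : Fˣ)
    (h : y ^ n ∈ Un F) : y ∈ Un F := by
  rw [x3_mem] at h ⊢
  refine ⟨IsIntegral.of_pow hn ?_, IsIntegral.of_pow hn ?_⟩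
  · rw [← Units.val_pow_eq_pow_val]
    exact h.1
  · rw [← Units.val_pow_eq_pow_val, inv_pow]
    exact h.2

variable {k F : Type} [Field k] [NumberField k] [Field F] [NumberField F] [Algebra k F]
  [IsGalois k F] {l d a C : ℕ}

theorem x3_unit (hl : l.Prime) (hd : 0 < d) (ha : ∀ j : ℕ, a ^ j ≡ 1 [MOD l] ↔ d ∣ j)
    (δ : F ≃ₐ[k] F) (hg : ∀ g, ∃ j : ℕ, g = δ ^ j) (ho : δ ^ d = 1)
    (hk : Subsingleton (InfinitePlace k)) :
    (CommGroup.torsion Fˣ ⊔ Pw F l).relIndex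
        ((Un F ⊔ Pw F l) ⊓ Xe (Units.map (δ : F →* F)) a l) ≠ 0 ∧
      (CommGroup.torsion Fˣ ⊔ Pw F l).relIndex
        ((Un F ⊔ Pw F l) ⊓ Xe (Units.map (δ : F →* F)) a l) ≤ l := by
  classical
  obtain ⟨w0⟩ : Nonempty (InfinitePlace F) := inferInstance
  let u : (𝓞 F)ˣ →* Fˣ := Units.map (algebraMap (𝓞 F) F : 𝓞 F →* F)
  let p : InfinitePlace F → InfinitePlace F := fun w => w.comap (δ : F →+* F)
  have hp : ∀ (j : ℕ) (w : InfinitePlace F), p^[j] w = w.comap ((δ ^ j : F ≃ₐ[k] F) : F →+* F) :=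
    fun j w => by
      induction j with
      | zero => rfl
      | succ j ih =>
        rw [Function.iterate_succ_apply', ih, pow_succ]
        rfl
  let L0 : Fˣ → InfinitePlace F → ℝ := fun x w => Real.log (w (x : F))
  have w0' : ∀ (w : InfinitePlace F) (x : Fˣ), 0 < w (x : F) := fun w x =>
    InfinitePlace.pos_iff.2 x.ne_zero
  let Lh : Fˣ →* Multiplicative (InfinitePlace F → ℂ) :=
    MonoidHom.mk' (fun x => Multiplicative.ofAdd (algebraMap ℝ ℂ ∘ L0 x)) fun x y => by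
      rw [← ofAdd_add]
      congr 1
      funext w
      simp only [L0, Function.comp, Pi.add_apply, Units.val_mul, map_mul]
      rw [Real.log_mul (w0' w x).ne' (w0' w y).ne', map_add]
  have h := x1_evg (G := Fˣ) hl hd ha p (funext fun w => by rw [hp, ho]; rfl) {w0}
    (fun η f _ hf h0 => funext fun w => by
      obtain ⟨σ, rfl⟩ := InfinitePlace.exists_smul_eq_of_comap_eq (k := k) (w := w0) (w' := w)
        (Subsingleton.elim _ _)
      obtain ⟨j, hj⟩ := hg σ⁻¹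
      have e : σ • w0 = p^[j] w0 := by
        rw [hp, ← hj]
        rfl
      rw [e, Pi.zero_apply]
      clear e hj
      induction j with
      | zero => exact h0 _ (Finset.mem_singleton_self _)
      | succ j ih => rw [Function.iterate_succ_apply', hf, ih, mul_zero])
    (fun x => algebraMap ℝ ℂ ∘ L0 x) (fun x y => map_mul Lh x y) (Units.map (δ : F →* F))
    (fun _ _ => rfl) (Un F) (CommGroup.torsion Fˣ)
    (fun x hx => by
      rw [x3_mem] at hx ⊢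
      exact ⟨hx.1.map (δ : F →+* F).toIntAlgHom, hx.2.map (δ : F →+* F).toIntAlgHom⟩)
    (x3_sat F hl.pos)
    (fun x hx h0 => by
      obtain ⟨v, rfl⟩ := hx
      refine u.isOfFinOrder ((Units.mem_torsion F).2 fun w => ?_)
      have h1 : L0 (u v) w = 0 := (algebraMap ℝ ℂ).injective ((congrFun h0 w).trans (map_zero _).symm)
      exact Real.eq_one_of_pos_of_log_eq_zero (w0' w (u v)) h1)
    (fun i => u (Units.fundSystem F i)) (fun _ => ⟨_, rfl⟩)
    (by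
      rw [linearIndependent_algebraMap_comp_iff]
      let T : (InfinitePlace F → ℝ) →ₗ[ℝ] Units.dirichletUnitTheorem.logSpace F :=
        LinearMap.pi fun w => (w.1.mult : ℝ) • LinearMap.proj w.1
      refine LinearIndependent.of_comp T ?_
      have e : (T ∘ fun i => L0 (u (Units.fundSystem F i))) =
          (Units.basisUnitLattice F).ofZLatticeBasis ℝ (Units.unitLattice F) := funext fun i => by
        rw [Module.Basis.ofZLatticeBasis_apply, ← Units.logEmbedding_fundSystem]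
        rfl
      rw [e]
      exact Module.Basis.linearIndependent _)
    (fun x hx => by
      obtain ⟨v, rfl⟩ := hx
      obtain ⟨⟨t, e⟩, rfl, -⟩ := Units.exist_unique_eq_mul_prod F v
      have h1 : Lh (u t) = 1 := by
        refine congrArg Multiplicative.ofAdd (funext fun w => ?_)
        have h2 : w ((u t : Fˣ) : F) = 1 := (Units.mem_torsion F).1 t.2 w
        simp only [L0, Function.comp, h2, Real.log_one, map_zero, Pi.zero_apply]
      have h2 : Lh (u (t * ∏ i, Units.fundSystem F i ^ e i)) =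
          ∏ i, Lh (u (Units.fundSystem F i)) ^ e i := by
        simp only [map_mul, map_prod, map_zpow, h1, one_mul]
      refine (Submodule.mem_span_range_iff_exists_fun ℤ).2 ⟨e, ?_⟩
      have h3 := congrArg Multiplicative.toAdd h2
      rw [toAdd_prod] at h3
      exact h3.symm)
  rwa [Finset.card_singleton, pow_one] at h

theorem x3_tor (F : Type) [Field F] [NumberField F] {l : ℕ} (hl : 0 < l) :
    (Pw F l).relIndex (CommGroup.torsion Fˣ ⊔ Pw F l) ≠ 0 ∧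
      (Pw F l).relIndex (CommGroup.torsion Fˣ ⊔ Pw F l) ≤ l := by
  let pj := QuotientGroup.mk' (Pw F l)
  let u : (𝓞 F)ˣ →* Fˣ := Units.map (algebraMap (𝓞 F) F : 𝓞 F →* F)
  obtain ⟨ζ, hζ⟩ := IsCyclic.exists_generator (α := Units.torsion F)
  let Φ : Fin l → Fˣ ⧸ Pw F l := fun j => pj (u ζ) ^ (j : ℕ)
  have hs : ((CommGroup.torsion Fˣ).map pj : Set (Fˣ ⧸ Pw F l)) ⊆ Set.range Φ := by
    rintro _ ⟨x, hx, rfl⟩
    obtain ⟨n, hn, e⟩ := isOfFinOrder_iff_pow_eq_one.1 hx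
    obtain ⟨v, rfl⟩ := x3_sat F hn x (e ▸ one_mem _)
    have hu : Function.Injective u := Units.map_injective RingOfIntegers.coe_injective
    obtain ⟨a, ha⟩ := hζ ⟨v, hu.isOfFinOrder_iff.1 hx⟩
    obtain ⟨j, hj⟩ := f0b_red (q := pj (u ζ)) hl (by
      rw [← map_pow]
      exact (QuotientGroup.eq_one_iff _).2 ⟨_, rfl⟩) a
    refine ⟨j, ?_⟩
    have h1 : v = ζ.1 ^ a := (congrArg Subtype.val ha).symm
    change _ = pj (u v)
    rw [h1, map_zpow, map_zpow, hj]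
  have e1 : (Pw F l).relIndex (CommGroup.torsion Fˣ ⊔ Pw F l) =
      Nat.card ((CommGroup.torsion Fˣ).map pj) := by
    rw [Subgroup.relIndex_sup_right, ← Subgroup.relIndex_ker, QuotientGroup.ker_mk']
  have hf := Set.finite_range Φ
  have : Finite ((CommGroup.torsion Fˣ).map pj) := hf.subset hs
  rw [e1]
  refine ⟨Nat.card_pos.ne', (Nat.card_mono hf hs).trans ((Finite.card_range_le Φ).trans ?_)⟩
  simp

theorem x3_tower {G : Type} [CommGroup G] {P A B W E : Subgroup G} (h1 : P ≤ A) (h2 : A ≤ B)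
    (h3 : B ≤ W) {x y z : ℕ} (hx : P.relIndex A ≠ 0 ∧ P.relIndex A ≤ x)
    (hy : A.relIndex (B ⊓ E) ≠ 0 ∧ A.relIndex (B ⊓ E) ≤ y)
    (hz : B.relIndex (W ⊓ E) ≠ 0 ∧ B.relIndex (W ⊓ E) ≤ z) :
    P.relIndex (W ⊓ E) ≠ 0 ∧ P.relIndex (W ⊓ E) ≤ x * y * z := by
  have e1 := Subgroup.relIndex_inf_mul_relIndex P B (W ⊓ E)
  have e2 := Subgroup.relIndex_inf_mul_relIndex P A (B ⊓ E)
  rw [inf_of_le_left (h1.trans h2), ← inf_assoc, inf_of_le_left h3] at e1
  rw [inf_of_le_left h1] at e2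
  have k1 : P.relIndex (A ⊓ (B ⊓ E)) ≠ 0 := fun h =>
    hx.1 (Subgroup.relIndex_eq_zero_of_le_right inf_le_left h)
  have k2 := (Subgroup.relIndex_le_of_le_right (L := A) (K := A ⊓ (B ⊓ E)) inf_le_left hx.1).trans
    hx.2
  rw [← e1, ← e2]
  exact ⟨mul_ne_zero (mul_ne_zero k1 hy.1) hz.1, Nat.mul_le_mul (Nat.mul_le_mul k2 hy.2) hz.2⟩


end Pool.Agent.P.MP_20768c_nt.Tz.Cv

end

-- part Cv.A5b
section

set_option autoImplicit false

open Complex NumberField IsDedekindDomain Filter Topology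
open UpperHalfPlane hiding I
open scoped ComplexConjugate Real MatrixGroups

namespace Pool.Agent.P.MP_20768c_nt.Tz.Cv

open Pool.Agent.P.MP_20768c_nt.Tz.EQ (Lt pr sp IsLat jL qN)

variable {L L' : Lt} {R : Finset ℂ} {Q Q' t z x : ℂ}

theorem a5b_sum (h' : IsLat L') (hR : Reps L L' R) (z : ℂ) {n : ℕ} (hn : 2 < n) :
    ∑' l : L', ((z + l) ^ n)⁻¹ = ∑ r ∈ R, ∑' l : L, ((z + r + l) ^ n)⁻¹ := by
  have s := summable_pow h' (-z) hn
  simp only [sub_neg_eq_add, add_comm _ z] at s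
  rw [reps_tsum hR (f := fun l => ((z + l) ^ n)⁻¹) s]
  simp only [add_assoc]

theorem velu_wpd (h' : IsLat L') (hR : Reps L L' R) (z : ℂ) :
    wpd L' z = ∑ r ∈ R, wpd L (z + r) := by
  have e := a5b_sum h' hR z (n := 3) (by norm_num)
  simp only [sum_three] at e
  rw [← Finset.sum_div, Finset.sum_neg_distrib] at e
  linear_combination -2 * e

theorem velu_wpdd (h : IsLat L) (h' : IsLat L') (hR : Reps L L' R) (hz : z ∉ L') :
    6 * wp L' z ^ 2 - g2 L' / 2 = ∑ r ∈ R, (6 * wp L (z + r) ^ 2 - g2 L / 2) := by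
  have e := a5b_sum h' hR z (n := 4) (by norm_num)
  rw [sum_four h' hz] at e
  rw [show 6 * wp L' z ^ 2 - g2 L' / 2 = 6 * (wp L' z ^ 2 - g2 L' / 12) by ring, e, Finset.mul_sum]
  refine Finset.sum_congr rfl fun r hr => ?_
  rw [sum_four h fun k => hz (by simpa using L'.sub_mem (hR.1 k) (hR.2.2.1 r hr))]
  ring

theorem Three.le (hT : Three L L' t) : L ≤ L' := fun y hy => (hT.2.2 y).2 (Or.inl hy)

theorem Three.mem (hT : Three L L' t) : t ∈ L' :=
  (hT.2.2 t).2 (Or.inr (Or.inl (by rw [sub_self]; exact L.zero_mem)))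

theorem Three.neg (hT : Three L L' t) : Three L L' (-t) := by
  refine ⟨fun e => hT.1 (by simpa using L.neg_mem e), by simpa using L.neg_mem hT.2.1, fun y => ?_⟩
  rw [hT.2.2 y, sub_neg_eq_add, ← sub_eq_add_neg, or_comm (a := y - t ∈ L)]

theorem Three.two (hT : Three L L' t) : 2 * t ∉ L := fun e =>
  hT.1 (by convert L.sub_mem hT.2.1 e using 1; ring)

theorem Three.not (hT : Three L L' t) (hz : z ∉ L') : z ∉ L ∧ z + t ∉ L ∧ z - t ∉ L :=
  ⟨fun e => hz ((hT.2.2 z).2 (Or.inl e)), fun e => hz ((hT.2.2 z).2 (Or.inr (Or.inr e))),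
    fun e => hz ((hT.2.2 z).2 (Or.inr (Or.inl e)))⟩

theorem Three.mul (hT : Three L L' t) (hz : z ∈ L') : 3 * z ∈ L := by
  have m : ∀ y ∈ L, 3 * y ∈ L := fun y hy => by
    convert L.add_mem hy (L.add_mem hy hy) using 1
    ring
  rcases (hT.2.2 z).1 hz with e | e | e
  · exact m z e
  · convert L.add_mem (m _ e) hT.2.1 using 1
    ring
  · convert L.sub_mem (m _ e) hT.2.1 using 1
    ring

theorem Three.isLat (hT : Three L L' t) (h : IsLat L) : IsLat L' :=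
  isLat_of_le h hT.le (n := 3) (by norm_num) fun y hy => by simpa using hT.mul hy

theorem Three.ne (hT : Three L L' t) : t ≠ 0 ∧ -t ≠ 0 ∧ t ≠ -t := by
  have h0 : t ≠ 0 := fun e => hT.1 (e ▸ L.zero_mem)
  refine ⟨h0, neg_ne_zero.2 h0, fun e => hT.two ?_⟩
  rw [show 2 * t = 0 by linear_combination e]
  exact L.zero_mem

theorem Three.reps (hT : Three L L' t) : Reps L L' {0, t, -t} := by
  refine ⟨hT.le, by simp, ?_, fun y hy => ?_⟩
  · intro r hr
    simp only [Finset.mem_insert, Finset.mem_singleton] at hr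
    rcases hr with rfl | rfl | rfl
    · exact L'.zero_mem
    · exact hT.mem
    · exact L'.neg_mem hT.mem
  · have u : ∀ a ∈ ({0, t, -t} : Finset ℂ), ∀ b ∈ ({0, t, -t} : Finset ℂ), a - b ∈ L → a = b := by
      intro a ha b hb e
      have n1 := hT.1
      have n2 := hT.neg.1
      have n3 := hT.two
      have n4 := hT.neg.two
      simp only [Finset.mem_insert, Finset.mem_singleton] at ha hb
      rcases ha with rfl | rfl | rfl <;> rcases hb with rfl | rfl | rfl <;>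
        first
        | rfl
        | (refine absurd ?_ n1; convert e using 1; ring1)
        | (refine absurd ?_ n2; convert e using 1; ring1)
        | (refine absurd ?_ n3; convert e using 1; ring1)
        | (refine absurd ?_ n4; convert e using 1; ring1)
    have ex : ∃ r, r ∈ ({0, t, -t} : Finset ℂ) ∧ y - r ∈ L := by
      rcases (hT.2.2 y).1 hy with e | e | e
      · exact ⟨0, by simp, by simpa using e⟩
      · exact ⟨t, by simp, e⟩
      · exact ⟨-t, by simp, by simpa using e⟩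
    obtain ⟨r, hr⟩ := ex
    refine ⟨r, hr, fun r' hr' => u r' hr'.1 r hr.1 ?_⟩
    convert L.sub_mem hr.2 hr'.2 using 1
    ring

theorem Three.sum (hT : Three L L' t) (f : ℂ → ℂ) :
    ∑ r ∈ ({0, t, -t} : Finset ℂ).erase 0, f r = f t + f (-t) := by
  obtain ⟨a, b, c⟩ := hT.ne
  rw [Finset.erase_insert (by simp [a.symm, b.symm]), Finset.sum_pair c]

theorem Three.prod {A : Type} [CommMonoid A] (hT : Three L L' t) (f : ℂ → A) :
    ∏ r ∈ ({0, t, -t} : Finset ℂ).erase 0, f r = f t * f (-t) := by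
  obtain ⟨a, b, c⟩ := hT.ne
  rw [Finset.erase_insert (by simp [a.symm, b.symm]), Finset.prod_pair c]

theorem three_g2 (h : IsLat L) (hT : Three L L' t) : g2 L' = g2 L + 20 * (fa L t * wpd L t) := by
  rw [velu_g2 h (hT.isLat h) hT.reps, hT.sum fun t => 60 * wp L t ^ 2 - 5 * g2 L, wp_neg h,
    fa_mul h hT.1 hT.2.1]
  ring

theorem three_g2' (h : IsLat L) (hT : Three L L' t) :
    g2 L' = fa L t ^ 4 / 12 + 18 * fa L t * wpd L t := by
  rw [three_g2 h hT, flex_g2 h hT.1 hT.2.1]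
  ring

theorem three_g3 (h : IsLat L) (hT : Three L L' t) :
    g3 L' = -(fa L t ^ 6 / 216) + 5 * fa L t ^ 3 * wpd L t / 2 + 27 * wpd L t ^ 2 := by
  rw [velu_g3 h (hT.isLat h) hT.reps,
    hT.sum fun t => 140 * wp L t ^ 3 - 21 * g2 L * wp L t - 14 * g3 L, wp_neg h,
    flex_g2 h hT.1 hT.2.1, flex_g3 h hT.1 hT.2.1, flex_wp h hT.1 hT.2.1]
  ring

theorem three_dl (h : IsLat L) (hT : Three L L' t) :
    dl L' = wpd L t * (fa L t ^ 3 - 27 * wpd L t) ^ 3 := by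
  rw [dl, three_g2' h hT, three_g3 h hT]
  ring

theorem three_ne (h : IsLat L) (hT : Three L L' t) (hz : z ∉ L') : wp L z - wp L t ≠ 0 := by
  obtain ⟨a, b, c⟩ := hT.not hz
  intro e
  rcases wp_inj h a hT.1 (sub_eq_zero.1 e) with k | k
  · exact c k
  · exact b k

theorem three_wp (h : IsLat L) (hT : Three L L' t) (hz : z ∉ L') : wp L' z = wp L z +
    fa L t * wpd L t / (wp L z - wp L t) + wpd L t ^ 2 / (wp L z - wp L t) ^ 2 := by
  obtain ⟨a, b, c⟩ := hT.not hz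
  rw [velu_wp h (hT.isLat h) hT.reps, hT.sum fun t => wp L (z + t) - wp L t, wp_neg h,
    fa_mul h hT.1 hT.2.1, ← sub_eq_add_neg]
  linear_combination wp_add_sub h a hT.1 b c

theorem three_wpd (h : IsLat L) (hT : Three L L' t) (hz : z ∉ L') : wpd L' z = wpd L z *
    (1 - fa L t * wpd L t / (wp L z - wp L t) ^ 2 - 2 * wpd L t ^ 2 / (wp L z - wp L t) ^ 3) := by
  have h' := hT.isLat h
  have n := three_ne h hT hz
  have d := (hasDerivAt_wp h (hT.not hz).1).sub_const (wp L t)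
  have e := ((hasDerivAt_wp h (hT.not hz).1).add
    ((hasDerivAt_const z (fa L t * wpd L t)).div d n)).add
    ((hasDerivAt_const z (wpd L t ^ 2)).div (d.pow 2) (pow_ne_zero 2 n))
  have ev : ∀ᶠ w in 𝓝 z, w ∉ L' := by
    have := (compl_open h' {0}).mem_nhds (x := z) (by simpa using hz)
    filter_upwards [this] with w hw
    simpa using hw
  have e2 := e.congr_of_eventuallyEq (f₁ := wp L') (by
    filter_upwards [ev] with w hw
    rw [three_wp h hT hw]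
    rfl)
  rw [(hasDerivAt_wp h' hz).unique e2]
  simp only [Pi.pow_apply]
  field_simp
  ring

theorem three_dual (h : IsLat L) (hT : Three L L' t) (h3 : 3 * Q ∈ L) (hQ : Q ∉ L') :
    wp L' Q = -3 * wp L t := by
  have n := three_ne h hT hQ
  have a := (hT.not hQ).1
  have e1 := fa_sq h a h3
  have e2 := fa_mul h a h3
  have e3 := flex_sq h hT.1 hT.2.1 a
  have e4 : (6 * wp L Q ^ 2 - g2 L / 2) ^ 2 = 12 * wp L Q * wpd L Q ^ 2 := by
    rw [← e2, mul_pow, e1]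
  rw [e3, flex_g2 h hT.1 hT.2.1] at e4
  rw [three_wp h hT hQ]
  have w := flex_wp h hT.1 hT.2.1
  obtain ⟨X, hX⟩ : ∃ X, wp L Q = X + wp L t := ⟨wp L Q - wp L t, by ring⟩
  rw [hX, add_sub_cancel_right] at n e4 ⊢
  rw [w] at e4 ⊢
  have e5 : 3 * X ^ 3 + fa L t ^ 2 * X ^ 2 + 3 * fa L t * wpd L t * X + 3 * wpd L t ^ 2 = 0 := by
    refine mul_left_cancel₀ n ?_
    linear_combination -e4 / 4
  field_simp
  linear_combination 4 * e5

theorem hp3_dual (h : IsLat L) (hT : Three L L' t) (h3 : 3 * Q ∈ L) (hQ : Q ∉ L') :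
    hp3 L t * hp3 L' Q = 729 := by
  have b0 := (flex_wpd h hT.1 hT.2.1).1
  have d0 : fa L t ^ 3 - 27 * wpd L t ≠ 0 :=
    right_ne_zero_of_mul (flex_dl h hT.1 hT.2.1 ▸ dl_ne h)
  have e1 : hp3 L t = (fa L t ^ 3 - 27 * wpd L t) / wpd L t := by
    rw [eq_div_iff b0]
    linear_combination hp3_eq h hT.1 hT.2.1
  have e2 : 12 * wp L' Q ^ 2 - g2 L' = 2 / 3 * fa L t * (fa L t ^ 3 - 27 * wpd L t) := by
    rw [three_dual h hT h3 hQ, three_g2' h hT, flex_wp h hT.1 hT.2.1]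
    ring
  rw [e1, hp3, e2, three_dual h hT h3 hQ, flex_wp h hT.1 hT.2.1]
  by_cases a0 : fa L t = 0
  · rw [a0]
    field_simp
    ring
  · field_simp
    ring

theorem hp3_three (h : IsLat L) (hT : Three L L' t) :
    jL L' * hp3 L t ^ 3 = (hp3 L t + 27) * (hp3 L t + 243) ^ 3 := by
  have h' := hT.isLat h
  have e : jL L' * dl L' = 1728 * g2 L' ^ 3 := by rw [jL_eq h', div_mul_cancel₀ _ (dl_ne h')]
  have e2 := hp3_eq h hT.1 hT.2.1
  have e3 : (hp3 L t + 243) * wpd L t = fa L t ^ 3 + 216 * wpd L t := by linear_combination e2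
  have e4 : hp3 L t * wpd L t = fa L t ^ 3 - 27 * wpd L t := by linear_combination e2
  refine mul_right_cancel₀ (pow_ne_zero 4 (flex_wpd h hT.1 hT.2.1).1) ?_
  rw [show jL L' * hp3 L t ^ 3 * wpd L t ^ 4 = jL L' * (wpd L t * (hp3 L t * wpd L t) ^ 3) by ring,
    e4, ← three_dl h hT, e, show (hp3 L t + 27) * (hp3 L t + 243) ^ 3 * wpd L t ^ 4 =
    (hp3 L t + 27) * wpd L t * ((hp3 L t + 243) * wpd L t) ^ 3 by ring, e2, e3, three_g2' h hT]
  ring

end Pool.Agent.P.MP_20768c_nt.Tz.Cv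

end

-- part Cv.E4a_p
section

set_option autoImplicit false

open Complex NumberField IsDedekindDomain Filter Topology
open UpperHalfPlane hiding I
open scoped ComplexConjugate Real MatrixGroups

namespace Pool.Agent.P.MP_20768c_nt.Tz.Cv

open Pool.Agent.P.MP_20768c_nt.Tz.EQ (Lt pr sp IsLat jL qN)

variable {Γ : Type} [LinearOrderedCommGroupWithZero Γ]

theorem inert_iff {v : Valuation ℂ Γ} {σ : ℂ → ℂ} :
    Inert v.valuationSubring.valuation σ ↔ Inert v σ := by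
  have h := v.isEquiv_valuation_valuationSubring
  simp only [Inert, ← h.le_one_iff_le_one, ← h.lt_one_iff_lt_one]

namespace St

variable {s : St} {v : Valuation ℂ Γ} {σ τ : s.Au} {n : ℕ} {x y : ℂ}
  {sb : (ZMod (3 ^ n))ˣ → s.Au}

theorem inert_val (h : Inert v σ) (hx : IsAlgebraic ℚ x) : v (σ x) = v x := by
  have h1 : ∀ a b, IsAlgebraic ℚ a → IsAlgebraic ℚ b → b ≠ 0 → v a < v b →
      v (σ a) < v (σ b) := fun a b ha hb h0 hab => by
    have hb' : σ b ≠ 0 := (map_ne_zero σ).2 h0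
    have h2 : v (a / b) < 1 := by rwa [map_div₀, div_lt_one₀ ((v.pos_iff).2 h0)]
    have h3 := v.map_add_lt (h _ (by rw [div_eq_mul_inv]; exact ha.mul hb.inv) h2.le) h2
    rwa [sub_add_cancel, map_div₀, map_div₀, div_lt_one₀ ((v.pos_iff).2 hb')] at h3
  rcases eq_or_ne x 0 with rfl | h0
  · rw [map_zero]
  obtain ⟨F, _, _, hF⟩ := s.exists_gal (Set.finite_singleton x) fun _ h => h ▸ hx
  obtain ⟨ρ, -, hρ⟩ := s.exists_res F
  have h2 : (σ ^ orderOf (ρ σ)) x = x := by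
    rw [← hρ _ ⟨x, hF x rfl⟩, map_pow, pow_orderOf_eq_one]
    rfl
  have h3 := orderOf_pos (ρ σ)
  have h4 : ∀ j : ℕ, (σ ^ (j + 1)) x = σ ((σ ^ j) x) := fun j => by rw [pow_succ']; rfl
  have h5 : ∀ τ : s.Au, τ x ≠ 0 := fun τ => (map_ne_zero τ).2 h0
  rcases lt_trichotomy (v (σ x)) (v x) with h6 | h6 | h6
  · have : StrictAnti fun j : ℕ => v ((σ ^ j) x) := strictAnti_nat_of_succ_lt fun j => by
      induction j with
      | zero => simpa using h6
      | succ j ih =>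
        rw [h4 (j + 1), h4 j]
        exact h1 _ _ (h4 j ▸ s.au_alg _ hx) (s.au_alg _ hx) (h5 _) (h4 j ▸ ih)
    simpa [h2] using this h3
  · exact h6
  · have : StrictMono fun j : ℕ => v ((σ ^ j) x) := strictMono_nat_of_lt_succ fun j => by
      induction j with
      | zero => simpa using h6
      | succ j ih =>
        rw [h4 (j + 1), h4 j]
        exact h1 _ _ (s.au_alg _ hx) (h4 j ▸ s.au_alg _ hx) (h4 j ▸ h5 _) (h4 j ▸ ih)
    simpa [h2] using this h3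

theorem inert_one (s : St) (v : Valuation ℂ Γ) : Inert v (1 : s.Au) := by
  intro x _ _
  simp

theorem inert_mul (h : Inert v σ) (h' : Inert v τ) : Inert v (σ * τ : s.Au) := by
  intro x hx h1
  have := v.map_add_lt (h _ (s.au_alg τ hx) ((inert_val h' hx).trans_le h1)) (h' x hx h1)
  rwa [sub_add_sub_cancel] at this

theorem inert_inv (h : Inert v σ) : Inert v (σ⁻¹ : s.Au) := by
  intro x hx h1
  have h2 := s.au_alg σ⁻¹ hx
  have h3 : σ (σ⁻¹ x) = x := σ.apply_symm_apply x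
  have := h _ h2 ((inert_val h h2).symm.trans_le (h3.symm ▸ h1))
  rwa [h3, v.map_sub_swap] at this

theorem inert_pow (h : Inert v σ) (j : ℕ) : Inert v (σ ^ j : s.Au) := by
  induction j with
  | zero => rw [pow_zero]; exact inert_one s v
  | succ j ih => rw [pow_succ]; exact inert_mul ih h

theorem inert_conj (V : ValuationSubring ℂ) {C : ℕ} (hV : V.valuation C = 1)
    (h : Inert V.valuation τ) (σ : s.Au) : ∃ V' : ValuationSubring ℂ, V'.valuation C = 1 ∧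
      Inert V'.valuation (σ⁻¹ * τ * σ : s.Au) := by
  let w := V.valuation.comap (σ : ℂ →+* ℂ)
  refine ⟨w.valuationSubring, w.isEquiv_valuation_valuationSubring.eq_one_iff_eq_one.1 ?_,
    inert_iff.2 fun x hx h1 => ?_⟩
  · rwa [Valuation.comap_apply, map_natCast]
  · have h2 : σ ((σ⁻¹ * τ * σ) x) = τ (σ x) := σ.apply_symm_apply _
    have := h _ (s.au_alg σ hx) h1
    rwa [← h2, ← map_sub] at this

theorem inert_root {m : ℕ} (h : Inert v σ) (hm : v m = 1) (hx : x ^ m = 1) : σ x = x := by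
  have h0 : 0 < m := Nat.pos_of_ne_zero fun e => by simp [e] at hm
  exact root_inj v hm (by rw [← map_pow, hx, map_one]) hx (h x
    (IsIntegral.of_pow h0 (hx ▸ isIntegral_one)).isAlgebraic (v_root v h0 hx).le)

theorem exists_inert (s : St) (n : ℕ) (b : (ZMod (3 ^ n))ˣ) :
    ∃ σ : s.Au, Inert s.v σ ∧ σ (zt n) = zt n ^ (b : ZMod (3 ^ n)).val := by
  classical
  have e1 : ∀ b c : (ZMod (3 ^ n))ˣ, (zt n ^ (b : ZMod (3 ^ n)).val) ^ (c : ZMod (3 ^ n)).val =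
      zt n ^ ((b * c : (ZMod (3 ^ n))ˣ) : ZMod (3 ^ n)).val := fun b c => by
    rw [← pow_mul, Units.val_mul, ZMod.val_mul, ← pow_eq_pow_mod _ (zt_pow n)]
  have e2 : zt n ^ ((1 : (ZMod (3 ^ n))ˣ) : ZMod (3 ^ n)).val = zt n := by
    rw [Units.val_one, ZMod.val_one_eq_one_mod, ← pow_eq_pow_mod _ (zt_pow n), pow_one]
  let J : Subgroup (ZMod (3 ^ n))ˣ :=
    { carrier := {b | ∃ σ : s.Au, Inert s.v σ ∧ σ (zt n) = zt n ^ (b : ZMod (3 ^ n)).val}
      one_mem' := ⟨1, inert_one s _, e2.symm⟩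
      mul_mem' := fun ⟨σ, h1, h2⟩ ⟨τ, h3, h4⟩ => ⟨σ * τ, inert_mul h1 h3, by
        rw [AlgEquiv.mul_apply, h4, map_pow, h2, e1]⟩
      inv_mem' := fun ⟨σ, h1, h2⟩ => ⟨σ⁻¹, inert_inv h1, by
        rw [AlgEquiv.aut_inv, AlgEquiv.symm_apply_eq, map_pow, h2, e1, mul_inv_cancel, e2]⟩ }
  rcases Nat.eq_zero_or_pos n with rfl | hn
  · exact Subsingleton.elim (α := (ZMod 1)ˣ) 1 b ▸ J.one_mem
  have h2 : 0 < s.v 3 := (s.v.pos_iff).2 three_ne_zero
  have h3 : s.v (∏ b : J, (1 - zt n ^ (b.1 : ZMod (3 ^ n)).val)) ^ (2 * 3 ^ (n - 1)) =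
      s.v 3 ^ Nat.card J := by
    rw [map_prod, ← Finset.prod_pow, Finset.prod_congr rfl fun b _ => v_one_sub s.v hn ?_,
      Finset.prod_const, Finset.card_univ, Nat.card_eq_fintype_card]
    exact fun h => (unit_cop hn).1 (by simp) (Int.natCast_dvd_natCast.2 h)
  obtain ⟨y, hy, h4⟩ := s.val_fixed ⊥ s.v (r := ∏ b : J, (1 - zt n ^ (b.1 : ZMod (3 ^ n)).val))
    (IsIntegral.prod _ fun b _ => isIntegral_one.sub ((zt_alg n).isIntegral.pow _)).isAlgebraic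
    fun σ h _ => by
      obtain ⟨c, hc⟩ := hom_zt (σ : ℂ →+* ℂ) n
      rw [map_prod, ← Equiv.prod_comp (Equiv.mulLeft (⟨c, σ, h, hc⟩ : J))
        fun b : J => 1 - zt n ^ (b.1 : ZMod (3 ^ n)).val]
      exact Finset.prod_congr rfl fun b _ => by
        rw [map_sub, map_one, map_pow]
        exact congrArg (1 - ·) ((congrArg (· ^ _) hc).trans (e1 c b))
  obtain ⟨y, rfl⟩ := IntermediateField.mem_bot.1 hy
  rw [h4] at h3
  obtain ⟨j, hj⟩ := s.v_k_val s.v s.v_three (x := algebraMap s.k ℂ y) y.2 fun e => by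
    rw [e, map_zero, zero_pow (by positivity)] at h3
    exact (pow_pos h2 _).ne h3
  rw [hj, ← zpow_natCast, ← zpow_mul, ← zpow_natCast] at h3
  have h5 : 2 * 3 ^ (n - 1) ∣ Nat.card J :=
    Int.natCast_dvd_natCast.1 (Dvd.intro_left _ (zpow_right_injective₀ h2 s.v_three.ne h3))
  exact (J.eq_top_of_le_card ((card_units hn).trans_le (Nat.le_of_dvd Nat.card_pos h5))).ge
    (Subgroup.mem_top b)

theorem exists_sec (s : St) (n : ℕ) : ∃ sb, s.IsSec n sb := by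
  choose sb h using s.exists_inert n
  exact ⟨sb, h⟩

end St

end Pool.Agent.P.MP_20768c_nt.Tz.Cv

end

-- part Cv.X4
section

set_option autoImplicit false

open Complex NumberField IsDedekindDomain
open scoped Real

namespace Pool.Agent.P.MP_20768c_nt.Tz.Cv

theorem Tv.perm {G J : Type} [Group G] [Finite J] {H : Subgroup G} {g : J → G} (h : Tv H g)
    (σ : G) : ∃ e : Equiv.Perm J, ∀ j, ∃ t ∈ H, σ * g j = g (e j) * t := by
  choose f hf using fun j => (h (σ * g j)).exists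
  have hi : Function.Injective f := fun j j' e => by
    have h1 := H.mul_mem (H.inv_mem (hf j')) (e ▸ hf j)
    have h2 : (g j')⁻¹ * g j ∈ H := by
      have h3 : ((g (f j'))⁻¹ * (σ * g j'))⁻¹ * ((g (f j'))⁻¹ * (σ * g j)) = (g j')⁻¹ * g j := by
        group
      rwa [h3] at h1
    exact (h (g j)).unique (by rw [inv_mul_cancel]; exact H.one_mem) h2
  exact ⟨Equiv.ofBijective f (Finite.injective_iff_bijective.1 hi), fun j =>
    ⟨_, hf j, (mul_inv_cancel_left _ _).symm⟩⟩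

namespace St

variable (s : St) {l : ℕ}

theorem x4_norm {J : Type} [Fintype J] {H : Subgroup s.Au} {g : J → s.Au} (h : Tv H g) {y : ℂ}
    (hy : ∀ σ ∈ H, σ y = y) : ∏ j, g j y ∈ s.k := by
  refine s.mem_k_of_fixed fun σ => ?_
  obtain ⟨e, he⟩ := h.perm σ
  rw [map_prod, ← Equiv.prod_comp e fun j => g j y]
  refine Finset.prod_congr rfl fun j _ => ?_
  obtain ⟨t, ht, e1⟩ := he j
  rw [← AlgEquiv.mul_apply, e1, AlgEquiv.mul_apply, hy t ht]

theorem x4_res (H : Subgroup s.Au) {φ : s.Au →* ℂˣ} (hφ : s.Cts φ)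
    (hH : ∀ σ ∈ H, ∀ τ ∈ H, σ (φ τ : ℂ) = φ τ) :
    ∃ r : ℂ, r ≠ 0 ∧ ∀ σ ∈ H, σ r = φ σ * r := by
  classical
  obtain ⟨T, hT, hTφ⟩ := hφ
  obtain ⟨F, hfd, hgal, hF⟩ := s.exists_gal (T := (T : Set ℂ)) T.finite_toSet hT
  obtain ⟨ρ, hρ, hρ'⟩ := s.exists_res F
  have hker : ρ.ker ≤ φ.ker := by
    intro σ hσ
    refine hTφ σ fun x hx => ?_
    have := hρ' σ ⟨x, hF x hx⟩
    rw [MonoidHom.mem_ker.1 hσ] at this
    exact this.symm
  obtain ⟨φ', hφ'⟩ : ∃ φ' : (F ≃ₐ[s.k] F) →* ℂˣ, ∀ σ, φ' (ρ σ) = φ σ :=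
    ⟨ρ.liftOfSurjective hρ ⟨φ, hker⟩, fun σ => ρ.liftOfRightInverse_comp_apply _ _ _ σ⟩
  let K : Finset (F ≃ₐ[s.k] F) := Finset.univ.filter fun g => g ∈ H.map ρ
  have hK : ∀ g, g ∈ K ↔ g ∈ H.map ρ := fun g => by
    simp only [K, Finset.mem_filter, Finset.mem_univ, true_and]
  let ch : (F ≃ₐ[s.k] F) → (F →* ℂ) := fun g =>
    ((algebraMap F ℂ : F →+* ℂ) : F →* ℂ).comp (g : F →* F)
  have hch : Function.Injective ch := by
    intro g g' hg
    ext x
    exact DFunLike.congr_fun hg x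
  have hli := (linearIndependent_monoidHom F ℂ).comp ch hch
  have hne : ∃ x : F, ∑ g ∈ K, (((φ' g)⁻¹ : ℂˣ) : ℂ) * ((g x : F) : ℂ) ≠ 0 := by
    by_contra hcon
    push Not at hcon
    have := linearIndependent_iff'.1 hli K (fun g => (((φ' g)⁻¹ : ℂˣ) : ℂ)) (by
      funext x
      rw [Finset.sum_apply]
      exact hcon x) 1 ((hK 1).2 (Subgroup.one_mem _))
    exact Units.ne_zero _ this
  obtain ⟨x, hx⟩ := hne
  refine ⟨_, hx, fun σ hσ => ?_⟩
  have ho : ρ σ ∈ H.map ρ := Subgroup.mem_map_of_mem ρ hσ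
  rw [map_sum, Finset.mul_sum]
  refine Finset.sum_bijective (fun g => ρ σ * g) (Group.mulLeft_bijective _) (fun g => ?_)
    (fun g hg => ?_)
  · rw [hK, hK, Subgroup.mul_mem_cancel_left _ ho]
  · have hc : σ (((φ' g)⁻¹ : ℂˣ) : ℂ) = (((φ' g)⁻¹ : ℂˣ) : ℂ) := by
      obtain ⟨τ, hτ, rfl⟩ := (hK g).1 hg
      rw [hφ', Units.val_inv_eq_inv_val, map_inv₀, hH σ hσ τ hτ]
    rw [map_mul, hc, AlgEquiv.mul_apply, hρ', map_mul, hφ', mul_inv,
      Units.val_mul, ← mul_assoc, ← mul_assoc, Units.mul_inv, one_mul]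

theorem x4_mem (l : ℕ) : xz l ∈ s.Fz l :=
  IntermediateField.mem_adjoin_simple_self _ _

theorem x4_fix {σ : s.Au} (h : σ ∈ s.Hz l) {y : ℂ} (hy : y ∈ s.Fz l) : σ y = y := by
  refine IntermediateField.adjoin_induction s.k (p := fun y _ => σ y = y) ?_ ?_ ?_ ?_ ?_ hy
  · rintro x rfl
    exact h
  · exact fun x => σ.commutes x
  · intro a b _ _ ha hb
    rw [map_add, ha, hb]
  · intro a _ ha
    rw [map_inv₀, ha]
  · intro a b _ _ ha hb
    rw [map_mul, ha, hb]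

theorem x4_root (hl : l ≠ 0) {η : ℂ} (h : η ^ l = 1) : η ∈ s.Fz l := by
  have : NeZero l := ⟨hl⟩
  obtain ⟨i, -, rfl⟩ := (xz_prim hl).eq_pow_of_pow_eq_one h
  exact pow_mem (s.x4_mem l) i

theorem x4_cy (hl : l.Prime) : ∃ ν : s.Au →* (ZMod l)ˣ, ν.ker = s.Hz l ∧
    ∀ (σ : s.Au) (η : ℂ), η ^ l = 1 → σ η = η ^ (ν σ : ZMod l).val := by
  have : NeZero l := ⟨hl.ne_zero⟩
  have : Fact (1 < l) := ⟨hl.one_lt⟩
  have hp := xz_prim hl.ne_zero
  have hs : ∀ σ : s.Au, xz l ^ ((hp.autToPow s.k σ : (ZMod l)ˣ) : ZMod l).val = σ (xz l) :=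
    fun σ => hp.autToPow_spec s.k σ
  refine ⟨hp.autToPow s.k, Subgroup.ext fun σ => ⟨fun h => ?_, fun h => ?_⟩, fun σ η h => ?_⟩
  · have h1 := hs σ
    rw [MonoidHom.mem_ker.1 h, Units.val_one, ZMod.val_one, pow_one] at h1
    exact h1.symm
  · have h1 : σ (xz l) = xz l := h
    have h2 := hp.pow_inj (ZMod.val_lt _) hl.one_lt ((hs σ).trans (h1.trans (pow_one _).symm))
    exact Units.ext (ZMod.val_injective l (h2.trans (ZMod.val_one l).symm))
  · obtain ⟨i, -, rfl⟩ := hp.eq_pow_of_pow_eq_one h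
    rw [map_pow, ← hs, pow_right_comm]

theorem x4_pow (hl : l.Prime) (σ : s.Au) : σ ^ (l - 1) ∈ s.Hz l := by
  have : Fact l.Prime := ⟨hl⟩
  obtain ⟨ν, hν, -⟩ := s.x4_cy hl
  rw [← hν, MonoidHom.mem_ker, map_pow]
  exact ZMod.units_pow_card_sub_one_eq_one l _

theorem x4_gen (hl : l.Prime) (r : ℕ) : ∃ (δ : s.Au) (a d : ℕ), 0 < d ∧
    (∀ j : ℕ, a ^ j ≡ 1 [MOD l] ↔ d ∣ j) ∧ (∀ j : ℕ, (δ ^ l ^ r) ^ j ∈ s.Hz l ↔ d ∣ j) ∧
    (∀ η : ℂ, η ^ l = 1 → (δ ^ l ^ r) η = η ^ a) ∧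
    Tv (s.Hz l) fun j : Fin d => (δ ^ l ^ r) ^ j.1 := by
  classical
  have : Fact l.Prime := ⟨hl⟩
  obtain ⟨ν, hν, hη⟩ := s.x4_cy hl
  obtain ⟨⟨_, δ, rfl⟩, hg⟩ := IsCyclic.exists_generator (α := ν.range)
  have h1 : ∀ x : (ZMod l)ˣ, x ^ l = x := fun x => Units.ext (by
    rw [Units.val_pow_eq_pow_val, ZMod.pow_card])
  have h2 : ν (δ ^ l ^ r) = ν δ := by
    rw [map_pow]
    induction r with
    | zero => rw [pow_zero, pow_one]
    | succ r ih => rw [pow_succ, pow_mul, ih, h1]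
  have h3 : ∀ (j : ℕ) (σ : s.Au), ((δ ^ l ^ r) ^ j)⁻¹ * σ ∈ s.Hz l ↔ ν δ ^ j = ν σ := fun j σ => by
    rw [← hν, MonoidHom.mem_ker, map_mul, map_inv, map_pow, h2, inv_mul_eq_one]
  refine ⟨δ, (ν δ : ZMod l).val, orderOf (ν δ), orderOf_pos _, fun j => ?_, fun j => ?_,
    fun η h => by rw [hη _ η h, h2], fun σ => ?_⟩
  · rw [orderOf_dvd_iff_pow_eq_one, ← ZMod.natCast_eq_natCast_iff, Nat.cast_pow,
      ZMod.natCast_zmod_val, Nat.cast_one, ← Units.val_pow_eq_pow_val, Units.val_eq_one]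
  · rw [orderOf_dvd_iff_pow_eq_one, ← hν, MonoidHom.mem_ker, map_pow, h2]
  · have h4 : ν σ ∈ Subgroup.zpowers (ν δ) := by
      obtain ⟨n, hn⟩ := hg ⟨ν σ, σ, rfl⟩
      exact ⟨n, congrArg Subtype.val hn⟩
    obtain ⟨j, hj, e⟩ := Finset.mem_image.1 (mem_zpowers_iff_mem_range_orderOf.1 h4)
    refine ⟨⟨j, Finset.mem_range.1 hj⟩, (h3 j σ).2 e, fun i hi => Fin.ext ?_⟩
    exact pow_injOn_Iio_orderOf i.2 (Finset.mem_range.1 hj) (((h3 i.1 σ).1 hi).trans e.symm)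

theorem x4_int {x : ℂ} (hx : x ∈ s.k) (h : ∀ V : ValuationSubring ℂ, V.valuation x ≤ 1) :
    ∃ a : s.O, s.c a = x :=
  ⟨⟨⟨x, hx⟩, (isIntegral_algHom_iff (algebraMap s.k ℂ).toIntAlgHom
    (algebraMap s.k ℂ).injective).1 (e1_integral h)⟩, rfl⟩

theorem x4_dvd {m : ℕ} (hm : 0 < m) {x : s.O}
    (h : ∀ V : ValuationSubring ℂ, V.valuation m < 1 → V.valuation (s.c x) ≤ V.valuation m) :
    x ∈ Ideal.span {(m : s.O)} := by
  have h0 : (m : ℂ) ≠ 0 := Nat.cast_ne_zero.2 hm.ne'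
  obtain ⟨a, ha⟩ := s.x4_int (x := s.c x / m) (div_mem (x : s.k).2 (natCast_mem _ m)) fun V => by
    rw [map_div₀, div_le_one₀ (zero_lt_iff.2 ((Valuation.ne_zero_iff _).2 h0))]
    rcases lt_or_ge (V.valuation (m : ℂ)) 1 with h1 | h1
    · exact h V h1
    · exact (e1_int (algebraMap s.k ℂ) V.valuation x).trans h1
  refine Ideal.mem_span_singleton'.2 ⟨a, RingOfIntegers.ext (Subtype.ext ?_)⟩
  have h1 : s.c (a * m) = s.c x := by
    rw [c, map_mul, map_natCast]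
    exact (eq_div_iff h0).1 ha
  exact h1

theorem x4_val {q : Ideal s.O} (hq : q.IsMaximal) :
    ∃ V : ValuationSubring ℂ, ∀ x, V.valuation (s.c x) < 1 ↔ x ∈ q :=
  e1_val (algebraMap s.k ℂ) q hq

theorem x4_unr {φ : s.Au →* ℂˣ} (hφ : s.Cts φ) : ∃ C, C ≠ 0 ∧ s.Unram C φ := by
  obtain ⟨T, hT, hTφ⟩ := hφ
  obtain ⟨F, hfd, hgal, hF⟩ := s.exists_gal (T := (T : Set ℂ)) T.finite_toSet hT
  obtain ⟨C, hC, hu⟩ := s.exists_unram F
  exact ⟨C, hC, fun V σ hV hi => hTφ σ fun x hx => hu V σ hV (fun y =>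
    hi _ (s.alg_of_mem F (y : F).2) (e1_int (algebraMap F ℂ) V.valuation y)) x (hF x hx)⟩

end St


end Pool.Agent.P.MP_20768c_nt.Tz.Cv

end
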