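import Pool.Agent.P.MP_20768c_nt.Tz.Z0
import Pool.Agent.P.MP_20768c_nt.Tz.Z4
import Pool.Agent.P.MP_20768c_nt.Tz.Z5
import Pool.Agent.P.MP_20768c_nt.Tz.Z6
import Pool.Agent.P.MP_20768c_nt.Tz.Z7
import Pool.Agent.P.MP_20768c_nt.Tz.Z8
import Pool.Agent.P.MP_20768c_nt.Tz.Z9
import Pool.Agent.P.MP_20768c_nt.Tz.Z10

-- part Cv.A6
section

set_option autoImplicit false

open Complex NumberField IsDedekindDomain Filter Topology
open UpperHalfPlane hiding I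
open scoped ComplexConjugate Real MatrixGroups

namespace Pool.Agent.P.MP_20768c_nt.Tz.Cv

open Pool.Agent.P.MP_20768c_nt.Tz.EQ (Lt pr sp IsLat jL qN)

variable {L L₀ M : Lt} {T z : ℂ}

theorem g2_conj (hM : ∀ y, y ∈ M ↔ conj y ∈ L) : g2 M = conj (g2 L) := by
  rw [g2, g2, map_mul, Gk, Gk, Complex.conj_tsum, a0_tsum hM fun l => (l ^ 4)⁻¹, map_ofNat]
  refine congrArg _ (tsum_congr fun l => ?_)
  simp only [map_inv₀, map_pow]

theorem hp3_conj (hM : ∀ y, y ∈ M ↔ conj y ∈ L) (z : ℂ) : hp3 M (conj z) = conj (hp3 L z) := by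
  rw [hp3, hp3, wp_conj hM, g2_conj hM]
  simp only [map_sub, map_div₀, map_mul, map_pow, map_ofNat]

theorem a6_cube : zt 1 ^ 3 = 1 := by simpa using zt_pow 1

theorem a6_sum : zt 1 ^ 2 + zt 1 + 1 = 0 := by
  have h : IsPrimitiveRoot (zt 1) 3 := by
    have := Complex.isPrimitiveRoot_exp 3 (by norm_num)
    simpa [zt] using this
  have e := h.geom_sum_eq_zero (by norm_num)
  simp only [Finset.sum_range_succ, Finset.sum_range_zero] at e
  linear_combination e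

theorem a6_r3 : r3 1 = zt 1 - zt 1 ^ 2 := by rw [r3, pow_one]

theorem a6_sq : r3 1 ^ 2 = -3 := by
  rw [a6_r3]
  linear_combination (zt 1 ^ 2 - 3 * zt 1 + 3) * a6_sum

theorem IsZeta.dbl {ζ : ℂ → ℂ} {a : ℂ} (hζ : IsZeta L ζ a) (h : IsLat L) (hz : 2 * z ∉ L) :
    2 * wpd L z * (ζ (2 * z) - 2 * ζ z) = 6 * wp L z ^ 2 - g2 L / 2 := by
  have hz1 : z ∉ L := fun k => hz (by rw [two_mul]; exact add_mem k k)
  have t1 := hasDerivAt_iff_tendsto_slope.1 (hasDerivAt_wp h hz1)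
  have t2 := hasDerivAt_iff_tendsto_slope.1 (hasDerivAt_wpd h hz1)
  have c1 : Tendsto ζ (𝓝[≠] z) (𝓝 (ζ z)) :=
    (hζ.deriv z hz1).continuousAt.tendsto.mono_left nhdsWithin_le_nhds
  have c2 : Tendsto (fun y => ζ (y + z)) (𝓝[≠] z) (𝓝 (ζ (2 * z))) := by
    have hzz : z + z ∉ L := by rwa [← two_mul]
    rw [two_mul]
    exact ((hζ.deriv _ hzz).comp_add_const z z).continuousAt.tendsto.mono_left
      nhdsWithin_le_nhds
  have l1 := (t1.const_mul 2).mul ((c2.sub c1).sub_const (ζ z))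
  have hE : (fun y => 2 * slope (wp L) z y * (ζ (y + z) - ζ y - ζ z)) =ᶠ[𝓝[≠] z]
      fun y => slope (wpd L) z y := by
    filter_upwards [compl_nhds h {0, z, -z} z] with y hy
    have e := hζ.add (z := y) (w := z) h (by simpa using hy 0 (by simp)) hz1
      (by simpa using hy (-z) (by simp)) (hy z (by simp))
    rw [slope_def_field, slope_def_field, ← e]
    ring
  have e := tendsto_nhds_unique (l1.congr' hE) t2
  linear_combination e

theorem eF_flex (h : IsLat L) (hT : T ∉ L) (h3 : 3 * T ∈ L) : eF L T = -fa L T / 6 := by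
  obtain ⟨a, hζ⟩ := isZeta_eF h
  obtain ⟨h0, h2⟩ := flex_wpd h hT h3
  have e := hζ.dbl h h2
  have e2 : eF L (2 * T) = -eF L T := by
    rw [← eF_neg, ← eF_add L (-T) h3]
    congr 1
    ring
  simp only [map_mul, map_ofNat] at e
  rw [e2, ← fa_mul h hT h3] at e
  refine mul_left_cancel₀ h0 ?_
  linear_combination -e / 6

theorem eF_tr (h : IsLat L) {w : ℂ} (hz : z ∉ L) (hw : w ∉ L) (hp : z + w ∉ L) (hm : z - w ∉ L) :
    2 * (wp L z - wp L w) * (eF L (z + w) - eF L z - eF L w) = wpd L z - wpd L w := by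
  obtain ⟨a, hζ⟩ := isZeta_eF h
  have e := hζ.add h hz hw hp hm
  simp only [map_add] at e
  linear_combination e

theorem cov_add (L : Lt) (T z : ℂ) {l : ℂ} (hl : l ∈ L) : cov L T (z + l) = cov L T z := by
  rw [cov, cov, eF_add L z hl, add_right_comm z l T, eF_add L _ hl, add_sub_right_comm,
    eF_add L _ hl]

theorem cov_tr (h3 : 3 * T ∈ L) (z : ℂ) :
    cov L T (z + T) = zt 1 ^ 2 * cov L T z ∧ cov L T (z - T) = zt 1 * cov L T z := by
  have e1 : eF L (z + T + T) = eF L (z - T) := by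
    rw [← eF_add L (z - T) h3]
    congr 1
    ring
  have e2 : eF L (z - T - T) = eF L (z + T) := by
    rw [← eF_add L (z - T - T) h3]
    congr 1
    ring
  rw [cov, cov, cov, e1, e2, add_sub_cancel_right, sub_add_cancel]
  constructor
  · linear_combination -(eF L (z + T) + zt 1 * eF L (z - T)) * a6_cube
  · linear_combination -eF L (z - T) * a6_cube

theorem cov_eq (h : IsLat L₀) (hT : Three L₀ L T) (hz : z ∉ L) : cov L₀ T z =
    -(r3 1 * fa L₀ T / 6) - (wpd L₀ z + r3 1 * wpd L₀ T) / (2 * (wp L₀ z - wp L₀ T)) := by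
  obtain ⟨a, b, c⟩ := hT.not hz
  have n := three_ne h hT hz
  have e1 := eF_tr h a hT.1 b c
  have e2 := eF_tr h a hT.neg.1 (by rwa [← sub_eq_add_neg]) (by rwa [sub_neg_eq_add])
  rw [← sub_eq_add_neg, wp_neg h, wpd_neg h, eF_neg] at e2
  rw [eF_flex h hT.1 hT.2.1] at e1 e2
  rw [cov, a6_r3, eq_sub_iff_add_eq, ← eq_sub_iff_add_eq', div_eq_iff (mul_ne_zero two_ne_zero n)]
  linear_combination zt 1 * e1 + zt 1 ^ 2 * e2 +
    (2 * (wp L₀ z - wp L₀ T) * eF L₀ z + wpd L₀ z) * a6_sum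

theorem cov_mer (h : IsLat L₀) (hT : Three L₀ L T) (z : ℂ) : MeromorphicAt (cov L₀ T) z := by
  have e : MeromorphicAt (fun z => -(r3 1 * fa L₀ T / 6) -
      (wpd L₀ z + r3 1 * wpd L₀ T) / (2 * (wp L₀ z - wp L₀ T))) z :=
    (MeromorphicAt.const _ z).sub (((meromorphic_wpd h z).add (MeromorphicAt.const _ z)).div
      ((MeromorphicAt.const 2 z).mul ((meromorphic_wp h z).sub (MeromorphicAt.const _ z))))
  refine e.congr ?_
  filter_upwards [compl_nhds (hT.isLat h) {0} z] with y hy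
  exact (cov_eq h hT (by simpa using hy)).symm

theorem dual_flex (h : IsLat L₀) (hT : Three L₀ L T) : ∃ Q, Q ∉ L ∧ 3 * Q ∈ L ∧
    fa L Q = -(r3 1 * fa L₀ T) ∧ wpd L Q = r3 1 * (fa L₀ T ^ 3 - 27 * wpd L₀ T) / 9 := by
  have h' := hT.isLat h
  have d0 : fa L₀ T ^ 3 - 27 * wpd L₀ T ≠ 0 :=
    right_ne_zero_of_mul (flex_dl h hT.1 hT.2.1 ▸ dl_ne h)
  have r0 : r3 1 ≠ 0 := fun e => by
    have := a6_sq
    rw [e] at this
    norm_num at this
  have key : ∀ Q, Q ∉ L → wp L Q = -(fa L₀ T ^ 2 / 4) →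
      wpd L Q = r3 1 * (fa L₀ T ^ 3 - 27 * wpd L₀ T) / 9 → Q ∉ L ∧ 3 * Q ∈ L ∧
      fa L Q = -(r3 1 * fa L₀ T) ∧ wpd L Q = r3 1 * (fa L₀ T ^ 3 - 27 * wpd L₀ T) / 9 := by
    intro Q hQ e1 e2
    have n : wpd L Q ≠ 0 := by
      rw [e2]
      exact div_ne_zero (mul_ne_zero r0 d0) (by norm_num)
    have e3 : fa L Q = -(r3 1 * fa L₀ T) := by
      rw [fa, div_eq_iff n, e1, e2, three_g2' h hT]
      linear_combination fa L₀ T * (fa L₀ T ^ 3 - 27 * wpd L₀ T) / 9 * a6_sq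
    refine ⟨hQ, flex_of_sq h' hQ n ?_, e3, e2⟩
    rw [e1, e3]
    linear_combination fa L₀ T ^ 2 * a6_sq
  obtain ⟨Q, hQ, e⟩ := wp_surj h' (-(fa L₀ T ^ 2 / 4))
  have e2 : wpd L Q ^ 2 = (r3 1 * (fa L₀ T ^ 3 - 27 * wpd L₀ T) / 9) ^ 2 := by
    rw [wpd_sq h' hQ, e, three_g2' h hT, three_g3 h hT]
    linear_combination -((fa L₀ T ^ 3 - 27 * wpd L₀ T) / 9) ^ 2 * a6_sq
  rcases sq_eq_sq_iff_eq_or_eq_neg.1 e2 with k | k
  · exact ⟨Q, key Q hQ e k⟩
  · exact ⟨-Q, key (-Q) (fun m => hQ (by simpa using L.neg_mem m)) (by rw [wp_neg h', e])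
      (by rw [wpd_neg h', k, neg_neg])⟩

theorem a6_alg {A a θ X Y : ℂ} (hθ : θ ^ 2 = -3) (hX : X ≠ 0)
    (hY : Y ^ 2 = 4 * X ^ 3 + (A * X + a) ^ 2) :
    (-(θ * A / 6) - (Y + θ * a) / (2 * X)) ^ 3 =
      -((Y * (1 - A * a / X ^ 2 - 2 * a ^ 2 / X ^ 3) - θ * (A ^ 3 - 27 * a) / 9 -
        -(θ * A) * (X + A * a / X + a ^ 2 / X ^ 2 + A ^ 2 / 3)) / 2) := by
  have e : (-(θ * A / 6) - (Y + θ * a) / (2 * X)) ^ 3 -
      -((Y * (1 - A * a / X ^ 2 - 2 * a ^ 2 / X ^ 3) - θ * (A ^ 3 - 27 * a) / 9 -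
        -(θ * A) * (X + A * a / X + a ^ 2 / X ^ 2 + A ^ 2 / 3)) / 2) =
      -((Y + 3 * θ * (a + A * X / 3)) * (Y ^ 2 - (4 * X ^ 3 + (A * X + a) ^ 2)) +
        (3 * (a + A * X / 3) ^ 2 * Y + θ * (a + A * X / 3) ^ 3) * (θ ^ 2 + 3)) / (8 * X ^ 3) := by
    field_simp
    ring
  rw [← sub_eq_zero, e, hY, hθ]
  simp

theorem cov_cube (h : IsLat L₀) (hT : Three L₀ L T) : ∃ Q, Q ∉ L ∧ 3 * Q ∈ L ∧
    fa L Q = -(r3 1 * fa L₀ T) ∧ wpd L Q = r3 1 * (fa L₀ T ^ 3 - 27 * wpd L₀ T) / 9 ∧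
    ∀ z, z ∉ L → cov L₀ T z ^ 3 = -fy L Q z := by
  obtain ⟨Q, hQ, h3, e1, e2⟩ := dual_flex h hT
  refine ⟨Q, hQ, h3, e1, e2, fun z hz => ?_⟩
  have e3 : wp L z - wp L Q = wp L₀ z - wp L₀ T + fa L₀ T * wpd L₀ T / (wp L₀ z - wp L₀ T) +
      wpd L₀ T ^ 2 / (wp L₀ z - wp L₀ T) ^ 2 + fa L₀ T ^ 2 / 3 := by
    rw [three_wp h hT hz, flex_wp (hT.isLat h) hQ h3, e1]
    linear_combination flex_wp h hT.1 hT.2.1 - fa L₀ T ^ 2 / 12 * a6_sq
  rw [cov_eq h hT hz, fy, e3, e1, e2, three_wpd h hT hz]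
  exact a6_alg a6_sq (three_ne h hT hz) (flex_sq h hT.1 hT.2.1 (hT.not hz).1)

end Pool.Agent.P.MP_20768c_nt.Tz.Cv

end

-- part Cv.B6_p
section

set_option autoImplicit false

open Complex NumberField IsDedekindDomain Filter Topology
open UpperHalfPlane hiding I
open scoped ComplexConjugate Real MatrixGroups

namespace Pool.Agent.P.MP_20768c_nt.Tz.Cv

open Pool.Agent.P.MP_20768c_nt.Tz.EQ (Lt pr sp IsLat jL qN)

variable {Γ : Type} [LinearOrderedCommGroupWithZero Γ] {v : Valuation ℂ Γ} {L L' : Lt}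
  {U r Q t z : ℂ} {c : ℕ}

theorem b6p_le {a y : ℂ} (hy : y ∈ v.integer) : v (a * y) ≤ v a := by
  rw [map_mul]
  exact mul_le_of_le_one_right' hy

theorem b6p_ex {a x : ℂ} (ha : a ≠ 0) (h : v x ≤ v a) : ∃ y ∈ v.integer, x = a * y := by
  refine ⟨x / a, ?_, by field_simp⟩
  rw [Valuation.mem_integer_iff, map_div₀]
  exact div_le_one_of_le₀ h zero_le

theorem b6p_inv {x : ℂ} (h : 1 ≤ v x) : x⁻¹ ∈ v.integer := by
  rw [Valuation.mem_integer_iff, map_inv₀]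
  exact inv_le_one_of_one_le₀ h

theorem b6p_ne {x : ℂ} (h : 1 ≤ v x) : x ≠ 0 := by
  rintro rfl
  rw [map_zero] at h
  exact absurd h (not_le.2 zero_lt_one)

theorem b6p_unit (h3 : v 3 < 1) {x y : ℂ} (hx : v x = 1) (hy : y ∈ v.integer) :
    v (x + 3 * y) = 1 := by
  rw [v.map_add_eq_of_lt_left (hx ▸ lt_of_le_of_lt (b6p_le hy) h3), hx]

theorem b6p_two (h3 : v 3 < 1) : v 2 = 1 := by
  have := b6p_unit h3 (x := -1) (by rw [v.map_neg, map_one]) (one_mem _)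
  rwa [show (-1 : ℂ) + 3 * 1 = 2 by norm_num] at this

theorem b6p_rel (L : Lt) (U r : ℂ) :
    4 * mb8 L U r = mb2 r * mb6 L U r - mb4 L U r ^ 2 := by
  rw [mb8]
  ring

theorem b6p_sub (L : Lt) (hU : U ≠ 0) (r z w : ℂ) :
    wp L z - wp L w = U * (xm L U r z - xm L U r w) := by
  rw [xm, xm]
  field_simp
  ring

theorem b6p_th : r3 1 ∈ v.integer := by
  refine (pow_le_one_iff (n := 2) two_ne_zero).1 ?_
  rw [(v_r3 v).1]
  exact (ofNat_mem v.integer 3 :)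

theorem b6p_P (L : Lt) (hU : U ≠ 0) (r z : ℂ) : 6 * wp L z ^ 2 - g2 L / 2 =
    U ^ 2 * (6 * xm L U r z ^ 2 + mb2 r * xm L U r z + mb4 L U r) := by
  rw [xm, mb2, mb4]
  field_simp
  ring

theorem b6p_A (h : IsLat L) (hU : U ≠ 0) (r : ℂ) (hQ : Q ∉ L) (h3 : 3 * Q ∈ L) :
    fa L Q ^ 2 = U * (12 * xm L U r Q + mb2 r) := by
  rw [fa_sq h hQ h3, xm, mb2]
  field_simp
  ring

theorem b6p_a (h : IsLat L) (hU : U ≠ 0) (r : ℂ) (hz : z ∉ L) : wpd L z ^ 2 = U ^ 3 *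
    (4 * xm L U r z ^ 3 + mb2 r * xm L U r z ^ 2 + 2 * mb4 L U r * xm L U r z + mb6 L U r) := by
  rw [psi_xm h hU r hz]
  field_simp

theorem flex_et (h : IsLat L) (hG : Good v L U r) (h3 : v 3 < 1) (hb : v (mb2 r) = 1)
    (hQ : 3 * Q ∈ L) (hE : ¬ E1 v L U r Q) : Et v L Q U := by
  obtain ⟨hU, i2, i4, i6, -, hd⟩ := hG
  obtain ⟨n, ix⟩ := xm_le hE
  have e1 := b6p_A h hU r n hQ
  have e2 := b6p_a h hU r n
  have e3 := (fa_mul h n hQ).trans (b6p_P L hU r Q)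
  rw [← Valuation.mem_integer_iff] at i2 i4 i6 ix
  have t2 : (2 : ℂ) ∈ v.integer := ofNat_mem _ 2
  have t4 : (4 : ℂ) ∈ v.integer := ofNat_mem _ 4
  have t6 : (6 : ℂ) ∈ v.integer := ofNat_mem _ 6
  have u1 : v (12 * xm L U r Q + mb2 r) = 1 := by
    rw [show 12 * xm L U r Q + mb2 r = mb2 r + 3 * (4 * xm L U r Q) by ring]
    exact b6p_unit h3 hb (mul_mem t4 ix)
  have iψ : 4 * xm L U r Q ^ 3 + mb2 r * xm L U r Q ^ 2 + 2 * mb4 L U r * xm L U r Q + mb6 L U r ∈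
      v.integer := by
    apply_rules (transparency := .reducible) [pow_mem, add_mem, sub_mem, mul_mem, neg_mem]
  have iP : 6 * xm L U r Q ^ 2 + mb2 r * xm L U r Q + mb4 L U r ∈ v.integer := by
    apply_rules (transparency := .reducible) [pow_mem, add_mem, sub_mem, mul_mem, neg_mem]
  refine ⟨n, hQ, hU, by rw [e1, map_mul, u1, mul_one], ?_⟩
  generalize 4 * xm L U r Q ^ 3 + mb2 r * xm L U r Q ^ 2 + 2 * mb4 L U r * xm L U r Q +
    mb6 L U r = ψ at e2 iψ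
  generalize 6 * xm L U r Q ^ 2 + mb2 r * xm L U r Q + mb4 L U r = P at e3 iP
  generalize 12 * xm L U r Q + mb2 r = B at e1 u1
  have e4 : (dl L / U ^ 6) ^ 2 = ψ ^ 3 * (B ^ 3 - 54 * (B * P) + 729 * ψ) := by
    rw [flex_dl h n hQ, div_pow, div_eq_iff (pow_ne_zero 2 (pow_ne_zero 6 hU)),
      show (wpd L Q ^ 3 * (fa L Q ^ 3 - 27 * wpd L Q)) ^ 2 = (wpd L Q ^ 2) ^ 3 * ((fa L Q ^ 2) ^ 3 -
        54 * (fa L Q ^ 2 * (fa L Q * wpd L Q)) + 729 * wpd L Q ^ 2) by ring, e3, e1, e2]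
    ring
  have iB : B ∈ v.integer := u1.le
  have e5 : 1 ≤ v ψ ^ 3 := by
    rw [← map_pow, ← one_pow 2, ← hd, ← map_pow, e4]
    exact b6p_le (add_mem (sub_mem (pow_mem iB 3) (mul_mem (ofNat_mem _ 54) (mul_mem iB iP)))
      (mul_mem (ofNat_mem _ 729) iψ))
  rw [e2, map_mul, map_pow, le_antisymm iψ ((one_le_pow_iff (by norm_num)).1 e5), mul_one]

theorem b6p_can (h : IsLat L) (hG : Good v L U r) (hb : v (mb2 r) = 1)
    (ht : t ∉ L) (ht3 : 3 * t ∈ L) (hE : E1 v L U r t) :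
    ∃ η ∈ v.integer, 3 * xm L U r t = -mb2 r + 9 * η := by
  obtain ⟨hU, i2, i4, i6, i8, -⟩ := hG
  have he : 1 < v (xm L U r t) := hE.resolve_left ht
  have e1 := b6p_A h hU r ht ht3
  have e2 := b6p_a h hU r ht
  have e3 := (fa_mul h ht ht3).trans (b6p_P L hU r t)
  have rel := b6p_rel L U r
  rw [← Valuation.mem_integer_iff] at i2 i4 i6 i8
  generalize xm L U r t = x at he e1 e2 e3 ⊢
  generalize mb2 r = b2 at hb i2 e1 e2 e3 rel ⊢
  generalize mb4 L U r = b4 at i4 e2 e3 rel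
  generalize mb6 L U r = b6 at i6 e2 rel
  generalize mb8 L U r = b8 at i8 rel
  have e4 : 3 * x ^ 4 + b2 * x ^ 3 + 3 * b4 * x ^ 2 + 3 * b6 * x + b8 = 0 := by
    have : (fa L t * wpd L t) ^ 2 = fa L t ^ 2 * wpd L t ^ 2 := mul_pow _ _ 2
    rw [e3, e1, e2] at this
    refine mul_left_cancel₀ (pow_ne_zero 4 hU) ?_
    linear_combination -this / 4 + U ^ 4 / 4 * rel
  have x0 : x ≠ 0 := b6p_ne he.le
  have ii : x⁻¹ ∈ v.integer := b6p_inv he.le
  have t3 : (3 : ℂ) ∈ v.integer := ofNat_mem _ 3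
  have hi : v x⁻¹ < 1 := by
    rw [map_inv₀]
    exact inv_lt_one_of_one_lt₀ he
  have e5 : 3 * x = -b2 + x⁻¹ * -(3 * b4 + 3 * b6 * x⁻¹ + b8 * x⁻¹ ^ 2) := by
    field_simp
    linear_combination e4
  have u : v (3 * x) = 1 := by
    rw [e5, v.map_add_eq_of_lt_left, v.map_neg, hb]
    rw [v.map_neg, hb]
    refine lt_of_le_of_lt (b6p_le ?_) hi
    apply_rules (transparency := .reducible) [pow_mem, add_mem, sub_mem, mul_mem, neg_mem]
  have ik := b6p_inv u.ge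
  refine ⟨-(b4 * (3 * x)⁻¹ + 3 * b6 * (3 * x)⁻¹ ^ 2 + 3 * b8 * (3 * x)⁻¹ ^ 3), ?_, ?_⟩
  · apply_rules (transparency := .reducible) [pow_mem, add_mem, sub_mem, mul_mem, neg_mem]
  · field_simp
    linear_combination 9 * e4

theorem flex_can (h : IsLat L) (hG : Good v L U r) (h3 : v 3 < 1) (hb : v (mb2 r) = 1)
    (ht : t ∉ L) (ht3 : 3 * t ∈ L) (hE : E1 v L U r t) :
    Ca v L t U ∧ v (3 * xm L U r t + mb2 r) ≤ v 3 ^ 2 := by
  obtain ⟨η, iη, e⟩ := b6p_can h hG hb ht ht3 hE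
  obtain ⟨hU, i2, i4, i6, -, -⟩ := hG
  rw [← Valuation.mem_integer_iff] at i2 i4 i6
  have t3 : (3 : ℂ) ∈ v.integer := ofNat_mem _ 3
  have t4 : (4 : ℂ) ∈ v.integer := ofNat_mem _ 4
  have nb : v (-mb2 r) = 1 := by rw [v.map_neg, hb]
  have u : v (3 * xm L U r t) = 1 := by
    rw [e, show (9 : ℂ) * η = 3 * (3 * η) by ring]
    exact b6p_unit h3 nb (mul_mem t3 iη)
  have iε : 3 * xm L U r t ∈ v.integer := u.le
  refine ⟨⟨ht, ht3, hU, ?_, ?_⟩, ?_⟩
  · rw [b6p_A h hU r ht ht3, show U * (12 * xm L U r t + mb2 r) = 3 * U * (-mb2 r + 3 * (4 * η)) by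
      linear_combination 4 * U * e, map_mul, b6p_unit h3 nb (mul_mem t4 iη), mul_one, map_mul]
  · rw [b6p_a h hU r ht, show 27 * (U ^ 3 * (4 * xm L U r t ^ 3 + mb2 r * xm L U r t ^ 2 +
      2 * mb4 L U r * xm L U r t + mb6 L U r)) = U ^ 3 * ((3 * xm L U r t) ^ 3 +
        3 * ((3 * xm L U r t) ^ 3 + mb2 r * (3 * xm L U r t) ^ 2 +
          6 * mb4 L U r * (3 * xm L U r t) + 9 * mb6 L U r)) by ring, map_mul, map_pow,
      b6p_unit h3 (by rw [map_pow, u, one_pow]), mul_one]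
    exact add_mem (add_mem (add_mem (pow_mem iε 3) (mul_mem i2 (pow_mem iε 2)))
      (mul_mem (mul_mem (ofNat_mem _ 6) i4) iε)) (mul_mem (ofNat_mem _ 9) i6)
  · rw [show 3 * xm L U r t + mb2 r = 3 ^ 2 * η by linear_combination e, ← map_pow]
    exact b6p_le iη

theorem st_sq (h : IsLat L) (hG : Good v L U r) (h3 : v 3 < 1) (hb : v (mb2 r) = 1)
    (ht : t ∉ L) (ht3 : 3 * t ∈ L) (hE : E1 v L U r t) :
    v ((st L t / r3 1) ^ 2 * U * mb2 r - 1) ≤ v 3 := by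
  obtain ⟨η, iη, e⟩ := b6p_can h hG hb ht ht3 hE
  have hU := hG.1
  have t4 : (4 : ℂ) ∈ v.integer := ofNat_mem _ 4
  have u := b6p_unit h3 hb (neg_mem (mul_mem t4 iη))
  have e1 : fa L t ^ 2 = -3 * U * (mb2 r + 3 * -(4 * η)) := by
    rw [b6p_A h hU r ht ht3]
    linear_combination 4 * U * e
  have n := b6p_ne u.ge
  have e2 : (st L t / r3 1) ^ 2 * U * mb2 r - 1 = 3 * (4 * η * (mb2 r + 3 * -(4 * η))⁻¹) := by
    rw [st, div_pow, div_pow, e1, r3_sq, eq_comm, ← mul_assoc, ← div_eq_mul_inv, div_eq_iff n]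
    generalize hB : mb2 r + 3 * -(4 * η) = B at n
    field_simp
    linear_combination -hB
  rw [e2]
  exact b6p_le (mul_mem (mul_mem t4 iη) (b6p_inv u.ge))

theorem b6p_tr (h3 : v 3 < 1) {b2 b4 b6 x e a b η Y W : ℂ} (hb : v b2 = 1) (i4 : b4 ∈ v.integer)
    (i6 : b6 ∈ v.integer) (ix : x ∈ v.integer) (iη : η ∈ v.integer) (iY : Y ∈ v.integer)
    (he : 3 * e = -b2 + 9 * η)
    (hs : (a + b - 2 * x) * (x - e) ^ 2 = e * (6 * x ^ 2 + b2 * x + b4) + (b4 * x + b6 - 2 * x ^ 3))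
    (hd : 9 * ((a - b) / r3 1) * (x - e) ^ 2 = -Y) (hW : 3 * W * (6 * e ^ 2 + b2 * e + b4) = Y) :
    v (a + b - 2 * x) ≤ v 3 ∧ v ((a - b) / r3 1 + W) ≤ v 3 ∧ v W ≤ 1 := by
  have i2 : b2 ∈ v.integer := hb.le
  have t2 : (2 : ℂ) ∈ v.integer := ofNat_mem _ 2
  have t3 : (3 : ℂ) ∈ v.integer := ofNat_mem _ 3
  have t6 : (6 : ℂ) ∈ v.integer := ofNat_mem _ 6
  have nb : v (-b2) = 1 := by rw [v.map_neg, hb]
  obtain ⟨ε, hε⟩ : ∃ ε, e = ε / 3 := ⟨3 * e, by ring⟩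
  subst hε
  have e0 : ε = -b2 + 3 * (3 * η) := by linear_combination he
  have u : v ε = 1 := e0 ▸ b6p_unit h3 nb (mul_mem t3 iη)
  have iε : ε ∈ v.integer := u.le
  have uD : v (-ε + 3 * x) = 1 := b6p_unit h3 (by rw [v.map_neg, u]) ix
  have uP : v (ε * (2 * ε + b2) + 3 * b4) = 1 := by
    refine b6p_unit h3 ?_ i4
    rw [map_mul, u, one_mul, show 2 * ε + b2 = -b2 + 3 * (6 * η) by linear_combination 2 * e0]
    exact b6p_unit h3 nb (mul_mem t6 iη)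
  have iD := b6p_inv uD.ge
  have iP := b6p_inv uP.ge
  have cD := mul_inv_cancel₀ (b6p_ne uD.ge)
  have cP := mul_inv_cancel₀ (b6p_ne uP.ge)
  generalize (-ε + 3 * x)⁻¹ = d at iD cD
  generalize (ε * (2 * ε + b2) + 3 * b4)⁻¹ = k at iP cP
  generalize (a - b) / r3 1 = y at hd ⊢
  have w : W = Y * k := by linear_combination k * hW - W * cP
  have y1 : y = -Y * d ^ 2 := by
    linear_combination d ^ 2 * hd - y * ((-ε + 3 * x) * d + 1) * cD
  refine ⟨?_, ?_, ?_⟩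
  · rw [show a + b - 2 * x = 3 * ((ε * (6 * x ^ 2 + b2 * x + b4) + 3 * (b4 * x + b6 - 2 * x ^ 3)) *
      d ^ 2) by
        linear_combination 9 * d ^ 2 * hs - (a + b - 2 * x) * ((-ε + 3 * x) * d + 1) * cD]
    apply b6p_le
    apply_rules (transparency := .reducible) [pow_mem, add_mem, sub_mem, mul_mem, neg_mem]
  · rw [w, y1, show -Y * d ^ 2 + Y * k = 3 * (Y * k * d ^ 2 *
      (3 * x ^ 2 - 2 * x * ε - b4 - 3 * ε * η)) by
        linear_combination Y * d ^ 2 * cP - Y * k * ((-ε + 3 * x) * d + 1) * cD -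
          Y * k * d ^ 2 * ε * e0]
    apply b6p_le
    apply_rules (transparency := .reducible) [pow_mem, add_mem, sub_mem, mul_mem, neg_mem]
  · rw [w]
    exact mul_mem iY iP

theorem tr_cong (h : IsLat L) (hG : Good v L U r) (h3 : v 3 < 1) (hb : v (mb2 r) = 1)
    (ht : t ∉ L) (ht3 : 3 * t ∈ L) (htE : E1 v L U r t) (hz : ¬ E1 v L U r z) :
    v (xm L U r (z + t) + xm L U r (z - t) - 2 * xm L U r z) ≤ v 3 ∧
      v ((xm L U r (z + t) - xm L U r (z - t)) / r3 1 + st L t / r3 1 * wpd L z / U) ≤ v 3 ∧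
      v (st L t / r3 1 * wpd L z / U) ≤ 1 := by
  obtain ⟨η, iη, e⟩ := b6p_can h hG hb ht ht3 htE
  obtain ⟨-, -, -, hA, hC⟩ := (flex_can h hG h3 hb ht ht3 htE).1
  obtain ⟨n1, ix⟩ := xm_le hz
  have n2 := (xm_le (xm_add_E1 h hG hz htE).1).1
  have n3 := (xm_le (xm_add_E1 h hG hz (E1_neg h htE)).1).1
  rw [← sub_eq_add_neg] at n3
  obtain ⟨hU, i2, i4, i6, -, -⟩ := hG
  rw [← Valuation.mem_integer_iff] at i2 i4 i6 ix
  have s1 := wp_add_eq h n1 ht n2 n3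
  have s2 := wp_sub_wp h n1 ht n2 n3
  have w : ∀ y, wp L y = U * (xm L U r y + mb2 r / 12) := fun y => by
    rw [xm, mb2]
    field_simp
    ring
  have e3 := (fa_mul h ht ht3).trans (b6p_P L hU r t)
  have e4 := b6p_a h hU r n1
  have e5 := b6p_a h hU r ht
  have vU : v U ≠ 0 := (v.ne_zero_iff).2 hU
  have A0 : fa L t ≠ 0 := fun k => by
    rw [k, zero_pow two_ne_zero, map_zero] at hA
    exact mul_ne_zero ((v.ne_zero_iff).2 three_ne_zero) vU hA.symm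
  have r0 := r3_ne
  rw [w (z + t), w z, w t] at s1
  rw [w (z + t), w (z - t), w z, w t] at s2
  refine b6p_tr h3 hb i4 i6 ix iη (Y := 9 * (wpd L z * wpd L t) / (r3 1 * U ^ 3)) ?_ e ?_ ?_ ?_
  · refine (pow_le_one_iff (n := 2) two_ne_zero).1 ?_
    rw [← map_pow, show (9 * (wpd L z * wpd L t) / (r3 1 * U ^ 3)) ^ 2 =
      -(27 * wpd L t ^ 2 / U ^ 3) * (wpd L z ^ 2 / U ^ 3) by
        rw [div_pow, mul_pow (r3 1), r3_sq]; field_simp; ring, map_mul, v.map_neg, map_div₀, hC,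
      map_pow, div_self (pow_ne_zero 3 vU), one_mul, ← psi_xm h hU r n1]
    have t2 : (2 : ℂ) ∈ v.integer := ofNat_mem _ 2
    have t4 : (4 : ℂ) ∈ v.integer := ofNat_mem _ 4
    rw [← Valuation.mem_integer_iff]
    apply_rules (transparency := .reducible) [pow_mem, add_mem, sub_mem, mul_mem, neg_mem]
  · refine mul_left_cancel₀ (pow_ne_zero 3 hU) ?_
    linear_combination s1 / 2 - s2 + e4 / 2 + e5 / 2
  · field_simp
    linear_combination s2
  · rw [st]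
    field_simp
    linear_combination -9 * wpd L z * e3

theorem tri_iff {a b y : ℂ} : Tri v a b y ↔ ∃ α ∈ v.integer, ∃ s ∈ v.integer, ∃ u ∈ v.integer,
    a = 1 + r3 1 * α ∧ b = 1 - r3 1 * α + 3 * s ∧ y = 2 * α + r3 1 * s - 3 * u := by
  have r0 := r3_ne
  constructor
  · rintro ⟨h1, h2, h3⟩
    obtain ⟨α, iα, e1⟩ := b6p_ex r0 h1
    obtain ⟨s, is, e2⟩ := b6p_ex three_ne_zero h2
    obtain ⟨u, iu, e3⟩ := b6p_ex three_ne_zero h3
    refine ⟨α, iα, s, is, u, iu, by linear_combination e1, by linear_combination e2 - e1, ?_⟩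
    have : (a - b) / r3 1 = 2 * α + r3 1 * s := by
      rw [div_eq_iff r0]
      linear_combination 2 * e1 - e2 - s * r3_sq
    linear_combination this - e3
  · rintro ⟨α, iα, s, is, u, iu, rfl, rfl, rfl⟩
    refine ⟨?_, ?_, ?_⟩
    · rw [add_sub_cancel_left]
      exact b6p_le iα
    · rw [show 1 + r3 1 * α + (1 - r3 1 * α + 3 * s) - 2 = 3 * s by ring]
      exact b6p_le is
    · rw [show (1 + r3 1 * α - (1 - r3 1 * α + 3 * s)) / r3 1 = 2 * α + r3 1 * s by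
        rw [div_eq_iff r0]; linear_combination -s * r3_sq,
        show 2 * α + r3 1 * s - (2 * α + r3 1 * s - 3 * u) = 3 * u by ring]
      exact b6p_le iu

theorem Tri.one (v : Valuation ℂ Γ) : Tri v 1 1 0 :=
  tri_iff.2 ⟨0, zero_mem _, 0, zero_mem _, 0, zero_mem _, by ring, by ring, by ring⟩

theorem Tri.mul {a b y a' b' y' : ℂ} (h : Tri v a b y) (h' : Tri v a' b' y') :
    Tri v (a * a') (b * b') (y + y') := by
  obtain ⟨α, iα, s, is, u, iu, rfl, rfl, rfl⟩ := tri_iff.1 h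
  obtain ⟨β, iβ, w, iw, x, ix, rfl, rfl, rfl⟩ := tri_iff.1 h'
  have iθ := b6p_th (v := v)
  have t2 : (2 : ℂ) ∈ v.integer := ofNat_mem _ 2
  have t3 : (3 : ℂ) ∈ v.integer := ofNat_mem _ 3
  refine tri_iff.2 ⟨α + β + r3 1 * α * β, ?_, s + w - 2 * α * β - r3 1 * (α * w + β * s) + 3 * s * w,
    ?_, u + x + (α * w + β * s) + r3 1 * s * w, ?_, by ring, ?_, ?_⟩
  · apply_rules (transparency := .reducible) [pow_mem, add_mem, sub_mem, mul_mem, neg_mem]
  · apply_rules (transparency := .reducible) [pow_mem, add_mem, sub_mem, mul_mem, neg_mem]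
  · apply_rules (transparency := .reducible) [pow_mem, add_mem, sub_mem, mul_mem, neg_mem]
  · linear_combination 2 * α * β * r3_sq
  · linear_combination (α * w + β * s) * r3_sq

theorem Tri.congr {a b y y' : ℂ} (h : Tri v a b y) (e : v (y - y') ≤ v 3) : Tri v a b y' := by
  refine ⟨h.1, h.2.1, ?_⟩
  rw [show (a - b) / r3 1 - y' = (a - b) / r3 1 - y + (y - y') by ring]
  exact v.map_add_le h.2.2 e

theorem Tri.val {a b y : ℂ} (h3 : v 3 < 1) (h : Tri v a b y) :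
    v a = 1 ∧ v b = 1 ∧ v y ≤ 1 ∧ v (b - 1) ≤ v (r3 1) := by
  obtain ⟨α, iα, s, is, u, iu, rfl, rfl, rfl⟩ := tri_iff.1 h
  have iθ := b6p_th (v := v)
  have k := ((v_r3 v).2 h3).1
  have e : v (1 - r3 1 * α + 3 * s - 1) ≤ v (r3 1) := by
    rw [show 1 - r3 1 * α + 3 * s - 1 = r3 1 * (-α - r3 1 * s) by linear_combination s * r3_sq]
    exact b6p_le (sub_mem (neg_mem iα) (mul_mem iθ is))
  refine ⟨v.map_one_add_of_lt ((b6p_le iα).trans_lt k), ?_, ?_, e⟩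
  · have := v.map_one_add_of_lt (e.trans_lt k)
    rwa [add_sub_cancel] at this
  · exact sub_mem (add_mem (mul_mem (ofNat_mem _ 2) iα) (mul_mem iθ is))
      (mul_mem (ofNat_mem _ 3) iu)

theorem Tri.inv {a b y : ℂ} (h3 : v 3 < 1) (h : Tri v a b y) : Tri v a⁻¹ b⁻¹ (-y) := by
  obtain ⟨va, vb, vy, -⟩ := h.val h3
  have ia := b6p_inv va.ge
  have ib := b6p_inv vb.ge
  have ca := mul_inv_cancel₀ (b6p_ne va.ge)
  have cb := mul_inv_cancel₀ (b6p_ne vb.ge)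
  have iy : y ∈ v.integer := vy
  obtain ⟨α, iα, s, is, u, iu, e1, e2, e3⟩ := tri_iff.1 h
  have iθ := b6p_th (v := v)
  have t2 : (2 : ℂ) ∈ v.integer := ofNat_mem _ 2
  have r0 := r3_ne
  have e4 : a * b = 1 + 3 * (s + α * (α + r3 1 * s)) := by
    rw [e1, e2]
    linear_combination -α ^ 2 * r3_sq
  have e5 : a - b = r3 1 * (y + 3 * u) := by
    rw [e1, e2, e3]
    linear_combination -s * r3_sq
  generalize a⁻¹ = i at ia ca ⊢
  generalize b⁻¹ = j at ib cb ⊢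
  refine ⟨?_, ?_, ?_⟩
  · rw [show i - 1 = r3 1 * (-α * i) by linear_combination ca - i * e1]
    exact b6p_le (mul_mem (neg_mem iα) ia)
  · rw [show i + j - 2 = 3 * ((-s - 2 * α * (α + r3 1 * s)) * i * j) by
      linear_combination i * j * (e1 + e2 - 2 * e4) + (2 * b * j - j) * ca + (2 - i) * cb]
    apply b6p_le
    apply_rules (transparency := .reducible) [pow_mem, add_mem, sub_mem, mul_mem, neg_mem]
  · rw [show (i - j) / r3 1 - -y = 3 * ((y * (s + α * (α + r3 1 * s)) - u) * i * j) by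
      rw [sub_neg_eq_add, ← eq_sub_iff_add_eq, div_eq_iff r0]
      linear_combination -(i * j) * e5 + r3 1 * y * i * j * e4 + (j - r3 1 * y * b * j) * ca -
        (i + r3 1 * y) * cb]
    apply b6p_le
    apply_rules (transparency := .reducible) [pow_mem, add_mem, sub_mem, mul_mem, neg_mem]

theorem Tri.prod {ι : Type} (S : Finset ι) {a b y : ι → ℂ}
    (h : ∀ i ∈ S, Tri v (a i) (b i) (y i)) :
    Tri v (∏ i ∈ S, a i) (∏ i ∈ S, b i) (∑ i ∈ S, y i) := by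
  classical
  induction S using Finset.induction_on with
  | empty => simpa using Tri.one v
  | insert j S hj ih =>
    rw [Finset.prod_insert hj, Finset.prod_insert hj, Finset.sum_insert hj]
    exact (h j (Finset.mem_insert_self j S)).mul (ih fun i hi => h i (Finset.mem_insert_of_mem hi))

theorem dlog (h : IsLat L) (hG : Good v L U r) (h3 : v 3 < 1) (hb : v (mb2 r) = 1)
    (ht : t ∉ L) (ht3 : 3 * t ∈ L) (htE : E1 v L U r t) (hc : Odd c)
    (hz : ¬ E1 v L U r (c * z)) :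
    Tri v (tht L c (z + t) / tht L c z) (tht L c (z - t) / tht L c z)
      (-(st L t / r3 1 * ec L c z)) ∧ v (st L t / r3 1 * ec L c z) ≤ 1 := by
  have hU := hG.1
  have c0 : 0 < c := hc.pos
  have c1 : (c : ℂ) ≠ 0 := Nat.cast_ne_zero.2 c0.ne'
  have hf := xs_finite h c0
  have nz : ∀ w : ℂ, c * w - c * z ∈ L → ¬ E1 v L U r w := fun w hw e =>
    hz ((E1_congr h hw).1 (by simpa using E1_int h hG e c))
  have hz1 : ¬ E1 v L U r z := nz z (by simp)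
  obtain ⟨a1, a2, a3⟩ := tr_cong h hG h3 hb ht ht3 htE hz1
  obtain ⟨s, is, hs⟩ := b6p_ex three_ne_zero a1
  obtain ⟨u, iu, hu⟩ := b6p_ex three_ne_zero a2
  have iW : st L t / r3 1 * wpd L z / U ∈ v.integer := a3
  have r0 := r3_ne
  have iθ := b6p_th (v := v)
  have t3 : (3 : ℂ) ∈ v.integer := ofNat_mem _ 3
  have i2 := b6p_inv (b6p_two h3).ge
  have key : ∀ e ∈ hf.toFinset, wp L z - e ≠ 0 ∧ U / (wp L z - e) ∈ v.integer := by
    intro e he
    obtain ⟨s, s1, s2, rfl⟩ := hf.mem_toFinset.1 he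
    have hu := xm_unit h hG hz1 s2 (nz _ (by convert s1 using 1; ring))
      (nz _ (by convert neg_mem s1 using 1; ring))
    have h1 : 1 ≤ v (xm L U r z - xm L U r s) := hu ▸ le_max_left _ _
    rw [b6p_sub L hU r, ← div_div, div_self hU, one_div]
    exact ⟨mul_ne_zero hU (b6p_ne h1), b6p_inv h1⟩
  have e1 : -(st L t / r3 1 * ec L c z) =
      -∑ e ∈ hf.toFinset, -(st L t / r3 1 * wpd L z / U) * (U / (wp L z - e)) := by
    rw [ec, finsum_mem_eq_finite_toFinset_sum _ hf, mul_neg, Finset.mul_sum, ← Finset.sum_neg_distrib]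
    congr 1
    refine Finset.sum_congr rfl fun e _ => ?_
    field_simp
  have e2 : ∀ w, tht L c w / tht L c z = (∏ e ∈ hf.toFinset,
      (1 + (xm L U r w - xm L U r z) * (U / (wp L z - e))))⁻¹ := fun w => by
    have hp : ∏ e ∈ hf.toFinset, (wp L w - e) = (∏ e ∈ hf.toFinset, (wp L z - e)) *
        ∏ e ∈ hf.toFinset, (1 + (xm L U r w - xm L U r z) * (U / (wp L z - e))) := by
      rw [← Finset.prod_mul_distrib]
      refine Finset.prod_congr rfl fun e he => ?_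
      have := (key e he).1
      field_simp
      linear_combination b6p_sub L hU r w z
    have n1 : ∏ e ∈ hf.toFinset, (wp L z - e) ≠ 0 :=
      Finset.prod_ne_zero_iff.2 fun e he => (key e he).1
    have n2 := pow_ne_zero ((c ^ 2 - 1) / 12) (dl_ne h)
    rw [tht, tht, finprod_mem_eq_finite_toFinset_prod _ hf,
      finprod_mem_eq_finite_toFinset_prod _ hf, hp]
    field_simp
  generalize st L t / r3 1 * wpd L z / U = W at e1 hu iW
  have hd : xm L U r (z + t) - xm L U r (z - t) = r3 1 * (3 * u - W) := by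
    rw [← eq_sub_iff_add_eq, div_eq_iff r0] at hu
    linear_combination hu
  have T : Tri v (tht L c (z + t) / tht L c z) (tht L c (z - t) / tht L c z)
      (-(st L t / r3 1 * ec L c z)) := by
    rw [e1, e2, e2]
    refine Tri.inv h3 (Tri.prod _ fun e he => ?_)
    have ik := (key e he).2
    generalize U / (wp L z - e) = k at ik
    refine tri_iff.2 ⟨(3 * u - W - r3 1 * s) * 2⁻¹ * k, ?_, s * k, mul_mem is ik, u * k,
      mul_mem iu ik, ?_, ?_, by ring⟩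
    · apply_rules (transparency := .reducible) [add_mem, sub_mem, mul_mem, neg_mem]
    · linear_combination k / 2 * hs + k / 2 * hd + k * s / 2 * r3_sq
    · linear_combination k / 2 * hs - k / 2 * hd - k * s / 2 * r3_sq
  refine ⟨T, ?_⟩
  rw [← v.map_neg]
  exact (T.val h3).2.2.1

end Pool.Agent.P.MP_20768c_nt.Tz.Cv

end

-- part Cv.X6
section

set_option autoImplicit false

open Complex NumberField IsDedekindDomain
open scoped Real

namespace Pool.Agent.P.MP_20768c_nt.Tz.Cv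

theorem x6_cp {K Γ J : Type} [Field K] [LinearOrderedCommGroupWithZero Γ] (v : Valuation K Γ)
    (T : Finset J) {a b : J → K} {c : Γ} (hc : c ≤ 1) (hb : ∀ i ∈ T, v (b i) ≤ 1)
    (h : ∀ i ∈ T, v (a i - b i) ≤ c) : v (∏ i ∈ T, a i - ∏ i ∈ T, b i) ≤ c := by
  classical
  induction T using Finset.induction_on with
  | empty => simp
  | insert i T hi ih =>
    have ih := ih (fun j hj => hb j (Finset.mem_insert_of_mem hj))
      (fun j hj => h j (Finset.mem_insert_of_mem hj))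
    have h1 := h i (Finset.mem_insert_self i T)
    have h2 := hb i (Finset.mem_insert_self i T)
    have hB : v (∏ j ∈ T, b j) ≤ 1 := by
      rw [map_prod]
      exact Finset.prod_le_one' fun j hj => hb j (Finset.mem_insert_of_mem hj)
    have hA : v (∏ j ∈ T, a j) ≤ 1 := by
      rw [← sub_add_cancel (∏ j ∈ T, a j) (∏ j ∈ T, b j)]
      exact v.map_add_le (ih.trans hc) hB
    rw [Finset.prod_insert hi, Finset.prod_insert hi,
      show a i * ∏ j ∈ T, a j - b i * ∏ j ∈ T, b j =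
        (a i - b i) * ∏ j ∈ T, a j + b i * (∏ j ∈ T, a j - ∏ j ∈ T, b j) by ring]
    refine v.map_add_le ?_ ?_
    · rw [map_mul]
      exact (mul_le_of_le_one_right' hA).trans h1
    · rw [map_mul]
      exact (mul_le_of_le_one_left' h2).trans ih

/-- the local estimate where `ε` is close to `1` -/
theorem x6_near {Γ : Type} [LinearOrderedCommGroupWithZero Γ] (v : Valuation ℂ Γ) {n : ℕ}
    {D ε m : ℂ} (hD0 : D ≠ 0) (hD : v D ≤ 1) (hm : v m ≤ 1) {y : Fin n → ℂ}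
    (hy : ∀ i, v (D * y i) ≤ 1) (hε : v (ε - 1) ≤ v (m * D ^ (n + 1))) :
    v (∏ i, (1 + ε * (y i - 1)) - ∏ i, y i) ≤ v m := by
  have hM : v (m * D ^ (n + 1)) ≤ v m * v D ^ n := by
    rw [map_mul, map_pow, pow_succ, ← mul_assoc]
    exact mul_le_of_le_one_right' hD
  have h1 := x6_cp v Finset.univ (a := fun i => D * (1 + ε * (y i - 1))) (b := fun i => D * y i)
    (c := v m * v D ^ n) (mul_le_one' hm (pow_le_one' hD _)) (fun i _ => hy i) (fun i _ => by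
      rw [show D * (1 + ε * (y i - 1)) - D * y i = (ε - 1) * (D * y i - D) by ring, map_mul]
      exact (mul_le_of_le_one_right' (v.map_sub_le (hy i) hD)).trans (hε.trans hM))
  rw [Finset.prod_mul_distrib, Finset.prod_mul_distrib, Finset.prod_const, Finset.card_univ,
    Fintype.card_fin, ← mul_sub, map_mul, map_pow, mul_comm] at h1
  exact le_of_mul_le_mul_right h1
    (pow_pos (zero_lt_iff.2 ((Valuation.ne_zero_iff v).2 hD0)) n)

/-- the local estimate where `ε` is close to `0` -/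
theorem x6_far {Γ : Type} [LinearOrderedCommGroupWithZero Γ] (v : Valuation ℂ Γ) {n : ℕ}
    {D ε m : ℂ} (hD : v D ≤ 1) (hm : v m ≤ 1) {y : Fin n → ℂ}
    (hy : ∀ i, v (D * y i) ≤ 1) (hε : v ε ≤ v (m * D ^ (n + 1))) :
    v (∏ i, (1 + ε * (y i - 1)) - 1) ≤ v m := by
  have h1 := x6_cp v Finset.univ (a := fun i => 1 + ε * (y i - 1)) (b := fun _ => 1)
    (c := v m) hm (fun i _ => by simp) (fun i _ => by
      rw [add_sub_cancel_left, map_mul]
      refine (mul_le_mul_left hε _).trans ?_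
      rw [← map_mul, show m * D ^ (n + 1) * (y i - 1) = m * (D ^ n * (D * y i - D)) by ring,
        map_mul, map_mul, map_pow]
      exact mul_le_of_le_one_right' (mul_le_one' (pow_le_one' hD _) (v.map_sub_le (hy i) hD)))
  simpa using h1

namespace St

variable (s : St) {l : ℕ}

theorem x6_eps (F : IntermediateField s.k ℂ) [NumberField F] (Q : HeightOneSpectrum (𝓞 F))
    {M : ℕ} (hM : M ≠ 0) (hQ : (M : 𝓞 F) ∈ Q.asIdeal) : ∃ ε : 𝓞 F,
    ∀ (Γ : Type) [LinearOrderedCommGroupWithZero Γ] (v : Valuation ℂ Γ), v M < 1 →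
      ((∀ x : 𝓞 F, v ((x : F) : ℂ) < 1 ↔ x ∈ Q.asIdeal) → v (((ε : F) : ℂ) - 1) ≤ v M) ∧
      (¬ (∀ x : 𝓞 F, v ((x : F) : ℂ) < 1 ↔ x ∈ Q.asIdeal) → v ((ε : F) : ℂ) ≤ v M) := by
  classical
  have hmax := Q.isMaximal
  obtain ⟨J, hJ, hI⟩ := Ideal.eq_prime_pow_mul_coprime (I := Ideal.span {(M : 𝓞 F)})
    (by simpa [Ideal.span_singleton_eq_bot] using hM) Q.asIdeal
  generalize Multiset.count Q.asIdeal _ = e at hI
  have he : e ≠ 0 := by
    rintro rfl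
    rw [pow_zero, one_mul] at hI
    rw [← hI, sup_eq_left.2 ((Ideal.span_singleton_le_iff_mem _).2 hQ)] at hJ
    exact hmax.ne_top hJ
  have hco : IsCoprime (Q.asIdeal ^ e) J := (Ideal.isCoprime_iff_sup_eq.2 hJ).pow_left
  obtain ⟨a, ha, ε, hε, hs⟩ := Ideal.isCoprime_iff_exists.1 hco
  obtain ⟨t, ht⟩ := Ideal.mem_span_singleton'.1 (hI ▸ Ideal.mul_mem_mul ha hε)
  refine ⟨ε, fun Γ _ v hv => ?_⟩
  let f : 𝓞 F →+* ℂ := (algebraMap F ℂ).comp (algebraMap (𝓞 F) F)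
  have h1 : f a + f ε = 1 := by rw [← map_add, hs, map_one]
  have h2 : v (f a) * v (f ε) ≤ v M := by
    rw [← map_mul, ← map_mul, ← ht, map_mul, map_natCast, map_mul]
    exact mul_le_of_le_one_left' (e1_int (algebraMap F ℂ) v t)
  refine ⟨fun h => ?_, fun h => ?_⟩
  · have h3 : v (f a) < 1 := (h a).2 (Ideal.pow_le_self he ha)
    have h4 : v (f ε) = 1 := by
      rw [eq_sub_of_add_eq' h1]
      exact v.map_one_sub_of_lt h3
    change v (f ε - 1) ≤ _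
    rw [← h1, show f ε - (f a + f ε) = -f a by ring, v.map_neg]
    rwa [h4, mul_one] at h2
  · obtain ⟨Q', hQ', h'⟩ := e1_ideal (algebraMap F ℂ) v
    have hM' : Q.asIdeal ^ e * J ≤ Q' := by
      rw [← hI, Ideal.span_singleton_le_iff_mem, ← h']
      simpa using hv
    rcases hQ'.mul_le.1 hM' with h3 | h3
    · have := hmax.eq_of_le hQ'.ne_top (hQ'.le_of_pow_le h3)
      exact absurd (fun x => this ▸ h' x) h
    · have h3 : v (f ε) < 1 := (h' ε).2 (h3 hε)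
      have h4 : v (f a) = 1 := by
        rw [eq_sub_of_add_eq h1]
        exact v.map_one_sub_of_lt h3
      change v (f ε) ≤ _
      rwa [h4, one_mul] at h2

/-- exactly one of the translates of a valuation over `q` lies over `Q` -/
theorem x6_one (Q : HeightOneSpectrum (𝓞 (s.Fz l))) (hF : Fre s.k Q.asIdeal) {J : Type}
    {g : J → s.Au} (hg : Tv (s.Hz l) g) (V : ValuationSubring ℂ)
    (hV : ∀ x ∈ Q.asIdeal.under s.O, V.valuation (s.c x) < 1) :
    ∃! j, ∀ x : 𝓞 (s.Fz l), V.valuation (g j ((x : s.Fz l) : ℂ)) < 1 ↔ x ∈ Q.asIdeal := by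
  obtain ⟨ρ, hρ, hρ'⟩ := s.exists_res (F := s.Fz l)
  obtain ⟨Q', hQ', h'⟩ := e1_ideal (algebraMap (s.Fz l) ℂ) V.valuation
  have hmax := Q.isMaximal
  have hP := Q.isPrime
  have hu : Q.asIdeal.under s.O = Q'.under s.O :=
    (Ideal.IsMaximal.under s.O Q.asIdeal).eq_of_le (Ideal.IsPrime.under s.O Q').ne_top
      fun x hx => (h' _).1 (hV x hx)
  have hG : IsGaloisGroup (s.Fz l ≃ₐ[s.k] s.Fz l) s.O (𝓞 (s.Fz l)) :=
    IsGaloisGroup.of_isFractionRing (s.Fz l ≃ₐ[s.k] s.Fz l) s.O (𝓞 (s.Fz l)) s.k (s.Fz l)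
  obtain ⟨γ, hγ⟩ := Algebra.IsInvariant.exists_smul_of_under_eq s.O (𝓞 (s.Fz l))
    (s.Fz l ≃ₐ[s.k] s.Fz l) Q.asIdeal Q' hu
  obtain ⟨σ, rfl⟩ := hρ γ
  have hs : ∀ (τ : s.Au) (x : 𝓞 (s.Fz l)),
      (((ρ τ • x : 𝓞 (s.Fz l)) : s.Fz l) : ℂ) = τ ((x : s.Fz l) : ℂ) := fun τ x => hρ' τ x
  obtain ⟨j, hj, -⟩ := hg σ
  have key : ∀ i i', (∀ x : 𝓞 (s.Fz l), V.valuation (g i ((x : s.Fz l) : ℂ)) < 1 ↔ x ∈ Q.asIdeal) →
      (∀ x : 𝓞 (s.Fz l), V.valuation (g i' ((x : s.Fz l) : ℂ)) < 1 ↔ x ∈ Q.asIdeal) → i = i' := by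
    intro i i' h1 h2
    have h3 : ρ ((g i)⁻¹ * g i') = 1 := hF _ fun x => by
      rw [← h1, ← h2, hs, ← AlgEquiv.mul_apply, mul_inv_cancel_left]
    have h4 : (g i)⁻¹ * g i' ∈ s.Hz l := by
      have := hρ' ((g i)⁻¹ * g i') ⟨xz l, s.x4_mem l⟩
      rw [h3] at this
      exact this.symm
    exact (hg (g i')).unique h4 (by simp)
  have hjQ : ∀ x : 𝓞 (s.Fz l), V.valuation (g j ((x : s.Fz l) : ℂ)) < 1 ↔ x ∈ Q.asIdeal := by
    intro x
    have h1 : σ ((x : s.Fz l) : ℂ) = g j ((x : s.Fz l) : ℂ) := by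
      conv_rhs => rw [← s.x4_fix hj (x : s.Fz l).2, ← AlgEquiv.mul_apply, mul_inv_cancel_left]
    rw [← h1, ← hs]
    refine (h' _).trans ?_
    rw [hγ]
    exact Ideal.smul_mem_pointwise_smul_iff
  exact ⟨j, hjQ, fun i hi => key i j hi hjQ⟩

theorem x6_apx (hl : l.Prime) {m : ℕ} (hm : 0 < m) (Q : HeightOneSpectrum (𝓞 (s.Fz l)))
    (hQ : (m : 𝓞 (s.Fz l)) ∈ Q.asIdeal) (hF : Fre s.k Q.asIdeal) {δ τ : s.Au} {d n : ℕ}
    (hδ : Tv (s.Hz l) fun j : Fin d => δ ^ j.1) (hτ : τ ∈ s.Hz l) {y η : ℂ}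
    (hy : IsAlgebraic ℚ y) (hη : IsPrimitiveRoot η l) (hN : ∏ i : Fin n, (τ ^ i.1) y = η) :
    ∃ ε ∈ s.Fz l, ∃ u : s.O, s.LocR l m (Q.asIdeal.under s.O) u ∧
      ∀ V : ValuationSubring ℂ, V.valuation m < 1 →
        V.valuation (∏ p : Fin d × Fin n, (δ ^ p.1.1 * τ ^ p.2.1) (1 + ε * (y - 1)) - s.c u) ≤
          V.valuation m := by
  classical
  obtain ⟨z, hz0, hz⟩ := ((IsFractionRing.isAlgebraic_iff ℤ ℚ ℂ).2 hy).exists_integral_multiple
  have hD0 : z.natAbs ≠ 0 := Int.natAbs_ne_zero.2 hz0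
  have hDy : IsIntegral ℤ ((z.natAbs : ℂ) * y) := by
    rw [zsmul_eq_mul] at hz
    rcases Int.natAbs_eq z with h | h
    · rwa [h, Int.cast_natCast] at hz
    · rw [h, Int.cast_neg, Int.cast_natCast, neg_mul] at hz
      simpa using hz.neg
  generalize z.natAbs = D at hD0 hDy
  obtain ⟨ε, hε⟩ := s.x6_eps (s.Fz l) Q (M := m * D ^ (n + 1))
    (mul_ne_zero hm.ne' (pow_ne_zero _ hD0))
    (by rw [Nat.cast_mul]; exact Ideal.mul_mem_right _ _ hQ)
  have hηi : IsIntegral ℤ η := hη.isIntegral hl.pos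
  have hεi : IsIntegral ℤ ((ε : s.Fz l) : ℂ) :=
    map_isIntegral_int (algebraMap (s.Fz l) ℂ) ε.isIntegral_coe
  have hεF : ((ε : s.Fz l) : ℂ) ∈ s.Fz l := (ε : s.Fz l).2
  generalize ((ε : s.Fz l) : ℂ) = e at hε hεi hεF
  have h0i : IsIntegral ℤ (1 + e * (η - 1)) :=
    isIntegral_one.add (hεi.mul (hηi.sub isIntegral_one))
  have h0F : 1 + e * (η - 1) ∈ s.Fz l :=
    add_mem (one_mem _) (mul_mem hεF (sub_mem (s.x4_root hl.ne_zero hη.pow_eq_one) (one_mem _)))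
  have loc : ∀ (Γ : Type) [LinearOrderedCommGroupWithZero Γ] (v : Valuation ℂ Γ), v m < 1 →
      ((∀ x : 𝓞 (s.Fz l), v ((x : s.Fz l) : ℂ) < 1 ↔ x ∈ Q.asIdeal) →
        v (∏ i : Fin n, (1 + e * ((τ ^ i.1) y - 1)) - η) ≤ v m ∧
          v (1 + e * (η - 1) - η) ≤ v m) ∧
      (¬ (∀ x : 𝓞 (s.Fz l), v ((x : s.Fz l) : ℂ) < 1 ↔ x ∈ Q.asIdeal) →
        v (∏ i : Fin n, (1 + e * ((τ ^ i.1) y - 1)) - 1) ≤ v m ∧
          v (1 + e * (η - 1) - 1) ≤ v m) := by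
    intro Γ _ v hv
    have hD : v D ≤ 1 := v_int v (isIntegral_natCast D)
    have hM : v ((m * D ^ (n + 1) : ℕ) : ℂ) ≤ v m := by
      rw [Nat.cast_mul, Nat.cast_pow, map_mul, map_pow]
      exact mul_le_of_le_one_right' (pow_le_one' hD _)
    have hyi : ∀ i : Fin n, v (D * (τ ^ i.1) y) ≤ 1 := fun i => by
      have := map_isIntegral_int (τ ^ i.1 : s.Au) hDy
      rw [map_mul, map_natCast] at this
      exact v_int v this
    have hη1 : v (η - 1) ≤ 1 := v_int v (hηi.sub isIntegral_one)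
    obtain ⟨h1, h2⟩ := hε Γ v (hM.trans_lt hv)
    refine ⟨fun h => ⟨?_, ?_⟩, fun h => ⟨?_, ?_⟩⟩
    · rw [← hN]
      exact x6_near v (Nat.cast_ne_zero.2 hD0) hD hv.le hyi (by simpa using h1 h)
    · rw [show 1 + e * (η - 1) - η = (e - 1) * (η - 1) by ring, map_mul]
      exact (mul_le_of_le_one_right' hη1).trans ((h1 h).trans hM)
    · exact x6_far v hD hv.le hyi (by simpa using h2 h)
    · rw [add_sub_cancel_left, map_mul]
      exact (mul_le_of_le_one_right' hη1).trans ((h2 h).trans hM)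
  have locσ := fun (V : ValuationSubring ℂ) (hV : V.valuation m < 1) (σ : s.Au) =>
    loc _ (V.valuation.comap (σ : ℂ →+* ℂ)) (by simpa using hV)
  simp only [Valuation.comap_apply, RingHom.coe_coe, map_natCast] at locσ
  obtain ⟨u, hu⟩ := s.x4_int (s.x4_norm hδ fun σ hσ => s.x4_fix hσ h0F) fun V =>
    v_int _ (IsIntegral.prod _ fun j _ => map_isIntegral_int (δ ^ j.1 : s.Au) h0i)
  refine ⟨e, hεF, u, fun V hV => ⟨fun hq => ?_, fun hq => ?_⟩, fun V hV => ?_⟩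
  · obtain ⟨j0, hj0, hj1⟩ := s.x6_one Q hF hδ V hq
    refine ⟨(δ ^ j0.1) η, hη.map_of_injective (δ ^ j0.1 : s.Au).injective, ?_⟩
    have := x6_cp V.valuation Finset.univ (a := fun j : Fin d => (δ ^ j.1) (1 + e * (η - 1)))
      (b := fun j => if j = j0 then (δ ^ j0.1) η else 1) hV.le
      (fun j _ => by
        split_ifs
        · exact v_int _ (map_isIntegral_int (δ ^ j0.1 : s.Au) hηi)
        · simp)
      (fun j _ => by
        split_ifs with h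
        · subst h
          rw [← map_sub]
          exact ((locσ V hV _).1 hj0).2
        · have := ((locσ V hV _).2 fun h' => h (hj1 j h')).2
          rwa [map_sub, map_one] at this)
    rw [Finset.prod_ite_eq' Finset.univ j0, if_pos (Finset.mem_univ _)] at this
    rw [hu]
    exact this
  · have := x6_cp V.valuation Finset.univ (a := fun j : Fin d => (δ ^ j.1) (1 + e * (η - 1)))
      (b := fun _ => 1) hV.le (fun j _ => by simp)
      (fun j _ => by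
        have := ((locσ V hV (δ ^ j.1)).2 fun h' => hq fun x hx => by
          have h1 := (h' _).2 hx
          have h2 : (δ ^ j.1) (s.c x) = s.c x := (δ ^ j.1 : s.Au).commutes (x : s.k)
          exact h2 ▸ h1).2
        rwa [map_sub, map_one] at this)
    rw [Finset.prod_const_one] at this
    rw [hu]
    exact this
  · rw [hu, Fintype.prod_prod_type]
    refine x6_cp V.valuation Finset.univ hV.le
      (fun j _ => v_int _ (map_isIntegral_int (δ ^ j.1 : s.Au) h0i)) fun j _ => ?_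
    have h1 : ∏ i : Fin n, (δ ^ j.1 * τ ^ i.1) (1 + e * (y - 1)) =
        (δ ^ j.1) (∏ i : Fin n, (1 + e * ((τ ^ i.1) y - 1))) := by
      rw [map_prod]
      refine Finset.prod_congr rfl fun i _ => ?_
      rw [AlgEquiv.mul_apply, map_add (τ ^ i.1), map_mul (τ ^ i.1), map_sub (τ ^ i.1), map_one,
        s.x4_fix (pow_mem hτ _) hεF]
    rw [h1]
    have key : ∀ b : ℂ, V.valuation ((δ ^ j.1) (∏ i : Fin n, (1 + e * ((τ ^ i.1) y - 1)) - b)) ≤
        V.valuation m ∧ V.valuation ((δ ^ j.1) (1 + e * (η - 1) - b)) ≤ V.valuation m →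
        V.valuation ((δ ^ j.1) (∏ i : Fin n, (1 + e * ((τ ^ i.1) y - 1))) -
          (δ ^ j.1) (1 + e * (η - 1))) ≤ V.valuation m := fun b h => by
      have := V.valuation.map_sub_le h.1 h.2
      rwa [← map_sub, sub_sub_sub_cancel_right, map_sub] at this
    by_cases h : ∀ x : 𝓞 (s.Fz l),
        V.valuation ((δ ^ j.1) ((x : s.Fz l) : ℂ)) < 1 ↔ x ∈ Q.asIdeal
    · exact key _ ((locσ V hV _).1 h)
    · exact key _ ((locσ V hV _).2 h)

end St


end Pool.Agent.P.MP_20768c_nt.Tz.Cv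

end

-- part Cv.H2_p
section

set_option autoImplicit false

open Complex NumberField IsDedekindDomain Filter Topology
open UpperHalfPlane hiding I
open scoped ComplexConjugate Real MatrixGroups

namespace Pool.Agent.P.MP_20768c_nt.Tz.Cv

open Pool.Agent.P.MP_20768c_nt.Tz.EQ (Lt pr sp IsLat jL qN)

open ModularForm CongruenceSubgroup

namespace St

variable (s : St) {n f : Ideal s.O} {ω : s.Pair → ℂ}

theorem lev_pos (hf : f ≠ ⊥) : 3 ≤ s.lev f ∧ 3 ∣ s.lev f := by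
  have h1 : Ideal.absNorm f ≠ 0 := fun h => hf (Ideal.absNorm_eq_zero_iff.1 h)
  have h2 := s.dd_ge
  refine ⟨?_, Dvd.dvd.mul_left (Dvd.dvd.pow (dvd_mul_right _ _) two_ne_zero) _⟩
  have h3 : 1 ≤ (3 * Ideal.absNorm f) ^ 2 := Nat.one_le_pow _ _ (by omega)
  calc 3 ≤ 4 * s.dd * 1 := by omega
    _ ≤ s.lev f := Nat.mul_le_mul_left _ h3

theorem h2p_three (f : Ideal s.O) : ((3 * Ideal.absNorm f : ℕ) : s.O) ∈ s.lv f := by
  rw [mul_comm]
  push_cast
  exact Ideal.mul_mem_mul f.absNorm_mem s.three_mem.2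

theorem h2p_rep (hω : s.IsWt n ω) {a : Ideal s.O} (ha : a ≠ ⊥) :
    ∃ (C : s.Pr n) (x : ℂ), x ≠ 0 ∧ ω (s.ip a) = x * ω (s.out C) ∧
      ‖x‖ ^ 2 * s.nL (s.out C).L * Ideal.absNorm a = 1 ∧ x⁻¹ ∈ (s.out C).L := by
  obtain ⟨x, hx⟩ := s.cl_eq.1 (s.cl_out (s.cl n (s.ip a)))
  refine ⟨_, x, hx.1, hω.1 _ _ _ hx, ?_, ?_⟩
  · have h1 := s.nL_idl (s.isUnit_inv ha) ha
    rw [s.idl_inv ha, s.nL_one, ← s.ip_L ha, hx.2.1, s.nL_sc (s.out _).unit hx.1] at h1
    linarith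
  · have h1 := (s.ip a).mem
    rw [hx.2.1, s.ip_ρ, ← mul_inv_cancel₀ hx.1] at h1
    exact (s.mul_mem_sc' hx.1).1 h1

theorem wt_bound (hn : n ≠ ⊥) (hω : s.IsWt n ω) : ∃ B : ℝ, ∀ a, a ≠ ⊥ → ‖ω (s.ip a)‖ ≤ B := by
  have := s.finite_Pr hn
  obtain ⟨B, hB⟩ := (Set.finite_range fun C : s.Pr n =>
    (1 + (s.nL (s.out C).L)⁻¹) * ‖ω (s.out C)‖).bddAbove
  refine ⟨B, fun a ha => ?_⟩
  obtain ⟨C, x, -, h1, h2, -⟩ := s.h2p_rep hω ha
  refine le_trans ?_ (hB ⟨C, rfl⟩)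
  rw [h1, norm_mul]
  refine mul_le_mul_of_nonneg_right ?_ (norm_nonneg _)
  have hp := s.nL_pos (s.out C).unit
  have h3 : (1 : ℝ) ≤ Ideal.absNorm a :=
    Nat.one_le_cast.2 (Nat.pos_of_ne_zero fun h => ha (Ideal.absNorm_eq_zero_iff.1 h))
  have h4 : ‖x‖ ^ 2 ≤ (s.nL (s.out C).L)⁻¹ := by
    rw [← one_div, le_div_iff₀ hp, ← h2]
    exact le_mul_of_one_le_right (by positivity) h3
  nlinarith [sq_nonneg (‖x‖ - 1), norm_nonneg x]

theorem h2p_summable (hn : n ≠ ⊥) (hω : s.IsWt n ω) (τ : ℍ) :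
    Summable fun a : Ideal s.O => ω (s.ip a) * (Ideal.absNorm a : ℂ) *
      cexp (2 * π * I * τ * (Ideal.absNorm a : ℂ)) := by
  obtain ⟨B, hB⟩ := s.wt_bound hn hω
  have hy : 0 < 2 * π * τ.im := by have := τ.im_pos; positivity
  refine Summable.of_norm_bounded ((s.summable_ideal_exp hy).mul_left B) fun a => ?_
  by_cases ha : a = ⊥
  · simp [ha]
  have e : (2 * π * I * τ * (Ideal.absNorm a : ℂ)).re = -(2 * π * τ.im) * Ideal.absNorm a := by
    simp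
  rw [norm_mul, norm_mul, Complex.norm_exp, e, Complex.norm_natCast, mul_assoc]
  exact mul_le_mul_of_nonneg_right (hB a ha) (by positivity)

theorem vth_eq (hn : n ≠ ⊥) (h2 : n ≤ s.p2) (hω : s.IsWt n ω) (τ : ℍ) :
    s.vth ω τ = ∑ᶠ C : s.Pr n, ω (s.out C) / s.nL (s.out C).L *
      Th (s.zl (s.idl n * (s.out C).L)) (s.nL (s.out C).L) (s.out C).ρ τ := by
  rw [vth, s.tsum_cl hn h2 (s.h2p_summable hn hω τ)]
  · refine finsum_congr fun C => ?_
    rw [Th, th1, ← tsum_mul_left]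
    refine tsum_congr fun l => ?_
    generalize s.out C = p at l ⊢
    have hl : (l : ℂ) ∈ s.idl n * p.L := s.mem_zl.1 l.2
    have hm : p.ρ + l ∈ p.L := add_mem p.mem (s.idl_mul_le n p.L hl)
    have e1 := s.mkP_L p.unit hm
    have e2 := s.mkP_ρ p.unit hm
    have e3 := hω.1 _ _ _ (s.sim_add p hl)
    have e4 := s.Qn_eq (s.mkP p.L (p.ρ + l))
    rw [e1, e2, Qn] at e4
    have e5 : (Ideal.absNorm (s.idOf (s.mkP p.L (p.ρ + l))) : ℂ) =
        (p.ρ + l) * conj (p.ρ + l) / s.nL p.L := by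
      rw [Complex.mul_conj, Complex.normSq_eq_norm_sq, ← Complex.ofReal_natCast, e4]
      push_cast
      rfl
    by_cases h0 : p.ρ + l = 0
    · rw [e5, h0]
      simp
    have e6 := hω.1 _ _ _ (s.sim_ip n (p := s.mkP p.L (p.ρ + l)) (by rwa [e2]))
    rw [e2, e3, one_mul] at e6
    rw [e5, e6]
    have e7 : 2 * π * I * τ * ((p.ρ + l) * conj (p.ρ + l) / s.nL p.L) =
        -(-(2 * π * I * τ) / s.nL p.L) * ((p.ρ + l) * conj (p.ρ + l)) := by ring
    rw [e7]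
    ring
  · intro a ha
    by_cases h0 : a = ⊥
    · simp [h0]
    rw [hω.2 _ (s.idOf_le.1 (by rwa [s.idOf_ip h0])), zero_mul, zero_mul]

theorem h2p_co (ω : s.Pair → ℂ) (j : ℕ) : s.co ω j =
    ∑ a ∈ (Ideal.finite_setOfPred_absNorm_eq (S := s.O) j).toFinset,
      ω (s.ip a) * (Ideal.absNorm a : ℂ) := by
  rw [co, finsum_mem_eq_finite_toFinset_sum _ (Ideal.finite_setOfPred_absNorm_eq (S := s.O) j),
    Finset.mul_sum]
  refine Finset.sum_congr rfl fun a ha => ?_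
  rw [show Ideal.absNorm a = j by simpa using ha, mul_comm]

theorem vth_exp (hn : n ≠ ⊥) (hω : s.IsWt n ω) (τ : ℍ) :
    HasSum (fun j : ℕ => s.co ω j * qN 1 τ ^ j) (s.vth ω τ) := by
  have h := (s.h2p_summable hn hω τ).hasSum.tsum_fiberwise fun a => Ideal.absNorm a
  refine (congrArg (HasSum · (s.vth ω τ)) (funext fun j => ?_)).mp h
  have e : (fun a : Ideal s.O => Ideal.absNorm a) ⁻¹' {j} =
      ((Ideal.finite_setOfPred_absNorm_eq (S := s.O) j).toFinset : Set (Ideal s.O)) := by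
    rw [Set.Finite.coe_toFinset]
    rfl
  rw [e, Finset.tsum_subtype' _ fun a : Ideal s.O => ω (s.ip a) * (Ideal.absNorm a : ℂ) *
      cexp (2 * π * I * τ * (Ideal.absNorm a : ℂ)), s.h2p_co, Finset.sum_mul]
  refine Finset.sum_congr rfl fun a ha => ?_
  rw [show Ideal.absNorm a = j by simpa using ha, qN, ← Complex.exp_nat_mul]
  congr 2
  push_cast
  ring

theorem co_fg (hn : n ≠ ⊥) (hω : s.IsWt n ω) :
    ∃ Λ : Submodule ℤ ℂ, Λ.FG ∧ ∀ j, s.co ω j ∈ Λ := by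
  have := s.finite_Pr hn
  let φ : s.Pr n → ℂ →ₗ[ℤ] ℂ := fun C =>
    ((AddMonoidHom.mulLeft (ω (s.out C) / s.nL (s.out C).L)).comp
      (starRingEnd ℂ : ℂ →+* ℂ).toAddMonoidHom).toIntLinearMap
  refine ⟨⨆ C, (s.zl (s.out C).L).map (φ C), Submodule.fg_iSup _ fun C => ?_, fun j => ?_⟩
  · obtain ⟨c, τ, -, h⟩ := s.isLat_zl (s.out C).unit
    rw [h]
    exact (Submodule.fg_span (Set.toFinite _)).map _
  rw [s.h2p_co]
  refine sum_mem fun a _ => ?_
  by_cases ha : a = ⊥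
  · simp [ha]
  obtain ⟨C, x, h0, h1, h2, h3⟩ := s.h2p_rep hω ha
  refine Submodule.mem_iSup_of_mem C ⟨x⁻¹, s.mem_zl.2 h3, ?_⟩
  have hp : (s.nL (s.out C).L : ℂ) ≠ 0 := Complex.ofReal_ne_zero.2 (s.nL_pos (s.out C).unit).ne'
  have h4 : x * conj x * s.nL (s.out C).L * Ideal.absNorm a = 1 := by
    rw [Complex.mul_conj, Complex.normSq_eq_norm_sq]
    exact_mod_cast h2
  have h5 : conj x ≠ 0 := by simpa using h0
  change ω (s.out C) / s.nL (s.out C).L * conj x⁻¹ = _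
  rw [h1, map_inv₀, div_mul_eq_mul_div, div_eq_iff hp, mul_inv_eq_iff_eq_mul₀ h5]
  linear_combination -ω (s.out C) * h4

theorem co_one (ω : s.Pair → ℂ) : s.co ω 1 = ω 1 := by
  have e : {a : Ideal s.O | Ideal.absNorm a = 1} = {⊤} :=
    Set.ext fun a => Ideal.absNorm_eq_one_iff
  rw [co, e, finsum_mem_singleton, s.ip_top, Nat.cast_one, one_mul]

theorem co_sum {ι : Type} (T : Finset ι) (μ : ι → ℂ) (w : ι → s.Pair → ℂ) (j : ℕ) :
    s.co (fun p => ∑ i ∈ T, μ i * w i p) j = ∑ i ∈ T, μ i * s.co (w i) j := by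
  simp only [s.h2p_co, Finset.sum_mul, Finset.mul_sum, mul_assoc]
  exact Finset.sum_comm

end St

end Pool.Agent.P.MP_20768c_nt.Tz.Cv

end

-- part Cv.H2_q
section

set_option autoImplicit false

open Complex NumberField IsDedekindDomain Filter Topology
open UpperHalfPlane hiding I
open scoped ComplexConjugate Real MatrixGroups

namespace Pool.Agent.P.MP_20768c_nt.Tz.Cv

open Pool.Agent.P.MP_20768c_nt.Tz.EQ (Lt pr sp IsLat jL qN)

open ModularForm CongruenceSubgroup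

namespace St

variable (s : St) {n f : Ideal s.O} {ω : s.Pair → ℂ}

theorem h2q_inv (hω : s.IsWt n ω) (τ : ℍ) : s.Inv n fun p => ω p / s.nL p.L *
    Th (s.zl (s.idl n * p.L)) (s.nL p.L) p.ρ τ := by
  intro x p q h
  have h0 := (s.nL_pos p.unit).ne'
  have h1 : Th (s.zl (s.idl n * q.L)) (s.nL q.L) q.ρ τ =
      conj x * Th (s.zl (s.idl n * p.L)) (s.nL p.L) p.ρ τ := by
    unfold Th
    rw [← add_sub_cancel (x * p.ρ) q.ρ, th1_add _ _ _ (s.mem_zl.2 h.2.2), h.2.1, mul_left_comm,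
      zl_sc, th1_sc _ h.1, s.nL_sc p.unit h.1, mul_conj']
    have : (‖x‖ : ℂ) ≠ 0 := ofReal_ne_zero.2 (norm_ne_zero_iff.2 h.1)
    congr 2
    push_cast
    field_simp
  have h2 := h.1
  beta_reduce
  rw [h1, hω.1 x p q h, h.2.1, s.nL_sc p.unit h.1]
  push_cast
  rw [← mul_conj']
  have h3 : conj x ≠ 0 := (map_ne_zero _).2 h2
  have h4 : (s.nL p.L : ℂ) ≠ 0 := ofReal_ne_zero.2 h0
  field_simp

theorem h2q_wt (hω : s.IsWt n ω) (β : s.O) : s.IsWt n fun p => ω (p * s.np β) :=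
  ⟨fun x _ _ h => hω.1 x _ _ (h.mul _), fun p h => hω.2 _ (by
    rw [mul_L, mul_ρ, np_L, np_ρ, mul_one, mul_comm p.ρ]
    exact s.c_mul_mem β h)⟩

theorem h2q_one (hω : s.IsWt n ω) {β : s.O} (h : β - 1 ∈ n) (p : s.Pair) :
    ω (p * s.np β) = ω p := by
  rw [hω.1 1 _ _ (s.sim_np h p), one_mul, np_one, mul_one]

theorem h2q_nrm {L : s.Sub} (hL : IsUnit L) {l : ℂ} (hl : l ∈ L) :
    l * conj l = s.nL L * s.Qn (s.mkP L l) := by
  have h := s.Qn_eq (s.mkP L l)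
  rw [s.mkP_L hL hl, s.mkP_ρ hL hl, eq_div_iff (s.nL_pos hL).ne', mul_comm] at h
  rw [mul_conj']
  exact_mod_cast h.symm

theorem vth_slash (hf : f ≠ ⊥) (hω : s.IsWt (s.lv f) ω) {γ : SL(2, ℤ)}
    (hγ : γ ∈ Gamma0 (s.lev f)) : s.vth ω ∣[(2 : ℤ)] γ =
      (s.kr (γ 1 1) : ℂ) • s.vth fun p => ω (p * s.np (γ 1 1 : ℤ)) := by
  obtain ⟨N, hN⟩ : ∃ N, N = 3 * Ideal.absNorm f := ⟨_, rfl⟩
  have hN0 : 0 < N :=
    hN ▸ Nat.mul_pos three_pos (Nat.pos_of_ne_zero (mt Ideal.absNorm_eq_zero_iff.1 hf))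
  have hle : Ideal.span {(N : s.O)} ≤ s.lv f :=
    (Ideal.span_singleton_le_iff_mem _).2 (hN ▸ s.h2p_three f)
  have hn : Ideal.span {(N : s.O)} ≠ ⊥ :=
    mt Ideal.span_singleton_eq_bot.1 (Nat.cast_ne_zero.2 hN0.ne')
  have h2 : Ideal.span {(N : s.O)} ≤ s.p2 := hle.trans Ideal.mul_le_right
  have hω' := hω.mono hle
  have hc : ((4 * s.dd * N ^ 2 : ℕ) : ℤ) ∣ γ 1 0 :=
    (ZMod.intCast_zmod_eq_zero_iff_dvd _ _).1 (hN ▸ Gamma0_mem.1 hγ)
  have had : ((γ 0 0 : ℤ) : s.O) * (γ 1 1 : ℤ) - 1 ∈ Ideal.span {(N : s.O)} := by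
    obtain ⟨t, ht⟩ := hc
    have h := γ.det_coe
    rw [Matrix.det_fin_two, ht] at h
    refine Ideal.mem_span_singleton'.2 ⟨(γ 0 1 * (4 * s.dd * N * t) : ℤ), ?_⟩
    have h1 : γ 0 1 * (4 * s.dd * N * t) * N = γ 0 0 * γ 1 1 - 1 := by
      push_cast at h
      linear_combination -h
    exact_mod_cast congrArg (Int.cast : ℤ → s.O) h1
  have hu : IsUnit (s.cl (Ideal.span {(N : s.O)}) (s.np (γ 0 0 : ℤ))) :=
    IsUnit.of_mul_eq_one (s.cl _ (s.np (γ 1 1 : ℤ))) (by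
      rw [← map_mul, ← np_mul]
      exact s.cl_np_eq_one.2 (Or.inl had))
  have := s.finite_Pr hn
  have := Fintype.ofFinite (s.Pr (Ideal.span {(N : s.O)}))
  funext τ
  have he : denom γ τ = (γ 1 0 : ℂ) * τ + γ 1 1 := by simp [ModularGroup.denom_apply]
  have hd : (γ 1 0 : ℂ) * τ + γ 1 1 ≠ 0 := he ▸ denom_ne_zero γ τ
  rw [SL_slash_apply, Pi.smul_apply, s.vth_eq hn h2 hω', s.vth_eq hn h2 (s.h2q_wt hω' _),
    ← s.sum_mul (s.h2q_inv (s.h2q_wt hω' _) τ) hu, finsum_eq_sum_of_fintype,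
    finsum_eq_sum_of_fintype, smul_eq_mul, Finset.sum_mul, Finset.mul_sum]
  refine Finset.sum_congr rfl fun C _ => ?_
  rw [mul_assoc (s.out C), ← np_mul, s.h2q_one hω' had, mul_L, mul_ρ, np_L, np_ρ, mul_one, idl_span,
    c_nat, c_int, s.Th_law (s.out C).unit hN0 (s.out C).mem γ hc, mul_comm (s.out C).ρ, he]
  field_simp

theorem exists_cusp (hf : f ≠ ⊥) (hω : s.IsWt (s.lv f) ω) :
    ∃ F : CuspForm (Gamma1 (s.lev f)) 2, ⇑F = s.vth ω := by
  have hl : NeZero (s.lev f) := ⟨by have := (s.lev_pos hf).1; omega⟩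
  have hn := s.lv_ne hf
  have := s.finite_Pr hn
  have := Fintype.ofFinite (s.Pr (s.lv f))
  have h : s.vth ω = ∑ C : s.Pr (s.lv f), (ω (s.out C) / s.nL (s.out C).L) •
      Th (s.zl (s.idl (s.lv f) * (s.out C).L)) (s.nL (s.out C).L) (s.out C).ρ := by
    funext τ
    rw [s.vth_eq hn Ideal.mul_le_right hω, finsum_eq_sum_of_fintype, Finset.sum_apply]
    rfl
  have hL : ∀ C : s.Pr (s.lv f), IsLat (s.zl (s.idl (s.lv f) * (s.out C).L)) := fun C =>
    s.isLat_zl ((s.isUnit_idl hn).mul (s.out C).unit)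
  refine ⟨⟨⟨s.vth ω, ?_⟩, ?_, fun {c} hc => ?_⟩, rfl⟩
  · rintro _ ⟨γ, hγ, rfl⟩
    obtain ⟨t, ht⟩ : ((s.lev f : ℕ) : ℤ) ∣ γ 1 1 - 1 :=
      (ZMod.intCast_zmod_eq_zero_iff_dvd _ _).1 (by
        rw [Int.cast_sub, ((Gamma1_mem _ _).1 hγ).2.1, Int.cast_one, sub_self])
    have h1 : s.kr (γ 1 1) = 1 := by
      refine (s.kr_congr ⟨(3 * Ideal.absNorm f) ^ 2 * t, ?_⟩).trans s.kr_one
      rw [ht, lev]
      push_cast
      ring
    have h2 : ((γ 1 1 : ℤ) : s.O) - 1 ∈ s.lv f := by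
      have h3 : ((γ 1 1 : ℤ) : s.O) - 1 = (4 * s.dd * (3 * Ideal.absNorm f : ℕ) * t) *
          (3 * Ideal.absNorm f : ℕ) := by
        have h4 := congrArg (Int.cast : ℤ → s.O) ht
        rw [lev] at h4
        push_cast at h4 ⊢
        linear_combination h4
      exact h3 ▸ Ideal.mul_mem_left _ _ (s.h2p_three f)
    refine (s.vth_slash hf hω (Gamma1_in_Gamma0 _ hγ)).trans ?_
    simp only [h1, s.h2q_one hω h2, Int.cast_one, one_smul]
  · change MDifferentiable _ _ (s.vth ω)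
    rw [h]
    exact MDifferentiable.sum fun C _ => (Th_hol (hL C) (s.nL_pos (s.out C).unit) _).const_smul _
  · rw [Subgroup.IsArithmetic.isCusp_iff_isCusp_SL2Z] at hc
    rw [OnePoint.isZeroAt_iff_forall_SL2Z hc]
    intro g _
    change IsZeroAtImInfty (s.vth ω ∣[(2 : ℤ)] g)
    rw [h, SlashAction.sum_slash]
    refine (zeroAtFilterSubmodule ℂ atImInfty).sum_mem fun C _ => ?_
    rw [SL_smul_slash]
    refine Submodule.smul_mem _ _ (Th_cusp (hL C) (s.nL_pos (s.out C).unit)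
      (fun l hl => ⟨_, (s.h2q_nrm (s.out C).unit (s.idl_mul_le _ _ hl)).trans
        (by rw [Int.cast_natCast])⟩) (fun l hl => ?_) g)
    have h1 := s.h2q_nrm (s.out C).unit (s.idl_mul_le _ _ hl)
    have h2 := s.h2q_nrm (s.out C).unit (s.out C).mem
    have h3 := s.h2q_nrm (s.out C).unit (add_mem (s.out C).mem (s.idl_mul_le _ _ hl))
    rw [map_add] at h3
    refine ⟨(s.Qn (s.mkP (s.out C).L ((s.out C).ρ + l)) : ℤ) - s.Qn (s.mkP (s.out C).L l) -
      s.Qn (s.mkP (s.out C).L (s.out C).ρ), ?_⟩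
    push_cast
    linear_combination h3 - h1 - h2

theorem Sy_sum (hf : f ≠ ⊥) {ι : Type} (T : Finset ι) (μ : ι → ℂ) {w : ι → s.Pair → ℂ}
    (hw : ∀ i ∈ T, s.IsWt (s.lv f) (w i)) (r : ℚ) :
    s.Sy (fun p => ∑ i ∈ T, μ i * w i p) r = ∑ i ∈ T, μ i * s.Sy (w i) r := by
  have hl : NeZero (s.lev f) := ⟨by have := (s.lev_pos hf).1; omega⟩
  have hn := s.lv_ne hf
  have h1 : s.IsWt (s.lv f) fun p => ∑ i ∈ T, μ i * w i p :=
    ⟨fun x p q h => by
      rw [Finset.mul_sum]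
      exact Finset.sum_congr rfl fun i hi => by rw [(hw i hi).1 x p q h, mul_left_comm],
    fun p h => Finset.sum_eq_zero fun i hi => by rw [(hw i hi).2 p h, mul_zero]⟩
  have h2 : ∀ τ, s.vth (fun p => ∑ i ∈ T, μ i * w i p) τ = ∑ i ∈ T, μ i * s.vth (w i) τ :=
    fun τ => (s.vth_exp hn h1 τ).unique (by
      simpa only [co_sum, Finset.sum_mul, mul_assoc] using
        hasSum_sum fun i hi => (s.vth_exp hn (hw i hi) τ).mul_left (μ i))
  unfold Sy sym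
  simp only [h2]
  rw [MeasureTheory.integral_finsetSum, Finset.mul_sum]
  · exact Finset.sum_congr rfl fun i _ => by rw [MeasureTheory.integral_const_mul, mul_left_comm]
  · intro i hi
    obtain ⟨F, hF⟩ := s.exists_cusp hf (hw i hi)
    exact (hF ▸ sym_int F r).const_mul _

end St

end Pool.Agent.P.MP_20768c_nt.Tz.Cv

end

-- part Cv.H2
section

set_option autoImplicit false

open Complex NumberField IsDedekindDomain Filter Topology
open UpperHalfPlane hiding I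
open scoped ComplexConjugate Real MatrixGroups

namespace Pool.Agent.P.MP_20768c_nt.Tz.Cv

open Pool.Agent.P.MP_20768c_nt.Tz.EQ (Lt pr sp IsLat jL qN)

open ModularForm CongruenceSubgroup

namespace St

variable (s : St) {n f : Ideal s.O} {ω : s.Pair → ℂ}

/-- one term of the theta series -/
noncomputable def h2_t (ω : s.Pair → ℂ) (w : ℂ) (a : Ideal s.O) : ℂ :=
  ω (s.ip a) * (Ideal.absNorm a : ℂ) * cexp (2 * π * I * w * (Ideal.absNorm a : ℂ))

theorem h2_of (ω : s.Pair → ℂ) {w : ℂ} (hw : 0 < w.im) :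
    s.vth ω (ofComplex w) = ∑' a, s.h2_t ω w a := by
  rw [vth, ofComplex_apply_of_im_pos hw]
  rfl

theorem h2_bot (ω : s.Pair → ℂ) (w : ℂ) : s.h2_t ω w ⊥ = 0 := by
  simp [h2_t]

theorem h2_sum (hn : n ≠ ⊥) (hω : s.IsWt n ω) {w : ℂ} (hw : 0 < w.im) :
    Summable (s.h2_t ω w) := by
  obtain ⟨B, hB⟩ := s.wt_bound hn hω
  refine Summable.of_norm_bounded
    ((s.summable_ideal_exp (y := 2 * π * w.im) (by positivity)).mul_left B) fun a => ?_
  by_cases ha : a = ⊥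
  · rw [ha, h2_bot]
    simp
  · have e : (2 * π * I * w * (Ideal.absNorm a : ℂ)).re = -(2 * π * w.im) * Ideal.absNorm a := by
      simp
    rw [h2_t, norm_mul, norm_mul, Complex.norm_exp, e, Complex.norm_natCast, mul_assoc]
    exact mul_le_mul_of_nonneg_right (hB a ha) (by positivity)

theorem h2_mem {a q : Ideal s.O} (ha : a ≠ ⊥) :
    (s.ip a).ρ ∈ s.idl q * (s.ip a).L ↔ a ≤ q := by
  rw [← s.idOf_le, s.idOf_ip ha]

theorem h2_mul (hω : s.Eig f ω) (w : ℂ) (a : Ideal s.O) :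
    s.h2_t ω w (s.p1 * a) = s.al ω * s.h2_t ω (3 * w) a := by
  by_cases ha : a = ⊥
  · rw [ha, Ideal.mul_bot, h2_bot, h2_bot, mul_zero]
  · have h1 : ω (s.ip s.p1 * s.ip a) = ω (s.ip s.p1) * ω (s.ip a) / ω 1 :=
      eq_div_of_mul_eq hω.2.2.1 (hω.2.2.2 _ _)
    rw [h2_t, h2_t, al, s.ip_mul s.p1_ne ha, h1, map_mul, s.norm_p1, Nat.cast_mul,
      Nat.cast_ofNat, show 2 * π * I * w * (3 * (Ideal.absNorm a : ℂ)) =
        2 * π * I * (3 * w) * (Ideal.absNorm a : ℂ) by ring]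
    ring

theorem h2_p1 (hω : s.Eig f ω) (w : ℂ) {F : Ideal s.O → ℂ}
    (h0 : ∀ a, ¬ a ≤ s.p1 → F a = 0) (h1 : ∀ a, a ≤ s.p1 → F a = s.h2_t ω w a) :
    ∑' a, F a = s.al ω * ∑' a, s.h2_t ω (3 * w) a := by
  have hi : Function.Injective fun a : Ideal s.O => s.p1 * a := fun a b h =>
    mul_left_cancel₀ s.p1_ne h
  have h2 : Function.support F ⊆ Set.range fun a : Ideal s.O => s.p1 * a := fun a ha => by
    obtain ⟨c, hc⟩ := Ideal.dvd_iff_le.2 (not_not.1 fun k => ha (h0 a k))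
    exact ⟨c, hc.symm⟩
  have h3 : ∑' a, F (s.p1 * a) = ∑' a, F a := hi.tsum_eq h2
  have h4 : ∑' a, F (s.p1 * a) = ∑' a, s.al ω * s.h2_t ω (3 * w) a :=
    tsum_congr fun a => (h1 _ Ideal.mul_le_left).trans (s.h2_mul hω w a)
  exact h3.symm.trans (h4.trans tsum_mul_left)

theorem h2_cop {a : Ideal s.O} (h1 : ¬ a ≤ s.p1) (h2 : ¬ a ≤ s.p2) : ¬ 3 ∣ Ideal.absNorm a := by
  have k : ∀ q : Ideal s.O, q.IsMaximal → ¬ a ≤ q → IsCoprime a q := fun q hq h => by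
    rw [Ideal.isCoprime_iff_sup_eq, sup_comm]
    exact hq.1.2 _ (left_lt_sup.2 h)
  rw [s.cop_iff, ← s.p1_mul_p2]
  exact (k _ s.p1_max h1).mul_right (k _ s.p2_max h2)

theorem h2_third (ω : s.Pair → ℂ) (w : ℂ) (j : ℕ) (a : Ideal s.O) :
    s.h2_t ω ((w + j) / 3) a = (zt 1 ^ Ideal.absNorm a) ^ j * s.h2_t ω (w / 3) a := by
  rw [h2_t, h2_t, zt, ← Complex.exp_nat_mul, ← Complex.exp_nat_mul,
    show 2 * π * I * ((w + j) / 3) * (Ideal.absNorm a : ℂ) =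
      j * ((Ideal.absNorm a : ℂ) * (2 * π * I / 3 ^ 1)) +
        2 * π * I * (w / 3) * (Ideal.absNorm a : ℂ) by ring,
    Complex.exp_add]
  ring

theorem h2_hecke (hf : f ≠ ⊥) (hω : s.Eig f ω) (z : ℍ) :
    ((3 : ℕ) : ℂ)⁻¹ * ∑ j ∈ Finset.range 3, s.vth ω (ofComplex (((z : ℂ) + j) / (3 : ℕ))) =
      s.al ω * s.vth ω z := by
  have hz := z.im_pos
  have i0 : ∀ j : ℕ, 0 < (((z : ℂ) + j) / 3).im := fun j => by simpa using hz
  rw [Nat.cast_ofNat, Finset.sum_congr rfl fun j _ => s.h2_of ω (i0 j),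
    ← Summable.tsum_finsetSum fun j _ => s.h2_sum (s.lv_ne hf) hω.1 (i0 j), ← tsum_mul_left,
    s.h2_p1 hω ((z : ℂ) / 3) (fun a ha => ?_) (fun a ha => ?_), mul_div_cancel₀ _ three_ne_zero]
  · rfl
  · simp only [h2_third, ← Finset.sum_mul]
    by_cases h2 : a ≤ s.p2
    · have ha' : a ≠ ⊥ := fun k => ha (k ▸ bot_le)
      rw [h2_t, hω.1.2 _ ((s.h2_mem ha').2 h2)]
      ring
    · have h3 : IsPrimitiveRoot (zt 1 ^ Ideal.absNorm a) 3 :=
        (zt_prim 1).pow_of_coprime _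
          ((Nat.Prime.coprime_iff_not_dvd Nat.prime_three).2 (s.h2_cop ha h2)).symm
      rw [h3.geom_sum_eq_zero (by norm_num)]
      ring
  · obtain ⟨e, h3⟩ : 3 ∣ Ideal.absNorm a := by
      rw [← s.norm_p1]
      exact Ideal.absNorm_dvd_absNorm_of_le ha
    simp only [h2_third, h3, pow_mul, zt1_cube, one_pow, one_mul, Finset.sum_const,
      Finset.card_range, nsmul_eq_mul]
    push_cast
    ring

theorem h2_three (hf : f ≠ ⊥) (ε : DirichletCharacter ℂ (s.lev f)) :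
    ε ((3 : ℕ) : ZMod (s.lev f)) = 0 := by
  refine MulChar.map_nonunit _ fun h => ?_
  have h1 := Nat.Coprime.eq_one_of_dvd ((ZMod.isUnit_iff_coprime _ _).1 h) (s.lev_pos hf).2
  omega

theorem h2_cong (hω : s.IsWt (s.lv f) ω) {d e : ℤ} (h : (s.lev f : ℤ) ∣ d - e) :
    (s.kr d : ℂ) * (ω (s.np d) / ω 1) = s.kr e * (ω (s.np e) / ω 1) := by
  obtain ⟨c, hc⟩ := h
  rw [lev] at hc
  have h1 : s.kr d = s.kr e := by
    refine s.kr_congr ⟨(3 * Ideal.absNorm f) ^ 2 * c, ?_⟩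
    push_cast at hc
    linear_combination hc
  have h2 : (d : s.O) - e ∈ s.lv f := by
    have h3 : (d : s.O) - e = ((4 * s.dd * (3 * Ideal.absNorm f) * c : ℤ) : s.O) *
        ((3 * Ideal.absNorm f : ℕ) : s.O) := by
      rw [← Int.cast_sub, hc]
      push_cast
      ring
    rw [h3]
    exact Ideal.mul_mem_left _ _ (s.h2p_three f)
  have h4 := hω.1 _ _ _ (s.sim_np h2 1)
  rw [one_mul, one_mul, one_mul] at h4
  rw [h1, h4]

theorem laws (hf : ¬ 3 ∣ Ideal.absNorm f) (hω : s.Eig f ω) :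
    ∃ ε : DirichletCharacter ℂ (s.lev f),
      TLaw (s.lev f) ε (s.Sy ω) ∧ HLaw 3 (s.lev f) ε (s.al ω) (s.Sy ω) := by
  have hf' := s.cop_ne hf
  have h3 := (s.lev_pos hf').1
  have : NeZero (s.lev f) := ⟨by omega⟩
  obtain ⟨F, hF⟩ := s.exists_cusp hf' hω.1
  let χ : ℤ → ℂ := fun d => (s.kr d : ℂ) * (ω (s.np d) / ω 1)
  have hc : ∀ d : ℤ, χ (ZMod.cast (d : ZMod (s.lev f))) = χ d := fun d =>
    s.h2_cong hω.1 ((ZMod.intCast_eq_intCast_iff_dvd_sub _ _ _).1 (by simp))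
  have hm : ∀ d e : ℤ, Odd d → Odd e → χ (d * e) = χ d * χ e := fun d e hd he => by
    have h1 : ω (s.np d * s.np e) = ω (s.np d) * ω (s.np e) / ω 1 :=
      eq_div_of_mul_eq hω.2.2.1 (hω.2.2.2 _ _)
    simp only [χ]
    rw [s.kr_mul hd he, Int.cast_mul, Int.cast_mul, s.np_mul, h1]
    ring
  have ho : ∀ x : (ZMod (s.lev f))ˣ, Odd (ZMod.cast (x : ZMod (s.lev f)) : ℤ) := fun x => by
    have h1 : IsUnit (((ZMod.cast (x : ZMod (s.lev f)) : ℤ) : ZMod (s.lev f))) := by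
      rw [ZMod.intCast_zmod_cast]
      exact x.isUnit
    rw [ZMod.coe_int_isUnit_iff_isCoprime] at h1
    refine Int.isCoprime_two_left.1 (h1.of_isCoprime_of_dvd_left
      ⟨2 * s.dd * (3 * Ideal.absNorm f) ^ 2, ?_⟩)
    rw [lev]
    push_cast
    ring
  let φ : (ZMod (s.lev f))ˣ →* ℂ :=
    { toFun := fun x => χ (ZMod.cast (x : ZMod (s.lev f)))
      map_one' := by
        rw [Units.val_one, ← Int.cast_one, hc]
        simp only [χ]
        rw [s.kr_one, Int.cast_one, Int.cast_one, s.np_one, div_self hω.2.2.1, mul_one]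
      map_mul' := fun x y => by
        rw [← hm _ _ (ho x) (ho y), ← hc (ZMod.cast (x : ZMod (s.lev f)) * _), Int.cast_mul,
          ZMod.intCast_zmod_cast, ZMod.intCast_zmod_cast, Units.val_mul] }
  have e : s.Sy ω = sym F := by
    rw [hF]
    rfl
  refine ⟨MulChar.ofUnitHom φ.toHomUnits, e ▸ sym_T _ F fun γ hγ => ?_,
    e ▸ sym_H three_ne_zero _ F _ fun z => ?_⟩
  · obtain ⟨u, hu⟩ : IsUnit ((γ 1 1 : ℤ) : ZMod (s.lev f)) :=
      (Group.isUnit (⟨γ, hγ⟩ : Gamma0 (s.lev f))).map (Gamma0Map (s.lev f))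
    have h1 : (MulChar.ofUnitHom φ.toHomUnits : DirichletCharacter ℂ (s.lev f))
        ((γ 1 1 : ℤ) : ZMod (s.lev f)) = χ (γ 1 1) := by
      rw [← hc, ← hu, MulChar.ofUnitHom_coe]
      rfl
    rw [hF, s.vth_slash hf' hω.1 hγ, h1]
    funext τ
    simp only [χ, Pi.smul_apply, smul_eq_mul, vth]
    rw [mul_assoc (s.kr _ : ℂ), ← tsum_mul_left (a := ω _ / ω 1)]
    congr 1
    refine tsum_congr fun a => ?_
    rw [eq_div_of_mul_eq hω.2.2.1 (hω.2.2.2 (s.ip a) _)]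
    ring
  · rw [s.h2_three hf', hF, ← s.h2_hecke hf' hω z, zero_mul, zero_mul, add_zero]

theorem Sy_hecke (hf : ¬ 3 ∣ Ideal.absNorm f) (hω : s.Eig f ω) (r : ℚ) :
    s.al ω * s.Sy ω r = s.Sy ω (r / 3) + s.Sy ω ((r + 1) / 3) + s.Sy ω ((r + 2) / 3) := by
  obtain ⟨ε, -, h⟩ := s.laws hf hω
  rw [h r, s.h2_three (s.cop_ne hf)]
  simp [Finset.sum_range_succ]

theorem h2_shift (b : ℤ) {d : ℕ} (hd : 0 < d)
    (hnd : n ≤ Ideal.span {(d : s.O)}) (p : s.Pair) {y : ℝ} (hy : 0 < y) :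
    Th (s.zl (s.idl n * p.L)) (s.nL p.L) p.ρ
        (ofComplex ((((b : ℚ) / (d : ℚ) : ℚ) : ℂ) + (y : ℂ) * I)) =
      cexp (2 * π * I * (b * s.Qn p) / d) *
        th1 (s.zl (s.idl n * p.L)) p.ρ ((2 * π / s.nL p.L * y : ℝ) : ℂ) := by
  have i0 : 0 < ((y : ℂ) * I).im := by simpa using hy
  have hA : (s.nL p.L : ℂ) ≠ 0 := by exact_mod_cast (s.nL_pos p.unit).ne'
  have hd' : (d : ℂ) ≠ 0 := by exact_mod_cast hd.ne'
  rw [Th_shift _ _ _ (cexp (2 * π * I * (b * s.Qn p) / d)) ((b : ℂ) / d)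
    (τ := ofComplex ((y : ℂ) * I)) ?_ fun l hl => ?_]
  · rw [Th, ofComplex_apply_of_im_pos i0]
    congr 2
    push_cast
    linear_combination (-(2 * π * y) / (s.nL p.L : ℂ)) * I_mul_I
  · rw [an3_coe _ hy, ofComplex_apply_of_im_pos i0]
    push_cast
    ring
  · have hl' : l ∈ s.idl n * p.L := s.mem_zl.1 hl
    have hm : p.ρ + l ∈ p.L := add_mem p.mem (s.idl_mul_le n p.L hl')
    have h1 := s.Qn_eq (s.mkP p.L (p.ρ + l))
    rw [s.mkP_L p.unit hm, s.mkP_ρ p.unit hm] at h1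
    have h2 : (p.ρ + l) * conj (p.ρ + l) = s.Qn (s.mkP p.L (p.ρ + l)) * (s.nL p.L : ℂ) := by
      rw [Complex.mul_conj', ← Complex.ofReal_natCast, h1]
      push_cast
      rw [div_mul_cancel₀ _ hA]
    obtain ⟨c, hc⟩ := (Nat.modEq_iff_dvd.1 (s.Qn_mod hnd (s.cl_eq.2 ⟨1, s.sim_add p hl'⟩)))
    have h3 : (s.Qn (s.mkP p.L (p.ρ + l)) : ℂ) = s.Qn p + d * c := by
      have := congrArg (Int.cast : ℤ → ℂ) hc
      push_cast at this
      linear_combination this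
    rw [h2, h3, ← mul_assoc, mul_div_cancel_right₀ _ hA,
      show 2 * π * I * ((b : ℂ) / d) * (s.Qn p + d * c) =
        2 * π * I * (b * s.Qn p) / d + ((b * c : ℤ) : ℂ) * (2 * π * I) by
          push_cast
          field_simp,
      Complex.exp_add, Complex.exp_int_mul_two_pi_mul_I, mul_one]

theorem Sy_eq (hn : n ≠ ⊥) (h2 : n ≤ s.p2) (hω : s.IsWt n ω) (b : ℤ) {d : ℕ} (hd : 0 < d)
    (hnd : n ≤ Ideal.span {(d : s.O)}) : s.Sy ω (b / d) = ∑ᶠ C : s.Pr n,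
      cexp (2 * π * I * (b * s.Qn (s.out C)) / d) * ω (s.out C) *
        eF (s.zl (s.idl n * (s.out C).L)) (s.out C).ρ := by
  have := s.finite_Pr hn
  have := Fintype.ofFinite (s.Pr n)
  have hp : ∀ C : s.Pr n, 0 < 2 * π / s.nL (s.out C).L := fun C =>
    div_pos (by positivity) (s.nL_pos (s.out C).unit)
  have hi : ∀ C : s.Pr n, MeasureTheory.IntegrableOn (fun y : ℝ =>
      th1 (s.zl (s.idl n * (s.out C).L)) (s.out C).ρ
        ((2 * π / s.nL (s.out C).L * y : ℝ) : ℂ)) (Set.Ioi 0) := fun C => by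
    rw [MeasureTheory.integrableOn_Ioi_comp_mul_left_iff
      (fun u : ℝ => th1 (s.zl (s.idl n * (s.out C).L)) (s.out C).ρ u) 0 (hp C), mul_zero]
    exact int_th1 (s.isLat_zl ((s.isUnit_idl hn).mul (s.out C).unit)) _
  rw [Sy, sym, MeasureTheory.setIntegral_congr_fun measurableSet_Ioi (g := fun y : ℝ =>
      ∑ C : s.Pr n, ω (s.out C) / s.nL (s.out C).L *
        cexp (2 * π * I * (b * s.Qn (s.out C)) / d) *
        th1 (s.zl (s.idl n * (s.out C).L)) (s.out C).ρ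
          ((2 * π / s.nL (s.out C).L * y : ℝ) : ℂ)) fun y hy => ?_,
    MeasureTheory.integral_finsetSum _ fun C _ => (hi C).const_mul _, finsum_eq_sum_of_fintype,
    Finset.mul_sum]
  · refine Finset.sum_congr rfl fun C _ => ?_
    have hA : (s.nL (s.out C).L : ℂ) ≠ 0 := by exact_mod_cast (s.nL_pos (s.out C).unit).ne'
    have hπ : (π : ℂ) ≠ 0 := by exact_mod_cast Real.pi_ne_zero
    rw [MeasureTheory.integral_const_mul, MeasureTheory.integral_comp_mul_left_Ioi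
      (fun u : ℝ => th1 (s.zl (s.idl n * (s.out C).L)) (s.out C).ρ u) 0 (hp C), mul_zero,
      Complex.real_smul, eF]
    push_cast
    field_simp
  · simp only
    rw [s.vth_eq hn h2 hω, finsum_eq_sum_of_fintype]
    refine Finset.sum_congr rfl fun C _ => ?_
    rw [s.h2_shift b hd hnd _ hy, ← mul_assoc]

theorem Sy_dep (hf : ¬ 3 ∣ Ideal.absNorm f) (hω : s.Eig f ω) {ω' : s.Pair → ℂ}
    (h0 : ∀ p : s.Pair, p.ρ ∈ s.idl s.p1 * p.L → ω' p = 0)
    (h1 : ∀ p : s.Pair, p.ρ ∉ s.idl s.p1 * p.L → ω' p = ω p) (r : ℚ) :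
    3 * s.Sy ω' r = 3 * s.Sy ω r - s.al ω * s.Sy ω (3 * r) := by
  classical
  have hf' := s.cop_ne hf
  have h3 := (s.lev_pos hf').1
  have : NeZero (s.lev f) := ⟨by omega⟩
  obtain ⟨F, hF⟩ := s.exists_cusp hf' hω.1
  let g : ℚ → ℝ → ℂ := fun t y => s.vth ω (ofComplex ((t : ℂ) + (y : ℂ) * I))
  have i1 : ∀ t, MeasureTheory.IntegrableOn (g t) (Set.Ioi 0) := fun t => by
    simp only [g, ← hF]
    exact sym_int F t
  have i2 : MeasureTheory.IntegrableOn (fun y => g (3 * r) (3 * y)) (Set.Ioi 0) := by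
    rw [MeasureTheory.integrableOn_Ioi_comp_mul_left_iff (g (3 * r)) 0 three_pos, mul_zero]
    exact i1 _
  have hpt : ∀ y ∈ Set.Ioi (0 : ℝ), s.vth ω' (ofComplex ((r : ℂ) + (y : ℂ) * I)) =
      g r y - s.al ω * g (3 * r) (3 * y) := by
    intro y hy
    have j1 : 0 < ((r : ℂ) + (y : ℂ) * I).im := by rwa [an3_im]
    have e : ((3 * r : ℚ) : ℂ) + ((3 * y : ℝ) : ℂ) * I = 3 * ((r : ℂ) + (y : ℂ) * I) := by
      push_cast
      ring
    have j2 : 0 < (3 * ((r : ℂ) + (y : ℂ) * I)).im := by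
      rw [← e, an3_im]
      exact mul_pos three_pos hy
    simp only [g]
    rw [e, s.h2_of ω' j1, s.h2_of ω j1, s.h2_of ω j2]
    generalize (r : ℂ) + (y : ℂ) * I = w at j1
    have hs := s.h2_sum (s.lv_ne hf') hω.1 j1
    rw [← s.h2_p1 hω w (F := {a | a ≤ s.p1}.indicator (s.h2_t ω w))
      (fun a ha => Set.indicator_of_notMem ha _) (fun a ha => Set.indicator_of_mem ha _),
      ← hs.tsum_sub (hs.indicator _)]
    refine tsum_congr fun a => ?_
    by_cases ha : a = ⊥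
    · rw [Set.indicator_of_mem (show a ∈ {a | a ≤ s.p1} from ha.le.trans bot_le), ha, h2_bot,
        sub_self]
    by_cases k : a ≤ s.p1
    · rw [Set.indicator_of_mem (show a ∈ {a | a ≤ s.p1} from k), sub_self, h2_t,
        h0 _ ((s.h2_mem ha).2 k), zero_mul, zero_mul]
    · rw [Set.indicator_of_notMem (show a ∉ {a | a ≤ s.p1} from k), sub_zero, h2_t, h2_t,
        h1 _ fun k' => k ((s.h2_mem ha).1 k')]
  have e1 : s.Sy ω r = 2 * π * ∫ y in Set.Ioi (0 : ℝ), g r y := rfl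
  have e2 : s.Sy ω (3 * r) = 2 * π * ∫ y in Set.Ioi (0 : ℝ), g (3 * r) y := rfl
  rw [e1, e2, Sy, sym, MeasureTheory.setIntegral_congr_fun measurableSet_Ioi hpt,
    MeasureTheory.integral_sub (i1 r) (i2.const_mul _), MeasureTheory.integral_const_mul,
    MeasureTheory.integral_comp_mul_left_Ioi (g (3 * r)) 0 three_pos, mul_zero, Complex.real_smul]
  push_cast
  ring

end St

end Pool.Agent.P.MP_20768c_nt.Tz.Cv

end

-- part Cv.B6
section

set_option autoImplicit false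

open Complex NumberField IsDedekindDomain Filter Topology
open UpperHalfPlane hiding I
open scoped ComplexConjugate Real MatrixGroups

namespace Pool.Agent.P.MP_20768c_nt.Tz.Cv

open Pool.Agent.P.MP_20768c_nt.Tz.EQ (Lt pr sp IsLat jL qN)

variable {Γ : Type} [LinearOrderedCommGroupWithZero Γ] {v : Valuation ℂ Γ} {L L' : Lt}
  {U r Q t z : ℂ} {c : ℕ}

theorem b6_sq {a b : Γ} (h : a ^ 2 = b ^ 2) : a = b :=
  (pow_left_inj₀ zero_le zero_le two_ne_zero).1 h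

theorem tht_unit (h : IsLat L) (hG : Good v L U r) (hc : Odd c) (h3 : c % 3 = 1)
    (hz : ¬ E1 v L U r (c * z)) : v (tht L c z) = 1 := by
  have hU : U ≠ 0 := hG.1
  have hc0 : (c : ℂ) ≠ 0 := Nat.cast_ne_zero.2 hc.pos.ne'
  have hci : (c : ℂ)⁻¹ ≠ 0 := inv_ne_zero hc0
  have hmul : ∀ y ∈ L, (c : ℂ) * y ∈ L := fun y hy => by
    have := L.smul_mem (c : ℤ) hy
    rwa [zsmul_eq_mul, Int.cast_natCast] at this
  have hmem : ∀ y : ℂ, y ∈ pr (c : ℂ)⁻¹ * L ↔ (c : ℂ) * y ∈ L := fun y => by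
    rw [← mul_mem_sc (L := L) hci, inv_mul_cancel_left₀ hc0]
  have hle : L ≤ pr (c : ℂ)⁻¹ * L := fun y hy => (hmem y).2 (hmul y hy)
  have h' : IsLat (pr (c : ℂ)⁻¹ * L) := isLat_of_le h hle hc.pos fun y hy => (hmem y).1 hy
  obtain ⟨R, hR⟩ := exists_reps h h' hle
  have e1 := iso_val h h' hR hG (good_sc hci hG)
  have e2 := xs_prod h hc hR fun e => max 1 (v (e / U + r))
  have hf := xs_finite h hc.pos
  have hE : ∀ w : ℂ, (c : ℂ) * w - c * z ∈ L → ¬ E1 v L U r w := fun w hw hE => by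
    have := E1_int h hG hE (c : ℤ)
    rw [Int.cast_natCast] at this
    exact hz ((E1_congr h hw).1 this)
  have e3 : v (∏ᶠ e ∈ XS L c, (wp L z / U - e / U)) = ∏ᶠ e ∈ XS L c, max 1 (v (e / U + r)) := by
    rw [finprod_mem_eq_finite_toFinset_prod _ hf, finprod_mem_eq_finite_toFinset_prod _ hf,
      map_prod]
    refine Finset.prod_congr rfl fun e he => ?_
    obtain ⟨s, hs, hs', rfl⟩ := hf.mem_toFinset.1 he
    have := xm_unit h hG (hE z (by rw [sub_self]; exact L.zero_mem)) hs'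
      (hE (z + s) (by rwa [mul_add, add_sub_cancel_left]))
      (hE (z - s) (by rw [mul_sub, sub_sub_cancel_left]; exact L.neg_mem hs))
    rw [xm, xm, add_sub_add_right_eq_sub] at this
    exact this
  have e4 : v c * ∏ᶠ e ∈ XS L c, max 1 (v (e / U + r)) = 1 := by
    apply b6_sq
    have hvU : v U ≠ 0 := (Valuation.ne_zero_iff v).2 hU
    rw [mul_pow, ← e2, one_pow]
    rw [inv_pow, div_inv_eq_mul, map_mul, map_pow, mul_assoc] at e1
    exact mul_left_cancel₀ hvU (e1.trans (mul_one _).symm)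
  rw [tht_eq h hc h3 hU, map_div₀, map_pow, hG.2.2.2.2.2, one_pow, map_mul, e3, e4, div_one]

theorem b6_div {x y : ℂ} (h : v (x - 1) < 1) (h' : v (y - 1) < 1) : v (x / y - 1) < 1 := by
  have k : v y = 1 := by
    have := v.map_one_add_of_lt h'
    rwa [add_sub_cancel] at this
  have n := b6p_ne k.ge
  rw [show x / y - 1 = ((x - 1) - (y - 1)) / y by field_simp; ring, map_div₀, k, div_one]
  exact v.map_sub_lt h h'

theorem b6_dom {R : Finset ℂ} (h0 : 0 ∈ R) (f : ℂ → ℂ) (n : f 0 ≠ 0)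
    (h : ∀ y ∈ R.erase 0, v (f y) ^ 2 < v (f 0) ^ 2) : v ((∑ y ∈ R, f y) / f 0 - 1) < 1 := by
  have p : 0 < v (f 0) := v.pos_iff.2 n
  rw [← Finset.add_sum_erase R f h0, add_div, div_self n, add_sub_cancel_left, map_div₀,
    div_lt_one₀ p]
  exact v.map_sum_lt p.ne' fun y hy => lt_of_pow_lt_pow_left₀ 2 zero_le (h y hy)

theorem st_loc (h : IsLat L) (h' : IsLat L') (hle : L ≤ L') (hG : Good v L U r) (h3 : v 3 < 1)
    (hb : v (mb2 r) = 1) (hE : ∀ y ∈ L', E1 v L U r y → y ∈ L) (ht : t ∉ L) (ht3 : 3 * t ∈ L)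
    (htE : E1 v L U r t) : v (st L' t / st L t - 1) < 1 := by
  obtain ⟨R, hR⟩ := exists_reps h h' hle
  obtain ⟨-, -, hU, hA, hC⟩ := (flex_can h hG h3 hb ht ht3 htE).1
  have ht' : t ∉ L' := fun k => ht (hE t k htE)
  have pU : 0 < v U := v.pos_iff.2 hU
  have p3 : 0 < v 3 := v.pos_iff.2 three_ne_zero
  have a0 := (flex_wpd h ht ht3).1
  have pa : 0 < v (wpd L t) := v.pos_iff.2 a0
  have A0 : fa L t ≠ 0 := fun k => by
    rw [k, zero_pow two_ne_zero, map_zero] at hA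
    exact (mul_pos p3 pU).ne hA
  have eN := fa_mul h ht ht3
  have N0 : 6 * wp L t ^ 2 - g2 L / 2 ≠ 0 := eN ▸ mul_ne_zero A0 a0
  have ix : ∀ y ∈ R.erase 0, t + y ∉ L ∧ xm L U r (t + y) ∈ v.integer := fun y hy => by
    obtain ⟨y0, yR⟩ := Finset.mem_erase.1 hy
    refine xm_le fun k => y0 (hR.sub_mem yR hR.2.1 ?_)
    have := E1_sub h hG k htE
    rw [add_sub_cancel_left] at this
    rw [sub_zero]
    exact hE y (hR.2.2.1 y yR) this
  obtain ⟨-, i2, i4, i6, -, -⟩ := hG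
  rw [← Valuation.mem_integer_iff] at i2 i4 i6
  have t2 : (2 : ℂ) ∈ v.integer := ofNat_mem _ 2
  have t4 : (4 : ℂ) ∈ v.integer := ofNat_mem _ 4
  have t6 : (6 : ℂ) ∈ v.integer := ofNat_mem _ 6
  rw [show (27 : ℂ) = 3 ^ 3 by norm_num, map_mul, map_pow, map_pow] at hC
  rw [map_pow] at hA
  have k1 := b6_dom (v := v) hR.2.1 (fun y => wpd L (t + y)) (by simpa using a0) fun y hy => by
    obtain ⟨n, i⟩ := ix y hy
    have : v (wpd L (t + y)) ^ 2 ≤ v U ^ 3 := by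
      rw [← map_pow, ← map_pow, b6p_a h hU r n]
      apply b6p_le
      apply_rules (transparency := .reducible) [pow_mem, add_mem, sub_mem, mul_mem, neg_mem]
    rw [add_zero]
    exact this.trans_lt (hC ▸ mul_lt_of_lt_one_left (pow_pos pa 2)
      (pow_lt_one₀ zero_le h3 (by norm_num)))
  have k2 := b6_dom (v := v) hR.2.1 (fun y => 6 * wp L (t + y) ^ 2 - g2 L / 2)
    (by simpa using N0) fun y hy => by
    obtain ⟨n, i⟩ := ix y hy
    have : v (6 * wp L (t + y) ^ 2 - g2 L / 2) ≤ v U ^ 2 := by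
      rw [← map_pow, b6p_P L hU r]
      apply b6p_le
      apply_rules (transparency := .reducible) [pow_mem, add_mem, sub_mem, mul_mem, neg_mem]
    refine (pow_le_pow_left₀ zero_le this 2).trans_lt ?_
    rw [add_zero, ← eN, map_mul, mul_pow, hA, show (v U ^ 2) ^ 2 = v U * v U ^ 3 by
      rw [← pow_mul, ← pow_succ'], ← hC, show v U * (v 3 ^ 3 * v (wpd L t) ^ 2) =
      v 3 ^ 2 * (v 3 * v U * v (wpd L t) ^ 2) by rw [pow_succ (v 3) 2]; ac_rfl]
    exact mul_lt_of_lt_one_left (mul_pos (mul_pos p3 pU) (pow_pos pa 2))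
      (pow_lt_one₀ zero_le h3 two_ne_zero)
  rw [← velu_wpd h' hR, add_zero] at k1
  rw [← velu_wpdd h h' hR ht', add_zero] at k2
  have e : st L' t / st L t = wpd L' t / wpd L t /
      ((6 * wp L' t ^ 2 - g2 L' / 2) / (6 * wp L t ^ 2 - g2 L / 2)) := by
    rw [st, st, fa, fa]
    generalize 6 * wp L' t ^ 2 - g2 L' / 2 = N'
    generalize 6 * wp L t ^ 2 - g2 L / 2 = N at N0
    rw [div_div_eq_mul_div, div_div_eq_mul_div, div_div_eq_mul_div]
    by_cases k : N' = 0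
    · simp [k]
    · field_simp
  rw [e]
  exact b6_div k1 k2

theorem good_lev3 (h : IsLat L) (h3 : v 3 = 1) (hj : v (jL L) ≤ 1) : ∃ U r, Good v L U r := by
  obtain ⟨Q, b, hQ, -, hi⟩ := exists_tors h (n := 3) (by norm_num)
  have n : Q ∉ L := fun k => by
    have := (hi 1 0 (by simpa using k)).1
    norm_num at this
  rw [Nat.cast_ofNat] at hQ
  have a0 := (flex_wpd h n hQ).1
  have e1 := hp3_one h n hQ
  have e2 := hp3_eq h n hQ
  have e3 := hp3_dl h n hQ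
  have v27 : v 27 = 1 := by rw [show (27 : ℂ) = 3 ^ 3 by norm_num, map_pow, h3, one_pow]
  have hv : v (hp3 L Q) = 1 := by
    have e := congrArg v e1
    rw [map_mul, map_mul, map_pow] at e
    rcases lt_trichotomy (v (hp3 L Q)) 1 with k | k | k
    · rw [v.map_add_eq_of_lt_right (v27 ▸ k), v.map_add_eq_of_lt_right (h3 ▸ k), v27, h3, one_pow,
        mul_one] at e
      exact absurd e ((mul_le_of_le_one_left' hj).trans_lt k).ne
    · exact k
    · rw [v.map_add_eq_of_lt_left (v27 ▸ k), v.map_add_eq_of_lt_left (h3 ▸ k)] at e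
      exact absurd e ((mul_le_of_le_one_left' hj).trans_lt
        (lt_mul_of_one_lt_right (zero_lt_one.trans k) (one_lt_pow₀ k (by norm_num)))).ne
  have hθ : v (hp3 L Q + 27) ≤ 1 := v.map_add_le hv.le v27.le
  obtain ⟨U, hU⟩ := IsAlgClosed.exists_pow_nat_eq (wpd L Q ^ 2) (n := 3) (by norm_num)
  have U0 : U ≠ 0 := fun k => pow_ne_zero 2 a0 (by rw [← hU, k]; norm_num)
  have x0 : xm L U (-(wp L Q / U)) Q = 0 := by rw [xm, add_neg_cancel]
  have b2 := b6p_A h U0 (-(wp L Q / U)) n hQ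
  have b4 := (fa_mul h n hQ).trans (b6p_P L U0 (-(wp L Q / U)) Q)
  have b6 := b6p_a h U0 (-(wp L Q / U)) n
  have b8 := b6p_rel L U (-(wp L Q / U))
  rw [x0] at b2 b4 b6
  refine ⟨U, -(wp L Q / U), U0, ?_⟩
  generalize mb2 (-(wp L Q / U)) = c2 at b2 b4 b6 b8 ⊢
  generalize mb4 L U (-(wp L Q / U)) = c4 at b4 b6 b8 ⊢
  generalize mb6 L U (-(wp L Q / U)) = c6 at b6 b8 ⊢
  generalize mb8 L U (-(wp L Q / U)) = c8 at b8 ⊢
  have d2 : fa L Q ^ 2 = U * c2 := by linear_combination b2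
  have d4 : fa L Q * wpd L Q = U ^ 2 * c4 := by linear_combination b4
  have d6 : c6 = 1 := by
    refine mul_left_cancel₀ (pow_ne_zero 3 U0) ?_
    linear_combination -hU - b6
  have d8 : c8 = 0 := by
    refine mul_left_cancel₀ (pow_ne_zero 4 U0) ?_
    have : (U ^ 2 * c4) ^ 2 = U * c2 * U ^ 3 := by rw [← d4, mul_pow, d2, hU]
    rw [d6] at b8
    linear_combination U ^ 4 / 4 * b8 - this / 4
  have f2 : c2 ^ 3 = (hp3 L Q + 27) ^ 2 := by
    refine mul_left_cancel₀ (pow_ne_zero 3 U0) ?_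
    rw [← mul_pow, ← d2, hU, ← mul_pow, mul_comm (wpd L Q), e2]
    ring
  have f4 : c4 ^ 3 = hp3 L Q + 27 := by
    refine mul_left_cancel₀ (pow_ne_zero 3 (pow_ne_zero 2 U0)) ?_
    rw [← mul_pow, ← d4, mul_pow, ← e2, pow_right_comm, hU]
    ring
  refine ⟨(pow_le_one_iff (n := 3) (by norm_num)).1 ?_, (pow_le_one_iff (n := 3) (by norm_num)).1 ?_,
    by rw [d6, map_one], by simp [d8], ?_⟩
  · rw [← map_pow, f2, map_pow]
    exact pow_le_one' hθ 2
  · rw [← map_pow, f4]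
    exact hθ
  · rw [← e3, show U ^ 6 = (U ^ 3) ^ 2 by ring, hU, ← pow_mul,
      mul_div_cancel_right₀ _ (pow_ne_zero _ a0), hv]

theorem Et.cube (hE : Et v L Q U) : v (wpd L Q) = v (fa L Q) ^ 3 := by
  obtain ⟨-, -, -, hA, ha⟩ := hE
  apply b6_sq
  rw [← map_pow, ha, ← hA, map_pow, pow_right_comm]

theorem Ca.cube (hC : Ca v L Q U) : v (fa L Q) ^ 3 = v (27 * wpd L Q) := by
  obtain ⟨-, -, -, hA, ha⟩ := hC
  apply b6_sq
  rw [pow_right_comm, ← map_pow, hA, mul_pow, ← ha, ← map_pow, ← map_mul, ← map_pow]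
  congr 1
  ring

theorem Et.hp3 (h : IsLat L) (h3 : v 3 < 1) (hE : Et v L Q U) : v (hp3 L Q) = 1 := by
  have e := congrArg v (hp3_eq h hE.1 hE.2.1)
  rw [map_mul, map_pow, ← hE.cube] at e
  have u := (mul_eq_right₀ ((v.ne_zero_iff).2 (flex_wpd h hE.1 hE.2.1).1)).1 e
  have := b6p_unit h3 u (neg_mem (ofNat_mem v.integer 9))
  rwa [show Cv.hp3 L Q + 27 + 3 * -9 = Cv.hp3 L Q by ring] at this

theorem b6_rot (h : IsLat L) {Λ : Lt} (h' : IsLat Λ) {x : ℂ} (e : pr x * Λ = Λ)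
    (hj : jL Λ = jL L) : pr x * L = L := by
  obtain ⟨c, -, rfl⟩ := Pool.Agent.P.MP_20768c_nt.Tz.EQ.jL_inj h' h hj
  rw [mul_left_comm, e]

theorem b6_sp {x : ℂ} {a : ℤ} (hx : x ^ 2 + a * x + 1 = 0) : pr x * sp 1 (1 * x) = sp 1 (1 * x) := by
  rw [Pool.Agent.P.MP_20768c_nt.Tz.EQ.pr_mul_sp]
  ext y
  rw [Pool.Agent.P.MP_20768c_nt.Tz.EQ.mem_sp, Pool.Agent.P.MP_20768c_nt.Tz.EQ.mem_sp]
  constructor
  · rintro ⟨m, n, rfl⟩
    exact ⟨-n, m - a * n, by push_cast; linear_combination (n : ℂ) * hx⟩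
  · rintro ⟨m, n, rfl⟩
    exact ⟨n - a * m, -m, by push_cast; linear_combination (m : ℂ) * hx⟩

theorem rot_g2 (h : IsLat L) (e : g2 L = 0) : ∃ x : ℂ, x ^ 2 + x + 1 = 0 ∧ pr x * L = L := by
  let τ : ℍ := ⟨⟨-1 / 2, Real.sqrt 3 / 2⟩, by positivity⟩
  have s3 : Real.sqrt 3 * Real.sqrt 3 = 3 := Real.mul_self_sqrt (by norm_num)
  have hx : (τ : ℂ) ^ 2 + τ + 1 = 0 := by
    apply Complex.ext
    · simp only [τ, pow_two, add_re, mul_re, one_re, zero_re]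
      linear_combination -s3 / 4
    · simp only [τ, pow_two, add_im, mul_im, one_im, zero_im]
      ring
  have l : IsLat (sp 1 (1 * (τ : ℂ))) := ⟨1, τ, one_ne_zero, rfl⟩
  have k := b6_sp (x := τ) (a := 1) (by push_cast; linear_combination hx)
  have g := g2_sc (sp 1 (1 * (τ : ℂ))) τ.ne_zero
  rw [k, eq_div_iff (pow_ne_zero 4 τ.ne_zero)] at g
  refine ⟨τ, hx, b6_rot h l k ?_⟩
  rw [jL_eq h, jL_eq l, e, show g2 (sp 1 (1 * (τ : ℂ))) = 0 by
    linear_combination -((τ : ℂ) + 2) / 3 * g +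
      g2 (sp 1 (1 * (τ : ℂ))) * ((τ : ℂ) ^ 3 + τ ^ 2 - 2 * τ + 1) / 3 * hx]
  simp

theorem rot_g3 (h : IsLat L) (e : g3 L = 0) : pr I * L = L := by
  have l : IsLat (sp 1 (1 * I)) := ⟨1, UpperHalfPlane.I, one_ne_zero, rfl⟩
  have k := b6_sp (x := I) (a := 0) (by simp)
  have g := g3_sc (sp 1 (1 * I)) I_ne_zero
  rw [k, show I ^ 6 = -1 by rw [show I ^ 6 = (I ^ 2) ^ 3 by ring, I_sq]; norm_num] at g
  have key : ∀ M : Lt, IsLat M → g3 M = 0 → jL M = 1728 := fun M hM k => by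
    rw [jL_eq hM, div_eq_iff (dl_ne hM), dl, k]
    ring
  exact b6_rot h l k ((key _ l (by linear_combination g / 2)).trans (key _ h e).symm)

end Pool.Agent.P.MP_20768c_nt.Tz.Cv

end

-- part Cv.B4_p
section

set_option autoImplicit false

open Complex NumberField IsDedekindDomain Filter Topology
open UpperHalfPlane hiding I
open scoped ComplexConjugate Real MatrixGroups

namespace Pool.Agent.P.MP_20768c_nt.Tz.Cv

open Pool.Agent.P.MP_20768c_nt.Tz.EQ (Lt pr sp IsLat jL qN)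

theorem b4p_nat {F Γ : Type} [Field F] [LinearOrderedCommGroupWithZero Γ] (v : Valuation F Γ)
    (n : ℕ) : v (n : F) ≤ 1 := by
  induction n with
  | zero => simp
  | succ n ih =>
    rw [Nat.cast_succ]
    exact v.map_add_le ih v.map_one.le

theorem b4p_lit {F Γ : Type} [Field F] [LinearOrderedCommGroupWithZero Γ] (v : Valuation F Γ)
    (n : ℕ) [n.AtLeastTwo] : v (ofNat(n) : F) ≤ 1 := b4p_nat v n

theorem b4p_mul {F Γ : Type} [Field F] [LinearOrderedCommGroupWithZero Γ] (v : Valuation F Γ)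
    {x y : F} (hx : v x ≤ 1) (hy : v y ≤ 1) : v (x * y) ≤ 1 := by
  rw [map_mul]
  exact mul_le_one' hx hy

theorem b4p_three {F Γ : Type} [Field F] [LinearOrderedCommGroupWithZero Γ] (v : Valuation F Γ)
    {x : F} (hx : v x ≤ 1) : v (3 * x) ≤ v 3 := by
  rw [map_mul]
  exact mul_le_of_le_one_right' hx

theorem b4p_pow {F Γ : Type} [Field F] [LinearOrderedCommGroupWithZero Γ] (v : Valuation F Γ)
    {x : F} (hx : v x ≤ 1) (n : ℕ) : v (x ^ n) ≤ 1 := by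
  rw [map_pow]
  exact pow_le_one' hx n

theorem cyc {F Γ : Type} [Field F] [LinearOrderedCommGroupWithZero Γ] (v : Valuation F Γ)
    (a g : ℕ → F) {r : ℕ} (hr : 0 < r) (ha : ∀ i, a (i + r) = a i) (hg : ∀ i, g (i + r) = g i)
    (h0 : (729 : F) ≠ 0) (h1 : ∀ i, a i * g (i + 1) = 729)
    (h2 : ∀ i, a i * g i * (a i ^ 2 + a i * g i + g i ^ 2 + 36 * (a i + g i) + 270) = 729) (i : ℕ) :
    v (a i) ≤ 1 ∧ v (g i) ≤ 1 ∧ v (a i ^ 2 + a i * g i + g i ^ 2 + 36 * (a i + g i) + 270) = 1 := by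
  have n1 : v 729 ≤ 1 := b4p_lit v 729
  have n2 : v 36 ≤ 1 := b4p_lit v 36
  have n3 : v 270 ≤ 1 := b4p_lit v 270
  have a0 : ∀ i, a i ≠ 0 := fun i e => h0 (by rw [← h1 i, e, zero_mul])
  have g0 : ∀ i, g i ≠ 0 := fun i e => h0 (by rw [← h2 i, e, mul_zero, zero_mul])
  have e1 : ∀ i, a i = a (i + 1) * (a (i + 1) ^ 2 + (a (i + 1) * (g (i + 1) + 36) +
      (g (i + 1) * (g (i + 1) + 36) + 270))) := fun i =>
    mul_right_cancel₀ (g0 (i + 1)) (by linear_combination h1 i - h2 (i + 1))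
  have e2 : ∀ i, g (i + 1) = g i * (a i ^ 2 + a i * g i + g i ^ 2 + 36 * (a i + g i) + 270) :=
    fun i => mul_left_cancel₀ (a0 i) (by linear_combination h1 i - h2 i)
  have sq : ∀ {x y z : F}, z = x * (x ^ 2 + (x * (y + 36) + (y * (y + 36) + 270))) → v y ≤ 1 →
      1 < v z → 1 < v x ∧ v x < v z := by
    intro x y z e hy hz
    have y1 : v (y + 36) ≤ 1 := v.map_add_le hy n2
    have y2 : v (y * (y + 36) + 270) ≤ 1 := v.map_add_le (b4p_mul v hy y1) n3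
    have hx : 1 < v x := by
      by_contra hx
      have hx' := not_lt.1 hx
      refine hz.not_ge ?_
      rw [e]
      exact b4p_mul v hx' (v.map_add_le (b4p_pow v hx' 2) (v.map_add_le (b4p_mul v hx' y1) y2))
    have x0 : 0 < v x := zero_lt_one.trans hx
    have x2 : v x < v (x ^ 2) := by
      rw [map_pow, pow_two]
      exact lt_mul_of_one_lt_right x0 hx
    have x3 : v (x * (y + 36) + (y * (y + 36) + 270)) ≤ v x := by
      refine v.map_add_le ?_ (y2.trans hx.le)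
      rw [map_mul]
      exact mul_le_of_le_one_right' y1
    refine ⟨hx, ?_⟩
    rw [e, map_mul, v.map_add_eq_of_lt_left (x3.trans_lt x2)]
    exact lt_mul_of_one_lt_right x0 (hx.trans x2)
  obtain ⟨r, rfl⟩ := Nat.exists_eq_add_of_lt hr
  rw [zero_add] at ha hg
  have A : ∀ i, v (a i) ≤ 1 := by
    have st : ∀ i, 1 < v (a i) → 1 < v (a (i + 1)) ∧ v (a (i + 1)) < v (a i) := fun i h => by
      refine sq (e1 i) ?_ h
      by_contra hc
      refine n1.not_gt ?_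
      rw [← h1 i, map_mul]
      exact one_lt_mul'' h (not_le.1 hc)
    intro i
    by_contra hc
    have key : ∀ n, 1 < v (a (i + (n + 1))) ∧ v (a (i + (n + 1))) < v (a i) := fun n => by
      induction n with
      | zero => exact st i (not_le.1 hc)
      | succ n ih => exact ⟨(st _ ih.1).1, (st _ ih.1).2.trans ih.2⟩
    exact (key r).2.ne (by rw [ha])
  have G : ∀ i, v (g i) ≤ 1 := by
    have st : ∀ i, 1 < v (g (i + 1)) → 1 < v (g i) ∧ v (g i) < v (g (i + 1)) := fun i h =>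
      sq (y := a i) (by rw [e2 i]; ring) (A i) h
    intro i
    by_contra hc
    have key : ∀ n, 1 < v (g (i + (n + 1))) → v (g i) < v (g (i + (n + 1))) := fun n => by
      induction n with
      | zero => exact fun h => (st i h).2
      | succ n ih => exact fun h => (ih (st _ h).1).trans (st _ h).2
    exact (key r (by rw [hg]; exact not_le.1 hc)).ne (by rw [hg])
  have U : ∀ i, v (a i ^ 2 + a i * g i + g i ^ 2 + 36 * (a i + g i) + 270) ≤ 1 := fun i =>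
    v.map_add_le (v.map_add_le (v.map_add_le (v.map_add_le (b4p_pow v (A i) 2)
      (b4p_mul v (A i) (G i))) (b4p_pow v (G i) 2)) (b4p_mul v n2 (v.map_add_le (A i) (G i)))) n3
  have M : Antitone fun i => v (g i) := antitone_nat_of_succ_le fun i => by
    rw [e2 i, map_mul]
    exact mul_le_of_le_one_right' (U i)
  refine ⟨A i, G i, ?_⟩
  have h3 : v (g (i + (r + 1))) ≤ v (g (i + 1)) := M (by omega)
  have h4 : v (g (i + 1)) = v (g i) := le_antisymm (M (Nat.le_succ i)) (by rwa [hg] at h3)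
  rw [e2 i, map_mul] at h4
  exact mul_left_cancel₀ (v.ne_zero_iff.2 (g0 i)) (h4.trans (mul_one _).symm)

namespace St

variable (s : St) {Γ : Type} [LinearOrderedCommGroupWithZero Γ] (v : Valuation ℂ Γ)
  {L M : s.Sub} {U r z y : ℂ}

theorem b4p_rot (hL : IsUnit L) {x : ℂ} (e : pr x * s.zl L = s.zl L) : x = 1 ∨ x = -1 := by
  rw [← s.zl_sc] at e
  have e1 : s.sc x * L = L := le_antisymm (s.zl_le.1 e.le) (s.zl_le.1 e.ge)
  exact s.sc_eq_one (hL.mul_right_cancel (e1.trans (one_mul L).symm))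

theorem g23_ne (hL : IsUnit L) : g2 (s.zl L) ≠ 0 ∧ g3 (s.zl L) ≠ 0 := by
  refine ⟨fun e => ?_, fun e => ?_⟩
  · obtain ⟨x, hx, e⟩ := rot_g2 (s.isLat_zl hL) e
    rcases s.b4p_rot hL e with h | h <;>
    · rw [h] at hx
      norm_num at hx
  · have := I_sq
    rcases s.b4p_rot hL (rot_g3 (s.isLat_zl hL) e) with h | h <;>
    · rw [h] at this
      norm_num at this

theorem UU_ne (hL : IsUnit L) : UU (s.zl L) ≠ 0 := by
  obtain ⟨a, b⟩ := s.g23_ne hL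
  exact div_ne_zero (mul_ne_zero (by norm_num) b) a

theorem b4p_ind (hL : IsUnit L) {q : Ideal s.O} (hq : q = s.p1 ∨ q = s.p2) {t t' : ℂ}
    (h : t ∈ L * s.inv q) (k : t ∉ L) (h' : t' ∈ L * s.inv q) (k' : t' ∉ L) :
    hp3 (s.zl L) t' = hp3 (s.zl L) t :=
  hp3_congr (s.isLat_zl hL)
    ((((s.three_of_mem hL hq h k).2.2 t').1 (s.mem_zl.2 h')).resolve_left
      fun e => k' (s.mem_zl.1 e))

theorem b4p_not (hy : s.Gen3 L y) : y ∉ s.zl L := fun e =>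
  hy.2.1 (s.c_mul_mem s.w (s.mem_zl.1 e))

theorem b4p_key (hL : IsUnit L) : ∃ a g : ℂ, v a ≤ 1 ∧ v g ≤ 1 ∧
    v (a ^ 2 + a * g + g ^ 2 + 36 * (a + g) + 270) = 1 ∧
    a * g * (a ^ 2 + a * g + g ^ 2 + 36 * (a + g) + 270) = 729 ∧
    jL (s.zl L) = 756 + (a ^ 3 + a ^ 2 * g + a * g ^ 2 + g ^ 3) + 36 * (a ^ 2 + a * g + g ^ 2) +
      270 * (a + g) := by
  have u1 := s.isUnit_inv s.p1_ne
  let Ls : ℕ → s.Sub := fun i => L * s.inv s.p1 ^ i
  have hu : ∀ i, IsUnit (Ls i) := fun i => hL.mul (u1.pow i)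
  have hs : ∀ i, Ls (i + 1) = Ls i * s.inv s.p1 := fun i => by
    simp only [Ls, pow_succ, mul_assoc]
  choose t₁ h1 k1 using fun i => s.exists_three (hu i) (Or.inl rfl)
  choose t₂ h2 k2 using fun i => s.exists_three (hu i) (Or.inr rfl)
  obtain ⟨r, hr, hx⟩ := s.exists_pow
  obtain ⟨x, x0, hx⟩ := hx _ u1
  have per : ∀ {q : Ideal s.O}, q = s.p1 ∨ q = s.p2 → ∀ t : ℕ → ℂ, (∀ i, t i ∈ Ls i * s.inv q) →
      (∀ i, t i ∉ Ls i) → ∀ i, hp3 (s.zl (Ls (i + r))) (t (i + r)) = hp3 (s.zl (Ls i)) (t i) := by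
    intro q hq t h k i
    have e : Ls (i + r) = s.sc x * Ls i := by
      simp only [Ls]
      rw [pow_add, hx, ← mul_assoc, mul_comm]
    rw [s.b4p_ind (hu (i + r)) hq (t := x * t i)
      (by rw [e, mul_assoc]; exact (s.mul_mem_sc' x0).2 (h i))
      (by rw [e]; exact fun c => k i ((s.mul_mem_sc' x0).1 c)) (h _) (k _), e, s.zl_sc,
      hp3_sc _ x0]
  have rel := fun i => hp3_rel (s.isLat_zl (hu i)) (fun e => k1 i (s.mem_zl.1 e))
    (s.mem_zl.2 (s.mem_inv_p1.1 (h1 i)).1) (fun e => k2 i (s.mem_zl.1 e))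
    (s.mem_zl.2 (s.mem_inv_p2.1 (h2 i)).1) (s.b4p_not (s.gen3_add (h1 i) (k1 i) (h2 i) (k2 i)))
    (by
      rw [sub_eq_add_neg]
      exact s.b4p_not (s.gen3_add (h1 i) (k1 i) (neg_mem (h2 i))
        fun e => k2 i (by simpa using neg_mem e)))
    (s.g23_ne (hu i)).1 (s.g23_ne (hu i)).2 rfl rfl
  have key := cyc v (fun i => hp3 (s.zl (Ls i)) (t₁ i)) (fun i => hp3 (s.zl (Ls i)) (t₂ i)) hr
    (per (Or.inl rfl) t₁ h1 k1) (per (Or.inr rfl) t₂ h2 k2) (by norm_num)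
    (fun i => by
      have a := h2 (i + 1)
      have b := k2 (i + 1)
      rw [hs] at a b ⊢
      rw [mul_assoc, ← s.inv_mul s.p1_ne s.p2_ne, s.p1_mul_p2,
        s.mem_mul_inv (by simp)] at a
      have c := a 3 (Ideal.mem_span_singleton_self _)
      rw [show s.c 3 = 3 by exact_mod_cast s.c_nat 3] at c
      exact hp3_dual (s.isLat_zl (hu i)) (s.three_of_mem (hu i) (Or.inl rfl) (h1 i) (k1 i))
        (s.mem_zl.2 c) fun e => b (s.mem_zl.1 e))
    (fun i => (rel i).1) 0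
  have e0 : Ls 0 = L := by simp only [Ls, pow_zero, mul_one]
  exact ⟨_, _, key.1, key.2.1, key.2.2, (rel 0).1, e0 ▸ (rel 0).2⟩

theorem j_int (hL : IsUnit L) : v (jL (s.zl L)) ≤ 1 := by
  obtain ⟨a, g, ha, hg, -, -, e⟩ := s.b4p_key v hL
  rw [e]
  exact v.map_add_le (v.map_add_le (v.map_add_le (b4p_lit v 756) (v.map_add_le (v.map_add_le
    (v.map_add_le (b4p_pow v ha 3) (b4p_mul v (b4p_pow v ha 2) hg)) (b4p_mul v ha (b4p_pow v hg 2)))
    (b4p_pow v hg 3))) (b4p_mul v (b4p_lit v 36) (v.map_add_le (v.map_add_le (b4p_pow v ha 2)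
    (b4p_mul v ha hg)) (b4p_pow v hg 2)))) (b4p_mul v (b4p_lit v 270) (v.map_add_le ha hg))

theorem j_unit (h3 : v 3 < 1) (hL : IsUnit L) :
    v (jL (s.zl L)) = 1 ∧ v (jL (s.zl L) - 1728) = 1 := by
  obtain ⟨a, g, ha, hg, hu, e1, e⟩ := s.b4p_key v hL
  have t3 : ∀ {x : ℂ}, v x ≤ 1 → v (3 * x) < 1 := fun hx => (b4p_three v hx).trans_lt h3
  have p : v (a + g) ≤ 1 := v.map_add_le ha hg
  have ag : v (a * g) < 1 := by
    have := congrArg v e1
    rw [map_mul, hu, mul_one, show (729 : ℂ) = 3 * 243 by norm_num] at this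
    exact this ▸ t3 (b4p_lit v 243)
  have p1 : v (a + g) = 1 := by
    by_contra hc
    refine hu.not_lt ?_
    rw [show a ^ 2 + a * g + g ^ 2 + 36 * (a + g) + 270 =
      (a + g) * (a + g + 36) - a * g + 3 * 90 by ring]
    refine v.map_add_lt (v.map_sub_lt ?_ ag) (t3 (b4p_lit v 90))
    rw [map_mul]
    exact (mul_le_of_le_one_right' (v.map_add_le p (b4p_lit v 36))).trans_lt (lt_of_le_of_ne p hc)
  have p3 : v ((a + g) ^ 3) = 1 := by rw [map_pow, p1, one_pow]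
  have j1 : v (jL (s.zl L)) = 1 := by
    rw [e, show 756 + (a ^ 3 + a ^ 2 * g + a * g ^ 2 + g ^ 3) + 36 * (a ^ 2 + a * g + g ^ 2) +
      270 * (a + g) = (a + g) ^ 3 + (3 * (252 + (a + g) * (12 * (a + g) + 90)) -
        a * g * (2 * (a + g) + 36)) by ring, v.map_add_eq_of_lt_left, p3]
    rw [p3]
    refine v.map_sub_lt (t3 (v.map_add_le (b4p_lit v 252) (b4p_mul v p (v.map_add_le
      (b4p_mul v (b4p_lit v 12) p) (b4p_lit v 90))))) ?_
    rw [map_mul]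
    exact (mul_le_of_le_one_right' (v.map_add_le (b4p_mul v (b4p_lit v 2) p)
      (b4p_lit v 36))).trans_lt ag
  have b : v 1728 < 1 := by
    rw [show (1728 : ℂ) = 3 * 576 by norm_num]
    exact t3 (b4p_lit v 576)
  exact ⟨j1, by rw [v.map_sub_eq_of_lt_left (j1 ▸ b), j1]⟩

theorem good_three (h3 : v 3 < 1) (hL : IsUnit L) : Good v (s.zl L) (UU (s.zl L)) (-1 / 12) := by
  obtain ⟨a, b⟩ := s.j_unit v h3 hL
  exact good_can (s.isLat_zl hL) a b

theorem exists_good (hL : IsUnit L) : ∃ U r, Good v (s.zl L) U r := by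
  rcases (b4p_lit v 3).eq_or_lt with h | h
  · exact good_lev3 (s.isLat_zl hL) h (s.j_int v hL)
  · exact ⟨_, _, s.good_three v h hL⟩

end St

end Pool.Agent.P.MP_20768c_nt.Tz.Cv

end

-- part Cv.I5b
section

set_option autoImplicit false

open Complex NumberField IsDedekindDomain Filter Topology
open UpperHalfPlane hiding I
open scoped ComplexConjugate Real MatrixGroups

namespace Pool.Agent.P.MP_20768c_nt.Tz.Cv

open Pool.Agent.P.MP_20768c_nt.Tz.EQ (Lt pr sp IsLat jL qN)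

open CongruenceSubgroup

variable {M : ℕ} [NeZero M]

theorem i5b_im (τ : ℍ) : ∀ᶠ w in 𝓝 (τ : ℂ), 0 < w.im :=
  (isOpen_lt continuous_const Complex.continuous_im).mem_nhds τ.im_pos

theorem i5b_of (τ : ℍ) : ∀ᶠ w in 𝓝[≠] (τ : ℂ), ((ofComplex w : ℍ) : ℂ) = w := by
  filter_upwards [nhdsWithin_le_nhds (i5b_im τ)] with w hw
  rw [ofComplex_apply_of_im_pos hw]

theorem i5b_der {F : ℍ → ℂ} {E : ℂ → ℂ} (hE : IsEich F E) {w : ℂ} (hw : 0 < w.im) :
    HasDerivAt E (F (ofComplex w)) w := by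
  rw [ofComplex_apply_of_im_pos hw]
  exact hE.1 ⟨w, hw⟩

omit [NeZero M] in
theorem i5b_tend (F : CuspForm (Gamma1 M) 2) (hF : F ≠ 0) {E : ℂ → ℂ} (hE : IsEich F E) (τ : ℍ) :
    Tendsto (fun w => 2 * π * I * E w) (𝓝[≠] (τ : ℂ)) (𝓝[≠] (2 * π * I * E τ)) := by
  have ho : IsOpen {z : ℂ | 0 < z.im} := isOpen_lt continuous_const Complex.continuous_im
  have hd : DifferentiableOn ℂ E {z : ℂ | 0 < z.im} := fun z hz =>
    (i5b_der hE hz).differentiableAt.differentiableWithinAt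
  have ha : AnalyticAt ℂ E τ := hd.analyticAt (ho.mem_nhds τ.im_pos)
  have h2 : (2 * π * I : ℂ) ≠ 0 := two_pi_I_ne_zero
  refine tendsto_nhdsWithin_iff.2 ⟨?_, ?_⟩
  · exact (ha.continuousAt.tendsto.const_mul _).mono_left nhdsWithin_le_nhds
  · rcases ha.eventually_eq_or_eventually_ne (g := fun _ => E τ) analyticAt_const with h | h
    · exfalso
      apply hF
      have h3 : ∀ᶠ w in 𝓝 (τ : ℂ), F (ofComplex w) = 0 := by
        filter_upwards [h.eventually_nhds, i5b_im τ] with w hw hi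
        have e : HasDerivAt E 0 w := (hasDerivAt_const w (E τ)).congr_of_eventuallyEq hw
        exact (i5b_der hE hi).unique e
      have h4 : ∀ᶠ z in 𝓝 τ, F z = 0 := by
        have := continuous_coe.continuousAt.tendsto.eventually h3
        simpa only [ofComplex_apply] using this
      have h5 : (⇑F : ℍ → ℂ) = 0 := eq_zero_of_frequently (CuspFormClass.holo F) (τ := τ)
        (Eventually.frequently (nhdsWithin_le_nhds h4))
      exact DFunLike.coe_injective h5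
    · filter_upwards [h] with w hw
      exact fun e => hw (mul_left_cancel₀ h2 e)

theorem i5b_inj {v : Valuation ℂ NNReal} {z : ℂ} {K : Type} [Field K] (W : VD v z K) :
    Function.Injective W.g := W.g.injective

theorem manin_core (hM : 3 ≤ M) {v : Valuation ℂ NNReal} {τ : ℍ}
    {K : Type} [Field K] (W : VD v τ K) (F : CuspForm (Gamma1 M) 2) (hF : F ≠ 0) {E : ℂ → ℂ}
    (hE : IsEich F E) {f : K}
    (hf : W.g f = ((⇑F ∘ ofComplex : ℂ → ℂ) : Filter.Germ (𝓝[≠] (τ : ℂ)) ℂ)) {L : Lt}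
    (hL : IsLat L) (hP : ∀ γ ∈ Gamma1 M, Pe F γ ∈ L) {Q : ℂ} (hQ : Q ∉ L) (h3 : 3 * Q ∈ L) :
    ∃ x y A a : K, y ≠ 0 ∧ W.V A = v (fa L Q) ∧ W.V a = v (wpd L Q) ∧
      W.V (27 * a) = v (27 * wpd L Q) ∧
      W.g y = ((fun w => fy L Q (2 * π * I * E w) : ℂ → ℂ) : Filter.Germ _ ℂ) ∧
      y ^ 2 + A * x * y + a * y = x ^ 3 ∧ W.D x = f * (2 * y + A * x + a) ∧
      W.D y = f * (3 * x ^ 2 - A * y) ∧ ∀ᶠ w in 𝓝[≠] (τ : ℂ), 2 * π * I * E w ∉ L := by
  obtain ⟨e, eg, ev, -⟩ := W.const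
  have hev : ∀ t : ℂ, ∀ᶠ w in 𝓝[≠] (τ : ℂ), 2 * π * I * E w - t ∉ L := fun t => by
    have := (i5b_tend F hF hE τ).eventually (compl_nhds hL {t} (2 * π * I * E τ))
    simpa only [Finset.mem_singleton, forall_eq] using this
  have hev0 : ∀ᶠ w in 𝓝[≠] (τ : ℂ), 2 * π * I * E w ∉ L := by simpa only [sub_zero] using hev 0
  have hg : ∀ Φ : ℂ → ℂ, (∀ z, MeromorphicAt Φ z) → (∀ z, ∀ l ∈ L, Φ (z + l) = Φ z) →
      ∃ p, W.g p = ((fun w => Φ (2 * π * I * E w) : ℂ → ℂ) : Filter.Germ _ ℂ) := by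
    intro Φ h1 h2
    have hmer : Mer M fun τ => Φ (2 * π * I * E τ) := by
      refine ⟨mer0_comp F hE h1, fun γ hγ z => ?_⟩
      simp only
      rw [pe_eich F hE hγ, add_comm, h2 _ _ (hP γ hγ)]
    obtain ⟨p, hp⟩ := W.mer hM hmer
    refine ⟨p, ?_⟩
    rw [hp, Germ.coe_eq]
    filter_upwards [i5b_of τ] with w hw
    simp only [Function.comp_apply, hw]
  obtain ⟨x, gx⟩ := hg (fun z => wp L z - wp L Q)
    (fun z => (meromorphic_wp hL z).sub (MeromorphicAt.const _ z)) fun z l hl => by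
      rw [wp_add hL z hl]
  obtain ⟨y, gy⟩ := hg (fy L Q) (meromorphic_fy hL Q) fun z l hl => fy_add hL Q z hl
  have h2 : (2 * π * I : ℂ) ≠ 0 := two_pi_I_ne_zero
  refine ⟨x, y, e (fa L Q), e (wpd L Q), fun k => ?_, ev _, ev _, ?_, gy, ?_, ?_, ?_, hev0⟩
  · rw [k, map_zero, ← Germ.coe_zero, Germ.coe_eq] at gy
    obtain ⟨w, w1, w2, w3, w4⟩ := (gy.and ((hev Q).and ((hev (-Q)).and hev0))).exists
    have c := fy_curve hL hQ h3 w4
    rw [← show (0 : ℂ) = fy L Q (2 * π * I * E w) from w1] at c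
    have c2 : (wp L (2 * π * I * E w) - wp L Q) ^ 3 = 0 := by linear_combination -c
    rcases wp_inj hL w4 hQ (sub_eq_zero.1 (pow_eq_zero_iff (by norm_num) |>.1 c2)) with c | c
    · exact w2 c
    · exact w3 (by rwa [sub_neg_eq_add])
  · rw [← map_ofNat e 27, ← map_mul, ev]
  · apply i5b_inj W
    simp only [map_add, map_mul, map_pow, gx, gy, eg, ← Germ.coe_pow, ← Germ.coe_mul,
      ← Germ.coe_add, Germ.coe_eq]
    filter_upwards [hev0] with w w1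
    exact fy_curve hL hQ h3 w1
  · apply i5b_inj W
    rw [W.der x _ gx, ← map_ofNat e 2]
    simp only [map_add, map_mul, gx, gy, eg, hf, ← Germ.coe_mul, ← Germ.coe_add, Germ.coe_eq]
    filter_upwards [hev0, nhdsWithin_le_nhds (i5b_im τ)] with w w1 w2
    have d := ((hasDerivAt_wp hL w1).sub_const (wp L Q)).comp w
      ((i5b_der hE w2).const_mul (2 * π * I))
    have d' : deriv (fun w => wp L (2 * π * I * E w) - wp L Q) w = _ := d.deriv
    simp only [Pi.add_apply, Pi.mul_apply, Function.comp_apply]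
    rw [d', ← fy_wpd L Q]
    field_simp
  · apply i5b_inj W
    rw [W.der y _ gy, ← map_ofNat e 3]
    simp only [map_sub, map_mul, map_pow, gx, gy, eg, hf, ← Germ.coe_pow, ← Germ.coe_mul,
      ← Germ.coe_sub, Germ.coe_eq]
    filter_upwards [hev0, nhdsWithin_le_nhds (i5b_im τ)] with w w1 w2
    have d := (hasDerivAt_fy hL hQ h3 w1).comp w ((i5b_der hE w2).const_mul (2 * π * I))
    have d' : deriv (fun w => fy L Q (2 * π * I * E w)) w = _ := d.deriv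
    simp only [Pi.sub_apply, Pi.mul_apply, Pi.pow_apply, Function.comp_apply]
    rw [d']
    field_simp

theorem i5b_v3 {v : Valuation ℂ NNReal} (h3 : v 3 < 1) {τ : ℍ} {K : Type} [Field K]
    (W : VD v τ K) : W.V 3 < 1 := by
  obtain ⟨e, -, ve, -⟩ := W.const
  rwa [← map_ofNat e 3, ve]

theorem manin_et (hM : 3 ≤ M) {v : Valuation ℂ NNReal} (h3 : v 3 < 1) {τ : ℍ}
    {K : Type} [Field K] (W : VD v τ K) (F : CuspForm (Gamma1 M) 2) (hF : F ≠ 0) {E : ℂ → ℂ}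
    (hE : IsEich F E) {f : K}
    (hf : W.g f = ((⇑F ∘ ofComplex : ℂ → ℂ) : Filter.Germ (𝓝[≠] (τ : ℂ)) ℂ)) {L : Lt}
    (hL : IsLat L) (hP : ∀ γ ∈ Gamma1 M, Pe F γ ∈ L) {Q U : ℂ} (hQ : Et v L Q U) :
    ∃ y : K, y ≠ 0 ∧ W.g y = ((fun w => fy L Q (2 * π * I * E w) : ℂ → ℂ) : Filter.Germ _ ℂ) ∧
      v U * W.V f ^ 2 ≤ 1 ∧ (W.V (W.D y) < W.V y → v U * W.V f ^ 2 < 1) ∧
      ∀ᶠ w in 𝓝[≠] (τ : ℂ), 2 * π * I * E w ∉ L := by
  obtain ⟨x, y, A, a, y0, vA, va, -, gy, c, d1, d2, ev⟩ :=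
    manin_core hM W F hF hE hf hL hP hQ.1 hQ.2.1
  have e : W.V A ^ 2 = v U := by rw [vA, ← map_pow, hQ.2.2.2.1]
  have A0 : A ≠ 0 := fun k => by
    rw [k, map_zero, zero_pow two_ne_zero] at e
    exact (v.ne_zero_iff.2 hQ.2.2.1) e.symm
  have key := vdf_et W.V (i5b_v3 h3 W) y0 A0 (by rw [vA, va, hQ.cube]) c d1 d2 (W.le x) (W.le y)
  have hφ : W.V (A * f) ^ 2 = v U * W.V f ^ 2 := by rw [map_mul, mul_pow, e]
  rw [← hφ]
  exact ⟨y, y0, gy, pow_le_one₀ zero_le key.1,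
    fun h => pow_lt_one₀ zero_le (key.2 h) two_ne_zero, ev⟩

theorem manin_can (hM : 3 ≤ M) {v : Valuation ℂ NNReal} (h3 : v 3 < 1) {τ : ℍ}
    {K : Type} [Field K] (W : VD v τ K) (F : CuspForm (Gamma1 M) 2) (hF : F ≠ 0) {E : ℂ → ℂ}
    (hE : IsEich F E) {f : K}
    (hf : W.g f = ((⇑F ∘ ofComplex : ℂ → ℂ) : Filter.Germ (𝓝[≠] (τ : ℂ)) ℂ)) {L : Lt}
    (hL : IsLat L) (hP : ∀ γ ∈ Gamma1 M, Pe F γ ∈ L) {Q U : ℂ} (hQ : Ca v L Q U)
    (h1 : v U * W.V f ^ 2 ≤ 1) :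
    ∃ y : K, y ≠ 0 ∧ W.g y = ((fun w => fy L Q (2 * π * I * E w) : ℂ → ℂ) : Filter.Germ _ ℂ) ∧
      W.V (W.D y) < W.V y := by
  obtain ⟨x, y, A, a, y0, vA, -, va, gy, c, d1, d2, -⟩ :=
    manin_core hM W F hF hE hf hL hP hQ.1 hQ.2.1
  have e : W.V A ^ 2 = v 3 * v U := by rw [vA, ← map_pow, hQ.2.2.2.1]
  have A0 : A ≠ 0 := fun k => by
    rw [k, map_zero, zero_pow two_ne_zero] at e
    exact mul_ne_zero (v.ne_zero_iff.2 three_ne_zero) (v.ne_zero_iff.2 hQ.2.2.1) e.symm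
  refine ⟨y, y0, gy, vdf_can W.V (i5b_v3 h3 W) y0 A0 (by rw [vA, va, hQ.cube]) c d1 d2 (W.le x)
    ((pow_lt_one_iff (n := 2) two_ne_zero).1 ?_)⟩
  rw [map_mul, mul_pow, e, mul_assoc]
  exact (mul_le_of_le_one_right' h1).trans_lt h3

theorem i5b_three (ι : ℂ →+* ℂ_[3]) : ((NormedField.valuation (K := ℂ_[3])).comap ι) 3 < 1 := by
  have h : ‖((3 : ℕ) : ℂ_[3])‖ < 1 := by
    rw [← map_natCast (algebraMap ℚ_[3] ℂ_[3]), norm_algebraMap']
    exact Padic.norm_p_lt_one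
  rw [Valuation.comap_apply, map_ofNat, NormedField.valuation_apply]
  exact h

omit [NeZero M] in
theorem i5b_zero {F : CuspForm (Gamma1 M) 2} (hF : F = 0) {a : ℕ → ℂ}
    (hs : ∀ τ : ℍ, HasSum (fun n => a n * qN 1 τ ^ n) (F τ)) (n : ℕ) : a n = 0 := by
  have := Pool.Agent.P.MP_20768c_nt.Tz.EQ.vqs_unique (N := 1) (f := ⇑F) one_pos (b := fun _ => 0) hs (fun τ => by
    simp [hF])
  exact congrFun this n

theorem i5b_eich (F : CuspForm (Gamma1 M) 2) : ∃ E, IsEich F E := by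
  simpa [IsEich] using slash_prim F 1

theorem manin_a (hM : 3 ≤ M) (ι : ℂ →+* ℂ_[3]) (F : CuspForm (Gamma1 M) 2) {a : ℕ → ℂ}
    {Λ : Submodule ℤ ℂ} (hΛ : Λ.FG) (ha : ∀ n, a n ∈ Λ)
    (hs : ∀ τ : ℍ, HasSum (fun n => a n * qN 1 τ ^ n) (F τ)) {L : Lt} (hL : IsLat L)
    (hP : ∀ γ ∈ Gamma1 M, Pe F γ ∈ L) {Q U : ℂ}
    (hE : Et ((NormedField.valuation (K := ℂ_[3])).comap ι) L Q U) (n : ℕ) :
    ((NormedField.valuation (K := ℂ_[3])).comap ι) (U * a n ^ 2) ≤ 1 := by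
  by_cases hF : F = 0
  · rw [i5b_zero hF hs n]
    simp
  obtain ⟨K, _, ⟨W⟩⟩ := exists_vd ι UpperHalfPlane.I
  obtain ⟨f, hf, hv, -⟩ := W.ser F a Λ hΛ ha hs
  obtain ⟨E, hE'⟩ := i5b_eich F
  obtain ⟨y, -, -, h1, -⟩ := manin_et hM (i5b_three ι) W F hF hE' hf hL hP hE
  rw [map_mul, map_pow]
  exact (mul_le_mul_right (pow_le_pow_left₀ zero_le (hv n) 2) _).trans h1

theorem i5b_flex {L L₀ : Lt} {T Q : ℂ} (h : IsLat L₀) (hT : Three L₀ L T) (h3 : 3 * Q ∈ L₀)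
    (hQ : Q ∉ L) : ∃ P, P ∉ L ∧ 3 * P ∈ L ∧ fa L P ^ 2 = fa L Q ^ 2 ∧ wpd L P ^ 2 = wpd L Q ^ 2 ∧
      ∀ z, z ∉ L → cov L₀ T z ^ 3 = -fy L P z := by
  obtain ⟨P, n, k, e1, -, e2⟩ := cov_cube h hT
  have h' := hT.isLat h
  have e3 : fa L P ^ 2 = fa L Q ^ 2 := by
    rw [e1, fa_sq h' hQ (hT.le h3), three_dual h hT h3 hQ, flex_wp h hT.1 hT.2.1]
    linear_combination fa L₀ T ^ 2 * r3_sq
  refine ⟨P, n, k, e3, ?_, e2⟩
  rw [wpd_sq h' n, wpd_sq h' hQ, flex_wp h' n k, flex_wp h' hQ (hT.le h3), e3]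

theorem i5b_cov {L L' : Lt} {T T' l l' : ℂ} (h : 3 * T ∈ L) (h' : 3 * T' ∈ L')
    (k : l ∈ L ∧ l' ∈ L' ∨ l - T ∈ L ∧ l' + T' ∈ L' ∨ l + T ∈ L ∧ l' - T' ∈ L') (z z' : ℂ) :
    cov L T (l + z) * cov L' T' (l' + z') = cov L T z * cov L' T' z' := by
  rcases k with ⟨a, b⟩ | ⟨a, b⟩ | ⟨a, b⟩
  · rw [add_comm l, add_comm l', cov_add L T z a, cov_add L' T' z' b]
  · rw [show l + z = z + T + (l - T) by ring, show l' + z' = z' - T' + (l' + T') by ring,
      cov_add L T _ a, cov_add L' T' _ b, (cov_tr h z).1, (cov_tr h' z').2]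
    linear_combination cov L T z * cov L' T' z' * zt1_cube
  · rw [show l + z = z - T + (l + T) by ring, show l' + z' = z' + T' + (l' - T') by ring,
      cov_add L T _ a, cov_add L' T' _ b, (cov_tr h z).2, (cov_tr h' z').1]
    linear_combination cov L T z * cov L' T' z' * zt1_cube

theorem manin_b (hM : 3 ≤ M) (ι : ℂ →+* ℂ_[3]) (F : CuspForm (Gamma1 M) 2) {a : ℕ → ℂ}
    {Λ : Submodule ℤ ℂ} (hΛ : Λ.FG) (ha : ∀ n, a n ∈ Λ)
    (hs : ∀ τ : ℍ, HasSum (fun n => a n * qN 1 τ ^ n) (F τ)) {L L₀ Lc : Lt} (hL : IsLat L₀)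
    {T Q Q' U U' : ℂ} (hT : Three L₀ L T) (h3 : 3 * Q ∈ L₀) (hc : ∀ y, y ∈ Lc ↔ conj y ∈ L)
    {e : ℤ} (he : e = 1 ∨ e = -1)
    (hP : ∀ γ ∈ Gamma1 M, Pe F γ ∈ L ∧ Pe F γ - e * Pe F (posC γ) ∈ L₀)
    (hE : Et ((NormedField.valuation (K := ℂ_[3])).comap ι) L Q U)
    (hC : Ca ((NormedField.valuation (K := ℂ_[3])).comap ι) Lc (conj Q) U')
    (hE' : Et ((NormedField.valuation (K := ℂ_[3])).comap ι) Lc Q' U') (n : ℕ) :
    ((NormedField.valuation (K := ℂ_[3])).comap ι) (U * a n ^ 2) < 1 := by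
  by_cases hF : F = 0
  · rw [i5b_zero hF hs n]
    simp
  obtain ⟨F', hF'⟩ := exists_conjF F
  have n' : F' ≠ 0 := fun h => hF (by
    ext z
    have := hF' (posJ z)
    have e : posJ (posJ z) = z := by
      apply UpperHalfPlane.ext
      simp [posJ]
    rw [h, e] at this
    simpa using this.symm)
  let cj : ℂ →ₗ[ℤ] ℂ := (starRingEnd ℂ).toAddMonoidHom.toIntLinearMap
  let L₁ : Lt := L₀.comap cj
  have c1 : ∀ y, y ∈ L₁ ↔ conj y ∈ L₀ := fun y => Iff.rfl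
  have l1 : IsLat L₁ := isLat_conj hL c1
  have l2 : IsLat L := hT.isLat hL
  have l3 : IsLat Lc := isLat_conj l2 hc
  have hT0 : Three L₁ Lc (conj T) := by
    refine ⟨?_, ?_, fun x => ?_⟩
    · rw [c1, conj_conj]; exact hT.1
    · rw [c1, map_mul, conj_conj, map_ofNat]; exact hT.2.1
    · rw [hc, c1, c1, c1, map_sub, map_add, conj_conj]; exact hT.2.2 _
  have hT' : Three L₁ Lc (-(e * conj T)) := by
    rcases he with rfl | rfl
    · simpa using hT0.neg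
    · simpa using hT0
  have h3' : 3 * conj Q ∈ L₁ := by rw [c1, map_mul, conj_conj, map_ofNat]; exact h3
  obtain ⟨P, p1, p2, p3, p4, p5⟩ := i5b_flex hL hT h3 hE.1
  obtain ⟨P', q1, q2, q3, q4, q5⟩ := i5b_flex l1 hT' h3' hC.1
  obtain ⟨K, _, ⟨W⟩⟩ := exists_vd ι UpperHalfPlane.I
  obtain ⟨f, hf, hv, -⟩ := W.ser F a Λ hΛ ha hs
  obtain ⟨f', hf', -, -⟩ := W.ser F' (fun n => conj (a n)) (Λ.map cj) (hΛ.map cj)
    (fun n => Submodule.mem_map_of_mem (f := cj) (ha n)) (exp_conj hF' hs)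
  obtain ⟨E, hEi⟩ := i5b_eich F
  obtain ⟨E', hEi'⟩ := i5b_eich F'
  have hP' : ∀ γ ∈ Gamma1 M, Pe F' γ ∈ Lc := fun γ h => by
    rw [pe_conj hF', hc, conj_conj]
    exact (hP _ (posC_mem h)).1
  obtain ⟨y, y0, gy, -, h1, ev⟩ := manin_et hM (i5b_three ι) W F hF hEi hf l2
    (fun γ h => (hP γ h).1) (Q := P) ⟨p1, p2, hE.2.2.1, p3 ▸ hE.2.2.2.1, p4 ▸ hE.2.2.2.2⟩
  obtain ⟨-, -, -, h2, -, ev'⟩ := manin_et hM (i5b_three ι) W F' n' hEi' hf' l3 hP' hE'
  obtain ⟨x, x0, gx, h4⟩ := manin_can hM (i5b_three ι) W F' n' hEi' hf' l3 hP' (Q := P')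
    ⟨q1, q2, hC.2.2.1, q3 ▸ hC.2.2.2.1, q4 ▸ hC.2.2.2.2⟩ h2
  have hmer : Mer M fun τ =>
      cov L₀ T (2 * π * I * E τ) * cov L₁ (-(e * conj T)) (2 * π * I * E' τ) := by
    refine ⟨(mer0_comp F hEi (cov_mer hL hT)).mul (mer0_comp F' hEi' (cov_mer l1 hT')),
      fun γ hγ z => ?_⟩
    simp only
    rw [pe_eich F hEi hγ, pe_eich F' hEi' hγ, pe_conj hF']
    obtain ⟨b1, b2⟩ := hP γ hγ
    have e2 : (e : ℂ) * e = 1 := by rcases he with rfl | rfl <;> simp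
    have m : ∀ y ∈ L₀, (e : ℂ) * y ∈ L₀ := fun y hy => by
      simpa only [zsmul_eq_mul] using L₀.smul_mem e hy
    refine i5b_cov hT.2.1 hT'.2.1 ?_ _ _
    simp only [c1, map_add, map_sub, map_neg, map_mul, map_intCast, conj_conj]
    refine ((hT.2.2 _).1 b1).imp (fun c => ⟨c, ?_⟩) (Or.imp (fun c => ⟨c, ?_⟩) fun c => ⟨c, ?_⟩)
    all_goals
      convert m _ (sub_mem c b2) using 1
      linear_combination -Pe F (posC γ) * e2
  obtain ⟨H, hH⟩ := W.mer hM hmer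
  have hsq : H ^ 3 = y * x := by
    apply i5b_inj W
    rw [map_pow, map_mul, hH, gx, gy, ← Germ.coe_pow, ← Germ.coe_mul, Germ.coe_eq]
    filter_upwards [ev, ev', i5b_of UpperHalfPlane.I] with w w1 w2 w3
    simp only [Pi.pow_apply, Pi.mul_apply, Function.comp_apply, w3]
    rw [mul_pow, p5 _ w1, q5 _ w2, neg_mul_neg]
  have h5 := h1 (vdf_log W.V W.D W.mul W.le (i5b_v3 (i5b_three ι) W) y0 x0 hsq h4)
  rw [map_mul, map_pow]
  exact (mul_le_mul_right (pow_le_pow_left₀ zero_le (hv n) 2) _).trans_lt h5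

end Pool.Agent.P.MP_20768c_nt.Tz.Cv

end
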