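import Pool.Agent.P.MP_20768c_nt.Tz.Z7
import Pool.Agent.P.MP_20768c_nt.Tz.Z8
import Pool.Agent.P.MP_20768c_nt.Tz.Z9

-- part Cv.E4a
section

set_option autoImplicit false

open Complex NumberField IsDedekindDomain Filter Topology
open UpperHalfPlane hiding I
open scoped ComplexConjugate Real MatrixGroups

namespace Pool.Agent.P.MP_20768c_nt.Tz.Cv

open Pool.Agent.P.MP_20768c_nt.Tz.EQ (Lt pr sp IsLat jL qN)

variable {Γ : Type} [LinearOrderedCommGroupWithZero Γ]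

namespace St

variable {s : St} {v : Valuation ℂ Γ} {σ τ : s.Au} {n : ℕ} {x y : ℂ}
  {sb : (ZMod (3 ^ n))ˣ → s.Au}

theorem exists_fx (s : St) (n : ℕ) : ∃ T : IntermediateField s.k ℂ, ∀ x, x ∈ T ↔ x ∈ s.Fx n := by
  refine ⟨{ carrier := s.Fx n
            mul_mem' := fun {a b} ha hb => ⟨ha.1.mul hb.1, fun σ h1 h2 => ?_⟩
            one_mem' := ⟨isAlgebraic_one, fun σ _ _ => map_one σ⟩
            add_mem' := fun {a b} ha hb => ⟨ha.1.add hb.1, fun σ h1 h2 => ?_⟩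
            zero_mem' := ⟨isAlgebraic_zero, fun σ _ _ => map_zero σ⟩
            algebraMap_mem' := fun r => ⟨?_, fun σ _ _ => σ.commutes r⟩
            inv_mem' := fun a ha => ⟨ha.1.inv, fun σ h1 h2 => ?_⟩ }, fun _ => Iff.rfl⟩
  · rw [map_mul, ha.2 σ h1 h2, hb.2 σ h1 h2]
  · rw [map_add, ha.2 σ h1 h2, hb.2 σ h1 h2]
  · exact s.alg_of_mem ⊥ (IntermediateField.algebraMap_mem ⊥ r)
  · rw [map_inv₀, ha.2 σ h1 h2]

theorem fx_zt (s : St) (n : ℕ) : zt n ∈ s.Fx n := by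
  exact ⟨zt_alg n, fun _ _ h => h⟩

theorem fx_mono {n' : ℕ} (h : n ≤ n') (hx : x ∈ s.Fx n) : x ∈ s.Fx n' := by
  obtain ⟨j, rfl⟩ := Nat.exists_eq_add_of_le h
  refine ⟨hx.1, fun σ h1 h2 => hx.2 σ h1 ?_⟩
  rw [← zt_pow_three n j, map_pow, h2]

theorem fx_aut (h : Inert s.v τ) (hx : x ∈ s.Fx n) : τ x ∈ s.Fx n := by
  refine ⟨s.au_alg τ hx.1, fun σ h1 h2 => ?_⟩
  obtain ⟨b, hb⟩ := hom_zt (τ : ℂ →+* ℂ) n
  have hb' : τ (zt n) = zt n ^ (b : ZMod (3 ^ n)).val := hb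
  have e := hx.2 (τ⁻¹ * (σ * τ)) (inert_mul (inert_inv h) (inert_mul h1 h)) (by
    rw [AlgEquiv.mul_apply, AlgEquiv.mul_apply, AlgEquiv.aut_inv, AlgEquiv.symm_apply_eq, hb',
      map_pow, h2])
  rw [AlgEquiv.mul_apply, AlgEquiv.mul_apply, AlgEquiv.aut_inv, AlgEquiv.symm_apply_eq] at e
  exact e

theorem fx_eq (h : Inert s.v σ) (h' : Inert s.v τ) (e : σ (zt n) = τ (zt n)) (hx : x ∈ s.Fx n) :
    σ x = τ x := by
  have e' := hx.2 (τ⁻¹ * σ) (inert_mul (inert_inv h') h) (by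
    rw [AlgEquiv.mul_apply, AlgEquiv.aut_inv, AlgEquiv.symm_apply_eq, e])
  rw [AlgEquiv.mul_apply, AlgEquiv.aut_inv, AlgEquiv.symm_apply_eq] at e'
  exact e'

theorem fx_zero (hx : x ∈ s.Fx 0) (h : Inert s.v σ) : σ x = x := by
  refine hx.2 σ h ?_
  have e : zt 0 = 1 := by simpa using zt_pow 0
  rw [e, map_one]

theorem fx_val (hx : x ∈ s.Fx 0) (h0 : x ≠ 0) : ∃ j : ℤ, s.v x = s.v 3 ^ j := by
  obtain ⟨y, hy, e⟩ := s.val_fixed ⊥ s.v hx.1 fun σ h _ => fx_zero hx h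
  obtain ⟨r, rfl⟩ := IntermediateField.mem_bot.1 hy
  have h1 : algebraMap s.k ℂ r ≠ 0 := by
    intro h
    rw [h, map_zero] at e
    exact h0 ((Valuation.zero_iff _).1 e)
  rw [e]
  exact s.v_k_val s.v s.v_three r.2 h1

theorem e4a_val (v : Valuation ℂ NNReal) (h0 : v 3 ≠ 0) (h2 : v 3 < 1) {π' : ℂ} {N : ℕ}
    (ht : v π' ^ N = v 3) {a : ℕ → ℂ} (ha : ∀ i, a i ≠ 0 → ∃ j : ℤ, v (a i) = v 3 ^ j)
    (hs : v (∑ i ∈ Finset.range N, a i * π' ^ i) ≤ 1) {i : ℕ} (hi : i < N) : v (a i) ≤ 1 := by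
  have t0 : v π' ≠ 0 := by
    intro h
    rw [h, zero_pow (by omega)] at ht
    exact h0 ht.symm
  have t0' : 0 < v π' := pos_iff_ne_zero.2 t0
  have t1 : v π' < 1 := by
    by_contra h
    have := one_le_pow₀ (n := N) (not_lt.1 h)
    rw [ht] at this
    exact absurd h2 (not_lt.2 this)
  have key : ∀ i, a i ≠ 0 → ∃ j : ℤ, v (a i) = v 3 ^ j ∧ v (a i * π' ^ i) = v π' ^ (N * j + i) := by
    intro i h
    obtain ⟨j, hj⟩ := ha i h
    refine ⟨j, hj, ?_⟩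
    rw [map_mul, map_pow, hj, ← ht, zpow_add₀ t0, zpow_mul, zpow_natCast, zpow_natCast]
  obtain ⟨i₀, h₀, hm⟩ := Finset.exists_max_image (Finset.range N) (fun i => v (a i * π' ^ i))
    ⟨i, Finset.mem_range.2 hi⟩
  by_cases hz : a i = 0
  · rw [hz, map_zero]
    exact zero_le
  obtain ⟨j, hj, hj'⟩ := key i hz
  have hpos : 0 < v (a i₀ * π' ^ i₀) :=
    lt_of_lt_of_le (by rw [hj']; exact zpow_pos t0' _) (hm i (Finset.mem_range.2 hi))
  have hz₀ : a i₀ ≠ 0 := by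
    intro h
    rw [h, zero_mul, map_zero] at hpos
    exact lt_irrefl _ hpos
  obtain ⟨j₀, -, hj₀⟩ := key i₀ hz₀
  have hsum : v (∑ i ∈ Finset.range N, a i * π' ^ i) = v (a i₀ * π' ^ i₀) := by
    refine v.map_sum_eq_of_lt h₀ fun l hl => ?_
    rw [Finset.mem_sdiff, Finset.mem_singleton] at hl
    refine lt_of_le_of_ne (hm l hl.1) fun e => ?_
    by_cases hl0 : a l = 0
    · rw [← e, hl0, zero_mul, map_zero] at hpos
      exact lt_irrefl _ hpos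
    obtain ⟨j', -, hj''⟩ := key l hl0
    rw [hj'', hj₀] at e
    have e' := zpow_right_injective₀ t0' t1.ne e
    have a1 : (l : ℤ) < N := by exact_mod_cast Finset.mem_range.1 hl.1
    have a2 : (i₀ : ℤ) < N := by exact_mod_cast Finset.mem_range.1 h₀
    have a3 : j' = j₀ := by
      rcases lt_trichotomy j' j₀ with h | h | h
      · have : (N : ℤ) * (j' + 1) ≤ N * j₀ := mul_le_mul_of_nonneg_left h (by positivity)
        rw [mul_add, mul_one] at this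
        omega
      · exact h
      · have : (N : ℤ) * (j₀ + 1) ≤ N * j' := mul_le_mul_of_nonneg_left h (by positivity)
        rw [mul_add, mul_one] at this
        omega
    rw [a3] at e'
    exact hl.2 (by omega)
  have hle : v π' ^ (N * j + i) ≤ 1 := by
    rw [← hj']
    exact (hm i (Finset.mem_range.2 hi)).trans (hsum ▸ hs)
  have hge : 0 ≤ (N : ℤ) * j + i := (zpow_le_one_iff_right_of_lt_one₀ t0' t1).1 hle
  have hj0 : 0 ≤ j := by
    by_contra h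
    have a1 : (i : ℤ) < N := by exact_mod_cast hi
    have : (N : ℤ) * (j + 1) ≤ N * 0 := mul_le_mul_of_nonneg_left (by omega) (by positivity)
    rw [mul_add, mul_one, mul_zero] at this
    omega
  rw [hj]
  exact zpow_le_one₀ (pos_iff_ne_zero.2 h0) h2.le hj0

theorem e4a_poly (hn : 1 ≤ n) (hy : y ∈ s.Fx n) : ∃ P : Polynomial ℂ,
    P.natDegree < 2 * 3 ^ (n - 1) ∧ (∀ i, P.coeff i ∈ s.Fx 0) ∧ P.eval (1 - zt n) = y := by
  classical
  obtain ⟨T, hT⟩ := s.exists_fx n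
  obtain ⟨sb, hs⟩ := s.exists_sec n
  have hz : zt n ∈ T := (hT _).2 (s.fx_zt n)
  let u : (ZMod (3 ^ n))ˣ → T := fun b =>
    ⟨1 - zt n ^ (b : ZMod (3 ^ n)).val, sub_mem (one_mem T) (pow_mem hz _)⟩
  let r : (ZMod (3 ^ n))ˣ → T := fun b => ⟨sb b y, (hT _).2 (fx_aut (hs b).1 hy)⟩
  have hu' : Function.Injective fun b : (ZMod (3 ^ n))ˣ => 1 - zt n ^ (b : ZMod (3 ^ n)).val := by
    intro b b' h
    have h1 : zt n ^ (((b : ZMod (3 ^ n)).val : ℕ) : ℤ) = zt n ^ (((b' : ZMod (3 ^ n)).val : ℕ) : ℤ) := by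
      rw [zpow_natCast, zpow_natCast]
      exact sub_right_injective h
    have h2 := zt_congr.1 h1
    rw [Int.cast_natCast, Int.cast_natCast, ZMod.natCast_zmod_val, ZMod.natCast_zmod_val] at h2
    exact Units.ext h2
  have hu : Function.Injective u := fun b b' h => hu' (congrArg Subtype.val h)
  let P₀ : Polynomial T := Lagrange.interpolate Finset.univ u r
  let P : Polynomial ℂ := P₀.map (algebraMap T ℂ)
  have hcard : (Finset.univ : Finset (ZMod (3 ^ n))ˣ).card = 2 * 3 ^ (n - 1) := by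
    rw [Finset.card_univ, ← Nat.card_eq_fintype_card, card_units hn]
  have hdeg : P.degree < (Finset.univ : Finset (ZMod (3 ^ n))ˣ).card :=
    lt_of_le_of_lt Polynomial.degree_map_le (Lagrange.degree_interpolate_lt r hu.injOn)
  have hev : ∀ b : (ZMod (3 ^ n))ˣ, P.eval (1 - zt n ^ (b : ZMod (3 ^ n)).val) = sb b y := by
    intro b
    have e := Lagrange.eval_interpolate_at_node r hu.injOn (Finset.mem_univ b)
    have e' : P.eval (algebraMap T ℂ (u b)) = algebraMap T ℂ (r b) := by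
      rw [Polynomial.eval_map, Polynomial.eval₂_at_apply, e]
    exact e'
  have hmul : ∀ b c : (ZMod (3 ^ n))ˣ, (zt n ^ (c : ZMod (3 ^ n)).val) ^ (b : ZMod (3 ^ n)).val =
      zt n ^ ((b * c : (ZMod (3 ^ n))ˣ) : ZMod (3 ^ n)).val := by
    intro b c
    rw [← pow_mul, ← zpow_natCast]
    refine (zt_val ?_).symm
    rw [Int.cast_natCast, Nat.cast_mul, ZMod.natCast_zmod_val, ZMod.natCast_zmod_val, Units.val_mul,
      mul_comm]
  refine ⟨P, ?_, fun i => ⟨?_, fun τ hτ _ => ?_⟩, ?_⟩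
  · by_cases h0 : P = 0
    · rw [h0, Polynomial.natDegree_zero]
      positivity
    · rw [Polynomial.natDegree_lt_iff_degree_lt h0, ← hcard]
      exact hdeg
  · rw [Polynomial.coeff_map]
    exact ((hT _).1 (P₀.coeff i).2).1
  · obtain ⟨c, hc⟩ := hom_zt (τ : ℂ →+* ℂ) n
    have hc' : τ (zt n) = zt n ^ (c : ZMod (3 ^ n)).val := hc
    have e : P.map (τ : ℂ →+* ℂ) = P := by
      refine Polynomial.eq_of_degrees_lt_of_eval_index_eq Finset.univ hu'.injOn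
        (lt_of_le_of_lt Polynomial.degree_map_le hdeg) hdeg fun b' _ => ?_
      obtain ⟨b, rfl⟩ : ∃ b, b' = b * c := ⟨b' * c⁻¹, by rw [inv_mul_cancel_right]⟩
      have e1 : 1 - zt n ^ ((b * c : (ZMod (3 ^ n))ˣ) : ZMod (3 ^ n)).val =
          (τ : ℂ →+* ℂ) (1 - zt n ^ (b : ZMod (3 ^ n)).val) := by
        rw [map_sub, map_one, map_pow, hc, hmul]
      rw [hev, e1, Polynomial.eval_map, Polynomial.eval₂_at_apply, hev]
      refine fx_eq (σ := τ * sb b) (inert_mul hτ (hs b).1) (hs _).1 ?_ hy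
      rw [AlgEquiv.mul_apply, (hs b).2, map_pow, hc', hmul, (hs _).2]
    have e' := congrArg (fun Q => Q.coeff i) e
    simp only [Polynomial.coeff_map] at e'
    exact e'
  · have e1 : zt n ^ (((1 : (ZMod (3 ^ n))ˣ) : ZMod (3 ^ n))).val = zt n := by
      rw [zt_val (a := 1) (by simp), zpow_one]
    have e := hev 1
    rw [e1] at e
    rw [e]
    exact hy.2 _ (hs 1).1 (by rw [(hs 1).2, e1])

theorem fx_exp (hn : 1 ≤ n) (hy : y ∈ s.Fx n) (hv : s.v y ≤ 1) : ∃ a : ℕ → ℂ,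
    (∀ i, a i ∈ s.Fx 0 ∧ s.v (a i) ≤ 1) ∧
      y = ∑ i ∈ Finset.range (2 * 3 ^ (n - 1)), a i * (1 - zt n) ^ i := by
  obtain ⟨P, hd, hc, he⟩ := e4a_poly hn hy
  have hN : 0 < 2 * 3 ^ (n - 1) := by positivity
  have hy' : y = ∑ i ∈ Finset.range (2 * 3 ^ (n - 1)), P.coeff i * (1 - zt n) ^ i := by
    rw [← he, Polynomial.eval_eq_sum_range' hd]
  refine ⟨fun i => P.coeff i, fun i => ⟨hc i, ?_⟩, hy'⟩
  by_cases hi : i < 2 * 3 ^ (n - 1)
  · have ht : s.v (1 - zt n) ^ (2 * 3 ^ (n - 1)) = s.v 3 := by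
      simpa using v_one_sub s.v hn (b := 1) (by norm_num)
    have h20 : s.v 3 ≠ 0 := (Valuation.ne_zero_iff _).2 three_ne_zero
    refine e4a_val s.v h20 s.v_three ht (fun i h => fx_val (hc i) h) ?_ hi
    rw [← hy']
    exact hv
  · have e : P.coeff i = 0 := Polynomial.coeff_eq_zero_of_natDegree_lt (by omega)
    rw [show (fun i => P.coeff i) i = 0 from e, map_zero]
    exact zero_le

theorem cube_mem (hn : 1 ≤ n) {n' : ℕ} (h : x ^ 3 ∈ s.Fx n) (h' : x ∈ s.Fx n') :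
    ∃ j : ℕ, zt (n + 1) ^ j * x ∈ s.Fx n := by
  obtain ⟨T, hT⟩ := s.exists_fx (n + (n' + 1))
  have hodd : ¬ (3 : ℤ) ∣ 1 + 3 ^ n := fun e =>
    absurd ((Int.dvd_add_left (dvd_pow_self 3 (by omega))).1 e) (by norm_num)
  obtain ⟨b, hb⟩ := (unit_cop (n := n + (n' + 1)) (by omega)).2 hodd
  obtain ⟨σ₀, h0, h1⟩ := s.exists_inert (n + (n' + 1)) b
  rw [zt_val hb.symm] at h1
  have hlev : ∀ (σ : s.Au) (a : ℤ), σ (zt (n + (n' + 1))) = zt (n + (n' + 1)) ^ a →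
      σ (zt n) = zt n ^ a := by
    intro σ a e
    rw [← zt_pow_three n (n' + 1), map_pow, e, ← zpow_natCast, ← zpow_natCast, ← zpow_mul,
      ← zpow_mul, mul_comm]
  have h2 : σ₀ (zt n) = zt n := by
    rw [hlev σ₀ _ h1, zpow_add₀ (zt_ne n), zpow_one]
    have : zt n ^ (3 ^ n : ℤ) = 1 := by exact_mod_cast zt_pow n
    rw [this, mul_one]
  have h3 : σ₀ (zt (n + 1)) = zt 1 * zt (n + 1) := by
    have e : zt (n + (n' + 1)) ^ 3 ^ n' = zt (n + 1) := by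
      rw [← zt_pow_three (n + 1) n', show n + 1 + n' = n + (n' + 1) by ring]
    have e2 : zt (n + 1) ^ (3 ^ n : ℤ) = zt 1 := by
      exact_mod_cast zt_third (n := n + 1) (by omega)
    rw [← e, map_pow, h1, ← zpow_natCast, ← zpow_mul, mul_comm, zpow_mul, zpow_natCast, e,
      zpow_add₀ (zt_ne _), zpow_one, e2, mul_comm]
  have hpow : ∀ i : ℕ, (σ₀ ^ i) (zt (n + (n' + 1))) = zt (n + (n' + 1)) ^ (1 + 3 ^ n : ℤ) ^ i := by
    intro i
    induction i with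
    | zero => simp
    | succ i ih => rw [pow_succ', AlgEquiv.mul_apply, ih, map_zpow₀, h1, ← zpow_mul, pow_succ']
  have main : ∀ z ∈ s.Fx (n + (n' + 1)), σ₀ z = z → z ∈ s.Fx n := by
    intro z hz e
    refine ⟨hz.1, fun σ k1 k2 => ?_⟩
    obtain ⟨c, hc⟩ := hom_zt (σ : ℂ →+* ℂ) (n + (n' + 1))
    have hc' : σ (zt (n + (n' + 1))) =
        zt (n + (n' + 1)) ^ (((c : ZMod (3 ^ (n + (n' + 1)))).val : ℕ) : ℤ) := by
      rw [zpow_natCast]
      exact hc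
    have k3 := hlev σ _ hc'
    rw [k2] at k3
    have k4 := zt_congr.1 (k3.symm.trans (zpow_one _).symm)
    have k5 : (((c : ZMod (3 ^ (n + (n' + 1)))).val : ℕ) : ℤ) ≡ 1 [ZMOD 3 ^ n] := by
      have := (ZMod.intCast_eq_intCast_iff _ _ _).1 k4
      exact_mod_cast this
    obtain ⟨i, -, hi⟩ := gen_pow (u := 1 + 3 ^ n) (o := 1) hn (by rw [mul_one]) (by norm_num) k5
      (n' + 1)
    have k6 : σ (zt (n + (n' + 1))) = (σ₀ ^ i) (zt (n + (n' + 1))) := by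
      rw [hc', hpow]
      refine zt_congr.2 ((ZMod.intCast_eq_intCast_iff _ _ _).2 ?_)
      exact_mod_cast hi
    rw [fx_eq k1 (inert_pow h0 i) k6 hz]
    clear k6 hi
    induction i with
    | zero => rfl
    | succ i ih => rw [pow_succ, AlgEquiv.mul_apply, e, ih]
  have hx : x ∈ s.Fx (n + (n' + 1)) := fx_mono (by omega) h'
  have e : σ₀ x ^ 3 = x ^ 3 := by rw [← map_pow, h.2 σ₀ h0 h2]
  rcases eq_or_ne x 0 with rfl | x0
  · exact ⟨0, by rw [mul_zero]; exact ⟨isAlgebraic_zero, fun σ _ _ => map_zero σ⟩⟩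
  obtain ⟨i, hi⟩ := cube_one (x := σ₀ x / x) (by rw [div_pow, e, div_self (pow_ne_zero 3 x0)])
  rw [div_eq_iff x0] at hi
  refine ⟨2 * i, main _ ((hT _).1 (mul_mem (pow_mem ((hT _).2 ?_) _) ((hT _).2 hx))) ?_⟩
  · exact fx_mono (by omega) (s.fx_zt (n + 1))
  · have e3 : (zt 1 ^ 3) ^ i = 1 := by rw [zt1_cube, one_pow]
    rw [map_mul, map_pow, h3, hi]
    linear_combination zt (n + 1) ^ (2 * i) * x * e3

end St

end Pool.Agent.P.MP_20768c_nt.Tz.Cv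

end

-- part Cv.X9
section

set_option autoImplicit false

open Complex NumberField IsDedekindDomain
open scoped Real

namespace Pool.Agent.P.MP_20768c_nt.Tz.Cv

section

variable {Γ : Type} [LinearOrderedCommGroupWithZero Γ]

theorem x9_con (v : Valuation ℂ Γ) (γ : Γ) : ∃ S : Submonoid (ℂ × ℂ),
    ∀ a b, (a, b) ∈ S ↔ v a ≤ 1 ∧ v b ≤ 1 ∧ v (a - b) ≤ γ := by
  refine ⟨{ carrier := {p | v p.1 ≤ 1 ∧ v p.2 ≤ 1 ∧ v (p.1 - p.2) ≤ γ}
            one_mem' := by simp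
            mul_mem' := ?_ }, fun _ _ => Iff.rfl⟩
  rintro ⟨a, b⟩ ⟨a', b'⟩ ⟨h1, h2, h3⟩ ⟨h4, h5, h6⟩
  refine ⟨(v.map_mul _ _).trans_le (mul_le_one' h1 h4),
    (v.map_mul _ _).trans_le (mul_le_one' h2 h5), ?_⟩
  have e : a * a' - b * b' = a * (a' - b') + (a - b) * b' := by ring
  change v (a * a' - b * b') ≤ γ
  rw [e]
  refine v.map_add_le ?_ ?_ <;> rw [map_mul]
  · exact (mul_le_of_le_one_left' h1).trans h6
  · exact (mul_le_of_le_one_right' h5).trans h3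

theorem x9_root (v : Valuation ℂ Γ) {x y : ℂ} {l : ℕ} (hl : 0 < l) (hx : x ^ l = 1)
    (hy : y ^ l = 1) (h : v (x - y) < v l) : x = y := by
  by_contra hn
  obtain ⟨S, hS⟩ := x9_con v (v (x - y))
  have h1 := St.v_root v hl hx
  have h2 := St.v_root v hl hy
  have h3 : ∑ i ∈ Finset.range l, x ^ i * y ^ (l - 1 - i) = 0 := by
    have h4 := (Commute.all x y).geom_sum₂_mul l
    rw [hx, hy, sub_self] at h4
    exact (mul_eq_zero.1 h4).resolve_right (sub_ne_zero.2 hn)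
  have h5 : v (l * x ^ (l - 1)) ≤ v (x - y) := by
    rw [← geom_sum₂_self, ← sub_zero (Finset.sum _ _), ← h3, ← Finset.sum_sub_distrib]
    refine v.map_sum_le fun i _ => ((hS _ _).1 ?_).2.2
    exact S.mul_mem (S.pow_mem ((hS x x).2 ⟨h1.le, h1.le, by simp⟩) i)
      (S.pow_mem ((hS x y).2 ⟨h1.le, h2.le, le_rfl⟩) (l - 1 - i))
  rw [map_mul, map_pow, h1, one_pow, mul_one] at h5
  exact h.not_ge h5

end

namespace St

variable (s : St) {l c m : ℕ}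

theorem x9_fib (hl : l.Prime) {n : Ideal s.O} (hn : n ≠ ⊥) (χ : MulChar (s.Pr n) ℂ) {T : Type}
    [Nonempty T] (β : T → s.O) (hp : ∀ t, Ideal.Quotient.mk n (β t) ^ l = 1)
    (hχ : ∀ t, χ (s.cl n (s.np (β t))) = 1)
    (hi : Function.Injective fun t => Ideal.Quotient.mk n (β t)) :
    Nat.card T ≤ (if l = 2 then 2 else 1) *
      Nat.card {g : (s.Pr n)ˣ // g ^ l = 1 ∧ χ g = 1} := by
  have := s.finite_Pr hn
  let g : s.O →* s.Pr n :=
    { toFun := fun x => s.cl n (s.np x)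
      map_one' := by rw [s.np_one, map_one]
      map_mul' := fun x y => by rw [s.np_mul, map_mul] }
  have h1 : ∀ t, g (β t) ^ l = 1 := fun t => by
    rw [← map_pow]
    refine s.cl_np_eq_one.2 (.inl (Ideal.Quotient.eq.1 ?_))
    rw [map_pow, hp, map_one]
  let F : T → {g : (s.Pr n)ˣ // g ^ l = 1 ∧ χ g = 1} := fun t =>
    ⟨Units.ofPowEqOne _ l (h1 t) hl.ne_zero, Units.pow_ofPowEqOne _ _, hχ t⟩
  have h2 : ∀ t t', F t = F t' → Ideal.Quotient.mk n (β t) = Ideal.Quotient.mk n (β t') ∨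
      Ideal.Quotient.mk n (β t) = -Ideal.Quotient.mk n (β t') := fun t t' h => by
    have h3 : g (β t) = g (β t') := congrArg (fun x => x.1.1) h
    have h4 : g (β t * β t' ^ (l - 1)) = 1 := by
      rw [map_mul, h3, map_pow, mul_pow_sub_one hl.ne_zero, h1]
    have h5 := hp t'
    rw [← mul_pow_sub_one hl.ne_zero] at h5
    refine (s.cl_np_eq_one.1 h4).imp (fun h => ?_) fun h => ?_ <;>
      have h6 := Ideal.Quotient.eq_zero_iff_mem.2 h
    · rw [map_sub, map_mul, map_pow, map_one] at h6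
      linear_combination Ideal.Quotient.mk n (β t') * h6 - Ideal.Quotient.mk n (β t) * h5
    · rw [map_add, map_mul, map_pow, map_one] at h6
      linear_combination Ideal.Quotient.mk n (β t') * h6 - Ideal.Quotient.mk n (β t) * h5
  split_ifs with h
  · have h7 : ∀ t, F (Function.invFun F (F t)) = F t := fun t => Function.invFun_eq ⟨t, rfl⟩
    have h8 := Nat.card_le_card_of_injective
      (fun t => ((t = Function.invFun F (F t) : Prop), F t)) fun t t' e => by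
        obtain ⟨e1, e2⟩ := Prod.mk.inj e
        by_cases h9 : t = Function.invFun F (F t)
        · rw [h9, e2, ← e1.mp h9]
        · have a1 := (h2 _ _ (h7 t).symm).resolve_left fun a => h9 (hi a)
          have a2 := (h2 _ _ (h7 t').symm).resolve_left fun a => h9 (e1.mpr (hi a))
          exact hi (by rw [← e2] at a2; exact a1.trans a2.symm)
    rwa [Nat.card_prod, Nat.card_eq_fintype_card (α := Prop), Fintype.card_prop] at h8
  · rw [one_mul]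
    refine Nat.card_le_card_of_injective F fun t t' e => hi ?_
    refine (h2 t t' e).elim id fun a => ?_
    have a1 := hp t
    rw [a, (hl.odd_of_ne_two h).neg_pow, hp] at a1
    change Ideal.Quotient.mk n (β t) = Ideal.Quotient.mk n (β t')
    linear_combination a + Ideal.Quotient.mk n (β t') * a1

theorem x9_lb (hl : l.Prime) (hc : 0 < c) (hlc : l ∣ c) (hm : m = l * (l * c)) {J : Type}
    [Fintype J] (q : J → Ideal s.O) (hq : ∀ i, (q i).IsMaximal ∧ (m : s.O) ∈ q i)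
    (hi : Function.Injective q) (u : J → s.O) (hu : ∀ i, s.LocR l m (q i) (u i))
    (χ : MulChar (s.Pr (Ideal.span {(m : s.O)})) ℂ)
    (h1 : ∀ x : s.O, χ (s.cl _ (s.np (1 + (l * c : ℕ) * x))) = 1)
    (h2 : ∀ i, χ (s.cl _ (s.np (u i))) = 1) :
    l ^ (2 + Fintype.card J) ≤ (if l = 2 then 2 else 1) *
      Nat.card {g : (s.Pr (Ideal.span {(m : s.O)}))ˣ // g ^ l = 1 ∧ χ g = 1} := by
  classical
  have hm0 : 0 < m := by
    have := hl.pos
    rw [hm]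
    positivity
  have hn : Ideal.span {(m : s.O)} ≠ ⊥ := by
    rw [Ne, Ideal.span_singleton_eq_bot]
    exact Nat.cast_ne_zero.2 hm0.ne'
  have he : ((l * c : ℕ) : s.O) ≠ 0 := Nat.cast_ne_zero.2 (mul_pos hl.pos hc).ne'
  have hm' : (m : s.O) = (l * c : ℕ) * l := by
    rw [hm, Nat.cast_mul, mul_comm]
  choose r hr using Ideal.Quotient.mk_surjective (I := Ideal.span {(l : s.O)})
  have hul : ∀ i, Ideal.Quotient.mk (Ideal.span {(m : s.O)}) (u i) ^ l = 1 := fun i => by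
    rw [← map_pow, ← map_one (Ideal.Quotient.mk _), Ideal.Quotient.eq]
    refine s.x4_dvd hm0 fun V hV => ?_
    obtain ⟨S, hS⟩ := x9_con V.valuation (V.valuation m)
    obtain ⟨η, h3, h4⟩ : ∃ η : ℂ, η ^ l = 1 ∧ V.valuation (s.c (u i) - η) ≤ V.valuation m := by
      by_cases h : ∀ x ∈ q i, V.valuation (s.c x) < 1
      · exact ((hu i V hV).1 h).imp fun η a => ⟨a.1.pow_eq_one, a.2⟩
      · exact ⟨1, one_pow l, (hu i V hV).2 h⟩
    rw [s.c_sub, s.c_pow, s.c_one, ← h3]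
    exact ((hS _ _).1 (S.pow_mem
      ((hS _ _).2 ⟨s.v_c _ _, (v_root _ hl.pos h3).le, h4⟩) l)).2.2
  have hU : ∀ a : J → Fin l,
      Ideal.Quotient.mk (Ideal.span {(m : s.O)}) (∏ i, u i ^ (a i).1) ^ l = 1 := fun a => by
    rw [map_prod, ← Finset.prod_pow]
    refine Finset.prod_eq_one fun i _ => ?_
    rw [map_pow, ← pow_mul, mul_comm, pow_mul, hul, one_pow]
  have : NeZero l := ⟨hl.ne_zero⟩
  have key := s.x9_fib hl hn χ (T := (s.O ⧸ Ideal.span {(l : s.O)}) × (J → Fin l))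
    (fun t => (1 + (l * c : ℕ) * r t.1) * ∏ i, u i ^ (t.2 i).1) (fun t => ?_) (fun t => ?_) ?_
  · rwa [Nat.card_prod, ← Submodule.cardQuot_apply, ← Ideal.absNorm_apply, s.norm_nat,
      Nat.card_fun, Nat.card_fin, Nat.card_eq_fintype_card, ← pow_add] at key
  · rw [map_mul, mul_pow, hU, mul_one, ← map_pow, ← map_one (Ideal.Quotient.mk _),
      Ideal.Quotient.eq, Ideal.mem_span_singleton]
    obtain ⟨y, hy⟩ := sq_dvd_add_pow_sub_sub (((l * c : ℕ) : s.O) * r t.1) 1 l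
    refine ⟨r t.1 + c * r t.1 ^ 2 * y, ?_⟩
    rw [hm']
    push_cast at hy ⊢
    linear_combination hy
  · let g : s.O →* ℂ :=
      { toFun := fun x => χ (s.cl _ (s.np x))
        map_one' := by rw [s.np_one, map_one, map_one]
        map_mul' := fun x y => by rw [s.np_mul, map_mul, map_mul] }
    change g _ = 1
    rw [map_mul, map_prod, show g _ = 1 from h1 _, one_mul]
    exact Finset.prod_eq_one fun i _ => by rw [map_pow, show g _ = 1 from h2 i, one_pow]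
  · rintro ⟨x, a⟩ ⟨x', a'⟩ e
    have ha : a = a' := funext fun i => by
      obtain ⟨V, hV⟩ := s.x4_val (hq i).1
      have v1 : V.valuation m < 1 := by
        rw [← s.c_nat]
        exact (hV _).2 (hq i).2
      have v2 : ∀ k : ℕ, V.valuation k ≤ 1 := fun k => by
        rw [← s.c_nat]
        exact s.v_c _ _
      have v3 : V.valuation c < 1 := by
        refine lt_of_le_of_ne (v2 c) fun h => v1.ne ?_
        rw [hm, Nat.cast_mul, Nat.cast_mul, map_mul, map_mul, h, v_nat_dvd _ hlc h, one_mul,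
          one_mul]
      have v4 : V.valuation (l * c : ℕ) < V.valuation l := by
        rw [Nat.cast_mul, map_mul]
        exact mul_lt_of_lt_one_right
          (V.valuation.pos_iff.2 (Nat.cast_ne_zero.2 hl.ne_zero)) v3
      have v5 : V.valuation m ≤ V.valuation (l * c : ℕ) := by
        rw [hm, Nat.cast_mul l, map_mul]
        exact mul_le_of_le_one_left' (v2 l)
      obtain ⟨S, hS⟩ := x9_con V.valuation (V.valuation (l * c : ℕ))
      obtain ⟨η, h3, h4⟩ := (hu i V v1).1 fun x => (hV x).2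
      have h5 : ∀ j, (s.c (u j), if j = i then η else 1) ∈ S := fun j => by
        split_ifs with h
        · rw [h]
          exact (hS _ _).2 ⟨s.v_c _ _, (v_root _ hl.pos h3.pow_eq_one).le, h4.trans v5⟩
        · refine (hS _ _).2
            ⟨s.v_c _ _, V.valuation.map_one.le, ((hu j V v1).2 fun b => ?_).trans v5⟩
          exact h (hi ((hq j).1.eq_of_le (hq i).1.ne_top fun x hx => (hV x).1 (b x hx)))
      have h6 : ∀ (y : s.O) (b : J → Fin l), V.valuation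
          (s.c ((1 + (l * c : ℕ) * y) * ∏ j, u j ^ (b j).1) - η ^ (b i).1) ≤
            V.valuation (l * c : ℕ) := fun y b => by
        have b1 : (s.c (1 + (l * c : ℕ) * y), (1 : ℂ)) ∈ S := by
          refine (hS _ _).2 ⟨s.v_c _ _, V.valuation.map_one.le, ?_⟩
          rw [s.c_add, s.c_one, add_sub_cancel_left, s.c_mul, s.c_nat, map_mul]
          exact mul_le_of_le_one_right' (s.v_c _ _)
        have b2 := S.mul_mem b1
          (S.prod_mem fun j (_ : j ∈ Finset.univ) => S.pow_mem (h5 j) (b j).1)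
        refine ((hS _ _).1 ?_).2.2
        convert b2 using 1
        refine Prod.ext ?_ ?_
        · simp [St.c, Prod.fst_prod]
        · simp [Prod.snd_prod]
      obtain ⟨z, hz⟩ := Ideal.mem_span_singleton.1 (Ideal.Quotient.eq.1 e)
      have h7 := congrArg (fun y => V.valuation (s.c y)) hz
      simp only [s.c_sub] at h7
      rw [s.c_mul (m : s.O), s.c_nat, map_mul] at h7
      have h8 := (h7.le.trans (mul_le_of_le_one_right' (s.v_c _ _))).trans v5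
      have h9 := V.valuation.map_add_le (V.valuation.map_sub_le h8 (h6 (r x) a)) (h6 (r x') a')
      refine Fin.ext (h3.pow_inj (a i).2 (a' i).2 (x9_root V.valuation hl.pos ?_ ?_
        (lt_of_le_of_lt (le_of_eq_of_le (congrArg _ (by ring)) h9) v4))) <;>
        rw [← pow_mul, mul_comm, pow_mul, h3.pow_eq_one, one_pow]
    subst ha
    refine Prod.ext ?_ rfl
    have h3 := (IsUnit.of_pow_eq_one (hU a) hl.ne_zero).mul_right_cancel
      (by simpa only [map_mul] using e)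
    have h4 := Ideal.mem_span_singleton.1 (Ideal.Quotient.eq.1 h3)
    rw [add_sub_add_left_eq_sub, ← mul_sub, hm', mul_dvd_mul_iff_left he] at h4
    change x = x'
    rw [← hr x, ← hr x', Ideal.Quotient.eq]
    exact Ideal.mem_span_singleton.2 h4

end St


end Pool.Agent.P.MP_20768c_nt.Tz.Cv

end

-- part Cv.G3
section

set_option autoImplicit false

open Complex NumberField IsDedekindDomain Filter Topology
open UpperHalfPlane hiding I
open scoped ComplexConjugate Real MatrixGroups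

namespace Pool.Agent.P.MP_20768c_nt.Tz.Cv

open Pool.Agent.P.MP_20768c_nt.Tz.EQ (Lt pr sp IsLat jL qN)

theorem g3_pa_ne (L : Lt) (l z : ℂ) : pa L l z ≠ 0 := fun h => by
  have := norm_pa L l z
  rw [h, norm_zero] at this
  exact zero_ne_one this

theorem g3_sum {L : Lt} (hL : IsLat L) (z : ℂ) {t : ℝ} (ht : 1 < t) :
    Summable fun l : L => pa L l z * (((‖(l : ℂ)‖ ^ 2) ^ (-t) : ℝ) : ℂ) := by
  have h := summable_rpow hL ht
  refine Summable.of_norm_bounded h fun l => ?_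
  rw [norm_mul, norm_pa, one_mul, norm_real, Real.norm_of_nonneg (by positivity)]

namespace St

variable (s : St) {n : Ideal s.O} {L : s.Sub} {R R' : Finset ℂ}

theorem g3_norm (hn : n ≠ ⊥) (φ : MulChar (s.Pr n) ℂ) {C : s.Pr n} (h : IsUnit C) :
    ‖φ C‖ = 1 := by
  have := s.finite_Pr hn
  obtain ⟨u, rfl⟩ := h
  refine norm_eq_one_of_pow_eq_one (n := Nat.card (s.Pr n)ˣ) ?_ Nat.card_pos.ne'
  rw [← map_pow, ← Units.val_pow_eq_pow_val, pow_card_eq_one', Units.val_one, map_one]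

theorem g3_le (hn : n ≠ ⊥) (φ : MulChar (s.Pr n) ℂ) (C : s.Pr n) : ‖φ C‖ ≤ 1 := by
  by_cases h : IsUnit C
  · exact (s.g3_norm hn φ h).le
  · rw [φ.map_nonunit h, norm_zero]; exact zero_le_one

theorem g3_conj (hn : n ≠ ⊥) (φ : MulChar (s.Pr n) ℂ) (C : s.Pr n) : conj (φ C) = (φ C)⁻¹ := by
  by_cases h : IsUnit C
  · exact (inv_eq_conj (s.g3_norm hn φ h)).symm
  · rw [φ.map_nonunit h, map_zero, inv_zero]

theorem g3_idl (hn : n ≠ ⊥) (L : s.Sub) : s.idl n * (L * s.inv n) = L := by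
  rw [mul_left_comm, s.idl_inv hn, mul_one]

theorem g3_N (hn : n ≠ ⊥) : ((Ideal.absNorm n : ℕ) : ℂ) ≠ 0 :=
  Nat.cast_ne_zero.2 (by rwa [Ne, Ideal.absNorm_eq_zero_iff])

theorem g3_inv (hn : n ≠ ⊥) {φ : MulChar (s.Pr n) ℂ} (hφ : s.Prim n φ) {T : ℂ}
    (hT : ∀ (L : s.Sub) (R : Finset ℂ) (y : ℂ), IsUnit L →
      Reps (s.zl (s.idl n * L)) (s.zl L) R → y ∈ s.cj L * s.inv n →
      IsUnit (s.cl n (s.mkP (s.cj L * s.inv n) y)) →
      ∑ α ∈ R, φ (s.cl n (s.mkP L α)) * (pa (s.zl L) α (conj y))⁻¹ =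
        (φ (s.cl n (s.mkP (s.cj L * s.inv n) y)))⁻¹ * T)
    (hL : IsUnit L) (hR' : Reps (s.zl (s.cj L)) (s.zl (s.cj L * s.inv n)) R') {α : ℂ}
    (hα : α ∈ L) : φ (s.cl n (s.mkP L α)) = T / Ideal.absNorm n *
      ∑ y ∈ R', (φ (s.cl n (s.mkP (s.cj L * s.inv n) y)))⁻¹ * pa (s.zl L) α (conj y) := by
  classical
  obtain ⟨R, hR⟩ := exists_reps (s.isLat_zl ((s.isUnit_idl hn).mul hL)) (s.isLat_zl hL)
    (s.zl_le.2 (s.idl_mul_le n L))
  have h1 : ∀ y ∈ R', (φ (s.cl n (s.mkP (s.cj L * s.inv n) y)))⁻¹ * T =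
      ∑ β ∈ R, φ (s.cl n (s.mkP L β)) * (pa (s.zl L) β (conj y))⁻¹ := by
    intro y hy
    have hy' : y ∈ s.cj L * s.inv n := s.mem_zl.1 (hR'.2.2.1 y hy)
    by_cases hu : IsUnit (s.cl n (s.mkP (s.cj L * s.inv n) y))
    · exact (hT L R y hL hR hy' hu).symm
    · rw [s.gauss_zero hn hφ hL hR hy' hu, φ.map_nonunit hu, inv_zero, zero_mul]
  obtain ⟨β₀, ⟨hβ₀, hd⟩, huniq⟩ := hR.2.2.2 α (s.mem_zl.2 hα)
  have hβL : β₀ ∈ L := s.mem_zl.1 (hR.2.2.1 _ hβ₀)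
  have h2 : T * ∑ y ∈ R', (φ (s.cl n (s.mkP (s.cj L * s.inv n) y)))⁻¹ * pa (s.zl L) α (conj y) =
      ∑ β ∈ R, φ (s.cl n (s.mkP L β)) * ∑ y ∈ R', pa (s.zl L) (α - β) (conj y) := by
    simp only [Finset.mul_sum]
    rw [Finset.sum_comm]
    refine Finset.sum_congr rfl fun y hy => ?_
    rw [← mul_assoc, mul_comm T, h1 y hy, Finset.sum_mul]
    refine Finset.sum_congr rfl fun β _ => ?_
    have e := pa_add' (s.zl L) (α - β) β (conj y)
    rw [sub_add_cancel] at e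
    rw [e, mul_assoc, mul_comm (pa (s.zl L) (α - β) (conj y)), ← mul_assoc _ (pa _ β _),
      inv_mul_cancel₀ (g3_pa_ne _ _ _), one_mul]
  have h3 : s.cl n (s.mkP L β₀) = s.cl n (s.mkP L α) := by
    have := s.sim_add (n := n) (s.mkP L β₀) (l := α - β₀)
      (by rw [s.mkP_L hL hβL]; exact s.mem_zl.1 hd)
    rw [s.mkP_L hL hβL, s.mkP_ρ hL hβL, add_sub_cancel] at this
    exact s.cl_eq.2 ⟨1, this⟩
  rw [div_mul_eq_mul_div, h2, Finset.sum_eq_single_of_mem β₀ hβ₀, (s.orth hn hL hR'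
    (sub_mem hα hβL)).1 (s.mem_zl.1 hd), h3, mul_div_cancel_right₀ _ (s.g3_N hn)]
  intro β hβ hne
  rw [(s.orth hn hL hR' (sub_mem hα (s.mem_zl.1 (hR.2.2.1 _ hβ)))).2
    fun h => hne (huniq β ⟨hβ, s.mem_zl.2 h⟩), mul_zero]

theorem g3_T (hn : n ≠ ⊥) {φ : MulChar (s.Pr n) ℂ} (hφ : s.Prim n φ) {T : ℂ}
    (hT : ∀ (L : s.Sub) (R : Finset ℂ) (y : ℂ), IsUnit L →
      Reps (s.zl (s.idl n * L)) (s.zl L) R → y ∈ s.cj L * s.inv n →
      IsUnit (s.cl n (s.mkP (s.cj L * s.inv n) y)) →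
      ∑ α ∈ R, φ (s.cl n (s.mkP L α)) * (pa (s.zl L) α (conj y))⁻¹ =
        (φ (s.cl n (s.mkP (s.cj L * s.inv n) y)))⁻¹ * T) :
    ‖T‖ ^ 2 = Ideal.absNorm n := by
  have hN := s.g3_N hn
  have hNr : ((Ideal.absNorm n : ℕ) : ℝ) ≠ 0 := fun h => hN (by exact_mod_cast h)
  have hM : IsUnit (s.inv n) := s.isUnit_inv hn
  have hc : s.cj 1 * s.inv n = s.inv n := by rw [s.cj_one, one_mul]
  obtain ⟨R', hR'⟩ := exists_reps (s.isLat_zl (s.isUnit_cj isUnit_one))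
    (s.isLat_zl ((s.isUnit_cj isUnit_one).mul hM)) (s.zl_le.2 (s.le_mul_inv hn _))
  have h1 := s.g3_inv hn hφ hT isUnit_one hR' (α := 1) (Submodule.one_le.1 le_rfl)
  have e1 : s.mkP 1 1 = 1 := by
    have := s.mkP_self 1
    rwa [s.one_L, s.one_ρ] at this
  rw [e1, map_one, map_one, hc] at h1
  have hnl : s.nL (s.inv n) = ((Ideal.absNorm n : ℕ) : ℝ)⁻¹ := by
    have := s.nL_idl hM hn
    rw [s.idl_inv hn, s.nL_one] at this
    exact eq_inv_of_mul_eq_one_right this.symm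
  have hsc : s.cj (s.inv n) * s.inv n = s.sc ((Ideal.absNorm n : ℕ) : ℂ)⁻¹ := by
    rw [mul_comm, s.mul_cj hM, hnl]
    simp
  have hcl : s.cl n (s.mkP (s.cj (s.inv n) * s.inv n) ((Ideal.absNorm n : ℕ) : ℂ)⁻¹) = 1 := by
    rw [hsc, ← map_one (s.cl n)]
    have hu := s.isUnit_sc (inv_ne_zero hN)
    refine (s.cl_eq.2 ⟨_, inv_ne_zero hN, ?_, ?_⟩).symm
    · rw [s.mkP_L hu (s.mem_sc _), s.one_L, mul_one]
    · rw [s.mkP_ρ hu (s.mem_sc _), s.one_ρ, mul_one, sub_self]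
      exact zero_mem _
  have h2 := hT (s.inv n) R' ((Ideal.absNorm n : ℕ) : ℂ)⁻¹ hM
    (by rw [s.idl_inv hn]; rwa [hc, s.cj_one] at hR') (hsc ▸ s.mem_sc _)
    (hcl ▸ isUnit_one)
  rw [hcl, map_one, inv_one, one_mul] at h2
  have har : ar (s.zl (s.inv n)) = ((Ideal.absNorm n : ℕ) : ℝ)⁻¹ * ar (s.zl 1) := by
    rw [← hnl, nL, div_mul_cancel₀ _ (ar_pos (s.isLat_zl isUnit_one)).ne']
  have h3 : conj T = ∑ y ∈ R', (φ (s.cl n (s.mkP (s.inv n) y)))⁻¹ * pa (s.zl 1) 1 (conj y) := by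
    rw [← h2, map_sum]
    refine Finset.sum_congr rfl fun y _ => ?_
    rw [map_mul, s.g3_conj hn, map_inv₀, ← inv_eq_conj (norm_pa _ _ _), inv_inv]
    congr 1
    have ha : ((ar (s.zl 1) : ℝ) : ℂ) ≠ 0 := ofReal_ne_zero.2 (ar_pos (s.isLat_zl isUnit_one)).ne'
    rw [pa, pa, har]
    congr 1
    simp only [map_inv₀, map_natCast, map_one, conj_conj, ofReal_mul, ofReal_inv, ofReal_natCast]
    field_simp
  rw [← h3, div_mul_eq_mul_div, mul_conj, eq_div_iff hN, one_mul, normSq_eq_norm_sq] at h1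
  exact_mod_cast h1.symm

theorem g3_bij (hn : n ≠ ⊥) : Function.Bijective fun D : s.Pr ⊤ =>
    s.cl ⊤ (s.mkP (s.cj (s.out D).L * s.inv n) 0) := by
  have := s.finite_Pr (n := ⊤) top_ne_bot
  refine Finite.injective_iff_bijective.1 fun D D' h => ?_
  have hu : ∀ D : s.Pr ⊤, IsUnit (s.cj (s.out D).L * s.inv n) := fun D =>
    (s.isUnit_cj (s.out D).unit).mul (s.isUnit_inv hn)
  obtain ⟨x, hx, h1, -⟩ := s.cl_eq.1 h
  rw [s.mkP_L (hu D) (zero_mem _), s.mkP_L (hu D') (zero_mem _), ← mul_assoc,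
    (s.isUnit_inv hn).mul_left_inj] at h1
  have h2 : (s.out D').L = s.sc (conj x) * (s.out D).L := by
    rw [← s.cj_cj (s.out D').L, h1, s.cj_mul, s.cj_sc, s.cj_cj]
  rw [← s.cl_out D, ← s.cl_out D']
  refine s.cl_eq.2 ⟨conj x, by simpa using hx, h2, ?_⟩
  rw [s.idl_top, one_mul]
  exact sub_mem (s.out D').mem (h2 ▸ Submodule.mul_mem_mul (s.mem_sc _) (s.out D).mem)

theorem g3_term (φ : MulChar (s.Pr n) ℂ) (hL : IsUnit L) {α : ℂ} (hα : α ∈ L) {t : ℝ}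
    (ht : 1 < t) : φ (s.cl n (s.ip (s.idOf (s.mkP L α)))) *
      (((Ideal.absNorm (s.idOf (s.mkP L α)) : ℝ) ^ (-t) : ℝ) : ℂ) =
      ((s.nL L ^ t : ℝ) : ℂ) * (φ (s.cl n (s.mkP L α)) * (((‖α‖ ^ 2) ^ (-t) : ℝ) : ℂ)) := by
  have e : ((Ideal.absNorm (s.idOf (s.mkP L α)) : ℕ) : ℝ) ^ (-t) =
      s.nL L ^ t * (‖α‖ ^ 2) ^ (-t) := by
    have := s.Qn_eq (s.mkP L α)
    rw [s.mkP_L hL hα, s.mkP_ρ hL hα, Qn] at this
    rw [this, Real.div_rpow (sq_nonneg _) (s.nL_pos hL).le, Real.rpow_neg (s.nL_pos hL).le,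
      div_inv_eq_mul, mul_comm]
  rw [e, ofReal_mul]
  by_cases h0 : α = 0
  · rw [h0, norm_zero, zero_pow two_ne_zero, Real.zero_rpow (by linarith), ofReal_zero]
    simp
  · rw [s.cl_ip_idOf n (by rwa [s.mkP_ρ hL hα])]
    ring

theorem Lr_lim (hn : n ≠ ⊥) (h2 : (2 : s.O) ∉ n) {φ : MulChar (s.Pr n) ℂ} (hφ : s.Prim n φ) :
    ∃ y : ℂ, Tendsto (s.Lr n φ) (𝓝[>] 1) (𝓝 y) ∧ ‖y‖ ^ 2 * (s.dd * Ideal.absNorm n) =
      4 * π ^ 2 * ‖s.ZG n φ‖ ^ 2 := by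
  unfold ZG
  classical
  obtain ⟨T, hT⟩ := s.gauss_unit hn φ
  have hT2 := s.g3_T hn hφ hT
  have := s.finite_Pr (n := ⊤) top_ne_bot
  let _ := Fintype.ofFinite (s.Pr ⊤)
  have hu : ∀ D : s.Pr ⊤, IsUnit (s.cj (s.out D).L * s.inv n) := fun D =>
    (s.isUnit_cj (s.out D).unit).mul (s.isUnit_inv hn)
  choose R hR using fun D : s.Pr ⊤ => exists_reps (s.isLat_zl (s.isUnit_cj (s.out D).unit))
    (s.isLat_zl (hu D)) (s.zl_le.2 (s.le_mul_inv hn _))
  let ψ : s.Pr ⊤ → ℂ → ℂ := fun D y => (φ (s.cl n (s.mkP (s.cj (s.out D).L * s.inv n) y)))⁻¹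
  let S : s.Pr ⊤ → ℂ → ℝ → ℂ := fun D y t => ∑' l : s.zl (s.out D).L,
    pa (s.zl (s.out D).L) l (conj y) * (((‖(l : ℂ)‖ ^ 2) ^ (-t) : ℝ) : ℂ)
  let Z : ℂ := ∑ᶠ C : (s.Pr n)ˣ, (φ C)⁻¹ * (s.gp n (s.out C.1) : ℂ)
  have hA : ∀ t : ℝ, 1 < t → s.Lr n φ t = 2⁻¹ * (T / Ideal.absNorm n) *
      ∑ D, ∑ y ∈ R D, ((s.nL (s.out D).L ^ t : ℝ) : ℂ) * (ψ D y * S D y t) := by
    intro t ht
    have h1 := s.tsum_half (Φ := fun a => φ (s.cl n (s.ip a)) *
      (((Ideal.absNorm a : ℝ) ^ (-t) : ℝ) : ℂ)) (by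
        refine Summable.of_norm_bounded (summable_norm s.k ht) fun a => ?_
        rw [norm_mul, norm_real, Real.norm_of_nonneg (by positivity)]
        exact mul_le_of_le_one_left (by positivity) (s.g3_le hn φ _))
      (by rw [Ideal.absNorm_bot, Nat.cast_zero, Real.zero_rpow (by linarith), ofReal_zero,
        mul_zero])
    rw [finsum_eq_sum_of_fintype] at h1
    rw [mul_assoc, eq_inv_mul_iff_mul_eq₀ two_ne_zero, Lr, h1, Finset.mul_sum]
    refine Finset.sum_congr rfl fun D _ => ?_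
    have hs : ∀ y ∈ R D, Summable fun l : s.zl (s.out D).L =>
        T / Ideal.absNorm n * (((s.nL (s.out D).L ^ t : ℝ) : ℂ) * (ψ D y *
          (pa (s.zl (s.out D).L) l (conj y) * (((‖(l : ℂ)‖ ^ 2) ^ (-t) : ℝ) : ℂ)))) := by
      intro y _
      exact (((g3_sum (s.isLat_zl (s.out D).unit) (conj y) ht).mul_left _).mul_left _).mul_left _
    simp only [S, ← tsum_mul_left, Finset.mul_sum]
    rw [← Summable.tsum_finsetSum hs]
    refine tsum_congr fun l => ?_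
    rw [s.g3_term φ (s.out D).unit (s.mem_zl.1 l.2) ht,
      s.g3_inv hn hφ hT (s.out D).unit (hR D) (s.mem_zl.1 l.2)]
    simp only [Finset.mul_sum, Finset.sum_mul]
    exact Finset.sum_congr rfl fun y _ => by ring
  have hB : ∀ D, ∀ y ∈ R D, Tendsto (fun t : ℝ => ((s.nL (s.out D).L ^ t : ℝ) : ℂ) *
      (ψ D y * S D y t)) (𝓝[>] 1) (𝓝 (π / ar (s.zl 1) *
        (ψ D y * s.gp n (s.mkP (s.cj (s.out D).L * s.inv n) y)))) := by
    intro D y hy
    have hy' : y ∈ s.cj (s.out D).L * s.inv n := s.mem_zl.1 ((hR D).2.2.1 y hy)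
    by_cases hq : IsUnit (s.cl n (s.mkP (s.cj (s.out D).L * s.inv n) y))
    · have h1 := s.unit_not_mem hq le_rfl fun h => h2 (h ▸ Submodule.mem_top)
      rw [s.mkP_L (hu D) hy', s.mkP_ρ (hu D) hy', s.g3_idl hn, s.mem_cj] at h1
      have h3 := eG_lim (s.isLat_zl (s.out D).unit) fun h => h1 (s.mem_zl.1 h)
      have h4 : Tendsto (fun t : ℝ => ((s.nL (s.out D).L ^ t : ℝ) : ℂ)) (𝓝[>] 1)
          (𝓝 ((s.nL (s.out D).L : ℝ) : ℂ)) := by
        have := ((continuous_ofReal.comp (Real.continuous_const_rpow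
          (s.nL_pos (s.out D).unit).ne')).tendsto 1).mono_left (nhdsWithin_le_nhds (s := Set.Ioi 1))
        simpa [Function.comp_def] using this
      have h5 := h4.mul (h3.const_mul (ψ D y))
      convert h5 using 2
      rw [gp, s.mkP_L (hu D) hy', s.mkP_ρ (hu D) hy', s.g3_idl hn,
        eG_conj (s.isLat_zl (s.isUnit_cj (s.out D).unit)) (M := s.zl (s.out D).L)
          (fun z => by rw [s.mem_zl, s.mem_zl, s.mem_cj, conj_conj]), nL]
      have a1 : ((ar (s.zl 1) : ℝ) : ℂ) ≠ 0 := ofReal_ne_zero.2 (ar_pos (s.isLat_zl isUnit_one)).ne'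
      have a2 : ((ar (s.zl (s.out D).L) : ℝ) : ℂ) ≠ 0 :=
        ofReal_ne_zero.2 (ar_pos (s.isLat_zl (s.out D).unit)).ne'
      push_cast
      field_simp
    · have h0 : ψ D y = 0 := by simp only [ψ, φ.map_nonunit hq, inv_zero]
      simp only [h0, zero_mul, mul_zero]
      exact tendsto_const_nhds
  have hC := s.sum_half hn h2 (Φ := fun p => (φ (s.cl n p))⁻¹ * (s.gp n p : ℂ))
    (fun x p q h => by
      beta_reduce
      rw [s.gp_inv n hn x p q h, s.cl_eq.2 ⟨x, h⟩])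
    (fun p h => by
      beta_reduce
      rw [φ.map_nonunit h, inv_zero, zero_mul])
    (fun D => s.cj (s.out D).L * s.inv n) hu (s.g3_bij hn) R
    fun D => by rw [s.g3_idl hn]; exact hR D
  simp only [s.cl_out] at hC
  rw [finsum_eq_sum_of_fintype (f := fun D : s.Pr ⊤ => _)] at hC
  refine ⟨T / Ideal.absNorm n * (π / ar (s.zl 1)) * Z, ?_, ?_⟩
  · have h1 := (tendsto_finsetSum Finset.univ fun D _ =>
      tendsto_finsetSum (R D) (hB D)).const_mul (2⁻¹ * (T / Ideal.absNorm n))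
    simp only [← Finset.mul_sum] at h1
    have h3 : ∑ D, ∑ y ∈ R D, ψ D y * (s.gp n (s.mkP (s.cj (s.out D).L * s.inv n) y) : ℂ) =
      2 * Z := hC.symm
    rw [h3] at h1
    refine Tendsto.congr' (eventually_nhdsWithin_of_forall fun t ht => ?_)
      (by convert h1 using 2; ring)
    rw [hA t ht]
    simp only [← Finset.mul_sum]
  · have hd : (0 : ℝ) < s.dd := by
      have := s.dd_mod
      exact_mod_cast (by omega : 0 < s.dd)
    have hN : ((Ideal.absNorm n : ℕ) : ℝ) ≠ 0 := fun h => s.g3_N hn (by exact_mod_cast h)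
    show ‖T / Ideal.absNorm n * (π / ar (s.zl 1)) * Z‖ ^ 2 * (s.dd * Ideal.absNorm n) =
      4 * π ^ 2 * ‖Z‖ ^ 2
    generalize Z = z
    rw [norm_mul, norm_mul, norm_div, norm_div, mul_pow, mul_pow, div_pow, div_pow, hT2,
      norm_natCast, norm_real, norm_real, Real.norm_eq_abs, Real.norm_eq_abs, sq_abs, sq_abs,
      s.ar_one, div_pow, Real.sq_sqrt hd.le]
    field_simp
    ring

end St

end Pool.Agent.P.MP_20768c_nt.Tz.Cv

end

-- part Cv.G5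
section

set_option autoImplicit false

open Complex NumberField IsDedekindDomain Filter Topology
open UpperHalfPlane hiding I
open scoped ComplexConjugate Real MatrixGroups

namespace Pool.Agent.P.MP_20768c_nt.Tz.Cv

open Pool.Agent.P.MP_20768c_nt.Tz.EQ (Lt pr sp IsLat jL qN)

namespace St

variable (s : St) {n g q : Ideal s.O}

theorem exists_ind (hle : n ≤ g) (φ₀ : MulChar (s.Pr g) ℂ) : ∃ φ, s.Ind n g φ φ₀ := by
  obtain ⟨π', hπ⟩ := s.exists_proj hle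
  refine ⟨MulChar.ofUnitHom (φ₀.toUnitHom.comp (Units.map π')), hle, fun p hp => ?_⟩
  rw [← hπ, ← hp.unit_spec, MulChar.ofUnitHom_coe]
  rfl

theorem g5_bij {K : s.Sub} (hK : IsUnit K) : Function.Bijective fun D : s.Pr ⊤ =>
    s.cl ⊤ (s.mkP (K * (s.out D).L) 0) := by
  have := s.finite_Pr (n := ⊤) top_ne_bot
  refine Finite.injective_iff_bijective.1 fun D D' h => ?_
  have hu : ∀ D : s.Pr ⊤, IsUnit (K * (s.out D).L) := fun D => hK.mul (s.out D).unit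
  obtain ⟨x, hx, h1, -⟩ := s.cl_eq.1 h
  rw [s.mkP_L (hu D) (zero_mem _), s.mkP_L (hu D') (zero_mem _), mul_left_comm,
    hK.mul_right_inj] at h1
  rw [← s.cl_out D, ← s.cl_out D']
  refine s.cl_eq.2 ⟨x, hx, h1, ?_⟩
  rw [s.idl_top, one_mul]
  exact sub_mem (s.out D').mem (h1 ▸ Submodule.mul_mem_mul (s.mem_sc _) (s.out D).mem)

theorem g5_half (hn : n ≠ ⊥) (h2 : (2 : s.O) ∉ n) (φ : MulChar (s.Pr n) ℂ) {K : s.Sub}
    (hK : IsUnit K) (R : s.Pr ⊤ → Finset ℂ)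
    (hR : ∀ D, Reps (s.zl (s.idl n * (K * (s.out D).L))) (s.zl (K * (s.out D).L)) (R D)) :
    2 * s.ZG n φ = ∑ᶠ D, ∑ ρ ∈ R D, (φ (s.cl n (s.mkP (K * (s.out D).L) ρ)))⁻¹ *
      (eG (s.zl (s.idl n * (K * (s.out D).L))) ρ : ℂ) := by
  have hC := s.sum_half hn h2 (Φ := fun p => (φ (s.cl n p))⁻¹ * (s.gp n p : ℂ))
    (fun x p q h => by
      beta_reduce
      rw [s.gp_inv n hn x p q h, s.cl_eq.2 ⟨x, h⟩])
    (fun p h => by
      beta_reduce
      rw [φ.map_nonunit h, inv_zero, zero_mul])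
    (fun D => K * (s.out D).L) (fun D => hK.mul (s.out D).unit) (s.g5_bij hK) R hR
  simp only [s.cl_out] at hC
  rw [ZG, hC]
  refine finsum_congr fun D => Finset.sum_congr rfl fun ρ hρ => ?_
  have k := s.mem_zl.1 ((hR D).2.2.1 ρ hρ)
  rw [gp, s.mkP_L (hK.mul (s.out D).unit) k, s.mkP_ρ (hK.mul (s.out D).unit) k]

open Classical in
theorem g5_lat (hn : n ≠ ⊥) (h2 : (2 : s.O) ∉ n) (q : HeightOneSpectrum s.O)
    {φ₀ : MulChar (s.Pr n) ℂ} {φ : MulChar (s.Pr (n * q.asIdeal)) ℂ}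
    (h : ∀ p, IsUnit (s.cl (n * q.asIdeal) p) → φ (s.cl (n * q.asIdeal) p) = φ₀ (s.cl n p))
    {M : s.Sub} (hM : IsUnit M) {R R₁ : Finset ℂ}
    (hR : Reps (s.zl (s.idl (n * q.asIdeal) * M)) (s.zl M) R)
    (h1 : Reps (s.zl (s.idl n * M)) (s.zl M) R₁) :
    ∑ ρ ∈ R, (φ (s.cl _ (s.mkP M ρ)))⁻¹ * (eG (s.zl (s.idl (n * q.asIdeal) * M)) ρ : ℂ) =
      ∑ ρ ∈ R₁, (φ₀ (s.cl n (s.mkP M ρ)))⁻¹ * (eG (s.zl (s.idl n * M)) ρ : ℂ) -
        (φ₀ (s.cl n (s.ip q.asIdeal)))⁻¹ *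
          ∑ ρ ∈ R.filter (· ∈ s.zl (s.idl q.asIdeal * M)),
            (φ₀ (s.cl n (s.mkP (s.idl q.asIdeal * M) ρ)))⁻¹ *
              (eG (s.zl (s.idl n * (s.idl q.asIdeal * M))) ρ : ℂ) := by
  have hm : n * q.asIdeal ≠ ⊥ := mul_ne_zero hn q.ne_bot
  have hA := s.isLat_zl ((s.isUnit_idl hm).mul hM)
  have hB := s.isLat_zl ((s.isUnit_idl hn).mul hM)
  have hAB : s.idl (n * q.asIdeal) * M ≤ s.idl n * M :=
    (s.mul_le_mul_unit hM).2 (s.idl_le.2 Ideal.mul_le_left)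
  obtain ⟨R₂, hR₂⟩ := exists_reps hA hB (s.zl_le.2 hAB)
  have e1 : ∑ ρ ∈ R, (φ₀ (s.cl n (s.mkP M ρ)))⁻¹ * (eG (s.zl (s.idl (n * q.asIdeal) * M)) ρ : ℂ) =
      ∑ ρ ∈ R₁, (φ₀ (s.cl n (s.mkP M ρ)))⁻¹ * (eG (s.zl (s.idl n * M)) ρ : ℂ) := by
    rw [g5p_tower hR h1 hR₂ _ fun a ha l hl => by
      rw [s.g3p_per hM (s.mem_zl.1 ha) (hAB (s.mem_zl.1 hl)), eG_add _ _ hl]]
    refine Finset.sum_congr rfl fun r hr => ?_
    have kr := s.mem_zl.1 (h1.2.2.1 r hr)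
    rw [Finset.sum_congr rfl fun r' hr' => by
      rw [s.g3p_per hM kr (s.mem_zl.1 (hR₂.2.2.1 r' hr'))], ← Finset.mul_sum]
    by_cases hu : IsUnit (s.cl n (s.mkP M r))
    · have k := s.unit_not_mem hu le_rfl fun e => h2 (e ▸ Submodule.mem_top)
      rw [s.mkP_L hM kr, s.mkP_ρ hM kr] at k
      rw [eG_reps hA hB hR₂ fun e => k (s.mem_zl.1 e), ofReal_sum]
    · rw [φ₀.map_nonunit hu, inv_zero, zero_mul, zero_mul]
  rw [← e1, Finset.mul_sum, Finset.sum_filter, ← Finset.sum_sub_distrib]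
  refine Finset.sum_congr rfl fun ρ hρ => ?_
  have kρ := s.mem_zl.1 (hR.2.2.1 ρ hρ)
  split_ifs with k
  · have k' := s.mem_zl.1 k
    have hq := (s.isUnit_idl q.ne_bot).mul hM
    have e2 : s.mkP M ρ = s.mkP (s.idl q.asIdeal * M) ρ * s.ip q.asIdeal := Pair.ext
      (by rw [s.mul_L, s.mkP_L hM kρ, s.mkP_L hq k', s.ip_L q.ne_bot, mul_right_comm,
        s.idl_inv q.ne_bot, one_mul])
      (by rw [s.mul_ρ, s.mkP_ρ hM kρ, s.mkP_ρ hq k', s.ip_ρ, mul_one])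
    rw [φ.map_nonunit fun hu => s.unit_not_mem hu Ideal.mul_le_right q.isPrime.ne_top
      (by rwa [s.mkP_L hM kρ, s.mkP_ρ hM kρ]), e2, map_mul, map_mul, s.idl_mul, mul_assoc]
    ring
  · rw [sub_zero]
    by_cases hu : IsUnit (s.cl (n * q.asIdeal) (s.mkP M ρ))
    · rw [h _ hu]
    · rw [φ.map_nonunit hu, φ₀.map_nonunit fun hu' => hu ?_]
      rw [s.unit_cl hm]
      refine ((s.unit_cl hn).1 hu').mul_right ?_
      rw [Ideal.isCoprime_iff_sup_eq, sup_comm]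
      refine q.isMaximal.out.2 _ (lt_of_le_of_ne le_sup_left fun e => k (s.mem_zl.2 ?_))
      have := s.idOf_le.1 (e ▸ le_sup_right : s.idOf (s.mkP M ρ) ≤ q.asIdeal)
      rwa [s.mkP_L hM kρ, s.mkP_ρ hM kρ] at this

theorem g5_step (hn : n ≠ ⊥) (h2 : (2 : s.O) ∉ n) (q : HeightOneSpectrum s.O)
    {m : Ideal s.O} (hm : m = n * q.asIdeal) {φ₀ : MulChar (s.Pr n) ℂ} {φ : MulChar (s.Pr m) ℂ}
    (h : ∀ p, IsUnit (s.cl m p) → φ (s.cl m p) = φ₀ (s.cl n p)) :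
    s.ZG m φ = (1 - (φ₀ (s.cl n (s.ip q.asIdeal)))⁻¹) * s.ZG n φ₀ := by
  classical
  subst hm
  have hm : n * q.asIdeal ≠ ⊥ := mul_ne_zero hn q.ne_bot
  have hu : ∀ D : s.Pr ⊤, IsUnit (1 * (s.out D).L) := fun D => isUnit_one.mul (s.out D).unit
  choose R hR using fun D : s.Pr ⊤ => exists_reps (s.isLat_zl ((s.isUnit_idl hm).mul (hu D)))
    (s.isLat_zl (hu D)) (s.zl_le.2 (s.idl_mul_le _ _))
  choose R₁ h1 using fun D : s.Pr ⊤ => exists_reps (s.isLat_zl ((s.isUnit_idl hn).mul (hu D)))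
    (s.isLat_zl (hu D)) (s.zl_le.2 (s.idl_mul_le _ _))
  have a1 := s.g5_half hm (fun k => h2 (Ideal.mul_le_left k)) φ isUnit_one R hR
  have a2 := s.g5_half hn h2 φ₀ isUnit_one R₁ h1
  simp only [one_mul] at hR h1 a1 a2
  have a3 := s.g5_half hn h2 φ₀ (s.isUnit_idl q.ne_bot)
    (fun D => (R D).filter (· ∈ s.zl (s.idl q.asIdeal * (s.out D).L))) fun D => by
      rw [← mul_assoc, ← s.idl_mul]
      exact g5p_filter (hR D) (s.zl_le.2 ((s.mul_le_mul_unit (s.out D).unit).2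
        (s.idl_le.2 Ideal.mul_le_right))) (s.zl_le.2 (s.idl_mul_le _ _))
  have := s.finite_Pr (n := ⊤) top_ne_bot
  have := Fintype.ofFinite (s.Pr ⊤)
  rw [finsum_eq_sum_of_fintype] at a1 a2 a3
  rw [Finset.sum_congr rfl fun D _ => s.g5_lat hn h2 q h (s.out D).unit (hR D) (h1 D),
    Finset.sum_sub_distrib, ← Finset.mul_sum, ← a2, ← a3] at a1
  linear_combination a1 / 2

theorem gp_step (hg : g ≠ ⊥) (h2 : (2 : s.O) ∉ g) (hq : q.IsPrime) (h0 : q ≠ ⊥)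
    {φ : MulChar (s.Pr (g * q)) ℂ} {φ₀ : MulChar (s.Pr g) ℂ} (h : s.Ind (g * q) g φ φ₀) :
    s.ZG (g * q) φ = (1 - (φ₀ (s.cl g (s.ip q)))⁻¹) * s.ZG g φ₀ :=
  s.g5_step hg h2 ⟨q, hq, h0⟩ rfl h.2

theorem g5_lev {n m a : Ideal s.O} (hn : n ≠ ⊥) (h2 : (2 : s.O) ∉ n) (ha : a ≠ ⊥)
    (hm : m = n * a) {φ₀ : MulChar (s.Pr n) ℂ} {φ : MulChar (s.Pr m) ℂ}
    (h : ∀ p, IsUnit (s.cl m p) → φ (s.cl m p) = φ₀ (s.cl n p)) :
    s.ZG m φ = (∏ᶠ Q ∈ {Q : HeightOneSpectrum s.O | a ≤ Q.asIdeal},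
      (1 - (φ₀ (s.cl n (s.ip Q.asIdeal)))⁻¹)) * s.ZG n φ₀ := by
  induction a using UniqueFactorizationMonoid.induction_on_prime generalizing m φ with
  | h₁ => exact absurd rfl ha
  | h₂ a hu =>
    obtain rfl : a = ⊤ := Ideal.isUnit_iff.1 hu
    obtain rfl : m = n := by rw [hm, Ideal.mul_top]
    obtain rfl : φ = φ₀ := MulChar.ext fun C => by
      have e := h (s.out C.1) (s.unit_out C)
      rwa [s.cl_out] at e
    have e : {Q : HeightOneSpectrum s.O | ⊤ ≤ Q.asIdeal} = ∅ :=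
      Set.eq_empty_of_forall_notMem fun Q hQ => Q.isPrime.ne_top (top_le_iff.1 hQ)
    rw [e, finprod_mem_empty, one_mul]
  | h₃ a q ha' hq ih =>
    have ha0 : a ≠ ⊥ := ha'
    have hna : n * a ≠ ⊥ := mul_ne_zero hn ha'
    obtain ⟨Q, rfl⟩ : ∃ Q : HeightOneSpectrum s.O, Q.asIdeal = q :=
      ⟨⟨q, Ideal.isPrime_of_prime hq, hq.ne_zero⟩, rfl⟩
    obtain ⟨φ₁, -, h₁⟩ := s.exists_ind (n := n * a) Ideal.mul_le_left φ₀
    have hm' : m = n * a * Q.asIdeal := by rw [hm]; ring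
    have hle : m ≤ n * a := hm' ▸ Ideal.mul_le_left
    rw [s.g5_step hna (fun h3 => h2 (Ideal.mul_le_left h3)) Q hm' (φ₀ := φ₁)
      (fun p hp => by rw [h p hp, h₁ p (s.unit_mono hle hp)]), ih ha0 rfl h₁, ← mul_assoc]
    refine congrArg (· * s.ZG n φ₀) ?_
    have hU : ∀ {g : Ideal s.O}, g ≠ ⊥ →
        (IsUnit (s.cl g (s.ip Q.asIdeal)) ↔ ¬ g ≤ Q.asIdeal) := fun {g} hg => by
      rw [s.unit_cl hg, s.idOf_ip Q.ne_bot, Ideal.isCoprime_iff_sup_eq]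
      refine ⟨fun e hl => Q.isPrime.ne_top (by rw [← e, sup_eq_left.2 hl]), fun hl => ?_⟩
      exact Q.isMaximal.out.2 _ (left_lt_sup.2 hl)
    have hS : ∀ P : HeightOneSpectrum s.O,
        Q.asIdeal * a ≤ P.asIdeal ↔ P = Q ∨ a ≤ P.asIdeal := fun P => by
      rw [P.isPrime.mul_le]
      refine or_congr_left ⟨fun hl => ?_, fun e => e ▸ le_rfl⟩
      exact HeightOneSpectrum.ext (Q.isMaximal.eq_of_le P.isPrime.ne_top hl).symm
    by_cases hc : a ≤ Q.asIdeal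
    · have e : {P : HeightOneSpectrum s.O | Q.asIdeal * a ≤ P.asIdeal} =
          {P : HeightOneSpectrum s.O | a ≤ P.asIdeal} := Set.ext fun P => by
        simp only [Set.mem_ofPred_eq, hS]
        exact ⟨fun h3 => h3.elim (fun e => e ▸ hc) id, Or.inr⟩
      rw [e, φ₁.map_nonunit (fun hu => (hU hna).1 hu (Ideal.mul_le_right.trans hc)), inv_zero,
        sub_zero, one_mul]
    · have e : {P : HeightOneSpectrum s.O | Q.asIdeal * a ≤ P.asIdeal} =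
          insert Q {P : HeightOneSpectrum s.O | a ≤ P.asIdeal} := Set.ext fun P => by
        simp only [Set.mem_ofPred_eq, hS, Set.mem_insert_iff]
      have hf : {P : HeightOneSpectrum s.O | a ≤ P.asIdeal}.Finite :=
        (Ideal.finite_factors ha').subset fun P hP => Ideal.dvd_iff_le.2 hP
      rw [e, finprod_mem_insert _ hc hf]
      refine congrArg (fun x => (1 - x⁻¹) * _) ?_
      by_cases hu : IsUnit (s.cl (n * a) (s.ip Q.asIdeal))
      · exact h₁ _ hu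
      · rw [φ₁.map_nonunit hu, φ₀.map_nonunit fun hu' => hu ((hU hna).2 fun hl =>
          (Q.isPrime.mul_le.1 hl).elim ((hU hn).1 hu') hc)]

theorem g5_int (hg : g ≠ ⊥) (φ₀ : MulChar (s.Pr g) ℂ) (C : s.Pr g) :
    IsIntegral ℤ (φ₀ C)⁻¹ := by
  by_cases hu : IsUnit C
  · have := s.finite_Pr hg
    obtain ⟨u, rfl⟩ := hu
    have k := isOfFinOrder_of_finite u
    refine IsIntegral.of_pow (n := orderOf u) k.orderOf_pos ?_
    rw [inv_pow, ← map_pow, ← Units.val_pow_eq_pow_val, pow_orderOf_eq_one, Units.val_one,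
      map_one, inv_one]
    exact isIntegral_one
  · rw [φ₀.map_nonunit hu, inv_zero]
    exact isIntegral_zero

theorem gp_ind (hn : n ≠ ⊥) (h2 : (2 : s.O) ∉ g) {φ : MulChar (s.Pr n) ℂ}
    {φ₀ : MulChar (s.Pr g) ℂ} (h : s.Ind n g φ φ₀)
    (h1 : ∀ q : Ideal s.O, q.IsPrime → n ≤ q → φ₀ (s.cl g (s.ip q)) ≠ 1) :
    ∃ W : ℂ, W ≠ 0 ∧ IsIntegral ℤ W ∧ s.ZG n φ = W * s.ZG g φ₀ := by
  obtain ⟨a, ha⟩ := Ideal.dvd_iff_le.2 h.1
  have hg : g ≠ ⊥ := fun e => hn (le_bot_iff.1 (e ▸ h.1))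
  have ha0 : a ≠ ⊥ := fun e => hn (by rw [ha, e, Ideal.mul_bot])
  have hf : {P : HeightOneSpectrum s.O | a ≤ P.asIdeal}.Finite :=
    (Ideal.finite_factors ha0).subset fun P hP => Ideal.dvd_iff_le.2 hP
  refine ⟨_, ?_, ?_, s.g5_lev hg h2 ha0 ha h.2⟩
  · rw [finprod_mem_eq_finite_toFinset_prod _ hf]
    refine Finset.prod_ne_zero_iff.2 fun P hP e => ?_
    refine h1 P.asIdeal P.isPrime (ha ▸ Ideal.mul_le_right.trans (hf.mem_toFinset.1 hP)) ?_
    rw [← inv_eq_one, ← sub_eq_zero.1 e]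
  · rw [finprod_mem_eq_finite_toFinset_prod _ hf]
    exact IsIntegral.prod _ fun P _ => isIntegral_one.sub (s.g5_int hg φ₀ _)

end St

end Pool.Agent.P.MP_20768c_nt.Tz.Cv

end

-- part Cv.E4b
section

set_option autoImplicit false

open Complex NumberField IsDedekindDomain Filter Topology
open UpperHalfPlane hiding I
open scoped ComplexConjugate Real MatrixGroups

namespace Pool.Agent.P.MP_20768c_nt.Tz.Cv

open Pool.Agent.P.MP_20768c_nt.Tz.EQ (Lt pr sp IsLat jL qN)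

theorem e4b_om {Γ : Type} [LinearOrderedCommGroupWithZero Γ] (v : Valuation ℂ Γ) {z : ℂ}
    (hz : v z ≤ 1) (p : Polynomial ℤ) : v (Polynomial.aeval (zt 1 * z) p +
      Polynomial.aeval (zt 1 ^ 2 * z) p - 2 * Polynomial.aeval z p) ≤ v 3 := by
  induction p using Polynomial.induction_on' with
  | add p q hp hq =>
    refine le_of_eq_of_le (congrArg v ?_) (v.map_add_le hp hq)
    simp only [map_add]
    ring
  | monomial j a =>
    have h3 : (zt 1 ^ j) ^ 3 = 1 := by rw [← pow_mul, n0_zt1_pow (dvd_mul_left 3 j)]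
    simp only [Polynomial.aeval_monomial, eq_intCast]
    rw [mul_pow, mul_pow, ← pow_mul, mul_comm 2 j, pow_mul]
    generalize zt 1 ^ j = u at h3
    rcases eq_or_ne u 1 with rfl | h
    · rw [show (a : ℂ) * (1 * z ^ j) + a * (1 ^ 2 * z ^ j) - 2 * (a * z ^ j) = 0 by ring, map_zero]
      exact zero_le
    · have h4 : u ^ 2 + u + 1 = 0 :=
        mul_left_cancel₀ (sub_ne_zero.2 h) (by linear_combination h3)
      rw [show (a : ℂ) * (u * z ^ j) + a * (u ^ 2 * z ^ j) - 2 * (a * z ^ j) =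
        3 * -(a * z ^ j) by linear_combination a * z ^ j * h4, map_mul, v.map_neg, map_mul, map_pow]
      exact mul_le_of_le_one_right' (mul_le_one' (St.c1a_int v a) (pow_le_one' hz j))

theorem e4b_tri_mul {Γ : Type} [LinearOrderedCommGroupWithZero Γ] {v : Valuation ℂ Γ}
    {a b a' b' : ℂ} (h3 : v 3 < 1) (h1 : v (a - 1) ≤ v (r3 1)) (h2 : v (a + b - 2) ≤ v 3)
    (k1 : v (a' - 1) ≤ v (r3 1)) (k2 : v (a' + b' - 2) ≤ v 3) :
    v ((a * a' - b * b') / r3 1 - ((a - b) / r3 1 + (a' - b') / r3 1)) ≤ v 3 := by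
  have r := r3_ne
  have e : (a * a' - b * b') / r3 1 - ((a - b) / r3 1 + (a' - b') / r3 1) =
      (a + b - 2) * ((a' - 1) / r3 1) + (a' + b' - 2) * (((a - 1) - (a + b - 2)) / r3 1) := by
    field_simp
    ring
  have d : ∀ x : ℂ, v x ≤ v (r3 1) → v (x / r3 1) ≤ 1 := fun x hx => by
    rw [map_div₀]
    exact div_le_one_of_le₀ hx zero_le
  rw [e]
  refine v.map_add_le ?_ ?_
  · rw [map_mul]
    exact (mul_le_of_le_one_right' (d _ k1)).trans h2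
  · rw [map_mul]
    exact (mul_le_of_le_one_right' (d _ (v.map_sub_le h1 (h2.trans ((v_r3 v).2 h3).2)))).trans k2

namespace St

variable {s : St} {n : ℕ} {x y : ℂ} {sb : (ZMod (3 ^ n))ˣ → s.Au}

theorem e4b_hmul (b c : (ZMod (3 ^ n))ˣ) :
    (zt n ^ (b : ZMod (3 ^ n)).val) ^ (c : ZMod (3 ^ n)).val =
      zt n ^ ((b * c : (ZMod (3 ^ n))ˣ) : ZMod (3 ^ n)).val := by
  rw [← pow_mul, Units.val_mul, ZMod.val_mul, ← pow_eq_pow_mod _ (zt_pow n)]

theorem e4b_uone (n : ℕ) : zt n ^ ((1 : (ZMod (3 ^ n))ˣ) : ZMod (3 ^ n)).val = zt n := by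
  rw [Units.val_one, ZMod.val_one_eq_one_mod, ← pow_eq_pow_mod _ (zt_pow n), pow_one]

theorem e4b_rs (hx : s.v x ≤ 1) :
    s.rs x = IsLocalRing.residue s.v.valuationSubring ⟨x, hx⟩ := dif_pos hx

theorem e4b_zero (hx : s.v x ≤ 1) : s.rs x = 0 ↔ s.v x < 1 := by
  rw [e4b_rs hx, IsLocalRing.residue_eq_zero_iff, Valuation.mem_maximalIdeal_iff]

theorem e4b_sub (hx : s.v x ≤ 1) (hy : s.v y ≤ 1) : s.rs (x - y) = s.rs x - s.rs y := by
  rw [e4b_rs hx, e4b_rs hy, e4b_rs (s.v.map_sub_le hx hy), ← map_sub]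
  rfl

theorem e4b_mul_le (hx : s.v x ≤ 1) (hy : s.v y ≤ 1) : s.v (x * y) ≤ 1 := by
  rw [map_mul]
  exact mul_le_one' hx hy

theorem e4b_int (s : St) (a : ℤ) : s.v a ≤ 1 := by
  rw [← s.c_int]
  exact s.v_c s.v _

theorem e4b_three_mul (hx : s.v x ≤ 1) : s.v (3 * x) ≤ s.v 3 := by
  rw [map_mul]
  exact mul_le_of_le_one_right' hx

theorem e4b_third (hx : s.v x ≤ s.v 3) : s.v (x / 3) ≤ 1 := by
  rw [map_div₀]
  exact div_le_one_of_le₀ hx zero_le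

theorem three_κ (s : St) : (3 : s.κ) = 0 := by
  have h : (3 : ℂ) ∈ s.v.valuationSubring := s.v_three.le
  have h1 := (e4b_zero (x := 3) h).2 s.v_three
  rw [e4b_rs h] at h1
  rw [← h1, ← map_ofNat (IsLocalRing.residue s.v.valuationSubring) 3]
  rfl

theorem two_κ (s : St) : (2 : s.κ) ≠ 0 := fun h =>
  one_ne_zero (α := s.κ) (by linear_combination s.three_κ - h)

theorem rs_add (hx : s.v x ≤ 1) (hy : s.v y ≤ 1) : s.rs (x + y) = s.rs x + s.rs y := by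
  rw [e4b_rs hx, e4b_rs hy, e4b_rs (s.v.map_add_le hx hy), ← map_add]
  rfl

theorem rs_sub (hx : s.v x ≤ 1) (hy : s.v y ≤ 1) : s.rs (x - y) = s.rs x - s.rs y :=
  e4b_sub hx hy

theorem rs_mul (hx : s.v x ≤ 1) (hy : s.v y ≤ 1) : s.rs (x * y) = s.rs x * s.rs y := by
  rw [e4b_rs hx, e4b_rs hy, e4b_rs (e4b_mul_le hx hy), ← map_mul]
  rfl

theorem rs_one (s : St) : s.rs 1 = 1 := by
  rw [e4b_rs (map_one s.v).le]
  exact map_one _

theorem rs_eq_zero (hx : s.v x ≤ 1) : s.rs x = 0 ↔ s.v x < 1 := by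
  exact e4b_zero hx

theorem rs_congr (hx : s.v x ≤ 1) (h : s.v (x - y) < 1) : s.rs x = s.rs y := by
  have hy : s.v y ≤ 1 := by
    have := s.v.map_sub_le hx h.le
    rwa [sub_sub_cancel] at this
  rw [← sub_eq_zero, ← e4b_sub hx hy]
  exact (e4b_zero h.le).2 h

theorem rs_zero (s : St) : s.rs 0 = 0 := (e4b_zero (by simp)).2 (by simp)

theorem rs_neg (hx : s.v x ≤ 1) : s.rs (-x) = -s.rs x := by
  rw [← zero_sub, rs_sub (by simp) hx, s.rs_zero, zero_sub]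

theorem rs_int (s : St) (a : ℤ) : s.rs a = a := by
  rw [e4b_rs (s.e4b_int a), ← map_intCast (IsLocalRing.residue s.v.valuationSubring) a]
  congr 1

theorem rs_mod {a : ℤ} (h : a % 3 = 1) : s.rs a = 1 := by
  obtain ⟨j, rfl⟩ : ∃ j, a = 3 * j + 1 := ⟨a / 3, by omega⟩
  rw [s.rs_int]
  push_cast
  rw [s.three_κ, zero_mul, zero_add]

theorem rs_sum {ι : Type} (T : Finset ι) {g : ι → ℂ} (h : ∀ i ∈ T, s.v (g i) ≤ 1) :
    s.rs (∑ i ∈ T, g i) = ∑ i ∈ T, s.rs (g i) := by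
  classical
  induction T using Finset.induction_on with
  | empty =>
    rw [Finset.sum_empty, Finset.sum_empty]
    exact (e4b_zero (by simp)).2 (by simp)
  | insert a T ha ih =>
    have h' : ∀ i ∈ T, s.v (g i) ≤ 1 := fun i hi => h i (Finset.mem_insert_of_mem hi)
    rw [Finset.sum_insert ha, Finset.sum_insert ha,
      rs_add (h a (Finset.mem_insert_self _ _)) (s.v.map_sum_le h'), ih h']

theorem tr_add (x y : ℂ) : s.tr n sb (x + y) = s.tr n sb x + s.tr n sb y := by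
  simp only [tr, map_add, Finset.sum_add_distrib, add_div]

theorem td_add (a : ℤ) (x y : ℂ) : s.td n sb a (x + y) = s.td n sb a x + s.td n sb a y := by
  simp only [td, mul_add _ x y, tr_add]
  ring

theorem e4b_sum_poly (hn : 1 ≤ n) (p : Polynomial ℤ) : ∃ e : ℤ,
    ∑ b : (ZMod (3 ^ n))ˣ, Polynomial.aeval (zt n ^ (b : ZMod (3 ^ n)).val) p =
      3 ^ (n - 1) * (e : ℂ) := by
  induction p using Polynomial.induction_on' with
  | add p q hp hq =>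
    obtain ⟨a, ha⟩ := hp
    obtain ⟨b, hb⟩ := hq
    refine ⟨a + b, ?_⟩
    simp only [map_add, Finset.sum_add_distrib]
    rw [ha, hb, Int.cast_add, mul_add]
  | monomial j a =>
    obtain ⟨e, he, -⟩ := sum_zt hn j
    refine ⟨a * e, ?_⟩
    simp only [Polynomial.aeval_monomial, zpow_natCast] at he ⊢
    rw [← Finset.mul_sum, he, Int.cast_mul, eq_intCast]
    ring

theorem e4b_td_poly (hn : 1 ≤ n) (c : ℤ) (p : Polynomial ℤ) : ∃ e : ℤ,
    ∑ b : (ZMod (3 ^ n))ˣ, ((zt n ^ (b : ZMod (3 ^ n)).val) ^ c -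
      (zt n ^ (b : ZMod (3 ^ n)).val) ^ (c * (3 ^ (n - 1) + 1))) *
        Polynomial.aeval (zt n ^ (b : ZMod (3 ^ n)).val) p = 3 ^ (n - 1) * (3 * (e : ℂ)) := by
  induction p using Polynomial.induction_on' with
  | add p q hp hq =>
    obtain ⟨a, ha⟩ := hp
    obtain ⟨b, hb⟩ := hq
    refine ⟨a + b, ?_⟩
    simp only [map_add, mul_add (_ - _ : ℂ), Finset.sum_add_distrib]
    rw [ha, hb, Int.cast_add]
    ring
  | monomial j a =>
    obtain ⟨e, he, e1, e2⟩ := sum_zt hn (c + j)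
    obtain ⟨e', he', e3, e4⟩ := sum_zt hn (c * (3 ^ (n - 1) + 1) + j)
    have h : (3 : ℤ) ^ (n - 1) ∣ c * (3 ^ (n - 1) + 1) + j ↔ (3 : ℤ) ^ (n - 1) ∣ c + j := by
      rw [mul_add, mul_one, add_assoc]
      exact dvd_add_right (dvd_mul_left _ _)
    obtain ⟨d, hd⟩ : (3 : ℤ) ∣ e - e' := by
      by_cases k : (3 : ℤ) ^ (n - 1) ∣ c + j
      · have := e1 k
        have := e3 (h.2 k)
        omega
      · rw [e2 k, e4 (mt h.1 k)]
        exact ⟨0, rfl⟩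
    have hd' : (e : ℂ) - e' = 3 * d := by exact_mod_cast hd
    refine ⟨a * d, ?_⟩
    have k : ∀ b : (ZMod (3 ^ n))ˣ, ((zt n ^ (b : ZMod (3 ^ n)).val) ^ c -
        (zt n ^ (b : ZMod (3 ^ n)).val) ^ (c * (3 ^ (n - 1) + 1))) *
          Polynomial.aeval (zt n ^ (b : ZMod (3 ^ n)).val) (Polynomial.monomial j a) =
        a * ((zt n ^ (b : ZMod (3 ^ n)).val) ^ (c + j) -
          (zt n ^ (b : ZMod (3 ^ n)).val) ^ (c * (3 ^ (n - 1) + 1) + j)) := fun b => by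
      have z := pow_ne_zero (b : ZMod (3 ^ n)).val (zt_ne n)
      rw [Polynomial.aeval_monomial, eq_intCast, zpow_add₀ z c, zpow_add₀ z _ (j : ℤ), zpow_natCast]
      ring
    rw [Finset.sum_congr rfl fun b _ => k b, ← Finset.mul_sum, Finset.sum_sub_distrib, he, he',
      Int.cast_mul]
    linear_combination a * 3 ^ (n - 1) * hd'

theorem e4b_add (hx : x ∈ s.Fx n) (hy : y ∈ s.Fx n) : x + y ∈ s.Fx n := by
  obtain ⟨T, hT⟩ := s.exists_fx n
  exact (hT _).1 (add_mem ((hT _).2 hx) ((hT _).2 hy))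

theorem e4b_fsub (hx : x ∈ s.Fx n) (hy : y ∈ s.Fx n) : x - y ∈ s.Fx n := by
  obtain ⟨T, hT⟩ := s.exists_fx n
  exact (hT _).1 (sub_mem ((hT _).2 hx) ((hT _).2 hy))

theorem e4b_mul (hx : x ∈ s.Fx n) (hy : y ∈ s.Fx n) : x * y ∈ s.Fx n := by
  obtain ⟨T, hT⟩ := s.exists_fx n
  exact (hT _).1 (mul_mem ((hT _).2 hx) ((hT _).2 hy))

theorem e4b_div (hx : x ∈ s.Fx n) (hy : y ∈ s.Fx n) : x / y ∈ s.Fx n := by
  obtain ⟨T, hT⟩ := s.exists_fx n
  exact (hT _).1 (div_mem ((hT _).2 hx) ((hT _).2 hy))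

theorem e4b_inv (hx : x ∈ s.Fx n) : x⁻¹ ∈ s.Fx n := by
  obtain ⟨T, hT⟩ := s.exists_fx n
  exact (hT _).1 (inv_mem ((hT _).2 hx))

theorem e4b_pow (hx : x ∈ s.Fx n) (j : ℕ) : x ^ j ∈ s.Fx n := by
  obtain ⟨T, hT⟩ := s.exists_fx n
  exact (hT _).1 (pow_mem ((hT _).2 hx) j)

theorem e4b_one (s : St) (n : ℕ) : (1 : ℂ) ∈ s.Fx n := by
  obtain ⟨T, hT⟩ := s.exists_fx n
  exact (hT _).1 (one_mem T)

theorem e4b_zpow (hx : x ∈ s.Fx n) (j : ℤ) : x ^ j ∈ s.Fx n := by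
  obtain ⟨T, hT⟩ := s.exists_fx n
  exact (hT _).1 (zpow_mem ((hT _).2 hx) j)

theorem e4b_three (s : St) (n : ℕ) : (3 : ℂ) ∈ s.Fx n := by
  obtain ⟨T, hT⟩ := s.exists_fx n
  exact (hT _).1 (ofNat_mem T 3)

theorem fx_r3 (s : St) (hn : 1 ≤ n) (a : ℕ) : r3 a ∈ s.Fx n :=
  e4b_fsub (e4b_pow (fx_mono hn (s.fx_zt 1)) _) (e4b_pow (fx_mono hn (s.fx_zt 1)) _)

theorem e4b_vzt (s : St) (n : ℕ) : s.v (zt n) = 1 := v_root s.v (by positivity) (zt_pow n)

theorem tr_int (hn : 1 ≤ n) (hs : s.IsSec n sb) (hy : y ∈ s.Fx n) (hv : s.v y ≤ 1) :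
    s.v (s.tr n sb y) ≤ 1 := by
  obtain ⟨a, ha, rfl⟩ := fx_exp hn hy hv
  choose e he using fun i => e4b_sum_poly hn ((1 - Polynomial.X) ^ i)
  have h1 : s.tr n sb (∑ i ∈ Finset.range (2 * 3 ^ (n - 1)), a i * (1 - zt n) ^ i) =
      ∑ i ∈ Finset.range (2 * 3 ^ (n - 1)), a i * e i := by
    rw [tr, div_eq_iff (pow_ne_zero _ three_ne_zero), Finset.sum_mul]
    simp only [map_sum]
    rw [Finset.sum_comm]
    refine Finset.sum_congr rfl fun i _ => ?_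
    rw [mul_assoc, mul_comm (e i : ℂ), ← he, Finset.mul_sum]
    refine Finset.sum_congr rfl fun b _ => ?_
    rw [map_mul, fx_zero (ha i).1 (hs b).1, map_pow, map_sub, map_one, (hs b).2, map_pow, map_sub,
      map_one, Polynomial.aeval_X]
  rw [h1]
  exact s.v.map_sum_le fun i _ => e4b_mul_le (ha i).2 (s.e4b_int _)

theorem td_int (hn : 1 ≤ n) (hs : s.IsSec n sb) (c : ℤ) (hy : y ∈ s.Fx n) (hv : s.v y ≤ 1) :
    s.v (s.td n sb c y) ≤ 1 := by
  obtain ⟨a, ha, rfl⟩ := fx_exp hn hy hv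
  choose e he using fun i => e4b_td_poly hn c ((1 - Polynomial.X) ^ i)
  have h1 : s.td n sb c (∑ i ∈ Finset.range (2 * 3 ^ (n - 1)), a i * (1 - zt n) ^ i) =
      ∑ i ∈ Finset.range (2 * 3 ^ (n - 1)), a i * e i := by
    rw [td, tr, tr, ← sub_div, div_div, div_eq_iff (mul_ne_zero (pow_ne_zero _ three_ne_zero)
      three_ne_zero), Finset.sum_mul, ← Finset.sum_sub_distrib]
    simp only [map_mul, map_sum, Finset.mul_sum, ← Finset.sum_sub_distrib]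
    rw [Finset.sum_comm]
    refine Finset.sum_congr rfl fun i _ => ?_
    rw [mul_assoc, mul_comm (e i : ℂ), mul_assoc, ← he, Finset.mul_sum]
    refine Finset.sum_congr rfl fun b _ => ?_
    rw [fx_zero (ha i).1 (hs b).1, map_zpow₀, map_zpow₀, map_pow, map_sub, map_one, (hs b).2,
      map_pow, map_sub, map_one, Polynomial.aeval_X]
    ring
  rw [h1]
  exact s.v.map_sum_le fun i _ => e4b_mul_le (ha i).2 (s.e4b_int _)

theorem td_cong (hn : 1 ≤ n) (hs : s.IsSec n sb) (c : ℤ) (hx : x ∈ s.Fx n) (hy : y ∈ s.Fx n)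
    (hv : s.v y ≤ 1) (h : s.v (x - y) ≤ s.v 3) :
    s.rs (s.td n sb c x) = s.rs (s.td n sb c y) := by
  have hz : (x - y) / 3 ∈ s.Fx n := e4b_div (e4b_fsub hx hy) (s.e4b_three n)
  have h1 := td_int hn hs c hz (e4b_third h)
  have e : x = y + ((x - y) / 3 + ((x - y) / 3 + (x - y) / 3)) := by ring
  refine (rs_congr (td_int hn hs c hy hv) ?_).symm
  rw [e, td_add, td_add, td_add, sub_add_cancel_left, Valuation.map_neg, ← two_mul, ← one_add_mul,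
    show (1 : ℂ) + 2 = 3 by norm_num]
  exact (e4b_three_mul h1).trans_lt s.v_three

theorem e4b_Dl (hn : 1 ≤ n) (hs : s.IsSec n sb) (hx : x ∈ s.Fx n) : s.Dl n sb x ∈ s.Fx n :=
  e4b_div (e4b_fsub (e4b_div (fx_aut (hs _).1 hx) hx) (e4b_div (fx_aut (hs _).1 hx) hx))
    (s.fx_r3 hn 1)

theorem e4b_pow_sub (hx : s.v x ≤ 1) (hy : s.v y ≤ 1) (i : ℕ) :
    s.v (x ^ i - y ^ i) ≤ s.v (x - y) := by
  induction i with
  | zero => simp
  | succ i ih =>
    rw [show x ^ (i + 1) - y ^ (i + 1) = x * (x ^ i - y ^ i) + y ^ i * (x - y) by ring]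
    refine s.v.map_add_le ?_ ?_
    · rw [map_mul]
      exact (mul_le_of_le_one_left' hx).trans ih
    · rw [map_mul, map_pow]
      exact mul_le_of_le_one_left' (pow_le_one' hy i)

theorem sec_tau (hn : 2 ≤ n) (hs : s.IsSec n sb) : sb (tau n) (zt n) = zt 1 * zt n ∧
    sb (tau n)⁻¹ (zt n) = zt 1 ^ 2 * zt n := by
  have h1 : sb (tau n) (zt n) = zt 1 * zt n := (hs _).2.trans (zt_tau hn)
  obtain ⟨h2, -, -⟩ := tau_fix (sb (tau n) : ℂ →+* ℂ) hn h1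
  have h2' : sb (tau n) (zt 1) = zt 1 := h2
  refine ⟨h1, (sb (tau n)).injective ?_⟩
  rw [(hs _).2, map_pow, (hs _).2, e4b_hmul, mul_inv_cancel, e4b_uone, map_mul, map_pow, h2', h1]
  linear_combination -zt n * zt1_cube

theorem Dl_tri (hn : 2 ≤ n) (hs : s.IsSec n sb) (hx : x ∈ s.Fx n) (hv : s.v x = 1) :
    Tri s.v (sb (tau n) x / x) (sb (tau n)⁻¹ x / x) (s.Dl n sb x) := by
  have h0 : x ≠ 0 := fun e => by
    rw [e, map_zero] at hv
    exact zero_ne_one hv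
  obtain ⟨t1, t2⟩ := sec_tau hn hs
  obtain ⟨a, ha, e⟩ := fx_exp (by omega) hx hv.le
  have k : ∀ b, sb b x = ∑ i ∈ Finset.range (2 * 3 ^ (n - 1)), a i * (1 - sb b (zt n)) ^ i :=
    fun b => by
      rw [e, map_sum]
      exact Finset.sum_congr rfl fun i _ => by
        rw [map_mul, fx_zero (ha i).1 (hs _).1, map_pow, map_sub, map_one]
  refine ⟨?_, ?_, by rw [Dl, sub_self, map_zero]; exact zero_le⟩
  · rw [div_sub_one h0, map_div₀, hv, div_one, k, t1]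
    conv_lhs => rw [e]
    rw [← Finset.sum_sub_distrib]
    refine s.v.map_sum_le fun i _ => ?_
    rw [← mul_sub, map_mul]
    refine (mul_le_of_le_one_left' (ha i).2).trans ((e4b_pow_sub ?_ ?_ i).trans ?_)
    · exact s.v.map_sub_le (map_one _).le (e4b_mul_le (s.e4b_vzt 1).le (s.e4b_vzt n).le)
    · exact s.v.map_sub_le (map_one _).le (s.e4b_vzt n).le
    · rw [show 1 - zt 1 * zt n - (1 - zt n) = zt 1 ^ 2 * zt n * r3 1 by
        linear_combination -zt n * zt1_sub, map_mul, map_mul, map_pow, s.e4b_vzt, s.e4b_vzt,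
        one_pow, one_mul, one_mul]
  · rw [show sb (tau n) x / x + sb (tau n)⁻¹ x / x - 2 =
      (sb (tau n) x + sb (tau n)⁻¹ x - 2 * x) / x by field_simp, map_div₀, hv, div_one, k, k, t1, t2]
    conv_lhs => rw [e]
    rw [Finset.mul_sum, ← Finset.sum_add_distrib, ← Finset.sum_sub_distrib]
    refine s.v.map_sum_le fun i _ => ?_
    have h := e4b_om s.v (s.e4b_vzt n).le ((1 - Polynomial.X) ^ i)
    simp only [map_pow, map_sub, map_one, Polynomial.aeval_X] at h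
    rw [mul_left_comm, ← mul_add, ← mul_sub, map_mul]
    exact (mul_le_of_le_one_left' (ha i).2).trans h

theorem Dl_int (hn : 2 ≤ n) (hs : s.IsSec n sb) (hx : x ∈ s.Fx n) (hv : s.v x = 1) :
    s.Dl n sb x ∈ s.Fx n ∧ s.v (s.Dl n sb x) ≤ 1 := by
  refine ⟨e4b_Dl (by omega) hs hx, ?_⟩
  obtain ⟨h1, h2, -⟩ := Dl_tri hn hs hx hv
  rw [Dl, map_div₀]
  refine div_le_one_of_le₀ ?_ zero_le
  rw [show sb (tau n) x / x - sb (tau n)⁻¹ x / x = (sb (tau n) x / x - 1) + (sb (tau n) x / x - 1) -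
    (sb (tau n) x / x + sb (tau n)⁻¹ x / x - 2) by ring]
  exact s.v.map_sub_le (s.v.map_add_le h1 h1) (h2.trans ((v_r3 s.v).2 s.v_three).2)

theorem del_cong (hn : 2 ≤ n) (hs : s.IsSec n sb) (hx : x ∈ s.Fx n) (hy : y ∈ s.Fx n)
    (hv : s.v y ≤ 1) (h : s.v (s.Dl n sb x - y) ≤ s.v 3) :
    s.del n sb x = s.rs (s.td n sb (-1) y) :=
  td_cong (by omega) hs _ (e4b_Dl (by omega) hs hx) hy hv h

theorem del_mul (hn : 2 ≤ n) (hs : s.IsSec n sb) (hx : x ∈ s.Fx n) (hy : y ∈ s.Fx n)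
    (h : s.v x = 1) (h' : s.v y = 1) : s.del n sb (x * y) = s.del n sb x + s.del n sb y := by
  obtain ⟨a1, a2⟩ := Dl_int hn hs hx h
  obtain ⟨b1, b2⟩ := Dl_int hn hs hy h'
  obtain ⟨c1, c2, -⟩ := Dl_tri hn hs hx h
  obtain ⟨d1, d2, -⟩ := Dl_tri hn hs hy h'
  rw [del_cong hn hs (e4b_mul hx hy) (e4b_add a1 b1) (s.v.map_add_le a2 b2) (by
    simp only [Dl]
    rw [map_mul, map_mul, mul_div_mul_comm, mul_div_mul_comm]
    exact e4b_tri_mul s.v_three c1 c2 d1 d2), td_add]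
  exact rs_add (td_int (by omega) hs _ a1 a2) (td_int (by omega) hs _ b1 b2)

theorem del_div (hn : 2 ≤ n) (hs : s.IsSec n sb) (hx : x ∈ s.Fx n) (hy : y ∈ s.Fx n)
    (h : s.v x = 1) (h' : s.v y = 1) : s.del n sb (x / y) = s.del n sb x - s.del n sb y := by
  have h0 : y ≠ 0 := fun e => by
    rw [e, map_zero] at h'
    exact zero_ne_one h'
  have h1 := del_mul hn hs (e4b_div hx hy) hy (by rw [map_div₀, h, h', div_one]) h'
  rw [div_mul_cancel₀ _ h0] at h1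
  rw [h1, add_sub_cancel_right]

theorem td_zero (c : ℤ) : s.td n sb c 0 = 0 := by
  simp only [td, tr, mul_zero, map_zero, Finset.sum_const_zero, zero_div, sub_self]

theorem del_fix (hn : 2 ≤ n) (hs : s.IsSec n sb) (hx : x ∈ s.Fx n) (h0 : x ≠ 0)
    (h : sb (tau n) x = x) : s.del n sb x = 0 := by
  have _ := hn
  have _ := h0
  have h1 : sb (tau n)⁻¹ x = x := by
    conv_lhs => rw [← h]
    refine hx.2 (sb (tau n)⁻¹ * sb (tau n)) (inert_mul (hs _).1 (hs _).1) ?_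
    rw [AlgEquiv.mul_apply, (hs _).2, map_pow, (hs _).2, e4b_hmul, inv_mul_cancel, e4b_uone]
  rw [del, Dl, h, h1, sub_self, zero_div, td_zero, s.rs_zero]

theorem del_one (hn : 2 ≤ n) (hs : s.IsSec n sb) : s.del n sb 1 = 0 :=
  del_fix hn hs (s.e4b_one n) one_ne_zero (map_one _)

theorem del_prod (hn : 2 ≤ n) (hs : s.IsSec n sb) {ι : Type} (T : Finset ι) {g : ι → ℂ}
    (h : ∀ i ∈ T, g i ∈ s.Fx n ∧ s.v (g i) = 1) :
    s.del n sb (∏ i ∈ T, g i) = ∑ i ∈ T, s.del n sb (g i) := by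
  classical
  induction T using Finset.induction_on with
  | empty =>
    rw [Finset.prod_empty, Finset.sum_empty]
    exact del_one hn hs
  | insert a T ha ih =>
    have h' : ∀ i ∈ T, g i ∈ s.Fx n ∧ s.v (g i) = 1 := fun i hi => h i (Finset.mem_insert_of_mem hi)
    have h1 : ∏ i ∈ T, g i ∈ s.Fx n := by
      obtain ⟨F, hF⟩ := s.exists_fx n
      exact (hF _).1 (prod_mem fun i hi => (hF _).2 (h' i hi).1)
    have h2 : s.v (∏ i ∈ T, g i) = 1 := by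
      rw [map_prod]
      exact Finset.prod_eq_one fun i hi => (h' i hi).2
    rw [Finset.prod_insert ha, Finset.sum_insert ha,
      del_mul hn hs (h a (Finset.mem_insert_self _ _)).1 h1 (h a (Finset.mem_insert_self _ _)).2 h2,
      ih h']

theorem del_pow (hn : 2 ≤ n) (hs : s.IsSec n sb) (hx : x ∈ s.Fx n) (h : s.v x = 1) (j : ℕ) :
    s.del n sb (x ^ j) = j * s.del n sb x := by
  induction j with
  | zero => rw [pow_zero, del_one hn hs, Nat.cast_zero, zero_mul]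
  | succ j ih =>
    rw [pow_succ, del_mul hn hs (e4b_pow hx j) hx (by rw [map_pow, h, one_pow]) h, ih,
      Nat.cast_succ, add_one_mul]

theorem del_root (hn : 2 ≤ n) (hs : s.IsSec n sb) (b : ℕ) : s.del n sb (zt n ^ b) = 0 := by
  have k : ∀ c : ℤ, ¬ (3 : ℤ) ∣ c → s.tr n sb (zt n ^ c * 1) = 0 := fun c hc => by
    obtain ⟨e, he, -, h0⟩ := sum_zt (n := n) (by omega) c
    rw [h0 fun d => hc ((dvd_pow_self 3 (by omega)).trans d), Int.cast_zero, mul_zero] at he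
    rw [tr, mul_one, Finset.sum_congr rfl fun b _ => by rw [map_zpow₀, (hs b).2], he, zero_div]
  have h1 : s.del n sb (zt n) = 0 := by
    have e : s.Dl n sb (zt n) = 1 := by
      rw [Dl, (sec_tau hn hs).1, (sec_tau hn hs).2, mul_div_cancel_right₀ _ (zt_ne n),
        mul_div_cancel_right₀ _ (zt_ne n), div_eq_one_iff_eq r3_ne, r3, pow_one]
    have d : (3 : ℤ) ∣ 3 ^ (n - 1) := dvd_pow_self 3 (by omega)
    rw [del, e, td, k _ (by norm_num), k _ (by omega), sub_self, zero_div, s.rs_zero]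
  rw [del_pow hn hs (s.fx_zt n) (s.e4b_vzt n), h1, mul_zero]

theorem del_cube (hn : 2 ≤ n) (hs : s.IsSec n sb) {n' : ℕ} (h : x ^ 3 ∈ s.Fx n) (h' : x ∈ s.Fx n')
    (hv : s.v x = 1) : s.del n sb (x ^ 3) = 0 := by
  obtain ⟨j, h1⟩ := cube_mem (by omega) h h'
  have h2 := del_pow hn hs h1 (by rw [map_mul, map_pow, s.e4b_vzt, hv, one_pow, one_mul]) 3
  rwa [Nat.cast_ofNat, s.three_κ, zero_mul, mul_pow, ← pow_mul, mul_comm j, pow_mul, zt_cube,
    del_mul hn hs (e4b_pow (s.fx_zt n) j) h (by rw [map_pow, s.e4b_vzt, one_pow])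
      (by rw [map_pow, hv, one_pow]), del_root hn hs, zero_add] at h2

end St

end Pool.Agent.P.MP_20768c_nt.Tz.Cv

end

-- part Cv.E5_p
section

set_option autoImplicit false

open Complex NumberField IsDedekindDomain Filter Topology
open UpperHalfPlane hiding I
open scoped ComplexConjugate Real MatrixGroups

namespace Pool.Agent.P.MP_20768c_nt.Tz.Cv

open Pool.Agent.P.MP_20768c_nt.Tz.EQ (Lt pr sp IsLat jL qN)

namespace Cb

variable {s : Cb} {Γ : Type} [LinearOrderedCommGroupWithZero Γ] {σ : s.Au} {n : ℕ} {x : ℂ}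

theorem card_GN (s : Cb) : Nat.card s.GN = s.g :=
  IsGalois.card_aut_eq_finrank _ _

theorem g_ndvd (s : Cb) : ¬ 3 ∣ s.g := s.ndvd

theorem g_pos (s : Cb) : 0 < s.g := Module.finrank_pos

theorem inert_fix_N (h : Inert s.v σ) (hx : x ∈ s.N) : σ x = x := s.unr σ h x hx

theorem N_le (s : Cb) (n : ℕ) : s.N ≤ s.K n := by
  exact le_sup_left

theorem zt_mem (s : Cb) (n : ℕ) : zt n ∈ s.K n := by
  exact (le_sup_right : _ ≤ s.K n) (IntermediateField.mem_adjoin_simple_self _ _)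

theorem K_mono (s : Cb) {n' : ℕ} (h : n ≤ n') : s.K n ≤ s.K n' := by
  obtain ⟨j, rfl⟩ := Nat.exists_eq_add_of_le h
  exact sup_le (s.N_le _) (IntermediateField.adjoin_simple_le_iff.2
    (zt_pow_three n j ▸ pow_mem (s.zt_mem _) _))

theorem K_zero (s : Cb) : s.K 0 = s.N := by
  exact le_antisymm (sup_le le_rfl (IntermediateField.adjoin_simple_le_iff.2
    (zt_zero ▸ one_mem _))) (s.N_le 0)

theorem e5p_eq {τ : s.Au} (h : ∀ x ∈ s.N, σ x = τ x) (h' : σ (zt n) = τ (zt n))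
    (hx : x ∈ s.K n) : σ x = τ x := by
  let T : IntermediateField s.k ℂ :=
    (AlgHom.equalizer (σ : ℂ →ₐ[s.k] ℂ) (τ : ℂ →ₐ[s.k] ℂ)).toIntermediateField fun x hx => by
      rw [AlgHom.mem_equalizer] at hx ⊢
      rw [map_inv₀, map_inv₀, hx]
  exact (sup_le h (IntermediateField.adjoin_simple_le_iff.2 h') : s.K n ≤ T) hx

theorem fix_K : (∀ x ∈ s.K n, σ x = x) ↔ (∀ x ∈ s.N, σ x = x) ∧ σ (zt n) = zt n := by
  exact ⟨fun h => ⟨fun x hx => h x (s.N_le n hx), h _ (s.zt_mem n)⟩,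
    fun h x hx => e5p_eq (τ := 1) h.1 h.2 hx⟩

theorem eq_on_K {τ : s.Au} (h : ∀ x ∈ s.N, σ x = τ x) (h' : σ (zt n) = τ (zt n))
    (hx : x ∈ s.K n) : σ x = τ x := by
  exact e5p_eq h h' hx

theorem K_fx (hx : x ∈ s.K n) : x ∈ s.Fx n := by
  exact ⟨s.alg_of_mem _ hx, fun σ h h' =>
    fix_K.2 ⟨fun y hy => inert_fix_N h hy, h'⟩ x hx⟩

instance isGalois_K (s : Cb) (n : ℕ) : IsGalois s.k (s.K n) := by
  have h : IsCyclotomicExtension {3 ^ n} s.k (IntermediateField.adjoin s.k {zt n}) := by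
    change IsCyclotomicExtension {3 ^ n} s.k (IntermediateField.adjoin s.k {zt n}).toSubalgebra
    rw [IntermediateField.adjoin_simple_toSubalgebra_of_isAlgebraic ((zt_alg n).tower_top _)]
    exact (zt_prim n).adjoin_isCyclotomicExtension s.k
  have := IsCyclotomicExtension.isGalois {3 ^ n} s.k (IntermediateField.adjoin s.k {zt n})
  have : Normal s.k (s.K n) := IntermediateField.normal_sup _ _ _ _
  exact ⟨⟩

theorem K_aut (σ : s.Au) (hx : x ∈ s.K n) : σ x ∈ s.K n := by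
  exact s.au_mem _ σ hx

theorem e5p_comm (σ τ : s.Au) (hx : x ∈ s.K n) : σ (τ x) = τ (σ x) := by
  refine eq_on_K (σ := σ * τ) (τ := τ * σ) (fun y hy => ?_) ?_ hx
  · obtain ⟨ρ, -, hρ⟩ := s.exists_res s.N
    rw [← hρ _ ⟨y, hy⟩, ← hρ _ ⟨y, hy⟩, map_mul, map_mul, s.comm]
  · obtain ⟨a, ha⟩ := hom_zt (σ : ℂ →+* ℂ) n
    obtain ⟨b, hb⟩ := hom_zt (τ : ℂ →+* ℂ) n
    rw [RingHom.coe_coe] at ha hb
    rw [AlgEquiv.mul_apply, AlgEquiv.mul_apply, ha, hb, map_pow, map_pow, ha, hb, ← pow_mul,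
      ← pow_mul, mul_comm]

theorem comm_K (g h : s.G n) : g * h = h * g := by
  obtain ⟨ρ, h1, h2⟩ := s.exists_res (s.K n)
  obtain ⟨σ, rfl⟩ := h1 g
  obtain ⟨τ, rfl⟩ := h1 h
  ext x
  rw [← map_mul, ← map_mul, h2, h2]
  exact e5p_comm σ τ x.2

theorem comm_au (σ τ : s.Au) (hx : x ∈ s.K n) : σ (τ x) = τ (σ x) := by
  exact e5p_comm σ τ hx

theorem e5p_equi {X A B : Type} {a : X → A} {b : X → B} (ha : Function.Surjective a)
    (hb : Function.Surjective b) (h : ∀ x y, a x = a y ↔ b x = b y) : Nat.card A = Nat.card B := by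
  refine Nat.card_eq_of_bijective (fun y => b (Function.surjInv ha y)) ⟨fun y z e => ?_, fun y => ?_⟩
  · rw [← Function.surjInv_eq ha y, ← Function.surjInv_eq ha z]
    exact (h _ _).2 e
  · obtain ⟨x, rfl⟩ := hb y
    exact ⟨a x, (h _ _).1 (Function.surjInv_eq ha _)⟩

theorem e5p_inj {a b : ZMod (3 ^ n)} (h : zt n ^ a.val = zt n ^ b.val) : a = b := by
  rw [← zpow_natCast, ← zpow_natCast, zt_congr] at h
  simpa using h

theorem e5p_cardG (s : Cb) (hn : 1 ≤ n) : Nat.card (s.G n) = 2 * s.g * 3 ^ (n - 1) := by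
  obtain ⟨ρ, h1, h2⟩ := s.exists_res (s.K n)
  obtain ⟨ρ', h3, h4⟩ := s.exists_res s.N
  choose ν hν using fun σ : s.Au => hom_zt (σ : ℂ →+* ℂ) n
  simp only [RingHom.coe_coe] at hν
  rw [mul_comm 2, mul_assoc, ← card_GN s, ← card_units hn, ← Nat.card_prod]
  refine e5p_equi (b := fun σ => (ρ' σ, ν σ)) h1 (fun ⟨g, b⟩ => ?_) fun σ τ => ⟨fun e => ?_, fun e => ?_⟩
  · obtain ⟨σ, rfl⟩ := h3 g
    obtain ⟨τ, k1, k2⟩ := s.exists_inert n ((ν σ)⁻¹ * b)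
    refine ⟨σ * τ, Prod.ext (AlgEquiv.ext fun y => Subtype.ext ?_) (Units.ext (e5p_inj ?_))⟩
    · rw [h4, h4, AlgEquiv.mul_apply, inert_fix_N k1 y.2]
    · rw [← hν, AlgEquiv.mul_apply, k2, map_pow, hν, ← pow_mul, ← zpow_natCast]
      refine (zt_val ?_).symm
      simp
  · have : ∀ y ∈ s.K n, σ y = τ y := fun y hy => by rw [← h2 σ ⟨y, hy⟩, e, h2]
    refine Prod.ext (AlgEquiv.ext fun y => Subtype.ext ?_) (Units.ext (e5p_inj ?_))
    · rw [h4, h4, this _ (s.N_le n y.2)]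
    · rw [← hν, ← hν, this _ (s.zt_mem n)]
  · refine AlgEquiv.ext fun y => Subtype.ext ?_
    rw [h2, h2]
    refine eq_on_K (fun z hz => ?_) ?_ y.2
    · rw [← h4 σ ⟨z, hz⟩, (Prod.mk.inj e).1, h4]
    · rw [hν, hν, (Prod.mk.inj e).2]

theorem finrank_K (s : Cb) (hn : 1 ≤ n) :
    Module.finrank s.k (s.K n) = 2 * s.g * 3 ^ (n - 1) := by
  exact (IsGalois.card_aut_eq_finrank _ _).symm.trans (e5p_cardG s hn)

theorem finrank_K' (s : Cb) (hn : 1 ≤ n) :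
    Module.finrank ℚ (s.K n) = 4 * s.g * 3 ^ (n - 1) := by
  rw [← Module.finrank_mul_finrank ℚ s.k (s.K n), s.finrank_k, s.finrank_K hn]
  ring

theorem card_G (s : Cb) (hn : 1 ≤ n) : Nat.card (s.G n) = 2 * s.g * 3 ^ (n - 1) := by
  exact e5p_cardG s hn

theorem places_K (s : Cb) (hn : 1 ≤ n) : InfinitePlace.nrRealPlaces (s.K n) = 0 ∧
    InfinitePlace.nrComplexPlaces (s.K n) = 2 * s.g * 3 ^ (n - 1) ∧
    Units.rank (s.K n) + 1 = 2 * s.g * 3 ^ (n - 1) := by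
  have h0 : InfinitePlace.nrRealPlaces (s.K n) = 0 := by
    refine nrRealPlaces_eq_zero_iff.2 ⟨fun w => InfinitePlace.not_isReal_iff_isComplex.1 fun hw => ?_⟩
    let φ := (InfinitePlace.embedding_of_isReal hw).comp (algebraMap s.O (s.K n))
    have h1 := congrArg φ s.w_sq
    rw [map_pow, map_sub, map_mul, map_intCast, map_natCast] at h1
    have h2 : (8 : ℝ) ≤ s.dd := by exact_mod_cast s.dd_ge
    have h3 : (s.dd : ℝ) = 4 * s.m - s.t ^ 2 := by exact_mod_cast s.dd_eq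
    nlinarith [sq_nonneg (2 * φ s.w - s.t)]
  have h1 := InfinitePlace.card_add_two_mul_card_eq_rank (s.K n)
  have h2 := InfinitePlace.card_eq_nrRealPlaces_add_nrComplexPlaces (s.K n)
  have h3 := s.finrank_K' hn
  have h4 : 0 < s.g * 3 ^ (n - 1) := Nat.mul_pos s.g_pos (by positivity)
  rw [mul_assoc] at h3 ⊢
  refine ⟨h0, by omega, ?_⟩
  unfold Units.rank
  omega

theorem zt_not_mem (s : Cb) (hn : 1 ≤ n) : zt (n + 1) ∉ s.K n := by
  intro h
  obtain ⟨σ, k1, k2⟩ := s.exists_inert (n + 1) (tau (n + 1))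
  rw [zt_tau (by omega)] at k2
  have := (K_fx h).2 σ k1 (by rw [← zt_cube, map_pow, k2, mul_pow, zt1_cube, one_mul])
  rw [k2] at this
  exact zt1_ne ((mul_eq_right₀ (zt_ne _)).1 this)

theorem tors_K (hn : 1 ≤ n) (hx : x ∈ s.K n) {j : ℕ} (h : x ^ 3 ^ j = 1) :
    ∃ b : ℕ, x = zt n ^ b := by
  refine root_zt ?_
  induction j generalizing x with
  | zero => rw [pow_zero, pow_one] at h; rw [h, one_pow]
  | succ j ih =>
    have h1 := ih (pow_mem hx 3) (by rwa [← pow_mul, ← pow_succ'])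
    rw [← pow_mul, ← pow_succ'] at h1
    obtain ⟨a, ha⟩ := root_zt h1
    have e : x / zt n ^ (a / 3) = zt (n + 1) ^ (a % 3) := by
      rw [div_eq_iff (pow_ne_zero _ (zt_ne n)), ← zt_cube n, ← pow_mul, ← pow_add, Nat.mod_add_div,
        ha]
    have m : zt (n + 1) ^ (a % 3) ∈ s.K n := e ▸ div_mem hx (pow_mem (s.zt_mem n) _)
    rcases (show a % 3 = 0 ∨ a % 3 = 1 ∨ a % 3 = 2 by omega) with e1 | e1 | e1 <;> rw [e1] at e m
    · rw [pow_zero, div_eq_one_iff_eq (pow_ne_zero _ (zt_ne n))] at e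
      rw [e, pow_right_comm, zt_pow, one_pow]
    · exact absurd (pow_one (zt (n + 1)) ▸ m) (s.zt_not_mem hn)
    · refine absurd ?_ (s.zt_not_mem hn)
      rw [eq_div_of_mul_eq (pow_ne_zero 2 (zt_ne (n + 1))) ((pow_succ' _ 2).symm.trans (zt_cube n))]
      exact div_mem (s.zt_mem n) m

end Cb

end Pool.Agent.P.MP_20768c_nt.Tz.Cv

end

-- part Cv.G4
section

set_option autoImplicit false

open Complex NumberField IsDedekindDomain Filter Topology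
open UpperHalfPlane hiding I
open scoped ComplexConjugate Real MatrixGroups

namespace Pool.Agent.P.MP_20768c_nt.Tz.Cv

open Pool.Agent.P.MP_20768c_nt.Tz.EQ (Lt pr sp IsLat jL qN)

namespace St

variable (s : St) {f : Ideal s.O} {c n : ℕ}

theorem g4_md (f : Ideal s.O) (n : ℕ) (L : s.Sub) :
    s.idl (s.md f n) * L = s.sc (3 ^ n) * (s.idl f * L) := by
  have e : s.c (3 ^ n) = 3 ^ n := by
    rw [s.c_pow]
    exact congrArg (· ^ n) (by simpa using s.c_nat 3)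
  rw [md, s.idl_mul, s.idl_span, e, mul_comm (s.idl f), mul_assoc]

theorem g4_mem (f : Ideal s.O) (n : ℕ) (L : s.Sub) {y : ℂ} (h : y ∈ s.idl (s.md f n) * L) :
    y / 3 ^ n ∈ s.idl f * L := by
  have h2 : (3 : ℂ) ^ n ≠ 0 := pow_ne_zero _ three_ne_zero
  rw [g4_md] at h
  rw [← s.mul_mem_sc' h2, mul_div_cancel₀ _ h2]
  exact h

theorem g4_lat (hc : s.Cc f c) (p : s.Pair) : IsLat (s.zl (s.idl f * p.L)) :=
  s.isLat_zl ((s.isUnit_idl (s.cop_ne hc.1)).mul p.unit)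

theorem thp_inv (hc : s.Cc f c) (n : ℕ) : s.Inv (s.md f n) (s.thp f c n) := by
  rintro x p q ⟨h0, h1, h2⟩
  have h3 := s.g4_mem f n q.L h2
  have e : q.ρ / 3 ^ n = x * (p.ρ / 3 ^ n) + (q.ρ - x * p.ρ) / 3 ^ n := by ring
  unfold thp
  rw [e, tht_add (s.g4_lat hc q) c _ (s.mem_zl.2 h3), h1, mul_left_comm, s.zl_sc,
    tht_sc (s.g4_lat hc p) h0 hc.spec.1 hc.spec.2.1]

theorem g4_le (f : Ideal s.O) (hn : 1 ≤ n) {q : Ideal s.O} (h2 : (3 : s.O) ∈ q) :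
    s.md f n ≤ q := by
  refine le_trans Ideal.mul_le_right ?_
  rw [Ideal.span_singleton_le_iff_mem]
  exact q.pow_mem_of_mem h2 n hn

theorem g4_not (hn : 1 ≤ n) {p : s.Pair} (hp : IsUnit (s.cl (s.md f n) p)) {q : Ideal s.O}
    (hq : q.IsMaximal) (h2 : (3 : s.O) ∈ q) {β : s.O} (hβ : β ∉ q) : s.c β * p.ρ / 3 ∉ p.L := by
  intro h
  have h3 := s.mul_mem_idl h2 h
  have e : s.c 3 * (s.c β * p.ρ / 3) = s.c β * p.ρ := by
    rw [show s.c 3 = 3 by simpa using s.c_nat 3]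
    ring
  rw [e] at h3
  exact s.unit_not_mem hp (s.g4_le f hn h2) hq.ne_top (s.prime_mem p.unit hq hβ p.mem h3)

theorem g4_nd {a : ℕ} (ha : ¬ 3 ∣ a) : (a : s.O) ∉ s.p1 ∧ (a : s.O) ∉ s.p2 := by
  have h := s.int_mem (a : ℤ)
  have k : ¬ (3 : ℤ) ∣ (a : ℤ) := fun k => ha (by exact_mod_cast k)
  rw [Int.cast_natCast] at h
  exact ⟨h.1.not.2 k, h.2.not.2 k⟩

theorem thp_gen (hc : s.Cc f c) (hn : 1 ≤ n) {p : s.Pair} (hp : IsUnit (s.cl (s.md f n) p)) :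
    s.Gen3 (s.idl f * p.L) (Ideal.absNorm f * 3 ^ (n - 1) * (c * (p.ρ / 3 ^ n))) ∧
      c * (p.ρ / 3 ^ n) ∉ s.idl f * p.L := by
  obtain ⟨j, rfl⟩ : ∃ j, n = j + 1 := ⟨n - 1, by omega⟩
  have h2 : (3 : ℂ) ^ j ≠ 0 := pow_ne_zero _ three_ne_zero
  have e : (Ideal.absNorm f : ℂ) * 3 ^ (j + 1 - 1) * (c * (p.ρ / 3 ^ (j + 1))) =
      Ideal.absNorm f * c * p.ρ / 3 := by
    rw [Nat.add_sub_cancel, pow_succ]
    field_simp
  have hc3 : ¬ 3 ∣ c := by
    have := hc.spec.2.1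
    omega
  have ho : ¬ 3 ∣ Ideal.absNorm f * c := fun h =>
    ((Nat.Prime.dvd_mul Nat.prime_three).1 h).elim hc.1 hc3
  rw [e]
  refine ⟨⟨?_, fun h => ?_, fun h => ?_⟩, fun h => ?_⟩
  · have h3 := s.mul_mem_idl (Ideal.absNorm_mem f) (s.c_mul_mem (c : s.O) p.mem)
    rw [s.c_nat, s.c_nat] at h3
    convert h3 using 1
    ring
  · refine s.g4_not hn hp s.p2_max s.three_mem.2
      (β := s.w * ((Ideal.absNorm f * c : ℕ) : s.O)) (fun k => ?_) ?_
    · exact (s.p2_max.isPrime.mem_or_mem k).elim s.w_mem.2.2.1 (s.g4_nd ho).2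
    · rw [s.c_mul, s.c_nat]
      convert s.idl_mul_le f p.L h using 1
      push_cast
      ring
  · refine s.g4_not hn hp s.p1_max s.three_mem.1
      (β := s.wb * ((Ideal.absNorm f * c : ℕ) : s.O)) (fun k => ?_) ?_
    · exact (s.p1_max.isPrime.mem_or_mem k).elim s.w_mem.2.2.2 (s.g4_nd ho).1
    · rw [s.c_mul, s.c_nat]
      convert s.idl_mul_le f p.L h using 1
      push_cast
      ring
  · refine s.g4_not hn hp s.p2_max s.three_mem.2 (β := (c : s.O)) (s.g4_nd hc3).2 ?_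
    have h3 := s.c_mul_mem ((3 ^ j : ℕ) : s.O) (s.idl_mul_le f p.L h)
    rw [s.c_nat] at h3
    rw [s.c_nat]
    convert h3 using 1
    push_cast
    rw [pow_succ]
    field_simp

theorem g4_gp (hc : s.Cc f c) (n : ℕ) (p : s.Pair) :
    s.gp (s.md f n) p = eG (s.zl (s.idl f * p.L)) (p.ρ / 3 ^ n) := by
  have h2 : (3 : ℂ) ^ n ≠ 0 := pow_ne_zero _ three_ne_zero
  rw [← eG_sc (s.g4_lat hc p) h2, mul_div_cancel₀ _ h2, ← s.zl_sc, ← g4_md, gp]

theorem g4_npL (p : s.Pair) (β : s.O) : (p * s.np β).L = p.L := by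
  rw [mul_L, s.np_L, mul_one]

theorem g4_gp' (hc : s.Cc f c) (n : ℕ) (p : s.Pair) :
    s.gp (s.md f n) (p * s.np c) = eG (s.zl (s.idl f * p.L)) (c * (p.ρ / 3 ^ n)) := by
  rw [s.g4_gp hc, g4_npL, mul_ρ, s.np_ρ, s.c_nat]
  congr 1
  ring

/-- the constant of the limit formula -/
noncomputable def g4K (f : Ideal s.O) (c n : ℕ) (p : s.Pair) : ℝ :=
  c ^ 2 * s.gp (s.md f n) p - s.gp (s.md f n) (p * s.np c) + Real.log (‖s.thp f c n p‖ ^ 2)

theorem g4K_eq (hc : s.Cc f c) (hn : 1 ≤ n) {p q : s.Pair} (hp : IsUnit (s.cl (s.md f n) p))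
    (hq : IsUnit (s.cl (s.md f n) q)) (h : q.L = p.L) : s.g4K f c n q = s.g4K f c n p := by
  obtain ⟨K, hK⟩ := kron (s.g4_lat hc p) hc.spec.1
  have h1 := hK _ (s.mem_zl.not.2 (s.thp_gen hc hn hp).2)
  have h2 := hK (q.ρ / 3 ^ n) (s.mem_zl.not.2 (h ▸ (s.thp_gen hc hn hq).2))
  unfold g4K thp
  rw [s.g4_gp' hc, s.g4_gp' hc, s.g4_gp hc, s.g4_gp hc, h, h1, h2]

theorem g4_shift {m : Ideal s.O} (hm : m ≠ ⊥) (φ : MulChar (s.Pr m) ℂ) {F : s.Pair → ℂ}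
    (hF : s.Inv m F) {q : s.Pair} (hq : IsUnit (s.cl m q)) :
    ∑ᶠ C : (s.Pr m)ˣ, (φ C)⁻¹ * F (s.out C.1 * q) =
      φ (s.cl m q) * ∑ᶠ C : (s.Pr m)ˣ, (φ C)⁻¹ * F (s.out C.1) := by
  have := s.finite_Pr hm
  have := Fintype.ofFinite (s.Pr m)ˣ
  have hI : s.Inv m fun p => (φ (s.cl m p))⁻¹ * F p := fun x p q h => by
    beta_reduce
    rw [hF x p q h, s.cl_eq.2 ⟨x, h⟩]
  have h0 : φ (s.cl m q) ≠ 0 := (hq.map φ).ne_zero
  have h := s.sum_mul' hI hq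
  simp only [map_mul, s.cl_out] at h
  rw [← h, finsum_eq_sum_of_fintype, finsum_eq_sum_of_fintype, Finset.mul_sum]
  refine Finset.sum_congr rfl fun C _ => ?_
  rw [mul_inv, ← mul_assoc, ← mul_assoc, mul_comm (φ (s.cl m q)), mul_assoc (φ C)⁻¹,
    mul_inv_cancel₀ h0, mul_one]

theorem log_sum (hc : s.Cc f c) (hn : 2 ≤ n) {φ : MulChar (s.Pr (s.md f n)) ℂ}
    (hφ : ∃ β : s.O, IsUnit (s.cl (s.md f n) (s.np β)) ∧ φ (s.cl (s.md f n) (s.np β)) ≠ 1) :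
    ∑ᶠ C : (s.Pr (s.md f n))ˣ, (φ C)⁻¹ * (Real.log (‖s.thp f c n (s.out C.1)‖ ^ 2) : ℂ) =
      -(c ^ 2 - φ (s.cl (s.md f n) (s.np c))) * s.ZG (s.md f n) φ := by
  unfold ZG
  have hn1 : 1 ≤ n := by omega
  have hm : s.md f n ≠ ⊥ := s.md_ne (s.cop_ne hc.1) n
  have hg := s.gp_inv (s.md f n) hm
  obtain ⟨β, hβ, hβ1⟩ := hφ
  have hK : s.Inv (s.md f n) fun p => (s.g4K f c n p : ℂ) := fun x p q h => by
    unfold g4K
    beta_reduce
    rw [hg x p q h, hg x _ _ (h.mul (s.np c)), s.thp_inv hc n x p q h]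
  have h1 := s.g4_shift hm φ hK hβ
  have e1 : ∀ C : (s.Pr (s.md f n))ˣ,
      s.g4K f c n (s.out C.1 * s.np β) = s.g4K f c n (s.out C.1) := fun C =>
    s.g4K_eq hc hn1 (s.unit_out C) (by rw [map_mul]; exact (s.unit_out C).mul hβ) (s.g4_npL _ β)
  simp only [e1] at h1
  have h2 : ∑ᶠ C : (s.Pr (s.md f n))ˣ, (φ C)⁻¹ * (s.g4K f c n (s.out C.1) : ℂ) = 0 := by
    by_contra h
    exact hβ1 (mul_right_cancel₀ h (by rw [one_mul]; exact h1.symm))
  have hG : s.Inv (s.md f n) fun p => (s.gp (s.md f n) p : ℂ) := fun x p q h => by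
    beta_reduce
    rw [hg x p q h]
  have h3 := s.g4_shift hm φ hG (hc.spec.2.2.2 n)
  have := s.finite_Pr hm
  have := Fintype.ofFinite (s.Pr (s.md f n))ˣ
  simp only [finsum_eq_sum_of_fintype] at h2 h3 ⊢
  have h4 : ∑ C : (s.Pr (s.md f n))ˣ, (φ C)⁻¹ * (s.g4K f c n (s.out C.1) : ℂ) =
      c ^ 2 * ∑ C : (s.Pr (s.md f n))ˣ, (φ C)⁻¹ * (s.gp (s.md f n) (s.out C.1) : ℂ) -
      ∑ C : (s.Pr (s.md f n))ˣ, (φ C)⁻¹ * (s.gp (s.md f n) (s.out C.1 * s.np c) : ℂ) +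
      ∑ C : (s.Pr (s.md f n))ˣ, (φ C)⁻¹ * (Real.log (‖s.thp f c n (s.out C.1)‖ ^ 2) : ℂ) := by
    rw [Finset.mul_sum, ← Finset.sum_sub_distrib, ← Finset.sum_add_distrib]
    refine Finset.sum_congr rfl fun C _ => ?_
    unfold g4K
    push_cast
    ring
  linear_combination h2 - h4 + h3

end St

end Pool.Agent.P.MP_20768c_nt.Tz.Cv

end

-- part Cv.U4_p
section

set_option autoImplicit false

open Complex NumberField IsDedekindDomain Filter Topology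
open UpperHalfPlane hiding I
open scoped ComplexConjugate Real MatrixGroups

namespace Pool.Agent.P.MP_20768c_nt.Tz.Cv

open Pool.Agent.P.MP_20768c_nt.Tz.EQ (Lt pr sp IsLat jL qN)

theorem u4p_root {M : Type} [CommMonoid M] [Finite M] (φ : MulChar M ℂ) (x : M) :
    φ x = 0 ∨ ∃ k, 0 < k ∧ φ x ^ k = 1 := by
  by_cases h : IsUnit x
  · obtain ⟨u, rfl⟩ := h
    refine Or.inr ⟨Nat.card Mˣ, Nat.card_pos, ?_⟩
    rw [← map_pow, ← Units.val_pow_eq_pow_val, pow_card_eq_one', Units.val_one, map_one]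
  · exact Or.inl (φ.map_nonunit h)

theorem u4p_norm {M : Type} [CommMonoid M] [Finite M] (φ : MulChar M ℂ) (x : M) : ‖φ x‖ ≤ 1 := by
  rcases u4p_root φ x with h | ⟨k, hk, h⟩
  · rw [h, norm_zero]; exact zero_le_one
  · exact (Complex.norm_eq_one_of_pow_eq_one h hk.ne').le

theorem u4p_val {M : Type} [CommMonoid M] [Finite M] (v : Valuation ℂ NNReal) (φ : MulChar M ℂ)
    (x : M) : v (φ x) ≤ 1 ∧ v (conj (φ x)) ≤ 1 := by
  rcases u4p_root φ x with h | ⟨k, hk, h⟩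
  · simp [h]
  · exact ⟨(St.v_root v hk h).le, (St.v_root v hk (by rw [← map_pow, h, map_one])).le⟩

theorem u4p_nat (v : Valuation ℂ NNReal) (k : ℕ) : v k ≤ 1 := by
  induction k with
  | zero => simp
  | succ k ih =>
    rw [Nat.cast_succ]
    exact v.map_add_le ih v.map_one.le

theorem u4p_fac (s : St) {G : ℕ} (hG : 0 < G) (Q : HeightOneSpectrum (𝓞 s.k)) :
    ∃ R n₀ : ℕ, ∀ n, n₀ ≤ n → ∀ (ψ : MulChar (ZMod (3 ^ n)) ℂ) (z : ℂ), ψ (tau n) ≠ 1 →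
      (z = 0 ∨ ¬ 3 ∣ Ideal.absNorm Q.asIdeal ∧
        ∃ ω : ℂ, ω ^ G = 1 ∧ z = ω * ψ (Ideal.absNorm Q.asIdeal)) →
      z ≠ 1 ∧ s.v 3 ^ R ≤ s.v ((‖1 - z *
        (((Ideal.absNorm Q.asIdeal : ℝ) ^ (-(1 : ℝ)) : ℝ) : ℂ)‖ ^ 2 : ℝ) : ℂ) ^ 3 ^ n := by
  have hone : ∀ R n : ℕ, (0 : ℂ) ≠ 1 ∧ s.v 3 ^ R ≤ s.v ((‖1 - 0 *
      (((Ideal.absNorm Q.asIdeal : ℝ) ^ (-(1 : ℝ)) : ℝ) : ℂ)‖ ^ 2 : ℝ) : ℂ) ^ 3 ^ n := by
    intro R n
    rw [zero_mul, sub_zero, norm_one, one_pow, ofReal_one, map_one, one_pow]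
    exact ⟨zero_ne_one, pow_le_one' s.v_three.le _⟩
  by_cases hx : 3 ∣ Ideal.absNorm Q.asIdeal
  · refine ⟨0, 0, fun n _ ψ z _ h => ?_⟩
    rcases h with rfl | h
    exacts [hone 0 n, absurd hx h.1]
  have h1 : Ideal.absNorm Q.asIdeal ≠ 1 := fun h =>
    Q.isPrime.ne_top (Ideal.absNorm_eq_one_iff.1 h)
  have v0 : s.v 3 ≠ 0 := by
    rw [Ne, Valuation.zero_iff]
    exact three_ne_zero
  obtain ⟨R, n₀, hR⟩ := W_bound s.v v0 s.v_three hx h1 hG
  refine ⟨R + R, n₀, fun n hn ψ z hψ h => ?_⟩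
  rcases h with rfl | ⟨-, ω, hω, rfl⟩
  · exact hone _ n
  generalize Ideal.absNorm Q.asIdeal = x at hx hR
  have b1 := hR n hn ψ ω hψ hω
  have b2 := (hR n hn (ψ.ringHomComp (starRingEnd ℂ)) (conj ω)
    (by
      rw [MulChar.ringHomComp_apply]
      exact fun h => hψ ((map_eq_one_iff _ (starRingEnd ℂ).injective).1 h))
    (by rw [← map_pow, hω, map_one])).2
  rw [MulChar.ringHomComp_apply] at b2
  have vx : s.v (x : ℂ) = 1 := St.v_cop_nat s.v s.v_three hx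
  have x0 : (x : ℂ) ≠ 0 := by
    rw [Nat.cast_ne_zero]
    exact fun h => hx (h ▸ dvd_zero 3)
  have e : ((‖1 - ω * ψ x * (((x : ℝ) ^ (-(1 : ℝ)) : ℝ) : ℂ)‖ ^ 2 : ℝ) : ℂ) =
      (x - ω * ψ x) * (x - conj ω * conj (ψ x)) / x ^ 2 := by
    rw [ofReal_pow, ← Complex.mul_conj', Real.rpow_neg_one]
    simp only [map_sub, map_mul, map_one, ofReal_inv, ofReal_natCast, map_inv₀, map_natCast]
    field_simp
  refine ⟨b1.1, ?_⟩
  rw [e, map_div₀, map_pow, vx, one_pow, div_one, map_mul, mul_pow, pow_add]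
  exact mul_le_mul' b1.2 b2

namespace St

variable {s : St} {f : Ideal s.O} {c C G n : ℕ} {χ : MulChar (s.Pr (s.lv f)) ℂ}

theorem ind_val (hf : ¬ 3 ∣ Ideal.absNorm f) (hn : 1 ≤ n) (hG : ∀ D : (s.Pr (s.lv f))ˣ, χ D ^ G = 1)
    {ψ : MulChar (ZMod (3 ^ n)) ℂ} {φ : MulChar (s.Pr (s.md f n)) ℂ} (hT : s.Tw f n χ ψ φ)
    {g : Ideal s.O} {φ₀ : MulChar (s.Pr g) ℂ} (h : s.Ind (s.md f n) g φ φ₀)
    (hg : g ≤ Ideal.span {((3 ^ n : ℕ) : s.O)}) {q : Ideal s.O} (h0 : q ≠ ⊥)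
    (hq : IsUnit (s.cl g (s.ip q))) : ¬ 3 ∣ Ideal.absNorm q ∧
      ∃ ω : ℂ, ω ^ G = 1 ∧ φ₀ (s.cl g (s.ip q)) = ω * ψ (Ideal.absNorm q) := by
  have hm : s.md f n ≠ ⊥ := s.md_ne (s.cop_ne hf) n
  have g0 : g ≠ ⊥ := fun e => hm (le_bot_iff.1 (h.1.trans e.le))
  constructor
  · have c := s.Qn_cop hg hq
    rw [s.Qn_ip h0] at c
    exact (Nat.Prime.coprime_iff_not_dvd Nat.prime_three).1
      (c.coprime_dvd_right (dvd_pow_self 3 (by omega))).symm
  obtain ⟨b, b0, b1, b2⟩ := s.exists_rep g0 hq hm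
  have u : IsUnit (s.cl (s.md f n) (s.ip b)) := by
    rw [s.unit_cl hm, s.idOf_ip b0]
    exact b1.of_mul_right_right
  refine ⟨χ (s.cl (s.lv f) (s.ip b)), ?_, ?_⟩
  · obtain ⟨D, hD⟩ := s.unit_mono (s.md_le_lv f hn) u
    rw [← hD]
    exact hG D
  · rw [← b2, ← h.2 _ u, hT _ u, (ZMod.natCast_eq_natCast_iff _ _ _).2 (s.Qn_mod hg b2),
      s.Qn_ip h0]

theorem ana_one (hc : s.Cc f c) (hC : C ≠ 0) (hd : 3 * Ideal.absNorm f ∣ C) (h0 : 0 < G)
    (hG : ∀ D : (s.Pr (s.lv f))ˣ, χ D ^ G = 1) :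
    ∃ R n₀ : ℕ, ∀ n, n₀ ≤ n → ∀ (ψ : MulChar (ZMod (3 ^ n)) ℂ) (φ : MulChar (s.Pr (s.md f n)) ℂ),
      ψ (tau n) ≠ 1 → s.Tw f n χ ψ φ → ∃ (a : Ideal s.O → ℂ) (y : ℂ) (A B : ℝ), Mult s.k a ∧
        (∀ q : Ideal s.O, q.IsPrime → q ≠ ⊥ → ((C : s.O) ∈ q → a q = 0) ∧
          ((C : s.O) ∉ q → a q = φ (s.cl _ (s.ip q)))) ∧
        Tendsto (DS s.k a) (𝓝[>] 1) (𝓝 y) ∧ ‖y‖ ^ 2 * A = 4 * π ^ 2 *
          ‖∑ᶠ D : (s.Pr (s.md f n))ˣ,
            (φ D)⁻¹ * (Real.log (‖s.thp f c n (s.out D.1)‖ ^ 2) : ℂ)‖ ^ 2 * B ∧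
        A ≠ 0 ∧ s.v A ≤ s.v 3 ^ (2 * n) ∧ s.v 3 ^ R ≤ s.v B ^ 3 ^ n := by
  classical
  have f0 : f ≠ ⊥ := s.cop_ne hc.1
  choose R n₀ hR using u4p_fac s h0
  have hfin := fin_primes s.k hC
  refine ⟨∑ Q ∈ hfin.toFinset, R Q, 2 + ∑ Q ∈ hfin.toFinset, n₀ Q, fun n hn ψ φ hψ hT => ?_⟩
  have hn2 : 2 ≤ n := by omega
  have hm : s.md f n ≠ ⊥ := s.md_ne f0 n
  obtain ⟨g, φ₀, hI, hP⟩ := s.exists_cond hm φ
  have hg := s.cond_le hc.1 hn2 hψ hT hI
  have g0 : g ≠ ⊥ := fun e => hm (le_bot_iff.1 (hI.1.trans e.le))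
  have h2 : (2 : s.O) ∉ g := fun h => s.two_not_mem.1 ((Ideal.span_singleton_le_iff_mem _).2
    (by push_cast; exact Ideal.pow_mem_of_mem _ s.three_mem.1 n (by omega)) (hg h))
  have := s.finite_Pr hm
  have := s.finite_Pr g0
  have hCq : ∀ q : Ideal s.O, q.IsPrime → s.md f n ≤ q → (C : s.O) ∈ q := fun q hq h => by
    obtain ⟨d, rfl⟩ := hd
    push_cast
    refine Ideal.mul_mem_right _ _ ?_
    rcases hq.mul_le.1 h with h | h
    · exact Ideal.mul_mem_left _ _ (h (Ideal.absNorm_mem f))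
    · exact Ideal.mul_mem_right _ _ (hq.mem_of_pow_mem n (h (Ideal.mem_span_singleton_self _)))
  have hF : ∀ Q ∈ hfin.toFinset, φ₀ (s.cl g (s.ip Q.asIdeal)) ≠ 1 ∧
      s.v 3 ^ R Q ≤ s.v ((‖1 - φ₀ (s.cl g (s.ip Q.asIdeal)) *
        (((Ideal.absNorm Q.asIdeal : ℝ) ^ (-(1 : ℝ)) : ℝ) : ℂ)‖ ^ 2 : ℝ) : ℂ) ^ 3 ^ n := by
    intro Q hQ
    refine hR Q n ?_ ψ _ hψ ?_
    · have := Finset.single_le_sum (f := n₀) (fun _ _ => Nat.zero_le _) hQ
      omega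
    · by_cases hu : IsUnit (s.cl g (s.ip Q.asIdeal))
      · exact Or.inr (ind_val hc.1 (by omega) hG hT hI hg Q.ne_bot hu)
      · exact Or.inl (φ₀.map_nonunit hu)
  obtain ⟨E, E0, E1, hZ⟩ := s.gp_ind hm h2 hI fun q hq h =>
    (hF ⟨q, hq, fun e => hm (le_bot_iff.1 (h.trans e.le))⟩
      ((Set.Finite.mem_toFinset _).2 (hCq q hq h))).1
  have E2 : IsIntegral ℤ (conj E) := E1.map (starRingEnd ℂ).toIntAlgHom
  obtain ⟨L, hL, hL2⟩ := s.Lr_lim g0 h2 hP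
  obtain ⟨⟨β, -, u1, u2⟩, -⟩ := s.tw_beta hc.1 hn2 hT
  have ha : Mult s.k fun J => φ₀ (s.cl g (s.ip J)) :=
    ⟨by simp only [s.ip_top, map_one], fun I J hI hJ => by simp only [s.ip_mul hI hJ, map_mul],
      fun I => u4p_norm φ₀ _⟩
  set W : ℂ := ∏ Q ∈ hfin.toFinset, (1 - φ₀ (s.cl g (s.ip Q.asIdeal)) *
    (((Ideal.absNorm Q.asIdeal : ℝ) ^ (-(1 : ℝ)) : ℝ) : ℂ)) with hW
  refine ⟨fun J => oneC s.k C J * φ₀ (s.cl g (s.ip J)), L * W,
    (s.dd * Ideal.absNorm g) * ‖(c : ℂ) ^ 2 - φ (s.cl (s.md f n) (s.np c))‖ ^ 2 * ‖E‖ ^ 2,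
    ‖W‖ ^ 2, mult_oneC s.k ha C, fun q hq q0 => ?_, ?_, ?_, ?_, ?_, ?_⟩
  · obtain ⟨k1, k2⟩ := oneC_prime s.k (C := C) hq q0
    refine ⟨fun h => by simp only [k1 h, zero_mul], fun h => ?_⟩
    simp only [k2 h, one_mul]
    refine (hI.2 _ ?_).symm
    rw [s.unit_cl hm, s.idOf_ip q0, Ideal.isCoprime_iff_sup_eq]
    exact (hq.isMaximal q0).out.2 _
      (lt_of_le_of_ne le_sup_left fun e => h (hCq q hq (le_sup_right.trans e.ge)))
  · have t1 : Tendsto (fun t : ℝ => ∏ Q ∈ hfin.toFinset,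
        (1 - φ₀ (s.cl g (s.ip Q.asIdeal)) *
          (((Ideal.absNorm Q.asIdeal : ℝ) ^ (-t) : ℝ) : ℂ))) (𝓝[>] 1) (𝓝 W) := by
      refine tendsto_finsetProd _ fun Q _ => ?_
      have h0 : (Ideal.absNorm Q.asIdeal : ℝ) ≠ 0 := by
        rw [Nat.cast_ne_zero, Ne, Ideal.absNorm_eq_zero_iff]
        exact Q.ne_bot
      have c1 : ContinuousAt (fun t : ℝ => (Ideal.absNorm Q.asIdeal : ℝ) ^ (-t)) 1 :=
        (Real.continuousAt_const_rpow h0).comp continuous_neg.continuousAt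
      exact ((((continuous_ofReal.continuousAt.comp c1).tendsto.mono_left
        nhdsWithin_le_nhds).const_mul _).const_sub _)
    refine (hL.mul t1).congr' ?_
    filter_upwards [self_mem_nhdsWithin] with t ht
    rw [DS_sieve s.k ha hC ht, finprod_mem_eq_finite_toFinset_prod _ hfin]
    rfl
  · rw [s.log_sum hc hn2 ⟨β, u1, u2 ▸ hψ⟩, hZ, norm_mul, norm_mul, norm_mul, norm_neg]
    linear_combination (‖W‖ ^ 2 * ‖(c : ℂ) ^ 2 - φ (s.cl (s.md f n) (s.np c))‖ ^ 2 * ‖E‖ ^ 2) * hL2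
  · have d0 : s.dd ≠ 0 := by have := s.dd_mod; omega
    have m0 : Ideal.absNorm g ≠ 0 := by rwa [Ne, Ideal.absNorm_eq_zero_iff]
    have c0 : (c : ℂ) ^ 2 - φ (s.cl (s.md f n) (s.np c)) ≠ 0 := by
      intro h
      have h1 := u4p_norm φ (s.cl (s.md f n) (s.np c))
      rw [← sub_eq_zero.1 h, norm_pow, Complex.norm_natCast] at h1
      have h2 : (1 : ℝ) < c := by exact_mod_cast hc.2.1
      nlinarith
    positivity
  · obtain ⟨k1, k2⟩ := u4p_val s.v φ (s.cl (s.md f n) (s.np c))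
    generalize φ (s.cl (s.md f n) (s.np c)) = ζ at k1 k2
    obtain ⟨d, hd'⟩ := Ideal.absNorm_dvd_absNorm_of_le hg
    rw [s.norm_nat] at hd'
    have e : (((s.dd * Ideal.absNorm g) * ‖(c : ℂ) ^ 2 - ζ‖ ^ 2 * ‖E‖ ^ 2 : ℝ) : ℂ) =
        3 ^ (2 * n) * (((s.dd * d : ℕ) : ℂ) *
          ((((c ^ 2 : ℕ) : ℂ) - ζ) * (((c ^ 2 : ℕ) : ℂ) - conj ζ)) * (E * conj E)) := by
      rw [hd', ofReal_mul, ofReal_mul, ofReal_pow, ofReal_pow, ← Complex.mul_conj',
        ← Complex.mul_conj', map_sub, map_pow, map_natCast]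
      push_cast
      ring
    rw [e, map_mul, map_pow, map_mul, map_mul, map_mul, map_mul]
    exact mul_le_of_le_one_right' (mul_le_one' (mul_le_one' (u4p_nat _ _)
      (mul_le_one' (s.v.map_sub_le (u4p_nat _ _) k1) (s.v.map_sub_le (u4p_nat _ _) k2)))
      (mul_le_one' (v_int s.v E1) (v_int s.v E2)))
  · rw [hW, norm_prod, ← Finset.prod_pow, ofReal_prod, map_prod, ← Finset.prod_pow,
      ← Finset.prod_pow_eq_pow_sum]
    exact Finset.prod_le_prod' fun Q hQ => (hF Q hQ).2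

end St

end Pool.Agent.P.MP_20768c_nt.Tz.Cv

end
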