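import Pool.Agent.P.MP_20768c_nt.Tz.Z5
import Pool.Agent.P.MP_20768c_nt.Tz.Z9

-- part Cv.M4_t
section

set_option autoImplicit false

open Complex NumberField IsDedekindDomain Filter Topology
open UpperHalfPlane hiding I
open scoped ComplexConjugate Real MatrixGroups

namespace Pool.Agent.P.MP_20768c_nt.Tz.Cv

open Pool.Agent.P.MP_20768c_nt.Tz.EQ (Lt pr sp IsLat jL qN)

variable {Γ : Type} [LinearOrderedCommGroupWithZero Γ] {v : Valuation ℂ Γ}

theorem m4t_mul {a b : ℂ} (ha : v (a - 1) < 1) (hb : v (b - 1) < 1) : v (a * b - 1) < 1 := by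
  rw [show a * b - 1 = (a - 1) * (b - 1) + ((a - 1) + (b - 1)) by ring]
  refine v.map_add_lt ?_ (v.map_add_lt ha hb)
  rw [map_mul]
  exact mul_lt_one_of_nonneg_of_lt_one_left zero_le ha hb.le

theorem m4t_inv {a : ℂ} (ha : v (a - 1) < 1) : v (a⁻¹ - 1) < 1 := by
  have h1 : v a = 1 := by
    have := v.map_one_add_of_lt ha
    rwa [add_sub_cancel] at this
  have h0 : a ≠ 0 := fun e => by simp [e] at h1
  rw [show a⁻¹ - 1 = -(a - 1) / a by field_simp; ring, map_div₀, h1, div_one, v.map_neg]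
  exact ha

theorem m4t_zpow {a : ℂ} (ha : v (a - 1) < 1) (j : ℤ) : v (a ^ j - 1) < 1 := by
  have h : ∀ n : ℕ, v (a ^ n - 1) < 1 := fun n => by
    induction n with
    | zero => simp
    | succ n ih => rw [pow_succ]; exact m4t_mul ih ha
  obtain ⟨n, rfl | rfl⟩ := j.eq_nat_or_neg
  · rw [zpow_natCast]; exact h n
  · rw [zpow_neg, zpow_natCast]; exact m4t_inv (h n)

namespace St

variable {s : St} (F : IntermediateField s.k ℂ) [FiniteDimensional s.k F] [IsGalois s.k F]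
  {σ τ : s.Au} {x y : ℂ}

theorem m4t_dec (h : ∀ x ∈ F, v x < 1 → v (σ x) < 1) (hx : x ∈ F) : v (σ x) = v x := by
  have h1 : ∀ a ∈ F, ∀ b ∈ F, b ≠ 0 → v a < v b → v (σ a) < v (σ b) := fun a ha b hb h0 hab => by
    have h2 : v (a / b) < 1 := by rwa [map_div₀, div_lt_one₀ ((v.pos_iff).2 h0)]
    have h3 := h _ (div_mem ha hb) h2
    rwa [map_div₀, map_div₀, div_lt_one₀ ((v.pos_iff).2 ((map_ne_zero σ).2 h0))] at h3
  rcases eq_or_ne x 0 with rfl | h0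
  · rw [map_zero]
  obtain ⟨ρ, -, hρ⟩ := s.exists_res F
  have h2 : (σ ^ orderOf (ρ σ)) x = x := by
    rw [← hρ _ ⟨x, hx⟩, map_pow, pow_orderOf_eq_one]
    rfl
  have h3 := orderOf_pos (ρ σ)
  have h4 : ∀ j : ℕ, (σ ^ (j + 1)) x = σ ((σ ^ j) x) := fun j => by rw [pow_succ']; rfl
  have h5 : ∀ τ : s.Au, τ x ≠ 0 := fun τ => (map_ne_zero τ).2 h0
  have h7 : ∀ τ : s.Au, τ x ∈ F := fun τ => s.au_mem F τ hx
  rcases lt_trichotomy (v (σ x)) (v x) with h6 | h6 | h6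
  · have : StrictAnti fun j : ℕ => v ((σ ^ j) x) := strictAnti_nat_of_succ_lt fun j => by
      induction j with
      | zero => simpa using h6
      | succ j ih =>
        rw [h4 (j + 1), h4 j]
        exact h1 _ (h4 j ▸ h7 _) _ (h7 _) (h5 _) (h4 j ▸ ih)
    simpa [h2] using this h3
  · exact h6
  · have : StrictMono fun j : ℕ => v ((σ ^ j) x) := strictMono_nat_of_lt_succ fun j => by
      induction j with
      | zero => simpa using h6
      | succ j ih =>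
        rw [h4 (j + 1), h4 j]
        exact h1 _ (h7 _) _ (h4 j ▸ h7 _) (h4 j ▸ h5 _) (h4 j ▸ ih)
    simpa [h2] using this h3

omit [IsGalois s.k F] in
theorem m4t_unit (h : Inert v σ) (hy : y ∈ F) (h1 : v y = 1) : v (σ y / y - 1) < 1 := by
  have h0 : y ≠ 0 := fun e => by simp [e] at h1
  rw [div_sub_one h0, map_div₀, h1, div_one]
  exact h y (s.alg_of_mem F hy) h1.le

theorem m4t_comm (hc : ∀ g h : F ≃ₐ[s.k] F, g * h = h * g) (σ τ : s.Au) (hx : x ∈ F) :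
    σ (τ x) = τ (σ x) := by
  obtain ⟨ρ, -, hρ⟩ := s.exists_res F
  rw [← AlgEquiv.mul_apply, ← AlgEquiv.mul_apply, ← hρ _ ⟨x, hx⟩, ← hρ _ ⟨x, hx⟩, map_mul, map_mul,
    hc]

/-- the tame character takes the values `1` and `-1` -/
theorem m4t_sign (hc : ∀ g h : F ≃ₐ[s.k] F, g * h = h * g) (h3 : v 3 < 1) (h : Inert v σ)
    (hy : y ∈ F) (h0 : y ≠ 0) : v (σ y / y - 1) < 1 ∨ v (-(σ y / y) - 1) < 1 := by
  obtain ⟨Q, hQ, hQ'⟩ := s.exists_ideal F v
  have hq : ∀ a, v (s.c a) < 1 ↔ a ∈ Q.under s.O := fun a => hQ' (algebraMap s.O (𝓞 F) a)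
  have hn : Q.under s.O ≠ ⊥ ∧ Ideal.absNorm (Q.under s.O) = 3 := by
    have h2' : (3 : s.O) ∈ Q.under s.O := (hq 3).1 (by
      have := s.c_nat 3
      rw [Nat.cast_ofNat, Nat.cast_ofNat] at this
      rwa [this])
    rcases s.prime_three inferInstance h2' with e | e <;> rw [e]
    exacts [⟨s.p1_ne, s.norm_p1⟩, ⟨s.p2_ne, s.norm_p2⟩]
  obtain ⟨φ, hφ⟩ := s.frobOn F v hn.1 hq
  rw [hn.2] at hφ
  have hd : ∀ x ∈ F, v (φ x) = v x := fun x hx => m4t_dec F (fun x hx h1 => by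
    have h2 : v (x ^ 3) < 1 := by rw [map_pow]; exact pow_lt_one₀ zero_le h1 three_ne_zero
    have := v.map_add_lt (hφ x hx h1.le) h2
    rwa [sub_add_cancel] at this) hx
  have vy : v y ≠ 0 := (map_ne_zero v).2 h0
  have sy : σ y ≠ 0 := (map_ne_zero σ).2 h0
  have py : φ y ≠ 0 := (map_ne_zero φ).2 h0
  obtain ⟨u, hu⟩ : ∃ u, u = σ y / y := ⟨_, rfl⟩
  have uF : u ∈ F := hu ▸ div_mem (s.au_mem F σ hy) hy
  have u1 : v u = 1 := by rw [hu, map_div₀, inert_val h (s.alg_of_mem F hy), div_self vy]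
  have a1 := hφ u uF u1.le
  have a2 := m4t_unit F h (div_mem (s.au_mem F φ hy) hy) (by rw [map_div₀, hd y hy, div_self vy])
  have e1 : φ u - u = u * (σ (φ y / y) / (φ y / y) - 1) := by
    rw [hu, map_div₀, map_div₀, m4t_comm F hc φ σ hy]
    field_simp
  have a3 : v (φ u - u) < 1 := by rwa [e1, map_mul, u1, one_mul]
  have a4 := v.map_sub_lt a1 a3
  rw [show φ u - u ^ 3 - (φ u - u) = u * ((u - 1) * (-u - 1)) by ring, map_mul, u1, one_mul,
    map_mul] at a4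
  rw [← hu]
  by_contra hcon
  rw [not_or, not_lt, not_lt] at hcon
  exact a4.not_ge (one_le_mul hcon.1 hcon.2)

theorem m4t_triv (hn : ¬ 3 ∣ Module.finrank s.k F) (h3 : v 3 < 1)
    (h : ∀ y ∈ F, y ≠ 0 → v (σ y / y - 1) < 1) (hx : x ∈ F) : σ x = x := by
  by_contra hne
  obtain ⟨ρ, -, hρ⟩ := s.exists_res F
  have hN : (σ ^ Module.finrank s.k F) x = x := by
    rw [← hρ _ ⟨x, hx⟩, map_pow, ← IsGalois.card_aut_eq_finrank, pow_card_eq_one']
    rfl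
  obtain ⟨y, hy⟩ : ∃ y, y = σ x - x := ⟨_, rfl⟩
  have y0 : y ≠ 0 := hy ▸ sub_ne_zero.2 hne
  have yF : y ∈ F := hy ▸ sub_mem (s.au_mem F σ hx) hx
  have h4 : ∀ (j : ℕ) (z : ℂ), (σ ^ (j + 1)) z = σ ((σ ^ j) z) := fun j z => by
    rw [pow_succ']; rfl
  have h5 : ∀ j : ℕ, v ((σ ^ j) y / y - 1) < 1 := fun j => by
    induction j with
    | zero => simp [y0]
    | succ j ih =>
      have z0 : (σ ^ j) y ≠ 0 := (map_ne_zero _).2 y0
      have := m4t_mul (h _ (s.au_mem F (σ ^ j) yF) z0) ih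
      rwa [div_mul_div_cancel₀ z0, ← h4] at this
  have h6 : ∀ j : ℕ, v (((σ ^ j) x - x) / y - j) < 1 := fun j => by
    induction j with
    | zero => simp
    | succ j ih =>
      have e : ((σ ^ (j + 1)) x - x) / y - (j + 1 : ℕ) =
          (((σ ^ j) x - x) / y - j) + ((σ ^ j) y / y - 1) := by
        have e2 : (σ ^ j) y = (σ ^ (j + 1)) x - (σ ^ j) x := by
          rw [hy, map_sub, pow_succ, AlgEquiv.mul_apply]
        rw [e2]
        push_cast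
        ring
      rw [e]
      exact v.map_add_lt ih (h5 j)
  have h7 := h6 (Module.finrank s.k F)
  rw [hN, sub_self, zero_div, zero_sub, v.map_neg, ← Int.cast_natCast,
    v_cop v h3 (by exact_mod_cast hn)] at h7
  exact lt_irrefl _ h7

omit [IsGalois s.k F] in
theorem m4t_unif (h3 : v 3 < 1) :
    ∃ p ∈ F, p ≠ 0 ∧ ∀ y ∈ F, y ≠ 0 → ∃ j : ℤ, v y = v (p ^ j) := by
  have : NumberField F := NumberField.of_module_finite s.k F
  obtain ⟨Q, hQ, hQ'⟩ := s.exists_ideal F v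
  have hb : Q ≠ ⊥ := fun e => by
    have h1 : (3 : 𝓞 F) ∈ Q := (hQ' 3).1 h3
    rw [e, Ideal.mem_bot] at h1
    exact (by exact_mod_cast three_ne_zero (α := ℕ) : ((3 : ℕ) : 𝓞 F) ≠ 0) h1
  obtain ⟨p, hp⟩ := (⟨Q, hQ, hb⟩ : HeightOneSpectrum (𝓞 F)).valuation_exists_uniformizer F
  have p0 : p ≠ 0 := fun e => by
    rw [e, map_zero] at hp
    exact WithZero.exp_ne_zero hp.symm
  refine ⟨p, p.2, fun e => p0 (Subtype.ext e), fun y hy y0 => ?_⟩
  have h1 : (⟨Q, hQ, hb⟩ : HeightOneSpectrum (𝓞 F)).valuation F ⟨y, hy⟩ ≠ 0 :=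
    (map_ne_zero _).2 fun e => y0 (congrArg Subtype.val e)
  have h2 : (⟨Q, hQ, hb⟩ : HeightOneSpectrum (𝓞 F)).valuation F ⟨y, hy⟩ =
      (⟨Q, hQ, hb⟩ : HeightOneSpectrum (𝓞 F)).valuation F
        (p ^ (-WithZero.log ((⟨Q, hQ, hb⟩ : HeightOneSpectrum (𝓞 F)).valuation F ⟨y, hy⟩))) := by
    rw [map_zpow₀, hp, ← WithZero.exp_zsmul, smul_eq_mul, mul_neg_one, neg_neg, WithZero.exp_log h1]
  have h4 := le_antisymm ((s.val_equiv F v ⟨Q, hQ, hb⟩ hQ' _ _).2 h2.le)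
    ((s.val_equiv F v ⟨Q, hQ, hb⟩ hQ' _ _).2 h2.ge)
  exact ⟨_, h4.trans (congrArg v (map_zpow₀ (algebraMap F ℂ) p _))⟩

/-- inertia at `3` in an abelian extension of degree prime to `3` is seen on `ζ₃` -/
theorem tame_fix (hc : ∀ g h : F ≃ₐ[s.k] F, g * h = h * g) (hn : ¬ 3 ∣ Module.finrank s.k F)
    (hz : zt 1 ∈ F) (h3 : v 3 < 1) (h : Inert v σ) (h1 : σ (zt 1) = zt 1) (hx : x ∈ F) :
    σ x = x := by
  obtain ⟨p, hp, p0, hu⟩ := m4t_unif F h3
  have key : ∀ τ : s.Au, Inert v τ → v (τ p / p - 1) < 1 → ∀ x ∈ F, τ x = x :=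
    fun τ hτ h2 x hx => m4t_triv F hn h3 (fun y hy y0 => by
      obtain ⟨j, hj⟩ := hu y hy y0
      have q0 : p ^ j ≠ 0 := zpow_ne_zero j p0
      have a1 := m4t_unit F hτ (div_mem hy (zpow_mem hp j))
        (by rw [map_div₀, hj, div_self ((map_ne_zero v).2 q0)])
      have a2 := m4t_mul a1 (m4t_zpow h2 j)
      have t0 : τ p ^ j ≠ 0 := zpow_ne_zero j ((map_ne_zero τ).2 p0)
      rwa [map_div₀, map_zpow₀, div_zpow, show τ y / τ p ^ j / (y / p ^ j) * (τ p ^ j / p ^ j) =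
        τ y / y by field_simp] at a2) hx
  rcases m4t_sign F hc h3 h hp p0 with a | a
  · exact key σ h a x hx
  exfalso
  have hr : r3 1 ∈ F := sub_mem (pow_mem hz _) (pow_mem hz _)
  have hs : σ (r3 1) = r3 1 := by rw [r3, map_sub, map_pow, map_pow, h1]
  obtain ⟨y, hy, e⟩ := s.val_fixed ⊥ v (s.alg_of_mem F hr) fun τ hτ _ => by
    rcases m4t_sign F hc h3 hτ hp p0 with b | b
    · exact key τ hτ b _ hr
    · have t0 : τ p ≠ 0 := (map_ne_zero τ).2 p0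
      have c1 := m4t_unit F h (y := -(τ p / p)) (neg_mem (div_mem (s.au_mem F τ hp) hp)) (by
        rw [v.map_neg, map_div₀, inert_val hτ (s.alg_of_mem F hp), div_self ((map_ne_zero v).2 p0)])
      have c2 := m4t_mul (m4t_mul c1 b) a
      have s0 : σ p ≠ 0 := (map_ne_zero σ).2 p0
      rw [map_neg, map_div₀, show -(σ (τ p) / σ p) / -(τ p / p) * -(τ p / p) * -(σ p / p) =
        σ (τ p) / p by field_simp] at c2
      have c3 := key (σ * τ) (inert_mul h hτ) c2 _ hr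
      rw [AlgEquiv.mul_apply] at c3
      exact σ.injective (c3.trans hs.symm)
  obtain ⟨y, rfl⟩ := IntermediateField.mem_bot.1 hy
  have v0 : 0 < v 3 := (v.pos_iff).2 three_ne_zero
  obtain ⟨j, hj⟩ := s.v_k_val v h3 (x := algebraMap s.k ℂ y) y.2 fun e' => by
    rw [e', map_zero] at e
    exact (map_ne_zero v).2 r3_ne e
  have e2 := (v_r3 v).1
  rw [e, hj, ← zpow_natCast, ← zpow_mul] at e2
  have e3 := zpow_right_injective₀ v0 h3.ne (e2.trans (zpow_one _).symm)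
  omega

end St

end Pool.Agent.P.MP_20768c_nt.Tz.Cv

end

-- part Cv.X5
section

set_option autoImplicit false

open Complex NumberField IsDedekindDomain
open scoped Real

namespace Pool.Agent.P.MP_20768c_nt.Tz.Cv

theorem x5_tor (F : Type) [Field F] [NumberField F] : CommGroup.torsion Fˣ ≤ Un F := by
  have key : ∀ x : Fˣ, IsOfFinOrder x → IsIntegral ℤ (x : F) := fun x hx => by
    obtain ⟨n, hn, e⟩ := isOfFinOrder_iff_pow_eq_one.1 hx
    refine IsIntegral.of_pow hn ?_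
    rw [← Units.val_pow_eq_pow_val, e, Units.val_one]
    exact isIntegral_one
  intro x hx
  have h1 := key x hx
  have h2 := key x⁻¹ (inv_mem hx : x⁻¹ ∈ CommGroup.torsion Fˣ)
  refine ⟨⟨⟨x, h1⟩, ⟨(x⁻¹ : Fˣ), h2⟩, ?_, ?_⟩, Units.ext rfl⟩
  · exact RingOfIntegers.ext (x.mul_inv)
  · exact RingOfIntegers.ext (x.inv_mul)

theorem x5_one (F : Type) [Field F] [NumberField F] (h : Subsingleton (InfinitePlace F)) :
    Un F ≤ CommGroup.torsion Fˣ := by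
  rintro _ ⟨u, rfl⟩
  have h1 : u ∈ Units.torsion F := by
    refine (Units.mem_torsion F).2 fun w => ?_
    have h2 := Units.sum_mult_mul_log u
    rw [Fintype.sum_subsingleton _ w] at h2
    have h3 : (w.mult : ℝ) ≠ 0 := Nat.cast_ne_zero.2 InfinitePlace.mult_pos.ne'
    exact Real.eq_one_of_pos_of_log_eq_zero (Units.pos_at_place u w)
      ((mul_eq_zero.1 h2).resolve_left h3)
  exact MonoidHom.isOfFinOrder _ h1

namespace St

variable (s : St) {l C : ℕ}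

theorem x5_gen (hl : l.Prime) {a : ℕ} {δ : s.Au} (hδ : ∀ η : ℂ, η ^ l = 1 → δ η = η ^ a)
    (g : s.Fz l ≃ₐ[s.k] s.Fz l) (hg : ∀ x : s.Fz l, ((g x : s.Fz l) : ℂ) = δ x)
    {φ : s.Au →* ℂˣ} (h : φ ∈ s.Chx l C) :
    ∃ (r : ℂ) (x : (s.Fz l)ˣ),
      x ∈ Vs (s.Fz l) l C ⊓ Xe (Units.map (g : s.Fz l →* s.Fz l)) a l ∧
      r ^ l = ((x : s.Fz l) : ℂ) ∧ ∀ σ ∈ s.Hz l, σ r = φ σ * r := by
  have hp : ∀ σ, (φ σ : ℂ) ^ l = 1 := fun σ => by
    rw [← Units.val_pow_eq_pow_val, h.1, Units.val_one]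
  obtain ⟨r, hr0, hr⟩ := s.x4_res (s.Hz l) h.2.1 fun σ hσ τ _ =>
    s.x4_fix hσ (s.x4_root hl.ne_zero (hp τ))
  have hH : ∀ σ : s.Au, (∀ y ∈ s.Fz l, σ y = y) → σ ∈ s.Hz l := fun σ hσ => hσ _ (s.x4_mem l)
  have hm : r ^ l ∈ s.Fz l := s.mem_of_fixed (s.Fz l) fun σ hσ => by
    rw [map_pow, hr σ (hH σ hσ), mul_pow, hp, one_mul]
  have h0 : (⟨r ^ l, hm⟩ : s.Fz l) ≠ 0 := fun e => pow_ne_zero l hr0 (congrArg Subtype.val e)
  have hz : xz l ^ l = 1 := (xz_prim hl.ne_zero).pow_eq_one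
  have hδ0 : δ r ≠ 0 := (map_ne_zero δ).2 hr0
  have ht : δ r / r ^ a ∈ s.Fz l := s.mem_of_fixed (s.Fz l) fun σ hσ => by
    have h1 := hH σ hσ
    have h2 : δ⁻¹ * σ * δ ∈ s.Hz l := by
      change (δ⁻¹ * σ * δ) (xz l) = xz l
      have e : σ (δ (xz l)) = δ (xz l) := by
        rw [hδ _ hz, map_pow, show σ (xz l) = xz l from h1]
      rw [AlgEquiv.mul_apply, AlgEquiv.mul_apply, e, ← AlgEquiv.mul_apply, inv_mul_cancel,
        AlgEquiv.one_apply]
    have h3 : φ (δ⁻¹ * σ * δ) = φ σ := by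
      rw [map_mul, map_mul, map_inv, mul_right_comm, inv_mul_cancel, one_mul]
    have h4 := congrArg δ (hr _ h2)
    rw [h3, map_mul, hδ _ (hp σ), ← AlgEquiv.mul_apply, ← mul_assoc, ← mul_assoc, mul_inv_cancel,
      one_mul, AlgEquiv.mul_apply] at h4
    rw [map_div₀, h4, map_pow, hr σ h1, mul_pow,
      mul_div_mul_left _ _ (pow_ne_zero a (Units.ne_zero _))]
  have ht0 : (⟨δ r / r ^ a, ht⟩ : s.Fz l) ≠ 0 := fun e =>
    div_ne_zero hδ0 (pow_ne_zero a hr0) (congrArg Subtype.val e)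
  refine ⟨r, Units.mk0 _ h0, ⟨?_, Units.mk0 _ ht0, ?_⟩, rfl, hr⟩
  · refine s.vs_of_fixed (s.Fz l) (r := r) hl.pos rfl fun V σ hV hI hσ => ?_
    rw [hr σ (hH σ hσ), h.2.2 V σ hV hI, Units.val_one, one_mul]
  · refine Units.ext (Subtype.ext ?_)
    rw [MonoidHom.div_apply, powMonoidHom_apply, powMonoidHom_apply, Units.val_div_eq_div_val,
      Units.val_pow_eq_pow_val, Units.val_pow_eq_pow_val, Units.coe_map]
    change (δ r / r ^ a) ^ l = ((g ⟨r ^ l, hm⟩ : s.Fz l) : ℂ) / (r ^ l) ^ a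
    rw [hg, div_pow, ← pow_mul, ← pow_mul, mul_comm a l, ← map_pow]

theorem x5_kum (hl : l.Prime) {a : ℕ} {δ : s.Au} (hδ : ∀ η : ℂ, η ^ l = 1 → δ η = η ^ a)
    (g : s.Fz l ≃ₐ[s.k] s.Fz l) (hg : ∀ x : s.Fz l, ((g x : s.Fz l) : ℂ) = δ x)
    (h0 : (Pw (s.Fz l) l).relIndex
      (Vs (s.Fz l) l C ⊓ Xe (Units.map (g : s.Fz l →* s.Fz l)) a l) ≠ 0) :
    (s.Chx l C).Finite ∧ (s.Chx l C).ncard ≤ (Pw (s.Fz l) l).relIndex
      (Vs (s.Fz l) l C ⊓ Xe (Units.map (g : s.Fz l →* s.Fz l)) a l) := by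
  generalize hW : Vs (s.Fz l) l C ⊓ Xe (Units.map (g : s.Fz l →* s.Fz l)) a l = W at h0 ⊢
  have : Finite (W ⧸ (Pw (s.Fz l) l).subgroupOf W) := Nat.finite_of_card_ne_zero h0
  choose r x hx hr hσ using fun φ : s.Chx l C => s.x5_gen hl hδ g hg φ.2
  rw [hW] at hx
  let f : s.Chx l C → W ⧸ (Pw (s.Fz l) l).subgroupOf W := fun φ => QuotientGroup.mk ⟨x φ, hx φ⟩
  have hr0 : ∀ φ, r φ ≠ 0 := fun φ e => by
    have := hr φ
    rw [e, zero_pow hl.ne_zero] at this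
    exact Units.ne_zero (x φ) (Subtype.ext this.symm)
  have hf : Function.Injective f := by
    intro φ φ' e
    obtain ⟨t, ht⟩ := Subgroup.mem_subgroupOf.1 (QuotientGroup.eq.1 e)
    have ht1 : x φ * t ^ l = x φ' := mul_eq_of_eq_inv_mul ht
    have ht2 : r φ ^ l * ((t : s.Fz l) : ℂ) ^ l = r φ' ^ l := by
      rw [hr, hr]
      exact congrArg (fun u : (s.Fz l)ˣ => algebraMap (s.Fz l) ℂ (u : s.Fz l)) ht1
    have ht0 : ((t : s.Fz l) : ℂ) ≠ 0 := fun e => Units.ne_zero t (Subtype.ext e)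
    have hz : r φ * (t : s.Fz l) / r φ' ∈ s.Fz l := s.x4_root hl.ne_zero (by
      rw [div_pow, mul_pow, ht2, div_self (pow_ne_zero l (hr0 φ'))])
    have hH : ∀ σ ∈ s.Hz l, φ.1 σ = φ'.1 σ := fun σ h => by
      have e1 := s.x4_fix h hz
      rw [map_div₀, map_mul, hσ φ σ h, hσ φ' σ h, s.x4_fix h (t : s.Fz l).2,
        div_eq_div_iff (mul_ne_zero (Units.ne_zero _) (hr0 φ')) (hr0 φ')] at e1
      refine Units.ext (mul_right_cancel₀
        (mul_ne_zero (mul_ne_zero (hr0 φ) ht0) (hr0 φ')) ?_)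
      linear_combination e1
    refine Subtype.ext (MonoidHom.ext fun σ => ?_)
    have e1 := hH _ (s.x4_pow hl σ)
    have e2 := (φ.2.1 σ).trans (φ'.2.1 σ).symm
    rw [map_pow, map_pow] at e1
    rw [← pow_sub_one_mul hl.ne_zero, ← pow_sub_one_mul hl.ne_zero (φ'.1 σ), e1] at e2
    exact mul_left_cancel e2
  have hfin : Finite (s.Chx l C) := Finite.of_injective f hf
  exact ⟨Set.toFinite _, Nat.card_le_card_of_injective f hf⟩

theorem x5_place : Subsingleton (InfinitePlace s.k) := by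
  have h0 : 0 < InfinitePlace.nrComplexPlaces s.k := by
    classical
    refine Fintype.card_pos_iff.2 ⟨⟨InfinitePlace.mk (algebraMap s.k ℂ),
      InfinitePlace.not_isReal_iff_isComplex.1 fun h => s.w_im.ne' ?_⟩⟩
    exact Complex.conj_eq_iff_im.1 (RingHom.congr_fun
      (ComplexEmbedding.isReal_iff.1 (InfinitePlace.isReal_mk_iff.1 h)) (s.w : s.k))
  have h1 := InfinitePlace.card_add_two_mul_card_eq_rank s.k
  have h2 := InfinitePlace.card_eq_nrRealPlaces_add_nrComplexPlaces s.k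
  rw [s.finrank_k] at h1
  exact Fintype.card_le_one_iff_subsingleton.1 (by omega)

theorem x5_two : Un (s.Fz 2) ≤ CommGroup.torsion (s.Fz 2)ˣ := by
  refine x5_one _ ⟨fun w w' => ?_⟩
  have := s.x5_place
  obtain ⟨g, hg⟩ := InfinitePlace.exists_smul_eq_of_comap_eq (k := s.k)
    (Subsingleton.elim (w.comap (algebraMap s.k (s.Fz 2))) (w'.comap (algebraMap s.k (s.Fz 2))))
  obtain ⟨ρ, hρ, hρ'⟩ := s.exists_res (s.Fz 2)
  obtain ⟨σ, rfl⟩ := hρ g
  have h1 : σ ∈ s.Hz 2 := by simpa using s.x4_pow Nat.prime_two σ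
  have h2 : ρ σ = 1 := AlgEquiv.ext fun x => Subtype.ext ((hρ' σ x).trans (s.x4_fix h1 x.2))
  rw [← hg, h2, one_smul]

theorem x5_up (hl : l.Prime) (hC : C ≠ 0)
    (hB : Vs (s.Fz l) l C ≤ Vs (s.Fz l) 0 C ⊔ Pw (s.Fz l) l)
    (R : Finset (HeightOneSpectrum (𝓞 (s.Fz l))))
    (hR : ∀ Q : HeightOneSpectrum (𝓞 (s.Fz l)), (C : 𝓞 (s.Fz l)) ∈ Q.asIdeal → Fre s.k Q.asIdeal →
      ∃ Q' ∈ R, Q'.asIdeal.under s.O = Q.asIdeal.under s.O) :
    (s.Chx l C).Finite ∧ (if l = 2 then 2 else 1) * (s.Chx l C).ncard ≤ l ^ (2 + R.card) := by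
  obtain ⟨δ, a, d, hd, ha, hH, hδ, hT⟩ := s.x4_gen hl 0
  rw [pow_zero, pow_one] at hH hδ hT
  obtain ⟨ρ, hρ, hρ'⟩ := s.exists_res (s.Fz l)
  have hk : ∀ σ, ρ σ = 1 ↔ σ ∈ s.Hz l := fun σ =>
    ⟨fun e => by
      have := hρ' σ ⟨_, s.x4_mem l⟩
      rw [e] at this
      exact this.symm,
    fun e => AlgEquiv.ext fun x => Subtype.ext ((hρ' σ x).trans (s.x4_fix e x.2))⟩
  have hg : ∀ g, ∃ j : ℕ, g = ρ δ ^ j := fun g => by
    obtain ⟨σ, rfl⟩ := hρ g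
    obtain ⟨j, hj, -⟩ := hT σ
    have := (hk _).2 hj
    rw [map_mul, map_inv, map_pow, inv_mul_eq_one] at this
    exact ⟨j, this.symm⟩
  have ho : ∀ j : ℕ, ρ δ ^ j = 1 ↔ d ∣ j := fun j => by rw [← map_pow, hk, hH]
  have h1 : Pw (s.Fz l) l ≤ CommGroup.torsion (s.Fz l)ˣ ⊔ Pw (s.Fz l) l := le_sup_right
  have h2 : CommGroup.torsion (s.Fz l)ˣ ⊔ Pw (s.Fz l) l ≤ Un (s.Fz l) ⊔ Pw (s.Fz l) l :=
    sup_le_sup_right (x5_tor _) _
  have h3 : Un (s.Fz l) ⊔ Pw (s.Fz l) l ≤ Vs (s.Fz l) 0 C ⊔ Pw (s.Fz l) l := by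
    refine sup_le_sup_right ?_ _
    rintro _ ⟨u, rfl⟩ Q _
    refine ⟨0, ?_⟩
    rw [mul_zero, WithZero.exp_zero, Units.coe_map]
    change Q.valuation (s.Fz l) (algebraMap (𝓞 (s.Fz l)) (s.Fz l) u) = 1
    rw [HeightOneSpectrum.valuation_of_algebraMap, HeightOneSpectrum.intValuation_eq_one_iff]
    exact fun e => Q.isPrime.ne_top (Ideal.eq_top_of_isUnit_mem _ e u.isUnit)
  have hx := x3_tor (s.Fz l) hl.pos
  have hz := x2_fin hl hd ha (ρ δ) hg ho hC R hR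
  have hle := inf_le_inf_right (Xe (Units.map (ρ δ : s.Fz l →* s.Fz l)) a l) hB
  have fin : ∀ y : ℕ, (CommGroup.torsion (s.Fz l)ˣ ⊔ Pw (s.Fz l) l).relIndex
      ((Un (s.Fz l) ⊔ Pw (s.Fz l) l) ⊓ Xe (Units.map (ρ δ : s.Fz l →* s.Fz l)) a l) ≠ 0 ∧
      (CommGroup.torsion (s.Fz l)ˣ ⊔ Pw (s.Fz l) l).relIndex
      ((Un (s.Fz l) ⊔ Pw (s.Fz l) l) ⊓ Xe (Units.map (ρ δ : s.Fz l →* s.Fz l)) a l) ≤ y →
      (s.Chx l C).Finite ∧ (s.Chx l C).ncard ≤ l * y * l ^ R.card := fun y hy => by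
    obtain ⟨t1, t2⟩ := x3_tower h1 h2 h3 hx hy hz
    obtain ⟨k1, k2⟩ := s.x5_kum (C := C) hl hδ (ρ δ) (hρ' δ) fun e =>
      t1 (Subgroup.relIndex_eq_zero_of_le_right hle e)
    exact ⟨k1, k2.trans ((Subgroup.relIndex_le_of_le_right hle t1).trans t2)⟩
  split_ifs with h
  · subst h
    have e : (CommGroup.torsion (s.Fz 2)ˣ ⊔ Pw (s.Fz 2) 2).relIndex
        ((Un (s.Fz 2) ⊔ Pw (s.Fz 2) 2) ⊓ Xe (Units.map (ρ δ : s.Fz 2 →* s.Fz 2)) a 2) = 1 :=
      Subgroup.relIndex_eq_one.2 (inf_le_left.trans (sup_le_sup_right s.x5_two _))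
    obtain ⟨k1, k2⟩ := fin 1 ⟨by rw [e]; exact one_ne_zero, e.le⟩
    refine ⟨k1, (Nat.mul_le_mul_left 2 k2).trans (le_of_eq ?_)⟩
    ring
  · obtain ⟨k1, k2⟩ := fin l (x3_unit hl hd ha (ρ δ) hg ((ho d).2 dvd_rfl) s.x5_place)
    refine ⟨k1, (one_mul _).trans_le (k2.trans (le_of_eq ?_))⟩
    ring

end St


end Pool.Agent.P.MP_20768c_nt.Tz.Cv

end

-- part Cv.M4
section

set_option autoImplicit false

open Complex NumberField IsDedekindDomain Filter Topology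
open UpperHalfPlane hiding I
open scoped ComplexConjugate Real MatrixGroups

namespace Pool.Agent.P.MP_20768c_nt.Tz.Cv

open Pool.Agent.P.MP_20768c_nt.Tz.EQ (Lt pr sp IsLat jL qN)

namespace St

variable {s : St} {σ τ : s.Au} {x : ℂ}

theorem m4_zt (σ : s.Au) : σ (zt 1) = zt 1 ∨ σ (zt 1) = zt 1 ^ 2 := by
  have h := congrArg σ zt1_sum
  rw [map_add, map_add, map_pow, map_one, map_zero] at h
  have e : (σ (zt 1) - zt 1) * (σ (zt 1) - zt 1 ^ 2) = 0 := by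
    linear_combination h - σ (zt 1) * zt1_sum + zt1_cube
  exact (mul_eq_zero.1 e).imp sub_eq_zero.1 sub_eq_zero.1

theorem m4_sq (σ : s.Au) : σ (σ (zt 1)) = zt 1 := by
  rcases m4_zt σ with h | h
  · rw [h, h]
  · rw [h, map_pow, h]
    linear_combination zt 1 * zt1_cube

theorem m4_eq {N : IntermediateField s.k ℂ} (h : ∀ x ∈ N, σ x = τ x) (h' : σ (zt 1) = τ (zt 1))
    (hx : x ∈ N ⊔ IntermediateField.adjoin s.k {zt 1}) : σ x = τ x := by
  let T : IntermediateField s.k ℂ :=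
    (AlgHom.equalizer (σ : ℂ →ₐ[s.k] ℂ) (τ : ℂ →ₐ[s.k] ℂ)).toIntermediateField fun x hx => by
      rw [AlgHom.mem_equalizer] at hx ⊢
      rw [map_inv₀, map_inv₀, hx]
  exact (sup_le h (IntermediateField.adjoin_simple_le_iff.2 h') : _ ≤ T) hx

theorem m4_big (N : IntermediateField s.k ℂ) [FiniteDimensional s.k N] [IsGalois s.k N]
    (hc : ∀ g h : N ≃ₐ[s.k] N, g * h = h * g) (hn : ¬ 3 ∣ Module.finrank s.k N)
    (M : IntermediateField s.k ℂ) (hM : M = N ⊔ IntermediateField.adjoin s.k {zt 1}) :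
    FiniteDimensional s.k M ∧ IsAbelianGalois s.k M ∧ ¬ 3 ∣ Module.finrank s.k M := by
  have h : IsCyclotomicExtension {3 ^ 1} s.k (IntermediateField.adjoin s.k {zt 1}) := by
    change IsCyclotomicExtension {3 ^ 1} s.k (IntermediateField.adjoin s.k {zt 1}).toSubalgebra
    rw [IntermediateField.adjoin_simple_toSubalgebra_of_isAlgebraic ((zt_alg 1).tower_top _)]
    exact (zt_prim 1).adjoin_isCyclotomicExtension s.k
  have := IsCyclotomicExtension.isGalois {3 ^ 1} s.k (IntermediateField.adjoin s.k {zt 1})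
  have := IntermediateField.adjoin.finiteDimensional (K := s.k)
    ((zt_alg 1).tower_top s.k).isIntegral
  have i1 : FiniteDimensional s.k M := hM ▸ IntermediateField.finiteDimensional_sup _ _
  have : Normal s.k M := hM ▸ IntermediateField.normal_sup _ _ _ _
  have i2 : IsGalois s.k M := ⟨⟩
  obtain ⟨ρ, h1, h2⟩ := s.exists_res M
  obtain ⟨ρ', -, h4⟩ := s.exists_res N
  refine ⟨i1, { is_comm.comm := fun g h => ?_ }, fun hd => ?_⟩
  · obtain ⟨σ, rfl⟩ := h1 g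
    obtain ⟨τ, rfl⟩ := h1 h
    ext x
    rw [← map_mul, ← map_mul, h2, h2]
    refine m4_eq (fun y hy => m4t_comm N hc σ τ hy) ?_ (hM ▸ x.2)
    rw [AlgEquiv.mul_apply, AlgEquiv.mul_apply]
    rcases m4_zt σ with a | a <;> rcases m4_zt τ with b | b <;> simp only [a, b, map_pow]
  · rw [← IsGalois.card_aut_eq_finrank] at hd hn
    have : Fact (Nat.Prime 3) := ⟨Nat.prime_three⟩
    obtain ⟨g, hg⟩ := exists_prime_orderOf_dvd_card' 3 hd
    obtain ⟨σ, rfl⟩ := h1 g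
    have a1 : ∀ y ∈ M, (σ ^ 3) y = y := fun y hy => by
      rw [← h2 _ ⟨y, hy⟩, map_pow, ← hg, pow_orderOf_eq_one]
      rfl
    have a2 : ρ' σ ^ 3 = 1 := AlgEquiv.ext fun y => Subtype.ext (by
      rw [← map_pow, h4]
      exact a1 y (hM ▸ (le_sup_left : N ≤ _) y.2))
    have a3 : ρ' σ = 1 := by
      by_contra e
      exact hn (orderOf_eq_prime a2 e ▸ orderOf_dvd_natCard _)
    have a4 : σ (zt 1) = zt 1 := by
      have := a1 (zt 1) (hM ▸ (le_sup_right : _ ≤ N ⊔ _)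
        (IntermediateField.mem_adjoin_simple_self _ _))
      rwa [pow_three, AlgEquiv.mul_apply, AlgEquiv.mul_apply, m4_sq] at this
    have a5 : ρ σ = 1 := AlgEquiv.ext fun y => Subtype.ext (by
      rw [h2]
      refine m4_eq (τ := 1) (fun z hz => ?_) a4 (hM.le y.2)
      rw [← h4 σ ⟨z, hz⟩, a3]
      rfl)
    rw [a5, orderOf_one] at hg
    omega

theorem m4_cb (s : St) (N : IntermediateField s.k ℂ) [FiniteDimensional s.k N] [IsGalois s.k N]
    (hc : ∀ g h : N ≃ₐ[s.k] N, g * h = h * g) (hn : ¬ 3 ∣ Module.finrank s.k N)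
    (hray : ∀ (F : IntermediateField s.k ℂ) [FiniteDimensional s.k F] [IsGalois s.k F],
      (∀ g h : F ≃ₐ[s.k] F, g * h = h * g) →
        ∃ m : ℕ, 0 < m ∧ ∀ σ : s.Au, s.Art m σ ⊤ → ∀ x ∈ F, σ x = x) :
    ∃ c : Cb, c.toSt = s ∧ (∀ x ∈ N, x ∈ c.K 1) ∧
      ∀ σ : c.Au, (∀ x ∈ N, σ x = x) → σ (zt 1) = zt 1 → ∀ y ∈ c.N, σ y = y := by
  obtain ⟨M, hM⟩ : ∃ M, M = N ⊔ IntermediateField.adjoin s.k {zt 1} := ⟨_, rfl⟩
  obtain ⟨i1, i2, i3⟩ := m4_big N hc hn M hM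
  have hz : zt 1 ∈ M :=
    hM ▸ (le_sup_right : _ ≤ N ⊔ _) (IntermediateField.mem_adjoin_simple_self _ _)
  have cM : ∀ g h : M ≃ₐ[s.k] M, g * h = h * g := i2.is_comm.comm
  let N' : IntermediateField s.k ℂ :=
    { carrier := {x | x ∈ M ∧ ∀ σ : s.Au, Inert s.v σ → σ x = x}
      mul_mem' := fun ha hb => ⟨mul_mem ha.1 hb.1, fun σ h => by rw [map_mul, ha.2 σ h, hb.2 σ h]⟩
      add_mem' := fun ha hb => ⟨add_mem ha.1 hb.1, fun σ h => by rw [map_add, ha.2 σ h, hb.2 σ h]⟩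
      algebraMap_mem' := fun y => ⟨M.algebraMap_mem y, fun σ _ => σ.commutes y⟩
      inv_mem' := fun a ha => ⟨inv_mem ha.1, fun σ h => by rw [map_inv₀, ha.2 σ h]⟩ }
  have hle : N' ≤ M := fun x hx => hx.1
  have j1 : FiniteDimensional s.k N' :=
    FiniteDimensional.of_injective (IntermediateField.inclusion hle).toLinearMap
      (IntermediateField.inclusion_injective hle)
  have j2 : IsAbelianGalois s.k N' := .of_algHom (IntermediateField.inclusion hle)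
  refine ⟨⟨s, N', j1, j2.toIsGalois, j2.is_comm.comm,
    fun h => i3 (h.trans (IntermediateField.finrank_dvd_of_le_right hle)), fun σ h x hx => hx.2 σ h,
    fun V σ h3 h h1 x hx => tame_fix M cM i3 hz h3 h h1 hx.1, hray N' j2.is_comm.comm⟩, rfl,
    fun x hx => ?_, fun σ h h1 y hy => m4_eq (τ := 1) h h1 (hM ▸ hy.1)⟩
  change x ∈ N' ⊔ IntermediateField.adjoin s.k {zt 1}
  have xM : x ∈ M := hM ▸ (le_sup_left : N ≤ _) hx
  have tf : ∀ σ : s.Au, Inert s.v σ → σ (zt 1) = zt 1 → ∀ y ∈ M, σ y = y :=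
    fun σ h h1 y hy => tame_fix M cM i3 hz s.v_three h h1 hy
  by_cases h0 : ∀ σ : s.Au, Inert s.v σ → σ (zt 1) = zt 1
  · exact (le_sup_left : N' ≤ _) ⟨xM, fun σ h => tf σ h (h0 σ h) x xM⟩
  push Not at h0
  obtain ⟨τ, ht, h1⟩ := h0
  have h2 := (m4_zt τ).resolve_left h1
  have rM : r3 1 ∈ M := sub_mem (pow_mem hz _) (pow_mem hz _)
  have tr : τ (r3 1) = -r3 1 := by
    rw [r3, map_sub, map_pow, map_pow, h2]
    linear_combination -zt 1 * zt1_cube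
  have tt : τ (τ x) = x := tf (τ * τ) (inert_mul ht ht) (m4_sq τ) x xM
  have tx : τ x ∈ M := s.au_mem M τ xM
  have all : ∀ y ∈ M, τ y = y → y ∈ N' := fun y hy e => ⟨hy, fun σ h => by
    rcases m4_zt σ with a | a
    · exact tf σ h a y hy
    · have b := tf (τ * σ) (inert_mul ht h) (by rw [AlgEquiv.mul_apply, a, ← h2, m4_sq]) y hy
      rw [AlgEquiv.mul_apply] at b
      exact τ.injective (b.trans e.symm)⟩
  have a1 := all _ (add_mem xM tx) (by rw [map_add, tt, add_comm])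
  have a2 := all _ (div_mem (sub_mem xM tx) rM) (by
    rw [map_div₀, map_sub, tt, tr, div_neg, ← neg_div, neg_sub])
  have z1 : zt 1 ∈ N' ⊔ IntermediateField.adjoin s.k {zt 1} :=
    (le_sup_right : _ ≤ N' ⊔ _) (IntermediateField.mem_adjoin_simple_self _ _)
  have e : x = (x + τ x + (x - τ x) / r3 1 * r3 1) / 2 := by
    rw [div_mul_cancel₀ _ r3_ne]
    ring
  rw [e]
  exact div_mem (add_mem ((le_sup_left : N' ≤ _) a1) (mul_mem ((le_sup_left : N' ≤ _) a2)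
    (sub_mem (pow_mem z1 _) (pow_mem z1 _)))) (ofNat_mem _ 2)

end St

theorem exists_cb {K : Type} [Field K] [NumberField K] {D : ℤ} (h0 : D < 0) (h3 : D % 3 = 1)
    {δ : AlgebraicClosure K} (hδ : δ ^ 2 = D)
    (N : IntermediateField (IntermediateField.adjoin ℚ {δ}) (AlgebraicClosure K))
    (hg : IsGalois (IntermediateField.adjoin ℚ {δ}) N)
    (hc : ∀ g h : N ≃ₐ[IntermediateField.adjoin ℚ {δ}] N, g * h = h * g)
    (ho : ¬ 3 ∣ Module.finrank (IntermediateField.adjoin ℚ {δ}) N)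
    (hray : ∀ (s : St) (F : IntermediateField s.k ℂ) [FiniteDimensional s.k F] [IsGalois s.k F],
      (∀ g h : F ≃ₐ[s.k] F, g * h = h * g) →
        ∃ m : ℕ, 0 < m ∧ ∀ σ : s.Au, s.Art m σ ⊤ → ∀ x ∈ F, σ x = x) :
    ∃ (s : Cb) (e : AlgebraicClosure K →+* ℂ), (∀ x ∈ N, e x ∈ s.K 1) ∧
      (∀ x, e x ∈ s.k → x ∈ N) ∧
      (∀ σ : s.Au, (∀ x ∈ N, σ (e x) = e x) → σ (zt 1) = zt 1 → ∀ y ∈ s.N, σ y = y) ∧
      ∀ y : ℂ, IsAlgebraic ℚ y → ∃ x, e x = y := by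
  obtain ⟨s, d, hd, hk⟩ := exists_st h0 h3
  have : Algebra.IsAlgebraic ℚ (AlgebraicClosure K) := Algebra.IsAlgebraic.trans ℚ K _
  let e : AlgebraicClosure K →ₐ[ℚ] ℂ := IsAlgClosed.lift
  have he : e δ = d ∨ e δ = -d := by
    rw [← sq_eq_sq_iff_eq_or_eq_neg, ← map_pow, hδ, map_intCast, hd]
  have hmap : (IntermediateField.adjoin ℚ {δ}).map e = s.k := by
    rw [IntermediateField.adjoin_map, Set.image_singleton, hk]
    rcases he with he | he
    · rw [he]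
    · rw [he]
      apply le_antisymm <;> rw [IntermediateField.adjoin_simple_le_iff]
      · exact neg_mem (IntermediateField.mem_adjoin_simple_self ℚ d)
      · simpa using neg_mem (IntermediateField.mem_adjoin_simple_self ℚ (-d))
  let φ : IntermediateField.adjoin ℚ {δ} ≃ₐ[ℚ] s.k :=
    (IntermediateField.equivMap _ e).trans (IntermediateField.equivOfEq hmap)
  have hφ : ∀ x, ((φ x : s.k) : ℂ) = e x := fun x => rfl
  let N' : IntermediateField s.k ℂ :=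
    (N.toSubfield.map (e : AlgebraicClosure K →+* ℂ)).toIntermediateField fun x => by
      obtain ⟨y, rfl⟩ := φ.surjective x
      exact ⟨y, N.algebraMap_mem y, (hφ y).symm⟩
  have hN' : ∀ x, e x ∈ N' ↔ x ∈ N := by
    refine fun x => ⟨?_, fun h => ⟨x, h, rfl⟩⟩
    rintro ⟨y, hy, h⟩
    rw [← (e : AlgebraicClosure K →+* ℂ).injective (a₁ := y) (a₂ := x) h]
    exact hy
  let f : N →+* N' := ((e : AlgebraicClosure K →+* ℂ).comp N.toSubfield.subtype).codRestrict N'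
    fun x => (hN' x).2 x.2
  have hf : Function.Bijective f := ⟨f.injective, by
    rintro ⟨_, y, hy, rfl⟩
    exact ⟨⟨y, hy⟩, rfl⟩⟩
  have hc' : (algebraMap s.k N').comp φ.toRingEquiv.toRingHom =
      (RingEquiv.ofBijective f hf).toRingHom.comp
        (algebraMap (IntermediateField.adjoin ℚ {δ}) N) :=
    RingHom.ext fun x => Subtype.ext (hφ x)
  have hr : ¬ 3 ∣ Module.finrank s.k N' :=
    Algebra.finrank_eq_of_equiv_equiv _ _ hc' ▸ ho
  have key : ∀ g : N' ≃ₐ[s.k] N', ∃ g' : N ≃ₐ[IntermediateField.adjoin ℚ {δ}] N,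
      ∀ x, f (g' x) = g (f x) := fun g => by
    let E := RingEquiv.ofBijective f hf
    refine ⟨AlgEquiv.ofRingEquiv (f := (E.trans g.toRingEquiv).trans E.symm) fun x => ?_,
      fun x => E.apply_symm_apply _⟩
    have h1 : E (algebraMap _ N x) = algebraMap s.k N' (φ x) := (RingHom.congr_fun hc' x).symm
    rw [RingEquiv.trans_apply, RingEquiv.trans_apply, h1, RingEquiv.symm_apply_eq, h1]
    exact g.commutes _
  have i1 : FiniteDimensional s.k N' :=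
    Module.finite_of_finrank_pos (Nat.pos_of_ne_zero fun e => hr (e ▸ dvd_zero 3))
  have i2 : IsGalois s.k N' :=
    IsGalois.of_equiv_equiv (f := φ.toRingEquiv) (g := RingEquiv.ofBijective f hf) hc'
  obtain ⟨c, rfl, c1, c2⟩ := s.m4_cb N' (fun g h => AlgEquiv.ext fun y => by
    obtain ⟨g', a1⟩ := key g
    obtain ⟨h', a2⟩ := key h
    obtain ⟨x, rfl⟩ := hf.2 y
    rw [AlgEquiv.mul_apply, AlgEquiv.mul_apply, ← a2, ← a1, ← a1, ← a2, ← AlgEquiv.mul_apply, hc,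
      AlgEquiv.mul_apply]) hr (hray s)
  refine ⟨c, e, fun x hx => c1 _ ((hN' x).2 hx), fun x hx => (hN' x).1 (N'.algebraMap_mem ⟨_, hx⟩),
    fun σ h => c2 σ ?_, ?_⟩
  · rintro _ ⟨x, hx, rfl⟩
    exact h x hx
  rintro y ⟨p, hp0, hp⟩
  refine (IsAlgClosed.splits (p.map (algebraMap ℚ (AlgebraicClosure K)))).mem_range_of_isRoot
    (Polynomial.map_ne_zero hp0) (i := (e : AlgebraicClosure K →+* ℂ)) ?_
  rw [Polynomial.map_map, Polynomial.IsRoot.def, Polynomial.eval_map,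
    Subsingleton.elim ((e : AlgebraicClosure K →+* ℂ).comp _) (algebraMap ℚ ℂ)]
  exact hp

end Pool.Agent.P.MP_20768c_nt.Tz.Cv

end
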