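import Pool.Agent.P.MP_20768c_nt.Tz.Z4
import Pool.Agent.P.MP_20768c_nt.Tz.Z6
import Pool.Agent.P.MP_20768c_nt.Tz.Z12

-- part Cv.E5
section

set_option autoImplicit false

open Complex NumberField IsDedekindDomain Filter Topology
open UpperHalfPlane hiding I
open scoped ComplexConjugate Real MatrixGroups

namespace Pool.Agent.P.MP_20768c_nt.Tz.Cv

open Pool.Agent.P.MP_20768c_nt.Tz.EQ (Lt pr sp IsLat jL qN)

namespace Cb

variable {s : Cb} {Γ : Type} [LinearOrderedCommGroupWithZero Γ] {σ : s.Au} {n : ℕ} {x : ℂ}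

theorem e5_cube (hn : 2 ≤ n) : zt n ^ 3 = zt (n - 1) := by
  have := zt_cube (n - 1)
  rwa [Nat.sub_add_cancel (by omega)] at this

theorem e5_tau (s : Cb) (hn : 2 ≤ n) :
    ∃ σ : s.Au, (∀ x ∈ s.N, σ x = x) ∧ σ (zt n) = zt 1 * zt n := by
  obtain ⟨σ, h1, h2⟩ := s.exists_inert n (tau n)
  exact ⟨σ, fun x hx => inert_fix_N h1 hx, h2.trans (zt_tau hn)⟩

theorem e5_pm (hn : 2 ≤ n) (h : ∀ x ∈ s.N, σ x = x) (h' : σ (zt n) = zt 1 * zt n) {ρ : s.Au}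
    (hρ : ∀ y ∈ s.K (n - 1), ρ y = y) : (∀ y ∈ s.K n, ρ y = y) ∨ (∀ y ∈ s.K n, ρ y = σ y) ∨
      ∀ y ∈ s.K n, ρ y = σ (σ y) := by
  obtain ⟨h1, h2⟩ := fix_K.1 hρ
  obtain ⟨i, hi⟩ := cube_one (x := ρ (zt n) / zt n) (by
    rw [div_pow, ← map_pow, e5_cube hn, h2, div_self (zt_ne _)])
  rw [div_eq_iff (zt_ne n), pow_eq_pow_mod i zt1_cube] at hi
  have f1 : σ (zt 1) = zt 1 := (tau_fix (σ : ℂ →+* ℂ) hn h').1
  rcases (show i % 3 = 0 ∨ i % 3 = 1 ∨ i % 3 = 2 by omega) with e | e | e <;> rw [e] at hi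
  · exact Or.inl (fix_K.2 ⟨h1, by rw [hi, pow_zero, one_mul]⟩)
  · exact Or.inr (Or.inl fun y hy => eq_on_K (fun y hy => (h1 y hy).trans (h y hy).symm)
      (by rw [hi, h', pow_one]) hy)
  · exact Or.inr (Or.inr fun y hy => eq_on_K (τ := σ * σ) (fun y hy => by
      rw [h1 y hy, AlgEquiv.mul_apply, h y hy, h y hy]) (by
      rw [hi, AlgEquiv.mul_apply, h', map_mul, f1, h', sq, mul_assoc]) hy)

theorem e5_int {F : IntermediateField s.k ℂ} (hx : x ∈ F) (h : IsIntegral ℤ x) :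
    ∃ y : 𝓞 F, ((y : F) : ℂ) = x :=
  ⟨⟨⟨x, hx⟩, (isIntegral_algebraMap_iff (algebraMap F ℂ).injective).1 h⟩, rfl⟩

theorem e5_int' {F : IntermediateField s.k ℂ} (y : 𝓞 F) : IsIntegral ℤ ((y : F) : ℂ) :=
  (RingOfIntegers.isIntegral_coe y).algebraMap (B := ℂ)

theorem K_tau (hn : 2 ≤ n) (h : ∀ x ∈ s.N, σ x = x) (h' : σ (zt n) = zt 1 * zt n)
    (hx : x ∈ s.K n) : σ x = x ↔ x ∈ s.K (n - 1) := by
  refine ⟨fun e => St.mem_of_fixed _ _ fun ρ hρ => ?_,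
    fun hx' => (fix_K.2 ⟨h, (tau_fix (σ : ℂ →+* ℂ) hn h').2.1⟩) x hx'⟩
  rcases e5_pm hn h h' hρ with h1 | h1 | h1
  · exact h1 x hx
  · rw [h1 x hx, e]
  · rw [h1 x hx, e, e]

theorem exists_tau (s : Cb) (hn : 2 ≤ n) : ∃ τ, s.IsTau n τ := by
  obtain ⟨σ, h1, h2⟩ := s.e5_tau hn
  obtain ⟨ρ, -, hρ⟩ := s.exists_res (s.K n)
  exact ⟨ρ σ, fun y hy => Subtype.ext (by rw [hρ, h1 _ hy]), fun y hy => by rw [hρ, hy, h2]⟩

theorem IsTau.spec (hn : 2 ≤ n) {τ : s.G n} (h : s.IsTau n τ) : τ ≠ 1 ∧ τ ^ 3 = 1 ∧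
    (∀ y : s.K n, τ y = y ↔ (y : ℂ) ∈ s.K (n - 1)) ∧
    ∀ g : s.G n, (∀ y : s.K n, (y : ℂ) ∈ s.K (n - 1) → g y = y) →
      g = 1 ∨ g = τ ∨ g = τ * τ := by
  obtain ⟨ρ, hs, hρ⟩ := s.exists_res (s.K n)
  obtain ⟨σ, rfl⟩ := hs τ
  have h1 : ∀ x ∈ s.N, σ x = x := fun x hx =>
    (hρ σ ⟨x, s.N_le n hx⟩).symm.trans (congrArg Subtype.val (h.1 ⟨x, s.N_le n hx⟩ hx))
  have h2 : σ (zt n) = zt 1 * zt n :=
    (hρ σ ⟨zt n, s.zt_mem n⟩).symm.trans (h.2 ⟨zt n, s.zt_mem n⟩ rfl)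
  refine ⟨fun e => ?_, ?_, fun y => by rw [Subtype.ext_iff, hρ, K_tau hn h1 h2 y.2],
    fun g hg => ?_⟩
  · have := hρ σ ⟨zt n, s.zt_mem n⟩
    rw [e, h2] at this
    exact zt1_ne ((mul_eq_right₀ (zt_ne n)).1 this.symm)
  · rw [pow_three, ← map_mul, ← map_mul]
    refine AlgEquiv.ext fun y => Subtype.ext ?_
    rw [hρ]
    exact fix_K.2 ⟨fun z hz => by
      rw [AlgEquiv.mul_apply, AlgEquiv.mul_apply, h1 z hz, h1 z hz, h1 z hz],
      (tau_fix (σ : ℂ →+* ℂ) hn h2).2.2⟩ _ y.2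
  · obtain ⟨σ', rfl⟩ := hs g
    rcases e5_pm (ρ := σ') hn h1 h2 fun y hy => by
      have := congrArg Subtype.val (hg ⟨y, s.K_mono (Nat.sub_le n 1) hy⟩ hy)
      rwa [hρ] at this with k | k | k
    · exact Or.inl (AlgEquiv.ext fun y => Subtype.ext (by rw [hρ]; exact k _ y.2))
    · exact Or.inr (Or.inl (AlgEquiv.ext fun y => Subtype.ext (by rw [hρ, hρ]; exact k _ y.2)))
    · exact Or.inr (Or.inr (AlgEquiv.ext fun y => Subtype.ext (by
        rw [← map_mul, hρ, hρ]; exact k _ y.2)))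

theorem exists_move (s : Cb) (n : ℕ) (a : s.GN) (b : (ZMod (3 ^ n))ˣ) :
    ∃ σ : s.Au, (∀ x : s.N, σ x = ((a x : s.N) : ℂ)) ∧
      σ (zt n) = zt n ^ (b : ZMod (3 ^ n)).val := by
  obtain ⟨ρ, hs, hρ⟩ := s.exists_res s.N
  obtain ⟨σ, rfl⟩ := hs a
  obtain ⟨c, hc⟩ := hom_zt (σ : ℂ →+* ℂ) n
  obtain ⟨τ, k1, k2⟩ := s.exists_inert n (c⁻¹ * b)
  refine ⟨σ * τ, fun x => by rw [hρ, AlgEquiv.mul_apply, inert_fix_N k1 x.2], ?_⟩
  rw [AlgEquiv.mul_apply, k2, map_pow, show σ (zt n) = _ from hc, ← pow_mul, ← zpow_natCast]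
  refine (zt_val ?_).symm
  simp

theorem exists_gam (s : Cb) : ∃ γ, s.IsGam γ := by
  have a : ∀ n, ∃ g : s.Au, (∀ x ∈ s.N, g x = x) ∧ g (zt n) = zt n ^ 4 := fun n => by
    obtain ⟨g, h1, h2⟩ := s.exists_inert n
      (ZMod.unitOfCoprime 4 (Nat.Coprime.pow_right n (by norm_num)))
    refine ⟨g, fun x hx => inert_fix_N h1 hx, h2.trans ?_⟩
    rw [zt_val (a := 4) (by simp)]
    exact zpow_ofNat _ 4
  choose g g1 g2 using a
  have b : ∀ n j x, x ∈ s.K n → g (n + j) x = g n x := fun n j x hx => by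
    refine eq_on_K (fun y hy => (g1 _ y hy).trans (g1 _ y hy).symm) ?_ hx
    rw [g2, ← zt_pow_three n j, map_pow, g2, ← pow_mul, ← pow_mul, mul_comm]
  have c : ∀ n n' x, x ∈ s.K n → x ∈ s.K n' → g n x = g n' x := fun n n' x h h' => by
    rw [← b n n' x h, add_comm, b n' n x h']
  have l : ∀ {n n' x}, x ∈ s.K n → x ∈ s.K (n + n') := fun h => s.K_mono (Nat.le_add_right _ _) h
  have r : ∀ {n n' x}, x ∈ s.K n' → x ∈ s.K (n + n') := fun h => s.K_mono (Nat.le_add_left _ _) h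
  let A : Subring ℂ :=
    { carrier := {x | ∃ n, x ∈ s.K n}
      mul_mem' := fun ⟨_, h⟩ ⟨_, h'⟩ => ⟨_, mul_mem (l h) (r h')⟩
      one_mem' := ⟨0, one_mem _⟩
      add_mem' := fun ⟨_, h⟩ ⟨_, h'⟩ => ⟨_, add_mem (l h) (r h')⟩
      zero_mem' := ⟨0, zero_mem _⟩
      neg_mem' := fun ⟨_, h⟩ => ⟨_, neg_mem h⟩ }
  have e : ∀ (x : A) (n : ℕ), (x : ℂ) ∈ s.K n → g x.2.choose x = g n x := fun x n h =>
    c _ _ _ x.2.choose_spec h
  let ψ : A →+* ℂ :=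
    { toFun := fun x => g x.2.choose x
      map_one' := map_one _
      map_zero' := map_zero _
      map_mul' := fun x y => by
        obtain ⟨n, h⟩ := id x.2
        obtain ⟨n', h'⟩ := id y.2
        rw [e x _ (l (n' := n') h), e y _ (r (n := n) h'), ← map_mul]
        exact e (x * y) _ (mul_mem (l h) (r h'))
      map_add' := fun x y => by
        obtain ⟨n, h⟩ := id x.2
        obtain ⟨n', h'⟩ := id y.2
        rw [e x _ (l (n' := n') h), e y _ (r (n := n) h'), ← map_add]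
        exact e (x + y) _ (add_mem (l h) (r h')) }
  have hc : Countable A := ((Algebraic.countable ℚ ℂ).mono
    (show (A : Set ℂ) ⊆ _ from fun x ⟨n, h⟩ => s.alg_of_mem (s.K n) h)).to_subtype
  obtain ⟨σ, hσ⟩ := Pool.Agent.P.MP_20768c_nt.Tz.EQ.aut_ring Cardinal.mk_le_aleph0 A.subtype ψ Subtype.val_injective
    ((injective_iff_map_eq_zero ψ).2 fun x hx => Subtype.ext ((map_eq_zero (g x.2.choose)).1 hx))
  have f : ∀ n x, x ∈ s.K n → σ x = g n x := fun n x h => (hσ ⟨x, n, h⟩).trans (e ⟨x, n, h⟩ n h)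
  have f1 : ∀ x ∈ s.N, σ x = x := fun x h => (f 0 x (s.N_le 0 h)).trans (g1 0 x h)
  exact ⟨AlgEquiv.ofRingEquiv (f := σ) fun x => f1 _ (s.N.algebraMap_mem x), f1,
    fun n => (f n _ (s.zt_mem n)).trans (g2 n)⟩

theorem gam_zt {γ : s.Au} (h : s.IsGam γ) (j n : ℕ) : (γ ^ j) (zt n) = zt n ^ 4 ^ j := by
  induction j with
  | zero => simp
  | succ j ih => rw [pow_succ γ, AlgEquiv.mul_apply, h.2, map_pow, ih, ← pow_mul, ← pow_succ]

theorem e5_pow (h : σ x = x) (j : ℕ) : (σ ^ j) x = x := by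
  induction j with
  | zero => rfl
  | succ j ih => rw [pow_succ, AlgEquiv.mul_apply, h, ih]

theorem e5_congr {a b : ℕ} : zt n ^ a = zt n ^ b ↔ (a : ℤ) ≡ b [ZMOD 3 ^ n] := by
  rw [← zpow_natCast, ← zpow_natCast, zt_congr, ZMod.intCast_eq_intCast_iff]
  push_cast
  rfl

theorem gam_fix {γ : s.Au} (h : s.IsGam γ) (hn : 1 ≤ n) {n' : ℕ} (hx : x ∈ s.K n') :
    (γ ^ 3 ^ (n - 1)) x = x ↔ x ∈ s.K n := by
  have hu := cube_step (u := 4) (o := 1) le_rfl (by decide) (n - 1)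
  rw [Nat.add_sub_cancel' hn] at hu
  have hN : ∀ j, ∀ y ∈ s.N, (γ ^ j) y = y := fun j y hy => e5_pow (h.1 y hy) j
  refine ⟨fun e => St.mem_of_fixed _ _ fun ρ hρ => ?_, fun hx' => fix_K.2 ⟨hN _, ?_⟩ x hx'⟩
  · obtain ⟨h1, h2⟩ := fix_K.1 hρ
    obtain ⟨b, hb⟩ := hom_zt (ρ : ℂ →+* ℂ) (n + n')
    replace hb : ρ (zt (n + n')) = zt (n + n') ^ (b : ZMod (3 ^ (n + n'))).val := hb
    generalize (b : ZMod (3 ^ (n + n'))).val = a at hb
    have ha : zt n ^ a = zt n ^ 1 := by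
      rw [pow_one]
      nth_rewrite 2 [← h2]
      rw [← zt_pow_three n n', map_pow, hb, ← pow_mul, ← pow_mul, mul_comm]
    obtain ⟨i, -, hi⟩ := gen_pow hn hu (by norm_num) (e5_congr.1 ha) n'
    refine (eq_on_K (τ := (γ ^ 3 ^ (n - 1)) ^ i) (n := n + n') (fun y hy => ?_) ?_
      (s.K_mono (Nat.le_add_left _ _) hx)).trans (e5_pow e i)
    · rw [← pow_mul, hN _ y hy, h1 y hy]
    · rw [← pow_mul, gam_zt h, hb, e5_congr]
      push_cast
      rwa [pow_mul]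
  · rw [gam_zt h]
    nth_rewrite 2 [← pow_one (zt n)]
    rw [e5_congr]
    push_cast
    rw [mul_one] at hu
    exact (hu.of_dvd (pow_dvd_pow _ (Nat.le_succ n))).trans Int.add_modEq_right

theorem gam_tau {γ : s.Au} (h : s.IsGam γ) (hn : 2 ≤ n) :
    (γ ^ 3 ^ (n - 2)) (zt n) = zt 1 * zt n := by
  have hu := cube_step (u := 4) (o := 1) le_rfl (by decide) (n - 2)
  rw [show 1 + (n - 2) + 1 = n by omega, show 1 + (n - 2) = n - 1 by omega, mul_one] at hu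
  rw [gam_zt h, (e5_congr (b := 1 + 3 ^ (n - 1))).2 (by push_cast; exact hu), pow_add,
    zt_third (by omega), pow_one, mul_comm]

theorem exists_unr (s : Cb) : ∃ C : ℕ, C ≠ 0 ∧ ∀ n, Unr s.k (s.K n) C := by
  obtain ⟨C, hC, h⟩ := s.exists_unram s.N
  refine ⟨3 * C, by positivity, fun n Q hQ hm g hg => ?_⟩
  have hy : ∀ x : 𝓞 (s.K n), ∃ y : 𝓞 (s.K n), (y : s.K n) = g x := fun x =>
    ⟨⟨g x, (RingOfIntegers.isIntegral_coe x).map (g.toAlgHom.toRingHom.toIntAlgHom)⟩, rfl⟩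
  by_cases h0 : Q = ⊥
  · have a : ∀ x : 𝓞 (s.K n), g x = x := fun x => by
      obtain ⟨y, e⟩ := hy x
      have := hg x y e
      rw [h0, Ideal.mem_bot, sub_eq_zero] at this
      rw [← e, this]
    refine AlgEquiv.ext fun z => ?_
    obtain ⟨p, q, -, rfl⟩ := IsFractionRing.div_surjective (A := 𝓞 (s.K n)) z
    rw [map_div₀]
    exact congrArg₂ (· / ·) (a p) (a q)
  obtain ⟨V, hV⟩ := s.exists_val (s.K n) Q hQ h0
  obtain ⟨ρ, hs, hρ⟩ := s.exists_res (s.K n)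
  obtain ⟨σ, rfl⟩ := hs g
  have v1 : V.valuation ((3 * C : ℕ) : ℂ) = 1 := by
    refine le_antisymm (St.v_int _ (isIntegral_natCast _)) (not_lt.1 fun hl => hm ((hV _).1 ?_))
    rwa [RingOfIntegers.coe_eq_algebraMap, map_natCast, SubringClass.coe_natCast]
  have a : ∀ x ∈ s.K n, IsIntegral ℤ x → V.valuation (σ x - x) < 1 := fun x hx hi => by
    obtain ⟨x, rfl⟩ := e5_int hx hi
    obtain ⟨y, e⟩ := hy x
    have := (hV _).2 (hg x y e)
    rw [← hρ, ← e]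
    simpa using this
  have b := h V σ (v_nat_dvd _ (dvd_mul_left _ _) v1) fun x => a _ (s.N_le n x.1.2) (e5_int' x)
  have c : σ (zt n) = zt n := by
    refine St.root_inj V.valuation (n := 3 ^ n) ?_ (by rw [← map_pow, zt_pow, map_one]) (zt_pow n)
      (a _ (s.zt_mem n) (zt_int n))
    rw [Nat.cast_pow, map_pow, v_nat_dvd _ (dvd_mul_right _ _) v1, one_pow]
  exact AlgEquiv.ext fun y => Subtype.ext (by rw [hρ]; exact fix_K.2 ⟨b, c⟩ _ y.2)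

theorem e5_mul (ε ε' : (𝓞 (s.K n))ˣ) : s.uc (ε * ε') = s.uc ε * s.uc ε' := by
  simp [uc]

theorem v_uc (v : Valuation ℂ Γ) (ε : (𝓞 (s.K n))ˣ) : v (s.uc ε) = 1 := by
  have a : ∀ ε : (𝓞 (s.K n))ˣ, v (s.uc ε) ≤ 1 := fun ε => St.v_int v (e5_int' _)
  have b : v (s.uc ε) * v (s.uc ε⁻¹) = 1 := by
    rw [← map_mul, ← e5_mul, mul_inv_cancel]
    simp [uc]
  refine le_antisymm (a ε) ?_
  rw [← b]
  exact mul_le_of_le_one_right' (a _)

theorem uc_mem (ε : (𝓞 (s.K n))ˣ) : s.uc ε ∈ s.K n := by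
  exact Subtype.property _

theorem uc_mul (ε ε' : (𝓞 (s.K n))ˣ) : s.uc (ε * ε') = s.uc ε * s.uc ε' := by
  exact e5_mul ε ε'

theorem uc_inj {ε ε' : (𝓞 (s.K n))ˣ} (h : s.uc ε = s.uc ε') : ε = ε' := by
  exact Units.ext (RingOfIntegers.ext (Subtype.ext h))

theorem unit_aut (σ : s.Au) (n : ℕ) :
    ∃ e : (𝓞 (s.K n))ˣ →* (𝓞 (s.K n))ˣ, ∀ ε, s.uc (e ε) = σ (s.uc ε) := by
  obtain ⟨ρ, -, hρ⟩ := s.exists_res (s.K n)
  exact ⟨Units.map (RingOfIntegers.mapRingHom (ρ σ).toAlgHom.toRingHom).toMonoidHom,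
    fun ε => hρ σ _⟩

theorem unit_down {n' : ℕ} (ε : (𝓞 (s.K n))ˣ) (h : s.uc ε ∈ s.K n') :
    ∃ ε' : (𝓞 (s.K n'))ˣ, s.uc ε' = s.uc ε := by
  exact s.unit_of_val (s.K n') h fun V => v_uc _ ε

end Cb

end Pool.Agent.P.MP_20768c_nt.Tz.Cv

end

-- part Cv.K3
section

set_option autoImplicit false

open Complex NumberField IsDedekindDomain Filter Topology
open UpperHalfPlane hiding I
open scoped ComplexConjugate Real MatrixGroups

namespace Pool.Agent.P.MP_20768c_nt.Tz.Cv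

open Pool.Agent.P.MP_20768c_nt.Tz.EQ (Lt pr sp IsLat jL qN)

section
variable {k F F' : Type} [Field k] [NumberField k] [Field F] [NumberField F] [Field F']
  [NumberField F'] [Algebra k F] [Algebra k F'] [Algebra F' F] [IsScalarTower k F' F]
  [IsGalois k F] [IsGalois k F'] {C : ℕ}

omit [IsGalois k F] in
theorem k3_frob (Fr : Ideal (𝓞 k) → F ≃ₐ[k] F)
    (hFr : ∀ Q : Ideal (𝓞 F), Q.IsPrime → Q ≠ ⊥ → (C : 𝓞 F) ∉ Q → FrobAt (Fr (Q.under (𝓞 k))) Q)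
    (P : Ideal (𝓞 F')) (hP : P.IsPrime) (h0 : P ≠ ⊥) (hC : (C : 𝓞 F') ∉ P) :
    FrobAt (AlgEquiv.restrictNormalHom F' (Fr (P.under (𝓞 k)))) P := by
  have hM : P.IsMaximal := hP.isMaximal h0
  obtain ⟨Q, hQ, hQP⟩ := Ideal.exists_maximal_ideal_liesOver_of_isIntegral (S := 𝓞 F) P
  have e : P = Q.under (𝓞 F') := hQP.over
  have e2 : Q.under (𝓞 k) = P.under (𝓞 k) := by rw [e, Ideal.under_under]
  have h1 := hFr Q hQ.isPrime (Ideal.ne_bot_of_liesOver_of_ne_bot h0 Q) (fun h => hC (by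
    rw [e, Ideal.under_def, Ideal.mem_comap, map_natCast]
    exact h))
  intro x y hxy
  have h2 := h1 (algebraMap _ _ x) (algebraMap _ _ y) (by
    have h3 := AlgEquiv.restrictNormal_commutes (Fr (P.under (𝓞 k))) F' (x : F')
    rw [e2]
    refine Eq.trans ?_ h3
    exact congrArg (algebraMap F' F) hxy)
  rw [e2] at h2
  conv_lhs => rw [e]
  rw [Ideal.under_def (A := 𝓞 F'), Ideal.mem_comap, map_sub, map_pow]
  exact h2

theorem k3_split (hc : ∀ g h : F ≃ₐ[k] F, g * h = h * g) (hc' : ∀ g h : F' ≃ₐ[k] F', g * h = h * g)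
    (hU : Unr k F C) (hU' : Unr k F' C) (Fr : Ideal (𝓞 k) → F ≃ₐ[k] F)
    (hFr : ∀ Q : Ideal (𝓞 F), Q.IsPrime → Q ≠ ⊥ → (C : 𝓞 F) ∉ Q → FrobAt (Fr (Q.under (𝓞 k))) Q)
    {τ : F ≃ₐ[k] F} (h3 : ∀ y : F', τ (algebraMap F' F y) = algebraMap F' F y)
    (h4 : ∀ g : F ≃ₐ[k] F, (∀ y : F', g (algebraMap F' F y) = algebraMap F' F y) →
      g = 1 ∨ g = τ ∨ g = τ * τ)
    (a : ((F ≃ₐ[k] F) →* ℂˣ) → Ideal (𝓞 k) → ℂ) (ha : ∀ φ, Mult k (a φ))
    (hq : ∀ φ (q : Ideal (𝓞 k)), q.IsPrime → q ≠ ⊥ →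
      ((C : 𝓞 k) ∈ q → a φ q = 0) ∧ ((C : 𝓞 k) ∉ q → a φ q = φ (Fr q))) {t : ℝ} (ht : 1 < t) :
    DS F (oneC F C) t = DS F' (oneC F' C) t *
      ∏ᶠ φ ∈ {φ : (F ≃ₐ[k] F) →* ℂˣ | φ τ ≠ 1}, DS k (a φ) t := by
  obtain ⟨r, hr⟩ : ∃ r : (F ≃ₐ[k] F) →* (F' ≃ₐ[k] F'), r = AlgEquiv.restrictNormalHom F' :=
    ⟨_, rfl⟩
  have hs : Function.Surjective r := hr ▸ AlgEquiv.restrictNormalHom_surjective F
  have hk : ∀ g, r g = 1 ↔ ∀ y : F', g (algebraMap F' F y) = algebraMap F' F y := by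
    intro g
    have e : ∀ y, algebraMap F' F (r g y) = g (algebraMap F' F y) := fun y =>
      hr ▸ AlgEquiv.restrictNormal_commutes g F' y
    refine ⟨fun h y => by rw [← e, h, AlgEquiv.one_apply], fun h => AlgEquiv.ext fun y => ?_⟩
    exact (algebraMap F' F).injective ((e y).trans (h y))
  have hrange : Set.range (fun ψ : (F' ≃ₐ[k] F') →* ℂˣ => ψ.comp r) = {φ | φ τ = 1} := by
    ext φ
    constructor
    · rintro ⟨ψ, rfl⟩
      show ψ (r τ) = 1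
      rw [(hk τ).2 h3, map_one]
    · intro h
      refine ⟨r.liftOfSurjective hs ⟨φ, fun g hg => ?_⟩, r.liftOfRightInverse_comp _ _ _⟩
      have h' : φ τ = 1 := h
      rcases h4 g ((hk g).1 hg) with rfl | rfl | rfl
      · exact map_one φ
      · exact h
      · show φ (τ * τ) = 1
        rw [map_mul, h', one_mul]
  have hun : {φ : (F ≃ₐ[k] F) →* ℂˣ | φ τ = 1} ∪ {φ | φ τ ≠ 1} = Set.univ :=
    Set.eq_univ_of_forall fun φ => em _
  have hdis : Disjoint {φ : (F ≃ₐ[k] F) →* ℂˣ | φ τ = 1} {φ | φ τ ≠ 1} :=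
    Set.disjoint_left.2 fun φ e1 e2 => e2 e1
  rw [zeta_fac hc hU Fr hFr a ha hq ht, zeta_fac hc' hU' (fun q => r (Fr q))
    (hr ▸ k3_frob Fr hFr) (fun ψ => a (ψ.comp r)) (fun ψ => ha _) (fun ψ => hq _) ht,
    ← finprod_mem_univ, ← hun, finprod_mem_union hdis (Set.toFinite _) (Set.toFinite _), ← hrange,
    finprod_mem_range (f := fun φ => DS k (a φ) t) fun _ _ h => (MonoidHom.cancel_right hs).1 h]

end

theorem k3_lim {ι : Type} (S : Finset ι) {f g : ℝ → ℂ} {h : ι → ℝ → ℂ} {x y : ℝ} {z : ι → ℂ}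
    (hf : Tendsto (fun t : ℝ => ((t : ℂ) - 1) * f t) (𝓝[>] 1) (𝓝 (x : ℂ)))
    (hg : Tendsto (fun t : ℝ => ((t : ℂ) - 1) * g t) (𝓝[>] 1) (𝓝 (y : ℂ)))
    (hh : ∀ i ∈ S, Tendsto (h i) (𝓝[>] 1) (𝓝 (z i)))
    (e : ∀ t, 1 < t → f t = g t * ∏ i ∈ S, h i t) : x ^ 2 = y ^ 2 * ∏ i ∈ S, ‖z i‖ ^ 2 := by
  have h1 := tendsto_nhds_unique_of_eventuallyEq hf (hg.mul (tendsto_finsetProd S hh)) (by
    filter_upwards [self_mem_nhdsWithin] with t ht
    rw [e t ht, mul_assoc])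
  have h2 := congrArg (fun w : ℂ => ‖w‖ ^ 2) h1
  simpa only [norm_mul, norm_prod, Complex.norm_real, Real.norm_eq_abs, mul_pow, sq_abs,
    Finset.prod_pow] using h2

theorem k3_card {s : Cb} {n : ℕ} (hn : 2 ≤ n) {τ : s.G n} (t1 : τ ≠ 1) (t2 : τ ^ 3 = 1) :
    {φ : s.G n →* ℂˣ | φ τ ≠ 1}.ncard = 4 * s.g * 3 ^ (n - 2) := by
  have e := @card_odd (s.G n) { (inferInstance : Group (s.G n)) with mul_comm := Cb.comm_K } _ τ
    t1 t2
  have e2 : 3 * {φ : s.G n →* ℂˣ | φ τ ≠ 1}.ncard = 2 * Nat.card (s.G n) := e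
  rw [s.card_G (by omega), show n - 1 = n - 2 + 1 by omega, pow_succ] at e2
  refine Nat.eq_of_mul_eq_mul_left three_pos (e2.trans ?_)
  ring

theorem k3_split' {k : Type} [Field k] [NumberField k] [Algebra k ℂ] {F F' : IntermediateField k ℂ}
    [NumberField F] [NumberField F'] [IsGalois k F] [IsGalois k F'] {C : ℕ} (hle : F' ≤ F)
    (hc : ∀ g h : F ≃ₐ[k] F, g * h = h * g) (hc' : ∀ g h : F' ≃ₐ[k] F', g * h = h * g)
    (hU : Unr k F C) (hU' : Unr k F' C) (Fr : Ideal (𝓞 k) → F ≃ₐ[k] F)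
    (hFr : ∀ Q : Ideal (𝓞 F), Q.IsPrime → Q ≠ ⊥ → (C : 𝓞 F) ∉ Q → FrobAt (Fr (Q.under (𝓞 k))) Q)
    {τ : F ≃ₐ[k] F} (h3 : ∀ y : F, τ y = y ↔ (y : ℂ) ∈ F')
    (h4 : ∀ g : F ≃ₐ[k] F, (∀ y : F, (y : ℂ) ∈ F' → g y = y) → g = 1 ∨ g = τ ∨ g = τ * τ)
    (a : ((F ≃ₐ[k] F) →* ℂˣ) → Ideal (𝓞 k) → ℂ) (ha : ∀ φ, Mult k (a φ))
    (hq : ∀ φ (q : Ideal (𝓞 k)), q.IsPrime → q ≠ ⊥ →
      ((C : 𝓞 k) ∈ q → a φ q = 0) ∧ ((C : 𝓞 k) ∉ q → a φ q = φ (Fr q))) {t : ℝ} (ht : 1 < t) :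
    DS F (oneC F C) t = DS F' (oneC F' C) t *
      ∏ᶠ φ ∈ {φ : (F ≃ₐ[k] F) →* ℂˣ | φ τ ≠ 1}, DS k (a φ) t := by
  let _ : Algebra F' F := (IntermediateField.inclusion hle).toRingHom.toAlgebra
  have : IsScalarTower k F' F := IsScalarTower.of_algebraMap_eq fun _ => rfl
  exact k3_split hc hc' hU hU' Fr hFr (fun y => (h3 _).2 y.2)
    (fun g hg => h4 g fun y hy => hg ⟨y, hy⟩) a ha hq ht

theorem k3_ex {s : Cb} {C n : ℕ} {τ : s.G n} (Fr : Ideal s.O → s.G n)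
    (φ : s.G n →* ℂˣ) (P : (Ideal s.O → ℂ) → ℂ → ℝ → ℝ → Prop)
    (hA : φ τ ≠ 1 → ∃ (a : Ideal s.O → ℂ) (y : ℂ) (A B : ℝ), Mult s.k a ∧
      (∀ q : Ideal s.O, q.IsPrime → q ≠ ⊥ →
        ((C : s.O) ∈ q → a q = 0) ∧ ((C : s.O) ∉ q → a q = φ (Fr q))) ∧ P a y A B) :
    ∃ (a : Ideal s.O → ℂ) (y : ℂ) (A B : ℝ), Mult s.k a ∧
      (∀ q : Ideal s.O, q.IsPrime → q ≠ ⊥ →
        ((C : s.O) ∈ q → a q = 0) ∧ ((C : s.O) ∉ q → a q = φ (Fr q))) ∧
      (φ τ ≠ 1 → P a y A B) := by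
  by_cases h : φ τ ≠ 1
  · obtain ⟨a, y, A, B, h1, h2, h3⟩ := hA h
    exact ⟨a, y, A, B, h1, h2, fun _ => h3⟩
  · obtain ⟨a, h1, h2⟩ := exists_mult s.k (fun q => (φ (Fr q) : ℂ)) fun q => by
      refine (Complex.norm_eq_one_of_pow_eq_one (n := orderOf (Fr q)) ?_ (orderOf_pos _).ne').le
      rw [← Units.val_pow_eq_pow_val, ← map_pow, pow_orderOf_eq_one, map_one, Units.val_one]
    refine ⟨_, 0, 0, 0, mult_oneC s.k h1 C, fun q hq h0 => ⟨fun h3 => ?_, fun h3 => ?_⟩,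
      fun h3 => absurd h3 h⟩
    · rw [(oneC_prime s.k hq h0).1 h3, zero_mul]
    · rw [(oneC_prime s.k hq h0).2 h3, one_mul, h2 q hq h0]

theorem k3_fin {ι : Type} (S : Finset ι) (v : Valuation ℂ NNReal) {x x' : ℝ} {y Z : ι → ℂ}
    {A B : ι → ℝ} {a b c m : ℕ} (hm : S.card = m) (hlim : x ^ 2 = x' ^ 2 * ∏ i ∈ S, ‖y i‖ ^ 2)
    (h : ∀ i ∈ S, ‖y i‖ ^ 2 * A i = 4 * π ^ 2 * ‖Z i‖ ^ 2 * B i ∧
      A i ≠ 0 ∧ v (A i) ≤ v 3 ^ a ∧ v 3 ^ b ≤ v (B i) ^ c) :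
    ∃ A B : ℝ, A ≠ 0 ∧ v A ≤ v 3 ^ (a * m) ∧ v 3 ^ (b * m) ≤ v B ^ c ∧
      x ^ 2 * A = x' ^ 2 * (4 * π ^ 2) ^ m * (∏ i ∈ S, ‖Z i‖) ^ 2 * B := by
  subst hm
  refine ⟨∏ φ ∈ S, A φ, ∏ φ ∈ S, B φ,
    Finset.prod_ne_zero_iff.2 fun φ k => (h φ k).2.1, ?_, ?_, ?_⟩
  · rw [Complex.ofReal_prod, map_prod, pow_mul]
    exact Finset.prod_le_pow_card _ _ _ fun φ k => (h φ k).2.2.1
  · rw [Complex.ofReal_prod, map_prod, pow_mul, ← Finset.prod_pow]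
    exact Finset.pow_card_le_prod _ _ _ fun φ k => (h φ k).2.2.2
  · rw [hlim, mul_assoc, ← Finset.prod_mul_distrib,
      Finset.prod_congr rfl fun φ k => (h φ k).1, Finset.prod_mul_distrib,
      Finset.prod_mul_distrib, Finset.prod_const, Finset.prod_pow]
    ring

theorem Cb.res_rel {s : Cb} {C R n : ℕ} (hC : C ≠ 0) (hn : 2 ≤ n) (hU : ∀ j, Unr s.k (s.K j) C)
    {x : s.K n} (hA : s.Ana C R n x) {τ : s.G n} (hτ : s.IsTau n τ) : ∃ A B : ℝ, A ≠ 0 ∧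
      s.v A ≤ s.v 3 ^ (2 * n * (4 * s.g * 3 ^ (n - 2))) ∧
      s.v 3 ^ (R * (4 * s.g * 3 ^ (n - 2))) ≤ s.v B ^ 3 ^ n ∧
      (dedekindZeta_residue (s.K n) * EE (s.K n) C) ^ 2 * A =
        (dedekindZeta_residue (s.K (n - 1)) * EE (s.K (n - 1)) C) ^ 2 *
          (4 * π ^ 2) ^ (4 * s.g * 3 ^ (n - 2)) *
          (∏ᶠ φ ∈ {φ : s.G n →* ℂˣ | φ τ ≠ 1}, ‖s.Zs x φ‖) ^ 2 * B := by
  obtain ⟨Fr, hFr, hA⟩ := hA
  obtain ⟨t1, t2, t3, t4⟩ := Cb.IsTau.spec hn hτ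
  choose a y A B h1 h2 h3 using fun φ => k3_ex Fr φ _ (hA τ φ hτ)
  obtain ⟨S, hS⟩ : ∃ S : Finset (s.G n →* ℂˣ), (S : Set (s.G n →* ℂˣ)) = {φ | φ τ ≠ 1} :=
    ⟨(Set.toFinite _).toFinset, Set.Finite.coe_toFinset _⟩
  have hm : ∀ φ ∈ S, φ τ ≠ 1 := fun φ h => by
    rw [← Finset.mem_coe, hS] at h
    exact h
  have hcard : S.card = 4 * s.g * 3 ^ (n - 2) := by
    rw [← k3_card hn t1 t2, ← hS, Set.ncard_coe_finset]
  have hlim := k3_lim S (zeta_res (s.K n) hC) (zeta_res (s.K (n - 1)) hC)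
    (fun φ h => (h3 φ (hm φ h)).1) (fun t ht => by
      rw [← finprod_mem_coe_finset, hS]
      exact k3_split' (k := s.k) (F := s.K n) (F' := s.K (n - 1)) (C := C)
        (s.K_mono (Nat.sub_le n 1)) Cb.comm_K Cb.comm_K (hU n) (hU (n - 1)) Fr hFr
        t3 t4 a h1 h2 ht)
  rw [← hS, finprod_mem_coe_finset]
  exact k3_fin S s.v hcard hlim fun φ h => (h3 φ (hm φ h)).2

end Pool.Agent.P.MP_20768c_nt.Tz.Cv

end

-- part Cv.K4b
section

set_option autoImplicit false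

open Complex NumberField IsDedekindDomain Filter Topology
open UpperHalfPlane hiding I
open scoped ComplexConjugate Real MatrixGroups

namespace Pool.Agent.P.MP_20768c_nt.Tz.Cv

open Pool.Agent.P.MP_20768c_nt.Tz.EQ (Lt pr sp IsLat jL qN)

theorem k4b_equiv (K : Type) [Field K] [NumberField K] (w : InfinitePlace K) :
    Nonempty ({v // v ≠ w} ≃ Fin (Units.rank K)) := by
  classical
  refine ⟨Fintype.equivOfCardEq ?_⟩
  rw [Fintype.card_subtype_compl, Fintype.card_subtype_eq, Fintype.card_fin, Units.rank]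

theorem k4b_reg {K ι : Type} [Field K] [NumberField K] [IsTotallyComplex K] [Fintype ι]
    [DecidableEq ι] (c : ι ≃ InfinitePlace K) (i₀ : ι) (U : ι → (𝓞 K)ˣ) :
    (Module.finrank ℚ K : ℝ) *
      ((Subgroup.closure (U '' {i | i ≠ i₀}) ⊔ Units.torsion K).index * Units.regulator K) =
      |(Matrix.of fun i j : ι => if i = i₀ then (2 : ℝ) else
        2 * Real.log (c j ((U i : 𝓞 K) : K))).det| := by
  classical
  obtain ⟨e⟩ := k4b_equiv K (c i₀)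
  have h1 := Units.regOfFamily_div_regulator fun k => U (c.symm (e.symm k).1)
  have h2 := Units.finrank_mul_regOfFamily_eq_det (fun k => U (c.symm (e.symm k).1)) (c i₀) e
  have h3 : (Set.range fun k => U (c.symm (e.symm k).1)) = U '' {i | i ≠ i₀} := by
    ext x
    constructor
    · rintro ⟨k, rfl⟩
      exact ⟨_, fun h => (e.symm k).2 (c.symm_apply_eq.1 h), rfl⟩
    · rintro ⟨i, hi, rfl⟩
      exact ⟨e ⟨c i, fun h => hi (c.injective h)⟩, by simp⟩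
  rw [h3, div_eq_iff (Units.regulator_ne_zero K)] at h1
  rw [← h1, h2, ← Matrix.det_submatrix_equiv_self c]
  congr 2
  ext i j
  simp [IsTotallyComplex.mult_eq]

theorem k4b_fund (K : Type) [Field K] [NumberField K] (w : InfinitePlace K) :
    ∃ U : InfinitePlace K → (𝓞 K)ˣ, Subgroup.closure (U '' {i | i ≠ w}) ⊔ Units.torsion K = ⊤ := by
  classical
  obtain ⟨e⟩ := k4b_equiv K w
  refine ⟨fun i => if h : i = w then 1 else Units.fundSystem K (e ⟨i, h⟩), top_le_iff.1 ?_⟩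
  rw [← Units.closure_fundSystem_sup_torsion_eq_top]
  refine sup_le_sup_right (Subgroup.closure_mono ?_) _
  rintro _ ⟨k, rfl⟩
  exact ⟨(e.symm k).1, (e.symm k).2, by simp [dif_neg (e.symm k).2]⟩

theorem k4b_det {ι κ : Type} [Fintype ι] [DecidableEq ι] [Fintype κ] [DecidableEq κ]
    (A : Matrix ι ι ℝ) (C : Matrix κ ι ℝ) (D : Matrix κ κ ℝ) (c : κ → ι) :
    |(Matrix.fromBlocks A (A.submatrix id c) C D).det| =
      |A.det| * |(D - C.submatrix id c).det| := by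
  have h : Matrix.fromBlocks A (A.submatrix id c) C D =
      Matrix.fromBlocks A 0 C (D - C.submatrix id c) *
        Matrix.fromBlocks 1 ((1 : Matrix ι ι ℝ).submatrix id c) 0 1 := by
    have e : ∀ {μ : Type} (B : Matrix μ ι ℝ),
        B * (1 : Matrix ι ι ℝ).submatrix id c = B.submatrix id c := fun B => by
      ext i j
      simp [Matrix.mul_apply, Matrix.one_apply]
    simp [Matrix.fromBlocks_multiply, e]
  rw [h, Matrix.det_mul, Matrix.det_fromBlocks_zero₁₂, Matrix.det_fromBlocks_zero₂₁]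
  simp [abs_mul]

section
variable {k : Type} [Field k] [Algebra k ℂ] {F F' : IntermediateField k ℂ}

theorem k4b_inj {ε ε' : (𝓞 F)ˣ} (h : ((ε : 𝓞 F) : F) = ((ε' : 𝓞 F) : F)) : ε = ε' :=
  Units.ext (RingOfIntegers.ext h)

theorem k4b_cc (hc : ∀ g h : F ≃ₐ[k] F, g * h = h * g) {τ : F ≃ₐ[k] F} (t3 : τ ^ 3 = 1)
    (hτ : ∀ y : F, τ y = y → (y : ℂ) ∈ F')
    (dn : ∀ ε : (𝓞 F)ˣ, (((ε : 𝓞 F) : F) : ℂ) ∈ F' →
      ∃ ε' : (𝓞 F')ˣ, (((ε' : 𝓞 F') : F') : ℂ) = (((ε : 𝓞 F) : F) : ℂ))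
    (ρ : (ℂ ≃ₐ[k] ℂ) →* (F ≃ₐ[k] F)) (hρ : Function.Surjective ρ)
    (hρ' : ∀ σ (x : F), ((ρ σ x : F) : ℂ) = σ x) (u : (𝓞 F)ˣ) {ι : Type} (i₀ : ι)
    (U : ι → (𝓞 F')ˣ) (hU : Subgroup.closure (U '' {i | i ≠ i₀}) ⊔ Units.torsion F' = ⊤)
    (up : (𝓞 F')ˣ →* (𝓞 F)ˣ)
    (hup : ∀ ε, (((up ε : 𝓞 F) : F) : ℂ) = (((ε : 𝓞 F') : F') : ℂ))
    (h : ι → F ≃ₐ[k] F) (hs : ∀ g, ∃ i, g = h i ∨ g = h i * τ ∨ g = h i * τ * τ)
    (W : ι ⊕ ι → (𝓞 F)ˣ)
    (hW : ∀ x, ((W x : 𝓞 F) : F) = Sum.elim h (fun j => h j * τ) x ((u : 𝓞 F) : F)) :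
    Subgroup.closure (Sum.elim (fun i => up (U i)) W '' {x | x ≠ Sum.inl i₀}) ⊔
      Units.torsion F = Subgroup.closure {ε : (𝓞 F)ˣ | IsOfFinOrder ε ∨
        (((ε : 𝓞 F) : F) : ℂ) ∈ F' ∨
        ∃ σ : ℂ ≃ₐ[k] ℂ, (((ε : 𝓞 F) : F) : ℂ) = σ (((u : 𝓞 F) : F) : ℂ)} := by
  refine le_antisymm (sup_le ((Subgroup.closure_le _).2 ?_) fun ε hε =>
    Subgroup.subset_closure (Or.inl hε)) ((Subgroup.closure_le _).2 ?_)
  · rintro _ ⟨i | i, -, rfl⟩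
    · exact Subgroup.subset_closure (Or.inr (Or.inl (by
        rw [Sum.elim_inl, hup]
        exact Subtype.property _)))
    · obtain ⟨σ, hσ⟩ := hρ (Sum.elim h (fun j => h j * τ) i)
      refine Subgroup.subset_closure (Or.inr (Or.inr ⟨σ, ?_⟩))
      rw [Sum.elim_inr, hW, ← hσ, hρ']
  have h1 : ∀ ε : (𝓞 F)ˣ, (((ε : 𝓞 F) : F) : ℂ) ∈ F' → ε ∈ Subgroup.closure
      (Sum.elim (fun i => up (U i)) W '' {x | x ≠ Sum.inl i₀}) ⊔ Units.torsion F := by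
    intro ε hε
    obtain ⟨ε', hε'⟩ := dn ε hε
    obtain rfl : up ε' = ε := k4b_inj (Subtype.ext ((hup ε').trans hε'))
    have h2 : ε' ∈ Subgroup.closure (U '' {i | i ≠ i₀}) ⊔ Units.torsion F' :=
      hU ▸ Subgroup.mem_top _
    refine Subgroup.mem_comap.1 (sup_le ((Subgroup.closure_le _).2 ?_) (fun y hy => ?_) h2)
    · rintro _ ⟨i, hi, rfl⟩
      exact Subgroup.mem_sup_left (Subgroup.subset_closure
        ⟨Sum.inl i, fun e => hi (Sum.inl_injective e), rfl⟩)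
    · exact Subgroup.mem_sup_right (up.isOfFinOrder hy)
  rintro ε (hε | hε | ⟨σ, hε⟩)
  · exact Subgroup.mem_sup_right hε
  · exact h1 ε hε
  have h2 : ((ε : 𝓞 F) : F) = ρ σ ((u : 𝓞 F) : F) := Subtype.ext (hε.trans (hρ' σ _).symm)
  obtain ⟨i, hi⟩ := hs (ρ σ)
  have h3 : ∀ x, W x ∈ Subgroup.closure (Sum.elim (fun i => up (U i)) W '' {x | x ≠ Sum.inl i₀}) ⊔
      Units.torsion F := fun x =>
    Subgroup.mem_sup_left (Subgroup.subset_closure ⟨Sum.inr x, Sum.inr_ne_inl, rfl⟩)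
  rcases hi with hi | hi | hi
  · obtain rfl : ε = W (.inl i) := k4b_inj (by rw [h2, hW, hi, Sum.elim_inl])
    exact h3 _
  · obtain rfl : ε = W (.inr i) := k4b_inj (by rw [h2, hW, hi, Sum.elim_inr])
    exact h3 _
  · refine (Subgroup.mul_mem_cancel_right _ (mul_mem (h3 (.inl i)) (h3 (.inr i)))).1
      (h1 _ (hτ _ ?_))
    change τ (((ε : 𝓞 F) : F) * (((W (.inl i) : 𝓞 F) : F) * ((W (.inr i) : 𝓞 F) : F))) =
      ((ε : 𝓞 F) : F) * (((W (.inl i) : 𝓞 F) : F) * ((W (.inr i) : 𝓞 F) : F))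
    rw [map_mul, map_mul, h2, hW, hW, hi, Sum.elim_inl, Sum.elim_inr, ← AlgEquiv.mul_apply,
      ← AlgEquiv.mul_apply, ← AlgEquiv.mul_apply τ, hc τ, hc τ, hc τ (h i * τ),
      mul_assoc (h i * τ), mul_assoc (h i), ← pow_three, t3, mul_one]
    ring

theorem k4b_abs [NumberField F] [NumberField F'] [IsTotallyComplex F] [IsTotallyComplex F']
    (hle : F' ≤ F) (hc : ∀ g h : F ≃ₐ[k] F, g * h = h * g) [Finite (F ≃ₐ[k] F)]
    (e : (F ≃ₐ[k] F) ≃ InfinitePlace F) (he : ∀ g (x : F), e g x = ‖((g x : F) : ℂ)‖)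
    (e' : (F' ≃ₐ[k] F') ≃ InfinitePlace F') (he' : ∀ g (x : F'), e' g x = ‖((g x : F') : ℂ)‖)
    (ρ : (ℂ ≃ₐ[k] ℂ) →* (F ≃ₐ[k] F)) (hρ : Function.Surjective ρ)
    (hρ' : ∀ σ (x : F), ((ρ σ x : F) : ℂ) = σ x)
    (ρ₁ : (ℂ ≃ₐ[k] ℂ) →* (F' ≃ₐ[k] F')) (hρ₁ : Function.Surjective ρ₁)
    (hρ₁' : ∀ σ (x : F'), ((ρ₁ σ x : F') : ℂ) = σ x)
    {τ : F ≃ₐ[k] F} (t1 : τ ≠ 1) (t3 : τ ^ 3 = 1) (hτ : ∀ y : F, τ y = y ↔ (y : ℂ) ∈ F')
    (t4 : ∀ g : F ≃ₐ[k] F, (∀ y : F, (y : ℂ) ∈ F' → g y = y) → g = 1 ∨ g = τ ∨ g = τ * τ)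
    (dn : ∀ ε : (𝓞 F)ˣ, (((ε : 𝓞 F) : F) : ℂ) ∈ F' →
      ∃ ε' : (𝓞 F')ˣ, (((ε' : 𝓞 F') : F') : ℂ) = (((ε : 𝓞 F) : F) : ℂ))
    (hd : Module.finrank ℚ F = 3 * Module.finrank ℚ F') (u : (𝓞 F)ˣ) :
    3 * ((Subgroup.closure {ε : (𝓞 F)ˣ | IsOfFinOrder ε ∨ (((ε : 𝓞 F) : F) : ℂ) ∈ F' ∨
        ∃ σ : ℂ ≃ₐ[k] ℂ, (((ε : 𝓞 F) : F) : ℂ) = σ (((u : 𝓞 F) : F) : ℂ)}).index : ℝ) *
      Units.regulator F = Units.regulator F' *
      ∏ᶠ φ ∈ {φ : (F ≃ₐ[k] F) →* ℂˣ | φ τ ≠ 1}, ‖∑ᶠ g : F ≃ₐ[k] F, (((φ g)⁻¹ : ℂˣ) : ℂ) *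
        (Real.log (‖((g ((u : 𝓞 F) : F) : F) : ℂ)‖ ^ 2) : ℂ)‖ := by
  classical
  obtain ⟨σ, hσ⟩ : ∃ σ : InfinitePlace F' → ℂ ≃ₐ[k] ℂ, ∀ i, ρ₁ (σ i) = e'.symm i :=
    ⟨fun i => (hρ₁ _).choose, fun i => (hρ₁ _).choose_spec⟩
  have hv : ∀ i (x : F'), ‖((ρ (σ i) ⟨x, hle x.2⟩ : F) : ℂ)‖ = i x := fun i x => by
    rw [hρ', ← hρ₁', hσ, ← he', e'.apply_symm_apply]
  have hfix : ∀ x : F', τ ⟨x, hle x.2⟩ = ⟨x, hle x.2⟩ := fun x => (hτ _).2 x.2
  have hi : ∀ i j, ρ (σ i) = ρ (σ j) → i = j := fun i j h =>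
    DFunLike.ext _ _ fun x => by rw [← hv, ← hv, h]
  have hi' : ∀ i j, ρ (σ i) ≠ ρ (σ j) * τ := fun i j h => by
    obtain rfl : i = j := DFunLike.ext _ _ fun x => by
      rw [← hv, ← hv, h, AlgEquiv.mul_apply, hfix]
    exact t1 (left_eq_mul.1 h)
  have hs : ∀ g, ∃ i, g = ρ (σ i) ∨ g = ρ (σ i) * τ ∨ g = ρ (σ i) * τ * τ := fun g => by
    obtain ⟨a, rfl⟩ := hρ g
    refine ⟨e' (ρ₁ a), ?_⟩
    have h1 := t4 ((ρ (σ (e' (ρ₁ a))))⁻¹ * ρ a) fun y hy => by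
      rw [AlgEquiv.mul_apply, AlgEquiv.aut_inv, AlgEquiv.symm_apply_eq]
      refine Subtype.ext ?_
      rw [hρ', hρ', ← hρ₁' a ⟨y, hy⟩, ← hρ₁' _ ⟨y, hy⟩, hσ, e'.symm_apply_apply]
    rwa [inv_mul_eq_iff_eq_mul, inv_mul_eq_iff_eq_mul, inv_mul_eq_iff_eq_mul, mul_one,
      ← mul_assoc] at h1
  let _ : CommGroup (F ≃ₐ[k] F) := { (inferInstance : Group (F ≃ₐ[k] F)) with mul_comm := hc }
  have hb := k4a_bij t3 (fun i => ρ (σ i)) hs hi hi'
  obtain ⟨i₀⟩ : Nonempty (InfinitePlace F') := inferInstance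
  obtain ⟨U, hU⟩ := k4b_fund F' i₀
  obtain ⟨up, hup⟩ : ∃ up : (𝓞 F')ˣ →* (𝓞 F)ˣ, ∀ ε,
      ((up ε : 𝓞 F) : F) = ⟨_, hle ((ε : 𝓞 F') : F').2⟩ :=
    ⟨Units.map (RingOfIntegers.mapRingHom
      (IntermediateField.inclusion hle).toRingHom).toMonoidHom, fun _ => rfl⟩
  obtain ⟨r, hr⟩ : ∃ r : InfinitePlace F' ⊕ InfinitePlace F' → F ≃ₐ[k] F,
      r = Sum.elim (fun i => ρ (σ i)) fun j => ρ (σ j) * τ := ⟨_, rfl⟩
  obtain ⟨W, hW⟩ : ∃ W : InfinitePlace F' ⊕ InfinitePlace F' → (𝓞 F)ˣ, ∀ x,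
      ((W x : 𝓞 F) : F) = r x ((u : 𝓞 F) : F) :=
    ⟨fun x => Units.map (RingOfIntegers.mapRingHom (r x : F →+* F)).toMonoidHom u, fun _ => rfl⟩
  have h1 := k4b_reg ((Equiv.ofBijective _ hb).trans e) (Sum.inl i₀)
    (Sum.elim (fun i => up (U i)) W)
  have h2 := k4b_reg (Equiv.refl _) i₀ U
  rw [k4b_cc hc t3 (fun y => (hτ y).1) dn ρ hρ hρ' u i₀ U hU up
    (fun ε => congrArg Subtype.val (hup ε)) _ hs W (hr ▸ hW), hd] at h1
  rw [hU, Subgroup.index_top] at h2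
  let l : (F ≃ₐ[k] F) → ℝ := fun g => Real.log (‖((g ((u : 𝓞 F) : F) : F) : ℂ)‖ ^ 2)
  have h3 := ded_det t3 (fun i => ρ (σ i)) hs hi hi' l
  rw [← hr] at h3
  obtain ⟨A, hA⟩ : ∃ A : Matrix (InfinitePlace F') (InfinitePlace F') ℝ,
      A = Matrix.of fun i j => if i = i₀ then (2 : ℝ) else
        2 * Real.log ((Equiv.refl (InfinitePlace F')) j ((U i : 𝓞 F') : F')) := ⟨_, rfl⟩
  have h4 := k4b_det A (Matrix.of fun x j => l (r x * ρ (σ j)))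
    (Matrix.of fun x y => l (r x * (r y * τ))) (Sum.elim id id)
  have h5 : ∀ g x, 2 * Real.log (e g ((W x : 𝓞 F) : F)) = l (r x * g) := by
    intro g x
    rw [he, hW, ← AlgEquiv.mul_apply, hc g]
    simp only [l, Real.log_pow, Nat.cast_ofNat]
  have h6 : (Matrix.of fun i j => if i = Sum.inl i₀ then (2 : ℝ) else
      2 * Real.log (((Equiv.ofBijective _ hb).trans e) j
        (((Sum.elim (fun i => up (U i)) W i : (𝓞 F)ˣ) : 𝓞 F) : F))) =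
      Matrix.fromBlocks A (A.submatrix id (Sum.elim id id))
        (Matrix.of fun x j => l (r x * ρ (σ j))) (Matrix.of fun x y => l (r x * (r y * τ))) := by
    ext (i | i) (j | j)
    · simp only [hA, Matrix.of_apply, Matrix.fromBlocks_apply₁₁, Sum.inl.injEq, Equiv.trans_apply,
        Equiv.ofBijective_apply, Sum.elim_inl, Equiv.refl_apply, he, hup, hv]
    · rcases j with j | j <;>
      simp only [hA, Matrix.of_apply, Matrix.fromBlocks_apply₁₂, Sum.inl.injEq, Equiv.trans_apply,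
        Equiv.ofBijective_apply, Sum.elim_inl, Sum.elim_inr, Equiv.refl_apply, he, hup,
        AlgEquiv.mul_apply, hfix, hv, Matrix.submatrix_apply, id]
    · simp only [Matrix.of_apply, Matrix.fromBlocks_apply₂₁, Equiv.trans_apply,
        Equiv.ofBijective_apply, Sum.elim_inl, Sum.elim_inr, if_neg Sum.inr_ne_inl, h5]
    · simp only [Matrix.of_apply, Matrix.fromBlocks_apply₂₂, Equiv.trans_apply,
        Equiv.ofBijective_apply, Sum.elim_inr, if_neg Sum.inr_ne_inl, h5, hr]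
  rw [h6, h4, hA, ← h2] at h1
  have h7 : (Matrix.of (fun x y => l (r x * (r y * τ))) -
      (Matrix.of fun x j => l (r x * ρ (σ j))).submatrix id (Sum.elim id id)) =
      Matrix.of fun x y => l (r x * (r y * τ)) -
        l (r x * Sum.elim (fun i => ρ (σ i)) (fun i => ρ (σ i)) y) := by
    ext x (y | y) <;> rfl
  rw [h7, h3] at h1
  have h8 : (0 : ℝ) < Module.finrank ℚ F' := Nat.cast_pos.2 Module.finrank_pos
  refine mul_left_cancel₀ h8.ne' ?_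
  rw [Nat.cast_mul, Nat.cast_one, Nat.cast_ofNat] at h1
  simp only [l] at h1
  linear_combination h1

end

namespace Cb

variable {s : Cb} {n : ℕ}

theorem k4b_tc (s : Cb) (n : ℕ) : IsTotallyComplex (s.K n) := by
  refine ⟨fun w => InfinitePlace.not_isReal_iff_isComplex.1 fun hw => ?_⟩
  let φ := (InfinitePlace.embedding_of_isReal hw).comp (algebraMap s.O (s.K n))
  have h1 := congrArg φ s.w_sq
  have h2 := congrArg (algebraMap s.O ℂ) s.w_sq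
  rw [map_pow, map_sub, map_mul, map_natCast, map_intCast] at h1 h2
  have h3 := congrArg Complex.im h2
  have h4 := congrArg Complex.re h2
  have h5 := s.w_im
  simp only [sq, mul_im, mul_re, sub_im, sub_re, intCast_re, intCast_im, natCast_re, natCast_im,
    zero_mul, add_zero, sub_zero] at h3 h4
  generalize (algebraMap s.O ℂ s.w).re = a at h3 h4
  generalize (algebraMap s.O ℂ s.w).im = b at h3 h4 h5
  have h6 : (s.t : ℝ) = 2 * a := mul_right_cancel₀ h5.ne' (by linarith)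
  rw [h6] at h1 h4
  nlinarith [sq_nonneg (φ s.w - a), mul_pos h5 h5]

theorem k4b_card (s : Cb) (n : ℕ) : Nat.card (InfinitePlace (s.K n)) = Nat.card (s.G n) := by
  have := s.k4b_tc n
  have h1 := IsTotallyComplex.finrank (s.K n)
  rw [← Module.finrank_mul_finrank ℚ s.k (s.K n), s.finrank_k,
    ← IsGalois.card_aut_eq_finrank] at h1
  rw [Nat.card_eq_fintype_card, InfinitePlace.card_eq_nrRealPlaces_add_nrComplexPlaces,
    IsTotallyComplex.nrRealPlaces_eq_zero, zero_add]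
  exact (Nat.eq_of_mul_eq_mul_left two_pos h1).symm

theorem places (s : Cb) (n : ℕ) :
    ∃ e : s.G n ≃ InfinitePlace (s.K n), ∀ g (x : s.K n), e g x = ‖((g x : s.K n) : ℂ)‖ := by
  let f : s.G n → InfinitePlace (s.K n) := fun g =>
    InfinitePlace.mk ((algebraMap (s.K n) ℂ).comp (g : s.K n →+* s.K n))
  have hf : Function.Injective f := fun g g' h => by
    rcases InfinitePlace.mk_eq_iff.1 h with h | h
    · exact AlgEquiv.ext fun x => Subtype.ext (RingHom.congr_fun h x)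
    · have h1 : conj ((g (algebraMap s.k (s.K n) s.w) : s.K n) : ℂ) =
          ((g' (algebraMap s.k (s.K n) s.w) : s.K n) : ℂ) := RingHom.congr_fun h _
      rw [g.commutes, g'.commutes] at h1
      exact absurd (Complex.conj_eq_iff_im.1 h1) s.w_im.ne'
  exact ⟨Equiv.ofBijective f (hf.bijective_of_nat_card_le (s.k4b_card n).le), fun _ _ => rfl⟩

theorem reg_index (hn : 2 ≤ n) {τ : s.G n} (hτ : s.IsTau n τ) (u : (𝓞 (s.K n))ˣ) :
    3 * ((s.CC u).index : ℝ) * Units.regulator (s.K n) = Units.regulator (s.K (n - 1)) *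
      ∏ᶠ φ ∈ {φ : s.G n →* ℂˣ | φ τ ≠ 1}, ‖s.Zs ((u : 𝓞 (s.K n)) : s.K n) φ‖ := by
  have := s.k4b_tc n
  have := s.k4b_tc (n - 1)
  obtain ⟨e, he⟩ := s.places n
  obtain ⟨e', he'⟩ := s.places (n - 1)
  obtain ⟨ρ, hρ, hρ'⟩ := St.exists_res s.toSt (s.K n)
  obtain ⟨ρ₁, hρ₁, hρ₁'⟩ := St.exists_res s.toSt (s.K (n - 1))
  obtain ⟨t1, t3, t2, t4⟩ := hτ.spec hn
  refine k4b_abs (s.K_mono (Nat.sub_le n 1)) comm_K e he e' he' ρ hρ hρ' ρ₁ hρ₁ hρ₁' t1 t3 t2 t4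
    (fun ε h => unit_down ε h) ?_ u
  rw [s.finrank_K' (by omega), s.finrank_K' (by omega),
    show n - 1 = n - 1 - 1 + 1 by omega, pow_succ, Nat.add_sub_cancel]
  ring

end Cb

end Pool.Agent.P.MP_20768c_nt.Tz.Cv

end

-- part Cv.K5
section

set_option autoImplicit false

open Complex NumberField IsDedekindDomain Filter Topology
open UpperHalfPlane hiding I
open scoped ComplexConjugate Real MatrixGroups

namespace Pool.Agent.P.MP_20768c_nt.Tz.Cv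

open Pool.Agent.P.MP_20768c_nt.Tz.EQ (Lt pr sp IsLat jL qN)

open Polynomial in
theorem k5_step {K L : Type} [Field K] [NumberField K] [Field L] [NumberField L] [Algebra K L]
    (z : L) (b : K) {m : ℕ} (hm : m ≠ 0) (hz : z ^ m = 1) (hb : b ^ m = 1)
    (hzb : z ^ 3 = algebraMap K L b)
    (h2 : Module.finrank K L = 3) (hn : ∀ y : K, algebraMap K L y ≠ z) :
    padicValInt 3 (discr L) ≤ 3 * padicValInt 3 (discr K) + Module.finrank ℚ L := by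
  obtain ⟨ζ, rfl⟩ : ∃ ζ : 𝓞 L, algebraMap (𝓞 L) L ζ = z :=
    ⟨⟨z, IsIntegral.of_pow (Nat.pos_of_ne_zero hm) (by rw [hz]; exact isIntegral_one)⟩, rfl⟩
  obtain ⟨a, rfl⟩ : ∃ a : 𝓞 K, algebraMap (𝓞 K) K a = b :=
    ⟨⟨b, IsIntegral.of_pow (Nat.pos_of_ne_zero hm) (by rw [hb]; exact isIntegral_one)⟩, rfl⟩
  have hu : IsUnit ζ := IsUnit.of_pow_eq_one (n := m)
    (RingOfIntegers.coe_injective (by rw [map_pow, map_one, hz])) hm
  have hζ : ζ ^ 3 = algebraMap (𝓞 K) (𝓞 L) a := RingOfIntegers.coe_injective (by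
    rw [map_pow, hzb, ← IsScalarTower.algebraMap_apply, ← IsScalarTower.algebraMap_apply])
  have hadj : Algebra.adjoin K {algebraMap (𝓞 L) L ζ} = ⊤ := by
    refine ((Subalgebra.isSimpleOrder_of_finrank_prime K L
      (h2 ▸ Nat.prime_three)).eq_bot_or_eq_top _).resolve_left fun h => ?_
    obtain ⟨y, hy⟩ := Algebra.mem_bot.1 (h ▸ Algebra.self_mem_adjoin_singleton K _)
    exact hn y hy
  have h1 := aeval_derivative_mem_differentIdeal (𝓞 K) K L ζ hadj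
  have hi : IsIntegral (𝓞 K) ζ := Algebra.IsIntegral.isIntegral _
  obtain ⟨q, hq⟩ := minpoly.isIntegrallyClosed_dvd hi (p := X ^ 3 - C a) (by simp [hζ])
  have h3 : (3 : 𝓞 L) * ζ ^ 2 ∈ differentIdeal (𝓞 K) (𝓞 L) := by
    have e := congrArg (fun p => aeval ζ (derivative p)) hq
    simp only [derivative_mul, map_add, map_mul, minpoly.aeval, zero_mul, add_zero] at e
    have e2 : aeval ζ (derivative (X ^ 3 - C a : (𝓞 K)[X])) = 3 * ζ ^ 2 := by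
      rw [derivative_sub, derivative_C, sub_zero, derivative_X_pow, map_mul, map_pow, aeval_X,
        aeval_C, map_natCast, Nat.cast_ofNat]
    rw [← e2, e]
    exact Ideal.mul_mem_right _ _ h1
  have h4 : ((3 : ℕ) : 𝓞 L) ∈ differentIdeal (𝓞 K) (𝓞 L) := by
    simpa using (Ideal.mul_unit_mem_iff_mem _ (hu.pow 2)).1 h3
  have h5 := Ideal.absNorm_dvd_absNorm_of_le ((Ideal.span_singleton_le_iff_mem _).2 h4)
  rw [Ideal.absNorm_span_natCast, RingOfIntegers.rank] at h5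
  obtain ⟨j, hj, h6⟩ := (Nat.dvd_prime_pow Nat.prime_three).1 h5
  have h7 := natAbs_discr_eq_absNorm_differentIdeal_mul_natAbs_discr_pow K (𝓞 K) L (𝓞 L)
  have h8 : (discr K).natAbs ≠ 0 := Int.natAbs_ne_zero.2 (discr_ne_zero K)
  rw [padicValInt, padicValInt, h7, h6, h2, padicValNat.mul (by positivity) (pow_ne_zero _ h8),
    padicValNat.prime_pow, padicValNat.pow]
  omega

theorem k5_gen {k : Type} [Field k] [Algebra k ℂ] (F F' : IntermediateField k ℂ) [NumberField F]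
    [NumberField F'] (hle : F ≤ F') {z : ℂ} (hz : z ∈ F') (hn : z ∉ F) (hb : z ^ 3 ∈ F) {m : ℕ}
    (hm : m ≠ 0) (h1 : z ^ m = 1) (hr : Module.finrank ℚ F' = Module.finrank ℚ F * 3) :
    padicValInt 3 (discr F') ≤ 3 * padicValInt 3 (discr F) + Module.finrank ℚ F' := by
  let _ : Algebra F F' := (IntermediateField.inclusion hle).toRingHom.toAlgebra
  have h2 : Module.finrank F F' = 3 :=
    Nat.eq_of_mul_eq_mul_left Module.finrank_pos ((Module.finrank_mul_finrank ℚ F F').trans hr)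
  refine k5_step (⟨z, hz⟩ : F') (⟨z ^ 3, hb⟩ : F) hm (Subtype.ext h1) (Subtype.ext ?_) rfl h2
    fun y hy => hn ?_
  · change (z ^ 3) ^ m = 1
    rw [← pow_mul, mul_comm, pow_mul, h1, one_pow]
  · have e : (y : ℂ) = z := congrArg Subtype.val hy
    exact e ▸ y.2

theorem k5_unram {K L : Type} [Field K] [NumberField K] [Field L] [NumberField L] [Algebra K L]
    (P : Ideal (𝓞 L)) [P.IsPrime] (hb : P ≠ ⊥) (a : 𝓞 K) (h : algebraMap (𝓞 K) (𝓞 L) a ∈ P)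
    (h2 : algebraMap (𝓞 K) (𝓞 L) a ∉ P ^ 2) : Algebra.IsUnramifiedAt (𝓞 K) P := by
  have hu : P.under (𝓞 K) ≠ ⊥ := Ideal.under_ne_bot (𝓞 K) hb
  have : Finite (P.under (𝓞 K)).ResidueField := by
    have := Ideal.finiteQuotientOfFreeOfNeBot _ hu
    infer_instance
  rw [← Ideal.ramificationIdx_eq_one_iff,
    ← Ideal.ramificationIdx'_eq_ramificationIdx (P.under (𝓞 K)) P hu, ← not_ne_iff,
    Ideal.ramificationIdx'_ne_one_iff Ideal.map_comap_le]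
  exact fun e => h2 (e (Ideal.mem_map_of_mem _ h))

theorem k5_rel {K L : Type} [Field K] [NumberField K] [Field L] [NumberField L] [Algebra K L]
    {ζ : K} (hζ : IsPrimitiveRoot ζ 3)
    (h : ∀ P : Ideal (𝓞 L), P.IsPrime → (3 : 𝓞 L) ∈ P → (3 : 𝓞 L) ∉ P ^ 3) :
    padicValInt 3 (discr L) = Module.finrank K L * padicValInt 3 (discr K) := by
  obtain ⟨z, rfl⟩ : ∃ z : 𝓞 K, algebraMap (𝓞 K) K z = ζ := ⟨⟨ζ, hζ.isIntegral three_pos⟩, rfl⟩
  have h1 := (IsPrimitiveRoot.of_map_of_injective hζ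
    (FaithfulSMul.algebraMap_injective (𝓞 K) K)).geom_sum_eq_zero (by norm_num)
  simp only [Finset.sum_range_succ, Finset.sum_range_zero] at h1
  have h2 : algebraMap (𝓞 K) (𝓞 L) (2 * z + 1) ^ 2 = -3 := by
    rw [← map_pow, show (2 * z + 1) ^ 2 = -3 by linear_combination 4 * h1, map_neg, map_ofNat]
  have h3 : ¬ 3 ∣ Ideal.absNorm (differentIdeal (𝓞 K) (𝓞 L)) := by
    intro hd
    obtain ⟨P, hP, e, hD⟩ := Ideal.exists_isMaximal_dvd_of_dvd_absNorm' Nat.prime_three _ hd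
    have m3 : (3 : 𝓞 L) ∈ P := by
      have : ((3 : ℕ) : ℤ) ∈ P.under ℤ := e ▸ Ideal.mem_span_singleton_self _
      simpa [Ideal.under_def] using this
    have hb : P ≠ ⊥ := by
      rintro rfl
      exact OfNat.ofNat_ne_zero 3 (Ideal.mem_bot.1 m3)
    refine dvd_differentIdeal_iff.1 hD (k5_unram P hb (2 * z + 1)
      (hP.isPrime.mem_of_pow_mem 2 (h2 ▸ P.neg_mem m3)) fun h4 => h P hP.isPrime m3 ?_)
    have h5 := Ideal.pow_mem_pow h4 2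
    rw [h2, ← pow_mul, Ideal.neg_mem_iff] at h5
    exact Ideal.pow_le_pow_right (by norm_num) h5
  have h8 : (discr K).natAbs ≠ 0 := Int.natAbs_ne_zero.2 (discr_ne_zero K)
  have h9 : Ideal.absNorm (differentIdeal (𝓞 K) (𝓞 L)) ≠ 0 := fun e => h3 (e ▸ dvd_zero 3)
  rw [padicValInt, padicValInt,
    natAbs_discr_eq_absNorm_differentIdeal_mul_natAbs_discr_pow K (𝓞 K) L (𝓞 L),
    padicValNat.mul h9 (pow_ne_zero _ h8),
    padicValNat.eq_zero_of_not_dvd h3, zero_add, padicValNat.pow]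

theorem k5_base {L : Type} [Field L] [NumberField L] {ζ : L} (hζ : IsPrimitiveRoot ζ 3)
    (h : ∀ P : Ideal (𝓞 L), P.IsPrime → (3 : 𝓞 L) ∈ P → (3 : 𝓞 L) ∉ P ^ 3) :
    2 * padicValInt 3 (discr L) = Module.finrank ℚ L := by
  have : IsCyclotomicExtension {3} ℚ (IntermediateField.adjoin ℚ {ζ}) :=
    hζ.intermediateField_adjoin_isCyclotomicExtension ℚ
  have h1 : IsPrimitiveRoot (⟨ζ, IntermediateField.mem_adjoin_simple_self ℚ ζ⟩ :
      IntermediateField.adjoin ℚ {ζ}) 3 := IsPrimitiveRoot.coe_submonoidClass_iff.1 hζ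
  have h2 : discr (IntermediateField.adjoin ℚ {ζ}) = -3 := by
    have := IsCyclotomicExtension.Rat.discr_prime 3 (IntermediateField.adjoin ℚ {ζ})
    simpa using this
  have h3 : Module.finrank ℚ (IntermediateField.adjoin ℚ {ζ}) = 2 :=
    (IsCyclotomicExtension.Rat.finrank 3 _).trans (Nat.totient_prime Nat.prime_three)
  rw [k5_rel h1 h, h2, ← Module.finrank_mul_finrank ℚ (IntermediateField.adjoin ℚ {ζ}) L, h3,
    show padicValInt 3 (-3) = 1 from padicValNat_self, mul_one]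

namespace Cb

variable (s : Cb) {n : ℕ}

theorem k5_sq (V : ValuationSubring ℂ) (v3 : V.valuation 3 < 1) {x : ℂ} (hx : x ∈ s.K 1)
    (h0 : x ≠ 0) : ∃ j : ℤ, V.valuation x ^ 2 = V.valuation 3 ^ j := by
  have hf : ∀ σ : s.Au, Inert V.valuation σ → σ (zt 1) = zt 1 → ∀ y ∈ s.K 1, σ y = y :=
    fun σ h1 h2 => fix_K.2 ⟨s.tame V σ v3 h1 h2, h2⟩
  have hz : ∀ σ : s.Au, σ (zt 1) ≠ zt 1 → σ (zt 1) = zt 1 ^ 2 := fun σ h => by
    have e := congrArg σ zt1_sum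
    rw [map_add, map_add, map_pow, map_one, map_zero] at e
    refine sub_eq_zero.1 ((mul_eq_zero.1 ?_).resolve_left (sub_ne_zero.2 h))
    linear_combination e - (σ (zt 1)) * zt1_sum + zt1_cube
  obtain ⟨τ, hτ, h⟩ : ∃ τ : s.Au, Inert V.valuation τ ∧ ∀ σ : s.Au, Inert V.valuation σ →
      σ (x * τ x) = x * τ x := by
    by_cases hc : ∃ τ : s.Au, Inert V.valuation τ ∧ τ (zt 1) ≠ zt 1
    · obtain ⟨τ, h1, h2⟩ := hc
      refine ⟨τ, h1, fun σ h3 => ?_⟩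
      by_cases h4 : σ (zt 1) = zt 1
      · exact hf σ h3 h4 _ (mul_mem hx (K_aut τ hx))
      · have e : ∀ a b : s.Au, Inert V.valuation a → Inert V.valuation b → a (zt 1) ≠ zt 1 →
            b (zt 1) ≠ zt 1 → a (b x) = x := fun a b k1 k2 k3 k4 =>
          hf (a * b) (St.inert_mul k1 k2) (by
            rw [AlgEquiv.mul_apply, hz b k4, map_pow, hz a k3]
            linear_combination zt 1 * zt1_cube) x hx
        rw [map_mul, e σ τ h3 h1 h4 h2,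
          τ.injective ((e τ σ h1 h3 h2 h4).trans (e τ τ h1 h1 h2 h2).symm), mul_comm]
    · refine ⟨1, s.toSt.inert_one _, fun σ h3 => hf σ h3 (by_contra fun h4 => hc ⟨σ, h3, h4⟩) _
        (mul_mem hx hx)⟩
  obtain ⟨y, hy, e⟩ := s.toSt.val_fixed ⊥ V.valuation
    (s.toSt.alg_of_mem (s.K 1) (mul_mem hx (K_aut τ hx))) fun σ hσ _ => h σ hσ
  rw [map_mul, St.inert_val hτ (s.toSt.alg_of_mem (s.K 1) hx), ← sq] at e
  have hy0 : y ≠ 0 := by
    rintro rfl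
    rw [map_zero, pow_eq_zero_iff two_ne_zero, map_eq_zero] at e
    exact h0 e
  obtain ⟨z, rfl⟩ := IntermediateField.mem_bot.1 hy
  obtain ⟨j, hj⟩ := s.toSt.v_k_val V.valuation v3 z.2 hy0
  exact ⟨j, e.trans hj⟩

theorem k5_tame (P : Ideal (𝓞 (s.K 1))) (hP : P.IsPrime) (h' : (3 : 𝓞 (s.K 1)) ∈ P) :
    (3 : 𝓞 (s.K 1)) ∉ P ^ 3 := by
  intro h2
  have hb : P ≠ ⊥ := by
    rintro rfl
    exact OfNat.ofNat_ne_zero 3 (Ideal.mem_bot.1 h')
  let Q : HeightOneSpectrum (𝓞 (s.K 1)) := ⟨P, hP, hb⟩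
  obtain ⟨V, hV⟩ := s.toSt.exists_val (s.K 1) P hP hb
  have e2 : (((3 : 𝓞 (s.K 1)) : s.K 1) : ℂ) = 3 := by
    rw [show ((3 : 𝓞 (s.K 1)) : s.K 1) = 3 from map_ofNat (algebraMap (𝓞 (s.K 1)) (s.K 1)) 3]
    exact map_ofNat (algebraMap (s.K 1) ℂ) 3
  have v2 : V.valuation 3 < 1 := by rw [← e2]; exact (hV 3).2 h'
  obtain ⟨ϖ, hϖ⟩ := Q.intValuation_exists_uniformizer
  have vϖ : V.valuation ((ϖ : s.K 1) : ℂ) < 1 := (hV ϖ).2 (by
    refine (Q.intValuation_lt_one_iff_mem ϖ).1 ?_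
    rw [hϖ, ← WithZero.exp_zero, WithZero.exp_lt_exp]; norm_num)
  have h0 : ϖ ≠ 0 := by
    rintro rfl
    rw [map_zero] at hϖ
    exact WithZero.exp_ne_zero hϖ.symm
  obtain ⟨j, e3⟩ := s.k5_sq V v2 (ϖ : s.K 1).2 (by simpa using h0)
  have p2 : 0 < V.valuation 3 := (Valuation.pos_iff _).2 three_ne_zero
  have hj1 : 1 ≤ j := by
    have := pow_lt_one₀ zero_le vϖ two_ne_zero
    rw [e3] at this
    exact (zpow_lt_one_iff_right_of_lt_one₀ p2 v2).1 this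
  have h3 : V.valuation (((ϖ : s.K 1) ^ 2 : s.K 1) : ℂ) ≤
      V.valuation (((3 : 𝓞 (s.K 1)) : s.K 1) : ℂ) := by
    rw [SubmonoidClass.coe_pow, map_pow, e3, e2]
    simpa using zpow_le_zpow_right_of_le_one₀ p2 v2.le hj1
  have h4 := (s.toSt.val_equiv (s.K 1) V.valuation Q hV _ _).1 h3
  have h5 := (Q.intValuation_le_pow_iff_mem 3 3).2 h2
  rw [map_pow] at h4
  erw [Q.valuation_of_algebraMap, Q.valuation_of_algebraMap] at h4
  have h6 := h4.trans h5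
  rw [hϖ, ← WithZero.exp_nsmul, WithZero.exp_le_exp] at h6
  norm_num at h6

theorem disc_one : padicValInt 3 (discr (s.K 1)) = 2 * s.g := by
  have h := k5_base (L := s.K 1) (ζ := ⟨zt 1, s.zt_mem 1⟩)
    (IsPrimitiveRoot.coe_submonoidClass_iff.1 (by simpa using zt_prim 1)) s.k5_tame
  rw [s.finrank_K' le_rfl] at h
  omega

theorem disc_step (hn : 1 ≤ n) :
    padicValInt 3 (discr (s.K (n + 1))) ≤ 3 * padicValInt 3 (discr (s.K n)) + 4 * s.g * 3 ^ n := by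
  have h := k5_gen (s.K n) (s.K (n + 1)) (s.K_mono (Nat.le_succ n)) (s.zt_mem (n + 1))
    (s.zt_not_mem hn) (by rw [zt_cube]; exact s.zt_mem n) (m := 3 ^ (n + 1)) (by positivity)
    (zt_pow _) (by
      rw [s.finrank_K' hn, s.finrank_K' (Nat.le_add_left 1 n), Nat.add_sub_cancel]
      obtain ⟨m, rfl⟩ : ∃ m, n = m + 1 := ⟨n - 1, by omega⟩
      rw [Nat.add_sub_cancel, pow_succ, ← mul_assoc])
  rwa [s.finrank_K' (Nat.le_add_left 1 n), Nat.add_sub_cancel] at h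

theorem k5_bound (m : ℕ) : padicValInt 3 (discr (s.K (m + 1))) ≤ 2 * s.g * (2 * m + 1) * 3 ^ m := by
  induction m with
  | zero => simpa using s.disc_one.le
  | succ m ih =>
    refine (s.disc_step (Nat.le_add_left 1 m)).trans ?_
    calc _ ≤ 3 * (2 * s.g * (2 * m + 1) * 3 ^ m) + 4 * s.g * 3 ^ (m + 1) := by omega
      _ = _ := by ring

theorem disc_val (hn : 2 ≤ n) : padicValInt 3 (discr (s.K n)) ≤
    padicValInt 3 (discr (s.K (n - 1))) + 2 * n * (4 * s.g * 3 ^ (n - 2)) := by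
  obtain ⟨m, rfl⟩ : ∃ m, n = m + 2 := ⟨n - 2, by omega⟩
  have h1 := s.disc_step (n := m + 1) (Nat.le_add_left 1 m)
  have h2 := s.k5_bound m
  have e : 2 * (m + 2) * (4 * s.g * 3 ^ m) =
      2 * (2 * s.g * (2 * m + 1) * 3 ^ m) + 4 * s.g * 3 ^ (m + 1) := by ring
  change padicValInt 3 (discr (s.K (m + 1 + 1))) ≤
    padicValInt 3 (discr (s.K (m + 1))) + 2 * (m + 2) * (4 * s.g * 3 ^ m)
  omega

end Cb

end Pool.Agent.P.MP_20768c_nt.Tz.Cv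

end

-- part Cv.K7_p
section

set_option autoImplicit false

open Complex NumberField IsDedekindDomain Filter Topology
open UpperHalfPlane hiding I
open scoped ComplexConjugate Real MatrixGroups

namespace Pool.Agent.P.MP_20768c_nt.Tz.Cv

open Pool.Agent.P.MP_20768c_nt.Tz.EQ (Lt pr sp IsLat jL qN)

theorem k7_p_cube (F : Type) [Field F] [NumberField F] : ∃ P : Subgroup (𝓞 F)ˣ,
    P.index = 3 ^ Units.rank F ∧ ∀ ε, ε ∈ P ↔ ∃ η ζ, IsOfFinOrder ζ ∧ ε = η ^ 3 * ζ := by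
  refine ⟨((powMonoidHom (α := (𝓞 F)ˣ ⧸ Units.torsion F) 3).range).comap
    (QuotientGroup.mk' (Units.torsion F)), ?_, fun ε => ?_⟩
  · rw [Subgroup.index_comap_of_surjective _ (QuotientGroup.mk'_surjective _),
      ← Units.finrank_modTorsion, ← Subgroup.index_toAddSubgroup]
    exact (congrArg AddSubgroup.index (by ext x; exact Iff.rfl)).trans
      (AddSubgroup.index_range_nsmul (Additive ((𝓞 F)ˣ ⧸ Units.torsion F)) 3)
  · constructor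
    · rintro ⟨q, hq⟩
      obtain ⟨η, rfl⟩ := QuotientGroup.mk'_surjective (Units.torsion F) q
      refine ⟨η, (η ^ 3)⁻¹ * ε, ?_, by rw [mul_inv_cancel_left]⟩
      rw [powMonoidHom_apply, ← map_pow] at hq
      exact QuotientGroup.eq.1 hq
    · rintro ⟨η, ζ, hζ, rfl⟩
      refine ⟨QuotientGroup.mk' _ η, ?_⟩
      rw [powMonoidHom_apply, ← map_pow]
      exact QuotientGroup.eq.2 (by rw [inv_mul_cancel_left]; exact hζ)

theorem k7_p_cop {G : Type} [Group G] (H : Subgroup G) {x : G} {m : ℕ} (hm : ¬ 3 ∣ m)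
    (h : x ^ m ∈ H) (h3 : x ^ 3 ∈ H) : x ∈ H := by
  have e : x ^ (m % 3) ∈ H := by
    rw [← Nat.div_add_mod m 3, pow_add, pow_mul] at h
    exact (H.mul_mem_cancel_left (pow_mem h3 _)).1 h
  rcases (show m % 3 = 1 ∨ m % 3 = 2 by omega) with e1 | e1
  · rwa [e1, pow_one] at e
  · rw [e1] at e
    rw [pow_succ] at h3
    exact (H.mul_mem_cancel_left e).1 h3

namespace Cb

variable {s : Cb} {n : ℕ} {sb : (ZMod (3 ^ n))ˣ → s.Au}

theorem k7_p_one : s.uc (1 : (𝓞 (s.K n))ˣ) = 1 := rfl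

theorem k7_p_pow (ε : (𝓞 (s.K n))ˣ) (j : ℕ) : s.uc (ε ^ j) = s.uc ε ^ j := by
  induction j with
  | zero => rw [pow_zero, pow_zero, k7_p_one]
  | succ j ih => rw [pow_succ, pow_succ, uc_mul, ih]

theorem k7_p_ne (ε : (𝓞 (s.K n))ˣ) : s.uc ε ≠ 0 :=
  left_ne_zero_of_mul_eq_one (b := s.uc ε⁻¹) (by rw [← uc_mul, mul_inv_cancel, k7_p_one])

theorem k7_p_fin {ε : (𝓞 (s.K n))ˣ} {j : ℕ} (hj : 0 < j) (h : s.uc ε ^ j = 1) : IsOfFinOrder ε :=
  isOfFinOrder_iff_pow_eq_one.2 ⟨j, hj, uc_inj (by rw [k7_p_pow, h, k7_p_one])⟩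

theorem k7_p_up (s : Cb) {n' : ℕ} (h : n' ≤ n) :
    ∃ ι : (𝓞 (s.K n'))ˣ →* (𝓞 (s.K n))ˣ, ∀ ε, s.uc (ι ε) = s.uc ε := by
  choose f hf using fun ε : (𝓞 (s.K n'))ˣ => unit_down ε (s.K_mono h (uc_mem ε))
  exact ⟨MonoidHom.mk' f fun a b => uc_inj (by rw [uc_mul, hf, hf, hf, uc_mul]), hf⟩

theorem k7_p_zt (s : Cb) (n : ℕ) : ∃ Z : (𝓞 (s.K n))ˣ, s.uc Z = zt n := by
  have h : IsIntegral ℤ (⟨zt n, s.zt_mem n⟩ : s.K n) :=
    IsIntegral.of_pow (n := 3 ^ n) (by positivity)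
      (by rw [show (⟨zt n, s.zt_mem n⟩ : s.K n) ^ 3 ^ n = 1 from Subtype.ext (zt_pow n)]
          exact isIntegral_one)
  exact ⟨Units.ofPowEqOne (⟨_, h⟩ : 𝓞 (s.K n)) (3 ^ n)
    (Subtype.ext (Subtype.ext (zt_pow n))) (by positivity), rfl⟩

theorem k7_p_tors (hn : 1 ≤ n) {ζ : (𝓞 (s.K n))ˣ} (h : IsOfFinOrder ζ) :
    ∃ m b : ℕ, ¬ 3 ∣ m ∧ s.uc (ζ ^ m) = zt n ^ b := by
  obtain ⟨j, m, hm, ho⟩ := Nat.exists_eq_pow_mul_and_not_dvd h.orderOf_pos.ne' 3 (by norm_num)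
  obtain ⟨b, hb⟩ := tors_K hn (uc_mem (ζ ^ m)) (j := j) (by
    rw [← k7_p_pow, ← pow_mul, mul_comm, ← ho, pow_orderOf_eq_one, k7_p_one])
  exact ⟨m, b, hm, hb⟩

theorem k7_p_fix {γ : s.Au} (h : s.IsGam γ) (j : ℕ) : ∀ x ∈ s.N, (γ ^ j) x = x := by
  intro x hx
  induction j with
  | zero => rfl
  | succ j ih => rw [pow_succ, AlgEquiv.mul_apply, h.1 x hx, ih]

theorem k7_p_three (hn : 2 ≤ n) {σ : s.Au} (h : ∀ x ∈ s.N, σ x = x)
    (h' : σ (zt n) = zt 1 * zt n) {x : ℂ} (hx : x ∈ s.K n) : σ (σ (σ x)) = x :=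
  (fix_K (σ := σ * (σ * σ))).2 ⟨fun y hy => by
    rw [AlgEquiv.mul_apply, AlgEquiv.mul_apply, h y hy, h y hy, h y hy],
    (tau_fix (σ : ℂ →+* ℂ) hn h').2.2⟩ x hx

theorem k7_p_key (hn : 2 ≤ n) (ε : (𝓞 (s.K (n - 1)))ˣ) (η : (𝓞 (s.K n))ˣ) {b : ℕ}
    (e : s.uc ε = s.uc η ^ 3 * zt n ^ b) : ∃ η' ζ, IsOfFinOrder ζ ∧ ε = η' ^ 3 * ζ := by
  obtain ⟨γ, hγ⟩ := s.exists_gam
  have h1 := k7_p_fix hγ (3 ^ (n - 2))
  have h2 := gam_tau hγ hn
  generalize γ ^ 3 ^ (n - 2) = σ at h1 h2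
  have ht : ∀ {x : ℂ}, x ∈ s.K n → (σ x = x ↔ x ∈ s.K (n - 1)) := fun hx => K_tau hn h1 h2 hx
  have hz := zt_ne n
  have hy := k7_p_ne η
  have f1 : σ (zt 1) = zt 1 := (tau_fix (σ : ℂ →+* ℂ) hn h2).1
  have f3 : ∀ c : ℕ, (zt 1 ^ c) ^ 3 = 1 := fun c => by rw [pow_right_comm, zt1_cube, one_pow]
  have e1 : σ (s.uc ε) = s.uc ε := (ht (s.K_mono (by omega) (uc_mem ε))).2 (uc_mem ε)
  rw [e, map_mul, map_pow, map_pow, h2, mul_pow, ← mul_assoc] at e1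
  have e2 := mul_right_cancel₀ (pow_ne_zero b hz) e1
  have e3 : (σ (s.uc η) / s.uc η) ^ 3 * zt 1 ^ b = 1 := by
    rw [div_pow, div_mul_eq_mul_div, e2, div_self (pow_ne_zero 3 hy)]
  obtain ⟨c, hc⟩ := tors_K (by omega) (div_mem (K_aut σ (uc_mem η)) (uc_mem η)) (j := 2) (by
    have := congrArg (· ^ 3) e3
    simp only [mul_pow, f3, mul_one, one_pow] at this
    rw [show 3 ^ 2 = 3 * 3 from rfl, pow_mul, this])
  have e4 : σ (s.uc η) = zt n ^ c * s.uc η := by rw [← hc, div_mul_cancel₀ _ hy]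
  have e5 := k7_p_three hn h1 h2 (uc_mem η)
  simp only [e4, map_mul, map_pow, h2, f1, mul_pow] at e5
  obtain ⟨i, hi⟩ := cube_one (x := zt n ^ c) (mul_right_cancel₀ hy (by
    linear_combination e5 - (zt n ^ c) ^ 3 * s.uc η * f3 c))
  obtain ⟨Z, hZ⟩ := k7_p_zt s n
  have e6 : s.uc (η * (Z ^ i)⁻¹) * zt n ^ i = s.uc η := by
    rw [← hZ, ← k7_p_pow, ← uc_mul, inv_mul_cancel_right]
  obtain ⟨η', a4⟩ := unit_down (η * (Z ^ i)⁻¹) ((ht (uc_mem _)).1 (by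
    refine mul_right_cancel₀ (pow_ne_zero i ((map_ne_zero σ).2 hz)) ?_
    rw [← map_pow, ← map_mul, e6, e4, hi, map_pow, h2, mul_pow, mul_left_comm, e6]))
  refine ⟨η', (η' ^ 3)⁻¹ * ε, k7_p_fin (j := 3 ^ n) (by positivity) ?_,
    by rw [mul_inv_cancel_left]⟩
  have a5 : s.uc η' ^ 3 * s.uc ((η' ^ 3)⁻¹ * ε) = s.uc η' ^ 3 * zt n ^ (i * 3 + b) := by
    rw [← k7_p_pow, ← uc_mul, mul_inv_cancel_left, e, ← e6, ← a4, k7_p_pow]
    ring
  rw [mul_left_cancel₀ (pow_ne_zero 3 (k7_p_ne η')) a5, pow_right_comm, zt_pow, one_pow]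

theorem ZZ_index (s : Cb) (hn : 2 ≤ n) :
    (s.ZZ n).index ≠ 0 ∧ (s.ZZ n).index ≤ 3 ^ (4 * s.g * 3 ^ (n - 2)) := by
  obtain ⟨P, hP, mP⟩ := k7_p_cube (s.K n)
  obtain ⟨P', hP', mP'⟩ := k7_p_cube (s.K (n - 1))
  obtain ⟨ι, hι⟩ := k7_p_up s (Nat.sub_le n 1)
  have l1 : P ⊔ ι.range ≤ s.ZZ n := by
    refine sup_le (fun ε hε => ?_) ?_
    · obtain ⟨η, ζ, hζ, rfl⟩ := (mP ε).1 hε
      exact mul_mem (Subgroup.subset_closure (Or.inl ⟨η, rfl⟩))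
        (Subgroup.subset_closure (Or.inr (Or.inl hζ)))
    · rintro _ ⟨ε, rfl⟩
      exact Subgroup.subset_closure (Or.inr (Or.inr (by rw [hι]; exact uc_mem ε)))
  have l2 : P.comap ι ≤ P' := by
    intro ε hε
    obtain ⟨η, ζ, hζ, e⟩ := (mP _).1 hε
    obtain ⟨m, b, hm, hb⟩ := k7_p_tors (by omega) hζ
    exact k7_p_cop P' hm ((mP' _).2 (k7_p_key hn (ε ^ m) (η ^ m) (b := b) (by
      rw [← hι, map_pow, e, mul_pow, uc_mul, hb, pow_right_comm, k7_p_pow])))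
      ((mP' _).2 ⟨ε, 1, IsOfFinOrder.one, (mul_one _).symm⟩)
  have e1 : (P.comap ι).index * (P ⊔ ι.range).index = 3 ^ Units.rank (s.K n) := by
    rw [Subgroup.index_comap, ← Subgroup.relIndex_sup_left, Subgroup.relIndex_mul_index le_sup_left,
      hP]
  have p1 := mul_ne_zero_iff.1 (e1 ▸ pow_ne_zero _ three_ne_zero)
  have d1 := Subgroup.index_dvd_of_le l1
  refine ⟨ne_zero_of_dvd_ne_zero p1.2 d1, (Nat.le_of_dvd (Nat.pos_of_ne_zero p1.2) d1).trans ?_⟩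
  have d2 := Nat.le_of_dvd (Nat.pos_of_ne_zero p1.1) (Subgroup.index_dvd_of_le l2)
  have r1 := (s.places_K (n := n) (by omega)).2.2
  have r2 := (s.places_K (n := n - 1) (by omega)).2.2
  rw [show n - 1 = n - 2 + 1 by omega, pow_succ] at r1
  rw [show n - 1 - 1 = n - 2 by omega] at r2
  refine Nat.le_of_mul_le_mul_left (c := 3 ^ Units.rank (s.K (n - 1))) ?_ (by positivity)
  calc _ ≤ (P.comap ι).index * (P ⊔ ι.range).index := Nat.mul_le_mul_right _ (hP' ▸ d2)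
    _ ≤ _ := by
      rw [e1, ← pow_add]
      refine Nat.pow_le_pow_right three_pos ?_
      rw [mul_assoc] at r2 ⊢
      rw [mul_assoc, ← mul_assoc s.g] at r1
      omega

theorem CC_val (hn : 2 ≤ n) (u : (𝓞 (s.K n))ˣ) (h0 : (s.CC u).index ≠ 0) {l : ℕ}
    (hl : l < 2 * 3 ^ (n - 2)) (hi : (s.CC u ⊔ s.ZZ n).index ≤ 3 ^ l) :
    padicValNat 3 (s.CC u).index ≤ l := by
  obtain ⟨γ, hγ⟩ := s.exists_gam
  obtain ⟨e, he⟩ := unit_aut γ n
  have l1 : s.CC u ≤ (s.CC u).comap e := by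
    refine (Subgroup.closure_le _).2 ?_
    rintro ε (h | h | ⟨σ, h⟩)
    · exact Subgroup.subset_closure (Or.inl (e.isOfFinOrder h))
    · exact Subgroup.subset_closure (Or.inr (Or.inl (by rw [he]; exact K_aut γ h)))
    · exact Subgroup.subset_closure (Or.inr (Or.inr ⟨γ * σ, by rw [he, h, AlgEquiv.mul_apply]⟩))
  have it : ∀ (j : ℕ) (ε : (𝓞 (s.K n))ˣ), s.uc (e^[j] ε) = (γ ^ j) (s.uc ε) ∧
      (QuotientGroup.map _ _ e l1)^[j] (QuotientGroup.mk ε) = QuotientGroup.mk (e^[j] ε) := by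
    intro j ε
    induction j with
    | zero => exact ⟨rfl, rfl⟩
    | succ j ih =>
      rw [Function.iterate_succ_apply', Function.iterate_succ_apply', ih.2, he, ih.1, pow_succ']
      exact ⟨rfl, rfl⟩
  have : Finite ((𝓞 (s.K n))ˣ ⧸ s.CC u) := Nat.finite_of_card_ne_zero h0
  refine three_nine (QuotientGroup.map _ _ e l1) (j := n - 2) (fun x => ?_) hl ?_
  · obtain ⟨ε, rfl⟩ := QuotientGroup.mk_surjective x
    rw [(it _ ε).2, (it _ ε).2, ← QuotientGroup.mk_mul, ← QuotientGroup.mk_mul,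
      QuotientGroup.eq_one_iff]
    refine Subgroup.subset_closure (Or.inr (Or.inl ?_))
    have h1 := k7_p_fix hγ (3 ^ (n - 2))
    have h2 := gam_tau hγ hn
    refine (K_tau hn h1 h2 (uc_mem _)).1 ?_
    rw [uc_mul, uc_mul, (it _ ε).1, (it _ ε).1, two_mul, pow_add, AlgEquiv.mul_apply, map_mul,
      map_mul, k7_p_three hn h1 h2 (uc_mem ε), mul_comm, ← mul_assoc]
  · rw [← Subgroup.index_comap_of_surjective _ (QuotientGroup.mk'_surjective (s.CC u))]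
    have c1 : ∀ ε ∈ s.CC u, ε ∈ ((powMonoidHom (α := (𝓞 (s.K n))ˣ ⧸ s.CC u) 3).range).comap
        (QuotientGroup.mk' (s.CC u)) := fun ε hε =>
      ⟨1, by rw [map_one]; exact ((QuotientGroup.eq_one_iff ε).2 hε).symm⟩
    refine le_trans (Nat.le_of_dvd (Nat.pos_of_ne_zero (ne_zero_of_dvd_ne_zero h0
      (Subgroup.index_dvd_of_le le_sup_left))) (Subgroup.index_dvd_of_le (sup_le c1 ?_))) hi
    refine (Subgroup.closure_le _).2 ?_
    rintro ε (⟨η, rfl⟩ | h | h)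
    · exact ⟨QuotientGroup.mk η, rfl⟩
    · exact c1 ε (Subgroup.subset_closure (Or.inl h))
    · exact c1 ε (Subgroup.subset_closure (Or.inr (Or.inl h)))

end Cb

end Pool.Agent.P.MP_20768c_nt.Tz.Cv

end

-- part Cv.K8_p
section

set_option autoImplicit false

open Complex NumberField IsDedekindDomain Filter Topology
open UpperHalfPlane hiding I
open scoped ComplexConjugate Real MatrixGroups

namespace Pool.Agent.P.MP_20768c_nt.Tz.Cv

open Pool.Agent.P.MP_20768c_nt.Tz.EQ (Lt pr sp IsLat jL qN)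

theorem k8p_count (F : Type) [Field F] [NumberField F] {l m a : ℕ} (hl : 1 < l)
    (h : ∀ Q : HeightOneSpectrum (𝓞 F), (l : 𝓞 F) ∈ Q.asIdeal →
      (l : 𝓞 F) ∈ Q.asIdeal ^ a ∧ l ^ m ≤ Ideal.absNorm Q.asIdeal ^ a) :
    m * nP F l ≤ Module.finrank ℚ F := by
  classical
  have hf := fin_primes F (C := l) (by omega)
  have h1 : ∏ Q ∈ hf.toFinset, Q.asIdeal ^ a ∣ Ideal.span {(l : 𝓞 F)} := by
    refine Finset.prod_dvd_of_coprime (fun P _ Q _ hne => P.isCoprime_pow_of_ne Q hne a a) ?_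
    intro Q hQ
    exact Ideal.dvd_span_singleton.2 (h Q (hf.mem_toFinset.1 hQ)).1
  have h2 := map_dvd Ideal.absNorm h1
  rw [Ideal.absNorm_span_natCast, RingOfIntegers.rank, map_prod] at h2
  have h3 := Nat.le_of_dvd (by positivity) h2
  have h4 : ∏ _Q ∈ hf.toFinset, l ^ m ≤ ∏ Q ∈ hf.toFinset, Ideal.absNorm (Q.asIdeal ^ a) :=
    Finset.prod_le_prod' fun Q hQ => by
      rw [map_pow]
      exact (h Q (hf.mem_toFinset.1 hQ)).2
  rw [Finset.prod_const, ← pow_mul] at h4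
  rw [nP, Set.ncard_eq_toFinset_card _ hf]
  exact (Nat.pow_le_pow_iff_right hl).1 (h4.trans h3)

theorem k8p_one {R : Type} [CommRing R] (Q : Ideal R) (hQ : Q.IsPrime) (h3 : (3 : R) ∈ Q) (j : ℕ) :
    ∀ ζ : R, ζ ^ 3 ^ j - 1 ∈ Q → ζ - 1 ∈ Q := by
  induction j with
  | zero => intro ζ h; simpa using h
  | succ j ih =>
    intro ζ h
    refine ih ζ (hQ.mem_of_pow_mem 3 ?_)
    rw [pow_succ, pow_mul] at h
    rw [show (ζ ^ 3 ^ j - 1) ^ 3 = (ζ ^ 3 ^ j) ^ 3 - 1 - ((ζ ^ 3 ^ j) ^ 2 - ζ ^ 3 ^ j) * 3 by ring]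
    exact Q.sub_mem h (Q.mul_mem_left _ h3)

theorem k8p_ram {R : Type} [CommRing R] [IsDomain R] (Q : Ideal R) (hQ : Q.IsPrime)
    (h3 : (3 : R) ∈ Q) {j : ℕ} {ζ : R} (hζ : IsPrimitiveRoot ζ (3 ^ (j + 1))) :
    (3 : R) ∈ Q ^ 3 ^ j := by
  have e : ∏ μ ∈ primitiveRoots (3 ^ (j + 1)) R, (1 - μ) = 3 := by
    have : Fact (Nat.Prime 3) := ⟨Nat.prime_three⟩
    have h4 := Polynomial.eval_one_cyclotomic_prime_pow (R := R) (p := 3) j
    rw [Polynomial.cyclotomic_eq_prod_X_sub_primitiveRoots hζ, Polynomial.eval_prod] at h4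
    simpa using h4
  have h : ∏ μ ∈ primitiveRoots (3 ^ (j + 1)) R, (1 - μ) ∈
      ∏ _μ ∈ primitiveRoots (3 ^ (j + 1)) R, Q := by
    refine Ideal.prod_mem_prod fun μ hμ => ?_
    rw [← neg_sub]
    refine Q.neg_mem (k8p_one Q hQ h3 (j + 1) μ ?_)
    rw [(isPrimitiveRoot_of_mem_primitiveRoots hμ).pow_eq_one, sub_self]
    exact Q.zero_mem
  rw [e, Finset.prod_const, hζ.card_primitiveRoots,
    Nat.totient_prime_pow_succ Nat.prime_three] at h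
  exact Ideal.pow_le_pow_right (by omega) h

theorem k8p_lte {l : ℕ} (hl : 1 < l) (h3 : ¬ 3 ∣ l) :
    ∃ e, ∀ n f : ℕ, f ≠ 0 → 3 ^ n ∣ l ^ f - 1 → 3 ^ (n - e) ≤ f := by
  have : Fact (Nat.Prime 3) := ⟨Nat.prime_three⟩
  refine ⟨padicValNat 3 (l ^ 2 - 1), fun n f hf h => ?_⟩
  have l2 : 1 < l ^ 2 := Nat.one_lt_pow two_ne_zero hl
  have d3 : 3 ∣ l ^ 2 - 1 := by
    refine (Nat.modEq_iff_dvd' l2.le).1 ?_
    have : l % 3 = 1 ∨ l % 3 = 2 := by omega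
    rcases this with e | e <;> rw [Nat.ModEq, Nat.pow_mod, e]
  have h1 := padicValNat.pow_sub_pow (p := 3) (by decide) l2 d3
    (fun e => h3 (Nat.prime_three.dvd_of_dvd_pow e)) hf
  have h2 : 3 ^ n ∣ (l ^ 2) ^ f - 1 ^ f := by
    rw [one_pow, ← pow_mul, mul_comm, pow_mul]
    exact h.trans (Nat.sub_one_dvd_pow_sub_one _ 2)
  have h0 : (l ^ 2) ^ f - 1 ^ f ≠ 0 := by
    have := Nat.one_lt_pow hf l2
    rw [one_pow]
    omega
  have h4 := (padicValNat_dvd_iff_le h0).1 h2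
  exact Nat.le_of_dvd (Nat.pos_of_ne_zero hf) ((padicValNat_dvd_iff_le hf).2 (by omega))

theorem k8p_norm {F : Type} [Field F] [NumberField F] {l : ℕ} (hl : l.Prime)
    (Q : HeightOneSpectrum (𝓞 F)) (hQ : (l : 𝓞 F) ∈ Q.asIdeal) :
    ∃ f, f ≠ 0 ∧ Ideal.absNorm Q.asIdeal = l ^ f := by
  have h1 := map_dvd Ideal.absNorm (Ideal.dvd_span_singleton.2 hQ)
  rw [Ideal.absNorm_span_natCast] at h1
  obtain ⟨f, -, hf⟩ := (Nat.dvd_prime_pow hl).1 h1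
  refine ⟨f, ?_, hf⟩
  rintro rfl
  exact Q.isPrime.ne_top (Ideal.absNorm_eq_one_iff.1 hf)

theorem k8p_prime (g : ℕ) {l : ℕ} (hl : l.Prime) : ∃ B, ∀ (F : Type) [Field F] [NumberField F] (j : ℕ)
    (ζ : 𝓞 F), IsPrimitiveRoot ζ (3 ^ (j + 1)) → Module.finrank ℚ F = g * 3 ^ j → nP F l ≤ B := by
  have : Fact (Nat.Prime 3) := ⟨Nat.prime_three⟩
  by_cases h3 : 3 ∣ l
  · obtain rfl := (Nat.prime_dvd_prime_iff_eq Nat.prime_three hl).1 h3
    refine ⟨g, fun F _ _ j ζ hζ hd => ?_⟩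
    have h := k8p_count F (l := 3) (m := 3 ^ j) (a := 3 ^ j) (by norm_num) fun Q hQ => by
      obtain ⟨f, f0, hf⟩ := k8p_norm hl Q hQ
      rw [Nat.cast_ofNat] at hQ ⊢
      refine ⟨k8p_ram _ Q.isPrime hQ hζ, Nat.pow_le_pow_left ?_ _⟩
      rw [hf]
      exact Nat.le_self_pow f0 3
    rw [hd, mul_comm] at h
    exact Nat.le_of_mul_le_mul_right h (by positivity)
  · obtain ⟨e, he⟩ := k8p_lte hl.one_lt h3
    refine ⟨g * 3 ^ e, fun F _ _ j ζ hζ hd => ?_⟩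
    have h := k8p_count F (m := 3 ^ (j + 1 - e)) (a := 1) hl.one_lt fun Q hQ => by
      rw [pow_one, pow_one]
      refine ⟨hQ, ?_⟩
      obtain ⟨f, f0, hf⟩ := k8p_norm hl Q hQ
      rw [hf]
      refine Nat.pow_le_pow_right hl.pos (he _ f f0 ?_)
      have := Q.isMaximal
      let _ := Ideal.Quotient.field Q.asIdeal
      have : Finite (𝓞 F ⧸ Q.asIdeal) := Ideal.finiteQuotientOfFreeOfNeBot _ Q.ne_bot
      let _ := Fintype.ofFinite (𝓞 F ⧸ Q.asIdeal)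
      have z1 := congrArg (Ideal.Quotient.mk Q.asIdeal)
        ((hζ.pow (a := 3 ^ j) (b := 3) (by positivity) (pow_succ 3 j)).geom_sum_eq_zero
          (by norm_num))
      simp only [Finset.sum_range_succ, Finset.sum_range_zero, map_add, map_pow, map_zero] at z1
      have z2 : ¬ Ideal.Quotient.mk Q.asIdeal ζ ^ 3 ^ j = 1 := by
        intro e1
        have l0 : ((l : ℕ) : 𝓞 F ⧸ Q.asIdeal) = 0 := by
          rw [← map_natCast (Ideal.Quotient.mk Q.asIdeal)]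
          exact Ideal.Quotient.eq_zero_iff_mem.2 hQ
        rw [e1] at z1
        rw [← Nat.div_add_mod l 3] at l0
        have : l % 3 = 1 ∨ l % 3 = 2 := by omega
        rcases this with e2 | e2 <;> rw [e2] at l0 <;> push_cast at l0
        · exact one_ne_zero (α := 𝓞 F ⧸ Q.asIdeal)
            (by linear_combination l0 - ((l / 3 : ℕ) : 𝓞 F ⧸ Q.asIdeal) * z1)
        · exact one_ne_zero (α := 𝓞 F ⧸ Q.asIdeal)
            (by linear_combination (((l / 3 : ℕ) : 𝓞 F ⧸ Q.asIdeal) + 1) * z1 - l0)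
      have z3 : Ideal.Quotient.mk Q.asIdeal ζ ^ 3 ^ (j + 1) = 1 := by
        rw [← map_pow, hζ.pow_eq_one, map_one]
      have z0 : Ideal.Quotient.mk Q.asIdeal ζ ≠ 0 := by
        intro e0
        rw [e0, zero_pow (by positivity)] at z3
        exact zero_ne_one z3
      rw [← orderOf_eq_prime_pow z2 z3, orderOf_dvd_iff_pow_eq_one, ← hf, Ideal.absNorm_apply,
        Submodule.cardQuot_apply, Nat.card_eq_fintype_card]
      exact FiniteField.pow_card_sub_one_eq_one _ z0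
    have h5 : g * 3 ^ j ≤ 3 ^ (j + 1 - e) * (g * 3 ^ e) := by
      rw [mul_left_comm, ← pow_add]
      exact Nat.mul_le_mul_left g (Nat.pow_le_pow_right three_pos (by omega))
    rw [hd] at h
    exact Nat.le_of_mul_le_mul_left (h.trans h5) (by positivity)

theorem k8p_mul (F : Type) [Field F] [NumberField F] (a b : ℕ) :
    nP F (a * b) ≤ nP F a + nP F b := by
  refine le_trans (le_of_eq ?_) (Set.ncard_union_le _ _)
  rw [nP]
  congr 1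
  ext Q
  rw [Set.mem_union, Set.mem_ofPred_eq, Set.mem_ofPred_eq, Set.mem_ofPred_eq, Nat.cast_mul]
  exact Q.isPrime.mul_mem_iff_mem_or_mem

theorem k8p_all (g : ℕ) {C : ℕ} (hC : C ≠ 0) : ∃ B, ∀ (F : Type) [Field F] [NumberField F] (j : ℕ)
    (ζ : 𝓞 F), IsPrimitiveRoot ζ (3 ^ (j + 1)) → Module.finrank ℚ F = g * 3 ^ j → nP F C ≤ B := by
  induction C using induction_on_primes with
  | zero => exact absurd rfl hC
  | one =>
    refine ⟨0, fun F _ _ j ζ _ _ => le_of_eq ?_⟩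
    rw [nP, Set.eq_empty_of_forall_notMem (s := {Q : HeightOneSpectrum (𝓞 F) |
      ((1 : ℕ) : 𝓞 F) ∈ Q.asIdeal}), Set.ncard_empty]
    intro Q hQ
    rw [Set.mem_ofPred_eq, Nat.cast_one] at hQ
    exact Q.isPrime.ne_top ((Ideal.eq_top_iff_one _).2 hQ)
  | prime_mul p a hp ih =>
    obtain ⟨B, hB⟩ := ih (right_ne_zero_of_mul hC)
    obtain ⟨B', hB'⟩ := k8p_prime g hp
    exact ⟨B' + B, fun F _ _ j ζ h1 h2 =>
      (k8p_mul F p a).trans (Nat.add_le_add (hB' F j ζ h1 h2) (hB F j ζ h1 h2))⟩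

namespace Cb

variable (s : Cb) {n C : ℕ}

theorem nP_bdd (hC : C ≠ 0) : ∃ B, ∀ n, nP (s.K n) C ≤ B := by
  obtain ⟨B, hB⟩ := k8p_all (4 * s.g) hC
  refine ⟨max B (nP (s.K 0) C), fun n => ?_⟩
  rcases Nat.eq_zero_or_pos n with rfl | hn
  · exact le_max_right _ _
  · refine le_trans ?_ (le_max_left _ _)
    have e : IsPrimitiveRoot (⟨zt n, s.zt_mem n⟩ : s.K n) (3 ^ n) :=
      IsPrimitiveRoot.coe_submonoidClass_iff.1 (zt_prim n)
    refine hB (s.K n) (n - 1) ⟨_, e.isIntegral (by positivity)⟩ ?_ (s.finrank_K' hn)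
    rw [Nat.sub_add_cancel hn]
    exact IsPrimitiveRoot.of_map_of_injective (f := algebraMap (𝓞 (s.K n)) (s.K n)) e
      (FaithfulSMul.algebraMap_injective _ _)

end Cb

end Pool.Agent.P.MP_20768c_nt.Tz.Cv

end

-- part Cv.L2
section

set_option autoImplicit false

open Complex NumberField IsDedekindDomain Filter Topology
open UpperHalfPlane hiding I
open scoped ComplexConjugate Real MatrixGroups

namespace Pool.Agent.P.MP_20768c_nt.Tz.Cv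

open Pool.Agent.P.MP_20768c_nt.Tz.EQ (Lt pr sp IsLat jL qN)

namespace Cb

variable {s : Cb} {C n : ℕ} {r r' : ℂ} {x : ℂˣ}

theorem mem_Kx : x ∈ s.Kx n ↔ (x : ℂ) ∈ s.K n := by
  constructor
  · rintro ⟨y, rfl⟩
    exact (y : s.K n).2
  · intro h
    exact ⟨Units.mk0 (⟨x, h⟩ : s.K n) fun e => x.ne_zero (congrArg Subtype.val e), Units.ext rfl⟩

theorem mem_Ux : x ∈ s.Ux n ↔ ∃ ε : (𝓞 (s.K n))ˣ, s.uc ε = x := by
  constructor
  · rintro ⟨y, rfl⟩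
    exact ⟨y, rfl⟩
  · rintro ⟨y, h⟩
    exact ⟨y, Units.ext h⟩

theorem mem_Sq : x ∈ s.Sq ↔ ∃ n, ∃ y ∈ s.K n, (x : ℂ) = y ^ 3 := by
  constructor
  · intro h
    induction h using Subgroup.closure_induction with
    | mem x hx =>
      obtain ⟨n, y, hy, rfl⟩ := hx
      exact ⟨n, y, mem_Kx.mp hy, Units.val_pow_eq_pow_val _ _⟩
    | one => exact ⟨0, 1, one_mem _, by simp⟩
    | mul x x' _ _ ih ih' =>
      obtain ⟨n, y, hy, e⟩ := ih
      obtain ⟨n', y', hy', e'⟩ := ih'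
      exact ⟨max n n', y * y', mul_mem (s.K_mono (le_max_left _ _) hy)
        (s.K_mono (le_max_right _ _) hy'), by rw [Units.val_mul, e, e', mul_pow]⟩
    | inv x _ ih =>
      obtain ⟨n, y, hy, e⟩ := ih
      exact ⟨n, y⁻¹, inv_mem hy, by rw [Units.val_inv_eq_inv_val, e, inv_pow]⟩
  · rintro ⟨n, y, hy, e⟩
    have h0 : y ≠ 0 := fun h => x.ne_zero (by rw [e, h]; simp)
    exact Subgroup.subset_closure ⟨n, Units.mk0 y h0, mem_Kx.mpr hy, Units.ext (by simpa using e)⟩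

theorem l2_fix (a a' : s.Au) (h : ∀ x ∈ s.N, a' x = a x) {y : ℂ} (hy : y ∈ s.N) :
    (a * a'⁻¹) y = y := by
  rw [AlgEquiv.mul_apply, ← h _ (s.toSt.au_mem s.N a'⁻¹ hy), ← AlgEquiv.mul_apply, mul_inv_cancel,
    AlgEquiv.one_apply]

theorem Cond.all (h : s.Cond C r) (a : s.Au) : ∃ n, a r ∈ s.Fx n := by
  obtain ⟨h0, ⟨n₂, h2⟩, _, h4⟩ := h
  obtain ⟨a', ha', n₁, h1⟩ := h4 a
  have hK : a' r ^ 3 ∈ s.K n₂ := by
    rw [← map_pow]
    exact K_aut a' h2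
  have hF : a' r ∈ s.Fx n₁ :=
    ⟨IsAlgebraic.of_pow three_pos (s.toSt.alg_of_mem (s.K n₂) hK), h1⟩
  obtain ⟨b, hb⟩ := hom_zt ((a * a'⁻¹ : s.Au) : ℂ →+* ℂ) n₂
  obtain ⟨i, hi, hi'⟩ := s.toSt.exists_inert n₂ b
  have e : (a * a'⁻¹) (a' r ^ 3) = i (a' r ^ 3) :=
    eq_on_K (fun y hy => by rw [l2_fix a a' ha' hy, inert_fix_N hi hy])
      (hb.trans hi'.symm) hK
  rw [map_pow, map_pow, ← AlgEquiv.mul_apply, inv_mul_cancel_right] at e
  have hi2 : i (a' r) ∈ s.Fx n₁ := St.fx_aut hi hF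
  have h0 : i (a' r) ≠ 0 := (map_ne_zero i).2 ((map_ne_zero a').2 h0)
  obtain ⟨j, hj⟩ := cube_one (x := a r / i (a' r)) (by
    rw [div_pow, e, div_self (pow_ne_zero 3 h0)])
  rw [div_eq_iff h0] at hj
  have h3 := St.fx_mono (le_max_left 1 n₁) (s.toSt.fx_zt 1)
  have h4 := St.fx_mono (le_max_right 1 n₁) hi2
  rw [hj]
  exact ⟨max 1 n₁, (h3.1.pow j).mul h4.1, fun σ hσ hz => by
    rw [map_mul, map_pow, h3.2 σ hσ hz, h4.2 σ hσ hz]⟩

theorem Cond.mul (h : s.Cond C r) (h' : s.Cond C r') : s.Cond C (r * r') := by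
  refine ⟨mul_ne_zero h.1 h'.1, ?_, fun V σ hV hσ hN => ?_, fun a => ?_⟩
  · obtain ⟨n, hn⟩ := h.2.1
    obtain ⟨n', hn'⟩ := h'.2.1
    refine ⟨max n n', ?_⟩
    rw [mul_pow]
    exact mul_mem (s.K_mono (le_max_left _ _) hn) (s.K_mono (le_max_right _ _) hn')
  · rw [map_mul, h.2.2.1 V σ hV hσ hN, h'.2.2.1 V σ hV hσ hN]
  · obtain ⟨n, hn⟩ := h.all a
    obtain ⟨n', hn'⟩ := h'.all a
    refine ⟨a, fun _ _ => rfl, max n n', fun σ hσ hz => ?_⟩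
    rw [map_mul, map_mul, (St.fx_mono (le_max_left n n') hn).2 σ hσ hz,
      (St.fx_mono (le_max_right n n') hn').2 σ hσ hz]

theorem Cond.inv (h : s.Cond C r) : s.Cond C r⁻¹ := by
  refine ⟨inv_ne_zero h.1, ?_, fun V σ hV hσ hN => ?_, fun a => ?_⟩
  · obtain ⟨n, hn⟩ := h.2.1
    refine ⟨n, ?_⟩
    rw [inv_pow]
    exact inv_mem hn
  · rw [map_inv₀, h.2.2.1 V σ hV hσ hN]
  · obtain ⟨a', ha', n, hn⟩ := h.2.2.2 a
    exact ⟨a', ha', n, fun σ hσ hz => by rw [map_inv₀, map_inv₀, hn σ hσ hz]⟩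

theorem Cond.aut (h : s.Cond C r) (σ : s.Au) : s.Cond C (σ r) := by
  refine ⟨(map_ne_zero σ).mpr h.1, ?_, fun V τ hV hτ hN => ?_, fun a => ?_⟩
  · obtain ⟨n, hn⟩ := h.2.1
    refine ⟨n, ?_⟩
    rw [← map_pow]
    exact K_aut σ hn
  · obtain ⟨V', hV', hi⟩ := St.inert_conj V hV hτ σ
    have e := h.2.2.1 V' _ hV' hi fun y hy => by
      rw [AlgEquiv.mul_apply, AlgEquiv.mul_apply, hN _ (s.toSt.au_mem s.N σ hy),
        ← AlgEquiv.mul_apply, inv_mul_cancel, AlgEquiv.one_apply]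
    have e' := congrArg σ e
    rwa [← AlgEquiv.mul_apply, ← mul_assoc, mul_inv_cancel_left, AlgEquiv.mul_apply] at e'
  · obtain ⟨n, hn⟩ := h.all (a * σ)
    exact ⟨a, fun _ _ => rfl, n, hn.2⟩

theorem cond_K (h3 : 3 ∣ C) (h0 : r ≠ 0) (h : r ∈ s.K n) : s.Cond C r := by
  refine ⟨h0, ⟨n, pow_mem h 3⟩, fun V σ hV hσ hN => ?_, fun a => ?_⟩
  · have hv : V.valuation ((3 ^ n : ℕ) : ℂ) = 1 := by
      rw [Nat.cast_pow, map_pow, v_nat_dvd V.valuation h3 hV, one_pow]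
    exact fix_K.mpr ⟨hN, St.inert_root hσ hv (zt_pow n)⟩ r h
  · exact ⟨a, fun _ _ => rfl, n, (K_fx (K_aut a h)).2⟩

theorem mem_SS (h3 : 3 ∣ C) : x ∈ s.SS C ↔ ∃ r, s.Cond C r ∧ (x : ℂ) = r ^ 3 := by
  refine ⟨fun h => ?_, fun h => Subgroup.subset_closure h⟩
  induction h using Subgroup.closure_induction with
  | mem x hx => exact hx
  | one => exact ⟨1, cond_K (n := 0) h3 one_ne_zero (one_mem _), by simp⟩
  | mul x x' _ _ ih ih' =>
    obtain ⟨y, hy, e⟩ := ih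
    obtain ⟨y', hy', e'⟩ := ih'
    exact ⟨y * y', hy.mul hy', by rw [Units.val_mul, e, e', mul_pow]⟩
  | inv x _ ih =>
    obtain ⟨y, hy, e⟩ := ih
    exact ⟨y⁻¹, hy.inv, by rw [Units.val_inv_eq_inv_val, e, inv_pow]⟩

theorem Sq_le_SS (h3 : 3 ∣ C) : s.Sq ≤ s.SS C := by
  intro x hx
  obtain ⟨n, y, hy, e⟩ := mem_Sq.mp hx
  have h0 : y ≠ 0 := fun h => x.ne_zero (by rw [e, h]; simp)
  exact (mem_SS h3).mpr ⟨y, cond_K h3 h0 hy, e⟩

/-- Hilbert 90 for an automorphism of known order on `K m` -/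
theorem l2_h90 {m d : ℕ} (hd : 0 < d) (g : s.Au)
    (ho : ∀ i, (∀ x ∈ s.K m, (g ^ i) x = x) ↔ d ∣ i) {y : ℂ} (hy : y ∈ s.K m) (h0 : y ≠ 0)
    (hN : ∏ j ∈ Finset.range d, (g ^ j) y = 1) : ∃ z ∈ s.K m, z ≠ 0 ∧ g z = y * z := by
  obtain ⟨c, hc⟩ : ∃ c : ℕ → ℂ, c = fun i => ∏ j ∈ Finset.range i, (g ^ j) y := ⟨_, rfl⟩
  have hcs : ∀ i, c (i + 1) = y * g (c i) := fun i => by
    simp only [hc, Finset.prod_range_succ', map_prod, pow_zero, AlgEquiv.one_apply, pow_succ',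
      AlgEquiv.mul_apply, mul_comm]
  have hcK : ∀ i, c i ∈ s.K m := fun i => by
    rw [hc]
    exact prod_mem fun j _ => K_aut _ hy
  obtain ⟨φ, hφ⟩ : ∃ φ : Fin d → (s.K m →* ℂ), ∀ i θ, φ i θ = (g ^ (i : ℕ)) θ :=
    ⟨fun i => ((g ^ (i : ℕ) : s.Au) : ℂ →* ℂ).comp (algebraMap (s.K m) ℂ : s.K m →* ℂ),
      fun _ _ => rfl⟩
  have aux : ∀ i j : Fin d, (i : ℕ) ≤ j → φ i = φ j → i = j := fun i j hij e => by
    have : d ∣ (j : ℕ) - i := (ho _).mp fun x hx => by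
      apply (g ^ (i : ℕ)).injective
      rw [← AlgEquiv.mul_apply, ← pow_add, Nat.add_sub_cancel' hij]
      exact ((hφ j ⟨x, hx⟩).symm.trans (by rw [← e])).trans (hφ i ⟨x, hx⟩)
    have h1 := Nat.eq_zero_of_dvd_of_lt this (lt_of_le_of_lt (Nat.sub_le _ _) j.2)
    exact Fin.ext (by omega)
  have hinj : Function.Injective φ := fun i j e => by
    rcases le_total (i : ℕ) j with hij | hij
    · exact aux i j hij e
    · exact (aux j i hij e.symm).symm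
  have hli := (linearIndependent_monoidHom (s.K m) ℂ).comp φ hinj
  have hex : ∃ θ : s.K m, ∑ i ∈ Finset.range d, (c i)⁻¹ * (g ^ i) θ ≠ 0 := by
    by_contra hne
    have hz : ∑ i : Fin d, (c i)⁻¹ • ((fun f : s.K m →* ℂ => (f : s.K m → ℂ)) ∘ φ) i = 0 := by
      funext θ
      have := not_not.mp (not_exists.mp hne θ)
      rw [Finset.sum_range] at this
      simpa only [Finset.sum_apply, Pi.smul_apply, Function.comp, smul_eq_mul, hφ,
        Pi.zero_apply] using this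
    have := Fintype.linearIndependent_iff.mp hli _ hz ⟨0, hd⟩
    simp [hc] at this
  obtain ⟨θ, hθ⟩ := hex
  refine ⟨_, sum_mem fun i _ => mul_mem (inv_mem (hcK i)) (K_aut _ θ.2), hθ, ?_⟩
  have e1 : ∑ i ∈ Finset.range d, (c (i + 1))⁻¹ * (g ^ (i + 1)) θ =
      ∑ i ∈ Finset.range d, (c i)⁻¹ * (g ^ i) θ := by
    have a1 := Finset.sum_range_succ' (fun i => (c i)⁻¹ * (g ^ i) (θ : ℂ)) d
    have a2 := Finset.sum_range_succ (fun i => (c i)⁻¹ * (g ^ i) (θ : ℂ)) d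
    have a3 : c d = c 0 := by simp only [hc, hN, Finset.prod_range_zero]
    rw [a2, a3, (ho d).mpr dvd_rfl _ θ.2, pow_zero, AlgEquiv.one_apply] at a1
    exact (add_right_cancel a1).symm
  rw [← e1, Finset.mul_sum, e1, map_sum]
  refine Finset.sum_congr rfl fun i _ => ?_
  rw [map_mul, map_inv₀, hcs, pow_succ', AlgEquiv.mul_apply, mul_inv, ← mul_assoc, ← mul_assoc,
    mul_inv_cancel₀ h0, one_mul]

theorem h90 {γ : s.Au} (hγ : s.IsGam γ) (hn : 1 ≤ n) {n' : ℕ} {a y : ℂ} (ha : a ∈ s.K n')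
    (h0 : a ≠ 0) (hy : y ∈ s.K n') (h : (γ ^ 3 ^ (n - 1)) a = a * y ^ 3) :
    ∃ z ∈ s.K (n + n' + 1), z ≠ 0 ∧ a / z ^ 3 ∈ s.K n := by
  obtain ⟨g, hg⟩ : ∃ g : s.Au, g = γ ^ 3 ^ (n - 1) := ⟨_, rfl⟩
  have hp : ∀ j, g ^ 3 ^ j = γ ^ 3 ^ (n + j - 1) := fun j => by
    rw [hg, ← pow_mul, ← pow_add]
    congr 2
    omega
  have ha' : a ∈ s.K (n + n') := s.K_mono (Nat.le_add_left _ _) ha
  have hy' : y ∈ s.K (n + n') := s.K_mono (Nat.le_add_left _ _) hy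
  have hfix : ∀ j, ∀ x ∈ s.K (n + j), (g ^ 3 ^ j) x = x := fun j x hx => by
    rw [hp]
    exact (gam_fix hγ (by omega) hx).mpr hx
  rw [← hg] at h
  have hy0 : y ≠ 0 := fun e => (map_ne_zero g).mpr h0 (by rw [h, e]; simp)
  obtain ⟨ρ, -, hρ⟩ := s.toSt.exists_res (s.K (n + n' + 1))
  have hρ1 : ∀ σ : s.Au, ρ σ = 1 ↔ ∀ x ∈ s.K (n + n' + 1), σ x = x := fun σ =>
    ⟨fun e x hx => by rw [← hρ σ ⟨x, hx⟩, e]; rfl,
      fun e => AlgEquiv.ext fun x => Subtype.ext ((hρ σ x).trans (e x x.2))⟩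
  have : Fact (Nat.Prime 3) := ⟨Nat.prime_three⟩
  have hord : orderOf (ρ g) = 3 ^ (n' + 1) := by
    refine orderOf_eq_prime_pow (fun e => ?_) ?_
    · rw [← map_pow, hρ1, hp] at e
      exact s.zt_not_mem (by omega)
        ((gam_fix hγ (by omega) (s.zt_mem _)).mp (e _ (s.zt_mem (n + n' + 1))))
    · rw [← map_pow, hρ1]
      exact hfix (n' + 1)
  have hpow : ∀ i, (g ^ i) a = a * (∏ j ∈ Finset.range i, (g ^ j) y) ^ 3 := fun i => by
    induction i with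
    | zero => simp
    | succ i ih =>
      rw [pow_succ, AlgEquiv.mul_apply, h, map_mul, map_pow, ih, Finset.prod_range_succ]
      ring
  have hN : ∏ j ∈ Finset.range (3 ^ (n' + 1)), (g ^ j) y = 1 := by
    have e := hpow (3 ^ n')
    rw [hfix n' a ha'] at e
    have e2 : ∀ j, (g ^ (3 ^ n' + j)) y = (g ^ j) y := fun j => by
      rw [add_comm, pow_add, AlgEquiv.mul_apply, hfix n' y hy']
    rw [pow_succ, show 3 ^ n' * 3 = 3 ^ n' + (3 ^ n' + 3 ^ n') by ring, Finset.prod_range_add,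
      Finset.prod_congr rfl fun j _ => e2 j, Finset.prod_range_add,
      Finset.prod_congr rfl fun j _ => e2 j, ← pow_three]
    exact mul_left_cancel₀ h0 (by rw [← e, mul_one])
  obtain ⟨z, hz, hz0, e⟩ := l2_h90 (m := n + n' + 1) (by positivity) g
    (fun i => by rw [← hρ1, map_pow, ← hord, orderOf_dvd_iff_pow_eq_one])
    (s.K_mono (Nat.le_succ _) hy') hy0 hN
  refine ⟨z, hz, hz0, (gam_fix hγ hn
    (div_mem (s.K_mono (Nat.le_succ _) ha') (pow_mem hz 3))).mp ?_⟩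
  rw [← hg, map_div₀, map_pow, h, e]
  field_simp

end Cb

end Pool.Agent.P.MP_20768c_nt.Tz.Cv

end

-- part Cv.K8
section

set_option autoImplicit false

open Complex NumberField IsDedekindDomain Filter Topology
open UpperHalfPlane hiding I
open scoped ComplexConjugate Real MatrixGroups

namespace Pool.Agent.P.MP_20768c_nt.Tz.Cv

open Pool.Agent.P.MP_20768c_nt.Tz.EQ (Lt pr sp IsLat jL qN)

theorem k8_lt {F : Type} [Field F] [NumberField F] (Q : HeightOneSpectrum (𝓞 F)) :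
    1 < Ideal.absNorm Q.asIdeal := by
  have := Q.isMaximal
  obtain ⟨p, n, hn, -, hp, e⟩ := Ideal.exists_prime_and_absNorm_eq_pow Q.asIdeal
  rw [e]
  exact Nat.one_lt_pow hn.ne' hp.one_lt

theorem k8_odd {F : Type} [Field F] [NumberField F] (Q : HeightOneSpectrum (𝓞 F))
    (h : ((3 : ℕ) : 𝓞 F) ∉ Q.asIdeal) : padicValNat 3 (Ideal.absNorm Q.asIdeal) = 0 := by
  have := Q.isMaximal
  obtain ⟨p, n, hn, hm, hp, e⟩ := Ideal.exists_prime_and_absNorm_eq_pow Q.asIdeal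
  refine padicValNat.eq_zero_of_not_dvd fun hd => h ?_
  rw [e] at hd
  rwa [(Nat.prime_dvd_prime_iff_eq Nat.prime_three hp).1 (Nat.prime_three.dvd_of_dvd_pow hd)]

theorem k8_rat {ι : Type} (T : Finset ι) (f : ι → ℚ) (h : ∀ i ∈ T, f i ≠ 0) :
    padicValRat 3 (∏ i ∈ T, f i) = ∑ i ∈ T, padicValRat 3 (f i) := by
  classical
  induction T using Finset.induction_on with
  | empty => simp
  | insert a T ha ih =>
    have h' : ∀ i ∈ T, f i ≠ 0 := fun i hi => h i (Finset.mem_insert_of_mem hi)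
    rw [Finset.prod_insert ha, Finset.sum_insert ha,
      padicValRat.mul (h a (Finset.mem_insert_self _ _)) (Finset.prod_ne_zero_iff.2 h'), ih h']

theorem k8_nat {ι : Type} (T : Finset ι) (f : ι → ℕ) (h : ∀ i ∈ T, f i ≠ 0) :
    padicValNat 3 (∏ i ∈ T, f i) = ∑ i ∈ T, padicValNat 3 (f i) := by
  have := k8_rat T (fun i => (f i : ℚ)) fun i hi => by exact_mod_cast h i hi
  rw [← Nat.cast_prod] at this
  simp only [padicValRat.of_nat] at this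
  exact_mod_cast this

theorem k8_EE (F : Type) [Field F] [NumberField F] {C : ℕ} (hC : C ≠ 0) :
    padicValRat 3 (EE F C) =
      (∑ Q ∈ (fin_primes F hC).toFinset, padicValNat 3 (Ideal.absNorm Q.asIdeal - 1) : ℕ) -
        (∑ Q ∈ (fin_primes F hC).toFinset, padicValNat 3 (Ideal.absNorm Q.asIdeal) : ℕ) := by
  have e : ∀ Q : HeightOneSpectrum (𝓞 F), (1 - ((Ideal.absNorm Q.asIdeal : ℕ) : ℚ)⁻¹) =
      ((Ideal.absNorm Q.asIdeal - 1 : ℕ) : ℚ) / (Ideal.absNorm Q.asIdeal : ℕ) := fun Q => by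
    have := k8_lt Q
    have h0 : ((Ideal.absNorm Q.asIdeal : ℕ) : ℚ) ≠ 0 := by exact_mod_cast (by omega)
    rw [Nat.cast_sub this.le, sub_div, div_self h0, Nat.cast_one, one_div]
  have n1 : ∀ Q : HeightOneSpectrum (𝓞 F), ((Ideal.absNorm Q.asIdeal - 1 : ℕ) : ℚ) ≠ 0 :=
    fun Q => by
      have := k8_lt Q
      exact_mod_cast (by omega)
  have n2 : ∀ Q : HeightOneSpectrum (𝓞 F), ((Ideal.absNorm Q.asIdeal : ℕ) : ℚ) ≠ 0 :=
    fun Q => by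
      have := k8_lt Q
      exact_mod_cast (by omega)
  rw [EE, finprod_mem_eq_finite_toFinset_prod _ (fin_primes F hC),
    k8_rat _ _ fun Q _ => by rw [e]; exact div_ne_zero (n1 Q) (n2 Q), Nat.cast_sum, Nat.cast_sum,
    ← Finset.sum_sub_distrib]
  refine Finset.sum_congr rfl fun Q _ => ?_
  rw [e, padicValRat.div (n1 Q) (n2 Q), padicValRat.of_nat, padicValRat.of_nat]

theorem k8_up (E F : Type) [Field E] [NumberField E] [Field F] [NumberField F] [Algebra E F]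
    {C : ℕ} (hC : C ≠ 0) :
    ∑ Q ∈ (fin_primes E hC).toFinset, padicValNat 3 (Ideal.absNorm Q.asIdeal - 1) ≤
      ∑ Q ∈ (fin_primes F hC).toFinset, padicValNat 3 (Ideal.absNorm Q.asIdeal - 1) := by
  classical
  have h : ∀ P : HeightOneSpectrum (𝓞 E), ∃ Q : HeightOneSpectrum (𝓞 F),
      Q.asIdeal.LiesOver P.asIdeal := fun P => by
    have := P.isMaximal
    obtain ⟨Q, hQ, h⟩ := Ideal.exists_maximal_ideal_liesOver_of_isIntegral (S := 𝓞 F) P.asIdeal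
    exact ⟨⟨Q, hQ.isPrime, Ideal.ne_bot_of_liesOver_of_ne_bot P.ne_bot Q⟩, h⟩
  choose g hg using h
  have inj : Function.Injective g := fun P P' e => HeightOneSpectrum.ext
    ((hg P).over.trans (e ▸ (hg P').over.symm))
  refine (Finset.sum_le_sum (g := fun P => padicValNat 3 (Ideal.absNorm (g P).asIdeal - 1))
    fun P _ => ?_).trans ?_
  · have := hg P
    have h1 := k8_lt (g P)
    refine (padicValNat_dvd_iff_le (by omega)).1 (pow_padicValNat_dvd.trans ?_)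
    rw [Ideal.absNorm_eq_pow_inertiaDeg'_of_liesOver (g P).asIdeal P.asIdeal P.isPrime P.ne_bot]
    exact Nat.sub_one_dvd_pow_sub_one _ _
  · rw [← Finset.sum_image (f := fun Q : HeightOneSpectrum (𝓞 F) =>
      padicValNat 3 (Ideal.absNorm Q.asIdeal - 1)) fun P _ P' _ e => inj e]
    refine Finset.sum_le_sum_of_subset fun Q hQ => ?_
    obtain ⟨P, hP, rfl⟩ := Finset.mem_image.1 hQ
    have := hg P
    have h2 := (Ideal.mem_of_liesOver (g P).asIdeal P.asIdeal _).1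
      ((fin_primes E hC).mem_toFinset.1 hP)
    rw [map_natCast] at h2
    exact (fin_primes F hC).mem_toFinset.2 h2

namespace Cb

variable (s : Cb) {n C : ℕ}

theorem w_val (hn : 1 ≤ n) : padicValNat 3 (Units.torsionOrder (s.K n)) = n := by
  have w0 := Units.torsionOrder_ne_zero (s.K n)
  have hz : IsPrimitiveRoot (⟨zt n, s.zt_mem n⟩ : s.K n) (3 ^ n) :=
    IsPrimitiveRoot.coe_submonoidClass_iff.1 (zt_prim n)
  refine le_antisymm (Nat.lt_succ_iff.1 (not_le.1 fun h => ?_))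
    ((padicValNat_dvd_iff_le w0).1 (Units.dvd_torsionOrder_of_isPrimitiveRoot hz))
  obtain ⟨d, hd⟩ := (padicValNat_dvd_iff_le w0).2 h
  obtain ⟨μ, hμ⟩ : ∃ μ : Units.torsion (s.K n), orderOf μ = Units.torsionOrder (s.K n) :=
    IsCyclic.exists_ofOrder_eq_natCard
  rw [← IsPrimitiveRoot.iff_orderOf, ← IsPrimitiveRoot.coe_submonoidClass_iff,
    ← IsPrimitiveRoot.coe_units_iff] at hμ
  have h1 := IsPrimitiveRoot.coe_submonoidClass_iff.2
    ((hμ.map_of_injective (FaithfulSMul.algebraMap_injective (𝓞 (s.K n)) (s.K n))).pow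
      (Nat.pos_of_ne_zero w0) (hd.trans (mul_comm _ _)))
  obtain ⟨b, hb⟩ := tors_K hn (Subtype.property _) h1.pow_eq_one
  have h2 := h1.dvd_of_pow_eq_one (3 ^ n) (by
    rw [hb, ← pow_mul, mul_comm, pow_mul, zt_pow, one_pow])
  exact absurd ((Nat.pow_dvd_pow_iff_le_right (by norm_num)).1 h2) (Nat.not_succ_le_self n)

theorem three_norm (hn : 1 ≤ n) :
    ∏ᶠ Q ∈ {Q : HeightOneSpectrum (𝓞 (s.K n)) | ((3 : ℕ) : 𝓞 (s.K n)) ∈ Q.asIdeal},
      Ideal.absNorm Q.asIdeal ∣ 3 ^ (2 * s.g) := by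
  let ζ : 𝓞 (s.K n) := ⟨⟨zt n, s.zt_mem n⟩, (isIntegral_algHom_iff
    ((s.K n).val.restrictScalars ℤ) (s.K n).val.injective).1 (zt_int n)⟩
  obtain ⟨u, hu⟩ := s.unit_of_val (s.K n) (x := (1 - zt n) ^ (2 * 3 ^ (n - 1)) / 3)
    (div_mem (pow_mem (sub_mem (one_mem _) (s.zt_mem n)) _) (ofNat_mem _ 3)) fun V => by
      have := v_one_sub V.valuation hn (b := 1) (by norm_num)
      rw [pow_one] at this
      rw [map_div₀, map_pow, this, div_self ((map_ne_zero _).2 three_ne_zero)]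
  have e : (1 - ζ) ^ (2 * 3 ^ (n - 1)) = u * (3 : ℕ) := by
    refine RingOfIntegers.ext (Subtype.ext ?_)
    have e1 : (((((1 - ζ) ^ (2 * 3 ^ (n - 1)) : 𝓞 (s.K n)) : s.K n)) : ℂ) =
        (1 - zt n) ^ (2 * 3 ^ (n - 1)) := by
      simp [ζ]
    have e2 : ((((u * (3 : ℕ) : 𝓞 (s.K n)) : s.K n)) : ℂ) = (((u : 𝓞 (s.K n)) : s.K n) : ℂ) * 3 := by
      rw [RingOfIntegers.coe_eq_algebraMap, map_mul, map_natCast]
      rfl
    rw [e1, e2, hu, div_mul_cancel₀ _ three_ne_zero]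
  have e3 : Ideal.absNorm (Ideal.span {1 - ζ}) = 3 ^ (2 * s.g) := by
    refine Nat.pow_left_injective (n := 2 * 3 ^ (n - 1)) (by positivity) ?_
    simp only
    rw [← map_pow, Ideal.span_singleton_pow, e, Ideal.span_singleton_mul_left_unit u.isUnit,
      Ideal.absNorm_span_natCast, RingOfIntegers.rank, s.finrank_K' hn, ← pow_mul]
    congr 1
    ring
  rw [finprod_mem_eq_finite_toFinset_prod _ (fin_primes (s.K n) three_ne_zero), ← e3, ← map_prod]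
  refine map_dvd _ (Finset.prod_dvd_of_coprime
    (fun P _ Q _ h => HeightOneSpectrum.isCoprime_of_ne P Q h) fun Q hQ => ?_)
  rw [Ideal.dvd_span_singleton]
  refine Q.isPrime.mem_of_pow_mem (2 * 3 ^ (n - 1)) ?_
  rw [e]
  exact Q.asIdeal.mul_mem_left _ ((fin_primes (s.K n) three_ne_zero).mem_toFinset.1 hQ)

theorem EE_val (hn : 2 ≤ n) (hC : C ≠ 0) :
    padicValRat 3 (EE (s.K (n - 1)) C) ≤ padicValRat 3 (EE (s.K n) C) + 2 * s.g := by
  classical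
  let _ : Algebra (s.K (n - 1)) (s.K n) :=
    (IntermediateField.inclusion (s.K_mono (Nat.sub_le n 1))).toRingHom.toAlgebra
  have h1 := k8_up (s.K (n - 1)) (s.K n) hC
  have h2 := s.three_norm (n := n) (by omega)
  rw [finprod_mem_eq_finite_toFinset_prod _ (fin_primes (s.K n) three_ne_zero)] at h2
  have h3 := (padicValNat_dvd_iff_le (p := 3) (by norm_num)).1 (pow_padicValNat_dvd.trans h2)
  rw [padicValNat.prime_pow, k8_nat _ _ fun Q _ => by have := k8_lt Q; omega] at h3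
  have h4 : ∑ Q ∈ (fin_primes (s.K n) hC).toFinset, padicValNat 3 (Ideal.absNorm Q.asIdeal) ≤
      ∑ Q ∈ (fin_primes (s.K n) three_ne_zero).toFinset,
        padicValNat 3 (Ideal.absNorm Q.asIdeal) :=
    Finset.sum_le_sum_of_ne_zero fun Q _ h => (fin_primes (s.K n) three_ne_zero).mem_toFinset.2
      (by_contra fun h' => h (k8_odd Q h'))
  rw [k8_EE _ hC, k8_EE _ hC]
  omega

end Cb

end Pool.Agent.P.MP_20768c_nt.Tz.Cv

end
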