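import Pool.Agent.P.MP_20768c_nt.Tz.Z3
import Pool.Agent.P.MP_20768c_nt.Tz.Z6
import Pool.Agent.P.MP_20768c_nt.Tz.Z7
import Pool.Agent.P.MP_20768c_nt.Tz.Z8
import Pool.Agent.P.MP_20768c_nt.Tz.Z11
import Pool.Agent.P.MP_20768c_nt.Tz.Z12

-- part Cv.M5_p
section

set_option autoImplicit false

open Complex NumberField IsDedekindDomain Filter Topology
open UpperHalfPlane hiding I
open scoped ComplexConjugate Real MatrixGroups

namespace Pool.Agent.P.MP_20768c_nt.Tz.Cv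

open Pool.Agent.P.MP_20768c_nt.Tz.EQ (Lt pr sp IsLat jL qN)

section
variable {k Ω : Type} [Field k] [Field Ω] [Algebra k Ω] {H : Subgroup (Ω ≃ₐ[k] Ω)}

theorem m5p_eig (hf : ∀ g ∈ H, ∀ x : Ω, x ^ 3 = 1 → g x = x) (ψ : H →* Ωˣ)
    (h3 : ∀ g, ψ g ^ 3 = 1) {g0 : H}
    (h0 : ψ g0 ≠ 1) {r : Ω} (hr : ∀ g : H, ψ g = 1 → g.1 r = r)
    (he : g0.1 r = ψ g0 * r) (g : H) : g.1 r = ψ g * r := by
  have hp : IsPrimitiveRoot (ψ g0) 3 :=
    have : Fact (Nat.Prime 3) := ⟨Nat.prime_three⟩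
    orderOf_eq_prime (h3 g0) h0 ▸ IsPrimitiveRoot.orderOf _
  have hv : ∀ g, (ψ g : Ω) ^ 3 = 1 := fun g => by
    rw [← Units.val_pow_eq_pow_val, h3, Units.val_one]
  obtain ⟨i, -, hi⟩ := (IsPrimitiveRoot.coe_units_iff.2 hp).eq_pow_of_pow_eq_one (hv g)
  have hf : g0.1 (ψ g0 : Ω) = ψ g0 := hf g0.1 g0.2 _ (hv g0)
  have h1 : ∀ j : ℕ, (g0 ^ j).1 r = (ψ g0 : Ω) ^ j * r := fun j => by
    induction j with
    | zero => simp
    | succ j ih =>
      rw [pow_succ' g0, Subgroup.coe_mul, AlgEquiv.mul_apply, ih, map_mul, map_pow, hf, he]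
      ring
  have h2 := hr ((g0 ^ i)⁻¹ * g) (by
    rw [map_mul, map_inv, map_pow, inv_mul_eq_one]
    exact Units.ext (by rw [Units.val_pow_eq_pow_val, hi]))
  have h4 := congrArg (g0 ^ i).1 h2
  rw [← AlgEquiv.mul_apply, ← Subgroup.coe_mul, mul_inv_cancel_left] at h4
  rw [h4, h1, hi]

theorem m5p_kum [IsGalois k Ω] (hH : IsClosed (H : Set (Ω ≃ₐ[k] Ω)))
    (hf : ∀ g ∈ H, ∀ x : Ω, x ^ 3 = 1 → g x = x) (ψ : H →* Ωˣ) (hψ : IsLocallyConstant ψ)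
    (h3 : ∀ g, ψ g ^ 3 = 1) :
    ∃ r : Ω, r ≠ 0 ∧ ∀ g : H, g.1 r = (ψ g : Ω) * r := by
  by_cases h1 : ∀ g, ψ g = 1
  · exact ⟨1, one_ne_zero, fun g => by rw [h1, map_one]; simp⟩
  obtain ⟨g0, hg0⟩ := not_forall.1 h1
  have hcl : IsClosed ((ψ.ker.map H.subtype : Subgroup (Ω ≃ₐ[k] Ω)) : Set (Ω ≃ₐ[k] Ω)) :=
    hH.isClosedEmbedding_subtypeVal.isClosedMap _ (hψ.isClosed_fiber 1)
  have hmem : ∀ g : H, g.1 ∈ ψ.ker.map H.subtype ↔ ψ g = 1 := fun g =>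
    Subgroup.mem_map_iff_mem H.subtype_injective
  have h2 := InfiniteGalois.fixingSubgroup_fixedField (k := k) (K := Ω)
    ⟨ψ.ker.map H.subtype, hcl⟩
  obtain ⟨y, hy, hy'⟩ : ∃ y, (∀ g : H, ψ g = 1 → g.1 y = y) ∧ g0.1 y ≠ y := by
    by_contra hcon
    apply hg0
    rw [← hmem]
    refine h2.le ?_
    rw [IntermediateField.mem_fixingSubgroup_iff]
    intro y hy
    by_contra hne
    rw [IntermediateField.mem_fixedField_iff] at hy
    exact hcon ⟨y, fun g hg => hy g.1 ((hmem g).2 hg), hne⟩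
  have step : ∀ z, (∀ g : H, ψ g = 1 → g.1 z = z) →
      ∀ g : H, ψ g = 1 → g.1 (g0.1 z) = g0.1 z := fun z hz g h => by
    have e1 := hz (g0⁻¹ * (g * g0)) (by rw [map_mul, map_mul, map_inv, h, one_mul, inv_mul_cancel])
    have e2 := congrArg g0.1 e1
    rwa [← AlgEquiv.mul_apply, ← Subgroup.coe_mul, mul_inv_cancel_left] at e2
  have hy1 := step y hy
  have hy2 := step _ hy1
  have hy3 : g0.1 (g0.1 (g0.1 y)) = y :=
    hy (g0 * (g0 * g0)) (by rw [map_mul, map_mul, ← pow_three, h3])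
  have hw3 : (ψ g0 : Ω) ^ 3 = 1 := by
    rw [← Units.val_pow_eq_pow_val, h3, Units.val_one]
  have hw1 : (ψ g0 : Ω) ≠ 1 := fun e => hg0 (Units.ext e)
  have hw0 : (ψ g0 : Ω) ≠ 0 := Units.ne_zero _
  have hwf : ∀ g : H, g.1 (ψ g0 : Ω) = ψ g0 := fun g =>
    hf g.1 g.2 _ hw3
  generalize hw : (ψ g0 : Ω) = w at hw3 hw1 hw0 hwf
  by_cases hr : y + w ^ 2 * g0.1 y + w * g0.1 (g0.1 y) = 0
  · refine ⟨(y + w * g0.1 y + w ^ 2 * g0.1 (g0.1 y)) ^ 2, pow_ne_zero _ fun e => hy' ?_,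
      m5p_eig hf ψ h3 hg0 (fun g hg => ?_) ?_⟩
    · have e1 : w * (w - 1) * (g0.1 y - g0.1 (g0.1 y)) = 0 := by linear_combination hr - e
      have e2 := (mul_eq_zero.1 e1).resolve_left (mul_ne_zero hw0 (sub_ne_zero.2 hw1))
      exact (g0.1.injective (sub_eq_zero.1 e2)).symm
    · simp only [map_pow, map_add, map_mul, hwf, hy g hg, hy1 g hg, hy2 g hg]
    · simp only [map_pow, map_add, map_mul, hwf, hy3, hw]
      have e1 : g0.1 y + w * g0.1 (g0.1 y) + w ^ 2 * y =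
          w ^ 2 * (y + w * g0.1 y + w ^ 2 * g0.1 (g0.1 y)) := by
        linear_combination (-g0.1 y - w * g0.1 (g0.1 y)) * hw3
      rw [e1]
      linear_combination (w * (y + w * g0.1 y + w ^ 2 * g0.1 (g0.1 y)) ^ 2) * hw3
  · refine ⟨_, hr, m5p_eig hf ψ h3 hg0 (fun g hg => ?_) ?_⟩
    · simp only [map_pow, map_add, map_mul, hwf, hy g hg, hy1 g hg, hy2 g hg]
    · simp only [map_pow, map_add, map_mul, hwf, hy3, hw]
      linear_combination (-g0.1 y) * hw3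

end

variable {K : Type} [Field K] [NumberField K] {s : Cb} {e : AlgebraicClosure K →+* ℂ}
  {N : Set (AlgebraicClosure K)}

theorem m5p_algQ (K : Type) [Field K] [NumberField K] :
    Algebra.IsAlgebraic ℚ (AlgebraicClosure K) :=
  Algebra.IsAlgebraic.trans ℚ K (AlgebraicClosure K)

theorem m5p_gal (K : Type) [Field K] [NumberField K] : IsGalois ℚ (AlgebraicClosure K) :=
  have : IsAlgClosure ℚ (AlgebraicClosure K) := ⟨inferInstance, m5p_algQ K⟩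
  inferInstance

theorem m5p_alg (e : AlgebraicClosure K →+* ℂ) (x : AlgebraicClosure K) : IsAlgebraic ℚ (e x) :=
  ((m5p_algQ K).isAlgebraic x).algHom e.toRatAlgHom

theorem m5p_lc (x : AlgebraicClosure K) : IsLocallyConstant fun g : GQ K => g x := by
  have := m5p_algQ K
  refine (IsLocallyConstant.iff_exists_open _).2 fun g => ?_
  refine ⟨(fun h => g⁻¹ * h) ⁻¹' (MulAction.stabilizer (GQ K) x : Set (GQ K)),
    (stabilizer_isOpen_of_isIntegral x).preimage (by fun_prop), by simp, fun h hh => ?_⟩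
  have h1 : (g⁻¹ * h) x = x := hh
  rw [AlgEquiv.mul_apply, AlgEquiv.aut_inv, AlgEquiv.symm_apply_eq] at h1
  exact h1

theorem m5p_cl (x : AlgebraicClosure K) (P : AlgebraicClosure K → Prop) :
    IsClosed {g : GQ K | P (g x)} :=
  ⟨m5p_lc x {y | ¬ P y}⟩

theorem pull {s : St} (he : ∀ y : ℂ, IsAlgebraic ℚ y → ∃ x, e x = y) (σ : s.Au) :
    ∃ g : GQ K, ∀ x, e (g x) = σ (e x) := by
  have := m5p_algQ K
  choose f hf using fun x => he (σ (e x)) (s.au_alg σ (m5p_alg e x))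
  let φ : AlgebraicClosure K →+* AlgebraicClosure K :=
    { toFun := f
      map_one' := e.injective (by rw [hf, map_one, map_one])
      map_mul' := fun x y => e.injective (by rw [hf, map_mul, map_mul, map_mul, hf, hf])
      map_zero' := e.injective (by rw [hf, map_zero, map_zero])
      map_add' := fun x y => e.injective (by rw [hf, map_add, map_add, map_add, hf, hf]) }
  exact ⟨AlgEquiv.ofBijective φ.toRatAlgHom (Algebra.IsAlgebraic.algHom_bijective _), hf⟩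

theorem push {s : St} (he : ∀ y : ℂ, IsAlgebraic ℚ y → ∃ x, e x = y) {g : GQ K}
    (h : ∀ x, e x ∈ s.k → g x = x) : ∃ σ : s.Au, ∀ x, e (g x) = σ (e x) := by
  have ha := m5p_algQ K
  have hc : Cardinal.mk (AlgebraicClosure K) ≤ Cardinal.aleph0 :=
    (Algebra.IsAlgebraic.cardinalMk_le_max ℚ (AlgebraicClosure K)).trans (by simp)
  obtain ⟨σ, hσ⟩ := Pool.Agent.P.MP_20768c_nt.Tz.EQ.aut_ring hc e (e.comp g.toRingEquiv.toRingHom) e.injective
    (RingHom.injective _)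
  refine ⟨AlgEquiv.ofRingEquiv (f := σ) fun y => ?_, fun x => (hσ x).symm⟩
  obtain ⟨x, hx⟩ := he _ (s.alg_of_mem ⊥ ((⊥ : IntermediateField s.k ℂ).algebraMap_mem y))
  have hy : e x ∈ s.k := hx ▸ y.2
  rw [← hx, hσ]
  exact congrArg e (h x hy)

theorem fixed_Hq (h1 : ∀ x ∈ N, e x ∈ s.K 1) (h2 : ∀ x, e x ∈ s.k → x ∈ N)
    (h3 : ∀ σ : s.Au, (∀ x ∈ N, σ (e x) = e x) → σ (zt 1) = zt 1 → ∀ y ∈ s.N, σ y = y)
    (he : ∀ y : ℂ, IsAlgebraic ℚ y → ∃ x, e x = y) {x : AlgebraicClosure K} :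
    (∀ g ∈ Hq N, g x = x) ↔ ∃ n, e x ∈ s.K n := by
  constructor
  · intro h
    have := m5p_gal K
    let T : IntermediateField ℚ (AlgebraicClosure K) :=
      { carrier := {y | ∃ n, e y ∈ s.K n}
        mul_mem' := by
          rintro a b ⟨n, ha⟩ ⟨m, hb⟩
          refine ⟨max n m, ?_⟩
          rw [map_mul]
          exact mul_mem (s.K_mono (le_max_left _ _) ha) (s.K_mono (le_max_right _ _) hb)
        add_mem' := by
          rintro a b ⟨n, ha⟩ ⟨m, hb⟩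
          refine ⟨max n m, ?_⟩
          rw [map_add]
          exact add_mem (s.K_mono (le_max_left _ _) ha) (s.K_mono (le_max_right _ _) hb)
        algebraMap_mem' := fun y => ⟨0, by
          rw [eq_ratCast, map_ratCast]
          exact SubfieldClass.ratCast_mem _ y⟩
        inv_mem' := by
          rintro a ⟨n, ha⟩
          refine ⟨n, ?_⟩
          rw [map_inv₀]
          exact inv_mem ha }
    have hT : x ∈ T := by
      rw [← InfiniteGalois.fixedField_fixingSubgroup T, IntermediateField.mem_fixedField_iff]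
      intro g hg
      rw [IntermediateField.mem_fixingSubgroup_iff] at hg
      refine h g ⟨fun y hy => hg y ⟨1, h1 y hy⟩, fun y n hy => hg y ⟨n, ?_⟩⟩
      obtain ⟨a, ha⟩ := root_zt (n := n) (x := e y) (by rw [← map_pow, hy, map_one])
      rw [ha]
      exact pow_mem (s.zt_mem n) a
    exact hT
  · rintro ⟨n, hn⟩ g hg
    obtain ⟨σ, hσ⟩ := push he fun y hy => hg.1 y (h2 y hy)
    have hz : ∀ m, σ (zt m) = zt m := fun m => by
      obtain ⟨z, hz⟩ := he (zt m) (zt_alg m)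
      rw [← hz, ← hσ, hg.2 z m (e.injective (by rw [map_pow, hz, zt_pow, map_one]))]
    apply e.injective
    rw [hσ]
    exact Cb.fix_K.2 ⟨h3 σ (fun y hy => by rw [← hσ, hg.1 y hy]) (hz 1), hz n⟩ _ hn

theorem kummerQ (ψ : Hq N →* (AlgebraicClosure K)ˣ) (T : Finset (AlgebraicClosure K))
    (hψ : ∀ g : Hq N, (∀ x ∈ T, g.1 x = x) → ψ g = 1) (h3 : ∀ g, ψ g ^ 3 = 1) :
    ∃ r : AlgebraicClosure K, r ≠ 0 ∧ ∀ g : Hq N, g.1 r = (ψ g : AlgebraicClosure K) * r := by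
  have := m5p_gal K
  have h : (Hq N : Set (GQ K)) = (⋂ x ∈ N, {g : GQ K | g x = x}) ∩
      ⋂ x, ⋂ n : ℕ, ⋂ _ : x ^ 3 ^ n = 1, {g : GQ K | g x = x} := by
    ext g
    simp only [Set.mem_inter_iff, Set.mem_iInter]
    rfl
  refine m5p_kum (H := Hq N) (h ▸ (isClosed_biInter fun x _ => m5p_cl x (· = x)).inter
    (isClosed_iInter fun x => isClosed_iInter fun _ => isClosed_iInter fun _ => m5p_cl x (· = x)))
    (fun g hg x hx => hg.2 x 1 hx) ψ ((IsLocallyConstant.iff_exists_open _).2 fun g => ?_) h3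
  refine ⟨⋂ x ∈ T, Subtype.val ⁻¹' {h : GQ K | h x = g.1 x}, isOpen_biInter_finset fun x _ =>
    (m5p_lc x {g.1 x}).preimage continuous_subtype_val, by simp, fun h hh => ?_⟩
  have e1 := hψ (g⁻¹ * h) fun x hx => by
    have e2 : h.1 x = g.1 x := Set.mem_iInter₂.1 hh x hx
    rw [Subgroup.coe_mul, AlgEquiv.mul_apply, e2, ← AlgEquiv.mul_apply, ← Subgroup.coe_mul,
      inv_mul_cancel]
    rfl
  rw [map_mul, map_inv, inv_mul_eq_one] at e1
  exact e1.symm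

end Pool.Agent.P.MP_20768c_nt.Tz.Cv

end

-- part Cv.B4
section

set_option autoImplicit false

open Complex NumberField IsDedekindDomain Filter Topology
open UpperHalfPlane hiding I
open scoped ComplexConjugate Real MatrixGroups

namespace Pool.Agent.P.MP_20768c_nt.Tz.Cv

open Pool.Agent.P.MP_20768c_nt.Tz.EQ (Lt pr sp IsLat jL qN)

/-- The two differences of the level three parametrisation. -/
theorem b4_step {F Γ : Type} [Field F] [LinearOrderedCommGroupWithZero Γ] (v : Valuation F Γ)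
    (h3 : v 3 < 1) {g h j k j' k' : F} (hg : v g = 1) (hh : v h = 1)
    (e1 : j * g = (g + 27) * (g + 3) ^ 3) (e2 : k * h = (h + 27) * (h + 3) ^ 3)
    (e3 : j' * g ^ 3 = (g + 27) * (g + 243) ^ 3) (e4 : k' * h ^ 3 = (h + 27) * (h + 243) ^ 3) :
    v (j - k) ≤ v (j' - k') * max (v 3) (v (j' - k')) := by
  have a1 : (j' - k') * (g * h) ^ 3 = (g - h) * ((g * h) ^ 3 - 3 * (65610 * (g * h) ^ 2 +
      (6377292 * (g * h * (g + h)) + 129140163 * ((g + h) ^ 2 - g * h)))) := by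
    linear_combination h ^ 3 * e3 - g ^ 3 * e4
  have a2 : (j - k) * (g * h) = (g - h) * ((g - h) * ((g - h) * (g * h)) +
      3 * (g * h * (g * h + (12 * (g + h) + 90)) - 243)) := by
    linear_combination h * e1 - g * e2
  have gh : v (g * h) = 1 := by rw [map_mul, hg, hh, one_mul]
  have p : v (g + h) ≤ 1 := v.map_add_le hg.le hh.le
  have b1 : v (3 * (65610 * (g * h) ^ 2 + (6377292 * (g * h * (g + h)) +
      129140163 * ((g + h) ^ 2 - g * h)))) < v ((g * h) ^ 3) := by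
    rw [map_pow, gh, one_pow]
    exact (b4p_three v (v.map_add_le (b4p_mul v (b4p_lit v 65610) (b4p_pow v gh.le 2))
      (v.map_add_le (b4p_mul v (b4p_lit v 6377292) (b4p_mul v gh.le p))
        (b4p_mul v (b4p_lit v 129140163) (v.map_sub_le (b4p_pow v p 2) gh.le))))).trans_lt h3
  have b2 : v (j' - k') = v (g - h) := by
    have := congrArg v a1
    rwa [map_mul v (j' - k'), map_mul v (g - h), v.map_sub_eq_of_lt_left b1, map_pow, gh, one_pow,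
      mul_one, mul_one] at this
  have := congrArg v a2
  rw [map_mul v (j - k), gh, mul_one, map_mul v (g - h)] at this
  rw [this, b2]
  refine mul_le_mul' le_rfl (v.map_add_le (le_max_of_le_right ?_) (le_max_of_le_left ?_))
  · rw [map_mul]
    exact mul_le_of_le_one_right' (b4p_mul v (v.map_sub_le hg.le hh.le) gh.le)
  · exact b4p_three v (v.map_sub_le (b4p_mul v gh.le (v.map_add_le gh.le (v.map_add_le
      (b4p_mul v (b4p_lit v 12) p) (b4p_lit v 90)))) (b4p_lit v 243))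

namespace St

variable (s : St) {Γ : Type} [LinearOrderedCommGroupWithZero Γ] (v : Valuation ℂ Γ)
  {L M : s.Sub} {U r z y : ℂ}

theorem b4_mem {x : ℂ} (hx : x ≠ 0) : z ∈ pr x⁻¹ * s.zl L ↔ x * z ∈ L := by
  have := mul_mem_sc (L := s.zl L) (z := x * z) (inv_ne_zero hx)
  rwa [inv_mul_cancel_left₀ hx] at this

theorem b4_le {β : s.O} (h : s.c β ≠ 0) : s.zl L ≤ pr (s.c β)⁻¹ * s.zl L :=
  fun _ hy => (s.b4_mem h).2 (s.c_mul_mem β hy)

theorem E1_mul (hL : IsUnit L) (hG : Good v (s.zl L) U r) (β : s.O) (hz : E1 v (s.zl L) U r z) :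
    E1 v (s.zl L) U r (s.c β * z) := by
  by_cases h : s.c β = 0
  · rw [h, zero_mul]
    exact Or.inl (zero_mem _)
  have h0 := inv_ne_zero h
  have := iso_E1 (s.isLat_zl hL) ((s.isLat_zl hL).pr_mul h0) (s.b4_le h) hG (good_sc h0 hG) hz
  rw [← E1_sc h0, inv_mul_cancel_left₀ h]
  exact this

theorem b4_prod (hL : IsUnit L) (hG : Good v (s.zl L) U r) {β : s.O} (h : s.c β ≠ 0) :
    ∃ R, Reps (s.zl L) (pr (s.c β)⁻¹ * s.zl L) R ∧
      v (s.c β) ^ 2 * ∏ t ∈ R.erase 0, max 1 (v (xm (s.zl L) U r t)) = 1 := by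
  have h0 := inv_ne_zero h
  have l1 := s.isLat_zl hL
  obtain ⟨R, hR⟩ := exists_reps l1 (l1.pr_mul h0) (s.b4_le h)
  have := iso_val l1 (l1.pr_mul h0) hR hG (good_sc h0 hG)
  rw [inv_pow, div_inv_eq_mul, map_mul, map_pow, mul_assoc] at this
  exact ⟨R, hR, mul_left_cancel₀ ((v.ne_zero_iff).2 hG.1) (this.trans (mul_one _).symm)⟩

theorem E1_kill (hL : IsUnit L) (hG : Good v (s.zl L) U r) {β : s.O} (hβ : v (s.c β) = 1)
    (hz : E1 v (s.zl L) U r z) (h : s.c β * z ∈ L) : z ∈ L := by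
  have h0 : s.c β ≠ 0 := fun e => by simp [e] at hβ
  obtain ⟨R, hR, e⟩ := s.b4_prod v hL hG h0
  rw [hβ, one_pow, one_mul] at e
  obtain ⟨t, ⟨ht, ht'⟩, -⟩ := hR.2.2.2 z ((s.b4_mem h0).2 h)
  by_cases t0 : t = 0
  · rwa [t0, sub_zero] at ht'
  rcases (E1_congr (s.isLat_zl hL) ht').1 hz with h1 | h1
  · exact (t0 (hR.sub_mem ht hR.2.1 (by rwa [sub_zero]))).elim
  · have := Finset.single_le_prod' (f := fun t => max 1 (v (xm (s.zl L) U r t)))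
      (s := R.erase 0) (fun _ _ => le_max_left _ _) (Finset.mem_erase.2 ⟨t0, ht⟩)
    rw [e] at this
    exact absurd (h1.trans_le ((le_max_right _ _).trans this)) (lt_irrefl _)

theorem b4_down (hL : IsUnit L) (hG : Good v (s.zl L) U r) {q : Ideal s.O} (h0 : q ≠ ⊥) (j : ℕ) :
    ∀ t : ℂ, (∀ β ∈ q ^ j, s.c β * t ∈ L) → t ∉ L → E1 v (s.zl L) U r t →
      ∃ t₀, t₀ ∈ L * s.inv q ∧ t₀ ∉ L ∧ E1 v (s.zl L) U r t₀ := by
  induction j with
  | zero =>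
    intro t h1 h2 _
    have := h1 1 (by simp)
    rw [s.c_one, one_mul] at this
    exact (h2 this).elim
  | succ j ih =>
    intro t h1 h2 h3
    by_cases h : ∀ β ∈ q, s.c β * t ∈ L
    · exact ⟨t, (s.mem_mul_inv h0).2 h, h2, h3⟩
    push Not at h
    obtain ⟨γ, hγ, h⟩ := h
    refine ih _ (fun β hβ => ?_) h (s.E1_mul v hL hG γ h3)
    rw [← mul_assoc, ← s.c_mul]
    exact h1 _ (pow_succ q j ▸ Ideal.mul_mem_mul hβ hγ)

theorem E1_prime (hL : IsUnit L) (hG : Good v (s.zl L) U r) {q : Ideal s.O} (hq : q.IsPrime)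
    (h0 : q ≠ ⊥) (hv : ∀ x ∈ q, v (s.c x) < 1) (hz : z ∈ L * s.inv q) : E1 v (s.zl L) U r z := by
  obtain ⟨n, hn, hp⟩ := s.exists_pow
  obtain ⟨x, hx, e⟩ := hp _ (s.isUnit_idl h0)
  rw [← s.idl_pow] at e
  obtain ⟨α, hα, rfl⟩ := s.mem_idl.1 (e ▸ s.mem_sc x : x ∈ s.idl (q ^ n))
  obtain ⟨R, hR, e'⟩ := s.b4_prod v hL hG hx
  have h1 : v (s.c α) < 1 := hv α (Ideal.pow_le_self hn.ne' hα)
  obtain ⟨t, ht, h2⟩ : ∃ t ∈ R.erase 0, 1 < v (xm (s.zl L) U r t) := by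
    by_contra h
    push Not at h
    rw [Finset.prod_eq_one fun t ht => max_eq_left (h t ht), mul_one] at e'
    exact absurd e' (pow_lt_one₀ zero_le h1 two_ne_zero).ne
  obtain ⟨t0, ht⟩ := Finset.mem_erase.1 ht
  obtain ⟨t₀, a1, a2, a3⟩ := s.b4_down v hL hG h0 n t (fun β hβ => by
      obtain ⟨γ, hγ⟩ := Submodule.mem_span_singleton.1 (e ▸ s.c_mem_idl.2 hβ : s.c β ∈ s.sc _)
      rw [← hγ, s.smul_eq, mul_assoc]
      exact s.c_mul_mem γ ((s.b4_mem hx).1 (hR.2.2.1 t ht)))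
    (fun h => t0 (hR.sub_mem ht hR.2.1 (by rwa [sub_zero]))) (Or.inr h2)
  obtain ⟨β, hβ⟩ := s.cyc_sub hL (hq.isMaximal h0) h0 a1 a2 hz
  exact (E1_congr (s.isLat_zl hL) hβ).2 (s.E1_mul v hL hG β a3)

theorem not_E1 (hL : IsUnit L) (hG : Good v (s.zl L) U r) (hy : s.Gen3 L y) :
    ¬ E1 v (s.zl L) U r y := by
  intro h
  obtain ⟨h1, h2, h3⟩ := hy
  obtain ⟨m, hm⟩ := s.m_eq
  have c3 : s.c 3 = 3 := by exact_mod_cast s.c_nat 3
  have e3 : s.c s.w * (s.c s.wb * y) ∈ L := by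
    rw [← mul_assoc, ← s.c_mul, s.w_mul_wb, hm, mul_comm (3 : s.O), s.c_mul, c3, mul_assoc]
    exact s.c_mul_mem _ h1
  rcases (s.v_c v s.w).eq_or_lt with hw | hw
  · exact h3 (s.E1_kill v hL hG hw (s.E1_mul v hL hG s.wb h) e3)
  rcases (b4p_lit v 3).eq_or_lt with k3 | k3
  · exact h2 (s.c_mul_mem _ (s.E1_kill v hL hG (β := 3) (c3 ▸ k3) h (c3 ▸ h1)))
  refine h2 (s.E1_kill v hL hG (β := s.wb) ?_ (s.E1_mul v hL hG s.w h) (by rwa [mul_left_comm]))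
  obtain ⟨a, ha⟩ := s.t_eq
  rw [s.c_wb, ha, show ((3 * a + 1 : ℤ) : ℂ) - s.c s.w = 1 + (3 * s.c a - s.c s.w) by
    rw [s.c_int]; push_cast; ring]
  exact v.map_one_add_of_lt (v.map_sub_lt ((b4p_three v (s.v_c v a)).trans_lt k3) hw)

theorem b4_mb2 : v (mb2 (-1 / 12)) = 1 := by
  rw [show mb2 (-1 / 12) = 1 by rw [mb2]; norm_num, map_one]

theorem et_p2 (hL : IsUnit L) (h : y ∈ L * s.inv s.p2) (k : y ∉ L) :
    Et s.v (s.zl L) y (UU (s.zl L)) := by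
  have hG := s.good_three s.v s.v_three hL
  exact flex_et (s.isLat_zl hL) hG s.v_three (b4_mb2 s.v) (s.mem_inv_p2.1 h).1
    fun e => k (s.E1_kill s.v hL hG s.v_wb e (s.mem_inv_p2.1 h).2)

theorem E1_p1 (hL : IsUnit L) (h : y ∈ L * s.inv s.p1) :
    E1 s.v (s.zl L) (UU (s.zl L)) (-1 / 12) y :=
  s.E1_prime s.v hL (s.good_three s.v s.v_three hL) s.p1_max.isPrime s.p1_ne
    (fun x hx => (s.mem_p1 x).1 hx) h

theorem ca_p1 (hL : IsUnit L) (h : y ∈ L * s.inv s.p1) (k : y ∉ L) :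
    Ca s.v (s.zl L) y (UU (s.zl L)) :=
  (flex_can (s.isLat_zl hL) (s.good_three s.v s.v_three hL) s.v_three (b4_mb2 s.v) k
    (s.mem_inv_p1.1 h).1 (s.E1_p1 hL h)).1

theorem b4_par (hL : IsUnit L) : ∃ g : ℂ, s.v g = 1 ∧ jL (s.zl L) * g = (g + 27) * (g + 3) ^ 3 ∧
    jL (s.zl (L * s.inv s.p2)) * g ^ 3 = (g + 27) * (g + 243) ^ 3 := by
  obtain ⟨t₂, h2, k2⟩ := s.exists_three hL (Or.inr rfl)
  have l1 := s.isLat_zl hL
  exact ⟨_, (s.et_p2 hL h2 k2).hp3 l1 s.v_three, hp3_one l1 k2 (s.mem_inv_p2.1 h2).1,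
    hp3_three l1 (s.three_of_mem hL (Or.inr rfl) h2 k2)⟩

theorem b4_sep (hL : IsUnit L) (hM : IsUnit M) : s.v (jL (s.zl L) - jL (s.zl M)) ≤
    s.v (jL (s.zl (L * s.inv s.p2)) - jL (s.zl (M * s.inv s.p2))) *
      max (s.v 3) (s.v (jL (s.zl (L * s.inv s.p2)) - jL (s.zl (M * s.inv s.p2)))) := by
  obtain ⟨g, a1, a2, a3⟩ := s.b4_par hL
  obtain ⟨h, b1, b2, b3⟩ := s.b4_par hM
  exact b4_step s.v s.v_three a1 b1 a2 b2 a3 b3

theorem b4_iter {D : NNReal} (hD : D < 1) (j : ℕ) : ∀ {L M : s.Sub}, IsUnit L → IsUnit M →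
    s.v (jL (s.zl (L * s.inv s.p2 ^ j)) - jL (s.zl (M * s.inv s.p2 ^ j))) ≤ D →
      s.v (jL (s.zl L) - jL (s.zl M)) ≤ D := by
  induction j with
  | zero =>
    intro L M _ _ h
    rwa [pow_zero, mul_one, mul_one] at h
  | succ j ih =>
    intro L M hL hM h
    have u := s.isUnit_inv s.p2_ne
    rw [pow_succ', ← mul_assoc, ← mul_assoc] at h
    have := ih (hL.mul u) (hM.mul u) h
    exact (s.b4_sep hL hM).trans ((mul_le_of_le_one_right'
      (max_le s.v_three.le (this.trans hD.le))).trans this)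

theorem j_sep (hL : IsUnit L) (hM : IsUnit M) (h : s.v (jL (s.zl L) - jL (s.zl M)) < 1) :
    jL (s.zl L) = jL (s.zl M) := by
  obtain ⟨n, hn, hp⟩ := s.exists_pow
  have u := s.isUnit_inv s.p2_ne
  obtain ⟨x, hx, e⟩ := hp _ u
  obtain ⟨j, rfl⟩ : ∃ j, n = j + 1 := ⟨n - 1, by omega⟩
  have e1 : ∀ L : s.Sub, IsUnit L →
      jL (s.zl (L * s.inv s.p2 * s.inv s.p2 ^ j)) = jL (s.zl L) := fun L hL => by
    rw [mul_assoc, ← pow_succ', e, mul_comm, s.zl_sc, Pool.Agent.P.MP_20768c_nt.Tz.EQ.jL_pr_mul (s.isLat_zl hL) hx]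
  have h1 := s.b4_iter h j (hL.mul u) (hM.mul u) (by rw [e1 L hL, e1 M hM])
  have h2 := (s.b4_sep hL hM).trans (mul_le_mul' h1 (max_le_max le_rfl h1))
  by_contra h3
  have h4 : 0 < s.v (jL (s.zl L) - jL (s.zl M)) := (s.v.pos_iff).2 (sub_ne_zero.2 h3)
  exact absurd (h2.trans_lt (mul_lt_of_lt_one_right h4 (max_lt s.v_three h))) (lt_irrefl _)

end St

end Pool.Agent.P.MP_20768c_nt.Tz.Cv

end

-- part Cv.D1_p
section

set_option autoImplicit false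

open Complex NumberField IsDedekindDomain Filter Topology
open UpperHalfPlane hiding I
open scoped ComplexConjugate Real MatrixGroups

namespace Pool.Agent.P.MP_20768c_nt.Tz.Cv

open Pool.Agent.P.MP_20768c_nt.Tz.EQ (Lt pr sp IsLat jL qN)

theorem d1p_mem {L L' : Lt} {R : Finset ℂ} (hR : Reps L L' R) {t : ℂ} (ht : t ∈ R.erase 0) :
    t ∈ L' ∧ t ∉ L := by
  obtain ⟨h0, h1⟩ := Finset.mem_erase.1 ht
  exact ⟨hR.2.2.1 t h1, fun h => h0 (hR.sub_mem h1 hR.2.1 (by rwa [sub_zero]))⟩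

theorem d1p_rep {L L' : Lt} {R : Finset ℂ} (hR : Reps L L' R) {t : ℂ} (ht : t ∈ L')
    (h0 : t ∉ L) : ∃ r ∈ R.erase 0, t - r ∈ L := by
  obtain ⟨r, ⟨h1, h2⟩, -⟩ := hR.2.2.2 t ht
  refine ⟨r, Finset.mem_erase.2 ⟨?_, h1⟩, h2⟩
  rintro rfl
  exact h0 (by rwa [sub_zero] at h2)

open Classical in
theorem d1p_card {L L' : Lt} {R : Finset ℂ} (h : IsLat L) (hR : Reps L L' R) (a : ℂ → ℂ)
    (ha : ∀ t u, t ∉ L → u ∉ L → (a t = a u ↔ wp L t = wp L u)) {t : ℂ} (ht : t ∈ R.erase 0) :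
    ((R.erase 0).filter fun u => a u = a t).card = if 2 * t ∈ L then 1 else 2 := by
  obtain ⟨h1, h2⟩ := d1p_mem hR ht
  obtain ⟨r, hr, h3⟩ := d1p_rep hR (neg_mem h1) (fun h' => h2 (neg_mem_iff.1 h'))
  have e : ((R.erase 0).filter fun u => a u = a t) = {t, r} := by
    ext u
    rw [Finset.mem_filter, Finset.mem_insert, Finset.mem_singleton]
    constructor
    · rintro ⟨hu, e⟩
      have h4 := (d1p_mem hR hu).2
      refine (wp_inj h h4 h2 ((ha u t h4 h2).1 e)).imp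
        (hR.sub_mem (Finset.mem_of_mem_erase hu) (Finset.mem_of_mem_erase ht)) fun h5 =>
        hR.sub_mem (Finset.mem_of_mem_erase hu) (Finset.mem_of_mem_erase hr) ?_
      rw [show u - r = u + t + (-t - r) by ring]
      exact add_mem h5 h3
    · rintro (rfl | rfl)
      · exact ⟨ht, rfl⟩
      · exact ⟨hr, (ha u t (d1p_mem hR hr).2 h2).2 ((wp_congr h h3).symm.trans (wp_neg h t))⟩
  rw [e]
  split_ifs with h4
  · have : t = r := hR.sub_mem (Finset.mem_of_mem_erase ht) (Finset.mem_of_mem_erase hr) (by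
      rw [show t - r = 2 * t + (-t - r) by ring]
      exact add_mem h4 h3)
    rw [← this, Finset.pair_eq_singleton, Finset.card_singleton]
  · refine Finset.card_pair ?_
    rintro rfl
    exact h4 (by
      rw [show 2 * t = -(-t - t) by ring]
      exact neg_mem h3)

theorem fib_sum {L L' M M' : Lt} {R R' : Finset ℂ} (h : IsLat L) (hM : IsLat M)
    (hR : Reps L L' R) (hR' : Reps M M' R') (a b : ℂ → ℂ)
    (ha : ∀ t u, t ∉ L → u ∉ L → (a t = a u ↔ wp L t = wp L u))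
    (hb : ∀ t u, t ∉ M → u ∉ M → (b t = b u ↔ wp M t = wp M u))
    (h1 : ∀ t ∈ L', t ∉ L → ∃ u ∈ M', u ∉ M ∧ b u = a t)
    (h2 : ∀ u ∈ M', u ∉ M → ∃ t ∈ L', t ∉ L ∧ b u = a t)
    (h3 : ∀ t u, t ∉ L → u ∉ M → b u = a t → (2 * t ∈ L ↔ 2 * u ∈ M)) (φ : ℂ → ℂ) :
    ∑ t ∈ R.erase 0, φ (a t) = ∑ u ∈ R'.erase 0, φ (b u) := by
  classical
  have k1 : ∀ t ∈ R.erase 0, ∃ u ∈ R'.erase 0, b u = a t := by
    intro t ht
    obtain ⟨u, u1, u2, e⟩ := h1 t (d1p_mem hR ht).1 (d1p_mem hR ht).2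
    obtain ⟨r, hr, h4⟩ := d1p_rep hR' u1 u2
    exact ⟨r, hr, ((hb u r u2 (d1p_mem hR' hr).2).2 (wp_congr hM h4)).symm.trans e⟩
  have k2 : ∀ u ∈ R'.erase 0, ∃ t ∈ R.erase 0, a t = b u := by
    intro u hu
    obtain ⟨t, t1, t2, e⟩ := h2 u (d1p_mem hR' hu).1 (d1p_mem hR' hu).2
    obtain ⟨r, hr, h4⟩ := d1p_rep hR t1 t2
    exact ⟨r, hr, ((ha t r t2 (d1p_mem hR hr).2).2 (wp_congr h h4)).symm.trans e.symm⟩
  have e : (R.erase 0).image a = (R'.erase 0).image b := by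
    ext x
    simp only [Finset.mem_image]
    constructor
    · rintro ⟨t, ht, rfl⟩
      exact k1 t ht
    · rintro ⟨u, hu, rfl⟩
      exact k2 u hu
  rw [Finset.sum_comp φ a, Finset.sum_comp φ b, ← e]
  refine Finset.sum_congr rfl fun x hx => ?_
  obtain ⟨t, ht, rfl⟩ := Finset.mem_image.1 hx
  obtain ⟨u, hu, e'⟩ := k1 t ht
  have c1 := d1p_card h hR a ha ht
  have c2 := d1p_card hM hR' b hb hu
  rw [e'] at c2
  rw [h3 t u (d1p_mem hR ht).2 (d1p_mem hR' hu).2 e'] at c1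
  exact congrArg (· • φ (a t)) (c1.trans c2.symm)

namespace St

variable (s : St) {L : s.Sub} {m : ℕ}

theorem j_eq {M : s.Sub} (hL : IsUnit L) (hM : IsUnit M) :
    jL (s.zl L) = jL (s.zl M) ↔ ∃ x : ℂ, x ≠ 0 ∧ M = s.sc x * L := by
  constructor
  · intro e
    obtain ⟨x, hx, h⟩ := Pool.Agent.P.MP_20768c_nt.Tz.EQ.jL_inj (s.isLat_zl hL) (s.isLat_zl hM) e
    rw [← s.zl_sc] at h
    exact ⟨x, hx, le_antisymm (s.zl_le.1 h.le) (s.zl_le.1 h.ge)⟩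
  · rintro ⟨x, hx, rfl⟩
    rw [s.zl_sc, Pool.Agent.P.MP_20768c_nt.Tz.EQ.jL_pr_mul (s.isLat_zl hL) hx]

theorem XX_inj (hL : IsUnit L) {z w : ℂ} (hz : z ∉ L) (hw : w ∉ L)
    (h : XX (s.zl L) z = XX (s.zl L) w) : z - w ∈ L ∨ z + w ∈ L :=
  (wp_inj (s.isLat_zl hL) (mt s.mem_zl.1 hz) (mt s.mem_zl.1 hw)
    ((div_left_inj' (s.UU_ne hL)).1 h)).imp s.mem_zl.1 s.mem_zl.1

theorem CM_finite (hm : 0 < m) : (s.CM m).Finite := by
  obtain ⟨T, hT, hT'⟩ := s.exists_fin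
  have hm0 : (m : ℂ) ≠ 0 := Nat.cast_ne_zero.2 hm.ne'
  have key : ∀ (Λ : Lt) (z : ℂ), m * z ∈ Λ → z ∈ pr (m : ℂ)⁻¹ * Λ := fun Λ z hz => by
    have := (mul_mem_sc (L := Λ) (inv_ne_zero hm0)).2 hz
    rwa [inv_mul_cancel_left₀ hm0] at this
  have hR : ∀ M : s.Sub, ∃ R : Finset ℂ, IsUnit M → Reps (s.zl M) (pr (m : ℂ)⁻¹ * s.zl M) R := by
    intro M
    by_cases hM : IsUnit M
    · obtain ⟨R, hR⟩ := exists_reps (s.isLat_zl hM) ((s.isLat_zl hM).pr_mul (inv_ne_zero hm0))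
        fun z hz => key _ z (by rw [← nsmul_eq_mul]; exact nsmul_mem hz m)
      exact ⟨R, fun _ => hR⟩
    · exact ⟨∅, fun h => absurd h hM⟩
  choose R hR using hR
  have h1 : {x : ℂ | x ^ m = 1}.Finite :=
    (Polynomial.nthRoots m (1 : ℂ)).toFinset.finite_toSet.subset fun x hx =>
      Multiset.mem_toFinset.2 ((Polynomial.mem_nthRoots hm).2 hx)
  refine (h1.union (T.finite_toSet.biUnion fun M _ =>
    ((R M).finite_toSet.image (XX (s.zl M))).insert (jL (s.zl M)))).subset ?_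
  rintro x (hx | ⟨L, hL, hx⟩)
  · exact Or.inl hx
  obtain ⟨M, hM, y, hy, rfl⟩ := hT' L hL
  have hl := s.isLat_zl (hT M hM)
  refine Or.inr (Set.mem_biUnion hM ?_)
  rcases hx with rfl | ⟨z, h2, -, rfl⟩
  · exact Or.inl (by rw [s.zl_sc, Pool.Agent.P.MP_20768c_nt.Tz.EQ.jL_pr_mul hl hy])
  · obtain ⟨z, rfl⟩ : ∃ z', z = y * z' := ⟨y⁻¹ * z, (mul_inv_cancel_left₀ hy z).symm⟩
    rw [mul_left_comm, s.mul_mem_sc' hy] at h2
    obtain ⟨r, ⟨h3, h4⟩, -⟩ := (hR M (hT M hM)).2.2.2 z (key _ z (s.mem_zl.2 h2))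
    refine Or.inr ⟨r, h3, ?_⟩
    rw [s.zl_sc, XX_sc _ hy, XX, XX, wp_congr hl h4]

end St

end Pool.Agent.P.MP_20768c_nt.Tz.Cv

end

-- part Cv.D1
section

set_option autoImplicit false

open Complex NumberField IsDedekindDomain Filter Topology
open UpperHalfPlane hiding I
open scoped ComplexConjugate Real MatrixGroups

namespace Pool.Agent.P.MP_20768c_nt.Tz.Cv

open Pool.Agent.P.MP_20768c_nt.Tz.EQ (Lt pr sp IsLat jL qN)

theorem d1_UU {L : Lt} (h2 : g2 L ≠ 0) (h3 : g3 L ≠ 0) : UU L ≠ 0 :=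
  div_ne_zero (mul_ne_zero (by norm_num) h3) h2

theorem d1_ne {L M : Lt} (h : IsLat L) (hM : IsLat M) (h2 : g2 L ≠ 0) (h3 : g3 L ≠ 0)
    (σ : ℂ →+* ℂ) (e : σ (jL L) = jL M) : g2 M ≠ 0 ∧ g3 M ≠ 0 := by
  obtain ⟨a, b⟩ := (g23_iff h).1 ⟨h2, h3⟩
  refine (g23_iff hM).2 ⟨?_, ?_⟩
  · rw [← e]
    exact (map_ne_zero σ).2 a
  · have : jL M - 1728 = σ (jL L - 1728) := by rw [map_sub, e, map_ofNat]
    rw [this]
    exact (map_ne_zero σ).2 b

theorem d1_g {L M : Lt} (h : IsLat L) (hM : IsLat M) (h2 : g2 L ≠ 0) (h3 : g3 L ≠ 0)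
    (σ : ℂ →+* ℂ) (e : σ (jL L) = jL M) :
    g2 M / UU M ^ 2 = σ (g2 L / UU L ^ 2) ∧ g3 M / UU M ^ 3 = σ (g3 L / UU L ^ 3) := by
  obtain ⟨k2, k3⟩ := d1_ne h hM h2 h3 σ e
  rw [g2_UU h h2 h3, g2_UU hM k2 k3, g3_UU h h2 h3, g3_UU hM k2 k3]
  simp only [map_neg, map_div₀, map_mul, map_sub, map_ofNat, e, and_self]

theorem d1_mk {L : Lt} {z : ℂ} :
    (QuotientAddGroup.mk z : ℂ ⧸ L.toAddSubgroup) = 0 ↔ z ∈ L :=
  QuotientAddGroup.eq_zero_iff z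

theorem d1_tr {L M : Lt} (h : IsLat L) (hM : IsLat M) (h2 : g2 L ≠ 0) (h3 : g3 L ≠ 0)
    (σ : ℂ →+* ℂ) (e : σ (jL L) = jL M) :
    (∀ z u, z ∉ L → u ∉ M → XX M u = σ (XX L z) → ∀ n : ℕ, ((n : ℂ) * z ∈ L ↔ (n : ℂ) * u ∈ M)) ∧
    ∀ z u z' u', z ∉ L → u ∉ M → z' ∉ L → u' ∉ M → XX M u = σ (XX L z) →
      XX M u' = σ (XX L z') → u + u' ∉ M →
      ∃ T, (T = z + z' ∨ T = z - z') ∧ T ∉ L ∧ XX M (u + u') = σ (XX L T) := by
  obtain ⟨k2, k3⟩ := d1_ne h hM h2 h3 σ e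
  obtain ⟨e2, e3⟩ := d1_g h hM h2 h3 σ e
  obtain ⟨X, x0, x2, x4, x6, x8, -⟩ := exists_xg h (d1_UU h2 h3) 0
  obtain ⟨Y, y0, y2, y4, y6, y8, -⟩ := exists_xg hM (d1_UU k2 k3) 0
  have x1 : ∀ z : ℂ, X.x (QuotientAddGroup.mk z) = XX L z := fun z => by
    rw [x0, xm, add_zero, XX]
  have y1 : ∀ z : ℂ, Y.x (QuotientAddGroup.mk z) = XX M z := fun z => by
    rw [y0, xm, add_zero, XX]
  have b2 : mb2 0 = σ (mb2 0) := by simp [mb2]
  have b4 : mb4 M (UU M) 0 = σ (mb4 L (UU L) 0) := by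
    rw [mb4, mb4, e2]
    simp only [map_sub, map_mul, map_pow, map_zero, map_ofNat, map_div₀]
  have b6 : mb6 M (UU M) 0 = σ (mb6 L (UU L) 0) := by
    rw [mb6, mb6, e2, e3]
    simp only [map_sub, map_add, map_neg, map_mul, map_pow, map_zero, map_ofNat]
  have b8 : mb8 M (UU M) 0 = σ (mb8 L (UU L) 0) := by
    rw [mb8, mb8, map_div₀, map_sub, map_mul, map_pow, ← b2, ← b4, ← b6, map_ofNat]
  have c2 : Y.b2 = σ X.b2 := by rw [y2, x2]; exact b2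
  have c4 : Y.b4 = σ X.b4 := by rw [y4, x4]; exact b4
  have c6 : Y.b6 = σ X.b6 := by rw [y6, x6]; exact b6
  have c8 : Y.b8 = σ X.b8 := by rw [y8, x8]; exact b8
  refine ⟨fun z u hz hu hx n => ?_, fun z u z' u' hz hu hz' hu' hx hx' hne => ?_⟩
  · have := (X.transport Y σ c2 c4 c6 c8 (P := QuotientAddGroup.mk z) (Q := QuotientAddGroup.mk u)
      (mt d1_mk.1 hz) (mt d1_mk.1 hu) (by rw [x1, y1, hx]) n).1
    rwa [← QuotientAddGroup.mk_nsmul, ← QuotientAddGroup.mk_nsmul, d1_mk, d1_mk, nsmul_eq_mul,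
      nsmul_eq_mul] at this
  · obtain ⟨T, hT, T0, hx⟩ := X.transport_add Y σ c2 c4 c6 c8 (P := QuotientAddGroup.mk z)
      (Q := QuotientAddGroup.mk u) (P' := QuotientAddGroup.mk z') (Q' := QuotientAddGroup.mk u')
      (mt d1_mk.1 hz) (mt d1_mk.1 hu) (mt d1_mk.1 hz') (mt d1_mk.1 hu') (by rw [x1, y1, hx])
      (by rw [x1, y1, hx']) (by rw [← QuotientAddGroup.mk_add]; exact mt d1_mk.1 hne)
    rw [← QuotientAddGroup.mk_add, y1] at hx
    rcases hT with rfl | rfl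
    · rw [← QuotientAddGroup.mk_add] at T0 hx
      exact ⟨z + z', Or.inl rfl, mt d1_mk.2 T0, by rw [hx, x1]⟩
    · rw [← QuotientAddGroup.mk_sub] at T0 hx
      exact ⟨z - z', Or.inr rfl, mt d1_mk.2 T0, by rw [hx, x1]⟩

theorem d1_surj {M : Lt} (hM : IsLat M) (k : UU M ≠ 0) (x : ℂ) : ∃ u, u ∉ M ∧ XX M u = x := by
  obtain ⟨u, hu, e⟩ := wp_surj hM (x * UU M)
  exact ⟨u, hu, by rw [XX, e, mul_div_cancel_right₀ _ k]⟩

theorem d1_isog {L L' M : Lt} (h : IsLat L) (h' : IsLat L') (hle : L ≤ L') (hM : IsLat M)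
    (h2 : g2 L ≠ 0) (h3 : g3 L ≠ 0) (σ : ℂ →+* ℂ) (e : σ (jL L) = jL M) :
    ∃ M' : Lt, IsLat M' ∧ M ≤ M' ∧ g2 M' / UU M ^ 2 = σ (g2 L' / UU L ^ 2) ∧
      g3 M' / UU M ^ 3 = σ (g3 L' / UU L ^ 3) := by
  obtain ⟨k2, k3⟩ := d1_ne h hM h2 h3 σ e
  obtain ⟨e2, e3⟩ := d1_g h hM h2 h3 σ e
  obtain ⟨t1, t2⟩ := d1_tr h hM h2 h3 σ e
  have hU := d1_UU h2 h3
  have kU := d1_UU k2 k3
  obtain ⟨R, hR⟩ := exists_reps h h' hle
  have xneg : ∀ u, XX M (-u) = XX M u := fun u => by rw [XX, XX, wp_neg hM]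
  have xadd : ∀ u l, l ∈ M → XX M (u + l) = XX M u := fun u l hl => by
    rw [XX, XX, wp_add hM u hl]
  let A : AddSubgroup ℂ :=
    { carrier := {u | u ∈ M ∨ ∃ t ∈ L', t ∉ L ∧ XX M u = σ (XX L t)}
      zero_mem' := Or.inl M.zero_mem
      neg_mem' := fun {u} hu => hu.imp M.neg_mem fun ⟨t, a, b, c⟩ => ⟨t, a, b, by rw [xneg, c]⟩
      add_mem' := fun {u u'} hu hu' => by
        by_cases hne : u + u' ∈ M
        · exact Or.inl hne
        by_cases m1 : u ∈ M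
        · obtain ⟨t, a, b, c⟩ := hu'.resolve_left fun m => hne (M.add_mem m1 m)
          exact Or.inr ⟨t, a, b, by rw [add_comm, xadd _ _ m1, c]⟩
        by_cases m2 : u' ∈ M
        · obtain ⟨t, a, b, c⟩ := hu.resolve_left m1
          exact Or.inr ⟨t, a, b, by rw [xadd _ _ m2, c]⟩
        obtain ⟨t, a, b, c⟩ := hu.resolve_left m1
        obtain ⟨t', a', b', c'⟩ := hu'.resolve_left m2
        obtain ⟨T, hT, T0, hx⟩ := t2 t u t' u' b m1 b' m2 c c' hne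
        refine Or.inr ⟨T, ?_, T0, hx⟩
        rcases hT with rfl | rfl
        · exact L'.add_mem a a'
        · exact L'.sub_mem a a' }
  have mem : ∀ u, u ∈ A.toIntSubmodule ↔ u ∈ M ∨ ∃ t ∈ L', t ∉ L ∧ XX M u = σ (XX L t) :=
    fun u => Iff.rfl
  have le : M ≤ A.toIntSubmodule := fun u hu => (mem u).2 (Or.inl hu)
  have hM' : IsLat A.toIntSubmodule := by
    refine isLat_of_le hM le (Finset.card_pos.2 ⟨0, hR.2.1⟩) fun u hu => ?_
    by_cases m1 : u ∈ M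
    · rw [← nsmul_eq_mul]
      exact M.toAddSubgroup.nsmul_mem m1 _
    · obtain ⟨t, a, b, c⟩ := ((mem u).1 hu).resolve_left m1
      exact (t1 t u b m1 c _).1 (hR.card_mul a)
  obtain ⟨R', hR'⟩ := exists_reps hM hM' le
  have key := fib_sum h hM hR hR' (fun t => σ (XX L t)) (XX M)
    (fun t u _ _ => by rw [σ.injective.eq_iff, XX, XX, div_left_inj' hU])
    (fun t u _ _ => by rw [XX, XX, div_left_inj' kU])
    (fun t a b => by
      obtain ⟨u, hu, c⟩ := d1_surj hM kU (σ (XX L t))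
      exact ⟨u, (mem u).2 (Or.inr ⟨t, a, b, c⟩), hu, c⟩)
    (fun u a b => ((mem u).1 a).resolve_left b)
    (fun t u a b c => by simpa only [Nat.cast_ofNat] using t1 t u a b c 2)
  refine ⟨_, hM', le, ?_, ?_⟩
  · rw [velu_g2 hM hM' hR', velu_g2 h h' hR, add_div, add_div, Finset.sum_div, Finset.sum_div,
      map_add, map_sum, ← e2]
    refine congrArg _ ?_
    refine (Finset.sum_congr rfl fun u _ => ?_).trans
      ((key fun x => 60 * x ^ 2 - 5 * (g2 M / UU M ^ 2)).symm.trans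
        (Finset.sum_congr rfl fun t _ => ?_))
    · rw [XX]
      ring
    · have : (60 * wp L t ^ 2 - 5 * g2 L) / UU L ^ 2 = 60 * XX L t ^ 2 - 5 * (g2 L / UU L ^ 2) := by
        rw [XX]
        ring
      rw [this, e2]
      simp only [map_sub, map_mul, map_pow, map_ofNat]
  · rw [velu_g3 hM hM' hR', velu_g3 h h' hR, add_div, add_div, Finset.sum_div, Finset.sum_div,
      map_add, map_sum, ← e3]
    refine congrArg _ ?_
    refine (Finset.sum_congr rfl fun u _ => ?_).trans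
      ((key fun x => 140 * x ^ 3 - 21 * (g2 M / UU M ^ 2) * x - 14 * (g3 M / UU M ^ 3)).symm.trans
        (Finset.sum_congr rfl fun t _ => ?_))
    · rw [XX]
      ring
    · have : (140 * wp L t ^ 3 - 21 * g2 L * wp L t - 14 * g3 L) / UU L ^ 3 =
          140 * XX L t ^ 3 - 21 * (g2 L / UU L ^ 2) * XX L t - 14 * (g3 L / UU L ^ 3) := by
        rw [XX]
        ring
      rw [this, e2, e3]
      simp only [map_sub, map_mul, map_pow, map_ofNat]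

theorem d1_end {L M : Lt} (h : IsLat L) (hM : IsLat M) (h2 : g2 L ≠ 0) (h3 : g3 L ≠ 0)
    (σ : ℂ →+* ℂ) (e : σ (jL L) = jL M) {w : ℂ} (w0 : w ≠ 0) (hw : σ w = w)
    (hL : ∀ z ∈ L, w * z ∈ L) : ∀ z ∈ M, w * z ∈ M := by
  obtain ⟨k2, k3⟩ := d1_ne h hM h2 h3 σ e
  obtain ⟨e2, e3⟩ := d1_g h hM h2 h3 σ e
  have w1 := inv_ne_zero w0
  have kU := d1_UU k2 k3
  obtain ⟨M', hM', le, a2, a3⟩ := d1_isog h (h.pr_mul w1)
    (fun z hz => Pool.Agent.P.MP_20768c_nt.Tz.EQ.mem_pr_mul.2 ⟨w * z, hL z hz, inv_mul_cancel_left₀ w0 z⟩)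
    hM h2 h3 σ e
  rw [g2_sc L w1, div_right_comm, map_div₀, ← e2, map_pow, map_inv₀, hw, div_right_comm,
    div_left_inj' (pow_ne_zero _ kU), ← g2_sc M w1] at a2
  rw [g3_sc L w1, div_right_comm, map_div₀, ← e3, map_pow, map_inv₀, hw, div_right_comm,
    div_left_inj' (pow_ne_zero _ kU), ← g3_sc M w1] at a3
  have := lat_eq hM' (hM.pr_mul w1) a2 a3
    (by rw [a2, g2_sc M w1]; exact div_ne_zero k2 (pow_ne_zero _ w1))
    (by rw [a3, g3_sc M w1]; exact div_ne_zero k3 (pow_ne_zero _ w1))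
  intro z hz
  obtain ⟨y, hy, rfl⟩ := Pool.Agent.P.MP_20768c_nt.Tz.EQ.mem_pr_mul.1 (this ▸ le hz)
  rwa [mul_inv_cancel_left₀ w0]

namespace St

variable (s : St) {L : s.Sub} {m : ℕ}

theorem stab (σ : s.Au) (hL : IsUnit L) : ∃ M : s.Sub, IsUnit M ∧
    σ (jL (s.zl L)) = jL (s.zl M) ∧ ∀ (m : ℕ) (z : ℂ), z ∉ L → m * z ∈ L →
      ∃ z', z' ∉ M ∧ m * z' ∈ M ∧ σ (XX (s.zl L) z) = XX (s.zl M) z' := by
  have h := s.isLat_zl hL
  obtain ⟨h2, h3⟩ := s.g23_ne hL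
  obtain ⟨M, hM, e⟩ := Pool.Agent.P.MP_20768c_nt.Tz.EQ.jL_surj (σ (jL (s.zl L)))
  have e' : (σ : ℂ →+* ℂ) (jL (s.zl L)) = jL M := e.symm
  have w0 : s.c s.w ≠ 0 := fun h0 => by
    have := s.w_im
    rw [show algebraMap (𝓞 s.k) ℂ s.w = 0 from h0] at this
    exact lt_irrefl _ this
  obtain ⟨N, rfl⟩ := s.exists_sub (d1_end h hM h2 h3 (σ : ℂ →+* ℂ) e' w0 (s.au_c σ s.w)
    fun z hz => s.mem_zl.2 (s.c_mul_mem s.w (s.mem_zl.1 hz)))
  obtain ⟨k2, k3⟩ := d1_ne h hM h2 h3 _ e'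
  refine ⟨N, s.isUnit_of_lat hM, e.symm, fun m z hz hm => ?_⟩
  obtain ⟨u, hu, c⟩ := d1_surj hM (d1_UU k2 k3) (σ (XX (s.zl L) z))
  exact ⟨u, mt s.mem_zl.2 hu, s.mem_zl.1 (((d1_tr h hM h2 h3 _ e').1 z u (mt s.mem_zl.1 hz) hu c
    m).1 (s.mem_zl.2 hm)), c.symm⟩

theorem CM_stab (σ : s.Au) {x : ℂ} (h : x ∈ s.CM m) : σ x ∈ s.CM m := by
  rcases h with h | ⟨L, hL, h⟩
  · exact Or.inl (by rw [← map_pow, h, map_one])
  obtain ⟨M, hM, e, k⟩ := s.stab σ hL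
  refine Or.inr ⟨M, hM, ?_⟩
  rcases h with rfl | ⟨z, a, b, rfl⟩
  · exact Or.inl e
  · obtain ⟨u, c, d, f⟩ := k m z b a
    exact Or.inr ⟨u, d, c, f⟩

theorem CM_alg (hm : 0 < m) {x : ℂ} (h : x ∈ s.CM m) : IsAlgebraic ℚ x := by
  refine s.alg_of_finite ((s.CM_finite hm).subset ?_)
  rintro _ ⟨σ, rfl⟩
  exact s.CM_stab σ h

end St

end Pool.Agent.P.MP_20768c_nt.Tz.Cv

end

-- part Cv.B7
section

set_option autoImplicit false

open Complex NumberField IsDedekindDomain Filter Topology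
open UpperHalfPlane hiding I
open scoped ComplexConjugate Real MatrixGroups

namespace Pool.Agent.P.MP_20768c_nt.Tz.Cv

open Pool.Agent.P.MP_20768c_nt.Tz.EQ (Lt pr sp IsLat jL qN)

section
variable {F Γ : Type} [Field F] [LinearOrderedCommGroupWithZero Γ] {v : Valuation F Γ} {x y : F}

theorem b7_val (h : v (x - 1) < 1) : v x = 1 := by
  have := v.map_one_add_of_lt h
  rwa [add_sub_cancel] at this

theorem b7_ne (h : v (x - 1) < 1) : x ≠ 0 := fun e => by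
  have := b7_val h
  simp [e] at this

theorem b7_mul (h : v (x - 1) < 1) (h' : v (y - 1) < 1) : v (x * y - 1) < 1 := by
  have e : x * y - 1 = (x - 1) * y + (y - 1) := by ring
  rw [e]
  refine v.map_add_lt ?_ h'
  rwa [map_mul, b7_val h', mul_one]

theorem b7_div (h : v (x - 1) < 1) (h' : v (y - 1) < 1) : v (x / y - 1) < 1 := by
  have e : x / y - 1 = ((x - 1) - (y - 1)) / y := by
    have := b7_ne h'
    field_simp
    ring
  rw [e, map_div₀, b7_val h', div_one]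
  exact v.map_sub_lt h h'

theorem b7_one : v ((1 : F) - 1) < 1 := by
  rw [sub_self, map_zero]
  exact zero_lt_one

end

theorem b7_r3 (a : ℕ) : r3 (a * 2) = -r3 a := by
  have e : zt 1 ^ (2 * (a * 2)) = zt 1 ^ a * (zt 1 ^ 3) ^ a := by ring
  rw [r3, r3, e, zt1_cube, one_pow, mul_one, mul_comm a 2, neg_sub]

theorem b7_jac {a : ℕ} (h : Nat.Coprime a 3) : (jacobiSym a 3 : ℂ) ^ 2 = 1 := by
  have h1 : ¬ (3 : ℤ) ∣ a := fun e => by
    have e' : 3 ∣ a := by exact_mod_cast e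
    have := Nat.Coprime.eq_one_of_dvd h.symm e'
    omega
  rcases (jac_three h1).1 with e | e <;> simp [e]

namespace St

variable (s : St) {L M : s.Sub} {f : Ideal s.O} {p q : s.Pair} {x : ℂ}

theorem b7_refl (n : Ideal s.O) (p : s.Pair) : s.Sim n 1 p p :=
  ⟨one_ne_zero, by rw [s.sc_one, one_mul], by simp⟩

theorem b7_trans {n : Ideal s.O} {y : ℂ} {r : s.Pair} (h : s.Sim n x p q) (k : s.Sim n y q r) :
    s.Sim n (y * x) p r := by
  obtain ⟨h0, h1, h2⟩ := h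
  obtain ⟨k0, k1, k2⟩ := k
  refine ⟨mul_ne_zero k0 h0, by rw [k1, h1, s.sc_mul, mul_assoc], ?_⟩
  have h3 := s.sc_mem (x := y) h2
  rw [← k1] at h3
  convert add_mem k2 h3 using 1
  ring

theorem b7_c3 : s.c 3 = 3 := s.c1b_c_three

theorem b7_p1 {β : s.O} (h : s.v (s.c β) = 1) : β ∉ s.p1 := fun e =>
  ((s.mem_p1 β).1 e).ne h

theorem b7_cop (hf : ¬ 3 ∣ Ideal.absNorm f) : s.v (s.c (Ideal.absNorm f : ℕ)) = 1 := by
  rw [s.c_nat]
  exact v_cop_nat s.v s.v_three hf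

theorem v_UU_le (hL : IsUnit L) (hM : IsUnit M) (h : L ≤ M) {β : s.O} (hβ : s.v (s.c β) = 1)
    (h' : s.sc (s.c β) * M ≤ L) : s.v (UU (s.zl M)) = s.v (UU (s.zl L)) := by
  obtain ⟨R, hR⟩ := exists_reps (s.isLat_zl hL) (s.isLat_zl hM) (s.zl_le.2 h)
  have e := iso_val (s.isLat_zl hL) (s.isLat_zl hM) hR (s.good_three s.v s.v_three hL)
    (s.good_three s.v s.v_three hM)
  rwa [Finset.prod_eq_one, mul_one] at e
  intro t ht
  refine max_eq_left (xm_le fun hE => b3_not hR ht ?_).2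
  exact s.E1_kill s.v hL (s.good_three s.v s.v_three hL) hβ hE
    (h' (Submodule.mul_mem_mul (s.mem_sc _) (hR.2.2.1 t (Finset.mem_of_mem_erase ht))))

theorem v_UU_cop (hf : ¬ 3 ∣ Ideal.absNorm f) :
    s.v (UU (s.zl (s.idl f * 1))) = s.v (UU (s.zl 1)) := by
  refine (s.v_UU_le ((s.isUnit_idl (s.cop_ne hf)).mul isUnit_one) isUnit_one (s.idl_mul_le f 1)
    (s.b7_cop hf) ?_).symm
  rw [← s.idl_span]
  exact mul_le_mul' (s.idl_le.2 ((Ideal.span_singleton_le_iff_mem _).2 (Ideal.absNorm_mem f)))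
    le_rfl

theorem tp_mem (f : Ideal s.O) (p : s.Pair) : s.tp f p ∈ s.idl f * p.L * s.inv s.p1 := by
  have hN := Ideal.absNorm_mem f
  refine s.mem_inv_p1.2 ⟨?_, ?_⟩
  · have e : 3 * s.tp f p =
        s.c (Ideal.absNorm f : ℕ) * (s.c ((Ideal.absNorm f : ℕ) * s.wb) * p.ρ) := by
      rw [s.c_mul, s.c_nat, tp]
      ring
    rw [e]
    exact s.mul_mem_idl hN (s.c_mul_mem _ p.mem)
  · obtain ⟨r, hr⟩ := s.m_eq
    have h1 : s.c s.w * s.c s.wb = 3 * s.c r := by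
      rw [← s.c_mul, s.w_mul_wb, hr, s.c_mul, s.b7_c3]
    have e : s.c s.w * s.tp f p =
        s.c (Ideal.absNorm f : ℕ) * (s.c ((Ideal.absNorm f : ℕ) * r) * p.ρ) := by
      rw [s.c_mul, s.c_nat, tp]
      linear_combination (Ideal.absNorm f : ℂ) ^ 2 * p.ρ / 3 * h1
    rw [e]
    exact s.mul_mem_idl hN (s.c_mul_mem _ p.mem)

theorem tp_spec (hf : ¬ 3 ∣ Ideal.absNorm f) (hp : p.ρ ∉ s.idl s.p1 * p.L) :
    s.tp f p ∉ s.idl f * p.L ∧ 3 * s.tp f p ∈ s.idl f * p.L ∧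
      E1 s.v (s.zl (s.idl f * p.L)) (UU (s.zl (s.idl f * p.L))) (-1 / 12) (s.tp f p) := by
  have u := (s.isUnit_idl (s.cop_ne hf)).mul p.unit
  refine ⟨fun h => hp ?_, (s.mem_inv_p1.1 (s.tp_mem f p)).1, s.E1_p1 u (s.tp_mem f p)⟩
  have h1 := s.mul_mem_idl s.three_mem.1 (s.idl_mul_le f _ h)
  have e : s.c 3 * s.tp f p = s.c ((Ideal.absNorm f : ℕ) ^ 2 * s.wb) * p.ρ := by
    rw [s.c_mul, s.c_pow, s.c_nat, s.b7_c3, tp]
    ring
  rw [e] at h1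
  refine s.prime_mem p.unit s.p1_max (s.b7_p1 ?_) p.mem h1
  rw [s.c_mul, s.c_pow, map_mul, map_pow, s.b7_cop hf, s.v_wb, one_pow, one_mul]

theorem b7_kill (f : Ideal s.O) (p : s.Pair) {β : s.O} (h : β ∈ s.p1) :
    s.c β * s.tp f p ∈ s.idl f * p.L :=
  (s.mem_mul_inv s.p1_ne).1 (s.tp_mem f p) β h

theorem st_rho (hf : ¬ 3 ∣ Ideal.absNorm f) (hp : p.ρ ∉ s.idl s.p1 * p.L) :
    s.v (st (s.zl (s.idl f * p.L)) (s.tp f p) /
      (p.ρ * st (s.zl (s.idl f * 1)) (s.tp f 1)) - 1) < 1 := by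
  obtain ⟨x, β, β', hx, a1, a2, a3, a4⟩ := s.exists_loc p.unit
  have h0 : s.c β ≠ 0 := fun e => by simp [e] at a1
  have uf := s.isUnit_idl (s.cop_ne hf)
  have u := (s.isUnit_sc h0).mul (uf.mul p.unit)
  have u1 : IsUnit (s.idl f * 1) := uf.mul isUnit_one
  have u' := (s.isUnit_sc hx).mul u1
  obtain ⟨t1, t2, -⟩ := s.tp_spec hf hp
  have hb : s.v (s.c (β * β')) = 1 := by rw [s.c_mul, map_mul, a1, a2, one_mul]
  have hle : s.sc (s.c β) * (s.idl f * p.L) ≤ s.sc x * (s.idl f * 1) := by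
    rw [mul_left_comm, mul_left_comm (s.sc x), mul_one]
    exact mul_le_mul' le_rfl a3
  have hle' : s.sc (s.c β') * (s.sc x * (s.idl f * 1)) ≤ s.idl f * p.L := by
    rw [mul_one, ← mul_assoc, mul_comm]
    exact mul_le_mul' le_rfl a4
  have t3 : 3 * (s.c β * s.tp f p) ∈ s.sc (s.c β) * (s.idl f * p.L) := by
    rw [mul_left_comm (3 : ℂ)]
    exact (s.mul_mem_sc' h0).2 t2
  have t4 : s.c s.w * (s.c β * s.tp f p) ∈ s.sc (s.c β) * (s.idl f * p.L) := by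
    rw [mul_left_comm (s.c s.w)]
    exact (s.mul_mem_sc' h0).2 (s.b7_kill f p s.w_mem.1)
  have hG := s.good_three s.v s.v_three u
  have t5 : s.c β * s.tp f p ∉ s.sc (s.c β) * (s.idl f * p.L) :=
    fun e => t1 ((s.mul_mem_sc' h0).1 e)
  have t6 : ∀ y ∈ s.zl (s.sc x * (s.idl f * 1)), E1 s.v (s.zl (s.sc (s.c β) * (s.idl f * p.L)))
      (UU (s.zl (s.sc (s.c β) * (s.idl f * p.L)))) (-1 / 12) y →
      y ∈ s.zl (s.sc (s.c β) * (s.idl f * p.L)) := by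
    intro y hy hE
    refine s.mem_zl.2 (s.E1_kill s.v u hG hb hE ?_)
    rw [s.c_mul, mul_assoc, s.mul_mem_sc' h0]
    exact hle' (Submodule.mul_mem_mul (s.mem_sc _) (s.mem_zl.1 hy))
  have h1 := st_loc (s.isLat_zl u) (s.isLat_zl u') (s.zl_le.2 hle) hG s.v_three (b4_mb2 s.v) t6
    (fun e => t5 (s.mem_zl.1 e)) (s.mem_zl.2 t3) (s.E1_p1 u (s.mem_inv_p1.2 ⟨t3, t4⟩))
  have h2 : s.c β * p.ρ ∈ s.sc x * 1 := by
    rw [mul_one]
    exact a3 (Submodule.mul_mem_mul (s.mem_sc _) p.mem)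
  obtain ⟨z, hz, e1⟩ := s.mem_sc_mul.1 h2
  obtain ⟨a, rfl⟩ := s.mem_one.1 hz
  have ha : a ∉ s.p1 := fun h => hp (s.prime_mem p.unit s.p1_max (s.b7_p1 hb) p.mem (by
    have e : s.c (β * β') * p.ρ = s.c a * (s.c β' * x) := by
      rw [s.c_mul]
      linear_combination -s.c β' * e1
    rw [e]
    exact s.mul_mem_idl h (a4 (Submodule.mul_mem_mul (s.mem_sc _) (s.mem_sc _)))))
  have e2 : s.c β * s.tp f p = x * (s.c a * s.tp f 1) := by
    rw [tp, tp, s.one_ρ]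
    linear_combination -(Ideal.absNorm f : ℂ) ^ 2 * s.c s.wb / 3 * e1
  obtain ⟨ε, e3, e4, e5⟩ : ∃ ε : ℂ, ε * ε = 1 ∧ s.v (s.c a * ε - 1) < 1 ∧
      st (s.zl (s.idl f * 1)) (s.c a * s.tp f 1) = ε * st (s.zl (s.idl f * 1)) (s.tp f 1) := by
    rcases s.pm_one_p1 ha with h | h
    · have k := s.b7_kill f 1 h
      have k' := (s.mem_p1 _).1 h
      rw [s.c_sub, s.c_one] at k k'
      refine ⟨1, one_mul 1, by rwa [mul_one], ?_⟩
      rw [one_mul]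
      rw [sub_mul, one_mul, s.one_L] at k
      exact st_congr (s.isLat_zl u1) (s.mem_zl.2 k)
    · have k := s.b7_kill f 1 h
      have k' := (s.mem_p1 _).1 h
      rw [s.c_add, s.c_one] at k k'
      refine ⟨-1, by ring, ?_, ?_⟩
      · rwa [show s.c a * -1 - 1 = -(s.c a + 1) by ring, Valuation.map_neg]
      · rw [neg_one_mul, ← st_neg (s.isLat_zl u1)]
        rw [add_mul, one_mul, s.one_L, ← sub_neg_eq_add] at k
        exact st_congr (s.isLat_zl u1) (s.mem_zl.2 k)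
  rw [s.zl_sc, s.zl_sc, st_sc _ h0, e2, st_sc _ hx, e5] at h1
  have n1 := b7_ne h1
  have n2 := b7_ne e4
  have h3 := b7_div b7_one (b7_mul h1 e4)
  generalize st (s.zl (s.idl f * p.L)) (s.tp f p) = S, st (s.zl (s.idl f * 1)) (s.tp f 1) = T at *
  have e6 : p.ρ = x * s.c a / s.c β := by
    rw [e1]
    field_simp
  have e7 : x * (ε * T) / (s.c β * S) * (s.c a * ε) = x * s.c a / s.c β * T / S := by
    rw [div_mul_eq_mul_div, div_mul_eq_mul_div, div_div]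
    congr 1
    linear_combination x * T * s.c a * e3
  rwa [e7, one_div, inv_div, ← e6] at h3

theorem b7_md3 (f : Ideal s.O) : s.md f 1 ≤ Ideal.span {((3 : ℕ) : s.O)} := by
  simpa using (s.md_le f 1).2.1

theorem b7_smul (p : s.Pair) (hx : x ≠ 0) : ∃ q : s.Pair, q.L = s.sc x * p.L ∧ q.ρ = x * p.ρ :=
  ⟨⟨s.sc x * p.L, x * p.ρ, (s.isUnit_sc hx).mul p.unit,
    Submodule.mul_mem_mul (s.mem_sc x) p.mem⟩, rfl, rfl⟩

theorem exists_md (hf : ¬ 3 ∣ Ideal.absNorm f) (hp : IsUnit (s.cl (s.lv f) p)) :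
    ∃ q, IsUnit (s.cl (s.md f 1) q) ∧ s.Sim (s.lv f) 1 q p := by
  have h0 := s.cop_ne hf
  obtain ⟨q, h1, h2⟩ := s.lift_unit (s.md_ne h0 1) (s.lv_ne h0) hp
  obtain ⟨x, hx, h3, h4⟩ := s.cl_eq.1 h2
  obtain ⟨r, r1, r2⟩ := s.b7_smul q hx
  have e : s.cl (s.md f 1) q = s.cl (s.md f 1) r := s.cl_eq.2 ⟨x, hx, r1, by simp [r2]⟩
  exact ⟨r, e ▸ h1, one_ne_zero, by rw [s.sc_one, one_mul, r1, h3], by rwa [one_mul, r2]⟩

theorem b7_same (hf : ¬ 3 ∣ Ideal.absNorm f) (e : q.L = p.L)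
    (h1 : q.ρ - p.ρ ∈ s.idl s.p1 * p.L) (h2 : q.ρ - p.ρ ∈ s.idl s.p2 * p.L) :
    s.om1 f q = s.om1 f p := by
  have u := (s.isUnit_idl (s.cop_ne hf)).mul p.unit
  have h3 := s.mem_mul_cop s.cop12 h1 h2
  rw [s.p1_mul_p2] at h3
  have h4 : s.Qn p ≡ s.Qn q [MOD 3] := s.Qn_mod (n := Ideal.span {3}) (by simp)
    (s.cl_eq.2 ⟨1, one_ne_zero, by rw [s.sc_one, one_mul, e], by rwa [one_mul, e]⟩)
  rw [s.idl_span, s.mem_sc_mul, s.b7_c3] at h3
  obtain ⟨z, hz, e1⟩ := h3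
  rw [om1, om1, e, r3_congr h4]
  congr 1
  refine st_congr (s.isLat_zl u) (s.mem_zl.2 ?_)
  have e2 : s.tp f q - s.tp f p =
      s.c (Ideal.absNorm f : ℕ) * (s.c ((Ideal.absNorm f : ℕ) * s.wb) * z) := by
    rw [s.c_mul, s.c_nat, tp, tp]
    linear_combination -(Ideal.absNorm f : ℂ) ^ 2 * s.c s.wb / 3 * e1
  rw [e2]
  exact s.mul_mem_idl (Ideal.absNorm_mem f) (s.c_mul_mem _ hz)

theorem b7_wb : 1 + s.wb + 1 ∈ s.p1 := by
  have h := (s.mem_p1' (2 + s.t) (-1)).2 (by have := s.t_mod; omega)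
  convert h using 1
  rw [wb]
  push_cast
  ring

theorem b7_flip (hf : ¬ 3 ∣ Ideal.absNorm f) (p : s.Pair) :
    s.om1 f (p * s.np (1 + s.wb)) = s.om1 f p := by
  have u := (s.isUnit_idl (s.cop_ne hf)).mul p.unit
  have h1 := s.norm_ab' 1 1
  simp only [Int.cast_one, one_mul, mul_one, one_pow] at h1
  have h2 : Ideal.absNorm (Ideal.span {1 + s.wb}) ≡ 2 [MOD 3] := by
    have := s.t_mod
    have := s.m_dvd
    unfold Nat.ModEq
    omega
  have h3 : st (s.zl (s.idl f * p.L)) (s.tp f (p * s.np (1 + s.wb))) =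
      -st (s.zl (s.idl f * p.L)) (s.tp f p) := by
    rw [← st_neg (s.isLat_zl u)]
    refine st_congr (s.isLat_zl u) (s.mem_zl.2 ?_)
    convert s.b7_kill f p s.b7_wb using 1
    rw [tp, tp, s.mul_ρ, s.np_ρ, s.c_add _ 1, s.c_one]
    ring
  rw [om1, om1, s.mul_L, s.np_L, mul_one, h3, s.Qn_mul, s.Qn_np,
    r3_congr (Nat.ModEq.mul_left _ h2), b7_r3, neg_div_neg_eq]

theorem b7_key (hf : ¬ 3 ∣ Ideal.absNorm f) (e : q.L = p.L) (hp : p.ρ ∉ s.idl s.p1 * p.L)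
    (hq : q.ρ ∉ s.idl s.p1 * p.L) (h2 : q.ρ - p.ρ ∈ s.idl s.p2 * p.L) :
    s.om1 f q = s.om1 f p := by
  have e1 : s.idl s.p1 * p.L * s.inv s.p1 = p.L := by
    rw [mul_right_comm, s.idl_inv s.p1_ne, one_mul]
  obtain ⟨β, hβ⟩ := s.cyc_sub (y := q.ρ) ((s.isUnit_idl s.p1_ne).mul p.unit) s.p1_max s.p1_ne
    (t := p.ρ) (by rw [e1]; exact p.mem) hp (by rw [e1, ← e]; exact q.mem)
  have hb : β ∉ s.p1 := fun h => hq (by
    convert add_mem hβ (s.mul_mem_idl h p.mem) using 1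
    ring)
  rcases s.pm_one_p1 hb with h | h
  · refine s.b7_same hf e ?_ h2
    convert add_mem hβ (s.mul_mem_idl h p.mem) using 1
    rw [s.c_sub, s.c_one]
    ring
  · have e2 : (p * s.np (1 + s.wb)).L = p.L := by rw [s.mul_L, s.np_L, mul_one]
    rw [← s.b7_flip hf p]
    refine s.b7_same hf (e.trans e2.symm) ?_ ?_
    · rw [e2, s.mul_ρ, s.np_ρ]
      convert sub_mem (add_mem hβ (s.mul_mem_idl h p.mem)) (s.mul_mem_idl s.b7_wb p.mem) using 1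
      rw [s.c_add β, s.c_add _ 1, s.c_one]
      ring
    · rw [e2, s.mul_ρ, s.np_ρ]
      convert sub_mem h2 (s.mul_mem_idl s.w_mem.2.1 p.mem) using 1
      rw [s.c_add, s.c_one]
      ring

theorem b7_eq (hf : ¬ 3 ∣ Ideal.absNorm f) {r : s.Pair} (hr : IsUnit (s.cl (s.md f 1) r))
    (k : s.Sim (s.lv f) 1 r p) (hq : IsUnit (s.cl (s.md f 1) q))
    (h : s.Sim (s.lv f) x q p) : s.om1 f r = x * s.om1 f q := by
  have h0 := s.cop_ne hf
  obtain ⟨hx, h1, h2⟩ := h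
  obtain ⟨-, k1, k2⟩ := k
  rw [s.sc_one, one_mul] at k1
  rw [one_mul] at k2
  obtain ⟨q', r1, r2⟩ := s.b7_smul q hx
  have e : s.cl (s.md f 1) q = s.cl (s.md f 1) q' := s.cl_eq.2 ⟨x, hx, r1, by simp [r2]⟩
  have e1 : s.om1 f q' = x * s.om1 f q := by
    have e2 : s.tp f q' = x * s.tp f q := by
      rw [tp, tp, r2]
      ring
    rw [om1, om1, r1, e2, mul_left_comm, s.zl_sc, st_sc _ hx,
      r3_congr (s.Qn_mod (s.b7_md3 f) e), mul_div_assoc]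
  have e3 : r.L = q'.L := by rw [← k1, h1, r1]
  rw [← e1]
  refine s.b7_key hf e3 ((s.unit_md h0 le_rfl).1 (e ▸ hq)).2
    (e3 ▸ ((s.unit_md h0 le_rfl).1 hr).2) ?_
  rw [r1, ← h1, r2]
  refine mul_le_mul' (s.idl_le.2 (s.lv_le f).2) le_rfl ?_
  convert sub_mem h2 k2 using 1
  ring

theorem oms_eq (hf : ¬ 3 ∣ Ideal.absNorm f) (hq : IsUnit (s.cl (s.md f 1) q))
    (h : s.Sim (s.lv f) x q p) : s.oms f p = x * s.om1 f q := by
  have hp : IsUnit (s.cl (s.lv f) p) :=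
    s.cl_eq.2 ⟨x, h⟩ ▸ s.unit_mono (s.md_le_lv f le_rfl) hq
  have h1 := s.exists_md hf hp
  rw [oms, dif_pos h1]
  exact s.b7_eq hf h1.choose_spec.1 h1.choose_spec.2 hq h

theorem oms_om1 (hf : ¬ 3 ∣ Ideal.absNorm f) (hp : IsUnit (s.cl (s.md f 1) p)) :
    s.oms f p = s.om1 f p := by
  rw [s.oms_eq hf hp (s.b7_refl _ p), one_mul]

theorem oms_sq (hf : ¬ 3 ∣ Ideal.absNorm f) (hp : IsUnit (s.cl (s.lv f) p)) :
    s.v (s.oms f p ^ 2 * UU (s.zl (s.idl f * p.L)) - 1) < 1 := by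
  obtain ⟨q, hq, h⟩ := s.exists_md hf hp
  have u := (s.isUnit_idl (s.cop_ne hf)).mul q.unit
  obtain ⟨h1, h2, h3⟩ := s.tp_spec hf ((s.unit_md (s.cop_ne hf) le_rfl).1 hq).2
  have h4 := st_sq (s.isLat_zl u) (s.good_three s.v s.v_three u) s.v_three (b4_mb2 s.v) h1 h2 h3
  have e : mb2 (-1 / 12) = 1 := by norm_num [mb2]
  rw [e, mul_one] at h4
  rw [s.oms_eq hf hq h, one_mul, h.2.1, s.sc_one, one_mul, om1, r3_eq, div_pow, mul_pow,
    b7_jac (s.Qn_cop (s.b7_md3 f) hq), one_mul, ← div_pow]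
  exact h4.trans_lt s.v_three

theorem oms_ne (hf : ¬ 3 ∣ Ideal.absNorm f) (hp : IsUnit (s.cl (s.lv f) p)) : s.oms f p ≠ 0 := by
  intro e
  exact b7_ne (s.oms_sq hf hp) (by rw [e]; ring)

theorem v_oms_one (hf : ¬ 3 ∣ Ideal.absNorm f) : s.v (UU (s.zl 1)) * s.v (s.oms f 1) ^ 2 = 1 := by
  have := b7_val (s.oms_sq hf (p := 1) (by rw [map_one]; exact isUnit_one))
  rwa [map_mul, map_pow, s.one_L, s.v_UU_cop hf, mul_comm] at this

theorem oms_mul (hf : ¬ 3 ∣ Ideal.absNorm f) (hp : IsUnit (s.cl (s.lv f) p))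
    (hq : IsUnit (s.cl (s.lv f) q)) :
    s.v (s.oms f (p * q) * s.oms f 1 / (s.oms f p * s.oms f q) - 1) < 1 := by
  have h0 := s.cop_ne hf
  obtain ⟨a, ha, a1⟩ := s.exists_md hf hp
  obtain ⟨b, hb, b1⟩ := s.exists_md hf hq
  have hab : IsUnit (s.cl (s.md f 1) (a * b)) := by
    rw [map_mul]
    exact ha.mul hb
  have c1 : s.Sim (s.lv f) (1 * 1) (a * b) (p * q) := by
    have c2 := b1.mul p
    rw [mul_comm b, mul_comm q] at c2
    exact s.b7_trans (a1.mul b) c2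
  have h1 := s.st_rho hf ((s.unit_md h0 le_rfl).1 hab).2
  have h2 := s.st_rho hf ((s.unit_md h0 le_rfl).1 ha).2
  have h3 := s.st_rho hf ((s.unit_md h0 le_rfl).1 hb).2
  have h4 := b7_div h1 (b7_mul h2 h3)
  have n2 := b7_ne h2
  have n3 := b7_ne h3
  have j2 := b7_jac (s.Qn_cop (s.b7_md3 f) ha)
  have j3 := b7_jac (s.Qn_cop (s.b7_md3 f) hb)
  rw [s.oms_eq hf hab c1, s.oms_eq hf ha a1, s.oms_eq hf hb b1,
    s.oms_om1 hf (p := 1) (by rw [map_one]; exact isUnit_one), om1, om1, om1, om1, s.Qn_one,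
    s.one_L, s.Qn_mul, r3_eq (_ * _), r3_eq (s.Qn a), r3_eq (s.Qn b), Nat.cast_mul,
    jacobiSym.mul_left, Int.cast_mul]
  rw [s.mul_ρ] at h4
  have n4 := r3_ne
  generalize st (s.zl (s.idl f * (a * b).L)) (s.tp f (a * b)) = A,
    st (s.zl (s.idl f * a.L)) (s.tp f a) = B, st (s.zl (s.idl f * b.L)) (s.tp f b) = C,
    st (s.zl (s.idl f * 1)) (s.tp f 1) = T, (jacobiSym (s.Qn a) 3 : ℂ) = i,
    (jacobiSym (s.Qn b) 3 : ℂ) = j, r3 1 = θ at *
  have m1 : i ≠ 0 := fun e => by simp [e] at j2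
  have m2 : j ≠ 0 := fun e => by simp [e] at j3
  obtain ⟨m3, m4⟩ := div_ne_zero_iff.1 n2
  obtain ⟨m5, m6⟩ := div_ne_zero_iff.1 n3
  obtain ⟨m7, m8⟩ := mul_ne_zero_iff.1 m4
  obtain ⟨m9, -⟩ := mul_ne_zero_iff.1 m6
  have e : A / (a.ρ * b.ρ * T) / (B / (a.ρ * T) * (C / (b.ρ * T))) =
      1 * 1 * (A / (i * j * θ)) * (T / θ) / (1 * (B / (i * θ)) * (1 * (C / (j * θ)))) := by
    field_simp
  rwa [e] at h4

theorem oms_wt (hf : ¬ 3 ∣ Ideal.absNorm f) :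
    s.IsWt (s.lv f) (s.oms f) ∧ s.Supp (s.lv f) (s.oms f) := by
  have hS : s.Supp (s.lv f) (s.oms f) := fun p hp => by
    rw [oms, dif_neg]
    rintro ⟨q, hq, h⟩
    exact hp (s.cl_eq.2 ⟨1, h⟩ ▸ s.unit_mono (s.md_le_lv f le_rfl) hq)
  refine ⟨⟨fun x p q h => ?_, fun p h => hS p fun hp => s.unit_not_mem hp
    (s.lv_le f).2 s.p2_max.ne_top h⟩, hS⟩
  by_cases hp : IsUnit (s.cl (s.lv f) p)
  · obtain ⟨r, hr, k⟩ := s.exists_md hf hp
    rw [s.oms_eq hf hr (s.b7_trans k h), s.oms_eq hf hr k, mul_one, one_mul]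
  · rw [hS p hp, hS q (s.cl_eq.2 ⟨x, h⟩ ▸ hp), mul_zero]

end St

end Pool.Agent.P.MP_20768c_nt.Tz.Cv

end

-- part Cv.M5
section

set_option autoImplicit false

open Complex NumberField IsDedekindDomain Filter Topology
open UpperHalfPlane hiding I
open scoped ComplexConjugate Real MatrixGroups

namespace Pool.Agent.P.MP_20768c_nt.Tz.Cv

open Pool.Agent.P.MP_20768c_nt.Tz.EQ (Lt pr sp IsLat jL qN)

variable {K : Type} [Field K] [NumberField K] {s : Cb} {e : AlgebraicClosure K →+* ℂ}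
  {N : Set (AlgebraicClosure K)}

theorem m5_inQ {Γ : Type} [LinearOrderedCommGroupWithZero Γ] {v : Valuation ℂ Γ} {σ : ℂ → ℂ}
    (f : AlgebraicClosure K →+* ℂ) {g : GQ K} (h : Inert v σ) (hg : ∀ x, f (g x) = σ (f x)) :
    InQ (v.comap f).valuationSubring g := by
  intro x hx
  have E := Valuation.isEquiv_valuation_valuationSubring (v.comap f)
  rw [← E.lt_one_iff_lt_one, Valuation.comap_apply, map_sub, hg]
  exact h _ (m5p_alg f x) (E.le_one_iff_le_one.2 hx)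

theorem m5_unr (h1 : ∀ x ∈ N, e x ∈ s.K 1) (he : ∀ y : ℂ, IsAlgebraic ℚ y → ∃ x, e x = y)
    {C : ℕ} (hC : 3 ∣ C) {r : AlgebraicClosure K}
    (h : ∀ V : ValuationSubring (AlgebraicClosure K), V.valuation C = 1 →
      ∀ g ∈ Hq N, InQ V g → g r = r)
    (V : ValuationSubring ℂ) (σ : s.Au) (hV : V.valuation C = 1) (hσ : Inert V.valuation σ)
    (hf : ∀ x ∈ s.N, σ x = x) : σ (e r) = e r := by
  obtain ⟨g, hg⟩ := pull he σ
  have v3 : V.valuation ((3 : ℕ) : ℂ) = 1 := v_nat_dvd V.valuation hC hV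
  have hz : ∀ (n : ℕ) (y : ℂ), y ^ 3 ^ n = 1 → σ y = y := fun n y hy =>
    St.inert_root (m := 3 ^ n) hσ (by rw [Nat.cast_pow, map_pow, v3, one_pow]) hy
  have hs : g ∈ Hq N := by
    refine ⟨fun x hx => e.injective ?_, fun x n hx => e.injective ?_⟩
    · rw [hg, Cb.fix_K.2 ⟨hf, hz 1 _ (zt_pow 1)⟩ _ (h1 x hx)]
    · rw [hg]
      exact hz n _ (by rw [← map_pow, hx, map_one])
  have E := Valuation.isEquiv_valuation_valuationSubring (V.valuation.comap e)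
  have hW : (V.valuation.comap e).valuationSubring.valuation C = 1 := by
    rw [← E.eq_one_iff_eq_one, Valuation.comap_apply, map_natCast, hV]
  rw [← hg, h _ hW g hs (m5_inQ e hσ hg)]

theorem m5_loc (h1 : ∀ x ∈ N, e x ∈ s.K 1) (he : ∀ y : ℂ, IsAlgebraic ℚ y → ∃ x, e x = y)
    {r : AlgebraicClosure K} (a : s.Au)
    (h : ∀ g ∈ Hq N, InQ (s.v.comap ((a : ℂ →+* ℂ).comp e)).valuationSubring g → g r = r) :
    ∃ n, ∀ σ : s.Au, Inert s.v σ → σ (zt n) = zt n → σ (a (e r)) = a (e r) := by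
  have := m5p_gal K
  by_contra hc
  push Not at hc
  set W := (s.v.comap ((a : ℂ →+* ℂ).comp e)).valuationSubring with hW
  let S : ℕ → Set (GQ K) := fun n => {g | InQ W g ∧ (∀ x ∈ N, g x = x) ∧
    (∀ x : AlgebraicClosure K, x ^ 3 ^ n = 1 → g x = x) ∧ g r ≠ r}
  have hcl : ∀ n, IsClosed (S n) := by
    intro n
    have e1 : S n = (⋂ x, {g : GQ K | W.valuation x ≤ 1 → W.valuation (g x - x) < 1}) ∩
        ((⋂ x, {g : GQ K | x ∈ N → g x = x}) ∩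
          ((⋂ x, {g : GQ K | x ^ 3 ^ n = 1 → g x = x}) ∩ {g : GQ K | g r ≠ r})) := by
      ext g
      simp only [S, InQ, Set.mem_inter_iff, Set.mem_iInter, Set.mem_ofPred_eq]
    rw [e1]
    exact (isClosed_iInter fun x =>
        m5p_cl x fun y => W.valuation x ≤ 1 → W.valuation (y - x) < 1).inter
      ((isClosed_iInter fun x => m5p_cl x fun y => x ∈ N → y = x).inter
        ((isClosed_iInter fun x => m5p_cl x fun y => x ^ 3 ^ n = 1 → y = x).inter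
          (m5p_cl r fun y => y ≠ r)))
  have hne : ∀ n, (S n).Nonempty := by
    intro n
    obtain ⟨σ, k1, k2, k3⟩ := hc (n + 1)
    have hz : ∀ y : ℂ, y ^ 3 ^ (n + 1) = 1 → σ y = y := fun y hy => by
      obtain ⟨b, rfl⟩ := root_zt hy
      rw [map_pow, k2]
    have hf : ∀ y ∈ s.K 1, (a⁻¹ * σ * a : s.Au) y = y := by
      refine Cb.fix_K.2 ⟨fun y hy => ?_, ?_⟩
      · rw [AlgEquiv.mul_apply, AlgEquiv.mul_apply, s.unr σ k1 _ (St.au_mem s.toSt s.N a hy),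
          AlgEquiv.aut_inv, AlgEquiv.symm_apply_apply]
      · rw [AlgEquiv.mul_apply, AlgEquiv.mul_apply, hz _ (by
          rw [← map_pow, pow_succ', pow_mul, zt1_cube, one_pow, map_one]),
          AlgEquiv.aut_inv, AlgEquiv.symm_apply_apply]
    obtain ⟨g, hg⟩ := pull he (a⁻¹ * σ * a : s.Au)
    have hg' : ∀ x, a (e (g x)) = σ (a (e x)) := by
      intro x
      rw [hg, AlgEquiv.mul_apply, AlgEquiv.mul_apply, AlgEquiv.aut_inv, AlgEquiv.apply_symm_apply]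
    refine ⟨g, m5_inQ ((a : ℂ →+* ℂ).comp e) k1 hg', fun x hx => e.injective ?_,
      fun x hx => e.injective (a.injective ?_), fun h4 => k3 ?_⟩
    · rw [hg, hf _ (h1 x hx)]
    · rw [hg']
      exact hz _ (by rw [← map_pow, ← map_pow, pow_succ, pow_mul, hx, one_pow, map_one, map_one])
    · rw [← hg', h4]
  obtain ⟨g, hg⟩ := IsCompact.nonempty_iInter_of_sequence_nonempty_isCompact_isClosed S
    (fun n g hg => ⟨hg.1, hg.2.1, fun x hx => hg.2.2.1 x (by rw [pow_succ, pow_mul, hx, one_pow]),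
      hg.2.2.2⟩) hne (hcl 0).isCompact hcl
  rw [Set.mem_iInter] at hg
  exact (hg 0).2.2.2 (h g ⟨(hg 0).2.1, fun x n hx => (hg n).2.2.1 x hx⟩ (hg 0).1)

theorem finite_HQ (h1 : ∀ x ∈ N, e x ∈ s.K 1) (h2 : ∀ x, e x ∈ s.k → x ∈ N)
    (h3 : ∀ σ : s.Au, (∀ x ∈ N, σ (e x) = e x) → σ (zt 1) = zt 1 → ∀ y ∈ s.N, σ y = y)
    (he : ∀ y : ℂ, IsAlgebraic ℚ y → ∃ x, e x = y) {C : ℕ} (hC : 3 ∣ C) {X : Finset ℂ}
    (hX : ∀ r ∈ X, s.Cond C r) (hX' : ∀ r, s.Cond C r → ∃ r₀ ∈ X, ∃ n, r / r₀ ∈ s.K n) :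
    ∃ A, A.Finite ∧ (HQ (Hq N) C A).Finite := by
  obtain ⟨ρ, hρ, hρ'⟩ := St.exists_res s.toSt s.N
  choose sec hsec using hρ
  refine ⟨Set.range fun g => (s.v.comap ((sec g : ℂ →+* ℂ).comp e)).valuationSubring,
    Set.finite_range _, ?_⟩
  let T : ℂ → Set (Hq N →* (AlgebraicClosure K)ˣ) := fun r₀ => {ψ | ∃ r : AlgebraicClosure K,
    r ≠ 0 ∧ (∀ g : Hq N, g.1 r = (ψ g : AlgebraicClosure K) * r) ∧ ∃ n, e r / r₀ ∈ s.K n}
  refine (X.finite_toSet.biUnion (t := T) fun r₀ h0 => Set.Subsingleton.finite ?_).subset ?_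
  · rintro ψ ⟨r, hr, k1, n, hn⟩ ψ' ⟨r', hr', k1', n', hn'⟩
    have hm : e (r / r') ∈ s.K (max n n') := by
      rw [map_div₀, ← div_div_div_cancel_right₀ (hX r₀ h0).1]
      exact div_mem (Cb.K_mono s (le_max_left _ _) hn) (Cb.K_mono s (le_max_right _ _) hn')
    have hf := (fixed_Hq h1 h2 h3 he).2 ⟨_, hm⟩
    ext g
    have k3 := hf g.1 g.2
    rw [map_div₀, k1, k1', div_eq_div_iff (mul_ne_zero (Units.ne_zero _) hr') hr'] at k3
    exact mul_right_cancel₀ (mul_ne_zero hr hr') (by linear_combination k3)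
  · rintro ψ ⟨⟨T', hl⟩, hc3, hψ⟩
    obtain ⟨r, hr, k1⟩ := kummerQ ψ T' hl hc3
    have hfix : ∀ V : ValuationSubring (AlgebraicClosure K), (V.valuation C = 1 ∨
        V ∈ Set.range fun g => (s.v.comap ((sec g : ℂ →+* ℂ).comp e)).valuationSubring) →
        ∀ g ∈ Hq N, InQ V g → g r = r := by
      intro V hV g hg hi
      have k3 := k1 ⟨g, hg⟩
      rw [hψ V hV ⟨g, hg⟩ hi] at k3
      simpa using k3
    have hc : s.Cond C (e r) := by
      refine ⟨(map_ne_zero e).2 hr, ?_,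
        fun V σ => m5_unr h1 he hC (fun V hV => hfix V (Or.inl hV)) V σ, fun a => ?_⟩
      · rw [← map_pow]
        refine (fixed_Hq h1 h2 h3 he).1 fun g hg => ?_
        have k3 := k1 ⟨g, hg⟩
        rw [map_pow, k3, mul_pow, ← Units.val_pow_eq_pow_val, hc3, Units.val_one, one_mul]
      · refine ⟨sec (ρ a), fun x hx => ?_, m5_loc h1 he _ (hfix _ (Or.inr ⟨ρ a, rfl⟩))⟩
        exact (hρ' _ ⟨x, hx⟩).symm.trans (by rw [hsec]; exact hρ' a ⟨x, hx⟩)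
    obtain ⟨r₀, h0, hn⟩ := hX' _ hc
    exact Set.mem_biUnion h0 ⟨r, hr, k1, hn⟩

end Pool.Agent.P.MP_20768c_nt.Tz.Cv

end

-- part Cv.D2
section

set_option autoImplicit false

open Complex NumberField IsDedekindDomain Filter Topology
open UpperHalfPlane hiding I
open scoped ComplexConjugate Real MatrixGroups

namespace Pool.Agent.P.MP_20768c_nt.Tz.Cv

open Pool.Agent.P.MP_20768c_nt.Tz.EQ (Lt pr sp IsLat jL qN)

theorem d2_fin {T : Set ℂ} (hT : T.Finite) (h : ∀ x ∈ T, IsAlgebraic ℚ x ∧ x ≠ 0) :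
    ∃ C : ℕ, C ≠ 0 ∧ ∀ V : ValuationSubring ℂ, V.valuation C = 1 →
      ∀ x ∈ T, V.valuation x = 1 := by
  induction T, hT using Set.Finite.induction_on with
  | empty => exact ⟨1, one_ne_zero, fun _ _ _ hx => absurd hx (Set.notMem_empty _)⟩
  | @insert a T _ _ ih =>
    obtain ⟨C, h1, h2⟩ := ih fun x hx => h x (Set.mem_insert_of_mem _ hx)
    obtain ⟨D, k1, k2⟩ := exists_nat_mul (h a (Set.mem_insert _ _)).1 (h a (Set.mem_insert _ _)).2
    refine ⟨C * D, mul_ne_zero h1 k1, fun V hV x hx => ?_⟩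
    rcases hx with rfl | hx
    · exact k2 V (v_nat_dvd _ (dvd_mul_left D C) hV)
    · exact h2 V (v_nat_dvd _ (dvd_mul_right C D) hV) x hx

theorem d2_tri {Γ : Type} [LinearOrderedCommGroupWithZero Γ] {v : Valuation ℂ Γ} {a b c : ℂ}
    (h : v (a - c) < 1) (h' : v (b - c) < 1) : v (a - b) < 1 := by
  rw [show a - b = (a - c) - (b - c) by ring]
  exact v.map_sub_lt h h'

theorem d2_xx {L : Lt} (h : IsLat L) {z w : ℂ} (e : z + w ∈ L ∨ z - w ∈ L) :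
    XX L z = XX L w := by
  rcases e with e | e
  · rw [XX, XX, ← wp_neg h w, wp_congr h (w := -w) (by rwa [sub_neg_eq_add])]
  · rw [XX, XX, wp_congr h e]

theorem d2_xm (L : Lt) (r z : ℂ) : xm L (UU L) r z = XX L z + r := rfl

namespace St

variable (s : St) {Γ : Type} [LinearOrderedCommGroupWithZero Γ] {C m : ℕ} {b g : Ideal s.O}

theorem exists_C0 : ∃ C, s.IsC0 C := by
  have hJ : (s.CM 1 ∪ {0, 6, 1728}).Finite := (s.CM_finite one_pos).union (Set.toFinite _)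
  have hA : ∀ x ∈ s.CM 1 ∪ {0, 6, 1728}, IsAlgebraic ℚ x := by
    rintro x (hx | rfl | rfl | rfl)
    · exact s.CM_alg one_pos hx
    · exact isAlgebraic_zero
    · exact_mod_cast isAlgebraic_natCast (R := ℚ) (A := ℂ) 6
    · exact_mod_cast isAlgebraic_natCast (R := ℚ) (A := ℂ) 1728
  obtain ⟨C, h1, h2⟩ := d2_fin ((hJ.image2 (fun x y : ℂ => x - y) hJ).sdiff (t := {0})) (by
    rintro _ ⟨⟨x, hx, y, hy, rfl⟩, h0⟩
    exact ⟨(hA x hx).sub (hA y hy), h0⟩)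
  have hj : ∀ L : s.Sub, IsUnit L → jL (s.zl L) ∈ s.CM 1 ∪ {0, 6, 1728} := fun L hL =>
    Or.inl (Or.inr ⟨L, hL, Or.inl rfl⟩)
  refine ⟨C, h1, fun V hV => ⟨?_, fun L hL => ?_, fun L M hL hM h => ?_⟩⟩
  · exact h2 V hV 6 ⟨⟨6, by simp, 0, by simp, sub_zero _⟩, by norm_num⟩
  · obtain ⟨k1, k2⟩ := (g23_iff (s.isLat_zl hL)).1 (s.g23_ne hL)
    exact ⟨h2 V hV _ ⟨⟨_, hj L hL, 0, by simp, sub_zero _⟩, k1⟩,
      h2 V hV _ ⟨⟨_, hj L hL, 1728, by simp, rfl⟩, k2⟩⟩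
  · by_contra hne
    exact h.ne (h2 V hV _ ⟨⟨_, hj L hL, _, hj M hM, rfl⟩, sub_ne_zero.2 hne⟩)

theorem art_frob (hC : s.IsC0 C) (V : ValuationSubring ℂ) (hV : V.valuation C = 1)
    (hm : V.valuation m = 1) {q : Ideal s.O} (hq : q.IsPrime) (h0 : q ≠ ⊥)
    (hv : ∀ x ∈ q, V.valuation (s.c x) < 1) (σ : s.Au)
    (hσ : FrobOn V.valuation (Ideal.absNorm q) σ (s.CM m)) : s.Art m σ q := by
  obtain ⟨h6, hj, hsep⟩ := hC.2 V hV
  have hm0 : 0 < m := Nat.pos_of_ne_zero fun e => by simp [e] at hm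
  have hcop : IsCoprime q (Ideal.span {(m : s.O)}) := by
    refine Ideal.isCoprime_iff_sup_eq.2 ((hq.isMaximal h0).1.2 _ (lt_of_le_of_ne le_sup_left
      fun e => ?_))
    have := hv m (e ▸ Ideal.mem_sup_right (Ideal.mem_span_singleton_self _))
    rw [s.c_nat] at this
    exact this.ne hm
  refine ⟨h0, hcop, fun L hL => ?_, fun ζ hζ => ?_⟩
  · have hL' : IsUnit (L * s.inv q) := hL.mul (s.isUnit_inv h0)
    have l1 := s.isLat_zl hL
    have l2 := s.isLat_zl hL'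
    have hle := s.le_mul_inv h0 L
    obtain ⟨R, hR⟩ := exists_reps l1 l2 (s.zl_le.2 hle)
    obtain ⟨l, a, hl, hlq, -, hN⟩ := s.norm_prime hq h0
    have hc := s.reps_card' hL h0 hR
    have G1 := good_zero h6 l1 (hj L hL).1 (hj L hL).2
    have G2 := good_zero h6 l2 (hj _ hL').1 (hj _ hL').2
    obtain ⟨f1, f2⟩ := frob_cong h6 l1 l2 hR (hj L hL).1 (hj L hL).2 (hj _ hL').1 (hj _ hL').2 hl
      (by have := hv l hlq; rwa [s.c_nat] at this) (hc.trans hN)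
      fun t ht => s.E1_prime _ hL G1 hq h0 hv (s.mem_zl.1 (hR.2.2.1 t ht))
    rw [hc] at f1 f2
    obtain ⟨M, hM, e1, e2⟩ := s.stab σ hL
    have e3 : jL (s.zl (L * s.inv q)) = jL (s.zl M) := hsep _ _ hL' hM (d2_tri f1
      (e1 ▸ hσ _ (Or.inr ⟨L, hL, Or.inl rfl⟩) (hj L hL).1.le))
    refine ⟨e1.trans e3.symm, fun z hz hz' => ?_⟩
    obtain ⟨x, hx, rfl⟩ := (s.j_eq hL' hM).1 e3
    obtain ⟨z', k1, k2, k3⟩ := e2 m z hz' hz
    obtain ⟨y, rfl⟩ : ∃ y, z' = x * y := ⟨x⁻¹ * z', (mul_inv_cancel_left₀ hx z').symm⟩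
    rw [mul_left_comm (m : ℂ)] at k2
    rw [s.mul_mem_sc' hx] at k1 k2
    rw [s.zl_sc, XX_sc _ hx] at k3
    have k4 : z ∉ L * s.inv q := fun h => hz' (s.mem_of_cop h0 hcop h fun β hβ => by
      obtain ⟨γ, rfl⟩ := Ideal.mem_span_singleton'.1 hβ
      rw [s.c_mul, s.c_nat, mul_assoc]
      exact s.c_mul_mem γ hz)
    have n1 : ¬ E1 V.valuation (s.zl L) (UU (s.zl L)) 0 z := fun h =>
      hz' (s.mem_zl.1 (E1_tors l1 G1 hm h (s.mem_zl.2 hz)))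
    have t2 : ∀ y : ℂ, m * y ∈ L * s.inv q →
        E1 V.valuation (s.zl (L * s.inv q)) (UU (s.zl (L * s.inv q))) 0 y →
        y ∈ s.zl (L * s.inv q) := fun y hy h => E1_tors l2 G2 hm h (s.mem_zl.2 hy)
    have k5 := (xm_le n1).2
    rw [d2_xm, add_zero] at k5
    have k6 := d2_tri (k3 ▸ hσ _ (Or.inr ⟨L, hL, Or.inr ⟨z, hz, hz', rfl⟩⟩) k5) (f2 z n1)
    rw [k3]
    refine d2_xx l2 ((xm_inj l2 G2 (fun h => k1 (s.mem_zl.1 (t2 y k2 h)))
      (fun h => k4 (s.mem_zl.1 (t2 z (hle hz) h)))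
      (by rwa [d2_xm, d2_xm, add_zero, add_zero])).imp (t2 _ ?_) (t2 _ ?_))
    · rw [mul_add]
      exact add_mem k2 (hle hz)
    · rw [mul_sub]
      exact sub_mem k2 (hle hz)
  · refine root_inj V.valuation hm ?_ ?_ (hσ ζ (Or.inl hζ) (v_root _ hm0 hζ).le)
    · rw [← map_pow, hζ, map_one]
    · rw [← pow_mul, mul_comm, pow_mul, hζ, one_pow]

theorem art_inertG (v : Valuation ℂ Γ) (r : ℚ)
    (hG : ∀ L : s.Sub, IsUnit L → Good v (s.zl L) (UU (s.zl L)) r)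
    (hs : ∀ L M : s.Sub, IsUnit L → IsUnit M → v (jL (s.zl L) - jL (s.zl M)) < 1 →
      jL (s.zl L) = jL (s.zl M)) (hm : 0 < m) {σ : s.Au} (hA : s.Art m σ b) (hI : Inert v σ)
    (hg : (m : s.O) ∈ g) {β : s.O} (hβ : β ∈ g) (hv : v (s.c β) = 1) : s.cl g (s.ip b) = 1 := by
  obtain ⟨hb, hcop, hA, -⟩ := hA
  have hg0 : g ≠ ⊥ := fun e => by
    rw [e, Ideal.mem_bot] at hg
    exact hm.ne' (by exact_mod_cast hg)
  have hL := s.isUnit_idl hg0
  have hL' : IsUnit (s.idl g * s.inv b) := hL.mul (s.isUnit_inv hb)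
  have l1 := s.isLat_zl hL
  obtain ⟨e1, e2⟩ := hA _ hL
  have e3 := hs _ _ hL' hL (e1 ▸ hI _ (s.CM_alg hm (Or.inr ⟨_, hL, Or.inl rfl⟩)) (s.j_int v hL))
  obtain ⟨x, hx, e4⟩ := (s.j_eq hL hL').1 e3.symm
  have e5 : s.inv b = s.sc x := hL.mul_left_cancel (e4.trans (mul_comm _ _))
  have e6 : s.idl b = s.sc x⁻¹ := by
    have := s.idl_inv hb
    rw [e5] at this
    rw [← one_mul (s.sc x⁻¹), ← this, mul_assoc, ← s.sc_mul, mul_inv_cancel₀ hx, s.sc_one, mul_one]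
  obtain ⟨β₀, -, e7⟩ := s.mem_idl.1 (e6 ▸ s.mem_sc x⁻¹)
  have e8 : b = Ideal.span {β₀} := by
    rw [← e7, ← s.idl_span] at e6
    exact le_antisymm (s.idl_le.1 e6.le) (s.idl_le.1 e6.ge)
  have hβ0 : β₀ ≠ 0 := fun e => hb (by rw [e8, e, Ideal.span_singleton_eq_bot])
  rw [e8, s.cl_ip_span g hβ0, s.cl_np_eq_one]
  by_cases ht : g = ⊤
  · exact Or.inl (ht ▸ Submodule.mem_top)
  have kill : ∀ γ : s.O, E1 v (s.zl (s.idl g)) (UU (s.zl (s.idl g))) r (s.c γ) → γ ∈ g :=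
    fun γ h => s.c_mem_idl.1 (s.E1_kill v hL (hG _ hL) hv h (by
      rw [← s.c_mul]
      exact s.c_mem_idl.2 (g.mul_mem_right γ hβ)))
  have n1 : (1 : s.O) ∉ g := fun h => ht ((Ideal.eq_top_iff_one g).2 h)
  have n2 : β₀ ∉ g := fun h => ht (eq_top_iff.2 ((Ideal.isCoprime_iff_sup_eq.1 hcop).ge.trans
    (sup_le (e8 ▸ (Ideal.span_singleton_le_iff_mem g).2 h)
      ((Ideal.span_singleton_le_iff_mem g).2 hg))))
  have k1 : (m : ℂ) * s.c 1 ∈ s.idl g := by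
    rw [s.c_one, mul_one, ← s.c_nat]
    exact s.c_mem_idl.2 hg
  have k2 : s.c 1 ∉ s.idl g := fun h => n1 (s.c_mem_idl.1 h)
  have k3 : σ (XX (s.zl (s.idl g)) (s.c 1)) = XX (s.zl (s.idl g)) (s.c β₀) := by
    rw [e2 _ k1 k2, e4, s.zl_sc, ← XX_sc _ hx (s.c β₀), e7, mul_inv_cancel₀ hx, s.c_one]
  have k4 : IsAlgebraic ℚ (xm (s.zl (s.idl g)) (UU (s.zl (s.idl g))) r (s.c 1)) :=
    (s.CM_alg hm (Or.inr ⟨_, hL, Or.inr ⟨_, k1, k2, rfl⟩⟩)).add (isAlgebraic_ratCast ℚ r)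
  have k5 := hI _ k4 (xm_le fun h => n1 (kill 1 h)).2
  rw [d2_xm, map_add, k3, map_ratCast, ← d2_xm, ← d2_xm] at k5
  refine (xm_inj l1 (hG _ hL) (fun h => n2 (kill _ h)) (fun h => n1 (kill _ h)) k5).symm.imp
    (fun h => kill _ ?_) fun h => kill _ ?_
  · rwa [s.c_sub]
  · rwa [s.c_add]

theorem art_inert (hC : s.IsC0 C) (V : ValuationSubring ℂ) (hV : V.valuation C = 1)
    (hm : V.valuation m = 1) {σ : s.Au} (hA : s.Art m σ b) (hI : Inert V.valuation σ) :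
    s.cl (Ideal.span {(m : s.O)}) (s.ip b) = 1 := by
  obtain ⟨h6, hj, hsep⟩ := hC.2 V hV
  have hm0 : 0 < m := Nat.pos_of_ne_zero fun e => by simp [e] at hm
  refine s.art_inertG V.valuation 0 (fun L hL => ?_) hsep hm0 hA hI
    (Ideal.mem_span_singleton_self _) (Ideal.mem_span_singleton_self _) (by rwa [s.c_nat])
  rw [Rat.cast_zero]
  exact good_zero h6 (s.isLat_zl hL) (hj L hL).1 (hj L hL).2

theorem art_inert2 (hm : 0 < m) {σ : s.Au} (hA : s.Art m σ b) (hI : Inert s.v σ)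
    (hg : (m : s.O) ∈ g) (hp : ¬ g ≤ s.p1) : s.cl g (s.ip b) = 1 := by
  obtain ⟨β, h1, h2⟩ := SetLike.not_le_iff_exists.1 hp
  refine s.art_inertG s.v (-1 / 12) (fun L hL => ?_) (fun L M => s.j_sep) hm hA hI hg h1
    (le_antisymm (s.v_c _ β) (not_lt.1 fun h => h2 ((s.mem_p1 β).2 h)))
  rw [show ((-1 / 12 : ℚ) : ℂ) = -1 / 12 by norm_num]
  exact s.good_three s.v s.v_three hL

end St

end Pool.Agent.P.MP_20768c_nt.Tz.Cv

end

-- part Cv.D3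
section

set_option autoImplicit false

open Complex NumberField IsDedekindDomain Filter Topology
open UpperHalfPlane hiding I
open scoped ComplexConjugate Real MatrixGroups

namespace Pool.Agent.P.MP_20768c_nt.Tz.Cv

open Pool.Agent.P.MP_20768c_nt.Tz.EQ (Lt pr sp IsLat jL qN)

namespace St

variable {s : St} {C m : ℕ} {a b : Ideal s.O}

theorem d3_nat_mem {L : s.Sub} {z : ℂ} (h : z ∈ L) (k : ℕ) : (k : ℂ) * z ∈ L := by
  rw [← s.c_nat]
  exact s.c_mul_mem _ h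

theorem d3_not_mem {L : s.Sub} {z : ℂ} (hb : b ≠ ⊥) (hc : IsCoprime b (Ideal.span {(m : s.O)}))
    (h1 : m * z ∈ L) (h2 : z ∉ L) : z ∉ L * s.inv b := fun h => h2 <|
  s.mem_of_cop hb hc h fun β hβ => by
    obtain ⟨t, rfl⟩ := Ideal.mem_span_singleton'.1 hβ
    rw [c_mul, c_nat, mul_assoc]
    exact s.c_mul_mem _ h1

theorem d3_span_ne (hm : 0 < m) : Ideal.span {(m : s.O)} ≠ ⊥ := by
  rw [Ne, Ideal.span_singleton_eq_bot]
  exact_mod_cast hm.ne'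

theorem d3_one_mem (hb : b ≠ ⊥) : (1 : ℂ) ∈ s.inv b := by
  have h := (s.ip b).mem
  rwa [ip_ρ, s.ip_L hb] at h

theorem d3_idl (s : St) (m : ℕ) : s.idl (Ideal.span {(m : s.O)}) = s.sc m := by
  rw [idl_span, c_nat]

theorem d3_XX {L : s.Sub} {x : ℂ} (hx : x ≠ 0) (z : ℂ) :
    XX (s.zl (s.sc x * L)) (x * z) = XX (s.zl L) z := by
  rw [zl_sc, XX_sc _ hx]

theorem d3_val (F : IntermediateField s.k ℂ) {V : ValuationSubring ℂ} {Q : Ideal (𝓞 F)}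
    (hV : ∀ x : 𝓞 F, V.valuation ((x : F) : ℂ) < 1 ↔ x ∈ Q) {n : ℕ} (h : (n : 𝓞 F) ∉ Q) :
    V.valuation n = 1 := by
  have h1 := s.v_c V.valuation n
  rw [c_nat] at h1
  refine h1.antisymm (not_lt.1 fun h2 => h ((hV _).1 ?_))
  simpa using h2

theorem art_one (s : St) (m : ℕ) : s.Art m (1 : s.Au) ⊤ := by
  refine ⟨top_ne_bot, ?_, fun L _ => ?_, fun ζ _ => ?_⟩
  · rw [← Ideal.one_eq_top]
    exact isCoprime_one_left
  · rw [inv_top, mul_one]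
    exact ⟨rfl, fun _ _ _ => rfl⟩
  · rw [Ideal.absNorm_top, pow_one]
    rfl

theorem Art.mul {σ τ : s.Au} (h : s.Art m σ a) (h' : s.Art m τ b) : s.Art m (σ * τ : s.Au) (a * b) := by
  obtain ⟨a0, a1, a2, a3⟩ := h
  obtain ⟨b0, b1, b2, b3⟩ := h'
  refine ⟨mul_ne_zero a0 b0, a1.mul_left b1, fun L hL => ?_, fun ζ hζ => ?_⟩
  · have e : L * s.inv (a * b) = L * s.inv b * s.inv a := by
      rw [s.inv_mul a0 b0, mul_assoc, mul_comm (s.inv a)]
    obtain ⟨k1, k2⟩ := b2 L hL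
    obtain ⟨k3, k4⟩ := a2 _ (hL.mul (s.isUnit_inv b0))
    rw [e]
    refine ⟨by rw [AlgEquiv.mul_apply, k1, k3], fun z z1 z2 => ?_⟩
    rw [AlgEquiv.mul_apply, k2 z z1 z2,
      k4 z (s.le_mul_inv b0 L z1) (d3_not_mem b0 b1 z1 z2)]
  · rw [AlgEquiv.mul_apply, b3 ζ hζ, map_pow, a3 ζ hζ, map_mul, pow_mul]

theorem Art.mono {σ : ℂ → ℂ} {m' : ℕ} (h : s.Art m' σ a) (hd : m ∣ m') : s.Art m σ a := by
  obtain ⟨k, rfl⟩ := hd
  obtain ⟨a0, a1, a2, a3⟩ := h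
  refine ⟨a0, ?_, fun L hL => ⟨(a2 L hL).1, fun z z1 z2 => (a2 L hL).2 z ?_ z2⟩,
    fun ζ hζ => a3 ζ (by rw [pow_mul, hζ, one_pow])⟩
  · rw [Nat.cast_mul, ← Ideal.span_singleton_mul_span_singleton] at a1
    exact a1.of_mul_right_left
  · rw [Nat.cast_mul, mul_comm (m : ℂ), mul_assoc]
    exact d3_nat_mem z1 k

theorem Art.congr {σ σ' : ℂ → ℂ} (h : s.Art m σ a) (e : ∀ x ∈ s.CM m, σ' x = σ x) : s.Art m σ' a := by
  obtain ⟨a0, a1, a2, a3⟩ := h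
  refine ⟨a0, a1, fun L hL => ⟨?_, fun z z1 z2 => ?_⟩, fun ζ hζ => ?_⟩
  · rw [e _ (Or.inr ⟨L, hL, Or.inl rfl⟩), (a2 L hL).1]
  · rw [e _ (Or.inr ⟨L, hL, Or.inr ⟨z, z1, z2, rfl⟩⟩), (a2 L hL).2 z z1 z2]
  · rw [e _ (Or.inl hζ), a3 ζ hζ]

theorem Art.eq_on {σ σ' : ℂ → ℂ} (h : s.Art m σ a) (h' : s.Art m σ' a) {x : ℂ} (hx : x ∈ s.CM m) :
    σ x = σ' x := by
  rcases hx with hx | ⟨L, hL, rfl | ⟨z, z1, z2, rfl⟩⟩
  · rw [h.2.2.2 x hx, h'.2.2.2 x hx]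
  · rw [(h.2.2.1 L hL).1, (h'.2.2.1 L hL).1]
  · rw [(h.2.2.1 L hL).2 z z1 z2, (h'.2.2.1 L hL).2 z z1 z2]

theorem Art.unit {σ : ℂ → ℂ} {n : Ideal s.O} (h : s.Art m σ a) (hm : 0 < m) (hn : (m : s.O) ∈ n) :
    IsUnit (s.cl n (s.ip a)) := by
  have hle : Ideal.span {(m : s.O)} ≤ n := (Ideal.span_singleton_le_iff_mem _).2 hn
  refine s.unit_mono hle ((s.unit_cl (d3_span_ne hm)).2 ?_)
  rw [s.idOf_ip h.1]
  exact h.2.1

theorem Art.cl_eq {σ : ℂ → ℂ} (hm : 0 < m) (h : s.Art m σ a) (h' : s.Art m σ b) :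
    s.cl (Ideal.span {(m : s.O)}) (s.ip a) = s.cl (Ideal.span {(m : s.O)}) (s.ip b) := by
  obtain ⟨a0, a1, a2, -⟩ := h
  obtain ⟨b0, b1, b2, -⟩ := h'
  have hL : IsUnit (s.sc m) := s.isUnit_sc (by exact_mod_cast hm.ne')
  have hA := hL.mul (s.isUnit_inv a0)
  have hB := hL.mul (s.isUnit_inv b0)
  obtain ⟨x, x0, hx⟩ := (s.j_eq hA hB).1 ((a2 _ hL).1.symm.trans (b2 _ hL).1)
  have e : s.inv b = s.sc x * s.inv a := hL.mul_left_cancel (by rw [hx, mul_left_comm])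
  have key : 1 - x ∈ s.sc m * s.inv b ∨ 1 + x ∈ s.sc m * s.inv b := by
    by_cases h1 : (1 : ℂ) ∈ s.sc m
    · left
      have k1 : x * 1 ∈ s.inv b := by
        rw [e]
        exact Submodule.mul_mem_mul (s.mem_sc x) (d3_one_mem a0)
      have k2 := Submodule.mul_mem_mul h1 (sub_mem (d3_one_mem b0) k1)
      rwa [one_mul, mul_one] at k2
    · have m1 : (m : ℂ) * 1 ∈ s.sc m := by
        rw [mul_one]
        exact s.mem_sc _
      have k1 := ((b2 _ hL).2 1 m1 h1).symm.trans ((a2 _ hL).2 1 m1 h1)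
      rw [← d3_XX (L := s.sc m * s.inv a) x0, ← hx] at k1
      have k2 : x * 1 ∉ s.sc m * s.inv b := by
        rw [hx, s.mul_mem_sc' x0]
        exact d3_not_mem a0 a1 m1 h1
      have k3 := s.XX_inj hB (d3_not_mem b0 b1 m1 h1) k2 k1
      rwa [mul_one] at k3
  rw [s.cl_eq]
  rcases key with k | k
  · refine ⟨x, x0, by rw [s.ip_L a0, s.ip_L b0, e], ?_⟩
    rwa [ip_ρ, ip_ρ, s.ip_L b0, d3_idl, mul_one]
  · have e' : s.sc (-x) = s.sc x := by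
      rw [sc, sc, ← Set.neg_singleton, Submodule.span_neg]
    refine ⟨-x, neg_ne_zero.2 x0, by rw [s.ip_L a0, s.ip_L b0, e', e], ?_⟩
    rwa [ip_ρ, ip_ρ, s.ip_L b0, d3_idl, mul_one, sub_neg_eq_add]

theorem Art.of_cl {σ : ℂ → ℂ} (hm : 0 < m) (h : s.Art m σ a) (hb : b ≠ ⊥)
    (e : s.cl (Ideal.span {(m : s.O)}) (s.ip a) = s.cl (Ideal.span {(m : s.O)}) (s.ip b)) :
    s.Art m σ b := by
  have hu := h.unit hm (Ideal.mem_span_singleton_self _)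
  rw [e, s.unit_cl (d3_span_ne hm), s.idOf_ip hb] at hu
  obtain ⟨a0, -, a2, a3⟩ := h
  have hN := s.Qn_mod le_rfl e
  rw [s.Qn_ip a0, s.Qn_ip hb] at hN
  obtain ⟨x, x0, h1, h2⟩ := s.cl_eq.1 e
  rw [s.ip_L a0, s.ip_L hb] at h1
  rw [ip_ρ, ip_ρ, s.ip_L hb, d3_idl, mul_one, mem_sc_mul] at h2
  obtain ⟨y, y1, y2⟩ := h2
  refine ⟨hb, hu, fun L hL => ?_, fun ζ hζ => ?_⟩
  · have e1 : L * s.inv b = s.sc x * (L * s.inv a) := by rw [h1, mul_left_comm]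
    have hA := hL.mul (s.isUnit_inv a0)
    have hB := hL.mul (s.isUnit_inv hb)
    refine ⟨(a2 L hL).1.trans ((s.j_eq hA hB).2 ⟨x, x0, e1⟩), fun z z1 z2 => ?_⟩
    rw [(a2 L hL).2 z z1 z2, ← d3_XX (L := L * s.inv a) x0, ← e1, XX, XX]
    congr 1
    refine (wp_congr (s.isLat_zl hB) ?_).symm
    have e2 : z - x * z = m * z * y := by linear_combination -z * y2
    rw [mem_zl, e2]
    exact Submodule.mul_mem_mul z1 y1
  · rw [a3 ζ hζ, pow_eq_pow_mod _ hζ, hN, ← pow_eq_pow_mod _ hζ]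

theorem frob_art (hC : s.IsC0 C) (hm : 0 < m) (F : IntermediateField s.k ℂ) [NumberField F]
    [IsGalois s.k F] (Q : Ideal (𝓞 F)) (hQ : Q.IsPrime) (h0 : Q ≠ ⊥) (h1 : (C : 𝓞 F) ∉ Q)
    (h2 : (m : 𝓞 F) ∉ Q) : ∃ σ : s.Au, s.Art m σ (Q.under s.O) ∧
      ∀ g : F ≃ₐ[s.k] F, (∀ x : F, ((g x : F) : ℂ) = σ x) → FrobAt g Q := by
  have : FiniteDimensional s.k F := Module.Finite.of_restrictScalars_finite ℚ s.k F
  obtain ⟨α, hα⟩ := Field.exists_primitive_element s.k F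
  obtain ⟨F', i1, i2, hF⟩ := s.exists_gal ((s.CM_finite hm).insert (α : ℂ)) (by
    rintro x (rfl | hx)
    · exact s.alg_of_mem F α.2
    · exact s.CM_alg hm hx)
  have hle : ∀ x : F, (x : ℂ) ∈ F' := fun x => by
    have k : IntermediateField.adjoin s.k {α} ≤ F'.comap F.val :=
      IntermediateField.adjoin_simple_le_iff.2 (hF _ (Set.mem_insert _ _))
    exact k (hα ▸ IntermediateField.mem_top)
  obtain ⟨V, hV⟩ := s.exists_val F Q hQ h0
  have hq : ∀ x, V.valuation (s.c x) < 1 ↔ x ∈ Q.under s.O := fun x => by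
    obtain ⟨y, -, hy⟩ := (s.under_mem F ⊤ x).1 trivial
    rw [s.under_mem F]
    refine ⟨fun h => ⟨y, (hV y).1 (hy ▸ h), hy⟩, ?_⟩
    rintro ⟨z, z1, z2⟩
    exact z2 ▸ (hV z).2 z1
  have q0 : Q.under s.O ≠ ⊥ := fun h => by
    have k1 : ((Ideal.absNorm Q : ℕ) : s.O) ∈ Q.under s.O := by
      rw [Ideal.mem_under, map_natCast]
      exact Ideal.absNorm_mem Q
    rw [h, Ideal.mem_bot, Nat.cast_eq_zero, Ideal.absNorm_eq_zero_iff] at k1
    exact h0 k1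
  obtain ⟨σ, hσ⟩ := s.frobOn F' V.valuation q0 hq
  refine ⟨σ, s.art_frob hC V (d3_val F hV h1) (d3_val F hV h2) inferInstance q0
    (fun x hx => (hq x).2 hx) σ fun x hx => hσ x (hF x (Set.mem_insert_of_mem _ hx)),
    fun g hg x y hy => (hV _).1 ?_⟩
  have k1 : IsIntegral ℤ ((x : F) : ℂ) := x.isIntegral_coe.map (F.val.toRingHom.toIntAlgHom)
  have k2 := hσ _ (hle x) (v_int V.valuation k1)
  rw [← hg, ← hy] at k2
  simpa using k2

theorem exists_art (hm : 0 < m) (σ : s.Au) : ∃ b, s.Art m σ b := by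
  obtain ⟨C, hC⟩ := s.exists_C0
  obtain ⟨F, i1, i2, hF⟩ := s.exists_gal (s.CM_finite hm) fun x hx => s.CM_alg hm hx
  have : NumberField F := NumberField.of_module_finite s.k F
  obtain ⟨ρ, -, hρ⟩ := s.exists_res F
  let M : Submonoid (F ≃ₐ[s.k] F) :=
    { carrier := {g | ∃ (τ : s.Au) (b : Ideal s.O), s.Art m τ b ∧ ρ τ = g}
      one_mem' := ⟨1, ⊤, s.art_one m, map_one ρ⟩
      mul_mem' := by
        rintro _ _ ⟨τ, b, h, rfl⟩ ⟨τ', b', h', rfl⟩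
        exact ⟨τ * τ', b * b', h.mul h', map_mul ρ _ _⟩ }
  let H : Subgroup (F ≃ₐ[s.k] F) :=
    { M with
      inv_mem' := fun {g} hg => by
        obtain ⟨n, hn⟩ : g⁻¹ ∈ Submonoid.powers g :=
          mem_powers_iff_mem_zpowers.2 (inv_mem (Subgroup.mem_zpowers g))
        exact hn ▸ M.pow_mem hg n }
  have hH : H = ⊤ := dens H (mul_ne_zero hC.1 hm.ne') fun Q hQ h0 h1 => by
    rw [Nat.cast_mul] at h1
    obtain ⟨τ, t1, t2⟩ := frob_art hC hm F Q hQ h0 (fun h => h1 (Q.mul_mem_right _ h))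
      fun h => h1 (Q.mul_mem_left _ h)
    exact ⟨ρ τ, ⟨τ, _, t1, rfl⟩, t2 _ (hρ τ)⟩
  obtain ⟨τ, b, h, e⟩ : ρ σ ∈ H := hH ▸ Subgroup.mem_top _
  exact ⟨b, h.congr fun x hx => by rw [← hρ σ ⟨x, hF x hx⟩, ← e, hρ τ]⟩

theorem art_surj (hm : 0 < m) (hb : b ≠ ⊥) (h : IsCoprime b (Ideal.span {(m : s.O)})) :
    ∃ σ : s.Au, s.Art m σ b := by
  obtain ⟨C, hC⟩ := s.exists_C0
  obtain ⟨F, i1, i2, -⟩ := s.exists_gal Set.finite_empty fun _ hx => hx.elim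
  have : NumberField F := NumberField.of_module_finite s.k F
  have key : ∀ a : Ideal s.O, a ≠ ⊥ →
      IsCoprime a (Ideal.span {(m : s.O)} * Ideal.span {(C : s.O)}) → ∃ σ : s.Au, s.Art m σ a := by
    intro a
    induction a using UniqueFactorizationMonoid.induction_on_prime with
    | h₁ => exact fun h => (h rfl).elim
    | h₂ a ha =>
      rw [Ideal.isUnit_iff.1 ha]
      exact fun _ _ => ⟨1, s.art_one m⟩
    | h₃ a p a0 hp ih =>
      intro _ hc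
      obtain ⟨τ, hτ⟩ := ih a0 hc.of_mul_left_right
      have p1 : p.IsPrime := Ideal.isPrime_of_prime hp
      have p2 : p.IsMaximal := p1.isMaximal hp.ne_zero
      obtain ⟨Q, q1, q2⟩ := Ideal.exists_maximal_ideal_liesOver_of_isIntegral (S := 𝓞 F) p
      have e : Q.under s.O = p := q2.over.symm
      have hn : ∀ n : ℕ, IsCoprime p (Ideal.span {(n : s.O)}) → (n : 𝓞 F) ∉ Q := fun n hn h' => by
        have k : (n : s.O) ∈ p := by rwa [← e, Ideal.mem_under, map_natCast]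
        rw [Ideal.isCoprime_iff_sup_eq,
          sup_eq_left.2 ((Ideal.span_singleton_le_iff_mem _).2 k)] at hn
        exact p1.ne_top hn
      obtain ⟨σ, hσ, -⟩ := frob_art hC hm F Q q1.isPrime
        (Ideal.ne_bot_of_liesOver_of_ne_bot hp.ne_zero Q)
        (hn C hc.of_mul_left_left.of_mul_right_right) (hn m hc.of_mul_left_left.of_mul_right_left)
      exact ⟨σ * τ, e ▸ hσ.mul hτ⟩
  have hu : IsUnit (s.cl (Ideal.span {(m : s.O)}) (s.ip b)) := by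
    rwa [s.unit_cl (d3_span_ne hm), s.idOf_ip hb]
  obtain ⟨a, a0, a1, a2⟩ := s.exists_rep (d3_span_ne hm) hu (d3_span_ne (Nat.pos_of_ne_zero hC.1))
  obtain ⟨σ, hσ⟩ := key a a0 a1
  exact ⟨σ, hσ.of_cl hm hb a2⟩

theorem exists_artHom (s : St) (hm : 0 < m) :
    ∃ A : s.Au →* (s.Pr (Ideal.span {(m : s.O)}))ˣ, Function.Surjective A ∧
      ∀ (σ : s.Au) (b : Ideal s.O), s.Art m σ b ↔
        b ≠ ⊥ ∧ (A σ : s.Pr (Ideal.span {(m : s.O)})) = s.cl _ (s.ip b) := by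
  choose f hf using fun σ : s.Au => exists_art hm σ
  have hu := fun σ => (hf σ).unit hm (Ideal.mem_span_singleton_self _)
  refine ⟨MonoidHom.mk' (fun σ => (hu σ).unit) fun σ τ => Units.ext ?_, fun u => ?_,
    fun σ b => ⟨fun h => ⟨h.1, (hf σ).cl_eq hm h⟩, fun h => (hf σ).of_cl hm h.1 h.2⟩⟩
  · rw [Units.val_mul, IsUnit.unit_spec, IsUnit.unit_spec, IsUnit.unit_spec, ← map_mul,
      ← s.ip_mul (hf σ).1 (hf τ).1]
    exact (hf _).cl_eq hm ((hf σ).mul (hf τ))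
  · obtain ⟨b, b0, b1, b2⟩ := s.exists_rep (d3_span_ne hm) (s.unit_out u) top_ne_bot
    obtain ⟨σ, hσ⟩ := art_surj hm b0 b1.of_mul_right_left
    exact ⟨σ, Units.ext (((hf σ).cl_eq hm hσ).trans (b2.trans (s.cl_out _)))⟩

theorem alg_of_art (hm : 0 < m) {x : ℂ} (h : ∀ σ : s.Au, s.Art m σ ⊤ → σ x = x) :
    IsAlgebraic ℚ x := by
  obtain ⟨F, i1, i2, hF⟩ := s.exists_gal (s.CM_finite hm) fun x hx => s.CM_alg hm hx
  exact s.alg_of_mem F (s.mem_of_fixed F fun σ hσ =>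
    h σ ((s.art_one m).congr fun y hy => hσ y (hF y hy)))

end St

end Pool.Agent.P.MP_20768c_nt.Tz.Cv

end

-- part Cv.U0_p
section

set_option autoImplicit false

open Complex NumberField IsDedekindDomain Filter Topology
open UpperHalfPlane hiding I
open scoped ComplexConjugate Real MatrixGroups

namespace Pool.Agent.P.MP_20768c_nt.Tz.Cv

open Pool.Agent.P.MP_20768c_nt.Tz.EQ (Lt pr sp IsLat jL qN)

namespace St

variable {s : St} {f : Ideal s.O} {c n : ℕ} {p : s.Pair} {sb : (ZMod (3 ^ n))ˣ → s.Au}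
  {κ : (ZMod (3 ^ n))ˣ →* (s.Pr (s.md f n))ˣ}

theorem u0p_abs {M A B : Type} [CommMonoid M] [Monoid A] [CommMonoid B] (π' : M →* A) (ν : M →* B)
    (hk : ∀ C, π' C = 1 → ν C = 1 → C = 1) {x : M} (u : Mˣ) (h1 : π' x = π' u) (h2 : ν x = ν u) :
    x = u := by
  rw [← Units.mul_inv_eq_one]
  refine hk _ ?_ ?_
  · rw [map_mul, h1, ← map_mul, Units.mul_inv, map_one]
  · rw [map_mul, h2, ← map_mul, Units.mul_inv, map_one]

theorem u0p_sec {M A B : Type} [CommMonoid M] [Monoid A] [CommMonoid B] (π' : M →* A) (ν : M →* B)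
    (hk : ∀ C, π' C = 1 → ν C = 1 → C = 1) (hex : ∀ b, ∃ C, π' C = 1 ∧ ν C = b) :
    ∃ κ : Bˣ →* Mˣ, ∀ b, π' (κ b) = 1 ∧ ν (κ b) = b := by
  choose C h1 h2 using hex
  have hi : ∀ b : Bˣ, C b * C (b⁻¹ : Bˣ) = 1 := fun b =>
    hk _ (by rw [map_mul, h1, h1, one_mul]) (by rw [map_mul, h2, h2, Units.mul_inv])
  let k : Bˣ → Mˣ := fun b => Units.mkOfMulEqOne _ _ (hi b)
  have hv : ∀ b, (k b : M) = C b := fun _ => rfl
  refine ⟨⟨⟨k, Units.ext (hk _ (h1 _) (h2 _))⟩, fun a b => Units.ext ?_⟩, fun b => ⟨h1 _, h2 _⟩⟩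
  refine u0p_abs π' ν hk _ ?_ ?_
  · rw [Units.val_mul, map_mul, hv, hv, hv, h1, h1, h1, one_mul]
  · rw [Units.val_mul, map_mul, hv, hv, hv, h2, h2, h2, Units.val_mul]

theorem u0p_dvd {N : ℕ} {z : ℤ} (h : (z : s.O) ∈ Ideal.span {(N : s.O)}) : (N : ℤ) ∣ z := by
  obtain ⟨y, hy⟩ := Ideal.mem_span_singleton'.1 h
  obtain ⟨a, b, rfl⟩ := s.span y
  have := s.indep (a := a * N - z) (b := b * N) (by push_cast; linear_combination hy)
  exact ⟨a, by linarith [this.1]⟩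

theorem u0p_conj : ∃ e : s.O ≃+* s.O, (∀ j, ∀ x ∈ s.p1 ^ j, e x ∈ s.p2 ^ j) ∧
    (∀ j, ∀ x ∈ s.p2 ^ j, e x ∈ s.p1 ^ j) ∧
    ∀ x, ((Ideal.absNorm (Ideal.span {x}) : ℕ) : s.O) = x * e x := by
  obtain ⟨e, e1, e3, e2⟩ := s.exists_conj
  have k : ∀ {a b : Ideal s.O}, Ideal.map e a ≤ b → ∀ j, ∀ x ∈ a ^ j, e x ∈ b ^ j := by
    intro a b h j x hx
    have := Ideal.mem_map_of_mem e hx
    rw [Ideal.map_pow] at this
    exact Ideal.pow_right_mono h j this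
  refine ⟨e, k ?_, k ?_, fun x => s.c_inj ?_⟩
  · rw [p1, p2, Ideal.map_span, Set.image_pair, map_ofNat, e1]
  · rw [p1, p2, Ideal.map_span, Set.image_pair, map_ofNat, e3]
  · rw [c_nat, c_mul, e2, Complex.mul_conj, Complex.normSq_eq_norm_sq, ← s.norm_c]
    norm_cast

theorem u0p_cop (hf : ¬ 3 ∣ Ideal.absNorm f) : IsCoprime (f * s.p2 ^ n) s.p1 := by
  have h := s.cop_iff.1 hf
  rw [← s.p1_mul_p2] at h
  exact h.of_mul_right_left.mul_left s.cop12.symm.pow_left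

theorem u0p_two (n : ℕ) : s.p1 ^ n * s.p2 ^ n = Ideal.span {((3 ^ n : ℕ) : s.O)} := by
  rw [← mul_pow, s.p1_mul_p2, Ideal.span_singleton_pow]
  push_cast
  rfl

theorem u0p_md : f * s.p2 ^ n * s.p1 ^ n = s.md f n := by
  rw [mul_assoc, mul_comm (s.p2 ^ n), u0p_two, md]
  push_cast
  rfl

theorem u0p_ker (hf : ¬ 3 ∣ Ideal.absNorm f) (h1 : s.cl (f * s.p2 ^ n) p = 1)
    (h2 : (s.Qn p : ZMod (3 ^ n)) = 1) : s.cl (s.md f n) p = 1 := by
  obtain ⟨β, hβ, e⟩ := s.ker_proj (s.md f n) h1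
  obtain ⟨ν, hν⟩ := s.exists_nm (s.md_le f n).2.1
  rw [← hν, e, hν, Qn_np, ← Nat.cast_one (R := ZMod (3 ^ n)), ZMod.natCast_eq_natCast_iff] at h2
  obtain ⟨τ, -, t2, t3⟩ := u0p_conj (s := s)
  have a1 : τ β - 1 ∈ s.p1 ^ n := by
    simpa using t2 n _ (Ideal.mul_le_right hβ)
  have a2 : 1 - β * τ β ∈ s.p1 ^ n := by
    obtain ⟨y, hy⟩ := h2.dvd
    have hy' := congrArg (Int.cast : ℤ → s.O) hy
    push_cast at hy'
    rw [← t3, hy']
    refine Ideal.mul_mem_right _ _ (Ideal.mul_le_left (J := s.p2 ^ n) ?_)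
    rw [u0p_two]
    exact Ideal.mem_span_singleton.2 ⟨1, by push_cast; ring⟩
  have a3 : β - 1 ∈ s.p1 ^ n := by
    have := neg_mem (add_mem (Ideal.mul_mem_left _ β a1) a2)
    rwa [show -(β * (τ β - 1) + (1 - β * τ β)) = β - 1 by ring] at this
  rw [e, cl_np_eq_one, ← u0p_md, Ideal.mul_eq_inf_of_isCoprime (u0p_cop hf).pow_right]
  exact Or.inl ⟨hβ, a3⟩

theorem u0p_ex (hf : ¬ 3 ∣ Ideal.absNorm f) (j : ℕ) : ∃ β : s.O,
    s.cl (f * s.p2 ^ n) (s.np β) = 1 ∧ (s.Qn (s.np β) : ZMod (3 ^ n)) = j := by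
  obtain ⟨y, hy, x, hx, e⟩ := Ideal.isCoprime_iff_exists.1 ((u0p_cop (n := n) hf).pow_right (n := n))
  have b1 : j * y + x - 1 ∈ f * s.p2 ^ n := by
    rw [show j * y + x - 1 = (j - 1) * y by linear_combination e]
    exact Ideal.mul_mem_left _ _ hy
  have b2 : j * y + x - j ∈ s.p1 ^ n := by
    rw [show j * y + x - j = (1 - j) * x by linear_combination (j : s.O) * e]
    exact Ideal.mul_mem_left _ _ hx
  generalize j * y + x = β at b1 b2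
  refine ⟨β, s.cl_np_eq_one.2 (Or.inl b1), ?_⟩
  obtain ⟨τ, t1, t2, t3⟩ := u0p_conj (s := s)
  have b3 : β - 1 ∈ s.p2 ^ n := Ideal.mul_le_right b1
  have a1 : τ β - 1 ∈ s.p1 ^ n := by simpa using t2 n _ b3
  have a2 : τ β - j ∈ s.p2 ^ n := by simpa using t1 n _ b2
  have a3 : j - β * τ β ∈ s.p1 ^ n * s.p2 ^ n := by
    rw [Ideal.mul_eq_inf_of_isCoprime s.cop12.pow]
    constructor
    · have := neg_mem (add_mem (Ideal.mul_mem_left _ β a1) b2)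
      rwa [show -(β * (τ β - 1) + (β - j)) = j - β * τ β by ring] at this
    · have := neg_mem (add_mem (Ideal.mul_mem_left _ (τ β) b3) a2)
      rwa [show -(τ β * (β - 1) + (τ β - j)) = j - β * τ β by ring] at this
  rw [u0p_two, ← t3] at a3
  rw [Qn_np, ZMod.natCast_eq_natCast_iff, Nat.modEq_iff_dvd]
  exact u0p_dvd (s := s) (by simpa only [Int.cast_sub, Int.cast_natCast] using a3)

theorem u0p_maps (hf : ¬ 3 ∣ Ideal.absNorm f) (n : ℕ) :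
    ∃ (π' : s.Pr (s.md f n) →* s.Pr (f * s.p2 ^ n)) (ν : s.Pr (s.md f n) →* ZMod (3 ^ n)),
      (∀ p, π' (s.cl _ p) = s.cl _ p) ∧ (∀ p, ν (s.cl _ p) = s.Qn p) ∧
      ∀ C, π' C = 1 → ν C = 1 → C = 1 := by
  obtain ⟨π', h1⟩ := s.exists_proj (s.md_le f n).2.2
  obtain ⟨ν, h2⟩ := s.exists_nm (s.md_le f n).2.1
  refine ⟨π', ν, h1, h2, fun C a b => ?_⟩
  rw [← s.cl_out C] at a b ⊢
  exact u0p_ker hf (h1 _ ▸ a) (h2 _ ▸ b)

theorem kap_unique (hf : ¬ 3 ∣ Ideal.absNorm f) {q : s.Pair} (hp : IsUnit (s.cl (s.md f n) p))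
    (hq : IsUnit (s.cl (s.md f n) q)) (h1 : s.cl (f * s.p2 ^ n) p = s.cl (f * s.p2 ^ n) q)
    (h2 : (s.Qn p : ZMod (3 ^ n)) = s.Qn q) : s.cl (s.md f n) p = s.cl (s.md f n) q := by
  obtain ⟨π', ν, k1, k2, k3⟩ := u0p_maps hf n
  exact u0p_abs π' ν k3 hq.unit (by rw [hq.unit_spec, k1, k1, h1]) (by rw [hq.unit_spec, k2, k2, h2])

theorem exists_kap (hf : ¬ 3 ∣ Ideal.absNorm f) (n : ℕ) : ∃ κ, s.Kap f n κ := by
  obtain ⟨π', ν, k1, k2, k3⟩ := u0p_maps hf n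
  obtain ⟨κ, hκ⟩ := u0p_sec π' ν k3 fun b => by
    obtain ⟨β, a1, a2⟩ := u0p_ex (n := n) hf b.val
    exact ⟨s.cl _ (s.np β), by rw [k1, a1], by rw [k2, a2, ZMod.natCast_zmod_val]⟩
  refine ⟨κ, fun b => by rw [← k2, cl_out, (hκ b).2], fun b => by rw [← k1, cl_out, (hκ b).1],
    fun m σ a b hm hmem hA hI hz => u0p_abs π' ν k3 _ ?_ ?_⟩
  · rw [k1, (hκ b).1]
    refine s.art_inert2 hm hA hI ((s.md_le f n).2.2 hmem) fun h => s.p1_max.ne_top ?_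
    have := Ideal.isCoprime_iff_sup_eq.1 (u0p_cop (n := n) hf)
    rwa [sup_eq_right.2 h] at this
  · obtain ⟨y, hy⟩ : 3 ^ n ∣ m := Int.natCast_dvd_natCast.1
      (u0p_dvd (s := s) (by simpa only [Int.cast_natCast] using (s.md_le f n).2.1 hmem))
    have h1 := hA.2.2.2 (zt n) (by rw [hy, pow_mul, zt_pow, one_pow])
    have h2 : IsPrimitiveRoot (zt n) (3 ^ n) := by
      simpa [zt] using Complex.isPrimitiveRoot_exp (3 ^ n) (by positivity)
    rw [hz, (h2.isOfFinOrder (by positivity)).pow_eq_pow_iff_modEq, ← h2.eq_orderOf,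
      ← ZMod.natCast_eq_natCast_iff, ZMod.natCast_zmod_val] at h1
    rw [k2, (hκ b).2, s.Qn_ip hA.1, h1]

theorem kap_cl (hκ : s.Kap f n κ) (C : (s.Pr (s.md f n))ˣ) (b : (ZMod (3 ^ n))ˣ) :
    s.cl (f * s.p2 ^ n) (s.out (C * κ b).1) = s.cl (f * s.p2 ^ n) (s.out C.1) ∧
      (s.Qn (s.out (C * κ b).1) : ZMod (3 ^ n)) = s.Qn (s.out C.1) * b := by
  obtain ⟨π', h1⟩ := s.exists_proj (s.md_le f n).2.2
  obtain ⟨ν, h2⟩ := s.exists_nm (s.md_le f n).2.1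
  have a := hκ.1 b
  have a' := hκ.2.1 b
  rw [← h2, cl_out] at a
  rw [← h1, cl_out] at a'
  constructor
  · rw [← h1, ← h1, cl_out, cl_out, Units.val_mul, map_mul, a', mul_one]
  · rw [← h2, ← h2, cl_out, cl_out, Units.val_mul, map_mul, a]

theorem kap_sum {A : Type} [AddCommMonoid A] (hf : f ≠ ⊥) (hκ : s.Kap f n κ)
    (b₀ : (ZMod (3 ^ n))ˣ) (Φ : (s.Pr (s.md f n))ˣ → A) : ∑ᶠ C, Φ C =
      ∑ᶠ C ∈ {C : (s.Pr (s.md f n))ˣ | (s.Qn (s.out C.1) : ZMod (3 ^ n)) = b₀}, ∑ b, Φ (C * κ b) := by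
  classical
  have := s.finite_Pr (s.md_ne hf n)
  have := Fintype.ofFinite (s.Pr (s.md f n))ˣ
  obtain ⟨ν, h2⟩ := s.exists_nm (s.md_le f n).2.1
  have a : ∀ b, Units.map ν (κ b) = b := fun b => Units.ext (by
    have := hκ.1 b
    rwa [← h2, cl_out] at this)
  have e : {C : (s.Pr (s.md f n))ˣ | (s.Qn (s.out C.1) : ZMod (3 ^ n)) = b₀} =
      ↑(Finset.univ.filter fun C : (s.Pr (s.md f n))ˣ => Units.map ν C = b₀) := by
    ext C
    rw [Set.mem_ofPred_eq, ← h2, cl_out, Finset.coe_filter, Set.mem_ofPred_eq, Units.ext_iff]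
    simp
  rw [e, finsum_mem_coe_finset, finsum_eq_sum_of_fintype, ← Finset.sum_product']
  refine (Finset.sum_nbij' (fun x => x.1 * κ x.2)
    (fun C => (C * (κ (Units.map ν C * b₀⁻¹))⁻¹, Units.map ν C * b₀⁻¹)) (by simp) ?_ ?_ ?_
    fun _ _ => rfl).symm
  · intro C _
    simp only [Finset.mem_product, Finset.mem_filter, Finset.mem_univ, true_and, and_true, map_mul,
      map_inv, a]
    rw [mul_inv_rev, inv_inv, mul_mul_inv_cancel'_right]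
  · rintro ⟨C, b⟩ h
    simp only [Finset.mem_product, Finset.mem_filter, Finset.mem_univ, true_and, and_true] at h
    have k : Units.map ν (C * κ b) * b₀⁻¹ = b := by
      rw [map_mul, h, a, mul_inv_cancel_comm]
    simp only [k, mul_inv_cancel_right]
  · intro C _
    simp only [inv_mul_cancel_right]

end St

end Pool.Agent.P.MP_20768c_nt.Tz.Cv

end
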