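import Pool.Agent.P.MP_20768c_nt.Tz.Z4
import Pool.Agent.P.MP_20768c_nt.Tz.Z8
import Pool.Agent.P.MP_20768c_nt.Tz.Z9
import Pool.Agent.P.MP_20768c_nt.Tz.Z11
import Pool.Agent.P.MP_20768c_nt.Tz.Z12
import Pool.Agent.P.MP_20768c_nt.Tz.Z13
import Pool.Agent.P.MP_20768c_nt.Tz.Z14
import Pool.Agent.P.MP_20768c_nt.Tz.Z15

-- part Cv.K7
section

set_option autoImplicit false

open Complex NumberField IsDedekindDomain Filter Topology
open UpperHalfPlane hiding I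
open scoped ComplexConjugate Real MatrixGroups

namespace Pool.Agent.P.MP_20768c_nt.Tz.Cv

open Pool.Agent.P.MP_20768c_nt.Tz.EQ (Lt pr sp IsLat jL qN)

namespace Cb

variable {s : Cb} {n : ℕ} {sb : (ZMod (3 ^ n))ˣ → s.Au}

theorem k7_v (σ : s.Au) (ε : (𝓞 (s.K n))ˣ) : s.v (σ (s.uc ε)) = 1 := by
  obtain ⟨e, he⟩ := unit_aut σ n
  rw [← he, v_uc]

theorem k7_fx (σ : s.Au) (ε : (𝓞 (s.K n))ˣ) : σ (s.uc ε) ∈ s.Fx n :=
  K_fx (K_aut σ (uc_mem ε))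

theorem exists_Phi (hn : 2 ≤ n) (hs : s.IsSec n sb) :
    ∃ Φ : (𝓞 (s.K n))ˣ →* Multiplicative (s.Au → s.κ),
      (∀ ε σ, (Φ ε).toAdd σ = s.del n sb (σ (s.uc ε))) ∧ Φ.ker = s.KD n sb ∧ s.ZZ n ≤ s.KD n sb := by
  let Φ : (𝓞 (s.K n))ˣ →* Multiplicative (s.Au → s.κ) := MonoidHom.mk'
    (fun ε => Multiplicative.ofAdd (fun σ : s.Au => s.del n sb (σ (s.uc ε)))) (fun ε ε' => by
      rw [← ofAdd_add]
      refine congrArg Multiplicative.ofAdd (funext fun σ => ?_)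
      rw [uc_mul, map_mul]
      exact St.del_mul hn hs (k7_fx σ ε) (k7_fx σ ε') (k7_v σ ε) (k7_v σ ε'))
  have hk : ∀ ε, ε ∈ Φ.ker ↔ ∀ σ : s.Au, s.del n sb (σ (s.uc ε)) = 0 := fun ε =>
    ⟨fun h σ => congrFun (congrArg Multiplicative.toAdd h) σ,
      fun h => congrArg Multiplicative.ofAdd (funext h)⟩
  have hker : Φ.ker = s.KD n sb := by
    rw [KD, ← Subgroup.closure_eq Φ.ker]
    exact congrArg Subgroup.closure (Set.ext hk)
  have hcu : ∀ η, η ^ 3 ∈ Φ.ker := fun η => by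
    rw [MonoidHom.mem_ker, map_pow]
    refine Multiplicative.toAdd.injective (funext fun σ => ?_)
    rw [toAdd_pow, Pi.smul_apply, nsmul_eq_mul, Nat.cast_ofNat, St.three_κ, zero_mul]
    rfl
  refine ⟨Φ, fun _ _ => rfl, hker, ?_⟩
  rw [← hker, ZZ, Subgroup.closure_le]
  rintro ε (⟨η, rfl⟩ | h | h)
  · exact hcu η
  · obtain ⟨m, b, hm, hb⟩ := k7_p_tors (by omega) h
    refine k7_p_cop _ hm ((hk _).2 fun σ => ?_) (hcu ε)
    obtain ⟨c, hc⟩ := root_zt (n := n) (x := σ (s.uc (ε ^ m))) (by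
      rw [← map_pow, hb, pow_right_comm, zt_pow, one_pow, map_one])
    rw [hc]
    exact St.del_root hn hs c
  · refine (hk _).2 fun σ => St.del_fix hn hs (k7_fx σ ε) ((map_ne_zero σ).2 (k7_p_ne ε)) ?_
    refine (K_tau hn (fun x hx => inert_fix_N (hs _).1 hx) ?_
      (K_aut σ (uc_mem ε))).2 (K_aut σ h)
    rw [(hs _).2, zt_tau hn]

theorem rk_le (hn : 2 ≤ n) (hs : s.IsSec n sb) (u : (𝓞 (s.K n))ˣ) {H : Subgroup (𝓞 (s.K n))ˣ}
    (hH : s.CC u ≤ H) : 3 ^ s.rk' n sb (s.uc u) ≤ (s.KD n sb).relIndex H := by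
  obtain ⟨Φ, h1, h2, h3⟩ := exists_Phi hn hs
  have h0 : Φ.ker.index ≠ 0 := fun h => (s.ZZ_index hn).1
    (Nat.eq_zero_of_zero_dvd (h ▸ Subgroup.index_dvd_of_le (h2 ▸ h3)))
  have h4 : Φ.ker.relIndex H ≠ 0 := fun h => h0
    (Nat.eq_zero_of_zero_dvd (h ▸ Subgroup.relIndex_dvd_index_of_normal _ _))
  rw [← h2]
  rw [Subgroup.relIndex_ker] at h4 ⊢
  have : Finite (H.map Φ) := Nat.finite_of_card_ne_zero h4
  have : Finite (AddSubgroup.toSubgroup.symm (H.map Φ)) := this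
  refine three_pow_le s.two_κ (AddSubgroup.toSubgroup.symm (H.map Φ)) ?_
  rintro _ ⟨h, rfl⟩
  obtain ⟨e, he⟩ := unit_aut h n
  refine ⟨e u, hH (Subgroup.subset_closure (Or.inr (Or.inr ⟨h, he u⟩))), ?_⟩
  refine Multiplicative.toAdd.injective (funext fun g => ?_)
  rw [h1, he]
  rfl

theorem kd_of_cube (hn : 2 ≤ n) (hs : s.IsSec n sb) {ε : (𝓞 (s.K n))ˣ} {r : ℂ}
    (hr : r ^ 3 = s.uc ε) (h : ∀ σ : s.Au, ∃ n', σ r ∈ s.Fx n') : ε ∈ s.KD n sb := by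
  refine Subgroup.subset_closure fun σ => ?_
  obtain ⟨n', h'⟩ := h σ
  have e : σ (s.uc ε) = σ r ^ 3 := by rw [← hr, map_pow]
  have hv := k7_v σ ε
  have hx := k7_fx σ ε
  rw [e] at hx hv ⊢
  rw [map_pow] at hv
  exact St.del_cube hn hs hx h' ((pow_eq_one_iff_left three_ne_zero).1 hv)

end Cb

end Pool.Agent.P.MP_20768c_nt.Tz.Cv

end

-- part Cv.D4
section

set_option autoImplicit false

open Complex NumberField IsDedekindDomain Filter Topology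
open UpperHalfPlane hiding I
open scoped ComplexConjugate Real MatrixGroups

namespace Pool.Agent.P.MP_20768c_nt.Tz.Cv

open Pool.Agent.P.MP_20768c_nt.Tz.EQ (Lt pr sp IsLat jL qN)

theorem d4_wpd_gen {Λ : Lt} {z w : ℂ} (h : IsLat Λ) (hz : z ∉ Λ) (hw : w ∉ Λ)
    (hp : z + w ∉ Λ) (hm : z - w ∉ Λ) : wpd Λ z * wpd Λ w / UU Λ ^ 3 =
      -((XX Λ (z + w) - XX Λ (z - w)) * (XX Λ z - XX Λ w) ^ 2) := by
  have e := wp_sub_wp h hz hw hp hm
  have e' : wpd Λ z * wpd Λ w =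
      -((wp Λ (z + w) - wp Λ (z - w)) * (wp Λ z - wp Λ w) ^ 2) := by linear_combination e
  rw [e', XX, XX, XX, XX, ← sub_div, ← sub_div, div_pow, div_mul_div_comm, neg_div, ← pow_succ']

theorem d4_wpd_sq {Λ : Lt} {z : ℂ} (h : IsLat Λ) (h2 : g2 Λ ≠ 0) (h3 : g3 Λ ≠ 0) (hU : UU Λ ≠ 0)
    (hz : z ∉ Λ) : wpd Λ z * wpd Λ z / UU Λ ^ 3 = 4 * XX Λ z ^ 3 -
      jL Λ / (12 * (jL Λ - 1728)) * XX Λ z + jL Λ / (216 * (jL Λ - 1728)) := by
  have e3 : jL Λ / (216 * (jL Λ - 1728)) = -(g3 Λ / UU Λ ^ 3) := by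
    rw [g3_UU h h2 h3, neg_neg]
  rw [← sq, wpd_sq h hz, e3, ← g2_UU h h2 h3, XX]
  field_simp
  ring

theorem d4_term {A d p x e U : ℂ} (hU : U ≠ 0) :
    3 / (A / p) * (d / (x - e)) = 3 * (d * p / U ^ 3) / (A / U ^ 2 * (x / U - e / U)) := by
  rw [← sub_div, div_div_eq_mul_div]
  by_cases h : x - e = 0
  · rw [h]; simp
  by_cases hA : A = 0
  · rw [hA]; simp
  field_simp

theorem d4_st_ec {Λ : Lt} {z Q : ℂ} {c : ℕ} (h : IsLat Λ) (h2 : g2 Λ ≠ 0) (h3 : g3 Λ ≠ 0)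
    (hU : UU Λ ≠ 0) (hc : 0 < c) : st Λ Q * ec Λ c z = -∑ᶠ e ∈ XS Λ c,
      3 * (wpd Λ z * wpd Λ Q / UU Λ ^ 3) /
        ((6 * XX Λ Q ^ 2 - jL Λ / (12 * (jL Λ - 1728)) / 2) * (XX Λ z - e / UU Λ)) := by
  have hf := xs_finite h hc
  have e1 : 6 * XX Λ Q ^ 2 - jL Λ / (12 * (jL Λ - 1728)) / 2 =
      (6 * wp Λ Q ^ 2 - g2 Λ / 2) / UU Λ ^ 2 := by
    rw [← g2_UU h h2 h3, XX]
    ring
  rw [ec, finsum_mem_eq_finite_toFinset_sum _ hf, finsum_mem_eq_finite_toFinset_sum _ hf, mul_neg,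
    Finset.mul_sum, e1]
  refine congrArg Neg.neg (Finset.sum_congr rfl fun e _ => ?_)
  rw [st, fa, XX]
  exact d4_term hU

theorem d4_ec_eF {Λ : Lt} {z : ℂ} {m : ℕ} (h : IsLat Λ) (hz : m * z ∈ Λ) (hz' : z ∉ Λ) :
    ec Λ (2 * m + 1) z = ((2 * m + 1) * (2 * m)) * eF Λ z := by
  have e : ((2 * m + 1 : ℕ) : ℂ) * z = z + (m * z + m * z) := by push_cast; ring
  have h2 : (m : ℂ) * z + m * z ∈ Λ := add_mem hz hz
  have hn : ((2 * m + 1 : ℕ) : ℂ) * z ∉ Λ := by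
    rw [e]
    exact fun k => hz' ((add_mem_cancel_right h2).1 k)
  rw [ec_eq h ⟨m, rfl⟩ hn, e, eF_add Λ z h2]
  push_cast
  ring

namespace St

variable {s : St} {m c : ℕ} {b : Ideal s.O} {σ : s.Au} {L : s.Sub} {z w Q : ℂ}

theorem Art.not_mem (hA : s.Art m σ b) (hz : m * z ∈ L) (hz' : z ∉ L) : z ∉ L * s.inv b := by
  intro h
  refine hz' (s.mem_of_cop hA.1 hA.2.1 h fun β hβ => ?_)
  obtain ⟨r, rfl⟩ := Ideal.mem_span_singleton'.1 hβ
  rw [s.c_mul, s.c_nat, mul_assoc]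
  exact s.c_mul_mem r hz

theorem d4_nat (k : ℕ) (h : z ∈ L) : (k : ℂ) * z ∈ L := by
  rw [← s.c_nat]
  exact s.c_mul_mem _ h

theorem d4_sq (hA : s.Art m σ b) (hL : IsUnit L) (hz : m * z ∈ L) (hz' : z ∉ L) :
    σ (wpd (s.zl L) z * wpd (s.zl L) z / UU (s.zl L) ^ 3) =
      wpd (s.zl (L * s.inv b)) z * wpd (s.zl (L * s.inv b)) z / UU (s.zl (L * s.inv b)) ^ 3 := by
  have hL' : IsUnit (L * s.inv b) := hL.mul (s.isUnit_inv hA.1)
  obtain ⟨hj, hX⟩ := hA.2.2.1 L hL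
  rw [d4_wpd_sq (s.isLat_zl hL) (s.g23_ne hL).1 (s.g23_ne hL).2 (s.UU_ne hL) hz',
    d4_wpd_sq (s.isLat_zl hL') (s.g23_ne hL').1 (s.g23_ne hL').2 (s.UU_ne hL')
      (hA.not_mem hz hz')]
  simp only [map_add, map_sub, map_mul, map_pow, map_div₀, map_ofNat, hj, hX z hz hz']

theorem art_wpd (hA : s.Art m σ b) (hL : IsUnit L) (hz : m * z ∈ L) (hw : m * w ∈ L)
    (hz' : z ∉ L) (hw' : w ∉ L) : σ (wpd (s.zl L) z * wpd (s.zl L) w / UU (s.zl L) ^ 3) =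
      wpd (s.zl (L * s.inv b)) z * wpd (s.zl (L * s.inv b)) w / UU (s.zl (L * s.inv b)) ^ 3 := by
  have hL' : IsUnit (L * s.inv b) := hL.mul (s.isUnit_inv hA.1)
  have hl := s.isLat_zl hL
  have hl' := s.isLat_zl hL'
  have hle := s.le_mul_inv hA.1 L
  by_cases hm : z - w ∈ L
  · rw [← wpd_congr hl hm, ← wpd_congr hl' (hle hm)]
    exact d4_sq hA hL hz hz'
  by_cases hp : z + w ∈ L
  · have k : w - -z ∈ L := by rw [sub_neg_eq_add, add_comm]; exact hp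
    rw [wpd_congr hl k, wpd_congr hl' (hle k), wpd_neg hl, wpd_neg hl', mul_neg, mul_neg, neg_div,
      neg_div, map_neg, d4_sq hA hL hz hz']
  obtain ⟨-, hX⟩ := hA.2.2.1 L hL
  have k1 : m * (z + w) ∈ L := by rw [mul_add]; exact add_mem hz hw
  have k2 : m * (z - w) ∈ L := by rw [mul_sub]; exact sub_mem hz hw
  rw [d4_wpd_gen hl hz' hw' hp hm, d4_wpd_gen hl' (hA.not_mem hz hz')
    (hA.not_mem hw hw') (hA.not_mem k1 hp) (hA.not_mem k2 hm)]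
  simp only [map_neg, map_sub, map_mul, map_pow, hX z hz hz', hX w hw hw', hX _ k1 hp, hX _ k2 hm]

theorem art_xs (hA : s.Art m σ b) (hL : IsUnit L) (hc : Odd c) (hd : c ∣ m) :
    Set.BijOn (fun e => σ (e / UU (s.zl L)) * UU (s.zl (L * s.inv b))) (XS (s.zl L) c)
      (XS (s.zl (L * s.inv b)) c) := by
  have hL' : IsUnit (L * s.inv b) := hL.mul (s.isUnit_inv hA.1)
  have hU := s.UU_ne hL
  have hU' := s.UU_ne hL'
  obtain ⟨-, hX⟩ := hA.2.2.1 L hL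
  have h1 : Set.MapsTo (fun e => σ (e / UU (s.zl L)) * UU (s.zl (L * s.inv b))) (XS (s.zl L) c)
      (XS (s.zl (L * s.inv b)) c) := by
    rintro _ ⟨t, k1, k2, rfl⟩
    obtain ⟨r, rfl⟩ := hd
    have k3 : ((c * r : ℕ) : ℂ) * t ∈ L := by
      rw [Nat.cast_mul, mul_comm (c : ℂ), mul_assoc]
      exact d4_nat r (s.mem_zl.1 k1)
    refine ⟨t, s.le_mul_inv hA.1 L k1, hA.not_mem k3 k2, ?_⟩
    have := hX t k3 k2
    rw [XX, XX] at this
    simp only [this, div_mul_cancel₀ _ hU']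
  have h2 : Set.InjOn (fun e => σ (e / UU (s.zl L)) * UU (s.zl (L * s.inv b))) (XS (s.zl L) c) :=
    fun x _ y _ e => (div_left_inj' hU).1 (σ.injective (mul_right_cancel₀ hU' e))
  refine ⟨h1, h2, ?_⟩
  have c1 := xs_card (s.isLat_zl hL) hc
  have c2 := xs_card (s.isLat_zl hL') hc
  refine (Set.eq_of_subset_of_ncard_le h1.image_subset ?_ (xs_finite (s.isLat_zl hL') hc.pos)).ge
  rw [h2.ncard_image]
  omega

theorem art_tht (hA : s.Art m σ b) (hL : IsUnit L) (hc : Odd c) (h3 : c % 3 = 1) (hd : c ∣ m)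
    (hz : m * z ∈ L) (hz' : z ∉ L) : σ (tht (s.zl L) c z) = tht (s.zl (L * s.inv b)) c z := by
  have hL' : IsUnit (L * s.inv b) := hL.mul (s.isUnit_inv hA.1)
  have hl := s.isLat_zl hL
  have hl' := s.isLat_zl hL'
  have hU := s.UU_ne hL
  have hU' := s.UU_ne hL'
  obtain ⟨hj, hX⟩ := hA.2.2.1 L hL
  have hX' := hX z hz hz'
  rw [XX, XX] at hX'
  have hf := xs_finite hl hc.pos
  have e : σ (∏ᶠ e ∈ XS (s.zl L) c, (wp (s.zl L) z / UU (s.zl L) - e / UU (s.zl L))) =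
      ∏ᶠ e ∈ XS (s.zl (L * s.inv b)) c, (wp (s.zl (L * s.inv b)) z / UU (s.zl (L * s.inv b)) -
        e / UU (s.zl (L * s.inv b))) := by
    rw [finprod_mem_eq_finite_toFinset_prod _ hf, map_prod,
      ← finprod_mem_eq_finite_toFinset_prod _ hf]
    refine finprod_mem_eq_of_bijOn _ (art_xs hA hL hc hd) fun x _ => ?_
    rw [map_sub, hX', mul_div_cancel_right₀ _ hU']
  rw [tht_eq hl hc h3 hU, tht_eq hl' hc h3 hU', dl_UU hl (s.g23_ne hL).1 (s.g23_ne hL).2,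
    dl_UU hl' (s.g23_ne hL').1 (s.g23_ne hL').2, map_div₀, map_mul, e, map_natCast, map_pow,
    map_div₀, map_pow, map_pow, map_sub, map_ofNat, hj]

theorem art_st_ec (hA : s.Art m σ b) (hL : IsUnit L) (hc : Odd c) (hd : c ∣ m) (hz : m * z ∈ L)
    (hz' : z ∉ L) (hQ : m * Q ∈ L) (hQ' : Q ∉ L) : σ (st (s.zl L) Q * ec (s.zl L) c z) =
      st (s.zl (L * s.inv b)) Q * ec (s.zl (L * s.inv b)) c z := by
  have hL' : IsUnit (L * s.inv b) := hL.mul (s.isUnit_inv hA.1)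
  have hl := s.isLat_zl hL
  have hl' := s.isLat_zl hL'
  have hU := s.UU_ne hL
  have hU' := s.UU_ne hL'
  obtain ⟨hj, hX⟩ := hA.2.2.1 L hL
  have hf := xs_finite hl hc.pos
  rw [d4_st_ec hl (s.g23_ne hL).1 (s.g23_ne hL).2 hU hc.pos,
    d4_st_ec hl' (s.g23_ne hL').1 (s.g23_ne hL').2 hU' hc.pos, map_neg,
    finsum_mem_eq_finite_toFinset_sum _ hf, map_sum, ← finsum_mem_eq_finite_toFinset_sum _ hf]
  refine congrArg Neg.neg (finsum_mem_eq_of_bijOn _ (art_xs hA hL hc hd) fun x _ => ?_)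
  rw [map_div₀, map_mul, map_mul, art_wpd hA hL hz hQ hz' hQ', map_sub σ (XX (s.zl L) z),
    hX z hz hz', mul_div_cancel_right₀ _ hU']
  simp only [map_sub, map_mul, map_pow, map_div₀, map_ofNat, hj, hX Q hQ hQ']

theorem art_st_eF (hm : 0 < m) (hA : s.Art m σ b) (hL : IsUnit L) (hz : m * z ∈ L) (hz' : z ∉ L)
    (hQ : m * Q ∈ L) (hQ' : Q ∉ L) : σ (st (s.zl L) Q * eF (s.zl L) z) =
      st (s.zl (L * s.inv b)) Q * eF (s.zl (L * s.inv b)) z := by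
  obtain ⟨a, ha⟩ := exists_art (s := s) (m := (2 * m + 1) * m) (by positivity) σ
  have ha' : s.Art m σ a := ha.mono (Dvd.intro_left _ rfl)
  have hLa : IsUnit (L * s.inv a) := hL.mul (s.isUnit_inv ha.1)
  have hLb : IsUnit (L * s.inv b) := hL.mul (s.isUnit_inv hA.1)
  have k : ∀ y : ℂ, m * y ∈ L → (((2 * m + 1) * m : ℕ) : ℂ) * y ∈ L := fun y hy => by
    rw [Nat.cast_mul, mul_assoc]
    exact d4_nat _ hy
  have e := art_st_ec ha hL ⟨m, rfl⟩ (Dvd.intro _ rfl) (k z hz) hz' (k Q hQ) hQ'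
  have hN : ((2 * m + 1) * (2 * m) : ℂ) ≠ 0 := by
    have : (((2 * m + 1) * (2 * m) : ℕ) : ℂ) ≠ 0 := Nat.cast_ne_zero.2 (by positivity)
    simpa using this
  have hσ : σ ((2 * m + 1) * (2 * m) : ℂ) = (2 * m + 1) * (2 * m) := by
    simp only [map_mul, map_add, map_ofNat, map_natCast, map_one]
  rw [d4_ec_eF (s.isLat_zl hL) hz hz', d4_ec_eF (s.isLat_zl hLa) (s.le_mul_inv ha.1 L hz)
    (ha'.not_mem hz hz'), mul_left_comm, map_mul, hσ, mul_left_comm _ ((2 * m + 1) * (2 * m) : ℂ)]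
    at e
  rw [mul_left_cancel₀ hN e]
  obtain ⟨x, hx, h1, h2⟩ := (s.cl_eq).1 (ha'.cl_eq hm hA)
  rw [s.ip_L ha.1, s.ip_L hA.1] at h1
  rw [s.ip_ρ, s.ip_ρ, s.ip_L hA.1, s.idl_span, s.c_nat, mul_one] at h2
  obtain ⟨y, hy, h3⟩ := s.mem_sc_mul.1 h2
  have k2 : ∀ t : ℂ, m * t ∈ L → t - x * t ∈ s.zl (L * s.inv b) := fun t ht => by
    have : t - x * t = m * t * y := by linear_combination (-t) * h3
    rw [this]
    exact s.mem_zl.2 (Submodule.mul_mem_mul ht hy)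
  have e1 : s.zl (L * s.inv b) = pr x * s.zl (L * s.inv a) := by
    rw [h1, mul_left_comm, s.zl_sc]
  have e2 : st (s.zl (L * s.inv b)) Q = x * st (s.zl (L * s.inv a)) Q := by
    rw [← st_sc _ hx, ← e1, st_congr (s.isLat_zl hLb) (k2 Q hQ)]
  have e3 : eF (s.zl (L * s.inv b)) z = eF (s.zl (L * s.inv a)) z / x := by
    rw [← eF_sc _ hx, ← e1, ← eF_add _ (x * z) (k2 z hz), add_sub_cancel]
  rw [e2, e3]
  field_simp

end St

end Pool.Agent.P.MP_20768c_nt.Tz.Cv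

end

-- part Cv.F5
section

set_option autoImplicit false

open Complex NumberField IsDedekindDomain Filter Topology
open UpperHalfPlane hiding I
open scoped ComplexConjugate Real MatrixGroups

namespace Pool.Agent.P.MP_20768c_nt.Tz.Cv

open Pool.Agent.P.MP_20768c_nt.Tz.EQ (Lt pr sp IsLat jL qN)

namespace St

variable {s : St} {G : Type} [Group G] {f : Ideal s.O} {η : (s.Pr (s.lv f))ˣ →* G} {p q : s.Pair}

theorem ev_unit (η : (s.Pr (s.lv f))ˣ →* G) {C : (s.Pr (s.lv f))ˣ} (h : s.cl (s.lv f) p = C) :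
    s.ev η p = η C := by
  have hu : IsUnit (s.cl (s.lv f) p) := h ▸ C.isUnit
  rw [ev, dif_pos hu]
  exact congrArg η (Units.ext (hu.unit_spec.trans h))

theorem ev_congr (h : s.cl (s.lv f) p = s.cl (s.lv f) q) : s.ev η p = s.ev η q := by
  by_cases hq : IsUnit (s.cl (s.lv f) q)
  · rw [ev_unit η (h.trans hq.unit_spec.symm), ev_unit η hq.unit_spec.symm]
  · rw [ev, ev, dif_neg hq, dif_neg (h ▸ hq)]

theorem ev_one : s.ev η 1 = 1 := by
  rw [ev_unit η (C := 1) (map_one _), map_one]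

theorem ev_mul (hp : IsUnit (s.cl (s.lv f) p)) (hq : IsUnit (s.cl (s.lv f) q)) :
    s.ev η (p * q) = s.ev η p * s.ev η q := by
  rw [ev_unit η (C := hp.unit * hq.unit) (by rw [map_mul]; rfl), map_mul,
    ev_unit η hp.unit_spec.symm, ev_unit η hq.unit_spec.symm]

theorem chi_ev (χ : G →* ℂˣ) (hp : IsUnit (s.cl (s.lv f) p)) :
    s.chi η χ (s.cl (s.lv f) p) = χ (s.ev η p) := by
  rw [ev_unit η hp.unit_spec.symm]
  exact MulChar.ofUnitHom_coe (χ.comp η) hp.unit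

theorem f5_hom {n : Ideal s.O} {M : ℕ} (hM : 0 < M) (e : n = Ideal.span {(M : s.O)}) :
    ∃ A : s.Au →* (s.Pr n)ˣ, Function.Surjective A ∧
      ∀ (σ : s.Au) (b : Ideal s.O), s.Art M σ b ↔ b ≠ ⊥ ∧ (A σ : s.Pr n) = s.cl n (s.ip b) := by
  subst e
  exact s.exists_artHom hM

theorem f5_pow {β : s.O} (h : β - 1 ∈ s.lv f) (i : ℕ) : β ^ 3 ^ i - 1 ∈ f * s.p2 ^ (i + 1) := by
  induction i with
  | zero => rwa [pow_zero, zero_add, pow_one, pow_one]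
  | succ i ih =>
    have h1 : β ^ 3 ^ i - 1 ∈ s.p2 :=
      Ideal.pow_le_self (Nat.succ_ne_zero i) (Ideal.mul_le_right ih)
    have e : β ^ 3 ^ (i + 1) - 1 =
        (β ^ 3 ^ i - 1) * ((β ^ 3 ^ i - 1) * (β ^ 3 ^ i - 1) + β ^ 3 ^ i * 3) := by
      rw [pow_succ, pow_mul]
      ring
    rw [e, pow_succ s.p2, ← mul_assoc]
    exact Ideal.mul_mem_mul ih
      (add_mem (Ideal.mul_mem_left _ _ h1) (Ideal.mul_mem_left _ _ s.three_mem.2))

theorem f5_np (β : s.O) (i : ℕ) : s.np (β ^ i) = s.np β ^ i := by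
  induction i with
  | zero => rw [pow_zero, pow_zero, np_one]
  | succ i ih => rw [pow_succ, pow_succ, np_mul, ih]

/-- the `3 ^ j`-th power of a class that is trivial at level `f p2` comes from inertia -/
theorem f5_inert (hf : ¬ 3 ∣ Ideal.absNorm f) {j M : ℕ} (hM : 0 < M) (hm : (M : s.O) ∈ s.md f j)
    (D : (s.Pr (s.md f j))ˣ) (h : s.cl (s.lv f) (s.out D.1) = 1) :
    ∃ (σ : s.Au) (a : Ideal s.O), Inert s.v σ ∧ s.Art M σ a ∧
      s.cl (s.md f j) (s.ip a) = (D ^ 3 ^ j : (s.Pr (s.md f j))ˣ) := by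
  obtain ⟨β, hβ, e⟩ := s.ker_proj (s.md f j) h
  rw [s.cl_out] at e
  have e1 : s.cl (s.md f j) (s.np (β ^ 3 ^ j)) = (D ^ 3 ^ j : (s.Pr (s.md f j))ˣ) := by
    rw [f5_np, map_pow, ← e, Units.val_pow_eq_pow_val]
  obtain ⟨κ, hκ⟩ := exists_kap hf j
  obtain ⟨ν, hν⟩ := s.exists_nm (s.md_le f j).2.1
  obtain ⟨σ, h1, h2⟩ := s.exists_inert j (Units.map ν (D ^ 3 ^ j))
  obtain ⟨a, ha⟩ := exists_art hM σ
  refine ⟨σ, a, h1, ha, ?_⟩
  rw [hκ.2.2 M σ a _ hM hm ha h1 h2, ← e1, ← s.cl_out (κ _).1]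
  refine kap_unique hf (s.unit_out _) (e1 ▸ Units.isUnit _) ?_ ?_
  · rw [hκ.2.1, s.cl_np_eq_one.2 (Or.inl ?_)]
    exact Ideal.mul_mono_right (Ideal.pow_le_pow_right j.le_succ) (f5_pow hβ j)
  · rw [hκ.1, Units.coe_map, ← e1]
    exact hν _

end St

theorem Cb.exists_cut (s : Cb) : ∃ f η, s.Cut f η := by
  obtain ⟨m, hm, hray⟩ := s.ray
  obtain ⟨j, m', hm', e⟩ := St.c1a_split (n := 3 * m) (by omega)
  have hM : 0 < 3 * m := by omega
  have hj : 1 ≤ j := by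
    refine Nat.pos_of_ne_zero fun h => hm' ?_
    rw [h, pow_zero, one_mul] at e
    exact ⟨m, e.symm⟩
  obtain ⟨f, hf0⟩ : ∃ f : Ideal s.O, f = Ideal.span {(m' : s.O)} := ⟨_, rfl⟩
  have hf : ¬ 3 ∣ Ideal.absNorm f := by
    rw [hf0, s.toSt.norm_nat]
    exact fun h => hm' (Nat.prime_three.dvd_of_dvd_pow h)
  have emd : s.md f j = Ideal.span {((3 * m : ℕ) : s.O)} := by
    rw [St.md, hf0, Ideal.span_singleton_mul_span_singleton, e, mul_comm]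
    push_cast
    rfl
  have hmem : ((3 * m : ℕ) : s.O) ∈ s.md f j := emd ▸ Ideal.mem_span_singleton_self _
  obtain ⟨A, hA, hA'⟩ := St.f5_hom hM emd
  obtain ⟨ρ, -, h2⟩ := s.exists_res s.N
  have hk : ∀ σ : s.Au, (∀ x ∈ s.N, σ x = x) → ρ σ = 1 := fun σ hσ =>
    AlgEquiv.ext fun x => Subtype.ext ((h2 σ x).trans (hσ _ x.2))
  have k1 : ∀ σ τ, A σ = A τ → ρ σ = ρ τ := fun σ τ h => by
    rw [← inv_mul_eq_one, ← map_inv, ← map_mul]
    refine hk _ (hray _ (St.Art.mono ((hA' _ ⊤).2 ⟨top_ne_bot, ?_⟩) (dvd_mul_left m 3)))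
    rw [map_mul, map_inv, h, inv_mul_cancel, s.toSt.ip_top, map_one, Units.val_one]
  obtain ⟨π', hπ⟩ := s.toSt.exists_proj (s.toSt.md_le_lv f hj)
  have h0 := s.toSt.cop_ne hf
  have hB : Function.Surjective ((Units.map π').comp A) := fun C => by
    obtain ⟨q, q1, q2⟩ := s.toSt.lift_unit (s.toSt.md_ne h0 j) (s.toSt.lv_ne h0) (s.toSt.unit_out C)
    obtain ⟨σ, hσ⟩ := hA q1.unit
    refine ⟨σ, Units.ext ?_⟩
    rw [MonoidHom.comp_apply, hσ, Units.coe_map, q1.unit_spec, hπ, q2, s.toSt.cl_out]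
  have ke : ((Units.map π').comp A).ker ≤ ρ.ker := fun σ hσ => by
    have h1 : π' (A σ) = 1 := congrArg Units.val (MonoidHom.mem_ker.1 hσ)
    obtain ⟨τ, a, t1, t2, t3⟩ := St.f5_inert hf hM hmem (A σ)
      (by rw [← hπ, s.toSt.cl_out, h1])
    have h3 : ρ σ ^ 3 ^ j = 1 := by
      rw [← map_pow, k1 _ τ (Units.ext (by rw [((hA' τ a).1 t2).2, t3, map_pow])),
        hk τ (s.unr τ t1)]
    have h4 : ρ σ ^ Module.finrank s.k s.N = 1 := by
      rw [← IsGalois.card_aut_eq_finrank, pow_card_eq_one']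
    have h5 := pow_gcd_eq_one.2 ⟨h3, h4⟩
    rwa [Nat.Coprime.gcd_eq_one (Nat.Coprime.pow_left j
      ((Nat.Prime.coprime_iff_not_dvd Nat.prime_three).2 s.ndvd)), pow_one] at h5
  refine ⟨f, ((Units.map π').comp A).liftOfSurjective hB ⟨ρ, ke⟩, hf,
    fun m₁ σ b hm₁ hl hb x => ?_⟩
  obtain ⟨a, ha⟩ := St.exists_art (mul_pos hm₁ hM) σ
  have a1 := ha.mono (dvd_mul_left (3 * m) m₁)
  have a2 := ha.mono (dvd_mul_right m₁ (3 * m))
  rw [St.ev_unit _ (C := (Units.map π').comp A σ) (by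
    rw [s.toSt.cl_mono ((Ideal.span_singleton_le_iff_mem _).2 hl) (hb.cl_eq hm₁ a2),
      MonoidHom.comp_apply, Units.coe_map, ((hA' σ a).1 a1).2, hπ]),
    MonoidHom.liftOfRightInverse_comp_apply]
  exact h2 σ x

end Pool.Agent.P.MP_20768c_nt.Tz.Cv

end

-- part Cv.X7
section

set_option autoImplicit false

open Complex NumberField IsDedekindDomain
open scoped Real

namespace Pool.Agent.P.MP_20768c_nt.Tz.Cv

namespace St

variable (s : St) {m : ℕ}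

theorem x7a_ord {V : ValuationSubring ℂ} {p : HeightOneSpectrum s.O}
    (hq : ∀ x, V.valuation (s.c x) < 1 ↔ x ∈ p.asIdeal) {a b : (s.k)ˣ}
    (h : V.valuation ((a : s.k) : ℂ) = V.valuation ((b : s.k) : ℂ)) :
    f0a_p_ord s.k p a = f0a_p_ord s.k p b := by
  have e := (e1_equiv (algebraMap s.k ℂ) V.valuation p hq).eq_iff.1
    (show (V.valuation.comap (algebraMap s.k ℂ)) a = (V.valuation.comap (algebraMap s.k ℂ)) b from h)
  rw [f0a_p_val, f0a_p_val] at e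
  exact neg_injective (WithZero.exp_injective e)

theorem x7a_sum (p : HeightOneSpectrum s.O) {J : Type} (T : Finset J) (b : J → (s.k)ˣ)
    (c : ℂˣ) : c ^ f0a_p_ord s.k p (∏ j ∈ T, b j) = ∏ j ∈ T, c ^ f0a_p_ord s.k p (b j) := by
  classical
  induction T using Finset.induction_on with
  | empty => rw [Finset.prod_empty, Finset.prod_empty, f0a_p_ord_one, zpow_zero]
  | insert a T ha ih => rw [Finset.prod_insert ha, Finset.prod_insert ha, f0a_p_ord_mul, zpow_add, ih]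

theorem x7_loc (hC : s.IsC0 m) (ψ : s.Au →* ℂˣ) (H : Subgroup s.Au) [H.Normal]
    (hH : ∀ σ ∈ H, ψ σ = 1)
    (hI : ∀ (V : ValuationSubring ℂ) (σ : s.Au), V.valuation m = 1 → Inert V.valuation σ → σ ∈ H)
    {J : Type} [Fintype J] {g : J → s.Au} (hg : Tv H g) {y : ℂ} (hy : ∀ σ ∈ H, σ y = y)
    (ha : IsAlgebraic ℚ y) (β : (s.k)ˣ) (hβ : ((β : s.k) : ℂ) = ∏ j, g j y)
    (p : HeightOneSpectrum s.O) (hp : (m : s.O) ∉ p.asIdeal) :
    ∃ σ : s.Au, s.Art m σ p.asIdeal ∧ ψ σ ^ f0a_p_ord s.k p β = 1 := by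
  have hm : 0 < m := Nat.pos_of_ne_zero hC.1
  obtain ⟨V, hq⟩ := s.x4_val p.isMaximal
  have hV : V.valuation m = 1 := by
    have h1 := s.v_c V.valuation m
    have h2 := (hq m).not.2 hp
    rw [c_nat] at h1 h2
    exact h1.antisymm (not_lt.1 h2)
  have h0 : ∀ j, g j y ≠ 0 := fun j =>
    Finset.prod_ne_zero_iff.1 (hβ ▸ fun h => β.ne_zero (Subtype.ext h)) j (Finset.mem_univ j)
  have hb : ∀ j, ∃ b : (s.k)ˣ, V.valuation (g j y) = V.valuation ((b : s.k) : ℂ) := fun j => by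
    obtain ⟨z, hz, e⟩ := s.val_fixed ⊥ V.valuation (s.au_alg (g j) ha) fun σ h _ => by
      have h1 := hy _ (‹H.Normal›.conj_mem' σ (hI V σ hV h) (g j))
      rw [AlgEquiv.mul_apply, AlgEquiv.mul_apply] at h1
      exact (AlgEquiv.symm_apply_eq _).1 h1
    obtain ⟨b, rfl⟩ := IntermediateField.mem_bot.1 hz
    have b0 : b ≠ 0 := by
      rintro rfl
      rw [map_zero, map_zero] at e
      exact h0 j ((map_eq_zero _).1 e)
    exact ⟨Units.mk0 b b0, e⟩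
  choose b hb using hb
  obtain ⟨F, i1, i2, hF⟩ := s.exists_gal
    ((s.CM_finite hm).union (Set.finite_range fun j => g j y)) (by
      rintro x (hx | ⟨j, rfl⟩)
      · exact s.CM_alg hm hx
      · exact s.au_alg _ ha)
  obtain ⟨σ, hσ⟩ := s.frobOn F V.valuation p.ne_bot hq
  refine ⟨σ, s.art_frob hC V hV hV p.isPrime p.ne_bot (fun x hx => (hq x).2 hx) σ
    fun x hx => hσ x (hF x (Or.inl hx)), ?_⟩
  obtain ⟨e, he⟩ := hg.perm σ
  have h1 : ∀ j, f0a_p_ord s.k p (b (e j)) = f0a_p_ord s.k p (b j) ∧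
      ψ (g (e j)) = ψ σ * ψ (g j) := fun j => by
    obtain ⟨t, ht, h⟩ := he j
    refine ⟨s.x7a_ord hq ?_, by rw [← map_mul, h, map_mul, hH t ht, mul_one]⟩
    have b0 : V.valuation ((b j : s.k) : ℂ) ≠ 0 := hb j ▸ (map_ne_zero _).2 (h0 j)
    have k1 : V.valuation (g j y / ((b j : s.k) : ℂ)) = 1 := by
      rw [map_div₀, hb j, div_self b0]
    have k2 := hσ _ (F.div_mem (hF _ (Or.inr ⟨j, rfl⟩)) (F.algebraMap_mem (b j : s.k))) k1.le
    have k3 : V.valuation ((g j y / ((b j : s.k) : ℂ)) ^ Ideal.absNorm p.asIdeal) = 1 := by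
      rw [map_pow, k1, one_pow]
    have k4 : V.valuation (σ (g j y / ((b j : s.k) : ℂ))) = 1 :=
      (V.valuation.map_eq_of_sub_lt (k3.symm ▸ k2)).trans k3
    have k5 : σ (g j y) = g (e j) y := by
      rw [← AlgEquiv.mul_apply, h, AlgEquiv.mul_apply, hy t ht]
    have k6 : σ ((b j : s.k) : ℂ) = ((b j : s.k) : ℂ) := σ.commutes _
    rw [map_div₀, k5, k6, map_div₀, hb, div_eq_one_iff_eq b0] at k4
    exact k4
  have h2 : f0a_p_ord s.k p β = f0a_p_ord s.k p (∏ j, b j) := s.x7a_ord hq (by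
    rw [hβ, map_prod, Units.coe_prod, IntermediateField.coe_prod, map_prod]
    exact Finset.prod_congr rfl fun j _ => hb j)
  have h3 := Equiv.prod_comp e fun j => ψ (g j) ^ f0a_p_ord s.k p (b j)
  rw [Finset.prod_congr rfl fun j _ => by rw [(h1 j).1, (h1 j).2, mul_zpow],
    Finset.prod_mul_distrib, mul_eq_right] at h3
  rw [h2, s.x7a_sum, h3]

theorem x7b_pow {x : ℂ} {o : ℤ} {c d : ℕ} (h : x ^ o = 1) (e : (c : ℤ) = d + o) :
    x ^ c = x ^ d := by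
  by_cases hx : x = 0
  · rw [hx, zero_zpow_eq_one₀] at h
    rw [h, add_zero, Nat.cast_inj] at e
    rw [e]
  · rw [← zpow_natCast, e, zpow_add₀ hx, h, mul_one, zpow_natCast]

theorem x7b_hom {n : Ideal s.O} (χ : MulChar (s.Pr n) ℂ) :
    ∃ E : Ideal s.O →* ℂ, ∀ a, a ≠ ⊥ → E a = χ (s.cl n (s.ip a)) := by
  classical
  refine ⟨⟨⟨fun a => if a = ⊥ then 0 else χ (s.cl n (s.ip a)), ?_⟩, fun a b => ?_⟩,
    fun a ha => if_neg ha⟩
  · rw [Ideal.one_eq_top, if_neg top_ne_bot, ip_top, map_one, map_one]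
  · dsimp only
    by_cases ha : a = ⊥
    · rw [if_pos ha, if_pos (by rw [ha, Ideal.bot_mul]), zero_mul]
    by_cases hb : b = ⊥
    · rw [if_pos hb, if_pos (by rw [hb, Ideal.mul_bot]), mul_zero]
    rw [if_neg ha, if_neg hb, if_neg (show ¬a * b = ⊥ from mul_ne_zero ha hb), s.ip_mul ha hb,
      map_mul, map_mul]

theorem x7b_fac (E : Ideal s.O →* ℂ) {a b : Ideal s.O} (ha : a ≠ 0) (hb : b ≠ 0)
    (h : ∀ p : HeightOneSpectrum s.O,
      E p.asIdeal ^ (Associates.mk p.asIdeal).count (Associates.mk a).factors =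
        E p.asIdeal ^ (Associates.mk p.asIdeal).count (Associates.mk b).factors) : E a = E b := by
  rw [← Ideal.finprod_heightOneSpectrum_factorization ha,
    ← Ideal.finprod_heightOneSpectrum_factorization hb,
    E.map_finprod (Ideal.hasFiniteMulSupport ha), E.map_finprod (Ideal.hasFiniteMulSupport hb)]
  refine finprod_congr fun p => ?_
  rw [HeightOneSpectrum.maxPowDividing, HeightOneSpectrum.maxPowDividing, map_pow, map_pow, h p]

theorem x7b_zero {a : s.O} (ha : Ideal.span {a} ≠ 0) (p : HeightOneSpectrum s.O)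
    (h : a ∉ p.asIdeal) :
    (Associates.mk p.asIdeal).count (Associates.mk (Ideal.span {a})).factors = 0 := by
  by_contra h0
  exact h (Ideal.le_of_dvd ((Associates.count_ne_zero_iff_dvd ha p.irreducible).1 h0)
    (Ideal.mem_span_singleton_self a))

theorem x7b_ord (β : (s.k)ˣ) {a b : s.O} (ha : Ideal.span {a} ≠ 0) (hb : Ideal.span {b} ≠ 0)
    (e : (b : s.k) * β = a) (p : HeightOneSpectrum s.O) :
    ((Associates.mk p.asIdeal).count (Associates.mk (Ideal.span {a})).factors : ℤ) =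
      (Associates.mk p.asIdeal).count (Associates.mk (Ideal.span {b})).factors +
        f0a_p_ord s.k p β := by
  have e' : algebraMap s.O s.k a = algebraMap s.O s.k b * β := e.symm
  rw [← FractionalIdeal.count_coe s.k p ha, ← FractionalIdeal.count_coe s.k p hb, f0a_p_ord,
    ← FractionalIdeal.count_mul s.k p (FractionalIdeal.coeIdeal_ne_zero.2 hb) (f0a_p_ne s.k β),
    FractionalIdeal.coeIdeal_span_singleton, FractionalIdeal.coeIdeal_span_singleton,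
    FractionalIdeal.spanSingleton_mul_spanSingleton, e']

theorem x7b_den (β : s.k)
    (h : ∀ V : ValuationSubring ℂ, V.valuation m < 1 → V.valuation (β : ℂ) ≤ 1) :
    ∃ a b : s.O, (b : s.k) * β = a ∧ b - 1 ∈ Ideal.span {(m : s.O)} := by
  let D : Ideal s.O :=
    { carrier := {b | ∃ a : s.O, algebraMap s.O s.k b * β = algebraMap s.O s.k a}
      add_mem' := by
        rintro b b' ⟨a, e⟩ ⟨a', e'⟩
        exact ⟨a + a', by rw [map_add, map_add, add_mul, e, e']⟩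
      zero_mem' := ⟨0, by rw [map_zero, zero_mul]⟩
      smul_mem' := by
        rintro c b ⟨a, e⟩
        exact ⟨c * a, by rw [smul_eq_mul, map_mul, map_mul, mul_assoc, e]⟩ }
  have hD : D ⊔ Ideal.span {(m : s.O)} = ⊤ := by
    by_contra h0
    obtain ⟨q, hq, hle⟩ := Ideal.exists_le_maximal _ h0
    obtain ⟨V, hV⟩ := s.x4_val hq
    have h1 : V.valuation m < 1 := by
      rw [← s.c_nat]
      exact (hV _).2 (hle (Ideal.mem_sup_right (Ideal.mem_span_singleton_self _)))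
    obtain ⟨a, b, hb, e⟩ := e1_loc (algebraMap s.k ℂ) V.valuation (x := β) (h V h1)
    exact ((hV b).2 (hle (Ideal.mem_sup_left (show b ∈ D from ⟨a, e⟩)))).ne hb
  obtain ⟨b, ⟨a, e⟩, y, hy, e1⟩ := Submodule.mem_sup.1 ((Ideal.eq_top_iff_one _).1 hD)
  refine ⟨a, b, e, ?_⟩
  rw [← e1, sub_add_cancel_left]
  exact neg_mem hy

theorem x7_glob (hm : 0 < m) (χ : MulChar (s.Pr (Ideal.span {(m : s.O)})) ℂ) (β : (s.k)ˣ)
    (h : ∀ p : HeightOneSpectrum s.O, (m : s.O) ∉ p.asIdeal →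
      χ (s.cl _ (s.ip p.asIdeal)) ^ f0a_p_ord s.k p β = 1) {u : s.O}
    (hu : ∀ V : ValuationSubring ℂ, V.valuation m < 1 → V.valuation (s.c u) = 1 ∧
      V.valuation (((β : s.k) : ℂ) - s.c u) ≤ V.valuation m) :
    χ (s.cl _ (s.np u)) = 1 := by
  obtain ⟨a, b, e, hb⟩ := s.x7b_den (m := m) (β : s.k) fun V hV => by
    have h1 := V.valuation.map_add_le ((hu V hV).2.trans hV.le) (hu V hV).1.le
    rwa [sub_add_cancel] at h1
  by_cases hb0 : b = 0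
  · have h1 : Ideal.span {(m : s.O)} = ⊤ := by
      rw [hb0, zero_sub, neg_mem_iff] at hb
      exact (Ideal.eq_top_iff_one _).2 hb
    rw [s.cl_np_eq_one.2 (Or.inl (by rw [h1]; exact Submodule.mem_top)), map_one]
  have ec : s.c a = s.c b * ((β : s.k) : ℂ) :=
    (congrArg (algebraMap s.k ℂ) e).symm.trans (map_mul _ _ _)
  have ha0 : a ≠ 0 := fun h0 => by
    have h1 : s.c a = 0 := by rw [h0]; exact map_zero _
    exact mul_ne_zero (s.c_ne hb0) ((map_ne_zero (algebraMap s.k ℂ)).2 β.ne_zero) (ec.symm.trans h1)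
  have hau : a - u ∈ Ideal.span {(m : s.O)} := by
    have h1 : a - b * u ∈ Ideal.span {(m : s.O)} := s.x4_dvd hm fun V hV => by
      rw [c_sub, c_mul, ec, ← mul_sub, map_mul]
      exact (mul_le_of_le_one_left' (s.v_c _ b)).trans (hu V hV).2
    have h2 := add_mem h1 (Ideal.mul_mem_right u _ hb)
    rwa [show a - b * u + (b - 1) * u = a - u by ring] at h2
  have ha' : Ideal.span {a} ≠ 0 := fun h0 => ha0 (Ideal.span_singleton_eq_bot.1 h0)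
  have hb' : Ideal.span {b} ≠ 0 := fun h0 => hb0 (Ideal.span_singleton_eq_bot.1 h0)
  obtain ⟨E, hE⟩ := s.x7b_hom χ
  have h1 : E (Ideal.span {a}) = E (Ideal.span {b}) := s.x7b_fac E ha' hb' fun p => by
    by_cases hp : (m : s.O) ∈ p.asIdeal
    · have hle : Ideal.span {(m : s.O)} ≤ p.asIdeal := (Ideal.span_singleton_le_iff_mem _).2 hp
      obtain ⟨V, hV⟩ := s.x4_val p.isMaximal
      have h2 : V.valuation m < 1 := by
        rw [← s.c_nat]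
        exact (hV _).2 hp
      rw [s.x7b_zero ha' p fun h3 => ?_, s.x7b_zero hb' p fun h3 => ?_]
      · have h4 := sub_mem h3 (hle hb)
        rw [sub_sub_cancel] at h4
        exact p.isPrime.ne_top ((Ideal.eq_top_iff_one _).2 h4)
      · have h4 := sub_mem h3 (hle hau)
        rw [sub_sub_cancel] at h4
        exact ((hV u).2 h4).ne (hu V h2).1
    · exact x7b_pow (by rw [hE _ p.ne_bot]; exact h p hp) (s.x7b_ord β ha' hb' e p)
  have h2 : s.cl (Ideal.span {(m : s.O)}) (1 * s.np u) = s.cl _ (1 * s.np a) :=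
    s.cl_eq.2 ⟨1, s.sim_np hau 1⟩
  rw [one_mul, one_mul] at h2
  rw [hE _ ha', hE _ hb', s.cl_ip_span _ ha0, s.cl_ip_span _ hb0, s.cl_np_eq_one.2 (Or.inl hb),
    map_one] at h1
  rw [h2, h1]

end St


end Pool.Agent.P.MP_20768c_nt.Tz.Cv

end

-- part Cv.J1
section

set_option autoImplicit false

open Complex NumberField IsDedekindDomain Filter Topology
open UpperHalfPlane hiding I
open scoped ComplexConjugate Real MatrixGroups

namespace Pool.Agent.P.MP_20768c_nt.Tz.Cv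

open Pool.Agent.P.MP_20768c_nt.Tz.EQ (Lt pr sp IsLat jL qN)

theorem j1_ext {A B C : Type} [CommGroup A] [CommGroup B] [CommGroup C]
    (hC : ∀ n : ℕ, n ≠ 0 → ∀ c : C, ∃ y, y ^ n = c) (i : A →* B) (hi : Function.Injective i)
    (g : A →* C) : ∃ h : B →* C, ∀ a, h (i a) = g a := by
  let _ : DivisibleBy (Additive C) ℕ := divisibleByOfSMulRightSurj _ _ fun {n} hn c =>
    let ⟨y, hy⟩ := hC n hn c.toMul
    ⟨Additive.ofMul y, congrArg Additive.ofMul hy⟩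
  let _ : DivisibleBy (Additive C) ℤ := AddGroup.divisibleByIntOfDivisibleByNat _
  obtain ⟨h, hh⟩ := (Module.Baer.of_divisible (Additive C)).extension_property_addMonoidHom
    (MonoidHom.toAdditive i) hi (MonoidHom.toAdditive g)
  exact ⟨MonoidHom.toAdditive.symm h, fun a => DFunLike.congr_fun hh (Additive.ofMul a)⟩

theorem j1_abs {M Q A : Type} [CommMonoid M] [CommMonoid Q] [CommGroup A] (U : Subgroup A)
    (hU : ∀ n : ℕ, n ≠ 0 → ∀ c : U, ∃ y, y ^ n = c) (o : M → A) (h1 : o 1 = 1)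
    (hm : ∀ p q, o (p * q) / (o p * o q) ∈ U) (c : M →* Q)
    (hc : ∀ p q r, c p = c q → o (q * r) / o (p * r) = o q / o p) :
    ∃ ψ : M →* A, (∀ p, ψ p / o p ∈ U) ∧ ∀ p q, c p = c q → ψ q / ψ p = o q / o p := by
  obtain ⟨ρ, hρ⟩ := j1_ext hU U.subtype U.subtype_injective (MonoidHom.id U)
  let γ : M →* Algebra.GrothendieckGroup M := Algebra.GrothendieckGroup.of
  let R : Subgroup (Algebra.GrothendieckGroup M × A) :=
    { carrier := {z | ∃ p q, c p = c q ∧ z = (γ q / γ p, o q / o p)}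
      one_mem' := ⟨1, 1, rfl, Prod.ext (div_self' _).symm (div_self' _).symm⟩
      mul_mem' := by
        rintro _ _ ⟨p, q, e, rfl⟩ ⟨p', q', e', rfl⟩
        refine ⟨p * p', q * q', by rw [map_mul, map_mul, e, e'], Prod.ext ?_ ?_⟩
        · simp only [Prod.fst_mul, map_mul, mul_div_mul_comm]
        · show o q / o p * (o q' / o p') = o (q * q') / o (p * p')
          rw [← hc p q p' e, ← hc p' q' q e', mul_comm q' q, mul_comm p' q, mul_comm,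
            div_mul_div_cancel]
      inv_mem' := by
        rintro _ ⟨p, q, e, rfl⟩
        exact ⟨q, p, e.symm, by simp⟩ }
  have hi : Function.Injective ((MonoidHom.fst _ _).comp R.subtype) := by
    refine (injective_iff_map_eq_one _).2 ?_
    rintro ⟨_, p, q, e, rfl⟩ h
    have h2 : γ q = γ p := div_eq_one.1 h
    obtain ⟨r, hr⟩ := ((Localization.monoidOf (⊤ : Submonoid M)).eq_iff_exists).1 h2
    have h3 := hc p q r e
    rw [mul_comm q, mul_comm p, hr, div_self'] at h3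
    exact Subtype.ext (Prod.ext h h3.symm)
  obtain ⟨φ, hφ⟩ := j1_ext hU _ hi (ρ.comp ((MonoidHom.snd _ _).comp R.subtype))
  have e1 : ∀ p q, (ρ (o (p * q)) : A) = o (p * q) / (o p * o q) * (ρ (o p) * ρ (o q)) := by
    intro p q
    have := congrArg Subtype.val (hρ ⟨_, hm p q⟩)
    rw [← Subgroup.coe_mul, ← map_mul]
    exact (congrArg (fun x => (ρ x : A)) (div_mul_cancel _ _).symm).trans (by
      rw [map_mul, Subgroup.coe_mul]
      exact congrArg (· * _) this)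
  refine ⟨⟨⟨fun p => o p / ρ (o p) * φ (γ p), by simp [h1]⟩, fun p q => ?_⟩, fun p => ?_,
    fun p q e => ?_⟩
  · show o (p * q) / ρ (o (p * q)) * φ (γ (p * q)) =
      o p / ρ (o p) * φ (γ p) * (o q / ρ (o q) * φ (γ q))
    rw [e1, map_mul, map_mul, Subgroup.coe_mul]
    refine Additive.ofMul.injective ?_
    simp only [ofMul_mul, ofMul_div]
    abel
  · show o p / ρ (o p) * φ (γ p) / o p ∈ U
    have e : o p / ρ (o p) * φ (γ p) / o p = φ (γ p) / ρ (o p) := by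
      refine Additive.ofMul.injective ?_
      simp only [ofMul_mul, ofMul_div]
      abel
    rw [e]
    exact div_mem (φ _).2 (ρ _).2
  · have h : φ (γ q / γ p) = ρ (o q / o p) := hφ ⟨_, p, q, e, rfl⟩
    have h' := congrArg Subtype.val h
    rw [map_div, map_div, Subgroup.coe_div, Subgroup.coe_div, div_eq_iff_eq_mul] at h'
    show o q / ρ (o q) * φ (γ q) / (o p / ρ (o p) * φ (γ p)) = _
    rw [h']
    refine Additive.ofMul.injective ?_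
    simp only [ofMul_mul, ofMul_div]
    abel

/-- the one-units -/
def j1U (v : Valuation ℂ NNReal) : Subgroup ℂˣ where
  carrier := {u | v (u - 1) < 1}
  one_mem' := by simp
  mul_mem' := fun {a b} (ha : v (a - 1) < 1) (hb : v (b - 1) < 1) => by
    have h : v a = 1 := by simpa using v.map_one_add_of_lt ha
    show v (a * b - 1) < 1
    rw [show (a : ℂ) * b - 1 = a * (b - 1) + (a - 1) by ring]
    exact v.map_add_lt (by rwa [map_mul, h, one_mul]) ha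
  inv_mem' := fun {a} (ha : v (a - 1) < 1) => by
    have h : v a = 1 := by simpa using v.map_one_add_of_lt ha
    show v ((a⁻¹ : ℂˣ) - 1) < 1
    rw [← one_mul (v _), ← h, ← map_mul, mul_sub, Units.mul_inv, mul_one, v.map_sub_swap, h]
    exact ha

namespace St

variable {s : St} {f : Ideal s.O} {ω : s.Pair → ℂ}

theorem exists_psi (hf : ¬ 3 ∣ Ideal.absNorm f) : ∃ ψ : s.Pair → ℂ, s.Eig f ψ ∧ ψ 1 = 1 ∧
    ∀ p, IsUnit (s.cl (s.lv f) p) → s.v (ψ p * s.oms f 1 / s.oms f p - 1) < 1 := by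
  classical
  let M : Submonoid s.Pair := (IsUnit.submonoid _).comap (s.cl (s.lv f))
  obtain ⟨⟨w1, w2⟩, -⟩ := s.oms_wt hf
  have h0 : ∀ p : M, s.oms f p ≠ 0 := fun p => s.oms_ne hf p.2
  have h1 : s.oms f 1 ≠ 0 := h0 1
  let o : M → ℂˣ := fun p => Units.mk0 (s.oms f p / s.oms f 1) (div_ne_zero (h0 p) h1)
  have ho : ∀ (x : ℂ) (p q : M), s.Sim (s.lv f) x p q → ((o q / o p : ℂˣ) : ℂ) = x := by
    intro x p q h
    have := h0 p
    simp only [o, Units.val_div_eq_div_val, Units.val_mk0, w1 x _ _ h]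
    field_simp
  obtain ⟨ψ, a1, a2⟩ := j1_abs (j1U s.v) (fun n hn c => by
      obtain ⟨y, hy, hv⟩ := one_unit_root s.v_three c.2 (Nat.pos_of_ne_zero hn)
      have hy0 : y ≠ 0 := fun e => c.1.ne_zero (by rw [← hy, e, zero_pow hn])
      exact ⟨⟨Units.mk0 y hy0, hv⟩, Subtype.ext (Units.ext hy)⟩) o
    (Units.ext (div_self h1)) (fun p q => by
      have e : ((o (p * q) / (o p * o q) : ℂˣ) : ℂ) =
          s.oms f (p * q) * s.oms f 1 / (s.oms f p * s.oms f q) := by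
        have := h0 p
        have := h0 q
        simp only [o, Units.val_div_eq_div_val, Units.val_mul, Units.val_mk0, Submonoid.coe_mul]
        field_simp
      show s.v (_ - 1) < 1
      rw [e]
      exact s.oms_mul hf p.2 q.2) ((s.cl (s.lv f)).comp M.subtype) fun p q r e => by
      obtain ⟨x, hx⟩ := s.cl_eq.1 e
      exact Units.ext ((ho x (p * r) (q * r) (hx.mul r)).trans (ho x p q hx).symm)
  obtain ⟨Ψ, e1, e0⟩ : ∃ Ψ : s.Pair → ℂ, (∀ p (h : p ∈ M), Ψ p = ψ ⟨p, h⟩) ∧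
      ∀ p, ¬ IsUnit (s.cl (s.lv f) p) → Ψ p = 0 :=
    ⟨fun p => if h : p ∈ M then ψ ⟨p, h⟩ else 0, fun p h => dif_pos h, fun p h => dif_neg h⟩
  have e2 : Ψ 1 = 1 := (e1 1 M.one_mem).trans (congrArg Units.val ψ.map_one)
  refine ⟨Ψ, ⟨⟨fun x p q h => ?_, fun p h => e0 p fun h' => s.oms_ne hf h' (w2 p h)⟩, e0,
    e2 ▸ one_ne_zero, fun p q => ?_⟩, e2, fun p h => ?_⟩
  · have e := s.cl_eq.2 ⟨x, h⟩
    by_cases hp : IsUnit (s.cl (s.lv f) p)
    · have hq : IsUnit (s.cl (s.lv f) q) := e ▸ hp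
      have h4 := (congrArg Units.val (a2 ⟨p, hp⟩ ⟨q, hq⟩ e)).trans (ho x ⟨p, hp⟩ ⟨q, hq⟩ h)
      rw [e1 p hp, e1 q hq, ← h4, ← Units.val_mul, div_mul_cancel]
    · rw [e0 p hp, e0 q (e ▸ hp), mul_zero]
  · rw [e2, mul_one]
    by_cases hp : IsUnit (s.cl (s.lv f) p)
    · by_cases hq : IsUnit (s.cl (s.lv f) q)
      · rw [e1 p hp, e1 q hq, e1 _ (M.mul_mem hp hq)]
        exact congrArg Units.val (ψ.map_mul ⟨p, hp⟩ ⟨q, hq⟩)
      · rw [e0 q hq, mul_zero]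
        refine e0 _ fun h => hq ?_
        rw [map_mul] at h
        exact isUnit_of_mul_isUnit_right h
    · rw [e0 p hp, zero_mul]
      refine e0 _ fun h => hp ?_
      rw [map_mul] at h
      exact isUnit_of_mul_isUnit_left h
  · have h3 : s.v (((ψ ⟨p, h⟩ / o ⟨p, h⟩ : ℂˣ) : ℂ) - 1) < 1 := a1 ⟨p, h⟩
    rw [Units.val_div_eq_div_val, Units.val_mk0, div_div_eq_mul_div] at h3
    rw [e1 p h]
    exact h3

theorem exists_eig (hf : ¬ 3 ∣ Ideal.absNorm f) (χ : MulChar (s.Pr (s.lv f)) ℂ) :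
    ∃ g : s.Pair → ℂ, s.Inv (s.lv f) g ∧ s.Eig f (fun p => g p * s.oms f p) ∧ g 1 = 1 ∧
      ∀ p, IsUnit (s.cl (s.lv f) p) → s.v (g p) ≤ 1 ∧ s.v (g p - χ (s.cl (s.lv f) p)) < 1 := by
  obtain ⟨ψ, ⟨⟨w1, w2⟩, w3, -, w4⟩, w5, w6⟩ := exists_psi hf
  have h1 : s.oms f 1 ≠ 0 := s.oms_ne hf (by rw [map_one]; exact isUnit_one)
  have hc : ∀ x p q, s.Sim (s.lv f) x p q → s.cl (s.lv f) q = s.cl (s.lv f) p := fun x p q h =>
    (s.cl_eq.2 ⟨x, h⟩).symm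
  have e : (fun p => χ (s.cl (s.lv f) p) * (ψ p * s.oms f 1 / s.oms f p) * s.oms f p) =
      fun p => χ (s.cl (s.lv f) p) * ψ p * s.oms f 1 := funext fun p => by
    by_cases hp : IsUnit (s.cl (s.lv f) p)
    · rw [mul_assoc, div_mul_cancel₀ _ (s.oms_ne hf hp), mul_assoc]
    · simp [w3 p hp]
  refine ⟨fun p => χ (s.cl (s.lv f) p) * (ψ p * s.oms f 1 / s.oms f p), fun x p q h => ?_, ?_,
    by simp [w5, h1], fun p hp => ?_⟩
  · show χ _ * _ = χ _ * _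
    rw [hc x p q h, w1 x p q h, (s.oms_wt hf).1.1 x p q h, mul_assoc x, mul_div_mul_left _ _ h.1]
  · rw [e]
    refine ⟨⟨fun x p q h => ?_, fun p h => by simp [w2 p h]⟩, fun p h => by simp [w3 p h],
      by simp [w5, h1], fun p q => ?_⟩
    · show χ _ * _ * _ = x * (χ _ * _ * _)
      rw [hc x p q h, w1 x p q h]
      ring
    · have h2 := w4 p q
      rw [w5, mul_one] at h2
      simp only [map_mul, map_one, h2, w5]
      ring
  · have h2 := w6 p hp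
    have h3 := v_chi (s.lv_ne (s.cop_ne hf)) χ p
    have h4 : s.v (ψ p * s.oms f 1 / s.oms f p) = 1 := by simpa using s.v.map_one_add_of_lt h2
    refine ⟨by rwa [map_mul, h4, mul_one], ?_⟩
    rw [← mul_sub_one, map_mul]
    exact mul_lt_one_of_nonneg_of_lt_one_right h3 zero_le h2

end St

end Pool.Agent.P.MP_20768c_nt.Tz.Cv

end

-- part Cv.X8
section

set_option autoImplicit false

open Complex NumberField IsDedekindDomain
open scoped Real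

namespace Pool.Agent.P.MP_20768c_nt.Tz.Cv

theorem x8_ne {G : Type} [Group G] {l r : ℕ} (hl : l.Prime) {u : G} (hu : u ^ l ^ r = 1)
    (h : orderOf (u ^ l) ≠ 1) : u ^ orderOf (u ^ l) ≠ 1 := by
  intro h1
  have h2 : orderOf (u ^ l) ∣ l ^ r :=
    orderOf_dvd_of_pow_eq_one (by rw [← pow_mul, mul_comm, pow_mul, hu, one_pow])
  obtain ⟨j, -, hj⟩ := (Nat.dvd_prime_pow hl).1 h2
  rcases j with _ | j
  · exact h (by simpa using hj)
  · have h3 : orderOf (u ^ l) ∣ l ^ j :=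
      orderOf_dvd_of_pow_eq_one (by rw [← pow_mul, ← pow_succ', ← hj, h1])
    rw [hj] at h3
    have h4 := Nat.le_of_dvd (pow_pos hl.pos j) h3
    exact absurd h4 (not_le.2 (Nat.pow_lt_pow_right hl.one_lt (Nat.lt_succ_self j)))

theorem x8_val {Γ : Type} [LinearOrderedCommGroupWithZero Γ] (v : Valuation ℂ Γ) {x : ℂ} {n : ℕ}
    (hn : n ≠ 0) (h : x ^ n = 1) : v x = 1 := by
  have h1 : v x ^ n = 1 := by rw [← map_pow, h, map_one]
  exact (pow_eq_one_iff_of_nonneg zero_le hn).1 h1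

namespace St

variable (s : St) {l m r : ℕ}

theorem x8_tel (τ : s.Au) {α : ℂ} (h0 : α ≠ 0) (n : ℕ) :
    ∏ i : Fin n, (τ ^ i.1) (τ α / α) = (τ ^ n) α / α := by
  induction n with
  | zero => simp [h0]
  | succ n ih =>
    have h1 : (τ ^ n) α ≠ 0 := (map_ne_zero _).2 h0
    rw [Fin.prod_univ_castSucc]
    simp only [Fin.val_castSucc, Fin.val_last]
    rw [ih, map_div₀, pow_succ, AlgEquiv.mul_apply]
    field_simp

theorem x8_gen (hl : l.Prime) {φ : s.Au →* ℂˣ} (hr : ∀ σ, φ σ ^ l ^ r = 1) :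
    ∃ τ ∈ s.Hz l, ∀ σ, ∃! i : Fin (orderOf (φ τ ^ l)), φ σ ^ l = (φ τ ^ l) ^ i.1 := by
  have hp : ∀ σ, (φ σ ^ l) ^ l ^ r = 1 := fun σ => by
    rw [← pow_mul, mul_comm, pow_mul, hr, one_pow]
  have : NeZero (l ^ r) := ⟨pow_ne_zero r hl.ne_zero⟩
  let S : Subgroup ℂˣ := (s.Hz l).map (φ ^ l)
  have hS : S ≤ rootsOfUnity (l ^ r) ℂ := by
    rintro _ ⟨σ, -, rfl⟩
    exact (_root_.mem_rootsOfUnity _ _).2 (hp σ)
  have : Finite S := Finite.of_injective _ (Subgroup.inclusion_injective hS)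
  obtain ⟨⟨_, τ, hτ, rfl⟩, hg⟩ := IsCyclic.exists_generator (α := S)
  refine ⟨τ, hτ, fun σ => ?_⟩
  have hm : φ σ ^ l ∈ S := by
    obtain ⟨c, hc⟩ : l - 1 ∣ l ^ r - 1 := Nat.sub_one_dvd_pow_sub_one l r
    refine ⟨(σ ^ (l ^ r - 1))⁻¹, inv_mem ?_, ?_⟩
    · rw [hc, pow_mul]
      exact pow_mem (s.x4_pow hl σ) c
    · rw [map_inv, map_pow, MonoidHom.pow_apply, inv_eq_iff_mul_eq_one, ← pow_succ,
        Nat.sub_add_cancel (pow_pos hl.pos r), hp]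
  obtain ⟨z, hz⟩ := hg ⟨_, hm⟩
  have hz' : (φ τ ^ l) ^ z = φ σ ^ l := congrArg Subtype.val hz
  have hf : IsOfFinOrder (φ τ ^ l) := isOfFinOrder_iff_pow_eq_one.2 ⟨_, pow_pos hl.pos r, hp τ⟩
  obtain ⟨i, hi⟩ := hf.mem_powers_iff_mem_zpowers.2 ⟨z, hz'⟩
  refine ⟨⟨i % orderOf (φ τ ^ l), Nat.mod_lt _ hf.orderOf_pos⟩, ?_, fun j hj => Fin.ext ?_⟩
  · change φ σ ^ l = (φ τ ^ l) ^ (i % orderOf (φ τ ^ l))
    rw [pow_mod_orderOf]
    exact hi.symm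
  · refine pow_injOn_Iio_orderOf j.2 (Nat.mod_lt _ hf.orderOf_pos) ?_
    change (φ τ ^ l) ^ j.1 = (φ τ ^ l) ^ (i % orderOf (φ τ ^ l))
    rw [pow_mod_orderOf, ← hj]
    exact hi.symm

theorem x8_fix (hl : l.Prime) {σ : s.Au} (h : σ ∈ s.Hz l) {u : ℂˣ} (hu : u ^ l = 1) :
    σ (u : ℂ) = u :=
  s.x4_fix h (s.x4_root hl.ne_zero (by rw [← Units.val_pow_eq_pow_val, hu, Units.val_one]))

theorem x8_alb (hl : l.Prime) {φ : s.Au →* ℂˣ} (hφ : s.Cts φ) (hr : ∀ σ, φ σ ^ l ^ r = 1) :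
    ∃ (τ : s.Au) (n : ℕ) (y η : ℂ), τ ∈ s.Hz l ∧
      (∀ σ, ∃! i : Fin n, φ σ ^ l = (φ τ ^ l) ^ i.1) ∧ IsPrimitiveRoot η l ∧
      (∀ σ ∈ s.Hz l, φ σ ^ l = 1 → σ y = y) ∧ ∏ i : Fin n, (τ ^ i.1) y = η := by
  obtain ⟨τ, hτ, hg⟩ := s.x8_gen hl hr
  by_cases h1 : orderOf (φ τ ^ l) = 1
  · refine ⟨τ, _, xz l, xz l, hτ, hg, xz_prim hl.ne_zero, fun σ h _ => h, ?_⟩
    rw [h1]
    simp
  have : Fact l.Prime := ⟨hl⟩
  obtain ⟨α, h0, hα⟩ := s.x4_res (s.Hz l ⊓ (φ ^ l).ker) hφ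
    fun σ hσ t ht => s.x8_fix hl hσ.1 ht.2
  have hn : (φ τ ^ orderOf (φ τ ^ l)) ^ l = 1 := by
    rw [← pow_mul, mul_comm, pow_mul, pow_orderOf_eq_one]
  refine ⟨τ, _, τ α / α, (φ τ ^ orderOf (φ τ ^ l) : ℂˣ), hτ, hg, ?_, fun σ h h' => ?_, ?_⟩
  · rw [IsPrimitiveRoot.coe_units_iff]
    have h2 := IsPrimitiveRoot.orderOf (φ τ ^ orderOf (φ τ ^ l))
    rwa [orderOf_eq_prime hn (x8_ne hl (hr τ) h1)] at h2
  · have e : φ (τ⁻¹ * σ * τ) = φ σ := by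
      rw [map_mul, map_mul, map_inv, mul_right_comm, inv_mul_cancel, one_mul]
    have h5 : τ⁻¹ * σ * τ ∈ s.Hz l := mul_mem (mul_mem (inv_mem hτ) h) hτ
    have h2 := hα (τ⁻¹ * σ * τ) ⟨h5, by
      change φ (τ⁻¹ * σ * τ) ^ l = 1
      rw [e, h']⟩
    have h3 : σ (τ α) = φ σ * τ α := by
      have h4 : σ * τ = τ * (τ⁻¹ * σ * τ) := by group
      rw [← AlgEquiv.mul_apply, h4, AlgEquiv.mul_apply, h2, e, map_mul, s.x8_fix hl hτ h']
    rw [map_div₀, h3, hα σ ⟨h, h'⟩, mul_div_mul_left _ _ (φ σ).ne_zero]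
  · rw [s.x8_tel τ h0, hα _ ⟨pow_mem hτ _, by
      change φ (τ ^ orderOf (φ τ ^ l)) ^ l = 1
      rw [map_pow, hn]⟩, mul_div_cancel_right₀ _ h0, map_pow]

theorem x8_alg {J : Type} [Finite J] {H : Subgroup s.Au} {g : J → s.Au} (h : Tv H g) {y : ℂ}
    (hy : ∀ σ ∈ H, σ y = y) : IsAlgebraic ℚ y := by
  refine s.alg_of_finite ((Set.finite_range fun j => g j y).subset ?_)
  rintro _ ⟨σ, rfl⟩
  obtain ⟨j, hj, -⟩ := h σ
  refine ⟨j, ?_⟩
  change g j y = σ y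
  conv_lhs => rw [← hy _ hj, ← AlgEquiv.mul_apply, mul_inv_cancel_left]

theorem x8_kill (hl : l.Prime) {φ : s.Au →* ℂˣ} (hφ : s.Cts φ) (hr : ∀ σ, φ σ ^ l ^ r = 1)
    (hC : s.IsC0 m) (hU : s.Unram m φ) (hm : l ∣ m)
    (χ : MulChar (s.Pr (Ideal.span {(m : s.O)})) ℂ)
    (hχ : ∀ (σ : s.Au) (b : Ideal s.O), s.Art m σ b → χ (s.cl _ (s.ip b)) = (φ σ : ℂ) ^ l)
    (Q : HeightOneSpectrum (𝓞 (s.Fz l))) (hQ : (m : 𝓞 (s.Fz l)) ∈ Q.asIdeal)
    (hF : Fre s.k Q.asIdeal) :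
    ∃ u : s.O, s.LocR l m (Q.asIdeal.under s.O) u ∧ χ (s.cl _ (s.np u)) = 1 := by
  have hm0 : 0 < m := Nat.pos_of_ne_zero hC.1
  obtain ⟨τ, n, y, η, hτ, hg, hη, hy, hN⟩ := s.x8_alb hl hφ hr
  obtain ⟨δ, a, d, -, -, -, -, hδ⟩ := s.x4_gen hl r
  obtain ⟨ν, hν, -⟩ := s.x4_cy hl
  have : (s.Hz l).Normal := hν ▸ ν.normal_ker
  have hδ1 : φ (δ ^ l ^ r) = 1 := by rw [map_pow, hr]
  have hT : Tv (s.Hz l ⊓ (φ ^ l).ker)
      fun p : Fin d × Fin n => (δ ^ l ^ r) ^ p.1.1 * τ ^ p.2.1 := by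
    intro σ
    have key : ∀ p : Fin d × Fin n,
        ((δ ^ l ^ r) ^ p.1.1 * τ ^ p.2.1)⁻¹ * σ ∈ s.Hz l ⊓ (φ ^ l).ker ↔
          ((δ ^ l ^ r) ^ p.1.1)⁻¹ * σ ∈ s.Hz l ∧ φ σ ^ l = (φ τ ^ l) ^ p.2.1 := fun p => by
      rw [Subgroup.mem_inf, mul_inv_rev, mul_assoc,
        Subgroup.mul_mem_cancel_left _ (inv_mem (pow_mem hτ _)), MonoidHom.mem_ker,
        MonoidHom.pow_apply, map_mul, map_mul, map_inv, map_inv, map_pow, map_pow, hδ1, one_pow,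
        inv_one, one_mul, mul_pow, inv_pow, inv_mul_eq_one, pow_right_comm (φ τ), eq_comm]
    obtain ⟨j, hj, hj'⟩ := hδ σ
    obtain ⟨i, hi, hi'⟩ := hg σ
    refine ⟨(j, i), (key _).2 ⟨hj, hi⟩, fun p hp => ?_⟩
    have h := (key p).1 hp
    exact Prod.ext (hj' _ h.1) (hi' _ h.2)
  have hy1 : ∀ σ ∈ s.Hz l ⊓ (φ ^ l).ker, σ y = y := fun σ h => hy σ h.1 h.2
  obtain ⟨ε, hε, u, hu, hap⟩ := s.x6_apx hl hm0 Q hQ hF hδ hτ (s.x8_alg hT hy1) hη hN
  have hy2 : ∀ σ ∈ s.Hz l ⊓ (φ ^ l).ker, σ (1 + ε * (y - 1)) = 1 + ε * (y - 1) := fun σ h => by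
    rw [map_add, map_mul, map_sub, map_one, hy1 σ h, s.x4_fix h.1 hε]
  have hv : ∀ V : ValuationSubring ℂ, V.valuation m < 1 → V.valuation (s.c u) = 1 := by
    intro V hV
    obtain ⟨e, he, he'⟩ : ∃ e : ℂ, V.valuation e = 1 ∧ V.valuation (s.c u - e) < 1 := by
      by_cases h : ∀ x ∈ Q.asIdeal.under s.O, V.valuation (s.c x) < 1
      · obtain ⟨e, h1, h2⟩ := (hu V hV).1 h
        exact ⟨e, x8_val _ hl.ne_zero h1.pow_eq_one, h2.trans_lt hV⟩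
      · exact ⟨1, map_one _, ((hu V hV).2 h).trans_lt hV⟩
    rw [← he] at he' ⊢
    exact Valuation.map_eq_of_sub_lt _ he'
  have hk := s.x4_norm hT hy2
  have h0 : (⟨_, hk⟩ : s.k) ≠ 0 := by
    intro h
    have h1 := congrArg Subtype.val h
    have : Q.asIdeal.IsMaximal := Q.isMaximal
    obtain ⟨V, hV⟩ := s.x4_val (q := Q.asIdeal.under s.O) inferInstance
    have h2 : V.valuation m < 1 := by
      have h3 := (hV (m : s.O)).2 (by
        rw [Ideal.under_def, Ideal.mem_comap, map_natCast]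
        exact hQ)
      rwa [c, map_natCast] at h3
    have h4 := (hap V h2).trans_lt h2
    change ∏ p : Fin d × Fin n, _ = (0 : ℂ) at h1
    rw [h1, zero_sub, Valuation.map_neg, hv V h2] at h4
    exact lt_irrefl _ h4
  refine ⟨u, hu, s.x7_glob hm0 χ (Units.mk0 _ h0) (fun p hp => ?_) fun V hV => ⟨hv V hV, hap V hV⟩⟩
  have hI : ∀ (V : ValuationSubring ℂ) (σ : s.Au), V.valuation m = 1 → Inert V.valuation σ →
      σ ∈ s.Hz l ⊓ (φ ^ l).ker := by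
    refine fun V σ hV hI => ⟨?_, ?_⟩
    · have h2 : xz l ^ m = 1 := (xz_prim hl.ne_zero).pow_eq_one_iff_dvd m |>.2 hm
      refine root_inj V.valuation hV ?_ h2 (hI _ ?_ (x8_val _ hC.1 h2).le)
      · rw [← smul_pow', h2, smul_one]
      · exact IsIntegral.isAlgebraic (xz_int l).tower_top
    · change φ σ ^ l = 1
      rw [hU V σ hV hI, one_pow]
  obtain ⟨σ, hσ, h1⟩ := s.x7_loc hC (φ ^ l) (s.Hz l ⊓ (φ ^ l).ker) (fun σ h => h.2)
    hI hT hy2 (s.x8_alg hT hy2) (Units.mk0 _ h0) rfl p hp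
  rw [hχ σ _ hσ, ← Units.val_pow_eq_pow_val, ← Units.val_zpow_eq_zpow_val,
    ← MonoidHom.pow_apply, h1, Units.val_one]

end St


end Pool.Agent.P.MP_20768c_nt.Tz.Cv

end

-- part Cv.U3_p
section

set_option autoImplicit false

open Complex NumberField IsDedekindDomain Filter Topology
open UpperHalfPlane hiding I
open scoped ComplexConjugate Real MatrixGroups

namespace Pool.Agent.P.MP_20768c_nt.Tz.Cv

open Pool.Agent.P.MP_20768c_nt.Tz.EQ (Lt pr sp IsLat jL qN)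

theorem u3p_lift {A B C : Type} [Group A] [Group B] [Group C] (ρ : A →* B)
    (hs : Function.Surjective ρ) (φ : A →* C) (h : ∀ a, ρ a = 1 → φ a = 1) :
    ∃ ψ : B →* C, ∀ a, ψ (ρ a) = φ a :=
  ⟨ρ.liftOfSurjective hs ⟨φ, h⟩, fun a => ρ.liftOfRightInverse_comp_apply _ _ ⟨φ, h⟩ a⟩

theorem u3p_inj {n : ℕ} {b b' : (ZMod (3 ^ n))ˣ}
    (h : zt n ^ (b : ZMod (3 ^ n)).val = zt n ^ (b' : ZMod (3 ^ n)).val) : b = b' := by
  rw [← zpow_natCast, ← zpow_natCast, zt_congr] at h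
  exact Units.ext (by simpa using h)

theorem char_dec {G A : Type} [Group G] [Group A] {n : ℕ} (ρ : G →* A)
    (ν : G →* (ZMod (3 ^ n))ˣ) (hi : ∀ g, ρ g = 1 → ν g = 1 → g = 1)
    (hs : ∀ a b, ∃ g, ρ g = a ∧ ν g = b) (φ : G →* ℂˣ) :
    ∃ (χ : A →* ℂˣ) (ψ : MulChar (ZMod (3 ^ n)) ℂ), ∀ g, (φ g : ℂ) = χ (ρ g) * ψ (ν g) := by
  obtain ⟨Φ, hΦ⟩ := u3p_lift (ρ.prod ν)
    (fun x => (hs x.1 x.2).imp fun _ h => Prod.ext h.1 h.2) φ fun g hg => by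
      rw [hi g (congrArg Prod.fst hg) (congrArg Prod.snd hg), map_one]
  refine ⟨Φ.comp (MonoidHom.inl _ _), MulChar.ofUnitHom (Φ.comp (MonoidHom.inr _ _)), fun g => ?_⟩
  rw [MulChar.ofUnitHom_coe, ← Units.val_mul, MonoidHom.comp_apply, MonoidHom.comp_apply,
    ← map_mul, ← hΦ]
  simp

theorem St.u3p_nu (s : St) (n : ℕ) : ∃ ν : s.Au →* (ZMod (3 ^ n))ˣ,
    ∀ σ : s.Au, σ (zt n) = zt n ^ (ν σ : ZMod (3 ^ n)).val := by
  choose ν hν using fun σ : s.Au => hom_zt (σ : ℂ →+* ℂ) n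
  have hν' : ∀ σ : s.Au, σ (zt n) = zt n ^ (ν σ : ZMod (3 ^ n)).val := hν
  have key : ∀ (σ : s.Au) (a : ℕ), σ (zt n) = zt n ^ a → (ν σ : ZMod (3 ^ n)) = a := by
    intro σ a h
    rw [hν', ← zpow_natCast, ← zpow_natCast, zt_congr] at h
    simpa using h
  refine ⟨MonoidHom.mk' ν fun σ τ => Units.ext ?_, hν'⟩
  rw [key (σ * τ) ((ν σ : ZMod (3 ^ n)).val * (ν τ : ZMod (3 ^ n)).val)]
  · simp
  · rw [AlgEquiv.mul_apply, hν' τ, map_pow, hν' σ, pow_mul]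

theorem St.u3p_art {s : St} {n m : ℕ} {ν : s.Au →* (ZMod (3 ^ n))ˣ}
    (hν : ∀ σ : s.Au, σ (zt n) = zt n ^ (ν σ : ZMod (3 ^ n)).val) (h0 : 0 < m)
    (hm : (m : s.O) ∈ Ideal.span {((3 ^ n : ℕ) : s.O)}) {σ : s.Au}
    {a : Ideal s.O} (h : s.Art m σ a) : (ν σ : ZMod (3 ^ n)) = Ideal.absNorm a := by
  obtain ⟨b, hb⟩ := St.exists_art (m := m * 3 ^ n) (by positivity) σ
  have h1 := hb.2.2.2 (zt n) (by rw [mul_comm, pow_mul, zt_pow, one_pow])
  rw [hν, ← zpow_natCast, ← zpow_natCast, zt_congr] at h1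
  have e := s.Qn_mod ((Ideal.span_singleton_le_iff_mem _).2 hm)
    (St.Art.cl_eq h0 h (hb.mono (dvd_mul_right _ _)))
  rw [s.Qn_ip h.1, s.Qn_ip hb.1] at e
  rw [(ZMod.natCast_eq_natCast_iff _ _ _).2 e]
  simpa using h1

theorem Cb.exists_par {s : Cb} {f : Ideal s.O} {η : (s.Pr (s.lv f))ˣ →* s.GN} {n : ℕ}
    (hη : s.Cut f η) (hn : 2 ≤ n) : ∃ ρ ν, s.Par f η n ρ ν := by
  obtain ⟨ν, P2⟩ := s.toSt.u3p_nu n
  obtain ⟨ρ, -, hρ⟩ := s.exists_res s.N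
  obtain ⟨r, hs, hr⟩ := s.exists_res (s.K n)
  have P1 : ∀ σ, ρ σ = 1 ↔ ∀ x ∈ s.N, σ x = x := fun σ =>
    ⟨fun h x hx => by rw [← hρ σ ⟨x, hx⟩, h, AlgEquiv.one_apply],
      fun h => AlgEquiv.ext fun x => Subtype.ext ((hρ σ x).trans (h x x.2))⟩
  have P4 : ∀ σ, ν σ = 1 ↔ σ (zt n) = zt n := fun σ => by
    have e := P2 1
    rw [map_one, AlgEquiv.one_apply] at e
    exact ⟨fun h => by rw [P2, h, ← e], fun h => u3p_inj (by rw [← P2, h, ← e])⟩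
  have K : ∀ σ, r σ = 1 ↔ ρ σ = 1 ∧ ν σ = 1 := fun σ => by
    rw [P1, P4, ← Cb.fix_K]
    exact ⟨fun h x hx => by rw [← hr σ ⟨x, hx⟩, h, AlgEquiv.one_apply],
      fun h => AlgEquiv.ext fun x => Subtype.ext ((hr σ x).trans (h x x.2))⟩
  obtain ⟨ρ', hρ'⟩ := u3p_lift r hs ρ fun σ h => ((K σ).1 h).1
  obtain ⟨ν', hν⟩ := u3p_lift r hs ν fun σ h => ((K σ).1 h).2
  refine ⟨ρ', ν', fun m σ a g h1 h2 h3 h4 => ?_, fun g => ?_, fun a b => ?_, hn, fun τ hτ => ?_⟩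
  · rw [show g = r σ from AlgEquiv.ext fun x => Subtype.ext ((h4 x).trans (hr σ x).symm), hρ', hν]
    exact ⟨AlgEquiv.ext fun x => Subtype.ext ((hρ σ x).trans
      (hη.2 m σ a h1 (s.md_le_lv f (by omega) h2) h3 x).symm),
      St.u3p_art P2 h1 ((s.md_le f n).2.1 h2) h3⟩
  · obtain ⟨σ, rfl⟩ := hs g
    rw [hρ', hν]
    exact fun h1 h2 => (K σ).2 ⟨h1, h2⟩
  · obtain ⟨σ, a1, a2⟩ := s.exists_move n a b
    refine ⟨r σ, ?_, ?_⟩
    · rw [hρ']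
      exact AlgEquiv.ext fun x => Subtype.ext ((hρ σ x).trans (a1 x))
    · rw [hν]
      exact u3p_inj ((P2 σ).symm.trans a2)
  · obtain ⟨σ, rfl⟩ := hs τ
    rw [hρ', hν]
    refine ⟨(P1 σ).2 fun x hx => ?_, u3p_inj ?_⟩
    · rw [← hr σ ⟨x, s.N_le n hx⟩, hτ.1 ⟨x, s.N_le n hx⟩ hx]
    · rw [← P2, zt_tau hn, ← hr σ ⟨zt n, s.zt_mem n⟩, hτ.2 _ rfl]

end Pool.Agent.P.MP_20768c_nt.Tz.Cv

end

-- part Cv.D5
section

set_option autoImplicit false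

open Complex NumberField IsDedekindDomain Filter Topology
open UpperHalfPlane hiding I
open scoped ComplexConjugate Real MatrixGroups

namespace Pool.Agent.P.MP_20768c_nt.Tz.Cv

open Pool.Agent.P.MP_20768c_nt.Tz.EQ (Lt pr sp IsLat jL qN)

namespace St

variable {s : St} {m c : ℕ} {a f : Ideal s.O} {σ : s.Au} {p : s.Pair} {z : ℂ}

theorem d5_key (hf : ¬ 3 ∣ Ideal.absNorm f) (hm : 0 < m) (hA : s.Art m σ a)
    (hd : 3 * Ideal.absNorm f ∣ m) (hp : IsUnit (s.cl (s.lv f) p)) {y y' : ℂ}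
    (h : ∀ Q : ℂ, m * Q ∈ s.idl f * p.L → Q ∉ s.idl f * p.L →
      σ (st (s.zl (s.idl f * p.L)) Q * y) = st (s.zl (s.idl f * p.L * s.inv a)) Q * y') :
    σ (s.oms f p * y) = s.oms f (p * s.ip a) * y' := by
  obtain ⟨q, hq, hs⟩ := s.exists_md hf hp
  obtain ⟨k, rfl⟩ := hd
  have e : p.L = q.L := by rw [hs.2.1, s.sc_one, one_mul]
  have h3 : s.md f 1 ≤ s.p1 := Ideal.mul_le_right.trans
    ((Ideal.span_singleton_le_iff_mem _).2 (by rw [pow_one]; exact s.three_mem.1))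
  obtain ⟨t1, t2, -⟩ := s.tp_spec hf (s.unit_not_mem hq h3 s.p1_max.ne_top)
  have hu : IsUnit (s.cl (s.md f 1) (q * s.ip a)) := by
    rw [map_mul]
    refine hq.mul (hA.unit hm ?_)
    rw [mul_comm 3]
    push_cast
    exact Ideal.mul_mem_right _ _ (Ideal.mul_mem_mul f.absNorm_mem
      (by rw [pow_one]; exact Ideal.mem_span_singleton_self _))
  have hs' : s.Sim (s.lv f) 1 (q * s.ip a) (p * s.ip a) := by
    refine ⟨one_ne_zero, by rw [s.sc_one, one_mul, s.mul_L, s.mul_L, e], ?_⟩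
    rw [s.mul_L, s.mul_ρ, s.mul_ρ, s.ip_ρ, mul_one, mul_one, s.ip_L hA.1, ← mul_assoc]
    exact s.le_mul_inv hA.1 _ hs.2.2
  have e1 : s.tp f (q * s.ip a) = s.tp f q := by rw [tp, tp, s.mul_ρ, s.ip_ρ, mul_one]
  have e2 : σ (r3 (s.Qn q)) = r3 (s.Qn (q * s.ip a)) := by
    rw [s.Qn_mul, s.Qn_ip hA.1]
    exact r3_map σ (map_sub σ) (fun ζ hζ => hA.2.2.2 ζ
      (by rw [mul_assoc, pow_mul, hζ, one_pow])) _
  have e3 := h (s.tp f q) (by
    have := d4_nat (Ideal.absNorm f * k) t2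
    rw [e]
    refine (congrArg (· ∈ s.idl f * q.L) ?_).mp this
    push_cast
    ring) (by rwa [e])
  rw [s.oms_eq hf hq hs, s.oms_eq hf hu hs', one_mul, one_mul, om1, om1, e1, s.mul_L,
    s.ip_L hA.1, ← mul_assoc, ← e, div_mul_eq_mul_div, div_mul_eq_mul_div, map_div₀, e2, e3]

theorem art_oms_ec (hf : ¬ 3 ∣ Ideal.absNorm f) (hm : 0 < m) (hA : s.Art m σ a)
    (hd : 3 * Ideal.absNorm f ∣ m) (hp : IsUnit (s.cl (s.lv f) p)) (hc : Odd c) (hcm : c ∣ m)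
    (hz : m * z ∈ s.idl f * p.L) (hz' : z ∉ s.idl f * p.L) :
    σ (s.oms f p * ec (s.zl (s.idl f * p.L)) c z) =
      s.oms f (p * s.ip a) * ec (s.zl (s.idl f * (p * s.ip a).L)) c z := by
  rw [s.mul_L, s.ip_L hA.1, ← mul_assoc]
  exact d5_key hf hm hA hd hp fun Q h1 h2 =>
    art_st_ec hA ((s.isUnit_idl (s.cop_ne hf)).mul p.unit) hc hcm hz hz' h1 h2

theorem art_oms_eF (hf : ¬ 3 ∣ Ideal.absNorm f) (hm : 0 < m) (hA : s.Art m σ a)
    (hd : 3 * Ideal.absNorm f ∣ m) (hp : IsUnit (s.cl (s.lv f) p))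
    (hz : m * z ∈ s.idl f * p.L) (hz' : z ∉ s.idl f * p.L) :
    σ (s.oms f p * eF (s.zl (s.idl f * p.L)) z) =
      s.oms f (p * s.ip a) * eF (s.zl (s.idl f * (p * s.ip a).L)) z := by
  rw [s.mul_L, s.ip_L hA.1, ← mul_assoc]
  exact d5_key hf hm hA hd hp fun Q h1 h2 =>
    art_st_eF hm hA ((s.isUnit_idl (s.cop_ne hf)).mul p.unit) hz hz' h1 h2

end St

end Pool.Agent.P.MP_20768c_nt.Tz.Cv

end

-- part Cv.H3
section

set_option autoImplicit false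

open Complex NumberField IsDedekindDomain Filter Topology
open UpperHalfPlane hiding I
open scoped ComplexConjugate Real MatrixGroups

namespace Pool.Agent.P.MP_20768c_nt.Tz.Cv

open Pool.Agent.P.MP_20768c_nt.Tz.EQ (Lt pr sp IsLat jL qN)

theorem h3_sep {G : Type} [Finite G] (a b : G → ℂ) (h : ∀ C D, a C = a D → b C = b D → C = D) :
    ∃ t : ℕ, Function.Injective fun C => a C + t * b C := by
  obtain ⟨_, ⟨t, rfl⟩, ht⟩ := (Set.infinite_range_of_injective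
    (Nat.cast_injective (R := ℂ))).exists_notMem_finite
    (Set.finite_range fun p : G × G => (a p.2 - a p.1) / (b p.1 - b p.2))
  refine ⟨t, fun C D e => ?_⟩
  have e' : a C + t * b C = a D + t * b D := e
  by_cases hb : b C = b D
  · exact h C D (by rw [hb] at e'; exact add_right_cancel e') hb
  · refine absurd ⟨(C, D), ?_⟩ ht
    rw [div_eq_iff (sub_ne_zero.2 hb)]
    linear_combination -e'

theorem h3_xx {L : Lt} (h : IsLat L) {z w : ℂ} (e : z - w ∈ L) : XX L z = XX L w := by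
  rw [XX, XX, wp_congr h e]

namespace St

variable {s : St} {f : Ideal s.O} {ω ω' : s.Pair → ℂ}

theorem h3_fix (σ : s.Au) {x : ℂ} (hx : x ∈ s.k) : σ x = x := σ.commutes ⟨x, hx⟩

theorem h3_neg (s : St) (x : ℂ) : s.sc (-x) = s.sc x := by
  refine le_antisymm ?_ ?_
  · exact (Submodule.span_singleton_le_iff_mem _ _).2 (neg_mem (s.mem_sc x))
  · exact (Submodule.span_singleton_le_iff_mem _ _).2 (neg_mem_iff.1 (s.mem_sc (-x)))

theorem h3_L {n : Ideal s.O} {x : ℂ} {p q : s.Pair} (h : s.Sim n x p q) (g : Ideal s.O) :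
    s.zl (s.idl g * q.L) = pr x * s.zl (s.idl g * p.L) := by
  rw [h.2.1, mul_left_comm, s.zl_sc]

theorem h3_ipL (p : s.Pair) {a : Ideal s.O} (ha : a ≠ ⊥) (g : Ideal s.O) :
    s.idl g * (p * s.ip a).L = s.idl g * p.L * s.inv a := by
  rw [s.mul_L, s.ip_L ha, mul_assoc]

theorem h3_ipρ (p : s.Pair) (a : Ideal s.O) : (p * s.ip a).ρ = p.ρ := by
  rw [s.mul_ρ, s.ip_ρ, mul_one]

theorem h3_eF {D : ℕ} (hD : 0 < D) (p : s.Pair) :
    eF (s.zl (s.idl (f * Ideal.span {(D : s.O)}) * p.L)) p.ρ =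
      eF (s.zl (s.idl f * p.L)) (p.ρ / D) / D := by
  have h0 : (D : ℂ) ≠ 0 := by exact_mod_cast hD.ne'
  rw [← eF_sc _ h0, mul_div_cancel₀ _ h0, s.idl_mul, s.idl_span, s.c_nat, mul_comm (s.idl f),
    mul_assoc, s.zl_sc]

theorem h3_lv_ne (s : St) (f : Ideal s.O) : s.lv f ≠ ⊤ := fun e =>
  s.p2_max.ne_top (eq_top_iff.2 (e.ge.trans Ideal.mul_le_right))

theorem h3_three (s : St) (f : Ideal s.O) : ((3 * Ideal.absNorm f : ℕ) : s.O) ∈ s.lv f := by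
  rw [mul_comm]
  push_cast
  exact Ideal.mul_mem_mul f.absNorm_mem s.three_mem.2

theorem h3_act (hf : ¬ 3 ∣ Ideal.absNorm f) {d : ℕ} (hd : 0 < d) {σ : s.Au} {a : Ideal s.O}
    (hA : s.Art (3 * Ideal.absNorm f * (3 * d)) σ a) {p : s.Pair}
    (hp : IsUnit (s.cl (s.lv f) p)) :
    σ (s.oms f p * eF (s.zl (s.idl f * p.L)) (p.ρ / (3 * d : ℕ))) =
      s.oms f (p * s.ip a) *
        eF (s.zl (s.idl f * (p * s.ip a).L)) ((p * s.ip a).ρ / (3 * d : ℕ)) := by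
  have hN : 0 < Ideal.absNorm f := Nat.pos_of_ne_zero fun e => hf (e ▸ dvd_zero 3)
  have h0 : (d : ℂ) ≠ 0 := by exact_mod_cast hd.ne'
  rw [h3_ipρ]
  refine art_oms_eF hf (by positivity) hA (dvd_mul_right _ _) hp ?_ fun h => ?_
  · have := s.mul_mem_idl (f.mul_mem_left 3 f.absNorm_mem) p.mem
    rw [show (3 : s.O) * (Ideal.absNorm f : ℕ) = ((3 * Ideal.absNorm f : ℕ) : s.O) by push_cast; rfl,
      s.c_nat] at this
    refine (congrArg (· ∈ s.idl f * p.L) ?_).mp this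
    push_cast
    field_simp
  · have := s.mul_mem_idl (s.p2.mul_mem_right (d : s.O) s.three_mem.2) h
    rw [show (3 : s.O) * (d : ℕ) = ((3 * d : ℕ) : s.O) by push_cast; rfl, s.c_nat, ← mul_assoc,
      ← s.idl_mul, mul_comm s.p2, mul_div_cancel₀ _ (by push_cast; exact mul_ne_zero three_ne_zero h0)]
      at this
    exact s.unit_not_mem hp le_rfl (s.h3_lv_ne f) this

theorem h3_exp {D : ℕ} (hD : 0 < D) (B : ℤ) {a b : ℕ} (h : a ≡ b [MOD D]) :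
    cexp (2 * π * I * (B * a) / D) = cexp (2 * π * I * (B * b) / D) := by
  have h0 : (D : ℂ) ≠ 0 := by exact_mod_cast hD.ne'
  obtain ⟨t, ht⟩ := (Nat.modEq_iff_dvd.1 h)
  have e : (b : ℂ) = a + D * t := by
    have : ((b : ℤ) : ℂ) - (a : ℤ) = D * t := by exact_mod_cast congrArg (Int.cast : ℤ → ℂ) ht
    push_cast at this
    linear_combination this
  refine Complex.exp_eq_exp_iff_exists_int.2 ⟨-(B * t), ?_⟩
  rw [e]
  push_cast
  field_simp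
  ring

/-- The two coordinates of a ray class. -/
noncomputable def h3y (s : St) (n : Ideal s.O) (t : ℕ) (p : s.Pair) : ℂ :=
  jL (s.zl (s.idl n * p.L)) + t * XX (s.zl (s.idl n * p.L)) p.ρ

theorem h3_inv {n : Ideal s.O} (hn : n ≠ ⊥) (t : ℕ) : s.Inv n (s.h3y n t) := by
  intro x p q h
  have u1 := (s.isUnit_idl hn).mul p.unit
  have u2 := (s.isUnit_idl hn).mul q.unit
  have e1 : jL (s.zl (s.idl n * p.L)) = jL (s.zl (s.idl n * q.L)) :=
    (s.j_eq u1 u2).2 ⟨x, h.1, by rw [h.2.1, mul_left_comm]⟩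
  have e2 : XX (s.zl (s.idl n * q.L)) q.ρ = XX (s.zl (s.idl n * p.L)) p.ρ := by
    rw [h3_xx (s.isLat_zl u2) (s.mem_zl.2 h.2.2), h3_L h, XX_sc _ h.1]
  rw [h3y, h3y, e1, e2]

theorem h3_inj {n : Ideal s.O} (hn : n ≠ ⊥) (hn' : n ≠ ⊤) {p q : s.Pair}
    (hp : IsUnit (s.cl n p)) (hq : IsUnit (s.cl n q))
    (e1 : jL (s.zl (s.idl n * p.L)) = jL (s.zl (s.idl n * q.L)))
    (e2 : XX (s.zl (s.idl n * p.L)) p.ρ = XX (s.zl (s.idl n * q.L)) q.ρ) :
    s.cl n p = s.cl n q := by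
  have u0 := s.isUnit_idl hn
  have u2 := u0.mul q.unit
  obtain ⟨x, hx, e⟩ := (s.j_eq (u0.mul p.unit) u2).1 e1
  have e3 : q.L = s.sc x * p.L := u0.mul_left_cancel (e.trans (mul_left_comm _ _ _))
  have k1 := s.unit_not_mem hq le_rfl hn'
  have k2 : x * p.ρ ∉ s.idl n * q.L := by
    rw [e, s.mul_mem_sc' hx]
    exact s.unit_not_mem hp le_rfl hn'
  have e4 : XX (s.zl (s.idl n * q.L)) q.ρ = XX (s.zl (s.idl n * q.L)) (x * p.ρ) := by
    rw [← e2, e, s.zl_sc, XX_sc _ hx]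
  rcases s.XX_inj u2 k1 k2 e4 with h | h
  · exact s.cl_eq.2 ⟨x, hx, e3, h⟩
  · exact s.cl_eq.2 ⟨-x, neg_ne_zero.2 hx, by rw [h3_neg, e3], by rwa [neg_mul, sub_neg_eq_add]⟩

theorem Rat.wt (hf : ¬ 3 ∣ Ideal.absNorm f) (h : s.Rat f ω) :
    s.IsWt (s.lv f) ω ∧ s.Supp (s.lv f) ω := by
  obtain ⟨g, h1, h2, -⟩ := h
  obtain ⟨⟨k1, k2⟩, k3⟩ := s.oms_wt hf
  refine ⟨⟨fun x p q e => ?_, fun p hp => ?_⟩, fun p hp => ?_⟩
  · rw [h2, h2, h1 x p q e, k1 x p q e, mul_left_comm]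
  · rw [h2, k2 p hp, mul_zero]
  · rw [h2, k3 p hp, mul_zero]

theorem rat_zero (s : St) (f : Ideal s.O) : s.Rat f fun _ => 0 := by
  exact ⟨fun _ => 0, fun _ _ _ _ => rfl, fun _ => (zero_mul _).symm, fun σ _ _ _ _ => map_zero σ⟩

theorem Rat.add (h : s.Rat f ω) (h' : s.Rat f ω') : s.Rat f fun p => ω p + ω' p := by
  obtain ⟨g, h1, h2, h3⟩ := h
  obtain ⟨g', k1, k2, k3⟩ := h'
  refine ⟨fun p => g p + g' p, fun x p q e => ?_, fun p => ?_, fun σ b hA p hp => ?_⟩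
  · simp only [h1 x p q e, k1 x p q e]
  · simp only [h2, k2, add_mul]
  · simp only [map_add, h3 σ b hA p hp, k3 σ b hA p hp]

theorem Rat.smul (h : s.Rat f ω) {x : ℂ} (hx : x ∈ s.k) : s.Rat f fun p => x * ω p := by
  obtain ⟨g, h1, h2, h3⟩ := h
  refine ⟨fun p => x * g p, fun y p q e => ?_, fun p => ?_, fun σ b hA p hp => ?_⟩
  · simp only [h1 y p q e]
  · simp only [h2, mul_assoc]
  · simp only [map_mul, h3 σ b hA p hp, h3_fix σ hx]

/-- The summand of the modular symbol. -/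
noncomputable def h3T (s : St) (n : Ideal s.O) (ω : s.Pair → ℂ) (B : ℤ) (D : ℕ) (p : s.Pair) : ℂ :=
  cexp (2 * π * I * (B * s.Qn p) / D) * ω p * eF (s.zl (s.idl n * p.L)) p.ρ

theorem h3_Tinv {n : Ideal s.O} (hw : s.IsWt n ω) (B : ℤ) {D : ℕ} (hD : 0 < D)
    (hn : n ≤ Ideal.span {(D : s.O)}) : s.Inv n (s.h3T n ω B D) := fun x p q e => by
  have e1 : eF (s.zl (s.idl n * q.L)) q.ρ = eF (s.zl (s.idl n * p.L)) p.ρ / x := by
    rw [← eF_sc _ e.1, ← h3_L e, ← eF_add _ (x * p.ρ) (s.mem_zl.2 e.2.2), add_sub_cancel]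
  rw [h3T, h3T, e1, hw.1 x p q e, h3_exp hD _ (s.Qn_mod hn (s.cl_eq.2 ⟨x, e⟩))]
  generalize cexp _ = A
  have hx := e.1
  field_simp

theorem h3_root {m D : ℕ} (hD : 0 < D) (hm : D ∣ m) {σ : s.Au} {a : Ideal s.O}
    (hA : s.Art m σ a) (B : ℤ) (p : s.Pair) : σ (cexp (2 * π * I * (B * s.Qn p) / D)) =
      cexp (2 * π * I * (B * s.Qn (p * s.ip a)) / D) := by
  have h0 : (D : ℂ) ≠ 0 := by exact_mod_cast hD.ne'
  obtain ⟨t, rfl⟩ := hm
  rw [hA.2.2.2, ← Complex.exp_nat_mul, s.Qn_mul, s.Qn_ip hA.1, Nat.cast_mul (s.Qn p)]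
  · congr 1
    ring
  · rw [← Complex.exp_nat_mul]
    refine Complex.exp_eq_one_iff.2 ⟨t * (B * s.Qn p), ?_⟩
    push_cast
    field_simp

theorem h3_Tact (hf : ¬ 3 ∣ Ideal.absNorm f) (h : s.Rat f ω) (B : ℤ) {d : ℕ} (hd : 0 < d)
    {σ : s.Au} {a : Ideal s.O} (hA : s.Art (3 * Ideal.absNorm f * (3 * d)) σ a)
    (p : s.Pair) :
    σ (s.h3T (f * Ideal.span {((3 * d : ℕ) : s.O)}) ω B (3 * d) p) =
      s.h3T (f * Ideal.span {((3 * d : ℕ) : s.O)}) ω B (3 * d) (p * s.ip a) := by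
  have hs := (h.wt hf).2
  obtain ⟨g, -, h2, h3⟩ := h
  have hD : 0 < 3 * d := by positivity
  by_cases hp : IsUnit (s.cl (s.lv f) p)
  · have e1 := h3_root hD (dvd_mul_left _ _) hA B p
    have e2 := h3_act hf hd hA hp
    have e3 := h3 σ a (hA.mono (dvd_mul_right _ _)) p hp
    rw [map_mul] at e2
    rw [h3T, h3T, h2, h2, h3_eF hD, h3_eF hD, map_mul, map_mul, map_mul, map_div₀, map_natCast,
      e1, e3]
    linear_combination cexp (2 * π * I * (B * s.Qn (p * s.ip a)) / (3 * d : ℕ)) *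
      g (p * s.ip a) / (3 * d : ℕ) * e2
  · rw [h3T, h3T, hs p hp, hs _ fun h => hp (isUnit_of_mul_isUnit_left (by rwa [map_mul] at h)),
      mul_zero, zero_mul, map_zero, mul_zero, zero_mul]

theorem Sy_rat (hf : ¬ 3 ∣ Ideal.absNorm f) (h : s.Rat f ω) (r : ℚ) : s.Sy ω r ∈ s.k := by
  obtain ⟨B, d, hd, rfl⟩ : ∃ (B : ℤ) (d : ℕ), 0 < d ∧ r = (B : ℚ) / ((3 * d : ℕ) : ℚ) :=
    ⟨3 * r.num, r.den, r.den_pos, by
      push_cast
      rw [mul_div_mul_left _ _ (by norm_num : (3 : ℚ) ≠ 0), Rat.num_div_den]⟩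
  have hw := (h.wt hf).1
  have hD : 0 < 3 * d := by positivity
  have hN : 0 < Ideal.absNorm f := Nat.pos_of_ne_zero fun e => hf (e ▸ dvd_zero 3)
  have hm : 0 < 3 * Ideal.absNorm f * (3 * d) := by positivity
  have h4 : Ideal.span {((3 * d : ℕ) : s.O)} ≤ s.p2 := by
    rw [Ideal.span_singleton_le_iff_mem]
    push_cast
    exact s.p2.mul_mem_right _ s.three_mem.2
  have hle : f * Ideal.span {((3 * d : ℕ) : s.O)} ≤ s.lv f := Ideal.mul_mono_right h4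
  have hn0 : f * Ideal.span {((3 * d : ℕ) : s.O)} ≠ ⊥ := mul_ne_zero (s.cop_ne hf) fun e => by
    have : ((3 * d : ℕ) : s.O) = 0 := Ideal.span_singleton_eq_bot.1 e
    exact hD.ne' (by exact_mod_cast this)
  have e : s.Sy ω (B / (3 * d : ℕ)) = ∑ᶠ C : s.Pr (f * Ideal.span {((3 * d : ℕ) : s.O)}),
      s.h3T (f * Ideal.span {((3 * d : ℕ) : s.O)}) ω B (3 * d) (s.out C) :=
    s.Sy_eq hn0 (Ideal.mul_le_right.trans h4) (hw.mono hle) B hD Ideal.mul_le_right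
  rw [e]
  refine s.mem_k_of_fixed fun σ => ?_
  obtain ⟨a, hA⟩ := exists_art hm σ
  have hu : IsUnit (s.cl (f * Ideal.span {((3 * d : ℕ) : s.O)}) (s.ip a)) := hA.unit hm (by
    rw [Nat.cast_mul (3 * Ideal.absNorm f), Nat.cast_mul 3 (Ideal.absNorm f)]
    exact Ideal.mul_mem_mul (f.mul_mem_left _ f.absNorm_mem) (Ideal.mem_span_singleton_self _))
  have := s.finite_Pr hn0
  rw [map_finsum σ (Set.toFinite _), ← s.sum_mul (h3_Tinv (hw.mono hle) B hD Ideal.mul_le_right) hu]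
  exact finsum_congr fun C => h3_Tact hf h B hd hA _

theorem rat_span (hf : ¬ 3 ∣ Ideal.absNorm f) (h : s.IsWt (s.lv f) ω) (h0 : s.Supp (s.lv f) ω) :
    ∃ (N : ℕ) (μ : ℕ → ℂ) (w : ℕ → s.Pair → ℂ), (∀ i, s.Rat f (w i)) ∧
      ω = fun p => ∑ i ∈ Finset.range N, μ i * w i p := by
  classical
  have hn0 := s.lv_ne (s.cop_ne hf)
  have := s.finite_Pr hn0
  have := Fintype.ofFinite (s.Pr (s.lv f))ˣ
  obtain ⟨⟨k1, -⟩, k3⟩ := s.oms_wt hf
  obtain ⟨t, ht⟩ := h3_sep (fun C : (s.Pr (s.lv f))ˣ => jL (s.zl (s.idl (s.lv f) * (s.out C.1).L)))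
    (fun C => XX (s.zl (s.idl (s.lv f) * (s.out C.1).L)) (s.out C.1).ρ) fun C D e1 e2 => by
      have := h3_inj hn0 (s.h3_lv_ne f) (s.unit_out C) (s.unit_out D) e1 e2
      rw [s.cl_out, s.cl_out] at this
      exact Units.ext this
  let P := Lagrange.interpolate Finset.univ
    (fun C : (s.Pr (s.lv f))ˣ => s.h3y (s.lv f) t (s.out C.1))
    fun C => ω (s.out C.1) / s.oms f (s.out C.1)
  have hP : ∀ C : (s.Pr (s.lv f))ˣ, P.eval (s.h3y (s.lv f) t (s.out C.1)) =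
      ω (s.out C.1) / s.oms f (s.out C.1) := fun C =>
    Lagrange.eval_interpolate_at_node _ ht.injOn (Finset.mem_univ C)
  refine ⟨P.natDegree + 1, P.coeff, fun i p => s.h3y (s.lv f) t p ^ i * s.oms f p,
    fun i => ⟨fun p => s.h3y (s.lv f) t p ^ i, fun x p q e => ?_, fun _ => rfl,
      fun σ b hA p hp => ?_⟩, funext fun p => ?_⟩
  · simp only [h3_inv hn0 t x p q e]
  · obtain ⟨e1, e2⟩ := hA.2.2.1 _ ((s.isUnit_idl hn0).mul p.unit)
    have e3 := e2 p.ρ (by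
      rw [← s.c_nat]
      exact s.mul_mem_idl (s.h3_three f) p.mem) (s.unit_not_mem hp le_rfl (s.h3_lv_ne f))
    simp only [h3y, map_pow, map_add, map_mul, map_natCast, e1, e3, h3_ipL p hA.1, h3_ipρ]
  · simp only [← mul_assoc, ← Finset.sum_mul]
    rw [← Polynomial.eval_eq_sum_range]
    by_cases hp : IsUnit (s.cl (s.lv f) p)
    · obtain ⟨C, hC⟩ := hp
      obtain ⟨x, hx⟩ := s.cl_eq.1 ((s.cl_out C.1).trans hC)
      have := s.oms_ne hf (s.unit_out C)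
      rw [h3_inv hn0 t x _ _ hx, hP, h.1 x _ _ hx, k1 x _ _ hx]
      field_simp
    · rw [h0 p hp, k3 p hp, mul_zero]

end St

end Pool.Agent.P.MP_20768c_nt.Tz.Cv

end

-- part Cv.U0
section

set_option autoImplicit false

open Complex NumberField IsDedekindDomain Filter Topology
open UpperHalfPlane hiding I
open scoped ComplexConjugate Real MatrixGroups

namespace Pool.Agent.P.MP_20768c_nt.Tz.Cv

open Pool.Agent.P.MP_20768c_nt.Tz.EQ (Lt pr sp IsLat jL qN)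

namespace St

variable {s : St} {f : Ideal s.O} {c n : ℕ} {p : s.Pair} {sb : (ZMod (3 ^ n))ˣ → s.Au}
  {κ : (ZMod (3 ^ n))ˣ →* (s.Pr (s.md f n))ˣ}

theorem u0_div {L : s.Sub} {y : ℂ} (h : y ∈ s.idl (s.md f n) * L) : y / 3 ^ n ∈ s.idl f * L := by
  rw [md, s.idl_mul, s.idl_span, mul_comm (s.idl f), mul_assoc, s.mem_sc_mul] at h
  obtain ⟨z, hz, rfl⟩ := h
  have e : s.c 3 = 3 := by simpa using s.c_nat 3
  rwa [s.c_pow, e, mul_div_cancel_left₀ _ (pow_ne_zero _ three_ne_zero)]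

theorem u0_unit (hc : s.Cc f c) (p : s.Pair) : IsUnit (s.idl f * p.L) :=
  (s.isUnit_idl (s.cop_ne hc.1)).mul p.unit

theorem u0_pos (hc : s.Cc f c) (n : ℕ) : 0 < c * Ideal.absNorm f * 3 ^ n :=
  Nat.mul_pos (Nat.mul_pos hc.spec.1.pos (Nat.pos_of_ne_zero fun e => hc.1 (e ▸ dvd_zero 3)))
    (by positivity)

theorem u0_nat {L : s.Sub} {y : ℂ} (h : y ∈ L) (j : ℕ) : (j : ℂ) * y ∈ L := by
  rw [← s.c_nat]
  exact s.c_mul_mem _ h

theorem u0_nf (f : Ideal s.O) (p : s.Pair) : (Ideal.absNorm f : ℂ) * p.ρ ∈ s.idl f * p.L := by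
  rw [← s.c_nat]
  exact s.mul_mem_idl (Ideal.absNorm_mem f) p.mem

theorem oe_inv (hc : s.Cc f c) (hn : 2 ≤ n) :
    s.Inv (s.md f n) fun p => s.oms f p * s.ecp f c n p := by
  intro x p q h
  have h1 := ((s.oms_wt hc.1).1.mono (s.md_le_lv f (by omega))).1 x p q h
  obtain ⟨h0, hL, hρ⟩ := h
  have e : q.ρ / 3 ^ n = x * (p.ρ / 3 ^ n) + (q.ρ - x * p.ρ) / 3 ^ n := by ring
  have h2 : s.ecp f c n q = s.ecp f c n p / x := by
    rw [ecp, ecp, e, ec_add (s.isLat_zl (u0_unit hc q)) c _ (s.mem_zl.2 (u0_div hρ)), hL,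
      mul_left_comm, s.zl_sc, ec_sc (s.isLat_zl (u0_unit hc p)) h0 hc.spec.1.pos]
  beta_reduce
  rw [h1, h2]
  field_simp

theorem art_thp (hc : s.Cc f c) (hn : 2 ≤ n) {σ : s.Au} {a : Ideal s.O}
    (hA : s.Art (c * Ideal.absNorm f * 3 ^ n) σ a) (hp : IsUnit (s.cl (s.md f n) p)) :
    σ (s.thp f c n p) = s.thp f c n (p * s.ip a) ∧
      σ (s.oms f p * s.ecp f c n p) = s.oms f (p * s.ip a) * s.ecp f c n (p * s.ip a) := by
  have hL := u0_unit hc p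
  have hd : c ∣ c * Ideal.absNorm f * 3 ^ n := (dvd_mul_right c _).mul_right _
  have hz : ((c * Ideal.absNorm f * 3 ^ n : ℕ) : ℂ) * (p.ρ / 3 ^ n) ∈ s.idl f * p.L := by
    have e : ((c * Ideal.absNorm f * 3 ^ n : ℕ) : ℂ) * (p.ρ / 3 ^ n) =
        c * (Ideal.absNorm f * p.ρ) := by
      push_cast
      field_simp
    rw [e]
    exact u0_nat (u0_nf f p) c
  have hz' : p.ρ / 3 ^ n ∉ s.idl f * p.L := fun h =>
    (s.thp_gen hc (by omega) hp).2 (u0_nat h c)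
  have hp' := s.unit_mono (s.md_le_lv f (by omega)) hp
  have hQ : 3 * Ideal.absNorm f ∣ c * Ideal.absNorm f * 3 ^ n := by
    rw [mul_comm 3, mul_assoc]
    exact (mul_dvd_mul_left _ (dvd_pow_self 3 (by omega))).mul_left c
  have k1 : s.idl f * (p * s.ip a).L = s.idl f * p.L * s.inv a := by
    rw [mul_L, s.ip_L hA.1, mul_assoc]
  have k2 : (p * s.ip a).ρ = p.ρ := by rw [mul_ρ, s.ip_ρ, mul_one]
  rw [thp, thp, ecp, ecp, k2]
  exact ⟨k1 ▸ art_tht hA hL hc.spec.1 hc.spec.2.1 hd hz hz',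
    art_oms_ec hc.1 (u0_pos hc n) hA hQ hp' hc.spec.1 hd hz hz'⟩

theorem u0_act (hc : s.Cc f c) (hn : 2 ≤ n) (hκ : s.Kap f n κ) {σ : s.Au} (hI : Inert s.v σ)
    {b : (ZMod (3 ^ n))ˣ} (hb : σ (zt n) = zt n ^ (b : ZMod (3 ^ n)).val)
    (hp : IsUnit (s.cl (s.md f n) p)) {q : s.Pair}
    (hq : s.cl (s.md f n) q = s.cl (s.md f n) p * κ b) : σ (s.thp f c n p) = s.thp f c n q ∧
      σ (s.oms f p * s.ecp f c n p) = s.oms f q * s.ecp f c n q := by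
  obtain ⟨a, hA⟩ := exists_art (u0_pos hc n) σ
  have h1 := hκ.2.2 _ σ a b (u0_pos hc n) (s.mm_mem f c n) hA hI hb
  have h2 : s.cl (s.md f n) (p * s.ip a) = s.cl (s.md f n) q := by rw [map_mul, h1, hq]
  obtain ⟨k1, k2⟩ := art_thp hc hn hA hp
  exact ⟨k1.trans ((s.thp_inv hc n).of_cl h2), k2.trans ((oe_inv hc hn).of_cl h2)⟩

theorem kap_act (hc : s.Cc f c) (hn : 2 ≤ n) (hκ : s.Kap f n κ) {σ : s.Au} (hI : Inert s.v σ)
    {b : (ZMod (3 ^ n))ˣ} (hb : σ (zt n) = zt n ^ (b : ZMod (3 ^ n)).val)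
    (C : (s.Pr (s.md f n))ˣ) : σ (s.thp f c n (s.out C.1)) = s.thp f c n (s.out (C * κ b).1) ∧
      σ (s.oms f (s.out C.1) * s.ecp f c n (s.out C.1)) =
        s.oms f (s.out (C * κ b).1) * s.ecp f c n (s.out (C * κ b).1) :=
  u0_act hc hn hκ hI hb (s.unit_out C) (by rw [s.cl_out, s.cl_out, Units.val_mul])

theorem u0_not_E1 {Γ : Type} [LinearOrderedCommGroupWithZero Γ] {v : Valuation ℂ Γ}
    (hc : s.Cc f c) (hn : 1 ≤ n) (hp : IsUnit (s.cl (s.md f n) p)) {U r : ℂ}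
    (hG : Good v (s.zl (s.idl f * p.L)) U r) :
    ¬ E1 v (s.zl (s.idl f * p.L)) U r (c * (p.ρ / 3 ^ n)) := fun h => by
  have h1 := E1_int (s.isLat_zl (u0_unit hc p)) hG h (Ideal.absNorm f * 3 ^ (n - 1) : ℕ)
  refine s.not_E1 v (u0_unit hc p) hG (s.thp_gen hc hn hp).1 ?_
  exact_mod_cast h1

theorem thp_unit {Γ : Type} [LinearOrderedCommGroupWithZero Γ] (v : Valuation ℂ Γ)
    (hc : s.Cc f c) (hn : 1 ≤ n) (hp : IsUnit (s.cl (s.md f n) p)) : v (s.thp f c n p) = 1 := by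
  obtain ⟨U, r, hG⟩ := s.exists_good v (u0_unit hc p)
  exact tht_unit (s.isLat_zl (u0_unit hc p)) hG hc.spec.1 hc.spec.2.1 (u0_not_E1 hc hn hp hG)

theorem thp_fx (hc : s.Cc f c) (hn : 2 ≤ n) (hp : IsUnit (s.cl (s.md f n) p)) :
    s.thp f c n p ∈ s.Fx n ∧ s.oms f p * s.ecp f c n p ∈ s.Fx n := by
  obtain ⟨κ, hκ⟩ := exists_kap hc.1 n
  have h1 : ∀ σ : s.Au, s.Art (c * Ideal.absNorm f * 3 ^ n) σ ⊤ →
      σ (s.thp f c n p) = s.thp f c n p ∧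
        σ (s.oms f p * s.ecp f c n p) = s.oms f p * s.ecp f c n p := fun σ hA => by
    simpa only [s.ip_top, mul_one] using art_thp hc hn hA hp
  have h2 : ∀ σ : s.Au, Inert s.v σ → σ (zt n) = zt n →
      σ (s.thp f c n p) = s.thp f c n p ∧
        σ (s.oms f p * s.ecp f c n p) = s.oms f p * s.ecp f c n p := fun σ hI hz =>
    u0_act hc hn hκ hI (b := 1)
      (by rw [hz, zt_val (a := 1) (by simp), zpow_one]) hp (by simp)
  exact ⟨⟨alg_of_art (u0_pos hc n) fun σ hA => (h1 σ hA).1, fun σ hI hz => (h2 σ hI hz).1⟩,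
    alg_of_art (u0_pos hc n) fun σ hA => (h1 σ hA).2, fun σ hI hz => (h2 σ hI hz).2⟩

theorem u0_tau (hf : ¬ 3 ∣ Ideal.absNorm f) (hn : 2 ≤ n) (hκ : s.Kap f n κ) (e : ℤ)
    {b : (ZMod (3 ^ n))ˣ} (hb : (b : ZMod (3 ^ n)) = 1 + e * 3 ^ (n - 1)) :
    s.cl (s.md f n) (s.np (1 + e * Ideal.absNorm f ^ 2 * 3 ^ (n - 1) * s.wb)) = κ b := by
  obtain ⟨j, rfl⟩ : ∃ j, n = j + 2 := ⟨n - 2, by omega⟩
  have e0 : j + 2 - 1 = j + 1 := rfl
  rw [e0] at hb ⊢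
  have e1 : (1 + e * Ideal.absNorm f ^ 2 * 3 ^ (j + 1) * s.wb : s.O) =
      ((1 : ℤ) : s.O) + ((e * Ideal.absNorm f ^ 2 * 3 ^ (j + 1) : ℤ) : s.O) * s.wb := by
    push_cast
    ring
  have h1 : s.cl (f * s.p2 ^ (j + 2))
      (s.np (1 + e * Ideal.absNorm f ^ 2 * 3 ^ (j + 1) * s.wb)) = 1 := by
    refine s.cl_np_eq_one.2 (Or.inl ?_)
    rw [add_sub_cancel_left, mul_assoc, pow_succ s.p2, sq, ← mul_assoc (e : s.O)]
    exact Ideal.mul_mem_mul (Ideal.mul_mem_left _ _ (Ideal.absNorm_mem f)) (Ideal.mul_mem_mul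
      (Ideal.pow_mem_pow s.three_mem.2 _) s.w_mem.2.1)
  rw [← s.cl_out (κ b).1]
  refine kap_unique hf ?_ (s.unit_out _) (by rw [h1, hκ.2.1]) ?_
  · refine (s.unit_md (s.cop_ne hf) (by omega)).2 ⟨s.unit_mono (n := f * s.p2 ^ (j + 2))
      (Ideal.mul_mono_right (Ideal.pow_le_self (by omega))) (h1 ▸ isUnit_one), ?_⟩
    rw [s.np_ρ, s.np_L, mul_one, s.c_mem_idl]
    intro h
    refine s.p1_max.ne_top ((Ideal.eq_top_iff_one _).2 ((Ideal.add_mem_iff_left _ ?_).1 h))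
    exact Ideal.mul_mem_right _ _ (Ideal.mul_mem_left _ _
      (Ideal.pow_mem_of_mem _ s.three_mem.1 _ (by omega)))
  · rw [hκ.1, hb, s.Qn_np, e1, ← Int.cast_natCast, s.norm_ab']
    obtain ⟨i, hi⟩ : (3 : ℤ) ∣ s.t * Ideal.absNorm f ^ 2 - 1 := by
      have h3 := s.t_mod
      have h4 : (Ideal.absNorm f : ℤ) % 3 = 1 ∨ (Ideal.absNorm f : ℤ) % 3 = 2 := by omega
      refine Int.dvd_of_emod_eq_zero ?_
      rcases h4 with h4 | h4 <;> simp [Int.sub_emod, Int.mul_emod, pow_two, h3, h4]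
    have h2 : (3 : ZMod (3 ^ (j + 2))) ^ (j + 2) = 0 := by
      exact_mod_cast ZMod.natCast_self (3 ^ (j + 2))
    have h5 := congrArg (Int.cast : ℤ → ZMod (3 ^ (j + 2))) hi
    push_cast at h5 ⊢
    linear_combination (e * 3 ^ (j + 1) : ZMod (3 ^ (j + 2))) * h5 +
      (e * i + s.m * e ^ 2 * Ideal.absNorm f ^ 4 * 3 ^ j : ZMod (3 ^ (j + 2))) * h2

theorem u0_shift (hc : s.Cc f c) (hn : 2 ≤ n) (hs : s.IsSec n sb)
    (hp : IsUnit (s.cl (s.md f n) p)) (e : ℤ) {b : (ZMod (3 ^ n))ˣ}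
    (hb : (b : ZMod (3 ^ n)) = 1 + e * 3 ^ (n - 1)) : sb b (s.thp f c n p) =
      tht (s.zl (s.idl f * p.L)) c (p.ρ / 3 ^ n + e * s.tp f p) := by
  obtain ⟨κ, hκ⟩ := exists_kap hc.1 n
  rw [(u0_act hc hn hκ (hs b).1 (hs b).2 hp
    (q := p * s.np (1 + e * Ideal.absNorm f ^ 2 * 3 ^ (n - 1) * s.wb))
    (by rw [map_mul, u0_tau hc.1 hn hκ e hb])).1]
  obtain ⟨j, rfl⟩ : ∃ j, n = j + 1 := ⟨n - 1, by omega⟩
  have e2 : s.c 3 = 3 := by simpa using s.c_nat 3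
  rw [thp, mul_L, mul_ρ, s.np_L, s.np_ρ, mul_one, s.c_add, s.c_mul, s.c_mul, s.c_mul, s.c_one,
    s.c_int, s.c_pow, s.c_pow, s.c_nat, e2, Nat.add_sub_cancel, tp]
  congr 1
  field_simp
  ring

theorem thp_dl (hc : s.Cc f c) (hn : 2 ≤ n) (hs : s.IsSec n sb)
    (hp : IsUnit (s.cl (s.md f n) p)) :
    s.v (s.Dl n sb (s.thp f c n p) -
        -(jacobiSym (s.Qn p) 3 : ℤ) * (s.oms f p * s.ecp f c n p)) ≤ s.v 3 ∧
      s.v (s.oms f p * s.ecp f c n p) ≤ 1 := by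
  have hL := u0_unit hc p
  have hG := s.good_three s.v s.v_three hL
  have hp1 := s.unit_mono (s.md_mono f (i := 1) (by omega)) hp
  obtain ⟨t1, t2, t3⟩ := s.tp_spec hc.1 ((s.unit_md (s.cop_ne hc.1) le_rfl).1 hp1).2
  have h1 := u0_shift hc hn hs hp 1 (b := tau n) (by rw [tau_val hn]; push_cast; ring)
  have h2 := u0_shift hc hn hs hp (-1) (b := (tau n)⁻¹) (by rw [tau_inv hn]; push_cast; ring)
  obtain ⟨h3, h4⟩ := dlog (s.isLat_zl hL) hG s.v_three (b4_mb2 s.v) (fun h => t1 (s.mem_zl.1 h))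
    (s.mem_zl.2 t2) t3 hc.spec.1 (u0_not_E1 hc (by omega) hp hG)
  have hQ : ¬ (3 : ℤ) ∣ (s.Qn p : ℕ) := by
    have := s.Qn_cop (s.md_le f 1).2.1 hp1
    rw [pow_one, Nat.coprime_comm, Nat.prime_three.coprime_iff_not_dvd] at this
    exact_mod_cast this
  have hJ : ((jacobiSym (s.Qn p) 3 : ℤ) : ℂ) ^ 2 = 1 := by
    rcases (jac_three hQ).1 with e | e <;> rw [e] <;> norm_num
  have hv : s.v (jacobiSym (s.Qn p) 3 : ℤ) = 1 := v_root s.v two_pos hJ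
  have e : (jacobiSym (s.Qn p) 3 : ℤ) * (s.oms f p * s.ecp f c n p) =
      st (s.zl (s.idl f * p.L)) (s.tp f p) / r3 1 *
        ec (s.zl (s.idl f * p.L)) c (p.ρ / 3 ^ n) := by
    have h0 : ((jacobiSym (s.Qn p) 3 : ℤ) : ℂ) ≠ 0 := fun h => by simp [h] at hJ
    have := r3_ne
    rw [s.oms_om1 hc.1 hp1, om1, ecp, r3_eq (s.Qn p)]
    field_simp
  rw [Int.cast_one, one_mul] at h1
  rw [Int.cast_neg, Int.cast_one, neg_one_mul, ← sub_eq_add_neg] at h2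
  refine ⟨?_, ?_⟩
  · rw [neg_mul, e, Dl, h1, h2]
    exact h3.2.2
  · rwa [← e, map_mul, hv, one_mul] at h4

end St

end Pool.Agent.P.MP_20768c_nt.Tz.Cv

end

-- part Cv.X10
section

set_option autoImplicit false

open Complex NumberField IsDedekindDomain
open scoped Real

namespace Pool.Agent.P.MP_20768c_nt.Tz.Cv

theorem x10_card (G : Type) [CommGroup G] [Finite G] (l : ℕ) :
    Nat.card {g : G // g ^ l = 1} = Nat.card {χ : G →* ℂˣ // ∀ g, χ g ^ l = 1} := by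
  let H := (powMonoidHom l : G →* G).range
  have h1 : H.index = Nat.card {g : G // g ^ l = 1} := Subgroup.index_range
  rw [← h1, Subgroup.index_eq_card, ← CommGroup.card_domRestrictHom_ker ℂ H]
  refine Nat.card_congr (Equiv.subtypeEquivRight fun χ => ?_)
  rw [MonoidHom.mem_ker, MonoidHom.ext_iff]
  constructor
  · intro h g
    rw [← map_pow]
    exact h ⟨_, g, rfl⟩
  · rintro h ⟨_, g, rfl⟩
    exact (map_pow χ g l).trans (h g)

theorem x10_lift {A G M : Type} [Group A] [Group G] [Group M] (f : A →* G)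
    (hf : Function.Surjective f) (ψ : A →* M) (h : ∀ a, f a = 1 → ψ a = 1) :
    ∃ χ : G →* M, ∀ a, χ (f a) = ψ a :=
  ⟨f.liftOfSurjective hf ⟨ψ, h⟩, fun a => f.liftOfRightInverse_comp_apply _ _ ⟨ψ, h⟩ a⟩

theorem x10_root {G : Type} [CommGroup G] [Finite G] {l : ℕ} (χ : G →* ℂˣ)
    (h : ∀ g, g ^ l = 1 → χ g = 1) : ∃ χ' : G →* ℂˣ, ∀ g, χ' g ^ l = χ g := by
  obtain ⟨ψ, hψ⟩ := x10_lift (powMonoidHom l : G →* G).rangeRestrict
    (MonoidHom.rangeRestrict_surjective _) χ fun g hg => h g (congrArg Subtype.val hg)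
  obtain ⟨χ', hχ'⟩ := MonoidHom.domRestrict_surjective ℂ (powMonoidHom l : G →* G).range ψ
  refine ⟨χ', fun g => ?_⟩
  rw [← map_pow, ← hψ g, ← hχ']
  rfl

namespace St

variable (s : St) {l r : ℕ}

theorem x10_mem {m : ℕ} (hm : 0 < m) (hc : s.IsC0 m)
    {A : s.Au →* (s.Pr (Ideal.span {(m : s.O)}))ˣ}
    (hA : ∀ (σ : s.Au) (b : Ideal s.O), s.Art m σ b ↔
      b ≠ ⊥ ∧ (A σ : s.Pr (Ideal.span {(m : s.O)})) = s.cl _ (s.ip b))
    (χ : (s.Pr (Ideal.span {(m : s.O)}))ˣ →* ℂˣ) : s.Cts (χ.comp A) ∧ s.Unram m (χ.comp A) := by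
  refine ⟨⟨(s.CM_finite hm).toFinset, fun x hx =>
    s.CM_alg hm ((Set.Finite.mem_toFinset _).1 hx), fun σ hσ => ?_⟩, fun V σ hV hI => ?_⟩
  · have h1 := ((hA σ ⊤).1 ((s.art_one _).congr fun x hx =>
      hσ x ((Set.Finite.mem_toFinset _).2 hx))).2
    rw [s.ip_top, map_one] at h1
    rw [MonoidHom.comp_apply, Units.val_eq_one.1 h1, map_one]
  · obtain ⟨b, hb⟩ := exists_art hm σ
    have h1 := ((hA σ b).1 hb).2
    rw [s.art_inert hc V hV hV hb hI] at h1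
    rw [MonoidHom.comp_apply, Units.val_eq_one.1 h1, map_one]

theorem x10_div {φ ψ : s.Au →* ℂˣ} (hφ : s.Cts φ) (hψ : s.Cts ψ) : s.Cts (φ / ψ) := by
  classical
  obtain ⟨T, h1, h2⟩ := hφ
  obtain ⟨T', k1, k2⟩ := hψ
  refine ⟨T ∪ T', fun x hx => (Finset.mem_union.1 hx).elim (h1 x) (k1 x), fun σ hσ => ?_⟩
  rw [MonoidHom.div_apply, h2 σ fun x hx => hσ x (Finset.mem_union_left _ hx),
    k2 σ fun x hx => hσ x (Finset.mem_union_right _ hx), div_one]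

theorem x10_primes (l : ℕ) {m : ℕ} (hm : 0 < m) :
    {q : Ideal s.O | ∃ Q : HeightOneSpectrum (𝓞 (s.Fz l)), (m : 𝓞 (s.Fz l)) ∈ Q.asIdeal ∧
      Fre s.k Q.asIdeal ∧ Q.asIdeal.under s.O = q}.Finite := by
  have h0 : Ideal.span {(m : 𝓞 (s.Fz l))} ≠ 0 := by
    rw [Ne, Ideal.zero_eq_bot, Ideal.span_singleton_eq_bot]
    exact Nat.cast_ne_zero.2 hm.ne'
  refine ((Ideal.finite_factors h0).image fun Q => Q.asIdeal.under s.O).subset ?_
  rintro _ ⟨Q, h1, -, rfl⟩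
  exact ⟨Q, Ideal.dvd_span_singleton.2 h1, rfl⟩

theorem x10_step (hl : l.Prime) {φ : s.Au →* ℂˣ} (hφ : s.Cts φ) (hr : ∀ σ, φ σ ^ l ^ r = 1)
    (h : s.Ray (φ ^ l)) : s.Ray φ := by
  classical
  obtain ⟨m0, hm0, h⟩ := h
  obtain ⟨C0, h0⟩ := s.exists_C0
  obtain ⟨C1, hC1, hU1⟩ := s.x4_unr hφ
  obtain ⟨C2, hC2, hB⟩ := x2_selB (s.Fz l)
  obtain ⟨c, hc, d0, d1, d2, d3, d4⟩ : ∃ c : ℕ, 0 < c ∧ l ∣ c ∧ C0 ∣ c ∧ C1 ∣ c ∧ C2 ∣ c ∧ m0 ∣ c :=
    ⟨l * C0 * C1 * C2 * m0, Nat.pos_of_ne_zero (mul_ne_zero (mul_ne_zero (mul_ne_zero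
      (mul_ne_zero hl.ne_zero h0.1) hC1) hC2) hm0.ne'), ⟨C0 * C1 * C2 * m0, by ring⟩,
      ⟨l * C1 * C2 * m0, by ring⟩, ⟨l * C0 * C2 * m0, by ring⟩, ⟨l * C0 * C1 * m0, by ring⟩,
      ⟨l * C0 * C1 * C2, by ring⟩⟩
  obtain ⟨m, hme⟩ : ∃ m, m = l * (l * c) := ⟨_, rfl⟩
  have hm : 0 < m := hme ▸ mul_pos hl.pos (mul_pos hl.pos hc)
  have dc : c ∣ m := hme ▸ (dvd_mul_left c l).mul_left l
  have hC : s.IsC0 m := ⟨hm.ne', fun V hV => h0.2 V (v_nat_dvd _ (d1.trans dc) hV)⟩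
  have hU : s.Unram m φ := fun V σ hV => hU1 V σ (v_nat_dvd _ (d2.trans dc) hV)
  have hn : Ideal.span {(m : s.O)} ≠ ⊥ := by
    rw [Ne, Ideal.span_singleton_eq_bot]
    exact Nat.cast_ne_zero.2 hm.ne'
  have := s.finite_Pr hn
  obtain ⟨A, hA, hA'⟩ := s.exists_artHom hm
  have hA1 : ∀ σ : s.Au, s.Art m σ ⊤ ↔ A σ = 1 := fun σ => by
    rw [hA', s.ip_top, map_one, Units.val_eq_one]
    exact and_iff_right top_ne_bot
  obtain ⟨χ0, hχ0⟩ := x10_lift A hA (φ ^ l) fun σ hσ => h σ (((hA1 σ).2 hσ).mono (d4.trans dc))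
  have hχ : ∀ (σ : s.Au) (b : Ideal s.O), s.Art m σ b →
      MulChar.ofUnitHom χ0 (s.cl _ (s.ip b)) = (φ σ : ℂ) ^ l := fun σ b hb => by
    rw [← ((hA' σ b).1 hb).2, MulChar.ofUnitHom_coe, hχ0, MonoidHom.pow_apply,
      Units.val_pow_eq_pow_val]
  have h1 : ∀ x : s.O, MulChar.ofUnitHom χ0 (s.cl _ (s.np (1 + (l * c : ℕ) * x))) = 1 := by
    intro x
    have hu : IsUnit (s.cl (Ideal.span {(m : s.O)}) (s.np (1 + (l * c : ℕ) * x))) := by
      refine IsUnit.of_mul_eq_one (s.cl _ (s.np (1 - (l * c : ℕ) * x))) ?_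
      rw [← map_mul, ← s.np_mul]
      obtain ⟨e, rfl⟩ := d0
      refine s.cl_np_eq_one.2 (Or.inl (Ideal.mem_span_singleton'.2 ⟨-(e * x ^ 2 * l), ?_⟩))
      rw [hme]
      push_cast
      ring
    obtain ⟨σ, hσ⟩ := hA hu.unit
    obtain ⟨b, hb⟩ := exists_art hm σ
    have e1 : s.cl (Ideal.span {(m : s.O)}) (s.ip b) = s.cl _ (s.np (1 + (l * c : ℕ) * x)) := by
      rw [← ((hA' σ b).1 hb).2, hσ, IsUnit.unit_spec]
    have e2 := s.cl_mono (g := Ideal.span {(m0 : s.O)})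
      (Ideal.span_singleton_le_span_singleton.2 (Nat.cast_dvd_cast (d4.trans dc))) e1
    have e3 : s.cl (Ideal.span {(m0 : s.O)}) (s.np (1 + (l * c : ℕ) * x)) = 1 := by
      obtain ⟨e, rfl⟩ := d4
      refine s.cl_np_eq_one.2 (Or.inl (Ideal.mem_span_singleton'.2 ⟨l * e * x, ?_⟩))
      push_cast
      ring
    have e4 := h σ ((hb.mono (d4.trans dc)).of_cl hm0 top_ne_bot
      (by rw [e2, e3, s.ip_top, map_one]))
    rw [← e1, hχ σ b hb, ← Units.val_pow_eq_pow_val, ← MonoidHom.pow_apply, e4, Units.val_one]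
  have hJ := s.x10_primes l hm
  set J := {q : Ideal s.O | ∃ Q : HeightOneSpectrum (𝓞 (s.Fz l)),
    (m : 𝓞 (s.Fz l)) ∈ Q.asIdeal ∧ Fre s.k Q.asIdeal ∧ Q.asIdeal.under s.O = q}
  have : Fintype J := hJ.fintype
  choose Qf q1 q2 q3 using fun q : J => q.2
  choose u hu1 hu2 using fun q : J =>
    s.x8_kill hl hφ hr hC hU (d0.trans dc) (MulChar.ofUnitHom χ0) hχ (Qf q) (q1 q) (q2 q)
  have lb := s.x9_lb hl hc d0 hme (fun q : J => q.1) (fun q => by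
    rw [← q3 q]
    have := (Qf q).isMaximal
    refine ⟨inferInstance, ?_⟩
    rw [Ideal.under_def, Ideal.mem_comap, map_natCast]
    exact q1 q) Subtype.val_injective u (fun q => q3 q ▸ hu1 q) _ h1 hu2
  obtain ⟨hfin, ub⟩ := s.x5_up hl hm.ne' (hB m l (d3.trans dc)) (Finset.univ.image Qf)
    fun Q a1 a2 => ⟨Qf ⟨_, Q, a1, a2, rfl⟩, Finset.mem_image_of_mem _ (Finset.mem_univ _), q3 _⟩
  have : Finite (s.Chx l m) := hfin
  have hmem : ∀ χ : {χ : (s.Pr (Ideal.span {(m : s.O)}))ˣ →* ℂˣ // ∀ g, χ g ^ l = 1},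
      χ.1.comp A ∈ s.Chx l m := fun χ => ⟨fun σ => χ.2 _, s.x10_mem hm hC hA' χ.1⟩
  have hinj : Function.Injective fun χ => (⟨_, hmem χ⟩ : s.Chx l m) :=
    fun χ χ' h => Subtype.ext (MonoidHom.ext fun g => by
      obtain ⟨σ, rfl⟩ := hA g
      exact DFunLike.congr_fun (congrArg Subtype.val h) σ)
  have a1 : Nat.card (s.Chx l m) ≤ Nat.card {g : (s.Pr (Ideal.span {(m : s.O)}))ˣ //
      g ^ l = 1 ∧ MulChar.ofUnitHom χ0 g = 1} := by
    refine Nat.le_of_mul_le_mul_left (ub.trans (le_trans ?_ lb)) (by split_ifs <;> norm_num)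
    exact Nat.pow_le_pow_right hl.pos (Nat.add_le_add_left Finset.card_image_le 2)
  have hinj' : Function.Injective fun g : {g : (s.Pr (Ideal.span {(m : s.O)}))ˣ //
      g ^ l = 1 ∧ MulChar.ofUnitHom χ0 g = 1} =>
      (⟨g.1, g.2.1⟩ : {g : (s.Pr (Ideal.span {(m : s.O)}))ˣ // g ^ l = 1}) :=
    fun g g' h => Subtype.ext (Subtype.mk.inj h)
  have b1 := hinj'.bijective_of_nat_card_le
    ((x10_card _ l).le.trans ((Nat.card_le_card_of_injective _ hinj).trans a1))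
  have b2 := hinj.bijective_of_nat_card_le
    (a1.trans ((Nat.card_le_card_of_injective _ hinj').trans (x10_card _ l).le))
  obtain ⟨χ1, hχ1⟩ := x10_root (l := l) χ0 fun g hg => by
    obtain ⟨g', hg'⟩ := b1.2 ⟨g, hg⟩
    have e := g'.2.2
    rw [show g'.1 = g from congrArg Subtype.val hg', MulChar.ofUnitHom_coe] at e
    exact Units.val_eq_one.1 e
  have k := s.x10_mem hm hC hA' χ1
  obtain ⟨χ2, hχ2⟩ := b2.2 ⟨φ / χ1.comp A, fun σ => by
    rw [MonoidHom.div_apply, div_pow, MonoidHom.comp_apply, hχ1, hχ0, MonoidHom.pow_apply,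
      div_self'], s.x10_div hφ k.1, fun V σ hV hI => by
    rw [MonoidHom.div_apply, hU V σ hV hI, k.2 V σ hV hI, div_one]⟩
  refine ⟨m, hm, fun σ hσ => ?_⟩
  have e := DFunLike.congr_fun (congrArg Subtype.val hχ2) σ
  simp only [MonoidHom.div_apply, MonoidHom.comp_apply, (hA1 σ).1 hσ, map_one, div_one] at e
  exact e.symm

end St


end Pool.Agent.P.MP_20768c_nt.Tz.Cv

end
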