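import Pool.Agent.P.MP_20768c_nt.Tz.Z2
import Pool.Agent.P.MP_20768c_nt.Tz.Z4
import Pool.Agent.P.MP_20768c_nt.Tz.Z6
import Pool.Agent.P.MP_20768c_nt.Tz.Z8
import Pool.Agent.P.MP_20768c_nt.Tz.Z11
import Pool.Agent.P.MP_20768c_nt.Tz.Z12
import Pool.Agent.P.MP_20768c_nt.Tz.Z16

-- part Cv.J3
section

set_option autoImplicit false

open Complex NumberField IsDedekindDomain Filter Topology
open UpperHalfPlane hiding I
open scoped ComplexConjugate Real MatrixGroups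

namespace Pool.Agent.P.MP_20768c_nt.Tz.Cv

open Pool.Agent.P.MP_20768c_nt.Tz.EQ (Lt pr sp IsLat jL qN)

open CongruenceSubgroup

theorem j3_eng {K : Type} [NormedField K] [IsUltrametricDist K] {M : ℕ} [NeZero M]
    (h2 : ‖((3 : ℕ) : K)‖ < 1) (hM : 3 ∣ M) {ε : DirichletCharacter K M} {S : ℚ → K} {α : K}
    {c : ℝ} (hT : TLaw M ε S) (hH : HLaw 3 M ε α S) (hα : ‖α‖ = 1) (hc : 0 < c)
    (hμ : ∀ (n : ℕ) (a : ℤ), ¬ (3 : ℤ) ∣ a → ‖S (a / 3 ^ (n + 1))‖ < c) {γ : SL(2, ℤ)}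
    (hγ : γ ∈ Gamma1 M) : ‖Fv S (γ 0 0 : ℚ) (γ 1 0 : ℚ)‖ < c := by
  obtain ⟨-, h11, h10⟩ := (Gamma1_mem M γ).1 hγ
  have hd : γ 0 0 * γ 1 1 - γ 0 1 * γ 1 0 = 1 := by
    have := γ.det_coe
    rwa [Matrix.det_fin_two] at this
  have hc' : (M : ℤ) ∣ γ 1 0 := (ZMod.intCast_zmod_eq_zero_iff_dvd _ _).1 h10
  have hd' : (M : ℤ) ∣ γ 1 1 - 1 := by
    refine (ZMod.intCast_zmod_eq_zero_iff_dvd _ _).1 ?_
    push_cast
    rw [h11, sub_self]
  have e := hT _ _ _ _ hd hc' 0 1 (Or.inr one_ne_zero)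
  rw [char_one ε hd', Fv_of_ne S 0 one_ne_zero] at e
  simp only [mul_zero, mul_one, zero_add, one_mul, zero_div] at e
  have := engB Nat.prime_three h2 hM hT hH hα hc (b := γ 0 1) (d := γ 1 1)
    (fun n a ha => by
      have := hμ n a fun h => ha (by exact_mod_cast h)
      exact_mod_cast this)
    ⟨-γ 1 0, γ 0 0, by linear_combination hd⟩ hd'
  rwa [e, add_sub_cancel_right] at this

namespace St

variable {s : St} {f : Ideal s.O} {ω : s.Pair → ℂ}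

theorem j3_k (hf : ¬ 3 ∣ Ideal.absNorm f) (h : s.Rat f ω) (γ : SL(2, ℤ)) :
    Pe (s.vth ω) γ ∈ s.k := by
  unfold Pe Fv
  split_ifs
  · exact zero_mem _
  · exact Sy_rat hf h _

theorem j3_den {Λ : Submodule ℤ ℂ} (hΛ : Λ.FG) : (∀ x ∈ Λ, x ∈ s.k ∧ s.v x ≤ 1) →
    ∃ β : s.O, s.v (s.c β) = 1 ∧ ∀ x ∈ Λ, ∃ a : s.O, s.c β * x = s.c a := by
  refine Submodule.fg_induction (motive := fun Λ _ => (∀ x ∈ Λ, x ∈ s.k ∧ s.v x ≤ 1) →
    ∃ β : s.O, s.v (s.c β) = 1 ∧ ∀ x ∈ Λ, ∃ a : s.O, s.c β * x = s.c a) ?_ ?_ Λ hΛ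
  · intro x hx
    obtain ⟨h1, h2⟩ := hx x (Submodule.mem_span_singleton_self x)
    obtain ⟨a, β, hβ, e⟩ := s.v_k_den h1 h2
    refine ⟨β, hβ, fun y hy => ?_⟩
    obtain ⟨n, rfl⟩ := Submodule.mem_span_singleton.1 hy
    refine ⟨n * a, ?_⟩
    rw [s.c_mul, s.c_int, ← e, zsmul_eq_mul]
    ring
  · intro A B _ _ hA hB hx
    obtain ⟨β, hβ, e⟩ := hA fun x h => hx x (Submodule.mem_sup_left h)
    obtain ⟨β', hβ', e'⟩ := hB fun x h => hx x (Submodule.mem_sup_right h)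
    refine ⟨β * β', by rw [s.c_mul, map_mul, hβ, hβ', one_mul], fun y hy => ?_⟩
    obtain ⟨u, hu, u', hu', rfl⟩ := Submodule.mem_sup.1 hy
    obtain ⟨a, ha⟩ := e u hu
    obtain ⟨a', ha'⟩ := e' u' hu'
    refine ⟨β' * a + β * a', ?_⟩
    rw [s.c_add, s.c_mul, s.c_mul, s.c_mul, ← ha, ← ha']
    ring

theorem j3_lat {Λ : Submodule ℤ ℂ} (hΛ : Λ.FG) {T : Set ℂ} (hT : ∀ x ∈ T, x ∈ Λ)
    (hk : ∀ x ∈ T, x ∈ s.k ∧ s.v x ≤ 1) : ∃ L : s.Sub, IsUnit L ∧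
      s.v (UU (s.zl L)) = s.v (UU (s.zl 1)) ∧ (∀ x ∈ T, x ∈ L) ∧
      ∀ x ∈ L, s.v x < 1 → x ∈ s.idl s.p1 * L := by
  have hle : Submodule.span ℤ T ≤ Λ := Submodule.span_le.2 hT
  obtain ⟨β, hβ, hb⟩ := j3_den (s := s) (hΛ.of_le hle) fun x hx => by
    induction hx using Submodule.span_induction with
    | mem x h => exact hk x h
    | zero => exact ⟨zero_mem _, by simp⟩
    | add x y _ _ hx hy => exact ⟨add_mem hx.1 hy.1, s.v.map_add_le hx.2 hy.2⟩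
    | smul n x _ hx =>
      refine ⟨zsmul_mem hx.1 n, ?_⟩
      rw [zsmul_eq_mul, map_mul, ← s.c_int]
      exact mul_le_one' (s.v_c s.v _) hx.2
  have h0 : s.c β ≠ 0 := fun h => by simp [h] at hβ
  have hi := inv_ne_zero h0
  refine ⟨s.sc (s.c β)⁻¹ * 1, (s.isUnit_sc hi).mul isUnit_one, ?_, fun x hx => ?_, fun x hx hv => ?_⟩
  · rw [s.zl_sc, UU_sc _ hi, map_div₀, map_pow, map_inv₀, hβ]
    simp
  · obtain ⟨a, ha⟩ := hb x (Submodule.subset_span hx)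
    refine s.mem_sc_mul.2 ⟨s.c a, s.mem_one.2 ⟨a, rfl⟩, ?_⟩
    rw [← ha, inv_mul_cancel_left₀ h0]
  · obtain ⟨z, hz, rfl⟩ := s.mem_sc_mul.1 hx
    obtain ⟨a, rfl⟩ := s.mem_one.1 hz
    rw [map_mul, map_inv₀, hβ, inv_one, one_mul] at hv
    rw [mul_comm (s.c β)⁻¹]
    refine s.mul_mem_idl ((s.mem_p1 a).2 hv) (s.mem_sc_mul.2 ⟨1, s.mem_one.2 ⟨1, s.c_one⟩, ?_⟩)
    rw [mul_one]

theorem rat_manin (hf : ¬ 3 ∣ Ideal.absNorm f) (h : s.Rat f ω)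
    (h1 : ∀ γ ∈ Gamma1 (s.lev f), s.v (Pe (s.vth ω) γ) ≤ 1) (j : ℕ) :
    s.v (s.co ω j / s.oms f 1) ≤ 1 ∧
      ∀ e : ℤ, e = 1 ∨ e = -1 →
        (∀ γ ∈ Gamma1 (s.lev f), s.v (Pe (s.vth ω) γ - e * Pe (s.vth ω) (posC γ)) < 1) →
        s.v (s.co ω j / s.oms f 1) < 1 := by
  have hf0 := s.cop_ne hf
  obtain ⟨hM, -⟩ := s.lev_pos hf0
  have : NeZero (s.lev f) := ⟨by omega⟩
  have hw := (h.wt hf).1
  obtain ⟨F, hF⟩ := s.exists_cusp hf0 hw
  obtain ⟨Λ, hΛ, hP⟩ := per_fg F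
  obtain ⟨Λ', hΛ', ha⟩ := s.co_fg (s.lv_ne hf0) hw
  have hs := s.vth_exp (s.lv_ne hf0) hw
  have hk := j3_k hf h
  rw [← hF] at h1 hs hk ⊢
  obtain ⟨L, hL, hU, hm, hp⟩ := j3_lat (s := s) hΛ
    (T := {x | ∃ γ ∈ Gamma1 (s.lev f), Pe F γ = x})
    (by rintro _ ⟨γ, hγ, rfl⟩; exact hP γ hγ) (by rintro _ ⟨γ, hγ, rfl⟩; exact ⟨hk γ, h1 γ hγ⟩)
  have hm' : ∀ γ ∈ Gamma1 (s.lev f), Pe F γ ∈ L := fun γ hγ => hm _ ⟨γ, hγ, rfl⟩
  obtain ⟨t₂, h₂, k₂⟩ := s.exists_three hL (Or.inr rfl)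
  have hR := s.et_p2 hL h₂ k₂
  have key : s.v (UU (s.zl L) * s.co ω j ^ 2) = s.v (s.co ω j / s.oms f 1) ^ 2 := by
    rw [map_mul, map_pow, hU, eq_inv_of_mul_eq_one_left (s.v_oms_one hf), map_div₀, div_pow,
      div_eq_inv_mul]
  refine ⟨?_, fun e he h2 => ?_⟩
  · have : s.v (UU (s.zl L) * s.co ω j ^ 2) ≤ 1 :=
      manin_a hM s.ι F hΛ' ha hs (s.isLat_zl hL) (fun γ hγ => s.mem_zl.2 (hm' γ hγ)) hR j
    rw [key] at this
    exact (pow_le_one_iff two_ne_zero).1 this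
  · have hL₀ : IsUnit (s.idl s.p1 * L) := (s.isUnit_idl s.p1_ne).mul hL
    obtain ⟨t, ht, kt⟩ := s.exists_three hL₀ (Or.inl rfl)
    have hT := s.three_of_mem hL₀ (Or.inl rfl) ht kt
    rw [mul_right_comm, s.idl_inv s.p1_ne, one_mul] at hT
    have h2t : 3 * t₂ ∈ s.idl s.p1 * L := by
      have := s.mul_mem_idl (a := s.p1 * s.p2) (β := 3)
        (by rw [s.p1_mul_p2]; exact Ideal.mem_span_singleton_self _) h₂
      rwa [s.idl_mul, mul_comm L, mul_assoc, ← mul_assoc (s.idl s.p2), s.idl_inv s.p2_ne, one_mul,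
        show s.c 3 = 3 from map_ofNat (algebraMap s.O ℂ) 3] at this
    have c2 : conj (3 : ℂ) = 3 := map_ofNat _ 3
    have hC := s.ca_p1 (s.isUnit_cj hL) (y := conj t₂)
      (by
        rw [s.mem_inv_p1, s.mem_cj, s.mem_cj, map_mul, map_mul, conj_conj, c2, s.conj_w]
        exact s.mem_inv_p2.1 h₂)
      (by rwa [s.mem_cj, conj_conj])
    obtain ⟨t', h', k'⟩ := s.exists_three (s.isUnit_cj hL) (Or.inr rfl)
    have : s.v (UU (s.zl L) * s.co ω j ^ 2) < 1 :=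
      manin_b hM s.ι F hΛ' ha hs (s.isLat_zl hL₀) hT (s.mem_zl.2 h2t)
        (fun y => by rw [s.mem_zl, s.mem_zl, s.mem_cj]) he
        (fun γ hγ => ⟨s.mem_zl.2 (hm' γ hγ), s.mem_zl.2
          (hp _ (sub_mem (hm' γ hγ) (by
            rw [← s.c_int]
            exact s.c_mul_mem _ (hm' _ (posC_mem hγ)))) (h2 γ hγ))⟩) hR hC
        (s.et_p2 (s.isUnit_cj hL) h' k') j
    rw [key] at this
    exact (pow_lt_one_iff two_ne_zero).1 this

theorem j3_sum (hf : f ≠ ⊥) {ι : Type} (T : Finset ι) (μ : ι → ℂ) {w : ι → s.Pair → ℂ}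
    (hw : ∀ i ∈ T, s.IsWt (s.lv f) (w i)) (γ : SL(2, ℤ)) :
    Pe (s.vth fun p => ∑ i ∈ T, μ i * w i p) γ = ∑ i ∈ T, μ i * Pe (s.vth (w i)) γ := by
  unfold Pe Fv
  split_ifs
  · simp
  · exact s.Sy_sum hf T μ hw _

theorem j3_map (x y : ℚ) : Fv (fun r => s.ι (s.Sy ω r)) x y = s.ι (Fv (sym (s.vth ω)) x y) := by
  unfold Fv
  split_ifs
  · simp
  · rfl

theorem j3_sym (e : ℂ) (γ : SL(2, ℤ)) :
    Fv (fun r => s.ι (s.Sy ω r) + s.ι e * s.ι (s.Sy ω (-r))) (γ 0 0 : ℚ) (γ 1 0 : ℚ) =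
      s.ι (Pe (s.vth ω) γ + e * Pe (s.vth ω) (posC γ)) := by
  have e0 : posC γ 0 0 = γ 0 0 := rfl
  have e1 : posC γ 1 0 = -γ 1 0 := rfl
  unfold Pe Fv
  rw [e0, e1]
  by_cases h : (γ 1 0 : ℚ) = 0
  · simp [h]
  · rw [if_neg h, if_neg h, if_neg (by simpa using h), map_add, map_mul, Int.cast_neg, div_neg]
    rfl

theorem nv (hf : ¬ 3 ∣ Ideal.absNorm f) (h : s.Eig f ω) (h1 : ω 1 = s.oms f 1)
    (hi : ∀ (n : ℕ) (a : ℤ), ¬ (3 : ℤ) ∣ a → s.v (s.Sy ω (a / 3 ^ (n + 1))) ≤ 1) {e : ℤ}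
    (he : e = 1 ∨ e = -1) : ∃ (n : ℕ) (a : ℤ), ¬ (3 : ℤ) ∣ a ∧
      s.v (s.Sy ω (a / 3 ^ (n + 1)) + e * s.Sy ω (-a / 3 ^ (n + 1))) = 1 := by
  by_contra hn
  have hf0 := s.cop_ne hf
  obtain ⟨hM, hM2⟩ := s.lev_pos hf0
  have : NeZero (s.lev f) := ⟨by omega⟩
  have hlt : ∀ x, s.v x < 1 ↔ ‖s.ι x‖ < 1 := fun x => by
    rw [← s.v_eq]
    exact_mod_cast Iff.rfl
  have hle : ∀ x y, s.v x ≤ s.v y ↔ ‖s.ι x‖ ≤ ‖s.ι y‖ := fun x y => by
    rw [← s.v_eq, ← s.v_eq]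
    exact_mod_cast Iff.rfl
  obtain ⟨ε, hT, hH⟩ := s.laws hf h
  have hT' := hT.map s.ι
  have hH' := hH.map s.ι
  have h2 : ‖((3 : ℕ) : ℂ_[3])‖ < 1 := by
    have := (hlt 3).1 s.v_three
    rwa [map_ofNat] at this
  have hα : ‖s.ι (s.al ω)‖ = 1 := by
    rw [← s.v_eq, h.al hf]
    rfl
  have p1 : ∀ γ ∈ Gamma1 (s.lev f), s.v (Pe (s.vth ω) γ) ≤ 1 := fun γ hγ => by
    have : ‖s.ι (Pe (s.vth ω) γ)‖ ≤ 1 := le_of_forall_gt_imp_ge_of_dense fun c hc => by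
      have := j3_eng h2 hM2 hT' hH' hα (one_pos.trans hc) (fun n a ha => lt_of_le_of_lt (by
        rw [← s.v_eq]
        exact_mod_cast hi n a ha) hc) hγ
      rw [j3_map] at this
      exact this.le
    rw [← s.v_eq] at this
    exact_mod_cast this
  have ve : s.v e = 1 := by rcases he with rfl | rfl <;> simp
  have p2 : ∀ γ ∈ Gamma1 (s.lev f),
      s.v (Pe (s.vth ω) γ - (-e : ℤ) * Pe (s.vth ω) (posC γ)) < 1 := fun γ hγ => by
    have := j3_eng h2 hM2 (hT'.symm (s.ι e)) (hH'.symm three_ne_zero (s.ι e) hT') hα one_pos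
      (fun n a ha => by
        rw [← map_mul, ← map_add, ← hlt, ← neg_div]
        refine lt_of_le_of_ne (s.v.map_add_le (hi n a ha) ?_) fun e => hn ⟨n, a, ha, e⟩
        rw [map_mul, ve, one_mul]
        exact_mod_cast hi n (-a) (by rwa [dvd_neg])) hγ
    rw [j3_sym, ← hlt] at this
    rwa [Int.cast_neg, neg_mul, sub_neg_eq_add]
  let Φ : (s.Pair → ℂ) → (Gamma1 (s.lev f) → ℂ) × (ℕ → ℂ) := fun u =>
    (fun γ => Pe (s.vth u) γ, fun j => s.co u j / s.oms f 1)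
  have hΦ : ∀ {ι : Type} (T : Finset ι) (μ : ι → ℂ) (w : ι → s.Pair → ℂ),
      (∀ i, s.Rat f (w i)) → Φ (fun p => ∑ i ∈ T, μ i * w i p) = ∑ i ∈ T, μ i • Φ (w i) := by
    intro ι T μ w hw
    ext x
    · simp only [Φ, Prod.fst_sum, Finset.sum_apply, Prod.smul_fst, Pi.smul_apply, smul_eq_mul]
      exact j3_sum hf0 T μ (fun i _ => ((hw i).wt hf).1) _
    · simp only [Φ, Prod.snd_sum, Finset.sum_apply, Prod.smul_snd, Pi.smul_apply, smul_eq_mul]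
      rw [s.co_sum, Finset.sum_div]
      simp only [mul_div_assoc]
  have hx : Φ ω ∈ Submodule.span ℂ (Φ '' {u | s.Rat f u}) := by
    obtain ⟨N, μ, w, hw, e⟩ := rat_span hf h.1 h.2.1
    rw [e, hΦ _ _ _ hw]
    exact sum_mem fun i _ => Submodule.smul_mem _ _ (Submodule.subset_span ⟨w i, hw i, rfl⟩)
  have := la_lemma s.k s.v s.v_three (fun x => s.v_k_res) (-e) (Φ '' {u | s.Rat f u}) ?_ ?_
    (fun γ => ⟨posC γ, posC_mem γ.2⟩) ?_ ?_ ?_ ?_ hx (fun γ => p1 γ γ.2) (fun γ => p2 γ γ.2) 1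
  · simp only [Φ] at this
    rw [s.co_one, h1, div_self (h1 ▸ h.2.2.1), map_one] at this
    exact lt_irrefl _ this
  · rintro _ ⟨u, hu, rfl⟩ _ ⟨u', hu', rfl⟩
    refine ⟨_, Rat.add hu hu', ?_⟩
    have := hΦ (Finset.univ : Finset Bool) (fun _ => 1) (fun b => cond b u u')
      (fun b => by cases b; exacts [hu', hu])
    simpa using this
  · rintro _ ⟨u, hu, rfl⟩ t ht
    refine ⟨_, Rat.smul hu ht, ?_⟩
    have := hΦ (Finset.univ : Finset Unit) (fun _ => t) (fun _ => u) fun _ => hu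
    simpa using this
  · rintro _ ⟨u, hu, rfl⟩ γ
    exact j3_k hf hu _
  · rintro _ ⟨u, hu, rfl⟩
    obtain ⟨F, hF⟩ := s.exists_cusp hf0 (Rat.wt hf hu).1
    obtain ⟨Λ, hΛ, hP⟩ := per_fg F
    rw [hF] at hP
    obtain ⟨_, ⟨γ, rfl⟩, hγ⟩ := fg_max (hΛ.map s.ι.toAddMonoidHom.toIntLinearMap)
      (T := Set.range fun γ : Gamma1 (s.lev f) => s.ι (Pe (s.vth u) γ))
      (by rintro _ ⟨γ, rfl⟩; exact ⟨_, hP γ γ.2, rfl⟩) (Set.range_nonempty _)
    exact ⟨γ, fun γ' => (hle _ _).2 (hγ _ ⟨γ', rfl⟩)⟩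
  · rintro _ ⟨u, hu, rfl⟩ hb j
    exact (rat_manin hf hu (fun γ hγ => hb ⟨γ, hγ⟩) j).1
  · rintro _ ⟨u, hu, rfl⟩ hb hb' j
    exact (rat_manin hf hu (fun γ hγ => hb ⟨γ, hγ⟩) j).2 (-e) (by omega) fun γ hγ => hb' ⟨γ, hγ⟩

end St

end Pool.Agent.P.MP_20768c_nt.Tz.Cv

end

-- part Cv.X11
section

set_option autoImplicit false

open Complex NumberField IsDedekindDomain
open scoped Real

namespace Pool.Agent.P.MP_20768c_nt.Tz.Cv

namespace St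

variable (s : St)

theorem x11_pow {φ : s.Au →* ℂˣ} (hφ : s.Cts φ) (n : ℕ) : s.Cts (φ ^ n) := by
  obtain ⟨T, h1, h2⟩ := hφ
  exact ⟨T, h1, fun σ hσ => by rw [MonoidHom.pow_apply, h2 σ hσ, one_pow]⟩

theorem x11_one {φ : s.Au →* ℂˣ} (h : ∀ σ, φ σ ^ 1 = 1) : s.Ray φ :=
  ⟨1, one_pos, fun σ _ => (pow_one _).symm.trans (h σ)⟩

theorem x11_chr {n : ℕ} (hn : n ≠ 0) {φ : s.Au →* ℂˣ} (hφ : s.Cts φ) (h : ∀ σ, φ σ ^ n = 1) :
    s.Ray φ := by
  induction n using Nat.recOnPosPrimePosCoprime generalizing φ with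
  | zero => exact (hn rfl).elim
  | one => exact s.x11_one h
  | prime_pow p r hp hr =>
    clear hr hn
    induction r generalizing φ with
    | zero => exact s.x11_one h
    | succ r ih =>
      refine s.x10_step hp hφ h (ih (s.x11_pow hφ p) fun σ => ?_)
      rw [MonoidHom.pow_apply, ← pow_mul, ← pow_succ', h]
  | coprime a b ha hb hab iha ihb =>
    obtain ⟨m, hm, h1⟩ := iha (by omega) (s.x11_pow hφ b) fun σ => by
      rw [MonoidHom.pow_apply, ← pow_mul, mul_comm, h]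
    obtain ⟨m', hm', h2⟩ := ihb (by omega) (s.x11_pow hφ a) fun σ => by
      rw [MonoidHom.pow_apply, ← pow_mul, h]
    exact ⟨m * m', mul_pos hm hm', fun σ hσ => (pow_eq_one_iff_of_coprime hab).1
      ⟨h2 σ (hσ.mono (dvd_mul_left _ _)), h1 σ (hσ.mono (dvd_mul_right _ _))⟩⟩

/-- every finite abelian extension lies in a ray class field -/
theorem ex_ray (N : IntermediateField s.k ℂ) [FiniteDimensional s.k N] [IsGalois s.k N]
    (hN : ∀ g h : N ≃ₐ[s.k] N, g * h = h * g) :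
    ∃ m : ℕ, 0 < m ∧ ∀ σ : s.Au, s.Art m σ ⊤ → ∀ x ∈ N, σ x = x := by
  classical
  obtain ⟨ρ, -, hρ⟩ := s.exists_res N
  let _ : CommGroup (N ≃ₐ[s.k] N) := { (inferInstance : Group (N ≃ₐ[s.k] N)) with mul_comm := hN }
  have key : ∀ g : N ≃ₐ[s.k] N, ∃ m : ℕ, 0 < m ∧
      ∀ σ : s.Au, s.Art m σ ⊤ → ρ σ = g → g = 1 := by
    intro g
    by_cases hg : g = 1
    · exact ⟨1, one_pos, fun _ _ _ => hg⟩
    obtain ⟨χ, hχ⟩ := CommGroup.exists_apply_ne_one_of_hasEnoughRootsOfUnity _ ℂ hg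
    have hc : s.Cts (χ.comp ρ) := by
      let b := Module.finBasis s.k N
      refine ⟨Finset.univ.image fun i => (b i : ℂ), fun x hx => ?_, fun σ hσ => ?_⟩
      · obtain ⟨i, -, rfl⟩ := Finset.mem_image.1 hx
        exact s.alg_of_mem N (b i).2
      · have e : ρ σ = 1 := AlgEquiv.toLinearMap_injective (b.ext fun i => Subtype.ext
          ((hρ σ _).trans (hσ _ (Finset.mem_image_of_mem _ (Finset.mem_univ i)))))
        rw [MonoidHom.comp_apply, e, map_one]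
    obtain ⟨m, hm, h⟩ := s.x11_chr (n := Nat.card (N ≃ₐ[s.k] N)) Nat.card_pos.ne' hc fun σ => by
      rw [MonoidHom.comp_apply, ← map_pow, pow_card_eq_one', map_one]
    exact ⟨m, hm, fun σ hσ e => (hχ (e ▸ h σ hσ)).elim⟩
  choose m hm h using key
  refine ⟨∏ g, m g, Finset.prod_pos fun g _ => hm g, fun σ hσ x hx => ?_⟩
  rw [← hρ σ ⟨x, hx⟩, h _ σ (hσ.mono (Finset.dvd_prod_of_mem _ (Finset.mem_univ _))) rfl]
  rfl

end St


end Pool.Agent.P.MP_20768c_nt.Tz.Cv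

end

-- part Cv.H4
section

set_option autoImplicit false

open Complex NumberField IsDedekindDomain Filter Topology
open UpperHalfPlane hiding I
open scoped ComplexConjugate Real MatrixGroups

namespace Pool.Agent.P.MP_20768c_nt.Tz.Cv

open Pool.Agent.P.MP_20768c_nt.Tz.EQ (Lt pr sp IsLat jL qN)

namespace St

variable {s : St} {f : Ideal s.O} {c n : ℕ} {ω : s.Pair → ℂ}

theorem h4_md (f : Ideal s.O) (n : ℕ) (L : s.Sub) :
    s.idl (s.md f n) * L = s.sc (3 ^ n) * (s.idl f * L) := by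
  have e : s.c (3 ^ n) = 3 ^ n := by
    rw [c_pow, c, map_ofNat]
  rw [md, idl_mul, idl_span, e, mul_comm (s.idl f), mul_assoc]

theorem h4_p1 (f : Ideal s.O) (hn : 1 ≤ n) : s.md f n ≤ s.p1 := by
  refine le_trans (b := Ideal.span {3 ^ n}) (Ideal.mul_le_inf.trans inf_le_right) ?_
  rw [Ideal.span_le, Set.singleton_subset_iff]
  exact Ideal.pow_mem_of_mem _ s.three_mem.1 n hn

theorem h4_zt {a b : ℤ} {x y : ℕ} (h : a * x ≡ b * y [ZMOD 3 ^ n]) :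
    zt n ^ (a * x) = zt n ^ (b * y) := by
  rw [zt_congr, ZMod.intCast_eq_intCast_iff]
  exact_mod_cast h

theorem DD_eq (hf : ¬ 3 ∣ Ideal.absNorm f) (hn : 2 ≤ n) (hω : s.Eig f ω) (b : ℤ) :
    s.DD ω n b = (∑ᶠ C : (s.Pr (s.md f n))ˣ, zt n ^ (b * s.Qn (s.out C.1)) * ω (s.out C.1) *
      eF (s.zl (s.idl f * (s.out C.1).L)) ((s.out C.1).ρ / 3 ^ n)) / 3 ^ (n - 1) := by
  classical
  have f0 := s.cop_ne hf
  have m0 := s.md_ne f0 n
  have := s.finite_Pr m0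
  have := Fintype.ofFinite (s.Pr (s.md f n))ˣ
  let ω' : s.Pair → ℂ := fun p => if p.ρ ∈ s.idl s.p1 * p.L then 0 else ω p
  have hl := s.md_le_lv f (j := n) (by omega)
  have w := hω.1.mono hl
  have hw : s.IsWt (s.md f n) ω' := by
    refine ⟨fun x p q h => ?_, fun p hp => ?_⟩
    · have h1 : q.ρ - x * p.ρ ∈ s.idl s.p1 * q.L :=
        mul_le_mul_left (s.idl_le.2 (h4_p1 f (by omega))) q.L h.2.2
      have h2 : x * p.ρ ∈ s.idl s.p1 * q.L ↔ p.ρ ∈ s.idl s.p1 * p.L := by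
        rw [h.2.1, mul_left_comm, s.mul_mem_sc' h.1]
      have h3 : q.ρ ∈ s.idl s.p1 * q.L ↔ p.ρ ∈ s.idl s.p1 * p.L := by
        rw [← h2, ← Submodule.add_mem_iff_right (y := x * p.ρ) _ h1, sub_add_cancel]
      simp only [ω', h3]
      split_ifs
      · rw [mul_zero]
      · exact w.1 x p q h
    · simp only [ω', w.2 p hp, ite_self]
  have e1 := s.Sy_dep hf hω (ω' := ω') (fun p hp => if_pos hp) (fun p hp => if_neg hp) (b / 3 ^ n)
  have e2 := s.Sy_eq m0 (hl.trans (s.lv_le f).2) hw b (d := 3 ^ n) (by positivity)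
    (s.md_le f n).2.1
  obtain ⟨k, rfl⟩ : ∃ k, n = k + 1 := ⟨n - 1, by omega⟩
  have e3 : (3 * (b / 3 ^ (k + 1)) : ℚ) = b / 3 ^ k := by
    rw [pow_succ]
    field_simp
  rw [s.sum_units m0 (Φ := fun p => cexp (2 * π * I * (b * s.Qn p) / ((3 ^ (k + 1) : ℕ) : ℂ)) *
    ω' p * eF (s.zl (s.idl (s.md f (k + 1)) * p.L)) p.ρ) (fun p hp => by
      rw [s.unit_md f0 (by omega), not_and_or, not_not] at hp
      have : ω' p = 0 := by
        rcases hp with hp | hp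
        · simp only [ω', hω.2.1 p hp, ite_self]
        · exact if_pos hp
      simp only [this, mul_zero, zero_mul])] at e2
  rw [Nat.cast_pow, Nat.cast_ofNat] at e2
  rw [DD, Nat.add_sub_cancel, ← e3, ← e1, e2, finsum_eq_sum_of_fintype, finsum_eq_sum_of_fintype,
    Finset.mul_sum, Finset.sum_div]
  refine Finset.sum_congr rfl fun C _ => ?_
  have u := ((s.unit_md f0 (by omega)).1 (s.unit_out C)).2
  have e4 : ω' (s.out C.1) = ω (s.out C.1) := if_neg u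
  have e5 := eF_sc (s.zl (s.idl f * (s.out C.1).L)) (x := 3 ^ (k + 1))
    (pow_ne_zero _ three_ne_zero) ((s.out C.1).ρ / 3 ^ (k + 1))
  rw [mul_div_cancel₀ _ (pow_ne_zero _ three_ne_zero)] at e5
  rw [e4, h4_md, zl_sc, e5, zt_zpow]
  push_cast
  rw [pow_succ (3 : ℂ) k]
  field_simp

theorem h4_inv (hn : 2 ≤ n) (hω : s.IsWt (s.lv f) ω) (b : ℤ) : s.Inv (s.md f n) fun p =>
    zt n ^ (b * s.Qn p) * ω p * eF (s.zl (s.idl f * p.L)) (p.ρ / 3 ^ n) := by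
  intro x p q h
  have h1 := s.Qn_mod (s.md_le f n).2.1 (s.cl_eq.2 ⟨x, h⟩)
  have h2 : zt n ^ (b * s.Qn q) = zt n ^ (b * s.Qn p) :=
    h4_zt (Int.ModEq.mul_left _ (by exact_mod_cast h1.symm))
  have h3 := h.2.2
  rw [h4_md, s.mem_sc_mul] at h3
  obtain ⟨l, hl, e⟩ := h3
  have e2 : q.ρ / 3 ^ n = x * (p.ρ / 3 ^ n) + l := by
    have : (3 : ℂ) ^ n ≠ 0 := pow_ne_zero _ three_ne_zero
    field_simp
    linear_combination -e
  have h0 := h.1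
  simp only
  rw [h2, (hω.mono (s.md_le_lv f (by omega))).1 x p q h, e2, eF_add _ _ (s.mem_zl.2 hl), h.2.1,
    mul_left_comm (s.idl f), zl_sc, eF_sc _ h.1]
  field_simp

theorem BB_eq (hc : s.Cc f c) (hn : 2 ≤ n) (hω : s.Eig f ω) {b b' : ℤ}
    (h : b' * c ^ 2 ≡ b [ZMOD 3 ^ n]) : s.BB f c n ω b = c ^ 2 * s.DD ω n b - c * s.DD ω n b' := by
  have f0 := s.cop_ne hc.1
  have := s.finite_Pr (s.md_ne f0 n)
  have := Fintype.ofFinite (s.Pr (s.md f n))ˣ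
  obtain ⟨c1, -, c2, c3⟩ := hc.spec
  rw [DD_eq hc.1 hn hω, DD_eq hc.1 hn hω, ← s.sum_mul' (h4_inv hn hω.1 b') (c3 n), BB,
    finsum_eq_sum_of_fintype, finsum_eq_sum_of_fintype, finsum_eq_sum_of_fintype, ← mul_div_assoc,
    ← mul_div_assoc, ← sub_div, Finset.mul_sum, Finset.mul_sum, ← Finset.sum_sub_distrib]
  congr 1
  refine Finset.sum_congr rfl fun C _ => ?_
  have u := s.unit_out C
  generalize s.out C.1 = p at u
  have e1 : ω (p * s.np c) = ω p := by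
    rw [hω.1.1 1 _ _ (s.sim_np c2 p), np_one, mul_one, one_mul]
  have e2 : zt n ^ (b' * s.Qn (p * s.np c)) = zt n ^ (b * s.Qn p) := by
    refine h4_zt ?_
    rw [Qn_mul, Qn_np, norm_nat]
    push_cast
    rw [mul_comm (s.Qn p : ℤ), ← mul_assoc]
    exact h.mul_right _
  have e3 : (p * s.np c).ρ / 3 ^ n = c * (p.ρ / 3 ^ n) := by
    rw [mul_ρ, np_ρ, c_nat]
    ring
  rw [e1, e2, e3, mul_L, np_L, mul_one, ecp, ec_eq (s.isLat_zl ((s.isUnit_idl f0).mul p.unit)) c1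
    (fun h => (s.thp_gen hc (by omega) u).2 (s.mem_zl.1 h))]
  ring

theorem BB_congr (f : Ideal s.O) (c : ℕ) (ω : s.Pair → ℂ) {b b' : ℤ}
    (h : (b : ZMod (3 ^ n)) = b') : s.BB f c n ω b = s.BB f c n ω b' := by
  unfold BB
  congr 1
  refine finsum_congr fun C => ?_
  rw [zt_congr (b := b' * s.Qn (s.out C.1)) |>.2 (by rw [Int.cast_mul, Int.cast_mul, h])]

theorem BB_add (hf : f ≠ ⊥) (c n : ℕ) (ω ω' : s.Pair → ℂ) (b : ℤ) :
    s.BB f c n (fun p => ω p + ω' p) b = s.BB f c n ω b + s.BB f c n ω' b := by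
  have := s.finite_Pr (s.md_ne hf n)
  have := Fintype.ofFinite (s.Pr (s.md f n))ˣ
  simp only [BB, finsum_eq_sum_of_fintype, mul_add, add_mul, Finset.sum_add_distrib, add_div]

theorem BB_smul (hf : f ≠ ⊥) (c n : ℕ) (x : ℂ) (ω : s.Pair → ℂ) (b : ℤ) :
    s.BB f c n (fun p => x * ω p) b = x * s.BB f c n ω b := by
  have := s.finite_Pr (s.md_ne hf n)
  have := Fintype.ofFinite (s.Pr (s.md f n))ˣ
  simp only [BB, finsum_eq_sum_of_fintype, ← mul_div_assoc, Finset.mul_sum]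
  congr 1
  exact Finset.sum_congr rfl fun C _ => by ring

theorem BB_tr (hc : s.Cc f c) (hn : 2 ≤ n) {sb : (ZMod (3 ^ n))ˣ → s.Au} (hs : s.IsSec n sb)
    {g : s.Pair → ℂ} (hg : s.Inv (s.lv f) g) (b₀ : (ZMod (3 ^ n))ˣ) {a b : ℤ}
    (hb : (b : ZMod (3 ^ n)) * b₀ = a) : s.BB f c n (fun p => g p * s.oms f p) b =
      ∑ᶠ C ∈ {C : (s.Pr (s.md f n))ˣ | (s.Qn (s.out C.1) : ZMod (3 ^ n)) = b₀}, g (s.out C.1) *
        s.tr n sb (zt n ^ a * (s.oms f (s.out C.1) * s.ecp f c n (s.out C.1))) := by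
  have f0 := s.cop_ne hc.1
  have := s.finite_Pr (s.md_ne f0 n)
  obtain ⟨κ, hκ⟩ := exists_kap hc.1 n
  have hle : f * s.p2 ^ n ≤ s.lv f := Ideal.mul_mono_right (Ideal.pow_le_self (by omega))
  rw [BB, kap_sum f0 hκ b₀, finsum_mem_eq_finite_toFinset_sum _ (Set.toFinite _),
    finsum_mem_eq_finite_toFinset_sum _ (Set.toFinite _), Finset.sum_div]
  refine Finset.sum_congr rfl fun C hC => ?_
  have hC' : (s.Qn (s.out C.1) : ZMod (3 ^ n)) = b₀ := by simpa using hC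
  rw [tr, ← mul_div_assoc, Finset.mul_sum]
  congr 1
  refine Finset.sum_congr rfl fun b' _ => ?_
  obtain ⟨k1, k2⟩ := kap_cl hκ C b'
  have e1 : zt n ^ (b * s.Qn (s.out (C * κ b').1)) = sb b' (zt n ^ a) := by
    rw [map_zpow₀, (hs b').2, ← zpow_natCast, ← zpow_mul, zt_congr]
    rw [Int.cast_mul, Int.cast_mul, Int.cast_natCast, Int.cast_natCast, k2, hC', ← mul_assoc, hb,
      ZMod.natCast_zmod_val, mul_comm]
  rw [e1, (hg.mono hle).of_cl k1, map_mul (sb b'), (kap_act hc hn hκ (hs b').1 (hs b').2 C).2]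
  ring

theorem BD_td (hc : s.Cc f c) (hn : 2 ≤ n) {sb : (ZMod (3 ^ n))ˣ → s.Au} (hs : s.IsSec n sb)
    {g : s.Pair → ℂ} (hg : s.Inv (s.lv f) g) (b₀ : (ZMod (3 ^ n))ˣ) {a b : ℤ}
    (hb : (b : ZMod (3 ^ n)) * b₀ = a) : s.BD f c n (fun p => g p * s.oms f p) b =
      ∑ᶠ C ∈ {C : (s.Pr (s.md f n))ˣ | (s.Qn (s.out C.1) : ZMod (3 ^ n)) = b₀}, g (s.out C.1) *
        s.td n sb a (s.oms f (s.out C.1) * s.ecp f c n (s.out C.1)) := by
  have := s.finite_Pr (s.md_ne (s.cop_ne hc.1) n)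
  rw [BD, BB_tr hc hn hs hg b₀ hb, BB_tr hc hn hs hg b₀ (a := a * (3 ^ (n - 1) + 1))
    (by rw [Int.cast_mul, Int.cast_mul, ← hb, mul_right_comm]),
    finsum_mem_eq_finite_toFinset_sum _ (Set.toFinite _),
    finsum_mem_eq_finite_toFinset_sum _ (Set.toFinite _),
    finsum_mem_eq_finite_toFinset_sum _ (Set.toFinite _), ← Finset.sum_sub_distrib, Finset.sum_div]
  refine Finset.sum_congr rfl fun C _ => ?_
  rw [td]
  ring

theorem BB_le (hc : s.Cc f c) (hn : 2 ≤ n) {g : s.Pair → ℂ} (hg : s.Inv (s.lv f) g) {t : NNReal}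
    (ht : ∀ p, IsUnit (s.cl (s.lv f) p) → s.v (g p) ≤ t) (b : ℤ) :
    s.v (s.BB f c n (fun p => g p * s.oms f p) b) ≤ t := by
  have := s.finite_Pr (s.md_ne (s.cop_ne hc.1) n)
  obtain ⟨sb, hs⟩ := s.exists_sec n
  obtain ⟨T, hT⟩ := s.exists_fx n
  rw [BB_tr hc hn hs hg 1 (a := b) (by rw [Units.val_one, mul_one]),
    finsum_mem_eq_finite_toFinset_sum _ (Set.toFinite _)]
  refine Valuation.map_sum_le _ fun C _ => ?_
  have u := s.unit_out C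
  rw [map_mul]
  have v1 : s.v (zt n ^ b * (s.oms f (s.out C.1) * s.ecp f c n (s.out C.1))) ≤ 1 := by
    rw [map_mul, map_zpow₀, v_root s.v (by positivity) (zt_pow n), one_zpow, one_mul]
    exact (thp_dl hc hn hs u).2
  have v2 := tr_int (by omega) hs ((hT _).1 (mul_mem (zpow_mem ((hT _).2 (s.fx_zt n)) b)
    ((hT _).2 (thp_fx hc hn u).2))) v1
  exact (mul_le_of_le_one_right zero_le v2).trans (ht _ (s.unit_mono (s.md_le_lv f (by omega)) u))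

theorem BD_le (hc : s.Cc f c) (hn : 2 ≤ n) {g : s.Pair → ℂ} (hg : s.Inv (s.lv f) g) {t : NNReal}
    (ht : ∀ p, IsUnit (s.cl (s.lv f) p) → s.v (g p) ≤ t) (b : ℤ) :
    s.v (s.BD f c n (fun p => g p * s.oms f p) b) ≤ t := by
  have := s.finite_Pr (s.md_ne (s.cop_ne hc.1) n)
  obtain ⟨sb, hs⟩ := s.exists_sec n
  rw [BD_td hc hn hs hg 1 (a := b) (by rw [Units.val_one, mul_one]),
    finsum_mem_eq_finite_toFinset_sum _ (Set.toFinite _)]
  refine Valuation.map_sum_le _ fun C _ => ?_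
  have u := s.unit_out C
  rw [map_mul]
  have v2 := td_int (by omega) hs b (thp_fx hc hn u).2 (thp_dl hc hn hs u).2
  exact (mul_le_of_le_one_right zero_le v2).trans (ht _ (s.unit_mono (s.md_le_lv f (by omega)) u))

theorem BD_congr (f : Ideal s.O) (c : ℕ) (ω : s.Pair → ℂ) {b b' : ℤ}
    (h : (b : ZMod (3 ^ n)) = b') : s.BD f c n ω b = s.BD f c n ω b' := by
  rw [BD, BD, BB_congr f c ω h, BB_congr f c ω (b := b * (3 ^ (n - 1) + 1))
    (b' := b' * (3 ^ (n - 1) + 1)) (by rw [Int.cast_mul, Int.cast_mul, h])]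

theorem BD_add (hf : f ≠ ⊥) (c n : ℕ) (ω ω' : s.Pair → ℂ) (b : ℤ) :
    s.BD f c n (fun p => ω p + ω' p) b = s.BD f c n ω b + s.BD f c n ω' b := by
  rw [BD, BD, BD, BB_add hf, BB_add hf]
  ring

theorem BD_smul (hf : f ≠ ⊥) (c n : ℕ) (x : ℂ) (ω : s.Pair → ℂ) (b : ℤ) :
    s.BD f c n (fun p => x * ω p) b = x * s.BD f c n ω b := by
  rw [BD, BD, BB_smul hf, BB_smul hf]
  ring

theorem BD_sum (hf : f ≠ ⊥) (c n : ℕ) {ι : Type} (T : Finset ι) (ω : ι → s.Pair → ℂ) (b : ℤ) :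
    s.BD f c n (fun p => ∑ i ∈ T, ω i p) b = ∑ i ∈ T, s.BD f c n (ω i) b := by
  classical
  induction T using Finset.induction_on with
  | empty => simpa using BD_smul hf c n 0 (fun _ => 0) b
  | insert j T hj ih => simp only [Finset.sum_insert hj, BD_add hf, ih]

theorem BD_eq (hc : s.Cc f c) (hn : 2 ≤ n) (hω : s.Eig f ω) {b b' : ℤ}
    (h : b' * c ^ 2 ≡ b [ZMOD 3 ^ n]) : s.BD f c n ω b =
      c ^ 2 * (s.Sy ω (b / 3 ^ n) - s.Sy ω ((b * (3 ^ (n - 1) + 1) : ℤ) / 3 ^ n)) -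
        c * (s.Sy ω (b' / 3 ^ n) - s.Sy ω ((b' * (3 ^ (n - 1) + 1) : ℤ) / 3 ^ n)) := by
  obtain ⟨ε, hT, -⟩ := s.laws hc.1 hω
  have e : ∀ x : ℤ, s.Sy ω ((x * (3 ^ (n - 1) + 1) : ℤ) / 3 ^ (n - 1)) = s.Sy ω (x / 3 ^ (n - 1)) :=
    fun x => by
      rw [← hT.per (x / 3 ^ (n - 1)) x]
      congr 1
      push_cast
      field_simp
      ring
  rw [BD, BB_eq hc hn hω h, BB_eq hc hn hω (b' := b' * (3 ^ (n - 1) + 1))
    (by rw [mul_right_comm]; exact h.mul_right _), DD, DD, DD, DD, e, e]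
  ring

end St

end Pool.Agent.P.MP_20768c_nt.Tz.Cv

end

-- part Cv.U1_p
section

set_option autoImplicit false

open Complex NumberField IsDedekindDomain Filter Topology
open UpperHalfPlane hiding I
open scoped ComplexConjugate Real MatrixGroups

namespace Pool.Agent.P.MP_20768c_nt.Tz.Cv

open Pool.Agent.P.MP_20768c_nt.Tz.EQ (Lt pr sp IsLat jL qN)

namespace St

variable {s : St} {f : Ideal s.O} {c n : ℕ} {G : Type} [Group G] {η : (s.Pr (s.lv f))ˣ →* G}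
  {sb : (ZMod (3 ^ n))ˣ → s.Au} {p q : s.Pair}

theorem u1_p_pos (hc : s.Cc f c) (n : ℕ) : 0 < c * Ideal.absNorm f * 3 ^ n := by
  have h1 : 0 < c := lt_trans one_pos hc.2.1
  have h2 : 0 < Ideal.absNorm f := Nat.pos_of_ne_zero fun e => hc.1 (e ▸ dvd_zero 3)
  positivity

theorem u1p_ev (hp : IsUnit (s.cl (s.lv f) p)) : s.ev η p = η hp.unit := dif_pos hp

theorem u1p_cl (h : s.cl (s.lv f) p = s.cl (s.lv f) q) : s.ev η p = s.ev η q := by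
  rw [ev, ev, h]

theorem u1p_mul (hp : IsUnit (s.cl (s.lv f) p)) (hq : IsUnit (s.cl (s.lv f) q)) :
    s.ev η (p * q) = s.ev η p * s.ev η q := by
  have h : IsUnit (s.cl (s.lv f) (p * q)) := by
    rw [map_mul]
    exact hp.mul hq
  rw [u1p_ev h, u1p_ev hp, u1p_ev hq, ← map_mul]
  exact congrArg η (Units.ext (by simp))

theorem u1p_chi (χ : G →* ℂˣ) (hp : IsUnit (s.cl (s.lv f) p)) :
    s.chi η χ (s.cl (s.lv f) p) = χ (s.ev η p) := by
  rw [u1p_ev hp, chi]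
  exact MulChar.ofUnitHom_coe (χ.comp η) hp.unit

theorem art_up (hc : s.Cc f c) (hn : 2 ≤ n) {σ : s.Au} {a : Ideal s.O}
    (hA : s.Art (c * Ideal.absNorm f * 3 ^ n) σ a) (a₀ : G) (b₀ : ZMod (3 ^ n)) :
    σ (s.up f η c n a₀ b₀) =
      s.up f η c n (a₀ * s.ev η (s.ip a)) (b₀ * Ideal.absNorm a) := by
  have hf : f ≠ ⊥ := s.cop_ne hc.1
  have := s.finite_Pr (s.md_ne hf n)
  have hu := hA.unit (u1_p_pos hc n) (s.mm_mem f c n)
  have hle := s.md_le f n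
  have hl := s.md_le_lv f (j := n) (by omega)
  have hN : IsUnit ((Ideal.absNorm a : ℕ) : ZMod (3 ^ n)) := by
    rw [ZMod.isUnit_iff_coprime, ← s.Qn_ip hA.1]
    exact s.Qn_cop hle.2.1 hu
  have key : ∀ C : (s.Pr (s.md f n))ˣ,
      s.cl (s.md f n) (s.out C.1 * s.ip a) = s.cl (s.md f n) (s.out (C * hu.unit).1) := fun C => by
    rw [map_mul, s.cl_out, s.cl_out, Units.val_mul, hu.unit_spec]
  have k1 : ∀ C : (s.Pr (s.md f n))ˣ, s.ev η (s.out (C * hu.unit).1) =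
      s.ev η (s.out C.1) * s.ev η (s.ip a) := fun C => by
    rw [← u1p_cl (s.cl_mono hl (key C)),
      u1p_mul (s.unit_mono hl (s.unit_out C)) (s.unit_mono hl hu)]
  have k2 : ∀ C : (s.Pr (s.md f n))ˣ, (s.Qn (s.out (C * hu.unit).1) : ZMod (3 ^ n)) =
      s.Qn (s.out C.1) * Ideal.absNorm a := fun C => by
    rw [← (ZMod.natCast_eq_natCast_iff _ _ _).2 (s.Qn_mod hle.2.1 (key C)), s.Qn_mul, s.Qn_ip hA.1,
      Nat.cast_mul]
  unfold up
  have e := MonoidHom.map_finprod_mem (fun C : (s.Pr (s.md f n))ˣ => s.thp f c n (s.out C.1))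
    (σ : ℂ →* ℂ) (Set.toFinite {C : (s.Pr (s.md f n))ˣ |
      s.ev η (s.out C.1) = a₀ ∧ (s.Qn (s.out C.1) : ZMod (3 ^ n)) = b₀})
  refine e.trans (finprod_mem_eq_of_bijOn (fun C => C * hu.unit) ?_ fun C _ => ?_)
  · refine (Equiv.mulRight hu.unit).bijOn fun C => ?_
    simp only [Equiv.coe_mulRight, Set.mem_ofPred_eq, k1, k2, mul_left_inj, hN.mul_left_inj]
  · exact ((art_thp hc hn hA (s.unit_out C)).1).trans ((s.thp_inv hc n).of_cl (key C))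

theorem up_unit {Γ : Type} [LinearOrderedCommGroupWithZero Γ] (v : Valuation ℂ Γ)
    (hc : s.Cc f c) (hn : 1 ≤ n) (a₀ : G) (b₀ : ZMod (3 ^ n)) : v (s.up f η c n a₀ b₀) = 1 :=
  finprod_mem_induction (fun x => v x = 1) (map_one v)
    (fun x y hx hy => by rw [map_mul, hx, hy, one_mul])
    fun C _ => thp_unit v hc hn (s.unit_out C)

theorem up_fx (hc : s.Cc f c) (hn : 2 ≤ n) (a₀ : G) (b₀ : ZMod (3 ^ n)) :
    s.up f η c n a₀ b₀ ∈ s.Fx n := by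
  obtain ⟨T, hT⟩ := s.exists_fx n
  exact (hT _).1 (finprod_mem_induction (fun x => x ∈ T) (one_mem T) (fun _ _ => mul_mem)
    fun C _ => (hT _).2 (thp_fx hc hn (s.unit_out C)).1)

end St

theorem Cb.exists_u {s : Cb} {f : Ideal s.O} {η : (s.Pr (s.lv f))ˣ →* s.GN} {c n : ℕ}
    (hη : s.Cut f η) (hc : s.Cc f c) (hn : 2 ≤ n) :
    ∃ u : (𝓞 (s.K n))ˣ, s.uc u = s.up f η c n 1 1 := by
  refine s.unit_of_val (s.K n) (s.mem_of_fixed (s.K n) fun σ hσ => ?_)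
    fun V => St.up_unit V.valuation hc (by omega) 1 1
  have hm := St.u1_p_pos hc n
  obtain ⟨a, hA⟩ := St.exists_art hm σ
  obtain ⟨h1, h2⟩ := Cb.fix_K.1 hσ
  have k1 : s.ev η (s.ip a) = 1 := AlgEquiv.ext fun x => Subtype.ext
    ((hη.2 _ σ a hm (s.md_le_lv f (by omega) (s.mm_mem f c n)) hA x).trans (h1 x x.2))
  have k2 : ((Ideal.absNorm a : ℕ) : ZMod (3 ^ n)) = 1 := by
    have e := hA.2.2.2 (zt n) (by rw [mul_comm, pow_mul, zt_pow, one_pow])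
    have e' : zt n ^ ((Ideal.absNorm a : ℕ) : ℤ) = zt n ^ (1 : ℤ) := by
      rw [zpow_natCast, zpow_one, ← e, h2]
    simpa using zt_congr.1 e'
  rw [St.art_up hc hn hA, k1, k2, mul_one, mul_one]

end Pool.Agent.P.MP_20768c_nt.Tz.Cv

end

-- part Cv.U3
section

set_option autoImplicit false

open Complex NumberField IsDedekindDomain Filter Topology
open UpperHalfPlane hiding I
open scoped ComplexConjugate Real MatrixGroups

namespace Pool.Agent.P.MP_20768c_nt.Tz.Cv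

open Pool.Agent.P.MP_20768c_nt.Tz.EQ (Lt pr sp IsLat jL qN)

noncomputable def u3_l (x : ℂ) : ℂ := (Real.log (‖x‖ ^ 2) : ℂ)

theorem u3_l_one : u3_l 1 = 0 := by
  rw [u3_l, norm_one, one_pow, Real.log_one, ofReal_zero]

theorem u3_l_mul {x y : ℂ} (hx : x ≠ 0) (hy : y ≠ 0) : u3_l (x * y) = u3_l x + u3_l y := by
  rw [u3_l, u3_l, u3_l, norm_mul, mul_pow,
    Real.log_mul (pow_ne_zero _ (norm_ne_zero_iff.2 hx)) (pow_ne_zero _ (norm_ne_zero_iff.2 hy)),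
    ofReal_add]

theorem u3_l_prod {ι : Type} {S : Set ι} (hS : S.Finite) {g : ι → ℂ} (hg : ∀ i, g i ≠ 0) :
    u3_l (∏ᶠ i ∈ S, g i) = ∑ᶠ i ∈ S, u3_l (g i) := by
  classical
  rw [finprod_mem_eq_finite_toFinset_prod _ hS, finsum_mem_eq_finite_toFinset_sum _ hS]
  induction hS.toFinset using Finset.induction_on with
  | empty => rw [Finset.prod_empty, Finset.sum_empty, u3_l_one]
  | insert a T ha ih =>
    rw [Finset.prod_insert ha, Finset.sum_insert ha,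
      u3_l_mul (hg a) (Finset.prod_ne_zero_iff.2 fun i _ => hg i), ih]

theorem u3_fib {A G M : Type} [Finite A] [Finite G] [Monoid M] [Fintype Mˣ] (α : A → G)
    (β : A → M) (hβ : ∀ C, IsUnit (β C)) (w : G → M → ℂ) (t : A → ℂ) :
    ∑ᶠ a : G, ∑ b : Mˣ, w a b * ∑ᶠ C ∈ {C : A | α C = a ∧ β C = b}, t C =
      ∑ᶠ C, w (α C) (β C) * t C := by
  classical
  have := Fintype.ofFinite A
  have := Fintype.ofFinite G
  rw [finsum_eq_sum_of_fintype, finsum_eq_sum_of_fintype]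
  simp only [finsum_mem_def]
  simp only [finsum_eq_sum_of_fintype, Finset.mul_sum]
  rw [Finset.sum_congr rfl fun a _ => Finset.sum_comm, Finset.sum_comm]
  refine Finset.sum_congr rfl fun C _ => ?_
  rw [Finset.sum_eq_single_of_mem (α C) (Finset.mem_univ _),
    Finset.sum_eq_single_of_mem (hβ C).unit (Finset.mem_univ _), (hβ C).unit_spec,
    Set.indicator_of_mem (by exact ⟨rfl, rfl⟩)]
  · intro b _ hb
    rw [Set.indicator_of_notMem, mul_zero]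
    exact fun h => hb (Units.ext (by rw [(hβ C).unit_spec]; exact h.2.symm))
  · intro a _ ha
    refine Finset.sum_eq_zero fun b _ => ?_
    rw [Set.indicator_of_notMem, mul_zero]
    exact fun h => ha h.1.symm

theorem St.u3_thp {s : St} {f : Ideal s.O} {c n : ℕ} (hc : s.Cc f c) (hn : 2 ≤ n)
    (C : (s.Pr (s.md f n))ˣ) : s.thp f c n (s.out C.1) ≠ 0 := fun h => by
  have e := St.thp_unit s.v hc (by omega) (s.unit_out C)
  rw [h, map_zero] at e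
  exact zero_ne_one e

theorem St.log_fib {s : St} {G : Type} [Group G] [Finite G] {f : Ideal s.O} {c n : ℕ}
    {η : (s.Pr (s.lv f))ˣ →* G} (hc : s.Cc f c) (hn : 2 ≤ n) (χ : G →* ℂˣ)
    {ψ : MulChar (ZMod (3 ^ n)) ℂ} {φ : MulChar (s.Pr (s.md f n)) ℂ}
    (hT : s.Tw f n (s.chi η χ) ψ φ) :
    ∑ᶠ a : G, ∑ b : (ZMod (3 ^ n))ˣ,
      ((χ a : ℂ) * ψ b)⁻¹ * (Real.log (‖s.up f η c n a b‖ ^ 2) : ℂ) =
    ∑ᶠ C : (s.Pr (s.md f n))ˣ, (φ C)⁻¹ * (Real.log (‖s.thp f c n (s.out C.1)‖ ^ 2) : ℂ) := by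
  have := s.finite_Pr (s.md_ne (s.cop_ne hc.1) n)
  have hle := s.md_le f n
  have key := u3_fib (fun C : (s.Pr (s.md f n))ˣ => s.ev η (s.out C.1))
    (fun C => (s.Qn (s.out C.1) : ZMod (3 ^ n)))
    (fun C => (ZMod.isUnit_iff_coprime _ _).2 (s.Qn_cop hle.2.1 (s.unit_out C)))
    (fun a b => ((χ a : ℂ) * ψ b)⁻¹) fun C => u3_l (s.thp f c n (s.out C.1))
  refine Eq.trans (finsum_congr fun a => Finset.sum_congr rfl fun b _ => ?_)
    (key.trans (finsum_congr fun C => ?_))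
  · exact congrArg _ (u3_l_prod (Set.toFinite _) (St.u3_thp hc hn))
  · have e := hT _ (s.unit_out C)
    rw [s.cl_out, St.chi_ev χ (s.unit_mono (s.md_le_lv f (by omega)) (s.unit_out C))] at e
    rw [e]
    rfl

theorem Cb.u3_act {s : Cb} {f : Ideal s.O} {η : (s.Pr (s.lv f))ˣ →* s.GN} {c n : ℕ}
    (hc : s.Cc f c) {ρ : s.G n →* s.GN} {ν : s.G n →* (ZMod (3 ^ n))ˣ}
    (hP : s.Par f η n ρ ν) {x : s.K n} (hx : (x : ℂ) = s.up f η c n 1 1) (g : s.G n) :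
    ((g x : s.K n) : ℂ) = s.up f η c n (ρ g) (ν g) := by
  have hm : 0 < c * Ideal.absNorm f * 3 ^ n := by
    have h1 : 0 < c := lt_trans one_pos hc.2.1
    have h2 : 0 < Ideal.absNorm f := Nat.pos_of_ne_zero fun e => hc.1 (e ▸ dvd_zero 3)
    positivity
  obtain ⟨r, hs, hr⟩ := s.exists_res (s.K n)
  obtain ⟨σ, rfl⟩ := hs g
  obtain ⟨a, hA⟩ := St.exists_art hm σ
  obtain ⟨e1, e2⟩ := hP.1 _ σ a (r σ) hm (s.mm_mem f c n) hA (hr σ)
  rw [hr, hx, St.art_up hc hP.2.2.2.1 hA, one_mul, one_mul, e1, e2]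

theorem Cb.Zs_eq {s : Cb} {f : Ideal s.O} {η : (s.Pr (s.lv f))ˣ →* s.GN} {c n : ℕ}
    (hc : s.Cc f c) {ρ : s.G n →* s.GN} {ν : s.G n →* (ZMod (3 ^ n))ˣ}
    (hP : s.Par f η n ρ ν) {x : s.K n} (hx : (x : ℂ) = s.up f η c n 1 1) {χ : s.GN →* ℂˣ}
    {ψ : MulChar (ZMod (3 ^ n)) ℂ} {φ : s.G n →* ℂˣ}
    (hφ : ∀ g, (φ g : ℂ) = χ (ρ g) * ψ (ν g)) {φ' : MulChar (s.Pr (s.md f n)) ℂ}
    (hT : s.Tw f n (s.chi η χ) ψ φ') : s.Zs x φ = ∑ᶠ C : (s.Pr (s.md f n))ˣ,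
      (φ' C)⁻¹ * (Real.log (‖s.thp f c n (s.out C.1)‖ ^ 2) : ℂ) := by
  rw [← St.log_fib hc hP.2.2.2.1 χ hT]
  have key := u3_fib (fun g : s.G n => ρ g) (fun g => (ν g : ZMod (3 ^ n)))
    (fun g => (ν g).isUnit) (fun a b => ((χ a : ℂ) * ψ b)⁻¹ * u3_l (s.up f η c n a b)) fun _ => 1
  refine Eq.trans (finsum_congr fun g => ?_) (key.symm.trans
    (finsum_congr fun a => Finset.sum_congr rfl fun b _ => ?_))
  · rw [Units.val_inv_eq_inv_val, hφ, Cb.u3_act hc hP hx, mul_one]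
    rfl
  · obtain ⟨g₀, h1, h2⟩ := hP.2.2.1 a b
    have e : {g : s.G n | ρ g = a ∧ (ν g : ZMod (3 ^ n)) = b} = {g₀} := by
      ext g
      constructor
      · rintro ⟨k1, k2⟩
        refine mul_inv_eq_one.1 (hP.2.1 _ ?_ ?_)
        · rw [map_mul, map_inv, k1, h1, mul_inv_cancel]
        · rw [map_mul, map_inv, Units.ext k2, h2, mul_inv_cancel]
      · rintro rfl
        exact ⟨h1, congrArg Units.val h2⟩
    rw [e, finsum_mem_singleton, mul_one]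
    rfl

end Pool.Agent.P.MP_20768c_nt.Tz.Cv

end

-- part Cv.U4
section

set_option autoImplicit false

open Complex NumberField IsDedekindDomain Filter Topology
open UpperHalfPlane hiding I
open scoped ComplexConjugate Real MatrixGroups

namespace Pool.Agent.P.MP_20768c_nt.Tz.Cv

open Pool.Agent.P.MP_20768c_nt.Tz.EQ (Lt pr sp IsLat jL qN)

theorem u4_not {A : Type} [CommRing A] {Q : Ideal A} (hQ : Q.IsPrime) {a C j : ℕ}
    (hd : a ∣ C ^ j) (h : (C : A) ∉ Q) : (a : A) ∉ Q := fun ha => by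
  obtain ⟨b, hb⟩ := hd
  refine h (hQ.mem_of_pow_mem j ?_)
  rw [← Nat.cast_pow, hb, Nat.cast_mul]
  exact Q.mul_mem_right _ ha

theorem Cb.U_ana {s : Cb} {f : Ideal s.O} {η : (s.Pr (s.lv f))ˣ →* s.GN} {c : ℕ}
    (hη : s.Cut f η) (hc : s.Cc f c) : ∃ C R n₀ : ℕ, C ≠ 0 ∧ (∀ j, Unr s.k (s.K j) C) ∧
      ∀ n, n₀ ≤ n → ∀ x : s.K n, (x : ℂ) = s.up f η c n 1 1 → s.Ana C R n x := by
  classical
  obtain ⟨C₀, hC₀⟩ := s.exists_C0
  obtain ⟨C₁, hC₁, hU⟩ := s.exists_unr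
  have hf0 : Ideal.absNorm f ≠ 0 := fun e => hc.1 (e ▸ dvd_zero 3)
  have hc0 : c ≠ 0 := by have := hc.2.1; omega
  obtain ⟨C, hC⟩ : ∃ C, C = 3 * (c * Ideal.absNorm f) * C₀ * C₁ := ⟨_, rfl⟩
  have hC0 : C ≠ 0 := by
    rw [hC]
    exact mul_ne_zero (mul_ne_zero (mul_ne_zero three_ne_zero (mul_ne_zero hc0 hf0)) hC₀.1) hC₁
  have d0 : C₀ ∣ C ^ 1 := ⟨3 * (c * Ideal.absNorm f) * C₁, by rw [hC]; ring⟩
  have d1 : C₁ ∣ C ^ 1 := ⟨3 * (c * Ideal.absNorm f) * C₀, by rw [hC]; ring⟩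
  have d3 : 3 * Ideal.absNorm f ∣ C := ⟨c * C₀ * C₁, by rw [hC]; ring⟩
  have dm : ∀ n, c * Ideal.absNorm f * 3 ^ n ∣ C ^ (n + 1) := fun n => by
    rw [pow_succ']
    exact mul_dvd_mul ⟨3 * C₀ * C₁, by rw [hC]; ring⟩
      (pow_dvd_pow_of_dvd ⟨c * Ideal.absNorm f * C₀ * C₁, by rw [hC]; ring⟩ n)
  have hg : ∀ (χ : s.GN →* ℂˣ) (D : (s.Pr (s.lv f))ˣ), s.chi η χ D ^ s.g = 1 := fun χ D => by
    rw [St.chi, MulChar.ofUnitHom_coe, MonoidHom.comp_apply, ← Units.val_pow_eq_pow_val,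
      ← map_pow, ← s.card_GN, pow_card_eq_one', map_one, Units.val_one]
  choose R n₀ H using fun χ : s.GN →* ℂˣ => St.ana_one hc hC0 d3 s.g_pos (hg χ)
  have := Fintype.ofFinite (s.GN →* ℂˣ)
  have v3 : s.v 3 ≤ 1 := s.v_three.le
  refine ⟨C, ∑ χ, R χ, ∑ χ, n₀ χ + 2, hC0,
    fun j Q hQ h => hU j Q hQ (u4_not hQ d1 h), fun n hn x hx => ?_⟩
  obtain ⟨ρ, ν, hP⟩ := Cb.exists_par (n := n) hη (by omega)
  obtain ⟨r, -, hr⟩ := St.exists_res (s := s.toSt) (F := s.K n)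
  have hm : 0 < c * Ideal.absNorm f * 3 ^ n := by positivity
  have hmm := s.mm_mem f c n
  have dn := dm n
  generalize c * Ideal.absNorm f * 3 ^ n = m at hm hmm dn
  obtain ⟨Fr, hFr⟩ : ∃ Fr : Ideal s.O → s.G n, ∀ (σ : s.Au) q, s.Art m σ q → r σ = Fr q := by
    refine ⟨fun q => if h : ∃ σ : s.Au, s.Art m σ q then r h.choose else 1, fun σ q h => ?_⟩
    have e : ∃ σ : s.Au, s.Art m σ q := ⟨σ, h⟩
    have a1 := hP.1 m σ q _ hm hmm h (hr σ)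
    have a2 := hP.1 m _ q _ hm hmm e.choose_spec (hr _)
    simp only [dif_pos e]
    refine mul_inv_eq_one.1 (hP.2.1 _ ?_ ?_)
    · rw [map_mul, map_inv, mul_inv_eq_one]
      exact a1.1.trans a2.1.symm
    · rw [map_mul, map_inv, mul_inv_eq_one]
      exact Units.ext (a1.2.trans a2.2.symm)
  refine ⟨Fr, fun Q hQ h0 h => ?_, fun τ φ hτ hφ => ?_⟩
  · obtain ⟨σ, h1, h2⟩ := St.frob_art hC₀ hm (s.K n) Q hQ h0 (u4_not hQ d0 h) (u4_not hQ dn h)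
    exact hFr σ _ h1 ▸ h2 _ (hr σ)
  obtain ⟨χ, ψ, hψ⟩ := char_dec ρ ν hP.2.1 hP.2.2.1 φ
  have hψτ : ψ (tau n) ≠ 1 := fun k => hφ (by
    have e := hψ τ
    rw [(hP.2.2.2.2 τ hτ).1, (hP.2.2.2.2 τ hτ).2, k, map_one, Units.val_one, one_mul] at e
    exact Units.val_eq_one.1 e)
  obtain ⟨φ', hT⟩ := s.exists_tw f (n := n) (by omega) (s.chi η χ) ψ
  have le1 : n₀ χ ≤ ∑ χ, n₀ χ :=
    Finset.single_le_sum (f := n₀) (fun _ _ => Nat.zero_le _) (Finset.mem_univ χ)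
  have le2 : R χ ≤ ∑ χ, R χ :=
    Finset.single_le_sum (f := R) (fun _ _ => Nat.zero_le _) (Finset.mem_univ χ)
  obtain ⟨a, y, A, B, b1, b2, b3, b4, b5, b6, b7⟩ := H χ n (by omega) ψ φ' hψτ hT
  refine ⟨a, y, A, B, b1, fun q hq q0 => ⟨(b2 q hq q0).1, fun h => ?_⟩, b3,
    by rw [Cb.Zs_eq hc hP hx hψ hT]; exact b4, b5, b6,
    (pow_le_pow_right_of_le_one' v3 le2).trans b7⟩
  have c1 : IsCoprime q (Ideal.span {(m : s.O)}) := by
    rw [Ideal.isCoprime_iff_sup_eq]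
    refine (hq.isMaximal q0).out.2 _ (lt_of_le_of_ne le_sup_left fun e => u4_not hq dn h ?_)
    rw [e]
    exact Ideal.mem_sup_right (Ideal.mem_span_singleton_self _)
  obtain ⟨σ, hσ⟩ := St.art_surj hm q0 c1
  have a1 := hP.1 m σ q _ hm hmm hσ (hr σ)
  have u := hσ.unit hm hmm
  rw [(b2 q hq q0).2 h, hT _ u, St.chi_ev χ (s.unit_mono (s.md_le_lv f (by omega)) u),
    ← hFr σ q hσ, hψ, a1.1, a1.2, s.Qn_ip q0]

end Pool.Agent.P.MP_20768c_nt.Tz.Cv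

end

-- part Cv.J5
section

set_option autoImplicit false

open Complex NumberField IsDedekindDomain Filter Topology
open UpperHalfPlane hiding I
open scoped ComplexConjugate Real MatrixGroups

namespace Pool.Agent.P.MP_20768c_nt.Tz.Cv

open Pool.Agent.P.MP_20768c_nt.Tz.EQ (Lt pr sp IsLat jL qN)

theorem St.j5_le (s : St) {x : ℂ} : s.v x ≤ 1 ↔ ‖s.ι x‖ ≤ 1 := by
  rw [← s.v_eq, NNReal.coe_le_one]

theorem St.j5_max {s : St} {n : Ideal s.O} (hn : n ≠ ⊥) {g : s.Pair → ℂ} (hg : s.Inv n g)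
    (h : ∀ p, IsUnit (s.cl n p) → s.v (g p) < 1) :
    ∃ t : NNReal, t < 1 ∧ ∀ p, IsUnit (s.cl n p) → s.v (g p) ≤ t := by
  have := s.finite_Pr hn
  obtain ⟨C, hC⟩ := Finite.exists_max fun C : (s.Pr n)ˣ => s.v (g (s.out C.1))
  refine ⟨_, h _ (s.unit_out C), fun p hp => ?_⟩
  have := hC hp.unit
  rwa [hg.of_cl (p := s.out hp.unit.1) (q := p) (by rw [s.cl_out]; rfl)] at this

theorem St.j5_int {s : St} {f : Ideal s.O} {c : ℕ} (hc : s.Cc f c) {g : s.Pair → ℂ}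
    (hg : s.Inv (s.lv f) g) (hE : s.Eig f fun p => g p * s.oms f p)
    (hv : ∀ p, IsUnit (s.cl (s.lv f) p) → s.v (g p) ≤ 1) (n : ℕ) {a : ℤ}
    (ha : ¬ (3 : ℤ) ∣ a) :
    s.v (s.Sy (fun p => g p * s.oms f p) (a / 3 ^ (n + 1))) ≤ 1 := by
  obtain ⟨ε, hT, -⟩ := s.laws hc.1 hE
  have : NeZero (s.lev f) := ⟨by have := (s.lev_pos (s.cop_ne hc.1)).1; omega⟩
  obtain ⟨Λ, hΛ, hS⟩ := sd_fg hT
  rw [s.j5_le]
  refine int_abs s.ι _ hΛ hS hT.per ?_ (s.Sy_hecke hc.1 hE) hc.2.2.1 ?_ n ha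
  · rw [← s.v_eq, hE.al hc.1, NNReal.coe_one]
  · intro m b b' hm hb
    have h1 := St.BB_le hc hm hg hv b
    rw [St.BB_eq hc hm hE hb, s.j5_le] at h1
    exact h1

theorem St.rank_BD {s : St} {f : Ideal s.O} {c : ℕ} (hc : s.Cc f c)
    (χ : MulChar (s.Pr (s.lv f)) ℂ) :
    ∃ l : ℕ, ∀ n, 2 ≤ n → 4 * 3 ^ (n - 2) ≤ l + tk fun b : (ZMod (3 ^ n))ˣ =>
      s.rs (s.BD f c n (fun p => χ (s.cl (s.lv f) p) * s.oms f p) (b : ZMod (3 ^ n)).val) := by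
  have hf := hc.1
  have hf0 := s.cop_ne hf
  obtain ⟨g, hg, hE, hg1, hv⟩ := St.exists_eig hf χ
  set ω : s.Pair → ℂ := fun p => g p * s.oms f p with hω
  have hi : ∀ (n : ℕ) (a : ℤ), ¬ (3 : ℤ) ∣ a → s.v (s.Sy ω (a / 3 ^ (n + 1))) ≤ 1 :=
    fun n a ha => St.j5_int hc hg hE (fun p hp => (hv p hp).1) n ha
  have hi' : ∀ (n : ℕ) (a : ℤ), 1 ≤ n → ¬ (3 : ℤ) ∣ a → s.v (s.Sy ω (a / 3 ^ n)) ≤ 1 := by
    intro n a hn ha
    obtain ⟨m, rfl⟩ := Nat.exists_eq_add_of_le' hn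
    exact hi m a ha
  have h1 : ω 1 = s.oms f 1 := by simp only [hω, hg1, one_mul]
  obtain ⟨n₁, a₁, ha₁, h₁⟩ := St.nv hf hE h1 hi (e := 1) (Or.inl rfl)
  obtain ⟨n₂, a₂, ha₂, h₂⟩ := St.nv hf hE h1 hi (e := -1) (Or.inr rfl)
  rw [Int.cast_one, one_mul, ← Int.cast_neg] at h₁
  rw [Int.cast_neg, Int.cast_one, neg_one_mul, ← sub_eq_add_neg, ← Int.cast_neg] at h₂
  obtain ⟨ε, hT, -⟩ := s.laws hf hE
  have hal := hE.al hf
  have hα : s.rs (s.al ω) ≠ 0 := by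
    rw [Ne, St.rs_eq_zero hal.le, hal]
    exact lt_irrefl _
  obtain ⟨l, hl⟩ := tk_meas s.three_κ (fun n a => s.rs (s.Sy ω (a / 3 ^ n))) hα (c := c) (by
      intro n a b hab
      obtain ⟨z, hz⟩ := hab.dvd
      have e : (b : ℚ) / 3 ^ n = a / 3 ^ n + z := by
        have : (b : ℚ) = a + 3 ^ n * z := by
          have : b = a + 3 ^ n * z := by linarith
          exact_mod_cast this
        rw [this]
        field_simp
      simp only [e, hT.per]) (by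
      intro n a hn ha
      have h1 := s.Sy_hecke hf hE (a / 3 ^ n)
      have e1 : (a : ℚ) / 3 ^ n / 3 = a / 3 ^ (n + 1) := by
        rw [pow_succ, div_div]
      have e2 : ((a : ℚ) / 3 ^ n + 1) / 3 = ((a + 3 ^ n : ℤ) : ℚ) / 3 ^ (n + 1) := by
        push_cast
        field_simp
        ring
      have e3 : ((a : ℚ) / 3 ^ n + 2) / 3 = ((a + 2 * 3 ^ n : ℤ) : ℚ) / 3 ^ (n + 1) := by
        push_cast
        field_simp
        ring
      have h3 : (3 : ℤ) ∣ 3 ^ n := dvd_pow_self 3 (by omega)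
      have b0 := hi n a ha
      have b1 := hi n (a + 3 ^ n) (by omega)
      have b2 := hi n (a + 2 * 3 ^ n) (by omega)
      rw [e1, e2, e3] at h1
      rw [← St.rs_mul hal.le (hi' n a hn ha), h1, St.rs_add (s.v.map_add_le b0 b1) b2,
        St.rs_add b0 b1])
    ⟨n₁ + 1, a₁, by omega, ha₁, by
      rw [← St.rs_add (hi n₁ a₁ ha₁) (hi n₁ (-a₁) (by omega)), Ne, St.rs_eq_zero h₁.le, h₁]
      exact lt_irrefl _⟩
    ⟨n₂ + 1, a₂, by omega, ha₂, by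
      rw [← St.rs_sub (hi n₂ a₂ ha₂) (hi n₂ (-a₂) (by omega)), Ne, St.rs_eq_zero h₂.le, h₂]
      exact lt_irrefl _⟩ hc.2.2.1
  refine ⟨l, fun n hn => hl n hn _ ?_⟩
  intro b a a' hab ha'
  have hao : ¬ (3 : ℤ) ∣ a := (unit_cop (n := n) (by omega)).1 (hab ▸ b.isUnit)
  have hao' : ¬ (3 : ℤ) ∣ a' := fun h => hao <|
    (ha'.of_dvd (dvd_pow_self 3 (by omega))).dvd_iff.1 (h.mul_right _)
  have e0 : s.BD f c n (fun p => χ (s.cl (s.lv f) p) * s.oms f p) (b : ZMod (3 ^ n)).val =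
      s.BD f c n (fun p => χ (s.cl (s.lv f) p) * s.oms f p) a :=
    St.BD_congr f c _ (by rw [hab, Int.cast_natCast, ZMod.natCast_zmod_val])
  have hd : s.Inv (s.lv f) fun p => χ (s.cl (s.lv f) p) - g p := by
    intro x p q h
    have h1 : s.cl (s.lv f) p = s.cl (s.lv f) q := s.cl_eq.2 ⟨x, h⟩
    simp only [h1, hg x p q h]
  obtain ⟨t, ht, ht'⟩ := St.j5_max (s.lv_ne hf0) hd fun p hp => by
    rw [← Valuation.map_neg, neg_sub]
    exact (hv p hp).2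
  have e1 : s.BD f c n (fun p => χ (s.cl (s.lv f) p) * s.oms f p) a =
      s.BD f c n ω a + s.BD f c n (fun p => (χ (s.cl (s.lv f) p) - g p) * s.oms f p) a := by
    rw [← St.BD_add hf0]
    congr 1
    funext p
    simp only [hω]
    ring
  have b1 : s.v (s.BD f c n ω a) ≤ 1 := St.BD_le hc hn hg (fun p hp => (hv p hp).1) a
  have b2 := (St.BD_le hc hn hd ht' a).trans_lt ht
  have hD : ∀ x : ℤ, ¬ (3 : ℤ) ∣ x →
      s.v (s.Sy ω (x / 3 ^ n) - s.Sy ω ((x * (3 ^ (n - 1) + 1) : ℤ) / 3 ^ n)) ≤ 1 ∧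
      s.rs (s.Sy ω (x / 3 ^ n) - s.Sy ω ((x * (3 ^ (n - 1) + 1) : ℤ) / 3 ^ n)) =
        s.rs (s.Sy ω (x / 3 ^ n)) - s.rs (s.Sy ω ((x * (3 ^ (n - 1) + 1) : ℤ) / 3 ^ n)) := by
    intro x hx
    have h3 : (3 : ℤ) ∣ 3 ^ (n - 1) := dvd_pow_self 3 (by omega)
    have x1 := hi' n x (by omega) hx
    have x2 := hi' n (x * (3 ^ (n - 1) + 1)) (by omega) (j2_cop hx (by omega))
    exact ⟨s.v.map_sub_le x1 x2, St.rs_sub x1 x2⟩
  have c1 : (c : ℤ) % 3 = 1 := by have := hc.spec.2.1; omega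
  have vc : s.v c = 1 := by exact_mod_cast St.v_cop s.v s.v_three (n := c) (by omega)
  have rc : s.rs c = 1 := by
    have := s.rs_int c
    rw [Int.cast_natCast] at this
    rw [this, ← Int.emod_add_mul_ediv (c : ℤ) 3, c1]
    push_cast
    rw [s.three_κ, zero_mul, add_zero]
  have vc2 : s.v ((c : ℂ) ^ 2) = 1 := by rw [map_pow, vc, one_pow]
  have rc2 : s.rs ((c : ℂ) ^ 2) = 1 := by rw [sq, St.rs_mul vc.le vc.le, rc, one_mul]
  rw [e0, e1, St.rs_add b1 b2.le, (St.rs_eq_zero b2.le).2 b2, add_zero, St.BD_eq hc hn hE ha',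
    St.rs_sub, St.rs_mul vc2.le (hD a hao).1, St.rs_mul vc.le (hD a' hao').1, rc, rc2, one_mul,
    one_mul, (hD a hao).2, (hD a' hao').2]
  · rw [map_mul, vc2, one_mul]
    exact (hD a hao).1
  · rw [map_mul, vc, one_mul]
    exact (hD a' hao').1

end Pool.Agent.P.MP_20768c_nt.Tz.Cv

end

-- part Cv.U1
section

set_option autoImplicit false

open Complex NumberField IsDedekindDomain Filter Topology
open UpperHalfPlane hiding I
open scoped ComplexConjugate Real MatrixGroups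

namespace Pool.Agent.P.MP_20768c_nt.Tz.Cv

open Pool.Agent.P.MP_20768c_nt.Tz.EQ (Lt pr sp IsLat jL qN)

open Classical in
theorem u1_orth {G : Type} [CommGroup G] [Finite G] [Fintype (G →* ℂˣ)] (a b : G) :
    ∑ χ : G →* ℂˣ, ((χ a : ℂˣ) : ℂ)⁻¹ * χ b = if b = a then (Nat.card G : ℂ) else 0 := by
  have : NeZero (Monoid.exponent G) := ⟨Monoid.exponent_ne_zero_of_finite⟩
  split_ifs with h
  · rw [h, Finset.sum_congr rfl fun χ _ => inv_mul_cancel₀ (χ a).ne_zero, Finset.sum_const,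
      Finset.card_univ, ← Nat.card_eq_fintype_card,
      CommGroup.card_monoidHom_of_hasEnoughRootsOfUnity G ℂ, nsmul_eq_mul, mul_one]
  · obtain ⟨ψ, hψ⟩ := CommGroup.exists_apply_ne_one_of_hasEnoughRootsOfUnity G ℂ
      (a := a⁻¹ * b) fun e => h (inv_mul_eq_one.1 e).symm
    have e : ∀ χ : G →* ℂˣ, ((χ a : ℂˣ) : ℂ)⁻¹ * χ b = χ (a⁻¹ * b) := fun χ => by simp
    simp only [e]
    refine eq_zero_of_mul_eq_self_left (b := (ψ (a⁻¹ * b) : ℂ)) (fun k => hψ (Units.ext k)) ?_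
    rw [Finset.mul_sum, ← Equiv.sum_comp (Equiv.mulLeft ψ) fun χ : G →* ℂˣ => (χ (a⁻¹ * b) : ℂ)]
    rfl

namespace St

variable {s : St} {f : Ideal s.O} {c n : ℕ} {sb : (ZMod (3 ^ n))ˣ → s.Au}

theorem u1_ext {ω ω' : s.Pair → ℂ} (h : ∀ p, IsUnit (s.cl (s.md f n) p) → ω p = ω' p) (b : ℤ) :
    s.BD f c n ω b = s.BD f c n ω' b := by
  have e : ∀ b, s.BB f c n ω b = s.BB f c n ω' b := fun b => by
    rw [BB, BB]
    congr 1
    exact finsum_congr fun C => by rw [h _ (s.unit_out C)]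
  rw [BD, BD, e, e]

theorem u1_smul (hf : f ≠ ⊥) (x : ℂ) (ω : s.Pair → ℂ) (b : ℤ) :
    s.BD f c n (fun p => x * ω p) b = x * s.BD f c n ω b := by
  rw [BD, BD, BB_smul hf, BB_smul hf]
  ring

theorem u1_sum (hf : f ≠ ⊥) {ι : Type} (T : Finset ι) (ω : ι → s.Pair → ℂ) (b : ℤ) :
    s.BD f c n (fun p => ∑ i ∈ T, ω i p) b = ∑ i ∈ T, s.BD f c n (ω i) b := by
  classical
  induction T using Finset.induction_on with
  | empty => simpa using u1_smul (c := c) (n := n) hf 0 (fun _ => 0) b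
  | insert i T hi ih =>
    simp only [Finset.sum_insert hi]
    rw [← ih, BD, BD, BD, BB_add hf, BB_add hf]
    ring

theorem u1_jac (hn : 1 ≤ n) {a : ℕ} {b : ZMod (3 ^ n)}
    (h : (a : ZMod (3 ^ n)) = b) : jacobiSym a 3 = jacobiSym b.val 3 := by
  refine jacobiSym.mod_left' ?_
  rw [← h, ZMod.val_natCast]
  exact_mod_cast congrArg (Nat.cast : ℕ → ℤ) (Nat.mod_mod_of_dvd a (dvd_pow_self 3 (by omega))).symm

section
variable {G : Type} [Group G] {η : (s.Pr (s.lv f))ˣ →* G}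

theorem u1_le (hc : s.Cc f c) (hn : 2 ≤ n) (g : G → ℂ) (hg : ∀ a, s.v (g a) ≤ 1)
    (b : ℤ) : s.v (s.BD f c n (fun p => g (s.ev η p) * s.oms f p) b) ≤ 1 :=
  BD_le hc hn (g := fun p => g (s.ev η p))
    (fun x p q h => by
      show g _ = g _
      rw [u1p_cl (s.cl_eq.2 ⟨x, h⟩)]) (fun _ _ => hg _) b

open Classical in
theorem u1_del (hc : s.Cc f c) (hn : 2 ≤ n) (hs : s.IsSec n sb) (a₀ : G)
    (b₀ : (ZMod (3 ^ n))ˣ) {b : ℤ} (hb : (b : ZMod (3 ^ n)) * b₀ = -1) :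
    s.del n sb (s.up f η c n a₀ b₀) = s.rs (-(jacobiSym (b₀ : ZMod (3 ^ n)).val 3 : ℤ) *
      s.BD f c n (fun p => (if s.ev η p = a₀ then 1 else 0) * s.oms f p) b) := by
  have hf : f ≠ ⊥ := s.cop_ne hc.1
  have := s.finite_Pr (s.md_ne hf n)
  have := Fintype.ofFinite (s.Pr (s.md f n))ˣ
  obtain ⟨κ, hκ⟩ := exists_kap hc.1 n
  obtain ⟨T, hT⟩ := s.exists_fx n
  obtain ⟨j, hj⟩ : ∃ j : ℤ, jacobiSym (b₀ : ZMod (3 ^ n)).val 3 = j := ⟨_, rfl⟩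
  have e1 : s.up f η c n a₀ b₀ = ∏ C ∈ Finset.univ.filter fun C : (s.Pr (s.md f n))ˣ =>
      s.ev η (s.out C.1) = a₀ ∧ (s.Qn (s.out C.1) : ZMod (3 ^ n)) = b₀,
      s.thp f c n (s.out C.1) := by
    rw [up, ← finprod_mem_coe_finset]
    simp
  have y1 : ∀ C : (s.Pr (s.md f n))ˣ,
      -(j : ℂ) * (s.oms f (s.out C.1) * s.ecp f c n (s.out C.1)) ∈ s.Fx n := fun C =>
    (hT _).1 (mul_mem (neg_mem (intCast_mem T j)) ((hT _).2 (thp_fx hc hn (s.unit_out C)).2))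
  have y2 : ∀ C : (s.Pr (s.md f n))ˣ,
      s.v (-(j : ℂ) * (s.oms f (s.out C.1) * s.ecp f c n (s.out C.1))) ≤ 1 := fun C => by
    rw [map_mul, Valuation.map_neg]
    exact mul_le_one' (c1a_int s.v j) (thp_dl hc hn hs (s.unit_out C)).2
  rw [e1, del_prod hn hs _ fun C _ =>
    ⟨(thp_fx hc hn (s.unit_out C)).1, thp_unit s.v hc (by omega) (s.unit_out C)⟩,
    Finset.sum_congr rfl fun C hC => del_cong hn hs (thp_fx hc hn (s.unit_out C)).1 (y1 C) (y2 C)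
      (by
        rw [← hj, ← u1_jac (by omega) (Finset.mem_filter.1 hC).2.2]
        exact (thp_dl hc hn hs (s.unit_out C)).1),
    ← rs_sum _ fun C _ => td_int (by omega) hs _ (y1 C) (y2 C), hj]
  refine congrArg s.rs ?_
  have e2 : {C : (s.Pr (s.md f n))ˣ | (s.Qn (s.out C.1) : ZMod (3 ^ n)) = b₀} =
      (Finset.univ.filter fun C : (s.Pr (s.md f n))ˣ =>
        (s.Qn (s.out C.1) : ZMod (3 ^ n)) = b₀ : Finset _) := by simp
  have key : ∀ u : ℤ, ∑ C ∈ Finset.univ.filter fun C : (s.Pr (s.md f n))ˣ =>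
      s.ev η (s.out C.1) = a₀ ∧ (s.Qn (s.out C.1) : ZMod (3 ^ n)) = b₀,
      s.tr n sb (zt n ^ (-1 * u) * (-(j : ℂ) * (s.oms f (s.out C.1) * s.ecp f c n (s.out C.1)))) =
      -(j : ℂ) * s.BB f c n (fun p => (if s.ev η p = a₀ then 1 else 0) * s.oms f p) (b * u) := by
    intro u
    rw [BB, kap_sum hf hκ b₀, e2, finsum_mem_coe_finset, Finset.sum_div, Finset.mul_sum,
      ← Finset.filter_filter, Finset.filter_comm, Finset.sum_filter]
    refine Finset.sum_congr rfl fun C hC => ?_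
    have hQ := (Finset.mem_filter.1 hC).2
    have e3 : ∀ b' : (ZMod (3 ^ n))ˣ, s.ev η (s.out (C * κ b').1) = s.ev η (s.out C.1) :=
      fun b' => u1p_cl (s.cl_mono (n := f * s.p2 ^ n)
        (Ideal.mul_mono_right (Ideal.pow_le_self (by omega))) (kap_cl hκ C b').1)
    simp only [e3]
    split_ifs with h
    · rw [tr, ← mul_div_assoc, Finset.mul_sum]
      refine congrArg (· / _) (Finset.sum_congr rfl fun b' _ => ?_)
      have e4 : zt n ^ (b * u * s.Qn (s.out (C * κ b').1)) =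
          (zt n ^ (b' : ZMod (3 ^ n)).val) ^ (-1 * u) := by
        rw [← zpow_natCast, ← zpow_mul, zt_congr]
        simp only [Int.cast_mul, Int.cast_neg, Int.cast_one, Int.cast_natCast]
        rw [(kap_cl hκ C b').2, hQ, ZMod.natCast_zmod_val]
        linear_combination (u * b' : ZMod (3 ^ n)) * hb
      rw [map_mul, map_mul, map_zpow₀, map_neg, map_intCast, (hs b').2,
        (kap_act hc hn hκ (hs b').1 (hs b').2 C).2, e4]
      ring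
    · simp
  have k1 := key 1
  rw [mul_one, mul_one] at k1
  simp only [td]
  rw [← Finset.sum_div, Finset.sum_sub_distrib, k1, key, BD]
  ring

end

theorem del_up {G : Type} [CommGroup G] [Finite G] [Fintype (G →* ℂˣ)]
    {η : (s.Pr (s.lv f))ˣ →* G} (hc : s.Cc f c) (hn : 2 ≤ n) (hs : s.IsSec n sb) (a₀ : G)
    (b₀ : (ZMod (3 ^ n))ˣ) {b : ℤ} (hb : (b : ZMod (3 ^ n)) * b₀ = -1) :
    -(Nat.card G : s.κ) * s.del n sb (s.up f η c n a₀ b₀) =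
      ∑ χ : G →* ℂˣ, (jacobiSym (b₀ : ZMod (3 ^ n)).val 3 : ℤ) * s.rs ((χ a₀ : ℂˣ) : ℂ)⁻¹ *
        s.rs (s.BD f c n (fun p => s.chi η χ (s.cl (s.lv f) p) * s.oms f p) b) := by
  classical
  have hf : f ≠ ⊥ := s.cop_ne hc.1
  have hl := s.md_le_lv f (j := n) (by omega)
  have i0 : ∀ (χ : G →* ℂˣ) (a : G), s.v (χ a : ℂˣ) = 1 := fun χ a =>
    v_root s.v (Nat.card_pos (α := G)) (by
      rw [← Units.val_pow_eq_pow_val, ← map_pow, pow_card_eq_one', map_one, Units.val_one])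
  have i1 := u1_le (η := η) hc hn (fun a => if a = a₀ then 1 else 0)
    (fun p => by split_ifs <;> simp) b
  have i2 : ∀ χ : G →* ℂˣ, s.v ((χ a₀ : ℂˣ) : ℂ)⁻¹ ≤ 1 := fun χ => by
    rw [map_inv₀, i0, inv_one]
  have i3 := fun χ : G →* ℂˣ => u1_le (η := η) hc hn (fun a => (χ a : ℂˣ)) (fun a => (i0 χ a).le) b
  have e : ∀ χ : G →* ℂˣ, s.BD f c n (fun p => s.chi η χ (s.cl (s.lv f) p) * s.oms f p) b =
      s.BD f c n (fun p => (χ (s.ev η p) : ℂˣ) * s.oms f p) b := fun χ =>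
    u1_ext (fun p hp => by rw [u1p_chi χ (s.unit_mono hl hp)]) b
  have k : ((Nat.card G : ℤ) : ℂ) *
      s.BD f c n (fun p => (if s.ev η p = a₀ then 1 else 0) * s.oms f p) b =
      ∑ χ : G →* ℂˣ, ((χ a₀ : ℂˣ) : ℂ)⁻¹ *
        s.BD f c n (fun p => (χ (s.ev η p) : ℂˣ) * s.oms f p) b := by
    simp only [← u1_smul hf]
    rw [← u1_sum hf]
    refine u1_ext (fun p _ => ?_) b
    simp only [← mul_assoc]
    rw [← Finset.sum_mul, u1_orth, Int.cast_natCast]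
    split_ifs <;> simp
  have k' := congrArg s.rs k
  rw [rs_mul (c1a_int s.v _) i1, rs_int, Int.cast_natCast, rs_sum _ fun χ _ => by
    rw [map_mul]
    exact mul_le_one' (i2 χ) (i3 χ), Finset.sum_congr rfl fun χ _ => rs_mul (i2 χ) (i3 χ)] at k'
  simp only [e, mul_assoc]
  rw [u1_del hc hn hs a₀ b₀ hb, ← Int.cast_neg, rs_mul (c1a_int s.v _) i1, rs_int,
    ← Finset.mul_sum, ← k']
  push_cast
  ring

end St

end Pool.Agent.P.MP_20768c_nt.Tz.Cv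

end

-- part Cv.U2
section

set_option autoImplicit false

open Complex NumberField IsDedekindDomain Filter Topology
open UpperHalfPlane hiding I
open scoped ComplexConjugate Real MatrixGroups

namespace Pool.Agent.P.MP_20768c_nt.Tz.Cv

open Pool.Agent.P.MP_20768c_nt.Tz.EQ (Lt pr sp IsLat jL qN)

theorem St.u2_nu (s : St) {n : ℕ} : ∃ ν : s.Au →* (ZMod (3 ^ n))ˣ,
    ∀ σ : s.Au, σ (zt n) = zt n ^ (ν σ : ZMod (3 ^ n)).val := by
  choose ν hν using fun σ : s.Au => hom_zt (σ : ℂ →+* ℂ) n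
  have hν' : ∀ σ : s.Au, σ (zt n) = zt n ^ (ν σ : ZMod (3 ^ n)).val := hν
  have key : ∀ (σ : s.Au) (a : ℕ), σ (zt n) = zt n ^ a → (ν σ : ZMod (3 ^ n)) = a := by
    intro σ a h
    rw [hν', ← zpow_natCast, ← zpow_natCast, zt_congr] at h
    simpa using h
  refine ⟨MonoidHom.mk' ν fun σ τ => Units.ext ?_, hν'⟩
  rw [key (σ * τ) ((ν σ : ZMod (3 ^ n)).val * (ν τ : ZMod (3 ^ n)).val)]
  · simp
  · rw [AlgEquiv.mul_apply, hν' τ, map_pow, hν' σ, pow_mul]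

theorem St.u2_art {s : St} {n m : ℕ} {ν : s.Au →* (ZMod (3 ^ n))ˣ}
    (hν : ∀ σ : s.Au, σ (zt n) = zt n ^ (ν σ : ZMod (3 ^ n)).val) (hm : 3 ^ n ∣ m) {σ : s.Au}
    {a : Ideal s.O} (h : s.Art m σ a) : (ν σ : ZMod (3 ^ n)) = Ideal.absNorm a := by
  have h1 := h.2.2.2 (zt n) (by obtain ⟨j, rfl⟩ := hm; rw [pow_mul, zt_pow, one_pow])
  rw [hν, ← zpow_natCast, ← zpow_natCast, zt_congr] at h1
  simpa using h1

theorem St.u2_jac (s : St) {n : ℕ} (hn : 1 ≤ n) : ∃ ε : (ZMod (3 ^ n))ˣ →* s.κˣ,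
    ∀ b, (ε b : s.κ) = (jacobiSym (b : ZMod (3 ^ n)).val 3 : ℤ) := by
  let ε : (ZMod (3 ^ n))ˣ →* s.κ :=
    { toFun := fun b => (jacobiSym (b : ZMod (3 ^ n)).val 3 : ℤ)
      map_one' := by
        rw [← St.u1_jac hn (a := 1) (by simp), Nat.cast_one, jacobiSym.one_left, Int.cast_one]
      map_mul' := fun a b => by
        rw [← St.u1_jac hn (a := (a : ZMod (3 ^ n)).val * (b : ZMod (3 ^ n)).val) (by simp),
          Nat.cast_mul, jacobiSym.mul_left, Int.cast_mul] }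
  exact ⟨ε.toHomUnits, fun _ => rfl⟩

theorem Cb.U_rank {s : Cb} {f : Ideal s.O} {η : (s.Pr (s.lv f))ˣ →* s.GN} {c : ℕ}
    (hη : s.Cut f η) (hc : s.Cc f c) : ∃ l : ℕ, ∀ n, 2 ≤ n → ∀ sb, s.IsSec n sb →
      4 * s.g * 3 ^ (n - 2) ≤ l + s.rk' n sb (s.up f η c n 1 1) := by
  classical
  let _ : CommGroup s.GN := { (inferInstance : Group s.GN) with mul_comm := s.comm }
  have := k2_p_fin s.GN
  have := Fintype.ofFinite (s.GN →* ℂˣ)
  have : NeZero (Monoid.exponent s.GN) := ⟨Monoid.exponent_ne_zero_of_finite⟩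
  have hg : Nat.card s.GN = s.g := s.card_GN
  choose l hl using fun χ : s.GN →* ℂˣ => St.rank_BD hc (s.chi η χ)
  refine ⟨∑ χ, l χ, fun n hn sb hs => ?_⟩
  have hm := St.u1_p_pos hc n
  have hmf := s.md_le_lv f (j := n) (by omega) (s.mm_mem f c n)
  obtain ⟨ν, hν⟩ := s.u2_nu (n := n)
  obtain ⟨ρ, -, hρ⟩ := s.exists_res s.N
  obtain ⟨ε, hε⟩ := s.u2_jac (n := n) (by omega)
  have h3 : ∀ (χ : s.GN →* ℂˣ) a, ((χ a : ℂˣ) : ℂ)⁻¹ ^ s.g = 1 := fun χ a => by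
    rw [inv_pow, ← Units.val_pow_eq_pow_val, ← map_pow, ← hg, pow_card_eq_one', map_one,
      Units.val_one, inv_one]
  have hv : ∀ (χ : s.GN →* ℂˣ) a, s.v ((χ a : ℂˣ) : ℂ)⁻¹ = 1 := fun χ a =>
    St.v_root s.v s.g_pos (h3 χ a)
  have hex : ∀ χ : s.GN →* ℂˣ, ∃ θ : s.GN →* s.κˣ, ∀ a, (θ a : s.κ) = s.rs ((χ a : ℂˣ) : ℂ)⁻¹ := by
    intro χ
    let θ : s.GN →* s.κ :=
      { toFun := fun a => s.rs ((χ a : ℂˣ) : ℂ)⁻¹
        map_one' := by rw [map_one, Units.val_one, inv_one, s.rs_one]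
        map_mul' := fun a b => by
          rw [map_mul, Units.val_mul, mul_inv, St.rs_mul (hv χ a).le (hv χ b).le] }
    exact ⟨θ.toHomUnits, fun _ => rfl⟩
  choose θ hθ using hex
  have hin : ∀ a b, ∃ σ : s.Au, ρ σ = a ∧ ν σ = b := by
    intro a b
    obtain ⟨σ, h0, hσ⟩ := s.exists_move n a b
    refine ⟨σ, AlgEquiv.ext fun x => Subtype.ext ((hρ σ x).trans (h0 x)), Units.ext ?_⟩
    rw [hν, ← zpow_natCast, ← zpow_natCast, zt_congr] at hσ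
    simpa using hσ
  have hsurj : Function.Surjective ν := fun b => (hin 1 b).imp fun _ h => h.2
  have k4 : s.v (s.g : ℕ) = 1 := St.v_cop_nat s.v s.v_three s.g_ndvd
  have hd : ∀ χ ∈ (Finset.univ : Finset (s.GN →* ℂˣ)), ∀ χ' ∈ (Finset.univ : Finset (s.GN →* ℂˣ)),
      χ ≠ χ' → ∃ g, ν g = 1 ∧ (ε.comp ν * (θ χ).comp ρ) g ≠ (ε.comp ν * (θ χ').comp ρ) g := by
    intro χ _ χ' _ hne
    by_contra hcon
    refine hne (MonoidHom.ext fun a => Units.ext ?_)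
    obtain ⟨σ, k1, k0⟩ := hin a 1
    have k2 : θ χ a = θ χ' a := by
      by_contra h
      exact hcon ⟨σ, k0, by simpa [k1] using h⟩
    have k3 : s.rs (((χ a : ℂˣ) : ℂ)⁻¹ - ((χ' a : ℂˣ) : ℂ)⁻¹) = 0 := by
      rw [St.rs_sub (hv χ _).le (hv χ' _).le, ← hθ, ← hθ, k2, sub_self]
    exact inv_inj.1 (St.root_inj s.v k4 (h3 χ _) (h3 χ' _)
      ((St.rs_eq_zero (s.v.map_sub_le (hv χ _).le (hv χ' _).le)).1 k3))
  have g0 : -(Nat.card s.GN : s.κ) ≠ 0 := by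
    rw [neg_ne_zero, hg, ← Int.cast_natCast, ← s.rs_int, Int.cast_natCast, Ne,
      St.rs_eq_zero k4.le, k4]
    exact lt_irrefl _
  have a0 := fun χ => (hl χ n hn).trans_eq (congrArg _ (tk_inv _ (-1)).symm)
  have a1 := Finset.sum_le_sum fun χ (_ : χ ∈ Finset.univ) => a0 χ
  rw [Finset.sum_const, Finset.sum_add_distrib, Finset.card_univ, ← Nat.card_eq_fintype_card,
    CommGroup.card_monoidHom_of_hasEnoughRootsOfUnity s.GN ℂ, hg, smul_eq_mul, ← mul_assoc,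
    mul_comm s.g] at a1
  refine a1.trans (Nat.add_le_add_left ((tk_many' _ _ ν hsurj hd _).trans_eq ?_) _)
  unfold Cb.rk'
  rw [← tk_smul (fun σ : s.Au => s.del n sb (σ (s.up f η c n 1 1))) g0]
  congr 1
  funext σ
  obtain ⟨a, ha⟩ := St.exists_art hm σ
  have e0 : s.ev η (s.ip a) = ρ σ := AlgEquiv.ext fun x => Subtype.ext
    ((hη.2 _ σ a hm hmf ha x).trans (hρ σ x).symm)
  rw [St.art_up hc (by omega) ha, one_mul, one_mul, ← St.u2_art hν (Dvd.intro_left _ rfl) ha, e0,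
    St.del_up hc (by omega) hs (ρ σ) (ν σ)
      (b := (((-1 * (ν σ)⁻¹ : (ZMod (3 ^ n))ˣ) : ZMod (3 ^ n)).val : ℕ)) (by
        rw [Int.cast_natCast, ZMod.natCast_zmod_val, ← Units.val_mul, inv_mul_cancel_right]
        rfl)]
  refine Finset.sum_congr rfl fun χ _ => ?_
  rw [← hε, ← hθ]
  rfl

end Pool.Agent.P.MP_20768c_nt.Tz.Cv

end
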