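import Pool.Agent.P.MP_20768c_nt.Tz.Z3
import Pool.Agent.P.MP_20768c_nt.Tz.Z4
import Pool.Agent.P.MP_20768c_nt.Tz.Z6
import Pool.Agent.P.MP_20768c_nt.Tz.Z7
import Pool.Agent.P.MP_20768c_nt.Tz.Z13
import Pool.Agent.P.MP_20768c_nt.Tz.Z14
import Pool.Agent.P.MP_20768c_nt.Tz.Z15
import Pool.Agent.P.MP_20768c_nt.Tz.Z16
import Pool.Agent.P.MP_20768c_nt.Tz.Z17

-- part Cv.K9
section

set_option autoImplicit false

open Complex NumberField IsDedekindDomain Filter Topology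
open UpperHalfPlane hiding I
open scoped ComplexConjugate Real MatrixGroups

namespace Pool.Agent.P.MP_20768c_nt.Tz.Cv

open Pool.Agent.P.MP_20768c_nt.Tz.EQ (Lt pr sp IsLat jL qN)

theorem k9_alg {P Q R R' Z h h' w w' r r' E E' A B i : ℝ} (hP : P ≠ 0) (hQ : Q ≠ 0) (hR : R ≠ 0)
    (hw : w ≠ 0) (hw' : w' ≠ 0) (hr : r ≠ 0) (hr' : r' ≠ 0)
    (e1 : (P * Q * R * h / (w * r) * E) ^ 2 * A =
      (P * R' * h' / (w' * r') * E') ^ 2 * Q ^ 2 * Z ^ 2 * B) (e2 : 3 * i * R = R' * Z) :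
    h ^ 2 * E ^ 2 * w' ^ 2 * r' ^ 2 * A = 3 ^ 2 * i ^ 2 * h' ^ 2 * E' ^ 2 * w ^ 2 * r ^ 2 * B := by
  have e3 : (P * Q) ^ 2 * R ^ 2 * (h ^ 2 * E ^ 2 * w' ^ 2 * r' ^ 2 * A) =
      (P * Q) ^ 2 * (R' * Z) ^ 2 * (h' ^ 2 * E' ^ 2 * w ^ 2 * r ^ 2 * B) := by
    calc _ = (P * Q * R * h / (w * r) * E) ^ 2 * A * ((w * r) ^ 2 * (w' * r') ^ 2) := by field_simp
      _ = (P * R' * h' / (w' * r') * E') ^ 2 * Q ^ 2 * Z ^ 2 * B *
          ((w * r) ^ 2 * (w' * r') ^ 2) := by rw [e1]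
      _ = _ := by field_simp
  rw [← e2] at e3
  refine mul_left_cancel₀ (mul_ne_zero (pow_ne_zero 2 (mul_ne_zero hP hQ)) (pow_ne_zero 2 hR)) ?_
  linear_combination e3

theorem k9_pow {a b d l r : ℕ} (h : a * b ≤ 3 ^ d) (hb : 3 ^ r ≤ b) (hd : d ≤ l + r) :
    a ≤ 3 ^ l := by
  refine Nat.le_of_mul_le_mul_right (c := 3 ^ r) ?_ (by positivity)
  calc a * 3 ^ r ≤ a * b := Nat.mul_le_mul_left _ hb
    _ ≤ 3 ^ d := h
    _ ≤ 3 ^ (l + r) := Nat.pow_le_pow_right (by norm_num) hd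
    _ = _ := pow_add _ _ _

namespace Cb

variable (s : Cb)

theorem k9_v3 : s.v 3 ≠ 0 := (Valuation.ne_zero_iff _).2 three_ne_zero

theorem v_rat {q : ℚ} (hq : q ≠ 0) : s.v q = s.v 3 ^ padicValRat 3 q := by
  have h1 : s.v (q.num : ℂ) = s.v (q.num.natAbs : ℂ) := by
    rcases Int.natAbs_eq q.num with h | h
    · conv_lhs => rw [h, Int.cast_natCast]
    · conv_lhs => rw [h, Int.cast_neg, Valuation.map_neg, Int.cast_natCast]
  rw [Rat.cast_def, map_div₀, h1, s.v_nat _ (Int.natAbs_ne_zero.2 (Rat.num_ne_zero.2 hq)),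
    s.v_nat _ q.den_nz, padicValRat, padicValInt, zpow_sub₀ s.k9_v3, zpow_natCast, zpow_natCast]

theorem unit_bound : ∃ l : ℕ, ∀ n, 3 ≤ n → ∀ sb, s.IsSec n sb →
    (s.ZZ n).relIndex (s.KD n sb) ≠ 0 ∧ (s.ZZ n).relIndex (s.KD n sb) ≤ 3 ^ l := by
  obtain ⟨f, χ, hχ⟩ := s.exists_cut
  obtain ⟨c, hc⟩ := s.exists_Cc hχ.1
  obtain ⟨l, hl⟩ := U_rank hχ hc
  refine ⟨l, fun n hn sb hs => ?_⟩
  obtain ⟨u, hu⟩ := exists_u hχ hc (n := n) (by omega)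
  obtain ⟨Φ, -, -, hZ⟩ := exists_Phi (by omega) hs
  obtain ⟨h0, h1⟩ := s.ZZ_index (n := n) (by omega)
  have h2 := rk_le (by omega) hs u (H := ⊤) le_top
  rw [Subgroup.relIndex_top_right, hu] at h2
  rw [← Subgroup.relIndex_mul_index hZ] at h0 h1
  exact ⟨left_ne_zero_of_mul h0, k9_pow h1 h2 (hl n (by omega) sb hs)⟩

theorem k9_cc {f : Ideal s.O} {χ : (s.Pr (s.lv f))ˣ →* s.GN} {c : ℕ} (hχ : s.Cut f χ)
    (hc : s.Cc f c) :
    ∃ l : ℕ, ∀ n, 3 ≤ n → ∀ u : (𝓞 (s.K n))ˣ, s.uc u = s.up f χ c n 1 1 →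
      (s.CC u ⊔ s.ZZ n).index ≤ 3 ^ l := by
  obtain ⟨l, hl⟩ := U_rank hχ hc
  refine ⟨l, fun n hn u hu => ?_⟩
  obtain ⟨sb, hs⟩ := s.exists_sec n
  obtain ⟨Φ, -, -, hZ⟩ := exists_Phi (by omega) hs
  obtain ⟨h0, h1⟩ := s.ZZ_index (n := n) (by omega)
  have h2 := rk_le (by omega) hs u (H := s.CC u ⊔ s.ZZ n) le_sup_left
  rw [hu] at h2
  rw [← Subgroup.relIndex_mul_index (le_sup_right : s.ZZ n ≤ s.CC u ⊔ s.ZZ n)] at h0 h1
  rw [mul_comm] at h1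
  exact k9_pow h1 (h2.trans (Subgroup.relIndex_le_of_le_left hZ (left_ne_zero_of_mul h0)))
    (hl n (by omega) sb hs)

theorem class_step : ∃ R n₀ : ℕ, ∀ n, n₀ ≤ n →
    padicValNat 3 (classNumber (s.K n)) ≤ padicValNat 3 (classNumber (s.K (n - 1))) + R := by
  obtain ⟨f, χ, hχ⟩ := s.exists_cut
  obtain ⟨c, hc⟩ := s.exists_Cc hχ.1
  obtain ⟨l, hl⟩ := s.k9_cc hχ hc
  obtain ⟨C, R, n₀, hC, hU, hA⟩ := U_ana hχ hc
  refine ⟨l + R * s.g + 2 * s.g + 2, n₀ + l + 3, fun n hn => ?_⟩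
  obtain ⟨u, hu⟩ := exists_u hχ hc (n := n) (by omega)
  obtain ⟨τ, hτ⟩ := s.exists_tau (n := n) (by omega)
  obtain ⟨A, B, hA0, vA, vB, e1⟩ := res_rel hC (by omega) hU
    (hA n (by omega) ((u : 𝓞 (s.K n)) : s.K n) hu) hτ
  have e2 := reg_index (by omega) hτ u
  obtain ⟨p1, p2, -⟩ := s.places_K (n := n) (by omega)
  obtain ⟨q1, q2, -⟩ := s.places_K (n := n - 1) (by omega)
  have x1 : 2 * s.g * 3 ^ (n - 1) = 2 * s.g * 3 ^ (n - 2) + 4 * s.g * 3 ^ (n - 2) := by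
    rw [show n - 1 = n - 2 + 1 by omega, pow_succ]
    ring
  rw [dedekindZeta_residue_def, dedekindZeta_residue_def, p1, p2, q1, q2, pow_zero, one_mul,
    one_mul, x1, pow_add, show n - 1 - 1 = n - 2 by omega,
    show (4 * π ^ 2) ^ (4 * s.g * 3 ^ (n - 2)) = ((2 * π) ^ (4 * s.g * 3 ^ (n - 2))) ^ 2 by
      rw [← pow_mul, pow_mul' (2 * π)]; congr 1; ring] at e1
  have dz : ∀ j, (0 : ℝ) < |(discr (s.K j) : ℝ)| :=
    fun j => abs_pos.2 (Int.cast_ne_zero.2 (discr_ne_zero _))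
  have wz : ∀ j, Units.torsionOrder (s.K j) ≠ 0 := fun j => (Units.torsionOrder_pos _).ne'
  have hz : ∀ j, classNumber (s.K j) ≠ 0 := fun j => (classNumber_pos _).ne'
  have Ez : ∀ j, EE (s.K j) C ≠ 0 := fun j => (EE_pos _ hC).ne'
  have e3 := k9_alg (by positivity) (by positivity) (Units.regulator_pos _).ne' (Nat.cast_ne_zero.2 (wz _))
    (Nat.cast_ne_zero.2 (wz _)) (Real.sqrt_pos.2 (dz _)).ne' (Real.sqrt_pos.2 (dz _)).ne' e1 e2
  rw [Real.sq_sqrt (dz _).le, Real.sq_sqrt (dz _).le] at e3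
  have i0 : (s.CC u).index ≠ 0 := by
    intro h
    rw [h, Nat.cast_zero, zero_pow two_ne_zero] at e3
    simp only [mul_zero, zero_mul] at e3
    exact mul_ne_zero (mul_ne_zero (mul_ne_zero (mul_ne_zero
      (pow_ne_zero _ (Nat.cast_ne_zero.2 (hz _))) (pow_ne_zero _ (Rat.cast_ne_zero.2 (Ez _))))
      (pow_ne_zero _ (Nat.cast_ne_zero.2 (wz _)))) (dz _).ne') hA0 e3
  have i1 := CC_val (by omega) u i0 (l := l)
    (by
      have := Nat.lt_pow_self (n := n - 2) (a := 3) (by norm_num)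
      omega)
    (hl n (by omega) u hu)
  have dn : ∀ j, |(discr (s.K j) : ℝ)| = ((discr (s.K j)).natAbs : ℕ) := fun j => by
    rw [Nat.cast_natAbs, Int.cast_abs]
  have dv : ∀ j, s.v ((discr (s.K j)).natAbs : ℂ) = s.v 3 ^ padicValInt 3 (discr (s.K j)) :=
    fun j => s.v_nat _ (Int.natAbs_ne_zero.2 (discr_ne_zero _))
  rw [dn, dn] at e3
  have e4 := congrArg (fun x : ℝ => s.v (x : ℂ)) e3
  simp only [ofReal_mul, ofReal_pow, ofReal_natCast, ofReal_ratCast, ofReal_ofNat, map_mul, map_pow,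
    dv, s.v_nat _ (hz _), s.v_nat _ (wz _), s.v_nat _ i0, s.v_rat (Ez _)] at e4
  rw [s.w_val (n := n) (by omega), s.w_val (n := n - 1) (by omega)] at e4
  have t0 : 0 < s.v 3 := pos_iff_ne_zero.2 s.k9_v3
  have vB' : s.v 3 ^ (R * s.g) ≤ s.v B := by
    refine (pow_le_pow_iff_left₀ zero_le zero_le (pow_ne_zero n three_ne_zero)).1 (le_trans ?_ vB)
    rw [← pow_mul, mul_assoc]
    refine pow_le_pow_of_le_one zero_le s.v_three.le (Nat.mul_le_mul_left _ ?_)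
    rw [show 3 ^ n = 9 * 3 ^ (n - 2) by rw [show n = 2 + (n - 2) by omega, pow_add]; simp,
      mul_comm 4, mul_assoc]
    exact Nat.mul_le_mul_left _ (Nat.mul_le_mul_right _ (by norm_num))
  have e5 := (mul_le_mul_right vB' _).trans (e4.symm.le.trans (mul_le_mul_right vA _))
  simp only [← zpow_natCast, ← zpow_mul] at e5
  simp only [← zpow_add₀ s.k9_v3] at e5
  rw [zpow_le_zpow_iff_right_of_lt_one₀ t0 s.v_three] at e5
  have a1 := s.EE_val (n := n) (by omega) hC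
  have a2 := s.disc_val (n := n) (by omega)
  have a3 : ((n - 1 : ℕ) : ℤ) = n - 1 := by omega
  rw [a3, Nat.cast_ofNat] at e5
  generalize 2 * n * (4 * s.g * 3 ^ (n - 2)) = y at e5 a2
  generalize R * s.g = z at e5 ⊢
  omega

theorem class_bound : ∃ R : ℕ, ∀ n, padicValNat 3 (classNumber (s.K n)) ≤ R * (n + 1) := by
  obtain ⟨R, n₀, h⟩ := s.class_step
  let M := ∑ j ∈ Finset.range (n₀ + 1), padicValNat 3 (classNumber (s.K j))
  have key : ∀ n, padicValNat 3 (classNumber (s.K n)) ≤ M + R * n := by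
    intro n
    induction n with
    | zero =>
      exact (Finset.single_le_sum (f := fun j => padicValNat 3 (classNumber (s.K j)))
        (fun _ _ => Nat.zero_le _) (Finset.mem_range.2 (Nat.succ_pos _))).trans
        (Nat.le_add_right _ _)
    | succ n ih =>
      by_cases hn : n₀ ≤ n + 1
      · have := h (n + 1) hn
        rw [Nat.add_sub_cancel] at this
        rw [mul_add, mul_one]
        omega
      · exact (Finset.single_le_sum (f := fun j => padicValNat 3 (classNumber (s.K j)))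
          (fun _ _ => Nat.zero_le _) (Finset.mem_range.2 (by omega))).trans (Nat.le_add_right _ _)
  refine ⟨M + R, fun n => (key n).trans ?_⟩
  nlinarith [Nat.zero_le M, Nat.zero_le R, Nat.zero_le (M * n)]

end Cb

end Pool.Agent.P.MP_20768c_nt.Tz.Cv

end

-- part Cv.L3
section

set_option autoImplicit false

open Complex NumberField IsDedekindDomain Filter Topology
open UpperHalfPlane hiding I
open scoped ComplexConjugate Real MatrixGroups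

namespace Pool.Agent.P.MP_20768c_nt.Tz.Cv

open Pool.Agent.P.MP_20768c_nt.Tz.EQ (Lt pr sp IsLat jL qN)

theorem l3_step {G G' : Type} [CommGroup G] [CommGroup G'] (f : G →* G') (A B : Subgroup G)
    {S V W Z : Subgroup G'} (hS : S ≤ Z) (hB : ∀ x ∈ W ⊓ Z, ∃ b ∈ B, f b = x)
    (hA : A ≤ (V ⊔ S).comap f) (h1 : A.relIndex B ≠ 0) (h2 : S.relIndex (V ⊓ Z) ≠ 0) :
    S.relIndex (W ⊓ Z) ≠ 0 ∧ S.relIndex (W ⊓ Z) ≤ A.relIndex B * S.relIndex (V ⊓ Z) := by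
  have e := Subgroup.relIndex_inf_mul_relIndex S (V ⊓ Z ⊔ S) (W ⊓ Z)
  rw [(inf_eq_left (a := S) (b := V ⊓ Z ⊔ S)).2 le_sup_right] at e
  have e1 : S.relIndex (V ⊓ Z ⊔ S) = S.relIndex (V ⊓ Z) := Subgroup.relIndex_sup_right _ _
  have a1 : S.relIndex ((V ⊓ Z ⊔ S) ⊓ (W ⊓ Z)) ≠ 0 := fun h =>
    h2 (e1 ▸ Subgroup.relIndex_eq_zero_of_le_right inf_le_left h)
  have a2 : S.relIndex ((V ⊓ Z ⊔ S) ⊓ (W ⊓ Z)) ≤ S.relIndex (V ⊓ Z) :=
    e1 ▸ Subgroup.relIndex_le_of_le_right inf_le_left (e1 ▸ h2)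
  have e2 : ((W ⊓ Z).comap f ⊓ B).map f = W ⊓ Z := by
    refine le_antisymm ?_ fun x hx => ?_
    · rintro _ ⟨b, hb, rfl⟩
      exact hb.1
    · obtain ⟨b, hb, rfl⟩ := hB x hx
      exact ⟨b, ⟨hx, hb⟩, rfl⟩
  have e3 : (V ⊓ Z ⊔ S).relIndex (W ⊓ Z) =
      ((V ⊓ Z ⊔ S).comap f).relIndex ((W ⊓ Z).comap f ⊓ B) := by
    rw [Subgroup.relIndex_comap, e2]
  have hle : A ⊓ ((W ⊓ Z).comap f ⊓ B) ≤ (V ⊓ Z ⊔ S).comap f := by
    intro a ha
    obtain ⟨u, hu, t, ht, h⟩ := Subgroup.mem_sup.1 (hA ha.1)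
    refine Subgroup.mem_sup.2 ⟨u, ⟨hu, ?_⟩, t, ht, h⟩
    rw [eq_mul_inv_of_mul_eq h]
    exact Z.mul_mem ha.2.1.2 (Z.inv_mem (hS ht))
  have b1 : (A ⊓ ((W ⊓ Z).comap f ⊓ B)).relIndex ((W ⊓ Z).comap f ⊓ B) ≠ 0 := by
    rw [Subgroup.inf_relIndex_right]
    exact fun h => h1 (Subgroup.relIndex_eq_zero_of_le_right inf_le_right h)
  have b2 : (V ⊓ Z ⊔ S).relIndex (W ⊓ Z) ≠ 0 := by
    rw [e3]
    exact fun h => b1 (Subgroup.relIndex_eq_zero_of_le_left hle h)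
  have b3 : (V ⊓ Z ⊔ S).relIndex (W ⊓ Z) ≤ A.relIndex B := by
    rw [e3]
    refine (Subgroup.relIndex_le_of_le_left hle b1).trans ?_
    rw [Subgroup.inf_relIndex_right]
    exact Subgroup.relIndex_le_of_le_right inf_le_right h1
  rw [← e]
  exact ⟨mul_ne_zero a1 b2, (mul_comm _ _).le.trans (Nat.mul_le_mul b3 a2)⟩

theorem l3_big (R : ℕ) : ∃ j : ℕ, R * (j + 1 + 1) < 3 ^ j := by
  refine ⟨2 * R + 6, lt_of_lt_of_le ?_ (Nat.pow_le_pow_left (show 2 ≤ 3 by norm_num) _)⟩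
  have h : R + 1 ≤ 2 ^ R := Nat.lt_two_pow_self
  have h2 : (R + 1) * (R + 1) ≤ 2 ^ R * 2 ^ R := Nat.mul_le_mul h h
  have e : 2 ^ (2 * R + 6) = 64 * (2 ^ R * 2 ^ R) := by ring
  rw [e]
  nlinarith

namespace Cb

variable (s : Cb) {C : ℕ}

/-- the inclusion of the multiplicative group of `K n` -/
noncomputable abbrev l3K (n : ℕ) : (s.K n)ˣ →* ℂˣ :=
  Units.map (algebraMap (s.K n) ℂ : s.K n →* ℂ)

/-- the inclusion of the unit group of `K n` -/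
noncomputable abbrev l3U (n : ℕ) : (𝓞 (s.K n))ˣ →* ℂˣ :=
  Units.map (algebraMap (𝓞 (s.K n)) ℂ : 𝓞 (s.K n) →* ℂ)

theorem l3_pw (n : ℕ) : Pw (s.K n) 3 ≤ s.Sq.comap (s.l3K n) := by
  rintro _ ⟨y, rfl⟩
  exact mem_Sq.2 ⟨n, ((y : s.K n) : ℂ), (y : s.K n).2, by simp⟩

theorem l3_un (n : ℕ) : (Un (s.K n)).map (s.l3K n) = s.Ux n := by
  rw [Un, MonoidHom.map_range]
  rfl

theorem l3_fin (h3 : 3 ∣ C) (n : ℕ) : s.Sq.relIndex (s.Ux n ⊓ s.SS C) ≠ 0 := by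
  refine (l3_step (s.l3K n) (Pw (s.K n) 3) (Un (s.K n) ⊔ Pw (s.K n) 3) (V := ⊥) (Sq_le_SS h3)
    (fun x hx => ?_) (by simpa using s.l3_pw n) (selC (s.K n) three_pos).1 (by simp)).1
  obtain ⟨b, hb, e⟩ := (s.l3_un n).ge hx.1
  exact ⟨b, Subgroup.mem_sup_left hb, e⟩

theorem l3_tors {n : ℕ} (hn : 1 ≤ n) {ε : (𝓞 (s.K n))ˣ} (h : IsOfFinOrder ε) :
    s.l3U n ε ∈ s.Sq := by
  obtain ⟨m, b, hm, hb⟩ := k7_p_tors hn h
  refine k7_p_cop _ hm (mem_Sq.2 ⟨n + 1, zt (n + 1) ^ b, pow_mem (s.zt_mem _) _, ?_⟩)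
    (mem_Sq.2 ⟨n, s.uc ε, uc_mem ε, rfl⟩)
  rw [pow_right_comm, zt_cube, ← hb, ← map_pow]
  rfl

theorem l3_zz {n : ℕ} (hn : 1 ≤ n) : s.ZZ n ≤ (s.Ux (n - 1) ⊔ s.Sq).comap (s.l3U n) := by
  rw [ZZ, Subgroup.closure_le]
  rintro ε (⟨η, rfl⟩ | h | h)
  · exact Subgroup.mem_sup_right (mem_Sq.2 ⟨n, s.uc η, uc_mem η, by rw [← k7_p_pow]; rfl⟩)
  · exact Subgroup.mem_sup_right (s.l3_tors hn h)
  · exact Subgroup.mem_sup_left (mem_Ux.2 (unit_down ε h))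

theorem U_le (h3 : 3 ∣ C) : ∃ R : ℕ, ∀ n, s.Sq.relIndex (s.Ux n ⊓ s.SS C) ≠ 0 ∧
    s.Sq.relIndex (s.Ux n ⊓ s.SS C) ≤ 3 ^ (R * (n + 1)) := by
  obtain ⟨l, hl⟩ := s.unit_bound
  have step : ∀ n, 3 ≤ n → s.Sq.relIndex (s.Ux n ⊓ s.SS C) ≤
      3 ^ l * s.Sq.relIndex (s.Ux (n - 1) ⊓ s.SS C) := by
    intro n hn
    obtain ⟨sb, hs⟩ := St.exists_sec s.toSt n
    refine (l3_step (s.l3U n) (s.ZZ n) (s.KD n sb) (Sq_le_SS h3) (fun x hx => ?_)
      (s.l3_zz (by omega)) (hl n hn sb hs).1 (s.l3_fin h3 _)).2.trans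
      (Nat.mul_le_mul_right _ (hl n hn sb hs).2)
    obtain ⟨⟨ε, rfl⟩, hx⟩ := hx
    obtain ⟨r, hr, e⟩ := (mem_SS h3).1 hx
    exact ⟨ε, kd_of_cube (by omega) hs e.symm hr.all, rfl⟩
  generalize ha : (fun n => s.Sq.relIndex (s.Ux n ⊓ s.SS C)) = a
  have ha' : ∀ n, s.Sq.relIndex (s.Ux n ⊓ s.SS C) = a n := fun n => congrFun ha n
  refine ⟨l + a 0 + a 1 + a 2, fun n => ⟨s.l3_fin h3 n, ?_⟩⟩
  simp only [ha'] at step ⊢
  have base : ∀ i, a i ≤ l + a 0 + a 1 + a 2 → a i ≤ 3 ^ ((l + a 0 + a 1 + a 2) * (i + 1)) :=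
    fun i hi => (Nat.lt_pow_self (by norm_num)).le.trans
      (Nat.pow_le_pow_right three_pos (hi.trans (Nat.le_mul_of_pos_right _ (Nat.succ_pos i))))
  induction n with
  | zero => exact base 0 (by omega)
  | succ n ih =>
    rcases n with _ | _ | n
    · exact base 1 (by omega)
    · exact base 2 (by omega)
    refine (step _ (by omega)).trans ((Nat.mul_le_mul_left _ ih).trans ?_)
    rw [← pow_add]
    exact Nat.pow_le_pow_right three_pos (by nlinarith)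

theorem W_le (hC : C ≠ 0) (h3 : 3 ∣ C) : ∃ R : ℕ, ∀ n, s.Sq.relIndex (s.Kx n ⊓ s.SS C) ≠ 0 ∧
    s.Sq.relIndex (s.Kx n ⊓ s.SS C) ≤ 3 ^ (R * (n + 1)) := by
  obtain ⟨R, hR⟩ := s.U_le h3
  obtain ⟨B, hB⟩ := s.nP_bdd hC
  obtain ⟨R', hR'⟩ := s.class_bound
  refine ⟨B + R' + R, fun n => ?_⟩
  have hA := selA (s.K n) three_pos hC
  have h := l3_step (s.l3K n) (Un (s.K n) ⊔ Pw (s.K n) 3) (Vs (s.K n) 3 C) (W := s.Kx n)
    (V := s.Ux n) (Sq_le_SS h3) (fun x hx => by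
      obtain ⟨⟨b, rfl⟩, hx⟩ := hx
      obtain ⟨r, hr, e⟩ := (mem_SS h3).1 hx
      exact ⟨b, St.vs_of_fixed s.toSt (s.K n) three_pos e.symm fun V σ h1 h2 h4 =>
        hr.2.2.1 V σ h1 h2 fun x hx => h4 x (s.N_le n hx), rfl⟩)
    (sup_le (Subgroup.map_le_iff_le_comap.1 ((s.l3_un n).le.trans le_sup_left))
      ((s.l3_pw n).trans (Subgroup.comap_mono le_sup_right))) hA.1 (hR n).1
  refine ⟨h.1, h.2.trans ((Nat.mul_le_mul (hA.2.trans (Nat.mul_le_mul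
    (Nat.pow_le_pow_right three_pos (hB n)) ((cl_three _).trans
      (Nat.pow_le_pow_right three_pos (hR' n))))) (hR n).2).trans ?_)⟩
  rw [← pow_add, ← pow_add]
  exact Nat.pow_le_pow_right three_pos (by nlinarith)

theorem l3_quot (hC : C ≠ 0) (h3 : 3 ∣ C) : Finite (s.SS C ⧸ s.Sq.subgroupOf (s.SS C)) := by
  obtain ⟨R, hR⟩ := s.W_le hC h3
  obtain ⟨j, hj⟩ := l3_big R
  obtain ⟨γ, hγ⟩ := s.exists_gam
  have hm : ∀ z : s.SS C, (Units.map (γ : ℂ →* ℂ)).comp (s.SS C).subtype z ∈ s.SS C := by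
    intro z
    obtain ⟨r, hr, e⟩ := (mem_SS h3).1 z.2
    exact (mem_SS h3).2 ⟨γ r, hr.aut γ, by rw [← map_pow, ← e]; rfl⟩
  let g : s.SS C →* s.SS C := ((Units.map (γ : ℂ →* ℂ)).comp (s.SS C).subtype).codRestrict _ hm
  have hg : ∀ (m : ℕ) (z : s.SS C), (((g^[m] z : s.SS C) : ℂˣ) : ℂ) = (γ ^ m) ((z : ℂˣ) : ℂ) := by
    intro m
    induction m with
    | zero => intro z; rfl
    | succ m ih => intro z; rw [Function.iterate_succ_apply, ih, pow_succ]; rfl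
  let N := s.Sq.subgroupOf (s.SS C)
  let q : s.SS C ⧸ N →* s.SS C ⧸ N := QuotientGroup.map N N g fun z hz => by
    obtain ⟨n, y, hy, e⟩ := mem_Sq.1 (Subgroup.mem_subgroupOf.1 hz)
    exact mem_Sq.2 ⟨n, γ y, K_aut γ hy, by rw [← map_pow, ← e]; rfl⟩
  have hq : ∀ (m : ℕ) (z : s.SS C), q^[m] (z : s.SS C ⧸ N) = (g^[m] z : s.SS C) := by
    intro m
    induction m with
    | zero => intro z; rfl
    | succ m ih => intro z; rw [Function.iterate_succ_apply, Function.iterate_succ_apply, ← ih]; rfl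
  have hK : ∀ z : s.SS C, ∃ n, ((z : ℂˣ) : ℂ) ∈ s.K n := fun z => by
    obtain ⟨r, hr, e⟩ := (mem_SS h3).1 z.2
    rw [e]
    exact hr.2.1
  let T := ((s.Kx (j + 1) ⊓ s.SS C).subgroupOf (s.SS C)).map (QuotientGroup.mk' N)
  have hT : Nat.card T = s.Sq.relIndex (s.Kx (j + 1) ⊓ s.SS C) := by
    rw [← Subgroup.relIndex_ker, QuotientGroup.ker_mk', Subgroup.relIndex_subgroupOf inf_le_right]
  have hfin : (T : Set (s.SS C ⧸ N)).Finite := Nat.finite_of_card_ne_zero (hT ▸ (hR _).1)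
  have hsub : {a | q^[3 ^ j] a = a} ⊆ (T : Set (s.SS C ⧸ N)) := by
    intro a ha
    obtain ⟨z, rfl⟩ := QuotientGroup.mk_surjective a
    rw [Set.mem_ofPred_eq, hq] at ha
    obtain ⟨n1, y, hy, e⟩ := mem_Sq.1 (Subgroup.mem_subgroupOf.1 (QuotientGroup.eq.1 ha.symm))
    obtain ⟨n2, hz⟩ := hK z
    have e2 : (γ ^ 3 ^ (j + 1 - 1)) ((z : ℂˣ) : ℂ) = ((z : ℂˣ) : ℂ) * y ^ 3 := by
      rw [← e, Nat.add_sub_cancel, ← hg]
      simp
    obtain ⟨w, hw, h0, h1⟩ := h90 hγ (Nat.le_add_left 1 j) (s.K_mono (le_max_right n1 n2) hz)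
      (Units.ne_zero _) (s.K_mono (le_max_left n1 n2) hy) e2
    have hs : Units.mk0 w h0 ^ 3 ∈ s.Sq := mem_Sq.2 ⟨_, w, hw, by simp⟩
    have hm : (z : ℂˣ) / Units.mk0 w h0 ^ 3 ∈ s.SS C := div_mem z.2 (Sq_le_SS h3 hs)
    refine ⟨⟨_, hm⟩, Subgroup.mem_subgroupOf.2 ⟨mem_Kx.2 (by simpa using h1), hm⟩,
      QuotientGroup.eq.2 (Subgroup.mem_subgroupOf.2 ?_)⟩
    simpa using hs
  have hlt : {a | q^[3 ^ j] a = a}.ncard < 3 ^ 3 ^ j := by
    refine (Set.ncard_le_ncard hsub hfin).trans_lt ?_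
    rw [← Nat.card_coe_set_eq]
    exact (hT.le.trans (hR _).2).trans_lt (Nat.pow_lt_pow_right (by norm_num) hj)
  have hsq : ∀ a : s.SS C ⧸ N, a ^ 3 = 1 := by
    intro a
    obtain ⟨z, rfl⟩ := QuotientGroup.mk_surjective a
    obtain ⟨n, hz⟩ := hK z
    rw [← QuotientGroup.mk_pow, QuotientGroup.eq_one_iff]
    exact Subgroup.mem_subgroupOf.2 (mem_Sq.2 ⟨n, _, hz, by simp⟩)
  refine Set.finite_univ_iff.1 ((hfin.subset hsub).subset fun a _ => ?_)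
  obtain ⟨z, rfl⟩ := QuotientGroup.mk_surjective a
  obtain ⟨n, hz⟩ := hK z
  have key := growth (A := s.SS C ⧸ N) hsq q (j := j) (N := n) (x := (z : s.SS C ⧸ N))
  refine key ?_ (hfin.subset hsub) hlt
  rw [hq]
  congr 1
  refine Subtype.ext (Units.ext ?_)
  rw [hg]
  exact (gam_fix hγ (Nat.le_add_left 1 n) hz).2 (s.K_mono (Nat.le_add_right n 1) hz)

theorem finite_cond (hC : C ≠ 0) (h3 : 3 ∣ C) : ∃ X : Finset ℂ, (∀ r ∈ X, s.Cond C r) ∧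
    ∀ r, s.Cond C r → ∃ r₀ ∈ X, ∃ n, r / r₀ ∈ s.K n := by
  have := s.l3_quot hC h3
  have h : ∀ a : s.SS C ⧸ s.Sq.subgroupOf (s.SS C), ∃ r, s.Cond C r ∧
      ((a.out : ℂˣ) : ℂ) = r ^ 3 := fun a => (mem_SS h3).1 a.out.2
  choose ρ h1 h2 using h
  refine ⟨(Set.finite_range ρ).toFinset, fun r hr => ?_, fun r hr => ?_⟩
  · obtain ⟨a, rfl⟩ := (Set.Finite.mem_toFinset _).1 hr
    exact h1 a
  let z : s.SS C := ⟨Units.mk0 r hr.1 ^ 3, (mem_SS h3).2 ⟨r, hr, by simp⟩⟩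
  refine ⟨ρ z, (Set.Finite.mem_toFinset _).2 ⟨_, rfl⟩, ?_⟩
  obtain ⟨n, y, hy, e⟩ := mem_Sq.1 (Subgroup.mem_subgroupOf.1
    (QuotientGroup.eq.1 (QuotientGroup.out_eq' (z : s.SS C ⧸ s.Sq.subgroupOf (s.SS C)))))
  have e2 : (r / ρ z) ^ 3 = y ^ 3 := by
    rw [← e, div_pow, ← h2, div_eq_inv_mul]
    simp [z]
  have y0 : y ≠ 0 := fun h => div_ne_zero hr.1 (h1 z).1
    (pow_eq_zero_iff three_ne_zero |>.1 (by rw [e2, h, zero_pow three_ne_zero]))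
  obtain ⟨i, hi⟩ := cube_one (x := r / ρ z / y) (by rw [div_pow, e2, div_self (pow_ne_zero 3 y0)])
  rw [div_eq_iff y0] at hi
  exact ⟨n + 1, hi ▸ mul_mem (pow_mem (s.K_mono (Nat.le_add_left 1 n) (s.zt_mem 1)) i)
    (s.K_mono (Nat.le_succ n) hy)⟩

end Cb

end Pool.Agent.P.MP_20768c_nt.Tz.Cv

end

-- part Cv.Fin
section

set_option autoImplicit false

open Complex NumberField IsDedekindDomain Filter Topology
open UpperHalfPlane hiding I
open scoped ComplexConjugate Real MatrixGroups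

namespace Pool.Agent.P.MP_20768c_nt.Tz.Cv

open Pool.Agent.P.MP_20768c_nt.Tz.EQ (Lt pr sp IsLat jL qN)

theorem fin_up {K k : Type} [Field K] [NumberField K] [Field k] [Algebra k (AlgebraicClosure K)]
    (N : IntermediateField k (AlgebraicClosure K))
    (L : IntermediateField N (AlgebraicClosure K)) (hL : IsGalois N L) (r : ℕ)
    (hr : Module.finrank N L = 3 ^ r) (h : FinQ (Hq (N : Set (AlgebraicClosure K)))) :
    FinQ (Hq (L : Set (AlgebraicClosure K))) := by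
  have hfL : FiniteDimensional N L := Module.finite_of_finrank_pos (by rw [hr]; positivity)
  refine asc_fld L (N : Set (AlgebraicClosure K)) (fun x => x.2)
    (fun x hx => L.algebraMap_mem ⟨x, hx⟩) (fun g _ => ⟨r, ?_⟩) h
  rw [← hr, ← IsGalois.card_aut_eq_finrank, pow_card_eq_one']

theorem fin_T {k Ω : Type} [Field k] [Field Ω] [Algebra k Ω] (N : IntermediateField k Ω)
    [FiniteDimensional k N] (L : IntermediateField N Ω) {r : ℕ}
    (hr : Module.finrank N L = 3 ^ r) : ∃ T : Finset Ω, ∀ g : Ω →+* Ω,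
      (∀ x : k, g (algebraMap k Ω x) = algebraMap k Ω x) → (∀ x ∈ T, g x = x) →
      ∀ x ∈ L, g x = x := by
  classical
  have hfL : FiniteDimensional N L := Module.finite_of_finrank_pos (by rw [hr]; positivity)
  obtain ⟨T₁, h₁⟩ := exists_T N
  obtain ⟨T₂, h₂⟩ := exists_T L
  exact ⟨T₁ ∪ T₂, fun g h hg => h₂ g
    (fun x => h₁ g h (fun y hy => hg y (Finset.mem_union_left _ hy)) x x.2)
    fun y hy => hg y (Finset.mem_union_right _ hy)⟩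

theorem fin_adj {Ω : Type} [Field Ω] [Algebra ℚ Ω] (g : Ω →+* Ω) {δ : Ω} (h : g δ = δ) :
    ∀ y ∈ IntermediateField.adjoin ℚ {δ}, g y = y := by
  intro y hy
  induction hy using IntermediateField.adjoin_induction with
  | mem y hy => rw [Set.mem_singleton_iff.1 hy, h]
  | algebraMap q =>
    exact RingHom.congr_fun (Subsingleton.elim (g.comp (algebraMap ℚ Ω)) (algebraMap ℚ Ω)) q
  | add a c _ _ ha hc => rw [map_add, ha, hc]
  | inv a _ ha => rw [map_inv₀, ha]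
  | mul a c _ _ ha hc => rw [map_mul, ha, hc]

theorem fin_p3 {K k : Type} [Field K] [NumberField K] [Field k] [Algebra k (AlgebraicClosure K)]
    (N : IntermediateField k (AlgebraicClosure K)) (hN : IsAbelianGalois k N)
    (hf : FiniteDimensional k N) (h : ∀ N₀ : IntermediateField k (AlgebraicClosure K),
      IsGalois k N₀ → (∀ g h : N₀ ≃ₐ[k] N₀, g * h = h * g) → ¬ 3 ∣ Module.finrank k N₀ →
      FinQ (Hq (N₀ : Set (AlgebraicClosure K)))) : FinQ (Hq (N : Set (AlgebraicClosure K))) := by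
  obtain ⟨N₀, hle, g0, c0, o0, t0⟩ := exists_p3 N
  exact asc_fld N (N₀ : Set (AlgebraicClosure K)) N₀.algebraMap_mem (fun x hx => hle hx) t0
    (h N₀ g0 c0 o0)

theorem fin_cb {K : Type} [Field K] [NumberField K] {D : ℤ} (h0 : D < 0) (h3 : D % 3 = 1)
    {δ : AlgebraicClosure K} (hδ : δ ^ 2 = D)
    (N : IntermediateField (IntermediateField.adjoin ℚ {δ}) (AlgebraicClosure K))
    (hg : IsGalois (IntermediateField.adjoin ℚ {δ}) N)
    (hc : ∀ g h : N ≃ₐ[IntermediateField.adjoin ℚ {δ}] N, g * h = h * g)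
    (ho : ¬ 3 ∣ Module.finrank (IntermediateField.adjoin ℚ {δ}) N) :
    FinQ (Hq (N : Set (AlgebraicClosure K))) := fun C hC h2 => by
  obtain ⟨s, e, k1, k2, k3, he⟩ := exists_cb h0 h3 hδ N hg hc ho fun s F _ _ h => s.ex_ray F h
  obtain ⟨X, hX, hX'⟩ := s.finite_cond hC h2
  exact finite_HQ k1 k2 k3 he h2 hX hX'

theorem mainA (K : Type) [Field K] [NumberField K] (E : WeierstrassCurve K) [E.IsElliptic]
    (D : ℤ) (h0 : D < 0) (h3 : D % 3 = 1) (δ : AlgebraicClosure K) (hδ : δ ^ 2 = D)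
    (N : IntermediateField (IntermediateField.adjoin ℚ {δ}) (AlgebraicClosure K))
    (hN : IsAbelianGalois (IntermediateField.adjoin ℚ {δ}) N)
    (hf : FiniteDimensional (IntermediateField.adjoin ℚ {δ}) N)
    (L : IntermediateField N (AlgebraicClosure K)) (hL : IsGalois N L) (r : ℕ)
    (hr : Module.finrank N L = 3 ^ r)
    (hK : ∀ x : K, algebraMap K (AlgebraicClosure K) x ∈ L)
    (hE : ∀ (g : Gal K) (P : Tor E), (∀ x ∈ L, g x = x) → P + P + P = 0 → act E g P = P)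
    (F : IntermediateField K (AlgebraicClosure K)) (hF : IsCyc F)
    (S : Set (HeightOneSpectrum (𝓞 K))) (hS : S.Finite) :
    Module.Finite ℤ_[3] (Sel E S F →+ ℚ_[3] ⧸ (1 : Submodule ℤ_[3] ℚ_[3])) := by
  classical
  have f2 := fin_up N L hL r hr
    (fin_p3 N hN hf fun N₀ g0 c0 o0 => fin_cb h0 h3 hδ N₀ g0 c0 o0)
  have h1 : Hs (L : Set (AlgebraicClosure K)) ≤ F.fixingSubgroup ∧
      (Hs (L : Set (AlgebraicClosure K))).relIndex F.fixingSubgroup ≠ 0 := by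
    obtain ⟨T, hT⟩ := fin_T N L hr
    exact hs_index hF _ (insert δ T) fun g hg => hT g.toRingEquiv.toRingHom
      (fun x => fin_adj g.toRingEquiv.toRingHom (hg δ (Finset.mem_insert_self _ _)) x x.2)
      fun x hx => hg x (Finset.mem_insert_of_mem hx)
  exact dual_fg (sel_tors E S F)
    (sel_three E S F hS (L : Set (AlgebraicClosure K)) hE h1.1 h1.2 three_ne_zero (hh_down hK f2))

end Pool.Agent.P.MP_20768c_nt.Tz.Cv

end
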